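import Pool.Agent.Helper6.TOP.Br2

set_option autoImplicit false
set_option linter.all false
set_option maxRecDepth 100000

namespace Pool.Agent.TOPR.R6094

open Helper10.PC hiding V3
open Helper80.CW.DL Pool.Agent.Helper6.TOP

/-- `p` scaled by `2 ^ mu`, degree in `p` at most `dp`, degree in `u` at most `Kd` -/
def mu : ℕ := 12
def dp : ℕ := 6
def Kd : ℕ := 10

/-- exponents of `u` -/
def AL : List Al := [(0, 0, 0), (0, 0, 2), (0, 0, 4), (0, 0, 5), (0, 0, 6), (0, 0, 7), (0, 0, 8), (0, 0, 9), (0, 0, 10), (0, 1, 1), (0, 1, 3), (0, 1, 4), (0, 1, 5), (0, 1, 6), (0, 1, 7), (0, 1, 8), (0, 1, 9), (0, 2, 0), (0, 2, 2), (0, 2, 3), (0, 2, 4), (0, 2, 5), (0, 2, 6), (0, 2, 7), (0, 2, 8), (0, 3, 1), (0, 3, 2), (0, 3, 3), (0, 3, 4), (0, 3, 5), (0, 3, 6), (0, 3, 7), (0, 4, 0), (0, 4, 1), (0, 4, 2), (0, 4, 3), (0, 4, 4), (0, 4, 5), (0, 4, 6), (0, 5, 0), (0, 5, 1), (0, 5, 2), (0, 5, 3), (0, 5, 4), (0, 5, 5), (0, 6, 0), (0, 6, 1), (0, 6, 2), (0, 6, 3), (0, 6,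 4), (0, 7, 0), (0, 7, 1), (0, 7, 2), (0, 7, 3), (0, 8, 0), (0, 8, 1), (0, 8, 2), (0, 9, 0), (0, 9, 1), (0, 10, 0), (1, 0, 3), (1, 0, 4), (1, 0, 5), (1, 0, 6), (1, 0, 7), (1, 0, 8), (1, 0, 9), (1, 1, 2), (1, 1, 3), (1, 1, 4), (1, 1, 5), (1, 1, 6), (1, 1, 7), (1, 1, 8), (1, 2, 1), (1, 2, 2), (1, 2, 3), (1, 2, 4), (1, 2, 5), (1, 2, 6), (1, 2, 7), (1, 3, 0), (1, 3, 1), (1, 3, 2), (1, 3, 3), (1, 3, 4), (1, 3, 5), (1, 3, 6), (1, 4, 0), (1, 4, 1), (1, 4, 2), (1, 4, 3), (1, 4, 4), (1, 4, 5), (1, 5, 0), (1, 5, 1), (1, 5, 2), (1, 5, 3), (1, 5, 4), (1, 6, 0), (1, 6, 1), (1, 6, 2), (1, 6, 3), (1, 7, 0), (1, 7, 1), (1, 7, 2), (1, 8, 0), (1, 8, 1), (1, 9, 0), (2, 0, 0), (2, 0, 2), (2, 0, 3), (2, 0, 4), (2, 0, 5), (2, 0, 6), (2, 0, 7), (2, 0, 8), (2, 1, 1), (2, 1, 2), (2, 1, 3), (2, 1, 4), (2, 1, 5), (2, 1, 6), (2, 1, 7), (2, 2, 0), (2, 2, 1), (2, 2, 2), (2, 2, 3), (2, 2, 4), (2, 2, 5), (2, 2, 6), (2, 3, 0), (2, 3, 1), (2, 3, 2), (2, 3, 3), (2, 3, 4), (2,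 3, 5), (2, 4, 0), (2, 4, 1), (2, 4, 2), (2, 4, 3), (2, 4, 4), (2, 5, 0), (2, 5, 1), (2, 5, 2), (2, 5, 3), (2, 6, 0), (2, 6, 1), (2, 6, 2), (2, 7, 0), (2, 7, 1), (2, 8, 0), (3, 0, 1), (3, 0, 2), (3, 0, 3), (3, 0, 4), (3, 0, 5), (3, 0, 6), (3, 0, 7), (3, 1, 0), (3, 1, 1), (3, 1, 2), (3, 1, 3), (3, 1, 4), (3, 1, 5), (3, 1, 6), (3, 2, 0), (3, 2, 1), (3, 2, 2), (3, 2, 3), (3, 2, 4), (3, 2, 5), (3, 3, 0), (3, 3, 1), (3, 3, 2), (3, 3, 3), (3, 3, 4), (3, 4, 0), (3, 4, 1), (3, 4, 2), (3, 4, 3), (3, 5, 0), (3, 5, 1), (3, 5, 2), (3, 6, 0), (3, 6, 1), (3, 7, 0), (4, 0, 0), (4, 0, 1), (4, 0, 2), (4, 0, 3), (4, 0, 4), (4, 0, 5), (4, 0, 6), (4, 1, 0), (4, 1, 1), (4, 1, 2), (4, 1, 3), (4, 1, 4), (4, 1, 5), (4, 2, 0), (4, 2, 1), (4, 2, 2), (4, 2, 3), (4, 2, 4), (4, 3, 0), (4, 3, 1), (4, 3, 2), (4, 3, 3), (4, 4, 0), (4, 4, 1), (4, 4, 2), (4, 5, 0), (4, 5, 1), (4, 6, 0), (5, 0, 0), (5, 0, 1), (5, 0, 2), (5, 0, 3), (5, 0, 4), (5, 0, 5), (5, 1, 0), (5, 1, 1), (5,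 1, 2), (5, 1, 3), (5, 1, 4), (5, 2, 0), (5, 2, 1), (5, 2, 2), (5, 2, 3), (5, 3, 0), (5, 3, 1), (5, 3, 2), (5, 4, 0), (5, 4, 1), (5, 5, 0), (6, 0, 0), (6, 0, 1), (6, 0, 2), (6, 0, 3), (6, 0, 4), (6, 1, 0), (6, 1, 1), (6, 1, 2), (6, 1, 3), (6, 2, 0), (6, 2, 1), (6, 2, 2), (6, 3, 0), (6, 3, 1), (6, 4, 0), (7, 0, 0), (7, 0, 1), (7, 0, 2), (7, 0, 3), (7, 1, 0), (7, 1, 1), (7, 1, 2), (7, 2, 0), (7, 2, 1), (7, 3, 0), (8, 0, 0), (8, 0, 1), (8, 0, 2), (8, 1, 0), (8, 1, 1), (8, 2, 0), (9, 0, 0), (9, 0, 1), (9, 1, 0), (10, 0, 0)]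


def lQp_0 : List (T ℤ) := [(P (nat_lit 5034231565398356583608483840000)), (P (nat_lit 0)), (T.h (T.h (T.h (M (nat_lit 169053768763270514532562239487)) (T.h (P (nat_lit 0)) (T.h (M (nat_lit 86023058324020239794175)) (T.h (P (nat_lit 0)) (T.h (P (nat_lit 544121181330997248)) (T.h (P (nat_lit 0)) (M (nat_lit 1570308029599)))))))) (T.h (P (nat_lit 0)) (T.h (T.h (P (nat_lit 1217783071519776866041856)) (T.h (P (nat_lit 0)) (T.h (M (nat_lit 2804189857717420031)) (T.h (P (nat_lit 0)) (P (nat_lit 1796611202864)))))) (T.h (P (nat_lit 0)) (T.h (T.h (M (nat_lit 2581556048120774655)) (T.h (P (nat_lit 0)) (P (nat_lit 2363898821680)))) (T.h (P (nat_lit 0)) (P (nat_lit 2889973006256)))))))) (T.h (T.h (P (nat_lit 0)) (T.h (T.h (P (nat_lit 0)) (T.h (M (nat_lit 1587471070678617161727)) (T.h (P (nat_lit 0)) (P (nat_lit 2147752284127232))))) (T.h (P (nat_lit 0)) (T.h (T.h (P (nat_lit 0)) (P (nat_lit 3737556218937344))) (P (nat_lit 0)))))) (T.h (T.h (T.h (P (nat_lit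 1217783071519776866041856)) (T.h (P (nat_lit 0)) (T.h (M (nat_lit 2804189857717420031)) (T.h (P (nat_lit 0)) (P (nat_lit 1796611202864)))))) (T.h (P (nat_lit 0)) (T.h (T.h (M (nat_lit 580103659812028415)) (T.h (P (nat_lit 0)) (P (nat_lit 2120391294816)))) (T.h (P (nat_lit 0)) (M (nat_lit 662576913727)))))) (T.h (T.h (P (nat_lit 0)) (T.h (T.h (P (nat_lit 0)) (P (nat_lit 3737556218937344))) (P (nat_lit 0)))) (T.h (T.h (T.h (M (nat_lit 2581556048120774655)) (T.h (P (nat_lit 0)) (P (nat_lit 2363898821680)))) (T.h (P (nat_lit 0)) (M (nat_lit 662576913727)))) (T.h (P (nat_lit 0)) (P (nat_lit 2889973006256)))))))), (T.h (T.h (T.h (P (nat_lit 0)) (T.h (M (nat_lit 9182275218262489025208123391)) (T.h (P (nat_lit 0)) (T.h (M (nat_lit 8298625833979166588927)) (T.h (P (nat_lit 0)) (M (nat_lit 5191557644550143))))))) (T.h (P (nat_lit 0)) (T.h (T.h (P (nat_lit 0)) (T.h (M (nat_lit 13613235312272529686527)) (T.h (P (nat_lit 0)) (M (nat_lit 8116801292140543)))))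 (T.h (P (nat_lit 0)) (T.h (T.h (P (nat_lit 0)) (M (nat_lit 7111101373186047))) (P (nat_lit 0))))))) (T.h (T.h (P (nat_lit 0)) (T.h (T.h (P (nat_lit 2059946901904829097967616)) (T.h (P (nat_lit 0)) (T.h (M (nat_lit 4201936957627957247)) (T.h (P (nat_lit 0)) (M (nat_lit 1985198807423)))))) (T.h (P (nat_lit 0)) (T.h (T.h (M (nat_lit 14029646457506627583)) (T.h (P (nat_lit 0)) (P (nat_lit 1791893248488)))) (T.h (P (nat_lit 0)) (P (nat_lit 1884415318088))))))) (T.h (T.h (T.h (P (nat_lit 0)) (T.h (M (nat_lit 13613235312272529686527)) (T.h (P (nat_lit 0)) (M (nat_lit 8116801292140543))))) (T.h (P (nat_lit 0)) (T.h (T.h (P (nat_lit 0)) (P (nat_lit 8622493221978112))) (P (nat_lit 0))))) (T.h (T.h (P (nat_lit 0)) (T.h (T.h (M (nat_lit 14029646457506627583)) (T.h (P (nat_lit 0)) (P (nat_lit 1791893248488)))) (T.h (P (nat_lit 0)) (P (nat_lit 2061010941808))))) (T.h (T.h (T.h (P (nat_lit 0)) (M (nat_lit 7111101373186047))) (P (nat_lit 0))) (T.h (T.h (P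 (nat_lit 0)) (P (nat_lit 1884415318088))) (P (nat_lit 0)))))))), (T.h (T.h (T.h (M (nat_lit 7193110628990432326231317807103)) (T.h (P (nat_lit 0)) (T.h (M (nat_lit 6992900219414241486045183)) (T.h (P (nat_lit 0)) (T.h (P (nat_lit 1508552952724324352)) (T.h (P (nat_lit 0)) (P (nat_lit 3652989002656)))))))) (T.h (P (nat_lit 0)) (T.h (T.h (M (nat_lit 3601865127594643054133247)) (T.h (P (nat_lit 0)) (T.h (M (nat_lit 4679660363636015103)) (T.h (P (nat_lit 0)) (M (nat_lit 3133739275967)))))) (T.h (P (nat_lit 0)) (T.h (T.h (P (nat_lit 1323694191909273600)) (T.h (P (nat_lit 0)) (M (nat_lit 4410506974159)))) (T.h (P (nat_lit 0)) (M (nat_lit 2838909460015)))))))) (T.h (T.h (P (nat_lit 0)) (T.h (T.h (P (nat_lit 0)) (T.h (M (nat_lit 2705769387334379241471)) (T.h (P (nat_lit 0)) (M (nat_lit 10176654584184831))))) (T.h (P (nat_lit 0)) (T.h (T.h (P (nat_lit 0)) (M (nat_lit 5489541307727871))) (P (nat_lit 0)))))) (T.h (T.h (T.h (M (nat_lit 3601865127594643054133247))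 (T.h (P (nat_lit 0)) (T.h (M (nat_lit 4679660363636015103)) (T.h (P (nat_lit 0)) (M (nat_lit 3133739275967)))))) (T.h (P (nat_lit 0)) (T.h (T.h (M (nat_lit 1791605768886157311)) (T.h (P (nat_lit 0)) (M (nat_lit 4950411610591)))) (T.h (P (nat_lit 0)) (P (nat_lit 1714226929744)))))) (T.h (T.h (P (nat_lit 0)) (T.h (T.h (P (nat_lit 0)) (M (nat_lit 5489541307727871))) (P (nat_lit 0)))) (T.h (T.h (T.h (P (nat_lit 1323694191909273600)) (T.h (P (nat_lit 0)) (M (nat_lit 4410506974159)))) (T.h (P (nat_lit 0)) (P (nat_lit 1714226929744)))) (T.h (P (nat_lit 0)) (M (nat_lit 2838909460015)))))))), (T.h (T.h (T.h (P (nat_lit 0)) (T.h (P (nat_lit 9220441513304250013792075776)) (T.h (P (nat_lit 0)) (T.h (P (nat_lit 8225243363614140661760)) (T.h (P (nat_lit 0)) (P (nat_lit 5183491122266112))))))) (T.h (P (nat_lit 0)) (T.h (T.h (P (nat_lit 0)) (T.h (P (nat_lit 13527727843841541144576)) (T.h (P (nat_lit 0)) (P (nat_lit 8002090367451136))))) (T.h (P (nat_lit 0))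 (T.h (T.h (P (nat_lit 0)) (P (nat_lit 4823750758957056))) (P (nat_lit 0))))))) (T.h (T.h (P (nat_lit 0)) (T.h (T.h (M (nat_lit 1668403387351284754415615)) (T.h (P (nat_lit 0)) (T.h (P (nat_lit 10297903490323709952)) (T.h (P (nat_lit 0)) (P (nat_lit 3962973290624)))))) (T.h (P (nat_lit 0)) (T.h (T.h (P (nat_lit 14940403265748074496)) (T.h (P (nat_lit 0)) (M (nat_lit 2928580113343)))) (T.h (P (nat_lit 0)) (M (nat_lit 1824467767871))))))) (T.h (T.h (T.h (P (nat_lit 0)) (T.h (P (nat_lit 13527727843841541144576)) (T.h (P (nat_lit 0)) (P (nat_lit 8002090367451136))))) (T.h (P (nat_lit 0)) (T.h (T.h (P (nat_lit 0)) (P (nat_lit 66888005976064))) (P (nat_lit 0))))) (T.h (T.h (P (nat_lit 0)) (T.h (T.h (P (nat_lit 14940403265748074496)) (T.h (P (nat_lit 0)) (M (nat_lit 2928580113343)))) (T.h (P (nat_lit 0)) (M (nat_lit 4152252354943))))) (T.h (T.h (T.h (P (nat_lit 0)) (P (nat_lit 4823750758957056))) (P (nat_lit 0))) (T.h (T.h (P (nat_lit 0)) (M (nat_lit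 1824467767871))) (P (nat_lit 0)))))))), (T.h (T.h (T.h (P (nat_lit 2330416154883494020266051239936)) (T.h (P (nat_lit 0)) (T.h (P (nat_lit 7464748788017715864403968)) (T.h (P (nat_lit 0)) (M (nat_lit 1573209784461557759)))))) (T.h (P (nat_lit 0)) (T.h (T.h (P (nat_lit 2720637866675313557110784)) (T.h (P (nat_lit 0)) (P (nat_lit 8962145797948833792)))) (T.h (P (nat_lit 0)) (P (nat_lit 1895559017283977216)))))) (T.h (T.h (P (nat_lit 0)) (T.h (T.h (P (nat_lit 0)) (T.h (P (nat_lit 7531325478474476421120)) (T.h (P (nat_lit 0)) (P (nat_lit 4058084649598976))))) (T.h (P (nat_lit 0)) (T.h (T.h (P (nat_lit 0)) (M (nat_lit 1499433018032127))) (P (nat_lit 0)))))) (T.h (T.h (T.h (P (nat_lit 2720637866675313557110784)) (T.h (P (nat_lit 0)) (P (nat_lit 8962145797948833792)))) (T.h (P (nat_lit 0)) (P (nat_lit 758678015956746240)))) (T.h (T.h (P (nat_lit 0)) (T.h (T.h (P (nat_lit 0)) (M (nat_lit 1499433018032127))) (P (nat_lit 0)))) (P (nat_lit 1895559017283977216)))))),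 (P (nat_lit 0))]
def lQp_1 : List (T ℤ) := [(P (nat_lit 0)), (P (nat_lit 0)), (T.h (T.h (P (nat_lit 0)) (T.h (T.h (P (nat_lit 0)) (T.h (P (nat_lit 8717922922079423085674496)) (T.h (P (nat_lit 0)) (T.h (P (nat_lit 6521691154386255872)) (T.h (P (nat_lit 0)) (M (nat_lit 5165935566879))))))) (T.h (P (nat_lit 0)) (T.h (T.h (P (nat_lit 0)) (T.h (M (nat_lit 193192647643365375)) (T.h (P (nat_lit 0)) (P (nat_lit 3373397582576))))) (T.h (P (nat_lit 0)) (T.h (T.h (P (nat_lit 0)) (M (nat_lit 424261102751))) (P (nat_lit 0)))))))) (T.h (T.h (T.h (P (nat_lit 532858792078950653260464128)) (T.h (P (nat_lit 0)) (T.h (M (nat_lit 4144768062586427015167)) (T.h (P (nat_lit 0)) (P (nat_lit 10195113124757504)))))) (T.h (P (nat_lit 0)) (T.h (T.h (P (nat_lit 3321691345876869447680)) (T.h (P (nat_lit 0)) (P (nat_lit 15787150469627904)))) (T.h (P (nat_lit 0)) (P (nat_lit 2725830294568960)))))) (T.h (T.h (P (nat_lit 0)) (T.h (T.h (P (nat_lit 0)) (T.h (P (nat_lit 10942545611232116736))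 (T.h (P (nat_lit 0)) (M (nat_lit 9748205673263))))) (T.h (P (nat_lit 0)) (T.h (T.h (P (nat_lit 0)) (M (nat_lit 172863613551))) (P (nat_lit 0)))))) (T.h (T.h (T.h (M (nat_lit 3075121913902334476287)) (T.h (P (nat_lit 0)) (M (nat_lit 14061861106614271)))) (T.h (P (nat_lit 0)) (P (nat_lit 15163554349252608)))) (T.h (T.h (P (nat_lit 0)) (T.h (T.h (P (nat_lit 0)) (P (nat_lit 3166704741056))) (P (nat_lit 0)))) (M (nat_lit 1221575086440447))))))), (T.h (T.h (P (nat_lit 0)) (T.h (T.h (M (nat_lit 481498426444980760464064511)) (T.h (P (nat_lit 0)) (T.h (M (nat_lit 26681154423655495630847)) (T.h (P (nat_lit 0)) (M (nat_lit 7017528924438527)))))) (T.h (P (nat_lit 0)) (T.h (T.h (M (nat_lit 5697953271083314446335)) (T.h (P (nat_lit 0)) (M (nat_lit 784067758030847)))) (T.h (P (nat_lit 0)) (M (nat_lit 1101479145242623))))))) (T.h (T.h (T.h (P (nat_lit 0)) (T.h (P (nat_lit 7876353602873980778184704)) (T.h (P (nat_lit 0)) (T.h (P (nat_lit 53974486825366978560))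 (T.h (P (nat_lit 0)) (M (nat_lit 232301117191))))))) (T.h (P (nat_lit 0)) (T.h (T.h (P (nat_lit 0)) (T.h (M (nat_lit 49373033002136764415)) (T.h (P (nat_lit 0)) (M (nat_lit 11084003201839))))) (T.h (P (nat_lit 0)) (T.h (T.h (P (nat_lit 0)) (M (nat_lit 1986549294751))) (P (nat_lit 0))))))) (T.h (T.h (P (nat_lit 0)) (T.h (T.h (P (nat_lit 30550314660257486340096)) (T.h (P (nat_lit 0)) (M (nat_lit 52353664172392447)))) (T.h (P (nat_lit 0)) (P (nat_lit 11781704825339904))))) (T.h (T.h (T.h (P (nat_lit 0)) (T.h (P (nat_lit 20999579311255060480)) (T.h (P (nat_lit 0)) (P (nat_lit 3170395601472))))) (T.h (P (nat_lit 0)) (T.h (T.h (P (nat_lit 0)) (P (nat_lit 12794536799488))) (P (nat_lit 0))))) (T.h (T.h (P (nat_lit 0)) (P (nat_lit 24475322561724416))) (T.h (T.h (T.h (P (nat_lit 0)) (M (nat_lit 376638881959))) (P (nat_lit 0))) (P (nat_lit 0)))))))), (T.h (T.h (P (nat_lit 0)) (T.h (T.h (P (nat_lit 0)) (T.h (M (nat_lit 31405758993128649400516607)) (T.h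 (P (nat_lit 0)) (T.h (P (nat_lit 521119890724093952)) (T.h (P (nat_lit 0)) (P (nat_lit 11875290719936))))))) (T.h (P (nat_lit 0)) (T.h (T.h (P (nat_lit 0)) (T.h (M (nat_lit 9023796676699095039)) (T.h (P (nat_lit 0)) (M (nat_lit 267617463791))))) (T.h (P (nat_lit 0)) (T.h (T.h (P (nat_lit 0)) (M (nat_lit 476646617775))) (P (nat_lit 0)))))))) (T.h (T.h (T.h (P (nat_lit 2360562084221628585116434432)) (T.h (P (nat_lit 0)) (T.h (P (nat_lit 36617258594338403778560)) (T.h (P (nat_lit 0)) (M (nat_lit 5663859304693759)))))) (T.h (P (nat_lit 0)) (T.h (T.h (M (nat_lit 16419398998575345041407)) (T.h (P (nat_lit 0)) (M (nat_lit 49521916416786431)))) (T.h (P (nat_lit 0)) (M (nat_lit 9768375870799871)))))) (T.h (T.h (P (nat_lit 0)) (T.h (T.h (P (nat_lit 0)) (T.h (M (nat_lit 40257835677308157951)) (T.h (P (nat_lit 0)) (P (nat_lit 8038665908672))))) (T.h (P (nat_lit 0)) (T.h (T.h (P (nat_lit 0)) (P (nat_lit 3403801104368))) (P (nat_lit 0)))))) (T.h (T.h (T.h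 (P (nat_lit 714074767542896820224)) (T.h (P (nat_lit 0)) (P (nat_lit 20260117991833600)))) (T.h (P (nat_lit 0)) (M (nat_lit 16069643455397887)))) (T.h (T.h (P (nat_lit 0)) (T.h (T.h (P (nat_lit 0)) (M (nat_lit 170731117199))) (P (nat_lit 0)))) (P (nat_lit 2440102765346816))))))), (T.h (T.h (P (nat_lit 0)) (T.h (T.h (P (nat_lit 195617049460243153912070144)) (T.h (P (nat_lit 0)) (T.h (P (nat_lit 21307677140090005487616)) (T.h (P (nat_lit 0)) (P (nat_lit 12531652465655808)))))) (T.h (P (nat_lit 0)) (T.h (T.h (P (nat_lit 3964114439558481838080)) (T.h (P (nat_lit 0)) (P (nat_lit 4071089117626368)))) (T.h (P (nat_lit 0)) (P (nat_lit 2371883362058240))))))) (T.h (T.h (T.h (P (nat_lit 0)) (T.h (M (nat_lit 6781529803475308119064575)) (T.h (P (nat_lit 0)) (T.h (M (nat_lit 41460708389026791423)) (T.h (P (nat_lit 0)) (M (nat_lit 227061500351))))))) (T.h (P (nat_lit 0)) (T.h (T.h (P (nat_lit 0)) (T.h (P (nat_lit 4653426674468126720)) (T.h (P (nat_lit 0))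 (P (nat_lit 19467609627968))))) (T.h (P (nat_lit 0)) (T.h (T.h (P (nat_lit 0)) (M (nat_lit 172857894207))) (P (nat_lit 0))))))) (T.h (T.h (P (nat_lit 0)) (T.h (T.h (M (nat_lit 34533293653360430284799)) (T.h (P (nat_lit 0)) (P (nat_lit 24124768091635712)))) (T.h (P (nat_lit 0)) (M (nat_lit 1016721890443263))))) (T.h (T.h (T.h (P (nat_lit 0)) (T.h (M (nat_lit 6872914424030560255)) (T.h (P (nat_lit 0)) (P (nat_lit 9250692809792))))) (T.h (P (nat_lit 0)) (T.h (T.h (P (nat_lit 0)) (M (nat_lit 2849003627327))) (P (nat_lit 0))))) (T.h (T.h (P (nat_lit 0)) (M (nat_lit 14747082352263167))) (T.h (T.h (T.h (P (nat_lit 0)) (P (nat_lit 3374982287488))) (P (nat_lit 0))) (P (nat_lit 0)))))))), (T.h (T.h (P (nat_lit 0)) (T.h (T.h (P (nat_lit 0)) (T.h (P (nat_lit 17043484856467139858530304)) (T.h (P (nat_lit 0)) (P (nat_lit 2896091241655566336))))) (T.h (P (nat_lit 0)) (T.h (T.h (P (nat_lit 0)) (P (nat_lit 12429613524915847168))) (P (nat_lit 0)))))) (T.h (T.h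 (T.h (M (nat_lit 3402341988066177641621749759)) (T.h (P (nat_lit 0)) (T.h (M (nat_lit 22557465762590185488383)) (T.h (P (nat_lit 0)) (P (nat_lit 723882441949184)))))) (T.h (P (nat_lit 0)) (T.h (T.h (P (nat_lit 19467932748244439793664)) (T.h (P (nat_lit 0)) (P (nat_lit 12701974667231232)))) (T.h (P (nat_lit 0)) (M (nat_lit 2379570363793407)))))) (T.h (T.h (P (nat_lit 0)) (T.h (T.h (P (nat_lit 0)) (P (nat_lit 11739852891748302848))) (P (nat_lit 0)))) (T.h (T.h (T.h (M (nat_lit 311281724839209992191)) (T.h (P (nat_lit 0)) (P (nat_lit 6354815568904192)))) (T.h (P (nat_lit 0)) (M (nat_lit 3918274737192959)))) (T.h (P (nat_lit 0)) (P (nat_lit 396931717021696))))))), (P (nat_lit 0))]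
def lQp_2 : List (T ℤ) := [(P (nat_lit 0)), (P (nat_lit 0)), (T.h (T.h (T.h (P (nat_lit 1974437142523453654025568780288)) (T.h (P (nat_lit 0)) (T.h (P (nat_lit 3776107581101057807220736)) (T.h (P (nat_lit 0)) (T.h (M (nat_lit 455214168597856255)) (T.h (P (nat_lit 0)) (P (nat_lit 1320627043552)))))))) (T.h (P (nat_lit 0)) (T.h (T.h (P (nat_lit 3776107581101057807220736)) (T.h (P (nat_lit 0)) (T.h (P (nat_lit 47664521656557109248)) (T.h (P (nat_lit 0)) (M (nat_lit 6116429705375)))))) (T.h (P (nat_lit 0)) (T.h (T.h (M (nat_lit 455214168597856255)) (T.h (P (nat_lit 0)) (M (nat_lit 6116429705375)))) (T.h (P (nat_lit 0)) (P (nat_lit 1320627043552)))))))) (T.h (T.h (P (nat_lit 0)) (T.h (T.h (P (nat_lit 0)) (T.h (M (nat_lit 35916735902168758878207)) (T.h (P (nat_lit 0)) (P (nat_lit 31562004246757376))))) (T.h (P (nat_lit 0)) (T.h (T.h (P (nat_lit 0)) (P (nat_lit 31562004246757376))) (P (nat_lit 0)))))) (T.h (T.h (T.h (M (nat_lit 9758004229517509839028223))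 (T.h (P (nat_lit 0)) (T.h (M (nat_lit 9060807759313764351)) (T.h (P (nat_lit 0)) (M (nat_lit 4691781859471)))))) (T.h (P (nat_lit 0)) (T.h (T.h (M (nat_lit 9060807759313764351)) (T.h (P (nat_lit 0)) (M (nat_lit 2560356751999)))) (T.h (P (nat_lit 0)) (M (nat_lit 4691781859471)))))) (T.h (T.h (P (nat_lit 0)) (T.h (T.h (P (nat_lit 0)) (M (nat_lit 83825974921003007))) (P (nat_lit 0)))) (T.h (T.h (T.h (P (nat_lit 1083103659241242624)) (T.h (P (nat_lit 0)) (P (nat_lit 2064152749056)))) (T.h (P (nat_lit 0)) (P (nat_lit 2064152749056)))) (T.h (P (nat_lit 0)) (M (nat_lit 1030947796895)))))))), (T.h (T.h (T.h (P (nat_lit 0)) (T.h (P (nat_lit 9200511152944924224068255744)) (T.h (P (nat_lit 0)) (T.h (P (nat_lit 8138641168080224387072)) (T.h (P (nat_lit 0)) (M (nat_lit 259682930294783))))))) (T.h (P (nat_lit 0)) (T.h (T.h (P (nat_lit 0)) (T.h (P (nat_lit 49067423696374458220544)) (T.h (P (nat_lit 0)) (M (nat_lit 8698455030792191))))) (T.h (P (nat_lit 0))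 (T.h (T.h (P (nat_lit 0)) (M (nat_lit 28476101997723647))) (P (nat_lit 0))))))) (T.h (T.h (P (nat_lit 0)) (T.h (T.h (M (nat_lit 14097034584816128465305599)) (T.h (P (nat_lit 0)) (T.h (P (nat_lit 158806723948804308992)) (T.h (P (nat_lit 0)) (P (nat_lit 20609692360)))))) (T.h (P (nat_lit 0)) (T.h (T.h (M (nat_lit 14447862614417473535)) (T.h (P (nat_lit 0)) (M (nat_lit 17662225065887)))) (T.h (P (nat_lit 0)) (P (nat_lit 4801873344928))))))) (T.h (T.h (T.h (P (nat_lit 0)) (T.h (M (nat_lit 14077787117441249181695)) (T.h (P (nat_lit 0)) (M (nat_lit 10156953881837567))))) (T.h (P (nat_lit 0)) (T.h (T.h (P (nat_lit 0)) (M (nat_lit 1336226320908287))) (P (nat_lit 0))))) (T.h (T.h (P (nat_lit 0)) (T.h (T.h (M (nat_lit 40614113373115645951)) (T.h (P (nat_lit 0)) (M (nat_lit 3119472546015)))) (T.h (P (nat_lit 0)) (M (nat_lit 6278110139767))))) (T.h (T.h (T.h (P (nat_lit 0)) (M (nat_lit 5005039249031167))) (P (nat_lit 0))) (T.h (T.h (P (nat_lit 0)) (P (nat_lit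 1926006707968))) (P (nat_lit 0)))))))), (T.h (T.h (T.h (M (nat_lit 15781421352417333064023314268159)) (T.h (P (nat_lit 0)) (T.h (P (nat_lit 2254133925789322698555392)) (T.h (P (nat_lit 0)) (T.h (M (nat_lit 11582974751273910271)) (T.h (P (nat_lit 0)) (M (nat_lit 4494899552751)))))))) (T.h (P (nat_lit 0)) (T.h (T.h (M (nat_lit 17016263105224677655576575)) (T.h (P (nat_lit 0)) (T.h (M (nat_lit 20199970791355318271)) (T.h (P (nat_lit 0)) (P (nat_lit 18872188738032)))))) (T.h (P (nat_lit 0)) (T.h (T.h (M (nat_lit 5769335801796100095)) (T.h (P (nat_lit 0)) (P (nat_lit 7861092761200)))) (T.h (P (nat_lit 0)) (M (nat_lit 6454986133007)))))))) (T.h (T.h (P (nat_lit 0)) (T.h (T.h (P (nat_lit 0)) (T.h (P (nat_lit 104428965465499621130240)) (T.h (P (nat_lit 0)) (M (nat_lit 65765569243283455))))) (T.h (P (nat_lit 0)) (T.h (T.h (P (nat_lit 0)) (M (nat_lit 42371289102942207))) (P (nat_lit 0)))))) (T.h (T.h (T.h (P (nat_lit 19510935969206319368372224)) (T.h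 (P (nat_lit 0)) (T.h (M (nat_lit 48825252204196659199)) (T.h (P (nat_lit 0)) (P (nat_lit 66173550912)))))) (T.h (P (nat_lit 0)) (T.h (T.h (P (nat_lit 4459232863304286208)) (T.h (P (nat_lit 0)) (P (nat_lit 8548507008608)))) (T.h (P (nat_lit 0)) (P (nat_lit 15481464103056)))))) (T.h (T.h (P (nat_lit 0)) (T.h (T.h (P (nat_lit 0)) (P (nat_lit 95973161780510720))) (P (nat_lit 0)))) (T.h (T.h (T.h (P (nat_lit 3816157051806023680)) (T.h (P (nat_lit 0)) (M (nat_lit 5131028078175)))) (T.h (P (nat_lit 0)) (M (nat_lit 2689076313615)))) (T.h (P (nat_lit 0)) (M (nat_lit 2135898518655)))))))), (T.h (T.h (T.h (P (nat_lit 0)) (T.h (M (nat_lit 2008280231544279771887173631)) (T.h (P (nat_lit 0)) (T.h (M (nat_lit 14444565840120697061375)) (T.h (P (nat_lit 0)) (P (nat_lit 2650552869519360))))))) (T.h (P (nat_lit 0)) (T.h (T.h (P (nat_lit 0)) (T.h (M (nat_lit 7794080975053129777151)) (T.h (P (nat_lit 0)) (P (nat_lit 28585365344649216))))) (T.h (P (nat_lit 0)) (T.h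 (T.h (P (nat_lit 0)) (P (nat_lit 46267264956661760))) (P (nat_lit 0))))))) (T.h (T.h (P (nat_lit 0)) (T.h (T.h (P (nat_lit 12881852499707145018671104)) (T.h (P (nat_lit 0)) (T.h (M (nat_lit 131690224174086750207)) (T.h (P (nat_lit 0)) (M (nat_lit 1504335511807)))))) (T.h (P (nat_lit 0)) (T.h (T.h (M (nat_lit 14576600026559021055)) (T.h (P (nat_lit 0)) (P (nat_lit 33470402026368)))) (T.h (P (nat_lit 0)) (M (nat_lit 6811509066239))))))) (T.h (T.h (T.h (P (nat_lit 0)) (T.h (M (nat_lit 20491663626153897230335)) (T.h (P (nat_lit 0)) (M (nat_lit 17118034321866751))))) (T.h (P (nat_lit 0)) (T.h (T.h (P (nat_lit 0)) (P (nat_lit 12039428486430720))) (P (nat_lit 0))))) (T.h (T.h (P (nat_lit 0)) (T.h (T.h (P (nat_lit 20160226170429767680)) (T.h (P (nat_lit 0)) (P (nat_lit 42196455976256)))) (T.h (P (nat_lit 0)) (P (nat_lit 10628497852864))))) (T.h (T.h (T.h (P (nat_lit 0)) (M (nat_lit 12549948312485887))) (P (nat_lit 0))) (T.h (T.h (P (nat_lit 0)) (M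 (nat_lit 12219471662591))) (P (nat_lit 0)))))))), (T.h (T.h (T.h (P (nat_lit 1410570906212094888288156909568)) (T.h (P (nat_lit 0)) (T.h (M (nat_lit 736332230657898056777727)) (T.h (P (nat_lit 0)) (P (nat_lit 8275653059435036672)))))) (T.h (P (nat_lit 0)) (T.h (T.h (P (nat_lit 2713202957367080711618560)) (T.h (P (nat_lit 0)) (P (nat_lit 12443088561886986240)))) (T.h (P (nat_lit 0)) (P (nat_lit 20438749490257592320)))))) (T.h (T.h (P (nat_lit 0)) (T.h (T.h (P (nat_lit 0)) (T.h (M (nat_lit 25522296248950983753727)) (T.h (P (nat_lit 0)) (P (nat_lit 8426976565428224))))) (T.h (P (nat_lit 0)) (T.h (T.h (P (nat_lit 0)) (P (nat_lit 16959839353831424))) (P (nat_lit 0)))))) (T.h (T.h (T.h (M (nat_lit 9092474658105973488484351)) (T.h (P (nat_lit 0)) (M (nat_lit 9901124243519700991)))) (T.h (P (nat_lit 0)) (M (nat_lit 2049630866191155199)))) (T.h (T.h (P (nat_lit 0)) (T.h (T.h (P (nat_lit 0)) (P (nat_lit 20145895602651136))) (P (nat_lit 0)))) (M (nat_lit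 6450639816894709759)))))), (P (nat_lit 0))]
def lQp_3 : List (T ℤ) := [(P (nat_lit 0)), (T.h (T.h (P (nat_lit 0)) (T.h (T.h (P (nat_lit 0)) (T.h (P (nat_lit 8717922922079423085674496)) (T.h (P (nat_lit 0)) (T.h (M (nat_lit 193192647643365375)) (T.h (P (nat_lit 0)) (M (nat_lit 424261102751))))))) (T.h (P (nat_lit 0)) (T.h (T.h (P (nat_lit 0)) (T.h (P (nat_lit 6521691154386255872)) (T.h (P (nat_lit 0)) (P (nat_lit 3373397582576))))) (T.h (P (nat_lit 0)) (T.h (T.h (P (nat_lit 0)) (M (nat_lit 5165935566879))) (P (nat_lit 0)))))))) (T.h (T.h (T.h (P (nat_lit 532858792078950653260464128)) (T.h (P (nat_lit 0)) (T.h (P (nat_lit 3321691345876869447680)) (T.h (P (nat_lit 0)) (P (nat_lit 2725830294568960)))))) (T.h (P (nat_lit 0)) (T.h (T.h (M (nat_lit 4144768062586427015167)) (T.h (P (nat_lit 0)) (P (nat_lit 15787150469627904)))) (T.h (P (nat_lit 0)) (P (nat_lit 10195113124757504)))))) (T.h (T.h (P (nat_lit 0)) (T.h (T.h (P (nat_lit 0)) (T.h (P (nat_lit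 10942545611232116736)) (T.h (P (nat_lit 0)) (M (nat_lit 172863613551))))) (T.h (P (nat_lit 0)) (T.h (T.h (P (nat_lit 0)) (M (nat_lit 9748205673263))) (P (nat_lit 0)))))) (T.h (T.h (T.h (M (nat_lit 3075121913902334476287)) (T.h (P (nat_lit 0)) (P (nat_lit 15163554349252608)))) (T.h (P (nat_lit 0)) (M (nat_lit 14061861106614271)))) (T.h (T.h (P (nat_lit 0)) (T.h (T.h (P (nat_lit 0)) (P (nat_lit 3166704741056))) (P (nat_lit 0)))) (M (nat_lit 1221575086440447))))))), (T.h (T.h (P (nat_lit 0)) (T.h (T.h (P (nat_lit 9200511152944924224068255744)) (T.h (P (nat_lit 0)) (T.h (P (nat_lit 49067423696374458220544)) (T.h (P (nat_lit 0)) (M (nat_lit 28476101997723647)))))) (T.h (P (nat_lit 0)) (T.h (T.h (P (nat_lit 8138641168080224387072)) (T.h (P (nat_lit 0)) (M (nat_lit 8698455030792191)))) (T.h (P (nat_lit 0)) (M (nat_lit 259682930294783))))))) (T.h (T.h (T.h (P (nat_lit 0)) (T.h (M (nat_lit 14097034584816128465305599)) (T.h (P (nat_lit 0)) (T.h (M (nat_lit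 14447862614417473535)) (T.h (P (nat_lit 0)) (P (nat_lit 4801873344928))))))) (T.h (P (nat_lit 0)) (T.h (T.h (P (nat_lit 0)) (T.h (P (nat_lit 158806723948804308992)) (T.h (P (nat_lit 0)) (M (nat_lit 17662225065887))))) (T.h (P (nat_lit 0)) (T.h (T.h (P (nat_lit 0)) (P (nat_lit 20609692360))) (P (nat_lit 0))))))) (T.h (T.h (P (nat_lit 0)) (T.h (T.h (M (nat_lit 14077787117441249181695)) (T.h (P (nat_lit 0)) (M (nat_lit 1336226320908287)))) (T.h (P (nat_lit 0)) (M (nat_lit 10156953881837567))))) (T.h (T.h (T.h (P (nat_lit 0)) (T.h (M (nat_lit 40614113373115645951)) (T.h (P (nat_lit 0)) (M (nat_lit 6278110139767))))) (T.h (P (nat_lit 0)) (T.h (T.h (P (nat_lit 0)) (M (nat_lit 3119472546015))) (P (nat_lit 0))))) (T.h (T.h (P (nat_lit 0)) (M (nat_lit 5005039249031167))) (T.h (T.h (T.h (P (nat_lit 0)) (P (nat_lit 1926006707968))) (P (nat_lit 0))) (P (nat_lit 0)))))))), (T.h (T.h (P (nat_lit 0)) (T.h (T.h (P (nat_lit 0)) (T.h (M (nat_lit 1459533739220636931194879))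 (T.h (P (nat_lit 0)) (T.h (P (nat_lit 16487317009659330560)) (T.h (P (nat_lit 0)) (P (nat_lit 8063023529120))))))) (T.h (P (nat_lit 0)) (T.h (T.h (P (nat_lit 0)) (T.h (P (nat_lit 16487317009659330560)) (T.h (P (nat_lit 0)) (P (nat_lit 2263527959616))))) (T.h (P (nat_lit 0)) (T.h (T.h (P (nat_lit 0)) (P (nat_lit 8063023529120))) (P (nat_lit 0)))))))) (T.h (T.h (T.h (M (nat_lit 12287764217866034664416739327)) (T.h (P (nat_lit 0)) (T.h (P (nat_lit 57566294809567433850880)) (T.h (P (nat_lit 0)) (P (nat_lit 10628605528555520)))))) (T.h (P (nat_lit 0)) (T.h (T.h (P (nat_lit 57566294809567433850880)) (T.h (P (nat_lit 0)) (M (nat_lit 92819841704132607)))) (T.h (P (nat_lit 0)) (P (nat_lit 10628605528555520)))))) (T.h (T.h (P (nat_lit 0)) (T.h (T.h (P (nat_lit 0)) (T.h (M (nat_lit 62356342678558343167)) (T.h (P (nat_lit 0)) (M (nat_lit 2419356147151))))) (T.h (P (nat_lit 0)) (T.h (T.h (P (nat_lit 0)) (M (nat_lit 2419356147151))) (P (nat_lit 0)))))) (T.h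 (T.h (T.h (M (nat_lit 2453672103476595785727)) (T.h (P (nat_lit 0)) (P (nat_lit 13941152475676672)))) (T.h (P (nat_lit 0)) (P (nat_lit 13941152475676672)))) (T.h (T.h (P (nat_lit 0)) (T.h (T.h (P (nat_lit 0)) (M (nat_lit 14170135667743))) (P (nat_lit 0)))) (P (nat_lit 3083148681314304))))))), (T.h (T.h (P (nat_lit 0)) (T.h (T.h (M (nat_lit 11197592873447516954182025215)) (T.h (P (nat_lit 0)) (T.h (M (nat_lit 61844520787591288586239)) (T.h (P (nat_lit 0)) (P (nat_lit 29810411964465152)))))) (T.h (P (nat_lit 0)) (T.h (T.h (P (nat_lit 34347226040025118408704)) (T.h (P (nat_lit 0)) (P (nat_lit 12520311840047104)))) (T.h (P (nat_lit 0)) (P (nat_lit 2365312111607808))))))) (T.h (T.h (T.h (P (nat_lit 0)) (T.h (P (nat_lit 59548467549861302497181696)) (T.h (P (nat_lit 0)) (T.h (M (nat_lit 49584501972440973311)) (T.h (P (nat_lit 0)) (M (nat_lit 18903779491263))))))) (T.h (P (nat_lit 0)) (T.h (T.h (P (nat_lit 0)) (T.h (M (nat_lit 79800601318839549951))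 (T.h (P (nat_lit 0)) (P (nat_lit 23937205427904))))) (T.h (P (nat_lit 0)) (T.h (T.h (P (nat_lit 0)) (M (nat_lit 34853027095999))) (P (nat_lit 0))))))) (T.h (T.h (P (nat_lit 0)) (T.h (T.h (M (nat_lit 2718646849926705709055)) (T.h (P (nat_lit 0)) (P (nat_lit 16416114176000000)))) (T.h (P (nat_lit 0)) (P (nat_lit 8592079034286080))))) (T.h (T.h (T.h (P (nat_lit 0)) (T.h (P (nat_lit 69442730501917900800)) (T.h (P (nat_lit 0)) (P (nat_lit 14712885554880))))) (T.h (P (nat_lit 0)) (T.h (T.h (P (nat_lit 0)) (M (nat_lit 26088908991423))) (P (nat_lit 0))))) (T.h (T.h (P (nat_lit 0)) (M (nat_lit 12712655784902655))) (T.h (T.h (T.h (P (nat_lit 0)) (P (nat_lit 3142430723008))) (P (nat_lit 0))) (P (nat_lit 0)))))))), (T.h (T.h (P (nat_lit 0)) (T.h (T.h (P (nat_lit 0)) (T.h (M (nat_lit 10198635777548292081057791)) (T.h (P (nat_lit 0)) (P (nat_lit 10587787297082572800))))) (T.h (P (nat_lit 0)) (T.h (T.h (P (nat_lit 0)) (P (nat_lit 44064355139457122304))) (P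 (nat_lit 0)))))) (T.h (T.h (T.h (P (nat_lit 9444388680319584730748026880)) (T.h (P (nat_lit 0)) (T.h (M (nat_lit 30742105541402773422079)) (T.h (P (nat_lit 0)) (M (nat_lit 24581947639840767)))))) (T.h (P (nat_lit 0)) (T.h (T.h (M (nat_lit 4498893292917248491519)) (T.h (P (nat_lit 0)) (P (nat_lit 44089042524880896)))) (T.h (P (nat_lit 0)) (M (nat_lit 17641106541363199)))))) (T.h (T.h (P (nat_lit 0)) (T.h (T.h (P (nat_lit 0)) (P (nat_lit 9004690242220851200))) (P (nat_lit 0)))) (T.h (T.h (T.h (P (nat_lit 11887339130370524184576)) (T.h (P (nat_lit 0)) (P (nat_lit 22101788836069376)))) (T.h (P (nat_lit 0)) (P (nat_lit 1483925649195008)))) (T.h (P (nat_lit 0)) (M (nat_lit 2323722480533503))))))), (P (nat_lit 0)), (P (nat_lit 0))]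
def lQp_4 : List (T ℤ) := [(T.h (T.h (T.h (M (nat_lit 169053768763270514532562239487)) (T.h (P (nat_lit 0)) (T.h (P (nat_lit 1217783071519776866041856)) (T.h (P (nat_lit 0)) (T.h (M (nat_lit 2581556048120774655)) (T.h (P (nat_lit 0)) (P (nat_lit 2889973006256)))))))) (T.h (P (nat_lit 0)) (T.h (T.h (M (nat_lit 86023058324020239794175)) (T.h (P (nat_lit 0)) (T.h (M (nat_lit 2804189857717420031)) (T.h (P (nat_lit 0)) (P (nat_lit 2363898821680)))))) (T.h (P (nat_lit 0)) (T.h (T.h (P (nat_lit 544121181330997248)) (T.h (P (nat_lit 0)) (P (nat_lit 1796611202864)))) (T.h (P (nat_lit 0)) (M (nat_lit 1570308029599)))))))) (T.h (T.h (P (nat_lit 0)) (T.h (T.h (P (nat_lit 0)) (T.h (M (nat_lit 1587471070678617161727)) (T.h (P (nat_lit 0)) (P (nat_lit 3737556218937344))))) (T.h (P (nat_lit 0)) (T.h (T.h (P (nat_lit 0)) (P (nat_lit 2147752284127232))) (P (nat_lit 0)))))) (T.h (T.h (T.h (P (nat_lit 1217783071519776866041856)) (T.h (P (nat_lit 0)) (T.h (M (nat_lit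 580103659812028415)) (T.h (P (nat_lit 0)) (M (nat_lit 662576913727)))))) (T.h (P (nat_lit 0)) (T.h (T.h (M (nat_lit 2804189857717420031)) (T.h (P (nat_lit 0)) (P (nat_lit 2120391294816)))) (T.h (P (nat_lit 0)) (P (nat_lit 1796611202864)))))) (T.h (T.h (P (nat_lit 0)) (T.h (T.h (P (nat_lit 0)) (P (nat_lit 3737556218937344))) (P (nat_lit 0)))) (T.h (T.h (T.h (M (nat_lit 2581556048120774655)) (T.h (P (nat_lit 0)) (M (nat_lit 662576913727)))) (T.h (P (nat_lit 0)) (P (nat_lit 2363898821680)))) (T.h (P (nat_lit 0)) (P (nat_lit 2889973006256)))))))), (T.h (T.h (T.h (P (nat_lit 0)) (T.h (M (nat_lit 481498426444980760464064511)) (T.h (P (nat_lit 0)) (T.h (M (nat_lit 5697953271083314446335)) (T.h (P (nat_lit 0)) (M (nat_lit 1101479145242623))))))) (T.h (P (nat_lit 0)) (T.h (T.h (P (nat_lit 0)) (T.h (M (nat_lit 26681154423655495630847)) (T.h (P (nat_lit 0)) (M (nat_lit 784067758030847))))) (T.h (P (nat_lit 0)) (T.h (T.h (P (nat_lit 0)) (M (nat_lit 7017528924438527)))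 (P (nat_lit 0))))))) (T.h (T.h (P (nat_lit 0)) (T.h (T.h (P (nat_lit 7876353602873980778184704)) (T.h (P (nat_lit 0)) (T.h (M (nat_lit 49373033002136764415)) (T.h (P (nat_lit 0)) (M (nat_lit 1986549294751)))))) (T.h (P (nat_lit 0)) (T.h (T.h (P (nat_lit 53974486825366978560)) (T.h (P (nat_lit 0)) (M (nat_lit 11084003201839)))) (T.h (P (nat_lit 0)) (M (nat_lit 232301117191))))))) (T.h (T.h (T.h (P (nat_lit 0)) (T.h (P (nat_lit 30550314660257486340096)) (T.h (P (nat_lit 0)) (P (nat_lit 11781704825339904))))) (T.h (P (nat_lit 0)) (T.h (T.h (P (nat_lit 0)) (M (nat_lit 52353664172392447))) (P (nat_lit 0))))) (T.h (T.h (P (nat_lit 0)) (T.h (T.h (P (nat_lit 20999579311255060480)) (T.h (P (nat_lit 0)) (P (nat_lit 12794536799488)))) (T.h (P (nat_lit 0)) (P (nat_lit 3170395601472))))) (T.h (T.h (T.h (P (nat_lit 0)) (P (nat_lit 24475322561724416))) (P (nat_lit 0))) (T.h (T.h (P (nat_lit 0)) (M (nat_lit 376638881959))) (P (nat_lit 0)))))))), (T.h (T.h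 (T.h (M (nat_lit 15781421352417333064023314268159)) (T.h (P (nat_lit 0)) (T.h (M (nat_lit 17016263105224677655576575)) (T.h (P (nat_lit 0)) (T.h (M (nat_lit 5769335801796100095)) (T.h (P (nat_lit 0)) (M (nat_lit 6454986133007)))))))) (T.h (P (nat_lit 0)) (T.h (T.h (P (nat_lit 2254133925789322698555392)) (T.h (P (nat_lit 0)) (T.h (M (nat_lit 20199970791355318271)) (T.h (P (nat_lit 0)) (P (nat_lit 7861092761200)))))) (T.h (P (nat_lit 0)) (T.h (T.h (M (nat_lit 11582974751273910271)) (T.h (P (nat_lit 0)) (P (nat_lit 18872188738032)))) (T.h (P (nat_lit 0)) (M (nat_lit 4494899552751)))))))) (T.h (T.h (P (nat_lit 0)) (T.h (T.h (P (nat_lit 0)) (T.h (P (nat_lit 104428965465499621130240)) (T.h (P (nat_lit 0)) (M (nat_lit 42371289102942207))))) (T.h (P (nat_lit 0)) (T.h (T.h (P (nat_lit 0)) (M (nat_lit 65765569243283455))) (P (nat_lit 0)))))) (T.h (T.h (T.h (P (nat_lit 19510935969206319368372224)) (T.h (P (nat_lit 0)) (T.h (P (nat_lit 4459232863304286208))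 (T.h (P (nat_lit 0)) (P (nat_lit 15481464103056)))))) (T.h (P (nat_lit 0)) (T.h (T.h (M (nat_lit 48825252204196659199)) (T.h (P (nat_lit 0)) (P (nat_lit 8548507008608)))) (T.h (P (nat_lit 0)) (P (nat_lit 66173550912)))))) (T.h (T.h (P (nat_lit 0)) (T.h (T.h (P (nat_lit 0)) (P (nat_lit 95973161780510720))) (P (nat_lit 0)))) (T.h (T.h (T.h (P (nat_lit 3816157051806023680)) (T.h (P (nat_lit 0)) (M (nat_lit 2689076313615)))) (T.h (P (nat_lit 0)) (M (nat_lit 5131028078175)))) (T.h (P (nat_lit 0)) (M (nat_lit 2135898518655)))))))), (T.h (T.h (T.h (P (nat_lit 0)) (T.h (M (nat_lit 11197592873447516954182025215)) (T.h (P (nat_lit 0)) (T.h (P (nat_lit 34347226040025118408704)) (T.h (P (nat_lit 0)) (P (nat_lit 2365312111607808))))))) (T.h (P (nat_lit 0)) (T.h (T.h (P (nat_lit 0)) (T.h (M (nat_lit 61844520787591288586239)) (T.h (P (nat_lit 0)) (P (nat_lit 12520311840047104))))) (T.h (P (nat_lit 0)) (T.h (T.h (P (nat_lit 0)) (P (nat_lit 29810411964465152)))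 (P (nat_lit 0))))))) (T.h (T.h (P (nat_lit 0)) (T.h (T.h (P (nat_lit 59548467549861302497181696)) (T.h (P (nat_lit 0)) (T.h (M (nat_lit 79800601318839549951)) (T.h (P (nat_lit 0)) (M (nat_lit 34853027095999)))))) (T.h (P (nat_lit 0)) (T.h (T.h (M (nat_lit 49584501972440973311)) (T.h (P (nat_lit 0)) (P (nat_lit 23937205427904)))) (T.h (P (nat_lit 0)) (M (nat_lit 18903779491263))))))) (T.h (T.h (T.h (P (nat_lit 0)) (T.h (M (nat_lit 2718646849926705709055)) (T.h (P (nat_lit 0)) (P (nat_lit 8592079034286080))))) (T.h (P (nat_lit 0)) (T.h (T.h (P (nat_lit 0)) (P (nat_lit 16416114176000000))) (P (nat_lit 0))))) (T.h (T.h (P (nat_lit 0)) (T.h (T.h (P (nat_lit 69442730501917900800)) (T.h (P (nat_lit 0)) (M (nat_lit 26088908991423)))) (T.h (P (nat_lit 0)) (P (nat_lit 14712885554880))))) (T.h (T.h (T.h (P (nat_lit 0)) (M (nat_lit 12712655784902655))) (P (nat_lit 0))) (T.h (T.h (P (nat_lit 0)) (P (nat_lit 3142430723008))) (P (nat_lit 0)))))))), (T.h (T.h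 (T.h (M (nat_lit 1566566538292661711704453808127)) (T.h (P (nat_lit 0)) (T.h (P (nat_lit 9732647539352031790628864)) (T.h (P (nat_lit 0)) (P (nat_lit 16297031267554164736)))))) (T.h (P (nat_lit 0)) (T.h (T.h (P (nat_lit 9732647539352031790628864)) (T.h (P (nat_lit 0)) (P (nat_lit 2048803517447012352)))) (T.h (P (nat_lit 0)) (P (nat_lit 16297031267554164736)))))) (T.h (T.h (P (nat_lit 0)) (T.h (T.h (P (nat_lit 0)) (T.h (M (nat_lit 26663661396517474795519)) (T.h (P (nat_lit 0)) (M (nat_lit 23433650567217151))))) (T.h (P (nat_lit 0)) (T.h (T.h (P (nat_lit 0)) (M (nat_lit 23433650567217151))) (P (nat_lit 0)))))) (T.h (T.h (T.h (M (nat_lit 3329637082376392511848447)) (T.h (P (nat_lit 0)) (M (nat_lit 3306482805604614143)))) (T.h (P (nat_lit 0)) (M (nat_lit 3306482805604614143)))) (T.h (T.h (P (nat_lit 0)) (T.h (T.h (P (nat_lit 0)) (M (nat_lit 26715042807218175))) (P (nat_lit 0)))) (M (nat_lit 3580613197985480703)))))), (P (nat_lit 0)), (P (nat_lit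 0)), (T.h (T.h (P (nat_lit 0)) (T.h (T.h (M (nat_lit 9182275218262489025208123391)) (T.h (P (nat_lit 0)) (T.h (M (nat_lit 13613235312272529686527)) (T.h (P (nat_lit 0)) (M (nat_lit 7111101373186047)))))) (T.h (P (nat_lit 0)) (T.h (T.h (M (nat_lit 8298625833979166588927)) (T.h (P (nat_lit 0)) (M (nat_lit 8116801292140543)))) (T.h (P (nat_lit 0)) (M (nat_lit 5191557644550143))))))) (T.h (T.h (T.h (P (nat_lit 0)) (T.h (P (nat_lit 2059946901904829097967616)) (T.h (P (nat_lit 0)) (T.h (M (nat_lit 14029646457506627583)) (T.h (P (nat_lit 0)) (P (nat_lit 1884415318088))))))) (T.h (P (nat_lit 0)) (T.h (T.h (P (nat_lit 0)) (T.h (M (nat_lit 4201936957627957247)) (T.h (P (nat_lit 0)) (P (nat_lit 1791893248488))))) (T.h (P (nat_lit 0)) (T.h (T.h (P (nat_lit 0)) (M (nat_lit 1985198807423))) (P (nat_lit 0))))))) (T.h (T.h (P (nat_lit 0)) (T.h (T.h (M (nat_lit 13613235312272529686527)) (T.h (P (nat_lit 0)) (P (nat_lit 8622493221978112)))) (T.h (P (nat_lit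 0)) (M (nat_lit 8116801292140543))))) (T.h (T.h (T.h (P (nat_lit 0)) (T.h (M (nat_lit 14029646457506627583)) (T.h (P (nat_lit 0)) (P (nat_lit 2061010941808))))) (T.h (P (nat_lit 0)) (T.h (T.h (P (nat_lit 0)) (P (nat_lit 1791893248488))) (P (nat_lit 0))))) (T.h (T.h (P (nat_lit 0)) (M (nat_lit 7111101373186047))) (T.h (T.h (T.h (P (nat_lit 0)) (P (nat_lit 1884415318088))) (P (nat_lit 0))) (P (nat_lit 0))))))))]
def lQp_5 : List (T ℤ) := [(T.h (T.h (P (nat_lit 0)) (T.h (T.h (P (nat_lit 0)) (T.h (M (nat_lit 31405758993128649400516607)) (T.h (P (nat_lit 0)) (T.h (M (nat_lit 9023796676699095039)) (T.h (P (nat_lit 0)) (M (nat_lit 476646617775))))))) (T.h (P (nat_lit 0)) (T.h (T.h (P (nat_lit 0)) (T.h (P (nat_lit 521119890724093952)) (T.h (P (nat_lit 0)) (M (nat_lit 267617463791))))) (T.h (P (nat_lit 0)) (T.h (T.h (P (nat_lit 0)) (P (nat_lit 11875290719936))) (P (nat_lit 0)))))))) (T.h (T.h (T.h (P (nat_lit 2360562084221628585116434432)) (T.h (P (nat_lit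 0)) (T.h (M (nat_lit 16419398998575345041407)) (T.h (P (nat_lit 0)) (M (nat_lit 9768375870799871)))))) (T.h (P (nat_lit 0)) (T.h (T.h (P (nat_lit 36617258594338403778560)) (T.h (P (nat_lit 0)) (M (nat_lit 49521916416786431)))) (T.h (P (nat_lit 0)) (M (nat_lit 5663859304693759)))))) (T.h (T.h (P (nat_lit 0)) (T.h (T.h (P (nat_lit 0)) (T.h (M (nat_lit 40257835677308157951)) (T.h (P (nat_lit 0)) (P (nat_lit 3403801104368))))) (T.h (P (nat_lit 0)) (T.h (T.h (P (nat_lit 0)) (P (nat_lit 8038665908672))) (P (nat_lit 0)))))) (T.h (T.h (T.h (P (nat_lit 714074767542896820224)) (T.h (P (nat_lit 0)) (M (nat_lit 16069643455397887)))) (T.h (P (nat_lit 0)) (P (nat_lit 20260117991833600)))) (T.h (T.h (P (nat_lit 0)) (T.h (T.h (P (nat_lit 0)) (M (nat_lit 170731117199))) (P (nat_lit 0)))) (P (nat_lit 2440102765346816))))))), (T.h (T.h (P (nat_lit 0)) (T.h (T.h (M (nat_lit 2008280231544279771887173631)) (T.h (P (nat_lit 0)) (T.h (M (nat_lit 7794080975053129777151))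 (T.h (P (nat_lit 0)) (P (nat_lit 46267264956661760)))))) (T.h (P (nat_lit 0)) (T.h (T.h (M (nat_lit 14444565840120697061375)) (T.h (P (nat_lit 0)) (P (nat_lit 28585365344649216)))) (T.h (P (nat_lit 0)) (P (nat_lit 2650552869519360))))))) (T.h (T.h (T.h (P (nat_lit 0)) (T.h (P (nat_lit 12881852499707145018671104)) (T.h (P (nat_lit 0)) (T.h (M (nat_lit 14576600026559021055)) (T.h (P (nat_lit 0)) (M (nat_lit 6811509066239))))))) (T.h (P (nat_lit 0)) (T.h (T.h (P (nat_lit 0)) (T.h (M (nat_lit 131690224174086750207)) (T.h (P (nat_lit 0)) (P (nat_lit 33470402026368))))) (T.h (P (nat_lit 0)) (T.h (T.h (P (nat_lit 0)) (M (nat_lit 1504335511807))) (P (nat_lit 0))))))) (T.h (T.h (P (nat_lit 0)) (T.h (T.h (M (nat_lit 20491663626153897230335)) (T.h (P (nat_lit 0)) (P (nat_lit 12039428486430720)))) (T.h (P (nat_lit 0)) (M (nat_lit 17118034321866751))))) (T.h (T.h (T.h (P (nat_lit 0)) (T.h (P (nat_lit 20160226170429767680)) (T.h (P (nat_lit 0)) (P (nat_lit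 10628497852864))))) (T.h (P (nat_lit 0)) (T.h (T.h (P (nat_lit 0)) (P (nat_lit 42196455976256))) (P (nat_lit 0))))) (T.h (T.h (P (nat_lit 0)) (M (nat_lit 12549948312485887))) (T.h (T.h (T.h (P (nat_lit 0)) (M (nat_lit 12219471662591))) (P (nat_lit 0))) (P (nat_lit 0)))))))), (T.h (T.h (P (nat_lit 0)) (T.h (T.h (P (nat_lit 0)) (T.h (M (nat_lit 10198635777548292081057791)) (T.h (P (nat_lit 0)) (P (nat_lit 44064355139457122304))))) (T.h (P (nat_lit 0)) (T.h (T.h (P (nat_lit 0)) (P (nat_lit 10587787297082572800))) (P (nat_lit 0)))))) (T.h (T.h (T.h (P (nat_lit 9444388680319584730748026880)) (T.h (P (nat_lit 0)) (T.h (M (nat_lit 4498893292917248491519)) (T.h (P (nat_lit 0)) (M (nat_lit 17641106541363199)))))) (T.h (P (nat_lit 0)) (T.h (T.h (M (nat_lit 30742105541402773422079)) (T.h (P (nat_lit 0)) (P (nat_lit 44089042524880896)))) (T.h (P (nat_lit 0)) (M (nat_lit 24581947639840767)))))) (T.h (T.h (P (nat_lit 0)) (T.h (T.h (P (nat_lit 0)) (P (nat_lit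 9004690242220851200))) (P (nat_lit 0)))) (T.h (T.h (T.h (P (nat_lit 11887339130370524184576)) (T.h (P (nat_lit 0)) (P (nat_lit 1483925649195008)))) (T.h (P (nat_lit 0)) (P (nat_lit 22101788836069376)))) (T.h (P (nat_lit 0)) (M (nat_lit 2323722480533503))))))), (P (nat_lit 0)), (P (nat_lit 0)), (T.h (T.h (T.h (M (nat_lit 7193110628990432326231317807103)) (T.h (P (nat_lit 0)) (T.h (M (nat_lit 3601865127594643054133247)) (T.h (P (nat_lit 0)) (T.h (P (nat_lit 1323694191909273600)) (T.h (P (nat_lit 0)) (M (nat_lit 2838909460015)))))))) (T.h (P (nat_lit 0)) (T.h (T.h (M (nat_lit 6992900219414241486045183)) (T.h (P (nat_lit 0)) (T.h (M (nat_lit 4679660363636015103)) (T.h (P (nat_lit 0)) (M (nat_lit 4410506974159)))))) (T.h (P (nat_lit 0)) (T.h (T.h (P (nat_lit 1508552952724324352)) (T.h (P (nat_lit 0)) (M (nat_lit 3133739275967)))) (T.h (P (nat_lit 0)) (P (nat_lit 3652989002656)))))))) (T.h (T.h (P (nat_lit 0)) (T.h (T.h (P (nat_lit 0)) (T.h (M (nat_lit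 2705769387334379241471)) (T.h (P (nat_lit 0)) (M (nat_lit 5489541307727871))))) (T.h (P (nat_lit 0)) (T.h (T.h (P (nat_lit 0)) (M (nat_lit 10176654584184831))) (P (nat_lit 0)))))) (T.h (T.h (T.h (M (nat_lit 3601865127594643054133247)) (T.h (P (nat_lit 0)) (T.h (M (nat_lit 1791605768886157311)) (T.h (P (nat_lit 0)) (P (nat_lit 1714226929744)))))) (T.h (P (nat_lit 0)) (T.h (T.h (M (nat_lit 4679660363636015103)) (T.h (P (nat_lit 0)) (M (nat_lit 4950411610591)))) (T.h (P (nat_lit 0)) (M (nat_lit 3133739275967)))))) (T.h (T.h (P (nat_lit 0)) (T.h (T.h (P (nat_lit 0)) (M (nat_lit 5489541307727871))) (P (nat_lit 0)))) (T.h (T.h (T.h (P (nat_lit 1323694191909273600)) (T.h (P (nat_lit 0)) (P (nat_lit 1714226929744)))) (T.h (P (nat_lit 0)) (M (nat_lit 4410506974159)))) (T.h (P (nat_lit 0)) (M (nat_lit 2838909460015)))))))), (T.h (T.h (T.h (P (nat_lit 0)) (T.h (P (nat_lit 195617049460243153912070144)) (T.h (P (nat_lit 0)) (T.h (P (nat_lit 3964114439558481838080))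 (T.h (P (nat_lit 0)) (P (nat_lit 2371883362058240))))))) (T.h (P (nat_lit 0)) (T.h (T.h (P (nat_lit 0)) (T.h (P (nat_lit 21307677140090005487616)) (T.h (P (nat_lit 0)) (P (nat_lit 4071089117626368))))) (T.h (P (nat_lit 0)) (T.h (T.h (P (nat_lit 0)) (P (nat_lit 12531652465655808))) (P (nat_lit 0))))))) (T.h (T.h (P (nat_lit 0)) (T.h (T.h (M (nat_lit 6781529803475308119064575)) (T.h (P (nat_lit 0)) (T.h (P (nat_lit 4653426674468126720)) (T.h (P (nat_lit 0)) (M (nat_lit 172857894207)))))) (T.h (P (nat_lit 0)) (T.h (T.h (M (nat_lit 41460708389026791423)) (T.h (P (nat_lit 0)) (P (nat_lit 19467609627968)))) (T.h (P (nat_lit 0)) (M (nat_lit 227061500351))))))) (T.h (T.h (T.h (P (nat_lit 0)) (T.h (M (nat_lit 34533293653360430284799)) (T.h (P (nat_lit 0)) (M (nat_lit 1016721890443263))))) (T.h (P (nat_lit 0)) (T.h (T.h (P (nat_lit 0)) (P (nat_lit 24124768091635712))) (P (nat_lit 0))))) (T.h (T.h (P (nat_lit 0)) (T.h (T.h (M (nat_lit 6872914424030560255))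 (T.h (P (nat_lit 0)) (M (nat_lit 2849003627327)))) (T.h (P (nat_lit 0)) (P (nat_lit 9250692809792))))) (T.h (T.h (T.h (P (nat_lit 0)) (M (nat_lit 14747082352263167))) (P (nat_lit 0))) (T.h (T.h (P (nat_lit 0)) (P (nat_lit 3374982287488))) (P (nat_lit 0)))))))), (T.h (T.h (T.h (P (nat_lit 1410570906212094888288156909568)) (T.h (P (nat_lit 0)) (T.h (P (nat_lit 2713202957367080711618560)) (T.h (P (nat_lit 0)) (P (nat_lit 20438749490257592320)))))) (T.h (P (nat_lit 0)) (T.h (T.h (M (nat_lit 736332230657898056777727)) (T.h (P (nat_lit 0)) (P (nat_lit 12443088561886986240)))) (T.h (P (nat_lit 0)) (P (nat_lit 8275653059435036672)))))) (T.h (T.h (P (nat_lit 0)) (T.h (T.h (P (nat_lit 0)) (T.h (M (nat_lit 25522296248950983753727)) (T.h (P (nat_lit 0)) (P (nat_lit 16959839353831424))))) (T.h (P (nat_lit 0)) (T.h (T.h (P (nat_lit 0)) (P (nat_lit 8426976565428224))) (P (nat_lit 0)))))) (T.h (T.h (T.h (M (nat_lit 9092474658105973488484351)) (T.h (P (nat_lit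 0)) (M (nat_lit 2049630866191155199)))) (T.h (P (nat_lit 0)) (M (nat_lit 9901124243519700991)))) (T.h (T.h (P (nat_lit 0)) (T.h (T.h (P (nat_lit 0)) (P (nat_lit 20145895602651136))) (P (nat_lit 0)))) (M (nat_lit 6450639816894709759))))))]
def lQp_6 : List (T ℤ) := [(P (nat_lit 0)), (P (nat_lit 0)), (T.h (T.h (P (nat_lit 0)) (T.h (T.h (P (nat_lit 9220441513304250013792075776)) (T.h (P (nat_lit 0)) (T.h (P (nat_lit 13527727843841541144576)) (T.h (P (nat_lit 0)) (P (nat_lit 4823750758957056)))))) (T.h (P (nat_lit 0)) (T.h (T.h (P (nat_lit 8225243363614140661760)) (T.h (P (nat_lit 0)) (P (nat_lit 8002090367451136)))) (T.h (P (nat_lit 0)) (P (nat_lit 5183491122266112))))))) (T.h (T.h (T.h (P (nat_lit 0)) (T.h (M (nat_lit 1668403387351284754415615)) (T.h (P (nat_lit 0)) (T.h (P (nat_lit 14940403265748074496)) (T.h (P (nat_lit 0)) (M (nat_lit 1824467767871))))))) (T.h (P (nat_lit 0)) (T.h (T.h (P (nat_lit 0)) (T.h (P (nat_lit 10297903490323709952))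 (T.h (P (nat_lit 0)) (M (nat_lit 2928580113343))))) (T.h (P (nat_lit 0)) (T.h (T.h (P (nat_lit 0)) (P (nat_lit 3962973290624))) (P (nat_lit 0))))))) (T.h (T.h (P (nat_lit 0)) (T.h (T.h (P (nat_lit 13527727843841541144576)) (T.h (P (nat_lit 0)) (P (nat_lit 66888005976064)))) (T.h (P (nat_lit 0)) (P (nat_lit 8002090367451136))))) (T.h (T.h (T.h (P (nat_lit 0)) (T.h (P (nat_lit 14940403265748074496)) (T.h (P (nat_lit 0)) (M (nat_lit 4152252354943))))) (T.h (P (nat_lit 0)) (T.h (T.h (P (nat_lit 0)) (M (nat_lit 2928580113343))) (P (nat_lit 0))))) (T.h (T.h (P (nat_lit 0)) (P (nat_lit 4823750758957056))) (T.h (T.h (T.h (P (nat_lit 0)) (M (nat_lit 1824467767871))) (P (nat_lit 0))) (P (nat_lit 0)))))))), (T.h (T.h (P (nat_lit 0)) (T.h (T.h (P (nat_lit 0)) (T.h (P (nat_lit 17043484856467139858530304)) (T.h (P (nat_lit 0)) (P (nat_lit 12429613524915847168))))) (T.h (P (nat_lit 0)) (T.h (T.h (P (nat_lit 0)) (P (nat_lit 2896091241655566336))) (P (nat_lit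 0)))))) (T.h (T.h (T.h (M (nat_lit 3402341988066177641621749759)) (T.h (P (nat_lit 0)) (T.h (P (nat_lit 19467932748244439793664)) (T.h (P (nat_lit 0)) (M (nat_lit 2379570363793407)))))) (T.h (P (nat_lit 0)) (T.h (T.h (M (nat_lit 22557465762590185488383)) (T.h (P (nat_lit 0)) (P (nat_lit 12701974667231232)))) (T.h (P (nat_lit 0)) (P (nat_lit 723882441949184)))))) (T.h (T.h (P (nat_lit 0)) (T.h (T.h (P (nat_lit 0)) (P (nat_lit 11739852891748302848))) (P (nat_lit 0)))) (T.h (T.h (T.h (M (nat_lit 311281724839209992191)) (T.h (P (nat_lit 0)) (M (nat_lit 3918274737192959)))) (T.h (P (nat_lit 0)) (P (nat_lit 6354815568904192)))) (T.h (P (nat_lit 0)) (P (nat_lit 396931717021696))))))), (P (nat_lit 0)), (P (nat_lit 0)), (T.h (T.h (T.h (P (nat_lit 2330416154883494020266051239936)) (T.h (P (nat_lit 0)) (T.h (P (nat_lit 2720637866675313557110784)) (T.h (P (nat_lit 0)) (P (nat_lit 1895559017283977216)))))) (T.h (P (nat_lit 0)) (T.h (T.h (P (nat_lit 7464748788017715864403968))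 (T.h (P (nat_lit 0)) (P (nat_lit 8962145797948833792)))) (T.h (P (nat_lit 0)) (M (nat_lit 1573209784461557759)))))) (T.h (T.h (P (nat_lit 0)) (T.h (T.h (P (nat_lit 0)) (T.h (P (nat_lit 7531325478474476421120)) (T.h (P (nat_lit 0)) (M (nat_lit 1499433018032127))))) (T.h (P (nat_lit 0)) (T.h (T.h (P (nat_lit 0)) (P (nat_lit 4058084649598976))) (P (nat_lit 0)))))) (T.h (T.h (T.h (P (nat_lit 2720637866675313557110784)) (T.h (P (nat_lit 0)) (P (nat_lit 758678015956746240)))) (T.h (P (nat_lit 0)) (P (nat_lit 8962145797948833792)))) (T.h (T.h (P (nat_lit 0)) (T.h (T.h (P (nat_lit 0)) (M (nat_lit 1499433018032127))) (P (nat_lit 0)))) (P (nat_lit 1895559017283977216)))))), (P (nat_lit 0))]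
def lQp_7 : List (T ℤ) := [(P (nat_lit 0)), (P (nat_lit 0)), (P (nat_lit 0)), (P (nat_lit 0)), (T.h (T.h (P (nat_lit 0)) (T.h (T.h (P (nat_lit 532858792078950653260464128)) (T.h (P (nat_lit 0)) (T.h (M (nat_lit 4144768062586427015167)) (T.h (P (nat_lit 0)) (P (nat_lit 10195113124757504)))))) (T.h (P (nat_lit 0)) (T.h (T.h (M (nat_lit 3075121913902334476287)) (T.h (P (nat_lit 0)) (M (nat_lit 14061861106614271)))) (T.h (P (nat_lit 0)) (M (nat_lit 1221575086440447))))))) (T.h (T.h (T.h (P (nat_lit 0)) (T.h (P (nat_lit 8717922922079423085674496)) (T.h (P (nat_lit 0)) (T.h (P (nat_lit 6521691154386255872)) (T.h (P (nat_lit 0)) (M (nat_lit 5165935566879))))))) (T.h (P (nat_lit 0)) (T.h (T.h (P (nat_lit 0)) (T.h (P (nat_lit 10942545611232116736)) (T.h (P (nat_lit 0)) (M (nat_lit 9748205673263))))) (T.h (P (nat_lit 0)) (T.h (T.h (P (nat_lit 0)) (P (nat_lit 3166704741056))) (P (nat_lit 0))))))) (T.h (T.h (P (nat_lit 0)) (T.h (T.h (P (nat_lit 3321691345876869447680))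 (T.h (P (nat_lit 0)) (P (nat_lit 15787150469627904)))) (T.h (P (nat_lit 0)) (P (nat_lit 15163554349252608))))) (T.h (T.h (T.h (P (nat_lit 0)) (T.h (M (nat_lit 193192647643365375)) (T.h (P (nat_lit 0)) (P (nat_lit 3373397582576))))) (T.h (P (nat_lit 0)) (T.h (T.h (P (nat_lit 0)) (M (nat_lit 172863613551))) (P (nat_lit 0))))) (T.h (T.h (P (nat_lit 0)) (P (nat_lit 2725830294568960))) (T.h (T.h (T.h (P (nat_lit 0)) (M (nat_lit 424261102751))) (P (nat_lit 0))) (P (nat_lit 0)))))))), (T.h (T.h (P (nat_lit 0)) (T.h (T.h (P (nat_lit 0)) (T.h (P (nat_lit 7876353602873980778184704)) (T.h (P (nat_lit 0)) (T.h (P (nat_lit 53974486825366978560)) (T.h (P (nat_lit 0)) (M (nat_lit 232301117191))))))) (T.h (P (nat_lit 0)) (T.h (T.h (P (nat_lit 0)) (T.h (P (nat_lit 20999579311255060480)) (T.h (P (nat_lit 0)) (P (nat_lit 3170395601472))))) (T.h (P (nat_lit 0)) (T.h (T.h (P (nat_lit 0)) (M (nat_lit 376638881959))) (P (nat_lit 0)))))))) (T.h (T.h (T.h (M (nat_lit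 481498426444980760464064511)) (T.h (P (nat_lit 0)) (T.h (M (nat_lit 26681154423655495630847)) (T.h (P (nat_lit 0)) (M (nat_lit 7017528924438527)))))) (T.h (P (nat_lit 0)) (T.h (T.h (P (nat_lit 30550314660257486340096)) (T.h (P (nat_lit 0)) (M (nat_lit 52353664172392447)))) (T.h (P (nat_lit 0)) (P (nat_lit 24475322561724416)))))) (T.h (T.h (P (nat_lit 0)) (T.h (T.h (P (nat_lit 0)) (T.h (M (nat_lit 49373033002136764415)) (T.h (P (nat_lit 0)) (M (nat_lit 11084003201839))))) (T.h (P (nat_lit 0)) (T.h (T.h (P (nat_lit 0)) (P (nat_lit 12794536799488))) (P (nat_lit 0)))))) (T.h (T.h (T.h (M (nat_lit 5697953271083314446335)) (T.h (P (nat_lit 0)) (M (nat_lit 784067758030847)))) (T.h (P (nat_lit 0)) (P (nat_lit 11781704825339904)))) (T.h (T.h (P (nat_lit 0)) (T.h (T.h (P (nat_lit 0)) (M (nat_lit 1986549294751))) (P (nat_lit 0)))) (M (nat_lit 1101479145242623))))))), (T.h (T.h (P (nat_lit 0)) (T.h (T.h (P (nat_lit 2360562084221628585116434432)) (T.h (P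 (nat_lit 0)) (T.h (P (nat_lit 36617258594338403778560)) (T.h (P (nat_lit 0)) (M (nat_lit 5663859304693759)))))) (T.h (P (nat_lit 0)) (T.h (T.h (P (nat_lit 714074767542896820224)) (T.h (P (nat_lit 0)) (P (nat_lit 20260117991833600)))) (T.h (P (nat_lit 0)) (P (nat_lit 2440102765346816))))))) (T.h (T.h (T.h (P (nat_lit 0)) (T.h (M (nat_lit 31405758993128649400516607)) (T.h (P (nat_lit 0)) (T.h (P (nat_lit 521119890724093952)) (T.h (P (nat_lit 0)) (P (nat_lit 11875290719936))))))) (T.h (P (nat_lit 0)) (T.h (T.h (P (nat_lit 0)) (T.h (M (nat_lit 40257835677308157951)) (T.h (P (nat_lit 0)) (P (nat_lit 8038665908672))))) (T.h (P (nat_lit 0)) (T.h (T.h (P (nat_lit 0)) (M (nat_lit 170731117199))) (P (nat_lit 0))))))) (T.h (T.h (P (nat_lit 0)) (T.h (T.h (M (nat_lit 16419398998575345041407)) (T.h (P (nat_lit 0)) (M (nat_lit 49521916416786431)))) (T.h (P (nat_lit 0)) (M (nat_lit 16069643455397887))))) (T.h (T.h (T.h (P (nat_lit 0)) (T.h (M (nat_lit 9023796676699095039))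 (T.h (P (nat_lit 0)) (M (nat_lit 267617463791))))) (T.h (P (nat_lit 0)) (T.h (T.h (P (nat_lit 0)) (P (nat_lit 3403801104368))) (P (nat_lit 0))))) (T.h (T.h (P (nat_lit 0)) (M (nat_lit 9768375870799871))) (T.h (T.h (T.h (P (nat_lit 0)) (M (nat_lit 476646617775))) (P (nat_lit 0))) (P (nat_lit 0)))))))), (T.h (T.h (P (nat_lit 0)) (T.h (T.h (P (nat_lit 0)) (T.h (M (nat_lit 6781529803475308119064575)) (T.h (P (nat_lit 0)) (T.h (M (nat_lit 41460708389026791423)) (T.h (P (nat_lit 0)) (M (nat_lit 227061500351))))))) (T.h (P (nat_lit 0)) (T.h (T.h (P (nat_lit 0)) (T.h (M (nat_lit 6872914424030560255)) (T.h (P (nat_lit 0)) (P (nat_lit 9250692809792))))) (T.h (P (nat_lit 0)) (T.h (T.h (P (nat_lit 0)) (P (nat_lit 3374982287488))) (P (nat_lit 0)))))))) (T.h (T.h (T.h (P (nat_lit 195617049460243153912070144)) (T.h (P (nat_lit 0)) (T.h (P (nat_lit 21307677140090005487616)) (T.h (P (nat_lit 0)) (P (nat_lit 12531652465655808)))))) (T.h (P (nat_lit 0)) (T.h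 (T.h (M (nat_lit 34533293653360430284799)) (T.h (P (nat_lit 0)) (P (nat_lit 24124768091635712)))) (T.h (P (nat_lit 0)) (M (nat_lit 14747082352263167)))))) (T.h (T.h (P (nat_lit 0)) (T.h (T.h (P (nat_lit 0)) (T.h (P (nat_lit 4653426674468126720)) (T.h (P (nat_lit 0)) (P (nat_lit 19467609627968))))) (T.h (P (nat_lit 0)) (T.h (T.h (P (nat_lit 0)) (M (nat_lit 2849003627327))) (P (nat_lit 0)))))) (T.h (T.h (T.h (P (nat_lit 3964114439558481838080)) (T.h (P (nat_lit 0)) (P (nat_lit 4071089117626368)))) (T.h (P (nat_lit 0)) (M (nat_lit 1016721890443263)))) (T.h (T.h (P (nat_lit 0)) (T.h (T.h (P (nat_lit 0)) (M (nat_lit 172857894207))) (P (nat_lit 0)))) (P (nat_lit 2371883362058240)))))))]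
def lQp_8 : List (T ℤ) := [(T.h (T.h (P (nat_lit 0)) (T.h (T.h (M (nat_lit 3402341988066177641621749759)) (T.h (P (nat_lit 0)) (T.h (M (nat_lit 22557465762590185488383)) (T.h (P (nat_lit 0)) (P (nat_lit 723882441949184)))))) (T.h (P (nat_lit 0)) (T.h (T.h (M (nat_lit 311281724839209992191)) (T.h (P (nat_lit 0)) (P (nat_lit 6354815568904192)))) (T.h (P (nat_lit 0)) (P (nat_lit 396931717021696))))))) (T.h (T.h (T.h (P (nat_lit 0)) (T.h (P (nat_lit 17043484856467139858530304)) (T.h (P (nat_lit 0)) (P (nat_lit 2896091241655566336))))) (T.h (P (nat_lit 0)) (T.h (T.h (P (nat_lit 0)) (P (nat_lit 11739852891748302848))) (P (nat_lit 0))))) (T.h (T.h (P (nat_lit 0)) (T.h (T.h (P (nat_lit 19467932748244439793664)) (T.h (P (nat_lit 0)) (P (nat_lit 12701974667231232)))) (T.h (P (nat_lit 0)) (M (nat_lit 3918274737192959))))) (T.h (T.h (T.h (P (nat_lit 0)) (P (nat_lit 12429613524915847168))) (P (nat_lit 0))) (T.h (T.h (P (nat_lit 0)) (M (nat_lit 2379570363793407)))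 (P (nat_lit 0))))))), (P (nat_lit 0)), (P (nat_lit 0)), (T.h (T.h (T.h (P (nat_lit 0)) (T.h (M (nat_lit 12852879613821572345757695)) (T.h (P (nat_lit 0)) (T.h (P (nat_lit 637446587506065670144)) (T.h (P (nat_lit 0)) (M (nat_lit 659354132676607))))))) (T.h (P (nat_lit 0)) (T.h (T.h (P (nat_lit 0)) (T.h (M (nat_lit 285728088897521451007)) (T.h (P (nat_lit 0)) (M (nat_lit 2387430420054015))))) (T.h (P (nat_lit 0)) (T.h (T.h (P (nat_lit 0)) (M (nat_lit 9820380577136639))) (P (nat_lit 0))))))) (T.h (T.h (P (nat_lit 0)) (T.h (T.h (M (nat_lit 1351268652085930406969343)) (T.h (P (nat_lit 0)) (T.h (M (nat_lit 9106968498537496575)) (T.h (P (nat_lit 0)) (P (nat_lit 13499878995904)))))) (T.h (P (nat_lit 0)) (T.h (T.h (M (nat_lit 1456239894979411967)) (T.h (P (nat_lit 0)) (P (nat_lit 5706106126624)))) (T.h (P (nat_lit 0)) (M (nat_lit 792617250143))))))) (T.h (T.h (T.h (P (nat_lit 0)) (T.h (M (nat_lit 285728088897521451007)) (T.h (P (nat_lit 0)) (M (nat_lit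 2387430420054015))))) (T.h (P (nat_lit 0)) (T.h (T.h (P (nat_lit 0)) (M (nat_lit 11595435753078783))) (P (nat_lit 0))))) (T.h (T.h (P (nat_lit 0)) (T.h (T.h (M (nat_lit 1456239894979411967)) (T.h (P (nat_lit 0)) (P (nat_lit 5706106126624)))) (T.h (P (nat_lit 0)) (P (nat_lit 3108367647936))))) (T.h (T.h (T.h (P (nat_lit 0)) (M (nat_lit 9820380577136639))) (P (nat_lit 0))) (T.h (T.h (P (nat_lit 0)) (M (nat_lit 792617250143))) (P (nat_lit 0)))))))), (T.h (T.h (T.h (M (nat_lit 334640716065204902163684261887)) (T.h (P (nat_lit 0)) (T.h (P (nat_lit 12599577724235064664915968)) (T.h (P (nat_lit 0)) (T.h (M (nat_lit 20011503028845674495)) (T.h (P (nat_lit 0)) (M (nat_lit 3445972895)))))))) (T.h (P (nat_lit 0)) (T.h (T.h (P (nat_lit 346650455776612682039296)) (T.h (P (nat_lit 0)) (T.h (P (nat_lit 18751379505200234496)) (T.h (P (nat_lit 0)) (M (nat_lit 2516063840047)))))) (T.h (P (nat_lit 0)) (T.h (T.h (M (nat_lit 10914297769569026047)) (T.h (P (nat_lit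 0)) (P (nat_lit 5826733407072)))) (T.h (P (nat_lit 0)) (P (nat_lit 742437631216)))))))) (T.h (T.h (P (nat_lit 0)) (T.h (T.h (P (nat_lit 0)) (T.h (M (nat_lit 2827372530029335412735)) (T.h (P (nat_lit 0)) (M (nat_lit 68465521162321919))))) (T.h (P (nat_lit 0)) (T.h (T.h (P (nat_lit 0)) (M (nat_lit 10688244118454271))) (P (nat_lit 0)))))) (T.h (T.h (T.h (P (nat_lit 346650455776612682039296)) (T.h (P (nat_lit 0)) (T.h (P (nat_lit 18751379505200234496)) (T.h (P (nat_lit 0)) (M (nat_lit 2516063840047)))))) (T.h (P (nat_lit 0)) (T.h (T.h (M (nat_lit 56584880978546130943)) (T.h (P (nat_lit 0)) (M (nat_lit 2288125407)))) (T.h (P (nat_lit 0)) (P (nat_lit 701830605888)))))) (T.h (T.h (P (nat_lit 0)) (T.h (T.h (P (nat_lit 0)) (M (nat_lit 10688244118454271))) (P (nat_lit 0)))) (T.h (T.h (T.h (M (nat_lit 10914297769569026047)) (T.h (P (nat_lit 0)) (P (nat_lit 5826733407072)))) (T.h (P (nat_lit 0)) (P (nat_lit 701830605888)))) (T.h (P (nat_lit 0)) (P (nat_lit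 742437631216)))))))), (T.h (T.h (T.h (P (nat_lit 0)) (T.h (P (nat_lit 1274835501234415265053147136)) (T.h (P (nat_lit 0)) (T.h (M (nat_lit 28054637439075940827135)) (T.h (P (nat_lit 0)) (P (nat_lit 14290841708625920))))))) (T.h (P (nat_lit 0)) (T.h (T.h (P (nat_lit 0)) (T.h (P (nat_lit 25879262263560112177152)) (T.h (P (nat_lit 0)) (P (nat_lit 5499124897611776))))) (T.h (P (nat_lit 0)) (T.h (T.h (P (nat_lit 0)) (P (nat_lit 17005672959475712))) (P (nat_lit 0))))))) (T.h (T.h (P (nat_lit 0)) (T.h (T.h (M (nat_lit 10900861621101865260285951)) (T.h (P (nat_lit 0)) (T.h (P (nat_lit 61799540729095127040)) (T.h (P (nat_lit 0)) (M (nat_lit 24657609824063)))))) (T.h (P (nat_lit 0)) (T.h (T.h (P (nat_lit 10343249924551868416)) (T.h (P (nat_lit 0)) (M (nat_lit 1321085431679)))) (T.h (P (nat_lit 0)) (P (nat_lit 4818155716864))))))) (T.h (T.h (T.h (P (nat_lit 0)) (T.h (P (nat_lit 25879262263560112177152)) (T.h (P (nat_lit 0)) (P (nat_lit 5499124897611776)))))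 (T.h (P (nat_lit 0)) (T.h (T.h (P (nat_lit 0)) (M (nat_lit 45833303586930687))) (P (nat_lit 0))))) (T.h (T.h (P (nat_lit 0)) (T.h (T.h (P (nat_lit 10343249924551868416)) (T.h (P (nat_lit 0)) (M (nat_lit 1321085431679)))) (T.h (P (nat_lit 0)) (P (nat_lit 2939123638080))))) (T.h (T.h (T.h (P (nat_lit 0)) (P (nat_lit 17005672959475712))) (P (nat_lit 0))) (T.h (T.h (P (nat_lit 0)) (P (nat_lit 4818155716864))) (P (nat_lit 0)))))))), (T.h (T.h (T.h (P (nat_lit 810696587689923214839151329280)) (T.h (P (nat_lit 0)) (T.h (P (nat_lit 17574285460876300923174912)) (T.h (P (nat_lit 0)) (T.h (P (nat_lit 35803479291014938624)) (T.h (P (nat_lit 0)) (P (nat_lit 8960604330880)))))))) (T.h (P (nat_lit 0)) (T.h (T.h (M (nat_lit 4348825794826340325654527)) (T.h (P (nat_lit 0)) (T.h (M (nat_lit 39355329431113564159)) (T.h (P (nat_lit 0)) (P (nat_lit 17856083280128)))))) (T.h (P (nat_lit 0)) (T.h (T.h (P (nat_lit 18286102558000807936)) (T.h (P (nat_lit 0)) (P (nat_lit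 13171983054464)))) (T.h (P (nat_lit 0)) (M (nat_lit 5681656299647)))))))) (T.h (T.h (P (nat_lit 0)) (T.h (T.h (P (nat_lit 0)) (T.h (P (nat_lit 110830120243148366020608)) (T.h (P (nat_lit 0)) (M (nat_lit 125348801092255743))))) (T.h (P (nat_lit 0)) (T.h (T.h (P (nat_lit 0)) (P (nat_lit 85688293725765632))) (P (nat_lit 0)))))) (T.h (T.h (T.h (M (nat_lit 4348825794826340325654527)) (T.h (P (nat_lit 0)) (T.h (M (nat_lit 39355329431113564159)) (T.h (P (nat_lit 0)) (P (nat_lit 17856083280128)))))) (T.h (P (nat_lit 0)) (T.h (T.h (P (nat_lit 14829725398530523136)) (T.h (P (nat_lit 0)) (P (nat_lit 40632614303616)))) (T.h (P (nat_lit 0)) (M (nat_lit 8021489520575)))))) (T.h (T.h (P (nat_lit 0)) (T.h (T.h (P (nat_lit 0)) (P (nat_lit 85688293725765632))) (P (nat_lit 0)))) (T.h (T.h (T.h (P (nat_lit 18286102558000807936)) (T.h (P (nat_lit 0)) (P (nat_lit 13171983054464)))) (T.h (P (nat_lit 0)) (M (nat_lit 8021489520575)))) (T.h (P (nat_lit 0)) (M (nat_lit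 5681656299647)))))))), (T.h (T.h (T.h (P (nat_lit 0)) (T.h (P (nat_lit 10791888917891311952700899328)) (T.h (P (nat_lit 0)) (T.h (P (nat_lit 1626752472681682042880)) (T.h (P (nat_lit 0)) (P (nat_lit 13647232764051456))))))) (T.h (P (nat_lit 0)) (T.h (T.h (P (nat_lit 0)) (T.h (M (nat_lit 39314200272193718321151)) (T.h (P (nat_lit 0)) (P (nat_lit 30372869421531136))))) (T.h (P (nat_lit 0)) (T.h (T.h (P (nat_lit 0)) (P (nat_lit 11019781030952960))) (P (nat_lit 0))))))) (T.h (T.h (P (nat_lit 0)) (T.h (T.h (M (nat_lit 4552137591189246866096127)) (T.h (P (nat_lit 0)) (M (nat_lit 60886120603446149119)))) (T.h (P (nat_lit 0)) (P (nat_lit 3540785065044738048))))) (T.h (T.h (T.h (P (nat_lit 0)) (T.h (M (nat_lit 39314200272193718321151)) (T.h (P (nat_lit 0)) (P (nat_lit 30372869421531136))))) (T.h (P (nat_lit 0)) (T.h (T.h (P (nat_lit 0)) (P (nat_lit 16427828951875584))) (P (nat_lit 0))))) (T.h (T.h (P (nat_lit 0)) (P (nat_lit 3540785065044738048))) (T.h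 (T.h (T.h (P (nat_lit 0)) (P (nat_lit 11019781030952960))) (P (nat_lit 0))) (P (nat_lit 0)))))))]
def lQp_9 : List (T ℤ) := [(P (nat_lit 0)), (P (nat_lit 0)), (T.h (T.h (P (nat_lit 0)) (T.h (T.h (M (nat_lit 12852879613821572345757695)) (T.h (P (nat_lit 0)) (T.h (M (nat_lit 285728088897521451007)) (T.h (P (nat_lit 0)) (M (nat_lit 9820380577136639)))))) (T.h (P (nat_lit 0)) (T.h (T.h (P (nat_lit 637446587506065670144)) (T.h (P (nat_lit 0)) (M (nat_lit 2387430420054015)))) (T.h (P (nat_lit 0)) (M (nat_lit 659354132676607))))))) (T.h (T.h (T.h (P (nat_lit 0)) (T.h (M (nat_lit 1351268652085930406969343)) (T.h (P (nat_lit 0)) (T.h (M (nat_lit 1456239894979411967)) (T.h (P (nat_lit 0)) (M (nat_lit 792617250143))))))) (T.h (P (nat_lit 0)) (T.h (T.h (P (nat_lit 0)) (T.h (M (nat_lit 9106968498537496575)) (T.h (P (nat_lit 0)) (P (nat_lit 5706106126624))))) (T.h (P (nat_lit 0)) (T.h (T.h (P (nat_lit 0)) (P (nat_lit 13499878995904))) (P (nat_lit 0)))))))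 (T.h (T.h (P (nat_lit 0)) (T.h (T.h (M (nat_lit 285728088897521451007)) (T.h (P (nat_lit 0)) (M (nat_lit 11595435753078783)))) (T.h (P (nat_lit 0)) (M (nat_lit 2387430420054015))))) (T.h (T.h (T.h (P (nat_lit 0)) (T.h (M (nat_lit 1456239894979411967)) (T.h (P (nat_lit 0)) (P (nat_lit 3108367647936))))) (T.h (P (nat_lit 0)) (T.h (T.h (P (nat_lit 0)) (P (nat_lit 5706106126624))) (P (nat_lit 0))))) (T.h (T.h (P (nat_lit 0)) (M (nat_lit 9820380577136639))) (T.h (T.h (T.h (P (nat_lit 0)) (M (nat_lit 792617250143))) (P (nat_lit 0))) (P (nat_lit 0)))))))), (T.h (T.h (P (nat_lit 0)) (T.h (T.h (P (nat_lit 0)) (T.h (M (nat_lit 8574249109285047659134975)) (T.h (P (nat_lit 0)) (T.h (M (nat_lit 20318268837398052863)) (T.h (P (nat_lit 0)) (M (nat_lit 2667068517175))))))) (T.h (P (nat_lit 0)) (T.h (T.h (P (nat_lit 0)) (T.h (M (nat_lit 20318268837398052863)) (T.h (P (nat_lit 0)) (P (nat_lit 11205976436640))))) (T.h (P (nat_lit 0)) (T.h (T.h (P (nat_lit 0))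 (M (nat_lit 2667068517175))) (P (nat_lit 0)))))))) (T.h (T.h (T.h (P (nat_lit 12250395560038020876844662784)) (T.h (P (nat_lit 0)) (T.h (P (nat_lit 8144800713582885994496)) (T.h (P (nat_lit 0)) (P (nat_lit 21822656918716416)))))) (T.h (P (nat_lit 0)) (T.h (T.h (P (nat_lit 8144800713582885994496)) (T.h (P (nat_lit 0)) (M (nat_lit 121971278184972287)))) (T.h (P (nat_lit 0)) (P (nat_lit 21822656918716416)))))) (T.h (T.h (P (nat_lit 0)) (T.h (T.h (P (nat_lit 0)) (T.h (P (nat_lit 47123857973291515904)) (T.h (P (nat_lit 0)) (P (nat_lit 6473973622808))))) (T.h (P (nat_lit 0)) (T.h (T.h (P (nat_lit 0)) (P (nat_lit 6473973622808))) (P (nat_lit 0)))))) (T.h (T.h (T.h (P (nat_lit 19837207699869008920576)) (T.h (P (nat_lit 0)) (P (nat_lit 16219260186099712)))) (T.h (P (nat_lit 0)) (P (nat_lit 16219260186099712)))) (T.h (T.h (P (nat_lit 0)) (T.h (T.h (P (nat_lit 0)) (M (nat_lit 5650647208911))) (P (nat_lit 0)))) (P (nat_lit 15858036691697664))))))), (T.h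 (T.h (P (nat_lit 0)) (T.h (T.h (P (nat_lit 1190417878467455091652689920)) (T.h (P (nat_lit 0)) (T.h (M (nat_lit 178699207068143585329151)) (T.h (P (nat_lit 0)) (M (nat_lit 16664568383143935)))))) (T.h (P (nat_lit 0)) (T.h (T.h (P (nat_lit 26172018345570226667520)) (T.h (P (nat_lit 0)) (P (nat_lit 84066674971803648)))) (T.h (P (nat_lit 0)) (P (nat_lit 845639420919808))))))) (T.h (T.h (T.h (P (nat_lit 0)) (T.h (P (nat_lit 39587408417186340669489152)) (T.h (P (nat_lit 0)) (T.h (M (nat_lit 18463015768434933759)) (T.h (P (nat_lit 0)) (M (nat_lit 5632617450207))))))) (T.h (P (nat_lit 0)) (T.h (T.h (P (nat_lit 0)) (T.h (P (nat_lit 130140937352900509696)) (T.h (P (nat_lit 0)) (M (nat_lit 13000870878351))))) (T.h (P (nat_lit 0)) (T.h (T.h (P (nat_lit 0)) (M (nat_lit 71336986172927))) (P (nat_lit 0))))))) (T.h (T.h (P (nat_lit 0)) (T.h (T.h (P (nat_lit 31085853986710435659776)) (T.h (P (nat_lit 0)) (M (nat_lit 14191932489744383)))) (T.h (P (nat_lit 0))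 (M (nat_lit 45041536216449023))))) (T.h (T.h (T.h (P (nat_lit 0)) (T.h (M (nat_lit 21131093311641092095)) (T.h (P (nat_lit 0)) (M (nat_lit 8063003288703))))) (T.h (P (nat_lit 0)) (T.h (T.h (P (nat_lit 0)) (M (nat_lit 13156209311727))) (P (nat_lit 0))))) (T.h (T.h (P (nat_lit 0)) (P (nat_lit 33828731189133312))) (T.h (T.h (T.h (P (nat_lit 0)) (M (nat_lit 12153382404239))) (P (nat_lit 0))) (P (nat_lit 0)))))))), (T.h (T.h (P (nat_lit 0)) (T.h (T.h (P (nat_lit 0)) (T.h (M (nat_lit 45895461587282081093779455)) (T.h (P (nat_lit 0)) (T.h (P (nat_lit 132497166626126299136)) (T.h (P (nat_lit 0)) (P (nat_lit 49546857328576))))))) (T.h (P (nat_lit 0)) (T.h (T.h (P (nat_lit 0)) (T.h (P (nat_lit 9299283688523038720)) (T.h (P (nat_lit 0)) (M (nat_lit 20259293530943))))) (T.h (P (nat_lit 0)) (T.h (T.h (P (nat_lit 0)) (P (nat_lit 22294549504640))) (P (nat_lit 0)))))))) (T.h (T.h (T.h (M (nat_lit 3702363822789395728794910719)) (T.h (P (nat_lit 0)) (T.h (M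 (nat_lit 41905726175429229805567)) (T.h (P (nat_lit 0)) (M (nat_lit 88632905097215999)))))) (T.h (P (nat_lit 0)) (T.h (T.h (P (nat_lit 90403578470243908976640)) (T.h (P (nat_lit 0)) (M (nat_lit 50639647774375935)))) (T.h (P (nat_lit 0)) (P (nat_lit 3203367007879168)))))) (T.h (T.h (P (nat_lit 0)) (T.h (T.h (P (nat_lit 0)) (T.h (M (nat_lit 104285394266293796863)) (T.h (P (nat_lit 0)) (P (nat_lit 34116370026496))))) (T.h (P (nat_lit 0)) (T.h (T.h (P (nat_lit 0)) (M (nat_lit 16065160221823))) (P (nat_lit 0)))))) (T.h (T.h (T.h (M (nat_lit 25529900305342426775551)) (T.h (P (nat_lit 0)) (P (nat_lit 33222815373590528)))) (T.h (P (nat_lit 0)) (P (nat_lit 47829927093829632)))) (T.h (T.h (P (nat_lit 0)) (T.h (T.h (P (nat_lit 0)) (P (nat_lit 1978396775168))) (P (nat_lit 0)))) (M (nat_lit 30804322491269119))))))), (T.h (T.h (P (nat_lit 0)) (T.h (T.h (M (nat_lit 3057717378853825663268290559)) (T.h (P (nat_lit 0)) (T.h (P (nat_lit 34371714572181032665088))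 (T.h (P (nat_lit 0)) (P (nat_lit 72177182128979968)))))) (T.h (P (nat_lit 0)) (T.h (T.h (M (nat_lit 1780258074724053024767)) (T.h (P (nat_lit 0)) (P (nat_lit 6497396134756352)))) (T.h (P (nat_lit 0)) (M (nat_lit 4763365724028927))))))) (T.h (T.h (T.h (P (nat_lit 0)) (T.h (P (nat_lit 12660772485101187447652352)) (T.h (P (nat_lit 0)) (M (nat_lit 112093646349093830655))))) (T.h (P (nat_lit 0)) (T.h (T.h (P (nat_lit 0)) (P (nat_lit 45047154406338854912))) (P (nat_lit 0))))) (T.h (T.h (P (nat_lit 0)) (T.h (T.h (M (nat_lit 8447562600720023683071)) (T.h (P (nat_lit 0)) (P (nat_lit 79412148893564928)))) (T.h (P (nat_lit 0)) (M (nat_lit 4163999934857215))))) (T.h (T.h (T.h (P (nat_lit 0)) (P (nat_lit 35855661794571845632))) (P (nat_lit 0))) (T.h (T.h (P (nat_lit 0)) (M (nat_lit 19241456788209663))) (P (nat_lit 0))))))), (P (nat_lit 0))]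
def lQp_10 : List (T ℤ) := [(P (nat_lit 0)), (T.h (T.h (T.h (P (nat_lit 0)) (T.h (P (nat_lit 532858792078950653260464128)) (T.h (P (nat_lit 0)) (T.h (M (nat_lit 3075121913902334476287)) (T.h (P (nat_lit 0)) (M (nat_lit 1221575086440447))))))) (T.h (P (nat_lit 0)) (T.h (T.h (P (nat_lit 0)) (T.h (M (nat_lit 4144768062586427015167)) (T.h (P (nat_lit 0)) (M (nat_lit 14061861106614271))))) (T.h (P (nat_lit 0)) (T.h (T.h (P (nat_lit 0)) (P (nat_lit 10195113124757504))) (P (nat_lit 0))))))) (T.h (T.h (P (nat_lit 0)) (T.h (T.h (P (nat_lit 8717922922079423085674496)) (T.h (P (nat_lit 0)) (T.h (P (nat_lit 10942545611232116736)) (T.h (P (nat_lit 0)) (P (nat_lit 3166704741056)))))) (T.h (P (nat_lit 0)) (T.h (T.h (P (nat_lit 6521691154386255872)) (T.h (P (nat_lit 0)) (M (nat_lit 9748205673263)))) (T.h (P (nat_lit 0)) (M (nat_lit 5165935566879))))))) (T.h (T.h (T.h (P (nat_lit 0)) (T.h (P (nat_lit 3321691345876869447680)) (T.h (P (nat_lit 0)) (P (nat_lit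 15163554349252608))))) (T.h (P (nat_lit 0)) (T.h (T.h (P (nat_lit 0)) (P (nat_lit 15787150469627904))) (P (nat_lit 0))))) (T.h (T.h (P (nat_lit 0)) (T.h (T.h (M (nat_lit 193192647643365375)) (T.h (P (nat_lit 0)) (M (nat_lit 172863613551)))) (T.h (P (nat_lit 0)) (P (nat_lit 3373397582576))))) (T.h (T.h (T.h (P (nat_lit 0)) (P (nat_lit 2725830294568960))) (P (nat_lit 0))) (T.h (T.h (P (nat_lit 0)) (M (nat_lit 424261102751))) (P (nat_lit 0)))))))), (T.h (T.h (T.h (M (nat_lit 334640716065204902163684261887)) (T.h (P (nat_lit 0)) (T.h (P (nat_lit 346650455776612682039296)) (T.h (P (nat_lit 0)) (T.h (M (nat_lit 10914297769569026047)) (T.h (P (nat_lit 0)) (P (nat_lit 742437631216)))))))) (T.h (P (nat_lit 0)) (T.h (T.h (P (nat_lit 12599577724235064664915968)) (T.h (P (nat_lit 0)) (T.h (P (nat_lit 18751379505200234496)) (T.h (P (nat_lit 0)) (P (nat_lit 5826733407072)))))) (T.h (P (nat_lit 0)) (T.h (T.h (M (nat_lit 20011503028845674495)) (T.h (P (nat_lit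 0)) (M (nat_lit 2516063840047)))) (T.h (P (nat_lit 0)) (M (nat_lit 3445972895)))))))) (T.h (T.h (P (nat_lit 0)) (T.h (T.h (P (nat_lit 0)) (T.h (M (nat_lit 2827372530029335412735)) (T.h (P (nat_lit 0)) (M (nat_lit 10688244118454271))))) (T.h (P (nat_lit 0)) (T.h (T.h (P (nat_lit 0)) (M (nat_lit 68465521162321919))) (P (nat_lit 0)))))) (T.h (T.h (T.h (P (nat_lit 346650455776612682039296)) (T.h (P (nat_lit 0)) (T.h (M (nat_lit 56584880978546130943)) (T.h (P (nat_lit 0)) (P (nat_lit 701830605888)))))) (T.h (P (nat_lit 0)) (T.h (T.h (P (nat_lit 18751379505200234496)) (T.h (P (nat_lit 0)) (M (nat_lit 2288125407)))) (T.h (P (nat_lit 0)) (M (nat_lit 2516063840047)))))) (T.h (T.h (P (nat_lit 0)) (T.h (T.h (P (nat_lit 0)) (M (nat_lit 10688244118454271))) (P (nat_lit 0)))) (T.h (T.h (T.h (M (nat_lit 10914297769569026047)) (T.h (P (nat_lit 0)) (P (nat_lit 701830605888)))) (T.h (P (nat_lit 0)) (P (nat_lit 5826733407072)))) (T.h (P (nat_lit 0)) (P (nat_lit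 742437631216)))))))), (T.h (T.h (T.h (P (nat_lit 0)) (T.h (P (nat_lit 1190417878467455091652689920)) (T.h (P (nat_lit 0)) (T.h (P (nat_lit 26172018345570226667520)) (T.h (P (nat_lit 0)) (P (nat_lit 845639420919808))))))) (T.h (P (nat_lit 0)) (T.h (T.h (P (nat_lit 0)) (T.h (M (nat_lit 178699207068143585329151)) (T.h (P (nat_lit 0)) (P (nat_lit 84066674971803648))))) (T.h (P (nat_lit 0)) (T.h (T.h (P (nat_lit 0)) (M (nat_lit 16664568383143935))) (P (nat_lit 0))))))) (T.h (T.h (P (nat_lit 0)) (T.h (T.h (P (nat_lit 39587408417186340669489152)) (T.h (P (nat_lit 0)) (T.h (P (nat_lit 130140937352900509696)) (T.h (P (nat_lit 0)) (M (nat_lit 71336986172927)))))) (T.h (P (nat_lit 0)) (T.h (T.h (M (nat_lit 18463015768434933759)) (T.h (P (nat_lit 0)) (M (nat_lit 13000870878351)))) (T.h (P (nat_lit 0)) (M (nat_lit 5632617450207))))))) (T.h (T.h (T.h (P (nat_lit 0)) (T.h (P (nat_lit 31085853986710435659776)) (T.h (P (nat_lit 0)) (M (nat_lit 45041536216449023)))))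 (T.h (P (nat_lit 0)) (T.h (T.h (P (nat_lit 0)) (M (nat_lit 14191932489744383))) (P (nat_lit 0))))) (T.h (T.h (P (nat_lit 0)) (T.h (T.h (M (nat_lit 21131093311641092095)) (T.h (P (nat_lit 0)) (M (nat_lit 13156209311727)))) (T.h (P (nat_lit 0)) (M (nat_lit 8063003288703))))) (T.h (T.h (T.h (P (nat_lit 0)) (P (nat_lit 33828731189133312))) (P (nat_lit 0))) (T.h (T.h (P (nat_lit 0)) (M (nat_lit 12153382404239))) (P (nat_lit 0)))))))), (T.h (T.h (T.h (M (nat_lit 1926289178347798091970222489599)) (T.h (P (nat_lit 0)) (T.h (M (nat_lit 47330361431426335642746879)) (T.h (P (nat_lit 0)) (T.h (M (nat_lit 5120460088942788607)) (T.h (P (nat_lit 0)) (M (nat_lit 1207207314879)))))))) (T.h (P (nat_lit 0)) (T.h (T.h (M (nat_lit 47330361431426335642746879)) (T.h (P (nat_lit 0)) (T.h (P (nat_lit 230600563208908439552)) (T.h (P (nat_lit 0)) (P (nat_lit 34433058470528)))))) (T.h (P (nat_lit 0)) (T.h (T.h (M (nat_lit 5120460088942788607)) (T.h (P (nat_lit 0)) (P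 (nat_lit 34433058470528)))) (T.h (P (nat_lit 0)) (M (nat_lit 1207207314879)))))))) (T.h (T.h (P (nat_lit 0)) (T.h (T.h (P (nat_lit 0)) (T.h (P (nat_lit 6298528377167190949888)) (T.h (P (nat_lit 0)) (M (nat_lit 134977345443725311))))) (T.h (P (nat_lit 0)) (T.h (T.h (P (nat_lit 0)) (M (nat_lit 134977345443725311))) (P (nat_lit 0)))))) (T.h (T.h (T.h (P (nat_lit 33340692085265967498657792)) (T.h (P (nat_lit 0)) (T.h (M (nat_lit 104285345478686539775)) (T.h (P (nat_lit 0)) (P (nat_lit 14133246574336)))))) (T.h (P (nat_lit 0)) (T.h (T.h (M (nat_lit 104285345478686539775)) (T.h (P (nat_lit 0)) (P (nat_lit 72133862804608)))) (T.h (P (nat_lit 0)) (P (nat_lit 14133246574336)))))) (T.h (T.h (P (nat_lit 0)) (T.h (T.h (P (nat_lit 0)) (P (nat_lit 46579037508337664))) (P (nat_lit 0)))) (T.h (T.h (T.h (P (nat_lit 46840225438281760768)) (T.h (P (nat_lit 0)) (M (nat_lit 42450382400319)))) (T.h (P (nat_lit 0)) (M (nat_lit 42450382400319)))) (T.h (P (nat_lit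 0)) (P (nat_lit 16570632507264)))))))), (T.h (T.h (T.h (P (nat_lit 0)) (T.h (M (nat_lit 7898869424295032560457613311)) (T.h (P (nat_lit 0)) (T.h (P (nat_lit 25619508905965531430912)) (T.h (P (nat_lit 0)) (P (nat_lit 5990357490696192))))))) (T.h (P (nat_lit 0)) (T.h (T.h (P (nat_lit 0)) (T.h (P (nat_lit 20518604022785385693184)) (T.h (P (nat_lit 0)) (P (nat_lit 25828239031599104))))) (T.h (P (nat_lit 0)) (T.h (T.h (P (nat_lit 0)) (P (nat_lit 37244374366273536))) (P (nat_lit 0))))))) (T.h (T.h (P (nat_lit 0)) (T.h (T.h (P (nat_lit 3808010078810433310949376)) (T.h (P (nat_lit 0)) (M (nat_lit 47737917958413877247)))) (T.h (P (nat_lit 0)) (M (nat_lit 7228349994594467839))))) (T.h (T.h (T.h (P (nat_lit 0)) (T.h (M (nat_lit 66894456594855284965375)) (T.h (P (nat_lit 0)) (P (nat_lit 34505731325050880))))) (T.h (P (nat_lit 0)) (T.h (T.h (P (nat_lit 0)) (P (nat_lit 4558212600184832))) (P (nat_lit 0))))) (T.h (T.h (P (nat_lit 0)) (P (nat_lit 39699916217686949888)))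 (T.h (T.h (T.h (P (nat_lit 0)) (M (nat_lit 17205814889070591))) (P (nat_lit 0))) (P (nat_lit 0))))))), (P (nat_lit 0)), (P (nat_lit 0))]
def lQp_11 : List (T ℤ) := [(T.h (T.h (P (nat_lit 0)) (T.h (T.h (P (nat_lit 0)) (T.h (P (nat_lit 7876353602873980778184704)) (T.h (P (nat_lit 0)) (T.h (P (nat_lit 20999579311255060480)) (T.h (P (nat_lit 0)) (M (nat_lit 376638881959))))))) (T.h (P (nat_lit 0)) (T.h (T.h (P (nat_lit 0)) (T.h (P (nat_lit 53974486825366978560)) (T.h (P (nat_lit 0)) (P (nat_lit 3170395601472))))) (T.h (P (nat_lit 0)) (T.h (T.h (P (nat_lit 0)) (M (nat_lit 232301117191))) (P (nat_lit 0)))))))) (T.h (T.h (T.h (M (nat_lit 481498426444980760464064511)) (T.h (P (nat_lit 0)) (T.h (P (nat_lit 30550314660257486340096)) (T.h (P (nat_lit 0)) (P (nat_lit 24475322561724416)))))) (T.h (P (nat_lit 0)) (T.h (T.h (M (nat_lit 26681154423655495630847)) (T.h (P (nat_lit 0)) (M (nat_lit 52353664172392447)))) (T.h (P (nat_lit 0)) (M (nat_lit 7017528924438527))))))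 (T.h (T.h (P (nat_lit 0)) (T.h (T.h (P (nat_lit 0)) (T.h (M (nat_lit 49373033002136764415)) (T.h (P (nat_lit 0)) (P (nat_lit 12794536799488))))) (T.h (P (nat_lit 0)) (T.h (T.h (P (nat_lit 0)) (M (nat_lit 11084003201839))) (P (nat_lit 0)))))) (T.h (T.h (T.h (M (nat_lit 5697953271083314446335)) (T.h (P (nat_lit 0)) (P (nat_lit 11781704825339904)))) (T.h (P (nat_lit 0)) (M (nat_lit 784067758030847)))) (T.h (T.h (P (nat_lit 0)) (T.h (T.h (P (nat_lit 0)) (M (nat_lit 1986549294751))) (P (nat_lit 0)))) (M (nat_lit 1101479145242623))))))), (T.h (T.h (P (nat_lit 0)) (T.h (T.h (P (nat_lit 1274835501234415265053147136)) (T.h (P (nat_lit 0)) (T.h (P (nat_lit 25879262263560112177152)) (T.h (P (nat_lit 0)) (P (nat_lit 17005672959475712)))))) (T.h (P (nat_lit 0)) (T.h (T.h (M (nat_lit 28054637439075940827135)) (T.h (P (nat_lit 0)) (P (nat_lit 5499124897611776)))) (T.h (P (nat_lit 0)) (P (nat_lit 14290841708625920))))))) (T.h (T.h (T.h (P (nat_lit 0)) (T.h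 (M (nat_lit 10900861621101865260285951)) (T.h (P (nat_lit 0)) (T.h (P (nat_lit 10343249924551868416)) (T.h (P (nat_lit 0)) (P (nat_lit 4818155716864))))))) (T.h (P (nat_lit 0)) (T.h (T.h (P (nat_lit 0)) (T.h (P (nat_lit 61799540729095127040)) (T.h (P (nat_lit 0)) (M (nat_lit 1321085431679))))) (T.h (P (nat_lit 0)) (T.h (T.h (P (nat_lit 0)) (M (nat_lit 24657609824063))) (P (nat_lit 0))))))) (T.h (T.h (P (nat_lit 0)) (T.h (T.h (P (nat_lit 25879262263560112177152)) (T.h (P (nat_lit 0)) (M (nat_lit 45833303586930687)))) (T.h (P (nat_lit 0)) (P (nat_lit 5499124897611776))))) (T.h (T.h (T.h (P (nat_lit 0)) (T.h (P (nat_lit 10343249924551868416)) (T.h (P (nat_lit 0)) (P (nat_lit 2939123638080))))) (T.h (P (nat_lit 0)) (T.h (T.h (P (nat_lit 0)) (M (nat_lit 1321085431679))) (P (nat_lit 0))))) (T.h (T.h (P (nat_lit 0)) (P (nat_lit 17005672959475712))) (T.h (T.h (T.h (P (nat_lit 0)) (P (nat_lit 4818155716864))) (P (nat_lit 0))) (P (nat_lit 0)))))))),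 (T.h (T.h (P (nat_lit 0)) (T.h (T.h (P (nat_lit 0)) (T.h (M (nat_lit 45895461587282081093779455)) (T.h (P (nat_lit 0)) (T.h (P (nat_lit 9299283688523038720)) (T.h (P (nat_lit 0)) (P (nat_lit 22294549504640))))))) (T.h (P (nat_lit 0)) (T.h (T.h (P (nat_lit 0)) (T.h (P (nat_lit 132497166626126299136)) (T.h (P (nat_lit 0)) (M (nat_lit 20259293530943))))) (T.h (P (nat_lit 0)) (T.h (T.h (P (nat_lit 0)) (P (nat_lit 49546857328576))) (P (nat_lit 0)))))))) (T.h (T.h (T.h (M (nat_lit 3702363822789395728794910719)) (T.h (P (nat_lit 0)) (T.h (P (nat_lit 90403578470243908976640)) (T.h (P (nat_lit 0)) (P (nat_lit 3203367007879168)))))) (T.h (P (nat_lit 0)) (T.h (T.h (M (nat_lit 41905726175429229805567)) (T.h (P (nat_lit 0)) (M (nat_lit 50639647774375935)))) (T.h (P (nat_lit 0)) (M (nat_lit 88632905097215999)))))) (T.h (T.h (P (nat_lit 0)) (T.h (T.h (P (nat_lit 0)) (T.h (M (nat_lit 104285394266293796863)) (T.h (P (nat_lit 0)) (M (nat_lit 16065160221823)))))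 (T.h (P (nat_lit 0)) (T.h (T.h (P (nat_lit 0)) (P (nat_lit 34116370026496))) (P (nat_lit 0)))))) (T.h (T.h (T.h (M (nat_lit 25529900305342426775551)) (T.h (P (nat_lit 0)) (P (nat_lit 47829927093829632)))) (T.h (P (nat_lit 0)) (P (nat_lit 33222815373590528)))) (T.h (T.h (P (nat_lit 0)) (T.h (T.h (P (nat_lit 0)) (P (nat_lit 1978396775168))) (P (nat_lit 0)))) (M (nat_lit 30804322491269119))))))), (T.h (T.h (P (nat_lit 0)) (T.h (T.h (M (nat_lit 7898869424295032560457613311)) (T.h (P (nat_lit 0)) (T.h (P (nat_lit 20518604022785385693184)) (T.h (P (nat_lit 0)) (P (nat_lit 37244374366273536)))))) (T.h (P (nat_lit 0)) (T.h (T.h (P (nat_lit 25619508905965531430912)) (T.h (P (nat_lit 0)) (P (nat_lit 25828239031599104)))) (T.h (P (nat_lit 0)) (P (nat_lit 5990357490696192))))))) (T.h (T.h (T.h (P (nat_lit 0)) (T.h (P (nat_lit 3808010078810433310949376)) (T.h (P (nat_lit 0)) (M (nat_lit 7228349994594467839))))) (T.h (P (nat_lit 0)) (T.h (T.h (P (nat_lit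 0)) (M (nat_lit 47737917958413877247))) (P (nat_lit 0))))) (T.h (T.h (P (nat_lit 0)) (T.h (T.h (M (nat_lit 66894456594855284965375)) (T.h (P (nat_lit 0)) (P (nat_lit 4558212600184832)))) (T.h (P (nat_lit 0)) (P (nat_lit 34505731325050880))))) (T.h (T.h (T.h (P (nat_lit 0)) (P (nat_lit 39699916217686949888))) (P (nat_lit 0))) (T.h (T.h (P (nat_lit 0)) (M (nat_lit 17205814889070591))) (P (nat_lit 0))))))), (P (nat_lit 0)), (P (nat_lit 0)), (T.h (T.h (T.h (P (nat_lit 0)) (T.h (P (nat_lit 2360562084221628585116434432)) (T.h (P (nat_lit 0)) (T.h (P (nat_lit 714074767542896820224)) (T.h (P (nat_lit 0)) (P (nat_lit 2440102765346816))))))) (T.h (P (nat_lit 0)) (T.h (T.h (P (nat_lit 0)) (T.h (P (nat_lit 36617258594338403778560)) (T.h (P (nat_lit 0)) (P (nat_lit 20260117991833600))))) (T.h (P (nat_lit 0)) (T.h (T.h (P (nat_lit 0)) (M (nat_lit 5663859304693759))) (P (nat_lit 0))))))) (T.h (T.h (P (nat_lit 0)) (T.h (T.h (M (nat_lit 31405758993128649400516607))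 (T.h (P (nat_lit 0)) (T.h (M (nat_lit 40257835677308157951)) (T.h (P (nat_lit 0)) (M (nat_lit 170731117199)))))) (T.h (P (nat_lit 0)) (T.h (T.h (P (nat_lit 521119890724093952)) (T.h (P (nat_lit 0)) (P (nat_lit 8038665908672)))) (T.h (P (nat_lit 0)) (P (nat_lit 11875290719936))))))) (T.h (T.h (T.h (P (nat_lit 0)) (T.h (M (nat_lit 16419398998575345041407)) (T.h (P (nat_lit 0)) (M (nat_lit 16069643455397887))))) (T.h (P (nat_lit 0)) (T.h (T.h (P (nat_lit 0)) (M (nat_lit 49521916416786431))) (P (nat_lit 0))))) (T.h (T.h (P (nat_lit 0)) (T.h (T.h (M (nat_lit 9023796676699095039)) (T.h (P (nat_lit 0)) (P (nat_lit 3403801104368)))) (T.h (P (nat_lit 0)) (M (nat_lit 267617463791))))) (T.h (T.h (T.h (P (nat_lit 0)) (M (nat_lit 9768375870799871))) (P (nat_lit 0))) (T.h (T.h (P (nat_lit 0)) (M (nat_lit 476646617775))) (P (nat_lit 0)))))))), (T.h (T.h (T.h (P (nat_lit 810696587689923214839151329280)) (T.h (P (nat_lit 0)) (T.h (M (nat_lit 4348825794826340325654527))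 (T.h (P (nat_lit 0)) (T.h (P (nat_lit 18286102558000807936)) (T.h (P (nat_lit 0)) (M (nat_lit 5681656299647)))))))) (T.h (P (nat_lit 0)) (T.h (T.h (P (nat_lit 17574285460876300923174912)) (T.h (P (nat_lit 0)) (T.h (M (nat_lit 39355329431113564159)) (T.h (P (nat_lit 0)) (P (nat_lit 13171983054464)))))) (T.h (P (nat_lit 0)) (T.h (T.h (P (nat_lit 35803479291014938624)) (T.h (P (nat_lit 0)) (P (nat_lit 17856083280128)))) (T.h (P (nat_lit 0)) (P (nat_lit 8960604330880)))))))) (T.h (T.h (P (nat_lit 0)) (T.h (T.h (P (nat_lit 0)) (T.h (P (nat_lit 110830120243148366020608)) (T.h (P (nat_lit 0)) (P (nat_lit 85688293725765632))))) (T.h (P (nat_lit 0)) (T.h (T.h (P (nat_lit 0)) (M (nat_lit 125348801092255743))) (P (nat_lit 0)))))) (T.h (T.h (T.h (M (nat_lit 4348825794826340325654527)) (T.h (P (nat_lit 0)) (T.h (P (nat_lit 14829725398530523136)) (T.h (P (nat_lit 0)) (M (nat_lit 8021489520575)))))) (T.h (P (nat_lit 0)) (T.h (T.h (M (nat_lit 39355329431113564159))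 (T.h (P (nat_lit 0)) (P (nat_lit 40632614303616)))) (T.h (P (nat_lit 0)) (P (nat_lit 17856083280128)))))) (T.h (T.h (P (nat_lit 0)) (T.h (T.h (P (nat_lit 0)) (P (nat_lit 85688293725765632))) (P (nat_lit 0)))) (T.h (T.h (T.h (P (nat_lit 18286102558000807936)) (T.h (P (nat_lit 0)) (M (nat_lit 8021489520575)))) (T.h (P (nat_lit 0)) (P (nat_lit 13171983054464)))) (T.h (P (nat_lit 0)) (M (nat_lit 5681656299647))))))))]
def lQp_12 : List (T ℤ) := [(T.h (T.h (T.h (P (nat_lit 0)) (T.h (M (nat_lit 3057717378853825663268290559)) (T.h (P (nat_lit 0)) (T.h (M (nat_lit 1780258074724053024767)) (T.h (P (nat_lit 0)) (M (nat_lit 4763365724028927))))))) (T.h (P (nat_lit 0)) (T.h (T.h (P (nat_lit 0)) (T.h (P (nat_lit 34371714572181032665088)) (T.h (P (nat_lit 0)) (P (nat_lit 6497396134756352))))) (T.h (P (nat_lit 0)) (T.h (T.h (P (nat_lit 0)) (P (nat_lit 72177182128979968))) (P (nat_lit 0))))))) (T.h (T.h (P (nat_lit 0)) (T.h (T.h (P (nat_lit 12660772485101187447652352))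 (T.h (P (nat_lit 0)) (P (nat_lit 45047154406338854912)))) (T.h (P (nat_lit 0)) (M (nat_lit 112093646349093830655))))) (T.h (T.h (T.h (P (nat_lit 0)) (T.h (M (nat_lit 8447562600720023683071)) (T.h (P (nat_lit 0)) (M (nat_lit 4163999934857215))))) (T.h (P (nat_lit 0)) (T.h (T.h (P (nat_lit 0)) (P (nat_lit 79412148893564928))) (P (nat_lit 0))))) (T.h (T.h (P (nat_lit 0)) (P (nat_lit 35855661794571845632))) (T.h (T.h (T.h (P (nat_lit 0)) (M (nat_lit 19241456788209663))) (P (nat_lit 0))) (P (nat_lit 0))))))), (P (nat_lit 0)), (P (nat_lit 0)), (T.h (T.h (P (nat_lit 0)) (T.h (T.h (P (nat_lit 0)) (T.h (M (nat_lit 6781529803475308119064575)) (T.h (P (nat_lit 0)) (T.h (M (nat_lit 6872914424030560255)) (T.h (P (nat_lit 0)) (P (nat_lit 3374982287488))))))) (T.h (P (nat_lit 0)) (T.h (T.h (P (nat_lit 0)) (T.h (M (nat_lit 41460708389026791423)) (T.h (P (nat_lit 0)) (P (nat_lit 9250692809792))))) (T.h (P (nat_lit 0)) (T.h (T.h (P (nat_lit 0)) (M (nat_lit 227061500351)))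 (P (nat_lit 0)))))))) (T.h (T.h (T.h (P (nat_lit 195617049460243153912070144)) (T.h (P (nat_lit 0)) (T.h (M (nat_lit 34533293653360430284799)) (T.h (P (nat_lit 0)) (M (nat_lit 14747082352263167)))))) (T.h (P (nat_lit 0)) (T.h (T.h (P (nat_lit 21307677140090005487616)) (T.h (P (nat_lit 0)) (P (nat_lit 24124768091635712)))) (T.h (P (nat_lit 0)) (P (nat_lit 12531652465655808)))))) (T.h (T.h (P (nat_lit 0)) (T.h (T.h (P (nat_lit 0)) (T.h (P (nat_lit 4653426674468126720)) (T.h (P (nat_lit 0)) (M (nat_lit 2849003627327))))) (T.h (P (nat_lit 0)) (T.h (T.h (P (nat_lit 0)) (P (nat_lit 19467609627968))) (P (nat_lit 0)))))) (T.h (T.h (T.h (P (nat_lit 3964114439558481838080)) (T.h (P (nat_lit 0)) (M (nat_lit 1016721890443263)))) (T.h (P (nat_lit 0)) (P (nat_lit 4071089117626368)))) (T.h (T.h (P (nat_lit 0)) (T.h (T.h (P (nat_lit 0)) (M (nat_lit 172857894207))) (P (nat_lit 0)))) (P (nat_lit 2371883362058240))))))), (T.h (T.h (P (nat_lit 0)) (T.h (T.h (P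 (nat_lit 10791888917891311952700899328)) (T.h (P (nat_lit 0)) (T.h (M (nat_lit 39314200272193718321151)) (T.h (P (nat_lit 0)) (P (nat_lit 11019781030952960)))))) (T.h (P (nat_lit 0)) (T.h (T.h (P (nat_lit 1626752472681682042880)) (T.h (P (nat_lit 0)) (P (nat_lit 30372869421531136)))) (T.h (P (nat_lit 0)) (P (nat_lit 13647232764051456))))))) (T.h (T.h (T.h (P (nat_lit 0)) (T.h (M (nat_lit 4552137591189246866096127)) (T.h (P (nat_lit 0)) (P (nat_lit 3540785065044738048))))) (T.h (P (nat_lit 0)) (T.h (T.h (P (nat_lit 0)) (M (nat_lit 60886120603446149119))) (P (nat_lit 0))))) (T.h (T.h (P (nat_lit 0)) (T.h (T.h (M (nat_lit 39314200272193718321151)) (T.h (P (nat_lit 0)) (P (nat_lit 16427828951875584)))) (T.h (P (nat_lit 0)) (P (nat_lit 30372869421531136))))) (T.h (T.h (T.h (P (nat_lit 0)) (P (nat_lit 3540785065044738048))) (P (nat_lit 0))) (T.h (T.h (P (nat_lit 0)) (P (nat_lit 11019781030952960))) (P (nat_lit 0))))))), (P (nat_lit 0)), (P (nat_lit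 0)), (T.h (T.h (T.h (P (nat_lit 0)) (T.h (M (nat_lit 3402341988066177641621749759)) (T.h (P (nat_lit 0)) (T.h (M (nat_lit 311281724839209992191)) (T.h (P (nat_lit 0)) (P (nat_lit 396931717021696))))))) (T.h (P (nat_lit 0)) (T.h (T.h (P (nat_lit 0)) (T.h (M (nat_lit 22557465762590185488383)) (T.h (P (nat_lit 0)) (P (nat_lit 6354815568904192))))) (T.h (P (nat_lit 0)) (T.h (T.h (P (nat_lit 0)) (P (nat_lit 723882441949184))) (P (nat_lit 0))))))) (T.h (T.h (P (nat_lit 0)) (T.h (T.h (P (nat_lit 17043484856467139858530304)) (T.h (P (nat_lit 0)) (P (nat_lit 11739852891748302848)))) (T.h (P (nat_lit 0)) (P (nat_lit 2896091241655566336))))) (T.h (T.h (T.h (P (nat_lit 0)) (T.h (P (nat_lit 19467932748244439793664)) (T.h (P (nat_lit 0)) (M (nat_lit 3918274737192959))))) (T.h (P (nat_lit 0)) (T.h (T.h (P (nat_lit 0)) (P (nat_lit 12701974667231232))) (P (nat_lit 0))))) (T.h (T.h (P (nat_lit 0)) (P (nat_lit 12429613524915847168))) (T.h (T.h (T.h (P (nat_lit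 0)) (M (nat_lit 2379570363793407))) (P (nat_lit 0))) (P (nat_lit 0)))))))]
def lQp_13 : List (T ℤ) := [(P (nat_lit 0)), (P (nat_lit 0)), (P (nat_lit 0)), (P (nat_lit 0)), (P (nat_lit 0)), (P (nat_lit 0)), (T.h (T.h (T.h (P (nat_lit 1974437142523453654025568780288)) (T.h (P (nat_lit 0)) (T.h (P (nat_lit 3776107581101057807220736)) (T.h (P (nat_lit 0)) (T.h (M (nat_lit 455214168597856255)) (T.h (P (nat_lit 0)) (P (nat_lit 1320627043552)))))))) (T.h (P (nat_lit 0)) (T.h (T.h (M (nat_lit 9758004229517509839028223)) (T.h (P (nat_lit 0)) (T.h (M (nat_lit 9060807759313764351)) (T.h (P (nat_lit 0)) (M (nat_lit 4691781859471)))))) (T.h (P (nat_lit 0)) (T.h (T.h (P (nat_lit 1083103659241242624)) (T.h (P (nat_lit 0)) (P (nat_lit 2064152749056)))) (T.h (P (nat_lit 0)) (M (nat_lit 1030947796895)))))))) (T.h (T.h (P (nat_lit 0)) (T.h (T.h (P (nat_lit 0)) (T.h (M (nat_lit 35916735902168758878207)) (T.h (P (nat_lit 0)) (P (nat_lit 31562004246757376))))) (T.h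 (P (nat_lit 0)) (T.h (T.h (P (nat_lit 0)) (M (nat_lit 83825974921003007))) (P (nat_lit 0)))))) (T.h (T.h (T.h (P (nat_lit 3776107581101057807220736)) (T.h (P (nat_lit 0)) (T.h (P (nat_lit 47664521656557109248)) (T.h (P (nat_lit 0)) (M (nat_lit 6116429705375)))))) (T.h (P (nat_lit 0)) (T.h (T.h (M (nat_lit 9060807759313764351)) (T.h (P (nat_lit 0)) (M (nat_lit 2560356751999)))) (T.h (P (nat_lit 0)) (P (nat_lit 2064152749056)))))) (T.h (T.h (P (nat_lit 0)) (T.h (T.h (P (nat_lit 0)) (P (nat_lit 31562004246757376))) (P (nat_lit 0)))) (T.h (T.h (T.h (M (nat_lit 455214168597856255)) (T.h (P (nat_lit 0)) (M (nat_lit 6116429705375)))) (T.h (P (nat_lit 0)) (M (nat_lit 4691781859471)))) (T.h (P (nat_lit 0)) (P (nat_lit 1320627043552)))))))), (T.h (T.h (T.h (P (nat_lit 0)) (T.h (P (nat_lit 9200511152944924224068255744)) (T.h (P (nat_lit 0)) (T.h (P (nat_lit 8138641168080224387072)) (T.h (P (nat_lit 0)) (M (nat_lit 259682930294783))))))) (T.h (P (nat_lit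 0)) (T.h (T.h (P (nat_lit 0)) (T.h (M (nat_lit 14077787117441249181695)) (T.h (P (nat_lit 0)) (M (nat_lit 10156953881837567))))) (T.h (P (nat_lit 0)) (T.h (T.h (P (nat_lit 0)) (M (nat_lit 5005039249031167))) (P (nat_lit 0))))))) (T.h (T.h (P (nat_lit 0)) (T.h (T.h (M (nat_lit 14097034584816128465305599)) (T.h (P (nat_lit 0)) (T.h (P (nat_lit 158806723948804308992)) (T.h (P (nat_lit 0)) (P (nat_lit 20609692360)))))) (T.h (P (nat_lit 0)) (T.h (T.h (M (nat_lit 40614113373115645951)) (T.h (P (nat_lit 0)) (M (nat_lit 3119472546015)))) (T.h (P (nat_lit 0)) (P (nat_lit 1926006707968))))))) (T.h (T.h (T.h (P (nat_lit 0)) (T.h (P (nat_lit 49067423696374458220544)) (T.h (P (nat_lit 0)) (M (nat_lit 8698455030792191))))) (T.h (P (nat_lit 0)) (T.h (T.h (P (nat_lit 0)) (M (nat_lit 1336226320908287))) (P (nat_lit 0))))) (T.h (T.h (P (nat_lit 0)) (T.h (T.h (M (nat_lit 14447862614417473535)) (T.h (P (nat_lit 0)) (M (nat_lit 17662225065887)))) (T.h (P (nat_lit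 0)) (M (nat_lit 6278110139767))))) (T.h (T.h (T.h (P (nat_lit 0)) (M (nat_lit 28476101997723647))) (P (nat_lit 0))) (T.h (T.h (P (nat_lit 0)) (P (nat_lit 4801873344928))) (P (nat_lit 0))))))))]
def lQp_14 : List (T ℤ) := [(T.h (T.h (T.h (M (nat_lit 15781421352417333064023314268159)) (T.h (P (nat_lit 0)) (T.h (P (nat_lit 2254133925789322698555392)) (T.h (P (nat_lit 0)) (T.h (M (nat_lit 11582974751273910271)) (T.h (P (nat_lit 0)) (M (nat_lit 4494899552751)))))))) (T.h (P (nat_lit 0)) (T.h (T.h (P (nat_lit 19510935969206319368372224)) (T.h (P (nat_lit 0)) (T.h (M (nat_lit 48825252204196659199)) (T.h (P (nat_lit 0)) (P (nat_lit 66173550912)))))) (T.h (P (nat_lit 0)) (T.h (T.h (P (nat_lit 3816157051806023680)) (T.h (P (nat_lit 0)) (M (nat_lit 5131028078175)))) (T.h (P (nat_lit 0)) (M (nat_lit 2135898518655)))))))) (T.h (T.h (P (nat_lit 0)) (T.h (T.h (P (nat_lit 0)) (T.h (P (nat_lit 104428965465499621130240)) (T.h (P (nat_lit 0)) (M (nat_lit 65765569243283455)))))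 (T.h (P (nat_lit 0)) (T.h (T.h (P (nat_lit 0)) (P (nat_lit 95973161780510720))) (P (nat_lit 0)))))) (T.h (T.h (T.h (M (nat_lit 17016263105224677655576575)) (T.h (P (nat_lit 0)) (T.h (M (nat_lit 20199970791355318271)) (T.h (P (nat_lit 0)) (P (nat_lit 18872188738032)))))) (T.h (P (nat_lit 0)) (T.h (T.h (P (nat_lit 4459232863304286208)) (T.h (P (nat_lit 0)) (P (nat_lit 8548507008608)))) (T.h (P (nat_lit 0)) (M (nat_lit 2689076313615)))))) (T.h (T.h (P (nat_lit 0)) (T.h (T.h (P (nat_lit 0)) (M (nat_lit 42371289102942207))) (P (nat_lit 0)))) (T.h (T.h (T.h (M (nat_lit 5769335801796100095)) (T.h (P (nat_lit 0)) (P (nat_lit 7861092761200)))) (T.h (P (nat_lit 0)) (P (nat_lit 15481464103056)))) (T.h (P (nat_lit 0)) (M (nat_lit 6454986133007)))))))), (T.h (T.h (T.h (P (nat_lit 0)) (T.h (M (nat_lit 2008280231544279771887173631)) (T.h (P (nat_lit 0)) (T.h (M (nat_lit 14444565840120697061375)) (T.h (P (nat_lit 0)) (P (nat_lit 2650552869519360))))))) (T.h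 (P (nat_lit 0)) (T.h (T.h (P (nat_lit 0)) (T.h (M (nat_lit 20491663626153897230335)) (T.h (P (nat_lit 0)) (M (nat_lit 17118034321866751))))) (T.h (P (nat_lit 0)) (T.h (T.h (P (nat_lit 0)) (M (nat_lit 12549948312485887))) (P (nat_lit 0))))))) (T.h (T.h (P (nat_lit 0)) (T.h (T.h (P (nat_lit 12881852499707145018671104)) (T.h (P (nat_lit 0)) (T.h (M (nat_lit 131690224174086750207)) (T.h (P (nat_lit 0)) (M (nat_lit 1504335511807)))))) (T.h (P (nat_lit 0)) (T.h (T.h (P (nat_lit 20160226170429767680)) (T.h (P (nat_lit 0)) (P (nat_lit 42196455976256)))) (T.h (P (nat_lit 0)) (M (nat_lit 12219471662591))))))) (T.h (T.h (T.h (P (nat_lit 0)) (T.h (M (nat_lit 7794080975053129777151)) (T.h (P (nat_lit 0)) (P (nat_lit 28585365344649216))))) (T.h (P (nat_lit 0)) (T.h (T.h (P (nat_lit 0)) (P (nat_lit 12039428486430720))) (P (nat_lit 0))))) (T.h (T.h (P (nat_lit 0)) (T.h (T.h (M (nat_lit 14576600026559021055)) (T.h (P (nat_lit 0)) (P (nat_lit 33470402026368))))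 (T.h (P (nat_lit 0)) (P (nat_lit 10628497852864))))) (T.h (T.h (T.h (P (nat_lit 0)) (P (nat_lit 46267264956661760))) (P (nat_lit 0))) (T.h (T.h (P (nat_lit 0)) (M (nat_lit 6811509066239))) (P (nat_lit 0)))))))), (T.h (T.h (T.h (P (nat_lit 1410570906212094888288156909568)) (T.h (P (nat_lit 0)) (T.h (M (nat_lit 736332230657898056777727)) (T.h (P (nat_lit 0)) (P (nat_lit 8275653059435036672)))))) (T.h (P (nat_lit 0)) (T.h (T.h (M (nat_lit 9092474658105973488484351)) (T.h (P (nat_lit 0)) (M (nat_lit 9901124243519700991)))) (T.h (P (nat_lit 0)) (M (nat_lit 6450639816894709759)))))) (T.h (T.h (P (nat_lit 0)) (T.h (T.h (P (nat_lit 0)) (T.h (M (nat_lit 25522296248950983753727)) (T.h (P (nat_lit 0)) (P (nat_lit 8426976565428224))))) (T.h (P (nat_lit 0)) (T.h (T.h (P (nat_lit 0)) (P (nat_lit 20145895602651136))) (P (nat_lit 0)))))) (T.h (T.h (T.h (P (nat_lit 2713202957367080711618560)) (T.h (P (nat_lit 0)) (P (nat_lit 12443088561886986240)))) (T.h (P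 (nat_lit 0)) (M (nat_lit 2049630866191155199)))) (T.h (T.h (P (nat_lit 0)) (T.h (T.h (P (nat_lit 0)) (P (nat_lit 16959839353831424))) (P (nat_lit 0)))) (P (nat_lit 20438749490257592320)))))), (P (nat_lit 0)), (P (nat_lit 0)), (T.h (T.h (P (nat_lit 0)) (T.h (T.h (P (nat_lit 0)) (T.h (M (nat_lit 1351268652085930406969343)) (T.h (P (nat_lit 0)) (T.h (M (nat_lit 1456239894979411967)) (T.h (P (nat_lit 0)) (M (nat_lit 792617250143))))))) (T.h (P (nat_lit 0)) (T.h (T.h (P (nat_lit 0)) (T.h (M (nat_lit 1456239894979411967)) (T.h (P (nat_lit 0)) (P (nat_lit 3108367647936))))) (T.h (P (nat_lit 0)) (T.h (T.h (P (nat_lit 0)) (M (nat_lit 792617250143))) (P (nat_lit 0)))))))) (T.h (T.h (T.h (M (nat_lit 12852879613821572345757695)) (T.h (P (nat_lit 0)) (T.h (M (nat_lit 285728088897521451007)) (T.h (P (nat_lit 0)) (M (nat_lit 9820380577136639)))))) (T.h (P (nat_lit 0)) (T.h (T.h (M (nat_lit 285728088897521451007)) (T.h (P (nat_lit 0)) (M (nat_lit 11595435753078783))))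 (T.h (P (nat_lit 0)) (M (nat_lit 9820380577136639)))))) (T.h (T.h (P (nat_lit 0)) (T.h (T.h (P (nat_lit 0)) (T.h (M (nat_lit 9106968498537496575)) (T.h (P (nat_lit 0)) (P (nat_lit 5706106126624))))) (T.h (P (nat_lit 0)) (T.h (T.h (P (nat_lit 0)) (P (nat_lit 5706106126624))) (P (nat_lit 0)))))) (T.h (T.h (T.h (P (nat_lit 637446587506065670144)) (T.h (P (nat_lit 0)) (M (nat_lit 2387430420054015)))) (T.h (P (nat_lit 0)) (M (nat_lit 2387430420054015)))) (T.h (T.h (P (nat_lit 0)) (T.h (T.h (P (nat_lit 0)) (P (nat_lit 13499878995904))) (P (nat_lit 0)))) (M (nat_lit 659354132676607))))))), (T.h (T.h (P (nat_lit 0)) (T.h (T.h (P (nat_lit 12250395560038020876844662784)) (T.h (P (nat_lit 0)) (T.h (P (nat_lit 8144800713582885994496)) (T.h (P (nat_lit 0)) (P (nat_lit 21822656918716416)))))) (T.h (P (nat_lit 0)) (T.h (T.h (P (nat_lit 19837207699869008920576)) (T.h (P (nat_lit 0)) (P (nat_lit 16219260186099712)))) (T.h (P (nat_lit 0)) (P (nat_lit 15858036691697664)))))))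 (T.h (T.h (T.h (P (nat_lit 0)) (T.h (M (nat_lit 8574249109285047659134975)) (T.h (P (nat_lit 0)) (T.h (M (nat_lit 20318268837398052863)) (T.h (P (nat_lit 0)) (M (nat_lit 2667068517175))))))) (T.h (P (nat_lit 0)) (T.h (T.h (P (nat_lit 0)) (T.h (P (nat_lit 47123857973291515904)) (T.h (P (nat_lit 0)) (P (nat_lit 6473973622808))))) (T.h (P (nat_lit 0)) (T.h (T.h (P (nat_lit 0)) (M (nat_lit 5650647208911))) (P (nat_lit 0))))))) (T.h (T.h (P (nat_lit 0)) (T.h (T.h (P (nat_lit 8144800713582885994496)) (T.h (P (nat_lit 0)) (M (nat_lit 121971278184972287)))) (T.h (P (nat_lit 0)) (P (nat_lit 16219260186099712))))) (T.h (T.h (T.h (P (nat_lit 0)) (T.h (M (nat_lit 20318268837398052863)) (T.h (P (nat_lit 0)) (P (nat_lit 11205976436640))))) (T.h (P (nat_lit 0)) (T.h (T.h (P (nat_lit 0)) (P (nat_lit 6473973622808))) (P (nat_lit 0))))) (T.h (T.h (P (nat_lit 0)) (P (nat_lit 21822656918716416))) (T.h (T.h (T.h (P (nat_lit 0)) (M (nat_lit 2667068517175))) (P (nat_lit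 0))) (P (nat_lit 0)))))))), (T.h (T.h (P (nat_lit 0)) (T.h (T.h (P (nat_lit 0)) (T.h (P (nat_lit 39587408417186340669489152)) (T.h (P (nat_lit 0)) (T.h (M (nat_lit 18463015768434933759)) (T.h (P (nat_lit 0)) (M (nat_lit 5632617450207))))))) (T.h (P (nat_lit 0)) (T.h (T.h (P (nat_lit 0)) (T.h (M (nat_lit 21131093311641092095)) (T.h (P (nat_lit 0)) (M (nat_lit 8063003288703))))) (T.h (P (nat_lit 0)) (T.h (T.h (P (nat_lit 0)) (M (nat_lit 12153382404239))) (P (nat_lit 0)))))))) (T.h (T.h (T.h (P (nat_lit 1190417878467455091652689920)) (T.h (P (nat_lit 0)) (T.h (M (nat_lit 178699207068143585329151)) (T.h (P (nat_lit 0)) (M (nat_lit 16664568383143935)))))) (T.h (P (nat_lit 0)) (T.h (T.h (P (nat_lit 31085853986710435659776)) (T.h (P (nat_lit 0)) (M (nat_lit 14191932489744383)))) (T.h (P (nat_lit 0)) (P (nat_lit 33828731189133312)))))) (T.h (T.h (P (nat_lit 0)) (T.h (T.h (P (nat_lit 0)) (T.h (P (nat_lit 130140937352900509696)) (T.h (P (nat_lit 0))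 (M (nat_lit 13000870878351))))) (T.h (P (nat_lit 0)) (T.h (T.h (P (nat_lit 0)) (M (nat_lit 13156209311727))) (P (nat_lit 0)))))) (T.h (T.h (T.h (P (nat_lit 26172018345570226667520)) (T.h (P (nat_lit 0)) (P (nat_lit 84066674971803648)))) (T.h (P (nat_lit 0)) (M (nat_lit 45041536216449023)))) (T.h (T.h (P (nat_lit 0)) (T.h (T.h (P (nat_lit 0)) (M (nat_lit 71336986172927))) (P (nat_lit 0)))) (P (nat_lit 845639420919808)))))))]
def lQp_15 : List (T ℤ) := [(T.h (T.h (P (nat_lit 0)) (T.h (T.h (M (nat_lit 3702363822789395728794910719)) (T.h (P (nat_lit 0)) (T.h (M (nat_lit 41905726175429229805567)) (T.h (P (nat_lit 0)) (M (nat_lit 88632905097215999)))))) (T.h (P (nat_lit 0)) (T.h (T.h (M (nat_lit 25529900305342426775551)) (T.h (P (nat_lit 0)) (P (nat_lit 33222815373590528)))) (T.h (P (nat_lit 0)) (M (nat_lit 30804322491269119))))))) (T.h (T.h (T.h (P (nat_lit 0)) (T.h (M (nat_lit 45895461587282081093779455)) (T.h (P (nat_lit 0)) (T.h (P (nat_lit 132497166626126299136))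 (T.h (P (nat_lit 0)) (P (nat_lit 49546857328576))))))) (T.h (P (nat_lit 0)) (T.h (T.h (P (nat_lit 0)) (T.h (M (nat_lit 104285394266293796863)) (T.h (P (nat_lit 0)) (P (nat_lit 34116370026496))))) (T.h (P (nat_lit 0)) (T.h (T.h (P (nat_lit 0)) (P (nat_lit 1978396775168))) (P (nat_lit 0))))))) (T.h (T.h (P (nat_lit 0)) (T.h (T.h (P (nat_lit 90403578470243908976640)) (T.h (P (nat_lit 0)) (M (nat_lit 50639647774375935)))) (T.h (P (nat_lit 0)) (P (nat_lit 47829927093829632))))) (T.h (T.h (T.h (P (nat_lit 0)) (T.h (P (nat_lit 9299283688523038720)) (T.h (P (nat_lit 0)) (M (nat_lit 20259293530943))))) (T.h (P (nat_lit 0)) (T.h (T.h (P (nat_lit 0)) (M (nat_lit 16065160221823))) (P (nat_lit 0))))) (T.h (T.h (P (nat_lit 0)) (P (nat_lit 3203367007879168))) (T.h (T.h (T.h (P (nat_lit 0)) (P (nat_lit 22294549504640))) (P (nat_lit 0))) (P (nat_lit 0)))))))), (T.h (T.h (P (nat_lit 0)) (T.h (T.h (P (nat_lit 0)) (T.h (P (nat_lit 12660772485101187447652352))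 (T.h (P (nat_lit 0)) (M (nat_lit 112093646349093830655))))) (T.h (P (nat_lit 0)) (T.h (T.h (P (nat_lit 0)) (P (nat_lit 35855661794571845632))) (P (nat_lit 0)))))) (T.h (T.h (T.h (M (nat_lit 3057717378853825663268290559)) (T.h (P (nat_lit 0)) (T.h (P (nat_lit 34371714572181032665088)) (T.h (P (nat_lit 0)) (P (nat_lit 72177182128979968)))))) (T.h (P (nat_lit 0)) (T.h (T.h (M (nat_lit 8447562600720023683071)) (T.h (P (nat_lit 0)) (P (nat_lit 79412148893564928)))) (T.h (P (nat_lit 0)) (M (nat_lit 19241456788209663)))))) (T.h (T.h (P (nat_lit 0)) (T.h (T.h (P (nat_lit 0)) (P (nat_lit 45047154406338854912))) (P (nat_lit 0)))) (T.h (T.h (T.h (M (nat_lit 1780258074724053024767)) (T.h (P (nat_lit 0)) (P (nat_lit 6497396134756352)))) (T.h (P (nat_lit 0)) (M (nat_lit 4163999934857215)))) (T.h (P (nat_lit 0)) (M (nat_lit 4763365724028927))))))), (P (nat_lit 0)), (P (nat_lit 0)), (T.h (T.h (T.h (P (nat_lit 1974437142523453654025568780288)) (T.h (P (nat_lit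 0)) (T.h (M (nat_lit 9758004229517509839028223)) (T.h (P (nat_lit 0)) (T.h (P (nat_lit 1083103659241242624)) (T.h (P (nat_lit 0)) (M (nat_lit 1030947796895)))))))) (T.h (P (nat_lit 0)) (T.h (T.h (P (nat_lit 3776107581101057807220736)) (T.h (P (nat_lit 0)) (T.h (M (nat_lit 9060807759313764351)) (T.h (P (nat_lit 0)) (P (nat_lit 2064152749056)))))) (T.h (P (nat_lit 0)) (T.h (T.h (M (nat_lit 455214168597856255)) (T.h (P (nat_lit 0)) (M (nat_lit 4691781859471)))) (T.h (P (nat_lit 0)) (P (nat_lit 1320627043552)))))))) (T.h (T.h (P (nat_lit 0)) (T.h (T.h (P (nat_lit 0)) (T.h (M (nat_lit 35916735902168758878207)) (T.h (P (nat_lit 0)) (M (nat_lit 83825974921003007))))) (T.h (P (nat_lit 0)) (T.h (T.h (P (nat_lit 0)) (P (nat_lit 31562004246757376))) (P (nat_lit 0)))))) (T.h (T.h (T.h (P (nat_lit 3776107581101057807220736)) (T.h (P (nat_lit 0)) (T.h (M (nat_lit 9060807759313764351)) (T.h (P (nat_lit 0)) (P (nat_lit 2064152749056)))))) (T.h (P (nat_lit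 0)) (T.h (T.h (P (nat_lit 47664521656557109248)) (T.h (P (nat_lit 0)) (M (nat_lit 2560356751999)))) (T.h (P (nat_lit 0)) (M (nat_lit 6116429705375)))))) (T.h (T.h (P (nat_lit 0)) (T.h (T.h (P (nat_lit 0)) (P (nat_lit 31562004246757376))) (P (nat_lit 0)))) (T.h (T.h (T.h (M (nat_lit 455214168597856255)) (T.h (P (nat_lit 0)) (M (nat_lit 4691781859471)))) (T.h (P (nat_lit 0)) (M (nat_lit 6116429705375)))) (T.h (P (nat_lit 0)) (P (nat_lit 1320627043552)))))))), (T.h (T.h (T.h (P (nat_lit 0)) (T.h (P (nat_lit 12250395560038020876844662784)) (T.h (P (nat_lit 0)) (T.h (P (nat_lit 19837207699869008920576)) (T.h (P (nat_lit 0)) (P (nat_lit 15858036691697664))))))) (T.h (P (nat_lit 0)) (T.h (T.h (P (nat_lit 0)) (T.h (P (nat_lit 8144800713582885994496)) (T.h (P (nat_lit 0)) (P (nat_lit 16219260186099712))))) (T.h (P (nat_lit 0)) (T.h (T.h (P (nat_lit 0)) (P (nat_lit 21822656918716416))) (P (nat_lit 0))))))) (T.h (T.h (P (nat_lit 0)) (T.h (T.h (M (nat_lit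 8574249109285047659134975)) (T.h (P (nat_lit 0)) (T.h (P (nat_lit 47123857973291515904)) (T.h (P (nat_lit 0)) (M (nat_lit 5650647208911)))))) (T.h (P (nat_lit 0)) (T.h (T.h (M (nat_lit 20318268837398052863)) (T.h (P (nat_lit 0)) (P (nat_lit 6473973622808)))) (T.h (P (nat_lit 0)) (M (nat_lit 2667068517175))))))) (T.h (T.h (T.h (P (nat_lit 0)) (T.h (P (nat_lit 8144800713582885994496)) (T.h (P (nat_lit 0)) (P (nat_lit 16219260186099712))))) (T.h (P (nat_lit 0)) (T.h (T.h (P (nat_lit 0)) (M (nat_lit 121971278184972287))) (P (nat_lit 0))))) (T.h (T.h (P (nat_lit 0)) (T.h (T.h (M (nat_lit 20318268837398052863)) (T.h (P (nat_lit 0)) (P (nat_lit 6473973622808)))) (T.h (P (nat_lit 0)) (P (nat_lit 11205976436640))))) (T.h (T.h (T.h (P (nat_lit 0)) (P (nat_lit 21822656918716416))) (P (nat_lit 0))) (T.h (T.h (P (nat_lit 0)) (M (nat_lit 2667068517175))) (P (nat_lit 0)))))))), (T.h (T.h (T.h (M (nat_lit 6770055840907416915561569845247)) (T.h (P (nat_lit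 0)) (T.h (P (nat_lit 5502062044752145157193728)) (T.h (P (nat_lit 0)) (T.h (M (nat_lit 6526084140889014271)) (T.h (P (nat_lit 0)) (P (nat_lit 9212612314528)))))))) (T.h (P (nat_lit 0)) (T.h (T.h (P (nat_lit 5502062044752145157193728)) (T.h (P (nat_lit 0)) (T.h (P (nat_lit 39589995017138077696)) (T.h (P (nat_lit 0)) (M (nat_lit 28180338095055)))))) (T.h (P (nat_lit 0)) (T.h (T.h (M (nat_lit 6526084140889014271)) (T.h (P (nat_lit 0)) (M (nat_lit 28180338095055)))) (T.h (P (nat_lit 0)) (P (nat_lit 9212612314528)))))))) (T.h (T.h (P (nat_lit 0)) (T.h (T.h (P (nat_lit 0)) (T.h (M (nat_lit 270983690865450191683583)) (T.h (P (nat_lit 0)) (P (nat_lit 55966182700941312))))) (T.h (P (nat_lit 0)) (T.h (T.h (P (nat_lit 0)) (P (nat_lit 55966182700941312))) (P (nat_lit 0)))))) (T.h (T.h (T.h (P (nat_lit 5502062044752145157193728)) (T.h (P (nat_lit 0)) (T.h (P (nat_lit 39589995017138077696)) (T.h (P (nat_lit 0)) (M (nat_lit 28180338095055)))))) (T.h (P (nat_lit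 0)) (T.h (T.h (P (nat_lit 39589995017138077696)) (T.h (P (nat_lit 0)) (M (nat_lit 10921763459711)))) (T.h (P (nat_lit 0)) (M (nat_lit 28180338095055)))))) (T.h (T.h (P (nat_lit 0)) (T.h (T.h (P (nat_lit 0)) (P (nat_lit 55966182700941312))) (P (nat_lit 0)))) (T.h (T.h (T.h (M (nat_lit 6526084140889014271)) (T.h (P (nat_lit 0)) (M (nat_lit 28180338095055)))) (T.h (P (nat_lit 0)) (M (nat_lit 28180338095055)))) (T.h (P (nat_lit 0)) (P (nat_lit 9212612314528)))))))), (T.h (T.h (T.h (P (nat_lit 0)) (T.h (P (nat_lit 61925360365294456323170107392)) (T.h (P (nat_lit 0)) (T.h (M (nat_lit 43360163169862938525695)) (T.h (P (nat_lit 0)) (M (nat_lit 6052457657925631))))))) (T.h (P (nat_lit 0)) (T.h (T.h (P (nat_lit 0)) (T.h (P (nat_lit 9021229890076332261376)) (T.h (P (nat_lit 0)) (M (nat_lit 83687016428568575))))) (T.h (P (nat_lit 0)) (T.h (T.h (P (nat_lit 0)) (M (nat_lit 83077446423314431))) (P (nat_lit 0))))))) (T.h (T.h (P (nat_lit 0)) (T.h (T.h (M (nat_lit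 92769219625735950870511615)) (T.h (P (nat_lit 0)) (T.h (P (nat_lit 408152612564925153280)) (T.h (P (nat_lit 0)) (M (nat_lit 9118491233791)))))) (T.h (P (nat_lit 0)) (T.h (T.h (P (nat_lit 6936856581531238400)) (T.h (P (nat_lit 0)) (P (nat_lit 1615352190400)))) (T.h (P (nat_lit 0)) (M (nat_lit 755777456063))))))) (T.h (T.h (T.h (P (nat_lit 0)) (T.h (P (nat_lit 9021229890076332261376)) (T.h (P (nat_lit 0)) (M (nat_lit 83687016428568575))))) (T.h (P (nat_lit 0)) (T.h (T.h (P (nat_lit 0)) (M (nat_lit 51710656747077631))) (P (nat_lit 0))))) (T.h (T.h (P (nat_lit 0)) (T.h (T.h (P (nat_lit 6936856581531238400)) (T.h (P (nat_lit 0)) (P (nat_lit 1615352190400)))) (T.h (P (nat_lit 0)) (M (nat_lit 16327525130623))))) (T.h (T.h (T.h (P (nat_lit 0)) (M (nat_lit 83077446423314431))) (P (nat_lit 0))) (T.h (T.h (P (nat_lit 0)) (M (nat_lit 755777456063))) (P (nat_lit 0))))))))]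
def lQp_16 : List (T ℤ) := [(T.h (T.h (T.h (P (nat_lit 2965995001898959740632314150912)) (T.h (P (nat_lit 0)) (T.h (M (nat_lit 40921446729443515786330111)) (T.h (P (nat_lit 0)) (M (nat_lit 61716191199897845759)))))) (T.h (P (nat_lit 0)) (T.h (T.h (M (nat_lit 5139392947130120844345343)) (T.h (P (nat_lit 0)) (M (nat_lit 5754790540310740991)))) (T.h (P (nat_lit 0)) (M (nat_lit 36995800222106910719)))))) (T.h (T.h (P (nat_lit 0)) (T.h (T.h (P (nat_lit 0)) (T.h (M (nat_lit 46242827737220222287871)) (T.h (P (nat_lit 0)) (P (nat_lit 25597827883728896))))) (T.h (P (nat_lit 0)) (T.h (T.h (P (nat_lit 0)) (M (nat_lit 5372423414317055))) (P (nat_lit 0)))))) (T.h (T.h (T.h (M (nat_lit 5139392947130120844345343)) (T.h (P (nat_lit 0)) (M (nat_lit 5754790540310740991)))) (T.h (P (nat_lit 0)) (P (nat_lit 74560750045622173696)))) (T.h (T.h (P (nat_lit 0)) (T.h (T.h (P (nat_lit 0)) (M (nat_lit 5372423414317055))) (P (nat_lit 0)))) (M (nat_lit 36995800222106910719)))))),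 (P (nat_lit 0)), (P (nat_lit 0)), (T.h (T.h (P (nat_lit 0)) (T.h (T.h (P (nat_lit 9200511152944924224068255744)) (T.h (P (nat_lit 0)) (T.h (M (nat_lit 14077787117441249181695)) (T.h (P (nat_lit 0)) (M (nat_lit 5005039249031167)))))) (T.h (P (nat_lit 0)) (T.h (T.h (P (nat_lit 8138641168080224387072)) (T.h (P (nat_lit 0)) (M (nat_lit 10156953881837567)))) (T.h (P (nat_lit 0)) (M (nat_lit 259682930294783))))))) (T.h (T.h (T.h (P (nat_lit 0)) (T.h (M (nat_lit 14097034584816128465305599)) (T.h (P (nat_lit 0)) (T.h (M (nat_lit 40614113373115645951)) (T.h (P (nat_lit 0)) (P (nat_lit 1926006707968))))))) (T.h (P (nat_lit 0)) (T.h (T.h (P (nat_lit 0)) (T.h (P (nat_lit 158806723948804308992)) (T.h (P (nat_lit 0)) (M (nat_lit 3119472546015))))) (T.h (P (nat_lit 0)) (T.h (T.h (P (nat_lit 0)) (P (nat_lit 20609692360))) (P (nat_lit 0))))))) (T.h (T.h (P (nat_lit 0)) (T.h (T.h (P (nat_lit 49067423696374458220544)) (T.h (P (nat_lit 0)) (M (nat_lit 1336226320908287))))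 (T.h (P (nat_lit 0)) (M (nat_lit 8698455030792191))))) (T.h (T.h (T.h (P (nat_lit 0)) (T.h (M (nat_lit 14447862614417473535)) (T.h (P (nat_lit 0)) (M (nat_lit 6278110139767))))) (T.h (P (nat_lit 0)) (T.h (T.h (P (nat_lit 0)) (M (nat_lit 17662225065887))) (P (nat_lit 0))))) (T.h (T.h (P (nat_lit 0)) (M (nat_lit 28476101997723647))) (T.h (T.h (T.h (P (nat_lit 0)) (P (nat_lit 4801873344928))) (P (nat_lit 0))) (P (nat_lit 0)))))))), (T.h (T.h (P (nat_lit 0)) (T.h (T.h (P (nat_lit 0)) (T.h (P (nat_lit 39587408417186340669489152)) (T.h (P (nat_lit 0)) (T.h (M (nat_lit 21131093311641092095)) (T.h (P (nat_lit 0)) (M (nat_lit 12153382404239))))))) (T.h (P (nat_lit 0)) (T.h (T.h (P (nat_lit 0)) (T.h (M (nat_lit 18463015768434933759)) (T.h (P (nat_lit 0)) (M (nat_lit 8063003288703))))) (T.h (P (nat_lit 0)) (T.h (T.h (P (nat_lit 0)) (M (nat_lit 5632617450207))) (P (nat_lit 0)))))))) (T.h (T.h (T.h (P (nat_lit 1190417878467455091652689920)) (T.h (P (nat_lit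 0)) (T.h (P (nat_lit 31085853986710435659776)) (T.h (P (nat_lit 0)) (P (nat_lit 33828731189133312)))))) (T.h (P (nat_lit 0)) (T.h (T.h (M (nat_lit 178699207068143585329151)) (T.h (P (nat_lit 0)) (M (nat_lit 14191932489744383)))) (T.h (P (nat_lit 0)) (M (nat_lit 16664568383143935)))))) (T.h (T.h (P (nat_lit 0)) (T.h (T.h (P (nat_lit 0)) (T.h (P (nat_lit 130140937352900509696)) (T.h (P (nat_lit 0)) (M (nat_lit 13156209311727))))) (T.h (P (nat_lit 0)) (T.h (T.h (P (nat_lit 0)) (M (nat_lit 13000870878351))) (P (nat_lit 0)))))) (T.h (T.h (T.h (P (nat_lit 26172018345570226667520)) (T.h (P (nat_lit 0)) (M (nat_lit 45041536216449023)))) (T.h (P (nat_lit 0)) (P (nat_lit 84066674971803648)))) (T.h (T.h (P (nat_lit 0)) (T.h (T.h (P (nat_lit 0)) (M (nat_lit 71336986172927))) (P (nat_lit 0)))) (P (nat_lit 845639420919808))))))), (T.h (T.h (P (nat_lit 0)) (T.h (T.h (P (nat_lit 61925360365294456323170107392)) (T.h (P (nat_lit 0)) (T.h (P (nat_lit 9021229890076332261376))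 (T.h (P (nat_lit 0)) (M (nat_lit 83077446423314431)))))) (T.h (P (nat_lit 0)) (T.h (T.h (M (nat_lit 43360163169862938525695)) (T.h (P (nat_lit 0)) (M (nat_lit 83687016428568575)))) (T.h (P (nat_lit 0)) (M (nat_lit 6052457657925631))))))) (T.h (T.h (T.h (P (nat_lit 0)) (T.h (M (nat_lit 92769219625735950870511615)) (T.h (P (nat_lit 0)) (T.h (P (nat_lit 6936856581531238400)) (T.h (P (nat_lit 0)) (M (nat_lit 755777456063))))))) (T.h (P (nat_lit 0)) (T.h (T.h (P (nat_lit 0)) (T.h (P (nat_lit 408152612564925153280)) (T.h (P (nat_lit 0)) (P (nat_lit 1615352190400))))) (T.h (P (nat_lit 0)) (T.h (T.h (P (nat_lit 0)) (M (nat_lit 9118491233791))) (P (nat_lit 0))))))) (T.h (T.h (P (nat_lit 0)) (T.h (T.h (P (nat_lit 9021229890076332261376)) (T.h (P (nat_lit 0)) (M (nat_lit 51710656747077631)))) (T.h (P (nat_lit 0)) (M (nat_lit 83687016428568575))))) (T.h (T.h (T.h (P (nat_lit 0)) (T.h (P (nat_lit 6936856581531238400)) (T.h (P (nat_lit 0)) (M (nat_lit 16327525130623)))))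 (T.h (P (nat_lit 0)) (T.h (T.h (P (nat_lit 0)) (P (nat_lit 1615352190400))) (P (nat_lit 0))))) (T.h (T.h (P (nat_lit 0)) (M (nat_lit 83077446423314431))) (T.h (T.h (T.h (P (nat_lit 0)) (M (nat_lit 755777456063))) (P (nat_lit 0))) (P (nat_lit 0)))))))), (T.h (T.h (P (nat_lit 0)) (T.h (T.h (P (nat_lit 0)) (T.h (M (nat_lit 7858349407269454602043391)) (T.h (P (nat_lit 0)) (M (nat_lit 59872406056204238847))))) (T.h (P (nat_lit 0)) (T.h (T.h (P (nat_lit 0)) (M (nat_lit 59872406056204238847))) (P (nat_lit 0)))))) (T.h (T.h (T.h (M (nat_lit 11386109411402279864340840447)) (T.h (P (nat_lit 0)) (T.h (P (nat_lit 3797065615410485788672)) (T.h (P (nat_lit 0)) (P (nat_lit 3934493346447360)))))) (T.h (P (nat_lit 0)) (T.h (T.h (P (nat_lit 3797065615410485788672)) (T.h (P (nat_lit 0)) (P (nat_lit 39413718720413696)))) (T.h (P (nat_lit 0)) (P (nat_lit 3934493346447360)))))) (T.h (T.h (P (nat_lit 0)) (T.h (T.h (P (nat_lit 0)) (P (nat_lit 37574576478588239872)))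 (P (nat_lit 0)))) (T.h (T.h (T.h (P (nat_lit 17816978978999849975808)) (T.h (P (nat_lit 0)) (M (nat_lit 55595200717504511)))) (T.h (P (nat_lit 0)) (M (nat_lit 55595200717504511)))) (T.h (P (nat_lit 0)) (P (nat_lit 25065533473652736))))))), (P (nat_lit 0))]
def lQp_17 : List (T ℤ) := [(P (nat_lit 0)), (T.h (T.h (T.h (M (nat_lit 15781421352417333064023314268159)) (T.h (P (nat_lit 0)) (T.h (P (nat_lit 19510935969206319368372224)) (T.h (P (nat_lit 0)) (T.h (P (nat_lit 3816157051806023680)) (T.h (P (nat_lit 0)) (M (nat_lit 2135898518655)))))))) (T.h (P (nat_lit 0)) (T.h (T.h (P (nat_lit 2254133925789322698555392)) (T.h (P (nat_lit 0)) (T.h (M (nat_lit 48825252204196659199)) (T.h (P (nat_lit 0)) (M (nat_lit 5131028078175)))))) (T.h (P (nat_lit 0)) (T.h (T.h (M (nat_lit 11582974751273910271)) (T.h (P (nat_lit 0)) (P (nat_lit 66173550912)))) (T.h (P (nat_lit 0)) (M (nat_lit 4494899552751)))))))) (T.h (T.h (P (nat_lit 0)) (T.h (T.h (P (nat_lit 0)) (T.h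 (P (nat_lit 104428965465499621130240)) (T.h (P (nat_lit 0)) (P (nat_lit 95973161780510720))))) (T.h (P (nat_lit 0)) (T.h (T.h (P (nat_lit 0)) (M (nat_lit 65765569243283455))) (P (nat_lit 0)))))) (T.h (T.h (T.h (M (nat_lit 17016263105224677655576575)) (T.h (P (nat_lit 0)) (T.h (P (nat_lit 4459232863304286208)) (T.h (P (nat_lit 0)) (M (nat_lit 2689076313615)))))) (T.h (P (nat_lit 0)) (T.h (T.h (M (nat_lit 20199970791355318271)) (T.h (P (nat_lit 0)) (P (nat_lit 8548507008608)))) (T.h (P (nat_lit 0)) (P (nat_lit 18872188738032)))))) (T.h (T.h (P (nat_lit 0)) (T.h (T.h (P (nat_lit 0)) (M (nat_lit 42371289102942207))) (P (nat_lit 0)))) (T.h (T.h (T.h (M (nat_lit 5769335801796100095)) (T.h (P (nat_lit 0)) (P (nat_lit 15481464103056)))) (T.h (P (nat_lit 0)) (P (nat_lit 7861092761200)))) (T.h (P (nat_lit 0)) (M (nat_lit 6454986133007)))))))), (T.h (T.h (T.h (P (nat_lit 0)) (T.h (M (nat_lit 3702363822789395728794910719)) (T.h (P (nat_lit 0)) (T.h (M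 (nat_lit 25529900305342426775551)) (T.h (P (nat_lit 0)) (M (nat_lit 30804322491269119))))))) (T.h (P (nat_lit 0)) (T.h (T.h (P (nat_lit 0)) (T.h (M (nat_lit 41905726175429229805567)) (T.h (P (nat_lit 0)) (P (nat_lit 33222815373590528))))) (T.h (P (nat_lit 0)) (T.h (T.h (P (nat_lit 0)) (M (nat_lit 88632905097215999))) (P (nat_lit 0))))))) (T.h (T.h (P (nat_lit 0)) (T.h (T.h (M (nat_lit 45895461587282081093779455)) (T.h (P (nat_lit 0)) (T.h (M (nat_lit 104285394266293796863)) (T.h (P (nat_lit 0)) (P (nat_lit 1978396775168)))))) (T.h (P (nat_lit 0)) (T.h (T.h (P (nat_lit 132497166626126299136)) (T.h (P (nat_lit 0)) (P (nat_lit 34116370026496)))) (T.h (P (nat_lit 0)) (P (nat_lit 49546857328576))))))) (T.h (T.h (T.h (P (nat_lit 0)) (T.h (P (nat_lit 90403578470243908976640)) (T.h (P (nat_lit 0)) (P (nat_lit 47829927093829632))))) (T.h (P (nat_lit 0)) (T.h (T.h (P (nat_lit 0)) (M (nat_lit 50639647774375935))) (P (nat_lit 0))))) (T.h (T.h (P (nat_lit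 0)) (T.h (T.h (P (nat_lit 9299283688523038720)) (T.h (P (nat_lit 0)) (M (nat_lit 16065160221823)))) (T.h (P (nat_lit 0)) (M (nat_lit 20259293530943))))) (T.h (T.h (T.h (P (nat_lit 0)) (P (nat_lit 3203367007879168))) (P (nat_lit 0))) (T.h (T.h (P (nat_lit 0)) (P (nat_lit 22294549504640))) (P (nat_lit 0)))))))), (T.h (T.h (T.h (P (nat_lit 2965995001898959740632314150912)) (T.h (P (nat_lit 0)) (T.h (M (nat_lit 5139392947130120844345343)) (T.h (P (nat_lit 0)) (M (nat_lit 36995800222106910719)))))) (T.h (P (nat_lit 0)) (T.h (T.h (M (nat_lit 40921446729443515786330111)) (T.h (P (nat_lit 0)) (M (nat_lit 5754790540310740991)))) (T.h (P (nat_lit 0)) (M (nat_lit 61716191199897845759)))))) (T.h (T.h (P (nat_lit 0)) (T.h (T.h (P (nat_lit 0)) (T.h (M (nat_lit 46242827737220222287871)) (T.h (P (nat_lit 0)) (M (nat_lit 5372423414317055))))) (T.h (P (nat_lit 0)) (T.h (T.h (P (nat_lit 0)) (P (nat_lit 25597827883728896))) (P (nat_lit 0)))))) (T.h (T.h (T.h (M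 (nat_lit 5139392947130120844345343)) (T.h (P (nat_lit 0)) (P (nat_lit 74560750045622173696)))) (T.h (P (nat_lit 0)) (M (nat_lit 5754790540310740991)))) (T.h (T.h (P (nat_lit 0)) (T.h (T.h (P (nat_lit 0)) (M (nat_lit 5372423414317055))) (P (nat_lit 0)))) (M (nat_lit 36995800222106910719)))))), (P (nat_lit 0)), (P (nat_lit 0)), (T.h (T.h (P (nat_lit 0)) (T.h (T.h (M (nat_lit 2008280231544279771887173631)) (T.h (P (nat_lit 0)) (T.h (M (nat_lit 20491663626153897230335)) (T.h (P (nat_lit 0)) (M (nat_lit 12549948312485887)))))) (T.h (P (nat_lit 0)) (T.h (T.h (M (nat_lit 14444565840120697061375)) (T.h (P (nat_lit 0)) (M (nat_lit 17118034321866751)))) (T.h (P (nat_lit 0)) (P (nat_lit 2650552869519360))))))) (T.h (T.h (T.h (P (nat_lit 0)) (T.h (P (nat_lit 12881852499707145018671104)) (T.h (P (nat_lit 0)) (T.h (P (nat_lit 20160226170429767680)) (T.h (P (nat_lit 0)) (M (nat_lit 12219471662591))))))) (T.h (P (nat_lit 0)) (T.h (T.h (P (nat_lit 0)) (T.h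 (M (nat_lit 131690224174086750207)) (T.h (P (nat_lit 0)) (P (nat_lit 42196455976256))))) (T.h (P (nat_lit 0)) (T.h (T.h (P (nat_lit 0)) (M (nat_lit 1504335511807))) (P (nat_lit 0))))))) (T.h (T.h (P (nat_lit 0)) (T.h (T.h (M (nat_lit 7794080975053129777151)) (T.h (P (nat_lit 0)) (P (nat_lit 12039428486430720)))) (T.h (P (nat_lit 0)) (P (nat_lit 28585365344649216))))) (T.h (T.h (T.h (P (nat_lit 0)) (T.h (M (nat_lit 14576600026559021055)) (T.h (P (nat_lit 0)) (P (nat_lit 10628497852864))))) (T.h (P (nat_lit 0)) (T.h (T.h (P (nat_lit 0)) (P (nat_lit 33470402026368))) (P (nat_lit 0))))) (T.h (T.h (P (nat_lit 0)) (P (nat_lit 46267264956661760))) (T.h (T.h (T.h (P (nat_lit 0)) (M (nat_lit 6811509066239))) (P (nat_lit 0))) (P (nat_lit 0)))))))), (T.h (T.h (P (nat_lit 0)) (T.h (T.h (P (nat_lit 0)) (T.h (P (nat_lit 12660772485101187447652352)) (T.h (P (nat_lit 0)) (P (nat_lit 35855661794571845632))))) (T.h (P (nat_lit 0)) (T.h (T.h (P (nat_lit 0)) (M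 (nat_lit 112093646349093830655))) (P (nat_lit 0)))))) (T.h (T.h (T.h (M (nat_lit 3057717378853825663268290559)) (T.h (P (nat_lit 0)) (T.h (M (nat_lit 8447562600720023683071)) (T.h (P (nat_lit 0)) (M (nat_lit 19241456788209663)))))) (T.h (P (nat_lit 0)) (T.h (T.h (P (nat_lit 34371714572181032665088)) (T.h (P (nat_lit 0)) (P (nat_lit 79412148893564928)))) (T.h (P (nat_lit 0)) (P (nat_lit 72177182128979968)))))) (T.h (T.h (P (nat_lit 0)) (T.h (T.h (P (nat_lit 0)) (P (nat_lit 45047154406338854912))) (P (nat_lit 0)))) (T.h (T.h (T.h (M (nat_lit 1780258074724053024767)) (T.h (P (nat_lit 0)) (M (nat_lit 4163999934857215)))) (T.h (P (nat_lit 0)) (P (nat_lit 6497396134756352)))) (T.h (P (nat_lit 0)) (M (nat_lit 4763365724028927)))))))]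
def lQp_18 : List (T ℤ) := [(P (nat_lit 0)), (P (nat_lit 0)), (T.h (T.h (T.h (P (nat_lit 1410570906212094888288156909568)) (T.h (P (nat_lit 0)) (T.h (M (nat_lit 9092474658105973488484351)) (T.h (P (nat_lit 0)) (M (nat_lit 6450639816894709759)))))) (T.h (P (nat_lit 0)) (T.h (T.h (M (nat_lit 736332230657898056777727)) (T.h (P (nat_lit 0)) (M (nat_lit 9901124243519700991)))) (T.h (P (nat_lit 0)) (P (nat_lit 8275653059435036672)))))) (T.h (T.h (P (nat_lit 0)) (T.h (T.h (P (nat_lit 0)) (T.h (M (nat_lit 25522296248950983753727)) (T.h (P (nat_lit 0)) (P (nat_lit 20145895602651136))))) (T.h (P (nat_lit 0)) (T.h (T.h (P (nat_lit 0)) (P (nat_lit 8426976565428224))) (P (nat_lit 0)))))) (T.h (T.h (T.h (P (nat_lit 2713202957367080711618560)) (T.h (P (nat_lit 0)) (M (nat_lit 2049630866191155199)))) (T.h (P (nat_lit 0)) (P (nat_lit 12443088561886986240)))) (T.h (T.h (P (nat_lit 0)) (T.h (T.h (P (nat_lit 0)) (P (nat_lit 16959839353831424))) (P (nat_lit 0))))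 (P (nat_lit 20438749490257592320)))))), (P (nat_lit 0)), (P (nat_lit 0)), (P (nat_lit 0)), (P (nat_lit 0)), (P (nat_lit 0))]
def lQp_19 : List (T ℤ) := [(T.h (T.h (P (nat_lit 0)) (T.h (T.h (P (nat_lit 532858792078950653260464128)) (T.h (P (nat_lit 0)) (T.h (P (nat_lit 3321691345876869447680)) (T.h (P (nat_lit 0)) (P (nat_lit 2725830294568960)))))) (T.h (P (nat_lit 0)) (T.h (T.h (M (nat_lit 3075121913902334476287)) (T.h (P (nat_lit 0)) (P (nat_lit 15163554349252608)))) (T.h (P (nat_lit 0)) (M (nat_lit 1221575086440447))))))) (T.h (T.h (T.h (P (nat_lit 0)) (T.h (P (nat_lit 8717922922079423085674496)) (T.h (P (nat_lit 0)) (T.h (M (nat_lit 193192647643365375)) (T.h (P (nat_lit 0)) (M (nat_lit 424261102751))))))) (T.h (P (nat_lit 0)) (T.h (T.h (P (nat_lit 0)) (T.h (P (nat_lit 10942545611232116736)) (T.h (P (nat_lit 0)) (M (nat_lit 172863613551))))) (T.h (P (nat_lit 0)) (T.h (T.h (P (nat_lit 0)) (P (nat_lit 3166704741056))) (P (nat_lit 0))))))) (T.h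 (T.h (P (nat_lit 0)) (T.h (T.h (M (nat_lit 4144768062586427015167)) (T.h (P (nat_lit 0)) (P (nat_lit 15787150469627904)))) (T.h (P (nat_lit 0)) (M (nat_lit 14061861106614271))))) (T.h (T.h (T.h (P (nat_lit 0)) (T.h (P (nat_lit 6521691154386255872)) (T.h (P (nat_lit 0)) (P (nat_lit 3373397582576))))) (T.h (P (nat_lit 0)) (T.h (T.h (P (nat_lit 0)) (M (nat_lit 9748205673263))) (P (nat_lit 0))))) (T.h (T.h (P (nat_lit 0)) (P (nat_lit 10195113124757504))) (T.h (T.h (T.h (P (nat_lit 0)) (M (nat_lit 5165935566879))) (P (nat_lit 0))) (P (nat_lit 0)))))))), (T.h (T.h (P (nat_lit 0)) (T.h (T.h (P (nat_lit 0)) (T.h (M (nat_lit 14097034584816128465305599)) (T.h (P (nat_lit 0)) (T.h (M (nat_lit 14447862614417473535)) (T.h (P (nat_lit 0)) (P (nat_lit 4801873344928))))))) (T.h (P (nat_lit 0)) (T.h (T.h (P (nat_lit 0)) (T.h (M (nat_lit 40614113373115645951)) (T.h (P (nat_lit 0)) (M (nat_lit 6278110139767))))) (T.h (P (nat_lit 0)) (T.h (T.h (P (nat_lit 0))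 (P (nat_lit 1926006707968))) (P (nat_lit 0)))))))) (T.h (T.h (T.h (P (nat_lit 9200511152944924224068255744)) (T.h (P (nat_lit 0)) (T.h (P (nat_lit 49067423696374458220544)) (T.h (P (nat_lit 0)) (M (nat_lit 28476101997723647)))))) (T.h (P (nat_lit 0)) (T.h (T.h (M (nat_lit 14077787117441249181695)) (T.h (P (nat_lit 0)) (M (nat_lit 1336226320908287)))) (T.h (P (nat_lit 0)) (M (nat_lit 5005039249031167)))))) (T.h (T.h (P (nat_lit 0)) (T.h (T.h (P (nat_lit 0)) (T.h (P (nat_lit 158806723948804308992)) (T.h (P (nat_lit 0)) (M (nat_lit 17662225065887))))) (T.h (P (nat_lit 0)) (T.h (T.h (P (nat_lit 0)) (M (nat_lit 3119472546015))) (P (nat_lit 0)))))) (T.h (T.h (T.h (P (nat_lit 8138641168080224387072)) (T.h (P (nat_lit 0)) (M (nat_lit 8698455030792191)))) (T.h (P (nat_lit 0)) (M (nat_lit 10156953881837567)))) (T.h (T.h (P (nat_lit 0)) (T.h (T.h (P (nat_lit 0)) (P (nat_lit 20609692360))) (P (nat_lit 0)))) (M (nat_lit 259682930294783))))))), (T.h (T.h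 (P (nat_lit 0)) (T.h (T.h (M (nat_lit 12287764217866034664416739327)) (T.h (P (nat_lit 0)) (T.h (P (nat_lit 57566294809567433850880)) (T.h (P (nat_lit 0)) (P (nat_lit 10628605528555520)))))) (T.h (P (nat_lit 0)) (T.h (T.h (M (nat_lit 2453672103476595785727)) (T.h (P (nat_lit 0)) (P (nat_lit 13941152475676672)))) (T.h (P (nat_lit 0)) (P (nat_lit 3083148681314304))))))) (T.h (T.h (T.h (P (nat_lit 0)) (T.h (M (nat_lit 1459533739220636931194879)) (T.h (P (nat_lit 0)) (T.h (P (nat_lit 16487317009659330560)) (T.h (P (nat_lit 0)) (P (nat_lit 8063023529120))))))) (T.h (P (nat_lit 0)) (T.h (T.h (P (nat_lit 0)) (T.h (M (nat_lit 62356342678558343167)) (T.h (P (nat_lit 0)) (M (nat_lit 2419356147151))))) (T.h (P (nat_lit 0)) (T.h (T.h (P (nat_lit 0)) (M (nat_lit 14170135667743))) (P (nat_lit 0))))))) (T.h (T.h (P (nat_lit 0)) (T.h (T.h (P (nat_lit 57566294809567433850880)) (T.h (P (nat_lit 0)) (M (nat_lit 92819841704132607)))) (T.h (P (nat_lit 0)) (P (nat_lit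 13941152475676672))))) (T.h (T.h (T.h (P (nat_lit 0)) (T.h (P (nat_lit 16487317009659330560)) (T.h (P (nat_lit 0)) (P (nat_lit 2263527959616))))) (T.h (P (nat_lit 0)) (T.h (T.h (P (nat_lit 0)) (M (nat_lit 2419356147151))) (P (nat_lit 0))))) (T.h (T.h (P (nat_lit 0)) (P (nat_lit 10628605528555520))) (T.h (T.h (T.h (P (nat_lit 0)) (P (nat_lit 8063023529120))) (P (nat_lit 0))) (P (nat_lit 0)))))))), (T.h (T.h (P (nat_lit 0)) (T.h (T.h (P (nat_lit 0)) (T.h (P (nat_lit 59548467549861302497181696)) (T.h (P (nat_lit 0)) (T.h (M (nat_lit 49584501972440973311)) (T.h (P (nat_lit 0)) (M (nat_lit 18903779491263))))))) (T.h (P (nat_lit 0)) (T.h (T.h (P (nat_lit 0)) (T.h (P (nat_lit 69442730501917900800)) (T.h (P (nat_lit 0)) (P (nat_lit 14712885554880))))) (T.h (P (nat_lit 0)) (T.h (T.h (P (nat_lit 0)) (P (nat_lit 3142430723008))) (P (nat_lit 0)))))))) (T.h (T.h (T.h (M (nat_lit 11197592873447516954182025215)) (T.h (P (nat_lit 0)) (T.h (M (nat_lit 61844520787591288586239))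 (T.h (P (nat_lit 0)) (P (nat_lit 29810411964465152)))))) (T.h (P (nat_lit 0)) (T.h (T.h (M (nat_lit 2718646849926705709055)) (T.h (P (nat_lit 0)) (P (nat_lit 16416114176000000)))) (T.h (P (nat_lit 0)) (M (nat_lit 12712655784902655)))))) (T.h (T.h (P (nat_lit 0)) (T.h (T.h (P (nat_lit 0)) (T.h (M (nat_lit 79800601318839549951)) (T.h (P (nat_lit 0)) (P (nat_lit 23937205427904))))) (T.h (P (nat_lit 0)) (T.h (T.h (P (nat_lit 0)) (M (nat_lit 26088908991423))) (P (nat_lit 0)))))) (T.h (T.h (T.h (P (nat_lit 34347226040025118408704)) (T.h (P (nat_lit 0)) (P (nat_lit 12520311840047104)))) (T.h (P (nat_lit 0)) (P (nat_lit 8592079034286080)))) (T.h (T.h (P (nat_lit 0)) (T.h (T.h (P (nat_lit 0)) (M (nat_lit 34853027095999))) (P (nat_lit 0)))) (P (nat_lit 2365312111607808))))))), (T.h (T.h (P (nat_lit 0)) (T.h (T.h (P (nat_lit 9444388680319584730748026880)) (T.h (P (nat_lit 0)) (T.h (M (nat_lit 30742105541402773422079)) (T.h (P (nat_lit 0)) (M (nat_lit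 24581947639840767)))))) (T.h (P (nat_lit 0)) (T.h (T.h (P (nat_lit 11887339130370524184576)) (T.h (P (nat_lit 0)) (P (nat_lit 22101788836069376)))) (T.h (P (nat_lit 0)) (M (nat_lit 2323722480533503))))))) (T.h (T.h (T.h (P (nat_lit 0)) (T.h (M (nat_lit 10198635777548292081057791)) (T.h (P (nat_lit 0)) (P (nat_lit 10587787297082572800))))) (T.h (P (nat_lit 0)) (T.h (T.h (P (nat_lit 0)) (P (nat_lit 9004690242220851200))) (P (nat_lit 0))))) (T.h (T.h (P (nat_lit 0)) (T.h (T.h (M (nat_lit 4498893292917248491519)) (T.h (P (nat_lit 0)) (P (nat_lit 44089042524880896)))) (T.h (P (nat_lit 0)) (P (nat_lit 1483925649195008))))) (T.h (T.h (T.h (P (nat_lit 0)) (P (nat_lit 44064355139457122304))) (P (nat_lit 0))) (T.h (T.h (P (nat_lit 0)) (M (nat_lit 17641106541363199))) (P (nat_lit 0))))))), (P (nat_lit 0)), (P (nat_lit 0)), (T.h (T.h (T.h (P (nat_lit 0)) (T.h (P (nat_lit 532858792078950653260464128)) (T.h (P (nat_lit 0)) (T.h (M (nat_lit 3075121913902334476287))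 (T.h (P (nat_lit 0)) (M (nat_lit 1221575086440447))))))) (T.h (P (nat_lit 0)) (T.h (T.h (P (nat_lit 0)) (T.h (P (nat_lit 3321691345876869447680)) (T.h (P (nat_lit 0)) (P (nat_lit 15163554349252608))))) (T.h (P (nat_lit 0)) (T.h (T.h (P (nat_lit 0)) (P (nat_lit 2725830294568960))) (P (nat_lit 0))))))) (T.h (T.h (P (nat_lit 0)) (T.h (T.h (P (nat_lit 8717922922079423085674496)) (T.h (P (nat_lit 0)) (T.h (P (nat_lit 10942545611232116736)) (T.h (P (nat_lit 0)) (P (nat_lit 3166704741056)))))) (T.h (P (nat_lit 0)) (T.h (T.h (M (nat_lit 193192647643365375)) (T.h (P (nat_lit 0)) (M (nat_lit 172863613551)))) (T.h (P (nat_lit 0)) (M (nat_lit 424261102751))))))) (T.h (T.h (T.h (P (nat_lit 0)) (T.h (M (nat_lit 4144768062586427015167)) (T.h (P (nat_lit 0)) (M (nat_lit 14061861106614271))))) (T.h (P (nat_lit 0)) (T.h (T.h (P (nat_lit 0)) (P (nat_lit 15787150469627904))) (P (nat_lit 0))))) (T.h (T.h (P (nat_lit 0)) (T.h (T.h (P (nat_lit 6521691154386255872))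 (T.h (P (nat_lit 0)) (M (nat_lit 9748205673263)))) (T.h (P (nat_lit 0)) (P (nat_lit 3373397582576))))) (T.h (T.h (T.h (P (nat_lit 0)) (P (nat_lit 10195113124757504))) (P (nat_lit 0))) (T.h (T.h (P (nat_lit 0)) (M (nat_lit 5165935566879))) (P (nat_lit 0))))))))]
def lQp_20 : List (T ℤ) := [(T.h (T.h (T.h (M (nat_lit 334640716065204902163684261887)) (T.h (P (nat_lit 0)) (T.h (P (nat_lit 346650455776612682039296)) (T.h (P (nat_lit 0)) (T.h (M (nat_lit 10914297769569026047)) (T.h (P (nat_lit 0)) (P (nat_lit 742437631216)))))))) (T.h (P (nat_lit 0)) (T.h (T.h (P (nat_lit 346650455776612682039296)) (T.h (P (nat_lit 0)) (T.h (M (nat_lit 56584880978546130943)) (T.h (P (nat_lit 0)) (P (nat_lit 701830605888)))))) (T.h (P (nat_lit 0)) (T.h (T.h (M (nat_lit 10914297769569026047)) (T.h (P (nat_lit 0)) (P (nat_lit 701830605888)))) (T.h (P (nat_lit 0)) (P (nat_lit 742437631216)))))))) (T.h (T.h (P (nat_lit 0)) (T.h (T.h (P (nat_lit 0)) (T.h (M (nat_lit 2827372530029335412735))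 (T.h (P (nat_lit 0)) (M (nat_lit 10688244118454271))))) (T.h (P (nat_lit 0)) (T.h (T.h (P (nat_lit 0)) (M (nat_lit 10688244118454271))) (P (nat_lit 0)))))) (T.h (T.h (T.h (P (nat_lit 12599577724235064664915968)) (T.h (P (nat_lit 0)) (T.h (P (nat_lit 18751379505200234496)) (T.h (P (nat_lit 0)) (P (nat_lit 5826733407072)))))) (T.h (P (nat_lit 0)) (T.h (T.h (P (nat_lit 18751379505200234496)) (T.h (P (nat_lit 0)) (M (nat_lit 2288125407)))) (T.h (P (nat_lit 0)) (P (nat_lit 5826733407072)))))) (T.h (T.h (P (nat_lit 0)) (T.h (T.h (P (nat_lit 0)) (M (nat_lit 68465521162321919))) (P (nat_lit 0)))) (T.h (T.h (T.h (M (nat_lit 20011503028845674495)) (T.h (P (nat_lit 0)) (M (nat_lit 2516063840047)))) (T.h (P (nat_lit 0)) (M (nat_lit 2516063840047)))) (T.h (P (nat_lit 0)) (M (nat_lit 3445972895)))))))), (T.h (T.h (T.h (P (nat_lit 0)) (T.h (P (nat_lit 1190417878467455091652689920)) (T.h (P (nat_lit 0)) (T.h (P (nat_lit 26172018345570226667520)) (T.h (P (nat_lit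 0)) (P (nat_lit 845639420919808))))))) (T.h (P (nat_lit 0)) (T.h (T.h (P (nat_lit 0)) (T.h (P (nat_lit 31085853986710435659776)) (T.h (P (nat_lit 0)) (M (nat_lit 45041536216449023))))) (T.h (P (nat_lit 0)) (T.h (T.h (P (nat_lit 0)) (P (nat_lit 33828731189133312))) (P (nat_lit 0))))))) (T.h (T.h (P (nat_lit 0)) (T.h (T.h (P (nat_lit 39587408417186340669489152)) (T.h (P (nat_lit 0)) (T.h (P (nat_lit 130140937352900509696)) (T.h (P (nat_lit 0)) (M (nat_lit 71336986172927)))))) (T.h (P (nat_lit 0)) (T.h (T.h (M (nat_lit 21131093311641092095)) (T.h (P (nat_lit 0)) (M (nat_lit 13156209311727)))) (T.h (P (nat_lit 0)) (M (nat_lit 12153382404239))))))) (T.h (T.h (T.h (P (nat_lit 0)) (T.h (M (nat_lit 178699207068143585329151)) (T.h (P (nat_lit 0)) (P (nat_lit 84066674971803648))))) (T.h (P (nat_lit 0)) (T.h (T.h (P (nat_lit 0)) (M (nat_lit 14191932489744383))) (P (nat_lit 0))))) (T.h (T.h (P (nat_lit 0)) (T.h (T.h (M (nat_lit 18463015768434933759)) (T.h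 (P (nat_lit 0)) (M (nat_lit 13000870878351)))) (T.h (P (nat_lit 0)) (M (nat_lit 8063003288703))))) (T.h (T.h (T.h (P (nat_lit 0)) (M (nat_lit 16664568383143935))) (P (nat_lit 0))) (T.h (T.h (P (nat_lit 0)) (M (nat_lit 5632617450207))) (P (nat_lit 0)))))))), (T.h (T.h (T.h (M (nat_lit 1926289178347798091970222489599)) (T.h (P (nat_lit 0)) (T.h (M (nat_lit 47330361431426335642746879)) (T.h (P (nat_lit 0)) (T.h (M (nat_lit 5120460088942788607)) (T.h (P (nat_lit 0)) (M (nat_lit 1207207314879)))))))) (T.h (P (nat_lit 0)) (T.h (T.h (P (nat_lit 33340692085265967498657792)) (T.h (P (nat_lit 0)) (T.h (M (nat_lit 104285345478686539775)) (T.h (P (nat_lit 0)) (P (nat_lit 14133246574336)))))) (T.h (P (nat_lit 0)) (T.h (T.h (P (nat_lit 46840225438281760768)) (T.h (P (nat_lit 0)) (M (nat_lit 42450382400319)))) (T.h (P (nat_lit 0)) (P (nat_lit 16570632507264)))))))) (T.h (T.h (P (nat_lit 0)) (T.h (T.h (P (nat_lit 0)) (T.h (P (nat_lit 6298528377167190949888))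 (T.h (P (nat_lit 0)) (M (nat_lit 134977345443725311))))) (T.h (P (nat_lit 0)) (T.h (T.h (P (nat_lit 0)) (P (nat_lit 46579037508337664))) (P (nat_lit 0)))))) (T.h (T.h (T.h (M (nat_lit 47330361431426335642746879)) (T.h (P (nat_lit 0)) (T.h (P (nat_lit 230600563208908439552)) (T.h (P (nat_lit 0)) (P (nat_lit 34433058470528)))))) (T.h (P (nat_lit 0)) (T.h (T.h (M (nat_lit 104285345478686539775)) (T.h (P (nat_lit 0)) (P (nat_lit 72133862804608)))) (T.h (P (nat_lit 0)) (M (nat_lit 42450382400319)))))) (T.h (T.h (P (nat_lit 0)) (T.h (T.h (P (nat_lit 0)) (M (nat_lit 134977345443725311))) (P (nat_lit 0)))) (T.h (T.h (T.h (M (nat_lit 5120460088942788607)) (T.h (P (nat_lit 0)) (P (nat_lit 34433058470528)))) (T.h (P (nat_lit 0)) (P (nat_lit 14133246574336)))) (T.h (P (nat_lit 0)) (M (nat_lit 1207207314879)))))))), (T.h (T.h (T.h (P (nat_lit 0)) (T.h (M (nat_lit 7898869424295032560457613311)) (T.h (P (nat_lit 0)) (T.h (P (nat_lit 25619508905965531430912))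 (T.h (P (nat_lit 0)) (P (nat_lit 5990357490696192))))))) (T.h (P (nat_lit 0)) (T.h (T.h (P (nat_lit 0)) (T.h (M (nat_lit 66894456594855284965375)) (T.h (P (nat_lit 0)) (P (nat_lit 34505731325050880))))) (T.h (P (nat_lit 0)) (T.h (T.h (P (nat_lit 0)) (M (nat_lit 17205814889070591))) (P (nat_lit 0))))))) (T.h (T.h (P (nat_lit 0)) (T.h (T.h (P (nat_lit 3808010078810433310949376)) (T.h (P (nat_lit 0)) (M (nat_lit 47737917958413877247)))) (T.h (P (nat_lit 0)) (P (nat_lit 39699916217686949888))))) (T.h (T.h (T.h (P (nat_lit 0)) (T.h (P (nat_lit 20518604022785385693184)) (T.h (P (nat_lit 0)) (P (nat_lit 25828239031599104))))) (T.h (P (nat_lit 0)) (T.h (T.h (P (nat_lit 0)) (P (nat_lit 4558212600184832))) (P (nat_lit 0))))) (T.h (T.h (P (nat_lit 0)) (M (nat_lit 7228349994594467839))) (T.h (T.h (T.h (P (nat_lit 0)) (P (nat_lit 37244374366273536))) (P (nat_lit 0))) (P (nat_lit 0))))))), (P (nat_lit 0)), (P (nat_lit 0)), (T.h (T.h (P (nat_lit 0)) (T.h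 (T.h (P (nat_lit 0)) (T.h (M (nat_lit 14097034584816128465305599)) (T.h (P (nat_lit 0)) (T.h (M (nat_lit 40614113373115645951)) (T.h (P (nat_lit 0)) (P (nat_lit 1926006707968))))))) (T.h (P (nat_lit 0)) (T.h (T.h (P (nat_lit 0)) (T.h (M (nat_lit 14447862614417473535)) (T.h (P (nat_lit 0)) (M (nat_lit 6278110139767))))) (T.h (P (nat_lit 0)) (T.h (T.h (P (nat_lit 0)) (P (nat_lit 4801873344928))) (P (nat_lit 0)))))))) (T.h (T.h (T.h (P (nat_lit 9200511152944924224068255744)) (T.h (P (nat_lit 0)) (T.h (M (nat_lit 14077787117441249181695)) (T.h (P (nat_lit 0)) (M (nat_lit 5005039249031167)))))) (T.h (P (nat_lit 0)) (T.h (T.h (P (nat_lit 49067423696374458220544)) (T.h (P (nat_lit 0)) (M (nat_lit 1336226320908287)))) (T.h (P (nat_lit 0)) (M (nat_lit 28476101997723647)))))) (T.h (T.h (P (nat_lit 0)) (T.h (T.h (P (nat_lit 0)) (T.h (P (nat_lit 158806723948804308992)) (T.h (P (nat_lit 0)) (M (nat_lit 3119472546015))))) (T.h (P (nat_lit 0)) (T.h (T.h (P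 (nat_lit 0)) (M (nat_lit 17662225065887))) (P (nat_lit 0)))))) (T.h (T.h (T.h (P (nat_lit 8138641168080224387072)) (T.h (P (nat_lit 0)) (M (nat_lit 10156953881837567)))) (T.h (P (nat_lit 0)) (M (nat_lit 8698455030792191)))) (T.h (T.h (P (nat_lit 0)) (T.h (T.h (P (nat_lit 0)) (P (nat_lit 20609692360))) (P (nat_lit 0)))) (M (nat_lit 259682930294783))))))), (T.h (T.h (P (nat_lit 0)) (T.h (T.h (P (nat_lit 1190417878467455091652689920)) (T.h (P (nat_lit 0)) (T.h (P (nat_lit 31085853986710435659776)) (T.h (P (nat_lit 0)) (P (nat_lit 33828731189133312)))))) (T.h (P (nat_lit 0)) (T.h (T.h (P (nat_lit 26172018345570226667520)) (T.h (P (nat_lit 0)) (M (nat_lit 45041536216449023)))) (T.h (P (nat_lit 0)) (P (nat_lit 845639420919808))))))) (T.h (T.h (T.h (P (nat_lit 0)) (T.h (P (nat_lit 39587408417186340669489152)) (T.h (P (nat_lit 0)) (T.h (M (nat_lit 21131093311641092095)) (T.h (P (nat_lit 0)) (M (nat_lit 12153382404239))))))) (T.h (P (nat_lit 0)) (T.h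 (T.h (P (nat_lit 0)) (T.h (P (nat_lit 130140937352900509696)) (T.h (P (nat_lit 0)) (M (nat_lit 13156209311727))))) (T.h (P (nat_lit 0)) (T.h (T.h (P (nat_lit 0)) (M (nat_lit 71336986172927))) (P (nat_lit 0))))))) (T.h (T.h (P (nat_lit 0)) (T.h (T.h (M (nat_lit 178699207068143585329151)) (T.h (P (nat_lit 0)) (M (nat_lit 14191932489744383)))) (T.h (P (nat_lit 0)) (P (nat_lit 84066674971803648))))) (T.h (T.h (T.h (P (nat_lit 0)) (T.h (M (nat_lit 18463015768434933759)) (T.h (P (nat_lit 0)) (M (nat_lit 8063003288703))))) (T.h (P (nat_lit 0)) (T.h (T.h (P (nat_lit 0)) (M (nat_lit 13000870878351))) (P (nat_lit 0))))) (T.h (T.h (P (nat_lit 0)) (M (nat_lit 16664568383143935))) (T.h (T.h (T.h (P (nat_lit 0)) (M (nat_lit 5632617450207))) (P (nat_lit 0))) (P (nat_lit 0))))))))]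
def lQp_21 : List (T ℤ) := [(T.h (T.h (P (nat_lit 0)) (T.h (T.h (P (nat_lit 0)) (T.h (M (nat_lit 92769219625735950870511615)) (T.h (P (nat_lit 0)) (T.h (P (nat_lit 6936856581531238400)) (T.h (P (nat_lit 0)) (M (nat_lit 755777456063))))))) (T.h (P (nat_lit 0)) (T.h (T.h (P (nat_lit 0)) (T.h (P (nat_lit 6936856581531238400)) (T.h (P (nat_lit 0)) (M (nat_lit 16327525130623))))) (T.h (P (nat_lit 0)) (T.h (T.h (P (nat_lit 0)) (M (nat_lit 755777456063))) (P (nat_lit 0)))))))) (T.h (T.h (T.h (P (nat_lit 61925360365294456323170107392)) (T.h (P (nat_lit 0)) (T.h (P (nat_lit 9021229890076332261376)) (T.h (P (nat_lit 0)) (M (nat_lit 83077446423314431)))))) (T.h (P (nat_lit 0)) (T.h (T.h (P (nat_lit 9021229890076332261376)) (T.h (P (nat_lit 0)) (M (nat_lit 51710656747077631)))) (T.h (P (nat_lit 0)) (M (nat_lit 83077446423314431)))))) (T.h (T.h (P (nat_lit 0)) (T.h (T.h (P (nat_lit 0)) (T.h (P (nat_lit 408152612564925153280)) (T.h (P (nat_lit 0)) (P (nat_lit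 1615352190400))))) (T.h (P (nat_lit 0)) (T.h (T.h (P (nat_lit 0)) (P (nat_lit 1615352190400))) (P (nat_lit 0)))))) (T.h (T.h (T.h (M (nat_lit 43360163169862938525695)) (T.h (P (nat_lit 0)) (M (nat_lit 83687016428568575)))) (T.h (P (nat_lit 0)) (M (nat_lit 83687016428568575)))) (T.h (T.h (P (nat_lit 0)) (T.h (T.h (P (nat_lit 0)) (M (nat_lit 9118491233791))) (P (nat_lit 0)))) (M (nat_lit 6052457657925631))))))), (T.h (T.h (P (nat_lit 0)) (T.h (T.h (M (nat_lit 11386109411402279864340840447)) (T.h (P (nat_lit 0)) (T.h (P (nat_lit 3797065615410485788672)) (T.h (P (nat_lit 0)) (P (nat_lit 3934493346447360)))))) (T.h (P (nat_lit 0)) (T.h (T.h (P (nat_lit 17816978978999849975808)) (T.h (P (nat_lit 0)) (M (nat_lit 55595200717504511)))) (T.h (P (nat_lit 0)) (P (nat_lit 25065533473652736))))))) (T.h (T.h (T.h (P (nat_lit 0)) (T.h (M (nat_lit 7858349407269454602043391)) (T.h (P (nat_lit 0)) (M (nat_lit 59872406056204238847))))) (T.h (P (nat_lit 0)) (T.h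 (T.h (P (nat_lit 0)) (P (nat_lit 37574576478588239872))) (P (nat_lit 0))))) (T.h (T.h (P (nat_lit 0)) (T.h (T.h (P (nat_lit 3797065615410485788672)) (T.h (P (nat_lit 0)) (P (nat_lit 39413718720413696)))) (T.h (P (nat_lit 0)) (M (nat_lit 55595200717504511))))) (T.h (T.h (T.h (P (nat_lit 0)) (M (nat_lit 59872406056204238847))) (P (nat_lit 0))) (T.h (T.h (P (nat_lit 0)) (P (nat_lit 3934493346447360))) (P (nat_lit 0))))))), (P (nat_lit 0)), (P (nat_lit 0)), (T.h (T.h (T.h (P (nat_lit 0)) (T.h (M (nat_lit 12287764217866034664416739327)) (T.h (P (nat_lit 0)) (T.h (M (nat_lit 2453672103476595785727)) (T.h (P (nat_lit 0)) (P (nat_lit 3083148681314304))))))) (T.h (P (nat_lit 0)) (T.h (T.h (P (nat_lit 0)) (T.h (P (nat_lit 57566294809567433850880)) (T.h (P (nat_lit 0)) (P (nat_lit 13941152475676672))))) (T.h (P (nat_lit 0)) (T.h (T.h (P (nat_lit 0)) (P (nat_lit 10628605528555520))) (P (nat_lit 0))))))) (T.h (T.h (P (nat_lit 0)) (T.h (T.h (M (nat_lit 1459533739220636931194879))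 (T.h (P (nat_lit 0)) (T.h (M (nat_lit 62356342678558343167)) (T.h (P (nat_lit 0)) (M (nat_lit 14170135667743)))))) (T.h (P (nat_lit 0)) (T.h (T.h (P (nat_lit 16487317009659330560)) (T.h (P (nat_lit 0)) (M (nat_lit 2419356147151)))) (T.h (P (nat_lit 0)) (P (nat_lit 8063023529120))))))) (T.h (T.h (T.h (P (nat_lit 0)) (T.h (P (nat_lit 57566294809567433850880)) (T.h (P (nat_lit 0)) (P (nat_lit 13941152475676672))))) (T.h (P (nat_lit 0)) (T.h (T.h (P (nat_lit 0)) (M (nat_lit 92819841704132607))) (P (nat_lit 0))))) (T.h (T.h (P (nat_lit 0)) (T.h (T.h (P (nat_lit 16487317009659330560)) (T.h (P (nat_lit 0)) (M (nat_lit 2419356147151)))) (T.h (P (nat_lit 0)) (P (nat_lit 2263527959616))))) (T.h (T.h (T.h (P (nat_lit 0)) (P (nat_lit 10628605528555520))) (P (nat_lit 0))) (T.h (T.h (P (nat_lit 0)) (P (nat_lit 8063023529120))) (P (nat_lit 0)))))))), (T.h (T.h (T.h (M (nat_lit 1926289178347798091970222489599)) (T.h (P (nat_lit 0)) (T.h (P (nat_lit 33340692085265967498657792))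 (T.h (P (nat_lit 0)) (T.h (P (nat_lit 46840225438281760768)) (T.h (P (nat_lit 0)) (P (nat_lit 16570632507264)))))))) (T.h (P (nat_lit 0)) (T.h (T.h (M (nat_lit 47330361431426335642746879)) (T.h (P (nat_lit 0)) (T.h (M (nat_lit 104285345478686539775)) (T.h (P (nat_lit 0)) (M (nat_lit 42450382400319)))))) (T.h (P (nat_lit 0)) (T.h (T.h (M (nat_lit 5120460088942788607)) (T.h (P (nat_lit 0)) (P (nat_lit 14133246574336)))) (T.h (P (nat_lit 0)) (M (nat_lit 1207207314879)))))))) (T.h (T.h (P (nat_lit 0)) (T.h (T.h (P (nat_lit 0)) (T.h (P (nat_lit 6298528377167190949888)) (T.h (P (nat_lit 0)) (P (nat_lit 46579037508337664))))) (T.h (P (nat_lit 0)) (T.h (T.h (P (nat_lit 0)) (M (nat_lit 134977345443725311))) (P (nat_lit 0)))))) (T.h (T.h (T.h (M (nat_lit 47330361431426335642746879)) (T.h (P (nat_lit 0)) (T.h (M (nat_lit 104285345478686539775)) (T.h (P (nat_lit 0)) (M (nat_lit 42450382400319)))))) (T.h (P (nat_lit 0)) (T.h (T.h (P (nat_lit 230600563208908439552))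 (T.h (P (nat_lit 0)) (P (nat_lit 72133862804608)))) (T.h (P (nat_lit 0)) (P (nat_lit 34433058470528)))))) (T.h (T.h (P (nat_lit 0)) (T.h (T.h (P (nat_lit 0)) (M (nat_lit 134977345443725311))) (P (nat_lit 0)))) (T.h (T.h (T.h (M (nat_lit 5120460088942788607)) (T.h (P (nat_lit 0)) (P (nat_lit 14133246574336)))) (T.h (P (nat_lit 0)) (P (nat_lit 34433058470528)))) (T.h (P (nat_lit 0)) (M (nat_lit 1207207314879)))))))), (T.h (T.h (T.h (P (nat_lit 0)) (T.h (M (nat_lit 11386109411402279864340840447)) (T.h (P (nat_lit 0)) (T.h (P (nat_lit 17816978978999849975808)) (T.h (P (nat_lit 0)) (P (nat_lit 25065533473652736))))))) (T.h (P (nat_lit 0)) (T.h (T.h (P (nat_lit 0)) (T.h (P (nat_lit 3797065615410485788672)) (T.h (P (nat_lit 0)) (M (nat_lit 55595200717504511))))) (T.h (P (nat_lit 0)) (T.h (T.h (P (nat_lit 0)) (P (nat_lit 3934493346447360))) (P (nat_lit 0))))))) (T.h (T.h (P (nat_lit 0)) (T.h (T.h (M (nat_lit 7858349407269454602043391)) (T.h (P (nat_lit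 0)) (P (nat_lit 37574576478588239872)))) (T.h (P (nat_lit 0)) (M (nat_lit 59872406056204238847))))) (T.h (T.h (T.h (P (nat_lit 0)) (T.h (P (nat_lit 3797065615410485788672)) (T.h (P (nat_lit 0)) (M (nat_lit 55595200717504511))))) (T.h (P (nat_lit 0)) (T.h (T.h (P (nat_lit 0)) (P (nat_lit 39413718720413696))) (P (nat_lit 0))))) (T.h (T.h (P (nat_lit 0)) (M (nat_lit 59872406056204238847))) (T.h (T.h (T.h (P (nat_lit 0)) (P (nat_lit 3934493346447360))) (P (nat_lit 0))) (P (nat_lit 0))))))), (P (nat_lit 0))]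
def lQp_22 : List (T ℤ) := [(P (nat_lit 0)), (T.h (T.h (P (nat_lit 0)) (T.h (T.h (P (nat_lit 0)) (T.h (P (nat_lit 59548467549861302497181696)) (T.h (P (nat_lit 0)) (T.h (P (nat_lit 69442730501917900800)) (T.h (P (nat_lit 0)) (P (nat_lit 3142430723008))))))) (T.h (P (nat_lit 0)) (T.h (T.h (P (nat_lit 0)) (T.h (M (nat_lit 49584501972440973311)) (T.h (P (nat_lit 0)) (P (nat_lit 14712885554880))))) (T.h (P (nat_lit 0)) (T.h (T.h (P (nat_lit 0)) (M (nat_lit 18903779491263))) (P (nat_lit 0)))))))) (T.h (T.h (T.h (M (nat_lit 11197592873447516954182025215)) (T.h (P (nat_lit 0)) (T.h (M (nat_lit 2718646849926705709055)) (T.h (P (nat_lit 0)) (M (nat_lit 12712655784902655)))))) (T.h (P (nat_lit 0)) (T.h (T.h (M (nat_lit 61844520787591288586239)) (T.h (P (nat_lit 0)) (P (nat_lit 16416114176000000)))) (T.h (P (nat_lit 0)) (P (nat_lit 29810411964465152)))))) (T.h (T.h (P (nat_lit 0)) (T.h (T.h (P (nat_lit 0)) (T.h (M (nat_lit 79800601318839549951)) (T.h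 (P (nat_lit 0)) (M (nat_lit 26088908991423))))) (T.h (P (nat_lit 0)) (T.h (T.h (P (nat_lit 0)) (P (nat_lit 23937205427904))) (P (nat_lit 0)))))) (T.h (T.h (T.h (P (nat_lit 34347226040025118408704)) (T.h (P (nat_lit 0)) (P (nat_lit 8592079034286080)))) (T.h (P (nat_lit 0)) (P (nat_lit 12520311840047104)))) (T.h (T.h (P (nat_lit 0)) (T.h (T.h (P (nat_lit 0)) (M (nat_lit 34853027095999))) (P (nat_lit 0)))) (P (nat_lit 2365312111607808))))))), (T.h (T.h (P (nat_lit 0)) (T.h (T.h (M (nat_lit 7898869424295032560457613311)) (T.h (P (nat_lit 0)) (T.h (M (nat_lit 66894456594855284965375)) (T.h (P (nat_lit 0)) (M (nat_lit 17205814889070591)))))) (T.h (P (nat_lit 0)) (T.h (T.h (P (nat_lit 25619508905965531430912)) (T.h (P (nat_lit 0)) (P (nat_lit 34505731325050880)))) (T.h (P (nat_lit 0)) (P (nat_lit 5990357490696192))))))) (T.h (T.h (T.h (P (nat_lit 0)) (T.h (P (nat_lit 3808010078810433310949376)) (T.h (P (nat_lit 0)) (P (nat_lit 39699916217686949888)))))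 (T.h (P (nat_lit 0)) (T.h (T.h (P (nat_lit 0)) (M (nat_lit 47737917958413877247))) (P (nat_lit 0))))) (T.h (T.h (P (nat_lit 0)) (T.h (T.h (P (nat_lit 20518604022785385693184)) (T.h (P (nat_lit 0)) (P (nat_lit 4558212600184832)))) (T.h (P (nat_lit 0)) (P (nat_lit 25828239031599104))))) (T.h (T.h (T.h (P (nat_lit 0)) (M (nat_lit 7228349994594467839))) (P (nat_lit 0))) (T.h (T.h (P (nat_lit 0)) (P (nat_lit 37244374366273536))) (P (nat_lit 0))))))), (P (nat_lit 0)), (P (nat_lit 0)), (T.h (T.h (T.h (P (nat_lit 0)) (T.h (P (nat_lit 9444388680319584730748026880)) (T.h (P (nat_lit 0)) (T.h (P (nat_lit 11887339130370524184576)) (T.h (P (nat_lit 0)) (M (nat_lit 2323722480533503))))))) (T.h (P (nat_lit 0)) (T.h (T.h (P (nat_lit 0)) (T.h (M (nat_lit 30742105541402773422079)) (T.h (P (nat_lit 0)) (P (nat_lit 22101788836069376))))) (T.h (P (nat_lit 0)) (T.h (T.h (P (nat_lit 0)) (M (nat_lit 24581947639840767))) (P (nat_lit 0))))))) (T.h (T.h (P (nat_lit 0))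 (T.h (T.h (M (nat_lit 10198635777548292081057791)) (T.h (P (nat_lit 0)) (P (nat_lit 9004690242220851200)))) (T.h (P (nat_lit 0)) (P (nat_lit 10587787297082572800))))) (T.h (T.h (T.h (P (nat_lit 0)) (T.h (M (nat_lit 4498893292917248491519)) (T.h (P (nat_lit 0)) (P (nat_lit 1483925649195008))))) (T.h (P (nat_lit 0)) (T.h (T.h (P (nat_lit 0)) (P (nat_lit 44089042524880896))) (P (nat_lit 0))))) (T.h (T.h (P (nat_lit 0)) (P (nat_lit 44064355139457122304))) (T.h (T.h (T.h (P (nat_lit 0)) (M (nat_lit 17641106541363199))) (P (nat_lit 0))) (P (nat_lit 0))))))), (P (nat_lit 0)), (P (nat_lit 0))]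
def lQp_23 : List (T ℤ) := [(P (nat_lit 0)), (P (nat_lit 0)), (P (nat_lit 0)), (T.h (T.h (T.h (M (nat_lit 169053768763270514532562239487)) (T.h (P (nat_lit 0)) (T.h (P (nat_lit 1217783071519776866041856)) (T.h (P (nat_lit 0)) (T.h (M (nat_lit 2581556048120774655)) (T.h (P (nat_lit 0)) (P (nat_lit 2889973006256)))))))) (T.h (P (nat_lit 0)) (T.h (T.h (P (nat_lit 1217783071519776866041856)) (T.h (P (nat_lit 0)) (T.h (M (nat_lit 580103659812028415)) (T.h (P (nat_lit 0)) (M (nat_lit 662576913727)))))) (T.h (P (nat_lit 0)) (T.h (T.h (M (nat_lit 2581556048120774655)) (T.h (P (nat_lit 0)) (M (nat_lit 662576913727)))) (T.h (P (nat_lit 0)) (P (nat_lit 2889973006256)))))))) (T.h (T.h (P (nat_lit 0)) (T.h (T.h (P (nat_lit 0)) (T.h (M (nat_lit 1587471070678617161727)) (T.h (P (nat_lit 0)) (P (nat_lit 3737556218937344))))) (T.h (P (nat_lit 0)) (T.h (T.h (P (nat_lit 0)) (P (nat_lit 3737556218937344))) (P (nat_lit 0)))))) (T.h (T.h (T.h (M (nat_lit 86023058324020239794175))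 (T.h (P (nat_lit 0)) (T.h (M (nat_lit 2804189857717420031)) (T.h (P (nat_lit 0)) (P (nat_lit 2363898821680)))))) (T.h (P (nat_lit 0)) (T.h (T.h (M (nat_lit 2804189857717420031)) (T.h (P (nat_lit 0)) (P (nat_lit 2120391294816)))) (T.h (P (nat_lit 0)) (P (nat_lit 2363898821680)))))) (T.h (T.h (P (nat_lit 0)) (T.h (T.h (P (nat_lit 0)) (P (nat_lit 2147752284127232))) (P (nat_lit 0)))) (T.h (T.h (T.h (P (nat_lit 544121181330997248)) (T.h (P (nat_lit 0)) (P (nat_lit 1796611202864)))) (T.h (P (nat_lit 0)) (P (nat_lit 1796611202864)))) (T.h (P (nat_lit 0)) (M (nat_lit 1570308029599)))))))), (T.h (T.h (T.h (P (nat_lit 0)) (T.h (M (nat_lit 481498426444980760464064511)) (T.h (P (nat_lit 0)) (T.h (M (nat_lit 5697953271083314446335)) (T.h (P (nat_lit 0)) (M (nat_lit 1101479145242623))))))) (T.h (P (nat_lit 0)) (T.h (T.h (P (nat_lit 0)) (T.h (P (nat_lit 30550314660257486340096)) (T.h (P (nat_lit 0)) (P (nat_lit 11781704825339904))))) (T.h (P (nat_lit 0))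 (T.h (T.h (P (nat_lit 0)) (P (nat_lit 24475322561724416))) (P (nat_lit 0))))))) (T.h (T.h (P (nat_lit 0)) (T.h (T.h (P (nat_lit 7876353602873980778184704)) (T.h (P (nat_lit 0)) (T.h (M (nat_lit 49373033002136764415)) (T.h (P (nat_lit 0)) (M (nat_lit 1986549294751)))))) (T.h (P (nat_lit 0)) (T.h (T.h (P (nat_lit 20999579311255060480)) (T.h (P (nat_lit 0)) (P (nat_lit 12794536799488)))) (T.h (P (nat_lit 0)) (M (nat_lit 376638881959))))))) (T.h (T.h (T.h (P (nat_lit 0)) (T.h (M (nat_lit 26681154423655495630847)) (T.h (P (nat_lit 0)) (M (nat_lit 784067758030847))))) (T.h (P (nat_lit 0)) (T.h (T.h (P (nat_lit 0)) (M (nat_lit 52353664172392447))) (P (nat_lit 0))))) (T.h (T.h (P (nat_lit 0)) (T.h (T.h (P (nat_lit 53974486825366978560)) (T.h (P (nat_lit 0)) (M (nat_lit 11084003201839)))) (T.h (P (nat_lit 0)) (P (nat_lit 3170395601472))))) (T.h (T.h (T.h (P (nat_lit 0)) (M (nat_lit 7017528924438527))) (P (nat_lit 0))) (T.h (T.h (P (nat_lit 0)) (M (nat_lit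 232301117191))) (P (nat_lit 0)))))))), (T.h (T.h (T.h (M (nat_lit 15781421352417333064023314268159)) (T.h (P (nat_lit 0)) (T.h (M (nat_lit 17016263105224677655576575)) (T.h (P (nat_lit 0)) (T.h (M (nat_lit 5769335801796100095)) (T.h (P (nat_lit 0)) (M (nat_lit 6454986133007)))))))) (T.h (P (nat_lit 0)) (T.h (T.h (P (nat_lit 19510935969206319368372224)) (T.h (P (nat_lit 0)) (T.h (P (nat_lit 4459232863304286208)) (T.h (P (nat_lit 0)) (P (nat_lit 15481464103056)))))) (T.h (P (nat_lit 0)) (T.h (T.h (P (nat_lit 3816157051806023680)) (T.h (P (nat_lit 0)) (M (nat_lit 2689076313615)))) (T.h (P (nat_lit 0)) (M (nat_lit 2135898518655)))))))) (T.h (T.h (P (nat_lit 0)) (T.h (T.h (P (nat_lit 0)) (T.h (P (nat_lit 104428965465499621130240)) (T.h (P (nat_lit 0)) (M (nat_lit 42371289102942207))))) (T.h (P (nat_lit 0)) (T.h (T.h (P (nat_lit 0)) (P (nat_lit 95973161780510720))) (P (nat_lit 0)))))) (T.h (T.h (T.h (P (nat_lit 2254133925789322698555392)) (T.h (P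 (nat_lit 0)) (T.h (M (nat_lit 20199970791355318271)) (T.h (P (nat_lit 0)) (P (nat_lit 7861092761200)))))) (T.h (P (nat_lit 0)) (T.h (T.h (M (nat_lit 48825252204196659199)) (T.h (P (nat_lit 0)) (P (nat_lit 8548507008608)))) (T.h (P (nat_lit 0)) (M (nat_lit 5131028078175)))))) (T.h (T.h (P (nat_lit 0)) (T.h (T.h (P (nat_lit 0)) (M (nat_lit 65765569243283455))) (P (nat_lit 0)))) (T.h (T.h (T.h (M (nat_lit 11582974751273910271)) (T.h (P (nat_lit 0)) (P (nat_lit 18872188738032)))) (T.h (P (nat_lit 0)) (P (nat_lit 66173550912)))) (T.h (P (nat_lit 0)) (M (nat_lit 4494899552751)))))))), (T.h (T.h (T.h (P (nat_lit 0)) (T.h (M (nat_lit 11197592873447516954182025215)) (T.h (P (nat_lit 0)) (T.h (P (nat_lit 34347226040025118408704)) (T.h (P (nat_lit 0)) (P (nat_lit 2365312111607808))))))) (T.h (P (nat_lit 0)) (T.h (T.h (P (nat_lit 0)) (T.h (M (nat_lit 2718646849926705709055)) (T.h (P (nat_lit 0)) (P (nat_lit 8592079034286080))))) (T.h (P (nat_lit 0)) (T.h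 (T.h (P (nat_lit 0)) (M (nat_lit 12712655784902655))) (P (nat_lit 0))))))) (T.h (T.h (P (nat_lit 0)) (T.h (T.h (P (nat_lit 59548467549861302497181696)) (T.h (P (nat_lit 0)) (T.h (M (nat_lit 79800601318839549951)) (T.h (P (nat_lit 0)) (M (nat_lit 34853027095999)))))) (T.h (P (nat_lit 0)) (T.h (T.h (P (nat_lit 69442730501917900800)) (T.h (P (nat_lit 0)) (M (nat_lit 26088908991423)))) (T.h (P (nat_lit 0)) (P (nat_lit 3142430723008))))))) (T.h (T.h (T.h (P (nat_lit 0)) (T.h (M (nat_lit 61844520787591288586239)) (T.h (P (nat_lit 0)) (P (nat_lit 12520311840047104))))) (T.h (P (nat_lit 0)) (T.h (T.h (P (nat_lit 0)) (P (nat_lit 16416114176000000))) (P (nat_lit 0))))) (T.h (T.h (P (nat_lit 0)) (T.h (T.h (M (nat_lit 49584501972440973311)) (T.h (P (nat_lit 0)) (P (nat_lit 23937205427904)))) (T.h (P (nat_lit 0)) (P (nat_lit 14712885554880))))) (T.h (T.h (T.h (P (nat_lit 0)) (P (nat_lit 29810411964465152))) (P (nat_lit 0))) (T.h (T.h (P (nat_lit 0)) (M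 (nat_lit 18903779491263))) (P (nat_lit 0)))))))), (T.h (T.h (T.h (M (nat_lit 1566566538292661711704453808127)) (T.h (P (nat_lit 0)) (T.h (P (nat_lit 9732647539352031790628864)) (T.h (P (nat_lit 0)) (P (nat_lit 16297031267554164736)))))) (T.h (P (nat_lit 0)) (T.h (T.h (M (nat_lit 3329637082376392511848447)) (T.h (P (nat_lit 0)) (M (nat_lit 3306482805604614143)))) (T.h (P (nat_lit 0)) (M (nat_lit 3580613197985480703)))))) (T.h (T.h (P (nat_lit 0)) (T.h (T.h (P (nat_lit 0)) (T.h (M (nat_lit 26663661396517474795519)) (T.h (P (nat_lit 0)) (M (nat_lit 23433650567217151))))) (T.h (P (nat_lit 0)) (T.h (T.h (P (nat_lit 0)) (M (nat_lit 26715042807218175))) (P (nat_lit 0)))))) (T.h (T.h (T.h (P (nat_lit 9732647539352031790628864)) (T.h (P (nat_lit 0)) (P (nat_lit 2048803517447012352)))) (T.h (P (nat_lit 0)) (M (nat_lit 3306482805604614143)))) (T.h (T.h (P (nat_lit 0)) (T.h (T.h (P (nat_lit 0)) (M (nat_lit 23433650567217151))) (P (nat_lit 0)))) (P (nat_lit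 16297031267554164736))))))]
def lQp_24 : List (T ℤ) := [(P (nat_lit 0)), (P (nat_lit 0)), (T.h (T.h (P (nat_lit 0)) (T.h (T.h (M (nat_lit 481498426444980760464064511)) (T.h (P (nat_lit 0)) (T.h (P (nat_lit 30550314660257486340096)) (T.h (P (nat_lit 0)) (P (nat_lit 24475322561724416)))))) (T.h (P (nat_lit 0)) (T.h (T.h (M (nat_lit 5697953271083314446335)) (T.h (P (nat_lit 0)) (P (nat_lit 11781704825339904)))) (T.h (P (nat_lit 0)) (M (nat_lit 1101479145242623))))))) (T.h (T.h (T.h (P (nat_lit 0)) (T.h (P (nat_lit 7876353602873980778184704)) (T.h (P (nat_lit 0)) (T.h (P (nat_lit 20999579311255060480)) (T.h (P (nat_lit 0)) (M (nat_lit 376638881959))))))) (T.h (P (nat_lit 0)) (T.h (T.h (P (nat_lit 0)) (T.h (M (nat_lit 49373033002136764415)) (T.h (P (nat_lit 0)) (P (nat_lit 12794536799488))))) (T.h (P (nat_lit 0)) (T.h (T.h (P (nat_lit 0)) (M (nat_lit 1986549294751))) (P (nat_lit 0))))))) (T.h (T.h (P (nat_lit 0)) (T.h (T.h (M (nat_lit 26681154423655495630847))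 (T.h (P (nat_lit 0)) (M (nat_lit 52353664172392447)))) (T.h (P (nat_lit 0)) (M (nat_lit 784067758030847))))) (T.h (T.h (T.h (P (nat_lit 0)) (T.h (P (nat_lit 53974486825366978560)) (T.h (P (nat_lit 0)) (P (nat_lit 3170395601472))))) (T.h (P (nat_lit 0)) (T.h (T.h (P (nat_lit 0)) (M (nat_lit 11084003201839))) (P (nat_lit 0))))) (T.h (T.h (P (nat_lit 0)) (M (nat_lit 7017528924438527))) (T.h (T.h (T.h (P (nat_lit 0)) (M (nat_lit 232301117191))) (P (nat_lit 0))) (P (nat_lit 0)))))))), (T.h (T.h (P (nat_lit 0)) (T.h (T.h (P (nat_lit 0)) (T.h (M (nat_lit 10900861621101865260285951)) (T.h (P (nat_lit 0)) (T.h (P (nat_lit 10343249924551868416)) (T.h (P (nat_lit 0)) (P (nat_lit 4818155716864))))))) (T.h (P (nat_lit 0)) (T.h (T.h (P (nat_lit 0)) (T.h (P (nat_lit 10343249924551868416)) (T.h (P (nat_lit 0)) (P (nat_lit 2939123638080))))) (T.h (P (nat_lit 0)) (T.h (T.h (P (nat_lit 0)) (P (nat_lit 4818155716864))) (P (nat_lit 0)))))))) (T.h (T.h (T.h (P (nat_lit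 1274835501234415265053147136)) (T.h (P (nat_lit 0)) (T.h (P (nat_lit 25879262263560112177152)) (T.h (P (nat_lit 0)) (P (nat_lit 17005672959475712)))))) (T.h (P (nat_lit 0)) (T.h (T.h (P (nat_lit 25879262263560112177152)) (T.h (P (nat_lit 0)) (M (nat_lit 45833303586930687)))) (T.h (P (nat_lit 0)) (P (nat_lit 17005672959475712)))))) (T.h (T.h (P (nat_lit 0)) (T.h (T.h (P (nat_lit 0)) (T.h (P (nat_lit 61799540729095127040)) (T.h (P (nat_lit 0)) (M (nat_lit 1321085431679))))) (T.h (P (nat_lit 0)) (T.h (T.h (P (nat_lit 0)) (M (nat_lit 1321085431679))) (P (nat_lit 0)))))) (T.h (T.h (T.h (M (nat_lit 28054637439075940827135)) (T.h (P (nat_lit 0)) (P (nat_lit 5499124897611776)))) (T.h (P (nat_lit 0)) (P (nat_lit 5499124897611776)))) (T.h (T.h (P (nat_lit 0)) (T.h (T.h (P (nat_lit 0)) (M (nat_lit 24657609824063))) (P (nat_lit 0)))) (P (nat_lit 14290841708625920))))))), (T.h (T.h (P (nat_lit 0)) (T.h (T.h (M (nat_lit 3702363822789395728794910719)) (T.h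 (P (nat_lit 0)) (T.h (P (nat_lit 90403578470243908976640)) (T.h (P (nat_lit 0)) (P (nat_lit 3203367007879168)))))) (T.h (P (nat_lit 0)) (T.h (T.h (M (nat_lit 25529900305342426775551)) (T.h (P (nat_lit 0)) (P (nat_lit 47829927093829632)))) (T.h (P (nat_lit 0)) (M (nat_lit 30804322491269119))))))) (T.h (T.h (T.h (P (nat_lit 0)) (T.h (M (nat_lit 45895461587282081093779455)) (T.h (P (nat_lit 0)) (T.h (P (nat_lit 9299283688523038720)) (T.h (P (nat_lit 0)) (P (nat_lit 22294549504640))))))) (T.h (P (nat_lit 0)) (T.h (T.h (P (nat_lit 0)) (T.h (M (nat_lit 104285394266293796863)) (T.h (P (nat_lit 0)) (M (nat_lit 16065160221823))))) (T.h (P (nat_lit 0)) (T.h (T.h (P (nat_lit 0)) (P (nat_lit 1978396775168))) (P (nat_lit 0))))))) (T.h (T.h (P (nat_lit 0)) (T.h (T.h (M (nat_lit 41905726175429229805567)) (T.h (P (nat_lit 0)) (M (nat_lit 50639647774375935)))) (T.h (P (nat_lit 0)) (P (nat_lit 33222815373590528))))) (T.h (T.h (T.h (P (nat_lit 0)) (T.h (P (nat_lit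 132497166626126299136)) (T.h (P (nat_lit 0)) (M (nat_lit 20259293530943))))) (T.h (P (nat_lit 0)) (T.h (T.h (P (nat_lit 0)) (P (nat_lit 34116370026496))) (P (nat_lit 0))))) (T.h (T.h (P (nat_lit 0)) (M (nat_lit 88632905097215999))) (T.h (T.h (T.h (P (nat_lit 0)) (P (nat_lit 49546857328576))) (P (nat_lit 0))) (P (nat_lit 0)))))))), (T.h (T.h (P (nat_lit 0)) (T.h (T.h (P (nat_lit 0)) (T.h (P (nat_lit 3808010078810433310949376)) (T.h (P (nat_lit 0)) (M (nat_lit 7228349994594467839))))) (T.h (P (nat_lit 0)) (T.h (T.h (P (nat_lit 0)) (P (nat_lit 39699916217686949888))) (P (nat_lit 0)))))) (T.h (T.h (T.h (M (nat_lit 7898869424295032560457613311)) (T.h (P (nat_lit 0)) (T.h (P (nat_lit 20518604022785385693184)) (T.h (P (nat_lit 0)) (P (nat_lit 37244374366273536)))))) (T.h (P (nat_lit 0)) (T.h (T.h (M (nat_lit 66894456594855284965375)) (T.h (P (nat_lit 0)) (P (nat_lit 4558212600184832)))) (T.h (P (nat_lit 0)) (M (nat_lit 17205814889070591)))))) (T.h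 (T.h (P (nat_lit 0)) (T.h (T.h (P (nat_lit 0)) (M (nat_lit 47737917958413877247))) (P (nat_lit 0)))) (T.h (T.h (T.h (P (nat_lit 25619508905965531430912)) (T.h (P (nat_lit 0)) (P (nat_lit 25828239031599104)))) (T.h (P (nat_lit 0)) (P (nat_lit 34505731325050880)))) (T.h (P (nat_lit 0)) (P (nat_lit 5990357490696192))))))), (P (nat_lit 0)), (P (nat_lit 0))]
def lQp_25 : List (T ℤ) := [(T.h (T.h (T.h (M (nat_lit 15781421352417333064023314268159)) (T.h (P (nat_lit 0)) (T.h (P (nat_lit 19510935969206319368372224)) (T.h (P (nat_lit 0)) (T.h (P (nat_lit 3816157051806023680)) (T.h (P (nat_lit 0)) (M (nat_lit 2135898518655)))))))) (T.h (P (nat_lit 0)) (T.h (T.h (M (nat_lit 17016263105224677655576575)) (T.h (P (nat_lit 0)) (T.h (P (nat_lit 4459232863304286208)) (T.h (P (nat_lit 0)) (M (nat_lit 2689076313615)))))) (T.h (P (nat_lit 0)) (T.h (T.h (M (nat_lit 5769335801796100095)) (T.h (P (nat_lit 0)) (P (nat_lit 15481464103056)))) (T.h (P (nat_lit 0)) (M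 (nat_lit 6454986133007)))))))) (T.h (T.h (P (nat_lit 0)) (T.h (T.h (P (nat_lit 0)) (T.h (P (nat_lit 104428965465499621130240)) (T.h (P (nat_lit 0)) (P (nat_lit 95973161780510720))))) (T.h (P (nat_lit 0)) (T.h (T.h (P (nat_lit 0)) (M (nat_lit 42371289102942207))) (P (nat_lit 0)))))) (T.h (T.h (T.h (P (nat_lit 2254133925789322698555392)) (T.h (P (nat_lit 0)) (T.h (M (nat_lit 48825252204196659199)) (T.h (P (nat_lit 0)) (M (nat_lit 5131028078175)))))) (T.h (P (nat_lit 0)) (T.h (T.h (M (nat_lit 20199970791355318271)) (T.h (P (nat_lit 0)) (P (nat_lit 8548507008608)))) (T.h (P (nat_lit 0)) (P (nat_lit 7861092761200)))))) (T.h (T.h (P (nat_lit 0)) (T.h (T.h (P (nat_lit 0)) (M (nat_lit 65765569243283455))) (P (nat_lit 0)))) (T.h (T.h (T.h (M (nat_lit 11582974751273910271)) (T.h (P (nat_lit 0)) (P (nat_lit 66173550912)))) (T.h (P (nat_lit 0)) (P (nat_lit 18872188738032)))) (T.h (P (nat_lit 0)) (M (nat_lit 4494899552751)))))))), (T.h (T.h (T.h (P (nat_lit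 0)) (T.h (M (nat_lit 3702363822789395728794910719)) (T.h (P (nat_lit 0)) (T.h (M (nat_lit 25529900305342426775551)) (T.h (P (nat_lit 0)) (M (nat_lit 30804322491269119))))))) (T.h (P (nat_lit 0)) (T.h (T.h (P (nat_lit 0)) (T.h (P (nat_lit 90403578470243908976640)) (T.h (P (nat_lit 0)) (P (nat_lit 47829927093829632))))) (T.h (P (nat_lit 0)) (T.h (T.h (P (nat_lit 0)) (P (nat_lit 3203367007879168))) (P (nat_lit 0))))))) (T.h (T.h (P (nat_lit 0)) (T.h (T.h (M (nat_lit 45895461587282081093779455)) (T.h (P (nat_lit 0)) (T.h (M (nat_lit 104285394266293796863)) (T.h (P (nat_lit 0)) (P (nat_lit 1978396775168)))))) (T.h (P (nat_lit 0)) (T.h (T.h (P (nat_lit 9299283688523038720)) (T.h (P (nat_lit 0)) (M (nat_lit 16065160221823)))) (T.h (P (nat_lit 0)) (P (nat_lit 22294549504640))))))) (T.h (T.h (T.h (P (nat_lit 0)) (T.h (M (nat_lit 41905726175429229805567)) (T.h (P (nat_lit 0)) (P (nat_lit 33222815373590528))))) (T.h (P (nat_lit 0)) (T.h (T.h (P (nat_lit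 0)) (M (nat_lit 50639647774375935))) (P (nat_lit 0))))) (T.h (T.h (P (nat_lit 0)) (T.h (T.h (P (nat_lit 132497166626126299136)) (T.h (P (nat_lit 0)) (P (nat_lit 34116370026496)))) (T.h (P (nat_lit 0)) (M (nat_lit 20259293530943))))) (T.h (T.h (T.h (P (nat_lit 0)) (M (nat_lit 88632905097215999))) (P (nat_lit 0))) (T.h (T.h (P (nat_lit 0)) (P (nat_lit 49546857328576))) (P (nat_lit 0)))))))), (T.h (T.h (T.h (P (nat_lit 2965995001898959740632314150912)) (T.h (P (nat_lit 0)) (T.h (M (nat_lit 5139392947130120844345343)) (T.h (P (nat_lit 0)) (M (nat_lit 36995800222106910719)))))) (T.h (P (nat_lit 0)) (T.h (T.h (M (nat_lit 5139392947130120844345343)) (T.h (P (nat_lit 0)) (P (nat_lit 74560750045622173696)))) (T.h (P (nat_lit 0)) (M (nat_lit 36995800222106910719)))))) (T.h (T.h (P (nat_lit 0)) (T.h (T.h (P (nat_lit 0)) (T.h (M (nat_lit 46242827737220222287871)) (T.h (P (nat_lit 0)) (M (nat_lit 5372423414317055))))) (T.h (P (nat_lit 0)) (T.h (T.h (P (nat_lit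 0)) (M (nat_lit 5372423414317055))) (P (nat_lit 0)))))) (T.h (T.h (T.h (M (nat_lit 40921446729443515786330111)) (T.h (P (nat_lit 0)) (M (nat_lit 5754790540310740991)))) (T.h (P (nat_lit 0)) (M (nat_lit 5754790540310740991)))) (T.h (T.h (P (nat_lit 0)) (T.h (T.h (P (nat_lit 0)) (P (nat_lit 25597827883728896))) (P (nat_lit 0)))) (M (nat_lit 61716191199897845759)))))), (P (nat_lit 0)), (P (nat_lit 0)), (T.h (T.h (P (nat_lit 0)) (T.h (T.h (M (nat_lit 11197592873447516954182025215)) (T.h (P (nat_lit 0)) (T.h (M (nat_lit 2718646849926705709055)) (T.h (P (nat_lit 0)) (M (nat_lit 12712655784902655)))))) (T.h (P (nat_lit 0)) (T.h (T.h (P (nat_lit 34347226040025118408704)) (T.h (P (nat_lit 0)) (P (nat_lit 8592079034286080)))) (T.h (P (nat_lit 0)) (P (nat_lit 2365312111607808))))))) (T.h (T.h (T.h (P (nat_lit 0)) (T.h (P (nat_lit 59548467549861302497181696)) (T.h (P (nat_lit 0)) (T.h (P (nat_lit 69442730501917900800)) (T.h (P (nat_lit 0)) (P (nat_lit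 3142430723008))))))) (T.h (P (nat_lit 0)) (T.h (T.h (P (nat_lit 0)) (T.h (M (nat_lit 79800601318839549951)) (T.h (P (nat_lit 0)) (M (nat_lit 26088908991423))))) (T.h (P (nat_lit 0)) (T.h (T.h (P (nat_lit 0)) (M (nat_lit 34853027095999))) (P (nat_lit 0))))))) (T.h (T.h (P (nat_lit 0)) (T.h (T.h (M (nat_lit 61844520787591288586239)) (T.h (P (nat_lit 0)) (P (nat_lit 16416114176000000)))) (T.h (P (nat_lit 0)) (P (nat_lit 12520311840047104))))) (T.h (T.h (T.h (P (nat_lit 0)) (T.h (M (nat_lit 49584501972440973311)) (T.h (P (nat_lit 0)) (P (nat_lit 14712885554880))))) (T.h (P (nat_lit 0)) (T.h (T.h (P (nat_lit 0)) (P (nat_lit 23937205427904))) (P (nat_lit 0))))) (T.h (T.h (P (nat_lit 0)) (P (nat_lit 29810411964465152))) (T.h (T.h (T.h (P (nat_lit 0)) (M (nat_lit 18903779491263))) (P (nat_lit 0))) (P (nat_lit 0)))))))), (T.h (T.h (P (nat_lit 0)) (T.h (T.h (P (nat_lit 0)) (T.h (P (nat_lit 3808010078810433310949376)) (T.h (P (nat_lit 0)) (P (nat_lit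 39699916217686949888))))) (T.h (P (nat_lit 0)) (T.h (T.h (P (nat_lit 0)) (M (nat_lit 7228349994594467839))) (P (nat_lit 0)))))) (T.h (T.h (T.h (M (nat_lit 7898869424295032560457613311)) (T.h (P (nat_lit 0)) (T.h (M (nat_lit 66894456594855284965375)) (T.h (P (nat_lit 0)) (M (nat_lit 17205814889070591)))))) (T.h (P (nat_lit 0)) (T.h (T.h (P (nat_lit 20518604022785385693184)) (T.h (P (nat_lit 0)) (P (nat_lit 4558212600184832)))) (T.h (P (nat_lit 0)) (P (nat_lit 37244374366273536)))))) (T.h (T.h (P (nat_lit 0)) (T.h (T.h (P (nat_lit 0)) (M (nat_lit 47737917958413877247))) (P (nat_lit 0)))) (T.h (T.h (T.h (P (nat_lit 25619508905965531430912)) (T.h (P (nat_lit 0)) (P (nat_lit 34505731325050880)))) (T.h (P (nat_lit 0)) (P (nat_lit 25828239031599104)))) (T.h (P (nat_lit 0)) (P (nat_lit 5990357490696192))))))), (P (nat_lit 0))]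
def lQp_26 : List (T ℤ) := [(P (nat_lit 0)), (T.h (T.h (T.h (M (nat_lit 1566566538292661711704453808127)) (T.h (P (nat_lit 0)) (T.h (M (nat_lit 3329637082376392511848447)) (T.h (P (nat_lit 0)) (M (nat_lit 3580613197985480703)))))) (T.h (P (nat_lit 0)) (T.h (T.h (P (nat_lit 9732647539352031790628864)) (T.h (P (nat_lit 0)) (M (nat_lit 3306482805604614143)))) (T.h (P (nat_lit 0)) (P (nat_lit 16297031267554164736)))))) (T.h (T.h (P (nat_lit 0)) (T.h (T.h (P (nat_lit 0)) (T.h (M (nat_lit 26663661396517474795519)) (T.h (P (nat_lit 0)) (M (nat_lit 26715042807218175))))) (T.h (P (nat_lit 0)) (T.h (T.h (P (nat_lit 0)) (M (nat_lit 23433650567217151))) (P (nat_lit 0)))))) (T.h (T.h (T.h (P (nat_lit 9732647539352031790628864)) (T.h (P (nat_lit 0)) (M (nat_lit 3306482805604614143)))) (T.h (P (nat_lit 0)) (P (nat_lit 2048803517447012352)))) (T.h (T.h (P (nat_lit 0)) (T.h (T.h (P (nat_lit 0)) (M (nat_lit 23433650567217151))) (P (nat_lit 0)))) (P (nat_lit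 16297031267554164736)))))), (P (nat_lit 0)), (P (nat_lit 0)), (P (nat_lit 0)), (P (nat_lit 0)), (P (nat_lit 0)), (T.h (T.h (P (nat_lit 0)) (T.h (T.h (P (nat_lit 0)) (T.h (P (nat_lit 2059946901904829097967616)) (T.h (P (nat_lit 0)) (T.h (M (nat_lit 14029646457506627583)) (T.h (P (nat_lit 0)) (P (nat_lit 1884415318088))))))) (T.h (P (nat_lit 0)) (T.h (T.h (P (nat_lit 0)) (T.h (M (nat_lit 14029646457506627583)) (T.h (P (nat_lit 0)) (P (nat_lit 2061010941808))))) (T.h (P (nat_lit 0)) (T.h (T.h (P (nat_lit 0)) (P (nat_lit 1884415318088))) (P (nat_lit 0)))))))) (T.h (T.h (T.h (M (nat_lit 9182275218262489025208123391)) (T.h (P (nat_lit 0)) (T.h (M (nat_lit 13613235312272529686527)) (T.h (P (nat_lit 0)) (M (nat_lit 7111101373186047)))))) (T.h (P (nat_lit 0)) (T.h (T.h (M (nat_lit 13613235312272529686527)) (T.h (P (nat_lit 0)) (P (nat_lit 8622493221978112)))) (T.h (P (nat_lit 0)) (M (nat_lit 7111101373186047)))))) (T.h (T.h (P (nat_lit 0)) (T.h (T.h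 (P (nat_lit 0)) (T.h (M (nat_lit 4201936957627957247)) (T.h (P (nat_lit 0)) (P (nat_lit 1791893248488))))) (T.h (P (nat_lit 0)) (T.h (T.h (P (nat_lit 0)) (P (nat_lit 1791893248488))) (P (nat_lit 0)))))) (T.h (T.h (T.h (M (nat_lit 8298625833979166588927)) (T.h (P (nat_lit 0)) (M (nat_lit 8116801292140543)))) (T.h (P (nat_lit 0)) (M (nat_lit 8116801292140543)))) (T.h (T.h (P (nat_lit 0)) (T.h (T.h (P (nat_lit 0)) (M (nat_lit 1985198807423))) (P (nat_lit 0)))) (M (nat_lit 5191557644550143)))))))]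
def lQp_27 : List (T ℤ) := [(T.h (T.h (P (nat_lit 0)) (T.h (T.h (P (nat_lit 2360562084221628585116434432)) (T.h (P (nat_lit 0)) (T.h (M (nat_lit 16419398998575345041407)) (T.h (P (nat_lit 0)) (M (nat_lit 9768375870799871)))))) (T.h (P (nat_lit 0)) (T.h (T.h (P (nat_lit 714074767542896820224)) (T.h (P (nat_lit 0)) (M (nat_lit 16069643455397887)))) (T.h (P (nat_lit 0)) (P (nat_lit 2440102765346816))))))) (T.h (T.h (T.h (P (nat_lit 0)) (T.h (M (nat_lit 31405758993128649400516607)) (T.h (P (nat_lit 0)) (T.h (M (nat_lit 9023796676699095039)) (T.h (P (nat_lit 0)) (M (nat_lit 476646617775))))))) (T.h (P (nat_lit 0)) (T.h (T.h (P (nat_lit 0)) (T.h (M (nat_lit 40257835677308157951)) (T.h (P (nat_lit 0)) (P (nat_lit 3403801104368))))) (T.h (P (nat_lit 0)) (T.h (T.h (P (nat_lit 0)) (M (nat_lit 170731117199))) (P (nat_lit 0))))))) (T.h (T.h (P (nat_lit 0)) (T.h (T.h (P (nat_lit 36617258594338403778560)) (T.h (P (nat_lit 0)) (M (nat_lit 49521916416786431))))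 (T.h (P (nat_lit 0)) (P (nat_lit 20260117991833600))))) (T.h (T.h (T.h (P (nat_lit 0)) (T.h (P (nat_lit 521119890724093952)) (T.h (P (nat_lit 0)) (M (nat_lit 267617463791))))) (T.h (P (nat_lit 0)) (T.h (T.h (P (nat_lit 0)) (P (nat_lit 8038665908672))) (P (nat_lit 0))))) (T.h (T.h (P (nat_lit 0)) (M (nat_lit 5663859304693759))) (T.h (T.h (T.h (P (nat_lit 0)) (P (nat_lit 11875290719936))) (P (nat_lit 0))) (P (nat_lit 0)))))))), (T.h (T.h (P (nat_lit 0)) (T.h (T.h (P (nat_lit 0)) (T.h (P (nat_lit 12881852499707145018671104)) (T.h (P (nat_lit 0)) (T.h (M (nat_lit 14576600026559021055)) (T.h (P (nat_lit 0)) (M (nat_lit 6811509066239))))))) (T.h (P (nat_lit 0)) (T.h (T.h (P (nat_lit 0)) (T.h (P (nat_lit 20160226170429767680)) (T.h (P (nat_lit 0)) (P (nat_lit 10628497852864))))) (T.h (P (nat_lit 0)) (T.h (T.h (P (nat_lit 0)) (M (nat_lit 12219471662591))) (P (nat_lit 0)))))))) (T.h (T.h (T.h (M (nat_lit 2008280231544279771887173631)) (T.h (P (nat_lit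 0)) (T.h (M (nat_lit 7794080975053129777151)) (T.h (P (nat_lit 0)) (P (nat_lit 46267264956661760)))))) (T.h (P (nat_lit 0)) (T.h (T.h (M (nat_lit 20491663626153897230335)) (T.h (P (nat_lit 0)) (P (nat_lit 12039428486430720)))) (T.h (P (nat_lit 0)) (M (nat_lit 12549948312485887)))))) (T.h (T.h (P (nat_lit 0)) (T.h (T.h (P (nat_lit 0)) (T.h (M (nat_lit 131690224174086750207)) (T.h (P (nat_lit 0)) (P (nat_lit 33470402026368))))) (T.h (P (nat_lit 0)) (T.h (T.h (P (nat_lit 0)) (P (nat_lit 42196455976256))) (P (nat_lit 0)))))) (T.h (T.h (T.h (M (nat_lit 14444565840120697061375)) (T.h (P (nat_lit 0)) (P (nat_lit 28585365344649216)))) (T.h (P (nat_lit 0)) (M (nat_lit 17118034321866751)))) (T.h (T.h (P (nat_lit 0)) (T.h (T.h (P (nat_lit 0)) (M (nat_lit 1504335511807))) (P (nat_lit 0)))) (P (nat_lit 2650552869519360))))))), (T.h (T.h (P (nat_lit 0)) (T.h (T.h (P (nat_lit 9444388680319584730748026880)) (T.h (P (nat_lit 0)) (T.h (M (nat_lit 4498893292917248491519))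 (T.h (P (nat_lit 0)) (M (nat_lit 17641106541363199)))))) (T.h (P (nat_lit 0)) (T.h (T.h (P (nat_lit 11887339130370524184576)) (T.h (P (nat_lit 0)) (P (nat_lit 1483925649195008)))) (T.h (P (nat_lit 0)) (M (nat_lit 2323722480533503))))))) (T.h (T.h (T.h (P (nat_lit 0)) (T.h (M (nat_lit 10198635777548292081057791)) (T.h (P (nat_lit 0)) (P (nat_lit 44064355139457122304))))) (T.h (P (nat_lit 0)) (T.h (T.h (P (nat_lit 0)) (P (nat_lit 9004690242220851200))) (P (nat_lit 0))))) (T.h (T.h (P (nat_lit 0)) (T.h (T.h (M (nat_lit 30742105541402773422079)) (T.h (P (nat_lit 0)) (P (nat_lit 44089042524880896)))) (T.h (P (nat_lit 0)) (P (nat_lit 22101788836069376))))) (T.h (T.h (T.h (P (nat_lit 0)) (P (nat_lit 10587787297082572800))) (P (nat_lit 0))) (T.h (T.h (P (nat_lit 0)) (M (nat_lit 24581947639840767))) (P (nat_lit 0))))))), (P (nat_lit 0)), (P (nat_lit 0)), (T.h (T.h (T.h (P (nat_lit 0)) (T.h (P (nat_lit 2360562084221628585116434432)) (T.h (P (nat_lit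 0)) (T.h (P (nat_lit 714074767542896820224)) (T.h (P (nat_lit 0)) (P (nat_lit 2440102765346816))))))) (T.h (P (nat_lit 0)) (T.h (T.h (P (nat_lit 0)) (T.h (M (nat_lit 16419398998575345041407)) (T.h (P (nat_lit 0)) (M (nat_lit 16069643455397887))))) (T.h (P (nat_lit 0)) (T.h (T.h (P (nat_lit 0)) (M (nat_lit 9768375870799871))) (P (nat_lit 0))))))) (T.h (T.h (P (nat_lit 0)) (T.h (T.h (M (nat_lit 31405758993128649400516607)) (T.h (P (nat_lit 0)) (T.h (M (nat_lit 40257835677308157951)) (T.h (P (nat_lit 0)) (M (nat_lit 170731117199)))))) (T.h (P (nat_lit 0)) (T.h (T.h (M (nat_lit 9023796676699095039)) (T.h (P (nat_lit 0)) (P (nat_lit 3403801104368)))) (T.h (P (nat_lit 0)) (M (nat_lit 476646617775))))))) (T.h (T.h (T.h (P (nat_lit 0)) (T.h (P (nat_lit 36617258594338403778560)) (T.h (P (nat_lit 0)) (P (nat_lit 20260117991833600))))) (T.h (P (nat_lit 0)) (T.h (T.h (P (nat_lit 0)) (M (nat_lit 49521916416786431))) (P (nat_lit 0))))) (T.h (T.h (P (nat_lit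 0)) (T.h (T.h (P (nat_lit 521119890724093952)) (T.h (P (nat_lit 0)) (P (nat_lit 8038665908672)))) (T.h (P (nat_lit 0)) (M (nat_lit 267617463791))))) (T.h (T.h (T.h (P (nat_lit 0)) (M (nat_lit 5663859304693759))) (P (nat_lit 0))) (T.h (T.h (P (nat_lit 0)) (P (nat_lit 11875290719936))) (P (nat_lit 0)))))))), (T.h (T.h (T.h (P (nat_lit 810696587689923214839151329280)) (T.h (P (nat_lit 0)) (T.h (M (nat_lit 4348825794826340325654527)) (T.h (P (nat_lit 0)) (T.h (P (nat_lit 18286102558000807936)) (T.h (P (nat_lit 0)) (M (nat_lit 5681656299647)))))))) (T.h (P (nat_lit 0)) (T.h (T.h (M (nat_lit 4348825794826340325654527)) (T.h (P (nat_lit 0)) (T.h (P (nat_lit 14829725398530523136)) (T.h (P (nat_lit 0)) (M (nat_lit 8021489520575)))))) (T.h (P (nat_lit 0)) (T.h (T.h (P (nat_lit 18286102558000807936)) (T.h (P (nat_lit 0)) (M (nat_lit 8021489520575)))) (T.h (P (nat_lit 0)) (M (nat_lit 5681656299647)))))))) (T.h (T.h (P (nat_lit 0)) (T.h (T.h (P (nat_lit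 0)) (T.h (P (nat_lit 110830120243148366020608)) (T.h (P (nat_lit 0)) (P (nat_lit 85688293725765632))))) (T.h (P (nat_lit 0)) (T.h (T.h (P (nat_lit 0)) (P (nat_lit 85688293725765632))) (P (nat_lit 0)))))) (T.h (T.h (T.h (P (nat_lit 17574285460876300923174912)) (T.h (P (nat_lit 0)) (T.h (M (nat_lit 39355329431113564159)) (T.h (P (nat_lit 0)) (P (nat_lit 13171983054464)))))) (T.h (P (nat_lit 0)) (T.h (T.h (M (nat_lit 39355329431113564159)) (T.h (P (nat_lit 0)) (P (nat_lit 40632614303616)))) (T.h (P (nat_lit 0)) (P (nat_lit 13171983054464)))))) (T.h (T.h (P (nat_lit 0)) (T.h (T.h (P (nat_lit 0)) (M (nat_lit 125348801092255743))) (P (nat_lit 0)))) (T.h (T.h (T.h (P (nat_lit 35803479291014938624)) (T.h (P (nat_lit 0)) (P (nat_lit 17856083280128)))) (T.h (P (nat_lit 0)) (P (nat_lit 17856083280128)))) (T.h (P (nat_lit 0)) (P (nat_lit 8960604330880)))))))), (T.h (T.h (T.h (P (nat_lit 0)) (T.h (M (nat_lit 3057717378853825663268290559)) (T.h (P (nat_lit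 0)) (T.h (M (nat_lit 1780258074724053024767)) (T.h (P (nat_lit 0)) (M (nat_lit 4763365724028927))))))) (T.h (P (nat_lit 0)) (T.h (T.h (P (nat_lit 0)) (T.h (M (nat_lit 8447562600720023683071)) (T.h (P (nat_lit 0)) (M (nat_lit 4163999934857215))))) (T.h (P (nat_lit 0)) (T.h (T.h (P (nat_lit 0)) (M (nat_lit 19241456788209663))) (P (nat_lit 0))))))) (T.h (T.h (P (nat_lit 0)) (T.h (T.h (P (nat_lit 12660772485101187447652352)) (T.h (P (nat_lit 0)) (P (nat_lit 45047154406338854912)))) (T.h (P (nat_lit 0)) (P (nat_lit 35855661794571845632))))) (T.h (T.h (T.h (P (nat_lit 0)) (T.h (P (nat_lit 34371714572181032665088)) (T.h (P (nat_lit 0)) (P (nat_lit 6497396134756352))))) (T.h (P (nat_lit 0)) (T.h (T.h (P (nat_lit 0)) (P (nat_lit 79412148893564928))) (P (nat_lit 0))))) (T.h (T.h (P (nat_lit 0)) (M (nat_lit 112093646349093830655))) (T.h (T.h (T.h (P (nat_lit 0)) (P (nat_lit 72177182128979968))) (P (nat_lit 0))) (P (nat_lit 0)))))))]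
def lQp_28 : List (T ℤ) := [(P (nat_lit 0)), (P (nat_lit 0)), (T.h (T.h (P (nat_lit 0)) (T.h (T.h (P (nat_lit 0)) (T.h (P (nat_lit 12881852499707145018671104)) (T.h (P (nat_lit 0)) (T.h (P (nat_lit 20160226170429767680)) (T.h (P (nat_lit 0)) (M (nat_lit 12219471662591))))))) (T.h (P (nat_lit 0)) (T.h (T.h (P (nat_lit 0)) (T.h (M (nat_lit 14576600026559021055)) (T.h (P (nat_lit 0)) (P (nat_lit 10628497852864))))) (T.h (P (nat_lit 0)) (T.h (T.h (P (nat_lit 0)) (M (nat_lit 6811509066239))) (P (nat_lit 0)))))))) (T.h (T.h (T.h (M (nat_lit 2008280231544279771887173631)) (T.h (P (nat_lit 0)) (T.h (M (nat_lit 20491663626153897230335)) (T.h (P (nat_lit 0)) (M (nat_lit 12549948312485887)))))) (T.h (P (nat_lit 0)) (T.h (T.h (M (nat_lit 7794080975053129777151)) (T.h (P (nat_lit 0)) (P (nat_lit 12039428486430720)))) (T.h (P (nat_lit 0)) (P (nat_lit 46267264956661760)))))) (T.h (T.h (P (nat_lit 0)) (T.h (T.h (P (nat_lit 0)) (T.h (M (nat_lit 131690224174086750207))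 (T.h (P (nat_lit 0)) (P (nat_lit 42196455976256))))) (T.h (P (nat_lit 0)) (T.h (T.h (P (nat_lit 0)) (P (nat_lit 33470402026368))) (P (nat_lit 0)))))) (T.h (T.h (T.h (M (nat_lit 14444565840120697061375)) (T.h (P (nat_lit 0)) (M (nat_lit 17118034321866751)))) (T.h (P (nat_lit 0)) (P (nat_lit 28585365344649216)))) (T.h (T.h (P (nat_lit 0)) (T.h (T.h (P (nat_lit 0)) (M (nat_lit 1504335511807))) (P (nat_lit 0)))) (P (nat_lit 2650552869519360))))))), (T.h (T.h (P (nat_lit 0)) (T.h (T.h (M (nat_lit 3057717378853825663268290559)) (T.h (P (nat_lit 0)) (T.h (M (nat_lit 8447562600720023683071)) (T.h (P (nat_lit 0)) (M (nat_lit 19241456788209663)))))) (T.h (P (nat_lit 0)) (T.h (T.h (M (nat_lit 1780258074724053024767)) (T.h (P (nat_lit 0)) (M (nat_lit 4163999934857215)))) (T.h (P (nat_lit 0)) (M (nat_lit 4763365724028927))))))) (T.h (T.h (T.h (P (nat_lit 0)) (T.h (P (nat_lit 12660772485101187447652352)) (T.h (P (nat_lit 0)) (P (nat_lit 35855661794571845632)))))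 (T.h (P (nat_lit 0)) (T.h (T.h (P (nat_lit 0)) (P (nat_lit 45047154406338854912))) (P (nat_lit 0))))) (T.h (T.h (P (nat_lit 0)) (T.h (T.h (P (nat_lit 34371714572181032665088)) (T.h (P (nat_lit 0)) (P (nat_lit 79412148893564928)))) (T.h (P (nat_lit 0)) (P (nat_lit 6497396134756352))))) (T.h (T.h (T.h (P (nat_lit 0)) (M (nat_lit 112093646349093830655))) (P (nat_lit 0))) (T.h (T.h (P (nat_lit 0)) (P (nat_lit 72177182128979968))) (P (nat_lit 0))))))), (P (nat_lit 0)), (P (nat_lit 0)), (T.h (T.h (T.h (P (nat_lit 0)) (T.h (P (nat_lit 9444388680319584730748026880)) (T.h (P (nat_lit 0)) (T.h (P (nat_lit 11887339130370524184576)) (T.h (P (nat_lit 0)) (M (nat_lit 2323722480533503))))))) (T.h (P (nat_lit 0)) (T.h (T.h (P (nat_lit 0)) (T.h (M (nat_lit 4498893292917248491519)) (T.h (P (nat_lit 0)) (P (nat_lit 1483925649195008))))) (T.h (P (nat_lit 0)) (T.h (T.h (P (nat_lit 0)) (M (nat_lit 17641106541363199))) (P (nat_lit 0))))))) (T.h (T.h (P (nat_lit 0))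 (T.h (T.h (M (nat_lit 10198635777548292081057791)) (T.h (P (nat_lit 0)) (P (nat_lit 9004690242220851200)))) (T.h (P (nat_lit 0)) (P (nat_lit 44064355139457122304))))) (T.h (T.h (T.h (P (nat_lit 0)) (T.h (M (nat_lit 30742105541402773422079)) (T.h (P (nat_lit 0)) (P (nat_lit 22101788836069376))))) (T.h (P (nat_lit 0)) (T.h (T.h (P (nat_lit 0)) (P (nat_lit 44089042524880896))) (P (nat_lit 0))))) (T.h (T.h (P (nat_lit 0)) (P (nat_lit 10587787297082572800))) (T.h (T.h (T.h (P (nat_lit 0)) (M (nat_lit 24581947639840767))) (P (nat_lit 0))) (P (nat_lit 0))))))), (P (nat_lit 0))]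
def lQp_29 : List (T ℤ) := [(P (nat_lit 0)), (P (nat_lit 0)), (P (nat_lit 0)), (P (nat_lit 0)), (T.h (T.h (T.h (M (nat_lit 7193110628990432326231317807103)) (T.h (P (nat_lit 0)) (T.h (M (nat_lit 3601865127594643054133247)) (T.h (P (nat_lit 0)) (T.h (P (nat_lit 1323694191909273600)) (T.h (P (nat_lit 0)) (M (nat_lit 2838909460015)))))))) (T.h (P (nat_lit 0)) (T.h (T.h (M (nat_lit 3601865127594643054133247)) (T.h (P (nat_lit 0)) (T.h (M (nat_lit 1791605768886157311)) (T.h (P (nat_lit 0)) (P (nat_lit 1714226929744)))))) (T.h (P (nat_lit 0)) (T.h (T.h (P (nat_lit 1323694191909273600)) (T.h (P (nat_lit 0)) (P (nat_lit 1714226929744)))) (T.h (P (nat_lit 0)) (M (nat_lit 2838909460015)))))))) (T.h (T.h (P (nat_lit 0)) (T.h (T.h (P (nat_lit 0)) (T.h (M (nat_lit 2705769387334379241471)) (T.h (P (nat_lit 0)) (M (nat_lit 5489541307727871))))) (T.h (P (nat_lit 0)) (T.h (T.h (P (nat_lit 0)) (M (nat_lit 5489541307727871))) (P (nat_lit 0)))))) (T.h (T.h (T.h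 (M (nat_lit 6992900219414241486045183)) (T.h (P (nat_lit 0)) (T.h (M (nat_lit 4679660363636015103)) (T.h (P (nat_lit 0)) (M (nat_lit 4410506974159)))))) (T.h (P (nat_lit 0)) (T.h (T.h (M (nat_lit 4679660363636015103)) (T.h (P (nat_lit 0)) (M (nat_lit 4950411610591)))) (T.h (P (nat_lit 0)) (M (nat_lit 4410506974159)))))) (T.h (T.h (P (nat_lit 0)) (T.h (T.h (P (nat_lit 0)) (M (nat_lit 10176654584184831))) (P (nat_lit 0)))) (T.h (T.h (T.h (P (nat_lit 1508552952724324352)) (T.h (P (nat_lit 0)) (M (nat_lit 3133739275967)))) (T.h (P (nat_lit 0)) (M (nat_lit 3133739275967)))) (T.h (P (nat_lit 0)) (P (nat_lit 3652989002656)))))))), (T.h (T.h (T.h (P (nat_lit 0)) (T.h (P (nat_lit 195617049460243153912070144)) (T.h (P (nat_lit 0)) (T.h (P (nat_lit 3964114439558481838080)) (T.h (P (nat_lit 0)) (P (nat_lit 2371883362058240))))))) (T.h (P (nat_lit 0)) (T.h (T.h (P (nat_lit 0)) (T.h (M (nat_lit 34533293653360430284799)) (T.h (P (nat_lit 0)) (M (nat_lit 1016721890443263)))))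 (T.h (P (nat_lit 0)) (T.h (T.h (P (nat_lit 0)) (M (nat_lit 14747082352263167))) (P (nat_lit 0))))))) (T.h (T.h (P (nat_lit 0)) (T.h (T.h (M (nat_lit 6781529803475308119064575)) (T.h (P (nat_lit 0)) (T.h (P (nat_lit 4653426674468126720)) (T.h (P (nat_lit 0)) (M (nat_lit 172857894207)))))) (T.h (P (nat_lit 0)) (T.h (T.h (M (nat_lit 6872914424030560255)) (T.h (P (nat_lit 0)) (M (nat_lit 2849003627327)))) (T.h (P (nat_lit 0)) (P (nat_lit 3374982287488))))))) (T.h (T.h (T.h (P (nat_lit 0)) (T.h (P (nat_lit 21307677140090005487616)) (T.h (P (nat_lit 0)) (P (nat_lit 4071089117626368))))) (T.h (P (nat_lit 0)) (T.h (T.h (P (nat_lit 0)) (P (nat_lit 24124768091635712))) (P (nat_lit 0))))) (T.h (T.h (P (nat_lit 0)) (T.h (T.h (M (nat_lit 41460708389026791423)) (T.h (P (nat_lit 0)) (P (nat_lit 19467609627968)))) (T.h (P (nat_lit 0)) (P (nat_lit 9250692809792))))) (T.h (T.h (T.h (P (nat_lit 0)) (P (nat_lit 12531652465655808))) (P (nat_lit 0))) (T.h (T.h (P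 (nat_lit 0)) (M (nat_lit 227061500351))) (P (nat_lit 0)))))))), (T.h (T.h (T.h (P (nat_lit 1410570906212094888288156909568)) (T.h (P (nat_lit 0)) (T.h (P (nat_lit 2713202957367080711618560)) (T.h (P (nat_lit 0)) (P (nat_lit 20438749490257592320)))))) (T.h (P (nat_lit 0)) (T.h (T.h (M (nat_lit 9092474658105973488484351)) (T.h (P (nat_lit 0)) (M (nat_lit 2049630866191155199)))) (T.h (P (nat_lit 0)) (M (nat_lit 6450639816894709759)))))) (T.h (T.h (P (nat_lit 0)) (T.h (T.h (P (nat_lit 0)) (T.h (M (nat_lit 25522296248950983753727)) (T.h (P (nat_lit 0)) (P (nat_lit 16959839353831424))))) (T.h (P (nat_lit 0)) (T.h (T.h (P (nat_lit 0)) (P (nat_lit 20145895602651136))) (P (nat_lit 0)))))) (T.h (T.h (T.h (M (nat_lit 736332230657898056777727)) (T.h (P (nat_lit 0)) (P (nat_lit 12443088561886986240)))) (T.h (P (nat_lit 0)) (M (nat_lit 9901124243519700991)))) (T.h (T.h (P (nat_lit 0)) (T.h (T.h (P (nat_lit 0)) (P (nat_lit 8426976565428224))) (P (nat_lit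 0)))) (P (nat_lit 8275653059435036672)))))), (P (nat_lit 0))]
def lQp_30 : List (T ℤ) := [(P (nat_lit 0)), (T.h (T.h (P (nat_lit 0)) (T.h (T.h (P (nat_lit 195617049460243153912070144)) (T.h (P (nat_lit 0)) (T.h (M (nat_lit 34533293653360430284799)) (T.h (P (nat_lit 0)) (M (nat_lit 14747082352263167)))))) (T.h (P (nat_lit 0)) (T.h (T.h (P (nat_lit 3964114439558481838080)) (T.h (P (nat_lit 0)) (M (nat_lit 1016721890443263)))) (T.h (P (nat_lit 0)) (P (nat_lit 2371883362058240))))))) (T.h (T.h (T.h (P (nat_lit 0)) (T.h (M (nat_lit 6781529803475308119064575)) (T.h (P (nat_lit 0)) (T.h (M (nat_lit 6872914424030560255)) (T.h (P (nat_lit 0)) (P (nat_lit 3374982287488))))))) (T.h (P (nat_lit 0)) (T.h (T.h (P (nat_lit 0)) (T.h (P (nat_lit 4653426674468126720)) (T.h (P (nat_lit 0)) (M (nat_lit 2849003627327))))) (T.h (P (nat_lit 0)) (T.h (T.h (P (nat_lit 0)) (M (nat_lit 172857894207))) (P (nat_lit 0))))))) (T.h (T.h (P (nat_lit 0)) (T.h (T.h (P (nat_lit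 21307677140090005487616)) (T.h (P (nat_lit 0)) (P (nat_lit 24124768091635712)))) (T.h (P (nat_lit 0)) (P (nat_lit 4071089117626368))))) (T.h (T.h (T.h (P (nat_lit 0)) (T.h (M (nat_lit 41460708389026791423)) (T.h (P (nat_lit 0)) (P (nat_lit 9250692809792))))) (T.h (P (nat_lit 0)) (T.h (T.h (P (nat_lit 0)) (P (nat_lit 19467609627968))) (P (nat_lit 0))))) (T.h (T.h (P (nat_lit 0)) (P (nat_lit 12531652465655808))) (T.h (T.h (T.h (P (nat_lit 0)) (M (nat_lit 227061500351))) (P (nat_lit 0))) (P (nat_lit 0)))))))), (T.h (T.h (P (nat_lit 0)) (T.h (T.h (P (nat_lit 0)) (T.h (M (nat_lit 4552137591189246866096127)) (T.h (P (nat_lit 0)) (P (nat_lit 3540785065044738048))))) (T.h (P (nat_lit 0)) (T.h (T.h (P (nat_lit 0)) (P (nat_lit 3540785065044738048))) (P (nat_lit 0)))))) (T.h (T.h (T.h (P (nat_lit 10791888917891311952700899328)) (T.h (P (nat_lit 0)) (T.h (M (nat_lit 39314200272193718321151)) (T.h (P (nat_lit 0)) (P (nat_lit 11019781030952960)))))) (T.h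 (P (nat_lit 0)) (T.h (T.h (M (nat_lit 39314200272193718321151)) (T.h (P (nat_lit 0)) (P (nat_lit 16427828951875584)))) (T.h (P (nat_lit 0)) (P (nat_lit 11019781030952960)))))) (T.h (T.h (P (nat_lit 0)) (T.h (T.h (P (nat_lit 0)) (M (nat_lit 60886120603446149119))) (P (nat_lit 0)))) (T.h (T.h (T.h (P (nat_lit 1626752472681682042880)) (T.h (P (nat_lit 0)) (P (nat_lit 30372869421531136)))) (T.h (P (nat_lit 0)) (P (nat_lit 30372869421531136)))) (T.h (P (nat_lit 0)) (P (nat_lit 13647232764051456))))))), (P (nat_lit 0)), (P (nat_lit 0)), (T.h (T.h (T.h (P (nat_lit 1410570906212094888288156909568)) (T.h (P (nat_lit 0)) (T.h (M (nat_lit 9092474658105973488484351)) (T.h (P (nat_lit 0)) (M (nat_lit 6450639816894709759)))))) (T.h (P (nat_lit 0)) (T.h (T.h (P (nat_lit 2713202957367080711618560)) (T.h (P (nat_lit 0)) (M (nat_lit 2049630866191155199)))) (T.h (P (nat_lit 0)) (P (nat_lit 20438749490257592320)))))) (T.h (T.h (P (nat_lit 0)) (T.h (T.h (P (nat_lit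 0)) (T.h (M (nat_lit 25522296248950983753727)) (T.h (P (nat_lit 0)) (P (nat_lit 20145895602651136))))) (T.h (P (nat_lit 0)) (T.h (T.h (P (nat_lit 0)) (P (nat_lit 16959839353831424))) (P (nat_lit 0)))))) (T.h (T.h (T.h (M (nat_lit 736332230657898056777727)) (T.h (P (nat_lit 0)) (M (nat_lit 9901124243519700991)))) (T.h (P (nat_lit 0)) (P (nat_lit 12443088561886986240)))) (T.h (T.h (P (nat_lit 0)) (T.h (T.h (P (nat_lit 0)) (P (nat_lit 8426976565428224))) (P (nat_lit 0)))) (P (nat_lit 8275653059435036672)))))), (P (nat_lit 0)), (P (nat_lit 0))]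
def lQp_31 : List (T ℤ) := [(P (nat_lit 0)), (P (nat_lit 0)), (P (nat_lit 0)), (T.h (T.h (P (nat_lit 0)) (T.h (T.h (P (nat_lit 0)) (T.h (M (nat_lit 1668403387351284754415615)) (T.h (P (nat_lit 0)) (T.h (P (nat_lit 14940403265748074496)) (T.h (P (nat_lit 0)) (M (nat_lit 1824467767871))))))) (T.h (P (nat_lit 0)) (T.h (T.h (P (nat_lit 0)) (T.h (P (nat_lit 14940403265748074496)) (T.h (P (nat_lit 0)) (M (nat_lit 4152252354943))))) (T.h (P (nat_lit 0)) (T.h (T.h (P (nat_lit 0)) (M (nat_lit 1824467767871))) (P (nat_lit 0)))))))) (T.h (T.h (T.h (P (nat_lit 9220441513304250013792075776)) (T.h (P (nat_lit 0)) (T.h (P (nat_lit 13527727843841541144576)) (T.h (P (nat_lit 0)) (P (nat_lit 4823750758957056)))))) (T.h (P (nat_lit 0)) (T.h (T.h (P (nat_lit 13527727843841541144576)) (T.h (P (nat_lit 0)) (P (nat_lit 66888005976064)))) (T.h (P (nat_lit 0)) (P (nat_lit 4823750758957056)))))) (T.h (T.h (P (nat_lit 0)) (T.h (T.h (P (nat_lit 0)) (T.h (P (nat_lit 10297903490323709952))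 (T.h (P (nat_lit 0)) (M (nat_lit 2928580113343))))) (T.h (P (nat_lit 0)) (T.h (T.h (P (nat_lit 0)) (M (nat_lit 2928580113343))) (P (nat_lit 0)))))) (T.h (T.h (T.h (P (nat_lit 8225243363614140661760)) (T.h (P (nat_lit 0)) (P (nat_lit 8002090367451136)))) (T.h (P (nat_lit 0)) (P (nat_lit 8002090367451136)))) (T.h (T.h (P (nat_lit 0)) (T.h (T.h (P (nat_lit 0)) (P (nat_lit 3962973290624))) (P (nat_lit 0)))) (P (nat_lit 5183491122266112))))))), (T.h (T.h (P (nat_lit 0)) (T.h (T.h (M (nat_lit 3402341988066177641621749759)) (T.h (P (nat_lit 0)) (T.h (P (nat_lit 19467932748244439793664)) (T.h (P (nat_lit 0)) (M (nat_lit 2379570363793407)))))) (T.h (P (nat_lit 0)) (T.h (T.h (M (nat_lit 311281724839209992191)) (T.h (P (nat_lit 0)) (M (nat_lit 3918274737192959)))) (T.h (P (nat_lit 0)) (P (nat_lit 396931717021696))))))) (T.h (T.h (T.h (P (nat_lit 0)) (T.h (P (nat_lit 17043484856467139858530304)) (T.h (P (nat_lit 0)) (P (nat_lit 12429613524915847168)))))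 (T.h (P (nat_lit 0)) (T.h (T.h (P (nat_lit 0)) (P (nat_lit 11739852891748302848))) (P (nat_lit 0))))) (T.h (T.h (P (nat_lit 0)) (T.h (T.h (M (nat_lit 22557465762590185488383)) (T.h (P (nat_lit 0)) (P (nat_lit 12701974667231232)))) (T.h (P (nat_lit 0)) (P (nat_lit 6354815568904192))))) (T.h (T.h (T.h (P (nat_lit 0)) (P (nat_lit 2896091241655566336))) (P (nat_lit 0))) (T.h (T.h (P (nat_lit 0)) (P (nat_lit 723882441949184))) (P (nat_lit 0))))))), (P (nat_lit 0)), (P (nat_lit 0)), (T.h (T.h (T.h (P (nat_lit 0)) (T.h (M (nat_lit 3402341988066177641621749759)) (T.h (P (nat_lit 0)) (T.h (M (nat_lit 311281724839209992191)) (T.h (P (nat_lit 0)) (P (nat_lit 396931717021696))))))) (T.h (P (nat_lit 0)) (T.h (T.h (P (nat_lit 0)) (T.h (P (nat_lit 19467932748244439793664)) (T.h (P (nat_lit 0)) (M (nat_lit 3918274737192959))))) (T.h (P (nat_lit 0)) (T.h (T.h (P (nat_lit 0)) (M (nat_lit 2379570363793407))) (P (nat_lit 0))))))) (T.h (T.h (P (nat_lit 0)) (T.h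 (T.h (P (nat_lit 17043484856467139858530304)) (T.h (P (nat_lit 0)) (P (nat_lit 11739852891748302848)))) (T.h (P (nat_lit 0)) (P (nat_lit 12429613524915847168))))) (T.h (T.h (T.h (P (nat_lit 0)) (T.h (M (nat_lit 22557465762590185488383)) (T.h (P (nat_lit 0)) (P (nat_lit 6354815568904192))))) (T.h (P (nat_lit 0)) (T.h (T.h (P (nat_lit 0)) (P (nat_lit 12701974667231232))) (P (nat_lit 0))))) (T.h (T.h (P (nat_lit 0)) (P (nat_lit 2896091241655566336))) (T.h (T.h (T.h (P (nat_lit 0)) (P (nat_lit 723882441949184))) (P (nat_lit 0))) (P (nat_lit 0)))))))]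
def lQp_32 : List (T ℤ) := [(P (nat_lit 0)), (P (nat_lit 0)), (P (nat_lit 0)), (P (nat_lit 0)), (P (nat_lit 0)), (T.h (T.h (T.h (P (nat_lit 2330416154883494020266051239936)) (T.h (P (nat_lit 0)) (T.h (P (nat_lit 2720637866675313557110784)) (T.h (P (nat_lit 0)) (P (nat_lit 1895559017283977216)))))) (T.h (P (nat_lit 0)) (T.h (T.h (P (nat_lit 2720637866675313557110784)) (T.h (P (nat_lit 0)) (P (nat_lit 758678015956746240)))) (T.h (P (nat_lit 0)) (P (nat_lit 1895559017283977216)))))) (T.h (T.h (P (nat_lit 0)) (T.h (T.h (P (nat_lit 0)) (T.h (P (nat_lit 7531325478474476421120)) (T.h (P (nat_lit 0)) (M (nat_lit 1499433018032127))))) (T.h (P (nat_lit 0)) (T.h (T.h (P (nat_lit 0)) (M (nat_lit 1499433018032127))) (P (nat_lit 0)))))) (T.h (T.h (T.h (P (nat_lit 7464748788017715864403968)) (T.h (P (nat_lit 0)) (P (nat_lit 8962145797948833792)))) (T.h (P (nat_lit 0)) (P (nat_lit 8962145797948833792)))) (T.h (T.h (P (nat_lit 0)) (T.h (T.h (P (nat_lit 0))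 (P (nat_lit 4058084649598976))) (P (nat_lit 0)))) (M (nat_lit 1573209784461557759)))))), (P (nat_lit 0)), (P (nat_lit 0))]
def lQp_33 : List (T ℤ) := [(P (nat_lit 0)), (P (nat_lit 0)), (P (nat_lit 0)), (P (nat_lit 0)), (P (nat_lit 0)), (P (nat_lit 0)), (P (nat_lit 0))]

def CQp : List (T ℤ) := lQp_0 ++ (lQp_1 ++ (lQp_2 ++ (lQp_3 ++ (lQp_4 ++ (lQp_5 ++ (lQp_6 ++ (lQp_7 ++ (lQp_8 ++ (lQp_9 ++ (lQp_10 ++ (lQp_11 ++ (lQp_12 ++ (lQp_13 ++ (lQp_14 ++ (lQp_15 ++ (lQp_16 ++ (lQp_17 ++ (lQp_18 ++ (lQp_19 ++ (lQp_20 ++ (lQp_21 ++ (lQp_22 ++ (lQp_23 ++ (lQp_24 ++ (lQp_25 ++ (lQp_26 ++ (lQp_27 ++ (lQp_28 ++ (lQp_29 ++ (lQp_30 ++ (lQp_31 ++ (lQp_32 ++ (lQp_33)))))))))))))))))))))))))))))))))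

/-- norms at radius 1536 -/
def NQp : List ℕ := [(nat_lit 5034231565398356583608483840000), (nat_lit 0), (nat_lit 411411046674264767696847352365056), (nat_lit 855471177552593034864939522588672), (nat_lit 747293992126139255064717644791808), (nat_lit 865216143138586818964045701316608), (nat_lit 254261625275541648269989904384000), (nat_lit 0), (nat_lit 0), (nat_lit 0), (nat_lit 953227998367009259849341112156160), (nat_lit 2162550046895234280594430287151104), (nat_lit 1754779766168797983941400333385728), (nat_lit 1495367229727544144320194215411712), (nat_lit 575873884669591678851402210213888), (nat_lit 0), (nat_lit 0), (nat_lit 0), (nat_lit 2226587653407480050283849562718208), (nat_lit 2401266870147753367817517470318592), (nat_lit 3699744527803195433053180489891840), (nat_lit 3536885902701121144461379479011328), (nat_lit 844307570411493033698848254459904), (nat_lit 0), (nat_lit 0), (nat_lit 953227998367009259849341112156160), (nat_lit 2401266870147753367817517470318592),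 (nat_lit 2710293934925186653407954195185664), (nat_lit 3924923957959926975011053734199296), (nat_lit 1523159102365283540589368190173184), (nat_lit 0), (nat_lit 0), (nat_lit 411411046674264767696847352365056), (nat_lit 2162550046895234280594430287151104), (nat_lit 3699744527803195433053180489891840), (nat_lit 3924923957959926975011053734199296), (nat_lit 1030659033753610179230285934100480), (nat_lit 0), (nat_lit 0), (nat_lit 855471177552593034864939522588672), (nat_lit 1754779766168797983941400333385728), (nat_lit 3536885902701121144461379479011328), (nat_lit 1523159102365283540589368190173184), (nat_lit 0), (nat_lit 0), (nat_lit 747293992126139255064717644791808), (nat_lit 1495367229727544144320194215411712), (nat_lit 844307570411493033698848254459904), (nat_lit 0), (nat_lit 0), (nat_lit 865216143138586818964045701316608), (nat_lit 575873884669591678851402210213888), (nat_lit 0), (nat_lit 0), (nat_lit 254261625275541648269989904384000), (nat_lit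 0), (nat_lit 0), (nat_lit 0), (nat_lit 0), (nat_lit 0), (nat_lit 953227998367009259849341112156160), (nat_lit 2162550046895234280594430287151104), (nat_lit 1754779766168797983941400333385728), (nat_lit 1495367229727544144320194215411712), (nat_lit 575873884669591678851402210213888), (nat_lit 0), (nat_lit 0), (nat_lit 776813729102413189154646075113472), (nat_lit 1823817998429390966890567248642048), (nat_lit 2198583766922067955996059255177216), (nat_lit 5751054969335695826448615687061504), (nat_lit 1661411954141767186527260705292288), (nat_lit 0), (nat_lit 0), (nat_lit 776813729102413189154646075113472), (nat_lit 2948837816074405058125102860730368), (nat_lit 5179027239329230816151031464853504), (nat_lit 6124716753607406635119591227916288), (nat_lit 2862910505307994813264819101106176), (nat_lit 0), (nat_lit 0), (nat_lit 953227998367009259849341112156160), (nat_lit 1823817998429390966890567248642048), (nat_lit 5179027239329230816151031464853504),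 (nat_lit 9382495507087516542305918219452416), (nat_lit 2029241539833486410631108007821312), (nat_lit 0), (nat_lit 0), (nat_lit 2162550046895234280594430287151104), (nat_lit 2198583766922067955996059255177216), (nat_lit 6124716753607406635119591227916288), (nat_lit 2029241539833486410631108007821312), (nat_lit 0), (nat_lit 0), (nat_lit 1754779766168797983941400333385728), (nat_lit 5751054969335695826448615687061504), (nat_lit 2862910505307994813264819101106176), (nat_lit 0), (nat_lit 0), (nat_lit 1495367229727544144320194215411712), (nat_lit 1661411954141767186527260705292288), (nat_lit 0), (nat_lit 0), (nat_lit 575873884669591678851402210213888), (nat_lit 0), (nat_lit 0), (nat_lit 0), (nat_lit 0), (nat_lit 0), (nat_lit 0), (nat_lit 2226587653407480050283849562718208), (nat_lit 2401266870147753367817517470318592), (nat_lit 3699744527803195433053180489891840), (nat_lit 3536885902701121144461379479011328), (nat_lit 844307570411493033698848254459904),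 (nat_lit 0), (nat_lit 0), (nat_lit 776813729102413189154646075113472), (nat_lit 2948837816074405058125102860730368), (nat_lit 5179027239329230816151031464853504), (nat_lit 6124716753607406635119591227916288), (nat_lit 2862910505307994813264819101106176), (nat_lit 0), (nat_lit 0), (nat_lit 2226587653407480050283849562718208), (nat_lit 2948837816074405058125102860730368), (nat_lit 5960162126640245847167396392992768), (nat_lit 6627535802458738277977864777236480), (nat_lit 1836542183987345052498578460639232), (nat_lit 0), (nat_lit 0), (nat_lit 2401266870147753367817517470318592), (nat_lit 5179027239329230816151031464853504), (nat_lit 6627535802458738277977864777236480), (nat_lit 2573018518255440831752638600052736), (nat_lit 0), (nat_lit 0), (nat_lit 3699744527803195433053180489891840), (nat_lit 6124716753607406635119591227916288), (nat_lit 1836542183987345052498578460639232), (nat_lit 0), (nat_lit 0), (nat_lit 3536885902701121144461379479011328),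 (nat_lit 2862910505307994813264819101106176), (nat_lit 0), (nat_lit 0), (nat_lit 844307570411493033698848254459904), (nat_lit 0), (nat_lit 0), (nat_lit 0), (nat_lit 0), (nat_lit 0), (nat_lit 953227998367009259849341112156160), (nat_lit 2401266870147753367817517470318592), (nat_lit 2710293934925186653407954195185664), (nat_lit 3924923957959926975011053734199296), (nat_lit 1523159102365283540589368190173184), (nat_lit 0), (nat_lit 0), (nat_lit 953227998367009259849341112156160), (nat_lit 1823817998429390966890567248642048), (nat_lit 5179027239329230816151031464853504), (nat_lit 9382495507087516542305918219452416), (nat_lit 2029241539833486410631108007821312), (nat_lit 0), (nat_lit 0), (nat_lit 2401266870147753367817517470318592), (nat_lit 5179027239329230816151031464853504), (nat_lit 6627535802458738277977864777236480), (nat_lit 2573018518255440831752638600052736), (nat_lit 0), (nat_lit 0), (nat_lit 2710293934925186653407954195185664), (nat_lit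 9382495507087516542305918219452416), (nat_lit 2573018518255440831752638600052736), (nat_lit 0), (nat_lit 0), (nat_lit 3924923957959926975011053734199296), (nat_lit 2029241539833486410631108007821312), (nat_lit 0), (nat_lit 0), (nat_lit 1523159102365283540589368190173184), (nat_lit 0), (nat_lit 0), (nat_lit 0), (nat_lit 0), (nat_lit 0), (nat_lit 411411046674264767696847352365056), (nat_lit 2162550046895234280594430287151104), (nat_lit 3699744527803195433053180489891840), (nat_lit 3924923957959926975011053734199296), (nat_lit 1030659033753610179230285934100480), (nat_lit 0), (nat_lit 0), (nat_lit 2162550046895234280594430287151104), (nat_lit 2198583766922067955996059255177216), (nat_lit 6124716753607406635119591227916288), (nat_lit 2029241539833486410631108007821312), (nat_lit 0), (nat_lit 0), (nat_lit 3699744527803195433053180489891840), (nat_lit 6124716753607406635119591227916288), (nat_lit 1836542183987345052498578460639232), (nat_lit 0),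 (nat_lit 0), (nat_lit 3924923957959926975011053734199296), (nat_lit 2029241539833486410631108007821312), (nat_lit 0), (nat_lit 0), (nat_lit 1030659033753610179230285934100480), (nat_lit 0), (nat_lit 0), (nat_lit 0), (nat_lit 0), (nat_lit 0), (nat_lit 855471177552593034864939522588672), (nat_lit 1754779766168797983941400333385728), (nat_lit 3536885902701121144461379479011328), (nat_lit 1523159102365283540589368190173184), (nat_lit 0), (nat_lit 0), (nat_lit 1754779766168797983941400333385728), (nat_lit 5751054969335695826448615687061504), (nat_lit 2862910505307994813264819101106176), (nat_lit 0), (nat_lit 0), (nat_lit 3536885902701121144461379479011328), (nat_lit 2862910505307994813264819101106176), (nat_lit 0), (nat_lit 0), (nat_lit 1523159102365283540589368190173184), (nat_lit 0), (nat_lit 0), (nat_lit 0), (nat_lit 0), (nat_lit 0), (nat_lit 747293992126139255064717644791808), (nat_lit 1495367229727544144320194215411712), (nat_lit 844307570411493033698848254459904),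 (nat_lit 0), (nat_lit 0), (nat_lit 1495367229727544144320194215411712), (nat_lit 1661411954141767186527260705292288), (nat_lit 0), (nat_lit 0), (nat_lit 844307570411493033698848254459904), (nat_lit 0), (nat_lit 0), (nat_lit 0), (nat_lit 0), (nat_lit 0), (nat_lit 865216143138586818964045701316608), (nat_lit 575873884669591678851402210213888), (nat_lit 0), (nat_lit 0), (nat_lit 575873884669591678851402210213888), (nat_lit 0), (nat_lit 0), (nat_lit 0), (nat_lit 0), (nat_lit 0), (nat_lit 254261625275541648269989904384000), (nat_lit 0), (nat_lit 0), (nat_lit 0), (nat_lit 0), (nat_lit 0), (nat_lit 0), (nat_lit 0), (nat_lit 0), (nat_lit 0)]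


def lQm_0 : List (T ℤ) := [(P (nat_lit 5034231565398356583608483840000)), (P (nat_lit 0)), (T.h (T.h (T.h (M (nat_lit 169053768763270514532562239487)) (T.h (P (nat_lit 0)) (T.h (M (nat_lit 86023058324020239794175)) (T.h (P (nat_lit 0)) (T.h (P (nat_lit 544121181330997248)) (T.h (P (nat_lit 0)) (M (nat_lit 1570308029599)))))))) (T.h (P (nat_lit 0)) (T.h (T.h (P (nat_lit 1217783071519776866041856)) (T.h (P (nat_lit 0)) (T.h (M (nat_lit 2804189857717420031)) (T.h (P (nat_lit 0)) (P (nat_lit 1796611202864)))))) (T.h (P (nat_lit 0)) (T.h (T.h (M (nat_lit 2581556048120774655)) (T.h (P (nat_lit 0)) (P (nat_lit 2363898821680)))) (T.h (P (nat_lit 0)) (P (nat_lit 2889973006256)))))))) (T.h (T.h (P (nat_lit 0)) (T.h (T.h (P (nat_lit 0)) (T.h (M (nat_lit 1587471070678617161727)) (T.h (P (nat_lit 0)) (P (nat_lit 2147752284127232))))) (T.h (P (nat_lit 0)) (T.h (T.h (P (nat_lit 0)) (P (nat_lit 3737556218937344))) (P (nat_lit 0)))))) (T.h (T.h (T.h (P (nat_lit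 1217783071519776866041856)) (T.h (P (nat_lit 0)) (T.h (M (nat_lit 2804189857717420031)) (T.h (P (nat_lit 0)) (P (nat_lit 1796611202864)))))) (T.h (P (nat_lit 0)) (T.h (T.h (M (nat_lit 580103659812028415)) (T.h (P (nat_lit 0)) (P (nat_lit 2120391294816)))) (T.h (P (nat_lit 0)) (M (nat_lit 662576913727)))))) (T.h (T.h (P (nat_lit 0)) (T.h (T.h (P (nat_lit 0)) (P (nat_lit 3737556218937344))) (P (nat_lit 0)))) (T.h (T.h (T.h (M (nat_lit 2581556048120774655)) (T.h (P (nat_lit 0)) (P (nat_lit 2363898821680)))) (T.h (P (nat_lit 0)) (M (nat_lit 662576913727)))) (T.h (P (nat_lit 0)) (P (nat_lit 2889973006256)))))))), (T.h (T.h (T.h (P (nat_lit 0)) (T.h (P (nat_lit 9182275218262489025208123392)) (T.h (P (nat_lit 0)) (T.h (P (nat_lit 8298625833979166588928)) (T.h (P (nat_lit 0)) (P (nat_lit 5191557644550144))))))) (T.h (P (nat_lit 0)) (T.h (T.h (P (nat_lit 0)) (T.h (P (nat_lit 13613235312272529686528)) (T.h (P (nat_lit 0)) (P (nat_lit 8116801292140544)))))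 (T.h (P (nat_lit 0)) (T.h (T.h (P (nat_lit 0)) (P (nat_lit 7111101373186048))) (P (nat_lit 0))))))) (T.h (T.h (P (nat_lit 0)) (T.h (T.h (M (nat_lit 2059946901904829097967615)) (T.h (P (nat_lit 0)) (T.h (P (nat_lit 4201936957627957248)) (T.h (P (nat_lit 0)) (P (nat_lit 1985198807424)))))) (T.h (P (nat_lit 0)) (T.h (T.h (P (nat_lit 14029646457506627584)) (T.h (P (nat_lit 0)) (M (nat_lit 1791893248487)))) (T.h (P (nat_lit 0)) (M (nat_lit 1884415318087))))))) (T.h (T.h (T.h (P (nat_lit 0)) (T.h (P (nat_lit 13613235312272529686528)) (T.h (P (nat_lit 0)) (P (nat_lit 8116801292140544))))) (T.h (P (nat_lit 0)) (T.h (T.h (P (nat_lit 0)) (M (nat_lit 8622493221978111))) (P (nat_lit 0))))) (T.h (T.h (P (nat_lit 0)) (T.h (T.h (P (nat_lit 14029646457506627584)) (T.h (P (nat_lit 0)) (M (nat_lit 1791893248487)))) (T.h (P (nat_lit 0)) (M (nat_lit 2061010941807))))) (T.h (T.h (T.h (P (nat_lit 0)) (P (nat_lit 7111101373186048))) (P (nat_lit 0))) (T.h (T.h (P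 (nat_lit 0)) (M (nat_lit 1884415318087))) (P (nat_lit 0)))))))), (T.h (T.h (T.h (M (nat_lit 7193110628990432326231317807103)) (T.h (P (nat_lit 0)) (T.h (M (nat_lit 6992900219414241486045183)) (T.h (P (nat_lit 0)) (T.h (P (nat_lit 1508552952724324352)) (T.h (P (nat_lit 0)) (P (nat_lit 3652989002656)))))))) (T.h (P (nat_lit 0)) (T.h (T.h (M (nat_lit 3601865127594643054133247)) (T.h (P (nat_lit 0)) (T.h (M (nat_lit 4679660363636015103)) (T.h (P (nat_lit 0)) (M (nat_lit 3133739275967)))))) (T.h (P (nat_lit 0)) (T.h (T.h (P (nat_lit 1323694191909273600)) (T.h (P (nat_lit 0)) (M (nat_lit 4410506974159)))) (T.h (P (nat_lit 0)) (M (nat_lit 2838909460015)))))))) (T.h (T.h (P (nat_lit 0)) (T.h (T.h (P (nat_lit 0)) (T.h (M (nat_lit 2705769387334379241471)) (T.h (P (nat_lit 0)) (M (nat_lit 10176654584184831))))) (T.h (P (nat_lit 0)) (T.h (T.h (P (nat_lit 0)) (M (nat_lit 5489541307727871))) (P (nat_lit 0)))))) (T.h (T.h (T.h (M (nat_lit 3601865127594643054133247))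 (T.h (P (nat_lit 0)) (T.h (M (nat_lit 4679660363636015103)) (T.h (P (nat_lit 0)) (M (nat_lit 3133739275967)))))) (T.h (P (nat_lit 0)) (T.h (T.h (M (nat_lit 1791605768886157311)) (T.h (P (nat_lit 0)) (M (nat_lit 4950411610591)))) (T.h (P (nat_lit 0)) (P (nat_lit 1714226929744)))))) (T.h (T.h (P (nat_lit 0)) (T.h (T.h (P (nat_lit 0)) (M (nat_lit 5489541307727871))) (P (nat_lit 0)))) (T.h (T.h (T.h (P (nat_lit 1323694191909273600)) (T.h (P (nat_lit 0)) (M (nat_lit 4410506974159)))) (T.h (P (nat_lit 0)) (P (nat_lit 1714226929744)))) (T.h (P (nat_lit 0)) (M (nat_lit 2838909460015)))))))), (T.h (T.h (T.h (P (nat_lit 0)) (T.h (M (nat_lit 9220441513304250013792075775)) (T.h (P (nat_lit 0)) (T.h (M (nat_lit 8225243363614140661759)) (T.h (P (nat_lit 0)) (M (nat_lit 5183491122266111))))))) (T.h (P (nat_lit 0)) (T.h (T.h (P (nat_lit 0)) (T.h (M (nat_lit 13527727843841541144575)) (T.h (P (nat_lit 0)) (M (nat_lit 8002090367451135))))) (T.h (P (nat_lit 0))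 (T.h (T.h (P (nat_lit 0)) (M (nat_lit 4823750758957055))) (P (nat_lit 0))))))) (T.h (T.h (P (nat_lit 0)) (T.h (T.h (P (nat_lit 1668403387351284754415616)) (T.h (P (nat_lit 0)) (T.h (M (nat_lit 10297903490323709951)) (T.h (P (nat_lit 0)) (M (nat_lit 3962973290623)))))) (T.h (P (nat_lit 0)) (T.h (T.h (M (nat_lit 14940403265748074495)) (T.h (P (nat_lit 0)) (P (nat_lit 2928580113344)))) (T.h (P (nat_lit 0)) (P (nat_lit 1824467767872))))))) (T.h (T.h (T.h (P (nat_lit 0)) (T.h (M (nat_lit 13527727843841541144575)) (T.h (P (nat_lit 0)) (M (nat_lit 8002090367451135))))) (T.h (P (nat_lit 0)) (T.h (T.h (P (nat_lit 0)) (M (nat_lit 66888005976063))) (P (nat_lit 0))))) (T.h (T.h (P (nat_lit 0)) (T.h (T.h (M (nat_lit 14940403265748074495)) (T.h (P (nat_lit 0)) (P (nat_lit 2928580113344)))) (T.h (P (nat_lit 0)) (P (nat_lit 4152252354944))))) (T.h (T.h (T.h (P (nat_lit 0)) (M (nat_lit 4823750758957055))) (P (nat_lit 0))) (T.h (T.h (P (nat_lit 0)) (P (nat_lit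 1824467767872))) (P (nat_lit 0)))))))), (T.h (T.h (T.h (P (nat_lit 2330416154883494020266051239936)) (T.h (P (nat_lit 0)) (T.h (P (nat_lit 7464748788017715864403968)) (T.h (P (nat_lit 0)) (M (nat_lit 1573209784461557759)))))) (T.h (P (nat_lit 0)) (T.h (T.h (P (nat_lit 2720637866675313557110784)) (T.h (P (nat_lit 0)) (P (nat_lit 8962145797948833792)))) (T.h (P (nat_lit 0)) (P (nat_lit 1895559017283977216)))))) (T.h (T.h (P (nat_lit 0)) (T.h (T.h (P (nat_lit 0)) (T.h (P (nat_lit 7531325478474476421120)) (T.h (P (nat_lit 0)) (P (nat_lit 4058084649598976))))) (T.h (P (nat_lit 0)) (T.h (T.h (P (nat_lit 0)) (M (nat_lit 1499433018032127))) (P (nat_lit 0)))))) (T.h (T.h (T.h (P (nat_lit 2720637866675313557110784)) (T.h (P (nat_lit 0)) (P (nat_lit 8962145797948833792)))) (T.h (P (nat_lit 0)) (P (nat_lit 758678015956746240)))) (T.h (T.h (P (nat_lit 0)) (T.h (T.h (P (nat_lit 0)) (M (nat_lit 1499433018032127))) (P (nat_lit 0)))) (P (nat_lit 1895559017283977216)))))),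 (P (nat_lit 0))]
def lQm_1 : List (T ℤ) := [(P (nat_lit 0)), (P (nat_lit 0)), (T.h (T.h (P (nat_lit 0)) (T.h (T.h (P (nat_lit 0)) (T.h (P (nat_lit 8717922922079423085674496)) (T.h (P (nat_lit 0)) (T.h (P (nat_lit 6521691154386255872)) (T.h (P (nat_lit 0)) (M (nat_lit 5165935566879))))))) (T.h (P (nat_lit 0)) (T.h (T.h (P (nat_lit 0)) (T.h (M (nat_lit 193192647643365375)) (T.h (P (nat_lit 0)) (P (nat_lit 3373397582576))))) (T.h (P (nat_lit 0)) (T.h (T.h (P (nat_lit 0)) (M (nat_lit 424261102751))) (P (nat_lit 0)))))))) (T.h (T.h (T.h (P (nat_lit 532858792078950653260464128)) (T.h (P (nat_lit 0)) (T.h (M (nat_lit 4144768062586427015167)) (T.h (P (nat_lit 0)) (P (nat_lit 10195113124757504)))))) (T.h (P (nat_lit 0)) (T.h (T.h (P (nat_lit 3321691345876869447680)) (T.h (P (nat_lit 0)) (P (nat_lit 15787150469627904)))) (T.h (P (nat_lit 0)) (P (nat_lit 2725830294568960)))))) (T.h (T.h (P (nat_lit 0)) (T.h (T.h (P (nat_lit 0)) (T.h (P (nat_lit 10942545611232116736))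 (T.h (P (nat_lit 0)) (M (nat_lit 9748205673263))))) (T.h (P (nat_lit 0)) (T.h (T.h (P (nat_lit 0)) (M (nat_lit 172863613551))) (P (nat_lit 0)))))) (T.h (T.h (T.h (M (nat_lit 3075121913902334476287)) (T.h (P (nat_lit 0)) (M (nat_lit 14061861106614271)))) (T.h (P (nat_lit 0)) (P (nat_lit 15163554349252608)))) (T.h (T.h (P (nat_lit 0)) (T.h (T.h (P (nat_lit 0)) (P (nat_lit 3166704741056))) (P (nat_lit 0)))) (M (nat_lit 1221575086440447))))))), (T.h (T.h (P (nat_lit 0)) (T.h (T.h (P (nat_lit 481498426444980760464064512)) (T.h (P (nat_lit 0)) (T.h (P (nat_lit 26681154423655495630848)) (T.h (P (nat_lit 0)) (P (nat_lit 7017528924438528)))))) (T.h (P (nat_lit 0)) (T.h (T.h (P (nat_lit 5697953271083314446336)) (T.h (P (nat_lit 0)) (P (nat_lit 784067758030848)))) (T.h (P (nat_lit 0)) (P (nat_lit 1101479145242624))))))) (T.h (T.h (T.h (P (nat_lit 0)) (T.h (M (nat_lit 7876353602873980778184703)) (T.h (P (nat_lit 0)) (T.h (M (nat_lit 53974486825366978559))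 (T.h (P (nat_lit 0)) (P (nat_lit 232301117192))))))) (T.h (P (nat_lit 0)) (T.h (T.h (P (nat_lit 0)) (T.h (P (nat_lit 49373033002136764416)) (T.h (P (nat_lit 0)) (P (nat_lit 11084003201840))))) (T.h (P (nat_lit 0)) (T.h (T.h (P (nat_lit 0)) (P (nat_lit 1986549294752))) (P (nat_lit 0))))))) (T.h (T.h (P (nat_lit 0)) (T.h (T.h (M (nat_lit 30550314660257486340095)) (T.h (P (nat_lit 0)) (P (nat_lit 52353664172392448)))) (T.h (P (nat_lit 0)) (M (nat_lit 11781704825339903))))) (T.h (T.h (T.h (P (nat_lit 0)) (T.h (M (nat_lit 20999579311255060479)) (T.h (P (nat_lit 0)) (M (nat_lit 3170395601471))))) (T.h (P (nat_lit 0)) (T.h (T.h (P (nat_lit 0)) (M (nat_lit 12794536799487))) (P (nat_lit 0))))) (T.h (T.h (P (nat_lit 0)) (M (nat_lit 24475322561724415))) (T.h (T.h (T.h (P (nat_lit 0)) (P (nat_lit 376638881960))) (P (nat_lit 0))) (P (nat_lit 0)))))))), (T.h (T.h (P (nat_lit 0)) (T.h (T.h (P (nat_lit 0)) (T.h (M (nat_lit 31405758993128649400516607)) (T.h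 (P (nat_lit 0)) (T.h (P (nat_lit 521119890724093952)) (T.h (P (nat_lit 0)) (P (nat_lit 11875290719936))))))) (T.h (P (nat_lit 0)) (T.h (T.h (P (nat_lit 0)) (T.h (M (nat_lit 9023796676699095039)) (T.h (P (nat_lit 0)) (M (nat_lit 267617463791))))) (T.h (P (nat_lit 0)) (T.h (T.h (P (nat_lit 0)) (M (nat_lit 476646617775))) (P (nat_lit 0)))))))) (T.h (T.h (T.h (P (nat_lit 2360562084221628585116434432)) (T.h (P (nat_lit 0)) (T.h (P (nat_lit 36617258594338403778560)) (T.h (P (nat_lit 0)) (M (nat_lit 5663859304693759)))))) (T.h (P (nat_lit 0)) (T.h (T.h (M (nat_lit 16419398998575345041407)) (T.h (P (nat_lit 0)) (M (nat_lit 49521916416786431)))) (T.h (P (nat_lit 0)) (M (nat_lit 9768375870799871)))))) (T.h (T.h (P (nat_lit 0)) (T.h (T.h (P (nat_lit 0)) (T.h (M (nat_lit 40257835677308157951)) (T.h (P (nat_lit 0)) (P (nat_lit 8038665908672))))) (T.h (P (nat_lit 0)) (T.h (T.h (P (nat_lit 0)) (P (nat_lit 3403801104368))) (P (nat_lit 0)))))) (T.h (T.h (T.h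 (P (nat_lit 714074767542896820224)) (T.h (P (nat_lit 0)) (P (nat_lit 20260117991833600)))) (T.h (P (nat_lit 0)) (M (nat_lit 16069643455397887)))) (T.h (T.h (P (nat_lit 0)) (T.h (T.h (P (nat_lit 0)) (M (nat_lit 170731117199))) (P (nat_lit 0)))) (P (nat_lit 2440102765346816))))))), (T.h (T.h (P (nat_lit 0)) (T.h (T.h (M (nat_lit 195617049460243153912070143)) (T.h (P (nat_lit 0)) (T.h (M (nat_lit 21307677140090005487615)) (T.h (P (nat_lit 0)) (M (nat_lit 12531652465655807)))))) (T.h (P (nat_lit 0)) (T.h (T.h (M (nat_lit 3964114439558481838079)) (T.h (P (nat_lit 0)) (M (nat_lit 4071089117626367)))) (T.h (P (nat_lit 0)) (M (nat_lit 2371883362058239))))))) (T.h (T.h (T.h (P (nat_lit 0)) (T.h (P (nat_lit 6781529803475308119064576)) (T.h (P (nat_lit 0)) (T.h (P (nat_lit 41460708389026791424)) (T.h (P (nat_lit 0)) (P (nat_lit 227061500352))))))) (T.h (P (nat_lit 0)) (T.h (T.h (P (nat_lit 0)) (T.h (M (nat_lit 4653426674468126719)) (T.h (P (nat_lit 0))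 (M (nat_lit 19467609627967))))) (T.h (P (nat_lit 0)) (T.h (T.h (P (nat_lit 0)) (P (nat_lit 172857894208))) (P (nat_lit 0))))))) (T.h (T.h (P (nat_lit 0)) (T.h (T.h (P (nat_lit 34533293653360430284800)) (T.h (P (nat_lit 0)) (M (nat_lit 24124768091635711)))) (T.h (P (nat_lit 0)) (P (nat_lit 1016721890443264))))) (T.h (T.h (T.h (P (nat_lit 0)) (T.h (P (nat_lit 6872914424030560256)) (T.h (P (nat_lit 0)) (M (nat_lit 9250692809791))))) (T.h (P (nat_lit 0)) (T.h (T.h (P (nat_lit 0)) (P (nat_lit 2849003627328))) (P (nat_lit 0))))) (T.h (T.h (P (nat_lit 0)) (P (nat_lit 14747082352263168))) (T.h (T.h (T.h (P (nat_lit 0)) (M (nat_lit 3374982287487))) (P (nat_lit 0))) (P (nat_lit 0)))))))), (T.h (T.h (P (nat_lit 0)) (T.h (T.h (P (nat_lit 0)) (T.h (P (nat_lit 17043484856467139858530304)) (T.h (P (nat_lit 0)) (P (nat_lit 2896091241655566336))))) (T.h (P (nat_lit 0)) (T.h (T.h (P (nat_lit 0)) (P (nat_lit 12429613524915847168))) (P (nat_lit 0)))))) (T.h (T.h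 (T.h (M (nat_lit 3402341988066177641621749759)) (T.h (P (nat_lit 0)) (T.h (M (nat_lit 22557465762590185488383)) (T.h (P (nat_lit 0)) (P (nat_lit 723882441949184)))))) (T.h (P (nat_lit 0)) (T.h (T.h (P (nat_lit 19467932748244439793664)) (T.h (P (nat_lit 0)) (P (nat_lit 12701974667231232)))) (T.h (P (nat_lit 0)) (M (nat_lit 2379570363793407)))))) (T.h (T.h (P (nat_lit 0)) (T.h (T.h (P (nat_lit 0)) (P (nat_lit 11739852891748302848))) (P (nat_lit 0)))) (T.h (T.h (T.h (M (nat_lit 311281724839209992191)) (T.h (P (nat_lit 0)) (P (nat_lit 6354815568904192)))) (T.h (P (nat_lit 0)) (M (nat_lit 3918274737192959)))) (T.h (P (nat_lit 0)) (P (nat_lit 396931717021696))))))), (P (nat_lit 0))]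
def lQm_2 : List (T ℤ) := [(P (nat_lit 0)), (P (nat_lit 0)), (T.h (T.h (T.h (P (nat_lit 1974437142523453654025568780288)) (T.h (P (nat_lit 0)) (T.h (P (nat_lit 3776107581101057807220736)) (T.h (P (nat_lit 0)) (T.h (M (nat_lit 455214168597856255)) (T.h (P (nat_lit 0)) (P (nat_lit 1320627043552)))))))) (T.h (P (nat_lit 0)) (T.h (T.h (P (nat_lit 3776107581101057807220736)) (T.h (P (nat_lit 0)) (T.h (P (nat_lit 47664521656557109248)) (T.h (P (nat_lit 0)) (M (nat_lit 6116429705375)))))) (T.h (P (nat_lit 0)) (T.h (T.h (M (nat_lit 455214168597856255)) (T.h (P (nat_lit 0)) (M (nat_lit 6116429705375)))) (T.h (P (nat_lit 0)) (P (nat_lit 1320627043552)))))))) (T.h (T.h (P (nat_lit 0)) (T.h (T.h (P (nat_lit 0)) (T.h (M (nat_lit 35916735902168758878207)) (T.h (P (nat_lit 0)) (P (nat_lit 31562004246757376))))) (T.h (P (nat_lit 0)) (T.h (T.h (P (nat_lit 0)) (P (nat_lit 31562004246757376))) (P (nat_lit 0)))))) (T.h (T.h (T.h (M (nat_lit 9758004229517509839028223))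 (T.h (P (nat_lit 0)) (T.h (M (nat_lit 9060807759313764351)) (T.h (P (nat_lit 0)) (M (nat_lit 4691781859471)))))) (T.h (P (nat_lit 0)) (T.h (T.h (M (nat_lit 9060807759313764351)) (T.h (P (nat_lit 0)) (M (nat_lit 2560356751999)))) (T.h (P (nat_lit 0)) (M (nat_lit 4691781859471)))))) (T.h (T.h (P (nat_lit 0)) (T.h (T.h (P (nat_lit 0)) (M (nat_lit 83825974921003007))) (P (nat_lit 0)))) (T.h (T.h (T.h (P (nat_lit 1083103659241242624)) (T.h (P (nat_lit 0)) (P (nat_lit 2064152749056)))) (T.h (P (nat_lit 0)) (P (nat_lit 2064152749056)))) (T.h (P (nat_lit 0)) (M (nat_lit 1030947796895)))))))), (T.h (T.h (T.h (P (nat_lit 0)) (T.h (M (nat_lit 9200511152944924224068255743)) (T.h (P (nat_lit 0)) (T.h (M (nat_lit 8138641168080224387071)) (T.h (P (nat_lit 0)) (P (nat_lit 259682930294784))))))) (T.h (P (nat_lit 0)) (T.h (T.h (P (nat_lit 0)) (T.h (M (nat_lit 49067423696374458220543)) (T.h (P (nat_lit 0)) (P (nat_lit 8698455030792192))))) (T.h (P (nat_lit 0))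 (T.h (T.h (P (nat_lit 0)) (P (nat_lit 28476101997723648))) (P (nat_lit 0))))))) (T.h (T.h (P (nat_lit 0)) (T.h (T.h (P (nat_lit 14097034584816128465305600)) (T.h (P (nat_lit 0)) (T.h (M (nat_lit 158806723948804308991)) (T.h (P (nat_lit 0)) (M (nat_lit 20609692359)))))) (T.h (P (nat_lit 0)) (T.h (T.h (P (nat_lit 14447862614417473536)) (T.h (P (nat_lit 0)) (P (nat_lit 17662225065888)))) (T.h (P (nat_lit 0)) (M (nat_lit 4801873344927))))))) (T.h (T.h (T.h (P (nat_lit 0)) (T.h (P (nat_lit 14077787117441249181696)) (T.h (P (nat_lit 0)) (P (nat_lit 10156953881837568))))) (T.h (P (nat_lit 0)) (T.h (T.h (P (nat_lit 0)) (P (nat_lit 1336226320908288))) (P (nat_lit 0))))) (T.h (T.h (P (nat_lit 0)) (T.h (T.h (P (nat_lit 40614113373115645952)) (T.h (P (nat_lit 0)) (P (nat_lit 3119472546016)))) (T.h (P (nat_lit 0)) (P (nat_lit 6278110139768))))) (T.h (T.h (T.h (P (nat_lit 0)) (P (nat_lit 5005039249031168))) (P (nat_lit 0))) (T.h (T.h (P (nat_lit 0)) (M (nat_lit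 1926006707967))) (P (nat_lit 0)))))))), (T.h (T.h (T.h (M (nat_lit 15781421352417333064023314268159)) (T.h (P (nat_lit 0)) (T.h (P (nat_lit 2254133925789322698555392)) (T.h (P (nat_lit 0)) (T.h (M (nat_lit 11582974751273910271)) (T.h (P (nat_lit 0)) (M (nat_lit 4494899552751)))))))) (T.h (P (nat_lit 0)) (T.h (T.h (M (nat_lit 17016263105224677655576575)) (T.h (P (nat_lit 0)) (T.h (M (nat_lit 20199970791355318271)) (T.h (P (nat_lit 0)) (P (nat_lit 18872188738032)))))) (T.h (P (nat_lit 0)) (T.h (T.h (M (nat_lit 5769335801796100095)) (T.h (P (nat_lit 0)) (P (nat_lit 7861092761200)))) (T.h (P (nat_lit 0)) (M (nat_lit 6454986133007)))))))) (T.h (T.h (P (nat_lit 0)) (T.h (T.h (P (nat_lit 0)) (T.h (P (nat_lit 104428965465499621130240)) (T.h (P (nat_lit 0)) (M (nat_lit 65765569243283455))))) (T.h (P (nat_lit 0)) (T.h (T.h (P (nat_lit 0)) (M (nat_lit 42371289102942207))) (P (nat_lit 0)))))) (T.h (T.h (T.h (P (nat_lit 19510935969206319368372224)) (T.h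 (P (nat_lit 0)) (T.h (M (nat_lit 48825252204196659199)) (T.h (P (nat_lit 0)) (P (nat_lit 66173550912)))))) (T.h (P (nat_lit 0)) (T.h (T.h (P (nat_lit 4459232863304286208)) (T.h (P (nat_lit 0)) (P (nat_lit 8548507008608)))) (T.h (P (nat_lit 0)) (P (nat_lit 15481464103056)))))) (T.h (T.h (P (nat_lit 0)) (T.h (T.h (P (nat_lit 0)) (P (nat_lit 95973161780510720))) (P (nat_lit 0)))) (T.h (T.h (T.h (P (nat_lit 3816157051806023680)) (T.h (P (nat_lit 0)) (M (nat_lit 5131028078175)))) (T.h (P (nat_lit 0)) (M (nat_lit 2689076313615)))) (T.h (P (nat_lit 0)) (M (nat_lit 2135898518655)))))))), (T.h (T.h (T.h (P (nat_lit 0)) (T.h (P (nat_lit 2008280231544279771887173632)) (T.h (P (nat_lit 0)) (T.h (P (nat_lit 14444565840120697061376)) (T.h (P (nat_lit 0)) (M (nat_lit 2650552869519359))))))) (T.h (P (nat_lit 0)) (T.h (T.h (P (nat_lit 0)) (T.h (P (nat_lit 7794080975053129777152)) (T.h (P (nat_lit 0)) (M (nat_lit 28585365344649215))))) (T.h (P (nat_lit 0)) (T.h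 (T.h (P (nat_lit 0)) (M (nat_lit 46267264956661759))) (P (nat_lit 0))))))) (T.h (T.h (P (nat_lit 0)) (T.h (T.h (M (nat_lit 12881852499707145018671103)) (T.h (P (nat_lit 0)) (T.h (P (nat_lit 131690224174086750208)) (T.h (P (nat_lit 0)) (P (nat_lit 1504335511808)))))) (T.h (P (nat_lit 0)) (T.h (T.h (P (nat_lit 14576600026559021056)) (T.h (P (nat_lit 0)) (M (nat_lit 33470402026367)))) (T.h (P (nat_lit 0)) (P (nat_lit 6811509066240))))))) (T.h (T.h (T.h (P (nat_lit 0)) (T.h (P (nat_lit 20491663626153897230336)) (T.h (P (nat_lit 0)) (P (nat_lit 17118034321866752))))) (T.h (P (nat_lit 0)) (T.h (T.h (P (nat_lit 0)) (M (nat_lit 12039428486430719))) (P (nat_lit 0))))) (T.h (T.h (P (nat_lit 0)) (T.h (T.h (M (nat_lit 20160226170429767679)) (T.h (P (nat_lit 0)) (M (nat_lit 42196455976255)))) (T.h (P (nat_lit 0)) (M (nat_lit 10628497852863))))) (T.h (T.h (T.h (P (nat_lit 0)) (P (nat_lit 12549948312485888))) (P (nat_lit 0))) (T.h (T.h (P (nat_lit 0)) (P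 (nat_lit 12219471662592))) (P (nat_lit 0)))))))), (T.h (T.h (T.h (P (nat_lit 1410570906212094888288156909568)) (T.h (P (nat_lit 0)) (T.h (M (nat_lit 736332230657898056777727)) (T.h (P (nat_lit 0)) (P (nat_lit 8275653059435036672)))))) (T.h (P (nat_lit 0)) (T.h (T.h (P (nat_lit 2713202957367080711618560)) (T.h (P (nat_lit 0)) (P (nat_lit 12443088561886986240)))) (T.h (P (nat_lit 0)) (P (nat_lit 20438749490257592320)))))) (T.h (T.h (P (nat_lit 0)) (T.h (T.h (P (nat_lit 0)) (T.h (M (nat_lit 25522296248950983753727)) (T.h (P (nat_lit 0)) (P (nat_lit 8426976565428224))))) (T.h (P (nat_lit 0)) (T.h (T.h (P (nat_lit 0)) (P (nat_lit 16959839353831424))) (P (nat_lit 0)))))) (T.h (T.h (T.h (M (nat_lit 9092474658105973488484351)) (T.h (P (nat_lit 0)) (M (nat_lit 9901124243519700991)))) (T.h (P (nat_lit 0)) (M (nat_lit 2049630866191155199)))) (T.h (T.h (P (nat_lit 0)) (T.h (T.h (P (nat_lit 0)) (P (nat_lit 20145895602651136))) (P (nat_lit 0)))) (M (nat_lit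 6450639816894709759)))))), (P (nat_lit 0))]
def lQm_3 : List (T ℤ) := [(P (nat_lit 0)), (T.h (T.h (P (nat_lit 0)) (T.h (T.h (P (nat_lit 0)) (T.h (P (nat_lit 8717922922079423085674496)) (T.h (P (nat_lit 0)) (T.h (M (nat_lit 193192647643365375)) (T.h (P (nat_lit 0)) (M (nat_lit 424261102751))))))) (T.h (P (nat_lit 0)) (T.h (T.h (P (nat_lit 0)) (T.h (P (nat_lit 6521691154386255872)) (T.h (P (nat_lit 0)) (P (nat_lit 3373397582576))))) (T.h (P (nat_lit 0)) (T.h (T.h (P (nat_lit 0)) (M (nat_lit 5165935566879))) (P (nat_lit 0)))))))) (T.h (T.h (T.h (P (nat_lit 532858792078950653260464128)) (T.h (P (nat_lit 0)) (T.h (P (nat_lit 3321691345876869447680)) (T.h (P (nat_lit 0)) (P (nat_lit 2725830294568960)))))) (T.h (P (nat_lit 0)) (T.h (T.h (M (nat_lit 4144768062586427015167)) (T.h (P (nat_lit 0)) (P (nat_lit 15787150469627904)))) (T.h (P (nat_lit 0)) (P (nat_lit 10195113124757504)))))) (T.h (T.h (P (nat_lit 0)) (T.h (T.h (P (nat_lit 0)) (T.h (P (nat_lit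 10942545611232116736)) (T.h (P (nat_lit 0)) (M (nat_lit 172863613551))))) (T.h (P (nat_lit 0)) (T.h (T.h (P (nat_lit 0)) (M (nat_lit 9748205673263))) (P (nat_lit 0)))))) (T.h (T.h (T.h (M (nat_lit 3075121913902334476287)) (T.h (P (nat_lit 0)) (P (nat_lit 15163554349252608)))) (T.h (P (nat_lit 0)) (M (nat_lit 14061861106614271)))) (T.h (T.h (P (nat_lit 0)) (T.h (T.h (P (nat_lit 0)) (P (nat_lit 3166704741056))) (P (nat_lit 0)))) (M (nat_lit 1221575086440447))))))), (T.h (T.h (P (nat_lit 0)) (T.h (T.h (M (nat_lit 9200511152944924224068255743)) (T.h (P (nat_lit 0)) (T.h (M (nat_lit 49067423696374458220543)) (T.h (P (nat_lit 0)) (P (nat_lit 28476101997723648)))))) (T.h (P (nat_lit 0)) (T.h (T.h (M (nat_lit 8138641168080224387071)) (T.h (P (nat_lit 0)) (P (nat_lit 8698455030792192)))) (T.h (P (nat_lit 0)) (P (nat_lit 259682930294784))))))) (T.h (T.h (T.h (P (nat_lit 0)) (T.h (P (nat_lit 14097034584816128465305600)) (T.h (P (nat_lit 0)) (T.h (P (nat_lit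 14447862614417473536)) (T.h (P (nat_lit 0)) (M (nat_lit 4801873344927))))))) (T.h (P (nat_lit 0)) (T.h (T.h (P (nat_lit 0)) (T.h (M (nat_lit 158806723948804308991)) (T.h (P (nat_lit 0)) (P (nat_lit 17662225065888))))) (T.h (P (nat_lit 0)) (T.h (T.h (P (nat_lit 0)) (M (nat_lit 20609692359))) (P (nat_lit 0))))))) (T.h (T.h (P (nat_lit 0)) (T.h (T.h (P (nat_lit 14077787117441249181696)) (T.h (P (nat_lit 0)) (P (nat_lit 1336226320908288)))) (T.h (P (nat_lit 0)) (P (nat_lit 10156953881837568))))) (T.h (T.h (T.h (P (nat_lit 0)) (T.h (P (nat_lit 40614113373115645952)) (T.h (P (nat_lit 0)) (P (nat_lit 6278110139768))))) (T.h (P (nat_lit 0)) (T.h (T.h (P (nat_lit 0)) (P (nat_lit 3119472546016))) (P (nat_lit 0))))) (T.h (T.h (P (nat_lit 0)) (P (nat_lit 5005039249031168))) (T.h (T.h (T.h (P (nat_lit 0)) (M (nat_lit 1926006707967))) (P (nat_lit 0))) (P (nat_lit 0)))))))), (T.h (T.h (P (nat_lit 0)) (T.h (T.h (P (nat_lit 0)) (T.h (M (nat_lit 1459533739220636931194879))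 (T.h (P (nat_lit 0)) (T.h (P (nat_lit 16487317009659330560)) (T.h (P (nat_lit 0)) (P (nat_lit 8063023529120))))))) (T.h (P (nat_lit 0)) (T.h (T.h (P (nat_lit 0)) (T.h (P (nat_lit 16487317009659330560)) (T.h (P (nat_lit 0)) (P (nat_lit 2263527959616))))) (T.h (P (nat_lit 0)) (T.h (T.h (P (nat_lit 0)) (P (nat_lit 8063023529120))) (P (nat_lit 0)))))))) (T.h (T.h (T.h (M (nat_lit 12287764217866034664416739327)) (T.h (P (nat_lit 0)) (T.h (P (nat_lit 57566294809567433850880)) (T.h (P (nat_lit 0)) (P (nat_lit 10628605528555520)))))) (T.h (P (nat_lit 0)) (T.h (T.h (P (nat_lit 57566294809567433850880)) (T.h (P (nat_lit 0)) (M (nat_lit 92819841704132607)))) (T.h (P (nat_lit 0)) (P (nat_lit 10628605528555520)))))) (T.h (T.h (P (nat_lit 0)) (T.h (T.h (P (nat_lit 0)) (T.h (M (nat_lit 62356342678558343167)) (T.h (P (nat_lit 0)) (M (nat_lit 2419356147151))))) (T.h (P (nat_lit 0)) (T.h (T.h (P (nat_lit 0)) (M (nat_lit 2419356147151))) (P (nat_lit 0)))))) (T.h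 (T.h (T.h (M (nat_lit 2453672103476595785727)) (T.h (P (nat_lit 0)) (P (nat_lit 13941152475676672)))) (T.h (P (nat_lit 0)) (P (nat_lit 13941152475676672)))) (T.h (T.h (P (nat_lit 0)) (T.h (T.h (P (nat_lit 0)) (M (nat_lit 14170135667743))) (P (nat_lit 0)))) (P (nat_lit 3083148681314304))))))), (T.h (T.h (P (nat_lit 0)) (T.h (T.h (P (nat_lit 11197592873447516954182025216)) (T.h (P (nat_lit 0)) (T.h (P (nat_lit 61844520787591288586240)) (T.h (P (nat_lit 0)) (M (nat_lit 29810411964465151)))))) (T.h (P (nat_lit 0)) (T.h (T.h (M (nat_lit 34347226040025118408703)) (T.h (P (nat_lit 0)) (M (nat_lit 12520311840047103)))) (T.h (P (nat_lit 0)) (M (nat_lit 2365312111607807))))))) (T.h (T.h (T.h (P (nat_lit 0)) (T.h (M (nat_lit 59548467549861302497181695)) (T.h (P (nat_lit 0)) (T.h (P (nat_lit 49584501972440973312)) (T.h (P (nat_lit 0)) (P (nat_lit 18903779491264))))))) (T.h (P (nat_lit 0)) (T.h (T.h (P (nat_lit 0)) (T.h (P (nat_lit 79800601318839549952))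 (T.h (P (nat_lit 0)) (M (nat_lit 23937205427903))))) (T.h (P (nat_lit 0)) (T.h (T.h (P (nat_lit 0)) (P (nat_lit 34853027096000))) (P (nat_lit 0))))))) (T.h (T.h (P (nat_lit 0)) (T.h (T.h (P (nat_lit 2718646849926705709056)) (T.h (P (nat_lit 0)) (M (nat_lit 16416114175999999)))) (T.h (P (nat_lit 0)) (M (nat_lit 8592079034286079))))) (T.h (T.h (T.h (P (nat_lit 0)) (T.h (M (nat_lit 69442730501917900799)) (T.h (P (nat_lit 0)) (M (nat_lit 14712885554879))))) (T.h (P (nat_lit 0)) (T.h (T.h (P (nat_lit 0)) (P (nat_lit 26088908991424))) (P (nat_lit 0))))) (T.h (T.h (P (nat_lit 0)) (P (nat_lit 12712655784902656))) (T.h (T.h (T.h (P (nat_lit 0)) (M (nat_lit 3142430723007))) (P (nat_lit 0))) (P (nat_lit 0)))))))), (T.h (T.h (P (nat_lit 0)) (T.h (T.h (P (nat_lit 0)) (T.h (M (nat_lit 10198635777548292081057791)) (T.h (P (nat_lit 0)) (P (nat_lit 10587787297082572800))))) (T.h (P (nat_lit 0)) (T.h (T.h (P (nat_lit 0)) (P (nat_lit 44064355139457122304))) (P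 (nat_lit 0)))))) (T.h (T.h (T.h (P (nat_lit 9444388680319584730748026880)) (T.h (P (nat_lit 0)) (T.h (M (nat_lit 30742105541402773422079)) (T.h (P (nat_lit 0)) (M (nat_lit 24581947639840767)))))) (T.h (P (nat_lit 0)) (T.h (T.h (M (nat_lit 4498893292917248491519)) (T.h (P (nat_lit 0)) (P (nat_lit 44089042524880896)))) (T.h (P (nat_lit 0)) (M (nat_lit 17641106541363199)))))) (T.h (T.h (P (nat_lit 0)) (T.h (T.h (P (nat_lit 0)) (P (nat_lit 9004690242220851200))) (P (nat_lit 0)))) (T.h (T.h (T.h (P (nat_lit 11887339130370524184576)) (T.h (P (nat_lit 0)) (P (nat_lit 22101788836069376)))) (T.h (P (nat_lit 0)) (P (nat_lit 1483925649195008)))) (T.h (P (nat_lit 0)) (M (nat_lit 2323722480533503))))))), (P (nat_lit 0)), (P (nat_lit 0))]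
def lQm_4 : List (T ℤ) := [(T.h (T.h (T.h (M (nat_lit 169053768763270514532562239487)) (T.h (P (nat_lit 0)) (T.h (P (nat_lit 1217783071519776866041856)) (T.h (P (nat_lit 0)) (T.h (M (nat_lit 2581556048120774655)) (T.h (P (nat_lit 0)) (P (nat_lit 2889973006256)))))))) (T.h (P (nat_lit 0)) (T.h (T.h (M (nat_lit 86023058324020239794175)) (T.h (P (nat_lit 0)) (T.h (M (nat_lit 2804189857717420031)) (T.h (P (nat_lit 0)) (P (nat_lit 2363898821680)))))) (T.h (P (nat_lit 0)) (T.h (T.h (P (nat_lit 544121181330997248)) (T.h (P (nat_lit 0)) (P (nat_lit 1796611202864)))) (T.h (P (nat_lit 0)) (M (nat_lit 1570308029599)))))))) (T.h (T.h (P (nat_lit 0)) (T.h (T.h (P (nat_lit 0)) (T.h (M (nat_lit 1587471070678617161727)) (T.h (P (nat_lit 0)) (P (nat_lit 3737556218937344))))) (T.h (P (nat_lit 0)) (T.h (T.h (P (nat_lit 0)) (P (nat_lit 2147752284127232))) (P (nat_lit 0)))))) (T.h (T.h (T.h (P (nat_lit 1217783071519776866041856)) (T.h (P (nat_lit 0)) (T.h (M (nat_lit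 580103659812028415)) (T.h (P (nat_lit 0)) (M (nat_lit 662576913727)))))) (T.h (P (nat_lit 0)) (T.h (T.h (M (nat_lit 2804189857717420031)) (T.h (P (nat_lit 0)) (P (nat_lit 2120391294816)))) (T.h (P (nat_lit 0)) (P (nat_lit 1796611202864)))))) (T.h (T.h (P (nat_lit 0)) (T.h (T.h (P (nat_lit 0)) (P (nat_lit 3737556218937344))) (P (nat_lit 0)))) (T.h (T.h (T.h (M (nat_lit 2581556048120774655)) (T.h (P (nat_lit 0)) (M (nat_lit 662576913727)))) (T.h (P (nat_lit 0)) (P (nat_lit 2363898821680)))) (T.h (P (nat_lit 0)) (P (nat_lit 2889973006256)))))))), (T.h (T.h (T.h (P (nat_lit 0)) (T.h (P (nat_lit 481498426444980760464064512)) (T.h (P (nat_lit 0)) (T.h (P (nat_lit 5697953271083314446336)) (T.h (P (nat_lit 0)) (P (nat_lit 1101479145242624))))))) (T.h (P (nat_lit 0)) (T.h (T.h (P (nat_lit 0)) (T.h (P (nat_lit 26681154423655495630848)) (T.h (P (nat_lit 0)) (P (nat_lit 784067758030848))))) (T.h (P (nat_lit 0)) (T.h (T.h (P (nat_lit 0)) (P (nat_lit 7017528924438528)))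 (P (nat_lit 0))))))) (T.h (T.h (P (nat_lit 0)) (T.h (T.h (M (nat_lit 7876353602873980778184703)) (T.h (P (nat_lit 0)) (T.h (P (nat_lit 49373033002136764416)) (T.h (P (nat_lit 0)) (P (nat_lit 1986549294752)))))) (T.h (P (nat_lit 0)) (T.h (T.h (M (nat_lit 53974486825366978559)) (T.h (P (nat_lit 0)) (P (nat_lit 11084003201840)))) (T.h (P (nat_lit 0)) (P (nat_lit 232301117192))))))) (T.h (T.h (T.h (P (nat_lit 0)) (T.h (M (nat_lit 30550314660257486340095)) (T.h (P (nat_lit 0)) (M (nat_lit 11781704825339903))))) (T.h (P (nat_lit 0)) (T.h (T.h (P (nat_lit 0)) (P (nat_lit 52353664172392448))) (P (nat_lit 0))))) (T.h (T.h (P (nat_lit 0)) (T.h (T.h (M (nat_lit 20999579311255060479)) (T.h (P (nat_lit 0)) (M (nat_lit 12794536799487)))) (T.h (P (nat_lit 0)) (M (nat_lit 3170395601471))))) (T.h (T.h (T.h (P (nat_lit 0)) (M (nat_lit 24475322561724415))) (P (nat_lit 0))) (T.h (T.h (P (nat_lit 0)) (P (nat_lit 376638881960))) (P (nat_lit 0)))))))), (T.h (T.h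 (T.h (M (nat_lit 15781421352417333064023314268159)) (T.h (P (nat_lit 0)) (T.h (M (nat_lit 17016263105224677655576575)) (T.h (P (nat_lit 0)) (T.h (M (nat_lit 5769335801796100095)) (T.h (P (nat_lit 0)) (M (nat_lit 6454986133007)))))))) (T.h (P (nat_lit 0)) (T.h (T.h (P (nat_lit 2254133925789322698555392)) (T.h (P (nat_lit 0)) (T.h (M (nat_lit 20199970791355318271)) (T.h (P (nat_lit 0)) (P (nat_lit 7861092761200)))))) (T.h (P (nat_lit 0)) (T.h (T.h (M (nat_lit 11582974751273910271)) (T.h (P (nat_lit 0)) (P (nat_lit 18872188738032)))) (T.h (P (nat_lit 0)) (M (nat_lit 4494899552751)))))))) (T.h (T.h (P (nat_lit 0)) (T.h (T.h (P (nat_lit 0)) (T.h (P (nat_lit 104428965465499621130240)) (T.h (P (nat_lit 0)) (M (nat_lit 42371289102942207))))) (T.h (P (nat_lit 0)) (T.h (T.h (P (nat_lit 0)) (M (nat_lit 65765569243283455))) (P (nat_lit 0)))))) (T.h (T.h (T.h (P (nat_lit 19510935969206319368372224)) (T.h (P (nat_lit 0)) (T.h (P (nat_lit 4459232863304286208))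 (T.h (P (nat_lit 0)) (P (nat_lit 15481464103056)))))) (T.h (P (nat_lit 0)) (T.h (T.h (M (nat_lit 48825252204196659199)) (T.h (P (nat_lit 0)) (P (nat_lit 8548507008608)))) (T.h (P (nat_lit 0)) (P (nat_lit 66173550912)))))) (T.h (T.h (P (nat_lit 0)) (T.h (T.h (P (nat_lit 0)) (P (nat_lit 95973161780510720))) (P (nat_lit 0)))) (T.h (T.h (T.h (P (nat_lit 3816157051806023680)) (T.h (P (nat_lit 0)) (M (nat_lit 2689076313615)))) (T.h (P (nat_lit 0)) (M (nat_lit 5131028078175)))) (T.h (P (nat_lit 0)) (M (nat_lit 2135898518655)))))))), (T.h (T.h (T.h (P (nat_lit 0)) (T.h (P (nat_lit 11197592873447516954182025216)) (T.h (P (nat_lit 0)) (T.h (M (nat_lit 34347226040025118408703)) (T.h (P (nat_lit 0)) (M (nat_lit 2365312111607807))))))) (T.h (P (nat_lit 0)) (T.h (T.h (P (nat_lit 0)) (T.h (P (nat_lit 61844520787591288586240)) (T.h (P (nat_lit 0)) (M (nat_lit 12520311840047103))))) (T.h (P (nat_lit 0)) (T.h (T.h (P (nat_lit 0)) (M (nat_lit 29810411964465151)))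 (P (nat_lit 0))))))) (T.h (T.h (P (nat_lit 0)) (T.h (T.h (M (nat_lit 59548467549861302497181695)) (T.h (P (nat_lit 0)) (T.h (P (nat_lit 79800601318839549952)) (T.h (P (nat_lit 0)) (P (nat_lit 34853027096000)))))) (T.h (P (nat_lit 0)) (T.h (T.h (P (nat_lit 49584501972440973312)) (T.h (P (nat_lit 0)) (M (nat_lit 23937205427903)))) (T.h (P (nat_lit 0)) (P (nat_lit 18903779491264))))))) (T.h (T.h (T.h (P (nat_lit 0)) (T.h (P (nat_lit 2718646849926705709056)) (T.h (P (nat_lit 0)) (M (nat_lit 8592079034286079))))) (T.h (P (nat_lit 0)) (T.h (T.h (P (nat_lit 0)) (M (nat_lit 16416114175999999))) (P (nat_lit 0))))) (T.h (T.h (P (nat_lit 0)) (T.h (T.h (M (nat_lit 69442730501917900799)) (T.h (P (nat_lit 0)) (P (nat_lit 26088908991424)))) (T.h (P (nat_lit 0)) (M (nat_lit 14712885554879))))) (T.h (T.h (T.h (P (nat_lit 0)) (P (nat_lit 12712655784902656))) (P (nat_lit 0))) (T.h (T.h (P (nat_lit 0)) (M (nat_lit 3142430723007))) (P (nat_lit 0)))))))), (T.h (T.h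 (T.h (M (nat_lit 1566566538292661711704453808127)) (T.h (P (nat_lit 0)) (T.h (P (nat_lit 9732647539352031790628864)) (T.h (P (nat_lit 0)) (P (nat_lit 16297031267554164736)))))) (T.h (P (nat_lit 0)) (T.h (T.h (P (nat_lit 9732647539352031790628864)) (T.h (P (nat_lit 0)) (P (nat_lit 2048803517447012352)))) (T.h (P (nat_lit 0)) (P (nat_lit 16297031267554164736)))))) (T.h (T.h (P (nat_lit 0)) (T.h (T.h (P (nat_lit 0)) (T.h (M (nat_lit 26663661396517474795519)) (T.h (P (nat_lit 0)) (M (nat_lit 23433650567217151))))) (T.h (P (nat_lit 0)) (T.h (T.h (P (nat_lit 0)) (M (nat_lit 23433650567217151))) (P (nat_lit 0)))))) (T.h (T.h (T.h (M (nat_lit 3329637082376392511848447)) (T.h (P (nat_lit 0)) (M (nat_lit 3306482805604614143)))) (T.h (P (nat_lit 0)) (M (nat_lit 3306482805604614143)))) (T.h (T.h (P (nat_lit 0)) (T.h (T.h (P (nat_lit 0)) (M (nat_lit 26715042807218175))) (P (nat_lit 0)))) (M (nat_lit 3580613197985480703)))))), (P (nat_lit 0)), (P (nat_lit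 0)), (T.h (T.h (P (nat_lit 0)) (T.h (T.h (P (nat_lit 9182275218262489025208123392)) (T.h (P (nat_lit 0)) (T.h (P (nat_lit 13613235312272529686528)) (T.h (P (nat_lit 0)) (P (nat_lit 7111101373186048)))))) (T.h (P (nat_lit 0)) (T.h (T.h (P (nat_lit 8298625833979166588928)) (T.h (P (nat_lit 0)) (P (nat_lit 8116801292140544)))) (T.h (P (nat_lit 0)) (P (nat_lit 5191557644550144))))))) (T.h (T.h (T.h (P (nat_lit 0)) (T.h (M (nat_lit 2059946901904829097967615)) (T.h (P (nat_lit 0)) (T.h (P (nat_lit 14029646457506627584)) (T.h (P (nat_lit 0)) (M (nat_lit 1884415318087))))))) (T.h (P (nat_lit 0)) (T.h (T.h (P (nat_lit 0)) (T.h (P (nat_lit 4201936957627957248)) (T.h (P (nat_lit 0)) (M (nat_lit 1791893248487))))) (T.h (P (nat_lit 0)) (T.h (T.h (P (nat_lit 0)) (P (nat_lit 1985198807424))) (P (nat_lit 0))))))) (T.h (T.h (P (nat_lit 0)) (T.h (T.h (P (nat_lit 13613235312272529686528)) (T.h (P (nat_lit 0)) (M (nat_lit 8622493221978111)))) (T.h (P (nat_lit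 0)) (P (nat_lit 8116801292140544))))) (T.h (T.h (T.h (P (nat_lit 0)) (T.h (P (nat_lit 14029646457506627584)) (T.h (P (nat_lit 0)) (M (nat_lit 2061010941807))))) (T.h (P (nat_lit 0)) (T.h (T.h (P (nat_lit 0)) (M (nat_lit 1791893248487))) (P (nat_lit 0))))) (T.h (T.h (P (nat_lit 0)) (P (nat_lit 7111101373186048))) (T.h (T.h (T.h (P (nat_lit 0)) (M (nat_lit 1884415318087))) (P (nat_lit 0))) (P (nat_lit 0))))))))]
def lQm_5 : List (T ℤ) := [(T.h (T.h (P (nat_lit 0)) (T.h (T.h (P (nat_lit 0)) (T.h (M (nat_lit 31405758993128649400516607)) (T.h (P (nat_lit 0)) (T.h (M (nat_lit 9023796676699095039)) (T.h (P (nat_lit 0)) (M (nat_lit 476646617775))))))) (T.h (P (nat_lit 0)) (T.h (T.h (P (nat_lit 0)) (T.h (P (nat_lit 521119890724093952)) (T.h (P (nat_lit 0)) (M (nat_lit 267617463791))))) (T.h (P (nat_lit 0)) (T.h (T.h (P (nat_lit 0)) (P (nat_lit 11875290719936))) (P (nat_lit 0)))))))) (T.h (T.h (T.h (P (nat_lit 2360562084221628585116434432)) (T.h (P (nat_lit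 0)) (T.h (M (nat_lit 16419398998575345041407)) (T.h (P (nat_lit 0)) (M (nat_lit 9768375870799871)))))) (T.h (P (nat_lit 0)) (T.h (T.h (P (nat_lit 36617258594338403778560)) (T.h (P (nat_lit 0)) (M (nat_lit 49521916416786431)))) (T.h (P (nat_lit 0)) (M (nat_lit 5663859304693759)))))) (T.h (T.h (P (nat_lit 0)) (T.h (T.h (P (nat_lit 0)) (T.h (M (nat_lit 40257835677308157951)) (T.h (P (nat_lit 0)) (P (nat_lit 3403801104368))))) (T.h (P (nat_lit 0)) (T.h (T.h (P (nat_lit 0)) (P (nat_lit 8038665908672))) (P (nat_lit 0)))))) (T.h (T.h (T.h (P (nat_lit 714074767542896820224)) (T.h (P (nat_lit 0)) (M (nat_lit 16069643455397887)))) (T.h (P (nat_lit 0)) (P (nat_lit 20260117991833600)))) (T.h (T.h (P (nat_lit 0)) (T.h (T.h (P (nat_lit 0)) (M (nat_lit 170731117199))) (P (nat_lit 0)))) (P (nat_lit 2440102765346816))))))), (T.h (T.h (P (nat_lit 0)) (T.h (T.h (P (nat_lit 2008280231544279771887173632)) (T.h (P (nat_lit 0)) (T.h (P (nat_lit 7794080975053129777152))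 (T.h (P (nat_lit 0)) (M (nat_lit 46267264956661759)))))) (T.h (P (nat_lit 0)) (T.h (T.h (P (nat_lit 14444565840120697061376)) (T.h (P (nat_lit 0)) (M (nat_lit 28585365344649215)))) (T.h (P (nat_lit 0)) (M (nat_lit 2650552869519359))))))) (T.h (T.h (T.h (P (nat_lit 0)) (T.h (M (nat_lit 12881852499707145018671103)) (T.h (P (nat_lit 0)) (T.h (P (nat_lit 14576600026559021056)) (T.h (P (nat_lit 0)) (P (nat_lit 6811509066240))))))) (T.h (P (nat_lit 0)) (T.h (T.h (P (nat_lit 0)) (T.h (P (nat_lit 131690224174086750208)) (T.h (P (nat_lit 0)) (M (nat_lit 33470402026367))))) (T.h (P (nat_lit 0)) (T.h (T.h (P (nat_lit 0)) (P (nat_lit 1504335511808))) (P (nat_lit 0))))))) (T.h (T.h (P (nat_lit 0)) (T.h (T.h (P (nat_lit 20491663626153897230336)) (T.h (P (nat_lit 0)) (M (nat_lit 12039428486430719)))) (T.h (P (nat_lit 0)) (P (nat_lit 17118034321866752))))) (T.h (T.h (T.h (P (nat_lit 0)) (T.h (M (nat_lit 20160226170429767679)) (T.h (P (nat_lit 0)) (M (nat_lit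 10628497852863))))) (T.h (P (nat_lit 0)) (T.h (T.h (P (nat_lit 0)) (M (nat_lit 42196455976255))) (P (nat_lit 0))))) (T.h (T.h (P (nat_lit 0)) (P (nat_lit 12549948312485888))) (T.h (T.h (T.h (P (nat_lit 0)) (P (nat_lit 12219471662592))) (P (nat_lit 0))) (P (nat_lit 0)))))))), (T.h (T.h (P (nat_lit 0)) (T.h (T.h (P (nat_lit 0)) (T.h (M (nat_lit 10198635777548292081057791)) (T.h (P (nat_lit 0)) (P (nat_lit 44064355139457122304))))) (T.h (P (nat_lit 0)) (T.h (T.h (P (nat_lit 0)) (P (nat_lit 10587787297082572800))) (P (nat_lit 0)))))) (T.h (T.h (T.h (P (nat_lit 9444388680319584730748026880)) (T.h (P (nat_lit 0)) (T.h (M (nat_lit 4498893292917248491519)) (T.h (P (nat_lit 0)) (M (nat_lit 17641106541363199)))))) (T.h (P (nat_lit 0)) (T.h (T.h (M (nat_lit 30742105541402773422079)) (T.h (P (nat_lit 0)) (P (nat_lit 44089042524880896)))) (T.h (P (nat_lit 0)) (M (nat_lit 24581947639840767)))))) (T.h (T.h (P (nat_lit 0)) (T.h (T.h (P (nat_lit 0)) (P (nat_lit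 9004690242220851200))) (P (nat_lit 0)))) (T.h (T.h (T.h (P (nat_lit 11887339130370524184576)) (T.h (P (nat_lit 0)) (P (nat_lit 1483925649195008)))) (T.h (P (nat_lit 0)) (P (nat_lit 22101788836069376)))) (T.h (P (nat_lit 0)) (M (nat_lit 2323722480533503))))))), (P (nat_lit 0)), (P (nat_lit 0)), (T.h (T.h (T.h (M (nat_lit 7193110628990432326231317807103)) (T.h (P (nat_lit 0)) (T.h (M (nat_lit 3601865127594643054133247)) (T.h (P (nat_lit 0)) (T.h (P (nat_lit 1323694191909273600)) (T.h (P (nat_lit 0)) (M (nat_lit 2838909460015)))))))) (T.h (P (nat_lit 0)) (T.h (T.h (M (nat_lit 6992900219414241486045183)) (T.h (P (nat_lit 0)) (T.h (M (nat_lit 4679660363636015103)) (T.h (P (nat_lit 0)) (M (nat_lit 4410506974159)))))) (T.h (P (nat_lit 0)) (T.h (T.h (P (nat_lit 1508552952724324352)) (T.h (P (nat_lit 0)) (M (nat_lit 3133739275967)))) (T.h (P (nat_lit 0)) (P (nat_lit 3652989002656)))))))) (T.h (T.h (P (nat_lit 0)) (T.h (T.h (P (nat_lit 0)) (T.h (M (nat_lit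 2705769387334379241471)) (T.h (P (nat_lit 0)) (M (nat_lit 5489541307727871))))) (T.h (P (nat_lit 0)) (T.h (T.h (P (nat_lit 0)) (M (nat_lit 10176654584184831))) (P (nat_lit 0)))))) (T.h (T.h (T.h (M (nat_lit 3601865127594643054133247)) (T.h (P (nat_lit 0)) (T.h (M (nat_lit 1791605768886157311)) (T.h (P (nat_lit 0)) (P (nat_lit 1714226929744)))))) (T.h (P (nat_lit 0)) (T.h (T.h (M (nat_lit 4679660363636015103)) (T.h (P (nat_lit 0)) (M (nat_lit 4950411610591)))) (T.h (P (nat_lit 0)) (M (nat_lit 3133739275967)))))) (T.h (T.h (P (nat_lit 0)) (T.h (T.h (P (nat_lit 0)) (M (nat_lit 5489541307727871))) (P (nat_lit 0)))) (T.h (T.h (T.h (P (nat_lit 1323694191909273600)) (T.h (P (nat_lit 0)) (P (nat_lit 1714226929744)))) (T.h (P (nat_lit 0)) (M (nat_lit 4410506974159)))) (T.h (P (nat_lit 0)) (M (nat_lit 2838909460015)))))))), (T.h (T.h (T.h (P (nat_lit 0)) (T.h (M (nat_lit 195617049460243153912070143)) (T.h (P (nat_lit 0)) (T.h (M (nat_lit 3964114439558481838079))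 (T.h (P (nat_lit 0)) (M (nat_lit 2371883362058239))))))) (T.h (P (nat_lit 0)) (T.h (T.h (P (nat_lit 0)) (T.h (M (nat_lit 21307677140090005487615)) (T.h (P (nat_lit 0)) (M (nat_lit 4071089117626367))))) (T.h (P (nat_lit 0)) (T.h (T.h (P (nat_lit 0)) (M (nat_lit 12531652465655807))) (P (nat_lit 0))))))) (T.h (T.h (P (nat_lit 0)) (T.h (T.h (P (nat_lit 6781529803475308119064576)) (T.h (P (nat_lit 0)) (T.h (M (nat_lit 4653426674468126719)) (T.h (P (nat_lit 0)) (P (nat_lit 172857894208)))))) (T.h (P (nat_lit 0)) (T.h (T.h (P (nat_lit 41460708389026791424)) (T.h (P (nat_lit 0)) (M (nat_lit 19467609627967)))) (T.h (P (nat_lit 0)) (P (nat_lit 227061500352))))))) (T.h (T.h (T.h (P (nat_lit 0)) (T.h (P (nat_lit 34533293653360430284800)) (T.h (P (nat_lit 0)) (P (nat_lit 1016721890443264))))) (T.h (P (nat_lit 0)) (T.h (T.h (P (nat_lit 0)) (M (nat_lit 24124768091635711))) (P (nat_lit 0))))) (T.h (T.h (P (nat_lit 0)) (T.h (T.h (P (nat_lit 6872914424030560256))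 (T.h (P (nat_lit 0)) (P (nat_lit 2849003627328)))) (T.h (P (nat_lit 0)) (M (nat_lit 9250692809791))))) (T.h (T.h (T.h (P (nat_lit 0)) (P (nat_lit 14747082352263168))) (P (nat_lit 0))) (T.h (T.h (P (nat_lit 0)) (M (nat_lit 3374982287487))) (P (nat_lit 0)))))))), (T.h (T.h (T.h (P (nat_lit 1410570906212094888288156909568)) (T.h (P (nat_lit 0)) (T.h (P (nat_lit 2713202957367080711618560)) (T.h (P (nat_lit 0)) (P (nat_lit 20438749490257592320)))))) (T.h (P (nat_lit 0)) (T.h (T.h (M (nat_lit 736332230657898056777727)) (T.h (P (nat_lit 0)) (P (nat_lit 12443088561886986240)))) (T.h (P (nat_lit 0)) (P (nat_lit 8275653059435036672)))))) (T.h (T.h (P (nat_lit 0)) (T.h (T.h (P (nat_lit 0)) (T.h (M (nat_lit 25522296248950983753727)) (T.h (P (nat_lit 0)) (P (nat_lit 16959839353831424))))) (T.h (P (nat_lit 0)) (T.h (T.h (P (nat_lit 0)) (P (nat_lit 8426976565428224))) (P (nat_lit 0)))))) (T.h (T.h (T.h (M (nat_lit 9092474658105973488484351)) (T.h (P (nat_lit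 0)) (M (nat_lit 2049630866191155199)))) (T.h (P (nat_lit 0)) (M (nat_lit 9901124243519700991)))) (T.h (T.h (P (nat_lit 0)) (T.h (T.h (P (nat_lit 0)) (P (nat_lit 20145895602651136))) (P (nat_lit 0)))) (M (nat_lit 6450639816894709759))))))]
def lQm_6 : List (T ℤ) := [(P (nat_lit 0)), (P (nat_lit 0)), (T.h (T.h (P (nat_lit 0)) (T.h (T.h (M (nat_lit 9220441513304250013792075775)) (T.h (P (nat_lit 0)) (T.h (M (nat_lit 13527727843841541144575)) (T.h (P (nat_lit 0)) (M (nat_lit 4823750758957055)))))) (T.h (P (nat_lit 0)) (T.h (T.h (M (nat_lit 8225243363614140661759)) (T.h (P (nat_lit 0)) (M (nat_lit 8002090367451135)))) (T.h (P (nat_lit 0)) (M (nat_lit 5183491122266111))))))) (T.h (T.h (T.h (P (nat_lit 0)) (T.h (P (nat_lit 1668403387351284754415616)) (T.h (P (nat_lit 0)) (T.h (M (nat_lit 14940403265748074495)) (T.h (P (nat_lit 0)) (P (nat_lit 1824467767872))))))) (T.h (P (nat_lit 0)) (T.h (T.h (P (nat_lit 0)) (T.h (M (nat_lit 10297903490323709951))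 (T.h (P (nat_lit 0)) (P (nat_lit 2928580113344))))) (T.h (P (nat_lit 0)) (T.h (T.h (P (nat_lit 0)) (M (nat_lit 3962973290623))) (P (nat_lit 0))))))) (T.h (T.h (P (nat_lit 0)) (T.h (T.h (M (nat_lit 13527727843841541144575)) (T.h (P (nat_lit 0)) (M (nat_lit 66888005976063)))) (T.h (P (nat_lit 0)) (M (nat_lit 8002090367451135))))) (T.h (T.h (T.h (P (nat_lit 0)) (T.h (M (nat_lit 14940403265748074495)) (T.h (P (nat_lit 0)) (P (nat_lit 4152252354944))))) (T.h (P (nat_lit 0)) (T.h (T.h (P (nat_lit 0)) (P (nat_lit 2928580113344))) (P (nat_lit 0))))) (T.h (T.h (P (nat_lit 0)) (M (nat_lit 4823750758957055))) (T.h (T.h (T.h (P (nat_lit 0)) (P (nat_lit 1824467767872))) (P (nat_lit 0))) (P (nat_lit 0)))))))), (T.h (T.h (P (nat_lit 0)) (T.h (T.h (P (nat_lit 0)) (T.h (P (nat_lit 17043484856467139858530304)) (T.h (P (nat_lit 0)) (P (nat_lit 12429613524915847168))))) (T.h (P (nat_lit 0)) (T.h (T.h (P (nat_lit 0)) (P (nat_lit 2896091241655566336))) (P (nat_lit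 0)))))) (T.h (T.h (T.h (M (nat_lit 3402341988066177641621749759)) (T.h (P (nat_lit 0)) (T.h (P (nat_lit 19467932748244439793664)) (T.h (P (nat_lit 0)) (M (nat_lit 2379570363793407)))))) (T.h (P (nat_lit 0)) (T.h (T.h (M (nat_lit 22557465762590185488383)) (T.h (P (nat_lit 0)) (P (nat_lit 12701974667231232)))) (T.h (P (nat_lit 0)) (P (nat_lit 723882441949184)))))) (T.h (T.h (P (nat_lit 0)) (T.h (T.h (P (nat_lit 0)) (P (nat_lit 11739852891748302848))) (P (nat_lit 0)))) (T.h (T.h (T.h (M (nat_lit 311281724839209992191)) (T.h (P (nat_lit 0)) (M (nat_lit 3918274737192959)))) (T.h (P (nat_lit 0)) (P (nat_lit 6354815568904192)))) (T.h (P (nat_lit 0)) (P (nat_lit 396931717021696))))))), (P (nat_lit 0)), (P (nat_lit 0)), (T.h (T.h (T.h (P (nat_lit 2330416154883494020266051239936)) (T.h (P (nat_lit 0)) (T.h (P (nat_lit 2720637866675313557110784)) (T.h (P (nat_lit 0)) (P (nat_lit 1895559017283977216)))))) (T.h (P (nat_lit 0)) (T.h (T.h (P (nat_lit 7464748788017715864403968))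 (T.h (P (nat_lit 0)) (P (nat_lit 8962145797948833792)))) (T.h (P (nat_lit 0)) (M (nat_lit 1573209784461557759)))))) (T.h (T.h (P (nat_lit 0)) (T.h (T.h (P (nat_lit 0)) (T.h (P (nat_lit 7531325478474476421120)) (T.h (P (nat_lit 0)) (M (nat_lit 1499433018032127))))) (T.h (P (nat_lit 0)) (T.h (T.h (P (nat_lit 0)) (P (nat_lit 4058084649598976))) (P (nat_lit 0)))))) (T.h (T.h (T.h (P (nat_lit 2720637866675313557110784)) (T.h (P (nat_lit 0)) (P (nat_lit 758678015956746240)))) (T.h (P (nat_lit 0)) (P (nat_lit 8962145797948833792)))) (T.h (T.h (P (nat_lit 0)) (T.h (T.h (P (nat_lit 0)) (M (nat_lit 1499433018032127))) (P (nat_lit 0)))) (P (nat_lit 1895559017283977216)))))), (P (nat_lit 0))]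
def lQm_7 : List (T ℤ) := [(P (nat_lit 0)), (P (nat_lit 0)), (P (nat_lit 0)), (P (nat_lit 0)), (T.h (T.h (P (nat_lit 0)) (T.h (T.h (P (nat_lit 532858792078950653260464128)) (T.h (P (nat_lit 0)) (T.h (M (nat_lit 4144768062586427015167)) (T.h (P (nat_lit 0)) (P (nat_lit 10195113124757504)))))) (T.h (P (nat_lit 0)) (T.h (T.h (M (nat_lit 3075121913902334476287)) (T.h (P (nat_lit 0)) (M (nat_lit 14061861106614271)))) (T.h (P (nat_lit 0)) (M (nat_lit 1221575086440447))))))) (T.h (T.h (T.h (P (nat_lit 0)) (T.h (P (nat_lit 8717922922079423085674496)) (T.h (P (nat_lit 0)) (T.h (P (nat_lit 6521691154386255872)) (T.h (P (nat_lit 0)) (M (nat_lit 5165935566879))))))) (T.h (P (nat_lit 0)) (T.h (T.h (P (nat_lit 0)) (T.h (P (nat_lit 10942545611232116736)) (T.h (P (nat_lit 0)) (M (nat_lit 9748205673263))))) (T.h (P (nat_lit 0)) (T.h (T.h (P (nat_lit 0)) (P (nat_lit 3166704741056))) (P (nat_lit 0))))))) (T.h (T.h (P (nat_lit 0)) (T.h (T.h (P (nat_lit 3321691345876869447680))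 (T.h (P (nat_lit 0)) (P (nat_lit 15787150469627904)))) (T.h (P (nat_lit 0)) (P (nat_lit 15163554349252608))))) (T.h (T.h (T.h (P (nat_lit 0)) (T.h (M (nat_lit 193192647643365375)) (T.h (P (nat_lit 0)) (P (nat_lit 3373397582576))))) (T.h (P (nat_lit 0)) (T.h (T.h (P (nat_lit 0)) (M (nat_lit 172863613551))) (P (nat_lit 0))))) (T.h (T.h (P (nat_lit 0)) (P (nat_lit 2725830294568960))) (T.h (T.h (T.h (P (nat_lit 0)) (M (nat_lit 424261102751))) (P (nat_lit 0))) (P (nat_lit 0)))))))), (T.h (T.h (P (nat_lit 0)) (T.h (T.h (P (nat_lit 0)) (T.h (M (nat_lit 7876353602873980778184703)) (T.h (P (nat_lit 0)) (T.h (M (nat_lit 53974486825366978559)) (T.h (P (nat_lit 0)) (P (nat_lit 232301117192))))))) (T.h (P (nat_lit 0)) (T.h (T.h (P (nat_lit 0)) (T.h (M (nat_lit 20999579311255060479)) (T.h (P (nat_lit 0)) (M (nat_lit 3170395601471))))) (T.h (P (nat_lit 0)) (T.h (T.h (P (nat_lit 0)) (P (nat_lit 376638881960))) (P (nat_lit 0)))))))) (T.h (T.h (T.h (P (nat_lit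 481498426444980760464064512)) (T.h (P (nat_lit 0)) (T.h (P (nat_lit 26681154423655495630848)) (T.h (P (nat_lit 0)) (P (nat_lit 7017528924438528)))))) (T.h (P (nat_lit 0)) (T.h (T.h (M (nat_lit 30550314660257486340095)) (T.h (P (nat_lit 0)) (P (nat_lit 52353664172392448)))) (T.h (P (nat_lit 0)) (M (nat_lit 24475322561724415)))))) (T.h (T.h (P (nat_lit 0)) (T.h (T.h (P (nat_lit 0)) (T.h (P (nat_lit 49373033002136764416)) (T.h (P (nat_lit 0)) (P (nat_lit 11084003201840))))) (T.h (P (nat_lit 0)) (T.h (T.h (P (nat_lit 0)) (M (nat_lit 12794536799487))) (P (nat_lit 0)))))) (T.h (T.h (T.h (P (nat_lit 5697953271083314446336)) (T.h (P (nat_lit 0)) (P (nat_lit 784067758030848)))) (T.h (P (nat_lit 0)) (M (nat_lit 11781704825339903)))) (T.h (T.h (P (nat_lit 0)) (T.h (T.h (P (nat_lit 0)) (P (nat_lit 1986549294752))) (P (nat_lit 0)))) (P (nat_lit 1101479145242624))))))), (T.h (T.h (P (nat_lit 0)) (T.h (T.h (P (nat_lit 2360562084221628585116434432)) (T.h (P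 (nat_lit 0)) (T.h (P (nat_lit 36617258594338403778560)) (T.h (P (nat_lit 0)) (M (nat_lit 5663859304693759)))))) (T.h (P (nat_lit 0)) (T.h (T.h (P (nat_lit 714074767542896820224)) (T.h (P (nat_lit 0)) (P (nat_lit 20260117991833600)))) (T.h (P (nat_lit 0)) (P (nat_lit 2440102765346816))))))) (T.h (T.h (T.h (P (nat_lit 0)) (T.h (M (nat_lit 31405758993128649400516607)) (T.h (P (nat_lit 0)) (T.h (P (nat_lit 521119890724093952)) (T.h (P (nat_lit 0)) (P (nat_lit 11875290719936))))))) (T.h (P (nat_lit 0)) (T.h (T.h (P (nat_lit 0)) (T.h (M (nat_lit 40257835677308157951)) (T.h (P (nat_lit 0)) (P (nat_lit 8038665908672))))) (T.h (P (nat_lit 0)) (T.h (T.h (P (nat_lit 0)) (M (nat_lit 170731117199))) (P (nat_lit 0))))))) (T.h (T.h (P (nat_lit 0)) (T.h (T.h (M (nat_lit 16419398998575345041407)) (T.h (P (nat_lit 0)) (M (nat_lit 49521916416786431)))) (T.h (P (nat_lit 0)) (M (nat_lit 16069643455397887))))) (T.h (T.h (T.h (P (nat_lit 0)) (T.h (M (nat_lit 9023796676699095039))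 (T.h (P (nat_lit 0)) (M (nat_lit 267617463791))))) (T.h (P (nat_lit 0)) (T.h (T.h (P (nat_lit 0)) (P (nat_lit 3403801104368))) (P (nat_lit 0))))) (T.h (T.h (P (nat_lit 0)) (M (nat_lit 9768375870799871))) (T.h (T.h (T.h (P (nat_lit 0)) (M (nat_lit 476646617775))) (P (nat_lit 0))) (P (nat_lit 0)))))))), (T.h (T.h (P (nat_lit 0)) (T.h (T.h (P (nat_lit 0)) (T.h (P (nat_lit 6781529803475308119064576)) (T.h (P (nat_lit 0)) (T.h (P (nat_lit 41460708389026791424)) (T.h (P (nat_lit 0)) (P (nat_lit 227061500352))))))) (T.h (P (nat_lit 0)) (T.h (T.h (P (nat_lit 0)) (T.h (P (nat_lit 6872914424030560256)) (T.h (P (nat_lit 0)) (M (nat_lit 9250692809791))))) (T.h (P (nat_lit 0)) (T.h (T.h (P (nat_lit 0)) (M (nat_lit 3374982287487))) (P (nat_lit 0)))))))) (T.h (T.h (T.h (M (nat_lit 195617049460243153912070143)) (T.h (P (nat_lit 0)) (T.h (M (nat_lit 21307677140090005487615)) (T.h (P (nat_lit 0)) (M (nat_lit 12531652465655807)))))) (T.h (P (nat_lit 0)) (T.h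 (T.h (P (nat_lit 34533293653360430284800)) (T.h (P (nat_lit 0)) (M (nat_lit 24124768091635711)))) (T.h (P (nat_lit 0)) (P (nat_lit 14747082352263168)))))) (T.h (T.h (P (nat_lit 0)) (T.h (T.h (P (nat_lit 0)) (T.h (M (nat_lit 4653426674468126719)) (T.h (P (nat_lit 0)) (M (nat_lit 19467609627967))))) (T.h (P (nat_lit 0)) (T.h (T.h (P (nat_lit 0)) (P (nat_lit 2849003627328))) (P (nat_lit 0)))))) (T.h (T.h (T.h (M (nat_lit 3964114439558481838079)) (T.h (P (nat_lit 0)) (M (nat_lit 4071089117626367)))) (T.h (P (nat_lit 0)) (P (nat_lit 1016721890443264)))) (T.h (T.h (P (nat_lit 0)) (T.h (T.h (P (nat_lit 0)) (P (nat_lit 172857894208))) (P (nat_lit 0)))) (M (nat_lit 2371883362058239)))))))]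
def lQm_8 : List (T ℤ) := [(T.h (T.h (P (nat_lit 0)) (T.h (T.h (M (nat_lit 3402341988066177641621749759)) (T.h (P (nat_lit 0)) (T.h (M (nat_lit 22557465762590185488383)) (T.h (P (nat_lit 0)) (P (nat_lit 723882441949184)))))) (T.h (P (nat_lit 0)) (T.h (T.h (M (nat_lit 311281724839209992191)) (T.h (P (nat_lit 0)) (P (nat_lit 6354815568904192)))) (T.h (P (nat_lit 0)) (P (nat_lit 396931717021696))))))) (T.h (T.h (T.h (P (nat_lit 0)) (T.h (P (nat_lit 17043484856467139858530304)) (T.h (P (nat_lit 0)) (P (nat_lit 2896091241655566336))))) (T.h (P (nat_lit 0)) (T.h (T.h (P (nat_lit 0)) (P (nat_lit 11739852891748302848))) (P (nat_lit 0))))) (T.h (T.h (P (nat_lit 0)) (T.h (T.h (P (nat_lit 19467932748244439793664)) (T.h (P (nat_lit 0)) (P (nat_lit 12701974667231232)))) (T.h (P (nat_lit 0)) (M (nat_lit 3918274737192959))))) (T.h (T.h (T.h (P (nat_lit 0)) (P (nat_lit 12429613524915847168))) (P (nat_lit 0))) (T.h (T.h (P (nat_lit 0)) (M (nat_lit 2379570363793407)))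 (P (nat_lit 0))))))), (P (nat_lit 0)), (P (nat_lit 0)), (T.h (T.h (T.h (P (nat_lit 0)) (T.h (M (nat_lit 12852879613821572345757695)) (T.h (P (nat_lit 0)) (T.h (P (nat_lit 637446587506065670144)) (T.h (P (nat_lit 0)) (M (nat_lit 659354132676607))))))) (T.h (P (nat_lit 0)) (T.h (T.h (P (nat_lit 0)) (T.h (M (nat_lit 285728088897521451007)) (T.h (P (nat_lit 0)) (M (nat_lit 2387430420054015))))) (T.h (P (nat_lit 0)) (T.h (T.h (P (nat_lit 0)) (M (nat_lit 9820380577136639))) (P (nat_lit 0))))))) (T.h (T.h (P (nat_lit 0)) (T.h (T.h (M (nat_lit 1351268652085930406969343)) (T.h (P (nat_lit 0)) (T.h (M (nat_lit 9106968498537496575)) (T.h (P (nat_lit 0)) (P (nat_lit 13499878995904)))))) (T.h (P (nat_lit 0)) (T.h (T.h (M (nat_lit 1456239894979411967)) (T.h (P (nat_lit 0)) (P (nat_lit 5706106126624)))) (T.h (P (nat_lit 0)) (M (nat_lit 792617250143))))))) (T.h (T.h (T.h (P (nat_lit 0)) (T.h (M (nat_lit 285728088897521451007)) (T.h (P (nat_lit 0)) (M (nat_lit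 2387430420054015))))) (T.h (P (nat_lit 0)) (T.h (T.h (P (nat_lit 0)) (M (nat_lit 11595435753078783))) (P (nat_lit 0))))) (T.h (T.h (P (nat_lit 0)) (T.h (T.h (M (nat_lit 1456239894979411967)) (T.h (P (nat_lit 0)) (P (nat_lit 5706106126624)))) (T.h (P (nat_lit 0)) (P (nat_lit 3108367647936))))) (T.h (T.h (T.h (P (nat_lit 0)) (M (nat_lit 9820380577136639))) (P (nat_lit 0))) (T.h (T.h (P (nat_lit 0)) (M (nat_lit 792617250143))) (P (nat_lit 0)))))))), (T.h (T.h (T.h (P (nat_lit 334640716065204902163684261888)) (T.h (P (nat_lit 0)) (T.h (M (nat_lit 12599577724235064664915967)) (T.h (P (nat_lit 0)) (T.h (P (nat_lit 20011503028845674496)) (T.h (P (nat_lit 0)) (P (nat_lit 3445972896)))))))) (T.h (P (nat_lit 0)) (T.h (T.h (M (nat_lit 346650455776612682039295)) (T.h (P (nat_lit 0)) (T.h (M (nat_lit 18751379505200234495)) (T.h (P (nat_lit 0)) (P (nat_lit 2516063840048)))))) (T.h (P (nat_lit 0)) (T.h (T.h (P (nat_lit 10914297769569026048)) (T.h (P (nat_lit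 0)) (M (nat_lit 5826733407071)))) (T.h (P (nat_lit 0)) (M (nat_lit 742437631215)))))))) (T.h (T.h (P (nat_lit 0)) (T.h (T.h (P (nat_lit 0)) (T.h (P (nat_lit 2827372530029335412736)) (T.h (P (nat_lit 0)) (P (nat_lit 68465521162321920))))) (T.h (P (nat_lit 0)) (T.h (T.h (P (nat_lit 0)) (P (nat_lit 10688244118454272))) (P (nat_lit 0)))))) (T.h (T.h (T.h (M (nat_lit 346650455776612682039295)) (T.h (P (nat_lit 0)) (T.h (M (nat_lit 18751379505200234495)) (T.h (P (nat_lit 0)) (P (nat_lit 2516063840048)))))) (T.h (P (nat_lit 0)) (T.h (T.h (P (nat_lit 56584880978546130944)) (T.h (P (nat_lit 0)) (P (nat_lit 2288125408)))) (T.h (P (nat_lit 0)) (M (nat_lit 701830605887)))))) (T.h (T.h (P (nat_lit 0)) (T.h (T.h (P (nat_lit 0)) (P (nat_lit 10688244118454272))) (P (nat_lit 0)))) (T.h (T.h (T.h (P (nat_lit 10914297769569026048)) (T.h (P (nat_lit 0)) (M (nat_lit 5826733407071)))) (T.h (P (nat_lit 0)) (M (nat_lit 701830605887)))) (T.h (P (nat_lit 0)) (M (nat_lit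 742437631215)))))))), (T.h (T.h (T.h (P (nat_lit 0)) (T.h (P (nat_lit 1274835501234415265053147136)) (T.h (P (nat_lit 0)) (T.h (M (nat_lit 28054637439075940827135)) (T.h (P (nat_lit 0)) (P (nat_lit 14290841708625920))))))) (T.h (P (nat_lit 0)) (T.h (T.h (P (nat_lit 0)) (T.h (P (nat_lit 25879262263560112177152)) (T.h (P (nat_lit 0)) (P (nat_lit 5499124897611776))))) (T.h (P (nat_lit 0)) (T.h (T.h (P (nat_lit 0)) (P (nat_lit 17005672959475712))) (P (nat_lit 0))))))) (T.h (T.h (P (nat_lit 0)) (T.h (T.h (M (nat_lit 10900861621101865260285951)) (T.h (P (nat_lit 0)) (T.h (P (nat_lit 61799540729095127040)) (T.h (P (nat_lit 0)) (M (nat_lit 24657609824063)))))) (T.h (P (nat_lit 0)) (T.h (T.h (P (nat_lit 10343249924551868416)) (T.h (P (nat_lit 0)) (M (nat_lit 1321085431679)))) (T.h (P (nat_lit 0)) (P (nat_lit 4818155716864))))))) (T.h (T.h (T.h (P (nat_lit 0)) (T.h (P (nat_lit 25879262263560112177152)) (T.h (P (nat_lit 0)) (P (nat_lit 5499124897611776)))))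 (T.h (P (nat_lit 0)) (T.h (T.h (P (nat_lit 0)) (M (nat_lit 45833303586930687))) (P (nat_lit 0))))) (T.h (T.h (P (nat_lit 0)) (T.h (T.h (P (nat_lit 10343249924551868416)) (T.h (P (nat_lit 0)) (M (nat_lit 1321085431679)))) (T.h (P (nat_lit 0)) (P (nat_lit 2939123638080))))) (T.h (T.h (T.h (P (nat_lit 0)) (P (nat_lit 17005672959475712))) (P (nat_lit 0))) (T.h (T.h (P (nat_lit 0)) (P (nat_lit 4818155716864))) (P (nat_lit 0)))))))), (T.h (T.h (T.h (M (nat_lit 810696587689923214839151329279)) (T.h (P (nat_lit 0)) (T.h (M (nat_lit 17574285460876300923174911)) (T.h (P (nat_lit 0)) (T.h (M (nat_lit 35803479291014938623)) (T.h (P (nat_lit 0)) (M (nat_lit 8960604330879)))))))) (T.h (P (nat_lit 0)) (T.h (T.h (P (nat_lit 4348825794826340325654528)) (T.h (P (nat_lit 0)) (T.h (P (nat_lit 39355329431113564160)) (T.h (P (nat_lit 0)) (M (nat_lit 17856083280127)))))) (T.h (P (nat_lit 0)) (T.h (T.h (M (nat_lit 18286102558000807935)) (T.h (P (nat_lit 0)) (M (nat_lit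 13171983054463)))) (T.h (P (nat_lit 0)) (P (nat_lit 5681656299648)))))))) (T.h (T.h (P (nat_lit 0)) (T.h (T.h (P (nat_lit 0)) (T.h (M (nat_lit 110830120243148366020607)) (T.h (P (nat_lit 0)) (P (nat_lit 125348801092255744))))) (T.h (P (nat_lit 0)) (T.h (T.h (P (nat_lit 0)) (M (nat_lit 85688293725765631))) (P (nat_lit 0)))))) (T.h (T.h (T.h (P (nat_lit 4348825794826340325654528)) (T.h (P (nat_lit 0)) (T.h (P (nat_lit 39355329431113564160)) (T.h (P (nat_lit 0)) (M (nat_lit 17856083280127)))))) (T.h (P (nat_lit 0)) (T.h (T.h (M (nat_lit 14829725398530523135)) (T.h (P (nat_lit 0)) (M (nat_lit 40632614303615)))) (T.h (P (nat_lit 0)) (P (nat_lit 8021489520576)))))) (T.h (T.h (P (nat_lit 0)) (T.h (T.h (P (nat_lit 0)) (M (nat_lit 85688293725765631))) (P (nat_lit 0)))) (T.h (T.h (T.h (M (nat_lit 18286102558000807935)) (T.h (P (nat_lit 0)) (M (nat_lit 13171983054463)))) (T.h (P (nat_lit 0)) (P (nat_lit 8021489520576)))) (T.h (P (nat_lit 0)) (P (nat_lit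 5681656299648)))))))), (T.h (T.h (T.h (P (nat_lit 0)) (T.h (P (nat_lit 10791888917891311952700899328)) (T.h (P (nat_lit 0)) (T.h (P (nat_lit 1626752472681682042880)) (T.h (P (nat_lit 0)) (P (nat_lit 13647232764051456))))))) (T.h (P (nat_lit 0)) (T.h (T.h (P (nat_lit 0)) (T.h (M (nat_lit 39314200272193718321151)) (T.h (P (nat_lit 0)) (P (nat_lit 30372869421531136))))) (T.h (P (nat_lit 0)) (T.h (T.h (P (nat_lit 0)) (P (nat_lit 11019781030952960))) (P (nat_lit 0))))))) (T.h (T.h (P (nat_lit 0)) (T.h (T.h (M (nat_lit 4552137591189246866096127)) (T.h (P (nat_lit 0)) (M (nat_lit 60886120603446149119)))) (T.h (P (nat_lit 0)) (P (nat_lit 3540785065044738048))))) (T.h (T.h (T.h (P (nat_lit 0)) (T.h (M (nat_lit 39314200272193718321151)) (T.h (P (nat_lit 0)) (P (nat_lit 30372869421531136))))) (T.h (P (nat_lit 0)) (T.h (T.h (P (nat_lit 0)) (P (nat_lit 16427828951875584))) (P (nat_lit 0))))) (T.h (T.h (P (nat_lit 0)) (P (nat_lit 3540785065044738048))) (T.h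 (T.h (T.h (P (nat_lit 0)) (P (nat_lit 11019781030952960))) (P (nat_lit 0))) (P (nat_lit 0)))))))]
def lQm_9 : List (T ℤ) := [(P (nat_lit 0)), (P (nat_lit 0)), (T.h (T.h (P (nat_lit 0)) (T.h (T.h (M (nat_lit 12852879613821572345757695)) (T.h (P (nat_lit 0)) (T.h (M (nat_lit 285728088897521451007)) (T.h (P (nat_lit 0)) (M (nat_lit 9820380577136639)))))) (T.h (P (nat_lit 0)) (T.h (T.h (P (nat_lit 637446587506065670144)) (T.h (P (nat_lit 0)) (M (nat_lit 2387430420054015)))) (T.h (P (nat_lit 0)) (M (nat_lit 659354132676607))))))) (T.h (T.h (T.h (P (nat_lit 0)) (T.h (M (nat_lit 1351268652085930406969343)) (T.h (P (nat_lit 0)) (T.h (M (nat_lit 1456239894979411967)) (T.h (P (nat_lit 0)) (M (nat_lit 792617250143))))))) (T.h (P (nat_lit 0)) (T.h (T.h (P (nat_lit 0)) (T.h (M (nat_lit 9106968498537496575)) (T.h (P (nat_lit 0)) (P (nat_lit 5706106126624))))) (T.h (P (nat_lit 0)) (T.h (T.h (P (nat_lit 0)) (P (nat_lit 13499878995904))) (P (nat_lit 0)))))))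 (T.h (T.h (P (nat_lit 0)) (T.h (T.h (M (nat_lit 285728088897521451007)) (T.h (P (nat_lit 0)) (M (nat_lit 11595435753078783)))) (T.h (P (nat_lit 0)) (M (nat_lit 2387430420054015))))) (T.h (T.h (T.h (P (nat_lit 0)) (T.h (M (nat_lit 1456239894979411967)) (T.h (P (nat_lit 0)) (P (nat_lit 3108367647936))))) (T.h (P (nat_lit 0)) (T.h (T.h (P (nat_lit 0)) (P (nat_lit 5706106126624))) (P (nat_lit 0))))) (T.h (T.h (P (nat_lit 0)) (M (nat_lit 9820380577136639))) (T.h (T.h (T.h (P (nat_lit 0)) (M (nat_lit 792617250143))) (P (nat_lit 0))) (P (nat_lit 0)))))))), (T.h (T.h (P (nat_lit 0)) (T.h (T.h (P (nat_lit 0)) (T.h (P (nat_lit 8574249109285047659134976)) (T.h (P (nat_lit 0)) (T.h (P (nat_lit 20318268837398052864)) (T.h (P (nat_lit 0)) (P (nat_lit 2667068517176))))))) (T.h (P (nat_lit 0)) (T.h (T.h (P (nat_lit 0)) (T.h (P (nat_lit 20318268837398052864)) (T.h (P (nat_lit 0)) (M (nat_lit 11205976436639))))) (T.h (P (nat_lit 0)) (T.h (T.h (P (nat_lit 0))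 (P (nat_lit 2667068517176))) (P (nat_lit 0)))))))) (T.h (T.h (T.h (M (nat_lit 12250395560038020876844662783)) (T.h (P (nat_lit 0)) (T.h (M (nat_lit 8144800713582885994495)) (T.h (P (nat_lit 0)) (M (nat_lit 21822656918716415)))))) (T.h (P (nat_lit 0)) (T.h (T.h (M (nat_lit 8144800713582885994495)) (T.h (P (nat_lit 0)) (P (nat_lit 121971278184972288)))) (T.h (P (nat_lit 0)) (M (nat_lit 21822656918716415)))))) (T.h (T.h (P (nat_lit 0)) (T.h (T.h (P (nat_lit 0)) (T.h (M (nat_lit 47123857973291515903)) (T.h (P (nat_lit 0)) (M (nat_lit 6473973622807))))) (T.h (P (nat_lit 0)) (T.h (T.h (P (nat_lit 0)) (M (nat_lit 6473973622807))) (P (nat_lit 0)))))) (T.h (T.h (T.h (M (nat_lit 19837207699869008920575)) (T.h (P (nat_lit 0)) (M (nat_lit 16219260186099711)))) (T.h (P (nat_lit 0)) (M (nat_lit 16219260186099711)))) (T.h (T.h (P (nat_lit 0)) (T.h (T.h (P (nat_lit 0)) (P (nat_lit 5650647208912))) (P (nat_lit 0)))) (M (nat_lit 15858036691697663))))))), (T.h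 (T.h (P (nat_lit 0)) (T.h (T.h (P (nat_lit 1190417878467455091652689920)) (T.h (P (nat_lit 0)) (T.h (M (nat_lit 178699207068143585329151)) (T.h (P (nat_lit 0)) (M (nat_lit 16664568383143935)))))) (T.h (P (nat_lit 0)) (T.h (T.h (P (nat_lit 26172018345570226667520)) (T.h (P (nat_lit 0)) (P (nat_lit 84066674971803648)))) (T.h (P (nat_lit 0)) (P (nat_lit 845639420919808))))))) (T.h (T.h (T.h (P (nat_lit 0)) (T.h (P (nat_lit 39587408417186340669489152)) (T.h (P (nat_lit 0)) (T.h (M (nat_lit 18463015768434933759)) (T.h (P (nat_lit 0)) (M (nat_lit 5632617450207))))))) (T.h (P (nat_lit 0)) (T.h (T.h (P (nat_lit 0)) (T.h (P (nat_lit 130140937352900509696)) (T.h (P (nat_lit 0)) (M (nat_lit 13000870878351))))) (T.h (P (nat_lit 0)) (T.h (T.h (P (nat_lit 0)) (M (nat_lit 71336986172927))) (P (nat_lit 0))))))) (T.h (T.h (P (nat_lit 0)) (T.h (T.h (P (nat_lit 31085853986710435659776)) (T.h (P (nat_lit 0)) (M (nat_lit 14191932489744383)))) (T.h (P (nat_lit 0))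 (M (nat_lit 45041536216449023))))) (T.h (T.h (T.h (P (nat_lit 0)) (T.h (M (nat_lit 21131093311641092095)) (T.h (P (nat_lit 0)) (M (nat_lit 8063003288703))))) (T.h (P (nat_lit 0)) (T.h (T.h (P (nat_lit 0)) (M (nat_lit 13156209311727))) (P (nat_lit 0))))) (T.h (T.h (P (nat_lit 0)) (P (nat_lit 33828731189133312))) (T.h (T.h (T.h (P (nat_lit 0)) (M (nat_lit 12153382404239))) (P (nat_lit 0))) (P (nat_lit 0)))))))), (T.h (T.h (P (nat_lit 0)) (T.h (T.h (P (nat_lit 0)) (T.h (P (nat_lit 45895461587282081093779456)) (T.h (P (nat_lit 0)) (T.h (M (nat_lit 132497166626126299135)) (T.h (P (nat_lit 0)) (M (nat_lit 49546857328575))))))) (T.h (P (nat_lit 0)) (T.h (T.h (P (nat_lit 0)) (T.h (M (nat_lit 9299283688523038719)) (T.h (P (nat_lit 0)) (P (nat_lit 20259293530944))))) (T.h (P (nat_lit 0)) (T.h (T.h (P (nat_lit 0)) (M (nat_lit 22294549504639))) (P (nat_lit 0)))))))) (T.h (T.h (T.h (P (nat_lit 3702363822789395728794910720)) (T.h (P (nat_lit 0)) (T.h (P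 (nat_lit 41905726175429229805568)) (T.h (P (nat_lit 0)) (P (nat_lit 88632905097216000)))))) (T.h (P (nat_lit 0)) (T.h (T.h (M (nat_lit 90403578470243908976639)) (T.h (P (nat_lit 0)) (P (nat_lit 50639647774375936)))) (T.h (P (nat_lit 0)) (M (nat_lit 3203367007879167)))))) (T.h (T.h (P (nat_lit 0)) (T.h (T.h (P (nat_lit 0)) (T.h (P (nat_lit 104285394266293796864)) (T.h (P (nat_lit 0)) (M (nat_lit 34116370026495))))) (T.h (P (nat_lit 0)) (T.h (T.h (P (nat_lit 0)) (P (nat_lit 16065160221824))) (P (nat_lit 0)))))) (T.h (T.h (T.h (P (nat_lit 25529900305342426775552)) (T.h (P (nat_lit 0)) (M (nat_lit 33222815373590527)))) (T.h (P (nat_lit 0)) (M (nat_lit 47829927093829631)))) (T.h (T.h (P (nat_lit 0)) (T.h (T.h (P (nat_lit 0)) (M (nat_lit 1978396775167))) (P (nat_lit 0)))) (P (nat_lit 30804322491269120))))))), (T.h (T.h (P (nat_lit 0)) (T.h (T.h (M (nat_lit 3057717378853825663268290559)) (T.h (P (nat_lit 0)) (T.h (P (nat_lit 34371714572181032665088))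 (T.h (P (nat_lit 0)) (P (nat_lit 72177182128979968)))))) (T.h (P (nat_lit 0)) (T.h (T.h (M (nat_lit 1780258074724053024767)) (T.h (P (nat_lit 0)) (P (nat_lit 6497396134756352)))) (T.h (P (nat_lit 0)) (M (nat_lit 4763365724028927))))))) (T.h (T.h (T.h (P (nat_lit 0)) (T.h (P (nat_lit 12660772485101187447652352)) (T.h (P (nat_lit 0)) (M (nat_lit 112093646349093830655))))) (T.h (P (nat_lit 0)) (T.h (T.h (P (nat_lit 0)) (P (nat_lit 45047154406338854912))) (P (nat_lit 0))))) (T.h (T.h (P (nat_lit 0)) (T.h (T.h (M (nat_lit 8447562600720023683071)) (T.h (P (nat_lit 0)) (P (nat_lit 79412148893564928)))) (T.h (P (nat_lit 0)) (M (nat_lit 4163999934857215))))) (T.h (T.h (T.h (P (nat_lit 0)) (P (nat_lit 35855661794571845632))) (P (nat_lit 0))) (T.h (T.h (P (nat_lit 0)) (M (nat_lit 19241456788209663))) (P (nat_lit 0))))))), (P (nat_lit 0))]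
def lQm_10 : List (T ℤ) := [(P (nat_lit 0)), (T.h (T.h (T.h (P (nat_lit 0)) (T.h (P (nat_lit 532858792078950653260464128)) (T.h (P (nat_lit 0)) (T.h (M (nat_lit 3075121913902334476287)) (T.h (P (nat_lit 0)) (M (nat_lit 1221575086440447))))))) (T.h (P (nat_lit 0)) (T.h (T.h (P (nat_lit 0)) (T.h (M (nat_lit 4144768062586427015167)) (T.h (P (nat_lit 0)) (M (nat_lit 14061861106614271))))) (T.h (P (nat_lit 0)) (T.h (T.h (P (nat_lit 0)) (P (nat_lit 10195113124757504))) (P (nat_lit 0))))))) (T.h (T.h (P (nat_lit 0)) (T.h (T.h (P (nat_lit 8717922922079423085674496)) (T.h (P (nat_lit 0)) (T.h (P (nat_lit 10942545611232116736)) (T.h (P (nat_lit 0)) (P (nat_lit 3166704741056)))))) (T.h (P (nat_lit 0)) (T.h (T.h (P (nat_lit 6521691154386255872)) (T.h (P (nat_lit 0)) (M (nat_lit 9748205673263)))) (T.h (P (nat_lit 0)) (M (nat_lit 5165935566879))))))) (T.h (T.h (T.h (P (nat_lit 0)) (T.h (P (nat_lit 3321691345876869447680)) (T.h (P (nat_lit 0)) (P (nat_lit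 15163554349252608))))) (T.h (P (nat_lit 0)) (T.h (T.h (P (nat_lit 0)) (P (nat_lit 15787150469627904))) (P (nat_lit 0))))) (T.h (T.h (P (nat_lit 0)) (T.h (T.h (M (nat_lit 193192647643365375)) (T.h (P (nat_lit 0)) (M (nat_lit 172863613551)))) (T.h (P (nat_lit 0)) (P (nat_lit 3373397582576))))) (T.h (T.h (T.h (P (nat_lit 0)) (P (nat_lit 2725830294568960))) (P (nat_lit 0))) (T.h (T.h (P (nat_lit 0)) (M (nat_lit 424261102751))) (P (nat_lit 0)))))))), (T.h (T.h (T.h (P (nat_lit 334640716065204902163684261888)) (T.h (P (nat_lit 0)) (T.h (M (nat_lit 346650455776612682039295)) (T.h (P (nat_lit 0)) (T.h (P (nat_lit 10914297769569026048)) (T.h (P (nat_lit 0)) (M (nat_lit 742437631215)))))))) (T.h (P (nat_lit 0)) (T.h (T.h (M (nat_lit 12599577724235064664915967)) (T.h (P (nat_lit 0)) (T.h (M (nat_lit 18751379505200234495)) (T.h (P (nat_lit 0)) (M (nat_lit 5826733407071)))))) (T.h (P (nat_lit 0)) (T.h (T.h (P (nat_lit 20011503028845674496)) (T.h (P (nat_lit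 0)) (P (nat_lit 2516063840048)))) (T.h (P (nat_lit 0)) (P (nat_lit 3445972896)))))))) (T.h (T.h (P (nat_lit 0)) (T.h (T.h (P (nat_lit 0)) (T.h (P (nat_lit 2827372530029335412736)) (T.h (P (nat_lit 0)) (P (nat_lit 10688244118454272))))) (T.h (P (nat_lit 0)) (T.h (T.h (P (nat_lit 0)) (P (nat_lit 68465521162321920))) (P (nat_lit 0)))))) (T.h (T.h (T.h (M (nat_lit 346650455776612682039295)) (T.h (P (nat_lit 0)) (T.h (P (nat_lit 56584880978546130944)) (T.h (P (nat_lit 0)) (M (nat_lit 701830605887)))))) (T.h (P (nat_lit 0)) (T.h (T.h (M (nat_lit 18751379505200234495)) (T.h (P (nat_lit 0)) (P (nat_lit 2288125408)))) (T.h (P (nat_lit 0)) (P (nat_lit 2516063840048)))))) (T.h (T.h (P (nat_lit 0)) (T.h (T.h (P (nat_lit 0)) (P (nat_lit 10688244118454272))) (P (nat_lit 0)))) (T.h (T.h (T.h (P (nat_lit 10914297769569026048)) (T.h (P (nat_lit 0)) (M (nat_lit 701830605887)))) (T.h (P (nat_lit 0)) (M (nat_lit 5826733407071)))) (T.h (P (nat_lit 0)) (M (nat_lit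 742437631215)))))))), (T.h (T.h (T.h (P (nat_lit 0)) (T.h (P (nat_lit 1190417878467455091652689920)) (T.h (P (nat_lit 0)) (T.h (P (nat_lit 26172018345570226667520)) (T.h (P (nat_lit 0)) (P (nat_lit 845639420919808))))))) (T.h (P (nat_lit 0)) (T.h (T.h (P (nat_lit 0)) (T.h (M (nat_lit 178699207068143585329151)) (T.h (P (nat_lit 0)) (P (nat_lit 84066674971803648))))) (T.h (P (nat_lit 0)) (T.h (T.h (P (nat_lit 0)) (M (nat_lit 16664568383143935))) (P (nat_lit 0))))))) (T.h (T.h (P (nat_lit 0)) (T.h (T.h (P (nat_lit 39587408417186340669489152)) (T.h (P (nat_lit 0)) (T.h (P (nat_lit 130140937352900509696)) (T.h (P (nat_lit 0)) (M (nat_lit 71336986172927)))))) (T.h (P (nat_lit 0)) (T.h (T.h (M (nat_lit 18463015768434933759)) (T.h (P (nat_lit 0)) (M (nat_lit 13000870878351)))) (T.h (P (nat_lit 0)) (M (nat_lit 5632617450207))))))) (T.h (T.h (T.h (P (nat_lit 0)) (T.h (P (nat_lit 31085853986710435659776)) (T.h (P (nat_lit 0)) (M (nat_lit 45041536216449023)))))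 (T.h (P (nat_lit 0)) (T.h (T.h (P (nat_lit 0)) (M (nat_lit 14191932489744383))) (P (nat_lit 0))))) (T.h (T.h (P (nat_lit 0)) (T.h (T.h (M (nat_lit 21131093311641092095)) (T.h (P (nat_lit 0)) (M (nat_lit 13156209311727)))) (T.h (P (nat_lit 0)) (M (nat_lit 8063003288703))))) (T.h (T.h (T.h (P (nat_lit 0)) (P (nat_lit 33828731189133312))) (P (nat_lit 0))) (T.h (T.h (P (nat_lit 0)) (M (nat_lit 12153382404239))) (P (nat_lit 0)))))))), (T.h (T.h (T.h (P (nat_lit 1926289178347798091970222489600)) (T.h (P (nat_lit 0)) (T.h (P (nat_lit 47330361431426335642746880)) (T.h (P (nat_lit 0)) (T.h (P (nat_lit 5120460088942788608)) (T.h (P (nat_lit 0)) (P (nat_lit 1207207314880)))))))) (T.h (P (nat_lit 0)) (T.h (T.h (P (nat_lit 47330361431426335642746880)) (T.h (P (nat_lit 0)) (T.h (M (nat_lit 230600563208908439551)) (T.h (P (nat_lit 0)) (M (nat_lit 34433058470527)))))) (T.h (P (nat_lit 0)) (T.h (T.h (P (nat_lit 5120460088942788608)) (T.h (P (nat_lit 0)) (M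 (nat_lit 34433058470527)))) (T.h (P (nat_lit 0)) (P (nat_lit 1207207314880)))))))) (T.h (T.h (P (nat_lit 0)) (T.h (T.h (P (nat_lit 0)) (T.h (M (nat_lit 6298528377167190949887)) (T.h (P (nat_lit 0)) (P (nat_lit 134977345443725312))))) (T.h (P (nat_lit 0)) (T.h (T.h (P (nat_lit 0)) (P (nat_lit 134977345443725312))) (P (nat_lit 0)))))) (T.h (T.h (T.h (M (nat_lit 33340692085265967498657791)) (T.h (P (nat_lit 0)) (T.h (P (nat_lit 104285345478686539776)) (T.h (P (nat_lit 0)) (M (nat_lit 14133246574335)))))) (T.h (P (nat_lit 0)) (T.h (T.h (P (nat_lit 104285345478686539776)) (T.h (P (nat_lit 0)) (M (nat_lit 72133862804607)))) (T.h (P (nat_lit 0)) (M (nat_lit 14133246574335)))))) (T.h (T.h (P (nat_lit 0)) (T.h (T.h (P (nat_lit 0)) (M (nat_lit 46579037508337663))) (P (nat_lit 0)))) (T.h (T.h (T.h (M (nat_lit 46840225438281760767)) (T.h (P (nat_lit 0)) (P (nat_lit 42450382400320)))) (T.h (P (nat_lit 0)) (P (nat_lit 42450382400320)))) (T.h (P (nat_lit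 0)) (M (nat_lit 16570632507263)))))))), (T.h (T.h (T.h (P (nat_lit 0)) (T.h (M (nat_lit 7898869424295032560457613311)) (T.h (P (nat_lit 0)) (T.h (P (nat_lit 25619508905965531430912)) (T.h (P (nat_lit 0)) (P (nat_lit 5990357490696192))))))) (T.h (P (nat_lit 0)) (T.h (T.h (P (nat_lit 0)) (T.h (P (nat_lit 20518604022785385693184)) (T.h (P (nat_lit 0)) (P (nat_lit 25828239031599104))))) (T.h (P (nat_lit 0)) (T.h (T.h (P (nat_lit 0)) (P (nat_lit 37244374366273536))) (P (nat_lit 0))))))) (T.h (T.h (P (nat_lit 0)) (T.h (T.h (P (nat_lit 3808010078810433310949376)) (T.h (P (nat_lit 0)) (M (nat_lit 47737917958413877247)))) (T.h (P (nat_lit 0)) (M (nat_lit 7228349994594467839))))) (T.h (T.h (T.h (P (nat_lit 0)) (T.h (M (nat_lit 66894456594855284965375)) (T.h (P (nat_lit 0)) (P (nat_lit 34505731325050880))))) (T.h (P (nat_lit 0)) (T.h (T.h (P (nat_lit 0)) (P (nat_lit 4558212600184832))) (P (nat_lit 0))))) (T.h (T.h (P (nat_lit 0)) (P (nat_lit 39699916217686949888)))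 (T.h (T.h (T.h (P (nat_lit 0)) (M (nat_lit 17205814889070591))) (P (nat_lit 0))) (P (nat_lit 0))))))), (P (nat_lit 0)), (P (nat_lit 0))]
def lQm_11 : List (T ℤ) := [(T.h (T.h (P (nat_lit 0)) (T.h (T.h (P (nat_lit 0)) (T.h (M (nat_lit 7876353602873980778184703)) (T.h (P (nat_lit 0)) (T.h (M (nat_lit 20999579311255060479)) (T.h (P (nat_lit 0)) (P (nat_lit 376638881960))))))) (T.h (P (nat_lit 0)) (T.h (T.h (P (nat_lit 0)) (T.h (M (nat_lit 53974486825366978559)) (T.h (P (nat_lit 0)) (M (nat_lit 3170395601471))))) (T.h (P (nat_lit 0)) (T.h (T.h (P (nat_lit 0)) (P (nat_lit 232301117192))) (P (nat_lit 0)))))))) (T.h (T.h (T.h (P (nat_lit 481498426444980760464064512)) (T.h (P (nat_lit 0)) (T.h (M (nat_lit 30550314660257486340095)) (T.h (P (nat_lit 0)) (M (nat_lit 24475322561724415)))))) (T.h (P (nat_lit 0)) (T.h (T.h (P (nat_lit 26681154423655495630848)) (T.h (P (nat_lit 0)) (P (nat_lit 52353664172392448)))) (T.h (P (nat_lit 0)) (P (nat_lit 7017528924438528))))))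 (T.h (T.h (P (nat_lit 0)) (T.h (T.h (P (nat_lit 0)) (T.h (P (nat_lit 49373033002136764416)) (T.h (P (nat_lit 0)) (M (nat_lit 12794536799487))))) (T.h (P (nat_lit 0)) (T.h (T.h (P (nat_lit 0)) (P (nat_lit 11084003201840))) (P (nat_lit 0)))))) (T.h (T.h (T.h (P (nat_lit 5697953271083314446336)) (T.h (P (nat_lit 0)) (M (nat_lit 11781704825339903)))) (T.h (P (nat_lit 0)) (P (nat_lit 784067758030848)))) (T.h (T.h (P (nat_lit 0)) (T.h (T.h (P (nat_lit 0)) (P (nat_lit 1986549294752))) (P (nat_lit 0)))) (P (nat_lit 1101479145242624))))))), (T.h (T.h (P (nat_lit 0)) (T.h (T.h (P (nat_lit 1274835501234415265053147136)) (T.h (P (nat_lit 0)) (T.h (P (nat_lit 25879262263560112177152)) (T.h (P (nat_lit 0)) (P (nat_lit 17005672959475712)))))) (T.h (P (nat_lit 0)) (T.h (T.h (M (nat_lit 28054637439075940827135)) (T.h (P (nat_lit 0)) (P (nat_lit 5499124897611776)))) (T.h (P (nat_lit 0)) (P (nat_lit 14290841708625920))))))) (T.h (T.h (T.h (P (nat_lit 0)) (T.h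 (M (nat_lit 10900861621101865260285951)) (T.h (P (nat_lit 0)) (T.h (P (nat_lit 10343249924551868416)) (T.h (P (nat_lit 0)) (P (nat_lit 4818155716864))))))) (T.h (P (nat_lit 0)) (T.h (T.h (P (nat_lit 0)) (T.h (P (nat_lit 61799540729095127040)) (T.h (P (nat_lit 0)) (M (nat_lit 1321085431679))))) (T.h (P (nat_lit 0)) (T.h (T.h (P (nat_lit 0)) (M (nat_lit 24657609824063))) (P (nat_lit 0))))))) (T.h (T.h (P (nat_lit 0)) (T.h (T.h (P (nat_lit 25879262263560112177152)) (T.h (P (nat_lit 0)) (M (nat_lit 45833303586930687)))) (T.h (P (nat_lit 0)) (P (nat_lit 5499124897611776))))) (T.h (T.h (T.h (P (nat_lit 0)) (T.h (P (nat_lit 10343249924551868416)) (T.h (P (nat_lit 0)) (P (nat_lit 2939123638080))))) (T.h (P (nat_lit 0)) (T.h (T.h (P (nat_lit 0)) (M (nat_lit 1321085431679))) (P (nat_lit 0))))) (T.h (T.h (P (nat_lit 0)) (P (nat_lit 17005672959475712))) (T.h (T.h (T.h (P (nat_lit 0)) (P (nat_lit 4818155716864))) (P (nat_lit 0))) (P (nat_lit 0)))))))),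 (T.h (T.h (P (nat_lit 0)) (T.h (T.h (P (nat_lit 0)) (T.h (P (nat_lit 45895461587282081093779456)) (T.h (P (nat_lit 0)) (T.h (M (nat_lit 9299283688523038719)) (T.h (P (nat_lit 0)) (M (nat_lit 22294549504639))))))) (T.h (P (nat_lit 0)) (T.h (T.h (P (nat_lit 0)) (T.h (M (nat_lit 132497166626126299135)) (T.h (P (nat_lit 0)) (P (nat_lit 20259293530944))))) (T.h (P (nat_lit 0)) (T.h (T.h (P (nat_lit 0)) (M (nat_lit 49546857328575))) (P (nat_lit 0)))))))) (T.h (T.h (T.h (P (nat_lit 3702363822789395728794910720)) (T.h (P (nat_lit 0)) (T.h (M (nat_lit 90403578470243908976639)) (T.h (P (nat_lit 0)) (M (nat_lit 3203367007879167)))))) (T.h (P (nat_lit 0)) (T.h (T.h (P (nat_lit 41905726175429229805568)) (T.h (P (nat_lit 0)) (P (nat_lit 50639647774375936)))) (T.h (P (nat_lit 0)) (P (nat_lit 88632905097216000)))))) (T.h (T.h (P (nat_lit 0)) (T.h (T.h (P (nat_lit 0)) (T.h (P (nat_lit 104285394266293796864)) (T.h (P (nat_lit 0)) (P (nat_lit 16065160221824)))))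 (T.h (P (nat_lit 0)) (T.h (T.h (P (nat_lit 0)) (M (nat_lit 34116370026495))) (P (nat_lit 0)))))) (T.h (T.h (T.h (P (nat_lit 25529900305342426775552)) (T.h (P (nat_lit 0)) (M (nat_lit 47829927093829631)))) (T.h (P (nat_lit 0)) (M (nat_lit 33222815373590527)))) (T.h (T.h (P (nat_lit 0)) (T.h (T.h (P (nat_lit 0)) (M (nat_lit 1978396775167))) (P (nat_lit 0)))) (P (nat_lit 30804322491269120))))))), (T.h (T.h (P (nat_lit 0)) (T.h (T.h (M (nat_lit 7898869424295032560457613311)) (T.h (P (nat_lit 0)) (T.h (P (nat_lit 20518604022785385693184)) (T.h (P (nat_lit 0)) (P (nat_lit 37244374366273536)))))) (T.h (P (nat_lit 0)) (T.h (T.h (P (nat_lit 25619508905965531430912)) (T.h (P (nat_lit 0)) (P (nat_lit 25828239031599104)))) (T.h (P (nat_lit 0)) (P (nat_lit 5990357490696192))))))) (T.h (T.h (T.h (P (nat_lit 0)) (T.h (P (nat_lit 3808010078810433310949376)) (T.h (P (nat_lit 0)) (M (nat_lit 7228349994594467839))))) (T.h (P (nat_lit 0)) (T.h (T.h (P (nat_lit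 0)) (M (nat_lit 47737917958413877247))) (P (nat_lit 0))))) (T.h (T.h (P (nat_lit 0)) (T.h (T.h (M (nat_lit 66894456594855284965375)) (T.h (P (nat_lit 0)) (P (nat_lit 4558212600184832)))) (T.h (P (nat_lit 0)) (P (nat_lit 34505731325050880))))) (T.h (T.h (T.h (P (nat_lit 0)) (P (nat_lit 39699916217686949888))) (P (nat_lit 0))) (T.h (T.h (P (nat_lit 0)) (M (nat_lit 17205814889070591))) (P (nat_lit 0))))))), (P (nat_lit 0)), (P (nat_lit 0)), (T.h (T.h (T.h (P (nat_lit 0)) (T.h (P (nat_lit 2360562084221628585116434432)) (T.h (P (nat_lit 0)) (T.h (P (nat_lit 714074767542896820224)) (T.h (P (nat_lit 0)) (P (nat_lit 2440102765346816))))))) (T.h (P (nat_lit 0)) (T.h (T.h (P (nat_lit 0)) (T.h (P (nat_lit 36617258594338403778560)) (T.h (P (nat_lit 0)) (P (nat_lit 20260117991833600))))) (T.h (P (nat_lit 0)) (T.h (T.h (P (nat_lit 0)) (M (nat_lit 5663859304693759))) (P (nat_lit 0))))))) (T.h (T.h (P (nat_lit 0)) (T.h (T.h (M (nat_lit 31405758993128649400516607))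 (T.h (P (nat_lit 0)) (T.h (M (nat_lit 40257835677308157951)) (T.h (P (nat_lit 0)) (M (nat_lit 170731117199)))))) (T.h (P (nat_lit 0)) (T.h (T.h (P (nat_lit 521119890724093952)) (T.h (P (nat_lit 0)) (P (nat_lit 8038665908672)))) (T.h (P (nat_lit 0)) (P (nat_lit 11875290719936))))))) (T.h (T.h (T.h (P (nat_lit 0)) (T.h (M (nat_lit 16419398998575345041407)) (T.h (P (nat_lit 0)) (M (nat_lit 16069643455397887))))) (T.h (P (nat_lit 0)) (T.h (T.h (P (nat_lit 0)) (M (nat_lit 49521916416786431))) (P (nat_lit 0))))) (T.h (T.h (P (nat_lit 0)) (T.h (T.h (M (nat_lit 9023796676699095039)) (T.h (P (nat_lit 0)) (P (nat_lit 3403801104368)))) (T.h (P (nat_lit 0)) (M (nat_lit 267617463791))))) (T.h (T.h (T.h (P (nat_lit 0)) (M (nat_lit 9768375870799871))) (P (nat_lit 0))) (T.h (T.h (P (nat_lit 0)) (M (nat_lit 476646617775))) (P (nat_lit 0)))))))), (T.h (T.h (T.h (M (nat_lit 810696587689923214839151329279)) (T.h (P (nat_lit 0)) (T.h (P (nat_lit 4348825794826340325654528))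 (T.h (P (nat_lit 0)) (T.h (M (nat_lit 18286102558000807935)) (T.h (P (nat_lit 0)) (P (nat_lit 5681656299648)))))))) (T.h (P (nat_lit 0)) (T.h (T.h (M (nat_lit 17574285460876300923174911)) (T.h (P (nat_lit 0)) (T.h (P (nat_lit 39355329431113564160)) (T.h (P (nat_lit 0)) (M (nat_lit 13171983054463)))))) (T.h (P (nat_lit 0)) (T.h (T.h (M (nat_lit 35803479291014938623)) (T.h (P (nat_lit 0)) (M (nat_lit 17856083280127)))) (T.h (P (nat_lit 0)) (M (nat_lit 8960604330879)))))))) (T.h (T.h (P (nat_lit 0)) (T.h (T.h (P (nat_lit 0)) (T.h (M (nat_lit 110830120243148366020607)) (T.h (P (nat_lit 0)) (M (nat_lit 85688293725765631))))) (T.h (P (nat_lit 0)) (T.h (T.h (P (nat_lit 0)) (P (nat_lit 125348801092255744))) (P (nat_lit 0)))))) (T.h (T.h (T.h (P (nat_lit 4348825794826340325654528)) (T.h (P (nat_lit 0)) (T.h (M (nat_lit 14829725398530523135)) (T.h (P (nat_lit 0)) (P (nat_lit 8021489520576)))))) (T.h (P (nat_lit 0)) (T.h (T.h (P (nat_lit 39355329431113564160))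 (T.h (P (nat_lit 0)) (M (nat_lit 40632614303615)))) (T.h (P (nat_lit 0)) (M (nat_lit 17856083280127)))))) (T.h (T.h (P (nat_lit 0)) (T.h (T.h (P (nat_lit 0)) (M (nat_lit 85688293725765631))) (P (nat_lit 0)))) (T.h (T.h (T.h (M (nat_lit 18286102558000807935)) (T.h (P (nat_lit 0)) (P (nat_lit 8021489520576)))) (T.h (P (nat_lit 0)) (M (nat_lit 13171983054463)))) (T.h (P (nat_lit 0)) (P (nat_lit 5681656299648))))))))]
def lQm_12 : List (T ℤ) := [(T.h (T.h (T.h (P (nat_lit 0)) (T.h (M (nat_lit 3057717378853825663268290559)) (T.h (P (nat_lit 0)) (T.h (M (nat_lit 1780258074724053024767)) (T.h (P (nat_lit 0)) (M (nat_lit 4763365724028927))))))) (T.h (P (nat_lit 0)) (T.h (T.h (P (nat_lit 0)) (T.h (P (nat_lit 34371714572181032665088)) (T.h (P (nat_lit 0)) (P (nat_lit 6497396134756352))))) (T.h (P (nat_lit 0)) (T.h (T.h (P (nat_lit 0)) (P (nat_lit 72177182128979968))) (P (nat_lit 0))))))) (T.h (T.h (P (nat_lit 0)) (T.h (T.h (P (nat_lit 12660772485101187447652352))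 (T.h (P (nat_lit 0)) (P (nat_lit 45047154406338854912)))) (T.h (P (nat_lit 0)) (M (nat_lit 112093646349093830655))))) (T.h (T.h (T.h (P (nat_lit 0)) (T.h (M (nat_lit 8447562600720023683071)) (T.h (P (nat_lit 0)) (M (nat_lit 4163999934857215))))) (T.h (P (nat_lit 0)) (T.h (T.h (P (nat_lit 0)) (P (nat_lit 79412148893564928))) (P (nat_lit 0))))) (T.h (T.h (P (nat_lit 0)) (P (nat_lit 35855661794571845632))) (T.h (T.h (T.h (P (nat_lit 0)) (M (nat_lit 19241456788209663))) (P (nat_lit 0))) (P (nat_lit 0))))))), (P (nat_lit 0)), (P (nat_lit 0)), (T.h (T.h (P (nat_lit 0)) (T.h (T.h (P (nat_lit 0)) (T.h (P (nat_lit 6781529803475308119064576)) (T.h (P (nat_lit 0)) (T.h (P (nat_lit 6872914424030560256)) (T.h (P (nat_lit 0)) (M (nat_lit 3374982287487))))))) (T.h (P (nat_lit 0)) (T.h (T.h (P (nat_lit 0)) (T.h (P (nat_lit 41460708389026791424)) (T.h (P (nat_lit 0)) (M (nat_lit 9250692809791))))) (T.h (P (nat_lit 0)) (T.h (T.h (P (nat_lit 0)) (P (nat_lit 227061500352)))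 (P (nat_lit 0)))))))) (T.h (T.h (T.h (M (nat_lit 195617049460243153912070143)) (T.h (P (nat_lit 0)) (T.h (P (nat_lit 34533293653360430284800)) (T.h (P (nat_lit 0)) (P (nat_lit 14747082352263168)))))) (T.h (P (nat_lit 0)) (T.h (T.h (M (nat_lit 21307677140090005487615)) (T.h (P (nat_lit 0)) (M (nat_lit 24124768091635711)))) (T.h (P (nat_lit 0)) (M (nat_lit 12531652465655807)))))) (T.h (T.h (P (nat_lit 0)) (T.h (T.h (P (nat_lit 0)) (T.h (M (nat_lit 4653426674468126719)) (T.h (P (nat_lit 0)) (P (nat_lit 2849003627328))))) (T.h (P (nat_lit 0)) (T.h (T.h (P (nat_lit 0)) (M (nat_lit 19467609627967))) (P (nat_lit 0)))))) (T.h (T.h (T.h (M (nat_lit 3964114439558481838079)) (T.h (P (nat_lit 0)) (P (nat_lit 1016721890443264)))) (T.h (P (nat_lit 0)) (M (nat_lit 4071089117626367)))) (T.h (T.h (P (nat_lit 0)) (T.h (T.h (P (nat_lit 0)) (P (nat_lit 172857894208))) (P (nat_lit 0)))) (M (nat_lit 2371883362058239))))))), (T.h (T.h (P (nat_lit 0)) (T.h (T.h (P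 (nat_lit 10791888917891311952700899328)) (T.h (P (nat_lit 0)) (T.h (M (nat_lit 39314200272193718321151)) (T.h (P (nat_lit 0)) (P (nat_lit 11019781030952960)))))) (T.h (P (nat_lit 0)) (T.h (T.h (P (nat_lit 1626752472681682042880)) (T.h (P (nat_lit 0)) (P (nat_lit 30372869421531136)))) (T.h (P (nat_lit 0)) (P (nat_lit 13647232764051456))))))) (T.h (T.h (T.h (P (nat_lit 0)) (T.h (M (nat_lit 4552137591189246866096127)) (T.h (P (nat_lit 0)) (P (nat_lit 3540785065044738048))))) (T.h (P (nat_lit 0)) (T.h (T.h (P (nat_lit 0)) (M (nat_lit 60886120603446149119))) (P (nat_lit 0))))) (T.h (T.h (P (nat_lit 0)) (T.h (T.h (M (nat_lit 39314200272193718321151)) (T.h (P (nat_lit 0)) (P (nat_lit 16427828951875584)))) (T.h (P (nat_lit 0)) (P (nat_lit 30372869421531136))))) (T.h (T.h (T.h (P (nat_lit 0)) (P (nat_lit 3540785065044738048))) (P (nat_lit 0))) (T.h (T.h (P (nat_lit 0)) (P (nat_lit 11019781030952960))) (P (nat_lit 0))))))), (P (nat_lit 0)), (P (nat_lit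 0)), (T.h (T.h (T.h (P (nat_lit 0)) (T.h (M (nat_lit 3402341988066177641621749759)) (T.h (P (nat_lit 0)) (T.h (M (nat_lit 311281724839209992191)) (T.h (P (nat_lit 0)) (P (nat_lit 396931717021696))))))) (T.h (P (nat_lit 0)) (T.h (T.h (P (nat_lit 0)) (T.h (M (nat_lit 22557465762590185488383)) (T.h (P (nat_lit 0)) (P (nat_lit 6354815568904192))))) (T.h (P (nat_lit 0)) (T.h (T.h (P (nat_lit 0)) (P (nat_lit 723882441949184))) (P (nat_lit 0))))))) (T.h (T.h (P (nat_lit 0)) (T.h (T.h (P (nat_lit 17043484856467139858530304)) (T.h (P (nat_lit 0)) (P (nat_lit 11739852891748302848)))) (T.h (P (nat_lit 0)) (P (nat_lit 2896091241655566336))))) (T.h (T.h (T.h (P (nat_lit 0)) (T.h (P (nat_lit 19467932748244439793664)) (T.h (P (nat_lit 0)) (M (nat_lit 3918274737192959))))) (T.h (P (nat_lit 0)) (T.h (T.h (P (nat_lit 0)) (P (nat_lit 12701974667231232))) (P (nat_lit 0))))) (T.h (T.h (P (nat_lit 0)) (P (nat_lit 12429613524915847168))) (T.h (T.h (T.h (P (nat_lit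 0)) (M (nat_lit 2379570363793407))) (P (nat_lit 0))) (P (nat_lit 0)))))))]
def lQm_13 : List (T ℤ) := [(P (nat_lit 0)), (P (nat_lit 0)), (P (nat_lit 0)), (P (nat_lit 0)), (P (nat_lit 0)), (P (nat_lit 0)), (T.h (T.h (T.h (P (nat_lit 1974437142523453654025568780288)) (T.h (P (nat_lit 0)) (T.h (P (nat_lit 3776107581101057807220736)) (T.h (P (nat_lit 0)) (T.h (M (nat_lit 455214168597856255)) (T.h (P (nat_lit 0)) (P (nat_lit 1320627043552)))))))) (T.h (P (nat_lit 0)) (T.h (T.h (M (nat_lit 9758004229517509839028223)) (T.h (P (nat_lit 0)) (T.h (M (nat_lit 9060807759313764351)) (T.h (P (nat_lit 0)) (M (nat_lit 4691781859471)))))) (T.h (P (nat_lit 0)) (T.h (T.h (P (nat_lit 1083103659241242624)) (T.h (P (nat_lit 0)) (P (nat_lit 2064152749056)))) (T.h (P (nat_lit 0)) (M (nat_lit 1030947796895)))))))) (T.h (T.h (P (nat_lit 0)) (T.h (T.h (P (nat_lit 0)) (T.h (M (nat_lit 35916735902168758878207)) (T.h (P (nat_lit 0)) (P (nat_lit 31562004246757376))))) (T.h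 (P (nat_lit 0)) (T.h (T.h (P (nat_lit 0)) (M (nat_lit 83825974921003007))) (P (nat_lit 0)))))) (T.h (T.h (T.h (P (nat_lit 3776107581101057807220736)) (T.h (P (nat_lit 0)) (T.h (P (nat_lit 47664521656557109248)) (T.h (P (nat_lit 0)) (M (nat_lit 6116429705375)))))) (T.h (P (nat_lit 0)) (T.h (T.h (M (nat_lit 9060807759313764351)) (T.h (P (nat_lit 0)) (M (nat_lit 2560356751999)))) (T.h (P (nat_lit 0)) (P (nat_lit 2064152749056)))))) (T.h (T.h (P (nat_lit 0)) (T.h (T.h (P (nat_lit 0)) (P (nat_lit 31562004246757376))) (P (nat_lit 0)))) (T.h (T.h (T.h (M (nat_lit 455214168597856255)) (T.h (P (nat_lit 0)) (M (nat_lit 6116429705375)))) (T.h (P (nat_lit 0)) (M (nat_lit 4691781859471)))) (T.h (P (nat_lit 0)) (P (nat_lit 1320627043552)))))))), (T.h (T.h (T.h (P (nat_lit 0)) (T.h (M (nat_lit 9200511152944924224068255743)) (T.h (P (nat_lit 0)) (T.h (M (nat_lit 8138641168080224387071)) (T.h (P (nat_lit 0)) (P (nat_lit 259682930294784))))))) (T.h (P (nat_lit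 0)) (T.h (T.h (P (nat_lit 0)) (T.h (P (nat_lit 14077787117441249181696)) (T.h (P (nat_lit 0)) (P (nat_lit 10156953881837568))))) (T.h (P (nat_lit 0)) (T.h (T.h (P (nat_lit 0)) (P (nat_lit 5005039249031168))) (P (nat_lit 0))))))) (T.h (T.h (P (nat_lit 0)) (T.h (T.h (P (nat_lit 14097034584816128465305600)) (T.h (P (nat_lit 0)) (T.h (M (nat_lit 158806723948804308991)) (T.h (P (nat_lit 0)) (M (nat_lit 20609692359)))))) (T.h (P (nat_lit 0)) (T.h (T.h (P (nat_lit 40614113373115645952)) (T.h (P (nat_lit 0)) (P (nat_lit 3119472546016)))) (T.h (P (nat_lit 0)) (M (nat_lit 1926006707967))))))) (T.h (T.h (T.h (P (nat_lit 0)) (T.h (M (nat_lit 49067423696374458220543)) (T.h (P (nat_lit 0)) (P (nat_lit 8698455030792192))))) (T.h (P (nat_lit 0)) (T.h (T.h (P (nat_lit 0)) (P (nat_lit 1336226320908288))) (P (nat_lit 0))))) (T.h (T.h (P (nat_lit 0)) (T.h (T.h (P (nat_lit 14447862614417473536)) (T.h (P (nat_lit 0)) (P (nat_lit 17662225065888)))) (T.h (P (nat_lit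 0)) (P (nat_lit 6278110139768))))) (T.h (T.h (T.h (P (nat_lit 0)) (P (nat_lit 28476101997723648))) (P (nat_lit 0))) (T.h (T.h (P (nat_lit 0)) (M (nat_lit 4801873344927))) (P (nat_lit 0))))))))]
def lQm_14 : List (T ℤ) := [(T.h (T.h (T.h (M (nat_lit 15781421352417333064023314268159)) (T.h (P (nat_lit 0)) (T.h (P (nat_lit 2254133925789322698555392)) (T.h (P (nat_lit 0)) (T.h (M (nat_lit 11582974751273910271)) (T.h (P (nat_lit 0)) (M (nat_lit 4494899552751)))))))) (T.h (P (nat_lit 0)) (T.h (T.h (P (nat_lit 19510935969206319368372224)) (T.h (P (nat_lit 0)) (T.h (M (nat_lit 48825252204196659199)) (T.h (P (nat_lit 0)) (P (nat_lit 66173550912)))))) (T.h (P (nat_lit 0)) (T.h (T.h (P (nat_lit 3816157051806023680)) (T.h (P (nat_lit 0)) (M (nat_lit 5131028078175)))) (T.h (P (nat_lit 0)) (M (nat_lit 2135898518655)))))))) (T.h (T.h (P (nat_lit 0)) (T.h (T.h (P (nat_lit 0)) (T.h (P (nat_lit 104428965465499621130240)) (T.h (P (nat_lit 0)) (M (nat_lit 65765569243283455)))))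 (T.h (P (nat_lit 0)) (T.h (T.h (P (nat_lit 0)) (P (nat_lit 95973161780510720))) (P (nat_lit 0)))))) (T.h (T.h (T.h (M (nat_lit 17016263105224677655576575)) (T.h (P (nat_lit 0)) (T.h (M (nat_lit 20199970791355318271)) (T.h (P (nat_lit 0)) (P (nat_lit 18872188738032)))))) (T.h (P (nat_lit 0)) (T.h (T.h (P (nat_lit 4459232863304286208)) (T.h (P (nat_lit 0)) (P (nat_lit 8548507008608)))) (T.h (P (nat_lit 0)) (M (nat_lit 2689076313615)))))) (T.h (T.h (P (nat_lit 0)) (T.h (T.h (P (nat_lit 0)) (M (nat_lit 42371289102942207))) (P (nat_lit 0)))) (T.h (T.h (T.h (M (nat_lit 5769335801796100095)) (T.h (P (nat_lit 0)) (P (nat_lit 7861092761200)))) (T.h (P (nat_lit 0)) (P (nat_lit 15481464103056)))) (T.h (P (nat_lit 0)) (M (nat_lit 6454986133007)))))))), (T.h (T.h (T.h (P (nat_lit 0)) (T.h (P (nat_lit 2008280231544279771887173632)) (T.h (P (nat_lit 0)) (T.h (P (nat_lit 14444565840120697061376)) (T.h (P (nat_lit 0)) (M (nat_lit 2650552869519359))))))) (T.h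 (P (nat_lit 0)) (T.h (T.h (P (nat_lit 0)) (T.h (P (nat_lit 20491663626153897230336)) (T.h (P (nat_lit 0)) (P (nat_lit 17118034321866752))))) (T.h (P (nat_lit 0)) (T.h (T.h (P (nat_lit 0)) (P (nat_lit 12549948312485888))) (P (nat_lit 0))))))) (T.h (T.h (P (nat_lit 0)) (T.h (T.h (M (nat_lit 12881852499707145018671103)) (T.h (P (nat_lit 0)) (T.h (P (nat_lit 131690224174086750208)) (T.h (P (nat_lit 0)) (P (nat_lit 1504335511808)))))) (T.h (P (nat_lit 0)) (T.h (T.h (M (nat_lit 20160226170429767679)) (T.h (P (nat_lit 0)) (M (nat_lit 42196455976255)))) (T.h (P (nat_lit 0)) (P (nat_lit 12219471662592))))))) (T.h (T.h (T.h (P (nat_lit 0)) (T.h (P (nat_lit 7794080975053129777152)) (T.h (P (nat_lit 0)) (M (nat_lit 28585365344649215))))) (T.h (P (nat_lit 0)) (T.h (T.h (P (nat_lit 0)) (M (nat_lit 12039428486430719))) (P (nat_lit 0))))) (T.h (T.h (P (nat_lit 0)) (T.h (T.h (P (nat_lit 14576600026559021056)) (T.h (P (nat_lit 0)) (M (nat_lit 33470402026367))))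 (T.h (P (nat_lit 0)) (M (nat_lit 10628497852863))))) (T.h (T.h (T.h (P (nat_lit 0)) (M (nat_lit 46267264956661759))) (P (nat_lit 0))) (T.h (T.h (P (nat_lit 0)) (P (nat_lit 6811509066240))) (P (nat_lit 0)))))))), (T.h (T.h (T.h (P (nat_lit 1410570906212094888288156909568)) (T.h (P (nat_lit 0)) (T.h (M (nat_lit 736332230657898056777727)) (T.h (P (nat_lit 0)) (P (nat_lit 8275653059435036672)))))) (T.h (P (nat_lit 0)) (T.h (T.h (M (nat_lit 9092474658105973488484351)) (T.h (P (nat_lit 0)) (M (nat_lit 9901124243519700991)))) (T.h (P (nat_lit 0)) (M (nat_lit 6450639816894709759)))))) (T.h (T.h (P (nat_lit 0)) (T.h (T.h (P (nat_lit 0)) (T.h (M (nat_lit 25522296248950983753727)) (T.h (P (nat_lit 0)) (P (nat_lit 8426976565428224))))) (T.h (P (nat_lit 0)) (T.h (T.h (P (nat_lit 0)) (P (nat_lit 20145895602651136))) (P (nat_lit 0)))))) (T.h (T.h (T.h (P (nat_lit 2713202957367080711618560)) (T.h (P (nat_lit 0)) (P (nat_lit 12443088561886986240)))) (T.h (P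 (nat_lit 0)) (M (nat_lit 2049630866191155199)))) (T.h (T.h (P (nat_lit 0)) (T.h (T.h (P (nat_lit 0)) (P (nat_lit 16959839353831424))) (P (nat_lit 0)))) (P (nat_lit 20438749490257592320)))))), (P (nat_lit 0)), (P (nat_lit 0)), (T.h (T.h (P (nat_lit 0)) (T.h (T.h (P (nat_lit 0)) (T.h (M (nat_lit 1351268652085930406969343)) (T.h (P (nat_lit 0)) (T.h (M (nat_lit 1456239894979411967)) (T.h (P (nat_lit 0)) (M (nat_lit 792617250143))))))) (T.h (P (nat_lit 0)) (T.h (T.h (P (nat_lit 0)) (T.h (M (nat_lit 1456239894979411967)) (T.h (P (nat_lit 0)) (P (nat_lit 3108367647936))))) (T.h (P (nat_lit 0)) (T.h (T.h (P (nat_lit 0)) (M (nat_lit 792617250143))) (P (nat_lit 0)))))))) (T.h (T.h (T.h (M (nat_lit 12852879613821572345757695)) (T.h (P (nat_lit 0)) (T.h (M (nat_lit 285728088897521451007)) (T.h (P (nat_lit 0)) (M (nat_lit 9820380577136639)))))) (T.h (P (nat_lit 0)) (T.h (T.h (M (nat_lit 285728088897521451007)) (T.h (P (nat_lit 0)) (M (nat_lit 11595435753078783))))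 (T.h (P (nat_lit 0)) (M (nat_lit 9820380577136639)))))) (T.h (T.h (P (nat_lit 0)) (T.h (T.h (P (nat_lit 0)) (T.h (M (nat_lit 9106968498537496575)) (T.h (P (nat_lit 0)) (P (nat_lit 5706106126624))))) (T.h (P (nat_lit 0)) (T.h (T.h (P (nat_lit 0)) (P (nat_lit 5706106126624))) (P (nat_lit 0)))))) (T.h (T.h (T.h (P (nat_lit 637446587506065670144)) (T.h (P (nat_lit 0)) (M (nat_lit 2387430420054015)))) (T.h (P (nat_lit 0)) (M (nat_lit 2387430420054015)))) (T.h (T.h (P (nat_lit 0)) (T.h (T.h (P (nat_lit 0)) (P (nat_lit 13499878995904))) (P (nat_lit 0)))) (M (nat_lit 659354132676607))))))), (T.h (T.h (P (nat_lit 0)) (T.h (T.h (M (nat_lit 12250395560038020876844662783)) (T.h (P (nat_lit 0)) (T.h (M (nat_lit 8144800713582885994495)) (T.h (P (nat_lit 0)) (M (nat_lit 21822656918716415)))))) (T.h (P (nat_lit 0)) (T.h (T.h (M (nat_lit 19837207699869008920575)) (T.h (P (nat_lit 0)) (M (nat_lit 16219260186099711)))) (T.h (P (nat_lit 0)) (M (nat_lit 15858036691697663)))))))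 (T.h (T.h (T.h (P (nat_lit 0)) (T.h (P (nat_lit 8574249109285047659134976)) (T.h (P (nat_lit 0)) (T.h (P (nat_lit 20318268837398052864)) (T.h (P (nat_lit 0)) (P (nat_lit 2667068517176))))))) (T.h (P (nat_lit 0)) (T.h (T.h (P (nat_lit 0)) (T.h (M (nat_lit 47123857973291515903)) (T.h (P (nat_lit 0)) (M (nat_lit 6473973622807))))) (T.h (P (nat_lit 0)) (T.h (T.h (P (nat_lit 0)) (P (nat_lit 5650647208912))) (P (nat_lit 0))))))) (T.h (T.h (P (nat_lit 0)) (T.h (T.h (M (nat_lit 8144800713582885994495)) (T.h (P (nat_lit 0)) (P (nat_lit 121971278184972288)))) (T.h (P (nat_lit 0)) (M (nat_lit 16219260186099711))))) (T.h (T.h (T.h (P (nat_lit 0)) (T.h (P (nat_lit 20318268837398052864)) (T.h (P (nat_lit 0)) (M (nat_lit 11205976436639))))) (T.h (P (nat_lit 0)) (T.h (T.h (P (nat_lit 0)) (M (nat_lit 6473973622807))) (P (nat_lit 0))))) (T.h (T.h (P (nat_lit 0)) (M (nat_lit 21822656918716415))) (T.h (T.h (T.h (P (nat_lit 0)) (P (nat_lit 2667068517176))) (P (nat_lit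 0))) (P (nat_lit 0)))))))), (T.h (T.h (P (nat_lit 0)) (T.h (T.h (P (nat_lit 0)) (T.h (P (nat_lit 39587408417186340669489152)) (T.h (P (nat_lit 0)) (T.h (M (nat_lit 18463015768434933759)) (T.h (P (nat_lit 0)) (M (nat_lit 5632617450207))))))) (T.h (P (nat_lit 0)) (T.h (T.h (P (nat_lit 0)) (T.h (M (nat_lit 21131093311641092095)) (T.h (P (nat_lit 0)) (M (nat_lit 8063003288703))))) (T.h (P (nat_lit 0)) (T.h (T.h (P (nat_lit 0)) (M (nat_lit 12153382404239))) (P (nat_lit 0)))))))) (T.h (T.h (T.h (P (nat_lit 1190417878467455091652689920)) (T.h (P (nat_lit 0)) (T.h (M (nat_lit 178699207068143585329151)) (T.h (P (nat_lit 0)) (M (nat_lit 16664568383143935)))))) (T.h (P (nat_lit 0)) (T.h (T.h (P (nat_lit 31085853986710435659776)) (T.h (P (nat_lit 0)) (M (nat_lit 14191932489744383)))) (T.h (P (nat_lit 0)) (P (nat_lit 33828731189133312)))))) (T.h (T.h (P (nat_lit 0)) (T.h (T.h (P (nat_lit 0)) (T.h (P (nat_lit 130140937352900509696)) (T.h (P (nat_lit 0))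 (M (nat_lit 13000870878351))))) (T.h (P (nat_lit 0)) (T.h (T.h (P (nat_lit 0)) (M (nat_lit 13156209311727))) (P (nat_lit 0)))))) (T.h (T.h (T.h (P (nat_lit 26172018345570226667520)) (T.h (P (nat_lit 0)) (P (nat_lit 84066674971803648)))) (T.h (P (nat_lit 0)) (M (nat_lit 45041536216449023)))) (T.h (T.h (P (nat_lit 0)) (T.h (T.h (P (nat_lit 0)) (M (nat_lit 71336986172927))) (P (nat_lit 0)))) (P (nat_lit 845639420919808)))))))]
def lQm_15 : List (T ℤ) := [(T.h (T.h (P (nat_lit 0)) (T.h (T.h (P (nat_lit 3702363822789395728794910720)) (T.h (P (nat_lit 0)) (T.h (P (nat_lit 41905726175429229805568)) (T.h (P (nat_lit 0)) (P (nat_lit 88632905097216000)))))) (T.h (P (nat_lit 0)) (T.h (T.h (P (nat_lit 25529900305342426775552)) (T.h (P (nat_lit 0)) (M (nat_lit 33222815373590527)))) (T.h (P (nat_lit 0)) (P (nat_lit 30804322491269120))))))) (T.h (T.h (T.h (P (nat_lit 0)) (T.h (P (nat_lit 45895461587282081093779456)) (T.h (P (nat_lit 0)) (T.h (M (nat_lit 132497166626126299135))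 (T.h (P (nat_lit 0)) (M (nat_lit 49546857328575))))))) (T.h (P (nat_lit 0)) (T.h (T.h (P (nat_lit 0)) (T.h (P (nat_lit 104285394266293796864)) (T.h (P (nat_lit 0)) (M (nat_lit 34116370026495))))) (T.h (P (nat_lit 0)) (T.h (T.h (P (nat_lit 0)) (M (nat_lit 1978396775167))) (P (nat_lit 0))))))) (T.h (T.h (P (nat_lit 0)) (T.h (T.h (M (nat_lit 90403578470243908976639)) (T.h (P (nat_lit 0)) (P (nat_lit 50639647774375936)))) (T.h (P (nat_lit 0)) (M (nat_lit 47829927093829631))))) (T.h (T.h (T.h (P (nat_lit 0)) (T.h (M (nat_lit 9299283688523038719)) (T.h (P (nat_lit 0)) (P (nat_lit 20259293530944))))) (T.h (P (nat_lit 0)) (T.h (T.h (P (nat_lit 0)) (P (nat_lit 16065160221824))) (P (nat_lit 0))))) (T.h (T.h (P (nat_lit 0)) (M (nat_lit 3203367007879167))) (T.h (T.h (T.h (P (nat_lit 0)) (M (nat_lit 22294549504639))) (P (nat_lit 0))) (P (nat_lit 0)))))))), (T.h (T.h (P (nat_lit 0)) (T.h (T.h (P (nat_lit 0)) (T.h (P (nat_lit 12660772485101187447652352))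 (T.h (P (nat_lit 0)) (M (nat_lit 112093646349093830655))))) (T.h (P (nat_lit 0)) (T.h (T.h (P (nat_lit 0)) (P (nat_lit 35855661794571845632))) (P (nat_lit 0)))))) (T.h (T.h (T.h (M (nat_lit 3057717378853825663268290559)) (T.h (P (nat_lit 0)) (T.h (P (nat_lit 34371714572181032665088)) (T.h (P (nat_lit 0)) (P (nat_lit 72177182128979968)))))) (T.h (P (nat_lit 0)) (T.h (T.h (M (nat_lit 8447562600720023683071)) (T.h (P (nat_lit 0)) (P (nat_lit 79412148893564928)))) (T.h (P (nat_lit 0)) (M (nat_lit 19241456788209663)))))) (T.h (T.h (P (nat_lit 0)) (T.h (T.h (P (nat_lit 0)) (P (nat_lit 45047154406338854912))) (P (nat_lit 0)))) (T.h (T.h (T.h (M (nat_lit 1780258074724053024767)) (T.h (P (nat_lit 0)) (P (nat_lit 6497396134756352)))) (T.h (P (nat_lit 0)) (M (nat_lit 4163999934857215)))) (T.h (P (nat_lit 0)) (M (nat_lit 4763365724028927))))))), (P (nat_lit 0)), (P (nat_lit 0)), (T.h (T.h (T.h (P (nat_lit 1974437142523453654025568780288)) (T.h (P (nat_lit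 0)) (T.h (M (nat_lit 9758004229517509839028223)) (T.h (P (nat_lit 0)) (T.h (P (nat_lit 1083103659241242624)) (T.h (P (nat_lit 0)) (M (nat_lit 1030947796895)))))))) (T.h (P (nat_lit 0)) (T.h (T.h (P (nat_lit 3776107581101057807220736)) (T.h (P (nat_lit 0)) (T.h (M (nat_lit 9060807759313764351)) (T.h (P (nat_lit 0)) (P (nat_lit 2064152749056)))))) (T.h (P (nat_lit 0)) (T.h (T.h (M (nat_lit 455214168597856255)) (T.h (P (nat_lit 0)) (M (nat_lit 4691781859471)))) (T.h (P (nat_lit 0)) (P (nat_lit 1320627043552)))))))) (T.h (T.h (P (nat_lit 0)) (T.h (T.h (P (nat_lit 0)) (T.h (M (nat_lit 35916735902168758878207)) (T.h (P (nat_lit 0)) (M (nat_lit 83825974921003007))))) (T.h (P (nat_lit 0)) (T.h (T.h (P (nat_lit 0)) (P (nat_lit 31562004246757376))) (P (nat_lit 0)))))) (T.h (T.h (T.h (P (nat_lit 3776107581101057807220736)) (T.h (P (nat_lit 0)) (T.h (M (nat_lit 9060807759313764351)) (T.h (P (nat_lit 0)) (P (nat_lit 2064152749056)))))) (T.h (P (nat_lit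 0)) (T.h (T.h (P (nat_lit 47664521656557109248)) (T.h (P (nat_lit 0)) (M (nat_lit 2560356751999)))) (T.h (P (nat_lit 0)) (M (nat_lit 6116429705375)))))) (T.h (T.h (P (nat_lit 0)) (T.h (T.h (P (nat_lit 0)) (P (nat_lit 31562004246757376))) (P (nat_lit 0)))) (T.h (T.h (T.h (M (nat_lit 455214168597856255)) (T.h (P (nat_lit 0)) (M (nat_lit 4691781859471)))) (T.h (P (nat_lit 0)) (M (nat_lit 6116429705375)))) (T.h (P (nat_lit 0)) (P (nat_lit 1320627043552)))))))), (T.h (T.h (T.h (P (nat_lit 0)) (T.h (M (nat_lit 12250395560038020876844662783)) (T.h (P (nat_lit 0)) (T.h (M (nat_lit 19837207699869008920575)) (T.h (P (nat_lit 0)) (M (nat_lit 15858036691697663))))))) (T.h (P (nat_lit 0)) (T.h (T.h (P (nat_lit 0)) (T.h (M (nat_lit 8144800713582885994495)) (T.h (P (nat_lit 0)) (M (nat_lit 16219260186099711))))) (T.h (P (nat_lit 0)) (T.h (T.h (P (nat_lit 0)) (M (nat_lit 21822656918716415))) (P (nat_lit 0))))))) (T.h (T.h (P (nat_lit 0)) (T.h (T.h (P (nat_lit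 8574249109285047659134976)) (T.h (P (nat_lit 0)) (T.h (M (nat_lit 47123857973291515903)) (T.h (P (nat_lit 0)) (P (nat_lit 5650647208912)))))) (T.h (P (nat_lit 0)) (T.h (T.h (P (nat_lit 20318268837398052864)) (T.h (P (nat_lit 0)) (M (nat_lit 6473973622807)))) (T.h (P (nat_lit 0)) (P (nat_lit 2667068517176))))))) (T.h (T.h (T.h (P (nat_lit 0)) (T.h (M (nat_lit 8144800713582885994495)) (T.h (P (nat_lit 0)) (M (nat_lit 16219260186099711))))) (T.h (P (nat_lit 0)) (T.h (T.h (P (nat_lit 0)) (P (nat_lit 121971278184972288))) (P (nat_lit 0))))) (T.h (T.h (P (nat_lit 0)) (T.h (T.h (P (nat_lit 20318268837398052864)) (T.h (P (nat_lit 0)) (M (nat_lit 6473973622807)))) (T.h (P (nat_lit 0)) (M (nat_lit 11205976436639))))) (T.h (T.h (T.h (P (nat_lit 0)) (M (nat_lit 21822656918716415))) (P (nat_lit 0))) (T.h (T.h (P (nat_lit 0)) (P (nat_lit 2667068517176))) (P (nat_lit 0)))))))), (T.h (T.h (T.h (M (nat_lit 6770055840907416915561569845247)) (T.h (P (nat_lit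 0)) (T.h (P (nat_lit 5502062044752145157193728)) (T.h (P (nat_lit 0)) (T.h (M (nat_lit 6526084140889014271)) (T.h (P (nat_lit 0)) (P (nat_lit 9212612314528)))))))) (T.h (P (nat_lit 0)) (T.h (T.h (P (nat_lit 5502062044752145157193728)) (T.h (P (nat_lit 0)) (T.h (P (nat_lit 39589995017138077696)) (T.h (P (nat_lit 0)) (M (nat_lit 28180338095055)))))) (T.h (P (nat_lit 0)) (T.h (T.h (M (nat_lit 6526084140889014271)) (T.h (P (nat_lit 0)) (M (nat_lit 28180338095055)))) (T.h (P (nat_lit 0)) (P (nat_lit 9212612314528)))))))) (T.h (T.h (P (nat_lit 0)) (T.h (T.h (P (nat_lit 0)) (T.h (M (nat_lit 270983690865450191683583)) (T.h (P (nat_lit 0)) (P (nat_lit 55966182700941312))))) (T.h (P (nat_lit 0)) (T.h (T.h (P (nat_lit 0)) (P (nat_lit 55966182700941312))) (P (nat_lit 0)))))) (T.h (T.h (T.h (P (nat_lit 5502062044752145157193728)) (T.h (P (nat_lit 0)) (T.h (P (nat_lit 39589995017138077696)) (T.h (P (nat_lit 0)) (M (nat_lit 28180338095055)))))) (T.h (P (nat_lit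 0)) (T.h (T.h (P (nat_lit 39589995017138077696)) (T.h (P (nat_lit 0)) (M (nat_lit 10921763459711)))) (T.h (P (nat_lit 0)) (M (nat_lit 28180338095055)))))) (T.h (T.h (P (nat_lit 0)) (T.h (T.h (P (nat_lit 0)) (P (nat_lit 55966182700941312))) (P (nat_lit 0)))) (T.h (T.h (T.h (M (nat_lit 6526084140889014271)) (T.h (P (nat_lit 0)) (M (nat_lit 28180338095055)))) (T.h (P (nat_lit 0)) (M (nat_lit 28180338095055)))) (T.h (P (nat_lit 0)) (P (nat_lit 9212612314528)))))))), (T.h (T.h (T.h (P (nat_lit 0)) (T.h (M (nat_lit 61925360365294456323170107391)) (T.h (P (nat_lit 0)) (T.h (P (nat_lit 43360163169862938525696)) (T.h (P (nat_lit 0)) (P (nat_lit 6052457657925632))))))) (T.h (P (nat_lit 0)) (T.h (T.h (P (nat_lit 0)) (T.h (M (nat_lit 9021229890076332261375)) (T.h (P (nat_lit 0)) (P (nat_lit 83687016428568576))))) (T.h (P (nat_lit 0)) (T.h (T.h (P (nat_lit 0)) (P (nat_lit 83077446423314432))) (P (nat_lit 0))))))) (T.h (T.h (P (nat_lit 0)) (T.h (T.h (P (nat_lit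 92769219625735950870511616)) (T.h (P (nat_lit 0)) (T.h (M (nat_lit 408152612564925153279)) (T.h (P (nat_lit 0)) (P (nat_lit 9118491233792)))))) (T.h (P (nat_lit 0)) (T.h (T.h (M (nat_lit 6936856581531238399)) (T.h (P (nat_lit 0)) (M (nat_lit 1615352190399)))) (T.h (P (nat_lit 0)) (P (nat_lit 755777456064))))))) (T.h (T.h (T.h (P (nat_lit 0)) (T.h (M (nat_lit 9021229890076332261375)) (T.h (P (nat_lit 0)) (P (nat_lit 83687016428568576))))) (T.h (P (nat_lit 0)) (T.h (T.h (P (nat_lit 0)) (P (nat_lit 51710656747077632))) (P (nat_lit 0))))) (T.h (T.h (P (nat_lit 0)) (T.h (T.h (M (nat_lit 6936856581531238399)) (T.h (P (nat_lit 0)) (M (nat_lit 1615352190399)))) (T.h (P (nat_lit 0)) (P (nat_lit 16327525130624))))) (T.h (T.h (T.h (P (nat_lit 0)) (P (nat_lit 83077446423314432))) (P (nat_lit 0))) (T.h (T.h (P (nat_lit 0)) (P (nat_lit 755777456064))) (P (nat_lit 0))))))))]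
def lQm_16 : List (T ℤ) := [(T.h (T.h (T.h (P (nat_lit 2965995001898959740632314150912)) (T.h (P (nat_lit 0)) (T.h (M (nat_lit 40921446729443515786330111)) (T.h (P (nat_lit 0)) (M (nat_lit 61716191199897845759)))))) (T.h (P (nat_lit 0)) (T.h (T.h (M (nat_lit 5139392947130120844345343)) (T.h (P (nat_lit 0)) (M (nat_lit 5754790540310740991)))) (T.h (P (nat_lit 0)) (M (nat_lit 36995800222106910719)))))) (T.h (T.h (P (nat_lit 0)) (T.h (T.h (P (nat_lit 0)) (T.h (M (nat_lit 46242827737220222287871)) (T.h (P (nat_lit 0)) (P (nat_lit 25597827883728896))))) (T.h (P (nat_lit 0)) (T.h (T.h (P (nat_lit 0)) (M (nat_lit 5372423414317055))) (P (nat_lit 0)))))) (T.h (T.h (T.h (M (nat_lit 5139392947130120844345343)) (T.h (P (nat_lit 0)) (M (nat_lit 5754790540310740991)))) (T.h (P (nat_lit 0)) (P (nat_lit 74560750045622173696)))) (T.h (T.h (P (nat_lit 0)) (T.h (T.h (P (nat_lit 0)) (M (nat_lit 5372423414317055))) (P (nat_lit 0)))) (M (nat_lit 36995800222106910719)))))),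 (P (nat_lit 0)), (P (nat_lit 0)), (T.h (T.h (P (nat_lit 0)) (T.h (T.h (M (nat_lit 9200511152944924224068255743)) (T.h (P (nat_lit 0)) (T.h (P (nat_lit 14077787117441249181696)) (T.h (P (nat_lit 0)) (P (nat_lit 5005039249031168)))))) (T.h (P (nat_lit 0)) (T.h (T.h (M (nat_lit 8138641168080224387071)) (T.h (P (nat_lit 0)) (P (nat_lit 10156953881837568)))) (T.h (P (nat_lit 0)) (P (nat_lit 259682930294784))))))) (T.h (T.h (T.h (P (nat_lit 0)) (T.h (P (nat_lit 14097034584816128465305600)) (T.h (P (nat_lit 0)) (T.h (P (nat_lit 40614113373115645952)) (T.h (P (nat_lit 0)) (M (nat_lit 1926006707967))))))) (T.h (P (nat_lit 0)) (T.h (T.h (P (nat_lit 0)) (T.h (M (nat_lit 158806723948804308991)) (T.h (P (nat_lit 0)) (P (nat_lit 3119472546016))))) (T.h (P (nat_lit 0)) (T.h (T.h (P (nat_lit 0)) (M (nat_lit 20609692359))) (P (nat_lit 0))))))) (T.h (T.h (P (nat_lit 0)) (T.h (T.h (M (nat_lit 49067423696374458220543)) (T.h (P (nat_lit 0)) (P (nat_lit 1336226320908288))))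 (T.h (P (nat_lit 0)) (P (nat_lit 8698455030792192))))) (T.h (T.h (T.h (P (nat_lit 0)) (T.h (P (nat_lit 14447862614417473536)) (T.h (P (nat_lit 0)) (P (nat_lit 6278110139768))))) (T.h (P (nat_lit 0)) (T.h (T.h (P (nat_lit 0)) (P (nat_lit 17662225065888))) (P (nat_lit 0))))) (T.h (T.h (P (nat_lit 0)) (P (nat_lit 28476101997723648))) (T.h (T.h (T.h (P (nat_lit 0)) (M (nat_lit 4801873344927))) (P (nat_lit 0))) (P (nat_lit 0)))))))), (T.h (T.h (P (nat_lit 0)) (T.h (T.h (P (nat_lit 0)) (T.h (P (nat_lit 39587408417186340669489152)) (T.h (P (nat_lit 0)) (T.h (M (nat_lit 21131093311641092095)) (T.h (P (nat_lit 0)) (M (nat_lit 12153382404239))))))) (T.h (P (nat_lit 0)) (T.h (T.h (P (nat_lit 0)) (T.h (M (nat_lit 18463015768434933759)) (T.h (P (nat_lit 0)) (M (nat_lit 8063003288703))))) (T.h (P (nat_lit 0)) (T.h (T.h (P (nat_lit 0)) (M (nat_lit 5632617450207))) (P (nat_lit 0)))))))) (T.h (T.h (T.h (P (nat_lit 1190417878467455091652689920)) (T.h (P (nat_lit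 0)) (T.h (P (nat_lit 31085853986710435659776)) (T.h (P (nat_lit 0)) (P (nat_lit 33828731189133312)))))) (T.h (P (nat_lit 0)) (T.h (T.h (M (nat_lit 178699207068143585329151)) (T.h (P (nat_lit 0)) (M (nat_lit 14191932489744383)))) (T.h (P (nat_lit 0)) (M (nat_lit 16664568383143935)))))) (T.h (T.h (P (nat_lit 0)) (T.h (T.h (P (nat_lit 0)) (T.h (P (nat_lit 130140937352900509696)) (T.h (P (nat_lit 0)) (M (nat_lit 13156209311727))))) (T.h (P (nat_lit 0)) (T.h (T.h (P (nat_lit 0)) (M (nat_lit 13000870878351))) (P (nat_lit 0)))))) (T.h (T.h (T.h (P (nat_lit 26172018345570226667520)) (T.h (P (nat_lit 0)) (M (nat_lit 45041536216449023)))) (T.h (P (nat_lit 0)) (P (nat_lit 84066674971803648)))) (T.h (T.h (P (nat_lit 0)) (T.h (T.h (P (nat_lit 0)) (M (nat_lit 71336986172927))) (P (nat_lit 0)))) (P (nat_lit 845639420919808))))))), (T.h (T.h (P (nat_lit 0)) (T.h (T.h (M (nat_lit 61925360365294456323170107391)) (T.h (P (nat_lit 0)) (T.h (M (nat_lit 9021229890076332261375))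 (T.h (P (nat_lit 0)) (P (nat_lit 83077446423314432)))))) (T.h (P (nat_lit 0)) (T.h (T.h (P (nat_lit 43360163169862938525696)) (T.h (P (nat_lit 0)) (P (nat_lit 83687016428568576)))) (T.h (P (nat_lit 0)) (P (nat_lit 6052457657925632))))))) (T.h (T.h (T.h (P (nat_lit 0)) (T.h (P (nat_lit 92769219625735950870511616)) (T.h (P (nat_lit 0)) (T.h (M (nat_lit 6936856581531238399)) (T.h (P (nat_lit 0)) (P (nat_lit 755777456064))))))) (T.h (P (nat_lit 0)) (T.h (T.h (P (nat_lit 0)) (T.h (M (nat_lit 408152612564925153279)) (T.h (P (nat_lit 0)) (M (nat_lit 1615352190399))))) (T.h (P (nat_lit 0)) (T.h (T.h (P (nat_lit 0)) (P (nat_lit 9118491233792))) (P (nat_lit 0))))))) (T.h (T.h (P (nat_lit 0)) (T.h (T.h (M (nat_lit 9021229890076332261375)) (T.h (P (nat_lit 0)) (P (nat_lit 51710656747077632)))) (T.h (P (nat_lit 0)) (P (nat_lit 83687016428568576))))) (T.h (T.h (T.h (P (nat_lit 0)) (T.h (M (nat_lit 6936856581531238399)) (T.h (P (nat_lit 0)) (P (nat_lit 16327525130624)))))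 (T.h (P (nat_lit 0)) (T.h (T.h (P (nat_lit 0)) (M (nat_lit 1615352190399))) (P (nat_lit 0))))) (T.h (T.h (P (nat_lit 0)) (P (nat_lit 83077446423314432))) (T.h (T.h (T.h (P (nat_lit 0)) (P (nat_lit 755777456064))) (P (nat_lit 0))) (P (nat_lit 0)))))))), (T.h (T.h (P (nat_lit 0)) (T.h (T.h (P (nat_lit 0)) (T.h (M (nat_lit 7858349407269454602043391)) (T.h (P (nat_lit 0)) (M (nat_lit 59872406056204238847))))) (T.h (P (nat_lit 0)) (T.h (T.h (P (nat_lit 0)) (M (nat_lit 59872406056204238847))) (P (nat_lit 0)))))) (T.h (T.h (T.h (M (nat_lit 11386109411402279864340840447)) (T.h (P (nat_lit 0)) (T.h (P (nat_lit 3797065615410485788672)) (T.h (P (nat_lit 0)) (P (nat_lit 3934493346447360)))))) (T.h (P (nat_lit 0)) (T.h (T.h (P (nat_lit 3797065615410485788672)) (T.h (P (nat_lit 0)) (P (nat_lit 39413718720413696)))) (T.h (P (nat_lit 0)) (P (nat_lit 3934493346447360)))))) (T.h (T.h (P (nat_lit 0)) (T.h (T.h (P (nat_lit 0)) (P (nat_lit 37574576478588239872)))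 (P (nat_lit 0)))) (T.h (T.h (T.h (P (nat_lit 17816978978999849975808)) (T.h (P (nat_lit 0)) (M (nat_lit 55595200717504511)))) (T.h (P (nat_lit 0)) (M (nat_lit 55595200717504511)))) (T.h (P (nat_lit 0)) (P (nat_lit 25065533473652736))))))), (P (nat_lit 0))]
def lQm_17 : List (T ℤ) := [(P (nat_lit 0)), (T.h (T.h (T.h (M (nat_lit 15781421352417333064023314268159)) (T.h (P (nat_lit 0)) (T.h (P (nat_lit 19510935969206319368372224)) (T.h (P (nat_lit 0)) (T.h (P (nat_lit 3816157051806023680)) (T.h (P (nat_lit 0)) (M (nat_lit 2135898518655)))))))) (T.h (P (nat_lit 0)) (T.h (T.h (P (nat_lit 2254133925789322698555392)) (T.h (P (nat_lit 0)) (T.h (M (nat_lit 48825252204196659199)) (T.h (P (nat_lit 0)) (M (nat_lit 5131028078175)))))) (T.h (P (nat_lit 0)) (T.h (T.h (M (nat_lit 11582974751273910271)) (T.h (P (nat_lit 0)) (P (nat_lit 66173550912)))) (T.h (P (nat_lit 0)) (M (nat_lit 4494899552751)))))))) (T.h (T.h (P (nat_lit 0)) (T.h (T.h (P (nat_lit 0)) (T.h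 (P (nat_lit 104428965465499621130240)) (T.h (P (nat_lit 0)) (P (nat_lit 95973161780510720))))) (T.h (P (nat_lit 0)) (T.h (T.h (P (nat_lit 0)) (M (nat_lit 65765569243283455))) (P (nat_lit 0)))))) (T.h (T.h (T.h (M (nat_lit 17016263105224677655576575)) (T.h (P (nat_lit 0)) (T.h (P (nat_lit 4459232863304286208)) (T.h (P (nat_lit 0)) (M (nat_lit 2689076313615)))))) (T.h (P (nat_lit 0)) (T.h (T.h (M (nat_lit 20199970791355318271)) (T.h (P (nat_lit 0)) (P (nat_lit 8548507008608)))) (T.h (P (nat_lit 0)) (P (nat_lit 18872188738032)))))) (T.h (T.h (P (nat_lit 0)) (T.h (T.h (P (nat_lit 0)) (M (nat_lit 42371289102942207))) (P (nat_lit 0)))) (T.h (T.h (T.h (M (nat_lit 5769335801796100095)) (T.h (P (nat_lit 0)) (P (nat_lit 15481464103056)))) (T.h (P (nat_lit 0)) (P (nat_lit 7861092761200)))) (T.h (P (nat_lit 0)) (M (nat_lit 6454986133007)))))))), (T.h (T.h (T.h (P (nat_lit 0)) (T.h (P (nat_lit 3702363822789395728794910720)) (T.h (P (nat_lit 0)) (T.h (P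 (nat_lit 25529900305342426775552)) (T.h (P (nat_lit 0)) (P (nat_lit 30804322491269120))))))) (T.h (P (nat_lit 0)) (T.h (T.h (P (nat_lit 0)) (T.h (P (nat_lit 41905726175429229805568)) (T.h (P (nat_lit 0)) (M (nat_lit 33222815373590527))))) (T.h (P (nat_lit 0)) (T.h (T.h (P (nat_lit 0)) (P (nat_lit 88632905097216000))) (P (nat_lit 0))))))) (T.h (T.h (P (nat_lit 0)) (T.h (T.h (P (nat_lit 45895461587282081093779456)) (T.h (P (nat_lit 0)) (T.h (P (nat_lit 104285394266293796864)) (T.h (P (nat_lit 0)) (M (nat_lit 1978396775167)))))) (T.h (P (nat_lit 0)) (T.h (T.h (M (nat_lit 132497166626126299135)) (T.h (P (nat_lit 0)) (M (nat_lit 34116370026495)))) (T.h (P (nat_lit 0)) (M (nat_lit 49546857328575))))))) (T.h (T.h (T.h (P (nat_lit 0)) (T.h (M (nat_lit 90403578470243908976639)) (T.h (P (nat_lit 0)) (M (nat_lit 47829927093829631))))) (T.h (P (nat_lit 0)) (T.h (T.h (P (nat_lit 0)) (P (nat_lit 50639647774375936))) (P (nat_lit 0))))) (T.h (T.h (P (nat_lit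 0)) (T.h (T.h (M (nat_lit 9299283688523038719)) (T.h (P (nat_lit 0)) (P (nat_lit 16065160221824)))) (T.h (P (nat_lit 0)) (P (nat_lit 20259293530944))))) (T.h (T.h (T.h (P (nat_lit 0)) (M (nat_lit 3203367007879167))) (P (nat_lit 0))) (T.h (T.h (P (nat_lit 0)) (M (nat_lit 22294549504639))) (P (nat_lit 0)))))))), (T.h (T.h (T.h (P (nat_lit 2965995001898959740632314150912)) (T.h (P (nat_lit 0)) (T.h (M (nat_lit 5139392947130120844345343)) (T.h (P (nat_lit 0)) (M (nat_lit 36995800222106910719)))))) (T.h (P (nat_lit 0)) (T.h (T.h (M (nat_lit 40921446729443515786330111)) (T.h (P (nat_lit 0)) (M (nat_lit 5754790540310740991)))) (T.h (P (nat_lit 0)) (M (nat_lit 61716191199897845759)))))) (T.h (T.h (P (nat_lit 0)) (T.h (T.h (P (nat_lit 0)) (T.h (M (nat_lit 46242827737220222287871)) (T.h (P (nat_lit 0)) (M (nat_lit 5372423414317055))))) (T.h (P (nat_lit 0)) (T.h (T.h (P (nat_lit 0)) (P (nat_lit 25597827883728896))) (P (nat_lit 0)))))) (T.h (T.h (T.h (M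 (nat_lit 5139392947130120844345343)) (T.h (P (nat_lit 0)) (P (nat_lit 74560750045622173696)))) (T.h (P (nat_lit 0)) (M (nat_lit 5754790540310740991)))) (T.h (T.h (P (nat_lit 0)) (T.h (T.h (P (nat_lit 0)) (M (nat_lit 5372423414317055))) (P (nat_lit 0)))) (M (nat_lit 36995800222106910719)))))), (P (nat_lit 0)), (P (nat_lit 0)), (T.h (T.h (P (nat_lit 0)) (T.h (T.h (P (nat_lit 2008280231544279771887173632)) (T.h (P (nat_lit 0)) (T.h (P (nat_lit 20491663626153897230336)) (T.h (P (nat_lit 0)) (P (nat_lit 12549948312485888)))))) (T.h (P (nat_lit 0)) (T.h (T.h (P (nat_lit 14444565840120697061376)) (T.h (P (nat_lit 0)) (P (nat_lit 17118034321866752)))) (T.h (P (nat_lit 0)) (M (nat_lit 2650552869519359))))))) (T.h (T.h (T.h (P (nat_lit 0)) (T.h (M (nat_lit 12881852499707145018671103)) (T.h (P (nat_lit 0)) (T.h (M (nat_lit 20160226170429767679)) (T.h (P (nat_lit 0)) (P (nat_lit 12219471662592))))))) (T.h (P (nat_lit 0)) (T.h (T.h (P (nat_lit 0)) (T.h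 (P (nat_lit 131690224174086750208)) (T.h (P (nat_lit 0)) (M (nat_lit 42196455976255))))) (T.h (P (nat_lit 0)) (T.h (T.h (P (nat_lit 0)) (P (nat_lit 1504335511808))) (P (nat_lit 0))))))) (T.h (T.h (P (nat_lit 0)) (T.h (T.h (P (nat_lit 7794080975053129777152)) (T.h (P (nat_lit 0)) (M (nat_lit 12039428486430719)))) (T.h (P (nat_lit 0)) (M (nat_lit 28585365344649215))))) (T.h (T.h (T.h (P (nat_lit 0)) (T.h (P (nat_lit 14576600026559021056)) (T.h (P (nat_lit 0)) (M (nat_lit 10628497852863))))) (T.h (P (nat_lit 0)) (T.h (T.h (P (nat_lit 0)) (M (nat_lit 33470402026367))) (P (nat_lit 0))))) (T.h (T.h (P (nat_lit 0)) (M (nat_lit 46267264956661759))) (T.h (T.h (T.h (P (nat_lit 0)) (P (nat_lit 6811509066240))) (P (nat_lit 0))) (P (nat_lit 0)))))))), (T.h (T.h (P (nat_lit 0)) (T.h (T.h (P (nat_lit 0)) (T.h (P (nat_lit 12660772485101187447652352)) (T.h (P (nat_lit 0)) (P (nat_lit 35855661794571845632))))) (T.h (P (nat_lit 0)) (T.h (T.h (P (nat_lit 0)) (M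 (nat_lit 112093646349093830655))) (P (nat_lit 0)))))) (T.h (T.h (T.h (M (nat_lit 3057717378853825663268290559)) (T.h (P (nat_lit 0)) (T.h (M (nat_lit 8447562600720023683071)) (T.h (P (nat_lit 0)) (M (nat_lit 19241456788209663)))))) (T.h (P (nat_lit 0)) (T.h (T.h (P (nat_lit 34371714572181032665088)) (T.h (P (nat_lit 0)) (P (nat_lit 79412148893564928)))) (T.h (P (nat_lit 0)) (P (nat_lit 72177182128979968)))))) (T.h (T.h (P (nat_lit 0)) (T.h (T.h (P (nat_lit 0)) (P (nat_lit 45047154406338854912))) (P (nat_lit 0)))) (T.h (T.h (T.h (M (nat_lit 1780258074724053024767)) (T.h (P (nat_lit 0)) (M (nat_lit 4163999934857215)))) (T.h (P (nat_lit 0)) (P (nat_lit 6497396134756352)))) (T.h (P (nat_lit 0)) (M (nat_lit 4763365724028927)))))))]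
def lQm_18 : List (T ℤ) := [(P (nat_lit 0)), (P (nat_lit 0)), (T.h (T.h (T.h (P (nat_lit 1410570906212094888288156909568)) (T.h (P (nat_lit 0)) (T.h (M (nat_lit 9092474658105973488484351)) (T.h (P (nat_lit 0)) (M (nat_lit 6450639816894709759)))))) (T.h (P (nat_lit 0)) (T.h (T.h (M (nat_lit 736332230657898056777727)) (T.h (P (nat_lit 0)) (M (nat_lit 9901124243519700991)))) (T.h (P (nat_lit 0)) (P (nat_lit 8275653059435036672)))))) (T.h (T.h (P (nat_lit 0)) (T.h (T.h (P (nat_lit 0)) (T.h (M (nat_lit 25522296248950983753727)) (T.h (P (nat_lit 0)) (P (nat_lit 20145895602651136))))) (T.h (P (nat_lit 0)) (T.h (T.h (P (nat_lit 0)) (P (nat_lit 8426976565428224))) (P (nat_lit 0)))))) (T.h (T.h (T.h (P (nat_lit 2713202957367080711618560)) (T.h (P (nat_lit 0)) (M (nat_lit 2049630866191155199)))) (T.h (P (nat_lit 0)) (P (nat_lit 12443088561886986240)))) (T.h (T.h (P (nat_lit 0)) (T.h (T.h (P (nat_lit 0)) (P (nat_lit 16959839353831424))) (P (nat_lit 0))))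 (P (nat_lit 20438749490257592320)))))), (P (nat_lit 0)), (P (nat_lit 0)), (P (nat_lit 0)), (P (nat_lit 0)), (P (nat_lit 0))]
def lQm_19 : List (T ℤ) := [(T.h (T.h (P (nat_lit 0)) (T.h (T.h (P (nat_lit 532858792078950653260464128)) (T.h (P (nat_lit 0)) (T.h (P (nat_lit 3321691345876869447680)) (T.h (P (nat_lit 0)) (P (nat_lit 2725830294568960)))))) (T.h (P (nat_lit 0)) (T.h (T.h (M (nat_lit 3075121913902334476287)) (T.h (P (nat_lit 0)) (P (nat_lit 15163554349252608)))) (T.h (P (nat_lit 0)) (M (nat_lit 1221575086440447))))))) (T.h (T.h (T.h (P (nat_lit 0)) (T.h (P (nat_lit 8717922922079423085674496)) (T.h (P (nat_lit 0)) (T.h (M (nat_lit 193192647643365375)) (T.h (P (nat_lit 0)) (M (nat_lit 424261102751))))))) (T.h (P (nat_lit 0)) (T.h (T.h (P (nat_lit 0)) (T.h (P (nat_lit 10942545611232116736)) (T.h (P (nat_lit 0)) (M (nat_lit 172863613551))))) (T.h (P (nat_lit 0)) (T.h (T.h (P (nat_lit 0)) (P (nat_lit 3166704741056))) (P (nat_lit 0))))))) (T.h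 (T.h (P (nat_lit 0)) (T.h (T.h (M (nat_lit 4144768062586427015167)) (T.h (P (nat_lit 0)) (P (nat_lit 15787150469627904)))) (T.h (P (nat_lit 0)) (M (nat_lit 14061861106614271))))) (T.h (T.h (T.h (P (nat_lit 0)) (T.h (P (nat_lit 6521691154386255872)) (T.h (P (nat_lit 0)) (P (nat_lit 3373397582576))))) (T.h (P (nat_lit 0)) (T.h (T.h (P (nat_lit 0)) (M (nat_lit 9748205673263))) (P (nat_lit 0))))) (T.h (T.h (P (nat_lit 0)) (P (nat_lit 10195113124757504))) (T.h (T.h (T.h (P (nat_lit 0)) (M (nat_lit 5165935566879))) (P (nat_lit 0))) (P (nat_lit 0)))))))), (T.h (T.h (P (nat_lit 0)) (T.h (T.h (P (nat_lit 0)) (T.h (P (nat_lit 14097034584816128465305600)) (T.h (P (nat_lit 0)) (T.h (P (nat_lit 14447862614417473536)) (T.h (P (nat_lit 0)) (M (nat_lit 4801873344927))))))) (T.h (P (nat_lit 0)) (T.h (T.h (P (nat_lit 0)) (T.h (P (nat_lit 40614113373115645952)) (T.h (P (nat_lit 0)) (P (nat_lit 6278110139768))))) (T.h (P (nat_lit 0)) (T.h (T.h (P (nat_lit 0))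 (M (nat_lit 1926006707967))) (P (nat_lit 0)))))))) (T.h (T.h (T.h (M (nat_lit 9200511152944924224068255743)) (T.h (P (nat_lit 0)) (T.h (M (nat_lit 49067423696374458220543)) (T.h (P (nat_lit 0)) (P (nat_lit 28476101997723648)))))) (T.h (P (nat_lit 0)) (T.h (T.h (P (nat_lit 14077787117441249181696)) (T.h (P (nat_lit 0)) (P (nat_lit 1336226320908288)))) (T.h (P (nat_lit 0)) (P (nat_lit 5005039249031168)))))) (T.h (T.h (P (nat_lit 0)) (T.h (T.h (P (nat_lit 0)) (T.h (M (nat_lit 158806723948804308991)) (T.h (P (nat_lit 0)) (P (nat_lit 17662225065888))))) (T.h (P (nat_lit 0)) (T.h (T.h (P (nat_lit 0)) (P (nat_lit 3119472546016))) (P (nat_lit 0)))))) (T.h (T.h (T.h (M (nat_lit 8138641168080224387071)) (T.h (P (nat_lit 0)) (P (nat_lit 8698455030792192)))) (T.h (P (nat_lit 0)) (P (nat_lit 10156953881837568)))) (T.h (T.h (P (nat_lit 0)) (T.h (T.h (P (nat_lit 0)) (M (nat_lit 20609692359))) (P (nat_lit 0)))) (P (nat_lit 259682930294784))))))), (T.h (T.h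 (P (nat_lit 0)) (T.h (T.h (M (nat_lit 12287764217866034664416739327)) (T.h (P (nat_lit 0)) (T.h (P (nat_lit 57566294809567433850880)) (T.h (P (nat_lit 0)) (P (nat_lit 10628605528555520)))))) (T.h (P (nat_lit 0)) (T.h (T.h (M (nat_lit 2453672103476595785727)) (T.h (P (nat_lit 0)) (P (nat_lit 13941152475676672)))) (T.h (P (nat_lit 0)) (P (nat_lit 3083148681314304))))))) (T.h (T.h (T.h (P (nat_lit 0)) (T.h (M (nat_lit 1459533739220636931194879)) (T.h (P (nat_lit 0)) (T.h (P (nat_lit 16487317009659330560)) (T.h (P (nat_lit 0)) (P (nat_lit 8063023529120))))))) (T.h (P (nat_lit 0)) (T.h (T.h (P (nat_lit 0)) (T.h (M (nat_lit 62356342678558343167)) (T.h (P (nat_lit 0)) (M (nat_lit 2419356147151))))) (T.h (P (nat_lit 0)) (T.h (T.h (P (nat_lit 0)) (M (nat_lit 14170135667743))) (P (nat_lit 0))))))) (T.h (T.h (P (nat_lit 0)) (T.h (T.h (P (nat_lit 57566294809567433850880)) (T.h (P (nat_lit 0)) (M (nat_lit 92819841704132607)))) (T.h (P (nat_lit 0)) (P (nat_lit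 13941152475676672))))) (T.h (T.h (T.h (P (nat_lit 0)) (T.h (P (nat_lit 16487317009659330560)) (T.h (P (nat_lit 0)) (P (nat_lit 2263527959616))))) (T.h (P (nat_lit 0)) (T.h (T.h (P (nat_lit 0)) (M (nat_lit 2419356147151))) (P (nat_lit 0))))) (T.h (T.h (P (nat_lit 0)) (P (nat_lit 10628605528555520))) (T.h (T.h (T.h (P (nat_lit 0)) (P (nat_lit 8063023529120))) (P (nat_lit 0))) (P (nat_lit 0)))))))), (T.h (T.h (P (nat_lit 0)) (T.h (T.h (P (nat_lit 0)) (T.h (M (nat_lit 59548467549861302497181695)) (T.h (P (nat_lit 0)) (T.h (P (nat_lit 49584501972440973312)) (T.h (P (nat_lit 0)) (P (nat_lit 18903779491264))))))) (T.h (P (nat_lit 0)) (T.h (T.h (P (nat_lit 0)) (T.h (M (nat_lit 69442730501917900799)) (T.h (P (nat_lit 0)) (M (nat_lit 14712885554879))))) (T.h (P (nat_lit 0)) (T.h (T.h (P (nat_lit 0)) (M (nat_lit 3142430723007))) (P (nat_lit 0)))))))) (T.h (T.h (T.h (P (nat_lit 11197592873447516954182025216)) (T.h (P (nat_lit 0)) (T.h (P (nat_lit 61844520787591288586240))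 (T.h (P (nat_lit 0)) (M (nat_lit 29810411964465151)))))) (T.h (P (nat_lit 0)) (T.h (T.h (P (nat_lit 2718646849926705709056)) (T.h (P (nat_lit 0)) (M (nat_lit 16416114175999999)))) (T.h (P (nat_lit 0)) (P (nat_lit 12712655784902656)))))) (T.h (T.h (P (nat_lit 0)) (T.h (T.h (P (nat_lit 0)) (T.h (P (nat_lit 79800601318839549952)) (T.h (P (nat_lit 0)) (M (nat_lit 23937205427903))))) (T.h (P (nat_lit 0)) (T.h (T.h (P (nat_lit 0)) (P (nat_lit 26088908991424))) (P (nat_lit 0)))))) (T.h (T.h (T.h (M (nat_lit 34347226040025118408703)) (T.h (P (nat_lit 0)) (M (nat_lit 12520311840047103)))) (T.h (P (nat_lit 0)) (M (nat_lit 8592079034286079)))) (T.h (T.h (P (nat_lit 0)) (T.h (T.h (P (nat_lit 0)) (P (nat_lit 34853027096000))) (P (nat_lit 0)))) (M (nat_lit 2365312111607807))))))), (T.h (T.h (P (nat_lit 0)) (T.h (T.h (P (nat_lit 9444388680319584730748026880)) (T.h (P (nat_lit 0)) (T.h (M (nat_lit 30742105541402773422079)) (T.h (P (nat_lit 0)) (M (nat_lit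 24581947639840767)))))) (T.h (P (nat_lit 0)) (T.h (T.h (P (nat_lit 11887339130370524184576)) (T.h (P (nat_lit 0)) (P (nat_lit 22101788836069376)))) (T.h (P (nat_lit 0)) (M (nat_lit 2323722480533503))))))) (T.h (T.h (T.h (P (nat_lit 0)) (T.h (M (nat_lit 10198635777548292081057791)) (T.h (P (nat_lit 0)) (P (nat_lit 10587787297082572800))))) (T.h (P (nat_lit 0)) (T.h (T.h (P (nat_lit 0)) (P (nat_lit 9004690242220851200))) (P (nat_lit 0))))) (T.h (T.h (P (nat_lit 0)) (T.h (T.h (M (nat_lit 4498893292917248491519)) (T.h (P (nat_lit 0)) (P (nat_lit 44089042524880896)))) (T.h (P (nat_lit 0)) (P (nat_lit 1483925649195008))))) (T.h (T.h (T.h (P (nat_lit 0)) (P (nat_lit 44064355139457122304))) (P (nat_lit 0))) (T.h (T.h (P (nat_lit 0)) (M (nat_lit 17641106541363199))) (P (nat_lit 0))))))), (P (nat_lit 0)), (P (nat_lit 0)), (T.h (T.h (T.h (P (nat_lit 0)) (T.h (P (nat_lit 532858792078950653260464128)) (T.h (P (nat_lit 0)) (T.h (M (nat_lit 3075121913902334476287))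 (T.h (P (nat_lit 0)) (M (nat_lit 1221575086440447))))))) (T.h (P (nat_lit 0)) (T.h (T.h (P (nat_lit 0)) (T.h (P (nat_lit 3321691345876869447680)) (T.h (P (nat_lit 0)) (P (nat_lit 15163554349252608))))) (T.h (P (nat_lit 0)) (T.h (T.h (P (nat_lit 0)) (P (nat_lit 2725830294568960))) (P (nat_lit 0))))))) (T.h (T.h (P (nat_lit 0)) (T.h (T.h (P (nat_lit 8717922922079423085674496)) (T.h (P (nat_lit 0)) (T.h (P (nat_lit 10942545611232116736)) (T.h (P (nat_lit 0)) (P (nat_lit 3166704741056)))))) (T.h (P (nat_lit 0)) (T.h (T.h (M (nat_lit 193192647643365375)) (T.h (P (nat_lit 0)) (M (nat_lit 172863613551)))) (T.h (P (nat_lit 0)) (M (nat_lit 424261102751))))))) (T.h (T.h (T.h (P (nat_lit 0)) (T.h (M (nat_lit 4144768062586427015167)) (T.h (P (nat_lit 0)) (M (nat_lit 14061861106614271))))) (T.h (P (nat_lit 0)) (T.h (T.h (P (nat_lit 0)) (P (nat_lit 15787150469627904))) (P (nat_lit 0))))) (T.h (T.h (P (nat_lit 0)) (T.h (T.h (P (nat_lit 6521691154386255872))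 (T.h (P (nat_lit 0)) (M (nat_lit 9748205673263)))) (T.h (P (nat_lit 0)) (P (nat_lit 3373397582576))))) (T.h (T.h (T.h (P (nat_lit 0)) (P (nat_lit 10195113124757504))) (P (nat_lit 0))) (T.h (T.h (P (nat_lit 0)) (M (nat_lit 5165935566879))) (P (nat_lit 0))))))))]
def lQm_20 : List (T ℤ) := [(T.h (T.h (T.h (P (nat_lit 334640716065204902163684261888)) (T.h (P (nat_lit 0)) (T.h (M (nat_lit 346650455776612682039295)) (T.h (P (nat_lit 0)) (T.h (P (nat_lit 10914297769569026048)) (T.h (P (nat_lit 0)) (M (nat_lit 742437631215)))))))) (T.h (P (nat_lit 0)) (T.h (T.h (M (nat_lit 346650455776612682039295)) (T.h (P (nat_lit 0)) (T.h (P (nat_lit 56584880978546130944)) (T.h (P (nat_lit 0)) (M (nat_lit 701830605887)))))) (T.h (P (nat_lit 0)) (T.h (T.h (P (nat_lit 10914297769569026048)) (T.h (P (nat_lit 0)) (M (nat_lit 701830605887)))) (T.h (P (nat_lit 0)) (M (nat_lit 742437631215)))))))) (T.h (T.h (P (nat_lit 0)) (T.h (T.h (P (nat_lit 0)) (T.h (P (nat_lit 2827372530029335412736))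 (T.h (P (nat_lit 0)) (P (nat_lit 10688244118454272))))) (T.h (P (nat_lit 0)) (T.h (T.h (P (nat_lit 0)) (P (nat_lit 10688244118454272))) (P (nat_lit 0)))))) (T.h (T.h (T.h (M (nat_lit 12599577724235064664915967)) (T.h (P (nat_lit 0)) (T.h (M (nat_lit 18751379505200234495)) (T.h (P (nat_lit 0)) (M (nat_lit 5826733407071)))))) (T.h (P (nat_lit 0)) (T.h (T.h (M (nat_lit 18751379505200234495)) (T.h (P (nat_lit 0)) (P (nat_lit 2288125408)))) (T.h (P (nat_lit 0)) (M (nat_lit 5826733407071)))))) (T.h (T.h (P (nat_lit 0)) (T.h (T.h (P (nat_lit 0)) (P (nat_lit 68465521162321920))) (P (nat_lit 0)))) (T.h (T.h (T.h (P (nat_lit 20011503028845674496)) (T.h (P (nat_lit 0)) (P (nat_lit 2516063840048)))) (T.h (P (nat_lit 0)) (P (nat_lit 2516063840048)))) (T.h (P (nat_lit 0)) (P (nat_lit 3445972896)))))))), (T.h (T.h (T.h (P (nat_lit 0)) (T.h (P (nat_lit 1190417878467455091652689920)) (T.h (P (nat_lit 0)) (T.h (P (nat_lit 26172018345570226667520)) (T.h (P (nat_lit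 0)) (P (nat_lit 845639420919808))))))) (T.h (P (nat_lit 0)) (T.h (T.h (P (nat_lit 0)) (T.h (P (nat_lit 31085853986710435659776)) (T.h (P (nat_lit 0)) (M (nat_lit 45041536216449023))))) (T.h (P (nat_lit 0)) (T.h (T.h (P (nat_lit 0)) (P (nat_lit 33828731189133312))) (P (nat_lit 0))))))) (T.h (T.h (P (nat_lit 0)) (T.h (T.h (P (nat_lit 39587408417186340669489152)) (T.h (P (nat_lit 0)) (T.h (P (nat_lit 130140937352900509696)) (T.h (P (nat_lit 0)) (M (nat_lit 71336986172927)))))) (T.h (P (nat_lit 0)) (T.h (T.h (M (nat_lit 21131093311641092095)) (T.h (P (nat_lit 0)) (M (nat_lit 13156209311727)))) (T.h (P (nat_lit 0)) (M (nat_lit 12153382404239))))))) (T.h (T.h (T.h (P (nat_lit 0)) (T.h (M (nat_lit 178699207068143585329151)) (T.h (P (nat_lit 0)) (P (nat_lit 84066674971803648))))) (T.h (P (nat_lit 0)) (T.h (T.h (P (nat_lit 0)) (M (nat_lit 14191932489744383))) (P (nat_lit 0))))) (T.h (T.h (P (nat_lit 0)) (T.h (T.h (M (nat_lit 18463015768434933759)) (T.h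 (P (nat_lit 0)) (M (nat_lit 13000870878351)))) (T.h (P (nat_lit 0)) (M (nat_lit 8063003288703))))) (T.h (T.h (T.h (P (nat_lit 0)) (M (nat_lit 16664568383143935))) (P (nat_lit 0))) (T.h (T.h (P (nat_lit 0)) (M (nat_lit 5632617450207))) (P (nat_lit 0)))))))), (T.h (T.h (T.h (P (nat_lit 1926289178347798091970222489600)) (T.h (P (nat_lit 0)) (T.h (P (nat_lit 47330361431426335642746880)) (T.h (P (nat_lit 0)) (T.h (P (nat_lit 5120460088942788608)) (T.h (P (nat_lit 0)) (P (nat_lit 1207207314880)))))))) (T.h (P (nat_lit 0)) (T.h (T.h (M (nat_lit 33340692085265967498657791)) (T.h (P (nat_lit 0)) (T.h (P (nat_lit 104285345478686539776)) (T.h (P (nat_lit 0)) (M (nat_lit 14133246574335)))))) (T.h (P (nat_lit 0)) (T.h (T.h (M (nat_lit 46840225438281760767)) (T.h (P (nat_lit 0)) (P (nat_lit 42450382400320)))) (T.h (P (nat_lit 0)) (M (nat_lit 16570632507263)))))))) (T.h (T.h (P (nat_lit 0)) (T.h (T.h (P (nat_lit 0)) (T.h (M (nat_lit 6298528377167190949887))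 (T.h (P (nat_lit 0)) (P (nat_lit 134977345443725312))))) (T.h (P (nat_lit 0)) (T.h (T.h (P (nat_lit 0)) (M (nat_lit 46579037508337663))) (P (nat_lit 0)))))) (T.h (T.h (T.h (P (nat_lit 47330361431426335642746880)) (T.h (P (nat_lit 0)) (T.h (M (nat_lit 230600563208908439551)) (T.h (P (nat_lit 0)) (M (nat_lit 34433058470527)))))) (T.h (P (nat_lit 0)) (T.h (T.h (P (nat_lit 104285345478686539776)) (T.h (P (nat_lit 0)) (M (nat_lit 72133862804607)))) (T.h (P (nat_lit 0)) (P (nat_lit 42450382400320)))))) (T.h (T.h (P (nat_lit 0)) (T.h (T.h (P (nat_lit 0)) (P (nat_lit 134977345443725312))) (P (nat_lit 0)))) (T.h (T.h (T.h (P (nat_lit 5120460088942788608)) (T.h (P (nat_lit 0)) (M (nat_lit 34433058470527)))) (T.h (P (nat_lit 0)) (M (nat_lit 14133246574335)))) (T.h (P (nat_lit 0)) (P (nat_lit 1207207314880)))))))), (T.h (T.h (T.h (P (nat_lit 0)) (T.h (M (nat_lit 7898869424295032560457613311)) (T.h (P (nat_lit 0)) (T.h (P (nat_lit 25619508905965531430912))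 (T.h (P (nat_lit 0)) (P (nat_lit 5990357490696192))))))) (T.h (P (nat_lit 0)) (T.h (T.h (P (nat_lit 0)) (T.h (M (nat_lit 66894456594855284965375)) (T.h (P (nat_lit 0)) (P (nat_lit 34505731325050880))))) (T.h (P (nat_lit 0)) (T.h (T.h (P (nat_lit 0)) (M (nat_lit 17205814889070591))) (P (nat_lit 0))))))) (T.h (T.h (P (nat_lit 0)) (T.h (T.h (P (nat_lit 3808010078810433310949376)) (T.h (P (nat_lit 0)) (M (nat_lit 47737917958413877247)))) (T.h (P (nat_lit 0)) (P (nat_lit 39699916217686949888))))) (T.h (T.h (T.h (P (nat_lit 0)) (T.h (P (nat_lit 20518604022785385693184)) (T.h (P (nat_lit 0)) (P (nat_lit 25828239031599104))))) (T.h (P (nat_lit 0)) (T.h (T.h (P (nat_lit 0)) (P (nat_lit 4558212600184832))) (P (nat_lit 0))))) (T.h (T.h (P (nat_lit 0)) (M (nat_lit 7228349994594467839))) (T.h (T.h (T.h (P (nat_lit 0)) (P (nat_lit 37244374366273536))) (P (nat_lit 0))) (P (nat_lit 0))))))), (P (nat_lit 0)), (P (nat_lit 0)), (T.h (T.h (P (nat_lit 0)) (T.h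 (T.h (P (nat_lit 0)) (T.h (P (nat_lit 14097034584816128465305600)) (T.h (P (nat_lit 0)) (T.h (P (nat_lit 40614113373115645952)) (T.h (P (nat_lit 0)) (M (nat_lit 1926006707967))))))) (T.h (P (nat_lit 0)) (T.h (T.h (P (nat_lit 0)) (T.h (P (nat_lit 14447862614417473536)) (T.h (P (nat_lit 0)) (P (nat_lit 6278110139768))))) (T.h (P (nat_lit 0)) (T.h (T.h (P (nat_lit 0)) (M (nat_lit 4801873344927))) (P (nat_lit 0)))))))) (T.h (T.h (T.h (M (nat_lit 9200511152944924224068255743)) (T.h (P (nat_lit 0)) (T.h (P (nat_lit 14077787117441249181696)) (T.h (P (nat_lit 0)) (P (nat_lit 5005039249031168)))))) (T.h (P (nat_lit 0)) (T.h (T.h (M (nat_lit 49067423696374458220543)) (T.h (P (nat_lit 0)) (P (nat_lit 1336226320908288)))) (T.h (P (nat_lit 0)) (P (nat_lit 28476101997723648)))))) (T.h (T.h (P (nat_lit 0)) (T.h (T.h (P (nat_lit 0)) (T.h (M (nat_lit 158806723948804308991)) (T.h (P (nat_lit 0)) (P (nat_lit 3119472546016))))) (T.h (P (nat_lit 0)) (T.h (T.h (P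 (nat_lit 0)) (P (nat_lit 17662225065888))) (P (nat_lit 0)))))) (T.h (T.h (T.h (M (nat_lit 8138641168080224387071)) (T.h (P (nat_lit 0)) (P (nat_lit 10156953881837568)))) (T.h (P (nat_lit 0)) (P (nat_lit 8698455030792192)))) (T.h (T.h (P (nat_lit 0)) (T.h (T.h (P (nat_lit 0)) (M (nat_lit 20609692359))) (P (nat_lit 0)))) (P (nat_lit 259682930294784))))))), (T.h (T.h (P (nat_lit 0)) (T.h (T.h (P (nat_lit 1190417878467455091652689920)) (T.h (P (nat_lit 0)) (T.h (P (nat_lit 31085853986710435659776)) (T.h (P (nat_lit 0)) (P (nat_lit 33828731189133312)))))) (T.h (P (nat_lit 0)) (T.h (T.h (P (nat_lit 26172018345570226667520)) (T.h (P (nat_lit 0)) (M (nat_lit 45041536216449023)))) (T.h (P (nat_lit 0)) (P (nat_lit 845639420919808))))))) (T.h (T.h (T.h (P (nat_lit 0)) (T.h (P (nat_lit 39587408417186340669489152)) (T.h (P (nat_lit 0)) (T.h (M (nat_lit 21131093311641092095)) (T.h (P (nat_lit 0)) (M (nat_lit 12153382404239))))))) (T.h (P (nat_lit 0)) (T.h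 (T.h (P (nat_lit 0)) (T.h (P (nat_lit 130140937352900509696)) (T.h (P (nat_lit 0)) (M (nat_lit 13156209311727))))) (T.h (P (nat_lit 0)) (T.h (T.h (P (nat_lit 0)) (M (nat_lit 71336986172927))) (P (nat_lit 0))))))) (T.h (T.h (P (nat_lit 0)) (T.h (T.h (M (nat_lit 178699207068143585329151)) (T.h (P (nat_lit 0)) (M (nat_lit 14191932489744383)))) (T.h (P (nat_lit 0)) (P (nat_lit 84066674971803648))))) (T.h (T.h (T.h (P (nat_lit 0)) (T.h (M (nat_lit 18463015768434933759)) (T.h (P (nat_lit 0)) (M (nat_lit 8063003288703))))) (T.h (P (nat_lit 0)) (T.h (T.h (P (nat_lit 0)) (M (nat_lit 13000870878351))) (P (nat_lit 0))))) (T.h (T.h (P (nat_lit 0)) (M (nat_lit 16664568383143935))) (T.h (T.h (T.h (P (nat_lit 0)) (M (nat_lit 5632617450207))) (P (nat_lit 0))) (P (nat_lit 0))))))))]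
def lQm_21 : List (T ℤ) := [(T.h (T.h (P (nat_lit 0)) (T.h (T.h (P (nat_lit 0)) (T.h (P (nat_lit 92769219625735950870511616)) (T.h (P (nat_lit 0)) (T.h (M (nat_lit 6936856581531238399)) (T.h (P (nat_lit 0)) (P (nat_lit 755777456064))))))) (T.h (P (nat_lit 0)) (T.h (T.h (P (nat_lit 0)) (T.h (M (nat_lit 6936856581531238399)) (T.h (P (nat_lit 0)) (P (nat_lit 16327525130624))))) (T.h (P (nat_lit 0)) (T.h (T.h (P (nat_lit 0)) (P (nat_lit 755777456064))) (P (nat_lit 0)))))))) (T.h (T.h (T.h (M (nat_lit 61925360365294456323170107391)) (T.h (P (nat_lit 0)) (T.h (M (nat_lit 9021229890076332261375)) (T.h (P (nat_lit 0)) (P (nat_lit 83077446423314432)))))) (T.h (P (nat_lit 0)) (T.h (T.h (M (nat_lit 9021229890076332261375)) (T.h (P (nat_lit 0)) (P (nat_lit 51710656747077632)))) (T.h (P (nat_lit 0)) (P (nat_lit 83077446423314432)))))) (T.h (T.h (P (nat_lit 0)) (T.h (T.h (P (nat_lit 0)) (T.h (M (nat_lit 408152612564925153279)) (T.h (P (nat_lit 0)) (M (nat_lit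 1615352190399))))) (T.h (P (nat_lit 0)) (T.h (T.h (P (nat_lit 0)) (M (nat_lit 1615352190399))) (P (nat_lit 0)))))) (T.h (T.h (T.h (P (nat_lit 43360163169862938525696)) (T.h (P (nat_lit 0)) (P (nat_lit 83687016428568576)))) (T.h (P (nat_lit 0)) (P (nat_lit 83687016428568576)))) (T.h (T.h (P (nat_lit 0)) (T.h (T.h (P (nat_lit 0)) (P (nat_lit 9118491233792))) (P (nat_lit 0)))) (P (nat_lit 6052457657925632))))))), (T.h (T.h (P (nat_lit 0)) (T.h (T.h (M (nat_lit 11386109411402279864340840447)) (T.h (P (nat_lit 0)) (T.h (P (nat_lit 3797065615410485788672)) (T.h (P (nat_lit 0)) (P (nat_lit 3934493346447360)))))) (T.h (P (nat_lit 0)) (T.h (T.h (P (nat_lit 17816978978999849975808)) (T.h (P (nat_lit 0)) (M (nat_lit 55595200717504511)))) (T.h (P (nat_lit 0)) (P (nat_lit 25065533473652736))))))) (T.h (T.h (T.h (P (nat_lit 0)) (T.h (M (nat_lit 7858349407269454602043391)) (T.h (P (nat_lit 0)) (M (nat_lit 59872406056204238847))))) (T.h (P (nat_lit 0)) (T.h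 (T.h (P (nat_lit 0)) (P (nat_lit 37574576478588239872))) (P (nat_lit 0))))) (T.h (T.h (P (nat_lit 0)) (T.h (T.h (P (nat_lit 3797065615410485788672)) (T.h (P (nat_lit 0)) (P (nat_lit 39413718720413696)))) (T.h (P (nat_lit 0)) (M (nat_lit 55595200717504511))))) (T.h (T.h (T.h (P (nat_lit 0)) (M (nat_lit 59872406056204238847))) (P (nat_lit 0))) (T.h (T.h (P (nat_lit 0)) (P (nat_lit 3934493346447360))) (P (nat_lit 0))))))), (P (nat_lit 0)), (P (nat_lit 0)), (T.h (T.h (T.h (P (nat_lit 0)) (T.h (M (nat_lit 12287764217866034664416739327)) (T.h (P (nat_lit 0)) (T.h (M (nat_lit 2453672103476595785727)) (T.h (P (nat_lit 0)) (P (nat_lit 3083148681314304))))))) (T.h (P (nat_lit 0)) (T.h (T.h (P (nat_lit 0)) (T.h (P (nat_lit 57566294809567433850880)) (T.h (P (nat_lit 0)) (P (nat_lit 13941152475676672))))) (T.h (P (nat_lit 0)) (T.h (T.h (P (nat_lit 0)) (P (nat_lit 10628605528555520))) (P (nat_lit 0))))))) (T.h (T.h (P (nat_lit 0)) (T.h (T.h (M (nat_lit 1459533739220636931194879))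 (T.h (P (nat_lit 0)) (T.h (M (nat_lit 62356342678558343167)) (T.h (P (nat_lit 0)) (M (nat_lit 14170135667743)))))) (T.h (P (nat_lit 0)) (T.h (T.h (P (nat_lit 16487317009659330560)) (T.h (P (nat_lit 0)) (M (nat_lit 2419356147151)))) (T.h (P (nat_lit 0)) (P (nat_lit 8063023529120))))))) (T.h (T.h (T.h (P (nat_lit 0)) (T.h (P (nat_lit 57566294809567433850880)) (T.h (P (nat_lit 0)) (P (nat_lit 13941152475676672))))) (T.h (P (nat_lit 0)) (T.h (T.h (P (nat_lit 0)) (M (nat_lit 92819841704132607))) (P (nat_lit 0))))) (T.h (T.h (P (nat_lit 0)) (T.h (T.h (P (nat_lit 16487317009659330560)) (T.h (P (nat_lit 0)) (M (nat_lit 2419356147151)))) (T.h (P (nat_lit 0)) (P (nat_lit 2263527959616))))) (T.h (T.h (T.h (P (nat_lit 0)) (P (nat_lit 10628605528555520))) (P (nat_lit 0))) (T.h (T.h (P (nat_lit 0)) (P (nat_lit 8063023529120))) (P (nat_lit 0)))))))), (T.h (T.h (T.h (P (nat_lit 1926289178347798091970222489600)) (T.h (P (nat_lit 0)) (T.h (M (nat_lit 33340692085265967498657791))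 (T.h (P (nat_lit 0)) (T.h (M (nat_lit 46840225438281760767)) (T.h (P (nat_lit 0)) (M (nat_lit 16570632507263)))))))) (T.h (P (nat_lit 0)) (T.h (T.h (P (nat_lit 47330361431426335642746880)) (T.h (P (nat_lit 0)) (T.h (P (nat_lit 104285345478686539776)) (T.h (P (nat_lit 0)) (P (nat_lit 42450382400320)))))) (T.h (P (nat_lit 0)) (T.h (T.h (P (nat_lit 5120460088942788608)) (T.h (P (nat_lit 0)) (M (nat_lit 14133246574335)))) (T.h (P (nat_lit 0)) (P (nat_lit 1207207314880)))))))) (T.h (T.h (P (nat_lit 0)) (T.h (T.h (P (nat_lit 0)) (T.h (M (nat_lit 6298528377167190949887)) (T.h (P (nat_lit 0)) (M (nat_lit 46579037508337663))))) (T.h (P (nat_lit 0)) (T.h (T.h (P (nat_lit 0)) (P (nat_lit 134977345443725312))) (P (nat_lit 0)))))) (T.h (T.h (T.h (P (nat_lit 47330361431426335642746880)) (T.h (P (nat_lit 0)) (T.h (P (nat_lit 104285345478686539776)) (T.h (P (nat_lit 0)) (P (nat_lit 42450382400320)))))) (T.h (P (nat_lit 0)) (T.h (T.h (M (nat_lit 230600563208908439551))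 (T.h (P (nat_lit 0)) (M (nat_lit 72133862804607)))) (T.h (P (nat_lit 0)) (M (nat_lit 34433058470527)))))) (T.h (T.h (P (nat_lit 0)) (T.h (T.h (P (nat_lit 0)) (P (nat_lit 134977345443725312))) (P (nat_lit 0)))) (T.h (T.h (T.h (P (nat_lit 5120460088942788608)) (T.h (P (nat_lit 0)) (M (nat_lit 14133246574335)))) (T.h (P (nat_lit 0)) (M (nat_lit 34433058470527)))) (T.h (P (nat_lit 0)) (P (nat_lit 1207207314880)))))))), (T.h (T.h (T.h (P (nat_lit 0)) (T.h (M (nat_lit 11386109411402279864340840447)) (T.h (P (nat_lit 0)) (T.h (P (nat_lit 17816978978999849975808)) (T.h (P (nat_lit 0)) (P (nat_lit 25065533473652736))))))) (T.h (P (nat_lit 0)) (T.h (T.h (P (nat_lit 0)) (T.h (P (nat_lit 3797065615410485788672)) (T.h (P (nat_lit 0)) (M (nat_lit 55595200717504511))))) (T.h (P (nat_lit 0)) (T.h (T.h (P (nat_lit 0)) (P (nat_lit 3934493346447360))) (P (nat_lit 0))))))) (T.h (T.h (P (nat_lit 0)) (T.h (T.h (M (nat_lit 7858349407269454602043391)) (T.h (P (nat_lit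 0)) (P (nat_lit 37574576478588239872)))) (T.h (P (nat_lit 0)) (M (nat_lit 59872406056204238847))))) (T.h (T.h (T.h (P (nat_lit 0)) (T.h (P (nat_lit 3797065615410485788672)) (T.h (P (nat_lit 0)) (M (nat_lit 55595200717504511))))) (T.h (P (nat_lit 0)) (T.h (T.h (P (nat_lit 0)) (P (nat_lit 39413718720413696))) (P (nat_lit 0))))) (T.h (T.h (P (nat_lit 0)) (M (nat_lit 59872406056204238847))) (T.h (T.h (T.h (P (nat_lit 0)) (P (nat_lit 3934493346447360))) (P (nat_lit 0))) (P (nat_lit 0))))))), (P (nat_lit 0))]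
def lQm_22 : List (T ℤ) := [(P (nat_lit 0)), (T.h (T.h (P (nat_lit 0)) (T.h (T.h (P (nat_lit 0)) (T.h (M (nat_lit 59548467549861302497181695)) (T.h (P (nat_lit 0)) (T.h (M (nat_lit 69442730501917900799)) (T.h (P (nat_lit 0)) (M (nat_lit 3142430723007))))))) (T.h (P (nat_lit 0)) (T.h (T.h (P (nat_lit 0)) (T.h (P (nat_lit 49584501972440973312)) (T.h (P (nat_lit 0)) (M (nat_lit 14712885554879))))) (T.h (P (nat_lit 0)) (T.h (T.h (P (nat_lit 0)) (P (nat_lit 18903779491264))) (P (nat_lit 0)))))))) (T.h (T.h (T.h (P (nat_lit 11197592873447516954182025216)) (T.h (P (nat_lit 0)) (T.h (P (nat_lit 2718646849926705709056)) (T.h (P (nat_lit 0)) (P (nat_lit 12712655784902656)))))) (T.h (P (nat_lit 0)) (T.h (T.h (P (nat_lit 61844520787591288586240)) (T.h (P (nat_lit 0)) (M (nat_lit 16416114175999999)))) (T.h (P (nat_lit 0)) (M (nat_lit 29810411964465151)))))) (T.h (T.h (P (nat_lit 0)) (T.h (T.h (P (nat_lit 0)) (T.h (P (nat_lit 79800601318839549952)) (T.h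 (P (nat_lit 0)) (P (nat_lit 26088908991424))))) (T.h (P (nat_lit 0)) (T.h (T.h (P (nat_lit 0)) (M (nat_lit 23937205427903))) (P (nat_lit 0)))))) (T.h (T.h (T.h (M (nat_lit 34347226040025118408703)) (T.h (P (nat_lit 0)) (M (nat_lit 8592079034286079)))) (T.h (P (nat_lit 0)) (M (nat_lit 12520311840047103)))) (T.h (T.h (P (nat_lit 0)) (T.h (T.h (P (nat_lit 0)) (P (nat_lit 34853027096000))) (P (nat_lit 0)))) (M (nat_lit 2365312111607807))))))), (T.h (T.h (P (nat_lit 0)) (T.h (T.h (M (nat_lit 7898869424295032560457613311)) (T.h (P (nat_lit 0)) (T.h (M (nat_lit 66894456594855284965375)) (T.h (P (nat_lit 0)) (M (nat_lit 17205814889070591)))))) (T.h (P (nat_lit 0)) (T.h (T.h (P (nat_lit 25619508905965531430912)) (T.h (P (nat_lit 0)) (P (nat_lit 34505731325050880)))) (T.h (P (nat_lit 0)) (P (nat_lit 5990357490696192))))))) (T.h (T.h (T.h (P (nat_lit 0)) (T.h (P (nat_lit 3808010078810433310949376)) (T.h (P (nat_lit 0)) (P (nat_lit 39699916217686949888)))))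 (T.h (P (nat_lit 0)) (T.h (T.h (P (nat_lit 0)) (M (nat_lit 47737917958413877247))) (P (nat_lit 0))))) (T.h (T.h (P (nat_lit 0)) (T.h (T.h (P (nat_lit 20518604022785385693184)) (T.h (P (nat_lit 0)) (P (nat_lit 4558212600184832)))) (T.h (P (nat_lit 0)) (P (nat_lit 25828239031599104))))) (T.h (T.h (T.h (P (nat_lit 0)) (M (nat_lit 7228349994594467839))) (P (nat_lit 0))) (T.h (T.h (P (nat_lit 0)) (P (nat_lit 37244374366273536))) (P (nat_lit 0))))))), (P (nat_lit 0)), (P (nat_lit 0)), (T.h (T.h (T.h (P (nat_lit 0)) (T.h (P (nat_lit 9444388680319584730748026880)) (T.h (P (nat_lit 0)) (T.h (P (nat_lit 11887339130370524184576)) (T.h (P (nat_lit 0)) (M (nat_lit 2323722480533503))))))) (T.h (P (nat_lit 0)) (T.h (T.h (P (nat_lit 0)) (T.h (M (nat_lit 30742105541402773422079)) (T.h (P (nat_lit 0)) (P (nat_lit 22101788836069376))))) (T.h (P (nat_lit 0)) (T.h (T.h (P (nat_lit 0)) (M (nat_lit 24581947639840767))) (P (nat_lit 0))))))) (T.h (T.h (P (nat_lit 0))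 (T.h (T.h (M (nat_lit 10198635777548292081057791)) (T.h (P (nat_lit 0)) (P (nat_lit 9004690242220851200)))) (T.h (P (nat_lit 0)) (P (nat_lit 10587787297082572800))))) (T.h (T.h (T.h (P (nat_lit 0)) (T.h (M (nat_lit 4498893292917248491519)) (T.h (P (nat_lit 0)) (P (nat_lit 1483925649195008))))) (T.h (P (nat_lit 0)) (T.h (T.h (P (nat_lit 0)) (P (nat_lit 44089042524880896))) (P (nat_lit 0))))) (T.h (T.h (P (nat_lit 0)) (P (nat_lit 44064355139457122304))) (T.h (T.h (T.h (P (nat_lit 0)) (M (nat_lit 17641106541363199))) (P (nat_lit 0))) (P (nat_lit 0))))))), (P (nat_lit 0)), (P (nat_lit 0))]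
def lQm_23 : List (T ℤ) := [(P (nat_lit 0)), (P (nat_lit 0)), (P (nat_lit 0)), (T.h (T.h (T.h (M (nat_lit 169053768763270514532562239487)) (T.h (P (nat_lit 0)) (T.h (P (nat_lit 1217783071519776866041856)) (T.h (P (nat_lit 0)) (T.h (M (nat_lit 2581556048120774655)) (T.h (P (nat_lit 0)) (P (nat_lit 2889973006256)))))))) (T.h (P (nat_lit 0)) (T.h (T.h (P (nat_lit 1217783071519776866041856)) (T.h (P (nat_lit 0)) (T.h (M (nat_lit 580103659812028415)) (T.h (P (nat_lit 0)) (M (nat_lit 662576913727)))))) (T.h (P (nat_lit 0)) (T.h (T.h (M (nat_lit 2581556048120774655)) (T.h (P (nat_lit 0)) (M (nat_lit 662576913727)))) (T.h (P (nat_lit 0)) (P (nat_lit 2889973006256)))))))) (T.h (T.h (P (nat_lit 0)) (T.h (T.h (P (nat_lit 0)) (T.h (M (nat_lit 1587471070678617161727)) (T.h (P (nat_lit 0)) (P (nat_lit 3737556218937344))))) (T.h (P (nat_lit 0)) (T.h (T.h (P (nat_lit 0)) (P (nat_lit 3737556218937344))) (P (nat_lit 0)))))) (T.h (T.h (T.h (M (nat_lit 86023058324020239794175))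 (T.h (P (nat_lit 0)) (T.h (M (nat_lit 2804189857717420031)) (T.h (P (nat_lit 0)) (P (nat_lit 2363898821680)))))) (T.h (P (nat_lit 0)) (T.h (T.h (M (nat_lit 2804189857717420031)) (T.h (P (nat_lit 0)) (P (nat_lit 2120391294816)))) (T.h (P (nat_lit 0)) (P (nat_lit 2363898821680)))))) (T.h (T.h (P (nat_lit 0)) (T.h (T.h (P (nat_lit 0)) (P (nat_lit 2147752284127232))) (P (nat_lit 0)))) (T.h (T.h (T.h (P (nat_lit 544121181330997248)) (T.h (P (nat_lit 0)) (P (nat_lit 1796611202864)))) (T.h (P (nat_lit 0)) (P (nat_lit 1796611202864)))) (T.h (P (nat_lit 0)) (M (nat_lit 1570308029599)))))))), (T.h (T.h (T.h (P (nat_lit 0)) (T.h (P (nat_lit 481498426444980760464064512)) (T.h (P (nat_lit 0)) (T.h (P (nat_lit 5697953271083314446336)) (T.h (P (nat_lit 0)) (P (nat_lit 1101479145242624))))))) (T.h (P (nat_lit 0)) (T.h (T.h (P (nat_lit 0)) (T.h (M (nat_lit 30550314660257486340095)) (T.h (P (nat_lit 0)) (M (nat_lit 11781704825339903))))) (T.h (P (nat_lit 0))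 (T.h (T.h (P (nat_lit 0)) (M (nat_lit 24475322561724415))) (P (nat_lit 0))))))) (T.h (T.h (P (nat_lit 0)) (T.h (T.h (M (nat_lit 7876353602873980778184703)) (T.h (P (nat_lit 0)) (T.h (P (nat_lit 49373033002136764416)) (T.h (P (nat_lit 0)) (P (nat_lit 1986549294752)))))) (T.h (P (nat_lit 0)) (T.h (T.h (M (nat_lit 20999579311255060479)) (T.h (P (nat_lit 0)) (M (nat_lit 12794536799487)))) (T.h (P (nat_lit 0)) (P (nat_lit 376638881960))))))) (T.h (T.h (T.h (P (nat_lit 0)) (T.h (P (nat_lit 26681154423655495630848)) (T.h (P (nat_lit 0)) (P (nat_lit 784067758030848))))) (T.h (P (nat_lit 0)) (T.h (T.h (P (nat_lit 0)) (P (nat_lit 52353664172392448))) (P (nat_lit 0))))) (T.h (T.h (P (nat_lit 0)) (T.h (T.h (M (nat_lit 53974486825366978559)) (T.h (P (nat_lit 0)) (P (nat_lit 11084003201840)))) (T.h (P (nat_lit 0)) (M (nat_lit 3170395601471))))) (T.h (T.h (T.h (P (nat_lit 0)) (P (nat_lit 7017528924438528))) (P (nat_lit 0))) (T.h (T.h (P (nat_lit 0)) (P (nat_lit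 232301117192))) (P (nat_lit 0)))))))), (T.h (T.h (T.h (M (nat_lit 15781421352417333064023314268159)) (T.h (P (nat_lit 0)) (T.h (M (nat_lit 17016263105224677655576575)) (T.h (P (nat_lit 0)) (T.h (M (nat_lit 5769335801796100095)) (T.h (P (nat_lit 0)) (M (nat_lit 6454986133007)))))))) (T.h (P (nat_lit 0)) (T.h (T.h (P (nat_lit 19510935969206319368372224)) (T.h (P (nat_lit 0)) (T.h (P (nat_lit 4459232863304286208)) (T.h (P (nat_lit 0)) (P (nat_lit 15481464103056)))))) (T.h (P (nat_lit 0)) (T.h (T.h (P (nat_lit 3816157051806023680)) (T.h (P (nat_lit 0)) (M (nat_lit 2689076313615)))) (T.h (P (nat_lit 0)) (M (nat_lit 2135898518655)))))))) (T.h (T.h (P (nat_lit 0)) (T.h (T.h (P (nat_lit 0)) (T.h (P (nat_lit 104428965465499621130240)) (T.h (P (nat_lit 0)) (M (nat_lit 42371289102942207))))) (T.h (P (nat_lit 0)) (T.h (T.h (P (nat_lit 0)) (P (nat_lit 95973161780510720))) (P (nat_lit 0)))))) (T.h (T.h (T.h (P (nat_lit 2254133925789322698555392)) (T.h (P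 (nat_lit 0)) (T.h (M (nat_lit 20199970791355318271)) (T.h (P (nat_lit 0)) (P (nat_lit 7861092761200)))))) (T.h (P (nat_lit 0)) (T.h (T.h (M (nat_lit 48825252204196659199)) (T.h (P (nat_lit 0)) (P (nat_lit 8548507008608)))) (T.h (P (nat_lit 0)) (M (nat_lit 5131028078175)))))) (T.h (T.h (P (nat_lit 0)) (T.h (T.h (P (nat_lit 0)) (M (nat_lit 65765569243283455))) (P (nat_lit 0)))) (T.h (T.h (T.h (M (nat_lit 11582974751273910271)) (T.h (P (nat_lit 0)) (P (nat_lit 18872188738032)))) (T.h (P (nat_lit 0)) (P (nat_lit 66173550912)))) (T.h (P (nat_lit 0)) (M (nat_lit 4494899552751)))))))), (T.h (T.h (T.h (P (nat_lit 0)) (T.h (P (nat_lit 11197592873447516954182025216)) (T.h (P (nat_lit 0)) (T.h (M (nat_lit 34347226040025118408703)) (T.h (P (nat_lit 0)) (M (nat_lit 2365312111607807))))))) (T.h (P (nat_lit 0)) (T.h (T.h (P (nat_lit 0)) (T.h (P (nat_lit 2718646849926705709056)) (T.h (P (nat_lit 0)) (M (nat_lit 8592079034286079))))) (T.h (P (nat_lit 0)) (T.h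 (T.h (P (nat_lit 0)) (P (nat_lit 12712655784902656))) (P (nat_lit 0))))))) (T.h (T.h (P (nat_lit 0)) (T.h (T.h (M (nat_lit 59548467549861302497181695)) (T.h (P (nat_lit 0)) (T.h (P (nat_lit 79800601318839549952)) (T.h (P (nat_lit 0)) (P (nat_lit 34853027096000)))))) (T.h (P (nat_lit 0)) (T.h (T.h (M (nat_lit 69442730501917900799)) (T.h (P (nat_lit 0)) (P (nat_lit 26088908991424)))) (T.h (P (nat_lit 0)) (M (nat_lit 3142430723007))))))) (T.h (T.h (T.h (P (nat_lit 0)) (T.h (P (nat_lit 61844520787591288586240)) (T.h (P (nat_lit 0)) (M (nat_lit 12520311840047103))))) (T.h (P (nat_lit 0)) (T.h (T.h (P (nat_lit 0)) (M (nat_lit 16416114175999999))) (P (nat_lit 0))))) (T.h (T.h (P (nat_lit 0)) (T.h (T.h (P (nat_lit 49584501972440973312)) (T.h (P (nat_lit 0)) (M (nat_lit 23937205427903)))) (T.h (P (nat_lit 0)) (M (nat_lit 14712885554879))))) (T.h (T.h (T.h (P (nat_lit 0)) (M (nat_lit 29810411964465151))) (P (nat_lit 0))) (T.h (T.h (P (nat_lit 0)) (P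 (nat_lit 18903779491264))) (P (nat_lit 0)))))))), (T.h (T.h (T.h (M (nat_lit 1566566538292661711704453808127)) (T.h (P (nat_lit 0)) (T.h (P (nat_lit 9732647539352031790628864)) (T.h (P (nat_lit 0)) (P (nat_lit 16297031267554164736)))))) (T.h (P (nat_lit 0)) (T.h (T.h (M (nat_lit 3329637082376392511848447)) (T.h (P (nat_lit 0)) (M (nat_lit 3306482805604614143)))) (T.h (P (nat_lit 0)) (M (nat_lit 3580613197985480703)))))) (T.h (T.h (P (nat_lit 0)) (T.h (T.h (P (nat_lit 0)) (T.h (M (nat_lit 26663661396517474795519)) (T.h (P (nat_lit 0)) (M (nat_lit 23433650567217151))))) (T.h (P (nat_lit 0)) (T.h (T.h (P (nat_lit 0)) (M (nat_lit 26715042807218175))) (P (nat_lit 0)))))) (T.h (T.h (T.h (P (nat_lit 9732647539352031790628864)) (T.h (P (nat_lit 0)) (P (nat_lit 2048803517447012352)))) (T.h (P (nat_lit 0)) (M (nat_lit 3306482805604614143)))) (T.h (T.h (P (nat_lit 0)) (T.h (T.h (P (nat_lit 0)) (M (nat_lit 23433650567217151))) (P (nat_lit 0)))) (P (nat_lit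 16297031267554164736))))))]
def lQm_24 : List (T ℤ) := [(P (nat_lit 0)), (P (nat_lit 0)), (T.h (T.h (P (nat_lit 0)) (T.h (T.h (P (nat_lit 481498426444980760464064512)) (T.h (P (nat_lit 0)) (T.h (M (nat_lit 30550314660257486340095)) (T.h (P (nat_lit 0)) (M (nat_lit 24475322561724415)))))) (T.h (P (nat_lit 0)) (T.h (T.h (P (nat_lit 5697953271083314446336)) (T.h (P (nat_lit 0)) (M (nat_lit 11781704825339903)))) (T.h (P (nat_lit 0)) (P (nat_lit 1101479145242624))))))) (T.h (T.h (T.h (P (nat_lit 0)) (T.h (M (nat_lit 7876353602873980778184703)) (T.h (P (nat_lit 0)) (T.h (M (nat_lit 20999579311255060479)) (T.h (P (nat_lit 0)) (P (nat_lit 376638881960))))))) (T.h (P (nat_lit 0)) (T.h (T.h (P (nat_lit 0)) (T.h (P (nat_lit 49373033002136764416)) (T.h (P (nat_lit 0)) (M (nat_lit 12794536799487))))) (T.h (P (nat_lit 0)) (T.h (T.h (P (nat_lit 0)) (P (nat_lit 1986549294752))) (P (nat_lit 0))))))) (T.h (T.h (P (nat_lit 0)) (T.h (T.h (P (nat_lit 26681154423655495630848))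 (T.h (P (nat_lit 0)) (P (nat_lit 52353664172392448)))) (T.h (P (nat_lit 0)) (P (nat_lit 784067758030848))))) (T.h (T.h (T.h (P (nat_lit 0)) (T.h (M (nat_lit 53974486825366978559)) (T.h (P (nat_lit 0)) (M (nat_lit 3170395601471))))) (T.h (P (nat_lit 0)) (T.h (T.h (P (nat_lit 0)) (P (nat_lit 11084003201840))) (P (nat_lit 0))))) (T.h (T.h (P (nat_lit 0)) (P (nat_lit 7017528924438528))) (T.h (T.h (T.h (P (nat_lit 0)) (P (nat_lit 232301117192))) (P (nat_lit 0))) (P (nat_lit 0)))))))), (T.h (T.h (P (nat_lit 0)) (T.h (T.h (P (nat_lit 0)) (T.h (M (nat_lit 10900861621101865260285951)) (T.h (P (nat_lit 0)) (T.h (P (nat_lit 10343249924551868416)) (T.h (P (nat_lit 0)) (P (nat_lit 4818155716864))))))) (T.h (P (nat_lit 0)) (T.h (T.h (P (nat_lit 0)) (T.h (P (nat_lit 10343249924551868416)) (T.h (P (nat_lit 0)) (P (nat_lit 2939123638080))))) (T.h (P (nat_lit 0)) (T.h (T.h (P (nat_lit 0)) (P (nat_lit 4818155716864))) (P (nat_lit 0)))))))) (T.h (T.h (T.h (P (nat_lit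 1274835501234415265053147136)) (T.h (P (nat_lit 0)) (T.h (P (nat_lit 25879262263560112177152)) (T.h (P (nat_lit 0)) (P (nat_lit 17005672959475712)))))) (T.h (P (nat_lit 0)) (T.h (T.h (P (nat_lit 25879262263560112177152)) (T.h (P (nat_lit 0)) (M (nat_lit 45833303586930687)))) (T.h (P (nat_lit 0)) (P (nat_lit 17005672959475712)))))) (T.h (T.h (P (nat_lit 0)) (T.h (T.h (P (nat_lit 0)) (T.h (P (nat_lit 61799540729095127040)) (T.h (P (nat_lit 0)) (M (nat_lit 1321085431679))))) (T.h (P (nat_lit 0)) (T.h (T.h (P (nat_lit 0)) (M (nat_lit 1321085431679))) (P (nat_lit 0)))))) (T.h (T.h (T.h (M (nat_lit 28054637439075940827135)) (T.h (P (nat_lit 0)) (P (nat_lit 5499124897611776)))) (T.h (P (nat_lit 0)) (P (nat_lit 5499124897611776)))) (T.h (T.h (P (nat_lit 0)) (T.h (T.h (P (nat_lit 0)) (M (nat_lit 24657609824063))) (P (nat_lit 0)))) (P (nat_lit 14290841708625920))))))), (T.h (T.h (P (nat_lit 0)) (T.h (T.h (P (nat_lit 3702363822789395728794910720)) (T.h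 (P (nat_lit 0)) (T.h (M (nat_lit 90403578470243908976639)) (T.h (P (nat_lit 0)) (M (nat_lit 3203367007879167)))))) (T.h (P (nat_lit 0)) (T.h (T.h (P (nat_lit 25529900305342426775552)) (T.h (P (nat_lit 0)) (M (nat_lit 47829927093829631)))) (T.h (P (nat_lit 0)) (P (nat_lit 30804322491269120))))))) (T.h (T.h (T.h (P (nat_lit 0)) (T.h (P (nat_lit 45895461587282081093779456)) (T.h (P (nat_lit 0)) (T.h (M (nat_lit 9299283688523038719)) (T.h (P (nat_lit 0)) (M (nat_lit 22294549504639))))))) (T.h (P (nat_lit 0)) (T.h (T.h (P (nat_lit 0)) (T.h (P (nat_lit 104285394266293796864)) (T.h (P (nat_lit 0)) (P (nat_lit 16065160221824))))) (T.h (P (nat_lit 0)) (T.h (T.h (P (nat_lit 0)) (M (nat_lit 1978396775167))) (P (nat_lit 0))))))) (T.h (T.h (P (nat_lit 0)) (T.h (T.h (P (nat_lit 41905726175429229805568)) (T.h (P (nat_lit 0)) (P (nat_lit 50639647774375936)))) (T.h (P (nat_lit 0)) (M (nat_lit 33222815373590527))))) (T.h (T.h (T.h (P (nat_lit 0)) (T.h (M (nat_lit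 132497166626126299135)) (T.h (P (nat_lit 0)) (P (nat_lit 20259293530944))))) (T.h (P (nat_lit 0)) (T.h (T.h (P (nat_lit 0)) (M (nat_lit 34116370026495))) (P (nat_lit 0))))) (T.h (T.h (P (nat_lit 0)) (P (nat_lit 88632905097216000))) (T.h (T.h (T.h (P (nat_lit 0)) (M (nat_lit 49546857328575))) (P (nat_lit 0))) (P (nat_lit 0)))))))), (T.h (T.h (P (nat_lit 0)) (T.h (T.h (P (nat_lit 0)) (T.h (P (nat_lit 3808010078810433310949376)) (T.h (P (nat_lit 0)) (M (nat_lit 7228349994594467839))))) (T.h (P (nat_lit 0)) (T.h (T.h (P (nat_lit 0)) (P (nat_lit 39699916217686949888))) (P (nat_lit 0)))))) (T.h (T.h (T.h (M (nat_lit 7898869424295032560457613311)) (T.h (P (nat_lit 0)) (T.h (P (nat_lit 20518604022785385693184)) (T.h (P (nat_lit 0)) (P (nat_lit 37244374366273536)))))) (T.h (P (nat_lit 0)) (T.h (T.h (M (nat_lit 66894456594855284965375)) (T.h (P (nat_lit 0)) (P (nat_lit 4558212600184832)))) (T.h (P (nat_lit 0)) (M (nat_lit 17205814889070591)))))) (T.h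 (T.h (P (nat_lit 0)) (T.h (T.h (P (nat_lit 0)) (M (nat_lit 47737917958413877247))) (P (nat_lit 0)))) (T.h (T.h (T.h (P (nat_lit 25619508905965531430912)) (T.h (P (nat_lit 0)) (P (nat_lit 25828239031599104)))) (T.h (P (nat_lit 0)) (P (nat_lit 34505731325050880)))) (T.h (P (nat_lit 0)) (P (nat_lit 5990357490696192))))))), (P (nat_lit 0)), (P (nat_lit 0))]
def lQm_25 : List (T ℤ) := [(T.h (T.h (T.h (M (nat_lit 15781421352417333064023314268159)) (T.h (P (nat_lit 0)) (T.h (P (nat_lit 19510935969206319368372224)) (T.h (P (nat_lit 0)) (T.h (P (nat_lit 3816157051806023680)) (T.h (P (nat_lit 0)) (M (nat_lit 2135898518655)))))))) (T.h (P (nat_lit 0)) (T.h (T.h (M (nat_lit 17016263105224677655576575)) (T.h (P (nat_lit 0)) (T.h (P (nat_lit 4459232863304286208)) (T.h (P (nat_lit 0)) (M (nat_lit 2689076313615)))))) (T.h (P (nat_lit 0)) (T.h (T.h (M (nat_lit 5769335801796100095)) (T.h (P (nat_lit 0)) (P (nat_lit 15481464103056)))) (T.h (P (nat_lit 0)) (M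 (nat_lit 6454986133007)))))))) (T.h (T.h (P (nat_lit 0)) (T.h (T.h (P (nat_lit 0)) (T.h (P (nat_lit 104428965465499621130240)) (T.h (P (nat_lit 0)) (P (nat_lit 95973161780510720))))) (T.h (P (nat_lit 0)) (T.h (T.h (P (nat_lit 0)) (M (nat_lit 42371289102942207))) (P (nat_lit 0)))))) (T.h (T.h (T.h (P (nat_lit 2254133925789322698555392)) (T.h (P (nat_lit 0)) (T.h (M (nat_lit 48825252204196659199)) (T.h (P (nat_lit 0)) (M (nat_lit 5131028078175)))))) (T.h (P (nat_lit 0)) (T.h (T.h (M (nat_lit 20199970791355318271)) (T.h (P (nat_lit 0)) (P (nat_lit 8548507008608)))) (T.h (P (nat_lit 0)) (P (nat_lit 7861092761200)))))) (T.h (T.h (P (nat_lit 0)) (T.h (T.h (P (nat_lit 0)) (M (nat_lit 65765569243283455))) (P (nat_lit 0)))) (T.h (T.h (T.h (M (nat_lit 11582974751273910271)) (T.h (P (nat_lit 0)) (P (nat_lit 66173550912)))) (T.h (P (nat_lit 0)) (P (nat_lit 18872188738032)))) (T.h (P (nat_lit 0)) (M (nat_lit 4494899552751)))))))), (T.h (T.h (T.h (P (nat_lit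 0)) (T.h (P (nat_lit 3702363822789395728794910720)) (T.h (P (nat_lit 0)) (T.h (P (nat_lit 25529900305342426775552)) (T.h (P (nat_lit 0)) (P (nat_lit 30804322491269120))))))) (T.h (P (nat_lit 0)) (T.h (T.h (P (nat_lit 0)) (T.h (M (nat_lit 90403578470243908976639)) (T.h (P (nat_lit 0)) (M (nat_lit 47829927093829631))))) (T.h (P (nat_lit 0)) (T.h (T.h (P (nat_lit 0)) (M (nat_lit 3203367007879167))) (P (nat_lit 0))))))) (T.h (T.h (P (nat_lit 0)) (T.h (T.h (P (nat_lit 45895461587282081093779456)) (T.h (P (nat_lit 0)) (T.h (P (nat_lit 104285394266293796864)) (T.h (P (nat_lit 0)) (M (nat_lit 1978396775167)))))) (T.h (P (nat_lit 0)) (T.h (T.h (M (nat_lit 9299283688523038719)) (T.h (P (nat_lit 0)) (P (nat_lit 16065160221824)))) (T.h (P (nat_lit 0)) (M (nat_lit 22294549504639))))))) (T.h (T.h (T.h (P (nat_lit 0)) (T.h (P (nat_lit 41905726175429229805568)) (T.h (P (nat_lit 0)) (M (nat_lit 33222815373590527))))) (T.h (P (nat_lit 0)) (T.h (T.h (P (nat_lit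 0)) (P (nat_lit 50639647774375936))) (P (nat_lit 0))))) (T.h (T.h (P (nat_lit 0)) (T.h (T.h (M (nat_lit 132497166626126299135)) (T.h (P (nat_lit 0)) (M (nat_lit 34116370026495)))) (T.h (P (nat_lit 0)) (P (nat_lit 20259293530944))))) (T.h (T.h (T.h (P (nat_lit 0)) (P (nat_lit 88632905097216000))) (P (nat_lit 0))) (T.h (T.h (P (nat_lit 0)) (M (nat_lit 49546857328575))) (P (nat_lit 0)))))))), (T.h (T.h (T.h (P (nat_lit 2965995001898959740632314150912)) (T.h (P (nat_lit 0)) (T.h (M (nat_lit 5139392947130120844345343)) (T.h (P (nat_lit 0)) (M (nat_lit 36995800222106910719)))))) (T.h (P (nat_lit 0)) (T.h (T.h (M (nat_lit 5139392947130120844345343)) (T.h (P (nat_lit 0)) (P (nat_lit 74560750045622173696)))) (T.h (P (nat_lit 0)) (M (nat_lit 36995800222106910719)))))) (T.h (T.h (P (nat_lit 0)) (T.h (T.h (P (nat_lit 0)) (T.h (M (nat_lit 46242827737220222287871)) (T.h (P (nat_lit 0)) (M (nat_lit 5372423414317055))))) (T.h (P (nat_lit 0)) (T.h (T.h (P (nat_lit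 0)) (M (nat_lit 5372423414317055))) (P (nat_lit 0)))))) (T.h (T.h (T.h (M (nat_lit 40921446729443515786330111)) (T.h (P (nat_lit 0)) (M (nat_lit 5754790540310740991)))) (T.h (P (nat_lit 0)) (M (nat_lit 5754790540310740991)))) (T.h (T.h (P (nat_lit 0)) (T.h (T.h (P (nat_lit 0)) (P (nat_lit 25597827883728896))) (P (nat_lit 0)))) (M (nat_lit 61716191199897845759)))))), (P (nat_lit 0)), (P (nat_lit 0)), (T.h (T.h (P (nat_lit 0)) (T.h (T.h (P (nat_lit 11197592873447516954182025216)) (T.h (P (nat_lit 0)) (T.h (P (nat_lit 2718646849926705709056)) (T.h (P (nat_lit 0)) (P (nat_lit 12712655784902656)))))) (T.h (P (nat_lit 0)) (T.h (T.h (M (nat_lit 34347226040025118408703)) (T.h (P (nat_lit 0)) (M (nat_lit 8592079034286079)))) (T.h (P (nat_lit 0)) (M (nat_lit 2365312111607807))))))) (T.h (T.h (T.h (P (nat_lit 0)) (T.h (M (nat_lit 59548467549861302497181695)) (T.h (P (nat_lit 0)) (T.h (M (nat_lit 69442730501917900799)) (T.h (P (nat_lit 0)) (M (nat_lit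 3142430723007))))))) (T.h (P (nat_lit 0)) (T.h (T.h (P (nat_lit 0)) (T.h (P (nat_lit 79800601318839549952)) (T.h (P (nat_lit 0)) (P (nat_lit 26088908991424))))) (T.h (P (nat_lit 0)) (T.h (T.h (P (nat_lit 0)) (P (nat_lit 34853027096000))) (P (nat_lit 0))))))) (T.h (T.h (P (nat_lit 0)) (T.h (T.h (P (nat_lit 61844520787591288586240)) (T.h (P (nat_lit 0)) (M (nat_lit 16416114175999999)))) (T.h (P (nat_lit 0)) (M (nat_lit 12520311840047103))))) (T.h (T.h (T.h (P (nat_lit 0)) (T.h (P (nat_lit 49584501972440973312)) (T.h (P (nat_lit 0)) (M (nat_lit 14712885554879))))) (T.h (P (nat_lit 0)) (T.h (T.h (P (nat_lit 0)) (M (nat_lit 23937205427903))) (P (nat_lit 0))))) (T.h (T.h (P (nat_lit 0)) (M (nat_lit 29810411964465151))) (T.h (T.h (T.h (P (nat_lit 0)) (P (nat_lit 18903779491264))) (P (nat_lit 0))) (P (nat_lit 0)))))))), (T.h (T.h (P (nat_lit 0)) (T.h (T.h (P (nat_lit 0)) (T.h (P (nat_lit 3808010078810433310949376)) (T.h (P (nat_lit 0)) (P (nat_lit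 39699916217686949888))))) (T.h (P (nat_lit 0)) (T.h (T.h (P (nat_lit 0)) (M (nat_lit 7228349994594467839))) (P (nat_lit 0)))))) (T.h (T.h (T.h (M (nat_lit 7898869424295032560457613311)) (T.h (P (nat_lit 0)) (T.h (M (nat_lit 66894456594855284965375)) (T.h (P (nat_lit 0)) (M (nat_lit 17205814889070591)))))) (T.h (P (nat_lit 0)) (T.h (T.h (P (nat_lit 20518604022785385693184)) (T.h (P (nat_lit 0)) (P (nat_lit 4558212600184832)))) (T.h (P (nat_lit 0)) (P (nat_lit 37244374366273536)))))) (T.h (T.h (P (nat_lit 0)) (T.h (T.h (P (nat_lit 0)) (M (nat_lit 47737917958413877247))) (P (nat_lit 0)))) (T.h (T.h (T.h (P (nat_lit 25619508905965531430912)) (T.h (P (nat_lit 0)) (P (nat_lit 34505731325050880)))) (T.h (P (nat_lit 0)) (P (nat_lit 25828239031599104)))) (T.h (P (nat_lit 0)) (P (nat_lit 5990357490696192))))))), (P (nat_lit 0))]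
def lQm_26 : List (T ℤ) := [(P (nat_lit 0)), (T.h (T.h (T.h (M (nat_lit 1566566538292661711704453808127)) (T.h (P (nat_lit 0)) (T.h (M (nat_lit 3329637082376392511848447)) (T.h (P (nat_lit 0)) (M (nat_lit 3580613197985480703)))))) (T.h (P (nat_lit 0)) (T.h (T.h (P (nat_lit 9732647539352031790628864)) (T.h (P (nat_lit 0)) (M (nat_lit 3306482805604614143)))) (T.h (P (nat_lit 0)) (P (nat_lit 16297031267554164736)))))) (T.h (T.h (P (nat_lit 0)) (T.h (T.h (P (nat_lit 0)) (T.h (M (nat_lit 26663661396517474795519)) (T.h (P (nat_lit 0)) (M (nat_lit 26715042807218175))))) (T.h (P (nat_lit 0)) (T.h (T.h (P (nat_lit 0)) (M (nat_lit 23433650567217151))) (P (nat_lit 0)))))) (T.h (T.h (T.h (P (nat_lit 9732647539352031790628864)) (T.h (P (nat_lit 0)) (M (nat_lit 3306482805604614143)))) (T.h (P (nat_lit 0)) (P (nat_lit 2048803517447012352)))) (T.h (T.h (P (nat_lit 0)) (T.h (T.h (P (nat_lit 0)) (M (nat_lit 23433650567217151))) (P (nat_lit 0)))) (P (nat_lit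 16297031267554164736)))))), (P (nat_lit 0)), (P (nat_lit 0)), (P (nat_lit 0)), (P (nat_lit 0)), (P (nat_lit 0)), (T.h (T.h (P (nat_lit 0)) (T.h (T.h (P (nat_lit 0)) (T.h (M (nat_lit 2059946901904829097967615)) (T.h (P (nat_lit 0)) (T.h (P (nat_lit 14029646457506627584)) (T.h (P (nat_lit 0)) (M (nat_lit 1884415318087))))))) (T.h (P (nat_lit 0)) (T.h (T.h (P (nat_lit 0)) (T.h (P (nat_lit 14029646457506627584)) (T.h (P (nat_lit 0)) (M (nat_lit 2061010941807))))) (T.h (P (nat_lit 0)) (T.h (T.h (P (nat_lit 0)) (M (nat_lit 1884415318087))) (P (nat_lit 0)))))))) (T.h (T.h (T.h (P (nat_lit 9182275218262489025208123392)) (T.h (P (nat_lit 0)) (T.h (P (nat_lit 13613235312272529686528)) (T.h (P (nat_lit 0)) (P (nat_lit 7111101373186048)))))) (T.h (P (nat_lit 0)) (T.h (T.h (P (nat_lit 13613235312272529686528)) (T.h (P (nat_lit 0)) (M (nat_lit 8622493221978111)))) (T.h (P (nat_lit 0)) (P (nat_lit 7111101373186048)))))) (T.h (T.h (P (nat_lit 0)) (T.h (T.h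 (P (nat_lit 0)) (T.h (P (nat_lit 4201936957627957248)) (T.h (P (nat_lit 0)) (M (nat_lit 1791893248487))))) (T.h (P (nat_lit 0)) (T.h (T.h (P (nat_lit 0)) (M (nat_lit 1791893248487))) (P (nat_lit 0)))))) (T.h (T.h (T.h (P (nat_lit 8298625833979166588928)) (T.h (P (nat_lit 0)) (P (nat_lit 8116801292140544)))) (T.h (P (nat_lit 0)) (P (nat_lit 8116801292140544)))) (T.h (T.h (P (nat_lit 0)) (T.h (T.h (P (nat_lit 0)) (P (nat_lit 1985198807424))) (P (nat_lit 0)))) (P (nat_lit 5191557644550144)))))))]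
def lQm_27 : List (T ℤ) := [(T.h (T.h (P (nat_lit 0)) (T.h (T.h (P (nat_lit 2360562084221628585116434432)) (T.h (P (nat_lit 0)) (T.h (M (nat_lit 16419398998575345041407)) (T.h (P (nat_lit 0)) (M (nat_lit 9768375870799871)))))) (T.h (P (nat_lit 0)) (T.h (T.h (P (nat_lit 714074767542896820224)) (T.h (P (nat_lit 0)) (M (nat_lit 16069643455397887)))) (T.h (P (nat_lit 0)) (P (nat_lit 2440102765346816))))))) (T.h (T.h (T.h (P (nat_lit 0)) (T.h (M (nat_lit 31405758993128649400516607)) (T.h (P (nat_lit 0)) (T.h (M (nat_lit 9023796676699095039)) (T.h (P (nat_lit 0)) (M (nat_lit 476646617775))))))) (T.h (P (nat_lit 0)) (T.h (T.h (P (nat_lit 0)) (T.h (M (nat_lit 40257835677308157951)) (T.h (P (nat_lit 0)) (P (nat_lit 3403801104368))))) (T.h (P (nat_lit 0)) (T.h (T.h (P (nat_lit 0)) (M (nat_lit 170731117199))) (P (nat_lit 0))))))) (T.h (T.h (P (nat_lit 0)) (T.h (T.h (P (nat_lit 36617258594338403778560)) (T.h (P (nat_lit 0)) (M (nat_lit 49521916416786431))))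 (T.h (P (nat_lit 0)) (P (nat_lit 20260117991833600))))) (T.h (T.h (T.h (P (nat_lit 0)) (T.h (P (nat_lit 521119890724093952)) (T.h (P (nat_lit 0)) (M (nat_lit 267617463791))))) (T.h (P (nat_lit 0)) (T.h (T.h (P (nat_lit 0)) (P (nat_lit 8038665908672))) (P (nat_lit 0))))) (T.h (T.h (P (nat_lit 0)) (M (nat_lit 5663859304693759))) (T.h (T.h (T.h (P (nat_lit 0)) (P (nat_lit 11875290719936))) (P (nat_lit 0))) (P (nat_lit 0)))))))), (T.h (T.h (P (nat_lit 0)) (T.h (T.h (P (nat_lit 0)) (T.h (M (nat_lit 12881852499707145018671103)) (T.h (P (nat_lit 0)) (T.h (P (nat_lit 14576600026559021056)) (T.h (P (nat_lit 0)) (P (nat_lit 6811509066240))))))) (T.h (P (nat_lit 0)) (T.h (T.h (P (nat_lit 0)) (T.h (M (nat_lit 20160226170429767679)) (T.h (P (nat_lit 0)) (M (nat_lit 10628497852863))))) (T.h (P (nat_lit 0)) (T.h (T.h (P (nat_lit 0)) (P (nat_lit 12219471662592))) (P (nat_lit 0)))))))) (T.h (T.h (T.h (P (nat_lit 2008280231544279771887173632)) (T.h (P (nat_lit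 0)) (T.h (P (nat_lit 7794080975053129777152)) (T.h (P (nat_lit 0)) (M (nat_lit 46267264956661759)))))) (T.h (P (nat_lit 0)) (T.h (T.h (P (nat_lit 20491663626153897230336)) (T.h (P (nat_lit 0)) (M (nat_lit 12039428486430719)))) (T.h (P (nat_lit 0)) (P (nat_lit 12549948312485888)))))) (T.h (T.h (P (nat_lit 0)) (T.h (T.h (P (nat_lit 0)) (T.h (P (nat_lit 131690224174086750208)) (T.h (P (nat_lit 0)) (M (nat_lit 33470402026367))))) (T.h (P (nat_lit 0)) (T.h (T.h (P (nat_lit 0)) (M (nat_lit 42196455976255))) (P (nat_lit 0)))))) (T.h (T.h (T.h (P (nat_lit 14444565840120697061376)) (T.h (P (nat_lit 0)) (M (nat_lit 28585365344649215)))) (T.h (P (nat_lit 0)) (P (nat_lit 17118034321866752)))) (T.h (T.h (P (nat_lit 0)) (T.h (T.h (P (nat_lit 0)) (P (nat_lit 1504335511808))) (P (nat_lit 0)))) (M (nat_lit 2650552869519359))))))), (T.h (T.h (P (nat_lit 0)) (T.h (T.h (P (nat_lit 9444388680319584730748026880)) (T.h (P (nat_lit 0)) (T.h (M (nat_lit 4498893292917248491519))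 (T.h (P (nat_lit 0)) (M (nat_lit 17641106541363199)))))) (T.h (P (nat_lit 0)) (T.h (T.h (P (nat_lit 11887339130370524184576)) (T.h (P (nat_lit 0)) (P (nat_lit 1483925649195008)))) (T.h (P (nat_lit 0)) (M (nat_lit 2323722480533503))))))) (T.h (T.h (T.h (P (nat_lit 0)) (T.h (M (nat_lit 10198635777548292081057791)) (T.h (P (nat_lit 0)) (P (nat_lit 44064355139457122304))))) (T.h (P (nat_lit 0)) (T.h (T.h (P (nat_lit 0)) (P (nat_lit 9004690242220851200))) (P (nat_lit 0))))) (T.h (T.h (P (nat_lit 0)) (T.h (T.h (M (nat_lit 30742105541402773422079)) (T.h (P (nat_lit 0)) (P (nat_lit 44089042524880896)))) (T.h (P (nat_lit 0)) (P (nat_lit 22101788836069376))))) (T.h (T.h (T.h (P (nat_lit 0)) (P (nat_lit 10587787297082572800))) (P (nat_lit 0))) (T.h (T.h (P (nat_lit 0)) (M (nat_lit 24581947639840767))) (P (nat_lit 0))))))), (P (nat_lit 0)), (P (nat_lit 0)), (T.h (T.h (T.h (P (nat_lit 0)) (T.h (P (nat_lit 2360562084221628585116434432)) (T.h (P (nat_lit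 0)) (T.h (P (nat_lit 714074767542896820224)) (T.h (P (nat_lit 0)) (P (nat_lit 2440102765346816))))))) (T.h (P (nat_lit 0)) (T.h (T.h (P (nat_lit 0)) (T.h (M (nat_lit 16419398998575345041407)) (T.h (P (nat_lit 0)) (M (nat_lit 16069643455397887))))) (T.h (P (nat_lit 0)) (T.h (T.h (P (nat_lit 0)) (M (nat_lit 9768375870799871))) (P (nat_lit 0))))))) (T.h (T.h (P (nat_lit 0)) (T.h (T.h (M (nat_lit 31405758993128649400516607)) (T.h (P (nat_lit 0)) (T.h (M (nat_lit 40257835677308157951)) (T.h (P (nat_lit 0)) (M (nat_lit 170731117199)))))) (T.h (P (nat_lit 0)) (T.h (T.h (M (nat_lit 9023796676699095039)) (T.h (P (nat_lit 0)) (P (nat_lit 3403801104368)))) (T.h (P (nat_lit 0)) (M (nat_lit 476646617775))))))) (T.h (T.h (T.h (P (nat_lit 0)) (T.h (P (nat_lit 36617258594338403778560)) (T.h (P (nat_lit 0)) (P (nat_lit 20260117991833600))))) (T.h (P (nat_lit 0)) (T.h (T.h (P (nat_lit 0)) (M (nat_lit 49521916416786431))) (P (nat_lit 0))))) (T.h (T.h (P (nat_lit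 0)) (T.h (T.h (P (nat_lit 521119890724093952)) (T.h (P (nat_lit 0)) (P (nat_lit 8038665908672)))) (T.h (P (nat_lit 0)) (M (nat_lit 267617463791))))) (T.h (T.h (T.h (P (nat_lit 0)) (M (nat_lit 5663859304693759))) (P (nat_lit 0))) (T.h (T.h (P (nat_lit 0)) (P (nat_lit 11875290719936))) (P (nat_lit 0)))))))), (T.h (T.h (T.h (M (nat_lit 810696587689923214839151329279)) (T.h (P (nat_lit 0)) (T.h (P (nat_lit 4348825794826340325654528)) (T.h (P (nat_lit 0)) (T.h (M (nat_lit 18286102558000807935)) (T.h (P (nat_lit 0)) (P (nat_lit 5681656299648)))))))) (T.h (P (nat_lit 0)) (T.h (T.h (P (nat_lit 4348825794826340325654528)) (T.h (P (nat_lit 0)) (T.h (M (nat_lit 14829725398530523135)) (T.h (P (nat_lit 0)) (P (nat_lit 8021489520576)))))) (T.h (P (nat_lit 0)) (T.h (T.h (M (nat_lit 18286102558000807935)) (T.h (P (nat_lit 0)) (P (nat_lit 8021489520576)))) (T.h (P (nat_lit 0)) (P (nat_lit 5681656299648)))))))) (T.h (T.h (P (nat_lit 0)) (T.h (T.h (P (nat_lit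 0)) (T.h (M (nat_lit 110830120243148366020607)) (T.h (P (nat_lit 0)) (M (nat_lit 85688293725765631))))) (T.h (P (nat_lit 0)) (T.h (T.h (P (nat_lit 0)) (M (nat_lit 85688293725765631))) (P (nat_lit 0)))))) (T.h (T.h (T.h (M (nat_lit 17574285460876300923174911)) (T.h (P (nat_lit 0)) (T.h (P (nat_lit 39355329431113564160)) (T.h (P (nat_lit 0)) (M (nat_lit 13171983054463)))))) (T.h (P (nat_lit 0)) (T.h (T.h (P (nat_lit 39355329431113564160)) (T.h (P (nat_lit 0)) (M (nat_lit 40632614303615)))) (T.h (P (nat_lit 0)) (M (nat_lit 13171983054463)))))) (T.h (T.h (P (nat_lit 0)) (T.h (T.h (P (nat_lit 0)) (P (nat_lit 125348801092255744))) (P (nat_lit 0)))) (T.h (T.h (T.h (M (nat_lit 35803479291014938623)) (T.h (P (nat_lit 0)) (M (nat_lit 17856083280127)))) (T.h (P (nat_lit 0)) (M (nat_lit 17856083280127)))) (T.h (P (nat_lit 0)) (M (nat_lit 8960604330879)))))))), (T.h (T.h (T.h (P (nat_lit 0)) (T.h (M (nat_lit 3057717378853825663268290559)) (T.h (P (nat_lit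 0)) (T.h (M (nat_lit 1780258074724053024767)) (T.h (P (nat_lit 0)) (M (nat_lit 4763365724028927))))))) (T.h (P (nat_lit 0)) (T.h (T.h (P (nat_lit 0)) (T.h (M (nat_lit 8447562600720023683071)) (T.h (P (nat_lit 0)) (M (nat_lit 4163999934857215))))) (T.h (P (nat_lit 0)) (T.h (T.h (P (nat_lit 0)) (M (nat_lit 19241456788209663))) (P (nat_lit 0))))))) (T.h (T.h (P (nat_lit 0)) (T.h (T.h (P (nat_lit 12660772485101187447652352)) (T.h (P (nat_lit 0)) (P (nat_lit 45047154406338854912)))) (T.h (P (nat_lit 0)) (P (nat_lit 35855661794571845632))))) (T.h (T.h (T.h (P (nat_lit 0)) (T.h (P (nat_lit 34371714572181032665088)) (T.h (P (nat_lit 0)) (P (nat_lit 6497396134756352))))) (T.h (P (nat_lit 0)) (T.h (T.h (P (nat_lit 0)) (P (nat_lit 79412148893564928))) (P (nat_lit 0))))) (T.h (T.h (P (nat_lit 0)) (M (nat_lit 112093646349093830655))) (T.h (T.h (T.h (P (nat_lit 0)) (P (nat_lit 72177182128979968))) (P (nat_lit 0))) (P (nat_lit 0)))))))]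
def lQm_28 : List (T ℤ) := [(P (nat_lit 0)), (P (nat_lit 0)), (T.h (T.h (P (nat_lit 0)) (T.h (T.h (P (nat_lit 0)) (T.h (M (nat_lit 12881852499707145018671103)) (T.h (P (nat_lit 0)) (T.h (M (nat_lit 20160226170429767679)) (T.h (P (nat_lit 0)) (P (nat_lit 12219471662592))))))) (T.h (P (nat_lit 0)) (T.h (T.h (P (nat_lit 0)) (T.h (P (nat_lit 14576600026559021056)) (T.h (P (nat_lit 0)) (M (nat_lit 10628497852863))))) (T.h (P (nat_lit 0)) (T.h (T.h (P (nat_lit 0)) (P (nat_lit 6811509066240))) (P (nat_lit 0)))))))) (T.h (T.h (T.h (P (nat_lit 2008280231544279771887173632)) (T.h (P (nat_lit 0)) (T.h (P (nat_lit 20491663626153897230336)) (T.h (P (nat_lit 0)) (P (nat_lit 12549948312485888)))))) (T.h (P (nat_lit 0)) (T.h (T.h (P (nat_lit 7794080975053129777152)) (T.h (P (nat_lit 0)) (M (nat_lit 12039428486430719)))) (T.h (P (nat_lit 0)) (M (nat_lit 46267264956661759)))))) (T.h (T.h (P (nat_lit 0)) (T.h (T.h (P (nat_lit 0)) (T.h (P (nat_lit 131690224174086750208))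 (T.h (P (nat_lit 0)) (M (nat_lit 42196455976255))))) (T.h (P (nat_lit 0)) (T.h (T.h (P (nat_lit 0)) (M (nat_lit 33470402026367))) (P (nat_lit 0)))))) (T.h (T.h (T.h (P (nat_lit 14444565840120697061376)) (T.h (P (nat_lit 0)) (P (nat_lit 17118034321866752)))) (T.h (P (nat_lit 0)) (M (nat_lit 28585365344649215)))) (T.h (T.h (P (nat_lit 0)) (T.h (T.h (P (nat_lit 0)) (P (nat_lit 1504335511808))) (P (nat_lit 0)))) (M (nat_lit 2650552869519359))))))), (T.h (T.h (P (nat_lit 0)) (T.h (T.h (M (nat_lit 3057717378853825663268290559)) (T.h (P (nat_lit 0)) (T.h (M (nat_lit 8447562600720023683071)) (T.h (P (nat_lit 0)) (M (nat_lit 19241456788209663)))))) (T.h (P (nat_lit 0)) (T.h (T.h (M (nat_lit 1780258074724053024767)) (T.h (P (nat_lit 0)) (M (nat_lit 4163999934857215)))) (T.h (P (nat_lit 0)) (M (nat_lit 4763365724028927))))))) (T.h (T.h (T.h (P (nat_lit 0)) (T.h (P (nat_lit 12660772485101187447652352)) (T.h (P (nat_lit 0)) (P (nat_lit 35855661794571845632)))))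 (T.h (P (nat_lit 0)) (T.h (T.h (P (nat_lit 0)) (P (nat_lit 45047154406338854912))) (P (nat_lit 0))))) (T.h (T.h (P (nat_lit 0)) (T.h (T.h (P (nat_lit 34371714572181032665088)) (T.h (P (nat_lit 0)) (P (nat_lit 79412148893564928)))) (T.h (P (nat_lit 0)) (P (nat_lit 6497396134756352))))) (T.h (T.h (T.h (P (nat_lit 0)) (M (nat_lit 112093646349093830655))) (P (nat_lit 0))) (T.h (T.h (P (nat_lit 0)) (P (nat_lit 72177182128979968))) (P (nat_lit 0))))))), (P (nat_lit 0)), (P (nat_lit 0)), (T.h (T.h (T.h (P (nat_lit 0)) (T.h (P (nat_lit 9444388680319584730748026880)) (T.h (P (nat_lit 0)) (T.h (P (nat_lit 11887339130370524184576)) (T.h (P (nat_lit 0)) (M (nat_lit 2323722480533503))))))) (T.h (P (nat_lit 0)) (T.h (T.h (P (nat_lit 0)) (T.h (M (nat_lit 4498893292917248491519)) (T.h (P (nat_lit 0)) (P (nat_lit 1483925649195008))))) (T.h (P (nat_lit 0)) (T.h (T.h (P (nat_lit 0)) (M (nat_lit 17641106541363199))) (P (nat_lit 0))))))) (T.h (T.h (P (nat_lit 0))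 (T.h (T.h (M (nat_lit 10198635777548292081057791)) (T.h (P (nat_lit 0)) (P (nat_lit 9004690242220851200)))) (T.h (P (nat_lit 0)) (P (nat_lit 44064355139457122304))))) (T.h (T.h (T.h (P (nat_lit 0)) (T.h (M (nat_lit 30742105541402773422079)) (T.h (P (nat_lit 0)) (P (nat_lit 22101788836069376))))) (T.h (P (nat_lit 0)) (T.h (T.h (P (nat_lit 0)) (P (nat_lit 44089042524880896))) (P (nat_lit 0))))) (T.h (T.h (P (nat_lit 0)) (P (nat_lit 10587787297082572800))) (T.h (T.h (T.h (P (nat_lit 0)) (M (nat_lit 24581947639840767))) (P (nat_lit 0))) (P (nat_lit 0))))))), (P (nat_lit 0))]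
def lQm_29 : List (T ℤ) := [(P (nat_lit 0)), (P (nat_lit 0)), (P (nat_lit 0)), (P (nat_lit 0)), (T.h (T.h (T.h (M (nat_lit 7193110628990432326231317807103)) (T.h (P (nat_lit 0)) (T.h (M (nat_lit 3601865127594643054133247)) (T.h (P (nat_lit 0)) (T.h (P (nat_lit 1323694191909273600)) (T.h (P (nat_lit 0)) (M (nat_lit 2838909460015)))))))) (T.h (P (nat_lit 0)) (T.h (T.h (M (nat_lit 3601865127594643054133247)) (T.h (P (nat_lit 0)) (T.h (M (nat_lit 1791605768886157311)) (T.h (P (nat_lit 0)) (P (nat_lit 1714226929744)))))) (T.h (P (nat_lit 0)) (T.h (T.h (P (nat_lit 1323694191909273600)) (T.h (P (nat_lit 0)) (P (nat_lit 1714226929744)))) (T.h (P (nat_lit 0)) (M (nat_lit 2838909460015)))))))) (T.h (T.h (P (nat_lit 0)) (T.h (T.h (P (nat_lit 0)) (T.h (M (nat_lit 2705769387334379241471)) (T.h (P (nat_lit 0)) (M (nat_lit 5489541307727871))))) (T.h (P (nat_lit 0)) (T.h (T.h (P (nat_lit 0)) (M (nat_lit 5489541307727871))) (P (nat_lit 0)))))) (T.h (T.h (T.h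 (M (nat_lit 6992900219414241486045183)) (T.h (P (nat_lit 0)) (T.h (M (nat_lit 4679660363636015103)) (T.h (P (nat_lit 0)) (M (nat_lit 4410506974159)))))) (T.h (P (nat_lit 0)) (T.h (T.h (M (nat_lit 4679660363636015103)) (T.h (P (nat_lit 0)) (M (nat_lit 4950411610591)))) (T.h (P (nat_lit 0)) (M (nat_lit 4410506974159)))))) (T.h (T.h (P (nat_lit 0)) (T.h (T.h (P (nat_lit 0)) (M (nat_lit 10176654584184831))) (P (nat_lit 0)))) (T.h (T.h (T.h (P (nat_lit 1508552952724324352)) (T.h (P (nat_lit 0)) (M (nat_lit 3133739275967)))) (T.h (P (nat_lit 0)) (M (nat_lit 3133739275967)))) (T.h (P (nat_lit 0)) (P (nat_lit 3652989002656)))))))), (T.h (T.h (T.h (P (nat_lit 0)) (T.h (M (nat_lit 195617049460243153912070143)) (T.h (P (nat_lit 0)) (T.h (M (nat_lit 3964114439558481838079)) (T.h (P (nat_lit 0)) (M (nat_lit 2371883362058239))))))) (T.h (P (nat_lit 0)) (T.h (T.h (P (nat_lit 0)) (T.h (P (nat_lit 34533293653360430284800)) (T.h (P (nat_lit 0)) (P (nat_lit 1016721890443264)))))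 (T.h (P (nat_lit 0)) (T.h (T.h (P (nat_lit 0)) (P (nat_lit 14747082352263168))) (P (nat_lit 0))))))) (T.h (T.h (P (nat_lit 0)) (T.h (T.h (P (nat_lit 6781529803475308119064576)) (T.h (P (nat_lit 0)) (T.h (M (nat_lit 4653426674468126719)) (T.h (P (nat_lit 0)) (P (nat_lit 172857894208)))))) (T.h (P (nat_lit 0)) (T.h (T.h (P (nat_lit 6872914424030560256)) (T.h (P (nat_lit 0)) (P (nat_lit 2849003627328)))) (T.h (P (nat_lit 0)) (M (nat_lit 3374982287487))))))) (T.h (T.h (T.h (P (nat_lit 0)) (T.h (M (nat_lit 21307677140090005487615)) (T.h (P (nat_lit 0)) (M (nat_lit 4071089117626367))))) (T.h (P (nat_lit 0)) (T.h (T.h (P (nat_lit 0)) (M (nat_lit 24124768091635711))) (P (nat_lit 0))))) (T.h (T.h (P (nat_lit 0)) (T.h (T.h (P (nat_lit 41460708389026791424)) (T.h (P (nat_lit 0)) (M (nat_lit 19467609627967)))) (T.h (P (nat_lit 0)) (M (nat_lit 9250692809791))))) (T.h (T.h (T.h (P (nat_lit 0)) (M (nat_lit 12531652465655807))) (P (nat_lit 0))) (T.h (T.h (P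 (nat_lit 0)) (P (nat_lit 227061500352))) (P (nat_lit 0)))))))), (T.h (T.h (T.h (P (nat_lit 1410570906212094888288156909568)) (T.h (P (nat_lit 0)) (T.h (P (nat_lit 2713202957367080711618560)) (T.h (P (nat_lit 0)) (P (nat_lit 20438749490257592320)))))) (T.h (P (nat_lit 0)) (T.h (T.h (M (nat_lit 9092474658105973488484351)) (T.h (P (nat_lit 0)) (M (nat_lit 2049630866191155199)))) (T.h (P (nat_lit 0)) (M (nat_lit 6450639816894709759)))))) (T.h (T.h (P (nat_lit 0)) (T.h (T.h (P (nat_lit 0)) (T.h (M (nat_lit 25522296248950983753727)) (T.h (P (nat_lit 0)) (P (nat_lit 16959839353831424))))) (T.h (P (nat_lit 0)) (T.h (T.h (P (nat_lit 0)) (P (nat_lit 20145895602651136))) (P (nat_lit 0)))))) (T.h (T.h (T.h (M (nat_lit 736332230657898056777727)) (T.h (P (nat_lit 0)) (P (nat_lit 12443088561886986240)))) (T.h (P (nat_lit 0)) (M (nat_lit 9901124243519700991)))) (T.h (T.h (P (nat_lit 0)) (T.h (T.h (P (nat_lit 0)) (P (nat_lit 8426976565428224))) (P (nat_lit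 0)))) (P (nat_lit 8275653059435036672)))))), (P (nat_lit 0))]
def lQm_30 : List (T ℤ) := [(P (nat_lit 0)), (T.h (T.h (P (nat_lit 0)) (T.h (T.h (M (nat_lit 195617049460243153912070143)) (T.h (P (nat_lit 0)) (T.h (P (nat_lit 34533293653360430284800)) (T.h (P (nat_lit 0)) (P (nat_lit 14747082352263168)))))) (T.h (P (nat_lit 0)) (T.h (T.h (M (nat_lit 3964114439558481838079)) (T.h (P (nat_lit 0)) (P (nat_lit 1016721890443264)))) (T.h (P (nat_lit 0)) (M (nat_lit 2371883362058239))))))) (T.h (T.h (T.h (P (nat_lit 0)) (T.h (P (nat_lit 6781529803475308119064576)) (T.h (P (nat_lit 0)) (T.h (P (nat_lit 6872914424030560256)) (T.h (P (nat_lit 0)) (M (nat_lit 3374982287487))))))) (T.h (P (nat_lit 0)) (T.h (T.h (P (nat_lit 0)) (T.h (M (nat_lit 4653426674468126719)) (T.h (P (nat_lit 0)) (P (nat_lit 2849003627328))))) (T.h (P (nat_lit 0)) (T.h (T.h (P (nat_lit 0)) (P (nat_lit 172857894208))) (P (nat_lit 0))))))) (T.h (T.h (P (nat_lit 0)) (T.h (T.h (M (nat_lit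 21307677140090005487615)) (T.h (P (nat_lit 0)) (M (nat_lit 24124768091635711)))) (T.h (P (nat_lit 0)) (M (nat_lit 4071089117626367))))) (T.h (T.h (T.h (P (nat_lit 0)) (T.h (P (nat_lit 41460708389026791424)) (T.h (P (nat_lit 0)) (M (nat_lit 9250692809791))))) (T.h (P (nat_lit 0)) (T.h (T.h (P (nat_lit 0)) (M (nat_lit 19467609627967))) (P (nat_lit 0))))) (T.h (T.h (P (nat_lit 0)) (M (nat_lit 12531652465655807))) (T.h (T.h (T.h (P (nat_lit 0)) (P (nat_lit 227061500352))) (P (nat_lit 0))) (P (nat_lit 0)))))))), (T.h (T.h (P (nat_lit 0)) (T.h (T.h (P (nat_lit 0)) (T.h (M (nat_lit 4552137591189246866096127)) (T.h (P (nat_lit 0)) (P (nat_lit 3540785065044738048))))) (T.h (P (nat_lit 0)) (T.h (T.h (P (nat_lit 0)) (P (nat_lit 3540785065044738048))) (P (nat_lit 0)))))) (T.h (T.h (T.h (P (nat_lit 10791888917891311952700899328)) (T.h (P (nat_lit 0)) (T.h (M (nat_lit 39314200272193718321151)) (T.h (P (nat_lit 0)) (P (nat_lit 11019781030952960)))))) (T.h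 (P (nat_lit 0)) (T.h (T.h (M (nat_lit 39314200272193718321151)) (T.h (P (nat_lit 0)) (P (nat_lit 16427828951875584)))) (T.h (P (nat_lit 0)) (P (nat_lit 11019781030952960)))))) (T.h (T.h (P (nat_lit 0)) (T.h (T.h (P (nat_lit 0)) (M (nat_lit 60886120603446149119))) (P (nat_lit 0)))) (T.h (T.h (T.h (P (nat_lit 1626752472681682042880)) (T.h (P (nat_lit 0)) (P (nat_lit 30372869421531136)))) (T.h (P (nat_lit 0)) (P (nat_lit 30372869421531136)))) (T.h (P (nat_lit 0)) (P (nat_lit 13647232764051456))))))), (P (nat_lit 0)), (P (nat_lit 0)), (T.h (T.h (T.h (P (nat_lit 1410570906212094888288156909568)) (T.h (P (nat_lit 0)) (T.h (M (nat_lit 9092474658105973488484351)) (T.h (P (nat_lit 0)) (M (nat_lit 6450639816894709759)))))) (T.h (P (nat_lit 0)) (T.h (T.h (P (nat_lit 2713202957367080711618560)) (T.h (P (nat_lit 0)) (M (nat_lit 2049630866191155199)))) (T.h (P (nat_lit 0)) (P (nat_lit 20438749490257592320)))))) (T.h (T.h (P (nat_lit 0)) (T.h (T.h (P (nat_lit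 0)) (T.h (M (nat_lit 25522296248950983753727)) (T.h (P (nat_lit 0)) (P (nat_lit 20145895602651136))))) (T.h (P (nat_lit 0)) (T.h (T.h (P (nat_lit 0)) (P (nat_lit 16959839353831424))) (P (nat_lit 0)))))) (T.h (T.h (T.h (M (nat_lit 736332230657898056777727)) (T.h (P (nat_lit 0)) (M (nat_lit 9901124243519700991)))) (T.h (P (nat_lit 0)) (P (nat_lit 12443088561886986240)))) (T.h (T.h (P (nat_lit 0)) (T.h (T.h (P (nat_lit 0)) (P (nat_lit 8426976565428224))) (P (nat_lit 0)))) (P (nat_lit 8275653059435036672)))))), (P (nat_lit 0)), (P (nat_lit 0))]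
def lQm_31 : List (T ℤ) := [(P (nat_lit 0)), (P (nat_lit 0)), (P (nat_lit 0)), (T.h (T.h (P (nat_lit 0)) (T.h (T.h (P (nat_lit 0)) (T.h (P (nat_lit 1668403387351284754415616)) (T.h (P (nat_lit 0)) (T.h (M (nat_lit 14940403265748074495)) (T.h (P (nat_lit 0)) (P (nat_lit 1824467767872))))))) (T.h (P (nat_lit 0)) (T.h (T.h (P (nat_lit 0)) (T.h (M (nat_lit 14940403265748074495)) (T.h (P (nat_lit 0)) (P (nat_lit 4152252354944))))) (T.h (P (nat_lit 0)) (T.h (T.h (P (nat_lit 0)) (P (nat_lit 1824467767872))) (P (nat_lit 0)))))))) (T.h (T.h (T.h (M (nat_lit 9220441513304250013792075775)) (T.h (P (nat_lit 0)) (T.h (M (nat_lit 13527727843841541144575)) (T.h (P (nat_lit 0)) (M (nat_lit 4823750758957055)))))) (T.h (P (nat_lit 0)) (T.h (T.h (M (nat_lit 13527727843841541144575)) (T.h (P (nat_lit 0)) (M (nat_lit 66888005976063)))) (T.h (P (nat_lit 0)) (M (nat_lit 4823750758957055)))))) (T.h (T.h (P (nat_lit 0)) (T.h (T.h (P (nat_lit 0)) (T.h (M (nat_lit 10297903490323709951))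 (T.h (P (nat_lit 0)) (P (nat_lit 2928580113344))))) (T.h (P (nat_lit 0)) (T.h (T.h (P (nat_lit 0)) (P (nat_lit 2928580113344))) (P (nat_lit 0)))))) (T.h (T.h (T.h (M (nat_lit 8225243363614140661759)) (T.h (P (nat_lit 0)) (M (nat_lit 8002090367451135)))) (T.h (P (nat_lit 0)) (M (nat_lit 8002090367451135)))) (T.h (T.h (P (nat_lit 0)) (T.h (T.h (P (nat_lit 0)) (M (nat_lit 3962973290623))) (P (nat_lit 0)))) (M (nat_lit 5183491122266111))))))), (T.h (T.h (P (nat_lit 0)) (T.h (T.h (M (nat_lit 3402341988066177641621749759)) (T.h (P (nat_lit 0)) (T.h (P (nat_lit 19467932748244439793664)) (T.h (P (nat_lit 0)) (M (nat_lit 2379570363793407)))))) (T.h (P (nat_lit 0)) (T.h (T.h (M (nat_lit 311281724839209992191)) (T.h (P (nat_lit 0)) (M (nat_lit 3918274737192959)))) (T.h (P (nat_lit 0)) (P (nat_lit 396931717021696))))))) (T.h (T.h (T.h (P (nat_lit 0)) (T.h (P (nat_lit 17043484856467139858530304)) (T.h (P (nat_lit 0)) (P (nat_lit 12429613524915847168)))))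 (T.h (P (nat_lit 0)) (T.h (T.h (P (nat_lit 0)) (P (nat_lit 11739852891748302848))) (P (nat_lit 0))))) (T.h (T.h (P (nat_lit 0)) (T.h (T.h (M (nat_lit 22557465762590185488383)) (T.h (P (nat_lit 0)) (P (nat_lit 12701974667231232)))) (T.h (P (nat_lit 0)) (P (nat_lit 6354815568904192))))) (T.h (T.h (T.h (P (nat_lit 0)) (P (nat_lit 2896091241655566336))) (P (nat_lit 0))) (T.h (T.h (P (nat_lit 0)) (P (nat_lit 723882441949184))) (P (nat_lit 0))))))), (P (nat_lit 0)), (P (nat_lit 0)), (T.h (T.h (T.h (P (nat_lit 0)) (T.h (M (nat_lit 3402341988066177641621749759)) (T.h (P (nat_lit 0)) (T.h (M (nat_lit 311281724839209992191)) (T.h (P (nat_lit 0)) (P (nat_lit 396931717021696))))))) (T.h (P (nat_lit 0)) (T.h (T.h (P (nat_lit 0)) (T.h (P (nat_lit 19467932748244439793664)) (T.h (P (nat_lit 0)) (M (nat_lit 3918274737192959))))) (T.h (P (nat_lit 0)) (T.h (T.h (P (nat_lit 0)) (M (nat_lit 2379570363793407))) (P (nat_lit 0))))))) (T.h (T.h (P (nat_lit 0)) (T.h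 (T.h (P (nat_lit 17043484856467139858530304)) (T.h (P (nat_lit 0)) (P (nat_lit 11739852891748302848)))) (T.h (P (nat_lit 0)) (P (nat_lit 12429613524915847168))))) (T.h (T.h (T.h (P (nat_lit 0)) (T.h (M (nat_lit 22557465762590185488383)) (T.h (P (nat_lit 0)) (P (nat_lit 6354815568904192))))) (T.h (P (nat_lit 0)) (T.h (T.h (P (nat_lit 0)) (P (nat_lit 12701974667231232))) (P (nat_lit 0))))) (T.h (T.h (P (nat_lit 0)) (P (nat_lit 2896091241655566336))) (T.h (T.h (T.h (P (nat_lit 0)) (P (nat_lit 723882441949184))) (P (nat_lit 0))) (P (nat_lit 0)))))))]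
def lQm_32 : List (T ℤ) := [(P (nat_lit 0)), (P (nat_lit 0)), (P (nat_lit 0)), (P (nat_lit 0)), (P (nat_lit 0)), (T.h (T.h (T.h (P (nat_lit 2330416154883494020266051239936)) (T.h (P (nat_lit 0)) (T.h (P (nat_lit 2720637866675313557110784)) (T.h (P (nat_lit 0)) (P (nat_lit 1895559017283977216)))))) (T.h (P (nat_lit 0)) (T.h (T.h (P (nat_lit 2720637866675313557110784)) (T.h (P (nat_lit 0)) (P (nat_lit 758678015956746240)))) (T.h (P (nat_lit 0)) (P (nat_lit 1895559017283977216)))))) (T.h (T.h (P (nat_lit 0)) (T.h (T.h (P (nat_lit 0)) (T.h (P (nat_lit 7531325478474476421120)) (T.h (P (nat_lit 0)) (M (nat_lit 1499433018032127))))) (T.h (P (nat_lit 0)) (T.h (T.h (P (nat_lit 0)) (M (nat_lit 1499433018032127))) (P (nat_lit 0)))))) (T.h (T.h (T.h (P (nat_lit 7464748788017715864403968)) (T.h (P (nat_lit 0)) (P (nat_lit 8962145797948833792)))) (T.h (P (nat_lit 0)) (P (nat_lit 8962145797948833792)))) (T.h (T.h (P (nat_lit 0)) (T.h (T.h (P (nat_lit 0))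 (P (nat_lit 4058084649598976))) (P (nat_lit 0)))) (M (nat_lit 1573209784461557759)))))), (P (nat_lit 0)), (P (nat_lit 0))]
def lQm_33 : List (T ℤ) := [(P (nat_lit 0)), (P (nat_lit 0)), (P (nat_lit 0)), (P (nat_lit 0)), (P (nat_lit 0)), (P (nat_lit 0)), (P (nat_lit 0))]

def CQm : List (T ℤ) := lQm_0 ++ (lQm_1 ++ (lQm_2 ++ (lQm_3 ++ (lQm_4 ++ (lQm_5 ++ (lQm_6 ++ (lQm_7 ++ (lQm_8 ++ (lQm_9 ++ (lQm_10 ++ (lQm_11 ++ (lQm_12 ++ (lQm_13 ++ (lQm_14 ++ (lQm_15 ++ (lQm_16 ++ (lQm_17 ++ (lQm_18 ++ (lQm_19 ++ (lQm_20 ++ (lQm_21 ++ (lQm_22 ++ (lQm_23 ++ (lQm_24 ++ (lQm_25 ++ (lQm_26 ++ (lQm_27 ++ (lQm_28 ++ (lQm_29 ++ (lQm_30 ++ (lQm_31 ++ (lQm_32 ++ (lQm_33)))))))))))))))))))))))))))))))))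

/-- norms at radius 1536 -/
def NQm : List ℕ := [(nat_lit 5034231565398356583608483840000), (nat_lit 0), (nat_lit 411411046674264767696847352365056), (nat_lit 855471177552593034864939522588672), (nat_lit 747293992126139255064717644791808), (nat_lit 865216143138586818964045701316608), (nat_lit 254261625275541648269989904384000), (nat_lit 0), (nat_lit 0), (nat_lit 0), (nat_lit 953227998367009259849341112156160), (nat_lit 2162550046895234280594430287151104), (nat_lit 1754779766168797983941400333385728), (nat_lit 1495367229727544144320194215411712), (nat_lit 575873884669591678851402210213888), (nat_lit 0), (nat_lit 0), (nat_lit 0), (nat_lit 2226587653407480050283849562718208), (nat_lit 2401266870147753367817517470318592), (nat_lit 3699744527803195433053180489891840), (nat_lit 3536885902701121144461379479011328), (nat_lit 844307570411493033698848254459904), (nat_lit 0), (nat_lit 0), (nat_lit 953227998367009259849341112156160), (nat_lit 2401266870147753367817517470318592),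 (nat_lit 2710293934925186653407954195185664), (nat_lit 3924923957959926975011053734199296), (nat_lit 1523159102365283540589368190173184), (nat_lit 0), (nat_lit 0), (nat_lit 411411046674264767696847352365056), (nat_lit 2162550046895234280594430287151104), (nat_lit 3699744527803195433053180489891840), (nat_lit 3924923957959926975011053734199296), (nat_lit 1030659033753610179230285934100480), (nat_lit 0), (nat_lit 0), (nat_lit 855471177552593034864939522588672), (nat_lit 1754779766168797983941400333385728), (nat_lit 3536885902701121144461379479011328), (nat_lit 1523159102365283540589368190173184), (nat_lit 0), (nat_lit 0), (nat_lit 747293992126139255064717644791808), (nat_lit 1495367229727544144320194215411712), (nat_lit 844307570411493033698848254459904), (nat_lit 0), (nat_lit 0), (nat_lit 865216143138586818964045701316608), (nat_lit 575873884669591678851402210213888), (nat_lit 0), (nat_lit 0), (nat_lit 254261625275541648269989904384000), (nat_lit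 0), (nat_lit 0), (nat_lit 0), (nat_lit 0), (nat_lit 0), (nat_lit 953227998367009259849341112156160), (nat_lit 2162550046895234280594430287151104), (nat_lit 1754779766168797983941400333385728), (nat_lit 1495367229727544144320194215411712), (nat_lit 575873884669591678851402210213888), (nat_lit 0), (nat_lit 0), (nat_lit 776813729102413189154646075113472), (nat_lit 1823817998429390966890567248642048), (nat_lit 2198583766922067955996059255177216), (nat_lit 5751054969335695826448615687061504), (nat_lit 1661411954141767186527260705292288), (nat_lit 0), (nat_lit 0), (nat_lit 776813729102413189154646075113472), (nat_lit 2948837816074405058125102860730368), (nat_lit 5179027239329230816151031464853504), (nat_lit 6124716753607406635119591227916288), (nat_lit 2862910505307994813264819101106176), (nat_lit 0), (nat_lit 0), (nat_lit 953227998367009259849341112156160), (nat_lit 1823817998429390966890567248642048), (nat_lit 5179027239329230816151031464853504),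 (nat_lit 9382495507087516542305918219452416), (nat_lit 2029241539833486410631108007821312), (nat_lit 0), (nat_lit 0), (nat_lit 2162550046895234280594430287151104), (nat_lit 2198583766922067955996059255177216), (nat_lit 6124716753607406635119591227916288), (nat_lit 2029241539833486410631108007821312), (nat_lit 0), (nat_lit 0), (nat_lit 1754779766168797983941400333385728), (nat_lit 5751054969335695826448615687061504), (nat_lit 2862910505307994813264819101106176), (nat_lit 0), (nat_lit 0), (nat_lit 1495367229727544144320194215411712), (nat_lit 1661411954141767186527260705292288), (nat_lit 0), (nat_lit 0), (nat_lit 575873884669591678851402210213888), (nat_lit 0), (nat_lit 0), (nat_lit 0), (nat_lit 0), (nat_lit 0), (nat_lit 0), (nat_lit 2226587653407480050283849562718208), (nat_lit 2401266870147753367817517470318592), (nat_lit 3699744527803195433053180489891840), (nat_lit 3536885902701121144461379479011328), (nat_lit 844307570411493033698848254459904),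 (nat_lit 0), (nat_lit 0), (nat_lit 776813729102413189154646075113472), (nat_lit 2948837816074405058125102860730368), (nat_lit 5179027239329230816151031464853504), (nat_lit 6124716753607406635119591227916288), (nat_lit 2862910505307994813264819101106176), (nat_lit 0), (nat_lit 0), (nat_lit 2226587653407480050283849562718208), (nat_lit 2948837816074405058125102860730368), (nat_lit 5960162126640245847167396392992768), (nat_lit 6627535802458738277977864777236480), (nat_lit 1836542183987345052498578460639232), (nat_lit 0), (nat_lit 0), (nat_lit 2401266870147753367817517470318592), (nat_lit 5179027239329230816151031464853504), (nat_lit 6627535802458738277977864777236480), (nat_lit 2573018518255440831752638600052736), (nat_lit 0), (nat_lit 0), (nat_lit 3699744527803195433053180489891840), (nat_lit 6124716753607406635119591227916288), (nat_lit 1836542183987345052498578460639232), (nat_lit 0), (nat_lit 0), (nat_lit 3536885902701121144461379479011328),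 (nat_lit 2862910505307994813264819101106176), (nat_lit 0), (nat_lit 0), (nat_lit 844307570411493033698848254459904), (nat_lit 0), (nat_lit 0), (nat_lit 0), (nat_lit 0), (nat_lit 0), (nat_lit 953227998367009259849341112156160), (nat_lit 2401266870147753367817517470318592), (nat_lit 2710293934925186653407954195185664), (nat_lit 3924923957959926975011053734199296), (nat_lit 1523159102365283540589368190173184), (nat_lit 0), (nat_lit 0), (nat_lit 953227998367009259849341112156160), (nat_lit 1823817998429390966890567248642048), (nat_lit 5179027239329230816151031464853504), (nat_lit 9382495507087516542305918219452416), (nat_lit 2029241539833486410631108007821312), (nat_lit 0), (nat_lit 0), (nat_lit 2401266870147753367817517470318592), (nat_lit 5179027239329230816151031464853504), (nat_lit 6627535802458738277977864777236480), (nat_lit 2573018518255440831752638600052736), (nat_lit 0), (nat_lit 0), (nat_lit 2710293934925186653407954195185664), (nat_lit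 9382495507087516542305918219452416), (nat_lit 2573018518255440831752638600052736), (nat_lit 0), (nat_lit 0), (nat_lit 3924923957959926975011053734199296), (nat_lit 2029241539833486410631108007821312), (nat_lit 0), (nat_lit 0), (nat_lit 1523159102365283540589368190173184), (nat_lit 0), (nat_lit 0), (nat_lit 0), (nat_lit 0), (nat_lit 0), (nat_lit 411411046674264767696847352365056), (nat_lit 2162550046895234280594430287151104), (nat_lit 3699744527803195433053180489891840), (nat_lit 3924923957959926975011053734199296), (nat_lit 1030659033753610179230285934100480), (nat_lit 0), (nat_lit 0), (nat_lit 2162550046895234280594430287151104), (nat_lit 2198583766922067955996059255177216), (nat_lit 6124716753607406635119591227916288), (nat_lit 2029241539833486410631108007821312), (nat_lit 0), (nat_lit 0), (nat_lit 3699744527803195433053180489891840), (nat_lit 6124716753607406635119591227916288), (nat_lit 1836542183987345052498578460639232), (nat_lit 0),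 (nat_lit 0), (nat_lit 3924923957959926975011053734199296), (nat_lit 2029241539833486410631108007821312), (nat_lit 0), (nat_lit 0), (nat_lit 1030659033753610179230285934100480), (nat_lit 0), (nat_lit 0), (nat_lit 0), (nat_lit 0), (nat_lit 0), (nat_lit 855471177552593034864939522588672), (nat_lit 1754779766168797983941400333385728), (nat_lit 3536885902701121144461379479011328), (nat_lit 1523159102365283540589368190173184), (nat_lit 0), (nat_lit 0), (nat_lit 1754779766168797983941400333385728), (nat_lit 5751054969335695826448615687061504), (nat_lit 2862910505307994813264819101106176), (nat_lit 0), (nat_lit 0), (nat_lit 3536885902701121144461379479011328), (nat_lit 2862910505307994813264819101106176), (nat_lit 0), (nat_lit 0), (nat_lit 1523159102365283540589368190173184), (nat_lit 0), (nat_lit 0), (nat_lit 0), (nat_lit 0), (nat_lit 0), (nat_lit 747293992126139255064717644791808), (nat_lit 1495367229727544144320194215411712), (nat_lit 844307570411493033698848254459904),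 (nat_lit 0), (nat_lit 0), (nat_lit 1495367229727544144320194215411712), (nat_lit 1661411954141767186527260705292288), (nat_lit 0), (nat_lit 0), (nat_lit 844307570411493033698848254459904), (nat_lit 0), (nat_lit 0), (nat_lit 0), (nat_lit 0), (nat_lit 0), (nat_lit 865216143138586818964045701316608), (nat_lit 575873884669591678851402210213888), (nat_lit 0), (nat_lit 0), (nat_lit 575873884669591678851402210213888), (nat_lit 0), (nat_lit 0), (nat_lit 0), (nat_lit 0), (nat_lit 0), (nat_lit 254261625275541648269989904384000), (nat_lit 0), (nat_lit 0), (nat_lit 0), (nat_lit 0), (nat_lit 0), (nat_lit 0), (nat_lit 0), (nat_lit 0), (nat_lit 0)]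


def lP11_0 : List (T ℤ) := [(P (nat_lit 0)), (P (nat_lit 0)), (P (nat_lit 0)), (P (nat_lit 0)), (P (nat_lit 0)), (P (nat_lit 0)), (P (nat_lit 0)), (P (nat_lit 0))]
def lP11_1 : List (T ℤ) := [(P (nat_lit 0)), (P (nat_lit 0)), (P (nat_lit 0)), (P (nat_lit 0)), (P (nat_lit 0)), (P (nat_lit 0)), (P (nat_lit 0)), (P (nat_lit 0))]
def lP11_2 : List (T ℤ) := [(P (nat_lit 0)), (M (nat_lit 4410501400340933843783516159999)), (P (nat_lit 0)), (P (nat_lit 0)), (T.h (T.h (T.h (M (nat_lit 169053768763270514532562239487)) (T.h (P (nat_lit 0)) (T.h (M (nat_lit 86023058324020239794175)) (T.h (P (nat_lit 0)) (T.h (P (nat_lit 544121181330997248)) (T.h (P (nat_lit 0)) (M (nat_lit 1570308029599)))))))) (T.h (P (nat_lit 0)) (T.h (T.h (P (nat_lit 1217783071519776866041856)) (T.h (P (nat_lit 0)) (T.h (M (nat_lit 2804189857717420031)) (T.h (P (nat_lit 0)) (P (nat_lit 1796611202864)))))) (T.h (P (nat_lit 0)) (T.h (T.h (M (nat_lit 2581556048120774655)) (T.h (P (nat_lit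 0)) (P (nat_lit 2363898821680)))) (T.h (P (nat_lit 0)) (P (nat_lit 2889973006256)))))))) (T.h (T.h (P (nat_lit 0)) (T.h (T.h (P (nat_lit 0)) (T.h (M (nat_lit 1587471070678617161727)) (T.h (P (nat_lit 0)) (P (nat_lit 2147752284127232))))) (T.h (P (nat_lit 0)) (T.h (T.h (P (nat_lit 0)) (P (nat_lit 3737556218937344))) (P (nat_lit 0)))))) (T.h (T.h (T.h (P (nat_lit 1217783071519776866041856)) (T.h (P (nat_lit 0)) (T.h (M (nat_lit 2804189857717420031)) (T.h (P (nat_lit 0)) (P (nat_lit 1796611202864)))))) (T.h (P (nat_lit 0)) (T.h (T.h (M (nat_lit 580103659812028415)) (T.h (P (nat_lit 0)) (P (nat_lit 2120391294816)))) (T.h (P (nat_lit 0)) (M (nat_lit 662576913727)))))) (T.h (T.h (P (nat_lit 0)) (T.h (T.h (P (nat_lit 0)) (P (nat_lit 3737556218937344))) (P (nat_lit 0)))) (T.h (T.h (T.h (M (nat_lit 2581556048120774655)) (T.h (P (nat_lit 0)) (P (nat_lit 2363898821680)))) (T.h (P (nat_lit 0)) (M (nat_lit 662576913727)))) (T.h (P (nat_lit 0)) (P (nat_lit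 2889973006256)))))))), (T.h (T.h (T.h (P (nat_lit 0)) (T.h (M (nat_lit 6710137670469634890370383871)) (T.h (P (nat_lit 0)) (T.h (M (nat_lit 8784275359082477518847)) (T.h (P (nat_lit 0)) (P (nat_lit 7334363874459648))))))) (T.h (P (nat_lit 0)) (T.h (T.h (P (nat_lit 0)) (T.h (M (nat_lit 7145578919625811296255)) (T.h (P (nat_lit 0)) (M (nat_lit 6980069744508927))))) (T.h (P (nat_lit 0)) (T.h (T.h (P (nat_lit 0)) (M (nat_lit 7390483838959615))) (P (nat_lit 0))))))) (T.h (T.h (P (nat_lit 0)) (T.h (T.h (P (nat_lit 3147941618468942604402688)) (T.h (P (nat_lit 0)) (T.h (M (nat_lit 15443931641180848127)) (T.h (P (nat_lit 0)) (M (nat_lit 2972229967967)))))) (T.h (P (nat_lit 0)) (T.h (T.h (M (nat_lit 14654403036332425215)) (T.h (P (nat_lit 0)) (P (nat_lit 4503270309448)))) (T.h (P (nat_lit 0)) (P (nat_lit 1333360900360))))))) (T.h (T.h (T.h (P (nat_lit 0)) (T.h (M (nat_lit 2995186226142658953215)) (T.h (P (nat_lit 0)) (M (nat_lit 17858861881032703)))))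 (T.h (P (nat_lit 0)) (T.h (T.h (P (nat_lit 0)) (M (nat_lit 5119387493728255))) (P (nat_lit 0))))) (T.h (T.h (P (nat_lit 0)) (T.h (T.h (M (nat_lit 14522462245515952127)) (T.h (P (nat_lit 0)) (M (nat_lit 110400139431)))) (T.h (P (nat_lit 0)) (P (nat_lit 3114189266208))))) (T.h (T.h (T.h (P (nat_lit 0)) (M (nat_lit 8877860582555647))) (P (nat_lit 0))) (T.h (T.h (P (nat_lit 0)) (P (nat_lit 1403340751448))) (P (nat_lit 0)))))))), (T.h (T.h (T.h (P (nat_lit 7955821324122392065238856892416)) (T.h (P (nat_lit 0)) (T.h (P (nat_lit 7393668704782508321931264)) (T.h (P (nat_lit 0)) (T.h (M (nat_lit 4062598691368730623)) (T.h (P (nat_lit 0)) (P (nat_lit 3652989002656)))))))) (T.h (P (nat_lit 0)) (T.h (T.h (P (nat_lit 706434760272425848406016)) (T.h (P (nat_lit 0)) (T.h (P (nat_lit 14592576984723750912)) (T.h (P (nat_lit 0)) (M (nat_lit 3133739275967)))))) (T.h (P (nat_lit 0)) (T.h (T.h (P (nat_lit 4427669298030313472)) (T.h (P (nat_lit 0)) (M (nat_lit 4410506974159))))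 (T.h (P (nat_lit 0)) (M (nat_lit 2838909460015)))))))) (T.h (T.h (P (nat_lit 0)) (T.h (T.h (P (nat_lit 0)) (T.h (P (nat_lit 10114515785597969235968)) (T.h (P (nat_lit 0)) (P (nat_lit 123914970333184))))) (T.h (P (nat_lit 0)) (T.h (T.h (P (nat_lit 0)) (M (nat_lit 7725811003260927))) (P (nat_lit 0)))))) (T.h (T.h (T.h (P (nat_lit 706434760272425848406016)) (T.h (P (nat_lit 0)) (T.h (P (nat_lit 14592576984723750912)) (T.h (P (nat_lit 0)) (M (nat_lit 3133739275967)))))) (T.h (P (nat_lit 0)) (T.h (T.h (P (nat_lit 4485432474456817664)) (T.h (P (nat_lit 0)) (M (nat_lit 4950411610591)))) (T.h (P (nat_lit 0)) (P (nat_lit 1714226929744)))))) (T.h (T.h (P (nat_lit 0)) (T.h (T.h (P (nat_lit 0)) (M (nat_lit 7725811003260927))) (P (nat_lit 0)))) (T.h (T.h (T.h (P (nat_lit 4427669298030313472)) (T.h (P (nat_lit 0)) (M (nat_lit 4410506974159)))) (T.h (P (nat_lit 0)) (P (nat_lit 1714226929744)))) (T.h (P (nat_lit 0)) (M (nat_lit 2838909460015)))))))), (T.h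 (T.h (T.h (P (nat_lit 0)) (T.h (P (nat_lit 6710137670469634890370383872)) (T.h (P (nat_lit 0)) (T.h (P (nat_lit 8784275359082477518848)) (T.h (P (nat_lit 0)) (M (nat_lit 7334363874459647))))))) (T.h (P (nat_lit 0)) (T.h (T.h (P (nat_lit 0)) (T.h (P (nat_lit 5070382572884235124736)) (T.h (P (nat_lit 0)) (P (nat_lit 12419465812770816))))) (T.h (P (nat_lit 0)) (T.h (T.h (P (nat_lit 0)) (P (nat_lit 8134172210757632))) (P (nat_lit 0))))))) (T.h (T.h (P (nat_lit 0)) (T.h (T.h (M (nat_lit 3147941618468942604402687)) (T.h (P (nat_lit 0)) (T.h (P (nat_lit 15443931641180848128)) (T.h (P (nat_lit 0)) (P (nat_lit 2972229967968)))))) (T.h (P (nat_lit 0)) (T.h (T.h (P (nat_lit 14588432640924188672)) (T.h (P (nat_lit 0)) (M (nat_lit 2196435085007)))) (T.h (P (nat_lit 0)) (M (nat_lit 1368350825903))))))) (T.h (T.h (T.h (P (nat_lit 0)) (T.h (P (nat_lit 5070382572884235124736)) (T.h (P (nat_lit 0)) (P (nat_lit 12419465812770816))))) (T.h (P (nat_lit 0)) (T.h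 (T.h (P (nat_lit 0)) (P (nat_lit 5119387493728256))) (P (nat_lit 0))))) (T.h (T.h (P (nat_lit 0)) (T.h (T.h (P (nat_lit 14588432640924188672)) (T.h (P (nat_lit 0)) (M (nat_lit 2196435085007)))) (T.h (P (nat_lit 0)) (M (nat_lit 3114189266207))))) (T.h (T.h (T.h (P (nat_lit 0)) (P (nat_lit 8134172210757632))) (P (nat_lit 0))) (T.h (T.h (P (nat_lit 0)) (M (nat_lit 1368350825903))) (P (nat_lit 0))))))))]
def lP11_3 : List (T ℤ) := [(T.h (T.h (T.h (M (nat_lit 2330416154883494020266051239935)) (T.h (P (nat_lit 0)) (T.h (M (nat_lit 7464748788017715864403967)) (T.h (P (nat_lit 0)) (P (nat_lit 1573209784461557760)))))) (T.h (P (nat_lit 0)) (T.h (T.h (M (nat_lit 2720637866675313557110783)) (T.h (P (nat_lit 0)) (M (nat_lit 8962145797948833791)))) (T.h (P (nat_lit 0)) (M (nat_lit 1895559017283977215)))))) (T.h (T.h (P (nat_lit 0)) (T.h (T.h (P (nat_lit 0)) (T.h (M (nat_lit 7531325478474476421119)) (T.h (P (nat_lit 0)) (M (nat_lit 4058084649598975)))))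 (T.h (P (nat_lit 0)) (T.h (T.h (P (nat_lit 0)) (P (nat_lit 1499433018032128))) (P (nat_lit 0)))))) (T.h (T.h (T.h (M (nat_lit 2720637866675313557110783)) (T.h (P (nat_lit 0)) (M (nat_lit 8962145797948833791)))) (T.h (P (nat_lit 0)) (M (nat_lit 758678015956746239)))) (T.h (T.h (P (nat_lit 0)) (T.h (T.h (P (nat_lit 0)) (P (nat_lit 1499433018032128))) (P (nat_lit 0)))) (M (nat_lit 1895559017283977215)))))), (P (nat_lit 0)), (P (nat_lit 0)), (T.h (T.h (P (nat_lit 0)) (T.h (T.h (P (nat_lit 0)) (T.h (P (nat_lit 8717922922079423085674496)) (T.h (P (nat_lit 0)) (T.h (P (nat_lit 6521691154386255872)) (T.h (P (nat_lit 0)) (M (nat_lit 5165935566879))))))) (T.h (P (nat_lit 0)) (T.h (T.h (P (nat_lit 0)) (T.h (M (nat_lit 193192647643365375)) (T.h (P (nat_lit 0)) (P (nat_lit 3373397582576))))) (T.h (P (nat_lit 0)) (T.h (T.h (P (nat_lit 0)) (M (nat_lit 424261102751))) (P (nat_lit 0)))))))) (T.h (T.h (T.h (P (nat_lit 532858792078950653260464128)) (T.h (P (nat_lit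 0)) (T.h (M (nat_lit 4144768062586427015167)) (T.h (P (nat_lit 0)) (P (nat_lit 10195113124757504)))))) (T.h (P (nat_lit 0)) (T.h (T.h (P (nat_lit 3321691345876869447680)) (T.h (P (nat_lit 0)) (P (nat_lit 15787150469627904)))) (T.h (P (nat_lit 0)) (P (nat_lit 2725830294568960)))))) (T.h (T.h (P (nat_lit 0)) (T.h (T.h (P (nat_lit 0)) (T.h (P (nat_lit 10942545611232116736)) (T.h (P (nat_lit 0)) (M (nat_lit 9748205673263))))) (T.h (P (nat_lit 0)) (T.h (T.h (P (nat_lit 0)) (M (nat_lit 172863613551))) (P (nat_lit 0)))))) (T.h (T.h (T.h (M (nat_lit 3075121913902334476287)) (T.h (P (nat_lit 0)) (M (nat_lit 14061861106614271)))) (T.h (P (nat_lit 0)) (P (nat_lit 15163554349252608)))) (T.h (T.h (P (nat_lit 0)) (T.h (T.h (P (nat_lit 0)) (P (nat_lit 3166704741056))) (P (nat_lit 0)))) (M (nat_lit 1221575086440447))))))), (T.h (T.h (P (nat_lit 0)) (T.h (T.h (M (nat_lit 8105240833316528014414053375)) (T.h (P (nat_lit 0)) (T.h (M (nat_lit 18612874587945052405759))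 (T.h (P (nat_lit 0)) (P (nat_lit 23898006275555328)))))) (T.h (P (nat_lit 0)) (T.h (T.h (P (nat_lit 6157605607908443160576)) (T.h (P (nat_lit 0)) (M (nat_lit 5484856430657535)))) (T.h (P (nat_lit 0)) (M (nat_lit 14652418540830719))))))) (T.h (T.h (T.h (P (nat_lit 0)) (T.h (P (nat_lit 4215725895776875352948736)) (T.h (P (nat_lit 0)) (T.h (P (nat_lit 33868761651432390656)) (T.h (P (nat_lit 0)) (P (nat_lit 966839890088))))))) (T.h (P (nat_lit 0)) (T.h (T.h (P (nat_lit 0)) (T.h (M (nat_lit 23926501528834146303)) (T.h (P (nat_lit 0)) (M (nat_lit 19419484670495))))) (T.h (P (nat_lit 0)) (T.h (T.h (P (nat_lit 0)) (P (nat_lit 2892398064512))) (P (nat_lit 0))))))) (T.h (T.h (P (nat_lit 0)) (T.h (T.h (P (nat_lit 20407429106314850074624)) (T.h (P (nat_lit 0)) (M (nat_lit 21479489433075711)))) (T.h (P (nat_lit 0)) (P (nat_lit 13934158588248064))))) (T.h (T.h (T.h (P (nat_lit 0)) (T.h (P (nat_lit 29294307247426371584)) (T.h (P (nat_lit 0)) (P (nat_lit 4797394601552)))))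 (T.h (P (nat_lit 0)) (T.h (T.h (P (nat_lit 0)) (P (nat_lit 17916783817936))) (P (nat_lit 0))))) (T.h (T.h (P (nat_lit 0)) (P (nat_lit 18185428906213376))) (T.h (T.h (T.h (P (nat_lit 0)) (P (nat_lit 2467984298904))) (P (nat_lit 0))) (P (nat_lit 0)))))))), (T.h (T.h (P (nat_lit 0)) (T.h (T.h (P (nat_lit 0)) (T.h (P (nat_lit 11006440254763849941516288)) (T.h (P (nat_lit 0)) (T.h (M (nat_lit 10212482558193565695)) (T.h (P (nat_lit 0)) (P (nat_lit 11875290719936))))))) (T.h (P (nat_lit 0)) (T.h (T.h (P (nat_lit 0)) (T.h (P (nat_lit 16119823565909393408)) (T.h (P (nat_lit 0)) (M (nat_lit 267617463791))))) (T.h (P (nat_lit 0)) (T.h (T.h (P (nat_lit 0)) (M (nat_lit 476646617775))) (P (nat_lit 0)))))))) (T.h (T.h (T.h (M (nat_lit 2183137425904434638667907071)) (T.h (P (nat_lit 0)) (T.h (M (nat_lit 27481446203344965074943)) (T.h (P (nat_lit 0)) (M (nat_lit 4103378252595199)))))) (T.h (P (nat_lit 0)) (T.h (T.h (P (nat_lit 1595751522983967981568)) (T.h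 (P (nat_lit 0)) (M (nat_lit 1654209649672191)))) (T.h (P (nat_lit 0)) (M (nat_lit 10387681152090111)))))) (T.h (T.h (P (nat_lit 0)) (T.h (T.h (P (nat_lit 0)) (T.h (P (nat_lit 17390635901448617984)) (T.h (P (nat_lit 0)) (P (nat_lit 8038665908672))))) (T.h (P (nat_lit 0)) (T.h (T.h (P (nat_lit 0)) (P (nat_lit 3403801104368))) (P (nat_lit 0)))))) (T.h (T.h (T.h (P (nat_lit 1146563286424017174528)) (T.h (P (nat_lit 0)) (P (nat_lit 24685718477160448)))) (T.h (P (nat_lit 0)) (M (nat_lit 30936074729717759)))) (T.h (T.h (P (nat_lit 0)) (T.h (T.h (P (nat_lit 0)) (M (nat_lit 170731117199))) (P (nat_lit 0)))) (P (nat_lit 2008321073004544))))))), (T.h (T.h (P (nat_lit 0)) (T.h (T.h (P (nat_lit 6851398732185546236270477312)) (T.h (P (nat_lit 0)) (T.h (P (nat_lit 18348311073687137681408)) (T.h (P (nat_lit 0)) (M (nat_lit 17793055875203071)))))) (T.h (P (nat_lit 0)) (T.h (T.h (M (nat_lit 4732893267667112165375)) (T.h (P (nat_lit 0)) (P (nat_lit 12497095545683968))))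 (T.h (P (nat_lit 0)) (P (nat_lit 10744085451014144))))))) (T.h (T.h (T.h (P (nat_lit 0)) (T.h (M (nat_lit 11660322374750600744140799)) (T.h (P (nat_lit 0)) (T.h (M (nat_lit 18520378691960176639)) (T.h (P (nat_lit 0)) (M (nat_lit 170296125263))))))) (T.h (P (nat_lit 0)) (T.h (T.h (P (nat_lit 0)) (T.h (P (nat_lit 39841637126717308928)) (T.h (P (nat_lit 0)) (P (nat_lit 14600707220976))))) (T.h (P (nat_lit 0)) (T.h (T.h (P (nat_lit 0)) (M (nat_lit 129643420655))) (P (nat_lit 0))))))) (T.h (T.h (P (nat_lit 0)) (T.h (T.h (M (nat_lit 21425206370652458582015)) (T.h (P (nat_lit 0)) (P (nat_lit 10815406722252800)))) (T.h (P (nat_lit 0)) (M (nat_lit 6016024335384575))))) (T.h (T.h (T.h (P (nat_lit 0)) (T.h (M (nat_lit 24783823898534739967)) (T.h (P (nat_lit 0)) (P (nat_lit 6938019607344))))) (T.h (P (nat_lit 0)) (T.h (T.h (P (nat_lit 0)) (M (nat_lit 2136752720495))) (P (nat_lit 0))))) (T.h (T.h (P (nat_lit 0)) (M (nat_lit 12728265808248831))) (T.h (T.h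 (T.h (P (nat_lit 0)) (P (nat_lit 2531236715616))) (P (nat_lit 0))) (P (nat_lit 0)))))))), (T.h (T.h (P (nat_lit 0)) (T.h (T.h (P (nat_lit 0)) (T.h (M (nat_lit 17043484856467139858530303)) (T.h (P (nat_lit 0)) (M (nat_lit 2896091241655566335))))) (T.h (P (nat_lit 0)) (T.h (T.h (P (nat_lit 0)) (M (nat_lit 12429613524915847167))) (P (nat_lit 0)))))) (T.h (T.h (T.h (P (nat_lit 3402341988066177641621749760)) (T.h (P (nat_lit 0)) (T.h (P (nat_lit 22557465762590185488384)) (T.h (P (nat_lit 0)) (M (nat_lit 723882441949183)))))) (T.h (P (nat_lit 0)) (T.h (T.h (M (nat_lit 19467932748244439793663)) (T.h (P (nat_lit 0)) (M (nat_lit 12701974667231231)))) (T.h (P (nat_lit 0)) (P (nat_lit 2379570363793408)))))) (T.h (T.h (P (nat_lit 0)) (T.h (T.h (P (nat_lit 0)) (M (nat_lit 11739852891748302847))) (P (nat_lit 0)))) (T.h (T.h (T.h (P (nat_lit 311281724839209992192)) (T.h (P (nat_lit 0)) (M (nat_lit 6354815568904191)))) (T.h (P (nat_lit 0)) (P (nat_lit 3918274737192960))))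 (T.h (P (nat_lit 0)) (M (nat_lit 396931717021695)))))))]
def lP11_4 : List (T ℤ) := [(P (nat_lit 0)), (P (nat_lit 0)), (T.h (T.h (T.h (P (nat_lit 1974437142523453654025568780288)) (T.h (P (nat_lit 0)) (T.h (P (nat_lit 3776107581101057807220736)) (T.h (P (nat_lit 0)) (T.h (M (nat_lit 455214168597856255)) (T.h (P (nat_lit 0)) (P (nat_lit 1320627043552)))))))) (T.h (P (nat_lit 0)) (T.h (T.h (P (nat_lit 3776107581101057807220736)) (T.h (P (nat_lit 0)) (T.h (P (nat_lit 47664521656557109248)) (T.h (P (nat_lit 0)) (M (nat_lit 6116429705375)))))) (T.h (P (nat_lit 0)) (T.h (T.h (M (nat_lit 455214168597856255)) (T.h (P (nat_lit 0)) (M (nat_lit 6116429705375)))) (T.h (P (nat_lit 0)) (P (nat_lit 1320627043552)))))))) (T.h (T.h (P (nat_lit 0)) (T.h (T.h (P (nat_lit 0)) (T.h (M (nat_lit 35916735902168758878207)) (T.h (P (nat_lit 0)) (P (nat_lit 31562004246757376))))) (T.h (P (nat_lit 0)) (T.h (T.h (P (nat_lit 0)) (P (nat_lit 31562004246757376))) (P (nat_lit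 0)))))) (T.h (T.h (T.h (M (nat_lit 9758004229517509839028223)) (T.h (P (nat_lit 0)) (T.h (M (nat_lit 9060807759313764351)) (T.h (P (nat_lit 0)) (M (nat_lit 4691781859471)))))) (T.h (P (nat_lit 0)) (T.h (T.h (M (nat_lit 9060807759313764351)) (T.h (P (nat_lit 0)) (M (nat_lit 2560356751999)))) (T.h (P (nat_lit 0)) (M (nat_lit 4691781859471)))))) (T.h (T.h (P (nat_lit 0)) (T.h (T.h (P (nat_lit 0)) (M (nat_lit 83825974921003007))) (P (nat_lit 0)))) (T.h (T.h (T.h (P (nat_lit 1083103659241242624)) (T.h (P (nat_lit 0)) (P (nat_lit 2064152749056)))) (T.h (P (nat_lit 0)) (P (nat_lit 2064152749056)))) (T.h (P (nat_lit 0)) (M (nat_lit 1030947796895)))))))), (T.h (T.h (T.h (P (nat_lit 0)) (T.h (P (nat_lit 7410480982141196655933784064)) (T.h (P (nat_lit 0)) (T.h (M (nat_lit 11758016684598470115327)) (T.h (P (nat_lit 0)) (M (nat_lit 7868204061982719))))))) (T.h (P (nat_lit 0)) (T.h (T.h (P (nat_lit 0)) (T.h (M (nat_lit 34692595357611779424255)) (T.h (P (nat_lit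 0)) (P (nat_lit 28860658306154496))))) (T.h (P (nat_lit 0)) (T.h (T.h (P (nat_lit 0)) (P (nat_lit 4797928639463424))) (P (nat_lit 0))))))) (T.h (T.h (P (nat_lit 0)) (T.h (T.h (P (nat_lit 3641499163075808254230528)) (T.h (P (nat_lit 0)) (T.h (P (nat_lit 55498869461626126336)) (T.h (P (nat_lit 0)) (P (nat_lit 295401305272)))))) (T.h (P (nat_lit 0)) (T.h (T.h (M (nat_lit 16133808216185241599)) (T.h (P (nat_lit 0)) (M (nat_lit 30116912663583)))) (T.h (P (nat_lit 0)) (P (nat_lit 9053255530256))))))) (T.h (T.h (T.h (P (nat_lit 0)) (T.h (M (nat_lit 11651508633687157637119)) (T.h (P (nat_lit 0)) (M (nat_lit 741143611080703))))) (T.h (P (nat_lit 0)) (T.h (T.h (P (nat_lit 0)) (M (nat_lit 39638468407689215))) (P (nat_lit 0))))) (T.h (T.h (P (nat_lit 0)) (T.h (T.h (P (nat_lit 4857255339529076736)) (T.h (P (nat_lit 0)) (M (nat_lit 3302925781727)))) (T.h (P (nat_lit 0)) (M (nat_lit 11117983546151))))) (T.h (T.h (T.h (P (nat_lit 0)) (M (nat_lit 20178261076901887)))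 (P (nat_lit 0))) (T.h (T.h (P (nat_lit 0)) (P (nat_lit 3619901669680))) (P (nat_lit 0)))))))), (T.h (T.h (T.h (P (nat_lit 9532113103949875524296396242944)) (T.h (P (nat_lit 0)) (T.h (M (nat_lit 3988164356882201506217983)) (T.h (P (nat_lit 0)) (T.h (P (nat_lit 3867644409403146240)) (T.h (P (nat_lit 0)) (M (nat_lit 4494899552751)))))))) (T.h (P (nat_lit 0)) (T.h (T.h (P (nat_lit 3032100729163460762402816)) (T.h (P (nat_lit 0)) (T.h (M (nat_lit 57813725855048794111)) (T.h (P (nat_lit 0)) (P (nat_lit 18872188738032)))))) (T.h (P (nat_lit 0)) (T.h (T.h (P (nat_lit 28767898205744529408)) (T.h (P (nat_lit 0)) (P (nat_lit 7861092761200)))) (T.h (P (nat_lit 0)) (M (nat_lit 6454986133007)))))))) (T.h (T.h (P (nat_lit 0)) (T.h (T.h (P (nat_lit 0)) (T.h (M (nat_lit 11273622562630300336127)) (T.h (P (nat_lit 0)) (M (nat_lit 28669640327397375))))) (T.h (P (nat_lit 0)) (T.h (T.h (P (nat_lit 0)) (P (nat_lit 4062213188222976))) (P (nat_lit 0)))))) (T.h (T.h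 (T.h (M (nat_lit 5822015326319091937968127)) (T.h (P (nat_lit 0)) (T.h (P (nat_lit 2322674579165675520)) (T.h (P (nat_lit 0)) (P (nat_lit 66173550912)))))) (T.h (P (nat_lit 0)) (T.h (T.h (P (nat_lit 37294152127986270208)) (T.h (P (nat_lit 0)) (P (nat_lit 8548507008608)))) (T.h (P (nat_lit 0)) (P (nat_lit 15481464103056)))))) (T.h (T.h (P (nat_lit 0)) (T.h (T.h (P (nat_lit 0)) (P (nat_lit 76325036144197632))) (P (nat_lit 0)))) (T.h (T.h (T.h (M (nat_lit 8903747042262646783)) (T.h (P (nat_lit 0)) (M (nat_lit 5131028078175)))) (T.h (P (nat_lit 0)) (M (nat_lit 2689076313615)))) (T.h (P (nat_lit 0)) (M (nat_lit 2135898518655)))))))), (T.h (T.h (T.h (P (nat_lit 0)) (T.h (P (nat_lit 4603839004082732782111948800)) (T.h (P (nat_lit 0)) (T.h (M (nat_lit 451937267142675660799)) (T.h (P (nat_lit 0)) (P (nat_lit 9716097229586432))))))) (T.h (P (nat_lit 0)) (T.h (T.h (P (nat_lit 0)) (T.h (P (nat_lit 28647703300755549061120)) (T.h (P (nat_lit 0)) (M (nat_lit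 16800158102618111))))) (T.h (P (nat_lit 0)) (T.h (T.h (P (nat_lit 0)) (P (nat_lit 27870905071534080))) (P (nat_lit 0))))))) (T.h (T.h (P (nat_lit 0)) (T.h (T.h (M (nat_lit 6596670900851402304651263)) (T.h (P (nat_lit 0)) (T.h (M (nat_lit 39250634255368191)) (T.h (P (nat_lit 0)) (M (nat_lit 1128251633855)))))) (T.h (P (nat_lit 0)) (T.h (T.h (P (nat_lit 19514475805688201216)) (T.h (P (nat_lit 0)) (P (nat_lit 25102801519776)))) (T.h (P (nat_lit 0)) (M (nat_lit 5108631799679))))))) (T.h (T.h (T.h (P (nat_lit 0)) (T.h (P (nat_lit 14294575167020482953216)) (T.h (P (nat_lit 0)) (M (nat_lit 17089846118907903))))) (T.h (P (nat_lit 0)) (T.h (T.h (P (nat_lit 0)) (M (nat_lit 4952338308300799))) (P (nat_lit 0))))) (T.h (T.h (P (nat_lit 0)) (T.h (T.h (M (nat_lit 4921241330123800575)) (T.h (P (nat_lit 0)) (P (nat_lit 31647341982192)))) (T.h (P (nat_lit 0)) (P (nat_lit 7971373389648))))) (T.h (T.h (T.h (P (nat_lit 0)) (M (nat_lit 4070874150305791))) (P (nat_lit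 0))) (T.h (T.h (P (nat_lit 0)) (M (nat_lit 9164603746943))) (P (nat_lit 0)))))))), (T.h (T.h (T.h (M (nat_lit 1410570906212094888288156909567)) (T.h (P (nat_lit 0)) (T.h (P (nat_lit 736332230657898056777728)) (T.h (P (nat_lit 0)) (M (nat_lit 8275653059435036671)))))) (T.h (P (nat_lit 0)) (T.h (T.h (M (nat_lit 2713202957367080711618559)) (T.h (P (nat_lit 0)) (M (nat_lit 12443088561886986239)))) (T.h (P (nat_lit 0)) (M (nat_lit 20438749490257592319)))))) (T.h (T.h (P (nat_lit 0)) (T.h (T.h (P (nat_lit 0)) (T.h (P (nat_lit 25522296248950983753728)) (T.h (P (nat_lit 0)) (M (nat_lit 8426976565428223))))) (T.h (P (nat_lit 0)) (T.h (T.h (P (nat_lit 0)) (M (nat_lit 16959839353831423))) (P (nat_lit 0)))))) (T.h (T.h (T.h (P (nat_lit 9092474658105973488484352)) (T.h (P (nat_lit 0)) (P (nat_lit 9901124243519700992)))) (T.h (P (nat_lit 0)) (P (nat_lit 2049630866191155200)))) (T.h (T.h (P (nat_lit 0)) (T.h (T.h (P (nat_lit 0)) (M (nat_lit 20145895602651135)))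 (P (nat_lit 0)))) (P (nat_lit 6450639816894709760)))))), (P (nat_lit 0))]
def lP11_5 : List (T ℤ) := [(T.h (T.h (P (nat_lit 0)) (T.h (T.h (P (nat_lit 0)) (T.h (P (nat_lit 8717922922079423085674496)) (T.h (P (nat_lit 0)) (T.h (M (nat_lit 193192647643365375)) (T.h (P (nat_lit 0)) (M (nat_lit 424261102751))))))) (T.h (P (nat_lit 0)) (T.h (T.h (P (nat_lit 0)) (T.h (P (nat_lit 6521691154386255872)) (T.h (P (nat_lit 0)) (P (nat_lit 3373397582576))))) (T.h (P (nat_lit 0)) (T.h (T.h (P (nat_lit 0)) (M (nat_lit 5165935566879))) (P (nat_lit 0)))))))) (T.h (T.h (T.h (P (nat_lit 532858792078950653260464128)) (T.h (P (nat_lit 0)) (T.h (P (nat_lit 3321691345876869447680)) (T.h (P (nat_lit 0)) (P (nat_lit 2725830294568960)))))) (T.h (P (nat_lit 0)) (T.h (T.h (M (nat_lit 4144768062586427015167)) (T.h (P (nat_lit 0)) (P (nat_lit 15787150469627904)))) (T.h (P (nat_lit 0)) (P (nat_lit 10195113124757504)))))) (T.h (T.h (P (nat_lit 0)) (T.h (T.h (P (nat_lit 0))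 (T.h (P (nat_lit 10942545611232116736)) (T.h (P (nat_lit 0)) (M (nat_lit 172863613551))))) (T.h (P (nat_lit 0)) (T.h (T.h (P (nat_lit 0)) (M (nat_lit 9748205673263))) (P (nat_lit 0)))))) (T.h (T.h (T.h (M (nat_lit 3075121913902334476287)) (T.h (P (nat_lit 0)) (P (nat_lit 15163554349252608)))) (T.h (P (nat_lit 0)) (M (nat_lit 14061861106614271)))) (T.h (T.h (P (nat_lit 0)) (T.h (T.h (P (nat_lit 0)) (P (nat_lit 3166704741056))) (P (nat_lit 0)))) (M (nat_lit 1221575086440447))))))), (T.h (T.h (P (nat_lit 0)) (T.h (T.h (P (nat_lit 7410480982141196655933784064)) (T.h (P (nat_lit 0)) (T.h (M (nat_lit 34692595357611779424255)) (T.h (P (nat_lit 0)) (P (nat_lit 4797928639463424)))))) (T.h (P (nat_lit 0)) (T.h (T.h (M (nat_lit 11758016684598470115327)) (T.h (P (nat_lit 0)) (P (nat_lit 28860658306154496)))) (T.h (P (nat_lit 0)) (M (nat_lit 7868204061982719))))))) (T.h (T.h (T.h (P (nat_lit 0)) (T.h (P (nat_lit 3641499163075808254230528)) (T.h (P (nat_lit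 0)) (T.h (M (nat_lit 16133808216185241599)) (T.h (P (nat_lit 0)) (P (nat_lit 9053255530256))))))) (T.h (P (nat_lit 0)) (T.h (T.h (P (nat_lit 0)) (T.h (P (nat_lit 55498869461626126336)) (T.h (P (nat_lit 0)) (M (nat_lit 30116912663583))))) (T.h (P (nat_lit 0)) (T.h (T.h (P (nat_lit 0)) (P (nat_lit 295401305272))) (P (nat_lit 0))))))) (T.h (T.h (P (nat_lit 0)) (T.h (T.h (M (nat_lit 11651508633687157637119)) (T.h (P (nat_lit 0)) (M (nat_lit 39638468407689215)))) (T.h (P (nat_lit 0)) (M (nat_lit 741143611080703))))) (T.h (T.h (T.h (P (nat_lit 0)) (T.h (P (nat_lit 4857255339529076736)) (T.h (P (nat_lit 0)) (M (nat_lit 11117983546151))))) (T.h (P (nat_lit 0)) (T.h (T.h (P (nat_lit 0)) (M (nat_lit 3302925781727))) (P (nat_lit 0))))) (T.h (T.h (P (nat_lit 0)) (M (nat_lit 20178261076901887))) (T.h (T.h (T.h (P (nat_lit 0)) (P (nat_lit 3619901669680))) (P (nat_lit 0))) (P (nat_lit 0)))))))), (T.h (T.h (P (nat_lit 0)) (T.h (T.h (P (nat_lit 0)) (T.h (M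 (nat_lit 26202266726833330004688895)) (T.h (P (nat_lit 0)) (T.h (M (nat_lit 32857965433267945471)) (T.h (P (nat_lit 0)) (P (nat_lit 8063023529120))))))) (T.h (P (nat_lit 0)) (T.h (T.h (P (nat_lit 0)) (T.h (M (nat_lit 32857965433267945471)) (T.h (P (nat_lit 0)) (P (nat_lit 2263527959616))))) (T.h (P (nat_lit 0)) (T.h (T.h (P (nat_lit 0)) (P (nat_lit 8063023529120))) (P (nat_lit 0)))))))) (T.h (T.h (T.h (P (nat_lit 17277169826230395563407310848)) (T.h (P (nat_lit 0)) (T.h (M (nat_lit 14429612615023850422271)) (T.h (P (nat_lit 0)) (M (nat_lit 46231065526583295)))))) (T.h (P (nat_lit 0)) (T.h (T.h (M (nat_lit 14429612615023850422271)) (T.h (P (nat_lit 0)) (M (nat_lit 33472934269550591)))) (T.h (P (nat_lit 0)) (M (nat_lit 46231065526583295)))))) (T.h (T.h (P (nat_lit 0)) (T.h (T.h (P (nat_lit 0)) (T.h (P (nat_lit 4720523903133286400)) (T.h (P (nat_lit 0)) (M (nat_lit 2419356147151))))) (T.h (P (nat_lit 0)) (T.h (T.h (P (nat_lit 0)) (M (nat_lit 2419356147151)))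 (P (nat_lit 0)))))) (T.h (T.h (T.h (P (nat_lit 37722972093317176623104)) (T.h (P (nat_lit 0)) (P (nat_lit 8313373331783680)))) (T.h (P (nat_lit 0)) (P (nat_lit 8313373331783680)))) (T.h (T.h (P (nat_lit 0)) (T.h (T.h (P (nat_lit 0)) (M (nat_lit 14170135667743))) (P (nat_lit 0)))) (P (nat_lit 2839043910631424))))))), (T.h (T.h (P (nat_lit 0)) (T.h (T.h (P (nat_lit 5843117400767520869254692864)) (T.h (P (nat_lit 0)) (T.h (P (nat_lit 6132280081596855353344)) (T.h (P (nat_lit 0)) (M (nat_lit 17608652528943103)))))) (T.h (P (nat_lit 0)) (T.h (T.h (P (nat_lit 6400777624819452608512)) (T.h (P (nat_lit 0)) (M (nat_lit 10186063040872447)))) (T.h (P (nat_lit 0)) (P (nat_lit 17475433437396992))))))) (T.h (T.h (T.h (P (nat_lit 0)) (T.h (M (nat_lit 1272398404344883965853695)) (T.h (P (nat_lit 0)) (T.h (P (nat_lit 23443956208744005632)) (T.h (P (nat_lit 0)) (M (nat_lit 14177834618447))))))) (T.h (P (nat_lit 0)) (T.h (T.h (P (nat_lit 0)) (T.h (P (nat_lit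 34232820611900506112)) (T.h (P (nat_lit 0)) (P (nat_lit 17952904070928))))) (T.h (P (nat_lit 0)) (T.h (T.h (P (nat_lit 0)) (M (nat_lit 26139770321999))) (P (nat_lit 0))))))) (T.h (T.h (P (nat_lit 0)) (T.h (T.h (M (nat_lit 8661948646476979634175)) (T.h (P (nat_lit 0)) (P (nat_lit 7274545497210880)))) (T.h (P (nat_lit 0)) (M (nat_lit 24023268860002303))))) (T.h (T.h (T.h (P (nat_lit 0)) (T.h (M (nat_lit 3420608005706612735)) (T.h (P (nat_lit 0)) (P (nat_lit 11034664166160))))) (T.h (P (nat_lit 0)) (T.h (T.h (P (nat_lit 0)) (M (nat_lit 19566681743567))) (P (nat_lit 0))))) (T.h (T.h (P (nat_lit 0)) (P (nat_lit 474231768350720))) (T.h (T.h (T.h (P (nat_lit 0)) (P (nat_lit 2356823042256))) (P (nat_lit 0))) (P (nat_lit 0)))))))), (T.h (T.h (P (nat_lit 0)) (T.h (T.h (P (nat_lit 0)) (T.h (P (nat_lit 10198635777548292081057792)) (T.h (P (nat_lit 0)) (M (nat_lit 10587787297082572799))))) (T.h (P (nat_lit 0)) (T.h (T.h (P (nat_lit 0)) (M (nat_lit 44064355139457122303)))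 (P (nat_lit 0)))))) (T.h (T.h (T.h (M (nat_lit 9444388680319584730748026879)) (T.h (P (nat_lit 0)) (T.h (P (nat_lit 30742105541402773422080)) (T.h (P (nat_lit 0)) (P (nat_lit 24581947639840768)))))) (T.h (P (nat_lit 0)) (T.h (T.h (P (nat_lit 4498893292917248491520)) (T.h (P (nat_lit 0)) (M (nat_lit 44089042524880895)))) (T.h (P (nat_lit 0)) (P (nat_lit 17641106541363200)))))) (T.h (T.h (P (nat_lit 0)) (T.h (T.h (P (nat_lit 0)) (M (nat_lit 9004690242220851199))) (P (nat_lit 0)))) (T.h (T.h (T.h (M (nat_lit 11887339130370524184575)) (T.h (P (nat_lit 0)) (M (nat_lit 22101788836069375)))) (T.h (P (nat_lit 0)) (M (nat_lit 1483925649195007)))) (T.h (P (nat_lit 0)) (P (nat_lit 2323722480533504))))))), (T.h (T.h (T.h (M (nat_lit 169053768763270514532562239487)) (T.h (P (nat_lit 0)) (T.h (P (nat_lit 1217783071519776866041856)) (T.h (P (nat_lit 0)) (T.h (M (nat_lit 2581556048120774655)) (T.h (P (nat_lit 0)) (P (nat_lit 2889973006256)))))))) (T.h (P (nat_lit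 0)) (T.h (T.h (M (nat_lit 86023058324020239794175)) (T.h (P (nat_lit 0)) (T.h (M (nat_lit 2804189857717420031)) (T.h (P (nat_lit 0)) (P (nat_lit 2363898821680)))))) (T.h (P (nat_lit 0)) (T.h (T.h (P (nat_lit 544121181330997248)) (T.h (P (nat_lit 0)) (P (nat_lit 1796611202864)))) (T.h (P (nat_lit 0)) (M (nat_lit 1570308029599)))))))) (T.h (T.h (P (nat_lit 0)) (T.h (T.h (P (nat_lit 0)) (T.h (M (nat_lit 1587471070678617161727)) (T.h (P (nat_lit 0)) (P (nat_lit 3737556218937344))))) (T.h (P (nat_lit 0)) (T.h (T.h (P (nat_lit 0)) (P (nat_lit 2147752284127232))) (P (nat_lit 0)))))) (T.h (T.h (T.h (P (nat_lit 1217783071519776866041856)) (T.h (P (nat_lit 0)) (T.h (M (nat_lit 580103659812028415)) (T.h (P (nat_lit 0)) (M (nat_lit 662576913727)))))) (T.h (P (nat_lit 0)) (T.h (T.h (M (nat_lit 2804189857717420031)) (T.h (P (nat_lit 0)) (P (nat_lit 2120391294816)))) (T.h (P (nat_lit 0)) (P (nat_lit 1796611202864)))))) (T.h (T.h (P (nat_lit 0)) (T.h (T.h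 (P (nat_lit 0)) (P (nat_lit 3737556218937344))) (P (nat_lit 0)))) (T.h (T.h (T.h (M (nat_lit 2581556048120774655)) (T.h (P (nat_lit 0)) (M (nat_lit 662576913727)))) (T.h (P (nat_lit 0)) (P (nat_lit 2363898821680)))) (T.h (P (nat_lit 0)) (P (nat_lit 2889973006256)))))))), (T.h (T.h (T.h (P (nat_lit 0)) (T.h (M (nat_lit 8105240833316528014414053375)) (T.h (P (nat_lit 0)) (T.h (P (nat_lit 6157605607908443160576)) (T.h (P (nat_lit 0)) (M (nat_lit 14652418540830719))))))) (T.h (P (nat_lit 0)) (T.h (T.h (P (nat_lit 0)) (T.h (M (nat_lit 18612874587945052405759)) (T.h (P (nat_lit 0)) (M (nat_lit 5484856430657535))))) (T.h (P (nat_lit 0)) (T.h (T.h (P (nat_lit 0)) (P (nat_lit 23898006275555328))) (P (nat_lit 0))))))) (T.h (T.h (P (nat_lit 0)) (T.h (T.h (P (nat_lit 4215725895776875352948736)) (T.h (P (nat_lit 0)) (T.h (M (nat_lit 23926501528834146303)) (T.h (P (nat_lit 0)) (P (nat_lit 2892398064512)))))) (T.h (P (nat_lit 0)) (T.h (T.h (P (nat_lit 33868761651432390656))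 (T.h (P (nat_lit 0)) (M (nat_lit 19419484670495)))) (T.h (P (nat_lit 0)) (P (nat_lit 966839890088))))))) (T.h (T.h (T.h (P (nat_lit 0)) (T.h (P (nat_lit 20407429106314850074624)) (T.h (P (nat_lit 0)) (P (nat_lit 13934158588248064))))) (T.h (P (nat_lit 0)) (T.h (T.h (P (nat_lit 0)) (M (nat_lit 21479489433075711))) (P (nat_lit 0))))) (T.h (T.h (P (nat_lit 0)) (T.h (T.h (P (nat_lit 29294307247426371584)) (T.h (P (nat_lit 0)) (P (nat_lit 17916783817936)))) (T.h (P (nat_lit 0)) (P (nat_lit 4797394601552))))) (T.h (T.h (T.h (P (nat_lit 0)) (P (nat_lit 18185428906213376))) (P (nat_lit 0))) (T.h (T.h (P (nat_lit 0)) (P (nat_lit 2467984298904))) (P (nat_lit 0)))))))), (T.h (T.h (T.h (P (nat_lit 9532113103949875524296396242944)) (T.h (P (nat_lit 0)) (T.h (P (nat_lit 3032100729163460762402816)) (T.h (P (nat_lit 0)) (T.h (P (nat_lit 28767898205744529408)) (T.h (P (nat_lit 0)) (M (nat_lit 6454986133007)))))))) (T.h (P (nat_lit 0)) (T.h (T.h (M (nat_lit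 3988164356882201506217983)) (T.h (P (nat_lit 0)) (T.h (M (nat_lit 57813725855048794111)) (T.h (P (nat_lit 0)) (P (nat_lit 7861092761200)))))) (T.h (P (nat_lit 0)) (T.h (T.h (P (nat_lit 3867644409403146240)) (T.h (P (nat_lit 0)) (P (nat_lit 18872188738032)))) (T.h (P (nat_lit 0)) (M (nat_lit 4494899552751)))))))) (T.h (T.h (P (nat_lit 0)) (T.h (T.h (P (nat_lit 0)) (T.h (M (nat_lit 11273622562630300336127)) (T.h (P (nat_lit 0)) (P (nat_lit 4062213188222976))))) (T.h (P (nat_lit 0)) (T.h (T.h (P (nat_lit 0)) (M (nat_lit 28669640327397375))) (P (nat_lit 0)))))) (T.h (T.h (T.h (M (nat_lit 5822015326319091937968127)) (T.h (P (nat_lit 0)) (T.h (P (nat_lit 37294152127986270208)) (T.h (P (nat_lit 0)) (P (nat_lit 15481464103056)))))) (T.h (P (nat_lit 0)) (T.h (T.h (P (nat_lit 2322674579165675520)) (T.h (P (nat_lit 0)) (P (nat_lit 8548507008608)))) (T.h (P (nat_lit 0)) (P (nat_lit 66173550912)))))) (T.h (T.h (P (nat_lit 0)) (T.h (T.h (P (nat_lit 0)) (P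 (nat_lit 76325036144197632))) (P (nat_lit 0)))) (T.h (T.h (T.h (M (nat_lit 8903747042262646783)) (T.h (P (nat_lit 0)) (M (nat_lit 2689076313615)))) (T.h (P (nat_lit 0)) (M (nat_lit 5131028078175)))) (T.h (P (nat_lit 0)) (M (nat_lit 2135898518655))))))))]
def lP11_6 : List (T ℤ) := [(T.h (T.h (T.h (P (nat_lit 0)) (T.h (P (nat_lit 5843117400767520869254692864)) (T.h (P (nat_lit 0)) (T.h (P (nat_lit 6400777624819452608512)) (T.h (P (nat_lit 0)) (P (nat_lit 17475433437396992))))))) (T.h (P (nat_lit 0)) (T.h (T.h (P (nat_lit 0)) (T.h (P (nat_lit 6132280081596855353344)) (T.h (P (nat_lit 0)) (M (nat_lit 10186063040872447))))) (T.h (P (nat_lit 0)) (T.h (T.h (P (nat_lit 0)) (M (nat_lit 17608652528943103))) (P (nat_lit 0))))))) (T.h (T.h (P (nat_lit 0)) (T.h (T.h (M (nat_lit 1272398404344883965853695)) (T.h (P (nat_lit 0)) (T.h (P (nat_lit 34232820611900506112)) (T.h (P (nat_lit 0)) (M (nat_lit 26139770321999)))))) (T.h (P (nat_lit 0)) (T.h (T.h (P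 (nat_lit 23443956208744005632)) (T.h (P (nat_lit 0)) (P (nat_lit 17952904070928)))) (T.h (P (nat_lit 0)) (M (nat_lit 14177834618447))))))) (T.h (T.h (T.h (P (nat_lit 0)) (T.h (M (nat_lit 8661948646476979634175)) (T.h (P (nat_lit 0)) (M (nat_lit 24023268860002303))))) (T.h (P (nat_lit 0)) (T.h (T.h (P (nat_lit 0)) (P (nat_lit 7274545497210880))) (P (nat_lit 0))))) (T.h (T.h (P (nat_lit 0)) (T.h (T.h (M (nat_lit 3420608005706612735)) (T.h (P (nat_lit 0)) (M (nat_lit 19566681743567)))) (T.h (P (nat_lit 0)) (P (nat_lit 11034664166160))))) (T.h (T.h (T.h (P (nat_lit 0)) (P (nat_lit 474231768350720))) (P (nat_lit 0))) (T.h (T.h (P (nat_lit 0)) (P (nat_lit 2356823042256))) (P (nat_lit 0)))))))), (T.h (T.h (T.h (P (nat_lit 1566566538292661711704453808128)) (T.h (P (nat_lit 0)) (T.h (M (nat_lit 9732647539352031790628863)) (T.h (P (nat_lit 0)) (M (nat_lit 16297031267554164735)))))) (T.h (P (nat_lit 0)) (T.h (T.h (M (nat_lit 9732647539352031790628863))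 (T.h (P (nat_lit 0)) (M (nat_lit 2048803517447012351)))) (T.h (P (nat_lit 0)) (M (nat_lit 16297031267554164735)))))) (T.h (T.h (P (nat_lit 0)) (T.h (T.h (P (nat_lit 0)) (T.h (P (nat_lit 26663661396517474795520)) (T.h (P (nat_lit 0)) (P (nat_lit 23433650567217152))))) (T.h (P (nat_lit 0)) (T.h (T.h (P (nat_lit 0)) (P (nat_lit 23433650567217152))) (P (nat_lit 0)))))) (T.h (T.h (T.h (P (nat_lit 3329637082376392511848448)) (T.h (P (nat_lit 0)) (P (nat_lit 3306482805604614144)))) (T.h (P (nat_lit 0)) (P (nat_lit 3306482805604614144)))) (T.h (T.h (P (nat_lit 0)) (T.h (T.h (P (nat_lit 0)) (P (nat_lit 26715042807218176))) (P (nat_lit 0)))) (P (nat_lit 3580613197985480704)))))), (T.h (T.h (P (nat_lit 0)) (T.h (T.h (M (nat_lit 6710137670469634890370383871)) (T.h (P (nat_lit 0)) (T.h (M (nat_lit 7145578919625811296255)) (T.h (P (nat_lit 0)) (M (nat_lit 7390483838959615)))))) (T.h (P (nat_lit 0)) (T.h (T.h (M (nat_lit 8784275359082477518847)) (T.h (P (nat_lit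 0)) (M (nat_lit 6980069744508927)))) (T.h (P (nat_lit 0)) (P (nat_lit 7334363874459648))))))) (T.h (T.h (T.h (P (nat_lit 0)) (T.h (P (nat_lit 3147941618468942604402688)) (T.h (P (nat_lit 0)) (T.h (M (nat_lit 14654403036332425215)) (T.h (P (nat_lit 0)) (P (nat_lit 1333360900360))))))) (T.h (P (nat_lit 0)) (T.h (T.h (P (nat_lit 0)) (T.h (M (nat_lit 15443931641180848127)) (T.h (P (nat_lit 0)) (P (nat_lit 4503270309448))))) (T.h (P (nat_lit 0)) (T.h (T.h (P (nat_lit 0)) (M (nat_lit 2972229967967))) (P (nat_lit 0))))))) (T.h (T.h (P (nat_lit 0)) (T.h (T.h (M (nat_lit 2995186226142658953215)) (T.h (P (nat_lit 0)) (M (nat_lit 5119387493728255)))) (T.h (P (nat_lit 0)) (M (nat_lit 17858861881032703))))) (T.h (T.h (T.h (P (nat_lit 0)) (T.h (M (nat_lit 14522462245515952127)) (T.h (P (nat_lit 0)) (P (nat_lit 3114189266208))))) (T.h (P (nat_lit 0)) (T.h (T.h (P (nat_lit 0)) (M (nat_lit 110400139431))) (P (nat_lit 0))))) (T.h (T.h (P (nat_lit 0)) (M (nat_lit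 8877860582555647))) (T.h (T.h (T.h (P (nat_lit 0)) (P (nat_lit 1403340751448))) (P (nat_lit 0))) (P (nat_lit 0)))))))), (T.h (T.h (P (nat_lit 0)) (T.h (T.h (P (nat_lit 0)) (T.h (P (nat_lit 11006440254763849941516288)) (T.h (P (nat_lit 0)) (T.h (P (nat_lit 16119823565909393408)) (T.h (P (nat_lit 0)) (M (nat_lit 476646617775))))))) (T.h (P (nat_lit 0)) (T.h (T.h (P (nat_lit 0)) (T.h (M (nat_lit 10212482558193565695)) (T.h (P (nat_lit 0)) (M (nat_lit 267617463791))))) (T.h (P (nat_lit 0)) (T.h (T.h (P (nat_lit 0)) (P (nat_lit 11875290719936))) (P (nat_lit 0)))))))) (T.h (T.h (T.h (M (nat_lit 2183137425904434638667907071)) (T.h (P (nat_lit 0)) (T.h (P (nat_lit 1595751522983967981568)) (T.h (P (nat_lit 0)) (M (nat_lit 10387681152090111)))))) (T.h (P (nat_lit 0)) (T.h (T.h (M (nat_lit 27481446203344965074943)) (T.h (P (nat_lit 0)) (M (nat_lit 1654209649672191)))) (T.h (P (nat_lit 0)) (M (nat_lit 4103378252595199)))))) (T.h (T.h (P (nat_lit 0)) (T.h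 (T.h (P (nat_lit 0)) (T.h (P (nat_lit 17390635901448617984)) (T.h (P (nat_lit 0)) (P (nat_lit 3403801104368))))) (T.h (P (nat_lit 0)) (T.h (T.h (P (nat_lit 0)) (P (nat_lit 8038665908672))) (P (nat_lit 0)))))) (T.h (T.h (T.h (P (nat_lit 1146563286424017174528)) (T.h (P (nat_lit 0)) (M (nat_lit 30936074729717759)))) (T.h (P (nat_lit 0)) (P (nat_lit 24685718477160448)))) (T.h (T.h (P (nat_lit 0)) (T.h (T.h (P (nat_lit 0)) (M (nat_lit 170731117199))) (P (nat_lit 0)))) (P (nat_lit 2008321073004544))))))), (T.h (T.h (P (nat_lit 0)) (T.h (T.h (P (nat_lit 4603839004082732782111948800)) (T.h (P (nat_lit 0)) (T.h (P (nat_lit 28647703300755549061120)) (T.h (P (nat_lit 0)) (P (nat_lit 27870905071534080)))))) (T.h (P (nat_lit 0)) (T.h (T.h (M (nat_lit 451937267142675660799)) (T.h (P (nat_lit 0)) (M (nat_lit 16800158102618111)))) (T.h (P (nat_lit 0)) (P (nat_lit 9716097229586432))))))) (T.h (T.h (T.h (P (nat_lit 0)) (T.h (M (nat_lit 6596670900851402304651263))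 (T.h (P (nat_lit 0)) (T.h (P (nat_lit 19514475805688201216)) (T.h (P (nat_lit 0)) (M (nat_lit 5108631799679))))))) (T.h (P (nat_lit 0)) (T.h (T.h (P (nat_lit 0)) (T.h (M (nat_lit 39250634255368191)) (T.h (P (nat_lit 0)) (P (nat_lit 25102801519776))))) (T.h (P (nat_lit 0)) (T.h (T.h (P (nat_lit 0)) (M (nat_lit 1128251633855))) (P (nat_lit 0))))))) (T.h (T.h (P (nat_lit 0)) (T.h (T.h (P (nat_lit 14294575167020482953216)) (T.h (P (nat_lit 0)) (M (nat_lit 4952338308300799)))) (T.h (P (nat_lit 0)) (M (nat_lit 17089846118907903))))) (T.h (T.h (T.h (P (nat_lit 0)) (T.h (M (nat_lit 4921241330123800575)) (T.h (P (nat_lit 0)) (P (nat_lit 7971373389648))))) (T.h (P (nat_lit 0)) (T.h (T.h (P (nat_lit 0)) (P (nat_lit 31647341982192))) (P (nat_lit 0))))) (T.h (T.h (P (nat_lit 0)) (M (nat_lit 4070874150305791))) (T.h (T.h (T.h (P (nat_lit 0)) (M (nat_lit 9164603746943))) (P (nat_lit 0))) (P (nat_lit 0)))))))), (T.h (T.h (P (nat_lit 0)) (T.h (T.h (P (nat_lit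 0)) (T.h (P (nat_lit 10198635777548292081057792)) (T.h (P (nat_lit 0)) (M (nat_lit 44064355139457122303))))) (T.h (P (nat_lit 0)) (T.h (T.h (P (nat_lit 0)) (M (nat_lit 10587787297082572799))) (P (nat_lit 0)))))) (T.h (T.h (T.h (M (nat_lit 9444388680319584730748026879)) (T.h (P (nat_lit 0)) (T.h (P (nat_lit 4498893292917248491520)) (T.h (P (nat_lit 0)) (P (nat_lit 17641106541363200)))))) (T.h (P (nat_lit 0)) (T.h (T.h (P (nat_lit 30742105541402773422080)) (T.h (P (nat_lit 0)) (M (nat_lit 44089042524880895)))) (T.h (P (nat_lit 0)) (P (nat_lit 24581947639840768)))))) (T.h (T.h (P (nat_lit 0)) (T.h (T.h (P (nat_lit 0)) (M (nat_lit 9004690242220851199))) (P (nat_lit 0)))) (T.h (T.h (T.h (M (nat_lit 11887339130370524184575)) (T.h (P (nat_lit 0)) (M (nat_lit 1483925649195007)))) (T.h (P (nat_lit 0)) (M (nat_lit 22101788836069375)))) (T.h (P (nat_lit 0)) (P (nat_lit 2323722480533504))))))), (T.h (T.h (T.h (P (nat_lit 7955821324122392065238856892416))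 (T.h (P (nat_lit 0)) (T.h (P (nat_lit 706434760272425848406016)) (T.h (P (nat_lit 0)) (T.h (P (nat_lit 4427669298030313472)) (T.h (P (nat_lit 0)) (M (nat_lit 2838909460015)))))))) (T.h (P (nat_lit 0)) (T.h (T.h (P (nat_lit 7393668704782508321931264)) (T.h (P (nat_lit 0)) (T.h (P (nat_lit 14592576984723750912)) (T.h (P (nat_lit 0)) (M (nat_lit 4410506974159)))))) (T.h (P (nat_lit 0)) (T.h (T.h (M (nat_lit 4062598691368730623)) (T.h (P (nat_lit 0)) (M (nat_lit 3133739275967)))) (T.h (P (nat_lit 0)) (P (nat_lit 3652989002656)))))))) (T.h (T.h (P (nat_lit 0)) (T.h (T.h (P (nat_lit 0)) (T.h (P (nat_lit 10114515785597969235968)) (T.h (P (nat_lit 0)) (M (nat_lit 7725811003260927))))) (T.h (P (nat_lit 0)) (T.h (T.h (P (nat_lit 0)) (P (nat_lit 123914970333184))) (P (nat_lit 0)))))) (T.h (T.h (T.h (P (nat_lit 706434760272425848406016)) (T.h (P (nat_lit 0)) (T.h (P (nat_lit 4485432474456817664)) (T.h (P (nat_lit 0)) (P (nat_lit 1714226929744)))))) (T.h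 (P (nat_lit 0)) (T.h (T.h (P (nat_lit 14592576984723750912)) (T.h (P (nat_lit 0)) (M (nat_lit 4950411610591)))) (T.h (P (nat_lit 0)) (M (nat_lit 3133739275967)))))) (T.h (T.h (P (nat_lit 0)) (T.h (T.h (P (nat_lit 0)) (M (nat_lit 7725811003260927))) (P (nat_lit 0)))) (T.h (T.h (T.h (P (nat_lit 4427669298030313472)) (T.h (P (nat_lit 0)) (P (nat_lit 1714226929744)))) (T.h (P (nat_lit 0)) (M (nat_lit 4410506974159)))) (T.h (P (nat_lit 0)) (M (nat_lit 2838909460015)))))))), (T.h (T.h (T.h (P (nat_lit 0)) (T.h (P (nat_lit 6851398732185546236270477312)) (T.h (P (nat_lit 0)) (T.h (M (nat_lit 4732893267667112165375)) (T.h (P (nat_lit 0)) (P (nat_lit 10744085451014144))))))) (T.h (P (nat_lit 0)) (T.h (T.h (P (nat_lit 0)) (T.h (P (nat_lit 18348311073687137681408)) (T.h (P (nat_lit 0)) (P (nat_lit 12497095545683968))))) (T.h (P (nat_lit 0)) (T.h (T.h (P (nat_lit 0)) (M (nat_lit 17793055875203071))) (P (nat_lit 0))))))) (T.h (T.h (P (nat_lit 0)) (T.h (T.h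 (M (nat_lit 11660322374750600744140799)) (T.h (P (nat_lit 0)) (T.h (P (nat_lit 39841637126717308928)) (T.h (P (nat_lit 0)) (M (nat_lit 129643420655)))))) (T.h (P (nat_lit 0)) (T.h (T.h (M (nat_lit 18520378691960176639)) (T.h (P (nat_lit 0)) (P (nat_lit 14600707220976)))) (T.h (P (nat_lit 0)) (M (nat_lit 170296125263))))))) (T.h (T.h (T.h (P (nat_lit 0)) (T.h (M (nat_lit 21425206370652458582015)) (T.h (P (nat_lit 0)) (M (nat_lit 6016024335384575))))) (T.h (P (nat_lit 0)) (T.h (T.h (P (nat_lit 0)) (P (nat_lit 10815406722252800))) (P (nat_lit 0))))) (T.h (T.h (P (nat_lit 0)) (T.h (T.h (M (nat_lit 24783823898534739967)) (T.h (P (nat_lit 0)) (M (nat_lit 2136752720495)))) (T.h (P (nat_lit 0)) (P (nat_lit 6938019607344))))) (T.h (T.h (T.h (P (nat_lit 0)) (M (nat_lit 12728265808248831))) (P (nat_lit 0))) (T.h (T.h (P (nat_lit 0)) (P (nat_lit 2531236715616))) (P (nat_lit 0))))))))]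
def lP11_7 : List (T ℤ) := [(T.h (T.h (T.h (M (nat_lit 1410570906212094888288156909567)) (T.h (P (nat_lit 0)) (T.h (M (nat_lit 2713202957367080711618559)) (T.h (P (nat_lit 0)) (M (nat_lit 20438749490257592319)))))) (T.h (P (nat_lit 0)) (T.h (T.h (P (nat_lit 736332230657898056777728)) (T.h (P (nat_lit 0)) (M (nat_lit 12443088561886986239)))) (T.h (P (nat_lit 0)) (M (nat_lit 8275653059435036671)))))) (T.h (T.h (P (nat_lit 0)) (T.h (T.h (P (nat_lit 0)) (T.h (P (nat_lit 25522296248950983753728)) (T.h (P (nat_lit 0)) (M (nat_lit 16959839353831423))))) (T.h (P (nat_lit 0)) (T.h (T.h (P (nat_lit 0)) (M (nat_lit 8426976565428223))) (P (nat_lit 0)))))) (T.h (T.h (T.h (P (nat_lit 9092474658105973488484352)) (T.h (P (nat_lit 0)) (P (nat_lit 2049630866191155200)))) (T.h (P (nat_lit 0)) (P (nat_lit 9901124243519700992)))) (T.h (T.h (P (nat_lit 0)) (T.h (T.h (P (nat_lit 0)) (M (nat_lit 20145895602651135))) (P (nat_lit 0)))) (P (nat_lit 6450639816894709760)))))),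 (T.h (T.h (P (nat_lit 0)) (T.h (T.h (P (nat_lit 6710137670469634890370383872)) (T.h (P (nat_lit 0)) (T.h (P (nat_lit 5070382572884235124736)) (T.h (P (nat_lit 0)) (P (nat_lit 8134172210757632)))))) (T.h (P (nat_lit 0)) (T.h (T.h (P (nat_lit 8784275359082477518848)) (T.h (P (nat_lit 0)) (P (nat_lit 12419465812770816)))) (T.h (P (nat_lit 0)) (M (nat_lit 7334363874459647))))))) (T.h (T.h (T.h (P (nat_lit 0)) (T.h (M (nat_lit 3147941618468942604402687)) (T.h (P (nat_lit 0)) (T.h (P (nat_lit 14588432640924188672)) (T.h (P (nat_lit 0)) (M (nat_lit 1368350825903))))))) (T.h (P (nat_lit 0)) (T.h (T.h (P (nat_lit 0)) (T.h (P (nat_lit 15443931641180848128)) (T.h (P (nat_lit 0)) (M (nat_lit 2196435085007))))) (T.h (P (nat_lit 0)) (T.h (T.h (P (nat_lit 0)) (P (nat_lit 2972229967968))) (P (nat_lit 0))))))) (T.h (T.h (P (nat_lit 0)) (T.h (T.h (P (nat_lit 5070382572884235124736)) (T.h (P (nat_lit 0)) (P (nat_lit 5119387493728256)))) (T.h (P (nat_lit 0)) (P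 (nat_lit 12419465812770816))))) (T.h (T.h (T.h (P (nat_lit 0)) (T.h (P (nat_lit 14588432640924188672)) (T.h (P (nat_lit 0)) (M (nat_lit 3114189266207))))) (T.h (P (nat_lit 0)) (T.h (T.h (P (nat_lit 0)) (M (nat_lit 2196435085007))) (P (nat_lit 0))))) (T.h (T.h (P (nat_lit 0)) (P (nat_lit 8134172210757632))) (T.h (T.h (T.h (P (nat_lit 0)) (M (nat_lit 1368350825903))) (P (nat_lit 0))) (P (nat_lit 0)))))))), (T.h (T.h (P (nat_lit 0)) (T.h (T.h (P (nat_lit 0)) (T.h (M (nat_lit 17043484856467139858530303)) (T.h (P (nat_lit 0)) (M (nat_lit 12429613524915847167))))) (T.h (P (nat_lit 0)) (T.h (T.h (P (nat_lit 0)) (M (nat_lit 2896091241655566335))) (P (nat_lit 0)))))) (T.h (T.h (T.h (P (nat_lit 3402341988066177641621749760)) (T.h (P (nat_lit 0)) (T.h (M (nat_lit 19467932748244439793663)) (T.h (P (nat_lit 0)) (P (nat_lit 2379570363793408)))))) (T.h (P (nat_lit 0)) (T.h (T.h (P (nat_lit 22557465762590185488384)) (T.h (P (nat_lit 0)) (M (nat_lit 12701974667231231))))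 (T.h (P (nat_lit 0)) (M (nat_lit 723882441949183)))))) (T.h (T.h (P (nat_lit 0)) (T.h (T.h (P (nat_lit 0)) (M (nat_lit 11739852891748302847))) (P (nat_lit 0)))) (T.h (T.h (T.h (P (nat_lit 311281724839209992192)) (T.h (P (nat_lit 0)) (P (nat_lit 3918274737192960)))) (T.h (P (nat_lit 0)) (M (nat_lit 6354815568904191)))) (T.h (P (nat_lit 0)) (M (nat_lit 396931717021695))))))), (T.h (T.h (T.h (M (nat_lit 2330416154883494020266051239935)) (T.h (P (nat_lit 0)) (T.h (M (nat_lit 2720637866675313557110783)) (T.h (P (nat_lit 0)) (M (nat_lit 1895559017283977215)))))) (T.h (P (nat_lit 0)) (T.h (T.h (M (nat_lit 7464748788017715864403967)) (T.h (P (nat_lit 0)) (M (nat_lit 8962145797948833791)))) (T.h (P (nat_lit 0)) (P (nat_lit 1573209784461557760)))))) (T.h (T.h (P (nat_lit 0)) (T.h (T.h (P (nat_lit 0)) (T.h (M (nat_lit 7531325478474476421119)) (T.h (P (nat_lit 0)) (P (nat_lit 1499433018032128))))) (T.h (P (nat_lit 0)) (T.h (T.h (P (nat_lit 0)) (M (nat_lit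 4058084649598975))) (P (nat_lit 0)))))) (T.h (T.h (T.h (M (nat_lit 2720637866675313557110783)) (T.h (P (nat_lit 0)) (M (nat_lit 758678015956746239)))) (T.h (P (nat_lit 0)) (M (nat_lit 8962145797948833791)))) (T.h (T.h (P (nat_lit 0)) (T.h (T.h (P (nat_lit 0)) (P (nat_lit 1499433018032128))) (P (nat_lit 0)))) (M (nat_lit 1895559017283977215)))))), (P (nat_lit 0)), (P (nat_lit 0)), (P (nat_lit 0)), (P (nat_lit 0))]
def lP11_8 : List (T ℤ) := [(P (nat_lit 0)), (P (nat_lit 0)), (P (nat_lit 0)), (P (nat_lit 0)), (P (nat_lit 0)), (P (nat_lit 0)), (T.h (T.h (T.h (P (nat_lit 2088591323082112080305020993536)) (T.h (P (nat_lit 0)) (T.h (M (nat_lit 421587797783269202722815)) (T.h (P (nat_lit 0)) (T.h (P (nat_lit 3333244487047577600)) (T.h (P (nat_lit 0)) (M (nat_lit 2747838389951)))))))) (T.h (P (nat_lit 0)) (T.h (T.h (M (nat_lit 1607386858692214972743679)) (T.h (P (nat_lit 0)) (T.h (P (nat_lit 10695880062944673792)) (T.h (P (nat_lit 0)) (M (nat_lit 1947151886207))))))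 (T.h (P (nat_lit 0)) (T.h (T.h (M (nat_lit 24896559346876415)) (T.h (P (nat_lit 0)) (M (nat_lit 9110288504191)))) (T.h (P (nat_lit 0)) (P (nat_lit 599544283280)))))))) (T.h (T.h (P (nat_lit 0)) (T.h (T.h (P (nat_lit 0)) (T.h (P (nat_lit 1042912054518835314688)) (T.h (P (nat_lit 0)) (M (nat_lit 424473892093951))))) (T.h (P (nat_lit 0)) (T.h (T.h (P (nat_lit 0)) (M (nat_lit 5757242695024639))) (P (nat_lit 0)))))) (T.h (T.h (T.h (M (nat_lit 1607386858692214972743679)) (T.h (P (nat_lit 0)) (T.h (P (nat_lit 10695880062944673792)) (T.h (P (nat_lit 0)) (M (nat_lit 1947151886207)))))) (T.h (P (nat_lit 0)) (T.h (T.h (P (nat_lit 7954559912346910720)) (T.h (P (nat_lit 0)) (M (nat_lit 15279027903039)))) (T.h (P (nat_lit 0)) (P (nat_lit 1306929666272)))))) (T.h (T.h (P (nat_lit 0)) (T.h (T.h (P (nat_lit 0)) (M (nat_lit 5757242695024639))) (P (nat_lit 0)))) (T.h (T.h (T.h (M (nat_lit 24896559346876415)) (T.h (P (nat_lit 0)) (M (nat_lit 9110288504191))))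 (T.h (P (nat_lit 0)) (P (nat_lit 1306929666272)))) (T.h (P (nat_lit 0)) (P (nat_lit 599544283280)))))))), (P (nat_lit 0))]
def lP11_9 : List (T ℤ) := [(P (nat_lit 0)), (P (nat_lit 0)), (P (nat_lit 0)), (P (nat_lit 0)), (T.h (T.h (P (nat_lit 0)) (T.h (T.h (P (nat_lit 532858792078950653260464128)) (T.h (P (nat_lit 0)) (T.h (M (nat_lit 4144768062586427015167)) (T.h (P (nat_lit 0)) (P (nat_lit 10195113124757504)))))) (T.h (P (nat_lit 0)) (T.h (T.h (M (nat_lit 3075121913902334476287)) (T.h (P (nat_lit 0)) (M (nat_lit 14061861106614271)))) (T.h (P (nat_lit 0)) (M (nat_lit 1221575086440447))))))) (T.h (T.h (T.h (P (nat_lit 0)) (T.h (P (nat_lit 8717922922079423085674496)) (T.h (P (nat_lit 0)) (T.h (P (nat_lit 6521691154386255872)) (T.h (P (nat_lit 0)) (M (nat_lit 5165935566879))))))) (T.h (P (nat_lit 0)) (T.h (T.h (P (nat_lit 0)) (T.h (P (nat_lit 10942545611232116736)) (T.h (P (nat_lit 0)) (M (nat_lit 9748205673263))))) (T.h (P (nat_lit 0)) (T.h (T.h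 (P (nat_lit 0)) (P (nat_lit 3166704741056))) (P (nat_lit 0))))))) (T.h (T.h (P (nat_lit 0)) (T.h (T.h (P (nat_lit 3321691345876869447680)) (T.h (P (nat_lit 0)) (P (nat_lit 15787150469627904)))) (T.h (P (nat_lit 0)) (P (nat_lit 15163554349252608))))) (T.h (T.h (T.h (P (nat_lit 0)) (T.h (M (nat_lit 193192647643365375)) (T.h (P (nat_lit 0)) (P (nat_lit 3373397582576))))) (T.h (P (nat_lit 0)) (T.h (T.h (P (nat_lit 0)) (M (nat_lit 172863613551))) (P (nat_lit 0))))) (T.h (T.h (P (nat_lit 0)) (P (nat_lit 2725830294568960))) (T.h (T.h (T.h (P (nat_lit 0)) (M (nat_lit 424261102751))) (P (nat_lit 0))) (P (nat_lit 0)))))))), (T.h (T.h (P (nat_lit 0)) (T.h (T.h (P (nat_lit 0)) (T.h (P (nat_lit 25782059199019256752635904)) (T.h (P (nat_lit 0)) (T.h (M (nat_lit 10956008452240965631)) (T.h (P (nat_lit 0)) (M (nat_lit 12222797486679))))))) (T.h (P (nat_lit 0)) (T.h (T.h (P (nat_lit 0)) (T.h (P (nat_lit 41803315934142660608)) (T.h (P (nat_lit 0)) (P (nat_lit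 3760716746192))))) (T.h (P (nat_lit 0)) (T.h (T.h (P (nat_lit 0)) (M (nat_lit 13409654446439))) (P (nat_lit 0)))))))) (T.h (T.h (T.h (M (nat_lit 2041045200017422124645875711)) (T.h (P (nat_lit 0)) (T.h (M (nat_lit 46873549870490240155647)) (T.h (P (nat_lit 0)) (P (nat_lit 8579101551165440)))))) (T.h (P (nat_lit 0)) (T.h (T.h (M (nat_lit 12557007179632082943999)) (T.h (P (nat_lit 0)) (P (nat_lit 53339500682969088)))) (T.h (P (nat_lit 0)) (P (nat_lit 13841189037604864)))))) (T.h (T.h (P (nat_lit 0)) (T.h (T.h (P (nat_lit 0)) (T.h (M (nat_lit 18647863152082943999)) (T.h (P (nat_lit 0)) (M (nat_lit 3413523251103))))) (T.h (P (nat_lit 0)) (T.h (T.h (P (nat_lit 0)) (M (nat_lit 22059246121807))) (P (nat_lit 0)))))) (T.h (T.h (T.h (M (nat_lit 2042390810390635216895)) (T.h (P (nat_lit 0)) (M (nat_lit 15680341622751231)))) (T.h (P (nat_lit 0)) (M (nat_lit 37819028543930367)))) (T.h (T.h (P (nat_lit 0)) (T.h (T.h (P (nat_lit 0)) (M (nat_lit 8030211623615)))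 (P (nat_lit 0)))) (M (nat_lit 8272845682114559))))))), (T.h (T.h (P (nat_lit 0)) (T.h (T.h (M (nat_lit 2183137425904434638667907071)) (T.h (P (nat_lit 0)) (T.h (M (nat_lit 27481446203344965074943)) (T.h (P (nat_lit 0)) (M (nat_lit 4103378252595199)))))) (T.h (P (nat_lit 0)) (T.h (T.h (P (nat_lit 1146563286424017174528)) (T.h (P (nat_lit 0)) (P (nat_lit 24685718477160448)))) (T.h (P (nat_lit 0)) (P (nat_lit 2008321073004544))))))) (T.h (T.h (T.h (P (nat_lit 0)) (T.h (P (nat_lit 11006440254763849941516288)) (T.h (P (nat_lit 0)) (T.h (M (nat_lit 10212482558193565695)) (T.h (P (nat_lit 0)) (P (nat_lit 11875290719936))))))) (T.h (P (nat_lit 0)) (T.h (T.h (P (nat_lit 0)) (T.h (P (nat_lit 17390635901448617984)) (T.h (P (nat_lit 0)) (P (nat_lit 8038665908672))))) (T.h (P (nat_lit 0)) (T.h (T.h (P (nat_lit 0)) (M (nat_lit 170731117199))) (P (nat_lit 0))))))) (T.h (T.h (P (nat_lit 0)) (T.h (T.h (P (nat_lit 1595751522983967981568)) (T.h (P (nat_lit 0))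 (M (nat_lit 1654209649672191)))) (T.h (P (nat_lit 0)) (M (nat_lit 30936074729717759))))) (T.h (T.h (T.h (P (nat_lit 0)) (T.h (P (nat_lit 16119823565909393408)) (T.h (P (nat_lit 0)) (M (nat_lit 267617463791))))) (T.h (P (nat_lit 0)) (T.h (T.h (P (nat_lit 0)) (P (nat_lit 3403801104368))) (P (nat_lit 0))))) (T.h (T.h (P (nat_lit 0)) (M (nat_lit 10387681152090111))) (T.h (T.h (T.h (P (nat_lit 0)) (M (nat_lit 476646617775))) (P (nat_lit 0))) (P (nat_lit 0)))))))), (T.h (T.h (P (nat_lit 0)) (T.h (T.h (P (nat_lit 0)) (T.h (M (nat_lit 11660322374750600744140799)) (T.h (P (nat_lit 0)) (T.h (M (nat_lit 18520378691960176639)) (T.h (P (nat_lit 0)) (M (nat_lit 170296125263))))))) (T.h (P (nat_lit 0)) (T.h (T.h (P (nat_lit 0)) (T.h (M (nat_lit 24783823898534739967)) (T.h (P (nat_lit 0)) (P (nat_lit 6938019607344))))) (T.h (P (nat_lit 0)) (T.h (T.h (P (nat_lit 0)) (P (nat_lit 2531236715616))) (P (nat_lit 0)))))))) (T.h (T.h (T.h (P (nat_lit 6851398732185546236270477312))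 (T.h (P (nat_lit 0)) (T.h (P (nat_lit 18348311073687137681408)) (T.h (P (nat_lit 0)) (M (nat_lit 17793055875203071)))))) (T.h (P (nat_lit 0)) (T.h (T.h (M (nat_lit 21425206370652458582015)) (T.h (P (nat_lit 0)) (P (nat_lit 10815406722252800)))) (T.h (P (nat_lit 0)) (M (nat_lit 12728265808248831)))))) (T.h (T.h (P (nat_lit 0)) (T.h (T.h (P (nat_lit 0)) (T.h (P (nat_lit 39841637126717308928)) (T.h (P (nat_lit 0)) (P (nat_lit 14600707220976))))) (T.h (P (nat_lit 0)) (T.h (T.h (P (nat_lit 0)) (M (nat_lit 2136752720495))) (P (nat_lit 0)))))) (T.h (T.h (T.h (M (nat_lit 4732893267667112165375)) (T.h (P (nat_lit 0)) (P (nat_lit 12497095545683968)))) (T.h (P (nat_lit 0)) (M (nat_lit 6016024335384575)))) (T.h (T.h (P (nat_lit 0)) (T.h (T.h (P (nat_lit 0)) (M (nat_lit 129643420655))) (P (nat_lit 0)))) (P (nat_lit 10744085451014144)))))))]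
def lP11_10 : List (T ℤ) := [(T.h (T.h (P (nat_lit 0)) (T.h (T.h (P (nat_lit 3402341988066177641621749760)) (T.h (P (nat_lit 0)) (T.h (P (nat_lit 22557465762590185488384)) (T.h (P (nat_lit 0)) (M (nat_lit 723882441949183)))))) (T.h (P (nat_lit 0)) (T.h (T.h (P (nat_lit 311281724839209992192)) (T.h (P (nat_lit 0)) (M (nat_lit 6354815568904191)))) (T.h (P (nat_lit 0)) (M (nat_lit 396931717021695))))))) (T.h (T.h (T.h (P (nat_lit 0)) (T.h (M (nat_lit 17043484856467139858530303)) (T.h (P (nat_lit 0)) (M (nat_lit 2896091241655566335))))) (T.h (P (nat_lit 0)) (T.h (T.h (P (nat_lit 0)) (M (nat_lit 11739852891748302847))) (P (nat_lit 0))))) (T.h (T.h (P (nat_lit 0)) (T.h (T.h (M (nat_lit 19467932748244439793663)) (T.h (P (nat_lit 0)) (M (nat_lit 12701974667231231)))) (T.h (P (nat_lit 0)) (P (nat_lit 3918274737192960))))) (T.h (T.h (T.h (P (nat_lit 0)) (M (nat_lit 12429613524915847167))) (P (nat_lit 0))) (T.h (T.h (P (nat_lit 0)) (P (nat_lit 2379570363793408)))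 (P (nat_lit 0))))))), (P (nat_lit 0)), (P (nat_lit 0)), (T.h (T.h (T.h (P (nat_lit 0)) (T.h (M (nat_lit 12852879613821572345757695)) (T.h (P (nat_lit 0)) (T.h (P (nat_lit 637446587506065670144)) (T.h (P (nat_lit 0)) (M (nat_lit 659354132676607))))))) (T.h (P (nat_lit 0)) (T.h (T.h (P (nat_lit 0)) (T.h (M (nat_lit 285728088897521451007)) (T.h (P (nat_lit 0)) (M (nat_lit 2387430420054015))))) (T.h (P (nat_lit 0)) (T.h (T.h (P (nat_lit 0)) (M (nat_lit 9820380577136639))) (P (nat_lit 0))))))) (T.h (T.h (P (nat_lit 0)) (T.h (T.h (M (nat_lit 1351268652085930406969343)) (T.h (P (nat_lit 0)) (T.h (M (nat_lit 9106968498537496575)) (T.h (P (nat_lit 0)) (P (nat_lit 13499878995904)))))) (T.h (P (nat_lit 0)) (T.h (T.h (M (nat_lit 1456239894979411967)) (T.h (P (nat_lit 0)) (P (nat_lit 5706106126624)))) (T.h (P (nat_lit 0)) (M (nat_lit 792617250143))))))) (T.h (T.h (T.h (P (nat_lit 0)) (T.h (M (nat_lit 285728088897521451007)) (T.h (P (nat_lit 0)) (M (nat_lit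 2387430420054015))))) (T.h (P (nat_lit 0)) (T.h (T.h (P (nat_lit 0)) (M (nat_lit 11595435753078783))) (P (nat_lit 0))))) (T.h (T.h (P (nat_lit 0)) (T.h (T.h (M (nat_lit 1456239894979411967)) (T.h (P (nat_lit 0)) (P (nat_lit 5706106126624)))) (T.h (P (nat_lit 0)) (P (nat_lit 3108367647936))))) (T.h (T.h (T.h (P (nat_lit 0)) (M (nat_lit 9820380577136639))) (P (nat_lit 0))) (T.h (T.h (P (nat_lit 0)) (M (nat_lit 792617250143))) (P (nat_lit 0)))))))), (T.h (T.h (T.h (M (nat_lit 2248041611807955158416687628287)) (T.h (P (nat_lit 0)) (T.h (M (nat_lit 22355860403255416230772735)) (T.h (P (nat_lit 0)) (T.h (M (nat_lit 12117609771951980543)) (T.h (P (nat_lit 0)) (M (nat_lit 1351169527407)))))))) (T.h (P (nat_lit 0)) (T.h (T.h (P (nat_lit 22998856298373897317777408)) (T.h (P (nat_lit 0)) (T.h (M (nat_lit 48302908811373445119)) (T.h (P (nat_lit 0)) (M (nat_lit 24310713215903)))))) (T.h (P (nat_lit 0)) (T.h (T.h (M (nat_lit 1809775932169256959)) (T.h (P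 (nat_lit 0)) (M (nat_lit 6163918761887)))) (T.h (P (nat_lit 0)) (P (nat_lit 4974677902512)))))))) (T.h (T.h (P (nat_lit 0)) (T.h (T.h (P (nat_lit 0)) (T.h (M (nat_lit 101383502450596276862975)) (T.h (P (nat_lit 0)) (P (nat_lit 87137507642114048))))) (T.h (P (nat_lit 0)) (T.h (T.h (P (nat_lit 0)) (P (nat_lit 12424329035710464))) (P (nat_lit 0)))))) (T.h (T.h (T.h (P (nat_lit 8374704790183218652381184)) (T.h (P (nat_lit 0)) (T.h (P (nat_lit 137051546616728649728)) (T.h (P (nat_lit 0)) (P (nat_lit 20065619356656)))))) (T.h (P (nat_lit 0)) (T.h (T.h (P (nat_lit 1095462655537184768)) (T.h (P (nat_lit 0)) (M (nat_lit 18248556499983)))) (T.h (P (nat_lit 0)) (M (nat_lit 18279454299727)))))) (T.h (T.h (P (nat_lit 0)) (T.h (T.h (P (nat_lit 0)) (M (nat_lit 92831690739744767))) (P (nat_lit 0)))) (T.h (T.h (T.h (P (nat_lit 5507644551881293824)) (T.h (P (nat_lit 0)) (P (nat_lit 13148422638384)))) (T.h (P (nat_lit 0)) (P (nat_lit 42287790739840)))) (T.h (P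 (nat_lit 0)) (M (nat_lit 2898256773599)))))))), (T.h (T.h (T.h (P (nat_lit 0)) (T.h (P (nat_lit 3912186387042781318489309184)) (T.h (P (nat_lit 0)) (T.h (M (nat_lit 10032247509758490181631)) (T.h (P (nat_lit 0)) (P (nat_lit 12964061643177984))))))) (T.h (P (nat_lit 0)) (T.h (T.h (P (nat_lit 0)) (T.h (M (nat_lit 16069614633279035539455)) (T.h (P (nat_lit 0)) (P (nat_lit 19042531012182016))))) (T.h (P (nat_lit 0)) (T.h (T.h (P (nat_lit 0)) (P (nat_lit 32299067457896448))) (P (nat_lit 0))))))) (T.h (T.h (P (nat_lit 0)) (T.h (T.h (P (nat_lit 32151543346033375355863040)) (T.h (P (nat_lit 0)) (T.h (M (nat_lit 13649441188648845311)) (T.h (P (nat_lit 0)) (M (nat_lit 24657609824063)))))) (T.h (P (nat_lit 0)) (T.h (T.h (P (nat_lit 29559669016657657856)) (T.h (P (nat_lit 0)) (M (nat_lit 1321085431679)))) (T.h (P (nat_lit 0)) (P (nat_lit 4818155716864))))))) (T.h (T.h (T.h (P (nat_lit 0)) (T.h (M (nat_lit 16069614633279035539455)) (T.h (P (nat_lit 0))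 (P (nat_lit 19042531012182016))))) (T.h (P (nat_lit 0)) (T.h (T.h (P (nat_lit 0)) (M (nat_lit 3866233468190719))) (P (nat_lit 0))))) (T.h (T.h (P (nat_lit 0)) (T.h (T.h (P (nat_lit 29559669016657657856)) (T.h (P (nat_lit 0)) (M (nat_lit 1321085431679)))) (T.h (P (nat_lit 0)) (P (nat_lit 2939123638080))))) (T.h (T.h (T.h (P (nat_lit 0)) (P (nat_lit 32299067457896448))) (P (nat_lit 0))) (T.h (T.h (P (nat_lit 0)) (P (nat_lit 4818155716864))) (P (nat_lit 0)))))))), (T.h (T.h (T.h (M (nat_lit 810696587689923214839151329279)) (T.h (P (nat_lit 0)) (T.h (P (nat_lit 37753905792173428090863616)) (T.h (P (nat_lit 0)) (T.h (M (nat_lit 3032841192715845631)) (T.h (P (nat_lit 0)) (P (nat_lit 6720453248160)))))))) (T.h (P (nat_lit 0)) (T.h (T.h (M (nat_lit 3407005411166908284141567)) (T.h (P (nat_lit 0)) (T.h (M (nat_lit 69781802947230826495)) (T.h (P (nat_lit 0)) (P (nat_lit 13392062460096)))))) (T.h (P (nat_lit 0)) (T.h (T.h (P (nat_lit 558531456423428096))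 (T.h (P (nat_lit 0)) (P (nat_lit 9878987290848)))) (T.h (P (nat_lit 0)) (M (nat_lit 4261242224735)))))))) (T.h (T.h (P (nat_lit 0)) (T.h (T.h (P (nat_lit 0)) (T.h (P (nat_lit 81885751788132947197952)) (T.h (P (nat_lit 0)) (M (nat_lit 59976003680468991))))) (T.h (P (nat_lit 0)) (T.h (T.h (P (nat_lit 0)) (P (nat_lit 62483176773517312))) (P (nat_lit 0)))))) (T.h (T.h (T.h (M (nat_lit 3407005411166908284141567)) (T.h (P (nat_lit 0)) (T.h (M (nat_lit 69781802947230826495)) (T.h (P (nat_lit 0)) (P (nat_lit 13392062460096)))))) (T.h (P (nat_lit 0)) (T.h (T.h (P (nat_lit 96046158667346608128)) (T.h (P (nat_lit 0)) (P (nat_lit 30474460727712)))) (T.h (P (nat_lit 0)) (M (nat_lit 6016117140431)))))) (T.h (T.h (P (nat_lit 0)) (T.h (T.h (P (nat_lit 0)) (P (nat_lit 62483176773517312))) (P (nat_lit 0)))) (T.h (T.h (T.h (P (nat_lit 558531456423428096)) (T.h (P (nat_lit 0)) (P (nat_lit 9878987290848)))) (T.h (P (nat_lit 0)) (M (nat_lit 6016117140431)))) (T.h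 (P (nat_lit 0)) (M (nat_lit 4261242224735)))))))), (T.h (T.h (T.h (P (nat_lit 0)) (T.h (M (nat_lit 10791888917891311952700899327)) (T.h (P (nat_lit 0)) (T.h (M (nat_lit 1626752472681682042879)) (T.h (P (nat_lit 0)) (M (nat_lit 13647232764051455))))))) (T.h (P (nat_lit 0)) (T.h (T.h (P (nat_lit 0)) (T.h (P (nat_lit 39314200272193718321152)) (T.h (P (nat_lit 0)) (M (nat_lit 30372869421531135))))) (T.h (P (nat_lit 0)) (T.h (T.h (P (nat_lit 0)) (M (nat_lit 11019781030952959))) (P (nat_lit 0))))))) (T.h (T.h (P (nat_lit 0)) (T.h (T.h (P (nat_lit 4552137591189246866096128)) (T.h (P (nat_lit 0)) (P (nat_lit 60886120603446149120)))) (T.h (P (nat_lit 0)) (M (nat_lit 3540785065044738047))))) (T.h (T.h (T.h (P (nat_lit 0)) (T.h (P (nat_lit 39314200272193718321152)) (T.h (P (nat_lit 0)) (M (nat_lit 30372869421531135))))) (T.h (P (nat_lit 0)) (T.h (T.h (P (nat_lit 0)) (M (nat_lit 16427828951875583))) (P (nat_lit 0))))) (T.h (T.h (P (nat_lit 0)) (M (nat_lit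 3540785065044738047))) (T.h (T.h (T.h (P (nat_lit 0)) (M (nat_lit 11019781030952959))) (P (nat_lit 0))) (P (nat_lit 0)))))))]
def lP11_11 : List (T ℤ) := [(P (nat_lit 0)), (T.h (T.h (P (nat_lit 0)) (T.h (T.h (M (nat_lit 12852879613821572345757695)) (T.h (P (nat_lit 0)) (T.h (M (nat_lit 285728088897521451007)) (T.h (P (nat_lit 0)) (M (nat_lit 9820380577136639)))))) (T.h (P (nat_lit 0)) (T.h (T.h (P (nat_lit 637446587506065670144)) (T.h (P (nat_lit 0)) (M (nat_lit 2387430420054015)))) (T.h (P (nat_lit 0)) (M (nat_lit 659354132676607))))))) (T.h (T.h (T.h (P (nat_lit 0)) (T.h (M (nat_lit 1351268652085930406969343)) (T.h (P (nat_lit 0)) (T.h (M (nat_lit 1456239894979411967)) (T.h (P (nat_lit 0)) (M (nat_lit 792617250143))))))) (T.h (P (nat_lit 0)) (T.h (T.h (P (nat_lit 0)) (T.h (M (nat_lit 9106968498537496575)) (T.h (P (nat_lit 0)) (P (nat_lit 5706106126624))))) (T.h (P (nat_lit 0)) (T.h (T.h (P (nat_lit 0)) (P (nat_lit 13499878995904))) (P (nat_lit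 0))))))) (T.h (T.h (P (nat_lit 0)) (T.h (T.h (M (nat_lit 285728088897521451007)) (T.h (P (nat_lit 0)) (M (nat_lit 11595435753078783)))) (T.h (P (nat_lit 0)) (M (nat_lit 2387430420054015))))) (T.h (T.h (T.h (P (nat_lit 0)) (T.h (M (nat_lit 1456239894979411967)) (T.h (P (nat_lit 0)) (P (nat_lit 3108367647936))))) (T.h (P (nat_lit 0)) (T.h (T.h (P (nat_lit 0)) (P (nat_lit 5706106126624))) (P (nat_lit 0))))) (T.h (T.h (P (nat_lit 0)) (M (nat_lit 9820380577136639))) (T.h (T.h (T.h (P (nat_lit 0)) (M (nat_lit 792617250143))) (P (nat_lit 0))) (P (nat_lit 0)))))))), (T.h (T.h (P (nat_lit 0)) (T.h (T.h (P (nat_lit 0)) (T.h (M (nat_lit 37449501152291180928565247)) (T.h (P (nat_lit 0)) (T.h (M (nat_lit 11177727589361909759)) (T.h (P (nat_lit 0)) (M (nat_lit 30834591738231))))))) (T.h (P (nat_lit 0)) (T.h (T.h (P (nat_lit 0)) (T.h (M (nat_lit 62851128381101047807)) (T.h (P (nat_lit 0)) (P (nat_lit 32365155061376))))) (T.h (P (nat_lit 0)) (T.h (T.h (P (nat_lit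 0)) (M (nat_lit 37100201364519))) (P (nat_lit 0)))))))) (T.h (T.h (T.h (P (nat_lit 26918048165403572223124439040)) (T.h (P (nat_lit 0)) (T.h (P (nat_lit 28496200696362805755904)) (T.h (P (nat_lit 0)) (P (nat_lit 12009480081899520)))))) (T.h (P (nat_lit 0)) (T.h (T.h (P (nat_lit 16323087304478341201920)) (T.h (P (nat_lit 0)) (P (nat_lit 78068288233275392)))) (T.h (P (nat_lit 0)) (P (nat_lit 12906101759934464)))))) (T.h (T.h (P (nat_lit 0)) (T.h (T.h (P (nat_lit 0)) (T.h (P (nat_lit 445175461490267783168)) (T.h (P (nat_lit 0)) (M (nat_lit 8262703056647))))) (T.h (P (nat_lit 0)) (T.h (T.h (P (nat_lit 0)) (P (nat_lit 3442513213160))) (P (nat_lit 0)))))) (T.h (T.h (T.h (P (nat_lit 4895464466500676485120)) (T.h (P (nat_lit 0)) (M (nat_lit 81377415842201599)))) (T.h (P (nat_lit 0)) (M (nat_lit 97546026279731199)))) (T.h (T.h (P (nat_lit 0)) (T.h (T.h (P (nat_lit 0)) (P (nat_lit 14708186627616))) (P (nat_lit 0)))) (P (nat_lit 17840743948943360))))))),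 (T.h (T.h (P (nat_lit 0)) (T.h (T.h (M (nat_lit 10269116897705586050811822079)) (T.h (P (nat_lit 0)) (T.h (M (nat_lit 11752904389286648872959)) (T.h (P (nat_lit 0)) (P (nat_lit 64019304747630592)))))) (T.h (P (nat_lit 0)) (T.h (T.h (M (nat_lit 19423582445904722919423)) (T.h (P (nat_lit 0)) (P (nat_lit 48900044698517504)))) (T.h (P (nat_lit 0)) (M (nat_lit 11424268652298239))))))) (T.h (T.h (T.h (P (nat_lit 0)) (T.h (M (nat_lit 3140540335287327520718847)) (T.h (P (nat_lit 0)) (T.h (M (nat_lit 1023186957825474559)) (T.h (P (nat_lit 0)) (M (nat_lit 5632617450207))))))) (T.h (P (nat_lit 0)) (T.h (T.h (P (nat_lit 0)) (T.h (P (nat_lit 2740331464292827136)) (T.h (P (nat_lit 0)) (M (nat_lit 13000870878351))))) (T.h (P (nat_lit 0)) (T.h (T.h (P (nat_lit 0)) (M (nat_lit 71336986172927))) (P (nat_lit 0))))))) (T.h (T.h (P (nat_lit 0)) (T.h (T.h (M (nat_lit 40814377494051408576511)) (T.h (P (nat_lit 0)) (P (nat_lit 84186931744751616)))) (T.h (P (nat_lit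 0)) (M (nat_lit 23241107784351743))))) (T.h (T.h (T.h (P (nat_lit 0)) (T.h (M (nat_lit 19618220207543156735)) (T.h (P (nat_lit 0)) (M (nat_lit 8063003288703))))) (T.h (P (nat_lit 0)) (T.h (T.h (P (nat_lit 0)) (M (nat_lit 13156209311727))) (P (nat_lit 0))))) (T.h (T.h (P (nat_lit 0)) (P (nat_lit 7631175466680320))) (T.h (T.h (T.h (P (nat_lit 0)) (M (nat_lit 12153382404239))) (P (nat_lit 0))) (P (nat_lit 0)))))))), (T.h (T.h (P (nat_lit 0)) (T.h (T.h (P (nat_lit 0)) (T.h (P (nat_lit 34219577505904261729353728)) (T.h (P (nat_lit 0)) (T.h (P (nat_lit 62491710756640260096)) (T.h (P (nat_lit 0)) (P (nat_lit 37160142996432))))))) (T.h (P (nat_lit 0)) (T.h (T.h (P (nat_lit 0)) (T.h (M (nat_lit 101785428458033119231)) (T.h (P (nat_lit 0)) (M (nat_lit 15194470148207))))) (T.h (P (nat_lit 0)) (T.h (T.h (P (nat_lit 0)) (P (nat_lit 16720912128480))) (P (nat_lit 0)))))))) (T.h (T.h (T.h (M (nat_lit 24556072986798921191516012543)) (T.h (P (nat_lit 0)) (T.h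 (M (nat_lit 4980996676142313242623)) (T.h (P (nat_lit 0)) (M (nat_lit 39498243636592639)))))) (T.h (P (nat_lit 0)) (T.h (T.h (M (nat_lit 18238095826908243558399)) (T.h (P (nat_lit 0)) (M (nat_lit 24734882115387391)))) (T.h (P (nat_lit 0)) (P (nat_lit 10739564299747328)))))) (T.h (T.h (P (nat_lit 0)) (T.h (T.h (P (nat_lit 0)) (T.h (M (nat_lit 220930338352237903871)) (T.h (P (nat_lit 0)) (P (nat_lit 25587277519872))))) (T.h (P (nat_lit 0)) (T.h (T.h (P (nat_lit 0)) (M (nat_lit 12048870166367))) (P (nat_lit 0)))))) (T.h (T.h (T.h (M (nat_lit 13721056066817709047807)) (T.h (P (nat_lit 0)) (P (nat_lit 48486625826766848)))) (T.h (P (nat_lit 0)) (P (nat_lit 43601158870171648)))) (T.h (T.h (P (nat_lit 0)) (T.h (T.h (P (nat_lit 0)) (P (nat_lit 1483797581376))) (P (nat_lit 0)))) (M (nat_lit 12786125555204095))))))), (T.h (T.h (P (nat_lit 0)) (T.h (T.h (P (nat_lit 3057717378853825663268290560)) (T.h (P (nat_lit 0)) (T.h (M (nat_lit 34371714572181032665087))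 (T.h (P (nat_lit 0)) (M (nat_lit 72177182128979967)))))) (T.h (P (nat_lit 0)) (T.h (T.h (P (nat_lit 1780258074724053024768)) (T.h (P (nat_lit 0)) (M (nat_lit 6497396134756351)))) (T.h (P (nat_lit 0)) (P (nat_lit 4763365724028928))))))) (T.h (T.h (T.h (P (nat_lit 0)) (T.h (M (nat_lit 12660772485101187447652351)) (T.h (P (nat_lit 0)) (P (nat_lit 112093646349093830656))))) (T.h (P (nat_lit 0)) (T.h (T.h (P (nat_lit 0)) (M (nat_lit 45047154406338854911))) (P (nat_lit 0))))) (T.h (T.h (P (nat_lit 0)) (T.h (T.h (P (nat_lit 8447562600720023683072)) (T.h (P (nat_lit 0)) (M (nat_lit 79412148893564927)))) (T.h (P (nat_lit 0)) (P (nat_lit 4163999934857216))))) (T.h (T.h (T.h (P (nat_lit 0)) (M (nat_lit 35855661794571845631))) (P (nat_lit 0))) (T.h (T.h (P (nat_lit 0)) (P (nat_lit 19241456788209664))) (P (nat_lit 0))))))), (T.h (T.h (T.h (P (nat_lit 0)) (T.h (P (nat_lit 532858792078950653260464128)) (T.h (P (nat_lit 0)) (T.h (M (nat_lit 3075121913902334476287))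 (T.h (P (nat_lit 0)) (M (nat_lit 1221575086440447))))))) (T.h (P (nat_lit 0)) (T.h (T.h (P (nat_lit 0)) (T.h (M (nat_lit 4144768062586427015167)) (T.h (P (nat_lit 0)) (M (nat_lit 14061861106614271))))) (T.h (P (nat_lit 0)) (T.h (T.h (P (nat_lit 0)) (P (nat_lit 10195113124757504))) (P (nat_lit 0))))))) (T.h (T.h (P (nat_lit 0)) (T.h (T.h (P (nat_lit 8717922922079423085674496)) (T.h (P (nat_lit 0)) (T.h (P (nat_lit 10942545611232116736)) (T.h (P (nat_lit 0)) (P (nat_lit 3166704741056)))))) (T.h (P (nat_lit 0)) (T.h (T.h (P (nat_lit 6521691154386255872)) (T.h (P (nat_lit 0)) (M (nat_lit 9748205673263)))) (T.h (P (nat_lit 0)) (M (nat_lit 5165935566879))))))) (T.h (T.h (T.h (P (nat_lit 0)) (T.h (P (nat_lit 3321691345876869447680)) (T.h (P (nat_lit 0)) (P (nat_lit 15163554349252608))))) (T.h (P (nat_lit 0)) (T.h (T.h (P (nat_lit 0)) (P (nat_lit 15787150469627904))) (P (nat_lit 0))))) (T.h (T.h (P (nat_lit 0)) (T.h (T.h (M (nat_lit 193192647643365375))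 (T.h (P (nat_lit 0)) (M (nat_lit 172863613551)))) (T.h (P (nat_lit 0)) (P (nat_lit 3373397582576))))) (T.h (T.h (T.h (P (nat_lit 0)) (P (nat_lit 2725830294568960))) (P (nat_lit 0))) (T.h (T.h (P (nat_lit 0)) (M (nat_lit 424261102751))) (P (nat_lit 0)))))))), (T.h (T.h (T.h (M (nat_lit 233599073851132825313359167487)) (T.h (P (nat_lit 0)) (T.h (P (nat_lit 3339284828606134409494528)) (T.h (P (nat_lit 0)) (T.h (P (nat_lit 1338478820444864512)) (T.h (P (nat_lit 0)) (P (nat_lit 9617498653952)))))))) (T.h (P (nat_lit 0)) (T.h (T.h (M (nat_lit 37543111893281793489502207)) (T.h (P (nat_lit 0)) (T.h (P (nat_lit 31825137202179866624)) (T.h (P (nat_lit 0)) (M (nat_lit 23020402898271)))))) (T.h (P (nat_lit 0)) (T.h (T.h (P (nat_lit 1366218949192056832)) (T.h (P (nat_lit 0)) (M (nat_lit 23757383925135)))) (T.h (P (nat_lit 0)) (M (nat_lit 5346534053183)))))))) (T.h (T.h (P (nat_lit 0)) (T.h (T.h (P (nat_lit 0)) (T.h (M (nat_lit 82407207815392364855295))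 (T.h (P (nat_lit 0)) (M (nat_lit 32143829745663999))))) (T.h (P (nat_lit 0)) (T.h (T.h (P (nat_lit 0)) (P (nat_lit 60188240626515968))) (P (nat_lit 0)))))) (T.h (T.h (T.h (P (nat_lit 5082112852419897131532288)) (T.h (P (nat_lit 0)) (T.h (M (nat_lit 100023438623520063487)) (T.h (P (nat_lit 0)) (M (nat_lit 20604639669311)))))) (T.h (P (nat_lit 0)) (T.h (T.h (P (nat_lit 97042588629337112576)) (T.h (P (nat_lit 0)) (M (nat_lit 22834946776191)))) (T.h (P (nat_lit 0)) (M (nat_lit 1079589108847)))))) (T.h (T.h (P (nat_lit 0)) (T.h (T.h (P (nat_lit 0)) (M (nat_lit 87065281106345983))) (P (nat_lit 0)))) (T.h (T.h (T.h (M (nat_lit 2430645173944844287)) (T.h (P (nat_lit 0)) (P (nat_lit 31329944283904)))) (T.h (P (nat_lit 0)) (P (nat_lit 12372716820768)))) (T.h (P (nat_lit 0)) (M (nat_lit 1694558487759))))))))]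
def lP11_12 : List (T ℤ) := [(T.h (T.h (T.h (P (nat_lit 0)) (T.h (M (nat_lit 10269116897705586050811822079)) (T.h (P (nat_lit 0)) (T.h (M (nat_lit 19423582445904722919423)) (T.h (P (nat_lit 0)) (M (nat_lit 11424268652298239))))))) (T.h (P (nat_lit 0)) (T.h (T.h (P (nat_lit 0)) (T.h (M (nat_lit 11752904389286648872959)) (T.h (P (nat_lit 0)) (P (nat_lit 48900044698517504))))) (T.h (P (nat_lit 0)) (T.h (T.h (P (nat_lit 0)) (P (nat_lit 64019304747630592))) (P (nat_lit 0))))))) (T.h (T.h (P (nat_lit 0)) (T.h (T.h (M (nat_lit 3140540335287327520718847)) (T.h (P (nat_lit 0)) (T.h (P (nat_lit 2740331464292827136)) (T.h (P (nat_lit 0)) (M (nat_lit 71336986172927)))))) (T.h (P (nat_lit 0)) (T.h (T.h (M (nat_lit 1023186957825474559)) (T.h (P (nat_lit 0)) (M (nat_lit 13000870878351)))) (T.h (P (nat_lit 0)) (M (nat_lit 5632617450207))))))) (T.h (T.h (T.h (P (nat_lit 0)) (T.h (M (nat_lit 40814377494051408576511)) (T.h (P (nat_lit 0)) (M (nat_lit 23241107784351743)))))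 (T.h (P (nat_lit 0)) (T.h (T.h (P (nat_lit 0)) (P (nat_lit 84186931744751616))) (P (nat_lit 0))))) (T.h (T.h (P (nat_lit 0)) (T.h (T.h (M (nat_lit 19618220207543156735)) (T.h (P (nat_lit 0)) (M (nat_lit 13156209311727)))) (T.h (P (nat_lit 0)) (M (nat_lit 8063003288703))))) (T.h (T.h (T.h (P (nat_lit 0)) (P (nat_lit 7631175466680320))) (P (nat_lit 0))) (T.h (T.h (P (nat_lit 0)) (M (nat_lit 12153382404239))) (P (nat_lit 0)))))))), (T.h (T.h (T.h (P (nat_lit 1926289178347798091970222489600)) (T.h (P (nat_lit 0)) (T.h (M (nat_lit 2967819953213876012580863)) (T.h (P (nat_lit 0)) (T.h (P (nat_lit 6691717599643828224)) (T.h (P (nat_lit 0)) (M (nat_lit 905405486159)))))))) (T.h (P (nat_lit 0)) (T.h (T.h (M (nat_lit 2967819953213876012580863)) (T.h (P (nat_lit 0)) (T.h (P (nat_lit 1044491642330939392)) (T.h (P (nat_lit 0)) (P (nat_lit 25824793852896)))))) (T.h (P (nat_lit 0)) (T.h (T.h (P (nat_lit 6691717599643828224)) (T.h (P (nat_lit 0)) (P (nat_lit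 25824793852896)))) (T.h (P (nat_lit 0)) (M (nat_lit 905405486159)))))))) (T.h (T.h (P (nat_lit 0)) (T.h (T.h (P (nat_lit 0)) (T.h (M (nat_lit 101836983772912954638335)) (T.h (P (nat_lit 0)) (P (nat_lit 60655451073478656))))) (T.h (P (nat_lit 0)) (T.h (T.h (P (nat_lit 0)) (P (nat_lit 60655451073478656))) (P (nat_lit 0)))))) (T.h (T.h (T.h (P (nat_lit 2899700707510487674257408)) (T.h (P (nat_lit 0)) (T.h (M (nat_lit 60783134145811316735)) (T.h (P (nat_lit 0)) (P (nat_lit 10599934930752)))))) (T.h (P (nat_lit 0)) (T.h (T.h (M (nat_lit 60783134145811316735)) (T.h (P (nat_lit 0)) (P (nat_lit 54100397103456)))) (T.h (P (nat_lit 0)) (P (nat_lit 10599934930752)))))) (T.h (T.h (P (nat_lit 0)) (T.h (T.h (P (nat_lit 0)) (P (nat_lit 90898632649211904))) (P (nat_lit 0)))) (T.h (T.h (T.h (P (nat_lit 6322290353244209152)) (T.h (P (nat_lit 0)) (M (nat_lit 31837786800239)))) (T.h (P (nat_lit 0)) (M (nat_lit 31837786800239)))) (T.h (P (nat_lit 0)) (P (nat_lit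 12427974380448)))))))), (T.h (T.h (T.h (P (nat_lit 0)) (T.h (P (nat_lit 7898869424295032560457613312)) (T.h (P (nat_lit 0)) (T.h (M (nat_lit 25619508905965531430911)) (T.h (P (nat_lit 0)) (M (nat_lit 5990357490696191))))))) (T.h (P (nat_lit 0)) (T.h (T.h (P (nat_lit 0)) (T.h (M (nat_lit 20518604022785385693183)) (T.h (P (nat_lit 0)) (M (nat_lit 25828239031599103))))) (T.h (P (nat_lit 0)) (T.h (T.h (P (nat_lit 0)) (M (nat_lit 37244374366273535))) (P (nat_lit 0))))))) (T.h (T.h (P (nat_lit 0)) (T.h (T.h (M (nat_lit 3808010078810433310949375)) (T.h (P (nat_lit 0)) (P (nat_lit 47737917958413877248)))) (T.h (P (nat_lit 0)) (P (nat_lit 7228349994594467840))))) (T.h (T.h (T.h (P (nat_lit 0)) (T.h (P (nat_lit 66894456594855284965376)) (T.h (P (nat_lit 0)) (M (nat_lit 34505731325050879))))) (T.h (P (nat_lit 0)) (T.h (T.h (P (nat_lit 0)) (M (nat_lit 4558212600184831))) (P (nat_lit 0))))) (T.h (T.h (P (nat_lit 0)) (M (nat_lit 39699916217686949887))) (T.h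 (T.h (T.h (P (nat_lit 0)) (P (nat_lit 17205814889070592))) (P (nat_lit 0))) (P (nat_lit 0))))))), (T.h (T.h (P (nat_lit 0)) (T.h (T.h (P (nat_lit 0)) (T.h (P (nat_lit 19104918853724326135332864)) (T.h (P (nat_lit 0)) (T.h (P (nat_lit 20273340549643108352)) (T.h (P (nat_lit 0)) (M (nat_lit 7530457730135))))))) (T.h (P (nat_lit 0)) (T.h (T.h (P (nat_lit 0)) (T.h (P (nat_lit 3171995732487962624)) (T.h (P (nat_lit 0)) (M (nat_lit 18673433816239))))) (T.h (P (nat_lit 0)) (T.h (T.h (P (nat_lit 0)) (M (nat_lit 626247639559))) (P (nat_lit 0)))))))) (T.h (T.h (T.h (M (nat_lit 5597556631054564458126901247)) (T.h (P (nat_lit 0)) (T.h (P (nat_lit 22442983634990067089408)) (T.h (P (nat_lit 0)) (P (nat_lit 7271102710284288)))))) (T.h (P (nat_lit 0)) (T.h (T.h (M (nat_lit 18083747559429222957055)) (T.h (P (nat_lit 0)) (M (nat_lit 151324011429887)))) (T.h (P (nat_lit 0)) (P (nat_lit 11688105474850816)))))) (T.h (T.h (P (nat_lit 0)) (T.h (T.h (P (nat_lit 0))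 (T.h (M (nat_lit 55756772724600471551)) (T.h (P (nat_lit 0)) (M (nat_lit 13643278376943))))) (T.h (P (nat_lit 0)) (T.h (T.h (P (nat_lit 0)) (M (nat_lit 9781929771455))) (P (nat_lit 0)))))) (T.h (T.h (T.h (P (nat_lit 3308180927425781170176)) (T.h (P (nat_lit 0)) (M (nat_lit 1902109917478911)))) (T.h (P (nat_lit 0)) (M (nat_lit 19509334660710399)))) (T.h (T.h (P (nat_lit 0)) (T.h (T.h (P (nat_lit 0)) (M (nat_lit 2633111223199))) (P (nat_lit 0)))) (M (nat_lit 6835752361197567))))))), (T.h (T.h (P (nat_lit 0)) (T.h (T.h (P (nat_lit 3912186387042781318489309184)) (T.h (P (nat_lit 0)) (T.h (M (nat_lit 16069614633279035539455)) (T.h (P (nat_lit 0)) (P (nat_lit 32299067457896448)))))) (T.h (P (nat_lit 0)) (T.h (T.h (M (nat_lit 10032247509758490181631)) (T.h (P (nat_lit 0)) (P (nat_lit 19042531012182016)))) (T.h (P (nat_lit 0)) (P (nat_lit 12964061643177984))))))) (T.h (T.h (T.h (P (nat_lit 0)) (T.h (P (nat_lit 32151543346033375355863040)) (T.h (P (nat_lit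 0)) (T.h (P (nat_lit 29559669016657657856)) (T.h (P (nat_lit 0)) (P (nat_lit 4818155716864))))))) (T.h (P (nat_lit 0)) (T.h (T.h (P (nat_lit 0)) (T.h (M (nat_lit 13649441188648845311)) (T.h (P (nat_lit 0)) (M (nat_lit 1321085431679))))) (T.h (P (nat_lit 0)) (T.h (T.h (P (nat_lit 0)) (M (nat_lit 24657609824063))) (P (nat_lit 0))))))) (T.h (T.h (P (nat_lit 0)) (T.h (T.h (M (nat_lit 16069614633279035539455)) (T.h (P (nat_lit 0)) (M (nat_lit 3866233468190719)))) (T.h (P (nat_lit 0)) (P (nat_lit 19042531012182016))))) (T.h (T.h (T.h (P (nat_lit 0)) (T.h (P (nat_lit 29559669016657657856)) (T.h (P (nat_lit 0)) (P (nat_lit 2939123638080))))) (T.h (P (nat_lit 0)) (T.h (T.h (P (nat_lit 0)) (M (nat_lit 1321085431679))) (P (nat_lit 0))))) (T.h (T.h (P (nat_lit 0)) (P (nat_lit 32299067457896448))) (T.h (T.h (T.h (P (nat_lit 0)) (P (nat_lit 4818155716864))) (P (nat_lit 0))) (P (nat_lit 0)))))))), (T.h (T.h (P (nat_lit 0)) (T.h (T.h (P (nat_lit 0)) (T.h (P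 (nat_lit 34219577505904261729353728)) (T.h (P (nat_lit 0)) (T.h (M (nat_lit 101785428458033119231)) (T.h (P (nat_lit 0)) (P (nat_lit 16720912128480))))))) (T.h (P (nat_lit 0)) (T.h (T.h (P (nat_lit 0)) (T.h (P (nat_lit 62491710756640260096)) (T.h (P (nat_lit 0)) (M (nat_lit 15194470148207))))) (T.h (P (nat_lit 0)) (T.h (T.h (P (nat_lit 0)) (P (nat_lit 37160142996432))) (P (nat_lit 0)))))))) (T.h (T.h (T.h (M (nat_lit 24556072986798921191516012543)) (T.h (P (nat_lit 0)) (T.h (M (nat_lit 18238095826908243558399)) (T.h (P (nat_lit 0)) (P (nat_lit 10739564299747328)))))) (T.h (P (nat_lit 0)) (T.h (T.h (M (nat_lit 4980996676142313242623)) (T.h (P (nat_lit 0)) (M (nat_lit 24734882115387391)))) (T.h (P (nat_lit 0)) (M (nat_lit 39498243636592639)))))) (T.h (T.h (P (nat_lit 0)) (T.h (T.h (P (nat_lit 0)) (T.h (M (nat_lit 220930338352237903871)) (T.h (P (nat_lit 0)) (M (nat_lit 12048870166367))))) (T.h (P (nat_lit 0)) (T.h (T.h (P (nat_lit 0)) (P (nat_lit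 25587277519872))) (P (nat_lit 0)))))) (T.h (T.h (T.h (M (nat_lit 13721056066817709047807)) (T.h (P (nat_lit 0)) (P (nat_lit 43601158870171648)))) (T.h (P (nat_lit 0)) (P (nat_lit 48486625826766848)))) (T.h (T.h (P (nat_lit 0)) (T.h (T.h (P (nat_lit 0)) (P (nat_lit 1483797581376))) (P (nat_lit 0)))) (M (nat_lit 12786125555204095))))))), (T.h (T.h (P (nat_lit 0)) (T.h (T.h (P (nat_lit 7898869424295032560457613312)) (T.h (P (nat_lit 0)) (T.h (M (nat_lit 20518604022785385693183)) (T.h (P (nat_lit 0)) (M (nat_lit 37244374366273535)))))) (T.h (P (nat_lit 0)) (T.h (T.h (M (nat_lit 25619508905965531430911)) (T.h (P (nat_lit 0)) (M (nat_lit 25828239031599103)))) (T.h (P (nat_lit 0)) (M (nat_lit 5990357490696191))))))) (T.h (T.h (T.h (P (nat_lit 0)) (T.h (M (nat_lit 3808010078810433310949375)) (T.h (P (nat_lit 0)) (P (nat_lit 7228349994594467840))))) (T.h (P (nat_lit 0)) (T.h (T.h (P (nat_lit 0)) (P (nat_lit 47737917958413877248))) (P (nat_lit 0)))))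 (T.h (T.h (P (nat_lit 0)) (T.h (T.h (P (nat_lit 66894456594855284965376)) (T.h (P (nat_lit 0)) (M (nat_lit 4558212600184831)))) (T.h (P (nat_lit 0)) (M (nat_lit 34505731325050879))))) (T.h (T.h (T.h (P (nat_lit 0)) (M (nat_lit 39699916217686949887))) (P (nat_lit 0))) (T.h (T.h (P (nat_lit 0)) (P (nat_lit 17205814889070592))) (P (nat_lit 0))))))), (T.h (T.h (T.h (P (nat_lit 0)) (T.h (M (nat_lit 2183137425904434638667907071)) (T.h (P (nat_lit 0)) (T.h (P (nat_lit 1146563286424017174528)) (T.h (P (nat_lit 0)) (P (nat_lit 2008321073004544))))))) (T.h (P (nat_lit 0)) (T.h (T.h (P (nat_lit 0)) (T.h (M (nat_lit 27481446203344965074943)) (T.h (P (nat_lit 0)) (P (nat_lit 24685718477160448))))) (T.h (P (nat_lit 0)) (T.h (T.h (P (nat_lit 0)) (M (nat_lit 4103378252595199))) (P (nat_lit 0))))))) (T.h (T.h (P (nat_lit 0)) (T.h (T.h (P (nat_lit 11006440254763849941516288)) (T.h (P (nat_lit 0)) (T.h (P (nat_lit 17390635901448617984)) (T.h (P (nat_lit 0)) (M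 (nat_lit 170731117199)))))) (T.h (P (nat_lit 0)) (T.h (T.h (M (nat_lit 10212482558193565695)) (T.h (P (nat_lit 0)) (P (nat_lit 8038665908672)))) (T.h (P (nat_lit 0)) (P (nat_lit 11875290719936))))))) (T.h (T.h (T.h (P (nat_lit 0)) (T.h (P (nat_lit 1595751522983967981568)) (T.h (P (nat_lit 0)) (M (nat_lit 30936074729717759))))) (T.h (P (nat_lit 0)) (T.h (T.h (P (nat_lit 0)) (M (nat_lit 1654209649672191))) (P (nat_lit 0))))) (T.h (T.h (P (nat_lit 0)) (T.h (T.h (P (nat_lit 16119823565909393408)) (T.h (P (nat_lit 0)) (P (nat_lit 3403801104368)))) (T.h (P (nat_lit 0)) (M (nat_lit 267617463791))))) (T.h (T.h (T.h (P (nat_lit 0)) (M (nat_lit 10387681152090111))) (P (nat_lit 0))) (T.h (T.h (P (nat_lit 0)) (M (nat_lit 476646617775))) (P (nat_lit 0))))))))]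
def lP11_13 : List (T ℤ) := [(T.h (T.h (T.h (M (nat_lit 810696587689923214839151329279)) (T.h (P (nat_lit 0)) (T.h (M (nat_lit 3407005411166908284141567)) (T.h (P (nat_lit 0)) (T.h (P (nat_lit 558531456423428096)) (T.h (P (nat_lit 0)) (M (nat_lit 4261242224735)))))))) (T.h (P (nat_lit 0)) (T.h (T.h (P (nat_lit 37753905792173428090863616)) (T.h (P (nat_lit 0)) (T.h (M (nat_lit 69781802947230826495)) (T.h (P (nat_lit 0)) (P (nat_lit 9878987290848)))))) (T.h (P (nat_lit 0)) (T.h (T.h (M (nat_lit 3032841192715845631)) (T.h (P (nat_lit 0)) (P (nat_lit 13392062460096)))) (T.h (P (nat_lit 0)) (P (nat_lit 6720453248160)))))))) (T.h (T.h (P (nat_lit 0)) (T.h (T.h (P (nat_lit 0)) (T.h (P (nat_lit 81885751788132947197952)) (T.h (P (nat_lit 0)) (P (nat_lit 62483176773517312))))) (T.h (P (nat_lit 0)) (T.h (T.h (P (nat_lit 0)) (M (nat_lit 59976003680468991))) (P (nat_lit 0)))))) (T.h (T.h (T.h (M (nat_lit 3407005411166908284141567)) (T.h (P (nat_lit 0))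 (T.h (P (nat_lit 96046158667346608128)) (T.h (P (nat_lit 0)) (M (nat_lit 6016117140431)))))) (T.h (P (nat_lit 0)) (T.h (T.h (M (nat_lit 69781802947230826495)) (T.h (P (nat_lit 0)) (P (nat_lit 30474460727712)))) (T.h (P (nat_lit 0)) (P (nat_lit 13392062460096)))))) (T.h (T.h (P (nat_lit 0)) (T.h (T.h (P (nat_lit 0)) (P (nat_lit 62483176773517312))) (P (nat_lit 0)))) (T.h (T.h (T.h (P (nat_lit 558531456423428096)) (T.h (P (nat_lit 0)) (M (nat_lit 6016117140431)))) (T.h (P (nat_lit 0)) (P (nat_lit 9878987290848)))) (T.h (P (nat_lit 0)) (M (nat_lit 4261242224735)))))))), (T.h (T.h (T.h (P (nat_lit 0)) (T.h (P (nat_lit 3057717378853825663268290560)) (T.h (P (nat_lit 0)) (T.h (P (nat_lit 1780258074724053024768)) (T.h (P (nat_lit 0)) (P (nat_lit 4763365724028928))))))) (T.h (P (nat_lit 0)) (T.h (T.h (P (nat_lit 0)) (T.h (M (nat_lit 34371714572181032665087)) (T.h (P (nat_lit 0)) (M (nat_lit 6497396134756351))))) (T.h (P (nat_lit 0)) (T.h (T.h (P (nat_lit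 0)) (M (nat_lit 72177182128979967))) (P (nat_lit 0))))))) (T.h (T.h (P (nat_lit 0)) (T.h (T.h (M (nat_lit 12660772485101187447652351)) (T.h (P (nat_lit 0)) (M (nat_lit 45047154406338854911)))) (T.h (P (nat_lit 0)) (P (nat_lit 112093646349093830656))))) (T.h (T.h (T.h (P (nat_lit 0)) (T.h (P (nat_lit 8447562600720023683072)) (T.h (P (nat_lit 0)) (P (nat_lit 4163999934857216))))) (T.h (P (nat_lit 0)) (T.h (T.h (P (nat_lit 0)) (M (nat_lit 79412148893564927))) (P (nat_lit 0))))) (T.h (T.h (P (nat_lit 0)) (M (nat_lit 35855661794571845631))) (T.h (T.h (T.h (P (nat_lit 0)) (P (nat_lit 19241456788209664))) (P (nat_lit 0))) (P (nat_lit 0))))))), (T.h (T.h (P (nat_lit 0)) (T.h (T.h (P (nat_lit 0)) (T.h (M (nat_lit 11660322374750600744140799)) (T.h (P (nat_lit 0)) (T.h (M (nat_lit 24783823898534739967)) (T.h (P (nat_lit 0)) (P (nat_lit 2531236715616))))))) (T.h (P (nat_lit 0)) (T.h (T.h (P (nat_lit 0)) (T.h (M (nat_lit 18520378691960176639)) (T.h (P (nat_lit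 0)) (P (nat_lit 6938019607344))))) (T.h (P (nat_lit 0)) (T.h (T.h (P (nat_lit 0)) (M (nat_lit 170296125263))) (P (nat_lit 0)))))))) (T.h (T.h (T.h (P (nat_lit 6851398732185546236270477312)) (T.h (P (nat_lit 0)) (T.h (M (nat_lit 21425206370652458582015)) (T.h (P (nat_lit 0)) (M (nat_lit 12728265808248831)))))) (T.h (P (nat_lit 0)) (T.h (T.h (P (nat_lit 18348311073687137681408)) (T.h (P (nat_lit 0)) (P (nat_lit 10815406722252800)))) (T.h (P (nat_lit 0)) (M (nat_lit 17793055875203071)))))) (T.h (T.h (P (nat_lit 0)) (T.h (T.h (P (nat_lit 0)) (T.h (P (nat_lit 39841637126717308928)) (T.h (P (nat_lit 0)) (M (nat_lit 2136752720495))))) (T.h (P (nat_lit 0)) (T.h (T.h (P (nat_lit 0)) (P (nat_lit 14600707220976))) (P (nat_lit 0)))))) (T.h (T.h (T.h (M (nat_lit 4732893267667112165375)) (T.h (P (nat_lit 0)) (M (nat_lit 6016024335384575)))) (T.h (P (nat_lit 0)) (P (nat_lit 12497095545683968)))) (T.h (T.h (P (nat_lit 0)) (T.h (T.h (P (nat_lit 0)) (M (nat_lit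 129643420655))) (P (nat_lit 0)))) (P (nat_lit 10744085451014144))))))), (T.h (T.h (P (nat_lit 0)) (T.h (T.h (M (nat_lit 10791888917891311952700899327)) (T.h (P (nat_lit 0)) (T.h (P (nat_lit 39314200272193718321152)) (T.h (P (nat_lit 0)) (M (nat_lit 11019781030952959)))))) (T.h (P (nat_lit 0)) (T.h (T.h (M (nat_lit 1626752472681682042879)) (T.h (P (nat_lit 0)) (M (nat_lit 30372869421531135)))) (T.h (P (nat_lit 0)) (M (nat_lit 13647232764051455))))))) (T.h (T.h (T.h (P (nat_lit 0)) (T.h (P (nat_lit 4552137591189246866096128)) (T.h (P (nat_lit 0)) (M (nat_lit 3540785065044738047))))) (T.h (P (nat_lit 0)) (T.h (T.h (P (nat_lit 0)) (P (nat_lit 60886120603446149120))) (P (nat_lit 0))))) (T.h (T.h (P (nat_lit 0)) (T.h (T.h (P (nat_lit 39314200272193718321152)) (T.h (P (nat_lit 0)) (M (nat_lit 16427828951875583)))) (T.h (P (nat_lit 0)) (M (nat_lit 30372869421531135))))) (T.h (T.h (T.h (P (nat_lit 0)) (M (nat_lit 3540785065044738047))) (P (nat_lit 0)))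 (T.h (T.h (P (nat_lit 0)) (M (nat_lit 11019781030952959))) (P (nat_lit 0))))))), (T.h (T.h (T.h (P (nat_lit 0)) (T.h (P (nat_lit 3402341988066177641621749760)) (T.h (P (nat_lit 0)) (T.h (P (nat_lit 311281724839209992192)) (T.h (P (nat_lit 0)) (M (nat_lit 396931717021695))))))) (T.h (P (nat_lit 0)) (T.h (T.h (P (nat_lit 0)) (T.h (P (nat_lit 22557465762590185488384)) (T.h (P (nat_lit 0)) (M (nat_lit 6354815568904191))))) (T.h (P (nat_lit 0)) (T.h (T.h (P (nat_lit 0)) (M (nat_lit 723882441949183))) (P (nat_lit 0))))))) (T.h (T.h (P (nat_lit 0)) (T.h (T.h (M (nat_lit 17043484856467139858530303)) (T.h (P (nat_lit 0)) (M (nat_lit 11739852891748302847)))) (T.h (P (nat_lit 0)) (M (nat_lit 2896091241655566335))))) (T.h (T.h (T.h (P (nat_lit 0)) (T.h (M (nat_lit 19467932748244439793663)) (T.h (P (nat_lit 0)) (P (nat_lit 3918274737192960))))) (T.h (P (nat_lit 0)) (T.h (T.h (P (nat_lit 0)) (M (nat_lit 12701974667231231))) (P (nat_lit 0))))) (T.h (T.h (P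 (nat_lit 0)) (M (nat_lit 12429613524915847167))) (T.h (T.h (T.h (P (nat_lit 0)) (P (nat_lit 2379570363793408))) (P (nat_lit 0))) (P (nat_lit 0))))))), (M (nat_lit 4410501400340933843783516159999)), (P (nat_lit 0)), (P (nat_lit 0))]
def lP11_14 : List (T ℤ) := [(T.h (T.h (T.h (M (nat_lit 169053768763270514532562239487)) (T.h (P (nat_lit 0)) (T.h (M (nat_lit 86023058324020239794175)) (T.h (P (nat_lit 0)) (T.h (P (nat_lit 544121181330997248)) (T.h (P (nat_lit 0)) (M (nat_lit 1570308029599)))))))) (T.h (P (nat_lit 0)) (T.h (T.h (P (nat_lit 1217783071519776866041856)) (T.h (P (nat_lit 0)) (T.h (M (nat_lit 2804189857717420031)) (T.h (P (nat_lit 0)) (P (nat_lit 1796611202864)))))) (T.h (P (nat_lit 0)) (T.h (T.h (M (nat_lit 2581556048120774655)) (T.h (P (nat_lit 0)) (P (nat_lit 2363898821680)))) (T.h (P (nat_lit 0)) (P (nat_lit 2889973006256)))))))) (T.h (T.h (P (nat_lit 0)) (T.h (T.h (P (nat_lit 0)) (T.h (M (nat_lit 1587471070678617161727)) (T.h (P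 (nat_lit 0)) (P (nat_lit 2147752284127232))))) (T.h (P (nat_lit 0)) (T.h (T.h (P (nat_lit 0)) (P (nat_lit 3737556218937344))) (P (nat_lit 0)))))) (T.h (T.h (T.h (P (nat_lit 1217783071519776866041856)) (T.h (P (nat_lit 0)) (T.h (M (nat_lit 2804189857717420031)) (T.h (P (nat_lit 0)) (P (nat_lit 1796611202864)))))) (T.h (P (nat_lit 0)) (T.h (T.h (M (nat_lit 580103659812028415)) (T.h (P (nat_lit 0)) (P (nat_lit 2120391294816)))) (T.h (P (nat_lit 0)) (M (nat_lit 662576913727)))))) (T.h (T.h (P (nat_lit 0)) (T.h (T.h (P (nat_lit 0)) (P (nat_lit 3737556218937344))) (P (nat_lit 0)))) (T.h (T.h (T.h (M (nat_lit 2581556048120774655)) (T.h (P (nat_lit 0)) (P (nat_lit 2363898821680)))) (T.h (P (nat_lit 0)) (M (nat_lit 662576913727)))) (T.h (P (nat_lit 0)) (P (nat_lit 2889973006256)))))))), (T.h (T.h (T.h (P (nat_lit 0)) (T.h (M (nat_lit 6710137670469634890370383871)) (T.h (P (nat_lit 0)) (T.h (M (nat_lit 8784275359082477518847)) (T.h (P (nat_lit 0)) (P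 (nat_lit 7334363874459648))))))) (T.h (P (nat_lit 0)) (T.h (T.h (P (nat_lit 0)) (T.h (M (nat_lit 2995186226142658953215)) (T.h (P (nat_lit 0)) (M (nat_lit 17858861881032703))))) (T.h (P (nat_lit 0)) (T.h (T.h (P (nat_lit 0)) (M (nat_lit 8877860582555647))) (P (nat_lit 0))))))) (T.h (T.h (P (nat_lit 0)) (T.h (T.h (P (nat_lit 3147941618468942604402688)) (T.h (P (nat_lit 0)) (T.h (M (nat_lit 15443931641180848127)) (T.h (P (nat_lit 0)) (M (nat_lit 2972229967967)))))) (T.h (P (nat_lit 0)) (T.h (T.h (M (nat_lit 14522462245515952127)) (T.h (P (nat_lit 0)) (M (nat_lit 110400139431)))) (T.h (P (nat_lit 0)) (P (nat_lit 1403340751448))))))) (T.h (T.h (T.h (P (nat_lit 0)) (T.h (M (nat_lit 7145578919625811296255)) (T.h (P (nat_lit 0)) (M (nat_lit 6980069744508927))))) (T.h (P (nat_lit 0)) (T.h (T.h (P (nat_lit 0)) (M (nat_lit 5119387493728255))) (P (nat_lit 0))))) (T.h (T.h (P (nat_lit 0)) (T.h (T.h (M (nat_lit 14654403036332425215)) (T.h (P (nat_lit 0))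 (P (nat_lit 4503270309448)))) (T.h (P (nat_lit 0)) (P (nat_lit 3114189266208))))) (T.h (T.h (T.h (P (nat_lit 0)) (M (nat_lit 7390483838959615))) (P (nat_lit 0))) (T.h (T.h (P (nat_lit 0)) (P (nat_lit 1333360900360))) (P (nat_lit 0)))))))), (T.h (T.h (T.h (P (nat_lit 7955821324122392065238856892416)) (T.h (P (nat_lit 0)) (T.h (P (nat_lit 7393668704782508321931264)) (T.h (P (nat_lit 0)) (T.h (M (nat_lit 4062598691368730623)) (T.h (P (nat_lit 0)) (P (nat_lit 3652989002656)))))))) (T.h (P (nat_lit 0)) (T.h (T.h (P (nat_lit 706434760272425848406016)) (T.h (P (nat_lit 0)) (T.h (P (nat_lit 14592576984723750912)) (T.h (P (nat_lit 0)) (M (nat_lit 3133739275967)))))) (T.h (P (nat_lit 0)) (T.h (T.h (P (nat_lit 4427669298030313472)) (T.h (P (nat_lit 0)) (M (nat_lit 4410506974159)))) (T.h (P (nat_lit 0)) (M (nat_lit 2838909460015)))))))) (T.h (T.h (P (nat_lit 0)) (T.h (T.h (P (nat_lit 0)) (T.h (P (nat_lit 10114515785597969235968)) (T.h (P (nat_lit 0)) (P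 (nat_lit 123914970333184))))) (T.h (P (nat_lit 0)) (T.h (T.h (P (nat_lit 0)) (M (nat_lit 7725811003260927))) (P (nat_lit 0)))))) (T.h (T.h (T.h (P (nat_lit 706434760272425848406016)) (T.h (P (nat_lit 0)) (T.h (P (nat_lit 14592576984723750912)) (T.h (P (nat_lit 0)) (M (nat_lit 3133739275967)))))) (T.h (P (nat_lit 0)) (T.h (T.h (P (nat_lit 4485432474456817664)) (T.h (P (nat_lit 0)) (M (nat_lit 4950411610591)))) (T.h (P (nat_lit 0)) (P (nat_lit 1714226929744)))))) (T.h (T.h (P (nat_lit 0)) (T.h (T.h (P (nat_lit 0)) (M (nat_lit 7725811003260927))) (P (nat_lit 0)))) (T.h (T.h (T.h (P (nat_lit 4427669298030313472)) (T.h (P (nat_lit 0)) (M (nat_lit 4410506974159)))) (T.h (P (nat_lit 0)) (P (nat_lit 1714226929744)))) (T.h (P (nat_lit 0)) (M (nat_lit 2838909460015)))))))), (T.h (T.h (T.h (P (nat_lit 0)) (T.h (P (nat_lit 6710137670469634890370383872)) (T.h (P (nat_lit 0)) (T.h (P (nat_lit 8784275359082477518848)) (T.h (P (nat_lit 0)) (M (nat_lit 7334363874459647)))))))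 (T.h (P (nat_lit 0)) (T.h (T.h (P (nat_lit 0)) (T.h (P (nat_lit 5070382572884235124736)) (T.h (P (nat_lit 0)) (P (nat_lit 12419465812770816))))) (T.h (P (nat_lit 0)) (T.h (T.h (P (nat_lit 0)) (P (nat_lit 8134172210757632))) (P (nat_lit 0))))))) (T.h (T.h (P (nat_lit 0)) (T.h (T.h (M (nat_lit 3147941618468942604402687)) (T.h (P (nat_lit 0)) (T.h (P (nat_lit 15443931641180848128)) (T.h (P (nat_lit 0)) (P (nat_lit 2972229967968)))))) (T.h (P (nat_lit 0)) (T.h (T.h (P (nat_lit 14588432640924188672)) (T.h (P (nat_lit 0)) (M (nat_lit 2196435085007)))) (T.h (P (nat_lit 0)) (M (nat_lit 1368350825903))))))) (T.h (T.h (T.h (P (nat_lit 0)) (T.h (P (nat_lit 5070382572884235124736)) (T.h (P (nat_lit 0)) (P (nat_lit 12419465812770816))))) (T.h (P (nat_lit 0)) (T.h (T.h (P (nat_lit 0)) (P (nat_lit 5119387493728256))) (P (nat_lit 0))))) (T.h (T.h (P (nat_lit 0)) (T.h (T.h (P (nat_lit 14588432640924188672)) (T.h (P (nat_lit 0)) (M (nat_lit 2196435085007))))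 (T.h (P (nat_lit 0)) (M (nat_lit 3114189266207))))) (T.h (T.h (T.h (P (nat_lit 0)) (P (nat_lit 8134172210757632))) (P (nat_lit 0))) (T.h (T.h (P (nat_lit 0)) (M (nat_lit 1368350825903))) (P (nat_lit 0)))))))), (T.h (T.h (T.h (M (nat_lit 2330416154883494020266051239935)) (T.h (P (nat_lit 0)) (T.h (M (nat_lit 7464748788017715864403967)) (T.h (P (nat_lit 0)) (P (nat_lit 1573209784461557760)))))) (T.h (P (nat_lit 0)) (T.h (T.h (M (nat_lit 2720637866675313557110783)) (T.h (P (nat_lit 0)) (M (nat_lit 8962145797948833791)))) (T.h (P (nat_lit 0)) (M (nat_lit 1895559017283977215)))))) (T.h (T.h (P (nat_lit 0)) (T.h (T.h (P (nat_lit 0)) (T.h (M (nat_lit 7531325478474476421119)) (T.h (P (nat_lit 0)) (M (nat_lit 4058084649598975))))) (T.h (P (nat_lit 0)) (T.h (T.h (P (nat_lit 0)) (P (nat_lit 1499433018032128))) (P (nat_lit 0)))))) (T.h (T.h (T.h (M (nat_lit 2720637866675313557110783)) (T.h (P (nat_lit 0)) (M (nat_lit 8962145797948833791)))) (T.h (P (nat_lit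 0)) (M (nat_lit 758678015956746239)))) (T.h (T.h (P (nat_lit 0)) (T.h (T.h (P (nat_lit 0)) (P (nat_lit 1499433018032128))) (P (nat_lit 0)))) (M (nat_lit 1895559017283977215)))))), (P (nat_lit 0)), (P (nat_lit 0)), (T.h (T.h (P (nat_lit 0)) (T.h (T.h (P (nat_lit 0)) (T.h (P (nat_lit 8717922922079423085674496)) (T.h (P (nat_lit 0)) (T.h (P (nat_lit 6521691154386255872)) (T.h (P (nat_lit 0)) (M (nat_lit 5165935566879))))))) (T.h (P (nat_lit 0)) (T.h (T.h (P (nat_lit 0)) (T.h (M (nat_lit 193192647643365375)) (T.h (P (nat_lit 0)) (P (nat_lit 3373397582576))))) (T.h (P (nat_lit 0)) (T.h (T.h (P (nat_lit 0)) (M (nat_lit 424261102751))) (P (nat_lit 0)))))))) (T.h (T.h (T.h (P (nat_lit 532858792078950653260464128)) (T.h (P (nat_lit 0)) (T.h (M (nat_lit 4144768062586427015167)) (T.h (P (nat_lit 0)) (P (nat_lit 10195113124757504)))))) (T.h (P (nat_lit 0)) (T.h (T.h (P (nat_lit 3321691345876869447680)) (T.h (P (nat_lit 0)) (P (nat_lit 15787150469627904))))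 (T.h (P (nat_lit 0)) (P (nat_lit 2725830294568960)))))) (T.h (T.h (P (nat_lit 0)) (T.h (T.h (P (nat_lit 0)) (T.h (P (nat_lit 10942545611232116736)) (T.h (P (nat_lit 0)) (M (nat_lit 9748205673263))))) (T.h (P (nat_lit 0)) (T.h (T.h (P (nat_lit 0)) (M (nat_lit 172863613551))) (P (nat_lit 0)))))) (T.h (T.h (T.h (M (nat_lit 3075121913902334476287)) (T.h (P (nat_lit 0)) (M (nat_lit 14061861106614271)))) (T.h (P (nat_lit 0)) (P (nat_lit 15163554349252608)))) (T.h (T.h (P (nat_lit 0)) (T.h (T.h (P (nat_lit 0)) (P (nat_lit 3166704741056))) (P (nat_lit 0)))) (M (nat_lit 1221575086440447)))))))]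
def lP11_15 : List (T ℤ) := [(T.h (T.h (P (nat_lit 0)) (T.h (T.h (M (nat_lit 2041045200017422124645875711)) (T.h (P (nat_lit 0)) (T.h (M (nat_lit 46873549870490240155647)) (T.h (P (nat_lit 0)) (P (nat_lit 8579101551165440)))))) (T.h (P (nat_lit 0)) (T.h (T.h (M (nat_lit 2042390810390635216895)) (T.h (P (nat_lit 0)) (M (nat_lit 15680341622751231)))) (T.h (P (nat_lit 0)) (M (nat_lit 8272845682114559))))))) (T.h (T.h (T.h (P (nat_lit 0)) (T.h (P (nat_lit 25782059199019256752635904)) (T.h (P (nat_lit 0)) (T.h (M (nat_lit 10956008452240965631)) (T.h (P (nat_lit 0)) (M (nat_lit 12222797486679))))))) (T.h (P (nat_lit 0)) (T.h (T.h (P (nat_lit 0)) (T.h (M (nat_lit 18647863152082943999)) (T.h (P (nat_lit 0)) (M (nat_lit 3413523251103))))) (T.h (P (nat_lit 0)) (T.h (T.h (P (nat_lit 0)) (M (nat_lit 8030211623615))) (P (nat_lit 0))))))) (T.h (T.h (P (nat_lit 0)) (T.h (T.h (M (nat_lit 12557007179632082943999)) (T.h (P (nat_lit 0)) (P (nat_lit 53339500682969088))))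 (T.h (P (nat_lit 0)) (M (nat_lit 37819028543930367))))) (T.h (T.h (T.h (P (nat_lit 0)) (T.h (P (nat_lit 41803315934142660608)) (T.h (P (nat_lit 0)) (P (nat_lit 3760716746192))))) (T.h (P (nat_lit 0)) (T.h (T.h (P (nat_lit 0)) (M (nat_lit 22059246121807))) (P (nat_lit 0))))) (T.h (T.h (P (nat_lit 0)) (P (nat_lit 13841189037604864))) (T.h (T.h (T.h (P (nat_lit 0)) (M (nat_lit 13409654446439))) (P (nat_lit 0))) (P (nat_lit 0)))))))), (T.h (T.h (P (nat_lit 0)) (T.h (T.h (P (nat_lit 0)) (T.h (P (nat_lit 11006440254763849941516288)) (T.h (P (nat_lit 0)) (T.h (M (nat_lit 10212482558193565695)) (T.h (P (nat_lit 0)) (P (nat_lit 11875290719936))))))) (T.h (P (nat_lit 0)) (T.h (T.h (P (nat_lit 0)) (T.h (P (nat_lit 16119823565909393408)) (T.h (P (nat_lit 0)) (M (nat_lit 267617463791))))) (T.h (P (nat_lit 0)) (T.h (T.h (P (nat_lit 0)) (M (nat_lit 476646617775))) (P (nat_lit 0)))))))) (T.h (T.h (T.h (M (nat_lit 2183137425904434638667907071)) (T.h (P (nat_lit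 0)) (T.h (M (nat_lit 27481446203344965074943)) (T.h (P (nat_lit 0)) (M (nat_lit 4103378252595199)))))) (T.h (P (nat_lit 0)) (T.h (T.h (P (nat_lit 1595751522983967981568)) (T.h (P (nat_lit 0)) (M (nat_lit 1654209649672191)))) (T.h (P (nat_lit 0)) (M (nat_lit 10387681152090111)))))) (T.h (T.h (P (nat_lit 0)) (T.h (T.h (P (nat_lit 0)) (T.h (P (nat_lit 17390635901448617984)) (T.h (P (nat_lit 0)) (P (nat_lit 8038665908672))))) (T.h (P (nat_lit 0)) (T.h (T.h (P (nat_lit 0)) (P (nat_lit 3403801104368))) (P (nat_lit 0)))))) (T.h (T.h (T.h (P (nat_lit 1146563286424017174528)) (T.h (P (nat_lit 0)) (P (nat_lit 24685718477160448)))) (T.h (P (nat_lit 0)) (M (nat_lit 30936074729717759)))) (T.h (T.h (P (nat_lit 0)) (T.h (T.h (P (nat_lit 0)) (M (nat_lit 170731117199))) (P (nat_lit 0)))) (P (nat_lit 2008321073004544))))))), (T.h (T.h (P (nat_lit 0)) (T.h (T.h (P (nat_lit 6851398732185546236270477312)) (T.h (P (nat_lit 0)) (T.h (P (nat_lit 18348311073687137681408))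 (T.h (P (nat_lit 0)) (M (nat_lit 17793055875203071)))))) (T.h (P (nat_lit 0)) (T.h (T.h (M (nat_lit 4732893267667112165375)) (T.h (P (nat_lit 0)) (P (nat_lit 12497095545683968)))) (T.h (P (nat_lit 0)) (P (nat_lit 10744085451014144))))))) (T.h (T.h (T.h (P (nat_lit 0)) (T.h (M (nat_lit 11660322374750600744140799)) (T.h (P (nat_lit 0)) (T.h (M (nat_lit 18520378691960176639)) (T.h (P (nat_lit 0)) (M (nat_lit 170296125263))))))) (T.h (P (nat_lit 0)) (T.h (T.h (P (nat_lit 0)) (T.h (P (nat_lit 39841637126717308928)) (T.h (P (nat_lit 0)) (P (nat_lit 14600707220976))))) (T.h (P (nat_lit 0)) (T.h (T.h (P (nat_lit 0)) (M (nat_lit 129643420655))) (P (nat_lit 0))))))) (T.h (T.h (P (nat_lit 0)) (T.h (T.h (M (nat_lit 21425206370652458582015)) (T.h (P (nat_lit 0)) (P (nat_lit 10815406722252800)))) (T.h (P (nat_lit 0)) (M (nat_lit 6016024335384575))))) (T.h (T.h (T.h (P (nat_lit 0)) (T.h (M (nat_lit 24783823898534739967)) (T.h (P (nat_lit 0)) (P (nat_lit 6938019607344)))))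 (T.h (P (nat_lit 0)) (T.h (T.h (P (nat_lit 0)) (M (nat_lit 2136752720495))) (P (nat_lit 0))))) (T.h (T.h (P (nat_lit 0)) (M (nat_lit 12728265808248831))) (T.h (T.h (T.h (P (nat_lit 0)) (P (nat_lit 2531236715616))) (P (nat_lit 0))) (P (nat_lit 0)))))))), (T.h (T.h (P (nat_lit 0)) (T.h (T.h (P (nat_lit 0)) (T.h (M (nat_lit 17043484856467139858530303)) (T.h (P (nat_lit 0)) (M (nat_lit 2896091241655566335))))) (T.h (P (nat_lit 0)) (T.h (T.h (P (nat_lit 0)) (M (nat_lit 12429613524915847167))) (P (nat_lit 0)))))) (T.h (T.h (T.h (P (nat_lit 3402341988066177641621749760)) (T.h (P (nat_lit 0)) (T.h (P (nat_lit 22557465762590185488384)) (T.h (P (nat_lit 0)) (M (nat_lit 723882441949183)))))) (T.h (P (nat_lit 0)) (T.h (T.h (M (nat_lit 19467932748244439793663)) (T.h (P (nat_lit 0)) (M (nat_lit 12701974667231231)))) (T.h (P (nat_lit 0)) (P (nat_lit 2379570363793408)))))) (T.h (T.h (P (nat_lit 0)) (T.h (T.h (P (nat_lit 0)) (M (nat_lit 11739852891748302847)))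 (P (nat_lit 0)))) (T.h (T.h (T.h (P (nat_lit 311281724839209992192)) (T.h (P (nat_lit 0)) (M (nat_lit 6354815568904191)))) (T.h (P (nat_lit 0)) (P (nat_lit 3918274737192960)))) (T.h (P (nat_lit 0)) (M (nat_lit 396931717021695))))))), (P (nat_lit 0)), (P (nat_lit 0)), (T.h (T.h (T.h (P (nat_lit 3948874285046907308051137560576)) (T.h (P (nat_lit 0)) (T.h (P (nat_lit 7552215162202115614441472)) (T.h (P (nat_lit 0)) (T.h (M (nat_lit 910428337195712511)) (T.h (P (nat_lit 0)) (P (nat_lit 2641254087104)))))))) (T.h (P (nat_lit 0)) (T.h (T.h (M (nat_lit 5981896648416452031807487)) (T.h (P (nat_lit 0)) (T.h (P (nat_lit 38603713897243344896)) (T.h (P (nat_lit 0)) (M (nat_lit 10808211564847)))))) (T.h (P (nat_lit 0)) (T.h (T.h (P (nat_lit 627889490643386368)) (T.h (P (nat_lit 0)) (M (nat_lit 4052276956319)))) (T.h (P (nat_lit 0)) (P (nat_lit 289679246656)))))))) (T.h (T.h (P (nat_lit 0)) (T.h (T.h (P (nat_lit 0)) (T.h (M (nat_lit 71833471804337517756415))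 (T.h (P (nat_lit 0)) (P (nat_lit 63124008493514752))))) (T.h (P (nat_lit 0)) (T.h (T.h (P (nat_lit 0)) (M (nat_lit 52263970674245631))) (P (nat_lit 0)))))) (T.h (T.h (T.h (M (nat_lit 5981896648416452031807487)) (T.h (P (nat_lit 0)) (T.h (P (nat_lit 38603713897243344896)) (T.h (P (nat_lit 0)) (M (nat_lit 10808211564847)))))) (T.h (P (nat_lit 0)) (T.h (T.h (M (nat_lit 18121615518627528703)) (T.h (P (nat_lit 0)) (M (nat_lit 5120713503999)))) (T.h (P (nat_lit 0)) (M (nat_lit 2627629110415)))))) (T.h (T.h (P (nat_lit 0)) (T.h (T.h (P (nat_lit 0)) (M (nat_lit 52263970674245631))) (P (nat_lit 0)))) (T.h (T.h (T.h (P (nat_lit 627889490643386368)) (T.h (P (nat_lit 0)) (M (nat_lit 4052276956319)))) (T.h (P (nat_lit 0)) (M (nat_lit 2627629110415)))) (T.h (P (nat_lit 0)) (P (nat_lit 289679246656)))))))), (T.h (T.h (T.h (P (nat_lit 0)) (T.h (M (nat_lit 21081743848198747092244496383)) (T.h (P (nat_lit 0)) (T.h (P (nat_lit 37146732518772796555264)) (T.h (P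 (nat_lit 0)) (M (nat_lit 1711551646728191))))))) (T.h (P (nat_lit 0)) (T.h (T.h (P (nat_lit 0)) (T.h (M (nat_lit 18511339125649356881919)) (T.h (P (nat_lit 0)) (P (nat_lit 7806299178008576))))) (T.h (P (nat_lit 0)) (T.h (T.h (P (nat_lit 0)) (M (nat_lit 28627955815940095))) (P (nat_lit 0))))))) (T.h (T.h (P (nat_lit 0)) (T.h (T.h (P (nat_lit 97446598836776259645603840)) (T.h (P (nat_lit 0)) (T.h (M (nat_lit 136160310608659480575)) (T.h (P (nat_lit 0)) (M (nat_lit 6577547322927)))))) (T.h (P (nat_lit 0)) (T.h (T.h (P (nat_lit 79665780900895916032)) (T.h (P (nat_lit 0)) (M (nat_lit 13734403198335)))) (T.h (P (nat_lit 0)) (M (nat_lit 9661246702655))))))) (T.h (T.h (T.h (P (nat_lit 0)) (T.h (M (nat_lit 18511339125649356881919)) (T.h (P (nat_lit 0)) (P (nat_lit 7806299178008576))))) (T.h (P (nat_lit 0)) (T.h (T.h (P (nat_lit 0)) (P (nat_lit 142480724622114816))) (P (nat_lit 0))))) (T.h (T.h (P (nat_lit 0)) (T.h (T.h (P (nat_lit 79665780900895916032))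 (T.h (P (nat_lit 0)) (M (nat_lit 13734403198335)))) (T.h (P (nat_lit 0)) (P (nat_lit 28763891607312))))) (T.h (T.h (T.h (P (nat_lit 0)) (M (nat_lit 28627955815940095))) (P (nat_lit 0))) (T.h (T.h (P (nat_lit 0)) (M (nat_lit 9661246702655))) (P (nat_lit 0))))))))]
def lP11_16 : List (T ℤ) := [(T.h (T.h (T.h (P (nat_lit 19064226207899751048592792485888)) (T.h (P (nat_lit 0)) (T.h (M (nat_lit 7976328713764403012435967)) (T.h (P (nat_lit 0)) (T.h (P (nat_lit 7735288818806292480)) (T.h (P (nat_lit 0)) (M (nat_lit 8989799105503)))))))) (T.h (P (nat_lit 0)) (T.h (T.h (M (nat_lit 2789914597155631175565311)) (T.h (P (nat_lit 0)) (T.h (M (nat_lit 55491051275883118591)) (T.h (P (nat_lit 0)) (P (nat_lit 18938362288944)))))) (T.h (P (nat_lit 0)) (T.h (T.h (P (nat_lit 19864151163481882624)) (T.h (P (nat_lit 0)) (P (nat_lit 2730064683024)))) (T.h (P (nat_lit 0)) (M (nat_lit 8590884651663)))))))) (T.h (T.h (P (nat_lit 0)) (T.h (T.h (P (nat_lit 0)) (T.h (M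 (nat_lit 22547245125260600672255)) (T.h (P (nat_lit 0)) (M (nat_lit 57339280654794751))))) (T.h (P (nat_lit 0)) (T.h (T.h (P (nat_lit 0)) (P (nat_lit 80387249332420608))) (P (nat_lit 0)))))) (T.h (T.h (T.h (M (nat_lit 2789914597155631175565311)) (T.h (P (nat_lit 0)) (T.h (M (nat_lit 55491051275883118591)) (T.h (P (nat_lit 0)) (P (nat_lit 18938362288944)))))) (T.h (P (nat_lit 0)) (T.h (T.h (P (nat_lit 74588304255972540416)) (T.h (P (nat_lit 0)) (P (nat_lit 17097014017216)))) (T.h (P (nat_lit 0)) (P (nat_lit 12792387789440)))))) (T.h (T.h (P (nat_lit 0)) (T.h (T.h (P (nat_lit 0)) (P (nat_lit 80387249332420608))) (P (nat_lit 0)))) (T.h (T.h (T.h (P (nat_lit 19864151163481882624)) (T.h (P (nat_lit 0)) (P (nat_lit 2730064683024)))) (T.h (P (nat_lit 0)) (P (nat_lit 12792387789440)))) (T.h (P (nat_lit 0)) (M (nat_lit 8590884651663)))))))), (T.h (T.h (T.h (P (nat_lit 0)) (T.h (P (nat_lit 9207678008165465564223897600)) (T.h (P (nat_lit 0)) (T.h (M (nat_lit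 903874534285351321599)) (T.h (P (nat_lit 0)) (P (nat_lit 19432194459172864))))))) (T.h (P (nat_lit 0)) (T.h (T.h (P (nat_lit 0)) (T.h (P (nat_lit 42942278467776032014336)) (T.h (P (nat_lit 0)) (M (nat_lit 33890004221526015))))) (T.h (P (nat_lit 0)) (T.h (T.h (P (nat_lit 0)) (P (nat_lit 23800030921228288))) (P (nat_lit 0))))))) (T.h (T.h (P (nat_lit 0)) (T.h (T.h (M (nat_lit 13193341801702804609302527)) (T.h (P (nat_lit 0)) (T.h (M (nat_lit 78501268510736383)) (T.h (P (nat_lit 0)) (M (nat_lit 2256503267711)))))) (T.h (P (nat_lit 0)) (T.h (T.h (P (nat_lit 14593234475564400640)) (T.h (P (nat_lit 0)) (P (nat_lit 56750143501968)))) (T.h (P (nat_lit 0)) (M (nat_lit 14273235546623))))))) (T.h (T.h (T.h (P (nat_lit 0)) (T.h (P (nat_lit 42942278467776032014336)) (T.h (P (nat_lit 0)) (M (nat_lit 33890004221526015))))) (T.h (P (nat_lit 0)) (T.h (T.h (P (nat_lit 0)) (M (nat_lit 9904676616601599))) (P (nat_lit 0))))) (T.h (T.h (P (nat_lit 0)) (T.h (T.h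 (P (nat_lit 14593234475564400640)) (T.h (P (nat_lit 0)) (P (nat_lit 56750143501968)))) (T.h (P (nat_lit 0)) (P (nat_lit 15942746779296))))) (T.h (T.h (T.h (P (nat_lit 0)) (P (nat_lit 23800030921228288))) (P (nat_lit 0))) (T.h (T.h (P (nat_lit 0)) (M (nat_lit 14273235546623))) (P (nat_lit 0)))))))), (T.h (T.h (T.h (M (nat_lit 2821141812424189776576313819135)) (T.h (P (nat_lit 0)) (T.h (P (nat_lit 1472664461315796113555456)) (T.h (P (nat_lit 0)) (M (nat_lit 16551306118870073343)))))) (T.h (P (nat_lit 0)) (T.h (T.h (P (nat_lit 6379271700738892776865792)) (T.h (P (nat_lit 0)) (M (nat_lit 2541964318367285247)))) (T.h (P (nat_lit 0)) (M (nat_lit 13988109673362882559)))))) (T.h (T.h (P (nat_lit 0)) (T.h (T.h (P (nat_lit 0)) (T.h (P (nat_lit 51044592497901967507456)) (T.h (P (nat_lit 0)) (M (nat_lit 16853953130856447))))) (T.h (P (nat_lit 0)) (T.h (T.h (P (nat_lit 0)) (M (nat_lit 37105734956482559))) (P (nat_lit 0)))))) (T.h (T.h (T.h (P (nat_lit 6379271700738892776865792))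 (T.h (P (nat_lit 0)) (M (nat_lit 2541964318367285247)))) (T.h (P (nat_lit 0)) (P (nat_lit 4099261732382310400)))) (T.h (T.h (P (nat_lit 0)) (T.h (T.h (P (nat_lit 0)) (M (nat_lit 37105734956482559))) (P (nat_lit 0)))) (M (nat_lit 13988109673362882559)))))), (P (nat_lit 0)), (T.h (T.h (P (nat_lit 0)) (T.h (T.h (P (nat_lit 0)) (T.h (P (nat_lit 7366654269993492678705152)) (T.h (P (nat_lit 0)) (T.h (M (nat_lit 1649432542622777343)) (T.h (P (nat_lit 0)) (M (nat_lit 1216878352895))))))) (T.h (P (nat_lit 0)) (T.h (T.h (P (nat_lit 0)) (T.h (P (nat_lit 5065451259406843904)) (T.h (P (nat_lit 0)) (P (nat_lit 6481765230512))))) (T.h (P (nat_lit 0)) (T.h (T.h (P (nat_lit 0)) (M (nat_lit 5958552817023))) (P (nat_lit 0)))))))) (T.h (T.h (T.h (P (nat_lit 520005912465129080914706432)) (T.h (P (nat_lit 0)) (T.h (P (nat_lit 3035963256979347996672)) (T.h (P (nat_lit 0)) (M (nat_lit 7094550282567679)))))) (T.h (P (nat_lit 0)) (T.h (T.h (M (nat_lit 4430496151483948466175))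 (T.h (P (nat_lit 0)) (P (nat_lit 4191714716549120)))) (T.h (P (nat_lit 0)) (P (nat_lit 374732547620864)))))) (T.h (T.h (P (nat_lit 0)) (T.h (T.h (P (nat_lit 0)) (T.h (P (nat_lit 1835577112694620160)) (T.h (P (nat_lit 0)) (P (nat_lit 5533242513072))))) (T.h (P (nat_lit 0)) (T.h (T.h (P (nat_lit 0)) (M (nat_lit 4042099546639))) (P (nat_lit 0)))))) (T.h (T.h (T.h (M (nat_lit 2437675326396268806143)) (T.h (P (nat_lit 0)) (P (nat_lit 12776123929198592)))) (T.h (P (nat_lit 0)) (M (nat_lit 16449291526668287)))) (T.h (T.h (P (nat_lit 0)) (T.h (T.h (P (nat_lit 0)) (P (nat_lit 16666583736960))) (P (nat_lit 0)))) (M (nat_lit 1880929219117055))))))), (T.h (T.h (P (nat_lit 0)) (T.h (T.h (M (nat_lit 4325997788076474073308200959)) (T.h (P (nat_lit 0)) (T.h (P (nat_lit 120274131486706405212160)) (T.h (P (nat_lit 0)) (P (nat_lit 17165271669702656)))))) (T.h (P (nat_lit 0)) (T.h (T.h (P (nat_lit 54139420388062396416)) (T.h (P (nat_lit 0)) (M (nat_lit 6631448654446591))))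 (T.h (P (nat_lit 0)) (P (nat_lit 27928463828025344))))))) (T.h (T.h (T.h (P (nat_lit 0)) (T.h (M (nat_lit 66334760099093739265327103)) (T.h (P (nat_lit 0)) (T.h (M (nat_lit 85422015907830431743)) (T.h (P (nat_lit 0)) (M (nat_lit 8221132923559))))))) (T.h (P (nat_lit 0)) (T.h (T.h (P (nat_lit 0)) (T.h (M (nat_lit 16142157250356576255)) (T.h (P (nat_lit 0)) (M (nat_lit 36203353571047))))) (T.h (P (nat_lit 0)) (T.h (T.h (P (nat_lit 0)) (P (nat_lit 10127642086808))) (P (nat_lit 0))))))) (T.h (T.h (P (nat_lit 0)) (T.h (T.h (M (nat_lit 104629967578149246992383)) (T.h (P (nat_lit 0)) (M (nat_lit 84057130539122687)))) (T.h (P (nat_lit 0)) (M (nat_lit 29153428600389631))))) (T.h (T.h (T.h (P (nat_lit 0)) (T.h (P (nat_lit 110484256596844085248)) (T.h (P (nat_lit 0)) (M (nat_lit 2136301955687))))) (T.h (P (nat_lit 0)) (T.h (T.h (P (nat_lit 0)) (P (nat_lit 47514728483784))) (P (nat_lit 0))))) (T.h (T.h (P (nat_lit 0)) (M (nat_lit 56908870388252671))) (T.h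 (T.h (T.h (P (nat_lit 0)) (P (nat_lit 19016045810312))) (P (nat_lit 0))) (P (nat_lit 0)))))))), (T.h (T.h (P (nat_lit 0)) (T.h (T.h (P (nat_lit 0)) (T.h (M (nat_lit 29342807062120657525407743)) (T.h (P (nat_lit 0)) (T.h (M (nat_lit 33881152391093420031)) (T.h (P (nat_lit 0)) (P (nat_lit 2430406078912))))))) (T.h (P (nat_lit 0)) (T.h (T.h (P (nat_lit 0)) (T.h (M (nat_lit 52476185640811102207)) (T.h (P (nat_lit 0)) (M (nat_lit 5799475329087))))) (T.h (P (nat_lit 0)) (T.h (T.h (P (nat_lit 0)) (M (nat_lit 4090358875119))) (P (nat_lit 0)))))))) (T.h (T.h (T.h (P (nat_lit 7008052928524809512595488768)) (T.h (P (nat_lit 0)) (T.h (M (nat_lit 26182517004310499295231)) (T.h (P (nat_lit 0)) (P (nat_lit 17788239221047296)))))) (T.h (P (nat_lit 0)) (T.h (T.h (M (nat_lit 55243990109075258998783)) (T.h (P (nat_lit 0)) (P (nat_lit 50713997475201024)))) (T.h (P (nat_lit 0)) (M (nat_lit 38599890059902975)))))) (T.h (T.h (P (nat_lit 0)) (T.h (T.h (P (nat_lit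 0)) (T.h (P (nat_lit 7460855367426113536)) (T.h (P (nat_lit 0)) (M (nat_lit 15420227025503))))) (T.h (P (nat_lit 0)) (T.h (T.h (P (nat_lit 0)) (M (nat_lit 15575565458879))) (P (nat_lit 0)))))) (T.h (T.h (T.h (P (nat_lit 18299389647412453703680)) (T.h (P (nat_lit 0)) (P (nat_lit 57213418030301184)))) (T.h (P (nat_lit 0)) (M (nat_lit 14927734452568063)))) (T.h (T.h (P (nat_lit 0)) (T.h (T.h (P (nat_lit 0)) (M (nat_lit 85507121840671))) (P (nat_lit 0)))) (M (nat_lit 8585224741666815))))))), (T.h (T.h (P (nat_lit 0)) (T.h (T.h (M (nat_lit 18712955586031400322261319679)) (T.h (P (nat_lit 0)) (T.h (P (nat_lit 1151283405454542110720)) (T.h (P (nat_lit 0)) (M (nat_lit 57106896165535743)))))) (T.h (P (nat_lit 0)) (T.h (T.h (M (nat_lit 7320278441998256439295)) (T.h (P (nat_lit 0)) (P (nat_lit 38300562785894400)))) (T.h (P (nat_lit 0)) (P (nat_lit 4689307882192896))))))) (T.h (T.h (T.h (P (nat_lit 0)) (T.h (P (nat_lit 32947179101559377763500032)) (T.h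 (P (nat_lit 0)) (T.h (P (nat_lit 85935666965384265728)) (T.h (P (nat_lit 0)) (P (nat_lit 22982308377984))))))) (T.h (P (nat_lit 0)) (T.h (T.h (P (nat_lit 0)) (T.h (M (nat_lit 186697517740337397759)) (T.h (P (nat_lit 0)) (P (nat_lit 43540181590800))))) (T.h (P (nat_lit 0)) (T.h (T.h (P (nat_lit 0)) (M (nat_lit 24655972740623))) (P (nat_lit 0))))))) (T.h (T.h (P (nat_lit 0)) (T.h (T.h (M (nat_lit 26900044473385223192575)) (T.h (P (nat_lit 0)) (M (nat_lit 17460336618176511)))) (T.h (P (nat_lit 0)) (P (nat_lit 19577890010169344))))) (T.h (T.h (T.h (P (nat_lit 0)) (T.h (M (nat_lit 105206036463739731967)) (T.h (P (nat_lit 0)) (M (nat_lit 4159805982047))))) (T.h (P (nat_lit 0)) (T.h (T.h (P (nat_lit 0)) (M (nat_lit 31615551909935))) (P (nat_lit 0))))) (T.h (T.h (P (nat_lit 0)) (P (nat_lit 11213796068098048))) (T.h (T.h (T.h (P (nat_lit 0)) (P (nat_lit 19077735170736))) (P (nat_lit 0))) (P (nat_lit 0))))))))]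
def lP11_17 : List (T ℤ) := [(T.h (T.h (P (nat_lit 0)) (T.h (T.h (P (nat_lit 0)) (T.h (M (nat_lit 2462136707552895366594559)) (T.h (P (nat_lit 0)) (P (nat_lit 101505859052011257856))))) (T.h (P (nat_lit 0)) (T.h (T.h (P (nat_lit 0)) (M (nat_lit 79920016934028967935))) (P (nat_lit 0)))))) (T.h (T.h (T.h (M (nat_lit 6386671301465759067479736319)) (T.h (P (nat_lit 0)) (T.h (M (nat_lit 3629609030778259243007)) (T.h (P (nat_lit 0)) (M (nat_lit 47595234489139199)))))) (T.h (P (nat_lit 0)) (T.h (T.h (P (nat_lit 12946455893637272174592)) (T.h (P (nat_lit 0)) (M (nat_lit 123501191418445823)))) (T.h (P (nat_lit 0)) (P (nat_lit 36882563329572864)))))) (T.h (T.h (P (nat_lit 0)) (T.h (T.h (P (nat_lit 0)) (M (nat_lit 54051844648559706111))) (P (nat_lit 0)))) (T.h (T.h (T.h (M (nat_lit 10107081055646471159807)) (T.h (P (nat_lit 0)) (M (nat_lit 28599184970825727)))) (T.h (P (nat_lit 0)) (P (nat_lit 2680074285662208)))) (T.h (P (nat_lit 0)) (P (nat_lit 7087088204562432))))))),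 (T.h (T.h (T.h (P (nat_lit 1805383373760183139493006540800)) (T.h (P (nat_lit 0)) (T.h (M (nat_lit 8540221157997732972986367)) (T.h (P (nat_lit 0)) (T.h (M (nat_lit 1498452388879532031)) (T.h (P (nat_lit 0)) (P (nat_lit 1859025209360)))))))) (T.h (P (nat_lit 0)) (T.h (T.h (P (nat_lit 3690084522777037567426560)) (T.h (P (nat_lit 0)) (T.h (M (nat_lit 11864997617031184383)) (T.h (P (nat_lit 0)) (P (nat_lit 4428051570736)))))) (T.h (P (nat_lit 0)) (T.h (T.h (P (nat_lit 88907012733140992)) (T.h (P (nat_lit 0)) (M (nat_lit 2895170656607)))) (T.h (P (nat_lit 0)) (M (nat_lit 249680986047)))))))) (T.h (T.h (P (nat_lit 0)) (T.h (T.h (P (nat_lit 0)) (T.h (M (nat_lit 37504206972847376039935)) (T.h (P (nat_lit 0)) (M (nat_lit 80088418702065663))))) (T.h (P (nat_lit 0)) (T.h (T.h (P (nat_lit 0)) (P (nat_lit 33709756530884608))) (P (nat_lit 0)))))) (T.h (T.h (T.h (P (nat_lit 4993890652620834673262592)) (T.h (P (nat_lit 0)) (T.h (M (nat_lit 9640911419125792767))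 (T.h (P (nat_lit 0)) (P (nat_lit 1401575835328)))))) (T.h (P (nat_lit 0)) (T.h (T.h (P (nat_lit 44860331798839689216)) (T.h (P (nat_lit 0)) (M (nat_lit 439965457183)))) (T.h (P (nat_lit 0)) (M (nat_lit 4319818502511)))))) (T.h (T.h (P (nat_lit 0)) (T.h (T.h (P (nat_lit 0)) (P (nat_lit 35299560465694720))) (P (nat_lit 0)))) (T.h (T.h (T.h (M (nat_lit 3036770216718630911)) (T.h (P (nat_lit 0)) (M (nat_lit 5354358773199)))) (T.h (P (nat_lit 0)) (M (nat_lit 3752530883695)))) (T.h (P (nat_lit 0)) (P (nat_lit 4210600049808)))))))), (T.h (T.h (T.h (P (nat_lit 0)) (T.h (P (nat_lit 24235143008211692284553461760)) (T.h (P (nat_lit 0)) (T.h (P (nat_lit 24589038477525376827392)) (T.h (P (nat_lit 0)) (P (nat_lit 16004352843579392))))))) (T.h (P (nat_lit 0)) (T.h (T.h (P (nat_lit 0)) (T.h (P (nat_lit 40512455918296525438976)) (T.h (P (nat_lit 0)) (P (nat_lit 16253116248948736))))) (T.h (P (nat_lit 0)) (T.h (T.h (P (nat_lit 0)) (P (nat_lit 57511283962085376)))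 (P (nat_lit 0))))))) (T.h (T.h (P (nat_lit 0)) (T.h (T.h (M (nat_lit 56771713058536599282778111)) (T.h (P (nat_lit 0)) (T.h (P (nat_lit 15333078366290968576)) (T.h (P (nat_lit 0)) (M (nat_lit 9645570166751)))))) (T.h (P (nat_lit 0)) (T.h (T.h (M (nat_lit 51176284679938506751)) (T.h (P (nat_lit 0)) (M (nat_lit 51203545001799)))) (T.h (P (nat_lit 0)) (M (nat_lit 24997287141663))))))) (T.h (T.h (T.h (P (nat_lit 0)) (T.h (P (nat_lit 20536998137085764304896)) (T.h (P (nat_lit 0)) (P (nat_lit 31994126645788672))))) (T.h (P (nat_lit 0)) (T.h (T.h (P (nat_lit 0)) (M (nat_lit 81938024685469695))) (P (nat_lit 0))))) (T.h (T.h (P (nat_lit 0)) (T.h (T.h (P (nat_lit 172945268571285487616)) (T.h (P (nat_lit 0)) (P (nat_lit 54419689511192)))) (T.h (P (nat_lit 0)) (M (nat_lit 5736931511151))))) (T.h (T.h (T.h (P (nat_lit 0)) (M (nat_lit 47329797718999039))) (P (nat_lit 0))) (T.h (T.h (P (nat_lit 0)) (P (nat_lit 10802421927712))) (P (nat_lit 0)))))))), (T.h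 (T.h (T.h (P (nat_lit 32842151014520371261632185106432)) (T.h (P (nat_lit 0)) (T.h (P (nat_lit 22757292793518151329382400)) (T.h (P (nat_lit 0)) (T.h (P (nat_lit 31470075215991537664)) (T.h (P (nat_lit 0)) (P (nat_lit 2757626181520)))))))) (T.h (P (nat_lit 0)) (T.h (T.h (P (nat_lit 15737027707472489060761600)) (T.h (P (nat_lit 0)) (T.h (M (nat_lit 92305668578157264895)) (T.h (P (nat_lit 0)) (M (nat_lit 20319245333855)))))) (T.h (P (nat_lit 0)) (T.h (T.h (P (nat_lit 6569821419650154496)) (T.h (P (nat_lit 0)) (M (nat_lit 9308149357023)))) (T.h (P (nat_lit 0)) (P (nat_lit 4717712761776)))))))) (T.h (T.h (P (nat_lit 0)) (T.h (T.h (P (nat_lit 0)) (T.h (M (nat_lit 41955429074095797436415)) (T.h (P (nat_lit 0)) (P (nat_lit 143691431049625600))))) (T.h (P (nat_lit 0)) (T.h (T.h (P (nat_lit 0)) (P (nat_lit 110959577534005248))) (P (nat_lit 0)))))) (T.h (T.h (T.h (P (nat_lit 13903176738035598629011456)) (T.h (P (nat_lit 0)) (T.h (P (nat_lit 2802209404877799424))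 (T.h (P (nat_lit 0)) (M (nat_lit 12698873991999)))))) (T.h (P (nat_lit 0)) (T.h (T.h (M (nat_lit 32169268143942795263)) (T.h (P (nat_lit 0)) (M (nat_lit 2373256451103)))) (T.h (P (nat_lit 0)) (M (nat_lit 28114164544143)))))) (T.h (T.h (P (nat_lit 0)) (T.h (T.h (P (nat_lit 0)) (P (nat_lit 215954254005600256))) (P (nat_lit 0)))) (T.h (T.h (T.h (M (nat_lit 6201570032015638527)) (T.h (P (nat_lit 0)) (M (nat_lit 30869414408671)))) (T.h (P (nat_lit 0)) (M (nat_lit 33311366173231)))) (T.h (P (nat_lit 0)) (P (nat_lit 7076713795872)))))))), (T.h (T.h (T.h (P (nat_lit 0)) (T.h (P (nat_lit 20709987112943368488685142016)) (T.h (P (nat_lit 0)) (T.h (M (nat_lit 12226728054955008065535)) (T.h (P (nat_lit 0)) (M (nat_lit 9597254567264255))))))) (T.h (P (nat_lit 0)) (T.h (T.h (P (nat_lit 0)) (T.h (P (nat_lit 7565867690142954684416)) (T.h (P (nat_lit 0)) (P (nat_lit 3803225997541376))))) (T.h (P (nat_lit 0)) (T.h (T.h (P (nat_lit 0)) (P (nat_lit 16577124738301952)))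 (P (nat_lit 0))))))) (T.h (T.h (P (nat_lit 0)) (T.h (T.h (P (nat_lit 16339062276360725476671488)) (T.h (P (nat_lit 0)) (T.h (P (nat_lit 118455133166586822656)) (T.h (P (nat_lit 0)) (M (nat_lit 32978638747343)))))) (T.h (P (nat_lit 0)) (T.h (T.h (M (nat_lit 28920054586210779135)) (T.h (P (nat_lit 0)) (P (nat_lit 19164418213728)))) (T.h (P (nat_lit 0)) (M (nat_lit 14744667710495))))))) (T.h (T.h (T.h (P (nat_lit 0)) (T.h (M (nat_lit 7228361037930880303103)) (T.h (P (nat_lit 0)) (M (nat_lit 10033979821588479))))) (T.h (P (nat_lit 0)) (T.h (T.h (P (nat_lit 0)) (P (nat_lit 20091313725276160))) (P (nat_lit 0))))) (T.h (T.h (P (nat_lit 0)) (T.h (T.h (M (nat_lit 55784618800661397503)) (T.h (P (nat_lit 0)) (M (nat_lit 18355167600767)))) (T.h (P (nat_lit 0)) (M (nat_lit 1210979681807))))) (T.h (T.h (T.h (P (nat_lit 0)) (P (nat_lit 34660009035595776))) (P (nat_lit 0))) (T.h (T.h (P (nat_lit 0)) (P (nat_lit 1789989950208))) (P (nat_lit 0)))))))), (T.h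 (T.h (T.h (M (nat_lit 1399428463606298028927860342783)) (T.h (P (nat_lit 0)) (T.h (P (nat_lit 31188799190091483995701248)) (T.h (P (nat_lit 0)) (P (nat_lit 45419159932343681024)))))) (T.h (P (nat_lit 0)) (T.h (T.h (M (nat_lit 4593254592221910946283519)) (T.h (P (nat_lit 0)) (P (nat_lit 3705987022863728640)))) (T.h (P (nat_lit 0)) (P (nat_lit 20698768954552745984)))))) (T.h (T.h (P (nat_lit 0)) (T.h (T.h (P (nat_lit 0)) (T.h (P (nat_lit 72906489133737697083392)) (T.h (P (nat_lit 0)) (M (nat_lit 2164177316511743))))) (T.h (P (nat_lit 0)) (T.h (T.h (P (nat_lit 0)) (P (nat_lit 28806073981534208))) (P (nat_lit 0)))))) (T.h (T.h (T.h (P (nat_lit 8469030029506513356193792)) (T.h (P (nat_lit 0)) (P (nat_lit 9061273345915355136)))) (T.h (P (nat_lit 0)) (M (nat_lit 71254267240017559551)))) (T.h (T.h (P (nat_lit 0)) (T.h (T.h (P (nat_lit 0)) (P (nat_lit 32087466221535232))) (P (nat_lit 0)))) (P (nat_lit 40576413420092391424)))))), (T.h (T.h (P (nat_lit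 0)) (T.h (T.h (M (nat_lit 9908021319837027329787297791)) (T.h (P (nat_lit 0)) (T.h (M (nat_lit 13942455474211149316095)) (T.h (P (nat_lit 0)) (P (nat_lit 37197869960069120)))))) (T.h (P (nat_lit 0)) (T.h (T.h (P (nat_lit 21446166577966298955776)) (T.h (P (nat_lit 0)) (P (nat_lit 52779697729929216)))) (T.h (P (nat_lit 0)) (M (nat_lit 18898354271649791))))))) (T.h (T.h (T.h (P (nat_lit 0)) (T.h (P (nat_lit 6403901020158053750669312)) (T.h (P (nat_lit 0)) (T.h (P (nat_lit 19507689566234476544)) (T.h (P (nat_lit 0)) (P (nat_lit 13305965072760))))))) (T.h (P (nat_lit 0)) (T.h (T.h (P (nat_lit 0)) (T.h (M (nat_lit 39976436551934541823)) (T.h (P (nat_lit 0)) (M (nat_lit 59881358043223))))) (T.h (P (nat_lit 0)) (T.h (T.h (P (nat_lit 0)) (P (nat_lit 4933331930408))) (P (nat_lit 0))))))) (T.h (T.h (P (nat_lit 0)) (T.h (T.h (M (nat_lit 15457232324273507401727)) (T.h (P (nat_lit 0)) (P (nat_lit 54662532518019072)))) (T.h (P (nat_lit 0)) (P (nat_lit 11719727643590656)))))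 (T.h (T.h (T.h (P (nat_lit 0)) (T.h (M (nat_lit 8240740358858735615)) (T.h (P (nat_lit 0)) (M (nat_lit 7938952499351))))) (T.h (P (nat_lit 0)) (T.h (T.h (P (nat_lit 0)) (M (nat_lit 24591960685415))) (P (nat_lit 0))))) (T.h (T.h (P (nat_lit 0)) (M (nat_lit 53149254943571967))) (T.h (T.h (T.h (P (nat_lit 0)) (M (nat_lit 169352831255))) (P (nat_lit 0))) (P (nat_lit 0)))))))), (T.h (T.h (P (nat_lit 0)) (T.h (T.h (P (nat_lit 0)) (T.h (P (nat_lit 7865899919476522420797440)) (T.h (P (nat_lit 0)) (T.h (M (nat_lit 3498396641633763327)) (T.h (P (nat_lit 0)) (M (nat_lit 12630029022015))))))) (T.h (P (nat_lit 0)) (T.h (T.h (P (nat_lit 0)) (T.h (M (nat_lit 11235669516019040255)) (T.h (P (nat_lit 0)) (M (nat_lit 8330620752495))))) (T.h (P (nat_lit 0)) (T.h (T.h (P (nat_lit 0)) (P (nat_lit 6242673269728))) (P (nat_lit 0)))))))) (T.h (T.h (T.h (M (nat_lit 12452254323610020689479729151)) (T.h (P (nat_lit 0)) (T.h (M (nat_lit 39218625971067440594943)) (T.h (P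 (nat_lit 0)) (M (nat_lit 2756505685409791)))))) (T.h (P (nat_lit 0)) (T.h (T.h (M (nat_lit 39234350592631613947903)) (T.h (P (nat_lit 0)) (P (nat_lit 82532722095079424)))) (T.h (P (nat_lit 0)) (P (nat_lit 59915926495035392)))))) (T.h (T.h (P (nat_lit 0)) (T.h (T.h (P (nat_lit 0)) (T.h (P (nat_lit 20130967365741445120)) (T.h (P (nat_lit 0)) (M (nat_lit 9752408207359))))) (T.h (P (nat_lit 0)) (T.h (T.h (P (nat_lit 0)) (M (nat_lit 4962204969679))) (P (nat_lit 0)))))) (T.h (T.h (T.h (M (nat_lit 18277019159480705744895)) (T.h (P (nat_lit 0)) (M (nat_lit 54177182514069503)))) (T.h (P (nat_lit 0)) (P (nat_lit 73585763175677952)))) (T.h (T.h (P (nat_lit 0)) (T.h (T.h (P (nat_lit 0)) (M (nat_lit 71507717290127))) (P (nat_lit 0)))) (M (nat_lit 9415947579293695)))))))]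
def lP11_18 : List (T ℤ) := [(T.h (T.h (P (nat_lit 0)) (T.h (T.h (P (nat_lit 19470708716258580401542397952)) (T.h (P (nat_lit 0)) (T.h (P (nat_lit 30081290909301648392192)) (T.h (P (nat_lit 0)) (P (nat_lit 62056682338779136)))))) (T.h (P (nat_lit 0)) (T.h (T.h (M (nat_lit 19079442946917136334847)) (T.h (P (nat_lit 0)) (M (nat_lit 2810869064204287)))) (T.h (P (nat_lit 0)) (M (nat_lit 17356590775074815))))))) (T.h (T.h (T.h (P (nat_lit 0)) (T.h (P (nat_lit 11014789779854207137873920)) (T.h (P (nat_lit 0)) (T.h (M (nat_lit 32849534989266583551)) (T.h (P (nat_lit 0)) (M (nat_lit 5675464891727))))))) (T.h (P (nat_lit 0)) (T.h (T.h (P (nat_lit 0)) (T.h (P (nat_lit 84183061920430948352)) (T.h (P (nat_lit 0)) (P (nat_lit 26314315662576))))) (T.h (P (nat_lit 0)) (T.h (T.h (P (nat_lit 0)) (M (nat_lit 7967120059199))) (P (nat_lit 0))))))) (T.h (T.h (P (nat_lit 0)) (T.h (T.h (P (nat_lit 15728162775566582284288)) (T.h (P (nat_lit 0)) (P (nat_lit 7864429919764480))))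 (T.h (P (nat_lit 0)) (M (nat_lit 3100557080494079))))) (T.h (T.h (T.h (P (nat_lit 0)) (T.h (M (nat_lit 57285252125078585343)) (T.h (P (nat_lit 0)) (M (nat_lit 4274270458319))))) (T.h (P (nat_lit 0)) (T.h (T.h (P (nat_lit 0)) (P (nat_lit 32858856124992))) (P (nat_lit 0))))) (T.h (T.h (P (nat_lit 0)) (P (nat_lit 30114903116939264))) (T.h (T.h (T.h (P (nat_lit 0)) (M (nat_lit 9731436838991))) (P (nat_lit 0))) (P (nat_lit 0)))))))), (T.h (T.h (P (nat_lit 0)) (T.h (T.h (P (nat_lit 0)) (T.h (P (nat_lit 18056985184817746683101184)) (T.h (P (nat_lit 0)) (P (nat_lit 15808050916747116544))))) (T.h (P (nat_lit 0)) (T.h (T.h (P (nat_lit 0)) (P (nat_lit 49284618759121666048))) (P (nat_lit 0)))))) (T.h (T.h (T.h (P (nat_lit 1941720731082695133592813568)) (T.h (P (nat_lit 0)) (T.h (P (nat_lit 701827677506762702848)) (T.h (P (nat_lit 0)) (P (nat_lit 13706613194915840)))))) (T.h (P (nat_lit 0)) (T.h (T.h (P (nat_lit 26945039925992287633408)) (T.h (P (nat_lit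 0)) (M (nat_lit 83502761245294591)))) (T.h (P (nat_lit 0)) (P (nat_lit 20647454293393408)))))) (T.h (T.h (P (nat_lit 0)) (T.h (T.h (P (nat_lit 0)) (M (nat_lit 46579266720809091071))) (P (nat_lit 0)))) (T.h (T.h (T.h (M (nat_lit 29704318109370374160383)) (T.h (P (nat_lit 0)) (P (nat_lit 54111275068309504)))) (T.h (P (nat_lit 0)) (P (nat_lit 33493411881435136)))) (T.h (P (nat_lit 0)) (M (nat_lit 22741810993119231))))))), (T.h (T.h (T.h (P (nat_lit 17487934428072267589535253135360)) (T.h (P (nat_lit 0)) (T.h (M (nat_lit 5115580566046666089562111)) (T.h (P (nat_lit 0)) (T.h (M (nat_lit 4476077744232333311)) (T.h (P (nat_lit 0)) (M (nat_lit 4974807978671)))))))) (T.h (P (nat_lit 0)) (T.h (T.h (P (nat_lit 3405504347900306815713280)) (T.h (P (nat_lit 0)) (T.h (P (nat_lit 16915251563889426432)) (T.h (P (nat_lit 0)) (M (nat_lit 9541535052335)))))) (T.h (P (nat_lit 0)) (T.h (T.h (M (nat_lit 194954281965584383)) (T.h (P (nat_lit 0)) (M (nat_lit 3067565725055))))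 (T.h (P (nat_lit 0)) (M (nat_lit 841910550095)))))))) (T.h (T.h (P (nat_lit 0)) (T.h (T.h (P (nat_lit 0)) (T.h (M (nat_lit 1159106777032331100159)) (T.h (P (nat_lit 0)) (P (nat_lit 68599225140936704))))) (T.h (P (nat_lit 0)) (T.h (T.h (P (nat_lit 0)) (M (nat_lit 28545725357064191))) (P (nat_lit 0)))))) (T.h (T.h (T.h (P (nat_lit 3738535489435886610808832)) (T.h (P (nat_lit 0)) (T.h (P (nat_lit 41779584602443087872)) (T.h (P (nat_lit 0)) (M (nat_lit 974849383871)))))) (T.h (P (nat_lit 0)) (T.h (T.h (M (nat_lit 43221148870325043199)) (T.h (P (nat_lit 0)) (P (nat_lit 3598095398016)))) (T.h (P (nat_lit 0)) (P (nat_lit 15738449462064)))))) (T.h (T.h (P (nat_lit 0)) (T.h (T.h (P (nat_lit 0)) (M (nat_lit 3663597815037951))) (P (nat_lit 0)))) (T.h (T.h (T.h (P (nat_lit 33195567503774842880)) (T.h (P (nat_lit 0)) (P (nat_lit 17195691032800)))) (T.h (P (nat_lit 0)) (P (nat_lit 3450585787040)))) (T.h (P (nat_lit 0)) (M (nat_lit 9293895593023)))))))),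 (T.h (T.h (T.h (P (nat_lit 0)) (T.h (M (nat_lit 17704674254613374955245535231)) (T.h (P (nat_lit 0)) (T.h (M (nat_lit 18453949334484821213183)) (T.h (P (nat_lit 0)) (M (nat_lit 2042040104189951))))))) (T.h (P (nat_lit 0)) (T.h (T.h (P (nat_lit 0)) (T.h (P (nat_lit 13367314397544824438784)) (T.h (P (nat_lit 0)) (P (nat_lit 60983721372450816))))) (T.h (P (nat_lit 0)) (T.h (T.h (P (nat_lit 0)) (M (nat_lit 57291299511795711))) (P (nat_lit 0))))))) (T.h (T.h (P (nat_lit 0)) (T.h (T.h (P (nat_lit 22559255131153660985212928)) (T.h (P (nat_lit 0)) (T.h (M (nat_lit 181088701225520594943)) (T.h (P (nat_lit 0)) (P (nat_lit 1354154160720)))))) (T.h (P (nat_lit 0)) (T.h (T.h (P (nat_lit 43971332064680083456)) (T.h (P (nat_lit 0)) (P (nat_lit 40187984740848)))) (T.h (P (nat_lit 0)) (P (nat_lit 36989846871168))))))) (T.h (T.h (T.h (P (nat_lit 0)) (T.h (M (nat_lit 39663302197560702140415)) (T.h (P (nat_lit 0)) (P (nat_lit 37585134534787072))))) (T.h (P (nat_lit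 0)) (T.h (T.h (P (nat_lit 0)) (M (nat_lit 13919475393134591))) (P (nat_lit 0))))) (T.h (T.h (P (nat_lit 0)) (T.h (T.h (M (nat_lit 126569252356567859199)) (T.h (P (nat_lit 0)) (M (nat_lit 14185622886863)))) (T.h (P (nat_lit 0)) (M (nat_lit 8256450540863))))) (T.h (T.h (T.h (P (nat_lit 0)) (M (nat_lit 1988701508501503))) (P (nat_lit 0))) (T.h (T.h (P (nat_lit 0)) (P (nat_lit 19252148844096))) (P (nat_lit 0)))))))), (T.h (T.h (T.h (M (nat_lit 4376565908111054628920471060479)) (T.h (P (nat_lit 0)) (T.h (P (nat_lit 2426189989763040132726784)) (T.h (P (nat_lit 0)) (P (nat_lit 16557050731849318400)))))) (T.h (P (nat_lit 0)) (T.h (T.h (P (nat_lit 41657778960101413843107840)) (T.h (P (nat_lit 0)) (M (nat_lit 6688298021576245247)))) (T.h (P (nat_lit 0)) (P (nat_lit 53440538140462809088)))))) (T.h (T.h (P (nat_lit 0)) (T.h (T.h (P (nat_lit 0)) (T.h (P (nat_lit 71765123986171206041600)) (T.h (P (nat_lit 0)) (M (nat_lit 11587415939514367))))) (T.h (P (nat_lit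 0)) (T.h (T.h (P (nat_lit 0)) (M (nat_lit 34024804449157119))) (P (nat_lit 0)))))) (T.h (T.h (T.h (P (nat_lit 14231867605236094332829696)) (T.h (P (nat_lit 0)) (M (nat_lit 72511119179431018495)))) (T.h (P (nat_lit 0)) (P (nat_lit 15655914783830441984)))) (T.h (T.h (P (nat_lit 0)) (T.h (T.h (P (nat_lit 0)) (M (nat_lit 14773472188334079))) (P (nat_lit 0)))) (P (nat_lit 43446440039001620480)))))), (T.h (T.h (P (nat_lit 0)) (T.h (T.h (P (nat_lit 11313976674552367672482332672)) (T.h (P (nat_lit 0)) (T.h (P (nat_lit 19364957739904718077952)) (T.h (P (nat_lit 0)) (P (nat_lit 4063298060451840)))))) (T.h (P (nat_lit 0)) (T.h (T.h (P (nat_lit 8332338091939801858048)) (T.h (P (nat_lit 0)) (M (nat_lit 4670380306137087)))) (T.h (P (nat_lit 0)) (P (nat_lit 2381733355126784))))))) (T.h (T.h (T.h (P (nat_lit 0)) (T.h (M (nat_lit 9744612519320344909053951)) (T.h (P (nat_lit 0)) (T.h (P (nat_lit 9667191310800388096)) (T.h (P (nat_lit 0)) (M (nat_lit 10532954572847)))))))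 (T.h (P (nat_lit 0)) (T.h (T.h (P (nat_lit 0)) (T.h (P (nat_lit 15404681006925479936)) (T.h (P (nat_lit 0)) (P (nat_lit 29450906897184))))) (T.h (P (nat_lit 0)) (T.h (T.h (P (nat_lit 0)) (P (nat_lit 1843978334112))) (P (nat_lit 0))))))) (T.h (T.h (P (nat_lit 0)) (T.h (T.h (P (nat_lit 33718085873639784185856)) (T.h (P (nat_lit 0)) (P (nat_lit 167049185427456)))) (T.h (P (nat_lit 0)) (M (nat_lit 4380692289847295))))) (T.h (T.h (T.h (P (nat_lit 0)) (T.h (P (nat_lit 34102908446612389888)) (T.h (P (nat_lit 0)) (P (nat_lit 4857184123440))))) (T.h (P (nat_lit 0)) (T.h (T.h (P (nat_lit 0)) (P (nat_lit 22906366434768))) (P (nat_lit 0))))) (T.h (T.h (P (nat_lit 0)) (P (nat_lit 36005077282291712))) (T.h (T.h (T.h (P (nat_lit 0)) (M (nat_lit 6476982625583))) (P (nat_lit 0))) (P (nat_lit 0)))))))), (T.h (T.h (P (nat_lit 0)) (T.h (T.h (P (nat_lit 0)) (T.h (M (nat_lit 29704257341568327306182655)) (T.h (P (nat_lit 0)) (M (nat_lit 48285275319487692799)))))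 (T.h (P (nat_lit 0)) (T.h (T.h (P (nat_lit 0)) (P (nat_lit 109197555107438264320))) (P (nat_lit 0)))))) (T.h (T.h (T.h (P (nat_lit 6460059366920003304890040320)) (T.h (P (nat_lit 0)) (T.h (M (nat_lit 11020370147524416110591)) (T.h (P (nat_lit 0)) (P (nat_lit 21621027152003072)))))) (T.h (P (nat_lit 0)) (T.h (T.h (M (nat_lit 11814248809590847176703)) (T.h (P (nat_lit 0)) (M (nat_lit 92114123560796159)))) (T.h (P (nat_lit 0)) (M (nat_lit 72901064570929151)))))) (T.h (T.h (P (nat_lit 0)) (T.h (T.h (P (nat_lit 0)) (M (nat_lit 56787007298087157759))) (P (nat_lit 0)))) (T.h (T.h (T.h (P (nat_lit 2091539799563263016960)) (T.h (P (nat_lit 0)) (P (nat_lit 8082274672050176)))) (T.h (P (nat_lit 0)) (M (nat_lit 12852211703660543)))) (T.h (P (nat_lit 0)) (P (nat_lit 4366434007007232))))))), (T.h (T.h (T.h (M (nat_lit 3740987061095588908554208149503)) (T.h (P (nat_lit 0)) (T.h (P (nat_lit 6371836791430659931373568)) (T.h (P (nat_lit 0)) (P (nat_lit 4555080799610732544))))))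 (T.h (P (nat_lit 0)) (T.h (T.h (M (nat_lit 6728416557359817807626239)) (T.h (P (nat_lit 0)) (P (nat_lit 938978445570867200)))) (T.h (P (nat_lit 0)) (M (nat_lit 6702443274973478911)))))) (T.h (T.h (P (nat_lit 0)) (T.h (T.h (P (nat_lit 0)) (T.h (P (nat_lit 17990970770476507332608)) (T.h (P (nat_lit 0)) (M (nat_lit 18646462584619007))))) (T.h (P (nat_lit 0)) (T.h (T.h (P (nat_lit 0)) (M (nat_lit 12485061215027199))) (P (nat_lit 0)))))) (T.h (T.h (T.h (M (nat_lit 5433840824042394268729343)) (T.h (P (nat_lit 0)) (P (nat_lit 1290952850234408960)))) (T.h (P (nat_lit 0)) (M (nat_lit 21405234359835820031)))) (T.h (T.h (P (nat_lit 0)) (T.h (T.h (P (nat_lit 0)) (M (nat_lit 15460406335799295))) (P (nat_lit 0)))) (M (nat_lit 22334308507541569535))))))]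
def lP11_19 : List (T ℤ) := [(P (nat_lit 0)), (P (nat_lit 0)), (T.h (T.h (P (nat_lit 0)) (T.h (T.h (P (nat_lit 532858792078950653260464128)) (T.h (P (nat_lit 0)) (T.h (M (nat_lit 4144768062586427015167)) (T.h (P (nat_lit 0)) (P (nat_lit 10195113124757504)))))) (T.h (P (nat_lit 0)) (T.h (T.h (M (nat_lit 3075121913902334476287)) (T.h (P (nat_lit 0)) (M (nat_lit 14061861106614271)))) (T.h (P (nat_lit 0)) (M (nat_lit 1221575086440447))))))) (T.h (T.h (T.h (P (nat_lit 0)) (T.h (P (nat_lit 8717922922079423085674496)) (T.h (P (nat_lit 0)) (T.h (P (nat_lit 6521691154386255872)) (T.h (P (nat_lit 0)) (M (nat_lit 5165935566879))))))) (T.h (P (nat_lit 0)) (T.h (T.h (P (nat_lit 0)) (T.h (P (nat_lit 10942545611232116736)) (T.h (P (nat_lit 0)) (M (nat_lit 9748205673263))))) (T.h (P (nat_lit 0)) (T.h (T.h (P (nat_lit 0)) (P (nat_lit 3166704741056))) (P (nat_lit 0))))))) (T.h (T.h (P (nat_lit 0)) (T.h (T.h (P (nat_lit 3321691345876869447680)) (T.h (P (nat_lit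 0)) (P (nat_lit 15787150469627904)))) (T.h (P (nat_lit 0)) (P (nat_lit 15163554349252608))))) (T.h (T.h (T.h (P (nat_lit 0)) (T.h (M (nat_lit 193192647643365375)) (T.h (P (nat_lit 0)) (P (nat_lit 3373397582576))))) (T.h (P (nat_lit 0)) (T.h (T.h (P (nat_lit 0)) (M (nat_lit 172863613551))) (P (nat_lit 0))))) (T.h (T.h (P (nat_lit 0)) (P (nat_lit 2725830294568960))) (T.h (T.h (T.h (P (nat_lit 0)) (M (nat_lit 424261102751))) (P (nat_lit 0))) (P (nat_lit 0)))))))), (T.h (T.h (P (nat_lit 0)) (T.h (T.h (P (nat_lit 0)) (T.h (P (nat_lit 4215725895776875352948736)) (T.h (P (nat_lit 0)) (T.h (P (nat_lit 33868761651432390656)) (T.h (P (nat_lit 0)) (P (nat_lit 966839890088))))))) (T.h (P (nat_lit 0)) (T.h (T.h (P (nat_lit 0)) (T.h (P (nat_lit 29294307247426371584)) (T.h (P (nat_lit 0)) (P (nat_lit 4797394601552))))) (T.h (P (nat_lit 0)) (T.h (T.h (P (nat_lit 0)) (P (nat_lit 2467984298904))) (P (nat_lit 0)))))))) (T.h (T.h (T.h (M (nat_lit 8105240833316528014414053375))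 (T.h (P (nat_lit 0)) (T.h (M (nat_lit 18612874587945052405759)) (T.h (P (nat_lit 0)) (P (nat_lit 23898006275555328)))))) (T.h (P (nat_lit 0)) (T.h (T.h (P (nat_lit 20407429106314850074624)) (T.h (P (nat_lit 0)) (M (nat_lit 21479489433075711)))) (T.h (P (nat_lit 0)) (P (nat_lit 18185428906213376)))))) (T.h (T.h (P (nat_lit 0)) (T.h (T.h (P (nat_lit 0)) (T.h (M (nat_lit 23926501528834146303)) (T.h (P (nat_lit 0)) (M (nat_lit 19419484670495))))) (T.h (P (nat_lit 0)) (T.h (T.h (P (nat_lit 0)) (P (nat_lit 17916783817936))) (P (nat_lit 0)))))) (T.h (T.h (T.h (P (nat_lit 6157605607908443160576)) (T.h (P (nat_lit 0)) (M (nat_lit 5484856430657535)))) (T.h (P (nat_lit 0)) (P (nat_lit 13934158588248064)))) (T.h (T.h (P (nat_lit 0)) (T.h (T.h (P (nat_lit 0)) (P (nat_lit 2892398064512))) (P (nat_lit 0)))) (M (nat_lit 14652418540830719))))))), (T.h (T.h (P (nat_lit 0)) (T.h (T.h (M (nat_lit 2183137425904434638667907071)) (T.h (P (nat_lit 0)) (T.h (M (nat_lit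 27481446203344965074943)) (T.h (P (nat_lit 0)) (M (nat_lit 4103378252595199)))))) (T.h (P (nat_lit 0)) (T.h (T.h (P (nat_lit 1146563286424017174528)) (T.h (P (nat_lit 0)) (P (nat_lit 24685718477160448)))) (T.h (P (nat_lit 0)) (P (nat_lit 2008321073004544))))))) (T.h (T.h (T.h (P (nat_lit 0)) (T.h (P (nat_lit 11006440254763849941516288)) (T.h (P (nat_lit 0)) (T.h (M (nat_lit 10212482558193565695)) (T.h (P (nat_lit 0)) (P (nat_lit 11875290719936))))))) (T.h (P (nat_lit 0)) (T.h (T.h (P (nat_lit 0)) (T.h (P (nat_lit 17390635901448617984)) (T.h (P (nat_lit 0)) (P (nat_lit 8038665908672))))) (T.h (P (nat_lit 0)) (T.h (T.h (P (nat_lit 0)) (M (nat_lit 170731117199))) (P (nat_lit 0))))))) (T.h (T.h (P (nat_lit 0)) (T.h (T.h (P (nat_lit 1595751522983967981568)) (T.h (P (nat_lit 0)) (M (nat_lit 1654209649672191)))) (T.h (P (nat_lit 0)) (M (nat_lit 30936074729717759))))) (T.h (T.h (T.h (P (nat_lit 0)) (T.h (P (nat_lit 16119823565909393408)) (T.h (P (nat_lit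 0)) (M (nat_lit 267617463791))))) (T.h (P (nat_lit 0)) (T.h (T.h (P (nat_lit 0)) (P (nat_lit 3403801104368))) (P (nat_lit 0))))) (T.h (T.h (P (nat_lit 0)) (M (nat_lit 10387681152090111))) (T.h (T.h (T.h (P (nat_lit 0)) (M (nat_lit 476646617775))) (P (nat_lit 0))) (P (nat_lit 0)))))))), (T.h (T.h (P (nat_lit 0)) (T.h (T.h (P (nat_lit 0)) (T.h (M (nat_lit 11660322374750600744140799)) (T.h (P (nat_lit 0)) (T.h (M (nat_lit 18520378691960176639)) (T.h (P (nat_lit 0)) (M (nat_lit 170296125263))))))) (T.h (P (nat_lit 0)) (T.h (T.h (P (nat_lit 0)) (T.h (M (nat_lit 24783823898534739967)) (T.h (P (nat_lit 0)) (P (nat_lit 6938019607344))))) (T.h (P (nat_lit 0)) (T.h (T.h (P (nat_lit 0)) (P (nat_lit 2531236715616))) (P (nat_lit 0)))))))) (T.h (T.h (T.h (P (nat_lit 6851398732185546236270477312)) (T.h (P (nat_lit 0)) (T.h (P (nat_lit 18348311073687137681408)) (T.h (P (nat_lit 0)) (M (nat_lit 17793055875203071)))))) (T.h (P (nat_lit 0)) (T.h (T.h (M (nat_lit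 21425206370652458582015)) (T.h (P (nat_lit 0)) (P (nat_lit 10815406722252800)))) (T.h (P (nat_lit 0)) (M (nat_lit 12728265808248831)))))) (T.h (T.h (P (nat_lit 0)) (T.h (T.h (P (nat_lit 0)) (T.h (P (nat_lit 39841637126717308928)) (T.h (P (nat_lit 0)) (P (nat_lit 14600707220976))))) (T.h (P (nat_lit 0)) (T.h (T.h (P (nat_lit 0)) (M (nat_lit 2136752720495))) (P (nat_lit 0)))))) (T.h (T.h (T.h (M (nat_lit 4732893267667112165375)) (T.h (P (nat_lit 0)) (P (nat_lit 12497095545683968)))) (T.h (P (nat_lit 0)) (M (nat_lit 6016024335384575)))) (T.h (T.h (P (nat_lit 0)) (T.h (T.h (P (nat_lit 0)) (M (nat_lit 129643420655))) (P (nat_lit 0)))) (P (nat_lit 10744085451014144))))))), (T.h (T.h (P (nat_lit 0)) (T.h (T.h (P (nat_lit 3402341988066177641621749760)) (T.h (P (nat_lit 0)) (T.h (P (nat_lit 22557465762590185488384)) (T.h (P (nat_lit 0)) (M (nat_lit 723882441949183)))))) (T.h (P (nat_lit 0)) (T.h (T.h (P (nat_lit 311281724839209992192)) (T.h (P (nat_lit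 0)) (M (nat_lit 6354815568904191)))) (T.h (P (nat_lit 0)) (M (nat_lit 396931717021695))))))) (T.h (T.h (T.h (P (nat_lit 0)) (T.h (M (nat_lit 17043484856467139858530303)) (T.h (P (nat_lit 0)) (M (nat_lit 2896091241655566335))))) (T.h (P (nat_lit 0)) (T.h (T.h (P (nat_lit 0)) (M (nat_lit 11739852891748302847))) (P (nat_lit 0))))) (T.h (T.h (P (nat_lit 0)) (T.h (T.h (M (nat_lit 19467932748244439793663)) (T.h (P (nat_lit 0)) (M (nat_lit 12701974667231231)))) (T.h (P (nat_lit 0)) (P (nat_lit 3918274737192960))))) (T.h (T.h (T.h (P (nat_lit 0)) (M (nat_lit 12429613524915847167))) (P (nat_lit 0))) (T.h (T.h (P (nat_lit 0)) (P (nat_lit 2379570363793408))) (P (nat_lit 0))))))), (P (nat_lit 0))]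
def lP11_20 : List (T ℤ) := [(P (nat_lit 0)), (T.h (T.h (T.h (P (nat_lit 0)) (T.h (M (nat_lit 12852879613821572345757695)) (T.h (P (nat_lit 0)) (T.h (P (nat_lit 637446587506065670144)) (T.h (P (nat_lit 0)) (M (nat_lit 659354132676607))))))) (T.h (P (nat_lit 0)) (T.h (T.h (P (nat_lit 0)) (T.h (M (nat_lit 285728088897521451007)) (T.h (P (nat_lit 0)) (M (nat_lit 2387430420054015))))) (T.h (P (nat_lit 0)) (T.h (T.h (P (nat_lit 0)) (M (nat_lit 9820380577136639))) (P (nat_lit 0))))))) (T.h (T.h (P (nat_lit 0)) (T.h (T.h (M (nat_lit 1351268652085930406969343)) (T.h (P (nat_lit 0)) (T.h (M (nat_lit 9106968498537496575)) (T.h (P (nat_lit 0)) (P (nat_lit 13499878995904)))))) (T.h (P (nat_lit 0)) (T.h (T.h (M (nat_lit 1456239894979411967)) (T.h (P (nat_lit 0)) (P (nat_lit 5706106126624)))) (T.h (P (nat_lit 0)) (M (nat_lit 792617250143))))))) (T.h (T.h (T.h (P (nat_lit 0)) (T.h (M (nat_lit 285728088897521451007)) (T.h (P (nat_lit 0)) (M (nat_lit 2387430420054015)))))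 (T.h (P (nat_lit 0)) (T.h (T.h (P (nat_lit 0)) (M (nat_lit 11595435753078783))) (P (nat_lit 0))))) (T.h (T.h (P (nat_lit 0)) (T.h (T.h (M (nat_lit 1456239894979411967)) (T.h (P (nat_lit 0)) (P (nat_lit 5706106126624)))) (T.h (P (nat_lit 0)) (P (nat_lit 3108367647936))))) (T.h (T.h (T.h (P (nat_lit 0)) (M (nat_lit 9820380577136639))) (P (nat_lit 0))) (T.h (T.h (P (nat_lit 0)) (M (nat_lit 792617250143))) (P (nat_lit 0)))))))), (T.h (T.h (T.h (M (nat_lit 2248041611807955158416687628287)) (T.h (P (nat_lit 0)) (T.h (M (nat_lit 22355860403255416230772735)) (T.h (P (nat_lit 0)) (T.h (M (nat_lit 12117609771951980543)) (T.h (P (nat_lit 0)) (M (nat_lit 1351169527407)))))))) (T.h (P (nat_lit 0)) (T.h (T.h (P (nat_lit 8374704790183218652381184)) (T.h (P (nat_lit 0)) (T.h (P (nat_lit 137051546616728649728)) (T.h (P (nat_lit 0)) (P (nat_lit 20065619356656)))))) (T.h (P (nat_lit 0)) (T.h (T.h (P (nat_lit 5507644551881293824)) (T.h (P (nat_lit 0)) (P (nat_lit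 13148422638384)))) (T.h (P (nat_lit 0)) (M (nat_lit 2898256773599)))))))) (T.h (T.h (P (nat_lit 0)) (T.h (T.h (P (nat_lit 0)) (T.h (M (nat_lit 101383502450596276862975)) (T.h (P (nat_lit 0)) (P (nat_lit 87137507642114048))))) (T.h (P (nat_lit 0)) (T.h (T.h (P (nat_lit 0)) (M (nat_lit 92831690739744767))) (P (nat_lit 0)))))) (T.h (T.h (T.h (P (nat_lit 22998856298373897317777408)) (T.h (P (nat_lit 0)) (T.h (M (nat_lit 48302908811373445119)) (T.h (P (nat_lit 0)) (M (nat_lit 24310713215903)))))) (T.h (P (nat_lit 0)) (T.h (T.h (P (nat_lit 1095462655537184768)) (T.h (P (nat_lit 0)) (M (nat_lit 18248556499983)))) (T.h (P (nat_lit 0)) (P (nat_lit 42287790739840)))))) (T.h (T.h (P (nat_lit 0)) (T.h (T.h (P (nat_lit 0)) (P (nat_lit 12424329035710464))) (P (nat_lit 0)))) (T.h (T.h (T.h (M (nat_lit 1809775932169256959)) (T.h (P (nat_lit 0)) (M (nat_lit 6163918761887)))) (T.h (P (nat_lit 0)) (M (nat_lit 18279454299727)))) (T.h (P (nat_lit 0)) (P (nat_lit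 4974677902512)))))))), (T.h (T.h (T.h (P (nat_lit 0)) (T.h (P (nat_lit 3912186387042781318489309184)) (T.h (P (nat_lit 0)) (T.h (M (nat_lit 10032247509758490181631)) (T.h (P (nat_lit 0)) (P (nat_lit 12964061643177984))))))) (T.h (P (nat_lit 0)) (T.h (T.h (P (nat_lit 0)) (T.h (M (nat_lit 16069614633279035539455)) (T.h (P (nat_lit 0)) (P (nat_lit 19042531012182016))))) (T.h (P (nat_lit 0)) (T.h (T.h (P (nat_lit 0)) (P (nat_lit 32299067457896448))) (P (nat_lit 0))))))) (T.h (T.h (P (nat_lit 0)) (T.h (T.h (P (nat_lit 32151543346033375355863040)) (T.h (P (nat_lit 0)) (T.h (M (nat_lit 13649441188648845311)) (T.h (P (nat_lit 0)) (M (nat_lit 24657609824063)))))) (T.h (P (nat_lit 0)) (T.h (T.h (P (nat_lit 29559669016657657856)) (T.h (P (nat_lit 0)) (M (nat_lit 1321085431679)))) (T.h (P (nat_lit 0)) (P (nat_lit 4818155716864))))))) (T.h (T.h (T.h (P (nat_lit 0)) (T.h (M (nat_lit 16069614633279035539455)) (T.h (P (nat_lit 0)) (P (nat_lit 19042531012182016)))))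 (T.h (P (nat_lit 0)) (T.h (T.h (P (nat_lit 0)) (M (nat_lit 3866233468190719))) (P (nat_lit 0))))) (T.h (T.h (P (nat_lit 0)) (T.h (T.h (P (nat_lit 29559669016657657856)) (T.h (P (nat_lit 0)) (M (nat_lit 1321085431679)))) (T.h (P (nat_lit 0)) (P (nat_lit 2939123638080))))) (T.h (T.h (T.h (P (nat_lit 0)) (P (nat_lit 32299067457896448))) (P (nat_lit 0))) (T.h (T.h (P (nat_lit 0)) (P (nat_lit 4818155716864))) (P (nat_lit 0)))))))), (T.h (T.h (T.h (M (nat_lit 810696587689923214839151329279)) (T.h (P (nat_lit 0)) (T.h (P (nat_lit 37753905792173428090863616)) (T.h (P (nat_lit 0)) (T.h (M (nat_lit 3032841192715845631)) (T.h (P (nat_lit 0)) (P (nat_lit 6720453248160)))))))) (T.h (P (nat_lit 0)) (T.h (T.h (M (nat_lit 3407005411166908284141567)) (T.h (P (nat_lit 0)) (T.h (M (nat_lit 69781802947230826495)) (T.h (P (nat_lit 0)) (P (nat_lit 13392062460096)))))) (T.h (P (nat_lit 0)) (T.h (T.h (P (nat_lit 558531456423428096)) (T.h (P (nat_lit 0)) (P (nat_lit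 9878987290848)))) (T.h (P (nat_lit 0)) (M (nat_lit 4261242224735)))))))) (T.h (T.h (P (nat_lit 0)) (T.h (T.h (P (nat_lit 0)) (T.h (P (nat_lit 81885751788132947197952)) (T.h (P (nat_lit 0)) (M (nat_lit 59976003680468991))))) (T.h (P (nat_lit 0)) (T.h (T.h (P (nat_lit 0)) (P (nat_lit 62483176773517312))) (P (nat_lit 0)))))) (T.h (T.h (T.h (M (nat_lit 3407005411166908284141567)) (T.h (P (nat_lit 0)) (T.h (M (nat_lit 69781802947230826495)) (T.h (P (nat_lit 0)) (P (nat_lit 13392062460096)))))) (T.h (P (nat_lit 0)) (T.h (T.h (P (nat_lit 96046158667346608128)) (T.h (P (nat_lit 0)) (P (nat_lit 30474460727712)))) (T.h (P (nat_lit 0)) (M (nat_lit 6016117140431)))))) (T.h (T.h (P (nat_lit 0)) (T.h (T.h (P (nat_lit 0)) (P (nat_lit 62483176773517312))) (P (nat_lit 0)))) (T.h (T.h (T.h (P (nat_lit 558531456423428096)) (T.h (P (nat_lit 0)) (P (nat_lit 9878987290848)))) (T.h (P (nat_lit 0)) (M (nat_lit 6016117140431)))) (T.h (P (nat_lit 0)) (M (nat_lit 4261242224735)))))))),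 (T.h (T.h (T.h (P (nat_lit 0)) (T.h (M (nat_lit 10791888917891311952700899327)) (T.h (P (nat_lit 0)) (T.h (M (nat_lit 1626752472681682042879)) (T.h (P (nat_lit 0)) (M (nat_lit 13647232764051455))))))) (T.h (P (nat_lit 0)) (T.h (T.h (P (nat_lit 0)) (T.h (P (nat_lit 39314200272193718321152)) (T.h (P (nat_lit 0)) (M (nat_lit 30372869421531135))))) (T.h (P (nat_lit 0)) (T.h (T.h (P (nat_lit 0)) (M (nat_lit 11019781030952959))) (P (nat_lit 0))))))) (T.h (T.h (P (nat_lit 0)) (T.h (T.h (P (nat_lit 4552137591189246866096128)) (T.h (P (nat_lit 0)) (P (nat_lit 60886120603446149120)))) (T.h (P (nat_lit 0)) (M (nat_lit 3540785065044738047))))) (T.h (T.h (T.h (P (nat_lit 0)) (T.h (P (nat_lit 39314200272193718321152)) (T.h (P (nat_lit 0)) (M (nat_lit 30372869421531135))))) (T.h (P (nat_lit 0)) (T.h (T.h (P (nat_lit 0)) (M (nat_lit 16427828951875583))) (P (nat_lit 0))))) (T.h (T.h (P (nat_lit 0)) (M (nat_lit 3540785065044738047))) (T.h (T.h (T.h (P (nat_lit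 0)) (M (nat_lit 11019781030952959))) (P (nat_lit 0))) (P (nat_lit 0))))))), (P (nat_lit 0)), (T.h (T.h (P (nat_lit 0)) (T.h (T.h (P (nat_lit 520005912465129080914706432)) (T.h (P (nat_lit 0)) (T.h (P (nat_lit 3035963256979347996672)) (T.h (P (nat_lit 0)) (M (nat_lit 7094550282567679)))))) (T.h (P (nat_lit 0)) (T.h (T.h (M (nat_lit 2437675326396268806143)) (T.h (P (nat_lit 0)) (P (nat_lit 12776123929198592)))) (T.h (P (nat_lit 0)) (M (nat_lit 1880929219117055))))))) (T.h (T.h (T.h (P (nat_lit 0)) (T.h (P (nat_lit 7366654269993492678705152)) (T.h (P (nat_lit 0)) (T.h (M (nat_lit 1649432542622777343)) (T.h (P (nat_lit 0)) (M (nat_lit 1216878352895))))))) (T.h (P (nat_lit 0)) (T.h (T.h (P (nat_lit 0)) (T.h (P (nat_lit 1835577112694620160)) (T.h (P (nat_lit 0)) (P (nat_lit 5533242513072))))) (T.h (P (nat_lit 0)) (T.h (T.h (P (nat_lit 0)) (P (nat_lit 16666583736960))) (P (nat_lit 0))))))) (T.h (T.h (P (nat_lit 0)) (T.h (T.h (M (nat_lit 4430496151483948466175))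 (T.h (P (nat_lit 0)) (P (nat_lit 4191714716549120)))) (T.h (P (nat_lit 0)) (M (nat_lit 16449291526668287))))) (T.h (T.h (T.h (P (nat_lit 0)) (T.h (P (nat_lit 5065451259406843904)) (T.h (P (nat_lit 0)) (P (nat_lit 6481765230512))))) (T.h (P (nat_lit 0)) (T.h (T.h (P (nat_lit 0)) (M (nat_lit 4042099546639))) (P (nat_lit 0))))) (T.h (T.h (P (nat_lit 0)) (P (nat_lit 374732547620864))) (T.h (T.h (T.h (P (nat_lit 0)) (M (nat_lit 5958552817023))) (P (nat_lit 0))) (P (nat_lit 0))))))))]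
def lP11_21 : List (T ℤ) := [(T.h (T.h (P (nat_lit 0)) (T.h (T.h (P (nat_lit 0)) (T.h (M (nat_lit 66334760099093739265327103)) (T.h (P (nat_lit 0)) (T.h (M (nat_lit 85422015907830431743)) (T.h (P (nat_lit 0)) (M (nat_lit 8221132923559))))))) (T.h (P (nat_lit 0)) (T.h (T.h (P (nat_lit 0)) (T.h (P (nat_lit 110484256596844085248)) (T.h (P (nat_lit 0)) (M (nat_lit 2136301955687))))) (T.h (P (nat_lit 0)) (T.h (T.h (P (nat_lit 0)) (P (nat_lit 19016045810312))) (P (nat_lit 0)))))))) (T.h (T.h (T.h (M (nat_lit 4325997788076474073308200959)) (T.h (P (nat_lit 0)) (T.h (P (nat_lit 120274131486706405212160)) (T.h (P (nat_lit 0)) (P (nat_lit 17165271669702656)))))) (T.h (P (nat_lit 0)) (T.h (T.h (M (nat_lit 104629967578149246992383)) (T.h (P (nat_lit 0)) (M (nat_lit 84057130539122687)))) (T.h (P (nat_lit 0)) (M (nat_lit 56908870388252671)))))) (T.h (T.h (P (nat_lit 0)) (T.h (T.h (P (nat_lit 0)) (T.h (M (nat_lit 16142157250356576255)) (T.h (P (nat_lit 0))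 (M (nat_lit 36203353571047))))) (T.h (P (nat_lit 0)) (T.h (T.h (P (nat_lit 0)) (P (nat_lit 47514728483784))) (P (nat_lit 0)))))) (T.h (T.h (T.h (P (nat_lit 54139420388062396416)) (T.h (P (nat_lit 0)) (M (nat_lit 6631448654446591)))) (T.h (P (nat_lit 0)) (M (nat_lit 29153428600389631)))) (T.h (T.h (P (nat_lit 0)) (T.h (T.h (P (nat_lit 0)) (P (nat_lit 10127642086808))) (P (nat_lit 0)))) (P (nat_lit 27928463828025344))))))), (T.h (T.h (P (nat_lit 0)) (T.h (T.h (P (nat_lit 7008052928524809512595488768)) (T.h (P (nat_lit 0)) (T.h (M (nat_lit 26182517004310499295231)) (T.h (P (nat_lit 0)) (P (nat_lit 17788239221047296)))))) (T.h (P (nat_lit 0)) (T.h (T.h (P (nat_lit 18299389647412453703680)) (T.h (P (nat_lit 0)) (P (nat_lit 57213418030301184)))) (T.h (P (nat_lit 0)) (M (nat_lit 8585224741666815))))))) (T.h (T.h (T.h (P (nat_lit 0)) (T.h (M (nat_lit 29342807062120657525407743)) (T.h (P (nat_lit 0)) (T.h (M (nat_lit 33881152391093420031)) (T.h (P (nat_lit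 0)) (P (nat_lit 2430406078912))))))) (T.h (P (nat_lit 0)) (T.h (T.h (P (nat_lit 0)) (T.h (P (nat_lit 7460855367426113536)) (T.h (P (nat_lit 0)) (M (nat_lit 15420227025503))))) (T.h (P (nat_lit 0)) (T.h (T.h (P (nat_lit 0)) (M (nat_lit 85507121840671))) (P (nat_lit 0))))))) (T.h (T.h (P (nat_lit 0)) (T.h (T.h (M (nat_lit 55243990109075258998783)) (T.h (P (nat_lit 0)) (P (nat_lit 50713997475201024)))) (T.h (P (nat_lit 0)) (M (nat_lit 14927734452568063))))) (T.h (T.h (T.h (P (nat_lit 0)) (T.h (M (nat_lit 52476185640811102207)) (T.h (P (nat_lit 0)) (M (nat_lit 5799475329087))))) (T.h (P (nat_lit 0)) (T.h (T.h (P (nat_lit 0)) (M (nat_lit 15575565458879))) (P (nat_lit 0))))) (T.h (T.h (P (nat_lit 0)) (M (nat_lit 38599890059902975))) (T.h (T.h (T.h (P (nat_lit 0)) (M (nat_lit 4090358875119))) (P (nat_lit 0))) (P (nat_lit 0)))))))), (T.h (T.h (P (nat_lit 0)) (T.h (T.h (P (nat_lit 0)) (T.h (P (nat_lit 32947179101559377763500032)) (T.h (P (nat_lit 0))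 (T.h (P (nat_lit 85935666965384265728)) (T.h (P (nat_lit 0)) (P (nat_lit 22982308377984))))))) (T.h (P (nat_lit 0)) (T.h (T.h (P (nat_lit 0)) (T.h (M (nat_lit 105206036463739731967)) (T.h (P (nat_lit 0)) (M (nat_lit 4159805982047))))) (T.h (P (nat_lit 0)) (T.h (T.h (P (nat_lit 0)) (P (nat_lit 19077735170736))) (P (nat_lit 0)))))))) (T.h (T.h (T.h (M (nat_lit 18712955586031400322261319679)) (T.h (P (nat_lit 0)) (T.h (P (nat_lit 1151283405454542110720)) (T.h (P (nat_lit 0)) (M (nat_lit 57106896165535743)))))) (T.h (P (nat_lit 0)) (T.h (T.h (M (nat_lit 26900044473385223192575)) (T.h (P (nat_lit 0)) (M (nat_lit 17460336618176511)))) (T.h (P (nat_lit 0)) (P (nat_lit 11213796068098048)))))) (T.h (T.h (P (nat_lit 0)) (T.h (T.h (P (nat_lit 0)) (T.h (M (nat_lit 186697517740337397759)) (T.h (P (nat_lit 0)) (P (nat_lit 43540181590800))))) (T.h (P (nat_lit 0)) (T.h (T.h (P (nat_lit 0)) (M (nat_lit 31615551909935))) (P (nat_lit 0)))))) (T.h (T.h (T.h (M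 (nat_lit 7320278441998256439295)) (T.h (P (nat_lit 0)) (P (nat_lit 38300562785894400)))) (T.h (P (nat_lit 0)) (P (nat_lit 19577890010169344)))) (T.h (T.h (P (nat_lit 0)) (T.h (T.h (P (nat_lit 0)) (M (nat_lit 24655972740623))) (P (nat_lit 0)))) (P (nat_lit 4689307882192896))))))), (T.h (T.h (P (nat_lit 0)) (T.h (T.h (M (nat_lit 6386671301465759067479736319)) (T.h (P (nat_lit 0)) (T.h (M (nat_lit 3629609030778259243007)) (T.h (P (nat_lit 0)) (M (nat_lit 47595234489139199)))))) (T.h (P (nat_lit 0)) (T.h (T.h (M (nat_lit 10107081055646471159807)) (T.h (P (nat_lit 0)) (M (nat_lit 28599184970825727)))) (T.h (P (nat_lit 0)) (P (nat_lit 7087088204562432))))))) (T.h (T.h (T.h (P (nat_lit 0)) (T.h (M (nat_lit 2462136707552895366594559)) (T.h (P (nat_lit 0)) (P (nat_lit 101505859052011257856))))) (T.h (P (nat_lit 0)) (T.h (T.h (P (nat_lit 0)) (M (nat_lit 54051844648559706111))) (P (nat_lit 0))))) (T.h (T.h (P (nat_lit 0)) (T.h (T.h (P (nat_lit 12946455893637272174592))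 (T.h (P (nat_lit 0)) (M (nat_lit 123501191418445823)))) (T.h (P (nat_lit 0)) (P (nat_lit 2680074285662208))))) (T.h (T.h (T.h (P (nat_lit 0)) (M (nat_lit 79920016934028967935))) (P (nat_lit 0))) (T.h (T.h (P (nat_lit 0)) (P (nat_lit 36882563329572864))) (P (nat_lit 0))))))), (T.h (T.h (T.h (P (nat_lit 0)) (T.h (P (nat_lit 1065717584157901306520928256)) (T.h (P (nat_lit 0)) (T.h (M (nat_lit 6150243827804668952575)) (T.h (P (nat_lit 0)) (M (nat_lit 2443150172880895))))))) (T.h (P (nat_lit 0)) (T.h (T.h (P (nat_lit 0)) (T.h (M (nat_lit 823076716709557567487)) (T.h (P (nat_lit 0)) (P (nat_lit 1101693242638336))))) (T.h (P (nat_lit 0)) (T.h (T.h (P (nat_lit 0)) (P (nat_lit 12920943419326464))) (P (nat_lit 0))))))) (T.h (T.h (P (nat_lit 0)) (T.h (T.h (P (nat_lit 17435845844158846171348992)) (T.h (P (nat_lit 0)) (T.h (P (nat_lit 21885091222464233472)) (T.h (P (nat_lit 0)) (P (nat_lit 6333409482112)))))) (T.h (P (nat_lit 0)) (T.h (T.h (P (nat_lit 6328498506742890496))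 (T.h (P (nat_lit 0)) (M (nat_lit 9921069286815)))) (T.h (P (nat_lit 0)) (M (nat_lit 5590196669631))))))) (T.h (T.h (T.h (P (nat_lit 0)) (T.h (M (nat_lit 823076716709557567487)) (T.h (P (nat_lit 0)) (P (nat_lit 1101693242638336))))) (T.h (P (nat_lit 0)) (T.h (T.h (P (nat_lit 0)) (P (nat_lit 31574300939255808))) (P (nat_lit 0))))) (T.h (T.h (P (nat_lit 0)) (T.h (T.h (P (nat_lit 6328498506742890496)) (T.h (P (nat_lit 0)) (M (nat_lit 9921069286815)))) (T.h (P (nat_lit 0)) (P (nat_lit 6746795165152))))) (T.h (T.h (T.h (P (nat_lit 0)) (P (nat_lit 12920943419326464))) (P (nat_lit 0))) (T.h (T.h (P (nat_lit 0)) (M (nat_lit 5590196669631))) (P (nat_lit 0)))))))), (T.h (T.h (T.h (P (nat_lit 643504866920314132892930277376)) (T.h (P (nat_lit 0)) (T.h (M (nat_lit 22548810995387412653277183)) (T.h (P (nat_lit 0)) (T.h (M (nat_lit 23659869810251005951)) (T.h (P (nat_lit 0)) (M (nat_lit 19059435213695)))))))) (T.h (P (nat_lit 0)) (T.h (T.h (P (nat_lit 5292644011309270938157056))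 (T.h (P (nat_lit 0)) (T.h (M (nat_lit 16580740980643201023)) (T.h (P (nat_lit 0)) (P (nat_lit 8239360222256)))))) (T.h (P (nat_lit 0)) (T.h (T.h (P (nat_lit 543950504833581056)) (T.h (P (nat_lit 0)) (M (nat_lit 22986034918431)))) (T.h (P (nat_lit 0)) (M (nat_lit 1812697402783)))))))) (T.h (T.h (P (nat_lit 0)) (T.h (T.h (P (nat_lit 0)) (T.h (P (nat_lit 406440972447018463002624)) (T.h (P (nat_lit 0)) (P (nat_lit 3866116181065728))))) (T.h (P (nat_lit 0)) (T.h (T.h (P (nat_lit 0)) (M (nat_lit 220872738824781823))) (P (nat_lit 0)))))) (T.h (T.h (T.h (P (nat_lit 5292644011309270938157056)) (T.h (P (nat_lit 0)) (T.h (M (nat_lit 16580740980643201023)) (T.h (P (nat_lit 0)) (P (nat_lit 8239360222256)))))) (T.h (P (nat_lit 0)) (T.h (T.h (P (nat_lit 94516834338085011456)) (T.h (P (nat_lit 0)) (M (nat_lit 71703681206943)))) (T.h (P (nat_lit 0)) (M (nat_lit 21174955727999)))))) (T.h (T.h (P (nat_lit 0)) (T.h (T.h (P (nat_lit 0)) (M (nat_lit 220872738824781823)))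 (P (nat_lit 0)))) (T.h (T.h (T.h (P (nat_lit 543950504833581056)) (T.h (P (nat_lit 0)) (M (nat_lit 22986034918431)))) (T.h (P (nat_lit 0)) (M (nat_lit 21174955727999)))) (T.h (P (nat_lit 0)) (M (nat_lit 1812697402783)))))))), (T.h (T.h (T.h (P (nat_lit 0)) (T.h (M (nat_lit 20538233795411172101623644159)) (T.h (P (nat_lit 0)) (T.h (M (nat_lit 38847164891809445838847)) (T.h (P (nat_lit 0)) (M (nat_lit 22848537304596479))))))) (T.h (P (nat_lit 0)) (T.h (T.h (P (nat_lit 0)) (T.h (M (nat_lit 52567281883338057449471)) (T.h (P (nat_lit 0)) (P (nat_lit 25658936914165760))))) (T.h (P (nat_lit 0)) (T.h (T.h (P (nat_lit 0)) (P (nat_lit 71650480214310912))) (P (nat_lit 0))))))) (T.h (T.h (P (nat_lit 0)) (T.h (T.h (M (nat_lit 6281080670574655041437695)) (T.h (P (nat_lit 0)) (T.h (P (nat_lit 5480662928585654272)) (T.h (P (nat_lit 0)) (M (nat_lit 142673972345855)))))) (T.h (P (nat_lit 0)) (T.h (T.h (M (nat_lit 20641407165368631295)) (T.h (P (nat_lit 0)) (M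 (nat_lit 26157080190079)))) (T.h (P (nat_lit 0)) (M (nat_lit 17785999854447))))))) (T.h (T.h (T.h (P (nat_lit 0)) (T.h (M (nat_lit 52567281883338057449471)) (T.h (P (nat_lit 0)) (P (nat_lit 25658936914165760))))) (T.h (P (nat_lit 0)) (T.h (T.h (P (nat_lit 0)) (P (nat_lit 168373863489503232))) (P (nat_lit 0))))) (T.h (T.h (P (nat_lit 0)) (T.h (T.h (M (nat_lit 20641407165368631295)) (T.h (P (nat_lit 0)) (M (nat_lit 26157080190079)))) (T.h (P (nat_lit 0)) (M (nat_lit 16126006577407))))) (T.h (T.h (T.h (P (nat_lit 0)) (P (nat_lit 71650480214310912))) (P (nat_lit 0))) (T.h (T.h (P (nat_lit 0)) (M (nat_lit 17785999854447))) (P (nat_lit 0)))))))), (T.h (T.h (T.h (P (nat_lit 3852578356695596183940444979200)) (T.h (P (nat_lit 0)) (T.h (M (nat_lit 5935639906427752025161727)) (T.h (P (nat_lit 0)) (T.h (P (nat_lit 13383435199287656448)) (T.h (P (nat_lit 0)) (M (nat_lit 1810810972319)))))))) (T.h (P (nat_lit 0)) (T.h (T.h (M (nat_lit 68119245703388338323455))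 (T.h (P (nat_lit 0)) (T.h (M (nat_lit 59738642503480377343)) (T.h (P (nat_lit 0)) (P (nat_lit 36424728783648)))))) (T.h (P (nat_lit 0)) (T.h (T.h (P (nat_lit 13014007952888037376)) (T.h (P (nat_lit 0)) (M (nat_lit 6012992947343)))) (T.h (P (nat_lit 0)) (P (nat_lit 11522568894288)))))))) (T.h (T.h (P (nat_lit 0)) (T.h (T.h (P (nat_lit 0)) (T.h (M (nat_lit 203673967545825909276671)) (T.h (P (nat_lit 0)) (P (nat_lit 121310902146957312))))) (T.h (P (nat_lit 0)) (T.h (T.h (P (nat_lit 0)) (P (nat_lit 151554083722690560))) (P (nat_lit 0)))))) (T.h (T.h (T.h (M (nat_lit 68119245703388338323455)) (T.h (P (nat_lit 0)) (T.h (M (nat_lit 59738642503480377343)) (T.h (P (nat_lit 0)) (P (nat_lit 36424728783648)))))) (T.h (P (nat_lit 0)) (T.h (T.h (M (nat_lit 121566268291622633471)) (T.h (P (nat_lit 0)) (P (nat_lit 108200794206912)))) (T.h (P (nat_lit 0)) (M (nat_lit 21237851869487)))))) (T.h (T.h (P (nat_lit 0)) (T.h (T.h (P (nat_lit 0)) (P (nat_lit 151554083722690560)))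 (P (nat_lit 0)))) (T.h (T.h (T.h (P (nat_lit 13014007952888037376)) (T.h (P (nat_lit 0)) (M (nat_lit 6012992947343)))) (T.h (P (nat_lit 0)) (M (nat_lit 21237851869487)))) (T.h (P (nat_lit 0)) (P (nat_lit 11522568894288))))))))]
def lP11_22 : List (T ℤ) := [(T.h (T.h (T.h (P (nat_lit 0)) (T.h (P (nat_lit 15797738848590065120915226624)) (T.h (P (nat_lit 0)) (T.h (M (nat_lit 51239017811931062861823)) (T.h (P (nat_lit 0)) (M (nat_lit 11980714981392383))))))) (T.h (P (nat_lit 0)) (T.h (T.h (P (nat_lit 0)) (T.h (P (nat_lit 46375852572069899272192)) (T.h (P (nat_lit 0)) (M (nat_lit 60333970356649983))))) (T.h (P (nat_lit 0)) (T.h (T.h (P (nat_lit 0)) (M (nat_lit 20038559477202943))) (P (nat_lit 0))))))) (T.h (T.h (P (nat_lit 0)) (T.h (T.h (M (nat_lit 7616020157620866621898751)) (T.h (P (nat_lit 0)) (P (nat_lit 95475835916827754496)))) (T.h (P (nat_lit 0)) (M (nat_lit 32471566223092482047))))) (T.h (T.h (T.h (P (nat_lit 0)) (T.h (P (nat_lit 46375852572069899272192))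 (T.h (P (nat_lit 0)) (M (nat_lit 60333970356649983))))) (T.h (P (nat_lit 0)) (T.h (T.h (P (nat_lit 0)) (M (nat_lit 9116425200369663))) (P (nat_lit 0))))) (T.h (T.h (P (nat_lit 0)) (M (nat_lit 32471566223092482047))) (T.h (T.h (T.h (P (nat_lit 0)) (M (nat_lit 20038559477202943))) (P (nat_lit 0))) (P (nat_lit 0))))))), (T.h (T.h (P (nat_lit 0)) (T.h (T.h (P (nat_lit 0)) (T.h (M (nat_lit 5312428250162915675471871)) (T.h (P (nat_lit 0)) (T.h (M (nat_lit 27310346575542222847)) (T.h (P (nat_lit 0)) (M (nat_lit 10801532053095))))))) (T.h (P (nat_lit 0)) (T.h (T.h (P (nat_lit 0)) (T.h (M (nat_lit 64622865852735160319)) (T.h (P (nat_lit 0)) (M (nat_lit 15748739387719))))) (T.h (P (nat_lit 0)) (T.h (T.h (P (nat_lit 0)) (P (nat_lit 18335573816552))) (P (nat_lit 0)))))))) (T.h (T.h (T.h (M (nat_lit 10991474950359710380029116415)) (T.h (P (nat_lit 0)) (T.h (P (nat_lit 8567976820326266830848)) (T.h (P (nat_lit 0)) (P (nat_lit 1044368633987072)))))) (T.h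 (P (nat_lit 0)) (T.h (T.h (P (nat_lit 41040909782363121123328)) (T.h (P (nat_lit 0)) (P (nat_lit 46568866846343168)))) (T.h (P (nat_lit 0)) (P (nat_lit 6521370142867456)))))) (T.h (T.h (P (nat_lit 0)) (T.h (T.h (P (nat_lit 0)) (T.h (M (nat_lit 100038009156592992255)) (T.h (P (nat_lit 0)) (P (nat_lit 24519505450928))))) (T.h (P (nat_lit 0)) (T.h (T.h (P (nat_lit 0)) (P (nat_lit 13630589192224))) (P (nat_lit 0)))))) (T.h (T.h (T.h (M (nat_lit 7201144172948878262271)) (T.h (P (nat_lit 0)) (P (nat_lit 34853522742837248)))) (T.h (P (nat_lit 0)) (M (nat_lit 3003675793752063)))) (T.h (T.h (P (nat_lit 0)) (T.h (T.h (P (nat_lit 0)) (P (nat_lit 49091741274216))) (P (nat_lit 0)))) (M (nat_lit 12430244271980543))))))), (T.h (T.h (P (nat_lit 0)) (T.h (T.h (M (nat_lit 6356930510662804732322512895)) (T.h (P (nat_lit 0)) (T.h (M (nat_lit 56883992127330444115967)) (T.h (P (nat_lit 0)) (P (nat_lit 39930242924576768)))))) (T.h (P (nat_lit 0)) (T.h (T.h (M (nat_lit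 29455829955663213101055)) (T.h (P (nat_lit 0)) (M (nat_lit 4198576772169727)))) (T.h (P (nat_lit 0)) (P (nat_lit 1539792990879744))))))) (T.h (T.h (T.h (P (nat_lit 0)) (T.h (P (nat_lit 29011003010746047835144192)) (T.h (P (nat_lit 0)) (T.h (P (nat_lit 9941448809114501120)) (T.h (P (nat_lit 0)) (M (nat_lit 7335226687375))))))) (T.h (P (nat_lit 0)) (T.h (T.h (P (nat_lit 0)) (T.h (M (nat_lit 10909109724356018175)) (T.h (P (nat_lit 0)) (M (nat_lit 14477294743407))))) (T.h (P (nat_lit 0)) (T.h (T.h (P (nat_lit 0)) (M (nat_lit 95994595996991))) (P (nat_lit 0))))))) (T.h (T.h (P (nat_lit 0)) (T.h (T.h (M (nat_lit 27822519022565684412415)) (T.h (P (nat_lit 0)) (P (nat_lit 80320698276560896)))) (T.h (P (nat_lit 0)) (P (nat_lit 67942575710699520))))) (T.h (T.h (T.h (P (nat_lit 0)) (T.h (P (nat_lit 28536482058832183296)) (T.h (P (nat_lit 0)) (M (nat_lit 5123879650623))))) (T.h (P (nat_lit 0)) (T.h (T.h (P (nat_lit 0)) (M (nat_lit 14321956310031))) (P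 (nat_lit 0))))) (T.h (T.h (P (nat_lit 0)) (P (nat_lit 96318372205527040))) (T.h (T.h (T.h (P (nat_lit 0)) (M (nat_lit 814461733343))) (P (nat_lit 0))) (P (nat_lit 0)))))))), (T.h (T.h (P (nat_lit 0)) (T.h (T.h (P (nat_lit 0)) (T.h (P (nat_lit 51831038186609871171878912)) (T.h (P (nat_lit 0)) (T.h (M (nat_lit 154149439252987903999)) (T.h (P (nat_lit 0)) (P (nat_lit 16154079036432))))))) (T.h (P (nat_lit 0)) (T.h (T.h (P (nat_lit 0)) (T.h (P (nat_lit 10127699961685475328)) (T.h (P (nat_lit 0)) (M (nat_lit 27440113996175))))) (T.h (P (nat_lit 0)) (T.h (T.h (P (nat_lit 0)) (P (nat_lit 36593309904384))) (P (nat_lit 0)))))))) (T.h (T.h (T.h (M (nat_lit 9689203274623073572085563391)) (T.h (P (nat_lit 0)) (T.h (M (nat_lit 16804508218362144227327)) (T.h (P (nat_lit 0)) (P (nat_lit 44925341566992384)))))) (T.h (P (nat_lit 0)) (T.h (T.h (M (nat_lit 3547409067596213911551)) (T.h (P (nat_lit 0)) (M (nat_lit 11918113887322111)))) (T.h (P (nat_lit 0)) (M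 (nat_lit 5312466369347583)))))) (T.h (T.h (P (nat_lit 0)) (T.h (T.h (P (nat_lit 0)) (T.h (M (nat_lit 136708025797551587327)) (T.h (P (nat_lit 0)) (M (nat_lit 10837356023567))))) (T.h (P (nat_lit 0)) (T.h (T.h (P (nat_lit 0)) (P (nat_lit 26798791662672))) (P (nat_lit 0)))))) (T.h (T.h (T.h (M (nat_lit 32348561746592169721855)) (T.h (P (nat_lit 0)) (P (nat_lit 57590447908585472)))) (T.h (P (nat_lit 0)) (P (nat_lit 62475914865180672)))) (T.h (T.h (P (nat_lit 0)) (T.h (T.h (P (nat_lit 0)) (M (nat_lit 5355070843967))) (P (nat_lit 0)))) (M (nat_lit 39858813559865343))))))), (T.h (T.h (P (nat_lit 0)) (T.h (T.h (P (nat_lit 19284978835697312424798453760)) (T.h (P (nat_lit 0)) (T.h (M (nat_lit 24315669638195871481855)) (T.h (P (nat_lit 0)) (M (nat_lit 41178867712720895)))))) (T.h (P (nat_lit 0)) (T.h (T.h (M (nat_lit 43436487884965381406719)) (T.h (P (nat_lit 0)) (P (nat_lit 29766961685905408)))) (T.h (P (nat_lit 0)) (M (nat_lit 31055890964348927)))))))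 (T.h (T.h (T.h (P (nat_lit 0)) (T.h (P (nat_lit 4050339328459021291094016)) (T.h (P (nat_lit 0)) (P (nat_lit 67100756050798706688))))) (T.h (P (nat_lit 0)) (T.h (T.h (P (nat_lit 0)) (P (nat_lit 10163341479825637376))) (P (nat_lit 0))))) (T.h (T.h (P (nat_lit 0)) (T.h (T.h (P (nat_lit 63097390979444799176704)) (T.h (P (nat_lit 0)) (M (nat_lit 43971931320598527)))) (T.h (P (nat_lit 0)) (P (nat_lit 21089469392453632))))) (T.h (T.h (T.h (P (nat_lit 0)) (P (nat_lit 20172489838517288960))) (P (nat_lit 0))) (T.h (T.h (P (nat_lit 0)) (P (nat_lit 13271321542623232))) (P (nat_lit 0))))))), (T.h (T.h (T.h (P (nat_lit 0)) (T.h (P (nat_lit 15094032400325960924739403776)) (T.h (P (nat_lit 0)) (T.h (P (nat_lit 38869535379741193797632)) (T.h (P (nat_lit 0)) (P (nat_lit 4847364983635968))))))) (T.h (P (nat_lit 0)) (T.h (T.h (P (nat_lit 0)) (T.h (M (nat_lit 41911058818368815497215)) (T.h (P (nat_lit 0)) (P (nat_lit 32999091808944128))))) (T.h (P (nat_lit 0))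 (T.h (T.h (P (nat_lit 0)) (M (nat_lit 50334443779178495))) (P (nat_lit 0))))))) (T.h (T.h (P (nat_lit 0)) (T.h (T.h (M (nat_lit 15195826472069480063172607)) (T.h (P (nat_lit 0)) (T.h (P (nat_lit 22111159804581904384)) (T.h (P (nat_lit 0)) (M (nat_lit 14340866784943)))))) (T.h (P (nat_lit 0)) (T.h (T.h (M (nat_lit 43070447991461511167)) (T.h (P (nat_lit 0)) (P (nat_lit 5619309761520)))) (T.h (P (nat_lit 0)) (P (nat_lit 19938314249056))))))) (T.h (T.h (T.h (P (nat_lit 0)) (T.h (M (nat_lit 12833861092039882440703)) (T.h (P (nat_lit 0)) (M (nat_lit 22622701397934079))))) (T.h (P (nat_lit 0)) (T.h (T.h (P (nat_lit 0)) (M (nat_lit 35127143919222783))) (P (nat_lit 0))))) (T.h (T.h (P (nat_lit 0)) (T.h (T.h (M (nat_lit 16738141867358552063)) (T.h (P (nat_lit 0)) (P (nat_lit 984444957216)))) (T.h (P (nat_lit 0)) (P (nat_lit 1995910495824))))) (T.h (T.h (T.h (P (nat_lit 0)) (M (nat_lit 56618746678673407))) (P (nat_lit 0))) (T.h (T.h (P (nat_lit 0)) (P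 (nat_lit 7586376911344))) (P (nat_lit 0)))))))), (T.h (T.h (T.h (P (nat_lit 1115592590657874877131071160320)) (T.h (P (nat_lit 0)) (T.h (M (nat_lit 507304703656420609884159)) (T.h (P (nat_lit 0)) (T.h (P (nat_lit 6880821809667637248)) (T.h (P (nat_lit 0)) (P (nat_lit 8166732155712)))))))) (T.h (P (nat_lit 0)) (T.h (T.h (P (nat_lit 34786085838959552078282752)) (T.h (P (nat_lit 0)) (T.h (M (nat_lit 130564937093042143231)) (T.h (P (nat_lit 0)) (M (nat_lit 21958799509391)))))) (T.h (P (nat_lit 0)) (T.h (T.h (P (nat_lit 3658876406927982592)) (T.h (P (nat_lit 0)) (P (nat_lit 23991997390848)))) (T.h (P (nat_lit 0)) (P (nat_lit 5815047762000)))))))) (T.h (T.h (P (nat_lit 0)) (T.h (T.h (P (nat_lit 0)) (T.h (M (nat_lit 19951231984780007440383)) (T.h (P (nat_lit 0)) (P (nat_lit 153381809422729216))))) (T.h (P (nat_lit 0)) (T.h (T.h (P (nat_lit 0)) (P (nat_lit 679447393009664))) (P (nat_lit 0)))))) (T.h (T.h (T.h (M (nat_lit 6374825364380784296722431))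 (T.h (P (nat_lit 0)) (T.h (P (nat_lit 35263024521535291392)) (T.h (P (nat_lit 0)) (M (nat_lit 37853903940671)))))) (T.h (P (nat_lit 0)) (T.h (T.h (M (nat_lit 68737311304899887103)) (T.h (P (nat_lit 0)) (P (nat_lit 84574857831168)))) (T.h (P (nat_lit 0)) (P (nat_lit 39216856312992)))))) (T.h (T.h (P (nat_lit 0)) (T.h (T.h (P (nat_lit 0)) (P (nat_lit 123138627846995968))) (P (nat_lit 0)))) (T.h (T.h (T.h (P (nat_lit 7250249056067256320)) (T.h (P (nat_lit 0)) (P (nat_lit 4583817790320)))) (T.h (P (nat_lit 0)) (P (nat_lit 35703781143744)))) (T.h (P (nat_lit 0)) (M (nat_lit 5166647710895)))))))), (T.h (T.h (T.h (P (nat_lit 0)) (T.h (P (nat_lit 14443826790256105527609131008)) (T.h (P (nat_lit 0)) (T.h (M (nat_lit 16036720904275796951039)) (T.h (P (nat_lit 0)) (M (nat_lit 20302167749623807))))))) (T.h (P (nat_lit 0)) (T.h (T.h (P (nat_lit 0)) (T.h (M (nat_lit 38168780187591518453759)) (T.h (P (nat_lit 0)) (P (nat_lit 49097804582748160))))) (T.h (P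 (nat_lit 0)) (T.h (T.h (P (nat_lit 0)) (M (nat_lit 76111675475427327))) (P (nat_lit 0))))))) (T.h (T.h (P (nat_lit 0)) (T.h (T.h (M (nat_lit 4802423077831732845608959)) (T.h (P (nat_lit 0)) (M (nat_lit 82621730884927094783)))) (T.h (P (nat_lit 0)) (P (nat_lit 171966052405298069504))))) (T.h (T.h (T.h (P (nat_lit 0)) (T.h (P (nat_lit 4650496985309537894400)) (T.h (P (nat_lit 0)) (P (nat_lit 59759200652361728))))) (T.h (P (nat_lit 0)) (T.h (T.h (P (nat_lit 0)) (M (nat_lit 118825867613978623))) (P (nat_lit 0))))) (T.h (T.h (P (nat_lit 0)) (P (nat_lit 24016744261632393216))) (T.h (T.h (T.h (P (nat_lit 0)) (P (nat_lit 15306963441762304))) (P (nat_lit 0))) (P (nat_lit 0)))))))]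
def lP11_23 : List (T ℤ) := [(T.h (T.h (P (nat_lit 0)) (T.h (T.h (P (nat_lit 0)) (T.h (M (nat_lit 12932720779095484709994495)) (T.h (P (nat_lit 0)) (T.h (M (nat_lit 28204431904241352703)) (T.h (P (nat_lit 0)) (P (nat_lit 4888059757872))))))) (T.h (P (nat_lit 0)) (T.h (T.h (P (nat_lit 0)) (T.h (P (nat_lit 4923577516783828992)) (T.h (P (nat_lit 0)) (P (nat_lit 17972683773504))))) (T.h (P (nat_lit 0)) (T.h (T.h (P (nat_lit 0)) (M (nat_lit 14348130743711))) (P (nat_lit 0)))))))) (T.h (T.h (T.h (P (nat_lit 12694516132953067105525170176)) (T.h (P (nat_lit 0)) (T.h (M (nat_lit 30087155017129438216191)) (T.h (P (nat_lit 0)) (M (nat_lit 12254034039898111)))))) (T.h (P (nat_lit 0)) (T.h (T.h (P (nat_lit 24480591155283993034752)) (T.h (P (nat_lit 0)) (P (nat_lit 18089952219463680)))) (T.h (P (nat_lit 0)) (M (nat_lit 35401708404146175)))))) (T.h (T.h (P (nat_lit 0)) (T.h (T.h (P (nat_lit 0)) (T.h (P (nat_lit 74074457738617815040)) (T.h (P (nat_lit 0))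 (M (nat_lit 21703434464063))))) (T.h (P (nat_lit 0)) (T.h (T.h (P (nat_lit 0)) (P (nat_lit 32553611291904))) (P (nat_lit 0)))))) (T.h (T.h (T.h (P (nat_lit 1667884357152340443136)) (T.h (P (nat_lit 0)) (M (nat_lit 30039293195386879)))) (T.h (P (nat_lit 0)) (P (nat_lit 2311032504811520)))) (T.h (T.h (P (nat_lit 0)) (T.h (T.h (P (nat_lit 0)) (M (nat_lit 26269413742655))) (P (nat_lit 0)))) (P (nat_lit 28219518888411136))))))), (T.h (T.h (P (nat_lit 0)) (T.h (T.h (M (nat_lit 2893019493596279392243286015)) (T.h (P (nat_lit 0)) (T.h (P (nat_lit 106208656867049003286528)) (T.h (P (nat_lit 0)) (P (nat_lit 6186033858117632)))))) (T.h (P (nat_lit 0)) (T.h (T.h (M (nat_lit 27246261378647213473791)) (T.h (P (nat_lit 0)) (M (nat_lit 64878600746582015)))) (T.h (P (nat_lit 0)) (M (nat_lit 19637590254747647))))))) (T.h (T.h (T.h (P (nat_lit 0)) (T.h (P (nat_lit 744127512378813555146752)) (T.h (P (nat_lit 0)) (M (nat_lit 43240701282731687935))))) (T.h (P (nat_lit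 0)) (T.h (T.h (P (nat_lit 0)) (P (nat_lit 108624038561860026368))) (P (nat_lit 0))))) (T.h (T.h (P (nat_lit 0)) (T.h (T.h (P (nat_lit 18795596249408332627968)) (T.h (P (nat_lit 0)) (M (nat_lit 20986041552060415)))) (T.h (P (nat_lit 0)) (M (nat_lit 56201108453130239))))) (T.h (T.h (T.h (P (nat_lit 0)) (P (nat_lit 3687564929549729792))) (P (nat_lit 0))) (T.h (T.h (P (nat_lit 0)) (M (nat_lit 48264155397226495))) (P (nat_lit 0))))))), (T.h (T.h (T.h (P (nat_lit 0)) (T.h (M (nat_lit 6042046692253407089126277119)) (T.h (P (nat_lit 0)) (T.h (M (nat_lit 11576057405531314192383)) (T.h (P (nat_lit 0)) (P (nat_lit 1926790763511808))))))) (T.h (P (nat_lit 0)) (T.h (T.h (P (nat_lit 0)) (T.h (P (nat_lit 53299571303992958910464)) (T.h (P (nat_lit 0)) (M (nat_lit 28456604404973567))))) (T.h (P (nat_lit 0)) (T.h (T.h (P (nat_lit 0)) (P (nat_lit 23858065197891584))) (P (nat_lit 0))))))) (T.h (T.h (P (nat_lit 0)) (T.h (T.h (M (nat_lit 6844849078918847777472511))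 (T.h (P (nat_lit 0)) (M (nat_lit 20744543133969154047)))) (T.h (P (nat_lit 0)) (M (nat_lit 13483878538738139135))))) (T.h (T.h (T.h (P (nat_lit 0)) (T.h (M (nat_lit 14969039455327191302143)) (T.h (P (nat_lit 0)) (P (nat_lit 2434349087997952))))) (T.h (P (nat_lit 0)) (T.h (T.h (P (nat_lit 0)) (M (nat_lit 56791017192112127))) (P (nat_lit 0))))) (T.h (T.h (P (nat_lit 0)) (M (nat_lit 56493968664372969471))) (T.h (T.h (T.h (P (nat_lit 0)) (P (nat_lit 20020676905156608))) (P (nat_lit 0))) (P (nat_lit 0))))))), (P (nat_lit 0)), (P (nat_lit 0)), (T.h (T.h (T.h (P (nat_lit 1974437142523453654025568780288)) (T.h (P (nat_lit 0)) (T.h (P (nat_lit 3776107581101057807220736)) (T.h (P (nat_lit 0)) (T.h (M (nat_lit 455214168597856255)) (T.h (P (nat_lit 0)) (P (nat_lit 1320627043552)))))))) (T.h (P (nat_lit 0)) (T.h (T.h (M (nat_lit 9758004229517509839028223)) (T.h (P (nat_lit 0)) (T.h (M (nat_lit 9060807759313764351)) (T.h (P (nat_lit 0)) (M (nat_lit 4691781859471))))))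 (T.h (P (nat_lit 0)) (T.h (T.h (P (nat_lit 1083103659241242624)) (T.h (P (nat_lit 0)) (P (nat_lit 2064152749056)))) (T.h (P (nat_lit 0)) (M (nat_lit 1030947796895)))))))) (T.h (T.h (P (nat_lit 0)) (T.h (T.h (P (nat_lit 0)) (T.h (M (nat_lit 35916735902168758878207)) (T.h (P (nat_lit 0)) (P (nat_lit 31562004246757376))))) (T.h (P (nat_lit 0)) (T.h (T.h (P (nat_lit 0)) (M (nat_lit 83825974921003007))) (P (nat_lit 0)))))) (T.h (T.h (T.h (P (nat_lit 3776107581101057807220736)) (T.h (P (nat_lit 0)) (T.h (P (nat_lit 47664521656557109248)) (T.h (P (nat_lit 0)) (M (nat_lit 6116429705375)))))) (T.h (P (nat_lit 0)) (T.h (T.h (M (nat_lit 9060807759313764351)) (T.h (P (nat_lit 0)) (M (nat_lit 2560356751999)))) (T.h (P (nat_lit 0)) (P (nat_lit 2064152749056)))))) (T.h (T.h (P (nat_lit 0)) (T.h (T.h (P (nat_lit 0)) (P (nat_lit 31562004246757376))) (P (nat_lit 0)))) (T.h (T.h (T.h (M (nat_lit 455214168597856255)) (T.h (P (nat_lit 0)) (M (nat_lit 6116429705375))))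 (T.h (P (nat_lit 0)) (M (nat_lit 4691781859471)))) (T.h (P (nat_lit 0)) (P (nat_lit 1320627043552)))))))), (T.h (T.h (T.h (P (nat_lit 0)) (T.h (P (nat_lit 7410480982141196655933784064)) (T.h (P (nat_lit 0)) (T.h (M (nat_lit 11758016684598470115327)) (T.h (P (nat_lit 0)) (M (nat_lit 7868204061982719))))))) (T.h (P (nat_lit 0)) (T.h (T.h (P (nat_lit 0)) (T.h (M (nat_lit 11651508633687157637119)) (T.h (P (nat_lit 0)) (M (nat_lit 741143611080703))))) (T.h (P (nat_lit 0)) (T.h (T.h (P (nat_lit 0)) (M (nat_lit 20178261076901887))) (P (nat_lit 0))))))) (T.h (T.h (P (nat_lit 0)) (T.h (T.h (P (nat_lit 3641499163075808254230528)) (T.h (P (nat_lit 0)) (T.h (P (nat_lit 55498869461626126336)) (T.h (P (nat_lit 0)) (P (nat_lit 295401305272)))))) (T.h (P (nat_lit 0)) (T.h (T.h (P (nat_lit 4857255339529076736)) (T.h (P (nat_lit 0)) (M (nat_lit 3302925781727)))) (T.h (P (nat_lit 0)) (P (nat_lit 3619901669680))))))) (T.h (T.h (T.h (P (nat_lit 0)) (T.h (M (nat_lit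 34692595357611779424255)) (T.h (P (nat_lit 0)) (P (nat_lit 28860658306154496))))) (T.h (P (nat_lit 0)) (T.h (T.h (P (nat_lit 0)) (M (nat_lit 39638468407689215))) (P (nat_lit 0))))) (T.h (T.h (P (nat_lit 0)) (T.h (T.h (M (nat_lit 16133808216185241599)) (T.h (P (nat_lit 0)) (M (nat_lit 30116912663583)))) (T.h (P (nat_lit 0)) (M (nat_lit 11117983546151))))) (T.h (T.h (T.h (P (nat_lit 0)) (P (nat_lit 4797928639463424))) (P (nat_lit 0))) (T.h (T.h (P (nat_lit 0)) (P (nat_lit 9053255530256))) (P (nat_lit 0)))))))), (T.h (T.h (T.h (P (nat_lit 9532113103949875524296396242944)) (T.h (P (nat_lit 0)) (T.h (M (nat_lit 3988164356882201506217983)) (T.h (P (nat_lit 0)) (T.h (P (nat_lit 3867644409403146240)) (T.h (P (nat_lit 0)) (M (nat_lit 4494899552751)))))))) (T.h (P (nat_lit 0)) (T.h (T.h (M (nat_lit 5822015326319091937968127)) (T.h (P (nat_lit 0)) (T.h (P (nat_lit 2322674579165675520)) (T.h (P (nat_lit 0)) (P (nat_lit 66173550912)))))) (T.h (P (nat_lit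 0)) (T.h (T.h (M (nat_lit 8903747042262646783)) (T.h (P (nat_lit 0)) (M (nat_lit 5131028078175)))) (T.h (P (nat_lit 0)) (M (nat_lit 2135898518655)))))))) (T.h (T.h (P (nat_lit 0)) (T.h (T.h (P (nat_lit 0)) (T.h (M (nat_lit 11273622562630300336127)) (T.h (P (nat_lit 0)) (M (nat_lit 28669640327397375))))) (T.h (P (nat_lit 0)) (T.h (T.h (P (nat_lit 0)) (P (nat_lit 76325036144197632))) (P (nat_lit 0)))))) (T.h (T.h (T.h (P (nat_lit 3032100729163460762402816)) (T.h (P (nat_lit 0)) (T.h (M (nat_lit 57813725855048794111)) (T.h (P (nat_lit 0)) (P (nat_lit 18872188738032)))))) (T.h (P (nat_lit 0)) (T.h (T.h (P (nat_lit 37294152127986270208)) (T.h (P (nat_lit 0)) (P (nat_lit 8548507008608)))) (T.h (P (nat_lit 0)) (M (nat_lit 2689076313615)))))) (T.h (T.h (P (nat_lit 0)) (T.h (T.h (P (nat_lit 0)) (P (nat_lit 4062213188222976))) (P (nat_lit 0)))) (T.h (T.h (T.h (P (nat_lit 28767898205744529408)) (T.h (P (nat_lit 0)) (P (nat_lit 7861092761200)))) (T.h (P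 (nat_lit 0)) (P (nat_lit 15481464103056)))) (T.h (P (nat_lit 0)) (M (nat_lit 6454986133007))))))))]
def lP11_24 : List (T ℤ) := [(T.h (T.h (T.h (P (nat_lit 0)) (T.h (P (nat_lit 4603839004082732782111948800)) (T.h (P (nat_lit 0)) (T.h (M (nat_lit 451937267142675660799)) (T.h (P (nat_lit 0)) (P (nat_lit 9716097229586432))))))) (T.h (P (nat_lit 0)) (T.h (T.h (P (nat_lit 0)) (T.h (P (nat_lit 14294575167020482953216)) (T.h (P (nat_lit 0)) (M (nat_lit 17089846118907903))))) (T.h (P (nat_lit 0)) (T.h (T.h (P (nat_lit 0)) (M (nat_lit 4070874150305791))) (P (nat_lit 0))))))) (T.h (T.h (P (nat_lit 0)) (T.h (T.h (M (nat_lit 6596670900851402304651263)) (T.h (P (nat_lit 0)) (T.h (M (nat_lit 39250634255368191)) (T.h (P (nat_lit 0)) (M (nat_lit 1128251633855)))))) (T.h (P (nat_lit 0)) (T.h (T.h (M (nat_lit 4921241330123800575)) (T.h (P (nat_lit 0)) (P (nat_lit 31647341982192)))) (T.h (P (nat_lit 0)) (M (nat_lit 9164603746943))))))) (T.h (T.h (T.h (P (nat_lit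 0)) (T.h (P (nat_lit 28647703300755549061120)) (T.h (P (nat_lit 0)) (M (nat_lit 16800158102618111))))) (T.h (P (nat_lit 0)) (T.h (T.h (P (nat_lit 0)) (M (nat_lit 4952338308300799))) (P (nat_lit 0))))) (T.h (T.h (P (nat_lit 0)) (T.h (T.h (P (nat_lit 19514475805688201216)) (T.h (P (nat_lit 0)) (P (nat_lit 25102801519776)))) (T.h (P (nat_lit 0)) (P (nat_lit 7971373389648))))) (T.h (T.h (T.h (P (nat_lit 0)) (P (nat_lit 27870905071534080))) (P (nat_lit 0))) (T.h (T.h (P (nat_lit 0)) (M (nat_lit 5108631799679))) (P (nat_lit 0)))))))), (T.h (T.h (T.h (M (nat_lit 1410570906212094888288156909567)) (T.h (P (nat_lit 0)) (T.h (P (nat_lit 736332230657898056777728)) (T.h (P (nat_lit 0)) (M (nat_lit 8275653059435036671)))))) (T.h (P (nat_lit 0)) (T.h (T.h (P (nat_lit 9092474658105973488484352)) (T.h (P (nat_lit 0)) (P (nat_lit 9901124243519700992)))) (T.h (P (nat_lit 0)) (P (nat_lit 6450639816894709760)))))) (T.h (T.h (P (nat_lit 0)) (T.h (T.h (P (nat_lit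 0)) (T.h (P (nat_lit 25522296248950983753728)) (T.h (P (nat_lit 0)) (M (nat_lit 8426976565428223))))) (T.h (P (nat_lit 0)) (T.h (T.h (P (nat_lit 0)) (M (nat_lit 20145895602651135))) (P (nat_lit 0)))))) (T.h (T.h (T.h (M (nat_lit 2713202957367080711618559)) (T.h (P (nat_lit 0)) (M (nat_lit 12443088561886986239)))) (T.h (P (nat_lit 0)) (P (nat_lit 2049630866191155200)))) (T.h (T.h (P (nat_lit 0)) (T.h (T.h (P (nat_lit 0)) (M (nat_lit 16959839353831423))) (P (nat_lit 0)))) (M (nat_lit 20438749490257592319)))))), (P (nat_lit 0)), (T.h (T.h (P (nat_lit 0)) (T.h (T.h (P (nat_lit 0)) (T.h (M (nat_lit 1351268652085930406969343)) (T.h (P (nat_lit 0)) (T.h (M (nat_lit 1456239894979411967)) (T.h (P (nat_lit 0)) (M (nat_lit 792617250143))))))) (T.h (P (nat_lit 0)) (T.h (T.h (P (nat_lit 0)) (T.h (M (nat_lit 1456239894979411967)) (T.h (P (nat_lit 0)) (P (nat_lit 3108367647936))))) (T.h (P (nat_lit 0)) (T.h (T.h (P (nat_lit 0)) (M (nat_lit 792617250143)))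 (P (nat_lit 0)))))))) (T.h (T.h (T.h (M (nat_lit 12852879613821572345757695)) (T.h (P (nat_lit 0)) (T.h (M (nat_lit 285728088897521451007)) (T.h (P (nat_lit 0)) (M (nat_lit 9820380577136639)))))) (T.h (P (nat_lit 0)) (T.h (T.h (M (nat_lit 285728088897521451007)) (T.h (P (nat_lit 0)) (M (nat_lit 11595435753078783)))) (T.h (P (nat_lit 0)) (M (nat_lit 9820380577136639)))))) (T.h (T.h (P (nat_lit 0)) (T.h (T.h (P (nat_lit 0)) (T.h (M (nat_lit 9106968498537496575)) (T.h (P (nat_lit 0)) (P (nat_lit 5706106126624))))) (T.h (P (nat_lit 0)) (T.h (T.h (P (nat_lit 0)) (P (nat_lit 5706106126624))) (P (nat_lit 0)))))) (T.h (T.h (T.h (P (nat_lit 637446587506065670144)) (T.h (P (nat_lit 0)) (M (nat_lit 2387430420054015)))) (T.h (P (nat_lit 0)) (M (nat_lit 2387430420054015)))) (T.h (T.h (P (nat_lit 0)) (T.h (T.h (P (nat_lit 0)) (P (nat_lit 13499878995904))) (P (nat_lit 0)))) (M (nat_lit 659354132676607))))))), (T.h (T.h (P (nat_lit 0)) (T.h (T.h (P (nat_lit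 26918048165403572223124439040)) (T.h (P (nat_lit 0)) (T.h (P (nat_lit 28496200696362805755904)) (T.h (P (nat_lit 0)) (P (nat_lit 12009480081899520)))))) (T.h (P (nat_lit 0)) (T.h (T.h (P (nat_lit 4895464466500676485120)) (T.h (P (nat_lit 0)) (M (nat_lit 81377415842201599)))) (T.h (P (nat_lit 0)) (P (nat_lit 17840743948943360))))))) (T.h (T.h (T.h (P (nat_lit 0)) (T.h (M (nat_lit 37449501152291180928565247)) (T.h (P (nat_lit 0)) (T.h (M (nat_lit 11177727589361909759)) (T.h (P (nat_lit 0)) (M (nat_lit 30834591738231))))))) (T.h (P (nat_lit 0)) (T.h (T.h (P (nat_lit 0)) (T.h (P (nat_lit 445175461490267783168)) (T.h (P (nat_lit 0)) (M (nat_lit 8262703056647))))) (T.h (P (nat_lit 0)) (T.h (T.h (P (nat_lit 0)) (P (nat_lit 14708186627616))) (P (nat_lit 0))))))) (T.h (T.h (P (nat_lit 0)) (T.h (T.h (P (nat_lit 16323087304478341201920)) (T.h (P (nat_lit 0)) (P (nat_lit 78068288233275392)))) (T.h (P (nat_lit 0)) (M (nat_lit 97546026279731199))))) (T.h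 (T.h (T.h (P (nat_lit 0)) (T.h (M (nat_lit 62851128381101047807)) (T.h (P (nat_lit 0)) (P (nat_lit 32365155061376))))) (T.h (P (nat_lit 0)) (T.h (T.h (P (nat_lit 0)) (P (nat_lit 3442513213160))) (P (nat_lit 0))))) (T.h (T.h (P (nat_lit 0)) (P (nat_lit 12906101759934464))) (T.h (T.h (T.h (P (nat_lit 0)) (M (nat_lit 37100201364519))) (P (nat_lit 0))) (P (nat_lit 0)))))))), (T.h (T.h (P (nat_lit 0)) (T.h (T.h (P (nat_lit 0)) (T.h (M (nat_lit 3140540335287327520718847)) (T.h (P (nat_lit 0)) (T.h (M (nat_lit 1023186957825474559)) (T.h (P (nat_lit 0)) (M (nat_lit 5632617450207))))))) (T.h (P (nat_lit 0)) (T.h (T.h (P (nat_lit 0)) (T.h (M (nat_lit 19618220207543156735)) (T.h (P (nat_lit 0)) (M (nat_lit 8063003288703))))) (T.h (P (nat_lit 0)) (T.h (T.h (P (nat_lit 0)) (M (nat_lit 12153382404239))) (P (nat_lit 0)))))))) (T.h (T.h (T.h (M (nat_lit 10269116897705586050811822079)) (T.h (P (nat_lit 0)) (T.h (M (nat_lit 11752904389286648872959)) (T.h (P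 (nat_lit 0)) (P (nat_lit 64019304747630592)))))) (T.h (P (nat_lit 0)) (T.h (T.h (M (nat_lit 40814377494051408576511)) (T.h (P (nat_lit 0)) (P (nat_lit 84186931744751616)))) (T.h (P (nat_lit 0)) (P (nat_lit 7631175466680320)))))) (T.h (T.h (P (nat_lit 0)) (T.h (T.h (P (nat_lit 0)) (T.h (P (nat_lit 2740331464292827136)) (T.h (P (nat_lit 0)) (M (nat_lit 13000870878351))))) (T.h (P (nat_lit 0)) (T.h (T.h (P (nat_lit 0)) (M (nat_lit 13156209311727))) (P (nat_lit 0)))))) (T.h (T.h (T.h (M (nat_lit 19423582445904722919423)) (T.h (P (nat_lit 0)) (P (nat_lit 48900044698517504)))) (T.h (P (nat_lit 0)) (M (nat_lit 23241107784351743)))) (T.h (T.h (P (nat_lit 0)) (T.h (T.h (P (nat_lit 0)) (M (nat_lit 71336986172927))) (P (nat_lit 0)))) (M (nat_lit 11424268652298239))))))), (T.h (T.h (P (nat_lit 0)) (T.h (T.h (M (nat_lit 24556072986798921191516012543)) (T.h (P (nat_lit 0)) (T.h (M (nat_lit 4980996676142313242623)) (T.h (P (nat_lit 0)) (M (nat_lit 39498243636592639))))))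 (T.h (P (nat_lit 0)) (T.h (T.h (M (nat_lit 13721056066817709047807)) (T.h (P (nat_lit 0)) (P (nat_lit 48486625826766848)))) (T.h (P (nat_lit 0)) (M (nat_lit 12786125555204095))))))) (T.h (T.h (T.h (P (nat_lit 0)) (T.h (P (nat_lit 34219577505904261729353728)) (T.h (P (nat_lit 0)) (T.h (P (nat_lit 62491710756640260096)) (T.h (P (nat_lit 0)) (P (nat_lit 37160142996432))))))) (T.h (P (nat_lit 0)) (T.h (T.h (P (nat_lit 0)) (T.h (M (nat_lit 220930338352237903871)) (T.h (P (nat_lit 0)) (P (nat_lit 25587277519872))))) (T.h (P (nat_lit 0)) (T.h (T.h (P (nat_lit 0)) (P (nat_lit 1483797581376))) (P (nat_lit 0))))))) (T.h (T.h (P (nat_lit 0)) (T.h (T.h (M (nat_lit 18238095826908243558399)) (T.h (P (nat_lit 0)) (M (nat_lit 24734882115387391)))) (T.h (P (nat_lit 0)) (P (nat_lit 43601158870171648))))) (T.h (T.h (T.h (P (nat_lit 0)) (T.h (M (nat_lit 101785428458033119231)) (T.h (P (nat_lit 0)) (M (nat_lit 15194470148207))))) (T.h (P (nat_lit 0)) (T.h (T.h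 (P (nat_lit 0)) (M (nat_lit 12048870166367))) (P (nat_lit 0))))) (T.h (T.h (P (nat_lit 0)) (P (nat_lit 10739564299747328))) (T.h (T.h (T.h (P (nat_lit 0)) (P (nat_lit 16720912128480))) (P (nat_lit 0))) (P (nat_lit 0)))))))), (T.h (T.h (P (nat_lit 0)) (T.h (T.h (P (nat_lit 0)) (T.h (M (nat_lit 12660772485101187447652351)) (T.h (P (nat_lit 0)) (P (nat_lit 112093646349093830656))))) (T.h (P (nat_lit 0)) (T.h (T.h (P (nat_lit 0)) (M (nat_lit 35855661794571845631))) (P (nat_lit 0)))))) (T.h (T.h (T.h (P (nat_lit 3057717378853825663268290560)) (T.h (P (nat_lit 0)) (T.h (M (nat_lit 34371714572181032665087)) (T.h (P (nat_lit 0)) (M (nat_lit 72177182128979967)))))) (T.h (P (nat_lit 0)) (T.h (T.h (P (nat_lit 8447562600720023683072)) (T.h (P (nat_lit 0)) (M (nat_lit 79412148893564927)))) (T.h (P (nat_lit 0)) (P (nat_lit 19241456788209664)))))) (T.h (T.h (P (nat_lit 0)) (T.h (T.h (P (nat_lit 0)) (M (nat_lit 45047154406338854911))) (P (nat_lit 0)))) (T.h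 (T.h (T.h (P (nat_lit 1780258074724053024768)) (T.h (P (nat_lit 0)) (M (nat_lit 6497396134756351)))) (T.h (P (nat_lit 0)) (P (nat_lit 4163999934857216)))) (T.h (P (nat_lit 0)) (P (nat_lit 4763365724028928)))))))]
def lP11_25 : List (T ℤ) := [(T.h (T.h (T.h (P (nat_lit 1805383373760183139493006540800)) (T.h (P (nat_lit 0)) (T.h (M (nat_lit 8540221157997732972986367)) (T.h (P (nat_lit 0)) (T.h (M (nat_lit 1498452388879532031)) (T.h (P (nat_lit 0)) (P (nat_lit 1859025209360)))))))) (T.h (P (nat_lit 0)) (T.h (T.h (P (nat_lit 4993890652620834673262592)) (T.h (P (nat_lit 0)) (T.h (M (nat_lit 9640911419125792767)) (T.h (P (nat_lit 0)) (P (nat_lit 1401575835328)))))) (T.h (P (nat_lit 0)) (T.h (T.h (M (nat_lit 3036770216718630911)) (T.h (P (nat_lit 0)) (M (nat_lit 5354358773199)))) (T.h (P (nat_lit 0)) (P (nat_lit 4210600049808)))))))) (T.h (T.h (P (nat_lit 0)) (T.h (T.h (P (nat_lit 0)) (T.h (M (nat_lit 37504206972847376039935)) (T.h (P (nat_lit 0))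 (M (nat_lit 80088418702065663))))) (T.h (P (nat_lit 0)) (T.h (T.h (P (nat_lit 0)) (P (nat_lit 35299560465694720))) (P (nat_lit 0)))))) (T.h (T.h (T.h (P (nat_lit 3690084522777037567426560)) (T.h (P (nat_lit 0)) (T.h (M (nat_lit 11864997617031184383)) (T.h (P (nat_lit 0)) (P (nat_lit 4428051570736)))))) (T.h (P (nat_lit 0)) (T.h (T.h (P (nat_lit 44860331798839689216)) (T.h (P (nat_lit 0)) (M (nat_lit 439965457183)))) (T.h (P (nat_lit 0)) (M (nat_lit 3752530883695)))))) (T.h (T.h (P (nat_lit 0)) (T.h (T.h (P (nat_lit 0)) (P (nat_lit 33709756530884608))) (P (nat_lit 0)))) (T.h (T.h (T.h (P (nat_lit 88907012733140992)) (T.h (P (nat_lit 0)) (M (nat_lit 2895170656607)))) (T.h (P (nat_lit 0)) (M (nat_lit 4319818502511)))) (T.h (P (nat_lit 0)) (M (nat_lit 249680986047)))))))), (T.h (T.h (T.h (P (nat_lit 0)) (T.h (P (nat_lit 24235143008211692284553461760)) (T.h (P (nat_lit 0)) (T.h (P (nat_lit 24589038477525376827392)) (T.h (P (nat_lit 0)) (P (nat_lit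 16004352843579392))))))) (T.h (P (nat_lit 0)) (T.h (T.h (P (nat_lit 0)) (T.h (P (nat_lit 20536998137085764304896)) (T.h (P (nat_lit 0)) (P (nat_lit 31994126645788672))))) (T.h (P (nat_lit 0)) (T.h (T.h (P (nat_lit 0)) (M (nat_lit 47329797718999039))) (P (nat_lit 0))))))) (T.h (T.h (P (nat_lit 0)) (T.h (T.h (M (nat_lit 56771713058536599282778111)) (T.h (P (nat_lit 0)) (T.h (P (nat_lit 15333078366290968576)) (T.h (P (nat_lit 0)) (M (nat_lit 9645570166751)))))) (T.h (P (nat_lit 0)) (T.h (T.h (P (nat_lit 172945268571285487616)) (T.h (P (nat_lit 0)) (P (nat_lit 54419689511192)))) (T.h (P (nat_lit 0)) (P (nat_lit 10802421927712))))))) (T.h (T.h (T.h (P (nat_lit 0)) (T.h (P (nat_lit 40512455918296525438976)) (T.h (P (nat_lit 0)) (P (nat_lit 16253116248948736))))) (T.h (P (nat_lit 0)) (T.h (T.h (P (nat_lit 0)) (M (nat_lit 81938024685469695))) (P (nat_lit 0))))) (T.h (T.h (P (nat_lit 0)) (T.h (T.h (M (nat_lit 51176284679938506751)) (T.h (P (nat_lit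 0)) (M (nat_lit 51203545001799)))) (T.h (P (nat_lit 0)) (M (nat_lit 5736931511151))))) (T.h (T.h (T.h (P (nat_lit 0)) (P (nat_lit 57511283962085376))) (P (nat_lit 0))) (T.h (T.h (P (nat_lit 0)) (M (nat_lit 24997287141663))) (P (nat_lit 0)))))))), (T.h (T.h (T.h (P (nat_lit 32842151014520371261632185106432)) (T.h (P (nat_lit 0)) (T.h (P (nat_lit 22757292793518151329382400)) (T.h (P (nat_lit 0)) (T.h (P (nat_lit 31470075215991537664)) (T.h (P (nat_lit 0)) (P (nat_lit 2757626181520)))))))) (T.h (P (nat_lit 0)) (T.h (T.h (P (nat_lit 13903176738035598629011456)) (T.h (P (nat_lit 0)) (T.h (P (nat_lit 2802209404877799424)) (T.h (P (nat_lit 0)) (M (nat_lit 12698873991999)))))) (T.h (P (nat_lit 0)) (T.h (T.h (M (nat_lit 6201570032015638527)) (T.h (P (nat_lit 0)) (M (nat_lit 30869414408671)))) (T.h (P (nat_lit 0)) (P (nat_lit 7076713795872)))))))) (T.h (T.h (P (nat_lit 0)) (T.h (T.h (P (nat_lit 0)) (T.h (M (nat_lit 41955429074095797436415)) (T.h (P (nat_lit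 0)) (P (nat_lit 143691431049625600))))) (T.h (P (nat_lit 0)) (T.h (T.h (P (nat_lit 0)) (P (nat_lit 215954254005600256))) (P (nat_lit 0)))))) (T.h (T.h (T.h (P (nat_lit 15737027707472489060761600)) (T.h (P (nat_lit 0)) (T.h (M (nat_lit 92305668578157264895)) (T.h (P (nat_lit 0)) (M (nat_lit 20319245333855)))))) (T.h (P (nat_lit 0)) (T.h (T.h (M (nat_lit 32169268143942795263)) (T.h (P (nat_lit 0)) (M (nat_lit 2373256451103)))) (T.h (P (nat_lit 0)) (M (nat_lit 33311366173231)))))) (T.h (T.h (P (nat_lit 0)) (T.h (T.h (P (nat_lit 0)) (P (nat_lit 110959577534005248))) (P (nat_lit 0)))) (T.h (T.h (T.h (P (nat_lit 6569821419650154496)) (T.h (P (nat_lit 0)) (M (nat_lit 9308149357023)))) (T.h (P (nat_lit 0)) (M (nat_lit 28114164544143)))) (T.h (P (nat_lit 0)) (P (nat_lit 4717712761776)))))))), (T.h (T.h (T.h (P (nat_lit 0)) (T.h (P (nat_lit 20709987112943368488685142016)) (T.h (P (nat_lit 0)) (T.h (M (nat_lit 12226728054955008065535)) (T.h (P (nat_lit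 0)) (M (nat_lit 9597254567264255))))))) (T.h (P (nat_lit 0)) (T.h (T.h (P (nat_lit 0)) (T.h (M (nat_lit 7228361037930880303103)) (T.h (P (nat_lit 0)) (M (nat_lit 10033979821588479))))) (T.h (P (nat_lit 0)) (T.h (T.h (P (nat_lit 0)) (P (nat_lit 34660009035595776))) (P (nat_lit 0))))))) (T.h (T.h (P (nat_lit 0)) (T.h (T.h (P (nat_lit 16339062276360725476671488)) (T.h (P (nat_lit 0)) (T.h (P (nat_lit 118455133166586822656)) (T.h (P (nat_lit 0)) (M (nat_lit 32978638747343)))))) (T.h (P (nat_lit 0)) (T.h (T.h (M (nat_lit 55784618800661397503)) (T.h (P (nat_lit 0)) (M (nat_lit 18355167600767)))) (T.h (P (nat_lit 0)) (P (nat_lit 1789989950208))))))) (T.h (T.h (T.h (P (nat_lit 0)) (T.h (P (nat_lit 7565867690142954684416)) (T.h (P (nat_lit 0)) (P (nat_lit 3803225997541376))))) (T.h (P (nat_lit 0)) (T.h (T.h (P (nat_lit 0)) (P (nat_lit 20091313725276160))) (P (nat_lit 0))))) (T.h (T.h (P (nat_lit 0)) (T.h (T.h (M (nat_lit 28920054586210779135)) (T.h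 (P (nat_lit 0)) (P (nat_lit 19164418213728)))) (T.h (P (nat_lit 0)) (M (nat_lit 1210979681807))))) (T.h (T.h (T.h (P (nat_lit 0)) (P (nat_lit 16577124738301952))) (P (nat_lit 0))) (T.h (T.h (P (nat_lit 0)) (M (nat_lit 14744667710495))) (P (nat_lit 0)))))))), (T.h (T.h (T.h (M (nat_lit 1399428463606298028927860342783)) (T.h (P (nat_lit 0)) (T.h (P (nat_lit 31188799190091483995701248)) (T.h (P (nat_lit 0)) (P (nat_lit 45419159932343681024)))))) (T.h (P (nat_lit 0)) (T.h (T.h (P (nat_lit 8469030029506513356193792)) (T.h (P (nat_lit 0)) (P (nat_lit 9061273345915355136)))) (T.h (P (nat_lit 0)) (P (nat_lit 40576413420092391424)))))) (T.h (T.h (P (nat_lit 0)) (T.h (T.h (P (nat_lit 0)) (T.h (P (nat_lit 72906489133737697083392)) (T.h (P (nat_lit 0)) (M (nat_lit 2164177316511743))))) (T.h (P (nat_lit 0)) (T.h (T.h (P (nat_lit 0)) (P (nat_lit 32087466221535232))) (P (nat_lit 0)))))) (T.h (T.h (T.h (M (nat_lit 4593254592221910946283519)) (T.h (P (nat_lit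 0)) (P (nat_lit 3705987022863728640)))) (T.h (P (nat_lit 0)) (M (nat_lit 71254267240017559551)))) (T.h (T.h (P (nat_lit 0)) (T.h (T.h (P (nat_lit 0)) (P (nat_lit 28806073981534208))) (P (nat_lit 0)))) (P (nat_lit 20698768954552745984)))))), (T.h (T.h (P (nat_lit 0)) (T.h (T.h (M (nat_lit 10991474950359710380029116415)) (T.h (P (nat_lit 0)) (T.h (P (nat_lit 8567976820326266830848)) (T.h (P (nat_lit 0)) (P (nat_lit 1044368633987072)))))) (T.h (P (nat_lit 0)) (T.h (T.h (M (nat_lit 7201144172948878262271)) (T.h (P (nat_lit 0)) (P (nat_lit 34853522742837248)))) (T.h (P (nat_lit 0)) (M (nat_lit 12430244271980543))))))) (T.h (T.h (T.h (P (nat_lit 0)) (T.h (M (nat_lit 5312428250162915675471871)) (T.h (P (nat_lit 0)) (T.h (M (nat_lit 27310346575542222847)) (T.h (P (nat_lit 0)) (M (nat_lit 10801532053095))))))) (T.h (P (nat_lit 0)) (T.h (T.h (P (nat_lit 0)) (T.h (M (nat_lit 100038009156592992255)) (T.h (P (nat_lit 0)) (P (nat_lit 24519505450928)))))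 (T.h (P (nat_lit 0)) (T.h (T.h (P (nat_lit 0)) (P (nat_lit 49091741274216))) (P (nat_lit 0))))))) (T.h (T.h (P (nat_lit 0)) (T.h (T.h (P (nat_lit 41040909782363121123328)) (T.h (P (nat_lit 0)) (P (nat_lit 46568866846343168)))) (T.h (P (nat_lit 0)) (M (nat_lit 3003675793752063))))) (T.h (T.h (T.h (P (nat_lit 0)) (T.h (M (nat_lit 64622865852735160319)) (T.h (P (nat_lit 0)) (M (nat_lit 15748739387719))))) (T.h (P (nat_lit 0)) (T.h (T.h (P (nat_lit 0)) (P (nat_lit 13630589192224))) (P (nat_lit 0))))) (T.h (T.h (P (nat_lit 0)) (P (nat_lit 6521370142867456))) (T.h (T.h (T.h (P (nat_lit 0)) (P (nat_lit 18335573816552))) (P (nat_lit 0))) (P (nat_lit 0)))))))), (T.h (T.h (P (nat_lit 0)) (T.h (T.h (P (nat_lit 0)) (T.h (P (nat_lit 29011003010746047835144192)) (T.h (P (nat_lit 0)) (T.h (P (nat_lit 9941448809114501120)) (T.h (P (nat_lit 0)) (M (nat_lit 7335226687375))))))) (T.h (P (nat_lit 0)) (T.h (T.h (P (nat_lit 0)) (T.h (P (nat_lit 28536482058832183296))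 (T.h (P (nat_lit 0)) (M (nat_lit 5123879650623))))) (T.h (P (nat_lit 0)) (T.h (T.h (P (nat_lit 0)) (M (nat_lit 814461733343))) (P (nat_lit 0)))))))) (T.h (T.h (T.h (M (nat_lit 6356930510662804732322512895)) (T.h (P (nat_lit 0)) (T.h (M (nat_lit 56883992127330444115967)) (T.h (P (nat_lit 0)) (P (nat_lit 39930242924576768)))))) (T.h (P (nat_lit 0)) (T.h (T.h (M (nat_lit 27822519022565684412415)) (T.h (P (nat_lit 0)) (P (nat_lit 80320698276560896)))) (T.h (P (nat_lit 0)) (P (nat_lit 96318372205527040)))))) (T.h (T.h (P (nat_lit 0)) (T.h (T.h (P (nat_lit 0)) (T.h (M (nat_lit 10909109724356018175)) (T.h (P (nat_lit 0)) (M (nat_lit 14477294743407))))) (T.h (P (nat_lit 0)) (T.h (T.h (P (nat_lit 0)) (M (nat_lit 14321956310031))) (P (nat_lit 0)))))) (T.h (T.h (T.h (M (nat_lit 29455829955663213101055)) (T.h (P (nat_lit 0)) (M (nat_lit 4198576772169727)))) (T.h (P (nat_lit 0)) (P (nat_lit 67942575710699520)))) (T.h (T.h (P (nat_lit 0)) (T.h (T.h (P (nat_lit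 0)) (M (nat_lit 95994595996991))) (P (nat_lit 0)))) (P (nat_lit 1539792990879744))))))), (T.h (T.h (P (nat_lit 0)) (T.h (T.h (M (nat_lit 9689203274623073572085563391)) (T.h (P (nat_lit 0)) (T.h (M (nat_lit 16804508218362144227327)) (T.h (P (nat_lit 0)) (P (nat_lit 44925341566992384)))))) (T.h (P (nat_lit 0)) (T.h (T.h (M (nat_lit 32348561746592169721855)) (T.h (P (nat_lit 0)) (P (nat_lit 57590447908585472)))) (T.h (P (nat_lit 0)) (M (nat_lit 39858813559865343))))))) (T.h (T.h (T.h (P (nat_lit 0)) (T.h (P (nat_lit 51831038186609871171878912)) (T.h (P (nat_lit 0)) (T.h (M (nat_lit 154149439252987903999)) (T.h (P (nat_lit 0)) (P (nat_lit 16154079036432))))))) (T.h (P (nat_lit 0)) (T.h (T.h (P (nat_lit 0)) (T.h (M (nat_lit 136708025797551587327)) (T.h (P (nat_lit 0)) (M (nat_lit 10837356023567))))) (T.h (P (nat_lit 0)) (T.h (T.h (P (nat_lit 0)) (M (nat_lit 5355070843967))) (P (nat_lit 0))))))) (T.h (T.h (P (nat_lit 0)) (T.h (T.h (M (nat_lit 3547409067596213911551))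 (T.h (P (nat_lit 0)) (M (nat_lit 11918113887322111)))) (T.h (P (nat_lit 0)) (P (nat_lit 62475914865180672))))) (T.h (T.h (T.h (P (nat_lit 0)) (T.h (P (nat_lit 10127699961685475328)) (T.h (P (nat_lit 0)) (M (nat_lit 27440113996175))))) (T.h (P (nat_lit 0)) (T.h (T.h (P (nat_lit 0)) (P (nat_lit 26798791662672))) (P (nat_lit 0))))) (T.h (T.h (P (nat_lit 0)) (M (nat_lit 5312466369347583))) (T.h (T.h (T.h (P (nat_lit 0)) (P (nat_lit 36593309904384))) (P (nat_lit 0))) (P (nat_lit 0))))))))]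
def lP11_26 : List (T ℤ) := [(T.h (T.h (P (nat_lit 0)) (T.h (T.h (P (nat_lit 0)) (T.h (P (nat_lit 4050339328459021291094016)) (T.h (P (nat_lit 0)) (P (nat_lit 67100756050798706688))))) (T.h (P (nat_lit 0)) (T.h (T.h (P (nat_lit 0)) (P (nat_lit 20172489838517288960))) (P (nat_lit 0)))))) (T.h (T.h (T.h (P (nat_lit 19284978835697312424798453760)) (T.h (P (nat_lit 0)) (T.h (M (nat_lit 24315669638195871481855)) (T.h (P (nat_lit 0)) (M (nat_lit 41178867712720895)))))) (T.h (P (nat_lit 0)) (T.h (T.h (P (nat_lit 63097390979444799176704)) (T.h (P (nat_lit 0)) (M (nat_lit 43971931320598527)))) (T.h (P (nat_lit 0)) (P (nat_lit 13271321542623232)))))) (T.h (T.h (P (nat_lit 0)) (T.h (T.h (P (nat_lit 0)) (P (nat_lit 10163341479825637376))) (P (nat_lit 0)))) (T.h (T.h (T.h (M (nat_lit 43436487884965381406719)) (T.h (P (nat_lit 0)) (P (nat_lit 29766961685905408)))) (T.h (P (nat_lit 0)) (P (nat_lit 21089469392453632)))) (T.h (P (nat_lit 0)) (M (nat_lit 31055890964348927))))))),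 (T.h (T.h (T.h (P (nat_lit 19064226207899751048592792485888)) (T.h (P (nat_lit 0)) (T.h (M (nat_lit 11644030652638183875936255)) (T.h (P (nat_lit 0)) (T.h (M (nat_lit 17807494084525293567)) (T.h (P (nat_lit 0)) (M (nat_lit 4271797037311)))))))) (T.h (P (nat_lit 0)) (T.h (T.h (M (nat_lit 956063627718740743815167)) (T.h (P (nat_lit 0)) (T.h (P (nat_lit 39616826707151945728)) (T.h (P (nat_lit 0)) (M (nat_lit 7820104391791)))))) (T.h (P (nat_lit 0)) (T.h (T.h (P (nat_lit 32635542615147675648)) (T.h (P (nat_lit 0)) (P (nat_lit 15547637653968)))) (T.h (P (nat_lit 0)) (M (nat_lit 10949885685759)))))))) (T.h (T.h (P (nat_lit 0)) (T.h (T.h (P (nat_lit 0)) (T.h (M (nat_lit 22547245125260600672255)) (T.h (P (nat_lit 0)) (P (nat_lit 152650072288395264))))) (T.h (P (nat_lit 0)) (T.h (T.h (P (nat_lit 0)) (M (nat_lit 24607427139174399))) (P (nat_lit 0)))))) (T.h (T.h (T.h (M (nat_lit 956063627718740743815167)) (T.h (P (nat_lit 0)) (T.h (P (nat_lit 39616826707151945728))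 (T.h (P (nat_lit 0)) (M (nat_lit 7820104391791)))))) (T.h (P (nat_lit 0)) (T.h (T.h (M (nat_lit 115627451710097588223)) (T.h (P (nat_lit 0)) (P (nat_lit 17097014017216)))) (T.h (P (nat_lit 0)) (P (nat_lit 26733281499232)))))) (T.h (T.h (P (nat_lit 0)) (T.h (T.h (P (nat_lit 0)) (M (nat_lit 24607427139174399))) (P (nat_lit 0)))) (T.h (T.h (T.h (P (nat_lit 32635542615147675648)) (T.h (P (nat_lit 0)) (P (nat_lit 15547637653968)))) (T.h (P (nat_lit 0)) (P (nat_lit 26733281499232)))) (T.h (P (nat_lit 0)) (M (nat_lit 10949885685759)))))))), (T.h (T.h (T.h (P (nat_lit 0)) (T.h (M (nat_lit 49112145973597842383032025087)) (T.h (P (nat_lit 0)) (T.h (M (nat_lit 27442112133635418095615)) (T.h (P (nat_lit 0)) (M (nat_lit 25572251110408191))))))) (T.h (P (nat_lit 0)) (T.h (T.h (P (nat_lit 0)) (T.h (M (nat_lit 23219092503050556801023)) (T.h (P (nat_lit 0)) (P (nat_lit 92087784696938496))))) (T.h (P (nat_lit 0)) (T.h (T.h (P (nat_lit 0)) (M (nat_lit 28758679336845311)))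 (P (nat_lit 0))))))) (T.h (T.h (P (nat_lit 0)) (T.h (T.h (P (nat_lit 68439155011808523458707456)) (T.h (P (nat_lit 0)) (T.h (M (nat_lit 441860676704475807743)) (T.h (P (nat_lit 0)) (P (nat_lit 2967595162752)))))) (T.h (P (nat_lit 0)) (T.h (T.h (M (nat_lit 39293717701392859135)) (T.h (P (nat_lit 0)) (P (nat_lit 13538407353504)))) (T.h (P (nat_lit 0)) (P (nat_lit 53881055124912))))))) (T.h (T.h (T.h (P (nat_lit 0)) (T.h (M (nat_lit 23219092503050556801023)) (T.h (P (nat_lit 0)) (P (nat_lit 92087784696938496))))) (T.h (P (nat_lit 0)) (T.h (T.h (P (nat_lit 0)) (M (nat_lit 49469764230774783))) (P (nat_lit 0))))) (T.h (T.h (P (nat_lit 0)) (T.h (T.h (M (nat_lit 39293717701392859135)) (T.h (P (nat_lit 0)) (P (nat_lit 13538407353504)))) (T.h (P (nat_lit 0)) (M (nat_lit 30388940296415))))) (T.h (T.h (T.h (P (nat_lit 0)) (M (nat_lit 28758679336845311))) (P (nat_lit 0))) (T.h (T.h (P (nat_lit 0)) (P (nat_lit 53881055124912))) (P (nat_lit 0)))))))), (T.h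 (T.h (T.h (M (nat_lit 5931990003797919481264628301823)) (T.h (P (nat_lit 0)) (T.h (P (nat_lit 10278785894260241688690688)) (T.h (P (nat_lit 0)) (P (nat_lit 73991600444213821440)))))) (T.h (P (nat_lit 0)) (T.h (T.h (P (nat_lit 46060839676573636630675456)) (T.h (P (nat_lit 0)) (M (nat_lit 68805959505311432703)))) (T.h (P (nat_lit 0)) (P (nat_lit 98711991422004756480)))))) (T.h (T.h (P (nat_lit 0)) (T.h (T.h (P (nat_lit 0)) (T.h (P (nat_lit 92485655474440444575744)) (T.h (P (nat_lit 0)) (P (nat_lit 10744846828634112))))) (T.h (P (nat_lit 0)) (T.h (T.h (P (nat_lit 0)) (M (nat_lit 20225404469411839))) (P (nat_lit 0)))))) (T.h (T.h (T.h (P (nat_lit 46060839676573636630675456)) (T.h (P (nat_lit 0)) (M (nat_lit 68805959505311432703)))) (T.h (P (nat_lit 0)) (P (nat_lit 11509581080621481984)))) (T.h (T.h (P (nat_lit 0)) (T.h (T.h (P (nat_lit 0)) (M (nat_lit 20225404469411839))) (P (nat_lit 0)))) (P (nat_lit 98711991422004756480)))))), (T.h (T.h (P (nat_lit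 0)) (T.h (T.h (P (nat_lit 10446956404850253651366641664)) (T.h (P (nat_lit 0)) (T.h (P (nat_lit 5632626520543503319040)) (T.h (P (nat_lit 0)) (M (nat_lit 3596642381955071)))))) (T.h (P (nat_lit 0)) (T.h (T.h (P (nat_lit 5948840357676776947712)) (T.h (P (nat_lit 0)) (M (nat_lit 41113114978910207)))) (T.h (P (nat_lit 0)) (P (nat_lit 27191530666983424))))))) (T.h (T.h (T.h (P (nat_lit 0)) (T.h (M (nat_lit 7869069305196286270504959)) (T.h (P (nat_lit 0)) (T.h (M (nat_lit 8341849335830413311)) (T.h (P (nat_lit 0)) (M (nat_lit 6807780704687))))))) (T.h (P (nat_lit 0)) (T.h (T.h (P (nat_lit 0)) (T.h (P (nat_lit 34193569977645137920)) (T.h (P (nat_lit 0)) (P (nat_lit 12080660238624))))) (T.h (P (nat_lit 0)) (T.h (T.h (P (nat_lit 0)) (M (nat_lit 27268021955855))) (P (nat_lit 0))))))) (T.h (T.h (P (nat_lit 0)) (T.h (T.h (P (nat_lit 34779983382352404414464)) (T.h (P (nat_lit 0)) (P (nat_lit 2322207188910080)))) (T.h (P (nat_lit 0)) (M (nat_lit 26986221143490559)))))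 (T.h (T.h (T.h (P (nat_lit 0)) (T.h (P (nat_lit 42958432014432206848)) (T.h (P (nat_lit 0)) (P (nat_lit 19006037555808))))) (T.h (P (nat_lit 0)) (T.h (T.h (P (nat_lit 0)) (P (nat_lit 43055705590704))) (P (nat_lit 0))))) (T.h (T.h (P (nat_lit 0)) (P (nat_lit 10262252542590976))) (T.h (T.h (T.h (P (nat_lit 0)) (M (nat_lit 19286466418127))) (P (nat_lit 0))) (P (nat_lit 0)))))))), (T.h (T.h (P (nat_lit 0)) (T.h (T.h (P (nat_lit 0)) (T.h (M (nat_lit 16468782563911620758601727)) (T.h (P (nat_lit 0)) (M (nat_lit 75555578012258795519))))) (T.h (P (nat_lit 0)) (T.h (T.h (P (nat_lit 0)) (P (nat_lit 119321996343688298496))) (P (nat_lit 0)))))) (T.h (T.h (T.h (P (nat_lit 10956586803148858223725903872)) (T.h (P (nat_lit 0)) (T.h (P (nat_lit 75342019195575308648448)) (T.h (P (nat_lit 0)) (P (nat_lit 36447271677280256)))))) (T.h (P (nat_lit 0)) (T.h (T.h (M (nat_lit 54890318594966418358271)) (T.h (P (nat_lit 0)) (M (nat_lit 83970361493749759)))) (T.h (P (nat_lit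 0)) (M (nat_lit 109421556495253503)))))) (T.h (T.h (P (nat_lit 0)) (T.h (T.h (P (nat_lit 0)) (P (nat_lit 2690763552075022336))) (P (nat_lit 0)))) (T.h (T.h (T.h (M (nat_lit 23839250831241478406143)) (T.h (P (nat_lit 0)) (M (nat_lit 30341731390193663)))) (T.h (P (nat_lit 0)) (M (nat_lit 32325635166355455)))) (T.h (P (nat_lit 0)) (M (nat_lit 1226991766667263))))))), (T.h (T.h (T.h (P (nat_lit 155995632080566823416296898560)) (T.h (P (nat_lit 0)) (T.h (P (nat_lit 12422111740482366000332800)) (T.h (P (nat_lit 0)) (P (nat_lit 10031253014880190464)))))) (T.h (P (nat_lit 0)) (T.h (T.h (M (nat_lit 8996315308694133733851135)) (T.h (P (nat_lit 0)) (P (nat_lit 13207607049124315136)))) (T.h (P (nat_lit 0)) (M (nat_lit 24572684326989201407)))))) (T.h (T.h (P (nat_lit 0)) (T.h (T.h (P (nat_lit 0)) (T.h (P (nat_lit 52185957645468458549248)) (T.h (P (nat_lit 0)) (P (nat_lit 6569147204567040))))) (T.h (P (nat_lit 0)) (T.h (T.h (P (nat_lit 0)) (P (nat_lit 15006674001788928)))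 (P (nat_lit 0)))))) (T.h (T.h (T.h (M (nat_lit 12445850496719112502247423)) (T.h (P (nat_lit 0)) (P (nat_lit 5356113671795769344)))) (T.h (P (nat_lit 0)) (M (nat_lit 14491892079333998591)))) (T.h (T.h (P (nat_lit 0)) (T.h (T.h (P (nat_lit 0)) (P (nat_lit 6473811213385728))) (P (nat_lit 0)))) (M (nat_lit 36735780757811757055)))))), (P (nat_lit 0))]
def lP11_27 : List (T ℤ) := [(T.h (T.h (P (nat_lit 0)) (T.h (T.h (P (nat_lit 532858792078950653260464128)) (T.h (P (nat_lit 0)) (T.h (P (nat_lit 3321691345876869447680)) (T.h (P (nat_lit 0)) (P (nat_lit 2725830294568960)))))) (T.h (P (nat_lit 0)) (T.h (T.h (M (nat_lit 3075121913902334476287)) (T.h (P (nat_lit 0)) (P (nat_lit 15163554349252608)))) (T.h (P (nat_lit 0)) (M (nat_lit 1221575086440447))))))) (T.h (T.h (T.h (P (nat_lit 0)) (T.h (P (nat_lit 8717922922079423085674496)) (T.h (P (nat_lit 0)) (T.h (M (nat_lit 193192647643365375)) (T.h (P (nat_lit 0)) (M (nat_lit 424261102751))))))) (T.h (P (nat_lit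 0)) (T.h (T.h (P (nat_lit 0)) (T.h (P (nat_lit 10942545611232116736)) (T.h (P (nat_lit 0)) (M (nat_lit 172863613551))))) (T.h (P (nat_lit 0)) (T.h (T.h (P (nat_lit 0)) (P (nat_lit 3166704741056))) (P (nat_lit 0))))))) (T.h (T.h (P (nat_lit 0)) (T.h (T.h (M (nat_lit 4144768062586427015167)) (T.h (P (nat_lit 0)) (P (nat_lit 15787150469627904)))) (T.h (P (nat_lit 0)) (M (nat_lit 14061861106614271))))) (T.h (T.h (T.h (P (nat_lit 0)) (T.h (P (nat_lit 6521691154386255872)) (T.h (P (nat_lit 0)) (P (nat_lit 3373397582576))))) (T.h (P (nat_lit 0)) (T.h (T.h (P (nat_lit 0)) (M (nat_lit 9748205673263))) (P (nat_lit 0))))) (T.h (T.h (P (nat_lit 0)) (P (nat_lit 10195113124757504))) (T.h (T.h (T.h (P (nat_lit 0)) (M (nat_lit 5165935566879))) (P (nat_lit 0))) (P (nat_lit 0)))))))), (T.h (T.h (P (nat_lit 0)) (T.h (T.h (P (nat_lit 0)) (T.h (P (nat_lit 3641499163075808254230528)) (T.h (P (nat_lit 0)) (T.h (M (nat_lit 16133808216185241599)) (T.h (P (nat_lit 0))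 (P (nat_lit 9053255530256))))))) (T.h (P (nat_lit 0)) (T.h (T.h (P (nat_lit 0)) (T.h (P (nat_lit 4857255339529076736)) (T.h (P (nat_lit 0)) (M (nat_lit 11117983546151))))) (T.h (P (nat_lit 0)) (T.h (T.h (P (nat_lit 0)) (P (nat_lit 3619901669680))) (P (nat_lit 0)))))))) (T.h (T.h (T.h (P (nat_lit 7410480982141196655933784064)) (T.h (P (nat_lit 0)) (T.h (M (nat_lit 34692595357611779424255)) (T.h (P (nat_lit 0)) (P (nat_lit 4797928639463424)))))) (T.h (P (nat_lit 0)) (T.h (T.h (M (nat_lit 11651508633687157637119)) (T.h (P (nat_lit 0)) (M (nat_lit 39638468407689215)))) (T.h (P (nat_lit 0)) (M (nat_lit 20178261076901887)))))) (T.h (T.h (P (nat_lit 0)) (T.h (T.h (P (nat_lit 0)) (T.h (P (nat_lit 55498869461626126336)) (T.h (P (nat_lit 0)) (M (nat_lit 30116912663583))))) (T.h (P (nat_lit 0)) (T.h (T.h (P (nat_lit 0)) (M (nat_lit 3302925781727))) (P (nat_lit 0)))))) (T.h (T.h (T.h (M (nat_lit 11758016684598470115327)) (T.h (P (nat_lit 0)) (P (nat_lit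 28860658306154496)))) (T.h (P (nat_lit 0)) (M (nat_lit 741143611080703)))) (T.h (T.h (P (nat_lit 0)) (T.h (T.h (P (nat_lit 0)) (P (nat_lit 295401305272))) (P (nat_lit 0)))) (M (nat_lit 7868204061982719))))))), (T.h (T.h (P (nat_lit 0)) (T.h (T.h (P (nat_lit 17277169826230395563407310848)) (T.h (P (nat_lit 0)) (T.h (M (nat_lit 14429612615023850422271)) (T.h (P (nat_lit 0)) (M (nat_lit 46231065526583295)))))) (T.h (P (nat_lit 0)) (T.h (T.h (P (nat_lit 37722972093317176623104)) (T.h (P (nat_lit 0)) (P (nat_lit 8313373331783680)))) (T.h (P (nat_lit 0)) (P (nat_lit 2839043910631424))))))) (T.h (T.h (T.h (P (nat_lit 0)) (T.h (M (nat_lit 26202266726833330004688895)) (T.h (P (nat_lit 0)) (T.h (M (nat_lit 32857965433267945471)) (T.h (P (nat_lit 0)) (P (nat_lit 8063023529120))))))) (T.h (P (nat_lit 0)) (T.h (T.h (P (nat_lit 0)) (T.h (P (nat_lit 4720523903133286400)) (T.h (P (nat_lit 0)) (M (nat_lit 2419356147151))))) (T.h (P (nat_lit 0)) (T.h (T.h (P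 (nat_lit 0)) (M (nat_lit 14170135667743))) (P (nat_lit 0))))))) (T.h (T.h (P (nat_lit 0)) (T.h (T.h (M (nat_lit 14429612615023850422271)) (T.h (P (nat_lit 0)) (M (nat_lit 33472934269550591)))) (T.h (P (nat_lit 0)) (P (nat_lit 8313373331783680))))) (T.h (T.h (T.h (P (nat_lit 0)) (T.h (M (nat_lit 32857965433267945471)) (T.h (P (nat_lit 0)) (P (nat_lit 2263527959616))))) (T.h (P (nat_lit 0)) (T.h (T.h (P (nat_lit 0)) (M (nat_lit 2419356147151))) (P (nat_lit 0))))) (T.h (T.h (P (nat_lit 0)) (M (nat_lit 46231065526583295))) (T.h (T.h (T.h (P (nat_lit 0)) (P (nat_lit 8063023529120))) (P (nat_lit 0))) (P (nat_lit 0)))))))), (T.h (T.h (P (nat_lit 0)) (T.h (T.h (P (nat_lit 0)) (T.h (M (nat_lit 1272398404344883965853695)) (T.h (P (nat_lit 0)) (T.h (P (nat_lit 23443956208744005632)) (T.h (P (nat_lit 0)) (M (nat_lit 14177834618447))))))) (T.h (P (nat_lit 0)) (T.h (T.h (P (nat_lit 0)) (T.h (M (nat_lit 3420608005706612735)) (T.h (P (nat_lit 0)) (P (nat_lit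 11034664166160))))) (T.h (P (nat_lit 0)) (T.h (T.h (P (nat_lit 0)) (P (nat_lit 2356823042256))) (P (nat_lit 0)))))))) (T.h (T.h (T.h (P (nat_lit 5843117400767520869254692864)) (T.h (P (nat_lit 0)) (T.h (P (nat_lit 6132280081596855353344)) (T.h (P (nat_lit 0)) (M (nat_lit 17608652528943103)))))) (T.h (P (nat_lit 0)) (T.h (T.h (M (nat_lit 8661948646476979634175)) (T.h (P (nat_lit 0)) (P (nat_lit 7274545497210880)))) (T.h (P (nat_lit 0)) (P (nat_lit 474231768350720)))))) (T.h (T.h (P (nat_lit 0)) (T.h (T.h (P (nat_lit 0)) (T.h (P (nat_lit 34232820611900506112)) (T.h (P (nat_lit 0)) (P (nat_lit 17952904070928))))) (T.h (P (nat_lit 0)) (T.h (T.h (P (nat_lit 0)) (M (nat_lit 19566681743567))) (P (nat_lit 0)))))) (T.h (T.h (T.h (P (nat_lit 6400777624819452608512)) (T.h (P (nat_lit 0)) (M (nat_lit 10186063040872447)))) (T.h (P (nat_lit 0)) (M (nat_lit 24023268860002303)))) (T.h (T.h (P (nat_lit 0)) (T.h (T.h (P (nat_lit 0)) (M (nat_lit 26139770321999)))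 (P (nat_lit 0)))) (P (nat_lit 17475433437396992))))))), (T.h (T.h (P (nat_lit 0)) (T.h (T.h (M (nat_lit 9444388680319584730748026879)) (T.h (P (nat_lit 0)) (T.h (P (nat_lit 30742105541402773422080)) (T.h (P (nat_lit 0)) (P (nat_lit 24581947639840768)))))) (T.h (P (nat_lit 0)) (T.h (T.h (M (nat_lit 11887339130370524184575)) (T.h (P (nat_lit 0)) (M (nat_lit 22101788836069375)))) (T.h (P (nat_lit 0)) (P (nat_lit 2323722480533504))))))) (T.h (T.h (T.h (P (nat_lit 0)) (T.h (P (nat_lit 10198635777548292081057792)) (T.h (P (nat_lit 0)) (M (nat_lit 10587787297082572799))))) (T.h (P (nat_lit 0)) (T.h (T.h (P (nat_lit 0)) (M (nat_lit 9004690242220851199))) (P (nat_lit 0))))) (T.h (T.h (P (nat_lit 0)) (T.h (T.h (P (nat_lit 4498893292917248491520)) (T.h (P (nat_lit 0)) (M (nat_lit 44089042524880895)))) (T.h (P (nat_lit 0)) (M (nat_lit 1483925649195007))))) (T.h (T.h (T.h (P (nat_lit 0)) (M (nat_lit 44064355139457122303))) (P (nat_lit 0))) (T.h (T.h (P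 (nat_lit 0)) (P (nat_lit 17641106541363200))) (P (nat_lit 0))))))), (T.h (T.h (T.h (P (nat_lit 0)) (T.h (P (nat_lit 532858792078950653260464128)) (T.h (P (nat_lit 0)) (T.h (M (nat_lit 3075121913902334476287)) (T.h (P (nat_lit 0)) (M (nat_lit 1221575086440447))))))) (T.h (P (nat_lit 0)) (T.h (T.h (P (nat_lit 0)) (T.h (P (nat_lit 3321691345876869447680)) (T.h (P (nat_lit 0)) (P (nat_lit 15163554349252608))))) (T.h (P (nat_lit 0)) (T.h (T.h (P (nat_lit 0)) (P (nat_lit 2725830294568960))) (P (nat_lit 0))))))) (T.h (T.h (P (nat_lit 0)) (T.h (T.h (P (nat_lit 8717922922079423085674496)) (T.h (P (nat_lit 0)) (T.h (P (nat_lit 10942545611232116736)) (T.h (P (nat_lit 0)) (P (nat_lit 3166704741056)))))) (T.h (P (nat_lit 0)) (T.h (T.h (M (nat_lit 193192647643365375)) (T.h (P (nat_lit 0)) (M (nat_lit 172863613551)))) (T.h (P (nat_lit 0)) (M (nat_lit 424261102751))))))) (T.h (T.h (T.h (P (nat_lit 0)) (T.h (M (nat_lit 4144768062586427015167)) (T.h (P (nat_lit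 0)) (M (nat_lit 14061861106614271))))) (T.h (P (nat_lit 0)) (T.h (T.h (P (nat_lit 0)) (P (nat_lit 15787150469627904))) (P (nat_lit 0))))) (T.h (T.h (P (nat_lit 0)) (T.h (T.h (P (nat_lit 6521691154386255872)) (T.h (P (nat_lit 0)) (M (nat_lit 9748205673263)))) (T.h (P (nat_lit 0)) (P (nat_lit 3373397582576))))) (T.h (T.h (T.h (P (nat_lit 0)) (P (nat_lit 10195113124757504))) (P (nat_lit 0))) (T.h (T.h (P (nat_lit 0)) (M (nat_lit 5165935566879))) (P (nat_lit 0)))))))), (T.h (T.h (T.h (M (nat_lit 233599073851132825313359167487)) (T.h (P (nat_lit 0)) (T.h (P (nat_lit 3339284828606134409494528)) (T.h (P (nat_lit 0)) (T.h (P (nat_lit 1338478820444864512)) (T.h (P (nat_lit 0)) (P (nat_lit 9617498653952)))))))) (T.h (P (nat_lit 0)) (T.h (T.h (P (nat_lit 5082112852419897131532288)) (T.h (P (nat_lit 0)) (T.h (M (nat_lit 100023438623520063487)) (T.h (P (nat_lit 0)) (M (nat_lit 20604639669311)))))) (T.h (P (nat_lit 0)) (T.h (T.h (M (nat_lit 2430645173944844287))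 (T.h (P (nat_lit 0)) (P (nat_lit 31329944283904)))) (T.h (P (nat_lit 0)) (M (nat_lit 1694558487759)))))))) (T.h (T.h (P (nat_lit 0)) (T.h (T.h (P (nat_lit 0)) (T.h (M (nat_lit 82407207815392364855295)) (T.h (P (nat_lit 0)) (M (nat_lit 32143829745663999))))) (T.h (P (nat_lit 0)) (T.h (T.h (P (nat_lit 0)) (M (nat_lit 87065281106345983))) (P (nat_lit 0)))))) (T.h (T.h (T.h (M (nat_lit 37543111893281793489502207)) (T.h (P (nat_lit 0)) (T.h (P (nat_lit 31825137202179866624)) (T.h (P (nat_lit 0)) (M (nat_lit 23020402898271)))))) (T.h (P (nat_lit 0)) (T.h (T.h (P (nat_lit 97042588629337112576)) (T.h (P (nat_lit 0)) (M (nat_lit 22834946776191)))) (T.h (P (nat_lit 0)) (P (nat_lit 12372716820768)))))) (T.h (T.h (P (nat_lit 0)) (T.h (T.h (P (nat_lit 0)) (P (nat_lit 60188240626515968))) (P (nat_lit 0)))) (T.h (T.h (T.h (P (nat_lit 1366218949192056832)) (T.h (P (nat_lit 0)) (M (nat_lit 23757383925135)))) (T.h (P (nat_lit 0)) (M (nat_lit 1079589108847))))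 (T.h (P (nat_lit 0)) (M (nat_lit 5346534053183)))))))), (T.h (T.h (T.h (P (nat_lit 0)) (T.h (M (nat_lit 10269116897705586050811822079)) (T.h (P (nat_lit 0)) (T.h (M (nat_lit 19423582445904722919423)) (T.h (P (nat_lit 0)) (M (nat_lit 11424268652298239))))))) (T.h (P (nat_lit 0)) (T.h (T.h (P (nat_lit 0)) (T.h (M (nat_lit 40814377494051408576511)) (T.h (P (nat_lit 0)) (M (nat_lit 23241107784351743))))) (T.h (P (nat_lit 0)) (T.h (T.h (P (nat_lit 0)) (P (nat_lit 7631175466680320))) (P (nat_lit 0))))))) (T.h (T.h (P (nat_lit 0)) (T.h (T.h (M (nat_lit 3140540335287327520718847)) (T.h (P (nat_lit 0)) (T.h (P (nat_lit 2740331464292827136)) (T.h (P (nat_lit 0)) (M (nat_lit 71336986172927)))))) (T.h (P (nat_lit 0)) (T.h (T.h (M (nat_lit 19618220207543156735)) (T.h (P (nat_lit 0)) (M (nat_lit 13156209311727)))) (T.h (P (nat_lit 0)) (M (nat_lit 12153382404239))))))) (T.h (T.h (T.h (P (nat_lit 0)) (T.h (M (nat_lit 11752904389286648872959)) (T.h (P (nat_lit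 0)) (P (nat_lit 48900044698517504))))) (T.h (P (nat_lit 0)) (T.h (T.h (P (nat_lit 0)) (P (nat_lit 84186931744751616))) (P (nat_lit 0))))) (T.h (T.h (P (nat_lit 0)) (T.h (T.h (M (nat_lit 1023186957825474559)) (T.h (P (nat_lit 0)) (M (nat_lit 13000870878351)))) (T.h (P (nat_lit 0)) (M (nat_lit 8063003288703))))) (T.h (T.h (T.h (P (nat_lit 0)) (P (nat_lit 64019304747630592))) (P (nat_lit 0))) (T.h (T.h (P (nat_lit 0)) (M (nat_lit 5632617450207))) (P (nat_lit 0))))))))]
def lP11_28 : List (T ℤ) := [(T.h (T.h (T.h (P (nat_lit 1926289178347798091970222489600)) (T.h (P (nat_lit 0)) (T.h (M (nat_lit 2967819953213876012580863)) (T.h (P (nat_lit 0)) (T.h (P (nat_lit 6691717599643828224)) (T.h (P (nat_lit 0)) (M (nat_lit 905405486159)))))))) (T.h (P (nat_lit 0)) (T.h (T.h (P (nat_lit 2899700707510487674257408)) (T.h (P (nat_lit 0)) (T.h (M (nat_lit 60783134145811316735)) (T.h (P (nat_lit 0)) (P (nat_lit 10599934930752)))))) (T.h (P (nat_lit 0)) (T.h (T.h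 (P (nat_lit 6322290353244209152)) (T.h (P (nat_lit 0)) (M (nat_lit 31837786800239)))) (T.h (P (nat_lit 0)) (P (nat_lit 12427974380448)))))))) (T.h (T.h (P (nat_lit 0)) (T.h (T.h (P (nat_lit 0)) (T.h (M (nat_lit 101836983772912954638335)) (T.h (P (nat_lit 0)) (P (nat_lit 60655451073478656))))) (T.h (P (nat_lit 0)) (T.h (T.h (P (nat_lit 0)) (P (nat_lit 90898632649211904))) (P (nat_lit 0)))))) (T.h (T.h (T.h (M (nat_lit 2967819953213876012580863)) (T.h (P (nat_lit 0)) (T.h (P (nat_lit 1044491642330939392)) (T.h (P (nat_lit 0)) (P (nat_lit 25824793852896)))))) (T.h (P (nat_lit 0)) (T.h (T.h (M (nat_lit 60783134145811316735)) (T.h (P (nat_lit 0)) (P (nat_lit 54100397103456)))) (T.h (P (nat_lit 0)) (M (nat_lit 31837786800239)))))) (T.h (T.h (P (nat_lit 0)) (T.h (T.h (P (nat_lit 0)) (P (nat_lit 60655451073478656))) (P (nat_lit 0)))) (T.h (T.h (T.h (P (nat_lit 6691717599643828224)) (T.h (P (nat_lit 0)) (P (nat_lit 25824793852896)))) (T.h (P (nat_lit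 0)) (P (nat_lit 10599934930752)))) (T.h (P (nat_lit 0)) (M (nat_lit 905405486159)))))))), (T.h (T.h (T.h (P (nat_lit 0)) (T.h (P (nat_lit 7898869424295032560457613312)) (T.h (P (nat_lit 0)) (T.h (M (nat_lit 25619508905965531430911)) (T.h (P (nat_lit 0)) (M (nat_lit 5990357490696191))))))) (T.h (P (nat_lit 0)) (T.h (T.h (P (nat_lit 0)) (T.h (P (nat_lit 66894456594855284965376)) (T.h (P (nat_lit 0)) (M (nat_lit 34505731325050879))))) (T.h (P (nat_lit 0)) (T.h (T.h (P (nat_lit 0)) (P (nat_lit 17205814889070592))) (P (nat_lit 0))))))) (T.h (T.h (P (nat_lit 0)) (T.h (T.h (M (nat_lit 3808010078810433310949375)) (T.h (P (nat_lit 0)) (P (nat_lit 47737917958413877248)))) (T.h (P (nat_lit 0)) (M (nat_lit 39699916217686949887))))) (T.h (T.h (T.h (P (nat_lit 0)) (T.h (M (nat_lit 20518604022785385693183)) (T.h (P (nat_lit 0)) (M (nat_lit 25828239031599103))))) (T.h (P (nat_lit 0)) (T.h (T.h (P (nat_lit 0)) (M (nat_lit 4558212600184831))) (P (nat_lit 0)))))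 (T.h (T.h (P (nat_lit 0)) (P (nat_lit 7228349994594467840))) (T.h (T.h (T.h (P (nat_lit 0)) (M (nat_lit 37244374366273535))) (P (nat_lit 0))) (P (nat_lit 0))))))), (T.h (T.h (P (nat_lit 0)) (T.h (T.h (P (nat_lit 0)) (T.h (P (nat_lit 6403901020158053750669312)) (T.h (P (nat_lit 0)) (T.h (P (nat_lit 19507689566234476544)) (T.h (P (nat_lit 0)) (P (nat_lit 13305965072760))))))) (T.h (P (nat_lit 0)) (T.h (T.h (P (nat_lit 0)) (T.h (M (nat_lit 8240740358858735615)) (T.h (P (nat_lit 0)) (M (nat_lit 7938952499351))))) (T.h (P (nat_lit 0)) (T.h (T.h (P (nat_lit 0)) (M (nat_lit 169352831255))) (P (nat_lit 0)))))))) (T.h (T.h (T.h (M (nat_lit 9908021319837027329787297791)) (T.h (P (nat_lit 0)) (T.h (M (nat_lit 13942455474211149316095)) (T.h (P (nat_lit 0)) (P (nat_lit 37197869960069120)))))) (T.h (P (nat_lit 0)) (T.h (T.h (M (nat_lit 15457232324273507401727)) (T.h (P (nat_lit 0)) (P (nat_lit 54662532518019072)))) (T.h (P (nat_lit 0)) (M (nat_lit 53149254943571967))))))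 (T.h (T.h (P (nat_lit 0)) (T.h (T.h (P (nat_lit 0)) (T.h (M (nat_lit 39976436551934541823)) (T.h (P (nat_lit 0)) (M (nat_lit 59881358043223))))) (T.h (P (nat_lit 0)) (T.h (T.h (P (nat_lit 0)) (M (nat_lit 24591960685415))) (P (nat_lit 0)))))) (T.h (T.h (T.h (P (nat_lit 21446166577966298955776)) (T.h (P (nat_lit 0)) (P (nat_lit 52779697729929216)))) (T.h (P (nat_lit 0)) (P (nat_lit 11719727643590656)))) (T.h (T.h (P (nat_lit 0)) (T.h (T.h (P (nat_lit 0)) (P (nat_lit 4933331930408))) (P (nat_lit 0)))) (M (nat_lit 18898354271649791))))))), (T.h (T.h (P (nat_lit 0)) (T.h (T.h (M (nat_lit 12452254323610020689479729151)) (T.h (P (nat_lit 0)) (T.h (M (nat_lit 39218625971067440594943)) (T.h (P (nat_lit 0)) (M (nat_lit 2756505685409791)))))) (T.h (P (nat_lit 0)) (T.h (T.h (M (nat_lit 18277019159480705744895)) (T.h (P (nat_lit 0)) (M (nat_lit 54177182514069503)))) (T.h (P (nat_lit 0)) (M (nat_lit 9415947579293695))))))) (T.h (T.h (T.h (P (nat_lit 0))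 (T.h (P (nat_lit 7865899919476522420797440)) (T.h (P (nat_lit 0)) (T.h (M (nat_lit 3498396641633763327)) (T.h (P (nat_lit 0)) (M (nat_lit 12630029022015))))))) (T.h (P (nat_lit 0)) (T.h (T.h (P (nat_lit 0)) (T.h (P (nat_lit 20130967365741445120)) (T.h (P (nat_lit 0)) (M (nat_lit 9752408207359))))) (T.h (P (nat_lit 0)) (T.h (T.h (P (nat_lit 0)) (M (nat_lit 71507717290127))) (P (nat_lit 0))))))) (T.h (T.h (P (nat_lit 0)) (T.h (T.h (M (nat_lit 39234350592631613947903)) (T.h (P (nat_lit 0)) (P (nat_lit 82532722095079424)))) (T.h (P (nat_lit 0)) (P (nat_lit 73585763175677952))))) (T.h (T.h (T.h (P (nat_lit 0)) (T.h (M (nat_lit 11235669516019040255)) (T.h (P (nat_lit 0)) (M (nat_lit 8330620752495))))) (T.h (P (nat_lit 0)) (T.h (T.h (P (nat_lit 0)) (M (nat_lit 4962204969679))) (P (nat_lit 0))))) (T.h (T.h (P (nat_lit 0)) (P (nat_lit 59915926495035392))) (T.h (T.h (T.h (P (nat_lit 0)) (P (nat_lit 6242673269728))) (P (nat_lit 0))) (P (nat_lit 0)))))))),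 (T.h (T.h (P (nat_lit 0)) (T.h (T.h (P (nat_lit 0)) (T.h (P (nat_lit 11014789779854207137873920)) (T.h (P (nat_lit 0)) (T.h (M (nat_lit 32849534989266583551)) (T.h (P (nat_lit 0)) (M (nat_lit 5675464891727))))))) (T.h (P (nat_lit 0)) (T.h (T.h (P (nat_lit 0)) (T.h (M (nat_lit 57285252125078585343)) (T.h (P (nat_lit 0)) (M (nat_lit 4274270458319))))) (T.h (P (nat_lit 0)) (T.h (T.h (P (nat_lit 0)) (M (nat_lit 9731436838991))) (P (nat_lit 0)))))))) (T.h (T.h (T.h (P (nat_lit 19470708716258580401542397952)) (T.h (P (nat_lit 0)) (T.h (P (nat_lit 30081290909301648392192)) (T.h (P (nat_lit 0)) (P (nat_lit 62056682338779136)))))) (T.h (P (nat_lit 0)) (T.h (T.h (P (nat_lit 15728162775566582284288)) (T.h (P (nat_lit 0)) (P (nat_lit 7864429919764480)))) (T.h (P (nat_lit 0)) (P (nat_lit 30114903116939264)))))) (T.h (T.h (P (nat_lit 0)) (T.h (T.h (P (nat_lit 0)) (T.h (P (nat_lit 84183061920430948352)) (T.h (P (nat_lit 0)) (P (nat_lit 26314315662576)))))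 (T.h (P (nat_lit 0)) (T.h (T.h (P (nat_lit 0)) (P (nat_lit 32858856124992))) (P (nat_lit 0)))))) (T.h (T.h (T.h (M (nat_lit 19079442946917136334847)) (T.h (P (nat_lit 0)) (M (nat_lit 2810869064204287)))) (T.h (P (nat_lit 0)) (M (nat_lit 3100557080494079)))) (T.h (T.h (P (nat_lit 0)) (T.h (T.h (P (nat_lit 0)) (M (nat_lit 7967120059199))) (P (nat_lit 0)))) (M (nat_lit 17356590775074815))))))), (T.h (T.h (P (nat_lit 0)) (T.h (T.h (P (nat_lit 1941720731082695133592813568)) (T.h (P (nat_lit 0)) (T.h (P (nat_lit 701827677506762702848)) (T.h (P (nat_lit 0)) (P (nat_lit 13706613194915840)))))) (T.h (P (nat_lit 0)) (T.h (T.h (M (nat_lit 29704318109370374160383)) (T.h (P (nat_lit 0)) (P (nat_lit 54111275068309504)))) (T.h (P (nat_lit 0)) (M (nat_lit 22741810993119231))))))) (T.h (T.h (T.h (P (nat_lit 0)) (T.h (P (nat_lit 18056985184817746683101184)) (T.h (P (nat_lit 0)) (P (nat_lit 15808050916747116544))))) (T.h (P (nat_lit 0)) (T.h (T.h (P (nat_lit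 0)) (M (nat_lit 46579266720809091071))) (P (nat_lit 0))))) (T.h (T.h (P (nat_lit 0)) (T.h (T.h (P (nat_lit 26945039925992287633408)) (T.h (P (nat_lit 0)) (M (nat_lit 83502761245294591)))) (T.h (P (nat_lit 0)) (P (nat_lit 33493411881435136))))) (T.h (T.h (T.h (P (nat_lit 0)) (P (nat_lit 49284618759121666048))) (P (nat_lit 0))) (T.h (T.h (P (nat_lit 0)) (P (nat_lit 20647454293393408))) (P (nat_lit 0))))))), (T.h (T.h (T.h (P (nat_lit 0)) (T.h (P (nat_lit 15094032400325960924739403776)) (T.h (P (nat_lit 0)) (T.h (P (nat_lit 38869535379741193797632)) (T.h (P (nat_lit 0)) (P (nat_lit 4847364983635968))))))) (T.h (P (nat_lit 0)) (T.h (T.h (P (nat_lit 0)) (T.h (M (nat_lit 12833861092039882440703)) (T.h (P (nat_lit 0)) (M (nat_lit 22622701397934079))))) (T.h (P (nat_lit 0)) (T.h (T.h (P (nat_lit 0)) (M (nat_lit 56618746678673407))) (P (nat_lit 0))))))) (T.h (T.h (P (nat_lit 0)) (T.h (T.h (M (nat_lit 15195826472069480063172607)) (T.h (P (nat_lit 0))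 (T.h (P (nat_lit 22111159804581904384)) (T.h (P (nat_lit 0)) (M (nat_lit 14340866784943)))))) (T.h (P (nat_lit 0)) (T.h (T.h (M (nat_lit 16738141867358552063)) (T.h (P (nat_lit 0)) (P (nat_lit 984444957216)))) (T.h (P (nat_lit 0)) (P (nat_lit 7586376911344))))))) (T.h (T.h (T.h (P (nat_lit 0)) (T.h (M (nat_lit 41911058818368815497215)) (T.h (P (nat_lit 0)) (P (nat_lit 32999091808944128))))) (T.h (P (nat_lit 0)) (T.h (T.h (P (nat_lit 0)) (M (nat_lit 35127143919222783))) (P (nat_lit 0))))) (T.h (T.h (P (nat_lit 0)) (T.h (T.h (M (nat_lit 43070447991461511167)) (T.h (P (nat_lit 0)) (P (nat_lit 5619309761520)))) (T.h (P (nat_lit 0)) (P (nat_lit 1995910495824))))) (T.h (T.h (T.h (P (nat_lit 0)) (M (nat_lit 50334443779178495))) (P (nat_lit 0))) (T.h (T.h (P (nat_lit 0)) (P (nat_lit 19938314249056))) (P (nat_lit 0)))))))), (T.h (T.h (T.h (P (nat_lit 1115592590657874877131071160320)) (T.h (P (nat_lit 0)) (T.h (M (nat_lit 507304703656420609884159)) (T.h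 (P (nat_lit 0)) (T.h (P (nat_lit 6880821809667637248)) (T.h (P (nat_lit 0)) (P (nat_lit 8166732155712)))))))) (T.h (P (nat_lit 0)) (T.h (T.h (M (nat_lit 6374825364380784296722431)) (T.h (P (nat_lit 0)) (T.h (P (nat_lit 35263024521535291392)) (T.h (P (nat_lit 0)) (M (nat_lit 37853903940671)))))) (T.h (P (nat_lit 0)) (T.h (T.h (P (nat_lit 7250249056067256320)) (T.h (P (nat_lit 0)) (P (nat_lit 4583817790320)))) (T.h (P (nat_lit 0)) (M (nat_lit 5166647710895)))))))) (T.h (T.h (P (nat_lit 0)) (T.h (T.h (P (nat_lit 0)) (T.h (M (nat_lit 19951231984780007440383)) (T.h (P (nat_lit 0)) (P (nat_lit 153381809422729216))))) (T.h (P (nat_lit 0)) (T.h (T.h (P (nat_lit 0)) (P (nat_lit 123138627846995968))) (P (nat_lit 0)))))) (T.h (T.h (T.h (P (nat_lit 34786085838959552078282752)) (T.h (P (nat_lit 0)) (T.h (M (nat_lit 130564937093042143231)) (T.h (P (nat_lit 0)) (M (nat_lit 21958799509391)))))) (T.h (P (nat_lit 0)) (T.h (T.h (M (nat_lit 68737311304899887103))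 (T.h (P (nat_lit 0)) (P (nat_lit 84574857831168)))) (T.h (P (nat_lit 0)) (P (nat_lit 35703781143744)))))) (T.h (T.h (P (nat_lit 0)) (T.h (T.h (P (nat_lit 0)) (P (nat_lit 679447393009664))) (P (nat_lit 0)))) (T.h (T.h (T.h (P (nat_lit 3658876406927982592)) (T.h (P (nat_lit 0)) (P (nat_lit 23991997390848)))) (T.h (P (nat_lit 0)) (P (nat_lit 39216856312992)))) (T.h (P (nat_lit 0)) (P (nat_lit 5815047762000))))))))]
def lP11_29 : List (T ℤ) := [(T.h (T.h (T.h (P (nat_lit 0)) (T.h (P (nat_lit 14443826790256105527609131008)) (T.h (P (nat_lit 0)) (T.h (M (nat_lit 16036720904275796951039)) (T.h (P (nat_lit 0)) (M (nat_lit 20302167749623807))))))) (T.h (P (nat_lit 0)) (T.h (T.h (P (nat_lit 0)) (T.h (P (nat_lit 4650496985309537894400)) (T.h (P (nat_lit 0)) (P (nat_lit 59759200652361728))))) (T.h (P (nat_lit 0)) (T.h (T.h (P (nat_lit 0)) (P (nat_lit 15306963441762304))) (P (nat_lit 0))))))) (T.h (T.h (P (nat_lit 0)) (T.h (T.h (M (nat_lit 4802423077831732845608959))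 (T.h (P (nat_lit 0)) (M (nat_lit 82621730884927094783)))) (T.h (P (nat_lit 0)) (P (nat_lit 24016744261632393216))))) (T.h (T.h (T.h (P (nat_lit 0)) (T.h (M (nat_lit 38168780187591518453759)) (T.h (P (nat_lit 0)) (P (nat_lit 49097804582748160))))) (T.h (P (nat_lit 0)) (T.h (T.h (P (nat_lit 0)) (M (nat_lit 118825867613978623))) (P (nat_lit 0))))) (T.h (T.h (P (nat_lit 0)) (P (nat_lit 171966052405298069504))) (T.h (T.h (T.h (P (nat_lit 0)) (M (nat_lit 76111675475427327))) (P (nat_lit 0))) (P (nat_lit 0))))))), (T.h (T.h (P (nat_lit 0)) (T.h (T.h (P (nat_lit 0)) (T.h (M (nat_lit 7869069305196286270504959)) (T.h (P (nat_lit 0)) (T.h (M (nat_lit 8341849335830413311)) (T.h (P (nat_lit 0)) (M (nat_lit 6807780704687))))))) (T.h (P (nat_lit 0)) (T.h (T.h (P (nat_lit 0)) (T.h (P (nat_lit 42958432014432206848)) (T.h (P (nat_lit 0)) (P (nat_lit 19006037555808))))) (T.h (P (nat_lit 0)) (T.h (T.h (P (nat_lit 0)) (M (nat_lit 19286466418127))) (P (nat_lit 0))))))))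 (T.h (T.h (T.h (P (nat_lit 10446956404850253651366641664)) (T.h (P (nat_lit 0)) (T.h (P (nat_lit 5632626520543503319040)) (T.h (P (nat_lit 0)) (M (nat_lit 3596642381955071)))))) (T.h (P (nat_lit 0)) (T.h (T.h (P (nat_lit 34779983382352404414464)) (T.h (P (nat_lit 0)) (P (nat_lit 2322207188910080)))) (T.h (P (nat_lit 0)) (P (nat_lit 10262252542590976)))))) (T.h (T.h (P (nat_lit 0)) (T.h (T.h (P (nat_lit 0)) (T.h (P (nat_lit 34193569977645137920)) (T.h (P (nat_lit 0)) (P (nat_lit 12080660238624))))) (T.h (P (nat_lit 0)) (T.h (T.h (P (nat_lit 0)) (P (nat_lit 43055705590704))) (P (nat_lit 0)))))) (T.h (T.h (T.h (P (nat_lit 5948840357676776947712)) (T.h (P (nat_lit 0)) (M (nat_lit 41113114978910207)))) (T.h (P (nat_lit 0)) (M (nat_lit 26986221143490559)))) (T.h (T.h (P (nat_lit 0)) (T.h (T.h (P (nat_lit 0)) (M (nat_lit 27268021955855))) (P (nat_lit 0)))) (P (nat_lit 27191530666983424))))))), (T.h (T.h (P (nat_lit 0)) (T.h (T.h (P (nat_lit 10956586803148858223725903872))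 (T.h (P (nat_lit 0)) (T.h (P (nat_lit 75342019195575308648448)) (T.h (P (nat_lit 0)) (P (nat_lit 36447271677280256)))))) (T.h (P (nat_lit 0)) (T.h (T.h (M (nat_lit 23839250831241478406143)) (T.h (P (nat_lit 0)) (M (nat_lit 30341731390193663)))) (T.h (P (nat_lit 0)) (M (nat_lit 1226991766667263))))))) (T.h (T.h (T.h (P (nat_lit 0)) (T.h (M (nat_lit 16468782563911620758601727)) (T.h (P (nat_lit 0)) (M (nat_lit 75555578012258795519))))) (T.h (P (nat_lit 0)) (T.h (T.h (P (nat_lit 0)) (P (nat_lit 2690763552075022336))) (P (nat_lit 0))))) (T.h (T.h (P (nat_lit 0)) (T.h (T.h (M (nat_lit 54890318594966418358271)) (T.h (P (nat_lit 0)) (M (nat_lit 83970361493749759)))) (T.h (P (nat_lit 0)) (M (nat_lit 32325635166355455))))) (T.h (T.h (T.h (P (nat_lit 0)) (P (nat_lit 119321996343688298496))) (P (nat_lit 0))) (T.h (T.h (P (nat_lit 0)) (M (nat_lit 109421556495253503))) (P (nat_lit 0))))))), (T.h (T.h (T.h (P (nat_lit 0)) (T.h (M (nat_lit 18888777360639169461496053759))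 (T.h (P (nat_lit 0)) (T.h (M (nat_lit 23774678260741048369151)) (T.h (P (nat_lit 0)) (P (nat_lit 4647444961067008))))))) (T.h (P (nat_lit 0)) (T.h (T.h (P (nat_lit 0)) (T.h (P (nat_lit 35240998834320021913600)) (T.h (P (nat_lit 0)) (M (nat_lit 23585714485264383))))) (T.h (P (nat_lit 0)) (T.h (T.h (P (nat_lit 0)) (P (nat_lit 42223054181203968))) (P (nat_lit 0))))))) (T.h (T.h (P (nat_lit 0)) (T.h (T.h (P (nat_lit 20397271555096584162115584)) (T.h (P (nat_lit 0)) (M (nat_lit 18009380484441702399)))) (T.h (P (nat_lit 0)) (M (nat_lit 54652142436539695103))))) (T.h (T.h (T.h (P (nat_lit 0)) (T.h (P (nat_lit 35240998834320021913600)) (T.h (P (nat_lit 0)) (M (nat_lit 23585714485264383))))) (T.h (P (nat_lit 0)) (T.h (T.h (P (nat_lit 0)) (M (nat_lit 88178085049761791))) (P (nat_lit 0))))) (T.h (T.h (P (nat_lit 0)) (M (nat_lit 54652142436539695103))) (T.h (T.h (T.h (P (nat_lit 0)) (P (nat_lit 42223054181203968))) (P (nat_lit 0))) (P (nat_lit 0))))))),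 (T.h (T.h (T.h (M (nat_lit 169053768763270514532562239487)) (T.h (P (nat_lit 0)) (T.h (P (nat_lit 1217783071519776866041856)) (T.h (P (nat_lit 0)) (T.h (M (nat_lit 2581556048120774655)) (T.h (P (nat_lit 0)) (P (nat_lit 2889973006256)))))))) (T.h (P (nat_lit 0)) (T.h (T.h (P (nat_lit 1217783071519776866041856)) (T.h (P (nat_lit 0)) (T.h (M (nat_lit 580103659812028415)) (T.h (P (nat_lit 0)) (M (nat_lit 662576913727)))))) (T.h (P (nat_lit 0)) (T.h (T.h (M (nat_lit 2581556048120774655)) (T.h (P (nat_lit 0)) (M (nat_lit 662576913727)))) (T.h (P (nat_lit 0)) (P (nat_lit 2889973006256)))))))) (T.h (T.h (P (nat_lit 0)) (T.h (T.h (P (nat_lit 0)) (T.h (M (nat_lit 1587471070678617161727)) (T.h (P (nat_lit 0)) (P (nat_lit 3737556218937344))))) (T.h (P (nat_lit 0)) (T.h (T.h (P (nat_lit 0)) (P (nat_lit 3737556218937344))) (P (nat_lit 0)))))) (T.h (T.h (T.h (M (nat_lit 86023058324020239794175)) (T.h (P (nat_lit 0)) (T.h (M (nat_lit 2804189857717420031))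 (T.h (P (nat_lit 0)) (P (nat_lit 2363898821680)))))) (T.h (P (nat_lit 0)) (T.h (T.h (M (nat_lit 2804189857717420031)) (T.h (P (nat_lit 0)) (P (nat_lit 2120391294816)))) (T.h (P (nat_lit 0)) (P (nat_lit 2363898821680)))))) (T.h (T.h (P (nat_lit 0)) (T.h (T.h (P (nat_lit 0)) (P (nat_lit 2147752284127232))) (P (nat_lit 0)))) (T.h (T.h (T.h (P (nat_lit 544121181330997248)) (T.h (P (nat_lit 0)) (P (nat_lit 1796611202864)))) (T.h (P (nat_lit 0)) (P (nat_lit 1796611202864)))) (T.h (P (nat_lit 0)) (M (nat_lit 1570308029599)))))))), (T.h (T.h (T.h (P (nat_lit 0)) (T.h (M (nat_lit 8105240833316528014414053375)) (T.h (P (nat_lit 0)) (T.h (P (nat_lit 6157605607908443160576)) (T.h (P (nat_lit 0)) (M (nat_lit 14652418540830719))))))) (T.h (P (nat_lit 0)) (T.h (T.h (P (nat_lit 0)) (T.h (P (nat_lit 20407429106314850074624)) (T.h (P (nat_lit 0)) (P (nat_lit 13934158588248064))))) (T.h (P (nat_lit 0)) (T.h (T.h (P (nat_lit 0)) (P (nat_lit 18185428906213376)))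 (P (nat_lit 0))))))) (T.h (T.h (P (nat_lit 0)) (T.h (T.h (P (nat_lit 4215725895776875352948736)) (T.h (P (nat_lit 0)) (T.h (M (nat_lit 23926501528834146303)) (T.h (P (nat_lit 0)) (P (nat_lit 2892398064512)))))) (T.h (P (nat_lit 0)) (T.h (T.h (P (nat_lit 29294307247426371584)) (T.h (P (nat_lit 0)) (P (nat_lit 17916783817936)))) (T.h (P (nat_lit 0)) (P (nat_lit 2467984298904))))))) (T.h (T.h (T.h (P (nat_lit 0)) (T.h (M (nat_lit 18612874587945052405759)) (T.h (P (nat_lit 0)) (M (nat_lit 5484856430657535))))) (T.h (P (nat_lit 0)) (T.h (T.h (P (nat_lit 0)) (M (nat_lit 21479489433075711))) (P (nat_lit 0))))) (T.h (T.h (P (nat_lit 0)) (T.h (T.h (P (nat_lit 33868761651432390656)) (T.h (P (nat_lit 0)) (M (nat_lit 19419484670495)))) (T.h (P (nat_lit 0)) (P (nat_lit 4797394601552))))) (T.h (T.h (T.h (P (nat_lit 0)) (P (nat_lit 23898006275555328))) (P (nat_lit 0))) (T.h (T.h (P (nat_lit 0)) (P (nat_lit 966839890088))) (P (nat_lit 0)))))))), (T.h (T.h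 (T.h (P (nat_lit 9532113103949875524296396242944)) (T.h (P (nat_lit 0)) (T.h (P (nat_lit 3032100729163460762402816)) (T.h (P (nat_lit 0)) (T.h (P (nat_lit 28767898205744529408)) (T.h (P (nat_lit 0)) (M (nat_lit 6454986133007)))))))) (T.h (P (nat_lit 0)) (T.h (T.h (M (nat_lit 5822015326319091937968127)) (T.h (P (nat_lit 0)) (T.h (P (nat_lit 37294152127986270208)) (T.h (P (nat_lit 0)) (P (nat_lit 15481464103056)))))) (T.h (P (nat_lit 0)) (T.h (T.h (M (nat_lit 8903747042262646783)) (T.h (P (nat_lit 0)) (M (nat_lit 2689076313615)))) (T.h (P (nat_lit 0)) (M (nat_lit 2135898518655)))))))) (T.h (T.h (P (nat_lit 0)) (T.h (T.h (P (nat_lit 0)) (T.h (M (nat_lit 11273622562630300336127)) (T.h (P (nat_lit 0)) (P (nat_lit 4062213188222976))))) (T.h (P (nat_lit 0)) (T.h (T.h (P (nat_lit 0)) (P (nat_lit 76325036144197632))) (P (nat_lit 0)))))) (T.h (T.h (T.h (M (nat_lit 3988164356882201506217983)) (T.h (P (nat_lit 0)) (T.h (M (nat_lit 57813725855048794111))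 (T.h (P (nat_lit 0)) (P (nat_lit 7861092761200)))))) (T.h (P (nat_lit 0)) (T.h (T.h (P (nat_lit 2322674579165675520)) (T.h (P (nat_lit 0)) (P (nat_lit 8548507008608)))) (T.h (P (nat_lit 0)) (M (nat_lit 5131028078175)))))) (T.h (T.h (P (nat_lit 0)) (T.h (T.h (P (nat_lit 0)) (M (nat_lit 28669640327397375))) (P (nat_lit 0)))) (T.h (T.h (T.h (P (nat_lit 3867644409403146240)) (T.h (P (nat_lit 0)) (P (nat_lit 18872188738032)))) (T.h (P (nat_lit 0)) (P (nat_lit 66173550912)))) (T.h (P (nat_lit 0)) (M (nat_lit 4494899552751)))))))), (T.h (T.h (T.h (P (nat_lit 0)) (T.h (P (nat_lit 5843117400767520869254692864)) (T.h (P (nat_lit 0)) (T.h (P (nat_lit 6400777624819452608512)) (T.h (P (nat_lit 0)) (P (nat_lit 17475433437396992))))))) (T.h (P (nat_lit 0)) (T.h (T.h (P (nat_lit 0)) (T.h (M (nat_lit 8661948646476979634175)) (T.h (P (nat_lit 0)) (M (nat_lit 24023268860002303))))) (T.h (P (nat_lit 0)) (T.h (T.h (P (nat_lit 0)) (P (nat_lit 474231768350720)))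 (P (nat_lit 0))))))) (T.h (T.h (P (nat_lit 0)) (T.h (T.h (M (nat_lit 1272398404344883965853695)) (T.h (P (nat_lit 0)) (T.h (P (nat_lit 34232820611900506112)) (T.h (P (nat_lit 0)) (M (nat_lit 26139770321999)))))) (T.h (P (nat_lit 0)) (T.h (T.h (M (nat_lit 3420608005706612735)) (T.h (P (nat_lit 0)) (M (nat_lit 19566681743567)))) (T.h (P (nat_lit 0)) (P (nat_lit 2356823042256))))))) (T.h (T.h (T.h (P (nat_lit 0)) (T.h (P (nat_lit 6132280081596855353344)) (T.h (P (nat_lit 0)) (M (nat_lit 10186063040872447))))) (T.h (P (nat_lit 0)) (T.h (T.h (P (nat_lit 0)) (P (nat_lit 7274545497210880))) (P (nat_lit 0))))) (T.h (T.h (P (nat_lit 0)) (T.h (T.h (P (nat_lit 23443956208744005632)) (T.h (P (nat_lit 0)) (P (nat_lit 17952904070928)))) (T.h (P (nat_lit 0)) (P (nat_lit 11034664166160))))) (T.h (T.h (T.h (P (nat_lit 0)) (M (nat_lit 17608652528943103))) (P (nat_lit 0))) (T.h (T.h (P (nat_lit 0)) (M (nat_lit 14177834618447))) (P (nat_lit 0))))))))]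
def lP11_30 : List (T ℤ) := [(T.h (T.h (T.h (P (nat_lit 1566566538292661711704453808128)) (T.h (P (nat_lit 0)) (T.h (M (nat_lit 9732647539352031790628863)) (T.h (P (nat_lit 0)) (M (nat_lit 16297031267554164735)))))) (T.h (P (nat_lit 0)) (T.h (T.h (P (nat_lit 3329637082376392511848448)) (T.h (P (nat_lit 0)) (P (nat_lit 3306482805604614144)))) (T.h (P (nat_lit 0)) (P (nat_lit 3580613197985480704)))))) (T.h (T.h (P (nat_lit 0)) (T.h (T.h (P (nat_lit 0)) (T.h (P (nat_lit 26663661396517474795520)) (T.h (P (nat_lit 0)) (P (nat_lit 23433650567217152))))) (T.h (P (nat_lit 0)) (T.h (T.h (P (nat_lit 0)) (P (nat_lit 26715042807218176))) (P (nat_lit 0)))))) (T.h (T.h (T.h (M (nat_lit 9732647539352031790628863)) (T.h (P (nat_lit 0)) (M (nat_lit 2048803517447012351)))) (T.h (P (nat_lit 0)) (P (nat_lit 3306482805604614144)))) (T.h (T.h (P (nat_lit 0)) (T.h (T.h (P (nat_lit 0)) (P (nat_lit 23433650567217152))) (P (nat_lit 0)))) (M (nat_lit 16297031267554164735)))))),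 (T.h (T.h (P (nat_lit 0)) (T.h (T.h (M (nat_lit 5597556631054564458126901247)) (T.h (P (nat_lit 0)) (T.h (P (nat_lit 22442983634990067089408)) (T.h (P (nat_lit 0)) (P (nat_lit 7271102710284288)))))) (T.h (P (nat_lit 0)) (T.h (T.h (P (nat_lit 3308180927425781170176)) (T.h (P (nat_lit 0)) (M (nat_lit 1902109917478911)))) (T.h (P (nat_lit 0)) (M (nat_lit 6835752361197567))))))) (T.h (T.h (T.h (P (nat_lit 0)) (T.h (P (nat_lit 19104918853724326135332864)) (T.h (P (nat_lit 0)) (T.h (P (nat_lit 20273340549643108352)) (T.h (P (nat_lit 0)) (M (nat_lit 7530457730135))))))) (T.h (P (nat_lit 0)) (T.h (T.h (P (nat_lit 0)) (T.h (M (nat_lit 55756772724600471551)) (T.h (P (nat_lit 0)) (M (nat_lit 13643278376943))))) (T.h (P (nat_lit 0)) (T.h (T.h (P (nat_lit 0)) (M (nat_lit 2633111223199))) (P (nat_lit 0))))))) (T.h (T.h (P (nat_lit 0)) (T.h (T.h (M (nat_lit 18083747559429222957055)) (T.h (P (nat_lit 0)) (M (nat_lit 151324011429887)))) (T.h (P (nat_lit 0))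 (M (nat_lit 19509334660710399))))) (T.h (T.h (T.h (P (nat_lit 0)) (T.h (P (nat_lit 3171995732487962624)) (T.h (P (nat_lit 0)) (M (nat_lit 18673433816239))))) (T.h (P (nat_lit 0)) (T.h (T.h (P (nat_lit 0)) (M (nat_lit 9781929771455))) (P (nat_lit 0))))) (T.h (T.h (P (nat_lit 0)) (P (nat_lit 11688105474850816))) (T.h (T.h (T.h (P (nat_lit 0)) (M (nat_lit 626247639559))) (P (nat_lit 0))) (P (nat_lit 0)))))))), (T.h (T.h (P (nat_lit 0)) (T.h (T.h (P (nat_lit 0)) (T.h (P (nat_lit 32151543346033375355863040)) (T.h (P (nat_lit 0)) (T.h (P (nat_lit 29559669016657657856)) (T.h (P (nat_lit 0)) (P (nat_lit 4818155716864))))))) (T.h (P (nat_lit 0)) (T.h (T.h (P (nat_lit 0)) (T.h (P (nat_lit 29559669016657657856)) (T.h (P (nat_lit 0)) (P (nat_lit 2939123638080))))) (T.h (P (nat_lit 0)) (T.h (T.h (P (nat_lit 0)) (P (nat_lit 4818155716864))) (P (nat_lit 0)))))))) (T.h (T.h (T.h (P (nat_lit 3912186387042781318489309184)) (T.h (P (nat_lit 0)) (T.h (M (nat_lit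 16069614633279035539455)) (T.h (P (nat_lit 0)) (P (nat_lit 32299067457896448)))))) (T.h (P (nat_lit 0)) (T.h (T.h (M (nat_lit 16069614633279035539455)) (T.h (P (nat_lit 0)) (M (nat_lit 3866233468190719)))) (T.h (P (nat_lit 0)) (P (nat_lit 32299067457896448)))))) (T.h (T.h (P (nat_lit 0)) (T.h (T.h (P (nat_lit 0)) (T.h (M (nat_lit 13649441188648845311)) (T.h (P (nat_lit 0)) (M (nat_lit 1321085431679))))) (T.h (P (nat_lit 0)) (T.h (T.h (P (nat_lit 0)) (M (nat_lit 1321085431679))) (P (nat_lit 0)))))) (T.h (T.h (T.h (M (nat_lit 10032247509758490181631)) (T.h (P (nat_lit 0)) (P (nat_lit 19042531012182016)))) (T.h (P (nat_lit 0)) (P (nat_lit 19042531012182016)))) (T.h (T.h (P (nat_lit 0)) (T.h (T.h (P (nat_lit 0)) (M (nat_lit 24657609824063))) (P (nat_lit 0)))) (P (nat_lit 12964061643177984))))))), (T.h (T.h (P (nat_lit 0)) (T.h (T.h (M (nat_lit 24556072986798921191516012543)) (T.h (P (nat_lit 0)) (T.h (M (nat_lit 18238095826908243558399)) (T.h (P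 (nat_lit 0)) (P (nat_lit 10739564299747328)))))) (T.h (P (nat_lit 0)) (T.h (T.h (M (nat_lit 13721056066817709047807)) (T.h (P (nat_lit 0)) (P (nat_lit 43601158870171648)))) (T.h (P (nat_lit 0)) (M (nat_lit 12786125555204095))))))) (T.h (T.h (T.h (P (nat_lit 0)) (T.h (P (nat_lit 34219577505904261729353728)) (T.h (P (nat_lit 0)) (T.h (M (nat_lit 101785428458033119231)) (T.h (P (nat_lit 0)) (P (nat_lit 16720912128480))))))) (T.h (P (nat_lit 0)) (T.h (T.h (P (nat_lit 0)) (T.h (M (nat_lit 220930338352237903871)) (T.h (P (nat_lit 0)) (M (nat_lit 12048870166367))))) (T.h (P (nat_lit 0)) (T.h (T.h (P (nat_lit 0)) (P (nat_lit 1483797581376))) (P (nat_lit 0))))))) (T.h (T.h (P (nat_lit 0)) (T.h (T.h (M (nat_lit 4980996676142313242623)) (T.h (P (nat_lit 0)) (M (nat_lit 24734882115387391)))) (T.h (P (nat_lit 0)) (P (nat_lit 48486625826766848))))) (T.h (T.h (T.h (P (nat_lit 0)) (T.h (P (nat_lit 62491710756640260096)) (T.h (P (nat_lit 0)) (M (nat_lit 15194470148207)))))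 (T.h (P (nat_lit 0)) (T.h (T.h (P (nat_lit 0)) (P (nat_lit 25587277519872))) (P (nat_lit 0))))) (T.h (T.h (P (nat_lit 0)) (M (nat_lit 39498243636592639))) (T.h (T.h (T.h (P (nat_lit 0)) (P (nat_lit 37160142996432))) (P (nat_lit 0))) (P (nat_lit 0)))))))), (T.h (T.h (P (nat_lit 0)) (T.h (T.h (P (nat_lit 0)) (T.h (M (nat_lit 3808010078810433310949375)) (T.h (P (nat_lit 0)) (P (nat_lit 7228349994594467840))))) (T.h (P (nat_lit 0)) (T.h (T.h (P (nat_lit 0)) (M (nat_lit 39699916217686949887))) (P (nat_lit 0)))))) (T.h (T.h (T.h (P (nat_lit 7898869424295032560457613312)) (T.h (P (nat_lit 0)) (T.h (M (nat_lit 20518604022785385693183)) (T.h (P (nat_lit 0)) (M (nat_lit 37244374366273535)))))) (T.h (P (nat_lit 0)) (T.h (T.h (P (nat_lit 66894456594855284965376)) (T.h (P (nat_lit 0)) (M (nat_lit 4558212600184831)))) (T.h (P (nat_lit 0)) (P (nat_lit 17205814889070592)))))) (T.h (T.h (P (nat_lit 0)) (T.h (T.h (P (nat_lit 0)) (P (nat_lit 47737917958413877248)))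 (P (nat_lit 0)))) (T.h (T.h (T.h (M (nat_lit 25619508905965531430911)) (T.h (P (nat_lit 0)) (M (nat_lit 25828239031599103)))) (T.h (P (nat_lit 0)) (M (nat_lit 34505731325050879)))) (T.h (P (nat_lit 0)) (M (nat_lit 5990357490696191))))))), (T.h (T.h (T.h (P (nat_lit 17487934428072267589535253135360)) (T.h (P (nat_lit 0)) (T.h (M (nat_lit 5115580566046666089562111)) (T.h (P (nat_lit 0)) (T.h (M (nat_lit 4476077744232333311)) (T.h (P (nat_lit 0)) (M (nat_lit 4974807978671)))))))) (T.h (P (nat_lit 0)) (T.h (T.h (P (nat_lit 3738535489435886610808832)) (T.h (P (nat_lit 0)) (T.h (P (nat_lit 41779584602443087872)) (T.h (P (nat_lit 0)) (M (nat_lit 974849383871)))))) (T.h (P (nat_lit 0)) (T.h (T.h (P (nat_lit 33195567503774842880)) (T.h (P (nat_lit 0)) (P (nat_lit 17195691032800)))) (T.h (P (nat_lit 0)) (M (nat_lit 9293895593023)))))))) (T.h (T.h (P (nat_lit 0)) (T.h (T.h (P (nat_lit 0)) (T.h (M (nat_lit 1159106777032331100159)) (T.h (P (nat_lit 0))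 (P (nat_lit 68599225140936704))))) (T.h (P (nat_lit 0)) (T.h (T.h (P (nat_lit 0)) (M (nat_lit 3663597815037951))) (P (nat_lit 0)))))) (T.h (T.h (T.h (P (nat_lit 3405504347900306815713280)) (T.h (P (nat_lit 0)) (T.h (P (nat_lit 16915251563889426432)) (T.h (P (nat_lit 0)) (M (nat_lit 9541535052335)))))) (T.h (P (nat_lit 0)) (T.h (T.h (M (nat_lit 43221148870325043199)) (T.h (P (nat_lit 0)) (P (nat_lit 3598095398016)))) (T.h (P (nat_lit 0)) (P (nat_lit 3450585787040)))))) (T.h (T.h (P (nat_lit 0)) (T.h (T.h (P (nat_lit 0)) (M (nat_lit 28545725357064191))) (P (nat_lit 0)))) (T.h (T.h (T.h (M (nat_lit 194954281965584383)) (T.h (P (nat_lit 0)) (M (nat_lit 3067565725055)))) (T.h (P (nat_lit 0)) (P (nat_lit 15738449462064)))) (T.h (P (nat_lit 0)) (M (nat_lit 841910550095)))))))), (T.h (T.h (T.h (P (nat_lit 0)) (T.h (M (nat_lit 17704674254613374955245535231)) (T.h (P (nat_lit 0)) (T.h (M (nat_lit 18453949334484821213183)) (T.h (P (nat_lit 0)) (M (nat_lit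 2042040104189951))))))) (T.h (P (nat_lit 0)) (T.h (T.h (P (nat_lit 0)) (T.h (M (nat_lit 39663302197560702140415)) (T.h (P (nat_lit 0)) (P (nat_lit 37585134534787072))))) (T.h (P (nat_lit 0)) (T.h (T.h (P (nat_lit 0)) (M (nat_lit 1988701508501503))) (P (nat_lit 0))))))) (T.h (T.h (P (nat_lit 0)) (T.h (T.h (P (nat_lit 22559255131153660985212928)) (T.h (P (nat_lit 0)) (T.h (M (nat_lit 181088701225520594943)) (T.h (P (nat_lit 0)) (P (nat_lit 1354154160720)))))) (T.h (P (nat_lit 0)) (T.h (T.h (M (nat_lit 126569252356567859199)) (T.h (P (nat_lit 0)) (M (nat_lit 14185622886863)))) (T.h (P (nat_lit 0)) (P (nat_lit 19252148844096))))))) (T.h (T.h (T.h (P (nat_lit 0)) (T.h (P (nat_lit 13367314397544824438784)) (T.h (P (nat_lit 0)) (P (nat_lit 60983721372450816))))) (T.h (P (nat_lit 0)) (T.h (T.h (P (nat_lit 0)) (M (nat_lit 13919475393134591))) (P (nat_lit 0))))) (T.h (T.h (P (nat_lit 0)) (T.h (T.h (P (nat_lit 43971332064680083456)) (T.h (P (nat_lit 0))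 (P (nat_lit 40187984740848)))) (T.h (P (nat_lit 0)) (M (nat_lit 8256450540863))))) (T.h (T.h (T.h (P (nat_lit 0)) (M (nat_lit 57291299511795711))) (P (nat_lit 0))) (T.h (T.h (P (nat_lit 0)) (P (nat_lit 36989846871168))) (P (nat_lit 0)))))))), (T.h (T.h (T.h (M (nat_lit 4376565908111054628920471060479)) (T.h (P (nat_lit 0)) (T.h (P (nat_lit 2426189989763040132726784)) (T.h (P (nat_lit 0)) (P (nat_lit 16557050731849318400)))))) (T.h (P (nat_lit 0)) (T.h (T.h (P (nat_lit 14231867605236094332829696)) (T.h (P (nat_lit 0)) (M (nat_lit 72511119179431018495)))) (T.h (P (nat_lit 0)) (P (nat_lit 43446440039001620480)))))) (T.h (T.h (P (nat_lit 0)) (T.h (T.h (P (nat_lit 0)) (T.h (P (nat_lit 71765123986171206041600)) (T.h (P (nat_lit 0)) (M (nat_lit 11587415939514367))))) (T.h (P (nat_lit 0)) (T.h (T.h (P (nat_lit 0)) (M (nat_lit 14773472188334079))) (P (nat_lit 0)))))) (T.h (T.h (T.h (P (nat_lit 41657778960101413843107840)) (T.h (P (nat_lit 0)) (M (nat_lit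 6688298021576245247)))) (T.h (P (nat_lit 0)) (P (nat_lit 15655914783830441984)))) (T.h (T.h (P (nat_lit 0)) (T.h (T.h (P (nat_lit 0)) (M (nat_lit 34024804449157119))) (P (nat_lit 0)))) (P (nat_lit 53440538140462809088))))))]
def lP11_31 : List (T ℤ) := [(T.h (T.h (P (nat_lit 0)) (T.h (T.h (P (nat_lit 12694516132953067105525170176)) (T.h (P (nat_lit 0)) (T.h (M (nat_lit 30087155017129438216191)) (T.h (P (nat_lit 0)) (M (nat_lit 12254034039898111)))))) (T.h (P (nat_lit 0)) (T.h (T.h (P (nat_lit 1667884357152340443136)) (T.h (P (nat_lit 0)) (M (nat_lit 30039293195386879)))) (T.h (P (nat_lit 0)) (P (nat_lit 28219518888411136))))))) (T.h (T.h (T.h (P (nat_lit 0)) (T.h (M (nat_lit 12932720779095484709994495)) (T.h (P (nat_lit 0)) (T.h (M (nat_lit 28204431904241352703)) (T.h (P (nat_lit 0)) (P (nat_lit 4888059757872))))))) (T.h (P (nat_lit 0)) (T.h (T.h (P (nat_lit 0)) (T.h (P (nat_lit 74074457738617815040)) (T.h (P (nat_lit 0)) (M (nat_lit 21703434464063)))))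 (T.h (P (nat_lit 0)) (T.h (T.h (P (nat_lit 0)) (M (nat_lit 26269413742655))) (P (nat_lit 0))))))) (T.h (T.h (P (nat_lit 0)) (T.h (T.h (P (nat_lit 24480591155283993034752)) (T.h (P (nat_lit 0)) (P (nat_lit 18089952219463680)))) (T.h (P (nat_lit 0)) (P (nat_lit 2311032504811520))))) (T.h (T.h (T.h (P (nat_lit 0)) (T.h (P (nat_lit 4923577516783828992)) (T.h (P (nat_lit 0)) (P (nat_lit 17972683773504))))) (T.h (P (nat_lit 0)) (T.h (T.h (P (nat_lit 0)) (P (nat_lit 32553611291904))) (P (nat_lit 0))))) (T.h (T.h (P (nat_lit 0)) (M (nat_lit 35401708404146175))) (T.h (T.h (T.h (P (nat_lit 0)) (M (nat_lit 14348130743711))) (P (nat_lit 0))) (P (nat_lit 0)))))))), (T.h (T.h (P (nat_lit 0)) (T.h (T.h (P (nat_lit 0)) (T.h (P (nat_lit 744127512378813555146752)) (T.h (P (nat_lit 0)) (M (nat_lit 43240701282731687935))))) (T.h (P (nat_lit 0)) (T.h (T.h (P (nat_lit 0)) (P (nat_lit 3687564929549729792))) (P (nat_lit 0)))))) (T.h (T.h (T.h (M (nat_lit 2893019493596279392243286015))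 (T.h (P (nat_lit 0)) (T.h (P (nat_lit 106208656867049003286528)) (T.h (P (nat_lit 0)) (P (nat_lit 6186033858117632)))))) (T.h (P (nat_lit 0)) (T.h (T.h (P (nat_lit 18795596249408332627968)) (T.h (P (nat_lit 0)) (M (nat_lit 20986041552060415)))) (T.h (P (nat_lit 0)) (M (nat_lit 48264155397226495)))))) (T.h (T.h (P (nat_lit 0)) (T.h (T.h (P (nat_lit 0)) (P (nat_lit 108624038561860026368))) (P (nat_lit 0)))) (T.h (T.h (T.h (M (nat_lit 27246261378647213473791)) (T.h (P (nat_lit 0)) (M (nat_lit 64878600746582015)))) (T.h (P (nat_lit 0)) (M (nat_lit 56201108453130239)))) (T.h (P (nat_lit 0)) (M (nat_lit 19637590254747647))))))), (T.h (T.h (T.h (P (nat_lit 155995632080566823416296898560)) (T.h (P (nat_lit 0)) (T.h (P (nat_lit 12422111740482366000332800)) (T.h (P (nat_lit 0)) (P (nat_lit 10031253014880190464)))))) (T.h (P (nat_lit 0)) (T.h (T.h (M (nat_lit 12445850496719112502247423)) (T.h (P (nat_lit 0)) (P (nat_lit 5356113671795769344)))) (T.h (P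 (nat_lit 0)) (M (nat_lit 36735780757811757055)))))) (T.h (T.h (P (nat_lit 0)) (T.h (T.h (P (nat_lit 0)) (T.h (P (nat_lit 52185957645468458549248)) (T.h (P (nat_lit 0)) (P (nat_lit 6569147204567040))))) (T.h (P (nat_lit 0)) (T.h (T.h (P (nat_lit 0)) (P (nat_lit 6473811213385728))) (P (nat_lit 0)))))) (T.h (T.h (T.h (M (nat_lit 8996315308694133733851135)) (T.h (P (nat_lit 0)) (P (nat_lit 13207607049124315136)))) (T.h (P (nat_lit 0)) (M (nat_lit 14491892079333998591)))) (T.h (T.h (P (nat_lit 0)) (T.h (T.h (P (nat_lit 0)) (P (nat_lit 15006674001788928))) (P (nat_lit 0)))) (M (nat_lit 24572684326989201407)))))), (T.h (T.h (P (nat_lit 0)) (T.h (T.h (P (nat_lit 0)) (T.h (P (nat_lit 3147941618468942604402688)) (T.h (P (nat_lit 0)) (T.h (M (nat_lit 14654403036332425215)) (T.h (P (nat_lit 0)) (P (nat_lit 1333360900360))))))) (T.h (P (nat_lit 0)) (T.h (T.h (P (nat_lit 0)) (T.h (M (nat_lit 14522462245515952127)) (T.h (P (nat_lit 0)) (P (nat_lit 3114189266208)))))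 (T.h (P (nat_lit 0)) (T.h (T.h (P (nat_lit 0)) (P (nat_lit 1403340751448))) (P (nat_lit 0)))))))) (T.h (T.h (T.h (M (nat_lit 6710137670469634890370383871)) (T.h (P (nat_lit 0)) (T.h (M (nat_lit 7145578919625811296255)) (T.h (P (nat_lit 0)) (M (nat_lit 7390483838959615)))))) (T.h (P (nat_lit 0)) (T.h (T.h (M (nat_lit 2995186226142658953215)) (T.h (P (nat_lit 0)) (M (nat_lit 5119387493728255)))) (T.h (P (nat_lit 0)) (M (nat_lit 8877860582555647)))))) (T.h (T.h (P (nat_lit 0)) (T.h (T.h (P (nat_lit 0)) (T.h (M (nat_lit 15443931641180848127)) (T.h (P (nat_lit 0)) (P (nat_lit 4503270309448))))) (T.h (P (nat_lit 0)) (T.h (T.h (P (nat_lit 0)) (M (nat_lit 110400139431))) (P (nat_lit 0)))))) (T.h (T.h (T.h (M (nat_lit 8784275359082477518847)) (T.h (P (nat_lit 0)) (M (nat_lit 6980069744508927)))) (T.h (P (nat_lit 0)) (M (nat_lit 17858861881032703)))) (T.h (T.h (P (nat_lit 0)) (T.h (T.h (P (nat_lit 0)) (M (nat_lit 2972229967967))) (P (nat_lit 0)))) (P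 (nat_lit 7334363874459648))))))), (T.h (T.h (P (nat_lit 0)) (T.h (T.h (M (nat_lit 2183137425904434638667907071)) (T.h (P (nat_lit 0)) (T.h (P (nat_lit 1595751522983967981568)) (T.h (P (nat_lit 0)) (M (nat_lit 10387681152090111)))))) (T.h (P (nat_lit 0)) (T.h (T.h (P (nat_lit 1146563286424017174528)) (T.h (P (nat_lit 0)) (M (nat_lit 30936074729717759)))) (T.h (P (nat_lit 0)) (P (nat_lit 2008321073004544))))))) (T.h (T.h (T.h (P (nat_lit 0)) (T.h (P (nat_lit 11006440254763849941516288)) (T.h (P (nat_lit 0)) (T.h (P (nat_lit 16119823565909393408)) (T.h (P (nat_lit 0)) (M (nat_lit 476646617775))))))) (T.h (P (nat_lit 0)) (T.h (T.h (P (nat_lit 0)) (T.h (P (nat_lit 17390635901448617984)) (T.h (P (nat_lit 0)) (P (nat_lit 3403801104368))))) (T.h (P (nat_lit 0)) (T.h (T.h (P (nat_lit 0)) (M (nat_lit 170731117199))) (P (nat_lit 0))))))) (T.h (T.h (P (nat_lit 0)) (T.h (T.h (M (nat_lit 27481446203344965074943)) (T.h (P (nat_lit 0)) (M (nat_lit 1654209649672191))))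 (T.h (P (nat_lit 0)) (P (nat_lit 24685718477160448))))) (T.h (T.h (T.h (P (nat_lit 0)) (T.h (M (nat_lit 10212482558193565695)) (T.h (P (nat_lit 0)) (M (nat_lit 267617463791))))) (T.h (P (nat_lit 0)) (T.h (T.h (P (nat_lit 0)) (P (nat_lit 8038665908672))) (P (nat_lit 0))))) (T.h (T.h (P (nat_lit 0)) (M (nat_lit 4103378252595199))) (T.h (T.h (T.h (P (nat_lit 0)) (P (nat_lit 11875290719936))) (P (nat_lit 0))) (P (nat_lit 0)))))))), (T.h (T.h (P (nat_lit 0)) (T.h (T.h (P (nat_lit 0)) (T.h (M (nat_lit 6596670900851402304651263)) (T.h (P (nat_lit 0)) (T.h (P (nat_lit 19514475805688201216)) (T.h (P (nat_lit 0)) (M (nat_lit 5108631799679))))))) (T.h (P (nat_lit 0)) (T.h (T.h (P (nat_lit 0)) (T.h (M (nat_lit 4921241330123800575)) (T.h (P (nat_lit 0)) (P (nat_lit 7971373389648))))) (T.h (P (nat_lit 0)) (T.h (T.h (P (nat_lit 0)) (M (nat_lit 9164603746943))) (P (nat_lit 0)))))))) (T.h (T.h (T.h (P (nat_lit 4603839004082732782111948800)) (T.h (P (nat_lit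 0)) (T.h (P (nat_lit 28647703300755549061120)) (T.h (P (nat_lit 0)) (P (nat_lit 27870905071534080)))))) (T.h (P (nat_lit 0)) (T.h (T.h (P (nat_lit 14294575167020482953216)) (T.h (P (nat_lit 0)) (M (nat_lit 4952338308300799)))) (T.h (P (nat_lit 0)) (M (nat_lit 4070874150305791)))))) (T.h (T.h (P (nat_lit 0)) (T.h (T.h (P (nat_lit 0)) (T.h (M (nat_lit 39250634255368191)) (T.h (P (nat_lit 0)) (P (nat_lit 25102801519776))))) (T.h (P (nat_lit 0)) (T.h (T.h (P (nat_lit 0)) (P (nat_lit 31647341982192))) (P (nat_lit 0)))))) (T.h (T.h (T.h (M (nat_lit 451937267142675660799)) (T.h (P (nat_lit 0)) (M (nat_lit 16800158102618111)))) (T.h (P (nat_lit 0)) (M (nat_lit 17089846118907903)))) (T.h (T.h (P (nat_lit 0)) (T.h (T.h (P (nat_lit 0)) (M (nat_lit 1128251633855))) (P (nat_lit 0)))) (P (nat_lit 9716097229586432))))))), (T.h (T.h (P (nat_lit 0)) (T.h (T.h (M (nat_lit 9444388680319584730748026879)) (T.h (P (nat_lit 0)) (T.h (P (nat_lit 4498893292917248491520))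 (T.h (P (nat_lit 0)) (P (nat_lit 17641106541363200)))))) (T.h (P (nat_lit 0)) (T.h (T.h (M (nat_lit 11887339130370524184575)) (T.h (P (nat_lit 0)) (M (nat_lit 1483925649195007)))) (T.h (P (nat_lit 0)) (P (nat_lit 2323722480533504))))))) (T.h (T.h (T.h (P (nat_lit 0)) (T.h (P (nat_lit 10198635777548292081057792)) (T.h (P (nat_lit 0)) (M (nat_lit 44064355139457122303))))) (T.h (P (nat_lit 0)) (T.h (T.h (P (nat_lit 0)) (M (nat_lit 9004690242220851199))) (P (nat_lit 0))))) (T.h (T.h (P (nat_lit 0)) (T.h (T.h (P (nat_lit 30742105541402773422080)) (T.h (P (nat_lit 0)) (M (nat_lit 44089042524880895)))) (T.h (P (nat_lit 0)) (M (nat_lit 22101788836069375))))) (T.h (T.h (T.h (P (nat_lit 0)) (M (nat_lit 10587787297082572799))) (P (nat_lit 0))) (T.h (T.h (P (nat_lit 0)) (P (nat_lit 24581947639840768))) (P (nat_lit 0))))))), (T.h (T.h (T.h (P (nat_lit 0)) (T.h (M (nat_lit 2183137425904434638667907071)) (T.h (P (nat_lit 0)) (T.h (P (nat_lit 1146563286424017174528))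 (T.h (P (nat_lit 0)) (P (nat_lit 2008321073004544))))))) (T.h (P (nat_lit 0)) (T.h (T.h (P (nat_lit 0)) (T.h (P (nat_lit 1595751522983967981568)) (T.h (P (nat_lit 0)) (M (nat_lit 30936074729717759))))) (T.h (P (nat_lit 0)) (T.h (T.h (P (nat_lit 0)) (M (nat_lit 10387681152090111))) (P (nat_lit 0))))))) (T.h (T.h (P (nat_lit 0)) (T.h (T.h (P (nat_lit 11006440254763849941516288)) (T.h (P (nat_lit 0)) (T.h (P (nat_lit 17390635901448617984)) (T.h (P (nat_lit 0)) (M (nat_lit 170731117199)))))) (T.h (P (nat_lit 0)) (T.h (T.h (P (nat_lit 16119823565909393408)) (T.h (P (nat_lit 0)) (P (nat_lit 3403801104368)))) (T.h (P (nat_lit 0)) (M (nat_lit 476646617775))))))) (T.h (T.h (T.h (P (nat_lit 0)) (T.h (M (nat_lit 27481446203344965074943)) (T.h (P (nat_lit 0)) (P (nat_lit 24685718477160448))))) (T.h (P (nat_lit 0)) (T.h (T.h (P (nat_lit 0)) (M (nat_lit 1654209649672191))) (P (nat_lit 0))))) (T.h (T.h (P (nat_lit 0)) (T.h (T.h (M (nat_lit 10212482558193565695))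 (T.h (P (nat_lit 0)) (P (nat_lit 8038665908672)))) (T.h (P (nat_lit 0)) (M (nat_lit 267617463791))))) (T.h (T.h (T.h (P (nat_lit 0)) (M (nat_lit 4103378252595199))) (P (nat_lit 0))) (T.h (T.h (P (nat_lit 0)) (P (nat_lit 11875290719936))) (P (nat_lit 0))))))))]
def lP11_32 : List (T ℤ) := [(T.h (T.h (T.h (M (nat_lit 810696587689923214839151329279)) (T.h (P (nat_lit 0)) (T.h (M (nat_lit 3407005411166908284141567)) (T.h (P (nat_lit 0)) (T.h (P (nat_lit 558531456423428096)) (T.h (P (nat_lit 0)) (M (nat_lit 4261242224735)))))))) (T.h (P (nat_lit 0)) (T.h (T.h (M (nat_lit 3407005411166908284141567)) (T.h (P (nat_lit 0)) (T.h (P (nat_lit 96046158667346608128)) (T.h (P (nat_lit 0)) (M (nat_lit 6016117140431)))))) (T.h (P (nat_lit 0)) (T.h (T.h (P (nat_lit 558531456423428096)) (T.h (P (nat_lit 0)) (M (nat_lit 6016117140431)))) (T.h (P (nat_lit 0)) (M (nat_lit 4261242224735)))))))) (T.h (T.h (P (nat_lit 0)) (T.h (T.h (P (nat_lit 0)) (T.h (P (nat_lit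 81885751788132947197952)) (T.h (P (nat_lit 0)) (P (nat_lit 62483176773517312))))) (T.h (P (nat_lit 0)) (T.h (T.h (P (nat_lit 0)) (P (nat_lit 62483176773517312))) (P (nat_lit 0)))))) (T.h (T.h (T.h (P (nat_lit 37753905792173428090863616)) (T.h (P (nat_lit 0)) (T.h (M (nat_lit 69781802947230826495)) (T.h (P (nat_lit 0)) (P (nat_lit 9878987290848)))))) (T.h (P (nat_lit 0)) (T.h (T.h (M (nat_lit 69781802947230826495)) (T.h (P (nat_lit 0)) (P (nat_lit 30474460727712)))) (T.h (P (nat_lit 0)) (P (nat_lit 9878987290848)))))) (T.h (T.h (P (nat_lit 0)) (T.h (T.h (P (nat_lit 0)) (M (nat_lit 59976003680468991))) (P (nat_lit 0)))) (T.h (T.h (T.h (M (nat_lit 3032841192715845631)) (T.h (P (nat_lit 0)) (P (nat_lit 13392062460096)))) (T.h (P (nat_lit 0)) (P (nat_lit 13392062460096)))) (T.h (P (nat_lit 0)) (P (nat_lit 6720453248160)))))))), (T.h (T.h (T.h (P (nat_lit 0)) (T.h (P (nat_lit 3057717378853825663268290560)) (T.h (P (nat_lit 0)) (T.h (P (nat_lit 1780258074724053024768))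 (T.h (P (nat_lit 0)) (P (nat_lit 4763365724028928))))))) (T.h (P (nat_lit 0)) (T.h (T.h (P (nat_lit 0)) (T.h (P (nat_lit 8447562600720023683072)) (T.h (P (nat_lit 0)) (P (nat_lit 4163999934857216))))) (T.h (P (nat_lit 0)) (T.h (T.h (P (nat_lit 0)) (P (nat_lit 19241456788209664))) (P (nat_lit 0))))))) (T.h (T.h (P (nat_lit 0)) (T.h (T.h (M (nat_lit 12660772485101187447652351)) (T.h (P (nat_lit 0)) (M (nat_lit 45047154406338854911)))) (T.h (P (nat_lit 0)) (M (nat_lit 35855661794571845631))))) (T.h (T.h (T.h (P (nat_lit 0)) (T.h (M (nat_lit 34371714572181032665087)) (T.h (P (nat_lit 0)) (M (nat_lit 6497396134756351))))) (T.h (P (nat_lit 0)) (T.h (T.h (P (nat_lit 0)) (M (nat_lit 79412148893564927))) (P (nat_lit 0))))) (T.h (T.h (P (nat_lit 0)) (P (nat_lit 112093646349093830656))) (T.h (T.h (T.h (P (nat_lit 0)) (M (nat_lit 72177182128979967))) (P (nat_lit 0))) (P (nat_lit 0))))))), (T.h (T.h (P (nat_lit 0)) (T.h (T.h (P (nat_lit 0)) (T.h (M (nat_lit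 9744612519320344909053951)) (T.h (P (nat_lit 0)) (T.h (P (nat_lit 9667191310800388096)) (T.h (P (nat_lit 0)) (M (nat_lit 10532954572847))))))) (T.h (P (nat_lit 0)) (T.h (T.h (P (nat_lit 0)) (T.h (P (nat_lit 34102908446612389888)) (T.h (P (nat_lit 0)) (P (nat_lit 4857184123440))))) (T.h (P (nat_lit 0)) (T.h (T.h (P (nat_lit 0)) (M (nat_lit 6476982625583))) (P (nat_lit 0)))))))) (T.h (T.h (T.h (P (nat_lit 11313976674552367672482332672)) (T.h (P (nat_lit 0)) (T.h (P (nat_lit 19364957739904718077952)) (T.h (P (nat_lit 0)) (P (nat_lit 4063298060451840)))))) (T.h (P (nat_lit 0)) (T.h (T.h (P (nat_lit 33718085873639784185856)) (T.h (P (nat_lit 0)) (P (nat_lit 167049185427456)))) (T.h (P (nat_lit 0)) (P (nat_lit 36005077282291712)))))) (T.h (T.h (P (nat_lit 0)) (T.h (T.h (P (nat_lit 0)) (T.h (P (nat_lit 15404681006925479936)) (T.h (P (nat_lit 0)) (P (nat_lit 29450906897184))))) (T.h (P (nat_lit 0)) (T.h (T.h (P (nat_lit 0)) (P (nat_lit 22906366434768)))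 (P (nat_lit 0)))))) (T.h (T.h (T.h (P (nat_lit 8332338091939801858048)) (T.h (P (nat_lit 0)) (M (nat_lit 4670380306137087)))) (T.h (P (nat_lit 0)) (M (nat_lit 4380692289847295)))) (T.h (T.h (P (nat_lit 0)) (T.h (T.h (P (nat_lit 0)) (P (nat_lit 1843978334112))) (P (nat_lit 0)))) (P (nat_lit 2381733355126784))))))), (T.h (T.h (P (nat_lit 0)) (T.h (T.h (P (nat_lit 6460059366920003304890040320)) (T.h (P (nat_lit 0)) (T.h (M (nat_lit 11020370147524416110591)) (T.h (P (nat_lit 0)) (P (nat_lit 21621027152003072)))))) (T.h (P (nat_lit 0)) (T.h (T.h (P (nat_lit 2091539799563263016960)) (T.h (P (nat_lit 0)) (P (nat_lit 8082274672050176)))) (T.h (P (nat_lit 0)) (P (nat_lit 4366434007007232))))))) (T.h (T.h (T.h (P (nat_lit 0)) (T.h (M (nat_lit 29704257341568327306182655)) (T.h (P (nat_lit 0)) (M (nat_lit 48285275319487692799))))) (T.h (P (nat_lit 0)) (T.h (T.h (P (nat_lit 0)) (M (nat_lit 56787007298087157759))) (P (nat_lit 0))))) (T.h (T.h (P (nat_lit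 0)) (T.h (T.h (M (nat_lit 11814248809590847176703)) (T.h (P (nat_lit 0)) (M (nat_lit 92114123560796159)))) (T.h (P (nat_lit 0)) (M (nat_lit 12852211703660543))))) (T.h (T.h (T.h (P (nat_lit 0)) (P (nat_lit 109197555107438264320))) (P (nat_lit 0))) (T.h (T.h (P (nat_lit 0)) (M (nat_lit 72901064570929151))) (P (nat_lit 0))))))), (T.h (T.h (T.h (P (nat_lit 0)) (T.h (M (nat_lit 6042046692253407089126277119)) (T.h (P (nat_lit 0)) (T.h (M (nat_lit 11576057405531314192383)) (T.h (P (nat_lit 0)) (P (nat_lit 1926790763511808))))))) (T.h (P (nat_lit 0)) (T.h (T.h (P (nat_lit 0)) (T.h (M (nat_lit 14969039455327191302143)) (T.h (P (nat_lit 0)) (P (nat_lit 2434349087997952))))) (T.h (P (nat_lit 0)) (T.h (T.h (P (nat_lit 0)) (P (nat_lit 20020676905156608))) (P (nat_lit 0))))))) (T.h (T.h (P (nat_lit 0)) (T.h (T.h (M (nat_lit 6844849078918847777472511)) (T.h (P (nat_lit 0)) (M (nat_lit 20744543133969154047)))) (T.h (P (nat_lit 0)) (M (nat_lit 56493968664372969471)))))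 (T.h (T.h (T.h (P (nat_lit 0)) (T.h (P (nat_lit 53299571303992958910464)) (T.h (P (nat_lit 0)) (M (nat_lit 28456604404973567))))) (T.h (P (nat_lit 0)) (T.h (T.h (P (nat_lit 0)) (M (nat_lit 56791017192112127))) (P (nat_lit 0))))) (T.h (T.h (P (nat_lit 0)) (M (nat_lit 13483878538738139135))) (T.h (T.h (T.h (P (nat_lit 0)) (P (nat_lit 23858065197891584))) (P (nat_lit 0))) (P (nat_lit 0))))))), (T.h (T.h (T.h (P (nat_lit 7955821324122392065238856892416)) (T.h (P (nat_lit 0)) (T.h (P (nat_lit 706434760272425848406016)) (T.h (P (nat_lit 0)) (T.h (P (nat_lit 4427669298030313472)) (T.h (P (nat_lit 0)) (M (nat_lit 2838909460015)))))))) (T.h (P (nat_lit 0)) (T.h (T.h (P (nat_lit 706434760272425848406016)) (T.h (P (nat_lit 0)) (T.h (P (nat_lit 4485432474456817664)) (T.h (P (nat_lit 0)) (P (nat_lit 1714226929744)))))) (T.h (P (nat_lit 0)) (T.h (T.h (P (nat_lit 4427669298030313472)) (T.h (P (nat_lit 0)) (P (nat_lit 1714226929744)))) (T.h (P (nat_lit 0))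 (M (nat_lit 2838909460015)))))))) (T.h (T.h (P (nat_lit 0)) (T.h (T.h (P (nat_lit 0)) (T.h (P (nat_lit 10114515785597969235968)) (T.h (P (nat_lit 0)) (M (nat_lit 7725811003260927))))) (T.h (P (nat_lit 0)) (T.h (T.h (P (nat_lit 0)) (M (nat_lit 7725811003260927))) (P (nat_lit 0)))))) (T.h (T.h (T.h (P (nat_lit 7393668704782508321931264)) (T.h (P (nat_lit 0)) (T.h (P (nat_lit 14592576984723750912)) (T.h (P (nat_lit 0)) (M (nat_lit 4410506974159)))))) (T.h (P (nat_lit 0)) (T.h (T.h (P (nat_lit 14592576984723750912)) (T.h (P (nat_lit 0)) (M (nat_lit 4950411610591)))) (T.h (P (nat_lit 0)) (M (nat_lit 4410506974159)))))) (T.h (T.h (P (nat_lit 0)) (T.h (T.h (P (nat_lit 0)) (P (nat_lit 123914970333184))) (P (nat_lit 0)))) (T.h (T.h (T.h (M (nat_lit 4062598691368730623)) (T.h (P (nat_lit 0)) (M (nat_lit 3133739275967)))) (T.h (P (nat_lit 0)) (M (nat_lit 3133739275967)))) (T.h (P (nat_lit 0)) (P (nat_lit 3652989002656)))))))), (T.h (T.h (T.h (P (nat_lit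 0)) (T.h (P (nat_lit 6851398732185546236270477312)) (T.h (P (nat_lit 0)) (T.h (M (nat_lit 4732893267667112165375)) (T.h (P (nat_lit 0)) (P (nat_lit 10744085451014144))))))) (T.h (P (nat_lit 0)) (T.h (T.h (P (nat_lit 0)) (T.h (M (nat_lit 21425206370652458582015)) (T.h (P (nat_lit 0)) (M (nat_lit 6016024335384575))))) (T.h (P (nat_lit 0)) (T.h (T.h (P (nat_lit 0)) (M (nat_lit 12728265808248831))) (P (nat_lit 0))))))) (T.h (T.h (P (nat_lit 0)) (T.h (T.h (M (nat_lit 11660322374750600744140799)) (T.h (P (nat_lit 0)) (T.h (P (nat_lit 39841637126717308928)) (T.h (P (nat_lit 0)) (M (nat_lit 129643420655)))))) (T.h (P (nat_lit 0)) (T.h (T.h (M (nat_lit 24783823898534739967)) (T.h (P (nat_lit 0)) (M (nat_lit 2136752720495)))) (T.h (P (nat_lit 0)) (P (nat_lit 2531236715616))))))) (T.h (T.h (T.h (P (nat_lit 0)) (T.h (P (nat_lit 18348311073687137681408)) (T.h (P (nat_lit 0)) (P (nat_lit 12497095545683968))))) (T.h (P (nat_lit 0)) (T.h (T.h (P (nat_lit 0))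 (P (nat_lit 10815406722252800))) (P (nat_lit 0))))) (T.h (T.h (P (nat_lit 0)) (T.h (T.h (M (nat_lit 18520378691960176639)) (T.h (P (nat_lit 0)) (P (nat_lit 14600707220976)))) (T.h (P (nat_lit 0)) (P (nat_lit 6938019607344))))) (T.h (T.h (T.h (P (nat_lit 0)) (M (nat_lit 17793055875203071))) (P (nat_lit 0))) (T.h (T.h (P (nat_lit 0)) (M (nat_lit 170296125263))) (P (nat_lit 0)))))))), (T.h (T.h (T.h (M (nat_lit 1410570906212094888288156909567)) (T.h (P (nat_lit 0)) (T.h (M (nat_lit 2713202957367080711618559)) (T.h (P (nat_lit 0)) (M (nat_lit 20438749490257592319)))))) (T.h (P (nat_lit 0)) (T.h (T.h (P (nat_lit 9092474658105973488484352)) (T.h (P (nat_lit 0)) (P (nat_lit 2049630866191155200)))) (T.h (P (nat_lit 0)) (P (nat_lit 6450639816894709760)))))) (T.h (T.h (P (nat_lit 0)) (T.h (T.h (P (nat_lit 0)) (T.h (P (nat_lit 25522296248950983753728)) (T.h (P (nat_lit 0)) (M (nat_lit 16959839353831423))))) (T.h (P (nat_lit 0)) (T.h (T.h (P (nat_lit 0))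 (M (nat_lit 20145895602651135))) (P (nat_lit 0)))))) (T.h (T.h (T.h (P (nat_lit 736332230657898056777728)) (T.h (P (nat_lit 0)) (M (nat_lit 12443088561886986239)))) (T.h (P (nat_lit 0)) (P (nat_lit 9901124243519700992)))) (T.h (T.h (P (nat_lit 0)) (T.h (T.h (P (nat_lit 0)) (M (nat_lit 8426976565428223))) (P (nat_lit 0)))) (M (nat_lit 8275653059435036671))))))]
def lP11_33 : List (T ℤ) := [(T.h (T.h (P (nat_lit 0)) (T.h (T.h (P (nat_lit 6851398732185546236270477312)) (T.h (P (nat_lit 0)) (T.h (M (nat_lit 21425206370652458582015)) (T.h (P (nat_lit 0)) (M (nat_lit 12728265808248831)))))) (T.h (P (nat_lit 0)) (T.h (T.h (M (nat_lit 4732893267667112165375)) (T.h (P (nat_lit 0)) (M (nat_lit 6016024335384575)))) (T.h (P (nat_lit 0)) (P (nat_lit 10744085451014144))))))) (T.h (T.h (T.h (P (nat_lit 0)) (T.h (M (nat_lit 11660322374750600744140799)) (T.h (P (nat_lit 0)) (T.h (M (nat_lit 24783823898534739967)) (T.h (P (nat_lit 0)) (P (nat_lit 2531236715616)))))))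 (T.h (P (nat_lit 0)) (T.h (T.h (P (nat_lit 0)) (T.h (P (nat_lit 39841637126717308928)) (T.h (P (nat_lit 0)) (M (nat_lit 2136752720495))))) (T.h (P (nat_lit 0)) (T.h (T.h (P (nat_lit 0)) (M (nat_lit 129643420655))) (P (nat_lit 0))))))) (T.h (T.h (P (nat_lit 0)) (T.h (T.h (P (nat_lit 18348311073687137681408)) (T.h (P (nat_lit 0)) (P (nat_lit 10815406722252800)))) (T.h (P (nat_lit 0)) (P (nat_lit 12497095545683968))))) (T.h (T.h (T.h (P (nat_lit 0)) (T.h (M (nat_lit 18520378691960176639)) (T.h (P (nat_lit 0)) (P (nat_lit 6938019607344))))) (T.h (P (nat_lit 0)) (T.h (T.h (P (nat_lit 0)) (P (nat_lit 14600707220976))) (P (nat_lit 0))))) (T.h (T.h (P (nat_lit 0)) (M (nat_lit 17793055875203071))) (T.h (T.h (T.h (P (nat_lit 0)) (M (nat_lit 170296125263))) (P (nat_lit 0))) (P (nat_lit 0)))))))), (T.h (T.h (P (nat_lit 0)) (T.h (T.h (P (nat_lit 0)) (T.h (P (nat_lit 4552137591189246866096128)) (T.h (P (nat_lit 0)) (M (nat_lit 3540785065044738047))))) (T.h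 (P (nat_lit 0)) (T.h (T.h (P (nat_lit 0)) (M (nat_lit 3540785065044738047))) (P (nat_lit 0)))))) (T.h (T.h (T.h (M (nat_lit 10791888917891311952700899327)) (T.h (P (nat_lit 0)) (T.h (P (nat_lit 39314200272193718321152)) (T.h (P (nat_lit 0)) (M (nat_lit 11019781030952959)))))) (T.h (P (nat_lit 0)) (T.h (T.h (P (nat_lit 39314200272193718321152)) (T.h (P (nat_lit 0)) (M (nat_lit 16427828951875583)))) (T.h (P (nat_lit 0)) (M (nat_lit 11019781030952959)))))) (T.h (T.h (P (nat_lit 0)) (T.h (T.h (P (nat_lit 0)) (P (nat_lit 60886120603446149120))) (P (nat_lit 0)))) (T.h (T.h (T.h (M (nat_lit 1626752472681682042879)) (T.h (P (nat_lit 0)) (M (nat_lit 30372869421531135)))) (T.h (P (nat_lit 0)) (M (nat_lit 30372869421531135)))) (T.h (P (nat_lit 0)) (M (nat_lit 13647232764051455))))))), (T.h (T.h (T.h (M (nat_lit 3740987061095588908554208149503)) (T.h (P (nat_lit 0)) (T.h (P (nat_lit 6371836791430659931373568)) (T.h (P (nat_lit 0)) (P (nat_lit 4555080799610732544))))))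 (T.h (P (nat_lit 0)) (T.h (T.h (M (nat_lit 5433840824042394268729343)) (T.h (P (nat_lit 0)) (P (nat_lit 1290952850234408960)))) (T.h (P (nat_lit 0)) (M (nat_lit 22334308507541569535)))))) (T.h (T.h (P (nat_lit 0)) (T.h (T.h (P (nat_lit 0)) (T.h (P (nat_lit 17990970770476507332608)) (T.h (P (nat_lit 0)) (M (nat_lit 18646462584619007))))) (T.h (P (nat_lit 0)) (T.h (T.h (P (nat_lit 0)) (M (nat_lit 15460406335799295))) (P (nat_lit 0)))))) (T.h (T.h (T.h (M (nat_lit 6728416557359817807626239)) (T.h (P (nat_lit 0)) (P (nat_lit 938978445570867200)))) (T.h (P (nat_lit 0)) (M (nat_lit 21405234359835820031)))) (T.h (T.h (P (nat_lit 0)) (T.h (T.h (P (nat_lit 0)) (M (nat_lit 12485061215027199))) (P (nat_lit 0)))) (M (nat_lit 6702443274973478911)))))), (T.h (T.h (P (nat_lit 0)) (T.h (T.h (P (nat_lit 0)) (T.h (M (nat_lit 3147941618468942604402687)) (T.h (P (nat_lit 0)) (T.h (P (nat_lit 14588432640924188672)) (T.h (P (nat_lit 0)) (M (nat_lit 1368350825903)))))))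 (T.h (P (nat_lit 0)) (T.h (T.h (P (nat_lit 0)) (T.h (P (nat_lit 14588432640924188672)) (T.h (P (nat_lit 0)) (M (nat_lit 3114189266207))))) (T.h (P (nat_lit 0)) (T.h (T.h (P (nat_lit 0)) (M (nat_lit 1368350825903))) (P (nat_lit 0)))))))) (T.h (T.h (T.h (P (nat_lit 6710137670469634890370383872)) (T.h (P (nat_lit 0)) (T.h (P (nat_lit 5070382572884235124736)) (T.h (P (nat_lit 0)) (P (nat_lit 8134172210757632)))))) (T.h (P (nat_lit 0)) (T.h (T.h (P (nat_lit 5070382572884235124736)) (T.h (P (nat_lit 0)) (P (nat_lit 5119387493728256)))) (T.h (P (nat_lit 0)) (P (nat_lit 8134172210757632)))))) (T.h (T.h (P (nat_lit 0)) (T.h (T.h (P (nat_lit 0)) (T.h (P (nat_lit 15443931641180848128)) (T.h (P (nat_lit 0)) (M (nat_lit 2196435085007))))) (T.h (P (nat_lit 0)) (T.h (T.h (P (nat_lit 0)) (M (nat_lit 2196435085007))) (P (nat_lit 0)))))) (T.h (T.h (T.h (P (nat_lit 8784275359082477518848)) (T.h (P (nat_lit 0)) (P (nat_lit 12419465812770816)))) (T.h (P (nat_lit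 0)) (P (nat_lit 12419465812770816)))) (T.h (T.h (P (nat_lit 0)) (T.h (T.h (P (nat_lit 0)) (P (nat_lit 2972229967968))) (P (nat_lit 0)))) (M (nat_lit 7334363874459647))))))), (T.h (T.h (P (nat_lit 0)) (T.h (T.h (P (nat_lit 3402341988066177641621749760)) (T.h (P (nat_lit 0)) (T.h (M (nat_lit 19467932748244439793663)) (T.h (P (nat_lit 0)) (P (nat_lit 2379570363793408)))))) (T.h (P (nat_lit 0)) (T.h (T.h (P (nat_lit 311281724839209992192)) (T.h (P (nat_lit 0)) (P (nat_lit 3918274737192960)))) (T.h (P (nat_lit 0)) (M (nat_lit 396931717021695))))))) (T.h (T.h (T.h (P (nat_lit 0)) (T.h (M (nat_lit 17043484856467139858530303)) (T.h (P (nat_lit 0)) (M (nat_lit 12429613524915847167))))) (T.h (P (nat_lit 0)) (T.h (T.h (P (nat_lit 0)) (M (nat_lit 11739852891748302847))) (P (nat_lit 0))))) (T.h (T.h (P (nat_lit 0)) (T.h (T.h (P (nat_lit 22557465762590185488384)) (T.h (P (nat_lit 0)) (M (nat_lit 12701974667231231)))) (T.h (P (nat_lit 0)) (M (nat_lit 6354815568904191)))))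 (T.h (T.h (T.h (P (nat_lit 0)) (M (nat_lit 2896091241655566335))) (P (nat_lit 0))) (T.h (T.h (P (nat_lit 0)) (M (nat_lit 723882441949183))) (P (nat_lit 0))))))), (T.h (T.h (T.h (P (nat_lit 0)) (T.h (P (nat_lit 3402341988066177641621749760)) (T.h (P (nat_lit 0)) (T.h (P (nat_lit 311281724839209992192)) (T.h (P (nat_lit 0)) (M (nat_lit 396931717021695))))))) (T.h (P (nat_lit 0)) (T.h (T.h (P (nat_lit 0)) (T.h (M (nat_lit 19467932748244439793663)) (T.h (P (nat_lit 0)) (P (nat_lit 3918274737192960))))) (T.h (P (nat_lit 0)) (T.h (T.h (P (nat_lit 0)) (P (nat_lit 2379570363793408))) (P (nat_lit 0))))))) (T.h (T.h (P (nat_lit 0)) (T.h (T.h (M (nat_lit 17043484856467139858530303)) (T.h (P (nat_lit 0)) (M (nat_lit 11739852891748302847)))) (T.h (P (nat_lit 0)) (M (nat_lit 12429613524915847167))))) (T.h (T.h (T.h (P (nat_lit 0)) (T.h (P (nat_lit 22557465762590185488384)) (T.h (P (nat_lit 0)) (M (nat_lit 6354815568904191))))) (T.h (P (nat_lit 0)) (T.h (T.h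 (P (nat_lit 0)) (M (nat_lit 12701974667231231))) (P (nat_lit 0))))) (T.h (T.h (P (nat_lit 0)) (M (nat_lit 2896091241655566335))) (T.h (T.h (T.h (P (nat_lit 0)) (M (nat_lit 723882441949183))) (P (nat_lit 0))) (P (nat_lit 0))))))), (T.h (T.h (T.h (M (nat_lit 2330416154883494020266051239935)) (T.h (P (nat_lit 0)) (T.h (M (nat_lit 2720637866675313557110783)) (T.h (P (nat_lit 0)) (M (nat_lit 1895559017283977215)))))) (T.h (P (nat_lit 0)) (T.h (T.h (M (nat_lit 2720637866675313557110783)) (T.h (P (nat_lit 0)) (M (nat_lit 758678015956746239)))) (T.h (P (nat_lit 0)) (M (nat_lit 1895559017283977215)))))) (T.h (T.h (P (nat_lit 0)) (T.h (T.h (P (nat_lit 0)) (T.h (M (nat_lit 7531325478474476421119)) (T.h (P (nat_lit 0)) (P (nat_lit 1499433018032128))))) (T.h (P (nat_lit 0)) (T.h (T.h (P (nat_lit 0)) (P (nat_lit 1499433018032128))) (P (nat_lit 0)))))) (T.h (T.h (T.h (M (nat_lit 7464748788017715864403967)) (T.h (P (nat_lit 0)) (M (nat_lit 8962145797948833791))))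 (T.h (P (nat_lit 0)) (M (nat_lit 8962145797948833791)))) (T.h (T.h (P (nat_lit 0)) (T.h (T.h (P (nat_lit 0)) (M (nat_lit 4058084649598975))) (P (nat_lit 0)))) (P (nat_lit 1573209784461557760))))))]

def CP11 : List (T ℤ) := lP11_0 ++ (lP11_1 ++ (lP11_2 ++ (lP11_3 ++ (lP11_4 ++ (lP11_5 ++ (lP11_6 ++ (lP11_7 ++ (lP11_8 ++ (lP11_9 ++ (lP11_10 ++ (lP11_11 ++ (lP11_12 ++ (lP11_13 ++ (lP11_14 ++ (lP11_15 ++ (lP11_16 ++ (lP11_17 ++ (lP11_18 ++ (lP11_19 ++ (lP11_20 ++ (lP11_21 ++ (lP11_22 ++ (lP11_23 ++ (lP11_24 ++ (lP11_25 ++ (lP11_26 ++ (lP11_27 ++ (lP11_28 ++ (lP11_29 ++ (lP11_30 ++ (lP11_31 ++ (lP11_32 ++ (lP11_33)))))))))))))))))))))))))))))))))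

/-- norms at radius 1536 -/
def NP11 : List ℕ := [(nat_lit 0), (nat_lit 0), (nat_lit 0), (nat_lit 0), (nat_lit 0), (nat_lit 0), (nat_lit 0), (nat_lit 0), (nat_lit 0), (nat_lit 0), (nat_lit 0), (nat_lit 0), (nat_lit 0), (nat_lit 0), (nat_lit 0), (nat_lit 0), (nat_lit 0), (nat_lit 4410501400340933843783516160000), (nat_lit 0), (nat_lit 0), (nat_lit 411411046674264767696847352365056), (nat_lit 969082308023408760553985399586816), (nat_lit 888601049330881506005857484144640), (nat_lit 966182649131066802350770473664512), (nat_lit 254261625275541648269989904384000), (nat_lit 0), (nat_lit 0), (nat_lit 953227998367009259849341112156160), (nat_lit 2142046662201826503673660582133760), (nat_lit 1331223519653302334975689598435328), (nat_lit 1613795309023943884322386080694272), (nat_lit 575873884669591678851402210213888), (nat_lit 0), (nat_lit 0), (nat_lit 2226587653407480050283849562718208), (nat_lit 2284299159478268647550544676651008), (nat_lit 2728708445901069178453412347379712),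 (nat_lit 2056600871900106544620448178503680), (nat_lit 844307570411493033698848254459904), (nat_lit 0), (nat_lit 953227998367009259849341112156160), (nat_lit 2284299159478268647550544676651008), (nat_lit 2455994549847383082120368093134848), (nat_lit 2285625970940388257796122581401600), (nat_lit 1523159102365283540589368190173184), (nat_lit 411411046674264767696847352365056), (nat_lit 2142046662201826503673660582133760), (nat_lit 2728708445901069178453412347379712), (nat_lit 2285625970940388257796122581401600), (nat_lit 1030659033753610179230285934100480), (nat_lit 969082308023408760553985399586816), (nat_lit 1331223519653302334975689598435328), (nat_lit 2056600871900106544620448178503680), (nat_lit 1523159102365283540589368190173184), (nat_lit 888601049330881506005857484144640), (nat_lit 1613795309023943884322386080694272), (nat_lit 844307570411493033698848254459904), (nat_lit 966182649131066802350770473664512), (nat_lit 575873884669591678851402210213888),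 (nat_lit 254261625275541648269989904384000), (nat_lit 0), (nat_lit 0), (nat_lit 0), (nat_lit 0), (nat_lit 0), (nat_lit 0), (nat_lit 0), (nat_lit 0), (nat_lit 0), (nat_lit 0), (nat_lit 875938543475581903025900800180224), (nat_lit 0), (nat_lit 0), (nat_lit 0), (nat_lit 0), (nat_lit 0), (nat_lit 953227998367009259849341112156160), (nat_lit 2686060241129475290260266981261312), (nat_lit 1331223519653302334975689598435328), (nat_lit 1613795309023943884322386080694272), (nat_lit 575873884669591678851402210213888), (nat_lit 0), (nat_lit 0), (nat_lit 776813729102413189154646075113472), (nat_lit 5279927630702985230742773206876160), (nat_lit 2185217542587216098846771874103296), (nat_lit 4688103931489208572784723686850560), (nat_lit 1661411954141767186527260705292288), (nat_lit 0), (nat_lit 776813729102413189154646075113472), (nat_lit 7426745476942561020989719808311296), (nat_lit 4080867584233213937665393507172352), (nat_lit 5355020153855416248976047354150912),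 (nat_lit 2862910505307994813264819101106176), (nat_lit 953227998367009259849341112156160), (nat_lit 5235430598610970402055310591131648), (nat_lit 4080867584233213937665393507172352), (nat_lit 5688717577105362174555035755610112), (nat_lit 2029241539833486410631108007821312), (nat_lit 1752842059181502943117721708003328), (nat_lit 2185217542587216098846771874103296), (nat_lit 5355020153855416248976047354150912), (nat_lit 2029241539833486410631108007821312), (nat_lit 1331223519653302334975689598435328), (nat_lit 4688103931489208572784723686850560), (nat_lit 2862910505307994813264819101106176), (nat_lit 1613795309023943884322386080694272), (nat_lit 1661411954141767186527260705292288), (nat_lit 575873884669591678851402210213888), (nat_lit 4410501400340933843783516160000), (nat_lit 0), (nat_lit 0), (nat_lit 411411046674264767696847352365056), (nat_lit 969082308023408760553985399586816), (nat_lit 888601049330881506005857484144640), (nat_lit 966182649131066802350770473664512),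 (nat_lit 254261625275541648269989904384000), (nat_lit 0), (nat_lit 0), (nat_lit 953227998367009259849341112156160), (nat_lit 2686060241129475290260266981261312), (nat_lit 1331223519653302334975689598435328), (nat_lit 1613795309023943884322386080694272), (nat_lit 575873884669591678851402210213888), (nat_lit 0), (nat_lit 0), (nat_lit 2855253100894951868166864239591424), (nat_lit 5110292409151532419437269713158144), (nat_lit 4768054907176276115203100849995776), (nat_lit 3864409083364669283477304039702528), (nat_lit 1298936312223693055765348446371840), (nat_lit 0), (nat_lit 991291877761452764781254088327168), (nat_lit 5673593245875617649447626505977856), (nat_lit 4261271621371119191794234907688960), (nat_lit 5523927392313416139233311013732352), (nat_lit 3529253640204785956602596554702848), (nat_lit 2227932037450282489519518747983872), (nat_lit 6019890783252110815722016660783104), (nat_lit 7276991152366735808654095008399360), (nat_lit 3268190124366432350626879654330368),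 (nat_lit 1970713606703496629581215160074240), (nat_lit 3999755850615060483460401261969408), (nat_lit 4486180683077042225393653449228288), (nat_lit 3455752873812254760849301076705280), (nat_lit 2826108347739695697812069535449088), (nat_lit 2592479843432019213791805296345088), (nat_lit 5361650554770908487499511079370752), (nat_lit 2077766797173757420897951237013504), (nat_lit 2033034646909800038137643466227712), (nat_lit 3175039197738602221090590947278848), (nat_lit 829558652494349408059243093819392), (nat_lit 0), (nat_lit 0), (nat_lit 953227998367009259849341112156160), (nat_lit 2142046662201826503673660582133760), (nat_lit 1331223519653302334975689598435328), (nat_lit 1613795309023943884322386080694272), (nat_lit 575873884669591678851402210213888), (nat_lit 0), (nat_lit 0), (nat_lit 776813729102413189154646075113472), (nat_lit 5279927630702985230742773206876160), (nat_lit 2185217542587216098846771874103296), (nat_lit 4688103931489208572784723686850560),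 (nat_lit 1661411954141767186527260705292288), (nat_lit 0), (nat_lit 991291877761452764781254088327168), (nat_lit 5673593245875617649447626505977856), (nat_lit 4261271621371119191794234907688960), (nat_lit 5523927392313416139233311013732352), (nat_lit 3529253640204785956602596554702848), (nat_lit 1373100379272763809336620690178048), (nat_lit 8825898060877540242878405357338624), (nat_lit 7366907650378302134426925350780928), (nat_lit 9365862990721522682670292572045312), (nat_lit 3011690072959161269529441762017280), (nat_lit 3931808462253218830858455097540608), (nat_lit 5061574451208856020793196525125632), (nat_lit 5519908145186426651244649349382144), (nat_lit 2597543511523598347511891843088384), (nat_lit 3248763890057690251826658835169280), (nat_lit 7453210156434876424930724610572288), (nat_lit 4699427595701005766837901578993664), (nat_lit 3476652450820948117528353328594944), (nat_lit 3271853972573893846516363249582080), (nat_lit 1961054788681659346245532168224768),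 (nat_lit 0), (nat_lit 0), (nat_lit 2226587653407480050283849562718208), (nat_lit 2284299159478268647550544676651008), (nat_lit 2728708445901069178453412347379712), (nat_lit 2056600871900106544620448178503680), (nat_lit 844307570411493033698848254459904), (nat_lit 0), (nat_lit 776813729102413189154646075113472), (nat_lit 7426745476942561020989719808311296), (nat_lit 4080867584233213937665393507172352), (nat_lit 5355020153855416248976047354150912), (nat_lit 2862910505307994813264819101106176), (nat_lit 2227932037450282489519518747983872), (nat_lit 6019890783252110815722016660783104), (nat_lit 7276991152366735808654095008399360), (nat_lit 3268190124366432350626879654330368), (nat_lit 1970713606703496629581215160074240), (nat_lit 3931808462253218830858455097540608), (nat_lit 5061574451208856020793196525125632), (nat_lit 5519908145186426651244649349382144), (nat_lit 2597543511523598347511891843088384), (nat_lit 5289877918764811619545037905330176),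 (nat_lit 8318443871669135630787605509963776), (nat_lit 3361220686122230396352761012682752), (nat_lit 3306020745546492060630693181390848), (nat_lit 4225104807238708549589036276121600), (nat_lit 1090079636881181006223765934178304), (nat_lit 0), (nat_lit 953227998367009259849341112156160), (nat_lit 2284299159478268647550544676651008), (nat_lit 2455994549847383082120368093134848), (nat_lit 2285625970940388257796122581401600), (nat_lit 1523159102365283540589368190173184), (nat_lit 953227998367009259849341112156160), (nat_lit 5235430598610970402055310591131648), (nat_lit 4080867584233213937665393507172352), (nat_lit 5688717577105362174555035755610112), (nat_lit 2029241539833486410631108007821312), (nat_lit 3999755850615060483460401261969408), (nat_lit 4486180683077042225393653449228288), (nat_lit 3455752873812254760849301076705280), (nat_lit 2826108347739695697812069535449088), (nat_lit 3248763890057690251826658835169280), (nat_lit 7453210156434876424930724610572288),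 (nat_lit 4699427595701005766837901578993664), (nat_lit 3306020745546492060630693181390848), (nat_lit 4225104807238708549589036276121600), (nat_lit 3046318204730567081178736380346368), (nat_lit 411411046674264767696847352365056), (nat_lit 2142046662201826503673660582133760), (nat_lit 2728708445901069178453412347379712), (nat_lit 2285625970940388257796122581401600), (nat_lit 1030659033753610179230285934100480), (nat_lit 1752842059181502943117721708003328), (nat_lit 2185217542587216098846771874103296), (nat_lit 5355020153855416248976047354150912), (nat_lit 2029241539833486410631108007821312), (nat_lit 2592479843432019213791805296345088), (nat_lit 5361650554770908487499511079370752), (nat_lit 2077766797173757420897951237013504), (nat_lit 3476652450820948117528353328594944), (nat_lit 3271853972573893846516363249582080), (nat_lit 1090079636881181006223765934178304), (nat_lit 969082308023408760553985399586816), (nat_lit 1331223519653302334975689598435328),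 (nat_lit 2056600871900106544620448178503680), (nat_lit 1523159102365283540589368190173184), (nat_lit 1331223519653302334975689598435328), (nat_lit 4688103931489208572784723686850560), (nat_lit 2862910505307994813264819101106176), (nat_lit 2033034646909800038137643466227712), (nat_lit 3175039197738602221090590947278848), (nat_lit 1961054788681659346245532168224768), (nat_lit 888601049330881506005857484144640), (nat_lit 1613795309023943884322386080694272), (nat_lit 844307570411493033698848254459904), (nat_lit 1613795309023943884322386080694272), (nat_lit 1661411954141767186527260705292288), (nat_lit 829558652494349408059243093819392), (nat_lit 966182649131066802350770473664512), (nat_lit 575873884669591678851402210213888), (nat_lit 575873884669591678851402210213888), (nat_lit 254261625275541648269989904384000)]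


def lP12_0 : List (T ℤ) := [(P (nat_lit 0)), (P (nat_lit 0)), (P (nat_lit 0)), (P (nat_lit 0)), (P (nat_lit 0)), (P (nat_lit 0)), (P (nat_lit 0)), (P (nat_lit 0))]
def lP12_1 : List (T ℤ) := [(P (nat_lit 0)), (M (nat_lit 4410501400340933843783516159999)), (P (nat_lit 0)), (P (nat_lit 0)), (T.h (T.h (T.h (M (nat_lit 169053768763270514532562239487)) (T.h (P (nat_lit 0)) (T.h (M (nat_lit 86023058324020239794175)) (T.h (P (nat_lit 0)) (T.h (P (nat_lit 544121181330997248)) (T.h (P (nat_lit 0)) (M (nat_lit 1570308029599)))))))) (T.h (P (nat_lit 0)) (T.h (T.h (P (nat_lit 1217783071519776866041856)) (T.h (P (nat_lit 0)) (T.h (M (nat_lit 2804189857717420031)) (T.h (P (nat_lit 0)) (P (nat_lit 1796611202864)))))) (T.h (P (nat_lit 0)) (T.h (T.h (M (nat_lit 2581556048120774655)) (T.h (P (nat_lit 0)) (P (nat_lit 2363898821680)))) (T.h (P (nat_lit 0)) (P (nat_lit 2889973006256)))))))) (T.h (T.h (P (nat_lit 0)) (T.h (T.h (P (nat_lit 0)) (T.h (M (nat_lit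 1587471070678617161727)) (T.h (P (nat_lit 0)) (P (nat_lit 2147752284127232))))) (T.h (P (nat_lit 0)) (T.h (T.h (P (nat_lit 0)) (P (nat_lit 3737556218937344))) (P (nat_lit 0)))))) (T.h (T.h (T.h (P (nat_lit 1217783071519776866041856)) (T.h (P (nat_lit 0)) (T.h (M (nat_lit 2804189857717420031)) (T.h (P (nat_lit 0)) (P (nat_lit 1796611202864)))))) (T.h (P (nat_lit 0)) (T.h (T.h (M (nat_lit 580103659812028415)) (T.h (P (nat_lit 0)) (P (nat_lit 2120391294816)))) (T.h (P (nat_lit 0)) (M (nat_lit 662576913727)))))) (T.h (T.h (P (nat_lit 0)) (T.h (T.h (P (nat_lit 0)) (P (nat_lit 3737556218937344))) (P (nat_lit 0)))) (T.h (T.h (T.h (M (nat_lit 2581556048120774655)) (T.h (P (nat_lit 0)) (P (nat_lit 2363898821680)))) (T.h (P (nat_lit 0)) (M (nat_lit 662576913727)))) (T.h (P (nat_lit 0)) (P (nat_lit 2889973006256)))))))), (T.h (T.h (T.h (P (nat_lit 0)) (T.h (M (nat_lit 6710137670469634890370383871)) (T.h (P (nat_lit 0)) (T.h (M (nat_lit 8784275359082477518847))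 (T.h (P (nat_lit 0)) (P (nat_lit 7334363874459648))))))) (T.h (P (nat_lit 0)) (T.h (T.h (P (nat_lit 0)) (T.h (M (nat_lit 7145578919625811296255)) (T.h (P (nat_lit 0)) (M (nat_lit 6980069744508927))))) (T.h (P (nat_lit 0)) (T.h (T.h (P (nat_lit 0)) (M (nat_lit 7390483838959615))) (P (nat_lit 0))))))) (T.h (T.h (P (nat_lit 0)) (T.h (T.h (P (nat_lit 3147941618468942604402688)) (T.h (P (nat_lit 0)) (T.h (M (nat_lit 15443931641180848127)) (T.h (P (nat_lit 0)) (M (nat_lit 2972229967967)))))) (T.h (P (nat_lit 0)) (T.h (T.h (M (nat_lit 14654403036332425215)) (T.h (P (nat_lit 0)) (P (nat_lit 4503270309448)))) (T.h (P (nat_lit 0)) (P (nat_lit 1333360900360))))))) (T.h (T.h (T.h (P (nat_lit 0)) (T.h (M (nat_lit 2995186226142658953215)) (T.h (P (nat_lit 0)) (M (nat_lit 17858861881032703))))) (T.h (P (nat_lit 0)) (T.h (T.h (P (nat_lit 0)) (M (nat_lit 5119387493728255))) (P (nat_lit 0))))) (T.h (T.h (P (nat_lit 0)) (T.h (T.h (M (nat_lit 14522462245515952127))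 (T.h (P (nat_lit 0)) (M (nat_lit 110400139431)))) (T.h (P (nat_lit 0)) (P (nat_lit 3114189266208))))) (T.h (T.h (T.h (P (nat_lit 0)) (M (nat_lit 8877860582555647))) (P (nat_lit 0))) (T.h (T.h (P (nat_lit 0)) (P (nat_lit 1403340751448))) (P (nat_lit 0)))))))), (T.h (T.h (T.h (P (nat_lit 7955821324122392065238856892416)) (T.h (P (nat_lit 0)) (T.h (P (nat_lit 7393668704782508321931264)) (T.h (P (nat_lit 0)) (T.h (M (nat_lit 4062598691368730623)) (T.h (P (nat_lit 0)) (P (nat_lit 3652989002656)))))))) (T.h (P (nat_lit 0)) (T.h (T.h (P (nat_lit 706434760272425848406016)) (T.h (P (nat_lit 0)) (T.h (P (nat_lit 14592576984723750912)) (T.h (P (nat_lit 0)) (M (nat_lit 3133739275967)))))) (T.h (P (nat_lit 0)) (T.h (T.h (P (nat_lit 4427669298030313472)) (T.h (P (nat_lit 0)) (M (nat_lit 4410506974159)))) (T.h (P (nat_lit 0)) (M (nat_lit 2838909460015)))))))) (T.h (T.h (P (nat_lit 0)) (T.h (T.h (P (nat_lit 0)) (T.h (P (nat_lit 10114515785597969235968)) (T.h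 (P (nat_lit 0)) (P (nat_lit 123914970333184))))) (T.h (P (nat_lit 0)) (T.h (T.h (P (nat_lit 0)) (M (nat_lit 7725811003260927))) (P (nat_lit 0)))))) (T.h (T.h (T.h (P (nat_lit 706434760272425848406016)) (T.h (P (nat_lit 0)) (T.h (P (nat_lit 14592576984723750912)) (T.h (P (nat_lit 0)) (M (nat_lit 3133739275967)))))) (T.h (P (nat_lit 0)) (T.h (T.h (P (nat_lit 4485432474456817664)) (T.h (P (nat_lit 0)) (M (nat_lit 4950411610591)))) (T.h (P (nat_lit 0)) (P (nat_lit 1714226929744)))))) (T.h (T.h (P (nat_lit 0)) (T.h (T.h (P (nat_lit 0)) (M (nat_lit 7725811003260927))) (P (nat_lit 0)))) (T.h (T.h (T.h (P (nat_lit 4427669298030313472)) (T.h (P (nat_lit 0)) (M (nat_lit 4410506974159)))) (T.h (P (nat_lit 0)) (P (nat_lit 1714226929744)))) (T.h (P (nat_lit 0)) (M (nat_lit 2838909460015)))))))), (T.h (T.h (T.h (P (nat_lit 0)) (T.h (P (nat_lit 6710137670469634890370383872)) (T.h (P (nat_lit 0)) (T.h (P (nat_lit 8784275359082477518848)) (T.h (P (nat_lit 0))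 (M (nat_lit 7334363874459647))))))) (T.h (P (nat_lit 0)) (T.h (T.h (P (nat_lit 0)) (T.h (P (nat_lit 5070382572884235124736)) (T.h (P (nat_lit 0)) (P (nat_lit 12419465812770816))))) (T.h (P (nat_lit 0)) (T.h (T.h (P (nat_lit 0)) (P (nat_lit 8134172210757632))) (P (nat_lit 0))))))) (T.h (T.h (P (nat_lit 0)) (T.h (T.h (M (nat_lit 3147941618468942604402687)) (T.h (P (nat_lit 0)) (T.h (P (nat_lit 15443931641180848128)) (T.h (P (nat_lit 0)) (P (nat_lit 2972229967968)))))) (T.h (P (nat_lit 0)) (T.h (T.h (P (nat_lit 14588432640924188672)) (T.h (P (nat_lit 0)) (M (nat_lit 2196435085007)))) (T.h (P (nat_lit 0)) (M (nat_lit 1368350825903))))))) (T.h (T.h (T.h (P (nat_lit 0)) (T.h (P (nat_lit 5070382572884235124736)) (T.h (P (nat_lit 0)) (P (nat_lit 12419465812770816))))) (T.h (P (nat_lit 0)) (T.h (T.h (P (nat_lit 0)) (P (nat_lit 5119387493728256))) (P (nat_lit 0))))) (T.h (T.h (P (nat_lit 0)) (T.h (T.h (P (nat_lit 14588432640924188672)) (T.h (P (nat_lit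 0)) (M (nat_lit 2196435085007)))) (T.h (P (nat_lit 0)) (M (nat_lit 3114189266207))))) (T.h (T.h (T.h (P (nat_lit 0)) (P (nat_lit 8134172210757632))) (P (nat_lit 0))) (T.h (T.h (P (nat_lit 0)) (M (nat_lit 1368350825903))) (P (nat_lit 0))))))))]
def lP12_2 : List (T ℤ) := [(T.h (T.h (T.h (M (nat_lit 2330416154883494020266051239935)) (T.h (P (nat_lit 0)) (T.h (M (nat_lit 7464748788017715864403967)) (T.h (P (nat_lit 0)) (P (nat_lit 1573209784461557760)))))) (T.h (P (nat_lit 0)) (T.h (T.h (M (nat_lit 2720637866675313557110783)) (T.h (P (nat_lit 0)) (M (nat_lit 8962145797948833791)))) (T.h (P (nat_lit 0)) (M (nat_lit 1895559017283977215)))))) (T.h (T.h (P (nat_lit 0)) (T.h (T.h (P (nat_lit 0)) (T.h (M (nat_lit 7531325478474476421119)) (T.h (P (nat_lit 0)) (M (nat_lit 4058084649598975))))) (T.h (P (nat_lit 0)) (T.h (T.h (P (nat_lit 0)) (P (nat_lit 1499433018032128))) (P (nat_lit 0)))))) (T.h (T.h (T.h (M (nat_lit 2720637866675313557110783)) (T.h (P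 (nat_lit 0)) (M (nat_lit 8962145797948833791)))) (T.h (P (nat_lit 0)) (M (nat_lit 758678015956746239)))) (T.h (T.h (P (nat_lit 0)) (T.h (T.h (P (nat_lit 0)) (P (nat_lit 1499433018032128))) (P (nat_lit 0)))) (M (nat_lit 1895559017283977215)))))), (P (nat_lit 0)), (P (nat_lit 0)), (P (nat_lit 0)), (T.h (T.h (P (nat_lit 0)) (T.h (T.h (P (nat_lit 0)) (T.h (P (nat_lit 8717922922079423085674496)) (T.h (P (nat_lit 0)) (T.h (P (nat_lit 6521691154386255872)) (T.h (P (nat_lit 0)) (M (nat_lit 5165935566879))))))) (T.h (P (nat_lit 0)) (T.h (T.h (P (nat_lit 0)) (T.h (M (nat_lit 193192647643365375)) (T.h (P (nat_lit 0)) (P (nat_lit 3373397582576))))) (T.h (P (nat_lit 0)) (T.h (T.h (P (nat_lit 0)) (M (nat_lit 424261102751))) (P (nat_lit 0)))))))) (T.h (T.h (T.h (P (nat_lit 532858792078950653260464128)) (T.h (P (nat_lit 0)) (T.h (M (nat_lit 4144768062586427015167)) (T.h (P (nat_lit 0)) (P (nat_lit 10195113124757504)))))) (T.h (P (nat_lit 0)) (T.h (T.h (P (nat_lit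 3321691345876869447680)) (T.h (P (nat_lit 0)) (P (nat_lit 15787150469627904)))) (T.h (P (nat_lit 0)) (P (nat_lit 2725830294568960)))))) (T.h (T.h (P (nat_lit 0)) (T.h (T.h (P (nat_lit 0)) (T.h (P (nat_lit 10942545611232116736)) (T.h (P (nat_lit 0)) (M (nat_lit 9748205673263))))) (T.h (P (nat_lit 0)) (T.h (T.h (P (nat_lit 0)) (M (nat_lit 172863613551))) (P (nat_lit 0)))))) (T.h (T.h (T.h (M (nat_lit 3075121913902334476287)) (T.h (P (nat_lit 0)) (M (nat_lit 14061861106614271)))) (T.h (P (nat_lit 0)) (P (nat_lit 15163554349252608)))) (T.h (T.h (P (nat_lit 0)) (T.h (T.h (P (nat_lit 0)) (P (nat_lit 3166704741056))) (P (nat_lit 0)))) (M (nat_lit 1221575086440447))))))), (T.h (T.h (P (nat_lit 0)) (T.h (T.h (M (nat_lit 8105240833316528014414053375)) (T.h (P (nat_lit 0)) (T.h (M (nat_lit 18612874587945052405759)) (T.h (P (nat_lit 0)) (P (nat_lit 23898006275555328)))))) (T.h (P (nat_lit 0)) (T.h (T.h (P (nat_lit 6157605607908443160576)) (T.h (P (nat_lit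 0)) (M (nat_lit 5484856430657535)))) (T.h (P (nat_lit 0)) (M (nat_lit 14652418540830719))))))) (T.h (T.h (T.h (P (nat_lit 0)) (T.h (P (nat_lit 4215725895776875352948736)) (T.h (P (nat_lit 0)) (T.h (P (nat_lit 33868761651432390656)) (T.h (P (nat_lit 0)) (P (nat_lit 966839890088))))))) (T.h (P (nat_lit 0)) (T.h (T.h (P (nat_lit 0)) (T.h (M (nat_lit 23926501528834146303)) (T.h (P (nat_lit 0)) (M (nat_lit 19419484670495))))) (T.h (P (nat_lit 0)) (T.h (T.h (P (nat_lit 0)) (P (nat_lit 2892398064512))) (P (nat_lit 0))))))) (T.h (T.h (P (nat_lit 0)) (T.h (T.h (P (nat_lit 20407429106314850074624)) (T.h (P (nat_lit 0)) (M (nat_lit 21479489433075711)))) (T.h (P (nat_lit 0)) (P (nat_lit 13934158588248064))))) (T.h (T.h (T.h (P (nat_lit 0)) (T.h (P (nat_lit 29294307247426371584)) (T.h (P (nat_lit 0)) (P (nat_lit 4797394601552))))) (T.h (P (nat_lit 0)) (T.h (T.h (P (nat_lit 0)) (P (nat_lit 17916783817936))) (P (nat_lit 0))))) (T.h (T.h (P (nat_lit 0)) (P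 (nat_lit 18185428906213376))) (T.h (T.h (T.h (P (nat_lit 0)) (P (nat_lit 2467984298904))) (P (nat_lit 0))) (P (nat_lit 0)))))))), (T.h (T.h (P (nat_lit 0)) (T.h (T.h (P (nat_lit 0)) (T.h (P (nat_lit 11006440254763849941516288)) (T.h (P (nat_lit 0)) (T.h (M (nat_lit 10212482558193565695)) (T.h (P (nat_lit 0)) (P (nat_lit 11875290719936))))))) (T.h (P (nat_lit 0)) (T.h (T.h (P (nat_lit 0)) (T.h (P (nat_lit 16119823565909393408)) (T.h (P (nat_lit 0)) (M (nat_lit 267617463791))))) (T.h (P (nat_lit 0)) (T.h (T.h (P (nat_lit 0)) (M (nat_lit 476646617775))) (P (nat_lit 0)))))))) (T.h (T.h (T.h (M (nat_lit 2183137425904434638667907071)) (T.h (P (nat_lit 0)) (T.h (M (nat_lit 27481446203344965074943)) (T.h (P (nat_lit 0)) (M (nat_lit 4103378252595199)))))) (T.h (P (nat_lit 0)) (T.h (T.h (P (nat_lit 1595751522983967981568)) (T.h (P (nat_lit 0)) (M (nat_lit 1654209649672191)))) (T.h (P (nat_lit 0)) (M (nat_lit 10387681152090111)))))) (T.h (T.h (P (nat_lit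 0)) (T.h (T.h (P (nat_lit 0)) (T.h (P (nat_lit 17390635901448617984)) (T.h (P (nat_lit 0)) (P (nat_lit 8038665908672))))) (T.h (P (nat_lit 0)) (T.h (T.h (P (nat_lit 0)) (P (nat_lit 3403801104368))) (P (nat_lit 0)))))) (T.h (T.h (T.h (P (nat_lit 1146563286424017174528)) (T.h (P (nat_lit 0)) (P (nat_lit 24685718477160448)))) (T.h (P (nat_lit 0)) (M (nat_lit 30936074729717759)))) (T.h (T.h (P (nat_lit 0)) (T.h (T.h (P (nat_lit 0)) (M (nat_lit 170731117199))) (P (nat_lit 0)))) (P (nat_lit 2008321073004544))))))), (T.h (T.h (P (nat_lit 0)) (T.h (T.h (P (nat_lit 6851398732185546236270477312)) (T.h (P (nat_lit 0)) (T.h (P (nat_lit 18348311073687137681408)) (T.h (P (nat_lit 0)) (M (nat_lit 17793055875203071)))))) (T.h (P (nat_lit 0)) (T.h (T.h (M (nat_lit 4732893267667112165375)) (T.h (P (nat_lit 0)) (P (nat_lit 12497095545683968)))) (T.h (P (nat_lit 0)) (P (nat_lit 10744085451014144))))))) (T.h (T.h (T.h (P (nat_lit 0)) (T.h (M (nat_lit 11660322374750600744140799))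 (T.h (P (nat_lit 0)) (T.h (M (nat_lit 18520378691960176639)) (T.h (P (nat_lit 0)) (M (nat_lit 170296125263))))))) (T.h (P (nat_lit 0)) (T.h (T.h (P (nat_lit 0)) (T.h (P (nat_lit 39841637126717308928)) (T.h (P (nat_lit 0)) (P (nat_lit 14600707220976))))) (T.h (P (nat_lit 0)) (T.h (T.h (P (nat_lit 0)) (M (nat_lit 129643420655))) (P (nat_lit 0))))))) (T.h (T.h (P (nat_lit 0)) (T.h (T.h (M (nat_lit 21425206370652458582015)) (T.h (P (nat_lit 0)) (P (nat_lit 10815406722252800)))) (T.h (P (nat_lit 0)) (M (nat_lit 6016024335384575))))) (T.h (T.h (T.h (P (nat_lit 0)) (T.h (M (nat_lit 24783823898534739967)) (T.h (P (nat_lit 0)) (P (nat_lit 6938019607344))))) (T.h (P (nat_lit 0)) (T.h (T.h (P (nat_lit 0)) (M (nat_lit 2136752720495))) (P (nat_lit 0))))) (T.h (T.h (P (nat_lit 0)) (M (nat_lit 12728265808248831))) (T.h (T.h (T.h (P (nat_lit 0)) (P (nat_lit 2531236715616))) (P (nat_lit 0))) (P (nat_lit 0))))))))]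
def lP12_3 : List (T ℤ) := [(T.h (T.h (P (nat_lit 0)) (T.h (T.h (P (nat_lit 0)) (T.h (M (nat_lit 17043484856467139858530303)) (T.h (P (nat_lit 0)) (M (nat_lit 2896091241655566335))))) (T.h (P (nat_lit 0)) (T.h (T.h (P (nat_lit 0)) (M (nat_lit 12429613524915847167))) (P (nat_lit 0)))))) (T.h (T.h (T.h (P (nat_lit 3402341988066177641621749760)) (T.h (P (nat_lit 0)) (T.h (P (nat_lit 22557465762590185488384)) (T.h (P (nat_lit 0)) (M (nat_lit 723882441949183)))))) (T.h (P (nat_lit 0)) (T.h (T.h (M (nat_lit 19467932748244439793663)) (T.h (P (nat_lit 0)) (M (nat_lit 12701974667231231)))) (T.h (P (nat_lit 0)) (P (nat_lit 2379570363793408)))))) (T.h (T.h (P (nat_lit 0)) (T.h (T.h (P (nat_lit 0)) (M (nat_lit 11739852891748302847))) (P (nat_lit 0)))) (T.h (T.h (T.h (P (nat_lit 311281724839209992192)) (T.h (P (nat_lit 0)) (M (nat_lit 6354815568904191)))) (T.h (P (nat_lit 0)) (P (nat_lit 3918274737192960)))) (T.h (P (nat_lit 0)) (M (nat_lit 396931717021695))))))),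 (P (nat_lit 0)), (P (nat_lit 0)), (T.h (T.h (T.h (P (nat_lit 1974437142523453654025568780288)) (T.h (P (nat_lit 0)) (T.h (P (nat_lit 3776107581101057807220736)) (T.h (P (nat_lit 0)) (T.h (M (nat_lit 455214168597856255)) (T.h (P (nat_lit 0)) (P (nat_lit 1320627043552)))))))) (T.h (P (nat_lit 0)) (T.h (T.h (P (nat_lit 3776107581101057807220736)) (T.h (P (nat_lit 0)) (T.h (P (nat_lit 47664521656557109248)) (T.h (P (nat_lit 0)) (M (nat_lit 6116429705375)))))) (T.h (P (nat_lit 0)) (T.h (T.h (M (nat_lit 455214168597856255)) (T.h (P (nat_lit 0)) (M (nat_lit 6116429705375)))) (T.h (P (nat_lit 0)) (P (nat_lit 1320627043552)))))))) (T.h (T.h (P (nat_lit 0)) (T.h (T.h (P (nat_lit 0)) (T.h (M (nat_lit 35916735902168758878207)) (T.h (P (nat_lit 0)) (P (nat_lit 31562004246757376))))) (T.h (P (nat_lit 0)) (T.h (T.h (P (nat_lit 0)) (P (nat_lit 31562004246757376))) (P (nat_lit 0)))))) (T.h (T.h (T.h (M (nat_lit 9758004229517509839028223)) (T.h (P (nat_lit 0))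 (T.h (M (nat_lit 9060807759313764351)) (T.h (P (nat_lit 0)) (M (nat_lit 4691781859471)))))) (T.h (P (nat_lit 0)) (T.h (T.h (M (nat_lit 9060807759313764351)) (T.h (P (nat_lit 0)) (M (nat_lit 2560356751999)))) (T.h (P (nat_lit 0)) (M (nat_lit 4691781859471)))))) (T.h (T.h (P (nat_lit 0)) (T.h (T.h (P (nat_lit 0)) (M (nat_lit 83825974921003007))) (P (nat_lit 0)))) (T.h (T.h (T.h (P (nat_lit 1083103659241242624)) (T.h (P (nat_lit 0)) (P (nat_lit 2064152749056)))) (T.h (P (nat_lit 0)) (P (nat_lit 2064152749056)))) (T.h (P (nat_lit 0)) (M (nat_lit 1030947796895)))))))), (T.h (T.h (T.h (P (nat_lit 0)) (T.h (P (nat_lit 7410480982141196655933784064)) (T.h (P (nat_lit 0)) (T.h (M (nat_lit 11758016684598470115327)) (T.h (P (nat_lit 0)) (M (nat_lit 7868204061982719))))))) (T.h (P (nat_lit 0)) (T.h (T.h (P (nat_lit 0)) (T.h (M (nat_lit 34692595357611779424255)) (T.h (P (nat_lit 0)) (P (nat_lit 28860658306154496))))) (T.h (P (nat_lit 0)) (T.h (T.h (P (nat_lit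 0)) (P (nat_lit 4797928639463424))) (P (nat_lit 0))))))) (T.h (T.h (P (nat_lit 0)) (T.h (T.h (P (nat_lit 3641499163075808254230528)) (T.h (P (nat_lit 0)) (T.h (P (nat_lit 55498869461626126336)) (T.h (P (nat_lit 0)) (P (nat_lit 295401305272)))))) (T.h (P (nat_lit 0)) (T.h (T.h (M (nat_lit 16133808216185241599)) (T.h (P (nat_lit 0)) (M (nat_lit 30116912663583)))) (T.h (P (nat_lit 0)) (P (nat_lit 9053255530256))))))) (T.h (T.h (T.h (P (nat_lit 0)) (T.h (M (nat_lit 11651508633687157637119)) (T.h (P (nat_lit 0)) (M (nat_lit 741143611080703))))) (T.h (P (nat_lit 0)) (T.h (T.h (P (nat_lit 0)) (M (nat_lit 39638468407689215))) (P (nat_lit 0))))) (T.h (T.h (P (nat_lit 0)) (T.h (T.h (P (nat_lit 4857255339529076736)) (T.h (P (nat_lit 0)) (M (nat_lit 3302925781727)))) (T.h (P (nat_lit 0)) (M (nat_lit 11117983546151))))) (T.h (T.h (T.h (P (nat_lit 0)) (M (nat_lit 20178261076901887))) (P (nat_lit 0))) (T.h (T.h (P (nat_lit 0)) (P (nat_lit 3619901669680)))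 (P (nat_lit 0)))))))), (T.h (T.h (T.h (P (nat_lit 9532113103949875524296396242944)) (T.h (P (nat_lit 0)) (T.h (M (nat_lit 3988164356882201506217983)) (T.h (P (nat_lit 0)) (T.h (P (nat_lit 3867644409403146240)) (T.h (P (nat_lit 0)) (M (nat_lit 4494899552751)))))))) (T.h (P (nat_lit 0)) (T.h (T.h (P (nat_lit 3032100729163460762402816)) (T.h (P (nat_lit 0)) (T.h (M (nat_lit 57813725855048794111)) (T.h (P (nat_lit 0)) (P (nat_lit 18872188738032)))))) (T.h (P (nat_lit 0)) (T.h (T.h (P (nat_lit 28767898205744529408)) (T.h (P (nat_lit 0)) (P (nat_lit 7861092761200)))) (T.h (P (nat_lit 0)) (M (nat_lit 6454986133007)))))))) (T.h (T.h (P (nat_lit 0)) (T.h (T.h (P (nat_lit 0)) (T.h (M (nat_lit 11273622562630300336127)) (T.h (P (nat_lit 0)) (M (nat_lit 28669640327397375))))) (T.h (P (nat_lit 0)) (T.h (T.h (P (nat_lit 0)) (P (nat_lit 4062213188222976))) (P (nat_lit 0)))))) (T.h (T.h (T.h (M (nat_lit 5822015326319091937968127)) (T.h (P (nat_lit 0)) (T.h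 (P (nat_lit 2322674579165675520)) (T.h (P (nat_lit 0)) (P (nat_lit 66173550912)))))) (T.h (P (nat_lit 0)) (T.h (T.h (P (nat_lit 37294152127986270208)) (T.h (P (nat_lit 0)) (P (nat_lit 8548507008608)))) (T.h (P (nat_lit 0)) (P (nat_lit 15481464103056)))))) (T.h (T.h (P (nat_lit 0)) (T.h (T.h (P (nat_lit 0)) (P (nat_lit 76325036144197632))) (P (nat_lit 0)))) (T.h (T.h (T.h (M (nat_lit 8903747042262646783)) (T.h (P (nat_lit 0)) (M (nat_lit 5131028078175)))) (T.h (P (nat_lit 0)) (M (nat_lit 2689076313615)))) (T.h (P (nat_lit 0)) (M (nat_lit 2135898518655)))))))), (T.h (T.h (T.h (P (nat_lit 0)) (T.h (P (nat_lit 4603839004082732782111948800)) (T.h (P (nat_lit 0)) (T.h (M (nat_lit 451937267142675660799)) (T.h (P (nat_lit 0)) (P (nat_lit 9716097229586432))))))) (T.h (P (nat_lit 0)) (T.h (T.h (P (nat_lit 0)) (T.h (P (nat_lit 28647703300755549061120)) (T.h (P (nat_lit 0)) (M (nat_lit 16800158102618111))))) (T.h (P (nat_lit 0)) (T.h (T.h (P (nat_lit 0))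 (P (nat_lit 27870905071534080))) (P (nat_lit 0))))))) (T.h (T.h (P (nat_lit 0)) (T.h (T.h (M (nat_lit 6596670900851402304651263)) (T.h (P (nat_lit 0)) (T.h (M (nat_lit 39250634255368191)) (T.h (P (nat_lit 0)) (M (nat_lit 1128251633855)))))) (T.h (P (nat_lit 0)) (T.h (T.h (P (nat_lit 19514475805688201216)) (T.h (P (nat_lit 0)) (P (nat_lit 25102801519776)))) (T.h (P (nat_lit 0)) (M (nat_lit 5108631799679))))))) (T.h (T.h (T.h (P (nat_lit 0)) (T.h (P (nat_lit 14294575167020482953216)) (T.h (P (nat_lit 0)) (M (nat_lit 17089846118907903))))) (T.h (P (nat_lit 0)) (T.h (T.h (P (nat_lit 0)) (M (nat_lit 4952338308300799))) (P (nat_lit 0))))) (T.h (T.h (P (nat_lit 0)) (T.h (T.h (M (nat_lit 4921241330123800575)) (T.h (P (nat_lit 0)) (P (nat_lit 31647341982192)))) (T.h (P (nat_lit 0)) (P (nat_lit 7971373389648))))) (T.h (T.h (T.h (P (nat_lit 0)) (M (nat_lit 4070874150305791))) (P (nat_lit 0))) (T.h (T.h (P (nat_lit 0)) (M (nat_lit 9164603746943))) (P (nat_lit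 0)))))))), (T.h (T.h (T.h (M (nat_lit 1410570906212094888288156909567)) (T.h (P (nat_lit 0)) (T.h (P (nat_lit 736332230657898056777728)) (T.h (P (nat_lit 0)) (M (nat_lit 8275653059435036671)))))) (T.h (P (nat_lit 0)) (T.h (T.h (M (nat_lit 2713202957367080711618559)) (T.h (P (nat_lit 0)) (M (nat_lit 12443088561886986239)))) (T.h (P (nat_lit 0)) (M (nat_lit 20438749490257592319)))))) (T.h (T.h (P (nat_lit 0)) (T.h (T.h (P (nat_lit 0)) (T.h (P (nat_lit 25522296248950983753728)) (T.h (P (nat_lit 0)) (M (nat_lit 8426976565428223))))) (T.h (P (nat_lit 0)) (T.h (T.h (P (nat_lit 0)) (M (nat_lit 16959839353831423))) (P (nat_lit 0)))))) (T.h (T.h (T.h (P (nat_lit 9092474658105973488484352)) (T.h (P (nat_lit 0)) (P (nat_lit 9901124243519700992)))) (T.h (P (nat_lit 0)) (P (nat_lit 2049630866191155200)))) (T.h (T.h (P (nat_lit 0)) (T.h (T.h (P (nat_lit 0)) (M (nat_lit 20145895602651135))) (P (nat_lit 0)))) (P (nat_lit 6450639816894709760))))))]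
def lP12_4 : List (T ℤ) := [(P (nat_lit 0)), (P (nat_lit 0)), (T.h (T.h (P (nat_lit 0)) (T.h (T.h (P (nat_lit 0)) (T.h (P (nat_lit 8717922922079423085674496)) (T.h (P (nat_lit 0)) (T.h (M (nat_lit 193192647643365375)) (T.h (P (nat_lit 0)) (M (nat_lit 424261102751))))))) (T.h (P (nat_lit 0)) (T.h (T.h (P (nat_lit 0)) (T.h (P (nat_lit 6521691154386255872)) (T.h (P (nat_lit 0)) (P (nat_lit 3373397582576))))) (T.h (P (nat_lit 0)) (T.h (T.h (P (nat_lit 0)) (M (nat_lit 5165935566879))) (P (nat_lit 0)))))))) (T.h (T.h (T.h (P (nat_lit 532858792078950653260464128)) (T.h (P (nat_lit 0)) (T.h (P (nat_lit 3321691345876869447680)) (T.h (P (nat_lit 0)) (P (nat_lit 2725830294568960)))))) (T.h (P (nat_lit 0)) (T.h (T.h (M (nat_lit 4144768062586427015167)) (T.h (P (nat_lit 0)) (P (nat_lit 15787150469627904)))) (T.h (P (nat_lit 0)) (P (nat_lit 10195113124757504)))))) (T.h (T.h (P (nat_lit 0)) (T.h (T.h (P (nat_lit 0)) (T.h (P (nat_lit 10942545611232116736))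 (T.h (P (nat_lit 0)) (M (nat_lit 172863613551))))) (T.h (P (nat_lit 0)) (T.h (T.h (P (nat_lit 0)) (M (nat_lit 9748205673263))) (P (nat_lit 0)))))) (T.h (T.h (T.h (M (nat_lit 3075121913902334476287)) (T.h (P (nat_lit 0)) (P (nat_lit 15163554349252608)))) (T.h (P (nat_lit 0)) (M (nat_lit 14061861106614271)))) (T.h (T.h (P (nat_lit 0)) (T.h (T.h (P (nat_lit 0)) (P (nat_lit 3166704741056))) (P (nat_lit 0)))) (M (nat_lit 1221575086440447))))))), (T.h (T.h (P (nat_lit 0)) (T.h (T.h (P (nat_lit 7410480982141196655933784064)) (T.h (P (nat_lit 0)) (T.h (M (nat_lit 34692595357611779424255)) (T.h (P (nat_lit 0)) (P (nat_lit 4797928639463424)))))) (T.h (P (nat_lit 0)) (T.h (T.h (M (nat_lit 11758016684598470115327)) (T.h (P (nat_lit 0)) (P (nat_lit 28860658306154496)))) (T.h (P (nat_lit 0)) (M (nat_lit 7868204061982719))))))) (T.h (T.h (T.h (P (nat_lit 0)) (T.h (P (nat_lit 3641499163075808254230528)) (T.h (P (nat_lit 0)) (T.h (M (nat_lit 16133808216185241599))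 (T.h (P (nat_lit 0)) (P (nat_lit 9053255530256))))))) (T.h (P (nat_lit 0)) (T.h (T.h (P (nat_lit 0)) (T.h (P (nat_lit 55498869461626126336)) (T.h (P (nat_lit 0)) (M (nat_lit 30116912663583))))) (T.h (P (nat_lit 0)) (T.h (T.h (P (nat_lit 0)) (P (nat_lit 295401305272))) (P (nat_lit 0))))))) (T.h (T.h (P (nat_lit 0)) (T.h (T.h (M (nat_lit 11651508633687157637119)) (T.h (P (nat_lit 0)) (M (nat_lit 39638468407689215)))) (T.h (P (nat_lit 0)) (M (nat_lit 741143611080703))))) (T.h (T.h (T.h (P (nat_lit 0)) (T.h (P (nat_lit 4857255339529076736)) (T.h (P (nat_lit 0)) (M (nat_lit 11117983546151))))) (T.h (P (nat_lit 0)) (T.h (T.h (P (nat_lit 0)) (M (nat_lit 3302925781727))) (P (nat_lit 0))))) (T.h (T.h (P (nat_lit 0)) (M (nat_lit 20178261076901887))) (T.h (T.h (T.h (P (nat_lit 0)) (P (nat_lit 3619901669680))) (P (nat_lit 0))) (P (nat_lit 0)))))))), (T.h (T.h (P (nat_lit 0)) (T.h (T.h (P (nat_lit 0)) (T.h (M (nat_lit 26202266726833330004688895)) (T.h (P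 (nat_lit 0)) (T.h (M (nat_lit 32857965433267945471)) (T.h (P (nat_lit 0)) (P (nat_lit 8063023529120))))))) (T.h (P (nat_lit 0)) (T.h (T.h (P (nat_lit 0)) (T.h (M (nat_lit 32857965433267945471)) (T.h (P (nat_lit 0)) (P (nat_lit 2263527959616))))) (T.h (P (nat_lit 0)) (T.h (T.h (P (nat_lit 0)) (P (nat_lit 8063023529120))) (P (nat_lit 0)))))))) (T.h (T.h (T.h (P (nat_lit 17277169826230395563407310848)) (T.h (P (nat_lit 0)) (T.h (M (nat_lit 14429612615023850422271)) (T.h (P (nat_lit 0)) (M (nat_lit 46231065526583295)))))) (T.h (P (nat_lit 0)) (T.h (T.h (M (nat_lit 14429612615023850422271)) (T.h (P (nat_lit 0)) (M (nat_lit 33472934269550591)))) (T.h (P (nat_lit 0)) (M (nat_lit 46231065526583295)))))) (T.h (T.h (P (nat_lit 0)) (T.h (T.h (P (nat_lit 0)) (T.h (P (nat_lit 4720523903133286400)) (T.h (P (nat_lit 0)) (M (nat_lit 2419356147151))))) (T.h (P (nat_lit 0)) (T.h (T.h (P (nat_lit 0)) (M (nat_lit 2419356147151))) (P (nat_lit 0)))))) (T.h (T.h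 (T.h (P (nat_lit 37722972093317176623104)) (T.h (P (nat_lit 0)) (P (nat_lit 8313373331783680)))) (T.h (P (nat_lit 0)) (P (nat_lit 8313373331783680)))) (T.h (T.h (P (nat_lit 0)) (T.h (T.h (P (nat_lit 0)) (M (nat_lit 14170135667743))) (P (nat_lit 0)))) (P (nat_lit 2839043910631424))))))), (T.h (T.h (P (nat_lit 0)) (T.h (T.h (P (nat_lit 5843117400767520869254692864)) (T.h (P (nat_lit 0)) (T.h (P (nat_lit 6132280081596855353344)) (T.h (P (nat_lit 0)) (M (nat_lit 17608652528943103)))))) (T.h (P (nat_lit 0)) (T.h (T.h (P (nat_lit 6400777624819452608512)) (T.h (P (nat_lit 0)) (M (nat_lit 10186063040872447)))) (T.h (P (nat_lit 0)) (P (nat_lit 17475433437396992))))))) (T.h (T.h (T.h (P (nat_lit 0)) (T.h (M (nat_lit 1272398404344883965853695)) (T.h (P (nat_lit 0)) (T.h (P (nat_lit 23443956208744005632)) (T.h (P (nat_lit 0)) (M (nat_lit 14177834618447))))))) (T.h (P (nat_lit 0)) (T.h (T.h (P (nat_lit 0)) (T.h (P (nat_lit 34232820611900506112)) (T.h (P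 (nat_lit 0)) (P (nat_lit 17952904070928))))) (T.h (P (nat_lit 0)) (T.h (T.h (P (nat_lit 0)) (M (nat_lit 26139770321999))) (P (nat_lit 0))))))) (T.h (T.h (P (nat_lit 0)) (T.h (T.h (M (nat_lit 8661948646476979634175)) (T.h (P (nat_lit 0)) (P (nat_lit 7274545497210880)))) (T.h (P (nat_lit 0)) (M (nat_lit 24023268860002303))))) (T.h (T.h (T.h (P (nat_lit 0)) (T.h (M (nat_lit 3420608005706612735)) (T.h (P (nat_lit 0)) (P (nat_lit 11034664166160))))) (T.h (P (nat_lit 0)) (T.h (T.h (P (nat_lit 0)) (M (nat_lit 19566681743567))) (P (nat_lit 0))))) (T.h (T.h (P (nat_lit 0)) (P (nat_lit 474231768350720))) (T.h (T.h (T.h (P (nat_lit 0)) (P (nat_lit 2356823042256))) (P (nat_lit 0))) (P (nat_lit 0)))))))), (T.h (T.h (P (nat_lit 0)) (T.h (T.h (P (nat_lit 0)) (T.h (P (nat_lit 10198635777548292081057792)) (T.h (P (nat_lit 0)) (M (nat_lit 10587787297082572799))))) (T.h (P (nat_lit 0)) (T.h (T.h (P (nat_lit 0)) (M (nat_lit 44064355139457122303))) (P (nat_lit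 0)))))) (T.h (T.h (T.h (M (nat_lit 9444388680319584730748026879)) (T.h (P (nat_lit 0)) (T.h (P (nat_lit 30742105541402773422080)) (T.h (P (nat_lit 0)) (P (nat_lit 24581947639840768)))))) (T.h (P (nat_lit 0)) (T.h (T.h (P (nat_lit 4498893292917248491520)) (T.h (P (nat_lit 0)) (M (nat_lit 44089042524880895)))) (T.h (P (nat_lit 0)) (P (nat_lit 17641106541363200)))))) (T.h (T.h (P (nat_lit 0)) (T.h (T.h (P (nat_lit 0)) (M (nat_lit 9004690242220851199))) (P (nat_lit 0)))) (T.h (T.h (T.h (M (nat_lit 11887339130370524184575)) (T.h (P (nat_lit 0)) (M (nat_lit 22101788836069375)))) (T.h (P (nat_lit 0)) (M (nat_lit 1483925649195007)))) (T.h (P (nat_lit 0)) (P (nat_lit 2323722480533504))))))), (P (nat_lit 0))]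
def lP12_5 : List (T ℤ) := [(T.h (T.h (T.h (M (nat_lit 169053768763270514532562239487)) (T.h (P (nat_lit 0)) (T.h (P (nat_lit 1217783071519776866041856)) (T.h (P (nat_lit 0)) (T.h (M (nat_lit 2581556048120774655)) (T.h (P (nat_lit 0)) (P (nat_lit 2889973006256)))))))) (T.h (P (nat_lit 0)) (T.h (T.h (M (nat_lit 86023058324020239794175)) (T.h (P (nat_lit 0)) (T.h (M (nat_lit 2804189857717420031)) (T.h (P (nat_lit 0)) (P (nat_lit 2363898821680)))))) (T.h (P (nat_lit 0)) (T.h (T.h (P (nat_lit 544121181330997248)) (T.h (P (nat_lit 0)) (P (nat_lit 1796611202864)))) (T.h (P (nat_lit 0)) (M (nat_lit 1570308029599)))))))) (T.h (T.h (P (nat_lit 0)) (T.h (T.h (P (nat_lit 0)) (T.h (M (nat_lit 1587471070678617161727)) (T.h (P (nat_lit 0)) (P (nat_lit 3737556218937344))))) (T.h (P (nat_lit 0)) (T.h (T.h (P (nat_lit 0)) (P (nat_lit 2147752284127232))) (P (nat_lit 0)))))) (T.h (T.h (T.h (P (nat_lit 1217783071519776866041856)) (T.h (P (nat_lit 0)) (T.h (M (nat_lit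 580103659812028415)) (T.h (P (nat_lit 0)) (M (nat_lit 662576913727)))))) (T.h (P (nat_lit 0)) (T.h (T.h (M (nat_lit 2804189857717420031)) (T.h (P (nat_lit 0)) (P (nat_lit 2120391294816)))) (T.h (P (nat_lit 0)) (P (nat_lit 1796611202864)))))) (T.h (T.h (P (nat_lit 0)) (T.h (T.h (P (nat_lit 0)) (P (nat_lit 3737556218937344))) (P (nat_lit 0)))) (T.h (T.h (T.h (M (nat_lit 2581556048120774655)) (T.h (P (nat_lit 0)) (M (nat_lit 662576913727)))) (T.h (P (nat_lit 0)) (P (nat_lit 2363898821680)))) (T.h (P (nat_lit 0)) (P (nat_lit 2889973006256)))))))), (T.h (T.h (T.h (P (nat_lit 0)) (T.h (M (nat_lit 8105240833316528014414053375)) (T.h (P (nat_lit 0)) (T.h (P (nat_lit 6157605607908443160576)) (T.h (P (nat_lit 0)) (M (nat_lit 14652418540830719))))))) (T.h (P (nat_lit 0)) (T.h (T.h (P (nat_lit 0)) (T.h (M (nat_lit 18612874587945052405759)) (T.h (P (nat_lit 0)) (M (nat_lit 5484856430657535))))) (T.h (P (nat_lit 0)) (T.h (T.h (P (nat_lit 0)) (P (nat_lit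 23898006275555328))) (P (nat_lit 0))))))) (T.h (T.h (P (nat_lit 0)) (T.h (T.h (P (nat_lit 4215725895776875352948736)) (T.h (P (nat_lit 0)) (T.h (M (nat_lit 23926501528834146303)) (T.h (P (nat_lit 0)) (P (nat_lit 2892398064512)))))) (T.h (P (nat_lit 0)) (T.h (T.h (P (nat_lit 33868761651432390656)) (T.h (P (nat_lit 0)) (M (nat_lit 19419484670495)))) (T.h (P (nat_lit 0)) (P (nat_lit 966839890088))))))) (T.h (T.h (T.h (P (nat_lit 0)) (T.h (P (nat_lit 20407429106314850074624)) (T.h (P (nat_lit 0)) (P (nat_lit 13934158588248064))))) (T.h (P (nat_lit 0)) (T.h (T.h (P (nat_lit 0)) (M (nat_lit 21479489433075711))) (P (nat_lit 0))))) (T.h (T.h (P (nat_lit 0)) (T.h (T.h (P (nat_lit 29294307247426371584)) (T.h (P (nat_lit 0)) (P (nat_lit 17916783817936)))) (T.h (P (nat_lit 0)) (P (nat_lit 4797394601552))))) (T.h (T.h (T.h (P (nat_lit 0)) (P (nat_lit 18185428906213376))) (P (nat_lit 0))) (T.h (T.h (P (nat_lit 0)) (P (nat_lit 2467984298904))) (P (nat_lit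 0)))))))), (T.h (T.h (T.h (P (nat_lit 9532113103949875524296396242944)) (T.h (P (nat_lit 0)) (T.h (P (nat_lit 3032100729163460762402816)) (T.h (P (nat_lit 0)) (T.h (P (nat_lit 28767898205744529408)) (T.h (P (nat_lit 0)) (M (nat_lit 6454986133007)))))))) (T.h (P (nat_lit 0)) (T.h (T.h (M (nat_lit 3988164356882201506217983)) (T.h (P (nat_lit 0)) (T.h (M (nat_lit 57813725855048794111)) (T.h (P (nat_lit 0)) (P (nat_lit 7861092761200)))))) (T.h (P (nat_lit 0)) (T.h (T.h (P (nat_lit 3867644409403146240)) (T.h (P (nat_lit 0)) (P (nat_lit 18872188738032)))) (T.h (P (nat_lit 0)) (M (nat_lit 4494899552751)))))))) (T.h (T.h (P (nat_lit 0)) (T.h (T.h (P (nat_lit 0)) (T.h (M (nat_lit 11273622562630300336127)) (T.h (P (nat_lit 0)) (P (nat_lit 4062213188222976))))) (T.h (P (nat_lit 0)) (T.h (T.h (P (nat_lit 0)) (M (nat_lit 28669640327397375))) (P (nat_lit 0)))))) (T.h (T.h (T.h (M (nat_lit 5822015326319091937968127)) (T.h (P (nat_lit 0)) (T.h (P (nat_lit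 37294152127986270208)) (T.h (P (nat_lit 0)) (P (nat_lit 15481464103056)))))) (T.h (P (nat_lit 0)) (T.h (T.h (P (nat_lit 2322674579165675520)) (T.h (P (nat_lit 0)) (P (nat_lit 8548507008608)))) (T.h (P (nat_lit 0)) (P (nat_lit 66173550912)))))) (T.h (T.h (P (nat_lit 0)) (T.h (T.h (P (nat_lit 0)) (P (nat_lit 76325036144197632))) (P (nat_lit 0)))) (T.h (T.h (T.h (M (nat_lit 8903747042262646783)) (T.h (P (nat_lit 0)) (M (nat_lit 2689076313615)))) (T.h (P (nat_lit 0)) (M (nat_lit 5131028078175)))) (T.h (P (nat_lit 0)) (M (nat_lit 2135898518655)))))))), (T.h (T.h (T.h (P (nat_lit 0)) (T.h (P (nat_lit 5843117400767520869254692864)) (T.h (P (nat_lit 0)) (T.h (P (nat_lit 6400777624819452608512)) (T.h (P (nat_lit 0)) (P (nat_lit 17475433437396992))))))) (T.h (P (nat_lit 0)) (T.h (T.h (P (nat_lit 0)) (T.h (P (nat_lit 6132280081596855353344)) (T.h (P (nat_lit 0)) (M (nat_lit 10186063040872447))))) (T.h (P (nat_lit 0)) (T.h (T.h (P (nat_lit 0)) (M (nat_lit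 17608652528943103))) (P (nat_lit 0))))))) (T.h (T.h (P (nat_lit 0)) (T.h (T.h (M (nat_lit 1272398404344883965853695)) (T.h (P (nat_lit 0)) (T.h (P (nat_lit 34232820611900506112)) (T.h (P (nat_lit 0)) (M (nat_lit 26139770321999)))))) (T.h (P (nat_lit 0)) (T.h (T.h (P (nat_lit 23443956208744005632)) (T.h (P (nat_lit 0)) (P (nat_lit 17952904070928)))) (T.h (P (nat_lit 0)) (M (nat_lit 14177834618447))))))) (T.h (T.h (T.h (P (nat_lit 0)) (T.h (M (nat_lit 8661948646476979634175)) (T.h (P (nat_lit 0)) (M (nat_lit 24023268860002303))))) (T.h (P (nat_lit 0)) (T.h (T.h (P (nat_lit 0)) (P (nat_lit 7274545497210880))) (P (nat_lit 0))))) (T.h (T.h (P (nat_lit 0)) (T.h (T.h (M (nat_lit 3420608005706612735)) (T.h (P (nat_lit 0)) (M (nat_lit 19566681743567)))) (T.h (P (nat_lit 0)) (P (nat_lit 11034664166160))))) (T.h (T.h (T.h (P (nat_lit 0)) (P (nat_lit 474231768350720))) (P (nat_lit 0))) (T.h (T.h (P (nat_lit 0)) (P (nat_lit 2356823042256))) (P (nat_lit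 0)))))))), (T.h (T.h (T.h (P (nat_lit 1566566538292661711704453808128)) (T.h (P (nat_lit 0)) (T.h (M (nat_lit 9732647539352031790628863)) (T.h (P (nat_lit 0)) (M (nat_lit 16297031267554164735)))))) (T.h (P (nat_lit 0)) (T.h (T.h (M (nat_lit 9732647539352031790628863)) (T.h (P (nat_lit 0)) (M (nat_lit 2048803517447012351)))) (T.h (P (nat_lit 0)) (M (nat_lit 16297031267554164735)))))) (T.h (T.h (P (nat_lit 0)) (T.h (T.h (P (nat_lit 0)) (T.h (P (nat_lit 26663661396517474795520)) (T.h (P (nat_lit 0)) (P (nat_lit 23433650567217152))))) (T.h (P (nat_lit 0)) (T.h (T.h (P (nat_lit 0)) (P (nat_lit 23433650567217152))) (P (nat_lit 0)))))) (T.h (T.h (T.h (P (nat_lit 3329637082376392511848448)) (T.h (P (nat_lit 0)) (P (nat_lit 3306482805604614144)))) (T.h (P (nat_lit 0)) (P (nat_lit 3306482805604614144)))) (T.h (T.h (P (nat_lit 0)) (T.h (T.h (P (nat_lit 0)) (P (nat_lit 26715042807218176))) (P (nat_lit 0)))) (P (nat_lit 3580613197985480704)))))), (P (nat_lit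 0)), (T.h (T.h (P (nat_lit 0)) (T.h (T.h (M (nat_lit 6710137670469634890370383871)) (T.h (P (nat_lit 0)) (T.h (M (nat_lit 7145578919625811296255)) (T.h (P (nat_lit 0)) (M (nat_lit 7390483838959615)))))) (T.h (P (nat_lit 0)) (T.h (T.h (M (nat_lit 8784275359082477518847)) (T.h (P (nat_lit 0)) (M (nat_lit 6980069744508927)))) (T.h (P (nat_lit 0)) (P (nat_lit 7334363874459648))))))) (T.h (T.h (T.h (P (nat_lit 0)) (T.h (P (nat_lit 3147941618468942604402688)) (T.h (P (nat_lit 0)) (T.h (M (nat_lit 14654403036332425215)) (T.h (P (nat_lit 0)) (P (nat_lit 1333360900360))))))) (T.h (P (nat_lit 0)) (T.h (T.h (P (nat_lit 0)) (T.h (M (nat_lit 15443931641180848127)) (T.h (P (nat_lit 0)) (P (nat_lit 4503270309448))))) (T.h (P (nat_lit 0)) (T.h (T.h (P (nat_lit 0)) (M (nat_lit 2972229967967))) (P (nat_lit 0))))))) (T.h (T.h (P (nat_lit 0)) (T.h (T.h (M (nat_lit 2995186226142658953215)) (T.h (P (nat_lit 0)) (M (nat_lit 5119387493728255)))) (T.h (P (nat_lit 0))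 (M (nat_lit 17858861881032703))))) (T.h (T.h (T.h (P (nat_lit 0)) (T.h (M (nat_lit 14522462245515952127)) (T.h (P (nat_lit 0)) (P (nat_lit 3114189266208))))) (T.h (P (nat_lit 0)) (T.h (T.h (P (nat_lit 0)) (M (nat_lit 110400139431))) (P (nat_lit 0))))) (T.h (T.h (P (nat_lit 0)) (M (nat_lit 8877860582555647))) (T.h (T.h (T.h (P (nat_lit 0)) (P (nat_lit 1403340751448))) (P (nat_lit 0))) (P (nat_lit 0)))))))), (T.h (T.h (P (nat_lit 0)) (T.h (T.h (P (nat_lit 0)) (T.h (P (nat_lit 11006440254763849941516288)) (T.h (P (nat_lit 0)) (T.h (P (nat_lit 16119823565909393408)) (T.h (P (nat_lit 0)) (M (nat_lit 476646617775))))))) (T.h (P (nat_lit 0)) (T.h (T.h (P (nat_lit 0)) (T.h (M (nat_lit 10212482558193565695)) (T.h (P (nat_lit 0)) (M (nat_lit 267617463791))))) (T.h (P (nat_lit 0)) (T.h (T.h (P (nat_lit 0)) (P (nat_lit 11875290719936))) (P (nat_lit 0)))))))) (T.h (T.h (T.h (M (nat_lit 2183137425904434638667907071)) (T.h (P (nat_lit 0)) (T.h (P (nat_lit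 1595751522983967981568)) (T.h (P (nat_lit 0)) (M (nat_lit 10387681152090111)))))) (T.h (P (nat_lit 0)) (T.h (T.h (M (nat_lit 27481446203344965074943)) (T.h (P (nat_lit 0)) (M (nat_lit 1654209649672191)))) (T.h (P (nat_lit 0)) (M (nat_lit 4103378252595199)))))) (T.h (T.h (P (nat_lit 0)) (T.h (T.h (P (nat_lit 0)) (T.h (P (nat_lit 17390635901448617984)) (T.h (P (nat_lit 0)) (P (nat_lit 3403801104368))))) (T.h (P (nat_lit 0)) (T.h (T.h (P (nat_lit 0)) (P (nat_lit 8038665908672))) (P (nat_lit 0)))))) (T.h (T.h (T.h (P (nat_lit 1146563286424017174528)) (T.h (P (nat_lit 0)) (M (nat_lit 30936074729717759)))) (T.h (P (nat_lit 0)) (P (nat_lit 24685718477160448)))) (T.h (T.h (P (nat_lit 0)) (T.h (T.h (P (nat_lit 0)) (M (nat_lit 170731117199))) (P (nat_lit 0)))) (P (nat_lit 2008321073004544)))))))]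
def lP12_6 : List (T ℤ) := [(T.h (T.h (P (nat_lit 0)) (T.h (T.h (P (nat_lit 4603839004082732782111948800)) (T.h (P (nat_lit 0)) (T.h (P (nat_lit 28647703300755549061120)) (T.h (P (nat_lit 0)) (P (nat_lit 27870905071534080)))))) (T.h (P (nat_lit 0)) (T.h (T.h (M (nat_lit 451937267142675660799)) (T.h (P (nat_lit 0)) (M (nat_lit 16800158102618111)))) (T.h (P (nat_lit 0)) (P (nat_lit 9716097229586432))))))) (T.h (T.h (T.h (P (nat_lit 0)) (T.h (M (nat_lit 6596670900851402304651263)) (T.h (P (nat_lit 0)) (T.h (P (nat_lit 19514475805688201216)) (T.h (P (nat_lit 0)) (M (nat_lit 5108631799679))))))) (T.h (P (nat_lit 0)) (T.h (T.h (P (nat_lit 0)) (T.h (M (nat_lit 39250634255368191)) (T.h (P (nat_lit 0)) (P (nat_lit 25102801519776))))) (T.h (P (nat_lit 0)) (T.h (T.h (P (nat_lit 0)) (M (nat_lit 1128251633855))) (P (nat_lit 0))))))) (T.h (T.h (P (nat_lit 0)) (T.h (T.h (P (nat_lit 14294575167020482953216)) (T.h (P (nat_lit 0)) (M (nat_lit 4952338308300799))))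 (T.h (P (nat_lit 0)) (M (nat_lit 17089846118907903))))) (T.h (T.h (T.h (P (nat_lit 0)) (T.h (M (nat_lit 4921241330123800575)) (T.h (P (nat_lit 0)) (P (nat_lit 7971373389648))))) (T.h (P (nat_lit 0)) (T.h (T.h (P (nat_lit 0)) (P (nat_lit 31647341982192))) (P (nat_lit 0))))) (T.h (T.h (P (nat_lit 0)) (M (nat_lit 4070874150305791))) (T.h (T.h (T.h (P (nat_lit 0)) (M (nat_lit 9164603746943))) (P (nat_lit 0))) (P (nat_lit 0)))))))), (T.h (T.h (P (nat_lit 0)) (T.h (T.h (P (nat_lit 0)) (T.h (P (nat_lit 10198635777548292081057792)) (T.h (P (nat_lit 0)) (M (nat_lit 44064355139457122303))))) (T.h (P (nat_lit 0)) (T.h (T.h (P (nat_lit 0)) (M (nat_lit 10587787297082572799))) (P (nat_lit 0)))))) (T.h (T.h (T.h (M (nat_lit 9444388680319584730748026879)) (T.h (P (nat_lit 0)) (T.h (P (nat_lit 4498893292917248491520)) (T.h (P (nat_lit 0)) (P (nat_lit 17641106541363200)))))) (T.h (P (nat_lit 0)) (T.h (T.h (P (nat_lit 30742105541402773422080)) (T.h (P (nat_lit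 0)) (M (nat_lit 44089042524880895)))) (T.h (P (nat_lit 0)) (P (nat_lit 24581947639840768)))))) (T.h (T.h (P (nat_lit 0)) (T.h (T.h (P (nat_lit 0)) (M (nat_lit 9004690242220851199))) (P (nat_lit 0)))) (T.h (T.h (T.h (M (nat_lit 11887339130370524184575)) (T.h (P (nat_lit 0)) (M (nat_lit 1483925649195007)))) (T.h (P (nat_lit 0)) (M (nat_lit 22101788836069375)))) (T.h (P (nat_lit 0)) (P (nat_lit 2323722480533504))))))), (P (nat_lit 0)), (T.h (T.h (T.h (P (nat_lit 7955821324122392065238856892416)) (T.h (P (nat_lit 0)) (T.h (P (nat_lit 706434760272425848406016)) (T.h (P (nat_lit 0)) (T.h (P (nat_lit 4427669298030313472)) (T.h (P (nat_lit 0)) (M (nat_lit 2838909460015)))))))) (T.h (P (nat_lit 0)) (T.h (T.h (P (nat_lit 7393668704782508321931264)) (T.h (P (nat_lit 0)) (T.h (P (nat_lit 14592576984723750912)) (T.h (P (nat_lit 0)) (M (nat_lit 4410506974159)))))) (T.h (P (nat_lit 0)) (T.h (T.h (M (nat_lit 4062598691368730623)) (T.h (P (nat_lit 0)) (M (nat_lit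 3133739275967)))) (T.h (P (nat_lit 0)) (P (nat_lit 3652989002656)))))))) (T.h (T.h (P (nat_lit 0)) (T.h (T.h (P (nat_lit 0)) (T.h (P (nat_lit 10114515785597969235968)) (T.h (P (nat_lit 0)) (M (nat_lit 7725811003260927))))) (T.h (P (nat_lit 0)) (T.h (T.h (P (nat_lit 0)) (P (nat_lit 123914970333184))) (P (nat_lit 0)))))) (T.h (T.h (T.h (P (nat_lit 706434760272425848406016)) (T.h (P (nat_lit 0)) (T.h (P (nat_lit 4485432474456817664)) (T.h (P (nat_lit 0)) (P (nat_lit 1714226929744)))))) (T.h (P (nat_lit 0)) (T.h (T.h (P (nat_lit 14592576984723750912)) (T.h (P (nat_lit 0)) (M (nat_lit 4950411610591)))) (T.h (P (nat_lit 0)) (M (nat_lit 3133739275967)))))) (T.h (T.h (P (nat_lit 0)) (T.h (T.h (P (nat_lit 0)) (M (nat_lit 7725811003260927))) (P (nat_lit 0)))) (T.h (T.h (T.h (P (nat_lit 4427669298030313472)) (T.h (P (nat_lit 0)) (P (nat_lit 1714226929744)))) (T.h (P (nat_lit 0)) (M (nat_lit 4410506974159)))) (T.h (P (nat_lit 0)) (M (nat_lit 2838909460015)))))))),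 (T.h (T.h (T.h (P (nat_lit 0)) (T.h (P (nat_lit 6851398732185546236270477312)) (T.h (P (nat_lit 0)) (T.h (M (nat_lit 4732893267667112165375)) (T.h (P (nat_lit 0)) (P (nat_lit 10744085451014144))))))) (T.h (P (nat_lit 0)) (T.h (T.h (P (nat_lit 0)) (T.h (P (nat_lit 18348311073687137681408)) (T.h (P (nat_lit 0)) (P (nat_lit 12497095545683968))))) (T.h (P (nat_lit 0)) (T.h (T.h (P (nat_lit 0)) (M (nat_lit 17793055875203071))) (P (nat_lit 0))))))) (T.h (T.h (P (nat_lit 0)) (T.h (T.h (M (nat_lit 11660322374750600744140799)) (T.h (P (nat_lit 0)) (T.h (P (nat_lit 39841637126717308928)) (T.h (P (nat_lit 0)) (M (nat_lit 129643420655)))))) (T.h (P (nat_lit 0)) (T.h (T.h (M (nat_lit 18520378691960176639)) (T.h (P (nat_lit 0)) (P (nat_lit 14600707220976)))) (T.h (P (nat_lit 0)) (M (nat_lit 170296125263))))))) (T.h (T.h (T.h (P (nat_lit 0)) (T.h (M (nat_lit 21425206370652458582015)) (T.h (P (nat_lit 0)) (M (nat_lit 6016024335384575))))) (T.h (P (nat_lit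 0)) (T.h (T.h (P (nat_lit 0)) (P (nat_lit 10815406722252800))) (P (nat_lit 0))))) (T.h (T.h (P (nat_lit 0)) (T.h (T.h (M (nat_lit 24783823898534739967)) (T.h (P (nat_lit 0)) (M (nat_lit 2136752720495)))) (T.h (P (nat_lit 0)) (P (nat_lit 6938019607344))))) (T.h (T.h (T.h (P (nat_lit 0)) (M (nat_lit 12728265808248831))) (P (nat_lit 0))) (T.h (T.h (P (nat_lit 0)) (P (nat_lit 2531236715616))) (P (nat_lit 0)))))))), (T.h (T.h (T.h (M (nat_lit 1410570906212094888288156909567)) (T.h (P (nat_lit 0)) (T.h (M (nat_lit 2713202957367080711618559)) (T.h (P (nat_lit 0)) (M (nat_lit 20438749490257592319)))))) (T.h (P (nat_lit 0)) (T.h (T.h (P (nat_lit 736332230657898056777728)) (T.h (P (nat_lit 0)) (M (nat_lit 12443088561886986239)))) (T.h (P (nat_lit 0)) (M (nat_lit 8275653059435036671)))))) (T.h (T.h (P (nat_lit 0)) (T.h (T.h (P (nat_lit 0)) (T.h (P (nat_lit 25522296248950983753728)) (T.h (P (nat_lit 0)) (M (nat_lit 16959839353831423))))) (T.h (P (nat_lit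 0)) (T.h (T.h (P (nat_lit 0)) (M (nat_lit 8426976565428223))) (P (nat_lit 0)))))) (T.h (T.h (T.h (P (nat_lit 9092474658105973488484352)) (T.h (P (nat_lit 0)) (P (nat_lit 2049630866191155200)))) (T.h (P (nat_lit 0)) (P (nat_lit 9901124243519700992)))) (T.h (T.h (P (nat_lit 0)) (T.h (T.h (P (nat_lit 0)) (M (nat_lit 20145895602651135))) (P (nat_lit 0)))) (P (nat_lit 6450639816894709760)))))), (P (nat_lit 0)), (T.h (T.h (P (nat_lit 0)) (T.h (T.h (P (nat_lit 6710137670469634890370383872)) (T.h (P (nat_lit 0)) (T.h (P (nat_lit 5070382572884235124736)) (T.h (P (nat_lit 0)) (P (nat_lit 8134172210757632)))))) (T.h (P (nat_lit 0)) (T.h (T.h (P (nat_lit 8784275359082477518848)) (T.h (P (nat_lit 0)) (P (nat_lit 12419465812770816)))) (T.h (P (nat_lit 0)) (M (nat_lit 7334363874459647))))))) (T.h (T.h (T.h (P (nat_lit 0)) (T.h (M (nat_lit 3147941618468942604402687)) (T.h (P (nat_lit 0)) (T.h (P (nat_lit 14588432640924188672)) (T.h (P (nat_lit 0)) (M (nat_lit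 1368350825903))))))) (T.h (P (nat_lit 0)) (T.h (T.h (P (nat_lit 0)) (T.h (P (nat_lit 15443931641180848128)) (T.h (P (nat_lit 0)) (M (nat_lit 2196435085007))))) (T.h (P (nat_lit 0)) (T.h (T.h (P (nat_lit 0)) (P (nat_lit 2972229967968))) (P (nat_lit 0))))))) (T.h (T.h (P (nat_lit 0)) (T.h (T.h (P (nat_lit 5070382572884235124736)) (T.h (P (nat_lit 0)) (P (nat_lit 5119387493728256)))) (T.h (P (nat_lit 0)) (P (nat_lit 12419465812770816))))) (T.h (T.h (T.h (P (nat_lit 0)) (T.h (P (nat_lit 14588432640924188672)) (T.h (P (nat_lit 0)) (M (nat_lit 3114189266207))))) (T.h (P (nat_lit 0)) (T.h (T.h (P (nat_lit 0)) (M (nat_lit 2196435085007))) (P (nat_lit 0))))) (T.h (T.h (P (nat_lit 0)) (P (nat_lit 8134172210757632))) (T.h (T.h (T.h (P (nat_lit 0)) (M (nat_lit 1368350825903))) (P (nat_lit 0))) (P (nat_lit 0))))))))]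
def lP12_7 : List (T ℤ) := [(T.h (T.h (P (nat_lit 0)) (T.h (T.h (P (nat_lit 0)) (T.h (M (nat_lit 17043484856467139858530303)) (T.h (P (nat_lit 0)) (M (nat_lit 12429613524915847167))))) (T.h (P (nat_lit 0)) (T.h (T.h (P (nat_lit 0)) (M (nat_lit 2896091241655566335))) (P (nat_lit 0)))))) (T.h (T.h (T.h (P (nat_lit 3402341988066177641621749760)) (T.h (P (nat_lit 0)) (T.h (M (nat_lit 19467932748244439793663)) (T.h (P (nat_lit 0)) (P (nat_lit 2379570363793408)))))) (T.h (P (nat_lit 0)) (T.h (T.h (P (nat_lit 22557465762590185488384)) (T.h (P (nat_lit 0)) (M (nat_lit 12701974667231231)))) (T.h (P (nat_lit 0)) (M (nat_lit 723882441949183)))))) (T.h (T.h (P (nat_lit 0)) (T.h (T.h (P (nat_lit 0)) (M (nat_lit 11739852891748302847))) (P (nat_lit 0)))) (T.h (T.h (T.h (P (nat_lit 311281724839209992192)) (T.h (P (nat_lit 0)) (P (nat_lit 3918274737192960)))) (T.h (P (nat_lit 0)) (M (nat_lit 6354815568904191)))) (T.h (P (nat_lit 0)) (M (nat_lit 396931717021695))))))),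 (P (nat_lit 0)), (T.h (T.h (T.h (M (nat_lit 2330416154883494020266051239935)) (T.h (P (nat_lit 0)) (T.h (M (nat_lit 2720637866675313557110783)) (T.h (P (nat_lit 0)) (M (nat_lit 1895559017283977215)))))) (T.h (P (nat_lit 0)) (T.h (T.h (M (nat_lit 7464748788017715864403967)) (T.h (P (nat_lit 0)) (M (nat_lit 8962145797948833791)))) (T.h (P (nat_lit 0)) (P (nat_lit 1573209784461557760)))))) (T.h (T.h (P (nat_lit 0)) (T.h (T.h (P (nat_lit 0)) (T.h (M (nat_lit 7531325478474476421119)) (T.h (P (nat_lit 0)) (P (nat_lit 1499433018032128))))) (T.h (P (nat_lit 0)) (T.h (T.h (P (nat_lit 0)) (M (nat_lit 4058084649598975))) (P (nat_lit 0)))))) (T.h (T.h (T.h (M (nat_lit 2720637866675313557110783)) (T.h (P (nat_lit 0)) (M (nat_lit 758678015956746239)))) (T.h (P (nat_lit 0)) (M (nat_lit 8962145797948833791)))) (T.h (T.h (P (nat_lit 0)) (T.h (T.h (P (nat_lit 0)) (P (nat_lit 1499433018032128))) (P (nat_lit 0)))) (M (nat_lit 1895559017283977215)))))), (P (nat_lit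 0)), (P (nat_lit 0)), (P (nat_lit 0)), (P (nat_lit 0)), (T.h (T.h (T.h (P (nat_lit 1044295661541056040152510496768)) (T.h (P (nat_lit 0)) (T.h (M (nat_lit 210793898891634601361407)) (T.h (P (nat_lit 0)) (T.h (P (nat_lit 1666622243523788800)) (T.h (P (nat_lit 0)) (M (nat_lit 1373919194975)))))))) (T.h (P (nat_lit 0)) (T.h (T.h (M (nat_lit 803693429346107486371839)) (T.h (P (nat_lit 0)) (T.h (P (nat_lit 5347940031472336896)) (T.h (P (nat_lit 0)) (M (nat_lit 973575943103)))))) (T.h (P (nat_lit 0)) (T.h (T.h (M (nat_lit 12448279673438207)) (T.h (P (nat_lit 0)) (M (nat_lit 4555144252095)))) (T.h (P (nat_lit 0)) (P (nat_lit 299772141640)))))))) (T.h (T.h (P (nat_lit 0)) (T.h (T.h (P (nat_lit 0)) (T.h (P (nat_lit 521456027259417657344)) (T.h (P (nat_lit 0)) (M (nat_lit 212236946046975))))) (T.h (P (nat_lit 0)) (T.h (T.h (P (nat_lit 0)) (M (nat_lit 2878621347512319))) (P (nat_lit 0)))))) (T.h (T.h (T.h (M (nat_lit 803693429346107486371839)) (T.h (P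 (nat_lit 0)) (T.h (P (nat_lit 5347940031472336896)) (T.h (P (nat_lit 0)) (M (nat_lit 973575943103)))))) (T.h (P (nat_lit 0)) (T.h (T.h (P (nat_lit 3977279956173455360)) (T.h (P (nat_lit 0)) (M (nat_lit 7639513951519)))) (T.h (P (nat_lit 0)) (P (nat_lit 653464833136)))))) (T.h (T.h (P (nat_lit 0)) (T.h (T.h (P (nat_lit 0)) (M (nat_lit 2878621347512319))) (P (nat_lit 0)))) (T.h (T.h (T.h (M (nat_lit 12448279673438207)) (T.h (P (nat_lit 0)) (M (nat_lit 4555144252095)))) (T.h (P (nat_lit 0)) (P (nat_lit 653464833136)))) (T.h (P (nat_lit 0)) (P (nat_lit 299772141640))))))))]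
def lP12_8 : List (T ℤ) := [(P (nat_lit 0)), (P (nat_lit 0)), (P (nat_lit 0)), (P (nat_lit 0)), (P (nat_lit 0)), (T.h (T.h (P (nat_lit 0)) (T.h (T.h (P (nat_lit 532858792078950653260464128)) (T.h (P (nat_lit 0)) (T.h (M (nat_lit 4144768062586427015167)) (T.h (P (nat_lit 0)) (P (nat_lit 10195113124757504)))))) (T.h (P (nat_lit 0)) (T.h (T.h (M (nat_lit 3075121913902334476287)) (T.h (P (nat_lit 0)) (M (nat_lit 14061861106614271)))) (T.h (P (nat_lit 0)) (M (nat_lit 1221575086440447))))))) (T.h (T.h (T.h (P (nat_lit 0)) (T.h (P (nat_lit 8717922922079423085674496)) (T.h (P (nat_lit 0)) (T.h (P (nat_lit 6521691154386255872)) (T.h (P (nat_lit 0)) (M (nat_lit 5165935566879))))))) (T.h (P (nat_lit 0)) (T.h (T.h (P (nat_lit 0)) (T.h (P (nat_lit 10942545611232116736)) (T.h (P (nat_lit 0)) (M (nat_lit 9748205673263))))) (T.h (P (nat_lit 0)) (T.h (T.h (P (nat_lit 0)) (P (nat_lit 3166704741056))) (P (nat_lit 0))))))) (T.h (T.h (P (nat_lit 0)) (T.h (T.h (P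 (nat_lit 3321691345876869447680)) (T.h (P (nat_lit 0)) (P (nat_lit 15787150469627904)))) (T.h (P (nat_lit 0)) (P (nat_lit 15163554349252608))))) (T.h (T.h (T.h (P (nat_lit 0)) (T.h (M (nat_lit 193192647643365375)) (T.h (P (nat_lit 0)) (P (nat_lit 3373397582576))))) (T.h (P (nat_lit 0)) (T.h (T.h (P (nat_lit 0)) (M (nat_lit 172863613551))) (P (nat_lit 0))))) (T.h (T.h (P (nat_lit 0)) (P (nat_lit 2725830294568960))) (T.h (T.h (T.h (P (nat_lit 0)) (M (nat_lit 424261102751))) (P (nat_lit 0))) (P (nat_lit 0)))))))), (T.h (T.h (P (nat_lit 0)) (T.h (T.h (P (nat_lit 0)) (T.h (P (nat_lit 22443489026371791443984384)) (T.h (P (nat_lit 0)) (T.h (M (nat_lit 3892006359876501503)) (T.h (P (nat_lit 0)) (M (nat_lit 6424522563119))))))) (T.h (P (nat_lit 0)) (T.h (T.h (P (nat_lit 0)) (T.h (P (nat_lit 31038328241892884480)) (T.h (P (nat_lit 0)) (M (nat_lit 7456358535023))))) (T.h (P (nat_lit 0)) (T.h (T.h (P (nat_lit 0)) (M (nat_lit 10470056088287))) (P (nat_lit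 0)))))))) (T.h (T.h (T.h (M (nat_lit 3819300915535993291386388479)) (T.h (P (nat_lit 0)) (T.h (M (nat_lit 32478648714959731556351)) (T.h (P (nat_lit 0)) (P (nat_lit 10133603513008128)))))) (T.h (P (nat_lit 0)) (T.h (T.h (P (nat_lit 4942988227678992072704)) (T.h (P (nat_lit 0)) (P (nat_lit 26594088335769600)))) (T.h (P (nat_lit 0)) (P (nat_lit 10556145873944576)))))) (T.h (T.h (P (nat_lit 0)) (T.h (T.h (P (nat_lit 0)) (T.h (M (nat_lit 37202317938341707775)) (T.h (P (nat_lit 0)) (M (nat_lit 6597726511279))))) (T.h (P (nat_lit 0)) (T.h (T.h (P (nat_lit 0)) (M (nat_lit 17851262249375))) (P (nat_lit 0)))))) (T.h (T.h (T.h (P (nat_lit 632895058517572976640)) (T.h (P (nat_lit 0)) (M (nat_lit 17594838141730815)))) (T.h (P (nat_lit 0)) (M (nat_lit 19860569230704639)))) (T.h (T.h (P (nat_lit 0)) (T.h (T.h (P (nat_lit 0)) (M (nat_lit 5331661423407))) (P (nat_lit 0)))) (M (nat_lit 7554299021656063))))))), (T.h (T.h (P (nat_lit 0)) (T.h (T.h (M (nat_lit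 2183137425904434638667907071)) (T.h (P (nat_lit 0)) (T.h (M (nat_lit 27481446203344965074943)) (T.h (P (nat_lit 0)) (M (nat_lit 4103378252595199)))))) (T.h (P (nat_lit 0)) (T.h (T.h (P (nat_lit 1146563286424017174528)) (T.h (P (nat_lit 0)) (P (nat_lit 24685718477160448)))) (T.h (P (nat_lit 0)) (P (nat_lit 2008321073004544))))))) (T.h (T.h (T.h (P (nat_lit 0)) (T.h (P (nat_lit 11006440254763849941516288)) (T.h (P (nat_lit 0)) (T.h (M (nat_lit 10212482558193565695)) (T.h (P (nat_lit 0)) (P (nat_lit 11875290719936))))))) (T.h (P (nat_lit 0)) (T.h (T.h (P (nat_lit 0)) (T.h (P (nat_lit 17390635901448617984)) (T.h (P (nat_lit 0)) (P (nat_lit 8038665908672))))) (T.h (P (nat_lit 0)) (T.h (T.h (P (nat_lit 0)) (M (nat_lit 170731117199))) (P (nat_lit 0))))))) (T.h (T.h (P (nat_lit 0)) (T.h (T.h (P (nat_lit 1595751522983967981568)) (T.h (P (nat_lit 0)) (M (nat_lit 1654209649672191)))) (T.h (P (nat_lit 0)) (M (nat_lit 30936074729717759))))) (T.h (T.h (T.h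 (P (nat_lit 0)) (T.h (P (nat_lit 16119823565909393408)) (T.h (P (nat_lit 0)) (M (nat_lit 267617463791))))) (T.h (P (nat_lit 0)) (T.h (T.h (P (nat_lit 0)) (P (nat_lit 3403801104368))) (P (nat_lit 0))))) (T.h (T.h (P (nat_lit 0)) (M (nat_lit 10387681152090111))) (T.h (T.h (T.h (P (nat_lit 0)) (M (nat_lit 476646617775))) (P (nat_lit 0))) (P (nat_lit 0))))))))]
def lP12_9 : List (T ℤ) := [(T.h (T.h (P (nat_lit 0)) (T.h (T.h (P (nat_lit 0)) (T.h (M (nat_lit 11660322374750600744140799)) (T.h (P (nat_lit 0)) (T.h (M (nat_lit 18520378691960176639)) (T.h (P (nat_lit 0)) (M (nat_lit 170296125263))))))) (T.h (P (nat_lit 0)) (T.h (T.h (P (nat_lit 0)) (T.h (M (nat_lit 24783823898534739967)) (T.h (P (nat_lit 0)) (P (nat_lit 6938019607344))))) (T.h (P (nat_lit 0)) (T.h (T.h (P (nat_lit 0)) (P (nat_lit 2531236715616))) (P (nat_lit 0)))))))) (T.h (T.h (T.h (P (nat_lit 6851398732185546236270477312)) (T.h (P (nat_lit 0)) (T.h (P (nat_lit 18348311073687137681408))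 (T.h (P (nat_lit 0)) (M (nat_lit 17793055875203071)))))) (T.h (P (nat_lit 0)) (T.h (T.h (M (nat_lit 21425206370652458582015)) (T.h (P (nat_lit 0)) (P (nat_lit 10815406722252800)))) (T.h (P (nat_lit 0)) (M (nat_lit 12728265808248831)))))) (T.h (T.h (P (nat_lit 0)) (T.h (T.h (P (nat_lit 0)) (T.h (P (nat_lit 39841637126717308928)) (T.h (P (nat_lit 0)) (P (nat_lit 14600707220976))))) (T.h (P (nat_lit 0)) (T.h (T.h (P (nat_lit 0)) (M (nat_lit 2136752720495))) (P (nat_lit 0)))))) (T.h (T.h (T.h (M (nat_lit 4732893267667112165375)) (T.h (P (nat_lit 0)) (P (nat_lit 12497095545683968)))) (T.h (P (nat_lit 0)) (M (nat_lit 6016024335384575)))) (T.h (T.h (P (nat_lit 0)) (T.h (T.h (P (nat_lit 0)) (M (nat_lit 129643420655))) (P (nat_lit 0)))) (P (nat_lit 10744085451014144))))))), (T.h (T.h (P (nat_lit 0)) (T.h (T.h (P (nat_lit 3402341988066177641621749760)) (T.h (P (nat_lit 0)) (T.h (P (nat_lit 22557465762590185488384)) (T.h (P (nat_lit 0)) (M (nat_lit 723882441949183))))))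 (T.h (P (nat_lit 0)) (T.h (T.h (P (nat_lit 311281724839209992192)) (T.h (P (nat_lit 0)) (M (nat_lit 6354815568904191)))) (T.h (P (nat_lit 0)) (M (nat_lit 396931717021695))))))) (T.h (T.h (T.h (P (nat_lit 0)) (T.h (M (nat_lit 17043484856467139858530303)) (T.h (P (nat_lit 0)) (M (nat_lit 2896091241655566335))))) (T.h (P (nat_lit 0)) (T.h (T.h (P (nat_lit 0)) (M (nat_lit 11739852891748302847))) (P (nat_lit 0))))) (T.h (T.h (P (nat_lit 0)) (T.h (T.h (M (nat_lit 19467932748244439793663)) (T.h (P (nat_lit 0)) (M (nat_lit 12701974667231231)))) (T.h (P (nat_lit 0)) (P (nat_lit 3918274737192960))))) (T.h (T.h (T.h (P (nat_lit 0)) (M (nat_lit 12429613524915847167))) (P (nat_lit 0))) (T.h (T.h (P (nat_lit 0)) (P (nat_lit 2379570363793408))) (P (nat_lit 0))))))), (P (nat_lit 0)), (P (nat_lit 0)), (T.h (T.h (T.h (P (nat_lit 0)) (T.h (M (nat_lit 12852879613821572345757695)) (T.h (P (nat_lit 0)) (T.h (P (nat_lit 637446587506065670144)) (T.h (P (nat_lit 0))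 (M (nat_lit 659354132676607))))))) (T.h (P (nat_lit 0)) (T.h (T.h (P (nat_lit 0)) (T.h (M (nat_lit 285728088897521451007)) (T.h (P (nat_lit 0)) (M (nat_lit 2387430420054015))))) (T.h (P (nat_lit 0)) (T.h (T.h (P (nat_lit 0)) (M (nat_lit 9820380577136639))) (P (nat_lit 0))))))) (T.h (T.h (P (nat_lit 0)) (T.h (T.h (M (nat_lit 1351268652085930406969343)) (T.h (P (nat_lit 0)) (T.h (M (nat_lit 9106968498537496575)) (T.h (P (nat_lit 0)) (P (nat_lit 13499878995904)))))) (T.h (P (nat_lit 0)) (T.h (T.h (M (nat_lit 1456239894979411967)) (T.h (P (nat_lit 0)) (P (nat_lit 5706106126624)))) (T.h (P (nat_lit 0)) (M (nat_lit 792617250143))))))) (T.h (T.h (T.h (P (nat_lit 0)) (T.h (M (nat_lit 285728088897521451007)) (T.h (P (nat_lit 0)) (M (nat_lit 2387430420054015))))) (T.h (P (nat_lit 0)) (T.h (T.h (P (nat_lit 0)) (M (nat_lit 11595435753078783))) (P (nat_lit 0))))) (T.h (T.h (P (nat_lit 0)) (T.h (T.h (M (nat_lit 1456239894979411967)) (T.h (P (nat_lit 0))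 (P (nat_lit 5706106126624)))) (T.h (P (nat_lit 0)) (P (nat_lit 3108367647936))))) (T.h (T.h (T.h (P (nat_lit 0)) (M (nat_lit 9820380577136639))) (P (nat_lit 0))) (T.h (T.h (P (nat_lit 0)) (M (nat_lit 792617250143))) (P (nat_lit 0)))))))), (T.h (T.h (T.h (M (nat_lit 1240820342829543991865023397887)) (T.h (P (nat_lit 0)) (T.h (M (nat_lit 29949486148268604860137471)) (T.h (P (nat_lit 0)) (T.h (M (nat_lit 5375695411379961855)) (T.h (P (nat_lit 0)) (M (nat_lit 3348851790295)))))))) (T.h (P (nat_lit 0)) (T.h (T.h (P (nat_lit 13169070563490015863635968)) (T.h (P (nat_lit 0)) (T.h (M (nat_lit 8238885804596789247)) (T.h (P (nat_lit 0)) (M (nat_lit 24034048570519)))))) (T.h (P (nat_lit 0)) (T.h (T.h (M (nat_lit 235648555862196223)) (T.h (P (nat_lit 0)) (M (nat_lit 14592160830079)))) (T.h (P (nat_lit 0)) (P (nat_lit 7296088278232)))))))) (T.h (T.h (P (nat_lit 0)) (T.h (T.h (P (nat_lit 0)) (T.h (M (nat_lit 91895355132994320859135)) (T.h (P (nat_lit 0))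 (P (nat_lit 73662874134315008))))) (T.h (P (nat_lit 0)) (T.h (T.h (P (nat_lit 0)) (M (nat_lit 9859750354976767))) (P (nat_lit 0)))))) (T.h (T.h (T.h (P (nat_lit 6728408821301557891956736)) (T.h (P (nat_lit 0)) (T.h (P (nat_lit 117047067623032881152)) (T.h (P (nat_lit 0)) (P (nat_lit 9493015123904)))))) (T.h (P (nat_lit 0)) (T.h (T.h (M (nat_lit 49463987983991439359)) (T.h (P (nat_lit 0)) (M (nat_lit 20541751638087)))) (T.h (P (nat_lit 0)) (M (nat_lit 19442046984519)))))) (T.h (T.h (P (nat_lit 0)) (T.h (T.h (P (nat_lit 0)) (M (nat_lit 89948485923045375))) (P (nat_lit 0)))) (T.h (T.h (T.h (P (nat_lit 1538499688968224768)) (T.h (P (nat_lit 0)) (P (nat_lit 12760569729576)))) (T.h (P (nat_lit 0)) (P (nat_lit 36808867511872)))) (T.h (P (nat_lit 0)) (M (nat_lit 2296407630679)))))))), (T.h (T.h (T.h (P (nat_lit 0)) (T.h (P (nat_lit 3912186387042781318489309184)) (T.h (P (nat_lit 0)) (T.h (M (nat_lit 10032247509758490181631)) (T.h (P (nat_lit 0)) (P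 (nat_lit 12964061643177984))))))) (T.h (P (nat_lit 0)) (T.h (T.h (P (nat_lit 0)) (T.h (M (nat_lit 16069614633279035539455)) (T.h (P (nat_lit 0)) (P (nat_lit 19042531012182016))))) (T.h (P (nat_lit 0)) (T.h (T.h (P (nat_lit 0)) (P (nat_lit 32299067457896448))) (P (nat_lit 0))))))) (T.h (T.h (P (nat_lit 0)) (T.h (T.h (P (nat_lit 32151543346033375355863040)) (T.h (P (nat_lit 0)) (T.h (M (nat_lit 13649441188648845311)) (T.h (P (nat_lit 0)) (M (nat_lit 24657609824063)))))) (T.h (P (nat_lit 0)) (T.h (T.h (P (nat_lit 29559669016657657856)) (T.h (P (nat_lit 0)) (M (nat_lit 1321085431679)))) (T.h (P (nat_lit 0)) (P (nat_lit 4818155716864))))))) (T.h (T.h (T.h (P (nat_lit 0)) (T.h (M (nat_lit 16069614633279035539455)) (T.h (P (nat_lit 0)) (P (nat_lit 19042531012182016))))) (T.h (P (nat_lit 0)) (T.h (T.h (P (nat_lit 0)) (M (nat_lit 3866233468190719))) (P (nat_lit 0))))) (T.h (T.h (P (nat_lit 0)) (T.h (T.h (P (nat_lit 29559669016657657856)) (T.h (P (nat_lit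 0)) (M (nat_lit 1321085431679)))) (T.h (P (nat_lit 0)) (P (nat_lit 2939123638080))))) (T.h (T.h (T.h (P (nat_lit 0)) (P (nat_lit 32299067457896448))) (P (nat_lit 0))) (T.h (T.h (P (nat_lit 0)) (P (nat_lit 4818155716864))) (P (nat_lit 0)))))))), (T.h (T.h (T.h (M (nat_lit 810696587689923214839151329279)) (T.h (P (nat_lit 0)) (T.h (P (nat_lit 37753905792173428090863616)) (T.h (P (nat_lit 0)) (T.h (M (nat_lit 3032841192715845631)) (T.h (P (nat_lit 0)) (P (nat_lit 6720453248160)))))))) (T.h (P (nat_lit 0)) (T.h (T.h (M (nat_lit 3407005411166908284141567)) (T.h (P (nat_lit 0)) (T.h (M (nat_lit 69781802947230826495)) (T.h (P (nat_lit 0)) (P (nat_lit 13392062460096)))))) (T.h (P (nat_lit 0)) (T.h (T.h (P (nat_lit 558531456423428096)) (T.h (P (nat_lit 0)) (P (nat_lit 9878987290848)))) (T.h (P (nat_lit 0)) (M (nat_lit 4261242224735)))))))) (T.h (T.h (P (nat_lit 0)) (T.h (T.h (P (nat_lit 0)) (T.h (P (nat_lit 81885751788132947197952)) (T.h (P (nat_lit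 0)) (M (nat_lit 59976003680468991))))) (T.h (P (nat_lit 0)) (T.h (T.h (P (nat_lit 0)) (P (nat_lit 62483176773517312))) (P (nat_lit 0)))))) (T.h (T.h (T.h (M (nat_lit 3407005411166908284141567)) (T.h (P (nat_lit 0)) (T.h (M (nat_lit 69781802947230826495)) (T.h (P (nat_lit 0)) (P (nat_lit 13392062460096)))))) (T.h (P (nat_lit 0)) (T.h (T.h (P (nat_lit 96046158667346608128)) (T.h (P (nat_lit 0)) (P (nat_lit 30474460727712)))) (T.h (P (nat_lit 0)) (M (nat_lit 6016117140431)))))) (T.h (T.h (P (nat_lit 0)) (T.h (T.h (P (nat_lit 0)) (P (nat_lit 62483176773517312))) (P (nat_lit 0)))) (T.h (T.h (T.h (P (nat_lit 558531456423428096)) (T.h (P (nat_lit 0)) (P (nat_lit 9878987290848)))) (T.h (P (nat_lit 0)) (M (nat_lit 6016117140431)))) (T.h (P (nat_lit 0)) (M (nat_lit 4261242224735))))))))]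
def lP12_10 : List (T ℤ) := [(T.h (T.h (T.h (P (nat_lit 0)) (T.h (M (nat_lit 10791888917891311952700899327)) (T.h (P (nat_lit 0)) (T.h (M (nat_lit 1626752472681682042879)) (T.h (P (nat_lit 0)) (M (nat_lit 13647232764051455))))))) (T.h (P (nat_lit 0)) (T.h (T.h (P (nat_lit 0)) (T.h (P (nat_lit 39314200272193718321152)) (T.h (P (nat_lit 0)) (M (nat_lit 30372869421531135))))) (T.h (P (nat_lit 0)) (T.h (T.h (P (nat_lit 0)) (M (nat_lit 11019781030952959))) (P (nat_lit 0))))))) (T.h (T.h (P (nat_lit 0)) (T.h (T.h (P (nat_lit 4552137591189246866096128)) (T.h (P (nat_lit 0)) (P (nat_lit 60886120603446149120)))) (T.h (P (nat_lit 0)) (M (nat_lit 3540785065044738047))))) (T.h (T.h (T.h (P (nat_lit 0)) (T.h (P (nat_lit 39314200272193718321152)) (T.h (P (nat_lit 0)) (M (nat_lit 30372869421531135))))) (T.h (P (nat_lit 0)) (T.h (T.h (P (nat_lit 0)) (M (nat_lit 16427828951875583))) (P (nat_lit 0))))) (T.h (T.h (P (nat_lit 0)) (M (nat_lit 3540785065044738047)))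 (T.h (T.h (T.h (P (nat_lit 0)) (M (nat_lit 11019781030952959))) (P (nat_lit 0))) (P (nat_lit 0))))))), (P (nat_lit 0)), (P (nat_lit 0)), (T.h (T.h (P (nat_lit 0)) (T.h (T.h (M (nat_lit 12852879613821572345757695)) (T.h (P (nat_lit 0)) (T.h (M (nat_lit 285728088897521451007)) (T.h (P (nat_lit 0)) (M (nat_lit 9820380577136639)))))) (T.h (P (nat_lit 0)) (T.h (T.h (P (nat_lit 637446587506065670144)) (T.h (P (nat_lit 0)) (M (nat_lit 2387430420054015)))) (T.h (P (nat_lit 0)) (M (nat_lit 659354132676607))))))) (T.h (T.h (T.h (P (nat_lit 0)) (T.h (M (nat_lit 1351268652085930406969343)) (T.h (P (nat_lit 0)) (T.h (M (nat_lit 1456239894979411967)) (T.h (P (nat_lit 0)) (M (nat_lit 792617250143))))))) (T.h (P (nat_lit 0)) (T.h (T.h (P (nat_lit 0)) (T.h (M (nat_lit 9106968498537496575)) (T.h (P (nat_lit 0)) (P (nat_lit 5706106126624))))) (T.h (P (nat_lit 0)) (T.h (T.h (P (nat_lit 0)) (P (nat_lit 13499878995904))) (P (nat_lit 0))))))) (T.h (T.h (P (nat_lit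 0)) (T.h (T.h (M (nat_lit 285728088897521451007)) (T.h (P (nat_lit 0)) (M (nat_lit 11595435753078783)))) (T.h (P (nat_lit 0)) (M (nat_lit 2387430420054015))))) (T.h (T.h (T.h (P (nat_lit 0)) (T.h (M (nat_lit 1456239894979411967)) (T.h (P (nat_lit 0)) (P (nat_lit 3108367647936))))) (T.h (P (nat_lit 0)) (T.h (T.h (P (nat_lit 0)) (P (nat_lit 5706106126624))) (P (nat_lit 0))))) (T.h (T.h (P (nat_lit 0)) (M (nat_lit 9820380577136639))) (T.h (T.h (T.h (P (nat_lit 0)) (M (nat_lit 792617250143))) (P (nat_lit 0))) (P (nat_lit 0)))))))), (T.h (T.h (P (nat_lit 0)) (T.h (T.h (P (nat_lit 0)) (T.h (M (nat_lit 37449501152291180928565247)) (T.h (P (nat_lit 0)) (T.h (M (nat_lit 37014427985231478783)) (T.h (P (nat_lit 0)) (M (nat_lit 33967396551375))))))) (T.h (P (nat_lit 0)) (T.h (T.h (P (nat_lit 0)) (T.h (M (nat_lit 37014427985231478783)) (T.h (P (nat_lit 0)) (P (nat_lit 32365155061376))))) (T.h (P (nat_lit 0)) (T.h (T.h (P (nat_lit 0)) (M (nat_lit 33967396551375)))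 (P (nat_lit 0)))))))) (T.h (T.h (T.h (P (nat_lit 26918048165403572223124439040)) (T.h (P (nat_lit 0)) (T.h (P (nat_lit 22409644000420573478912)) (T.h (P (nat_lit 0)) (P (nat_lit 12457790920916992)))))) (T.h (P (nat_lit 0)) (T.h (T.h (P (nat_lit 22409644000420573478912)) (T.h (P (nat_lit 0)) (P (nat_lit 78068288233275392)))) (T.h (P (nat_lit 0)) (P (nat_lit 12457790920916992)))))) (T.h (T.h (P (nat_lit 0)) (T.h (T.h (P (nat_lit 0)) (T.h (P (nat_lit 445175461490267783168)) (T.h (P (nat_lit 0)) (M (nat_lit 2410094921743))))) (T.h (P (nat_lit 0)) (T.h (T.h (P (nat_lit 0)) (M (nat_lit 2410094921743))) (P (nat_lit 0)))))) (T.h (T.h (T.h (P (nat_lit 4895464466500676485120)) (T.h (P (nat_lit 0)) (M (nat_lit 89461721060966399)))) (T.h (P (nat_lit 0)) (M (nat_lit 89461721060966399)))) (T.h (T.h (P (nat_lit 0)) (T.h (T.h (P (nat_lit 0)) (P (nat_lit 14708186627616))) (P (nat_lit 0)))) (P (nat_lit 17840743948943360))))))), (T.h (T.h (P (nat_lit 0)) (T.h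 (T.h (M (nat_lit 10269116897705586050811822079)) (T.h (P (nat_lit 0)) (T.h (M (nat_lit 11752904389286648872959)) (T.h (P (nat_lit 0)) (P (nat_lit 64019304747630592)))))) (T.h (P (nat_lit 0)) (T.h (T.h (M (nat_lit 19423582445904722919423)) (T.h (P (nat_lit 0)) (P (nat_lit 48900044698517504)))) (T.h (P (nat_lit 0)) (M (nat_lit 11424268652298239))))))) (T.h (T.h (T.h (P (nat_lit 0)) (T.h (M (nat_lit 3140540335287327520718847)) (T.h (P (nat_lit 0)) (T.h (M (nat_lit 1023186957825474559)) (T.h (P (nat_lit 0)) (M (nat_lit 5632617450207))))))) (T.h (P (nat_lit 0)) (T.h (T.h (P (nat_lit 0)) (T.h (P (nat_lit 2740331464292827136)) (T.h (P (nat_lit 0)) (M (nat_lit 13000870878351))))) (T.h (P (nat_lit 0)) (T.h (T.h (P (nat_lit 0)) (M (nat_lit 71336986172927))) (P (nat_lit 0))))))) (T.h (T.h (P (nat_lit 0)) (T.h (T.h (M (nat_lit 40814377494051408576511)) (T.h (P (nat_lit 0)) (P (nat_lit 84186931744751616)))) (T.h (P (nat_lit 0)) (M (nat_lit 23241107784351743)))))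 (T.h (T.h (T.h (P (nat_lit 0)) (T.h (M (nat_lit 19618220207543156735)) (T.h (P (nat_lit 0)) (M (nat_lit 8063003288703))))) (T.h (P (nat_lit 0)) (T.h (T.h (P (nat_lit 0)) (M (nat_lit 13156209311727))) (P (nat_lit 0))))) (T.h (T.h (P (nat_lit 0)) (P (nat_lit 7631175466680320))) (T.h (T.h (T.h (P (nat_lit 0)) (M (nat_lit 12153382404239))) (P (nat_lit 0))) (P (nat_lit 0)))))))), (T.h (T.h (P (nat_lit 0)) (T.h (T.h (P (nat_lit 0)) (T.h (P (nat_lit 34219577505904261729353728)) (T.h (P (nat_lit 0)) (T.h (P (nat_lit 62491710756640260096)) (T.h (P (nat_lit 0)) (P (nat_lit 37160142996432))))))) (T.h (P (nat_lit 0)) (T.h (T.h (P (nat_lit 0)) (T.h (M (nat_lit 101785428458033119231)) (T.h (P (nat_lit 0)) (M (nat_lit 15194470148207))))) (T.h (P (nat_lit 0)) (T.h (T.h (P (nat_lit 0)) (P (nat_lit 16720912128480))) (P (nat_lit 0)))))))) (T.h (T.h (T.h (M (nat_lit 24556072986798921191516012543)) (T.h (P (nat_lit 0)) (T.h (M (nat_lit 4980996676142313242623))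 (T.h (P (nat_lit 0)) (M (nat_lit 39498243636592639)))))) (T.h (P (nat_lit 0)) (T.h (T.h (M (nat_lit 18238095826908243558399)) (T.h (P (nat_lit 0)) (M (nat_lit 24734882115387391)))) (T.h (P (nat_lit 0)) (P (nat_lit 10739564299747328)))))) (T.h (T.h (P (nat_lit 0)) (T.h (T.h (P (nat_lit 0)) (T.h (M (nat_lit 220930338352237903871)) (T.h (P (nat_lit 0)) (P (nat_lit 25587277519872))))) (T.h (P (nat_lit 0)) (T.h (T.h (P (nat_lit 0)) (M (nat_lit 12048870166367))) (P (nat_lit 0)))))) (T.h (T.h (T.h (M (nat_lit 13721056066817709047807)) (T.h (P (nat_lit 0)) (P (nat_lit 48486625826766848)))) (T.h (P (nat_lit 0)) (P (nat_lit 43601158870171648)))) (T.h (T.h (P (nat_lit 0)) (T.h (T.h (P (nat_lit 0)) (P (nat_lit 1483797581376))) (P (nat_lit 0)))) (M (nat_lit 12786125555204095))))))), (T.h (T.h (P (nat_lit 0)) (T.h (T.h (P (nat_lit 3057717378853825663268290560)) (T.h (P (nat_lit 0)) (T.h (M (nat_lit 34371714572181032665087)) (T.h (P (nat_lit 0)) (M (nat_lit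 72177182128979967)))))) (T.h (P (nat_lit 0)) (T.h (T.h (P (nat_lit 1780258074724053024768)) (T.h (P (nat_lit 0)) (M (nat_lit 6497396134756351)))) (T.h (P (nat_lit 0)) (P (nat_lit 4763365724028928))))))) (T.h (T.h (T.h (P (nat_lit 0)) (T.h (M (nat_lit 12660772485101187447652351)) (T.h (P (nat_lit 0)) (P (nat_lit 112093646349093830656))))) (T.h (P (nat_lit 0)) (T.h (T.h (P (nat_lit 0)) (M (nat_lit 45047154406338854911))) (P (nat_lit 0))))) (T.h (T.h (P (nat_lit 0)) (T.h (T.h (P (nat_lit 8447562600720023683072)) (T.h (P (nat_lit 0)) (M (nat_lit 79412148893564927)))) (T.h (P (nat_lit 0)) (P (nat_lit 4163999934857216))))) (T.h (T.h (T.h (P (nat_lit 0)) (M (nat_lit 35855661794571845631))) (P (nat_lit 0))) (T.h (T.h (P (nat_lit 0)) (P (nat_lit 19241456788209664))) (P (nat_lit 0)))))))]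
def lP12_11 : List (T ℤ) := [(P (nat_lit 0)), (T.h (T.h (T.h (P (nat_lit 0)) (T.h (P (nat_lit 532858792078950653260464128)) (T.h (P (nat_lit 0)) (T.h (M (nat_lit 3075121913902334476287)) (T.h (P (nat_lit 0)) (M (nat_lit 1221575086440447))))))) (T.h (P (nat_lit 0)) (T.h (T.h (P (nat_lit 0)) (T.h (M (nat_lit 4144768062586427015167)) (T.h (P (nat_lit 0)) (M (nat_lit 14061861106614271))))) (T.h (P (nat_lit 0)) (T.h (T.h (P (nat_lit 0)) (P (nat_lit 10195113124757504))) (P (nat_lit 0))))))) (T.h (T.h (P (nat_lit 0)) (T.h (T.h (P (nat_lit 8717922922079423085674496)) (T.h (P (nat_lit 0)) (T.h (P (nat_lit 10942545611232116736)) (T.h (P (nat_lit 0)) (P (nat_lit 3166704741056)))))) (T.h (P (nat_lit 0)) (T.h (T.h (P (nat_lit 6521691154386255872)) (T.h (P (nat_lit 0)) (M (nat_lit 9748205673263)))) (T.h (P (nat_lit 0)) (M (nat_lit 5165935566879))))))) (T.h (T.h (T.h (P (nat_lit 0)) (T.h (P (nat_lit 3321691345876869447680)) (T.h (P (nat_lit 0)) (P (nat_lit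 15163554349252608))))) (T.h (P (nat_lit 0)) (T.h (T.h (P (nat_lit 0)) (P (nat_lit 15787150469627904))) (P (nat_lit 0))))) (T.h (T.h (P (nat_lit 0)) (T.h (T.h (M (nat_lit 193192647643365375)) (T.h (P (nat_lit 0)) (M (nat_lit 172863613551)))) (T.h (P (nat_lit 0)) (P (nat_lit 3373397582576))))) (T.h (T.h (T.h (P (nat_lit 0)) (P (nat_lit 2725830294568960))) (P (nat_lit 0))) (T.h (T.h (P (nat_lit 0)) (M (nat_lit 424261102751))) (P (nat_lit 0)))))))), (T.h (T.h (T.h (M (nat_lit 1240820342829543991865023397887)) (T.h (P (nat_lit 0)) (T.h (P (nat_lit 13169070563490015863635968)) (T.h (P (nat_lit 0)) (T.h (M (nat_lit 235648555862196223)) (T.h (P (nat_lit 0)) (P (nat_lit 7296088278232)))))))) (T.h (P (nat_lit 0)) (T.h (T.h (M (nat_lit 29949486148268604860137471)) (T.h (P (nat_lit 0)) (T.h (M (nat_lit 8238885804596789247)) (T.h (P (nat_lit 0)) (M (nat_lit 14592160830079)))))) (T.h (P (nat_lit 0)) (T.h (T.h (M (nat_lit 5375695411379961855)) (T.h (P (nat_lit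 0)) (M (nat_lit 24034048570519)))) (T.h (P (nat_lit 0)) (M (nat_lit 3348851790295)))))))) (T.h (T.h (P (nat_lit 0)) (T.h (T.h (P (nat_lit 0)) (T.h (M (nat_lit 91895355132994320859135)) (T.h (P (nat_lit 0)) (M (nat_lit 9859750354976767))))) (T.h (P (nat_lit 0)) (T.h (T.h (P (nat_lit 0)) (P (nat_lit 73662874134315008))) (P (nat_lit 0)))))) (T.h (T.h (T.h (P (nat_lit 6728408821301557891956736)) (T.h (P (nat_lit 0)) (T.h (M (nat_lit 49463987983991439359)) (T.h (P (nat_lit 0)) (M (nat_lit 19442046984519)))))) (T.h (P (nat_lit 0)) (T.h (T.h (P (nat_lit 117047067623032881152)) (T.h (P (nat_lit 0)) (M (nat_lit 20541751638087)))) (T.h (P (nat_lit 0)) (P (nat_lit 9493015123904)))))) (T.h (T.h (P (nat_lit 0)) (T.h (T.h (P (nat_lit 0)) (M (nat_lit 89948485923045375))) (P (nat_lit 0)))) (T.h (T.h (T.h (P (nat_lit 1538499688968224768)) (T.h (P (nat_lit 0)) (P (nat_lit 36808867511872)))) (T.h (P (nat_lit 0)) (P (nat_lit 12760569729576)))) (T.h (P (nat_lit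 0)) (M (nat_lit 2296407630679)))))))), (T.h (T.h (T.h (P (nat_lit 0)) (T.h (M (nat_lit 10269116897705586050811822079)) (T.h (P (nat_lit 0)) (T.h (M (nat_lit 19423582445904722919423)) (T.h (P (nat_lit 0)) (M (nat_lit 11424268652298239))))))) (T.h (P (nat_lit 0)) (T.h (T.h (P (nat_lit 0)) (T.h (M (nat_lit 11752904389286648872959)) (T.h (P (nat_lit 0)) (P (nat_lit 48900044698517504))))) (T.h (P (nat_lit 0)) (T.h (T.h (P (nat_lit 0)) (P (nat_lit 64019304747630592))) (P (nat_lit 0))))))) (T.h (T.h (P (nat_lit 0)) (T.h (T.h (M (nat_lit 3140540335287327520718847)) (T.h (P (nat_lit 0)) (T.h (P (nat_lit 2740331464292827136)) (T.h (P (nat_lit 0)) (M (nat_lit 71336986172927)))))) (T.h (P (nat_lit 0)) (T.h (T.h (M (nat_lit 1023186957825474559)) (T.h (P (nat_lit 0)) (M (nat_lit 13000870878351)))) (T.h (P (nat_lit 0)) (M (nat_lit 5632617450207))))))) (T.h (T.h (T.h (P (nat_lit 0)) (T.h (M (nat_lit 40814377494051408576511)) (T.h (P (nat_lit 0)) (M (nat_lit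 23241107784351743))))) (T.h (P (nat_lit 0)) (T.h (T.h (P (nat_lit 0)) (P (nat_lit 84186931744751616))) (P (nat_lit 0))))) (T.h (T.h (P (nat_lit 0)) (T.h (T.h (M (nat_lit 19618220207543156735)) (T.h (P (nat_lit 0)) (M (nat_lit 13156209311727)))) (T.h (P (nat_lit 0)) (M (nat_lit 8063003288703))))) (T.h (T.h (T.h (P (nat_lit 0)) (P (nat_lit 7631175466680320))) (P (nat_lit 0))) (T.h (T.h (P (nat_lit 0)) (M (nat_lit 12153382404239))) (P (nat_lit 0)))))))), (T.h (T.h (T.h (P (nat_lit 1926289178347798091970222489600)) (T.h (P (nat_lit 0)) (T.h (M (nat_lit 2967819953213876012580863)) (T.h (P (nat_lit 0)) (T.h (P (nat_lit 6691717599643828224)) (T.h (P (nat_lit 0)) (M (nat_lit 905405486159)))))))) (T.h (P (nat_lit 0)) (T.h (T.h (M (nat_lit 2967819953213876012580863)) (T.h (P (nat_lit 0)) (T.h (P (nat_lit 1044491642330939392)) (T.h (P (nat_lit 0)) (P (nat_lit 25824793852896)))))) (T.h (P (nat_lit 0)) (T.h (T.h (P (nat_lit 6691717599643828224)) (T.h (P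 (nat_lit 0)) (P (nat_lit 25824793852896)))) (T.h (P (nat_lit 0)) (M (nat_lit 905405486159)))))))) (T.h (T.h (P (nat_lit 0)) (T.h (T.h (P (nat_lit 0)) (T.h (M (nat_lit 101836983772912954638335)) (T.h (P (nat_lit 0)) (P (nat_lit 60655451073478656))))) (T.h (P (nat_lit 0)) (T.h (T.h (P (nat_lit 0)) (P (nat_lit 60655451073478656))) (P (nat_lit 0)))))) (T.h (T.h (T.h (P (nat_lit 2899700707510487674257408)) (T.h (P (nat_lit 0)) (T.h (M (nat_lit 60783134145811316735)) (T.h (P (nat_lit 0)) (P (nat_lit 10599934930752)))))) (T.h (P (nat_lit 0)) (T.h (T.h (M (nat_lit 60783134145811316735)) (T.h (P (nat_lit 0)) (P (nat_lit 54100397103456)))) (T.h (P (nat_lit 0)) (P (nat_lit 10599934930752)))))) (T.h (T.h (P (nat_lit 0)) (T.h (T.h (P (nat_lit 0)) (P (nat_lit 90898632649211904))) (P (nat_lit 0)))) (T.h (T.h (T.h (P (nat_lit 6322290353244209152)) (T.h (P (nat_lit 0)) (M (nat_lit 31837786800239)))) (T.h (P (nat_lit 0)) (M (nat_lit 31837786800239)))) (T.h (P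 (nat_lit 0)) (P (nat_lit 12427974380448)))))))), (T.h (T.h (T.h (P (nat_lit 0)) (T.h (P (nat_lit 7898869424295032560457613312)) (T.h (P (nat_lit 0)) (T.h (M (nat_lit 25619508905965531430911)) (T.h (P (nat_lit 0)) (M (nat_lit 5990357490696191))))))) (T.h (P (nat_lit 0)) (T.h (T.h (P (nat_lit 0)) (T.h (M (nat_lit 20518604022785385693183)) (T.h (P (nat_lit 0)) (M (nat_lit 25828239031599103))))) (T.h (P (nat_lit 0)) (T.h (T.h (P (nat_lit 0)) (M (nat_lit 37244374366273535))) (P (nat_lit 0))))))) (T.h (T.h (P (nat_lit 0)) (T.h (T.h (M (nat_lit 3808010078810433310949375)) (T.h (P (nat_lit 0)) (P (nat_lit 47737917958413877248)))) (T.h (P (nat_lit 0)) (P (nat_lit 7228349994594467840))))) (T.h (T.h (T.h (P (nat_lit 0)) (T.h (P (nat_lit 66894456594855284965376)) (T.h (P (nat_lit 0)) (M (nat_lit 34505731325050879))))) (T.h (P (nat_lit 0)) (T.h (T.h (P (nat_lit 0)) (M (nat_lit 4558212600184831))) (P (nat_lit 0))))) (T.h (T.h (P (nat_lit 0)) (M (nat_lit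 39699916217686949887))) (T.h (T.h (T.h (P (nat_lit 0)) (P (nat_lit 17205814889070592))) (P (nat_lit 0))) (P (nat_lit 0))))))), (P (nat_lit 0)), (T.h (T.h (P (nat_lit 0)) (T.h (T.h (P (nat_lit 0)) (T.h (P (nat_lit 22443489026371791443984384)) (T.h (P (nat_lit 0)) (T.h (P (nat_lit 31038328241892884480)) (T.h (P (nat_lit 0)) (M (nat_lit 10470056088287))))))) (T.h (P (nat_lit 0)) (T.h (T.h (P (nat_lit 0)) (T.h (M (nat_lit 3892006359876501503)) (T.h (P (nat_lit 0)) (M (nat_lit 7456358535023))))) (T.h (P (nat_lit 0)) (T.h (T.h (P (nat_lit 0)) (M (nat_lit 6424522563119))) (P (nat_lit 0)))))))) (T.h (T.h (T.h (M (nat_lit 3819300915535993291386388479)) (T.h (P (nat_lit 0)) (T.h (P (nat_lit 4942988227678992072704)) (T.h (P (nat_lit 0)) (P (nat_lit 10556145873944576)))))) (T.h (P (nat_lit 0)) (T.h (T.h (M (nat_lit 32478648714959731556351)) (T.h (P (nat_lit 0)) (P (nat_lit 26594088335769600)))) (T.h (P (nat_lit 0)) (P (nat_lit 10133603513008128)))))) (T.h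 (T.h (P (nat_lit 0)) (T.h (T.h (P (nat_lit 0)) (T.h (M (nat_lit 37202317938341707775)) (T.h (P (nat_lit 0)) (M (nat_lit 17851262249375))))) (T.h (P (nat_lit 0)) (T.h (T.h (P (nat_lit 0)) (M (nat_lit 6597726511279))) (P (nat_lit 0)))))) (T.h (T.h (T.h (P (nat_lit 632895058517572976640)) (T.h (P (nat_lit 0)) (M (nat_lit 19860569230704639)))) (T.h (P (nat_lit 0)) (M (nat_lit 17594838141730815)))) (T.h (T.h (P (nat_lit 0)) (T.h (T.h (P (nat_lit 0)) (M (nat_lit 5331661423407))) (P (nat_lit 0)))) (M (nat_lit 7554299021656063)))))))]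
def lP12_12 : List (T ℤ) := [(T.h (T.h (P (nat_lit 0)) (T.h (T.h (P (nat_lit 3912186387042781318489309184)) (T.h (P (nat_lit 0)) (T.h (M (nat_lit 16069614633279035539455)) (T.h (P (nat_lit 0)) (P (nat_lit 32299067457896448)))))) (T.h (P (nat_lit 0)) (T.h (T.h (M (nat_lit 10032247509758490181631)) (T.h (P (nat_lit 0)) (P (nat_lit 19042531012182016)))) (T.h (P (nat_lit 0)) (P (nat_lit 12964061643177984))))))) (T.h (T.h (T.h (P (nat_lit 0)) (T.h (P (nat_lit 32151543346033375355863040)) (T.h (P (nat_lit 0)) (T.h (P (nat_lit 29559669016657657856)) (T.h (P (nat_lit 0)) (P (nat_lit 4818155716864))))))) (T.h (P (nat_lit 0)) (T.h (T.h (P (nat_lit 0)) (T.h (M (nat_lit 13649441188648845311)) (T.h (P (nat_lit 0)) (M (nat_lit 1321085431679))))) (T.h (P (nat_lit 0)) (T.h (T.h (P (nat_lit 0)) (M (nat_lit 24657609824063))) (P (nat_lit 0))))))) (T.h (T.h (P (nat_lit 0)) (T.h (T.h (M (nat_lit 16069614633279035539455)) (T.h (P (nat_lit 0)) (M (nat_lit 3866233468190719))))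 (T.h (P (nat_lit 0)) (P (nat_lit 19042531012182016))))) (T.h (T.h (T.h (P (nat_lit 0)) (T.h (P (nat_lit 29559669016657657856)) (T.h (P (nat_lit 0)) (P (nat_lit 2939123638080))))) (T.h (P (nat_lit 0)) (T.h (T.h (P (nat_lit 0)) (M (nat_lit 1321085431679))) (P (nat_lit 0))))) (T.h (T.h (P (nat_lit 0)) (P (nat_lit 32299067457896448))) (T.h (T.h (T.h (P (nat_lit 0)) (P (nat_lit 4818155716864))) (P (nat_lit 0))) (P (nat_lit 0)))))))), (T.h (T.h (P (nat_lit 0)) (T.h (T.h (P (nat_lit 0)) (T.h (P (nat_lit 34219577505904261729353728)) (T.h (P (nat_lit 0)) (T.h (M (nat_lit 101785428458033119231)) (T.h (P (nat_lit 0)) (P (nat_lit 16720912128480))))))) (T.h (P (nat_lit 0)) (T.h (T.h (P (nat_lit 0)) (T.h (P (nat_lit 62491710756640260096)) (T.h (P (nat_lit 0)) (M (nat_lit 15194470148207))))) (T.h (P (nat_lit 0)) (T.h (T.h (P (nat_lit 0)) (P (nat_lit 37160142996432))) (P (nat_lit 0)))))))) (T.h (T.h (T.h (M (nat_lit 24556072986798921191516012543)) (T.h (P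 (nat_lit 0)) (T.h (M (nat_lit 18238095826908243558399)) (T.h (P (nat_lit 0)) (P (nat_lit 10739564299747328)))))) (T.h (P (nat_lit 0)) (T.h (T.h (M (nat_lit 4980996676142313242623)) (T.h (P (nat_lit 0)) (M (nat_lit 24734882115387391)))) (T.h (P (nat_lit 0)) (M (nat_lit 39498243636592639)))))) (T.h (T.h (P (nat_lit 0)) (T.h (T.h (P (nat_lit 0)) (T.h (M (nat_lit 220930338352237903871)) (T.h (P (nat_lit 0)) (M (nat_lit 12048870166367))))) (T.h (P (nat_lit 0)) (T.h (T.h (P (nat_lit 0)) (P (nat_lit 25587277519872))) (P (nat_lit 0)))))) (T.h (T.h (T.h (M (nat_lit 13721056066817709047807)) (T.h (P (nat_lit 0)) (P (nat_lit 43601158870171648)))) (T.h (P (nat_lit 0)) (P (nat_lit 48486625826766848)))) (T.h (T.h (P (nat_lit 0)) (T.h (T.h (P (nat_lit 0)) (P (nat_lit 1483797581376))) (P (nat_lit 0)))) (M (nat_lit 12786125555204095))))))), (T.h (T.h (P (nat_lit 0)) (T.h (T.h (P (nat_lit 7898869424295032560457613312)) (T.h (P (nat_lit 0)) (T.h (M (nat_lit 20518604022785385693183))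 (T.h (P (nat_lit 0)) (M (nat_lit 37244374366273535)))))) (T.h (P (nat_lit 0)) (T.h (T.h (M (nat_lit 25619508905965531430911)) (T.h (P (nat_lit 0)) (M (nat_lit 25828239031599103)))) (T.h (P (nat_lit 0)) (M (nat_lit 5990357490696191))))))) (T.h (T.h (T.h (P (nat_lit 0)) (T.h (M (nat_lit 3808010078810433310949375)) (T.h (P (nat_lit 0)) (P (nat_lit 7228349994594467840))))) (T.h (P (nat_lit 0)) (T.h (T.h (P (nat_lit 0)) (P (nat_lit 47737917958413877248))) (P (nat_lit 0))))) (T.h (T.h (P (nat_lit 0)) (T.h (T.h (P (nat_lit 66894456594855284965376)) (T.h (P (nat_lit 0)) (M (nat_lit 4558212600184831)))) (T.h (P (nat_lit 0)) (M (nat_lit 34505731325050879))))) (T.h (T.h (T.h (P (nat_lit 0)) (M (nat_lit 39699916217686949887))) (P (nat_lit 0))) (T.h (T.h (P (nat_lit 0)) (P (nat_lit 17205814889070592))) (P (nat_lit 0))))))), (T.h (T.h (T.h (P (nat_lit 1044295661541056040152510496768)) (T.h (P (nat_lit 0)) (T.h (M (nat_lit 803693429346107486371839)) (T.h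 (P (nat_lit 0)) (T.h (M (nat_lit 12448279673438207)) (T.h (P (nat_lit 0)) (P (nat_lit 299772141640)))))))) (T.h (P (nat_lit 0)) (T.h (T.h (M (nat_lit 210793898891634601361407)) (T.h (P (nat_lit 0)) (T.h (P (nat_lit 5347940031472336896)) (T.h (P (nat_lit 0)) (M (nat_lit 4555144252095)))))) (T.h (P (nat_lit 0)) (T.h (T.h (P (nat_lit 1666622243523788800)) (T.h (P (nat_lit 0)) (M (nat_lit 973575943103)))) (T.h (P (nat_lit 0)) (M (nat_lit 1373919194975)))))))) (T.h (T.h (P (nat_lit 0)) (T.h (T.h (P (nat_lit 0)) (T.h (P (nat_lit 521456027259417657344)) (T.h (P (nat_lit 0)) (M (nat_lit 2878621347512319))))) (T.h (P (nat_lit 0)) (T.h (T.h (P (nat_lit 0)) (M (nat_lit 212236946046975))) (P (nat_lit 0)))))) (T.h (T.h (T.h (M (nat_lit 803693429346107486371839)) (T.h (P (nat_lit 0)) (T.h (P (nat_lit 3977279956173455360)) (T.h (P (nat_lit 0)) (P (nat_lit 653464833136)))))) (T.h (P (nat_lit 0)) (T.h (T.h (P (nat_lit 5347940031472336896)) (T.h (P (nat_lit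 0)) (M (nat_lit 7639513951519)))) (T.h (P (nat_lit 0)) (M (nat_lit 973575943103)))))) (T.h (T.h (P (nat_lit 0)) (T.h (T.h (P (nat_lit 0)) (M (nat_lit 2878621347512319))) (P (nat_lit 0)))) (T.h (T.h (T.h (M (nat_lit 12448279673438207)) (T.h (P (nat_lit 0)) (P (nat_lit 653464833136)))) (T.h (P (nat_lit 0)) (M (nat_lit 4555144252095)))) (T.h (P (nat_lit 0)) (P (nat_lit 299772141640)))))))), (T.h (T.h (T.h (P (nat_lit 0)) (T.h (M (nat_lit 2183137425904434638667907071)) (T.h (P (nat_lit 0)) (T.h (P (nat_lit 1146563286424017174528)) (T.h (P (nat_lit 0)) (P (nat_lit 2008321073004544))))))) (T.h (P (nat_lit 0)) (T.h (T.h (P (nat_lit 0)) (T.h (M (nat_lit 27481446203344965074943)) (T.h (P (nat_lit 0)) (P (nat_lit 24685718477160448))))) (T.h (P (nat_lit 0)) (T.h (T.h (P (nat_lit 0)) (M (nat_lit 4103378252595199))) (P (nat_lit 0))))))) (T.h (T.h (P (nat_lit 0)) (T.h (T.h (P (nat_lit 11006440254763849941516288)) (T.h (P (nat_lit 0)) (T.h (P (nat_lit 17390635901448617984))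 (T.h (P (nat_lit 0)) (M (nat_lit 170731117199)))))) (T.h (P (nat_lit 0)) (T.h (T.h (M (nat_lit 10212482558193565695)) (T.h (P (nat_lit 0)) (P (nat_lit 8038665908672)))) (T.h (P (nat_lit 0)) (P (nat_lit 11875290719936))))))) (T.h (T.h (T.h (P (nat_lit 0)) (T.h (P (nat_lit 1595751522983967981568)) (T.h (P (nat_lit 0)) (M (nat_lit 30936074729717759))))) (T.h (P (nat_lit 0)) (T.h (T.h (P (nat_lit 0)) (M (nat_lit 1654209649672191))) (P (nat_lit 0))))) (T.h (T.h (P (nat_lit 0)) (T.h (T.h (P (nat_lit 16119823565909393408)) (T.h (P (nat_lit 0)) (P (nat_lit 3403801104368)))) (T.h (P (nat_lit 0)) (M (nat_lit 267617463791))))) (T.h (T.h (T.h (P (nat_lit 0)) (M (nat_lit 10387681152090111))) (P (nat_lit 0))) (T.h (T.h (P (nat_lit 0)) (M (nat_lit 476646617775))) (P (nat_lit 0)))))))), (T.h (T.h (T.h (M (nat_lit 810696587689923214839151329279)) (T.h (P (nat_lit 0)) (T.h (M (nat_lit 3407005411166908284141567)) (T.h (P (nat_lit 0)) (T.h (P (nat_lit 558531456423428096))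 (T.h (P (nat_lit 0)) (M (nat_lit 4261242224735)))))))) (T.h (P (nat_lit 0)) (T.h (T.h (P (nat_lit 37753905792173428090863616)) (T.h (P (nat_lit 0)) (T.h (M (nat_lit 69781802947230826495)) (T.h (P (nat_lit 0)) (P (nat_lit 9878987290848)))))) (T.h (P (nat_lit 0)) (T.h (T.h (M (nat_lit 3032841192715845631)) (T.h (P (nat_lit 0)) (P (nat_lit 13392062460096)))) (T.h (P (nat_lit 0)) (P (nat_lit 6720453248160)))))))) (T.h (T.h (P (nat_lit 0)) (T.h (T.h (P (nat_lit 0)) (T.h (P (nat_lit 81885751788132947197952)) (T.h (P (nat_lit 0)) (P (nat_lit 62483176773517312))))) (T.h (P (nat_lit 0)) (T.h (T.h (P (nat_lit 0)) (M (nat_lit 59976003680468991))) (P (nat_lit 0)))))) (T.h (T.h (T.h (M (nat_lit 3407005411166908284141567)) (T.h (P (nat_lit 0)) (T.h (P (nat_lit 96046158667346608128)) (T.h (P (nat_lit 0)) (M (nat_lit 6016117140431)))))) (T.h (P (nat_lit 0)) (T.h (T.h (M (nat_lit 69781802947230826495)) (T.h (P (nat_lit 0)) (P (nat_lit 30474460727712)))) (T.h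 (P (nat_lit 0)) (P (nat_lit 13392062460096)))))) (T.h (T.h (P (nat_lit 0)) (T.h (T.h (P (nat_lit 0)) (P (nat_lit 62483176773517312))) (P (nat_lit 0)))) (T.h (T.h (T.h (P (nat_lit 558531456423428096)) (T.h (P (nat_lit 0)) (M (nat_lit 6016117140431)))) (T.h (P (nat_lit 0)) (P (nat_lit 9878987290848)))) (T.h (P (nat_lit 0)) (M (nat_lit 4261242224735)))))))), (T.h (T.h (T.h (P (nat_lit 0)) (T.h (P (nat_lit 3057717378853825663268290560)) (T.h (P (nat_lit 0)) (T.h (P (nat_lit 1780258074724053024768)) (T.h (P (nat_lit 0)) (P (nat_lit 4763365724028928))))))) (T.h (P (nat_lit 0)) (T.h (T.h (P (nat_lit 0)) (T.h (M (nat_lit 34371714572181032665087)) (T.h (P (nat_lit 0)) (M (nat_lit 6497396134756351))))) (T.h (P (nat_lit 0)) (T.h (T.h (P (nat_lit 0)) (M (nat_lit 72177182128979967))) (P (nat_lit 0))))))) (T.h (T.h (P (nat_lit 0)) (T.h (T.h (M (nat_lit 12660772485101187447652351)) (T.h (P (nat_lit 0)) (M (nat_lit 45047154406338854911)))) (T.h (P (nat_lit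 0)) (P (nat_lit 112093646349093830656))))) (T.h (T.h (T.h (P (nat_lit 0)) (T.h (P (nat_lit 8447562600720023683072)) (T.h (P (nat_lit 0)) (P (nat_lit 4163999934857216))))) (T.h (P (nat_lit 0)) (T.h (T.h (P (nat_lit 0)) (M (nat_lit 79412148893564927))) (P (nat_lit 0))))) (T.h (T.h (P (nat_lit 0)) (M (nat_lit 35855661794571845631))) (T.h (T.h (T.h (P (nat_lit 0)) (P (nat_lit 19241456788209664))) (P (nat_lit 0))) (P (nat_lit 0))))))), (P (nat_lit 0))]
def lP12_13 : List (T ℤ) := [(T.h (T.h (P (nat_lit 0)) (T.h (T.h (P (nat_lit 0)) (T.h (M (nat_lit 11660322374750600744140799)) (T.h (P (nat_lit 0)) (T.h (M (nat_lit 24783823898534739967)) (T.h (P (nat_lit 0)) (P (nat_lit 2531236715616))))))) (T.h (P (nat_lit 0)) (T.h (T.h (P (nat_lit 0)) (T.h (M (nat_lit 18520378691960176639)) (T.h (P (nat_lit 0)) (P (nat_lit 6938019607344))))) (T.h (P (nat_lit 0)) (T.h (T.h (P (nat_lit 0)) (M (nat_lit 170296125263))) (P (nat_lit 0)))))))) (T.h (T.h (T.h (P (nat_lit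 6851398732185546236270477312)) (T.h (P (nat_lit 0)) (T.h (M (nat_lit 21425206370652458582015)) (T.h (P (nat_lit 0)) (M (nat_lit 12728265808248831)))))) (T.h (P (nat_lit 0)) (T.h (T.h (P (nat_lit 18348311073687137681408)) (T.h (P (nat_lit 0)) (P (nat_lit 10815406722252800)))) (T.h (P (nat_lit 0)) (M (nat_lit 17793055875203071)))))) (T.h (T.h (P (nat_lit 0)) (T.h (T.h (P (nat_lit 0)) (T.h (P (nat_lit 39841637126717308928)) (T.h (P (nat_lit 0)) (M (nat_lit 2136752720495))))) (T.h (P (nat_lit 0)) (T.h (T.h (P (nat_lit 0)) (P (nat_lit 14600707220976))) (P (nat_lit 0)))))) (T.h (T.h (T.h (M (nat_lit 4732893267667112165375)) (T.h (P (nat_lit 0)) (M (nat_lit 6016024335384575)))) (T.h (P (nat_lit 0)) (P (nat_lit 12497095545683968)))) (T.h (T.h (P (nat_lit 0)) (T.h (T.h (P (nat_lit 0)) (M (nat_lit 129643420655))) (P (nat_lit 0)))) (P (nat_lit 10744085451014144))))))), (T.h (T.h (P (nat_lit 0)) (T.h (T.h (M (nat_lit 10791888917891311952700899327)) (T.h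 (P (nat_lit 0)) (T.h (P (nat_lit 39314200272193718321152)) (T.h (P (nat_lit 0)) (M (nat_lit 11019781030952959)))))) (T.h (P (nat_lit 0)) (T.h (T.h (M (nat_lit 1626752472681682042879)) (T.h (P (nat_lit 0)) (M (nat_lit 30372869421531135)))) (T.h (P (nat_lit 0)) (M (nat_lit 13647232764051455))))))) (T.h (T.h (T.h (P (nat_lit 0)) (T.h (P (nat_lit 4552137591189246866096128)) (T.h (P (nat_lit 0)) (M (nat_lit 3540785065044738047))))) (T.h (P (nat_lit 0)) (T.h (T.h (P (nat_lit 0)) (P (nat_lit 60886120603446149120))) (P (nat_lit 0))))) (T.h (T.h (P (nat_lit 0)) (T.h (T.h (P (nat_lit 39314200272193718321152)) (T.h (P (nat_lit 0)) (M (nat_lit 16427828951875583)))) (T.h (P (nat_lit 0)) (M (nat_lit 30372869421531135))))) (T.h (T.h (T.h (P (nat_lit 0)) (M (nat_lit 3540785065044738047))) (P (nat_lit 0))) (T.h (T.h (P (nat_lit 0)) (M (nat_lit 11019781030952959))) (P (nat_lit 0))))))), (P (nat_lit 0)), (T.h (T.h (T.h (P (nat_lit 0)) (T.h (P (nat_lit 3402341988066177641621749760))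 (T.h (P (nat_lit 0)) (T.h (P (nat_lit 311281724839209992192)) (T.h (P (nat_lit 0)) (M (nat_lit 396931717021695))))))) (T.h (P (nat_lit 0)) (T.h (T.h (P (nat_lit 0)) (T.h (P (nat_lit 22557465762590185488384)) (T.h (P (nat_lit 0)) (M (nat_lit 6354815568904191))))) (T.h (P (nat_lit 0)) (T.h (T.h (P (nat_lit 0)) (M (nat_lit 723882441949183))) (P (nat_lit 0))))))) (T.h (T.h (P (nat_lit 0)) (T.h (T.h (M (nat_lit 17043484856467139858530303)) (T.h (P (nat_lit 0)) (M (nat_lit 11739852891748302847)))) (T.h (P (nat_lit 0)) (M (nat_lit 2896091241655566335))))) (T.h (T.h (T.h (P (nat_lit 0)) (T.h (M (nat_lit 19467932748244439793663)) (T.h (P (nat_lit 0)) (P (nat_lit 3918274737192960))))) (T.h (P (nat_lit 0)) (T.h (T.h (P (nat_lit 0)) (M (nat_lit 12701974667231231))) (P (nat_lit 0))))) (T.h (T.h (P (nat_lit 0)) (M (nat_lit 12429613524915847167))) (T.h (T.h (T.h (P (nat_lit 0)) (P (nat_lit 2379570363793408))) (P (nat_lit 0))) (P (nat_lit 0))))))), (P (nat_lit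 0)), (P (nat_lit 0)), (P (nat_lit 0)), (P (nat_lit 0))]
def lP12_14 : List (T ℤ) := [(P (nat_lit 0)), (T.h (T.h (P (nat_lit 0)) (T.h (T.h (P (nat_lit 1778255715518571166740512768)) (T.h (P (nat_lit 0)) (T.h (M (nat_lit 14394901155530508599295)) (T.h (P (nat_lit 0)) (M (nat_lit 1554501961842687)))))) (T.h (P (nat_lit 0)) (T.h (T.h (M (nat_lit 2675285868908208193535)) (T.h (P (nat_lit 0)) (P (nat_lit 1914496518979584)))) (T.h (P (nat_lit 0)) (M (nat_lit 718546660458495))))))) (T.h (T.h (T.h (P (nat_lit 0)) (T.h (P (nat_lit 3338570172647465308651520)) (T.h (P (nat_lit 0)) (T.h (M (nat_lit 7064002092364464127)) (T.h (P (nat_lit 0)) (M (nat_lit 5798274923559))))))) (T.h (P (nat_lit 0)) (T.h (T.h (P (nat_lit 0)) (T.h (P (nat_lit 18554454786258763776)) (T.h (P (nat_lit 0)) (P (nat_lit 3184203260176))))) (T.h (P (nat_lit 0)) (T.h (T.h (P (nat_lit 0)) (M (nat_lit 2698550200207))) (P (nat_lit 0))))))) (T.h (T.h (P (nat_lit 0)) (T.h (T.h (M (nat_lit 17499995407311075016703))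 (T.h (P (nat_lit 0)) (P (nat_lit 26745412347199488)))) (T.h (P (nat_lit 0)) (M (nat_lit 17958459313225727))))) (T.h (T.h (T.h (P (nat_lit 0)) (T.h (P (nat_lit 10764987692249776128)) (T.h (P (nat_lit 0)) (P (nat_lit 11217075281216))))) (T.h (P (nat_lit 0)) (T.h (T.h (P (nat_lit 0)) (M (nat_lit 4207983872431))) (P (nat_lit 0))))) (T.h (T.h (P (nat_lit 0)) (P (nat_lit 3285043163660288))) (T.h (T.h (T.h (P (nat_lit 0)) (M (nat_lit 2939598358151))) (P (nat_lit 0))) (P (nat_lit 0)))))))), (P (nat_lit 0)), (P (nat_lit 0)), (P (nat_lit 0)), (P (nat_lit 0)), (P (nat_lit 0)), (T.h (T.h (T.h (P (nat_lit 1974437142523453654025568780288)) (T.h (P (nat_lit 0)) (T.h (P (nat_lit 3776107581101057807220736)) (T.h (P (nat_lit 0)) (T.h (M (nat_lit 455214168597856255)) (T.h (P (nat_lit 0)) (P (nat_lit 1320627043552)))))))) (T.h (P (nat_lit 0)) (T.h (T.h (M (nat_lit 9758004229517509839028223)) (T.h (P (nat_lit 0)) (T.h (M (nat_lit 9060807759313764351)) (T.h (P (nat_lit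 0)) (M (nat_lit 4691781859471)))))) (T.h (P (nat_lit 0)) (T.h (T.h (P (nat_lit 1083103659241242624)) (T.h (P (nat_lit 0)) (P (nat_lit 2064152749056)))) (T.h (P (nat_lit 0)) (M (nat_lit 1030947796895)))))))) (T.h (T.h (P (nat_lit 0)) (T.h (T.h (P (nat_lit 0)) (T.h (M (nat_lit 35916735902168758878207)) (T.h (P (nat_lit 0)) (P (nat_lit 31562004246757376))))) (T.h (P (nat_lit 0)) (T.h (T.h (P (nat_lit 0)) (M (nat_lit 83825974921003007))) (P (nat_lit 0)))))) (T.h (T.h (T.h (P (nat_lit 3776107581101057807220736)) (T.h (P (nat_lit 0)) (T.h (P (nat_lit 47664521656557109248)) (T.h (P (nat_lit 0)) (M (nat_lit 6116429705375)))))) (T.h (P (nat_lit 0)) (T.h (T.h (M (nat_lit 9060807759313764351)) (T.h (P (nat_lit 0)) (M (nat_lit 2560356751999)))) (T.h (P (nat_lit 0)) (P (nat_lit 2064152749056)))))) (T.h (T.h (P (nat_lit 0)) (T.h (T.h (P (nat_lit 0)) (P (nat_lit 31562004246757376))) (P (nat_lit 0)))) (T.h (T.h (T.h (M (nat_lit 455214168597856255)) (T.h (P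 (nat_lit 0)) (M (nat_lit 6116429705375)))) (T.h (P (nat_lit 0)) (M (nat_lit 4691781859471)))) (T.h (P (nat_lit 0)) (P (nat_lit 1320627043552))))))))]
def lP12_15 : List (T ℤ) := [(T.h (T.h (T.h (P (nat_lit 0)) (T.h (M (nat_lit 10540871924099373546122248191)) (T.h (P (nat_lit 0)) (T.h (P (nat_lit 18573366259386398277632)) (T.h (P (nat_lit 0)) (M (nat_lit 855775823364095))))))) (T.h (P (nat_lit 0)) (T.h (T.h (P (nat_lit 0)) (T.h (M (nat_lit 8498281137793499398143)) (T.h (P (nat_lit 0)) (P (nat_lit 24433134632173568))))) (T.h (P (nat_lit 0)) (T.h (T.h (P (nat_lit 0)) (P (nat_lit 30859584543850496))) (P (nat_lit 0))))))) (T.h (T.h (P (nat_lit 0)) (T.h (T.h (P (nat_lit 48723299418388129822801920)) (T.h (P (nat_lit 0)) (T.h (M (nat_lit 68080155304329740287)) (T.h (P (nat_lit 0)) (M (nat_lit 3288773661463)))))) (T.h (P (nat_lit 0)) (T.h (T.h (P (nat_lit 53707105412994564096)) (T.h (P (nat_lit 0)) (M (nat_lit 24511900278071)))) (T.h (P (nat_lit 0))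 (P (nat_lit 1907035600680))))))) (T.h (T.h (T.h (P (nat_lit 0)) (T.h (M (nat_lit 10013057987855857483775)) (T.h (P (nat_lit 0)) (M (nat_lit 16626835454164991))))) (T.h (P (nat_lit 0)) (T.h (T.h (P (nat_lit 0)) (P (nat_lit 71240362311057408))) (P (nat_lit 0))))) (T.h (T.h (P (nat_lit 0)) (T.h (T.h (P (nat_lit 25958675487901351936)) (T.h (P (nat_lit 0)) (P (nat_lit 10777497079736)))) (T.h (P (nat_lit 0)) (P (nat_lit 14381945803656))))) (T.h (T.h (T.h (P (nat_lit 0)) (M (nat_lit 59487540359790591))) (P (nat_lit 0))) (T.h (T.h (P (nat_lit 0)) (M (nat_lit 11568282303335))) (P (nat_lit 0)))))))), (T.h (T.h (T.h (P (nat_lit 9532113103949875524296396242944)) (T.h (P (nat_lit 0)) (T.h (M (nat_lit 3988164356882201506217983)) (T.h (P (nat_lit 0)) (T.h (P (nat_lit 3867644409403146240)) (T.h (P (nat_lit 0)) (M (nat_lit 4494899552751)))))))) (T.h (P (nat_lit 0)) (T.h (T.h (M (nat_lit 5822015326319091937968127)) (T.h (P (nat_lit 0)) (T.h (P (nat_lit 2322674579165675520))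 (T.h (P (nat_lit 0)) (P (nat_lit 66173550912)))))) (T.h (P (nat_lit 0)) (T.h (T.h (M (nat_lit 8903747042262646783)) (T.h (P (nat_lit 0)) (M (nat_lit 5131028078175)))) (T.h (P (nat_lit 0)) (M (nat_lit 2135898518655)))))))) (T.h (T.h (P (nat_lit 0)) (T.h (T.h (P (nat_lit 0)) (T.h (M (nat_lit 11273622562630300336127)) (T.h (P (nat_lit 0)) (M (nat_lit 28669640327397375))))) (T.h (P (nat_lit 0)) (T.h (T.h (P (nat_lit 0)) (P (nat_lit 76325036144197632))) (P (nat_lit 0)))))) (T.h (T.h (T.h (P (nat_lit 3032100729163460762402816)) (T.h (P (nat_lit 0)) (T.h (M (nat_lit 57813725855048794111)) (T.h (P (nat_lit 0)) (P (nat_lit 18872188738032)))))) (T.h (P (nat_lit 0)) (T.h (T.h (P (nat_lit 37294152127986270208)) (T.h (P (nat_lit 0)) (P (nat_lit 8548507008608)))) (T.h (P (nat_lit 0)) (M (nat_lit 2689076313615)))))) (T.h (T.h (P (nat_lit 0)) (T.h (T.h (P (nat_lit 0)) (P (nat_lit 4062213188222976))) (P (nat_lit 0)))) (T.h (T.h (T.h (P (nat_lit 28767898205744529408))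 (T.h (P (nat_lit 0)) (P (nat_lit 7861092761200)))) (T.h (P (nat_lit 0)) (P (nat_lit 15481464103056)))) (T.h (P (nat_lit 0)) (M (nat_lit 6454986133007)))))))), (T.h (T.h (T.h (P (nat_lit 0)) (T.h (P (nat_lit 4603839004082732782111948800)) (T.h (P (nat_lit 0)) (T.h (M (nat_lit 451937267142675660799)) (T.h (P (nat_lit 0)) (P (nat_lit 9716097229586432))))))) (T.h (P (nat_lit 0)) (T.h (T.h (P (nat_lit 0)) (T.h (P (nat_lit 14294575167020482953216)) (T.h (P (nat_lit 0)) (M (nat_lit 17089846118907903))))) (T.h (P (nat_lit 0)) (T.h (T.h (P (nat_lit 0)) (M (nat_lit 4070874150305791))) (P (nat_lit 0))))))) (T.h (T.h (P (nat_lit 0)) (T.h (T.h (M (nat_lit 6596670900851402304651263)) (T.h (P (nat_lit 0)) (T.h (M (nat_lit 39250634255368191)) (T.h (P (nat_lit 0)) (M (nat_lit 1128251633855)))))) (T.h (P (nat_lit 0)) (T.h (T.h (M (nat_lit 4921241330123800575)) (T.h (P (nat_lit 0)) (P (nat_lit 31647341982192)))) (T.h (P (nat_lit 0)) (M (nat_lit 9164603746943)))))))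 (T.h (T.h (T.h (P (nat_lit 0)) (T.h (P (nat_lit 28647703300755549061120)) (T.h (P (nat_lit 0)) (M (nat_lit 16800158102618111))))) (T.h (P (nat_lit 0)) (T.h (T.h (P (nat_lit 0)) (M (nat_lit 4952338308300799))) (P (nat_lit 0))))) (T.h (T.h (P (nat_lit 0)) (T.h (T.h (P (nat_lit 19514475805688201216)) (T.h (P (nat_lit 0)) (P (nat_lit 25102801519776)))) (T.h (P (nat_lit 0)) (P (nat_lit 7971373389648))))) (T.h (T.h (T.h (P (nat_lit 0)) (P (nat_lit 27870905071534080))) (P (nat_lit 0))) (T.h (T.h (P (nat_lit 0)) (M (nat_lit 5108631799679))) (P (nat_lit 0)))))))), (T.h (T.h (T.h (M (nat_lit 1410570906212094888288156909567)) (T.h (P (nat_lit 0)) (T.h (P (nat_lit 736332230657898056777728)) (T.h (P (nat_lit 0)) (M (nat_lit 8275653059435036671)))))) (T.h (P (nat_lit 0)) (T.h (T.h (P (nat_lit 9092474658105973488484352)) (T.h (P (nat_lit 0)) (P (nat_lit 9901124243519700992)))) (T.h (P (nat_lit 0)) (P (nat_lit 6450639816894709760)))))) (T.h (T.h (P (nat_lit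 0)) (T.h (T.h (P (nat_lit 0)) (T.h (P (nat_lit 25522296248950983753728)) (T.h (P (nat_lit 0)) (M (nat_lit 8426976565428223))))) (T.h (P (nat_lit 0)) (T.h (T.h (P (nat_lit 0)) (M (nat_lit 20145895602651135))) (P (nat_lit 0)))))) (T.h (T.h (T.h (M (nat_lit 2713202957367080711618559)) (T.h (P (nat_lit 0)) (M (nat_lit 12443088561886986239)))) (T.h (P (nat_lit 0)) (P (nat_lit 2049630866191155200)))) (T.h (T.h (P (nat_lit 0)) (T.h (T.h (P (nat_lit 0)) (M (nat_lit 16959839353831423))) (P (nat_lit 0)))) (M (nat_lit 20438749490257592319)))))), (P (nat_lit 0)), (P (nat_lit 0)), (T.h (T.h (P (nat_lit 0)) (T.h (T.h (P (nat_lit 0)) (T.h (M (nat_lit 1351268652085930406969343)) (T.h (P (nat_lit 0)) (T.h (M (nat_lit 1456239894979411967)) (T.h (P (nat_lit 0)) (M (nat_lit 792617250143))))))) (T.h (P (nat_lit 0)) (T.h (T.h (P (nat_lit 0)) (T.h (M (nat_lit 1456239894979411967)) (T.h (P (nat_lit 0)) (P (nat_lit 3108367647936))))) (T.h (P (nat_lit 0)) (T.h (T.h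 (P (nat_lit 0)) (M (nat_lit 792617250143))) (P (nat_lit 0)))))))) (T.h (T.h (T.h (M (nat_lit 12852879613821572345757695)) (T.h (P (nat_lit 0)) (T.h (M (nat_lit 285728088897521451007)) (T.h (P (nat_lit 0)) (M (nat_lit 9820380577136639)))))) (T.h (P (nat_lit 0)) (T.h (T.h (M (nat_lit 285728088897521451007)) (T.h (P (nat_lit 0)) (M (nat_lit 11595435753078783)))) (T.h (P (nat_lit 0)) (M (nat_lit 9820380577136639)))))) (T.h (T.h (P (nat_lit 0)) (T.h (T.h (P (nat_lit 0)) (T.h (M (nat_lit 9106968498537496575)) (T.h (P (nat_lit 0)) (P (nat_lit 5706106126624))))) (T.h (P (nat_lit 0)) (T.h (T.h (P (nat_lit 0)) (P (nat_lit 5706106126624))) (P (nat_lit 0)))))) (T.h (T.h (T.h (P (nat_lit 637446587506065670144)) (T.h (P (nat_lit 0)) (M (nat_lit 2387430420054015)))) (T.h (P (nat_lit 0)) (M (nat_lit 2387430420054015)))) (T.h (T.h (P (nat_lit 0)) (T.h (T.h (P (nat_lit 0)) (P (nat_lit 13499878995904))) (P (nat_lit 0)))) (M (nat_lit 659354132676607))))))), (T.h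 (T.h (P (nat_lit 0)) (T.h (T.h (P (nat_lit 15450310085247464295637188608)) (T.h (P (nat_lit 0)) (T.h (P (nat_lit 59872838811319904763904)) (T.h (P (nat_lit 0)) (P (nat_lit 34077592744460288)))))) (T.h (P (nat_lit 0)) (T.h (T.h (P (nat_lit 15922161035431158743040)) (T.h (P (nat_lit 0)) (P (nat_lit 6312671694127104)))) (T.h (P (nat_lit 0)) (P (nat_lit 28181530471792640))))))) (T.h (T.h (T.h (P (nat_lit 0)) (T.h (M (nat_lit 58897022453733711436316671)) (T.h (P (nat_lit 0)) (T.h (M (nat_lit 35987717367516889087)) (T.h (P (nat_lit 0)) (M (nat_lit 25776996940887))))))) (T.h (P (nat_lit 0)) (T.h (T.h (P (nat_lit 0)) (T.h (P (nat_lit 49614465136263692288)) (T.h (P (nat_lit 0)) (M (nat_lit 50518743882535))))) (T.h (P (nat_lit 0)) (T.h (T.h (P (nat_lit 0)) (M (nat_lit 24304834677079))) (P (nat_lit 0))))))) (T.h (T.h (P (nat_lit 0)) (T.h (T.h (M (nat_lit 46330473130694874759167)) (T.h (P (nat_lit 0)) (M (nat_lit 106282011035467775)))) (T.h (P (nat_lit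 0)) (M (nat_lit 16006412348719103))))) (T.h (T.h (T.h (P (nat_lit 0)) (T.h (P (nat_lit 155369935871835897856)) (T.h (P (nat_lit 0)) (P (nat_lit 3937752960440))))) (T.h (P (nat_lit 0)) (T.h (T.h (P (nat_lit 0)) (P (nat_lit 38707456272024))) (P (nat_lit 0))))) (T.h (T.h (P (nat_lit 0)) (M (nat_lit 52641518370619391))) (T.h (T.h (T.h (P (nat_lit 0)) (P (nat_lit 20309999895560))) (P (nat_lit 0))) (P (nat_lit 0))))))))]
def lP12_16 : List (T ℤ) := [(T.h (T.h (P (nat_lit 0)) (T.h (T.h (P (nat_lit 0)) (T.h (M (nat_lit 3140540335287327520718847)) (T.h (P (nat_lit 0)) (T.h (M (nat_lit 1023186957825474559)) (T.h (P (nat_lit 0)) (M (nat_lit 5632617450207))))))) (T.h (P (nat_lit 0)) (T.h (T.h (P (nat_lit 0)) (T.h (M (nat_lit 19618220207543156735)) (T.h (P (nat_lit 0)) (M (nat_lit 8063003288703))))) (T.h (P (nat_lit 0)) (T.h (T.h (P (nat_lit 0)) (M (nat_lit 12153382404239))) (P (nat_lit 0)))))))) (T.h (T.h (T.h (M (nat_lit 10269116897705586050811822079))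 (T.h (P (nat_lit 0)) (T.h (M (nat_lit 11752904389286648872959)) (T.h (P (nat_lit 0)) (P (nat_lit 64019304747630592)))))) (T.h (P (nat_lit 0)) (T.h (T.h (M (nat_lit 40814377494051408576511)) (T.h (P (nat_lit 0)) (P (nat_lit 84186931744751616)))) (T.h (P (nat_lit 0)) (P (nat_lit 7631175466680320)))))) (T.h (T.h (P (nat_lit 0)) (T.h (T.h (P (nat_lit 0)) (T.h (P (nat_lit 2740331464292827136)) (T.h (P (nat_lit 0)) (M (nat_lit 13000870878351))))) (T.h (P (nat_lit 0)) (T.h (T.h (P (nat_lit 0)) (M (nat_lit 13156209311727))) (P (nat_lit 0)))))) (T.h (T.h (T.h (M (nat_lit 19423582445904722919423)) (T.h (P (nat_lit 0)) (P (nat_lit 48900044698517504)))) (T.h (P (nat_lit 0)) (M (nat_lit 23241107784351743)))) (T.h (T.h (P (nat_lit 0)) (T.h (T.h (P (nat_lit 0)) (M (nat_lit 71336986172927))) (P (nat_lit 0)))) (M (nat_lit 11424268652298239))))))), (T.h (T.h (P (nat_lit 0)) (T.h (T.h (M (nat_lit 24556072986798921191516012543)) (T.h (P (nat_lit 0)) (T.h (M (nat_lit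 4980996676142313242623)) (T.h (P (nat_lit 0)) (M (nat_lit 39498243636592639)))))) (T.h (P (nat_lit 0)) (T.h (T.h (M (nat_lit 13721056066817709047807)) (T.h (P (nat_lit 0)) (P (nat_lit 48486625826766848)))) (T.h (P (nat_lit 0)) (M (nat_lit 12786125555204095))))))) (T.h (T.h (T.h (P (nat_lit 0)) (T.h (P (nat_lit 34219577505904261729353728)) (T.h (P (nat_lit 0)) (T.h (P (nat_lit 62491710756640260096)) (T.h (P (nat_lit 0)) (P (nat_lit 37160142996432))))))) (T.h (P (nat_lit 0)) (T.h (T.h (P (nat_lit 0)) (T.h (M (nat_lit 220930338352237903871)) (T.h (P (nat_lit 0)) (P (nat_lit 25587277519872))))) (T.h (P (nat_lit 0)) (T.h (T.h (P (nat_lit 0)) (P (nat_lit 1483797581376))) (P (nat_lit 0))))))) (T.h (T.h (P (nat_lit 0)) (T.h (T.h (M (nat_lit 18238095826908243558399)) (T.h (P (nat_lit 0)) (M (nat_lit 24734882115387391)))) (T.h (P (nat_lit 0)) (P (nat_lit 43601158870171648))))) (T.h (T.h (T.h (P (nat_lit 0)) (T.h (M (nat_lit 101785428458033119231)) (T.h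 (P (nat_lit 0)) (M (nat_lit 15194470148207))))) (T.h (P (nat_lit 0)) (T.h (T.h (P (nat_lit 0)) (M (nat_lit 12048870166367))) (P (nat_lit 0))))) (T.h (T.h (P (nat_lit 0)) (P (nat_lit 10739564299747328))) (T.h (T.h (T.h (P (nat_lit 0)) (P (nat_lit 16720912128480))) (P (nat_lit 0))) (P (nat_lit 0)))))))), (T.h (T.h (P (nat_lit 0)) (T.h (T.h (P (nat_lit 0)) (T.h (M (nat_lit 12660772485101187447652351)) (T.h (P (nat_lit 0)) (P (nat_lit 112093646349093830656))))) (T.h (P (nat_lit 0)) (T.h (T.h (P (nat_lit 0)) (M (nat_lit 35855661794571845631))) (P (nat_lit 0)))))) (T.h (T.h (T.h (P (nat_lit 3057717378853825663268290560)) (T.h (P (nat_lit 0)) (T.h (M (nat_lit 34371714572181032665087)) (T.h (P (nat_lit 0)) (M (nat_lit 72177182128979967)))))) (T.h (P (nat_lit 0)) (T.h (T.h (P (nat_lit 8447562600720023683072)) (T.h (P (nat_lit 0)) (M (nat_lit 79412148893564927)))) (T.h (P (nat_lit 0)) (P (nat_lit 19241456788209664)))))) (T.h (T.h (P (nat_lit 0)) (T.h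 (T.h (P (nat_lit 0)) (M (nat_lit 45047154406338854911))) (P (nat_lit 0)))) (T.h (T.h (T.h (P (nat_lit 1780258074724053024768)) (T.h (P (nat_lit 0)) (M (nat_lit 6497396134756351)))) (T.h (P (nat_lit 0)) (P (nat_lit 4163999934857216)))) (T.h (P (nat_lit 0)) (P (nat_lit 4763365724028928))))))), (P (nat_lit 0)), (T.h (T.h (T.h (P (nat_lit 1974437142523453654025568780288)) (T.h (P (nat_lit 0)) (T.h (M (nat_lit 9758004229517509839028223)) (T.h (P (nat_lit 0)) (T.h (P (nat_lit 1083103659241242624)) (T.h (P (nat_lit 0)) (M (nat_lit 1030947796895)))))))) (T.h (P (nat_lit 0)) (T.h (T.h (P (nat_lit 3776107581101057807220736)) (T.h (P (nat_lit 0)) (T.h (M (nat_lit 9060807759313764351)) (T.h (P (nat_lit 0)) (P (nat_lit 2064152749056)))))) (T.h (P (nat_lit 0)) (T.h (T.h (M (nat_lit 455214168597856255)) (T.h (P (nat_lit 0)) (M (nat_lit 4691781859471)))) (T.h (P (nat_lit 0)) (P (nat_lit 1320627043552)))))))) (T.h (T.h (P (nat_lit 0)) (T.h (T.h (P (nat_lit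 0)) (T.h (M (nat_lit 35916735902168758878207)) (T.h (P (nat_lit 0)) (M (nat_lit 83825974921003007))))) (T.h (P (nat_lit 0)) (T.h (T.h (P (nat_lit 0)) (P (nat_lit 31562004246757376))) (P (nat_lit 0)))))) (T.h (T.h (T.h (P (nat_lit 3776107581101057807220736)) (T.h (P (nat_lit 0)) (T.h (M (nat_lit 9060807759313764351)) (T.h (P (nat_lit 0)) (P (nat_lit 2064152749056)))))) (T.h (P (nat_lit 0)) (T.h (T.h (P (nat_lit 47664521656557109248)) (T.h (P (nat_lit 0)) (M (nat_lit 2560356751999)))) (T.h (P (nat_lit 0)) (M (nat_lit 6116429705375)))))) (T.h (T.h (P (nat_lit 0)) (T.h (T.h (P (nat_lit 0)) (P (nat_lit 31562004246757376))) (P (nat_lit 0)))) (T.h (T.h (T.h (M (nat_lit 455214168597856255)) (T.h (P (nat_lit 0)) (M (nat_lit 4691781859471)))) (T.h (P (nat_lit 0)) (M (nat_lit 6116429705375)))) (T.h (P (nat_lit 0)) (P (nat_lit 1320627043552)))))))), (T.h (T.h (T.h (P (nat_lit 0)) (T.h (P (nat_lit 15450310085247464295637188608)) (T.h (P (nat_lit 0)) (T.h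 (P (nat_lit 15922161035431158743040)) (T.h (P (nat_lit 0)) (P (nat_lit 28181530471792640))))))) (T.h (P (nat_lit 0)) (T.h (T.h (P (nat_lit 0)) (T.h (P (nat_lit 59872838811319904763904)) (T.h (P (nat_lit 0)) (P (nat_lit 6312671694127104))))) (T.h (P (nat_lit 0)) (T.h (T.h (P (nat_lit 0)) (P (nat_lit 34077592744460288))) (P (nat_lit 0))))))) (T.h (T.h (P (nat_lit 0)) (T.h (T.h (M (nat_lit 58897022453733711436316671)) (T.h (P (nat_lit 0)) (T.h (P (nat_lit 49614465136263692288)) (T.h (P (nat_lit 0)) (M (nat_lit 24304834677079)))))) (T.h (P (nat_lit 0)) (T.h (T.h (M (nat_lit 35987717367516889087)) (T.h (P (nat_lit 0)) (M (nat_lit 50518743882535)))) (T.h (P (nat_lit 0)) (M (nat_lit 25776996940887))))))) (T.h (T.h (T.h (P (nat_lit 0)) (T.h (M (nat_lit 46330473130694874759167)) (T.h (P (nat_lit 0)) (M (nat_lit 16006412348719103))))) (T.h (P (nat_lit 0)) (T.h (T.h (P (nat_lit 0)) (M (nat_lit 106282011035467775))) (P (nat_lit 0))))) (T.h (T.h (P (nat_lit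 0)) (T.h (T.h (P (nat_lit 155369935871835897856)) (T.h (P (nat_lit 0)) (P (nat_lit 38707456272024)))) (T.h (P (nat_lit 0)) (P (nat_lit 3937752960440))))) (T.h (T.h (T.h (P (nat_lit 0)) (M (nat_lit 52641518370619391))) (P (nat_lit 0))) (T.h (T.h (P (nat_lit 0)) (P (nat_lit 20309999895560))) (P (nat_lit 0)))))))), (T.h (T.h (T.h (P (nat_lit 23310037910570495737335788863488)) (T.h (P (nat_lit 0)) (T.h (P (nat_lit 19725192064354690566979584)) (T.h (P (nat_lit 0)) (T.h (P (nat_lit 2702177010247008256)) (T.h (P (nat_lit 0)) (P (nat_lit 9212612314528)))))))) (T.h (P (nat_lit 0)) (T.h (T.h (P (nat_lit 19725192064354690566979584)) (T.h (P (nat_lit 0)) (T.h (M (nat_lit 34491942723108470783)) (T.h (P (nat_lit 0)) (M (nat_lit 28180338095055)))))) (T.h (P (nat_lit 0)) (T.h (T.h (P (nat_lit 2702177010247008256)) (T.h (P (nat_lit 0)) (M (nat_lit 28180338095055)))) (T.h (P (nat_lit 0)) (P (nat_lit 9212612314528)))))))) (T.h (T.h (P (nat_lit 0)) (T.h (T.h (P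 (nat_lit 0)) (T.h (M (nat_lit 30681806511465497100287)) (T.h (P (nat_lit 0)) (P (nat_lit 139629217861402624))))) (T.h (P (nat_lit 0)) (T.h (T.h (P (nat_lit 0)) (P (nat_lit 139629217861402624))) (P (nat_lit 0)))))) (T.h (T.h (T.h (P (nat_lit 19725192064354690566979584)) (T.h (P (nat_lit 0)) (T.h (M (nat_lit 34491942723108470783)) (T.h (P (nat_lit 0)) (M (nat_lit 28180338095055)))))) (T.h (P (nat_lit 0)) (T.h (T.h (M (nat_lit 34491942723108470783)) (T.h (P (nat_lit 0)) (M (nat_lit 10921763459711)))) (T.h (P (nat_lit 0)) (M (nat_lit 28180338095055)))))) (T.h (T.h (P (nat_lit 0)) (T.h (T.h (P (nat_lit 0)) (P (nat_lit 139629217861402624))) (P (nat_lit 0)))) (T.h (T.h (T.h (P (nat_lit 2702177010247008256)) (T.h (P (nat_lit 0)) (M (nat_lit 28180338095055)))) (T.h (P (nat_lit 0)) (M (nat_lit 28180338095055)))) (T.h (P (nat_lit 0)) (P (nat_lit 9212612314528)))))))), (T.h (T.h (T.h (P (nat_lit 0)) (T.h (P (nat_lit 14866869712175847619430449152)) (T.h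 (P (nat_lit 0)) (T.h (M (nat_lit 18627505679774460674047)) (T.h (P (nat_lit 0)) (M (nat_lit 27072688004661247))))))) (T.h (P (nat_lit 0)) (T.h (T.h (P (nat_lit 0)) (T.h (P (nat_lit 1433587608546099331072)) (T.h (P (nat_lit 0)) (P (nat_lit 13989289038413824))))) (T.h (P (nat_lit 0)) (T.h (T.h (P (nat_lit 0)) (P (nat_lit 34185777267245056))) (P (nat_lit 0))))))) (T.h (T.h (P (nat_lit 0)) (T.h (T.h (P (nat_lit 17611460680705609442525184)) (T.h (P (nat_lit 0)) (T.h (P (nat_lit 84222312554686316544)) (T.h (P (nat_lit 0)) (M (nat_lit 6838868425343)))))) (T.h (P (nat_lit 0)) (T.h (T.h (M (nat_lit 52364010794954784767)) (T.h (P (nat_lit 0)) (P (nat_lit 1211514142800)))) (T.h (P (nat_lit 0)) (M (nat_lit 566833092047))))))) (T.h (T.h (T.h (P (nat_lit 0)) (T.h (P (nat_lit 1433587608546099331072)) (T.h (P (nat_lit 0)) (P (nat_lit 13989289038413824))))) (T.h (P (nat_lit 0)) (T.h (T.h (P (nat_lit 0)) (P (nat_lit 12816768228065280))) (P (nat_lit 0))))) (T.h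 (T.h (P (nat_lit 0)) (T.h (T.h (M (nat_lit 52364010794954784767)) (T.h (P (nat_lit 0)) (P (nat_lit 1211514142800)))) (T.h (P (nat_lit 0)) (M (nat_lit 12245643847967))))) (T.h (T.h (T.h (P (nat_lit 0)) (P (nat_lit 34185777267245056))) (P (nat_lit 0))) (T.h (T.h (P (nat_lit 0)) (M (nat_lit 566833092047))) (P (nat_lit 0))))))))]
def lP12_17 : List (T ℤ) := [(T.h (T.h (T.h (M (nat_lit 2965995001898959740632314150911)) (T.h (P (nat_lit 0)) (T.h (P (nat_lit 40921446729443515786330112)) (T.h (P (nat_lit 0)) (P (nat_lit 61716191199897845760)))))) (T.h (P (nat_lit 0)) (T.h (T.h (P (nat_lit 5139392947130120844345344)) (T.h (P (nat_lit 0)) (P (nat_lit 5754790540310740992)))) (T.h (P (nat_lit 0)) (P (nat_lit 36995800222106910720)))))) (T.h (T.h (P (nat_lit 0)) (T.h (T.h (P (nat_lit 0)) (T.h (P (nat_lit 46242827737220222287872)) (T.h (P (nat_lit 0)) (M (nat_lit 25597827883728895))))) (T.h (P (nat_lit 0)) (T.h (T.h (P (nat_lit 0)) (P (nat_lit 5372423414317056)))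 (P (nat_lit 0)))))) (T.h (T.h (T.h (P (nat_lit 5139392947130120844345344)) (T.h (P (nat_lit 0)) (P (nat_lit 5754790540310740992)))) (T.h (P (nat_lit 0)) (M (nat_lit 74560750045622173695)))) (T.h (T.h (P (nat_lit 0)) (T.h (T.h (P (nat_lit 0)) (P (nat_lit 5372423414317056))) (P (nat_lit 0)))) (P (nat_lit 36995800222106910720)))))), (P (nat_lit 0)), (T.h (T.h (P (nat_lit 0)) (T.h (T.h (M (nat_lit 10540871924099373546122248191)) (T.h (P (nat_lit 0)) (T.h (M (nat_lit 8498281137793499398143)) (T.h (P (nat_lit 0)) (P (nat_lit 30859584543850496)))))) (T.h (P (nat_lit 0)) (T.h (T.h (P (nat_lit 18573366259386398277632)) (T.h (P (nat_lit 0)) (P (nat_lit 24433134632173568)))) (T.h (P (nat_lit 0)) (M (nat_lit 855775823364095))))))) (T.h (T.h (T.h (P (nat_lit 0)) (T.h (P (nat_lit 48723299418388129822801920)) (T.h (P (nat_lit 0)) (T.h (P (nat_lit 53707105412994564096)) (T.h (P (nat_lit 0)) (P (nat_lit 1907035600680))))))) (T.h (P (nat_lit 0)) (T.h (T.h (P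 (nat_lit 0)) (T.h (M (nat_lit 68080155304329740287)) (T.h (P (nat_lit 0)) (M (nat_lit 24511900278071))))) (T.h (P (nat_lit 0)) (T.h (T.h (P (nat_lit 0)) (M (nat_lit 3288773661463))) (P (nat_lit 0))))))) (T.h (T.h (P (nat_lit 0)) (T.h (T.h (M (nat_lit 10013057987855857483775)) (T.h (P (nat_lit 0)) (P (nat_lit 71240362311057408)))) (T.h (P (nat_lit 0)) (M (nat_lit 16626835454164991))))) (T.h (T.h (T.h (P (nat_lit 0)) (T.h (P (nat_lit 25958675487901351936)) (T.h (P (nat_lit 0)) (P (nat_lit 14381945803656))))) (T.h (P (nat_lit 0)) (T.h (T.h (P (nat_lit 0)) (P (nat_lit 10777497079736))) (P (nat_lit 0))))) (T.h (T.h (P (nat_lit 0)) (M (nat_lit 59487540359790591))) (T.h (T.h (T.h (P (nat_lit 0)) (M (nat_lit 11568282303335))) (P (nat_lit 0))) (P (nat_lit 0)))))))), (T.h (T.h (P (nat_lit 0)) (T.h (T.h (P (nat_lit 0)) (T.h (M (nat_lit 3140540335287327520718847)) (T.h (P (nat_lit 0)) (T.h (M (nat_lit 19618220207543156735)) (T.h (P (nat_lit 0)) (M (nat_lit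 12153382404239))))))) (T.h (P (nat_lit 0)) (T.h (T.h (P (nat_lit 0)) (T.h (M (nat_lit 1023186957825474559)) (T.h (P (nat_lit 0)) (M (nat_lit 8063003288703))))) (T.h (P (nat_lit 0)) (T.h (T.h (P (nat_lit 0)) (M (nat_lit 5632617450207))) (P (nat_lit 0)))))))) (T.h (T.h (T.h (M (nat_lit 10269116897705586050811822079)) (T.h (P (nat_lit 0)) (T.h (M (nat_lit 40814377494051408576511)) (T.h (P (nat_lit 0)) (P (nat_lit 7631175466680320)))))) (T.h (P (nat_lit 0)) (T.h (T.h (M (nat_lit 11752904389286648872959)) (T.h (P (nat_lit 0)) (P (nat_lit 84186931744751616)))) (T.h (P (nat_lit 0)) (P (nat_lit 64019304747630592)))))) (T.h (T.h (P (nat_lit 0)) (T.h (T.h (P (nat_lit 0)) (T.h (P (nat_lit 2740331464292827136)) (T.h (P (nat_lit 0)) (M (nat_lit 13156209311727))))) (T.h (P (nat_lit 0)) (T.h (T.h (P (nat_lit 0)) (M (nat_lit 13000870878351))) (P (nat_lit 0)))))) (T.h (T.h (T.h (M (nat_lit 19423582445904722919423)) (T.h (P (nat_lit 0)) (M (nat_lit 23241107784351743))))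 (T.h (P (nat_lit 0)) (P (nat_lit 48900044698517504)))) (T.h (T.h (P (nat_lit 0)) (T.h (T.h (P (nat_lit 0)) (M (nat_lit 71336986172927))) (P (nat_lit 0)))) (M (nat_lit 11424268652298239))))))), (T.h (T.h (P (nat_lit 0)) (T.h (T.h (P (nat_lit 14866869712175847619430449152)) (T.h (P (nat_lit 0)) (T.h (P (nat_lit 1433587608546099331072)) (T.h (P (nat_lit 0)) (P (nat_lit 34185777267245056)))))) (T.h (P (nat_lit 0)) (T.h (T.h (M (nat_lit 18627505679774460674047)) (T.h (P (nat_lit 0)) (P (nat_lit 13989289038413824)))) (T.h (P (nat_lit 0)) (M (nat_lit 27072688004661247))))))) (T.h (T.h (T.h (P (nat_lit 0)) (T.h (P (nat_lit 17611460680705609442525184)) (T.h (P (nat_lit 0)) (T.h (M (nat_lit 52364010794954784767)) (T.h (P (nat_lit 0)) (M (nat_lit 566833092047))))))) (T.h (P (nat_lit 0)) (T.h (T.h (P (nat_lit 0)) (T.h (P (nat_lit 84222312554686316544)) (T.h (P (nat_lit 0)) (P (nat_lit 1211514142800))))) (T.h (P (nat_lit 0)) (T.h (T.h (P (nat_lit 0)) (M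 (nat_lit 6838868425343))) (P (nat_lit 0))))))) (T.h (T.h (P (nat_lit 0)) (T.h (T.h (P (nat_lit 1433587608546099331072)) (T.h (P (nat_lit 0)) (P (nat_lit 12816768228065280)))) (T.h (P (nat_lit 0)) (P (nat_lit 13989289038413824))))) (T.h (T.h (T.h (P (nat_lit 0)) (T.h (M (nat_lit 52364010794954784767)) (T.h (P (nat_lit 0)) (M (nat_lit 12245643847967))))) (T.h (P (nat_lit 0)) (T.h (T.h (P (nat_lit 0)) (P (nat_lit 1211514142800))) (P (nat_lit 0))))) (T.h (T.h (P (nat_lit 0)) (P (nat_lit 34185777267245056))) (T.h (T.h (T.h (P (nat_lit 0)) (M (nat_lit 566833092047))) (P (nat_lit 0))) (P (nat_lit 0)))))))), (T.h (T.h (P (nat_lit 0)) (T.h (T.h (P (nat_lit 0)) (T.h (P (nat_lit 7858349407269454602043392)) (T.h (P (nat_lit 0)) (P (nat_lit 59872406056204238848))))) (T.h (P (nat_lit 0)) (T.h (T.h (P (nat_lit 0)) (P (nat_lit 59872406056204238848))) (P (nat_lit 0)))))) (T.h (T.h (T.h (P (nat_lit 11386109411402279864340840448)) (T.h (P (nat_lit 0)) (T.h (M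 (nat_lit 3797065615410485788671)) (T.h (P (nat_lit 0)) (M (nat_lit 3934493346447359)))))) (T.h (P (nat_lit 0)) (T.h (T.h (M (nat_lit 3797065615410485788671)) (T.h (P (nat_lit 0)) (M (nat_lit 39413718720413695)))) (T.h (P (nat_lit 0)) (M (nat_lit 3934493346447359)))))) (T.h (T.h (P (nat_lit 0)) (T.h (T.h (P (nat_lit 0)) (M (nat_lit 37574576478588239871))) (P (nat_lit 0)))) (T.h (T.h (T.h (M (nat_lit 17816978978999849975807)) (T.h (P (nat_lit 0)) (P (nat_lit 55595200717504512)))) (T.h (P (nat_lit 0)) (P (nat_lit 55595200717504512)))) (T.h (P (nat_lit 0)) (M (nat_lit 25065533473652735))))))), (T.h (T.h (T.h (P (nat_lit 0)) (T.h (P (nat_lit 1778255715518571166740512768)) (T.h (P (nat_lit 0)) (T.h (M (nat_lit 2675285868908208193535)) (T.h (P (nat_lit 0)) (M (nat_lit 718546660458495))))))) (T.h (P (nat_lit 0)) (T.h (T.h (P (nat_lit 0)) (T.h (M (nat_lit 14394901155530508599295)) (T.h (P (nat_lit 0)) (P (nat_lit 1914496518979584))))) (T.h (P (nat_lit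 0)) (T.h (T.h (P (nat_lit 0)) (M (nat_lit 1554501961842687))) (P (nat_lit 0))))))) (T.h (T.h (P (nat_lit 0)) (T.h (T.h (P (nat_lit 3338570172647465308651520)) (T.h (P (nat_lit 0)) (T.h (P (nat_lit 18554454786258763776)) (T.h (P (nat_lit 0)) (M (nat_lit 2698550200207)))))) (T.h (P (nat_lit 0)) (T.h (T.h (M (nat_lit 7064002092364464127)) (T.h (P (nat_lit 0)) (P (nat_lit 3184203260176)))) (T.h (P (nat_lit 0)) (M (nat_lit 5798274923559))))))) (T.h (T.h (T.h (P (nat_lit 0)) (T.h (M (nat_lit 17499995407311075016703)) (T.h (P (nat_lit 0)) (M (nat_lit 17958459313225727))))) (T.h (P (nat_lit 0)) (T.h (T.h (P (nat_lit 0)) (P (nat_lit 26745412347199488))) (P (nat_lit 0))))) (T.h (T.h (P (nat_lit 0)) (T.h (T.h (P (nat_lit 10764987692249776128)) (T.h (P (nat_lit 0)) (M (nat_lit 4207983872431)))) (T.h (P (nat_lit 0)) (P (nat_lit 11217075281216))))) (T.h (T.h (T.h (P (nat_lit 0)) (P (nat_lit 3285043163660288))) (P (nat_lit 0))) (T.h (T.h (P (nat_lit 0)) (M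 (nat_lit 2939598358151))) (P (nat_lit 0)))))))), (T.h (T.h (T.h (P (nat_lit 9532113103949875524296396242944)) (T.h (P (nat_lit 0)) (T.h (M (nat_lit 5822015326319091937968127)) (T.h (P (nat_lit 0)) (T.h (M (nat_lit 8903747042262646783)) (T.h (P (nat_lit 0)) (M (nat_lit 2135898518655)))))))) (T.h (P (nat_lit 0)) (T.h (T.h (M (nat_lit 3988164356882201506217983)) (T.h (P (nat_lit 0)) (T.h (P (nat_lit 2322674579165675520)) (T.h (P (nat_lit 0)) (M (nat_lit 5131028078175)))))) (T.h (P (nat_lit 0)) (T.h (T.h (P (nat_lit 3867644409403146240)) (T.h (P (nat_lit 0)) (P (nat_lit 66173550912)))) (T.h (P (nat_lit 0)) (M (nat_lit 4494899552751)))))))) (T.h (T.h (P (nat_lit 0)) (T.h (T.h (P (nat_lit 0)) (T.h (M (nat_lit 11273622562630300336127)) (T.h (P (nat_lit 0)) (P (nat_lit 76325036144197632))))) (T.h (P (nat_lit 0)) (T.h (T.h (P (nat_lit 0)) (M (nat_lit 28669640327397375))) (P (nat_lit 0)))))) (T.h (T.h (T.h (P (nat_lit 3032100729163460762402816)) (T.h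 (P (nat_lit 0)) (T.h (P (nat_lit 37294152127986270208)) (T.h (P (nat_lit 0)) (M (nat_lit 2689076313615)))))) (T.h (P (nat_lit 0)) (T.h (T.h (M (nat_lit 57813725855048794111)) (T.h (P (nat_lit 0)) (P (nat_lit 8548507008608)))) (T.h (P (nat_lit 0)) (P (nat_lit 18872188738032)))))) (T.h (T.h (P (nat_lit 0)) (T.h (T.h (P (nat_lit 0)) (P (nat_lit 4062213188222976))) (P (nat_lit 0)))) (T.h (T.h (T.h (P (nat_lit 28767898205744529408)) (T.h (P (nat_lit 0)) (P (nat_lit 15481464103056)))) (T.h (P (nat_lit 0)) (P (nat_lit 7861092761200)))) (T.h (P (nat_lit 0)) (M (nat_lit 6454986133007))))))))]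
def lP12_18 : List (T ℤ) := [(T.h (T.h (T.h (P (nat_lit 0)) (T.h (M (nat_lit 24556072986798921191516012543)) (T.h (P (nat_lit 0)) (T.h (M (nat_lit 13721056066817709047807)) (T.h (P (nat_lit 0)) (M (nat_lit 12786125555204095))))))) (T.h (P (nat_lit 0)) (T.h (T.h (P (nat_lit 0)) (T.h (M (nat_lit 4980996676142313242623)) (T.h (P (nat_lit 0)) (P (nat_lit 48486625826766848))))) (T.h (P (nat_lit 0)) (T.h (T.h (P (nat_lit 0)) (M (nat_lit 39498243636592639))) (P (nat_lit 0))))))) (T.h (T.h (P (nat_lit 0)) (T.h (T.h (P (nat_lit 34219577505904261729353728)) (T.h (P (nat_lit 0)) (T.h (M (nat_lit 220930338352237903871)) (T.h (P (nat_lit 0)) (P (nat_lit 1483797581376)))))) (T.h (P (nat_lit 0)) (T.h (T.h (P (nat_lit 62491710756640260096)) (T.h (P (nat_lit 0)) (P (nat_lit 25587277519872)))) (T.h (P (nat_lit 0)) (P (nat_lit 37160142996432))))))) (T.h (T.h (T.h (P (nat_lit 0)) (T.h (M (nat_lit 18238095826908243558399)) (T.h (P (nat_lit 0)) (P (nat_lit 43601158870171648)))))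 (T.h (P (nat_lit 0)) (T.h (T.h (P (nat_lit 0)) (M (nat_lit 24734882115387391))) (P (nat_lit 0))))) (T.h (T.h (P (nat_lit 0)) (T.h (T.h (M (nat_lit 101785428458033119231)) (T.h (P (nat_lit 0)) (M (nat_lit 12048870166367)))) (T.h (P (nat_lit 0)) (M (nat_lit 15194470148207))))) (T.h (T.h (T.h (P (nat_lit 0)) (P (nat_lit 10739564299747328))) (P (nat_lit 0))) (T.h (T.h (P (nat_lit 0)) (P (nat_lit 16720912128480))) (P (nat_lit 0)))))))), (T.h (T.h (T.h (M (nat_lit 2965995001898959740632314150911)) (T.h (P (nat_lit 0)) (T.h (P (nat_lit 5139392947130120844345344)) (T.h (P (nat_lit 0)) (P (nat_lit 36995800222106910720)))))) (T.h (P (nat_lit 0)) (T.h (T.h (P (nat_lit 40921446729443515786330112)) (T.h (P (nat_lit 0)) (P (nat_lit 5754790540310740992)))) (T.h (P (nat_lit 0)) (P (nat_lit 61716191199897845760)))))) (T.h (T.h (P (nat_lit 0)) (T.h (T.h (P (nat_lit 0)) (T.h (P (nat_lit 46242827737220222287872)) (T.h (P (nat_lit 0)) (P (nat_lit 5372423414317056)))))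 (T.h (P (nat_lit 0)) (T.h (T.h (P (nat_lit 0)) (M (nat_lit 25597827883728895))) (P (nat_lit 0)))))) (T.h (T.h (T.h (P (nat_lit 5139392947130120844345344)) (T.h (P (nat_lit 0)) (M (nat_lit 74560750045622173695)))) (T.h (P (nat_lit 0)) (P (nat_lit 5754790540310740992)))) (T.h (T.h (P (nat_lit 0)) (T.h (T.h (P (nat_lit 0)) (P (nat_lit 5372423414317056))) (P (nat_lit 0)))) (P (nat_lit 36995800222106910720)))))), (P (nat_lit 0)), (T.h (T.h (P (nat_lit 0)) (T.h (T.h (P (nat_lit 4603839004082732782111948800)) (T.h (P (nat_lit 0)) (T.h (P (nat_lit 14294575167020482953216)) (T.h (P (nat_lit 0)) (M (nat_lit 4070874150305791)))))) (T.h (P (nat_lit 0)) (T.h (T.h (M (nat_lit 451937267142675660799)) (T.h (P (nat_lit 0)) (M (nat_lit 17089846118907903)))) (T.h (P (nat_lit 0)) (P (nat_lit 9716097229586432))))))) (T.h (T.h (T.h (P (nat_lit 0)) (T.h (M (nat_lit 6596670900851402304651263)) (T.h (P (nat_lit 0)) (T.h (M (nat_lit 4921241330123800575)) (T.h (P (nat_lit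 0)) (M (nat_lit 9164603746943))))))) (T.h (P (nat_lit 0)) (T.h (T.h (P (nat_lit 0)) (T.h (M (nat_lit 39250634255368191)) (T.h (P (nat_lit 0)) (P (nat_lit 31647341982192))))) (T.h (P (nat_lit 0)) (T.h (T.h (P (nat_lit 0)) (M (nat_lit 1128251633855))) (P (nat_lit 0))))))) (T.h (T.h (P (nat_lit 0)) (T.h (T.h (P (nat_lit 28647703300755549061120)) (T.h (P (nat_lit 0)) (M (nat_lit 4952338308300799)))) (T.h (P (nat_lit 0)) (M (nat_lit 16800158102618111))))) (T.h (T.h (T.h (P (nat_lit 0)) (T.h (P (nat_lit 19514475805688201216)) (T.h (P (nat_lit 0)) (P (nat_lit 7971373389648))))) (T.h (P (nat_lit 0)) (T.h (T.h (P (nat_lit 0)) (P (nat_lit 25102801519776))) (P (nat_lit 0))))) (T.h (T.h (P (nat_lit 0)) (P (nat_lit 27870905071534080))) (T.h (T.h (T.h (P (nat_lit 0)) (M (nat_lit 5108631799679))) (P (nat_lit 0))) (P (nat_lit 0)))))))), (T.h (T.h (P (nat_lit 0)) (T.h (T.h (P (nat_lit 0)) (T.h (M (nat_lit 12660772485101187447652351)) (T.h (P (nat_lit 0)) (M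 (nat_lit 35855661794571845631))))) (T.h (P (nat_lit 0)) (T.h (T.h (P (nat_lit 0)) (P (nat_lit 112093646349093830656))) (P (nat_lit 0)))))) (T.h (T.h (T.h (P (nat_lit 3057717378853825663268290560)) (T.h (P (nat_lit 0)) (T.h (P (nat_lit 8447562600720023683072)) (T.h (P (nat_lit 0)) (P (nat_lit 19241456788209664)))))) (T.h (P (nat_lit 0)) (T.h (T.h (M (nat_lit 34371714572181032665087)) (T.h (P (nat_lit 0)) (M (nat_lit 79412148893564927)))) (T.h (P (nat_lit 0)) (M (nat_lit 72177182128979967)))))) (T.h (T.h (P (nat_lit 0)) (T.h (T.h (P (nat_lit 0)) (M (nat_lit 45047154406338854911))) (P (nat_lit 0)))) (T.h (T.h (T.h (P (nat_lit 1780258074724053024768)) (T.h (P (nat_lit 0)) (P (nat_lit 4163999934857216)))) (T.h (P (nat_lit 0)) (M (nat_lit 6497396134756351)))) (T.h (P (nat_lit 0)) (P (nat_lit 4763365724028928))))))), (P (nat_lit 0)), (T.h (T.h (T.h (M (nat_lit 1410570906212094888288156909567)) (T.h (P (nat_lit 0)) (T.h (P (nat_lit 9092474658105973488484352))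 (T.h (P (nat_lit 0)) (P (nat_lit 6450639816894709760)))))) (T.h (P (nat_lit 0)) (T.h (T.h (P (nat_lit 736332230657898056777728)) (T.h (P (nat_lit 0)) (P (nat_lit 9901124243519700992)))) (T.h (P (nat_lit 0)) (M (nat_lit 8275653059435036671)))))) (T.h (T.h (P (nat_lit 0)) (T.h (T.h (P (nat_lit 0)) (T.h (P (nat_lit 25522296248950983753728)) (T.h (P (nat_lit 0)) (M (nat_lit 20145895602651135))))) (T.h (P (nat_lit 0)) (T.h (T.h (P (nat_lit 0)) (M (nat_lit 8426976565428223))) (P (nat_lit 0)))))) (T.h (T.h (T.h (M (nat_lit 2713202957367080711618559)) (T.h (P (nat_lit 0)) (P (nat_lit 2049630866191155200)))) (T.h (P (nat_lit 0)) (M (nat_lit 12443088561886986239)))) (T.h (T.h (P (nat_lit 0)) (T.h (T.h (P (nat_lit 0)) (M (nat_lit 16959839353831423))) (P (nat_lit 0)))) (M (nat_lit 20438749490257592319)))))), (P (nat_lit 0))]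
def lP12_19 : List (T ℤ) := [(P (nat_lit 0)), (P (nat_lit 0)), (P (nat_lit 0)), (T.h (T.h (T.h (M (nat_lit 1007221268978411166551664230399)) (T.h (P (nat_lit 0)) (T.h (P (nat_lit 7593625745013188629364736)) (T.h (P (nat_lit 0)) (T.h (M (nat_lit 6741914360572018687)) (T.h (P (nat_lit 0)) (P (nat_lit 1997682262888)))))))) (T.h (P (nat_lit 0)) (T.h (T.h (P (nat_lit 1646295968881660760424448)) (T.h (P (nat_lit 0)) (T.h (P (nat_lit 20004478993695768576)) (T.h (P (nat_lit 0)) (P (nat_lit 10572604232752)))))) (T.h (P (nat_lit 0)) (T.h (T.h (P (nat_lit 3969144862913069056)) (T.h (P (nat_lit 0)) (P (nat_lit 387852908808)))) (T.h (P (nat_lit 0)) (M (nat_lit 601849142919)))))))) (T.h (T.h (P (nat_lit 0)) (T.h (T.h (P (nat_lit 0)) (T.h (M (nat_lit 9488147317601956003839)) (T.h (P (nat_lit 0)) (P (nat_lit 13474633507799040))))) (T.h (P (nat_lit 0)) (T.h (T.h (P (nat_lit 0)) (M (nat_lit 2883204816699391))) (P (nat_lit 0)))))) (T.h (T.h (T.h (P (nat_lit 9829785734883881454141440))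 (T.h (P (nat_lit 0)) (T.h (M (nat_lit 40064023006776655871)) (T.h (P (nat_lit 0)) (M (nat_lit 276664645383)))))) (T.h (P (nat_lit 0)) (T.h (T.h (P (nat_lit 50559450639528624128)) (T.h (P (nat_lit 0)) (P (nat_lit 2293195138104)))) (T.h (P (nat_lit 0)) (P (nat_lit 5478923227968)))))) (T.h (T.h (P (nat_lit 0)) (T.h (T.h (P (nat_lit 0)) (P (nat_lit 22284079390687232))) (P (nat_lit 0)))) (T.h (T.h (T.h (M (nat_lit 1574127376307060735)) (T.h (P (nat_lit 0)) (P (nat_lit 8428242068192)))) (T.h (P (nat_lit 0)) (P (nat_lit 1162592684792)))) (T.h (P (nat_lit 0)) (M (nat_lit 2321410375719)))))))), (P (nat_lit 0)), (P (nat_lit 0)), (P (nat_lit 0)), (P (nat_lit 0))]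
def lP12_20 : List (T ℤ) := [(P (nat_lit 0)), (T.h (T.h (P (nat_lit 0)) (T.h (T.h (P (nat_lit 532858792078950653260464128)) (T.h (P (nat_lit 0)) (T.h (P (nat_lit 3321691345876869447680)) (T.h (P (nat_lit 0)) (P (nat_lit 2725830294568960)))))) (T.h (P (nat_lit 0)) (T.h (T.h (M (nat_lit 3075121913902334476287)) (T.h (P (nat_lit 0)) (P (nat_lit 15163554349252608)))) (T.h (P (nat_lit 0)) (M (nat_lit 1221575086440447))))))) (T.h (T.h (T.h (P (nat_lit 0)) (T.h (P (nat_lit 8717922922079423085674496)) (T.h (P (nat_lit 0)) (T.h (M (nat_lit 193192647643365375)) (T.h (P (nat_lit 0)) (M (nat_lit 424261102751))))))) (T.h (P (nat_lit 0)) (T.h (T.h (P (nat_lit 0)) (T.h (P (nat_lit 10942545611232116736)) (T.h (P (nat_lit 0)) (M (nat_lit 172863613551))))) (T.h (P (nat_lit 0)) (T.h (T.h (P (nat_lit 0)) (P (nat_lit 3166704741056))) (P (nat_lit 0))))))) (T.h (T.h (P (nat_lit 0)) (T.h (T.h (M (nat_lit 4144768062586427015167)) (T.h (P (nat_lit 0)) (P (nat_lit 15787150469627904))))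 (T.h (P (nat_lit 0)) (M (nat_lit 14061861106614271))))) (T.h (T.h (T.h (P (nat_lit 0)) (T.h (P (nat_lit 6521691154386255872)) (T.h (P (nat_lit 0)) (P (nat_lit 3373397582576))))) (T.h (P (nat_lit 0)) (T.h (T.h (P (nat_lit 0)) (M (nat_lit 9748205673263))) (P (nat_lit 0))))) (T.h (T.h (P (nat_lit 0)) (P (nat_lit 10195113124757504))) (T.h (T.h (T.h (P (nat_lit 0)) (M (nat_lit 5165935566879))) (P (nat_lit 0))) (P (nat_lit 0)))))))), (T.h (T.h (P (nat_lit 0)) (T.h (T.h (P (nat_lit 0)) (T.h (M (nat_lit 7437737645360027829010431)) (T.h (P (nat_lit 0)) (T.h (M (nat_lit 49434298540313542655)) (T.h (P (nat_lit 0)) (P (nat_lit 17555864017328))))))) (T.h (P (nat_lit 0)) (T.h (T.h (P (nat_lit 0)) (T.h (M (nat_lit 44885679274991812607)) (T.h (P (nat_lit 0)) (M (nat_lit 6074054916127))))) (T.h (P (nat_lit 0)) (T.h (T.h (P (nat_lit 0)) (M (nat_lit 1293954085247))) (P (nat_lit 0)))))))) (T.h (T.h (T.h (M (nat_lit 19776307873323938368945389567)) (T.h (P (nat_lit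 0)) (T.h (P (nat_lit 60401292675386500448256)) (T.h (P (nat_lit 0)) (M (nat_lit 16912321074757631)))))) (T.h (P (nat_lit 0)) (T.h (T.h (M (nat_lit 58299494447454372233215)) (T.h (P (nat_lit 0)) (P (nat_lit 22224880496345088)))) (T.h (P (nat_lit 0)) (M (nat_lit 4267352017633279)))))) (T.h (T.h (P (nat_lit 0)) (T.h (T.h (P (nat_lit 0)) (T.h (M (nat_lit 65756622386620268543)) (T.h (P (nat_lit 0)) (P (nat_lit 14315390311488))))) (T.h (P (nat_lit 0)) (T.h (T.h (P (nat_lit 0)) (P (nat_lit 8807272211760))) (P (nat_lit 0)))))) (T.h (T.h (T.h (M (nat_lit 15868021615043096346623)) (T.h (P (nat_lit 0)) (M (nat_lit 12944120348573695)))) (T.h (P (nat_lit 0)) (M (nat_lit 13147016251670527)))) (T.h (T.h (P (nat_lit 0)) (T.h (T.h (P (nat_lit 0)) (P (nat_lit 34432476763888))) (P (nat_lit 0)))) (M (nat_lit 253066643767295))))))), (T.h (T.h (P (nat_lit 0)) (T.h (T.h (P (nat_lit 17277169826230395563407310848)) (T.h (P (nat_lit 0)) (T.h (M (nat_lit 14429612615023850422271))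 (T.h (P (nat_lit 0)) (M (nat_lit 46231065526583295)))))) (T.h (P (nat_lit 0)) (T.h (T.h (P (nat_lit 37722972093317176623104)) (T.h (P (nat_lit 0)) (P (nat_lit 8313373331783680)))) (T.h (P (nat_lit 0)) (P (nat_lit 2839043910631424))))))) (T.h (T.h (T.h (P (nat_lit 0)) (T.h (M (nat_lit 26202266726833330004688895)) (T.h (P (nat_lit 0)) (T.h (M (nat_lit 32857965433267945471)) (T.h (P (nat_lit 0)) (P (nat_lit 8063023529120))))))) (T.h (P (nat_lit 0)) (T.h (T.h (P (nat_lit 0)) (T.h (P (nat_lit 4720523903133286400)) (T.h (P (nat_lit 0)) (M (nat_lit 2419356147151))))) (T.h (P (nat_lit 0)) (T.h (T.h (P (nat_lit 0)) (M (nat_lit 14170135667743))) (P (nat_lit 0))))))) (T.h (T.h (P (nat_lit 0)) (T.h (T.h (M (nat_lit 14429612615023850422271)) (T.h (P (nat_lit 0)) (M (nat_lit 33472934269550591)))) (T.h (P (nat_lit 0)) (P (nat_lit 8313373331783680))))) (T.h (T.h (T.h (P (nat_lit 0)) (T.h (M (nat_lit 32857965433267945471)) (T.h (P (nat_lit 0)) (P (nat_lit 2263527959616)))))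 (T.h (P (nat_lit 0)) (T.h (T.h (P (nat_lit 0)) (M (nat_lit 2419356147151))) (P (nat_lit 0))))) (T.h (T.h (P (nat_lit 0)) (M (nat_lit 46231065526583295))) (T.h (T.h (T.h (P (nat_lit 0)) (P (nat_lit 8063023529120))) (P (nat_lit 0))) (P (nat_lit 0)))))))), (T.h (T.h (P (nat_lit 0)) (T.h (T.h (P (nat_lit 0)) (T.h (M (nat_lit 1272398404344883965853695)) (T.h (P (nat_lit 0)) (T.h (P (nat_lit 23443956208744005632)) (T.h (P (nat_lit 0)) (M (nat_lit 14177834618447))))))) (T.h (P (nat_lit 0)) (T.h (T.h (P (nat_lit 0)) (T.h (M (nat_lit 3420608005706612735)) (T.h (P (nat_lit 0)) (P (nat_lit 11034664166160))))) (T.h (P (nat_lit 0)) (T.h (T.h (P (nat_lit 0)) (P (nat_lit 2356823042256))) (P (nat_lit 0)))))))) (T.h (T.h (T.h (P (nat_lit 5843117400767520869254692864)) (T.h (P (nat_lit 0)) (T.h (P (nat_lit 6132280081596855353344)) (T.h (P (nat_lit 0)) (M (nat_lit 17608652528943103)))))) (T.h (P (nat_lit 0)) (T.h (T.h (M (nat_lit 8661948646476979634175)) (T.h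 (P (nat_lit 0)) (P (nat_lit 7274545497210880)))) (T.h (P (nat_lit 0)) (P (nat_lit 474231768350720)))))) (T.h (T.h (P (nat_lit 0)) (T.h (T.h (P (nat_lit 0)) (T.h (P (nat_lit 34232820611900506112)) (T.h (P (nat_lit 0)) (P (nat_lit 17952904070928))))) (T.h (P (nat_lit 0)) (T.h (T.h (P (nat_lit 0)) (M (nat_lit 19566681743567))) (P (nat_lit 0)))))) (T.h (T.h (T.h (P (nat_lit 6400777624819452608512)) (T.h (P (nat_lit 0)) (M (nat_lit 10186063040872447)))) (T.h (P (nat_lit 0)) (M (nat_lit 24023268860002303)))) (T.h (T.h (P (nat_lit 0)) (T.h (T.h (P (nat_lit 0)) (M (nat_lit 26139770321999))) (P (nat_lit 0)))) (P (nat_lit 17475433437396992))))))), (T.h (T.h (P (nat_lit 0)) (T.h (T.h (M (nat_lit 9444388680319584730748026879)) (T.h (P (nat_lit 0)) (T.h (P (nat_lit 30742105541402773422080)) (T.h (P (nat_lit 0)) (P (nat_lit 24581947639840768)))))) (T.h (P (nat_lit 0)) (T.h (T.h (M (nat_lit 11887339130370524184575)) (T.h (P (nat_lit 0)) (M (nat_lit 22101788836069375))))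 (T.h (P (nat_lit 0)) (P (nat_lit 2323722480533504))))))) (T.h (T.h (T.h (P (nat_lit 0)) (T.h (P (nat_lit 10198635777548292081057792)) (T.h (P (nat_lit 0)) (M (nat_lit 10587787297082572799))))) (T.h (P (nat_lit 0)) (T.h (T.h (P (nat_lit 0)) (M (nat_lit 9004690242220851199))) (P (nat_lit 0))))) (T.h (T.h (P (nat_lit 0)) (T.h (T.h (P (nat_lit 4498893292917248491520)) (T.h (P (nat_lit 0)) (M (nat_lit 44089042524880895)))) (T.h (P (nat_lit 0)) (M (nat_lit 1483925649195007))))) (T.h (T.h (T.h (P (nat_lit 0)) (M (nat_lit 44064355139457122303))) (P (nat_lit 0))) (T.h (T.h (P (nat_lit 0)) (P (nat_lit 17641106541363200))) (P (nat_lit 0))))))), (P (nat_lit 0)), (T.h (T.h (T.h (P (nat_lit 0)) (T.h (P (nat_lit 532858792078950653260464128)) (T.h (P (nat_lit 0)) (T.h (M (nat_lit 3075121913902334476287)) (T.h (P (nat_lit 0)) (M (nat_lit 1221575086440447))))))) (T.h (P (nat_lit 0)) (T.h (T.h (P (nat_lit 0)) (T.h (P (nat_lit 3321691345876869447680)) (T.h (P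 (nat_lit 0)) (P (nat_lit 15163554349252608))))) (T.h (P (nat_lit 0)) (T.h (T.h (P (nat_lit 0)) (P (nat_lit 2725830294568960))) (P (nat_lit 0))))))) (T.h (T.h (P (nat_lit 0)) (T.h (T.h (P (nat_lit 8717922922079423085674496)) (T.h (P (nat_lit 0)) (T.h (P (nat_lit 10942545611232116736)) (T.h (P (nat_lit 0)) (P (nat_lit 3166704741056)))))) (T.h (P (nat_lit 0)) (T.h (T.h (M (nat_lit 193192647643365375)) (T.h (P (nat_lit 0)) (M (nat_lit 172863613551)))) (T.h (P (nat_lit 0)) (M (nat_lit 424261102751))))))) (T.h (T.h (T.h (P (nat_lit 0)) (T.h (M (nat_lit 4144768062586427015167)) (T.h (P (nat_lit 0)) (M (nat_lit 14061861106614271))))) (T.h (P (nat_lit 0)) (T.h (T.h (P (nat_lit 0)) (P (nat_lit 15787150469627904))) (P (nat_lit 0))))) (T.h (T.h (P (nat_lit 0)) (T.h (T.h (P (nat_lit 6521691154386255872)) (T.h (P (nat_lit 0)) (M (nat_lit 9748205673263)))) (T.h (P (nat_lit 0)) (P (nat_lit 3373397582576))))) (T.h (T.h (T.h (P (nat_lit 0)) (P (nat_lit 10195113124757504)))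 (P (nat_lit 0))) (T.h (T.h (P (nat_lit 0)) (M (nat_lit 5165935566879))) (P (nat_lit 0))))))))]
def lP12_21 : List (T ℤ) := [(T.h (T.h (T.h (P (nat_lit 321752433460157066446465138688)) (T.h (P (nat_lit 0)) (T.h (M (nat_lit 11274405497693706326638591)) (T.h (P (nat_lit 0)) (T.h (M (nat_lit 11829934905125502975)) (T.h (P (nat_lit 0)) (M (nat_lit 9529717606847)))))))) (T.h (P (nat_lit 0)) (T.h (T.h (M (nat_lit 11274405497693706326638591)) (T.h (P (nat_lit 0)) (T.h (M (nat_lit 63839158149685706751)) (T.h (P (nat_lit 0)) (P (nat_lit 3214140515912)))))) (T.h (P (nat_lit 0)) (T.h (T.h (M (nat_lit 11829934905125502975)) (T.h (P (nat_lit 0)) (P (nat_lit 3214140515912)))) (T.h (P (nat_lit 0)) (M (nat_lit 9529717606847)))))))) (T.h (T.h (P (nat_lit 0)) (T.h (T.h (P (nat_lit 0)) (T.h (P (nat_lit 203220486223509231501312)) (T.h (P (nat_lit 0)) (P (nat_lit 1933058090532864))))) (T.h (P (nat_lit 0)) (T.h (T.h (P (nat_lit 0)) (P (nat_lit 1933058090532864)))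 (P (nat_lit 0)))))) (T.h (T.h (T.h (P (nat_lit 16567049509002977264795648)) (T.h (P (nat_lit 0)) (T.h (P (nat_lit 47258417169042505728)) (T.h (P (nat_lit 0)) (P (nat_lit 5025219706344)))))) (T.h (P (nat_lit 0)) (T.h (T.h (P (nat_lit 47258417169042505728)) (T.h (P (nat_lit 0)) (M (nat_lit 35851840603471)))) (T.h (P (nat_lit 0)) (P (nat_lit 5025219706344)))))) (T.h (T.h (P (nat_lit 0)) (T.h (T.h (P (nat_lit 0)) (M (nat_lit 222805796915314687))) (P (nat_lit 0)))) (T.h (T.h (T.h (P (nat_lit 12373885409959084032)) (T.h (P (nat_lit 0)) (M (nat_lit 26200175434343)))) (T.h (P (nat_lit 0)) (M (nat_lit 26200175434343)))) (T.h (P (nat_lit 0)) (P (nat_lit 7717020204064)))))))), (T.h (T.h (T.h (P (nat_lit 0)) (T.h (M (nat_lit 10269116897705586050811822079)) (T.h (P (nat_lit 0)) (T.h (M (nat_lit 19423582445904722919423)) (T.h (P (nat_lit 0)) (M (nat_lit 11424268652298239))))))) (T.h (P (nat_lit 0)) (T.h (T.h (P (nat_lit 0)) (T.h (M (nat_lit 40814377494051408576511))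 (T.h (P (nat_lit 0)) (M (nat_lit 23241107784351743))))) (T.h (P (nat_lit 0)) (T.h (T.h (P (nat_lit 0)) (P (nat_lit 7631175466680320))) (P (nat_lit 0))))))) (T.h (T.h (P (nat_lit 0)) (T.h (T.h (M (nat_lit 3140540335287327520718847)) (T.h (P (nat_lit 0)) (T.h (P (nat_lit 2740331464292827136)) (T.h (P (nat_lit 0)) (M (nat_lit 71336986172927)))))) (T.h (P (nat_lit 0)) (T.h (T.h (M (nat_lit 19618220207543156735)) (T.h (P (nat_lit 0)) (M (nat_lit 13156209311727)))) (T.h (P (nat_lit 0)) (M (nat_lit 12153382404239))))))) (T.h (T.h (T.h (P (nat_lit 0)) (T.h (M (nat_lit 11752904389286648872959)) (T.h (P (nat_lit 0)) (P (nat_lit 48900044698517504))))) (T.h (P (nat_lit 0)) (T.h (T.h (P (nat_lit 0)) (P (nat_lit 84186931744751616))) (P (nat_lit 0))))) (T.h (T.h (P (nat_lit 0)) (T.h (T.h (M (nat_lit 1023186957825474559)) (T.h (P (nat_lit 0)) (M (nat_lit 13000870878351)))) (T.h (P (nat_lit 0)) (M (nat_lit 8063003288703))))) (T.h (T.h (T.h (P (nat_lit 0)) (P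 (nat_lit 64019304747630592))) (P (nat_lit 0))) (T.h (T.h (P (nat_lit 0)) (M (nat_lit 5632617450207))) (P (nat_lit 0)))))))), (T.h (T.h (T.h (P (nat_lit 1926289178347798091970222489600)) (T.h (P (nat_lit 0)) (T.h (M (nat_lit 2967819953213876012580863)) (T.h (P (nat_lit 0)) (T.h (P (nat_lit 6691717599643828224)) (T.h (P (nat_lit 0)) (M (nat_lit 905405486159)))))))) (T.h (P (nat_lit 0)) (T.h (T.h (P (nat_lit 2899700707510487674257408)) (T.h (P (nat_lit 0)) (T.h (M (nat_lit 60783134145811316735)) (T.h (P (nat_lit 0)) (P (nat_lit 10599934930752)))))) (T.h (P (nat_lit 0)) (T.h (T.h (P (nat_lit 6322290353244209152)) (T.h (P (nat_lit 0)) (M (nat_lit 31837786800239)))) (T.h (P (nat_lit 0)) (P (nat_lit 12427974380448)))))))) (T.h (T.h (P (nat_lit 0)) (T.h (T.h (P (nat_lit 0)) (T.h (M (nat_lit 101836983772912954638335)) (T.h (P (nat_lit 0)) (P (nat_lit 60655451073478656))))) (T.h (P (nat_lit 0)) (T.h (T.h (P (nat_lit 0)) (P (nat_lit 90898632649211904)))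 (P (nat_lit 0)))))) (T.h (T.h (T.h (M (nat_lit 2967819953213876012580863)) (T.h (P (nat_lit 0)) (T.h (P (nat_lit 1044491642330939392)) (T.h (P (nat_lit 0)) (P (nat_lit 25824793852896)))))) (T.h (P (nat_lit 0)) (T.h (T.h (M (nat_lit 60783134145811316735)) (T.h (P (nat_lit 0)) (P (nat_lit 54100397103456)))) (T.h (P (nat_lit 0)) (M (nat_lit 31837786800239)))))) (T.h (T.h (P (nat_lit 0)) (T.h (T.h (P (nat_lit 0)) (P (nat_lit 60655451073478656))) (P (nat_lit 0)))) (T.h (T.h (T.h (P (nat_lit 6691717599643828224)) (T.h (P (nat_lit 0)) (P (nat_lit 25824793852896)))) (T.h (P (nat_lit 0)) (P (nat_lit 10599934930752)))) (T.h (P (nat_lit 0)) (M (nat_lit 905405486159)))))))), (T.h (T.h (T.h (P (nat_lit 0)) (T.h (P (nat_lit 7898869424295032560457613312)) (T.h (P (nat_lit 0)) (T.h (M (nat_lit 25619508905965531430911)) (T.h (P (nat_lit 0)) (M (nat_lit 5990357490696191))))))) (T.h (P (nat_lit 0)) (T.h (T.h (P (nat_lit 0)) (T.h (P (nat_lit 66894456594855284965376))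 (T.h (P (nat_lit 0)) (M (nat_lit 34505731325050879))))) (T.h (P (nat_lit 0)) (T.h (T.h (P (nat_lit 0)) (P (nat_lit 17205814889070592))) (P (nat_lit 0))))))) (T.h (T.h (P (nat_lit 0)) (T.h (T.h (M (nat_lit 3808010078810433310949375)) (T.h (P (nat_lit 0)) (P (nat_lit 47737917958413877248)))) (T.h (P (nat_lit 0)) (M (nat_lit 39699916217686949887))))) (T.h (T.h (T.h (P (nat_lit 0)) (T.h (M (nat_lit 20518604022785385693183)) (T.h (P (nat_lit 0)) (M (nat_lit 25828239031599103))))) (T.h (P (nat_lit 0)) (T.h (T.h (P (nat_lit 0)) (M (nat_lit 4558212600184831))) (P (nat_lit 0))))) (T.h (T.h (P (nat_lit 0)) (P (nat_lit 7228349994594467840))) (T.h (T.h (T.h (P (nat_lit 0)) (M (nat_lit 37244374366273535))) (P (nat_lit 0))) (P (nat_lit 0))))))), (P (nat_lit 0)), (T.h (T.h (P (nat_lit 0)) (T.h (T.h (P (nat_lit 0)) (T.h (M (nat_lit 7437737645360027829010431)) (T.h (P (nat_lit 0)) (T.h (M (nat_lit 44885679274991812607)) (T.h (P (nat_lit 0)) (M (nat_lit 1293954085247)))))))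 (T.h (P (nat_lit 0)) (T.h (T.h (P (nat_lit 0)) (T.h (M (nat_lit 49434298540313542655)) (T.h (P (nat_lit 0)) (M (nat_lit 6074054916127))))) (T.h (P (nat_lit 0)) (T.h (T.h (P (nat_lit 0)) (P (nat_lit 17555864017328))) (P (nat_lit 0)))))))) (T.h (T.h (T.h (M (nat_lit 19776307873323938368945389567)) (T.h (P (nat_lit 0)) (T.h (M (nat_lit 58299494447454372233215)) (T.h (P (nat_lit 0)) (M (nat_lit 4267352017633279)))))) (T.h (P (nat_lit 0)) (T.h (T.h (P (nat_lit 60401292675386500448256)) (T.h (P (nat_lit 0)) (P (nat_lit 22224880496345088)))) (T.h (P (nat_lit 0)) (M (nat_lit 16912321074757631)))))) (T.h (T.h (P (nat_lit 0)) (T.h (T.h (P (nat_lit 0)) (T.h (M (nat_lit 65756622386620268543)) (T.h (P (nat_lit 0)) (P (nat_lit 8807272211760))))) (T.h (P (nat_lit 0)) (T.h (T.h (P (nat_lit 0)) (P (nat_lit 14315390311488))) (P (nat_lit 0)))))) (T.h (T.h (T.h (M (nat_lit 15868021615043096346623)) (T.h (P (nat_lit 0)) (M (nat_lit 13147016251670527)))) (T.h (P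 (nat_lit 0)) (M (nat_lit 12944120348573695)))) (T.h (T.h (P (nat_lit 0)) (T.h (T.h (P (nat_lit 0)) (P (nat_lit 34432476763888))) (P (nat_lit 0)))) (M (nat_lit 253066643767295))))))), (T.h (T.h (P (nat_lit 0)) (T.h (T.h (M (nat_lit 10269116897705586050811822079)) (T.h (P (nat_lit 0)) (T.h (M (nat_lit 40814377494051408576511)) (T.h (P (nat_lit 0)) (P (nat_lit 7631175466680320)))))) (T.h (P (nat_lit 0)) (T.h (T.h (M (nat_lit 19423582445904722919423)) (T.h (P (nat_lit 0)) (M (nat_lit 23241107784351743)))) (T.h (P (nat_lit 0)) (M (nat_lit 11424268652298239))))))) (T.h (T.h (T.h (P (nat_lit 0)) (T.h (M (nat_lit 3140540335287327520718847)) (T.h (P (nat_lit 0)) (T.h (M (nat_lit 19618220207543156735)) (T.h (P (nat_lit 0)) (M (nat_lit 12153382404239))))))) (T.h (P (nat_lit 0)) (T.h (T.h (P (nat_lit 0)) (T.h (P (nat_lit 2740331464292827136)) (T.h (P (nat_lit 0)) (M (nat_lit 13156209311727))))) (T.h (P (nat_lit 0)) (T.h (T.h (P (nat_lit 0)) (M (nat_lit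 71336986172927))) (P (nat_lit 0))))))) (T.h (T.h (P (nat_lit 0)) (T.h (T.h (M (nat_lit 11752904389286648872959)) (T.h (P (nat_lit 0)) (P (nat_lit 84186931744751616)))) (T.h (P (nat_lit 0)) (P (nat_lit 48900044698517504))))) (T.h (T.h (T.h (P (nat_lit 0)) (T.h (M (nat_lit 1023186957825474559)) (T.h (P (nat_lit 0)) (M (nat_lit 8063003288703))))) (T.h (P (nat_lit 0)) (T.h (T.h (P (nat_lit 0)) (M (nat_lit 13000870878351))) (P (nat_lit 0))))) (T.h (T.h (P (nat_lit 0)) (P (nat_lit 64019304747630592))) (T.h (T.h (T.h (P (nat_lit 0)) (M (nat_lit 5632617450207))) (P (nat_lit 0))) (P (nat_lit 0)))))))), (T.h (T.h (P (nat_lit 0)) (T.h (T.h (P (nat_lit 0)) (T.h (P (nat_lit 17611460680705609442525184)) (T.h (P (nat_lit 0)) (T.h (M (nat_lit 52364010794954784767)) (T.h (P (nat_lit 0)) (M (nat_lit 566833092047))))))) (T.h (P (nat_lit 0)) (T.h (T.h (P (nat_lit 0)) (T.h (M (nat_lit 52364010794954784767)) (T.h (P (nat_lit 0)) (M (nat_lit 12245643847967))))) (T.h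 (P (nat_lit 0)) (T.h (T.h (P (nat_lit 0)) (M (nat_lit 566833092047))) (P (nat_lit 0)))))))) (T.h (T.h (T.h (P (nat_lit 14866869712175847619430449152)) (T.h (P (nat_lit 0)) (T.h (P (nat_lit 1433587608546099331072)) (T.h (P (nat_lit 0)) (P (nat_lit 34185777267245056)))))) (T.h (P (nat_lit 0)) (T.h (T.h (P (nat_lit 1433587608546099331072)) (T.h (P (nat_lit 0)) (P (nat_lit 12816768228065280)))) (T.h (P (nat_lit 0)) (P (nat_lit 34185777267245056)))))) (T.h (T.h (P (nat_lit 0)) (T.h (T.h (P (nat_lit 0)) (T.h (P (nat_lit 84222312554686316544)) (T.h (P (nat_lit 0)) (P (nat_lit 1211514142800))))) (T.h (P (nat_lit 0)) (T.h (T.h (P (nat_lit 0)) (P (nat_lit 1211514142800))) (P (nat_lit 0)))))) (T.h (T.h (T.h (M (nat_lit 18627505679774460674047)) (T.h (P (nat_lit 0)) (P (nat_lit 13989289038413824)))) (T.h (P (nat_lit 0)) (P (nat_lit 13989289038413824)))) (T.h (T.h (P (nat_lit 0)) (T.h (T.h (P (nat_lit 0)) (M (nat_lit 6838868425343))) (P (nat_lit 0)))) (M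 (nat_lit 27072688004661247)))))))]
def lP12_22 : List (T ℤ) := [(T.h (T.h (P (nat_lit 0)) (T.h (T.h (P (nat_lit 11386109411402279864340840448)) (T.h (P (nat_lit 0)) (T.h (M (nat_lit 3797065615410485788671)) (T.h (P (nat_lit 0)) (M (nat_lit 3934493346447359)))))) (T.h (P (nat_lit 0)) (T.h (T.h (M (nat_lit 17816978978999849975807)) (T.h (P (nat_lit 0)) (P (nat_lit 55595200717504512)))) (T.h (P (nat_lit 0)) (M (nat_lit 25065533473652735))))))) (T.h (T.h (T.h (P (nat_lit 0)) (T.h (P (nat_lit 7858349407269454602043392)) (T.h (P (nat_lit 0)) (P (nat_lit 59872406056204238848))))) (T.h (P (nat_lit 0)) (T.h (T.h (P (nat_lit 0)) (M (nat_lit 37574576478588239871))) (P (nat_lit 0))))) (T.h (T.h (P (nat_lit 0)) (T.h (T.h (M (nat_lit 3797065615410485788671)) (T.h (P (nat_lit 0)) (M (nat_lit 39413718720413695)))) (T.h (P (nat_lit 0)) (P (nat_lit 55595200717504512))))) (T.h (T.h (T.h (P (nat_lit 0)) (P (nat_lit 59872406056204238848))) (P (nat_lit 0))) (T.h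 (T.h (P (nat_lit 0)) (M (nat_lit 3934493346447359))) (P (nat_lit 0))))))), (T.h (T.h (T.h (M (nat_lit 1007221268978411166551664230399)) (T.h (P (nat_lit 0)) (T.h (P (nat_lit 1646295968881660760424448)) (T.h (P (nat_lit 0)) (T.h (P (nat_lit 3969144862913069056)) (T.h (P (nat_lit 0)) (M (nat_lit 601849142919)))))))) (T.h (P (nat_lit 0)) (T.h (T.h (P (nat_lit 7593625745013188629364736)) (T.h (P (nat_lit 0)) (T.h (P (nat_lit 20004478993695768576)) (T.h (P (nat_lit 0)) (P (nat_lit 387852908808)))))) (T.h (P (nat_lit 0)) (T.h (T.h (M (nat_lit 6741914360572018687)) (T.h (P (nat_lit 0)) (P (nat_lit 10572604232752)))) (T.h (P (nat_lit 0)) (P (nat_lit 1997682262888)))))))) (T.h (T.h (P (nat_lit 0)) (T.h (T.h (P (nat_lit 0)) (T.h (M (nat_lit 9488147317601956003839)) (T.h (P (nat_lit 0)) (M (nat_lit 2883204816699391))))) (T.h (P (nat_lit 0)) (T.h (T.h (P (nat_lit 0)) (P (nat_lit 13474633507799040))) (P (nat_lit 0)))))) (T.h (T.h (T.h (P (nat_lit 9829785734883881454141440))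 (T.h (P (nat_lit 0)) (T.h (P (nat_lit 50559450639528624128)) (T.h (P (nat_lit 0)) (P (nat_lit 5478923227968)))))) (T.h (P (nat_lit 0)) (T.h (T.h (M (nat_lit 40064023006776655871)) (T.h (P (nat_lit 0)) (P (nat_lit 2293195138104)))) (T.h (P (nat_lit 0)) (M (nat_lit 276664645383)))))) (T.h (T.h (P (nat_lit 0)) (T.h (T.h (P (nat_lit 0)) (P (nat_lit 22284079390687232))) (P (nat_lit 0)))) (T.h (T.h (T.h (M (nat_lit 1574127376307060735)) (T.h (P (nat_lit 0)) (P (nat_lit 1162592684792)))) (T.h (P (nat_lit 0)) (P (nat_lit 8428242068192)))) (T.h (P (nat_lit 0)) (M (nat_lit 2321410375719)))))))), (T.h (T.h (T.h (P (nat_lit 0)) (T.h (P (nat_lit 17277169826230395563407310848)) (T.h (P (nat_lit 0)) (T.h (P (nat_lit 37722972093317176623104)) (T.h (P (nat_lit 0)) (P (nat_lit 2839043910631424))))))) (T.h (P (nat_lit 0)) (T.h (T.h (P (nat_lit 0)) (T.h (M (nat_lit 14429612615023850422271)) (T.h (P (nat_lit 0)) (P (nat_lit 8313373331783680))))) (T.h (P (nat_lit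 0)) (T.h (T.h (P (nat_lit 0)) (M (nat_lit 46231065526583295))) (P (nat_lit 0))))))) (T.h (T.h (P (nat_lit 0)) (T.h (T.h (M (nat_lit 26202266726833330004688895)) (T.h (P (nat_lit 0)) (T.h (P (nat_lit 4720523903133286400)) (T.h (P (nat_lit 0)) (M (nat_lit 14170135667743)))))) (T.h (P (nat_lit 0)) (T.h (T.h (M (nat_lit 32857965433267945471)) (T.h (P (nat_lit 0)) (M (nat_lit 2419356147151)))) (T.h (P (nat_lit 0)) (P (nat_lit 8063023529120))))))) (T.h (T.h (T.h (P (nat_lit 0)) (T.h (M (nat_lit 14429612615023850422271)) (T.h (P (nat_lit 0)) (P (nat_lit 8313373331783680))))) (T.h (P (nat_lit 0)) (T.h (T.h (P (nat_lit 0)) (M (nat_lit 33472934269550591))) (P (nat_lit 0))))) (T.h (T.h (P (nat_lit 0)) (T.h (T.h (M (nat_lit 32857965433267945471)) (T.h (P (nat_lit 0)) (M (nat_lit 2419356147151)))) (T.h (P (nat_lit 0)) (P (nat_lit 2263527959616))))) (T.h (T.h (T.h (P (nat_lit 0)) (M (nat_lit 46231065526583295))) (P (nat_lit 0))) (T.h (T.h (P (nat_lit 0))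 (P (nat_lit 8063023529120))) (P (nat_lit 0)))))))), (T.h (T.h (T.h (P (nat_lit 1926289178347798091970222489600)) (T.h (P (nat_lit 0)) (T.h (P (nat_lit 2899700707510487674257408)) (T.h (P (nat_lit 0)) (T.h (P (nat_lit 6322290353244209152)) (T.h (P (nat_lit 0)) (P (nat_lit 12427974380448)))))))) (T.h (P (nat_lit 0)) (T.h (T.h (M (nat_lit 2967819953213876012580863)) (T.h (P (nat_lit 0)) (T.h (M (nat_lit 60783134145811316735)) (T.h (P (nat_lit 0)) (M (nat_lit 31837786800239)))))) (T.h (P (nat_lit 0)) (T.h (T.h (P (nat_lit 6691717599643828224)) (T.h (P (nat_lit 0)) (P (nat_lit 10599934930752)))) (T.h (P (nat_lit 0)) (M (nat_lit 905405486159)))))))) (T.h (T.h (P (nat_lit 0)) (T.h (T.h (P (nat_lit 0)) (T.h (M (nat_lit 101836983772912954638335)) (T.h (P (nat_lit 0)) (P (nat_lit 90898632649211904))))) (T.h (P (nat_lit 0)) (T.h (T.h (P (nat_lit 0)) (P (nat_lit 60655451073478656))) (P (nat_lit 0)))))) (T.h (T.h (T.h (M (nat_lit 2967819953213876012580863))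 (T.h (P (nat_lit 0)) (T.h (M (nat_lit 60783134145811316735)) (T.h (P (nat_lit 0)) (M (nat_lit 31837786800239)))))) (T.h (P (nat_lit 0)) (T.h (T.h (P (nat_lit 1044491642330939392)) (T.h (P (nat_lit 0)) (P (nat_lit 54100397103456)))) (T.h (P (nat_lit 0)) (P (nat_lit 25824793852896)))))) (T.h (T.h (P (nat_lit 0)) (T.h (T.h (P (nat_lit 0)) (P (nat_lit 60655451073478656))) (P (nat_lit 0)))) (T.h (T.h (T.h (P (nat_lit 6691717599643828224)) (T.h (P (nat_lit 0)) (P (nat_lit 10599934930752)))) (T.h (P (nat_lit 0)) (P (nat_lit 25824793852896)))) (T.h (P (nat_lit 0)) (M (nat_lit 905405486159)))))))), (T.h (T.h (T.h (P (nat_lit 0)) (T.h (P (nat_lit 11386109411402279864340840448)) (T.h (P (nat_lit 0)) (T.h (M (nat_lit 17816978978999849975807)) (T.h (P (nat_lit 0)) (M (nat_lit 25065533473652735))))))) (T.h (P (nat_lit 0)) (T.h (T.h (P (nat_lit 0)) (T.h (M (nat_lit 3797065615410485788671)) (T.h (P (nat_lit 0)) (P (nat_lit 55595200717504512))))) (T.h (P (nat_lit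 0)) (T.h (T.h (P (nat_lit 0)) (M (nat_lit 3934493346447359))) (P (nat_lit 0))))))) (T.h (T.h (P (nat_lit 0)) (T.h (T.h (P (nat_lit 7858349407269454602043392)) (T.h (P (nat_lit 0)) (M (nat_lit 37574576478588239871)))) (T.h (P (nat_lit 0)) (P (nat_lit 59872406056204238848))))) (T.h (T.h (T.h (P (nat_lit 0)) (T.h (M (nat_lit 3797065615410485788671)) (T.h (P (nat_lit 0)) (P (nat_lit 55595200717504512))))) (T.h (P (nat_lit 0)) (T.h (T.h (P (nat_lit 0)) (M (nat_lit 39413718720413695))) (P (nat_lit 0))))) (T.h (T.h (P (nat_lit 0)) (P (nat_lit 59872406056204238848))) (T.h (T.h (T.h (P (nat_lit 0)) (M (nat_lit 3934493346447359))) (P (nat_lit 0))) (P (nat_lit 0))))))), (P (nat_lit 0)), (T.h (T.h (P (nat_lit 0)) (T.h (T.h (P (nat_lit 0)) (T.h (M (nat_lit 1272398404344883965853695)) (T.h (P (nat_lit 0)) (T.h (M (nat_lit 3420608005706612735)) (T.h (P (nat_lit 0)) (P (nat_lit 2356823042256))))))) (T.h (P (nat_lit 0)) (T.h (T.h (P (nat_lit 0)) (T.h (P (nat_lit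 23443956208744005632)) (T.h (P (nat_lit 0)) (P (nat_lit 11034664166160))))) (T.h (P (nat_lit 0)) (T.h (T.h (P (nat_lit 0)) (M (nat_lit 14177834618447))) (P (nat_lit 0)))))))) (T.h (T.h (T.h (P (nat_lit 5843117400767520869254692864)) (T.h (P (nat_lit 0)) (T.h (M (nat_lit 8661948646476979634175)) (T.h (P (nat_lit 0)) (P (nat_lit 474231768350720)))))) (T.h (P (nat_lit 0)) (T.h (T.h (P (nat_lit 6132280081596855353344)) (T.h (P (nat_lit 0)) (P (nat_lit 7274545497210880)))) (T.h (P (nat_lit 0)) (M (nat_lit 17608652528943103)))))) (T.h (T.h (P (nat_lit 0)) (T.h (T.h (P (nat_lit 0)) (T.h (P (nat_lit 34232820611900506112)) (T.h (P (nat_lit 0)) (M (nat_lit 19566681743567))))) (T.h (P (nat_lit 0)) (T.h (T.h (P (nat_lit 0)) (P (nat_lit 17952904070928))) (P (nat_lit 0)))))) (T.h (T.h (T.h (P (nat_lit 6400777624819452608512)) (T.h (P (nat_lit 0)) (M (nat_lit 24023268860002303)))) (T.h (P (nat_lit 0)) (M (nat_lit 10186063040872447)))) (T.h (T.h (P (nat_lit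 0)) (T.h (T.h (P (nat_lit 0)) (M (nat_lit 26139770321999))) (P (nat_lit 0)))) (P (nat_lit 17475433437396992))))))), (T.h (T.h (P (nat_lit 0)) (T.h (T.h (P (nat_lit 7898869424295032560457613312)) (T.h (P (nat_lit 0)) (T.h (P (nat_lit 66894456594855284965376)) (T.h (P (nat_lit 0)) (P (nat_lit 17205814889070592)))))) (T.h (P (nat_lit 0)) (T.h (T.h (M (nat_lit 25619508905965531430911)) (T.h (P (nat_lit 0)) (M (nat_lit 34505731325050879)))) (T.h (P (nat_lit 0)) (M (nat_lit 5990357490696191))))))) (T.h (T.h (T.h (P (nat_lit 0)) (T.h (M (nat_lit 3808010078810433310949375)) (T.h (P (nat_lit 0)) (M (nat_lit 39699916217686949887))))) (T.h (P (nat_lit 0)) (T.h (T.h (P (nat_lit 0)) (P (nat_lit 47737917958413877248))) (P (nat_lit 0))))) (T.h (T.h (P (nat_lit 0)) (T.h (T.h (M (nat_lit 20518604022785385693183)) (T.h (P (nat_lit 0)) (M (nat_lit 4558212600184831)))) (T.h (P (nat_lit 0)) (M (nat_lit 25828239031599103))))) (T.h (T.h (T.h (P (nat_lit 0)) (P (nat_lit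 7228349994594467840))) (P (nat_lit 0))) (T.h (T.h (P (nat_lit 0)) (M (nat_lit 37244374366273535))) (P (nat_lit 0)))))))]
def lP12_23 : List (T ℤ) := [(P (nat_lit 0)), (T.h (T.h (T.h (P (nat_lit 0)) (T.h (M (nat_lit 9444388680319584730748026879)) (T.h (P (nat_lit 0)) (T.h (M (nat_lit 11887339130370524184575)) (T.h (P (nat_lit 0)) (P (nat_lit 2323722480533504))))))) (T.h (P (nat_lit 0)) (T.h (T.h (P (nat_lit 0)) (T.h (P (nat_lit 30742105541402773422080)) (T.h (P (nat_lit 0)) (M (nat_lit 22101788836069375))))) (T.h (P (nat_lit 0)) (T.h (T.h (P (nat_lit 0)) (P (nat_lit 24581947639840768))) (P (nat_lit 0))))))) (T.h (T.h (P (nat_lit 0)) (T.h (T.h (P (nat_lit 10198635777548292081057792)) (T.h (P (nat_lit 0)) (M (nat_lit 9004690242220851199)))) (T.h (P (nat_lit 0)) (M (nat_lit 10587787297082572799))))) (T.h (T.h (T.h (P (nat_lit 0)) (T.h (P (nat_lit 4498893292917248491520)) (T.h (P (nat_lit 0)) (M (nat_lit 1483925649195007))))) (T.h (P (nat_lit 0))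 (T.h (T.h (P (nat_lit 0)) (M (nat_lit 44089042524880895))) (P (nat_lit 0))))) (T.h (T.h (P (nat_lit 0)) (M (nat_lit 44064355139457122303))) (T.h (T.h (T.h (P (nat_lit 0)) (P (nat_lit 17641106541363200))) (P (nat_lit 0))) (P (nat_lit 0))))))), (P (nat_lit 0)), (P (nat_lit 0)), (P (nat_lit 0)), (P (nat_lit 0)), (T.h (T.h (P (nat_lit 0)) (T.h (T.h (P (nat_lit 0)) (T.h (P (nat_lit 0)) (T.h (P (nat_lit 6086556695942232276992)) (T.h (P (nat_lit 0)) (M (nat_lit 448310839017471)))))) (T.h (P (nat_lit 0)) (T.h (T.h (P (nat_lit 0)) (T.h (P (nat_lit 0)) (P (nat_lit 8084305218764800)))) (P (nat_lit 0)))))) (T.h (T.h (T.h (P (nat_lit 0)) (T.h (P (nat_lit 0)) (T.h (P (nat_lit 0)) (T.h (P (nat_lit 25836700395869569024)) (T.h (P (nat_lit 0)) (P (nat_lit 3132804813144))))))) (T.h (P (nat_lit 0)) (T.h (T.h (P (nat_lit 0)) (T.h (P (nat_lit 0)) (T.h (P (nat_lit 0)) (M (nat_lit 5852608134903))))) (P (nat_lit 0))))) (T.h (T.h (P (nat_lit 0)) (T.h (M (nat_lit 6086556695942232276991))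 (T.h (P (nat_lit 0)) (M (nat_lit 8084305218764799))))) (T.h (T.h (T.h (P (nat_lit 0)) (M (nat_lit 25836700395869569023))) (T.h (P (nat_lit 0)) (T.h (T.h (P (nat_lit 0)) (P (nat_lit 5852608134904))) (P (nat_lit 0))))) (T.h (T.h (P (nat_lit 0)) (P (nat_lit 448310839017472))) (T.h (T.h (T.h (P (nat_lit 0)) (M (nat_lit 3132804813143))) (P (nat_lit 0))) (P (nat_lit 0)))))))), (P (nat_lit 0))]
def lP12_24 : List (T ℤ) := [(P (nat_lit 0)), (P (nat_lit 0)), (P (nat_lit 0)), (T.h (T.h (T.h (M (nat_lit 169053768763270514532562239487)) (T.h (P (nat_lit 0)) (T.h (P (nat_lit 1217783071519776866041856)) (T.h (P (nat_lit 0)) (T.h (M (nat_lit 2581556048120774655)) (T.h (P (nat_lit 0)) (P (nat_lit 2889973006256)))))))) (T.h (P (nat_lit 0)) (T.h (T.h (P (nat_lit 1217783071519776866041856)) (T.h (P (nat_lit 0)) (T.h (M (nat_lit 580103659812028415)) (T.h (P (nat_lit 0)) (M (nat_lit 662576913727)))))) (T.h (P (nat_lit 0)) (T.h (T.h (M (nat_lit 2581556048120774655))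 (T.h (P (nat_lit 0)) (M (nat_lit 662576913727)))) (T.h (P (nat_lit 0)) (P (nat_lit 2889973006256)))))))) (T.h (T.h (P (nat_lit 0)) (T.h (T.h (P (nat_lit 0)) (T.h (M (nat_lit 1587471070678617161727)) (T.h (P (nat_lit 0)) (P (nat_lit 3737556218937344))))) (T.h (P (nat_lit 0)) (T.h (T.h (P (nat_lit 0)) (P (nat_lit 3737556218937344))) (P (nat_lit 0)))))) (T.h (T.h (T.h (M (nat_lit 86023058324020239794175)) (T.h (P (nat_lit 0)) (T.h (M (nat_lit 2804189857717420031)) (T.h (P (nat_lit 0)) (P (nat_lit 2363898821680)))))) (T.h (P (nat_lit 0)) (T.h (T.h (M (nat_lit 2804189857717420031)) (T.h (P (nat_lit 0)) (P (nat_lit 2120391294816)))) (T.h (P (nat_lit 0)) (P (nat_lit 2363898821680)))))) (T.h (T.h (P (nat_lit 0)) (T.h (T.h (P (nat_lit 0)) (P (nat_lit 2147752284127232))) (P (nat_lit 0)))) (T.h (T.h (T.h (P (nat_lit 544121181330997248)) (T.h (P (nat_lit 0)) (P (nat_lit 1796611202864)))) (T.h (P (nat_lit 0)) (P (nat_lit 1796611202864)))) (T.h (P (nat_lit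 0)) (M (nat_lit 1570308029599)))))))), (T.h (T.h (T.h (P (nat_lit 0)) (T.h (P (nat_lit 8784832922964227988916273152)) (T.h (P (nat_lit 0)) (T.h (P (nat_lit 8666877442094218084352)) (T.h (P (nat_lit 0)) (M (nat_lit 12177177628213247))))))) (T.h (P (nat_lit 0)) (T.h (T.h (P (nat_lit 0)) (T.h (P (nat_lit 66867471267780639064064)) (T.h (P (nat_lit 0)) (P (nat_lit 48000538994507776))))) (T.h (P (nat_lit 0)) (T.h (T.h (P (nat_lit 0)) (P (nat_lit 5311720651620352))) (P (nat_lit 0))))))) (T.h (T.h (P (nat_lit 0)) (T.h (T.h (P (nat_lit 2125309395197112153538560)) (T.h (P (nat_lit 0)) (T.h (M (nat_lit 34281386769972723711)) (T.h (P (nat_lit 0)) (P (nat_lit 14659264510328)))))) (T.h (P (nat_lit 0)) (T.h (T.h (P (nat_lit 17575332699449589760)) (T.h (P (nat_lit 0)) (P (nat_lit 15712233239168)))) (T.h (P (nat_lit 0)) (M (nat_lit 9507577967847))))))) (T.h (T.h (T.h (P (nat_lit 0)) (T.h (M (nat_lit 19360382893023379324927)) (T.h (P (nat_lit 0)) (P (nat_lit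 9940444554821632))))) (T.h (P (nat_lit 0)) (T.h (T.h (P (nat_lit 0)) (P (nat_lit 24343986349998080))) (P (nat_lit 0))))) (T.h (T.h (P (nat_lit 0)) (T.h (T.h (M (nat_lit 15188567312421617663)) (T.h (P (nat_lit 0)) (M (nat_lit 684801119263)))) (T.h (P (nat_lit 0)) (M (nat_lit 9674684471591))))) (T.h (T.h (T.h (P (nat_lit 0)) (P (nat_lit 23433691217625088))) (P (nat_lit 0))) (T.h (T.h (P (nat_lit 0)) (P (nat_lit 779709799224))) (P (nat_lit 0)))))))), (T.h (T.h (T.h (P (nat_lit 9532113103949875524296396242944)) (T.h (P (nat_lit 0)) (T.h (P (nat_lit 3032100729163460762402816)) (T.h (P (nat_lit 0)) (T.h (P (nat_lit 28767898205744529408)) (T.h (P (nat_lit 0)) (M (nat_lit 6454986133007)))))))) (T.h (P (nat_lit 0)) (T.h (T.h (M (nat_lit 5822015326319091937968127)) (T.h (P (nat_lit 0)) (T.h (P (nat_lit 37294152127986270208)) (T.h (P (nat_lit 0)) (P (nat_lit 15481464103056)))))) (T.h (P (nat_lit 0)) (T.h (T.h (M (nat_lit 8903747042262646783)) (T.h (P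 (nat_lit 0)) (M (nat_lit 2689076313615)))) (T.h (P (nat_lit 0)) (M (nat_lit 2135898518655)))))))) (T.h (T.h (P (nat_lit 0)) (T.h (T.h (P (nat_lit 0)) (T.h (M (nat_lit 11273622562630300336127)) (T.h (P (nat_lit 0)) (P (nat_lit 4062213188222976))))) (T.h (P (nat_lit 0)) (T.h (T.h (P (nat_lit 0)) (P (nat_lit 76325036144197632))) (P (nat_lit 0)))))) (T.h (T.h (T.h (M (nat_lit 3988164356882201506217983)) (T.h (P (nat_lit 0)) (T.h (M (nat_lit 57813725855048794111)) (T.h (P (nat_lit 0)) (P (nat_lit 7861092761200)))))) (T.h (P (nat_lit 0)) (T.h (T.h (P (nat_lit 2322674579165675520)) (T.h (P (nat_lit 0)) (P (nat_lit 8548507008608)))) (T.h (P (nat_lit 0)) (M (nat_lit 5131028078175)))))) (T.h (T.h (P (nat_lit 0)) (T.h (T.h (P (nat_lit 0)) (M (nat_lit 28669640327397375))) (P (nat_lit 0)))) (T.h (T.h (T.h (P (nat_lit 3867644409403146240)) (T.h (P (nat_lit 0)) (P (nat_lit 18872188738032)))) (T.h (P (nat_lit 0)) (P (nat_lit 66173550912)))) (T.h (P (nat_lit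 0)) (M (nat_lit 4494899552751)))))))), (T.h (T.h (T.h (P (nat_lit 0)) (T.h (P (nat_lit 5843117400767520869254692864)) (T.h (P (nat_lit 0)) (T.h (P (nat_lit 6400777624819452608512)) (T.h (P (nat_lit 0)) (P (nat_lit 17475433437396992))))))) (T.h (P (nat_lit 0)) (T.h (T.h (P (nat_lit 0)) (T.h (M (nat_lit 8661948646476979634175)) (T.h (P (nat_lit 0)) (M (nat_lit 24023268860002303))))) (T.h (P (nat_lit 0)) (T.h (T.h (P (nat_lit 0)) (P (nat_lit 474231768350720))) (P (nat_lit 0))))))) (T.h (T.h (P (nat_lit 0)) (T.h (T.h (M (nat_lit 1272398404344883965853695)) (T.h (P (nat_lit 0)) (T.h (P (nat_lit 34232820611900506112)) (T.h (P (nat_lit 0)) (M (nat_lit 26139770321999)))))) (T.h (P (nat_lit 0)) (T.h (T.h (M (nat_lit 3420608005706612735)) (T.h (P (nat_lit 0)) (M (nat_lit 19566681743567)))) (T.h (P (nat_lit 0)) (P (nat_lit 2356823042256))))))) (T.h (T.h (T.h (P (nat_lit 0)) (T.h (P (nat_lit 6132280081596855353344)) (T.h (P (nat_lit 0)) (M (nat_lit 10186063040872447)))))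 (T.h (P (nat_lit 0)) (T.h (T.h (P (nat_lit 0)) (P (nat_lit 7274545497210880))) (P (nat_lit 0))))) (T.h (T.h (P (nat_lit 0)) (T.h (T.h (P (nat_lit 23443956208744005632)) (T.h (P (nat_lit 0)) (P (nat_lit 17952904070928)))) (T.h (P (nat_lit 0)) (P (nat_lit 11034664166160))))) (T.h (T.h (T.h (P (nat_lit 0)) (M (nat_lit 17608652528943103))) (P (nat_lit 0))) (T.h (T.h (P (nat_lit 0)) (M (nat_lit 14177834618447))) (P (nat_lit 0)))))))), (T.h (T.h (T.h (P (nat_lit 1566566538292661711704453808128)) (T.h (P (nat_lit 0)) (T.h (M (nat_lit 9732647539352031790628863)) (T.h (P (nat_lit 0)) (M (nat_lit 16297031267554164735)))))) (T.h (P (nat_lit 0)) (T.h (T.h (P (nat_lit 3329637082376392511848448)) (T.h (P (nat_lit 0)) (P (nat_lit 3306482805604614144)))) (T.h (P (nat_lit 0)) (P (nat_lit 3580613197985480704)))))) (T.h (T.h (P (nat_lit 0)) (T.h (T.h (P (nat_lit 0)) (T.h (P (nat_lit 26663661396517474795520)) (T.h (P (nat_lit 0)) (P (nat_lit 23433650567217152)))))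 (T.h (P (nat_lit 0)) (T.h (T.h (P (nat_lit 0)) (P (nat_lit 26715042807218176))) (P (nat_lit 0)))))) (T.h (T.h (T.h (M (nat_lit 9732647539352031790628863)) (T.h (P (nat_lit 0)) (M (nat_lit 2048803517447012351)))) (T.h (P (nat_lit 0)) (P (nat_lit 3306482805604614144)))) (T.h (T.h (P (nat_lit 0)) (T.h (T.h (P (nat_lit 0)) (P (nat_lit 23433650567217152))) (P (nat_lit 0)))) (M (nat_lit 16297031267554164735))))))]
def lP12_25 : List (T ℤ) := [(P (nat_lit 0)), (T.h (T.h (P (nat_lit 0)) (T.h (T.h (P (nat_lit 8784832922964227988916273152)) (T.h (P (nat_lit 0)) (T.h (P (nat_lit 66867471267780639064064)) (T.h (P (nat_lit 0)) (P (nat_lit 5311720651620352)))))) (T.h (P (nat_lit 0)) (T.h (T.h (P (nat_lit 8666877442094218084352)) (T.h (P (nat_lit 0)) (P (nat_lit 48000538994507776)))) (T.h (P (nat_lit 0)) (M (nat_lit 12177177628213247))))))) (T.h (T.h (T.h (P (nat_lit 0)) (T.h (P (nat_lit 2125309395197112153538560)) (T.h (P (nat_lit 0)) (T.h (P (nat_lit 17575332699449589760))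 (T.h (P (nat_lit 0)) (M (nat_lit 9507577967847))))))) (T.h (P (nat_lit 0)) (T.h (T.h (P (nat_lit 0)) (T.h (M (nat_lit 34281386769972723711)) (T.h (P (nat_lit 0)) (P (nat_lit 15712233239168))))) (T.h (P (nat_lit 0)) (T.h (T.h (P (nat_lit 0)) (P (nat_lit 14659264510328))) (P (nat_lit 0))))))) (T.h (T.h (P (nat_lit 0)) (T.h (T.h (M (nat_lit 19360382893023379324927)) (T.h (P (nat_lit 0)) (P (nat_lit 24343986349998080)))) (T.h (P (nat_lit 0)) (P (nat_lit 9940444554821632))))) (T.h (T.h (T.h (P (nat_lit 0)) (T.h (M (nat_lit 15188567312421617663)) (T.h (P (nat_lit 0)) (M (nat_lit 9674684471591))))) (T.h (P (nat_lit 0)) (T.h (T.h (P (nat_lit 0)) (M (nat_lit 684801119263))) (P (nat_lit 0))))) (T.h (T.h (P (nat_lit 0)) (P (nat_lit 23433691217625088))) (T.h (T.h (T.h (P (nat_lit 0)) (P (nat_lit 779709799224))) (P (nat_lit 0))) (P (nat_lit 0)))))))), (T.h (T.h (P (nat_lit 0)) (T.h (T.h (P (nat_lit 0)) (T.h (P (nat_lit 32151543346033375355863040)) (T.h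 (P (nat_lit 0)) (T.h (P (nat_lit 29559669016657657856)) (T.h (P (nat_lit 0)) (P (nat_lit 4818155716864))))))) (T.h (P (nat_lit 0)) (T.h (T.h (P (nat_lit 0)) (T.h (P (nat_lit 29559669016657657856)) (T.h (P (nat_lit 0)) (P (nat_lit 2939123638080))))) (T.h (P (nat_lit 0)) (T.h (T.h (P (nat_lit 0)) (P (nat_lit 4818155716864))) (P (nat_lit 0)))))))) (T.h (T.h (T.h (P (nat_lit 3912186387042781318489309184)) (T.h (P (nat_lit 0)) (T.h (M (nat_lit 16069614633279035539455)) (T.h (P (nat_lit 0)) (P (nat_lit 32299067457896448)))))) (T.h (P (nat_lit 0)) (T.h (T.h (M (nat_lit 16069614633279035539455)) (T.h (P (nat_lit 0)) (M (nat_lit 3866233468190719)))) (T.h (P (nat_lit 0)) (P (nat_lit 32299067457896448)))))) (T.h (T.h (P (nat_lit 0)) (T.h (T.h (P (nat_lit 0)) (T.h (M (nat_lit 13649441188648845311)) (T.h (P (nat_lit 0)) (M (nat_lit 1321085431679))))) (T.h (P (nat_lit 0)) (T.h (T.h (P (nat_lit 0)) (M (nat_lit 1321085431679))) (P (nat_lit 0)))))) (T.h (T.h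 (T.h (M (nat_lit 10032247509758490181631)) (T.h (P (nat_lit 0)) (P (nat_lit 19042531012182016)))) (T.h (P (nat_lit 0)) (P (nat_lit 19042531012182016)))) (T.h (T.h (P (nat_lit 0)) (T.h (T.h (P (nat_lit 0)) (M (nat_lit 24657609824063))) (P (nat_lit 0)))) (P (nat_lit 12964061643177984))))))), (T.h (T.h (P (nat_lit 0)) (T.h (T.h (M (nat_lit 24556072986798921191516012543)) (T.h (P (nat_lit 0)) (T.h (M (nat_lit 18238095826908243558399)) (T.h (P (nat_lit 0)) (P (nat_lit 10739564299747328)))))) (T.h (P (nat_lit 0)) (T.h (T.h (M (nat_lit 13721056066817709047807)) (T.h (P (nat_lit 0)) (P (nat_lit 43601158870171648)))) (T.h (P (nat_lit 0)) (M (nat_lit 12786125555204095))))))) (T.h (T.h (T.h (P (nat_lit 0)) (T.h (P (nat_lit 34219577505904261729353728)) (T.h (P (nat_lit 0)) (T.h (M (nat_lit 101785428458033119231)) (T.h (P (nat_lit 0)) (P (nat_lit 16720912128480))))))) (T.h (P (nat_lit 0)) (T.h (T.h (P (nat_lit 0)) (T.h (M (nat_lit 220930338352237903871))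 (T.h (P (nat_lit 0)) (M (nat_lit 12048870166367))))) (T.h (P (nat_lit 0)) (T.h (T.h (P (nat_lit 0)) (P (nat_lit 1483797581376))) (P (nat_lit 0))))))) (T.h (T.h (P (nat_lit 0)) (T.h (T.h (M (nat_lit 4980996676142313242623)) (T.h (P (nat_lit 0)) (M (nat_lit 24734882115387391)))) (T.h (P (nat_lit 0)) (P (nat_lit 48486625826766848))))) (T.h (T.h (T.h (P (nat_lit 0)) (T.h (P (nat_lit 62491710756640260096)) (T.h (P (nat_lit 0)) (M (nat_lit 15194470148207))))) (T.h (P (nat_lit 0)) (T.h (T.h (P (nat_lit 0)) (P (nat_lit 25587277519872))) (P (nat_lit 0))))) (T.h (T.h (P (nat_lit 0)) (M (nat_lit 39498243636592639))) (T.h (T.h (T.h (P (nat_lit 0)) (P (nat_lit 37160142996432))) (P (nat_lit 0))) (P (nat_lit 0)))))))), (T.h (T.h (P (nat_lit 0)) (T.h (T.h (P (nat_lit 0)) (T.h (M (nat_lit 3808010078810433310949375)) (T.h (P (nat_lit 0)) (P (nat_lit 7228349994594467840))))) (T.h (P (nat_lit 0)) (T.h (T.h (P (nat_lit 0)) (M (nat_lit 39699916217686949887))) (P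 (nat_lit 0)))))) (T.h (T.h (T.h (P (nat_lit 7898869424295032560457613312)) (T.h (P (nat_lit 0)) (T.h (M (nat_lit 20518604022785385693183)) (T.h (P (nat_lit 0)) (M (nat_lit 37244374366273535)))))) (T.h (P (nat_lit 0)) (T.h (T.h (P (nat_lit 66894456594855284965376)) (T.h (P (nat_lit 0)) (M (nat_lit 4558212600184831)))) (T.h (P (nat_lit 0)) (P (nat_lit 17205814889070592)))))) (T.h (T.h (P (nat_lit 0)) (T.h (T.h (P (nat_lit 0)) (P (nat_lit 47737917958413877248))) (P (nat_lit 0)))) (T.h (T.h (T.h (M (nat_lit 25619508905965531430911)) (T.h (P (nat_lit 0)) (M (nat_lit 25828239031599103)))) (T.h (P (nat_lit 0)) (M (nat_lit 34505731325050879)))) (T.h (P (nat_lit 0)) (M (nat_lit 5990357490696191))))))), (T.h (T.h (P (nat_lit 0)) (T.h (P (nat_lit 0)) (T.h (T.h (P (nat_lit 0)) (T.h (P (nat_lit 6086556695942232276992)) (T.h (P (nat_lit 0)) (P (nat_lit 8084305218764800))))) (T.h (P (nat_lit 0)) (T.h (T.h (P (nat_lit 0)) (M (nat_lit 448310839017471))) (P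 (nat_lit 0))))))) (T.h (T.h (P (nat_lit 0)) (T.h (P (nat_lit 0)) (T.h (P (nat_lit 0)) (T.h (T.h (P (nat_lit 25836700395869569024)) (T.h (P (nat_lit 0)) (M (nat_lit 5852608134903)))) (T.h (P (nat_lit 0)) (P (nat_lit 3132804813144))))))) (T.h (T.h (T.h (P (nat_lit 0)) (T.h (M (nat_lit 6086556695942232276991)) (T.h (P (nat_lit 0)) (M (nat_lit 8084305218764799))))) (P (nat_lit 0))) (T.h (T.h (P (nat_lit 0)) (T.h (T.h (M (nat_lit 25836700395869569023)) (T.h (P (nat_lit 0)) (P (nat_lit 5852608134904)))) (P (nat_lit 0)))) (T.h (T.h (T.h (P (nat_lit 0)) (P (nat_lit 448310839017472))) (P (nat_lit 0))) (T.h (T.h (P (nat_lit 0)) (M (nat_lit 3132804813143))) (P (nat_lit 0)))))))), (T.h (T.h (T.h (P (nat_lit 9532113103949875524296396242944)) (T.h (P (nat_lit 0)) (T.h (M (nat_lit 5822015326319091937968127)) (T.h (P (nat_lit 0)) (T.h (M (nat_lit 8903747042262646783)) (T.h (P (nat_lit 0)) (M (nat_lit 2135898518655)))))))) (T.h (P (nat_lit 0)) (T.h (T.h (P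 (nat_lit 3032100729163460762402816)) (T.h (P (nat_lit 0)) (T.h (P (nat_lit 37294152127986270208)) (T.h (P (nat_lit 0)) (M (nat_lit 2689076313615)))))) (T.h (P (nat_lit 0)) (T.h (T.h (P (nat_lit 28767898205744529408)) (T.h (P (nat_lit 0)) (P (nat_lit 15481464103056)))) (T.h (P (nat_lit 0)) (M (nat_lit 6454986133007)))))))) (T.h (T.h (P (nat_lit 0)) (T.h (T.h (P (nat_lit 0)) (T.h (M (nat_lit 11273622562630300336127)) (T.h (P (nat_lit 0)) (P (nat_lit 76325036144197632))))) (T.h (P (nat_lit 0)) (T.h (T.h (P (nat_lit 0)) (P (nat_lit 4062213188222976))) (P (nat_lit 0)))))) (T.h (T.h (T.h (M (nat_lit 3988164356882201506217983)) (T.h (P (nat_lit 0)) (T.h (P (nat_lit 2322674579165675520)) (T.h (P (nat_lit 0)) (M (nat_lit 5131028078175)))))) (T.h (P (nat_lit 0)) (T.h (T.h (M (nat_lit 57813725855048794111)) (T.h (P (nat_lit 0)) (P (nat_lit 8548507008608)))) (T.h (P (nat_lit 0)) (P (nat_lit 7861092761200)))))) (T.h (T.h (P (nat_lit 0)) (T.h (T.h (P (nat_lit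 0)) (M (nat_lit 28669640327397375))) (P (nat_lit 0)))) (T.h (T.h (T.h (P (nat_lit 3867644409403146240)) (T.h (P (nat_lit 0)) (P (nat_lit 66173550912)))) (T.h (P (nat_lit 0)) (P (nat_lit 18872188738032)))) (T.h (P (nat_lit 0)) (M (nat_lit 4494899552751)))))))), (T.h (T.h (T.h (P (nat_lit 0)) (T.h (M (nat_lit 24556072986798921191516012543)) (T.h (P (nat_lit 0)) (T.h (M (nat_lit 13721056066817709047807)) (T.h (P (nat_lit 0)) (M (nat_lit 12786125555204095))))))) (T.h (P (nat_lit 0)) (T.h (T.h (P (nat_lit 0)) (T.h (M (nat_lit 18238095826908243558399)) (T.h (P (nat_lit 0)) (P (nat_lit 43601158870171648))))) (T.h (P (nat_lit 0)) (T.h (T.h (P (nat_lit 0)) (P (nat_lit 10739564299747328))) (P (nat_lit 0))))))) (T.h (T.h (P (nat_lit 0)) (T.h (T.h (P (nat_lit 34219577505904261729353728)) (T.h (P (nat_lit 0)) (T.h (M (nat_lit 220930338352237903871)) (T.h (P (nat_lit 0)) (P (nat_lit 1483797581376)))))) (T.h (P (nat_lit 0)) (T.h (T.h (M (nat_lit 101785428458033119231))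 (T.h (P (nat_lit 0)) (M (nat_lit 12048870166367)))) (T.h (P (nat_lit 0)) (P (nat_lit 16720912128480))))))) (T.h (T.h (T.h (P (nat_lit 0)) (T.h (M (nat_lit 4980996676142313242623)) (T.h (P (nat_lit 0)) (P (nat_lit 48486625826766848))))) (T.h (P (nat_lit 0)) (T.h (T.h (P (nat_lit 0)) (M (nat_lit 24734882115387391))) (P (nat_lit 0))))) (T.h (T.h (P (nat_lit 0)) (T.h (T.h (P (nat_lit 62491710756640260096)) (T.h (P (nat_lit 0)) (P (nat_lit 25587277519872)))) (T.h (P (nat_lit 0)) (M (nat_lit 15194470148207))))) (T.h (T.h (T.h (P (nat_lit 0)) (M (nat_lit 39498243636592639))) (P (nat_lit 0))) (T.h (T.h (P (nat_lit 0)) (P (nat_lit 37160142996432))) (P (nat_lit 0))))))))]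
def lP12_26 : List (T ℤ) := [(T.h (T.h (T.h (M (nat_lit 2965995001898959740632314150911)) (T.h (P (nat_lit 0)) (T.h (P (nat_lit 5139392947130120844345344)) (T.h (P (nat_lit 0)) (P (nat_lit 36995800222106910720)))))) (T.h (P (nat_lit 0)) (T.h (T.h (P (nat_lit 5139392947130120844345344)) (T.h (P (nat_lit 0)) (M (nat_lit 74560750045622173695)))) (T.h (P (nat_lit 0)) (P (nat_lit 36995800222106910720)))))) (T.h (T.h (P (nat_lit 0)) (T.h (T.h (P (nat_lit 0)) (T.h (P (nat_lit 46242827737220222287872)) (T.h (P (nat_lit 0)) (P (nat_lit 5372423414317056))))) (T.h (P (nat_lit 0)) (T.h (T.h (P (nat_lit 0)) (P (nat_lit 5372423414317056))) (P (nat_lit 0)))))) (T.h (T.h (T.h (P (nat_lit 40921446729443515786330112)) (T.h (P (nat_lit 0)) (P (nat_lit 5754790540310740992)))) (T.h (P (nat_lit 0)) (P (nat_lit 5754790540310740992)))) (T.h (T.h (P (nat_lit 0)) (T.h (T.h (P (nat_lit 0)) (M (nat_lit 25597827883728895))) (P (nat_lit 0)))) (P (nat_lit 61716191199897845760)))))),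 (P (nat_lit 0)), (T.h (T.h (P (nat_lit 0)) (T.h (T.h (P (nat_lit 5843117400767520869254692864)) (T.h (P (nat_lit 0)) (T.h (M (nat_lit 8661948646476979634175)) (T.h (P (nat_lit 0)) (P (nat_lit 474231768350720)))))) (T.h (P (nat_lit 0)) (T.h (T.h (P (nat_lit 6400777624819452608512)) (T.h (P (nat_lit 0)) (M (nat_lit 24023268860002303)))) (T.h (P (nat_lit 0)) (P (nat_lit 17475433437396992))))))) (T.h (T.h (T.h (P (nat_lit 0)) (T.h (M (nat_lit 1272398404344883965853695)) (T.h (P (nat_lit 0)) (T.h (M (nat_lit 3420608005706612735)) (T.h (P (nat_lit 0)) (P (nat_lit 2356823042256))))))) (T.h (P (nat_lit 0)) (T.h (T.h (P (nat_lit 0)) (T.h (P (nat_lit 34232820611900506112)) (T.h (P (nat_lit 0)) (M (nat_lit 19566681743567))))) (T.h (P (nat_lit 0)) (T.h (T.h (P (nat_lit 0)) (M (nat_lit 26139770321999))) (P (nat_lit 0))))))) (T.h (T.h (P (nat_lit 0)) (T.h (T.h (P (nat_lit 6132280081596855353344)) (T.h (P (nat_lit 0)) (P (nat_lit 7274545497210880)))) (T.h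 (P (nat_lit 0)) (M (nat_lit 10186063040872447))))) (T.h (T.h (T.h (P (nat_lit 0)) (T.h (P (nat_lit 23443956208744005632)) (T.h (P (nat_lit 0)) (P (nat_lit 11034664166160))))) (T.h (P (nat_lit 0)) (T.h (T.h (P (nat_lit 0)) (P (nat_lit 17952904070928))) (P (nat_lit 0))))) (T.h (T.h (P (nat_lit 0)) (M (nat_lit 17608652528943103))) (T.h (T.h (T.h (P (nat_lit 0)) (M (nat_lit 14177834618447))) (P (nat_lit 0))) (P (nat_lit 0)))))))), (T.h (T.h (P (nat_lit 0)) (T.h (T.h (P (nat_lit 0)) (T.h (M (nat_lit 3808010078810433310949375)) (T.h (P (nat_lit 0)) (M (nat_lit 39699916217686949887))))) (T.h (P (nat_lit 0)) (T.h (T.h (P (nat_lit 0)) (P (nat_lit 7228349994594467840))) (P (nat_lit 0)))))) (T.h (T.h (T.h (P (nat_lit 7898869424295032560457613312)) (T.h (P (nat_lit 0)) (T.h (P (nat_lit 66894456594855284965376)) (T.h (P (nat_lit 0)) (P (nat_lit 17205814889070592)))))) (T.h (P (nat_lit 0)) (T.h (T.h (M (nat_lit 20518604022785385693183)) (T.h (P (nat_lit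 0)) (M (nat_lit 4558212600184831)))) (T.h (P (nat_lit 0)) (M (nat_lit 37244374366273535)))))) (T.h (T.h (P (nat_lit 0)) (T.h (T.h (P (nat_lit 0)) (P (nat_lit 47737917958413877248))) (P (nat_lit 0)))) (T.h (T.h (T.h (M (nat_lit 25619508905965531430911)) (T.h (P (nat_lit 0)) (M (nat_lit 34505731325050879)))) (T.h (P (nat_lit 0)) (M (nat_lit 25828239031599103)))) (T.h (P (nat_lit 0)) (M (nat_lit 5990357490696191))))))), (P (nat_lit 0)), (T.h (T.h (T.h (P (nat_lit 1566566538292661711704453808128)) (T.h (P (nat_lit 0)) (T.h (P (nat_lit 3329637082376392511848448)) (T.h (P (nat_lit 0)) (P (nat_lit 3580613197985480704)))))) (T.h (P (nat_lit 0)) (T.h (T.h (M (nat_lit 9732647539352031790628863)) (T.h (P (nat_lit 0)) (P (nat_lit 3306482805604614144)))) (T.h (P (nat_lit 0)) (M (nat_lit 16297031267554164735)))))) (T.h (T.h (P (nat_lit 0)) (T.h (T.h (P (nat_lit 0)) (T.h (P (nat_lit 26663661396517474795520)) (T.h (P (nat_lit 0)) (P (nat_lit 26715042807218176)))))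 (T.h (P (nat_lit 0)) (T.h (T.h (P (nat_lit 0)) (P (nat_lit 23433650567217152))) (P (nat_lit 0)))))) (T.h (T.h (T.h (M (nat_lit 9732647539352031790628863)) (T.h (P (nat_lit 0)) (P (nat_lit 3306482805604614144)))) (T.h (P (nat_lit 0)) (M (nat_lit 2048803517447012351)))) (T.h (T.h (P (nat_lit 0)) (T.h (T.h (P (nat_lit 0)) (P (nat_lit 23433650567217152))) (P (nat_lit 0)))) (M (nat_lit 16297031267554164735)))))), (P (nat_lit 0)), (P (nat_lit 0))]
def lP12_27 : List (T ℤ) := [(P (nat_lit 0)), (T.h (T.h (T.h (P (nat_lit 1007221268978411166551664230400)) (T.h (P (nat_lit 0)) (T.h (M (nat_lit 9829785734883881454141439)) (T.h (P (nat_lit 0)) (T.h (P (nat_lit 1574127376307060736)) (T.h (P (nat_lit 0)) (P (nat_lit 2321410375720)))))))) (T.h (P (nat_lit 0)) (T.h (T.h (M (nat_lit 1646295968881660760424447)) (T.h (P (nat_lit 0)) (T.h (M (nat_lit 50559450639528624127)) (T.h (P (nat_lit 0)) (M (nat_lit 1162592684791)))))) (T.h (P (nat_lit 0)) (T.h (T.h (M (nat_lit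 3969144862913069055)) (T.h (P (nat_lit 0)) (M (nat_lit 5478923227967)))) (T.h (P (nat_lit 0)) (P (nat_lit 601849142920)))))))) (T.h (T.h (P (nat_lit 0)) (T.h (T.h (P (nat_lit 0)) (T.h (P (nat_lit 9488147317601956003840)) (T.h (P (nat_lit 0)) (M (nat_lit 22284079390687231))))) (T.h (P (nat_lit 0)) (T.h (T.h (P (nat_lit 0)) (P (nat_lit 2883204816699392))) (P (nat_lit 0)))))) (T.h (T.h (T.h (M (nat_lit 7593625745013188629364735)) (T.h (P (nat_lit 0)) (T.h (P (nat_lit 40064023006776655872)) (T.h (P (nat_lit 0)) (M (nat_lit 8428242068191)))))) (T.h (P (nat_lit 0)) (T.h (T.h (M (nat_lit 20004478993695768575)) (T.h (P (nat_lit 0)) (M (nat_lit 2293195138103)))) (T.h (P (nat_lit 0)) (M (nat_lit 387852908807)))))) (T.h (T.h (P (nat_lit 0)) (T.h (T.h (P (nat_lit 0)) (M (nat_lit 13474633507799039))) (P (nat_lit 0)))) (T.h (T.h (T.h (P (nat_lit 6741914360572018688)) (T.h (P (nat_lit 0)) (P (nat_lit 276664645384)))) (T.h (P (nat_lit 0)) (M (nat_lit 10572604232751))))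 (T.h (P (nat_lit 0)) (M (nat_lit 1997682262887)))))))), (P (nat_lit 0)), (P (nat_lit 0)), (P (nat_lit 0)), (P (nat_lit 0)), (T.h (T.h (P (nat_lit 0)) (T.h (T.h (P (nat_lit 0)) (T.h (M (nat_lit 42319398398230076072132607)) (T.h (P (nat_lit 0)) (T.h (M (nat_lit 34199415846760087551)) (T.h (P (nat_lit 0)) (P (nat_lit 11398929472080))))))) (T.h (P (nat_lit 0)) (T.h (T.h (P (nat_lit 0)) (T.h (M (nat_lit 34199415846760087551)) (T.h (P (nat_lit 0)) (M (nat_lit 22320898303007))))) (T.h (P (nat_lit 0)) (T.h (T.h (P (nat_lit 0)) (P (nat_lit 11398929472080))) (P (nat_lit 0)))))))) (T.h (T.h (T.h (P (nat_lit 632850604262346216334950400)) (T.h (P (nat_lit 0)) (T.h (M (nat_lit 5444174336417649917951)) (T.h (P (nat_lit 0)) (P (nat_lit 6338285416218624)))))) (T.h (P (nat_lit 0)) (T.h (T.h (M (nat_lit 5444174336417649917951)) (T.h (P (nat_lit 0)) (M (nat_lit 16577829793038335)))) (T.h (P (nat_lit 0)) (P (nat_lit 6338285416218624)))))) (T.h (T.h (P (nat_lit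 0)) (T.h (T.h (P (nat_lit 0)) (T.h (P (nat_lit 28103718752395198464)) (T.h (P (nat_lit 0)) (M (nat_lit 35369457765151))))) (T.h (P (nat_lit 0)) (T.h (T.h (P (nat_lit 0)) (M (nat_lit 35369457765151))) (P (nat_lit 0)))))) (T.h (T.h (T.h (P (nat_lit 2872800318579900678144)) (T.h (P (nat_lit 0)) (P (nat_lit 28346563097755648)))) (T.h (P (nat_lit 0)) (P (nat_lit 28346563097755648)))) (T.h (T.h (P (nat_lit 0)) (T.h (T.h (P (nat_lit 0)) (P (nat_lit 8222105591872))) (P (nat_lit 0)))) (M (nat_lit 18042578448285695))))))), (T.h (T.h (P (nat_lit 0)) (T.h (T.h (M (nat_lit 2183137425904434638667907071)) (T.h (P (nat_lit 0)) (T.h (P (nat_lit 1595751522983967981568)) (T.h (P (nat_lit 0)) (M (nat_lit 10387681152090111)))))) (T.h (P (nat_lit 0)) (T.h (T.h (P (nat_lit 1146563286424017174528)) (T.h (P (nat_lit 0)) (M (nat_lit 30936074729717759)))) (T.h (P (nat_lit 0)) (P (nat_lit 2008321073004544))))))) (T.h (T.h (T.h (P (nat_lit 0)) (T.h (P (nat_lit 11006440254763849941516288))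 (T.h (P (nat_lit 0)) (T.h (P (nat_lit 16119823565909393408)) (T.h (P (nat_lit 0)) (M (nat_lit 476646617775))))))) (T.h (P (nat_lit 0)) (T.h (T.h (P (nat_lit 0)) (T.h (P (nat_lit 17390635901448617984)) (T.h (P (nat_lit 0)) (P (nat_lit 3403801104368))))) (T.h (P (nat_lit 0)) (T.h (T.h (P (nat_lit 0)) (M (nat_lit 170731117199))) (P (nat_lit 0))))))) (T.h (T.h (P (nat_lit 0)) (T.h (T.h (M (nat_lit 27481446203344965074943)) (T.h (P (nat_lit 0)) (M (nat_lit 1654209649672191)))) (T.h (P (nat_lit 0)) (P (nat_lit 24685718477160448))))) (T.h (T.h (T.h (P (nat_lit 0)) (T.h (M (nat_lit 10212482558193565695)) (T.h (P (nat_lit 0)) (M (nat_lit 267617463791))))) (T.h (P (nat_lit 0)) (T.h (T.h (P (nat_lit 0)) (P (nat_lit 8038665908672))) (P (nat_lit 0))))) (T.h (T.h (P (nat_lit 0)) (M (nat_lit 4103378252595199))) (T.h (T.h (T.h (P (nat_lit 0)) (P (nat_lit 11875290719936))) (P (nat_lit 0))) (P (nat_lit 0))))))))]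
def lP12_28 : List (T ℤ) := [(T.h (T.h (P (nat_lit 0)) (T.h (T.h (P (nat_lit 0)) (T.h (M (nat_lit 6596670900851402304651263)) (T.h (P (nat_lit 0)) (T.h (P (nat_lit 19514475805688201216)) (T.h (P (nat_lit 0)) (M (nat_lit 5108631799679))))))) (T.h (P (nat_lit 0)) (T.h (T.h (P (nat_lit 0)) (T.h (M (nat_lit 4921241330123800575)) (T.h (P (nat_lit 0)) (P (nat_lit 7971373389648))))) (T.h (P (nat_lit 0)) (T.h (T.h (P (nat_lit 0)) (M (nat_lit 9164603746943))) (P (nat_lit 0)))))))) (T.h (T.h (T.h (P (nat_lit 4603839004082732782111948800)) (T.h (P (nat_lit 0)) (T.h (P (nat_lit 28647703300755549061120)) (T.h (P (nat_lit 0)) (P (nat_lit 27870905071534080)))))) (T.h (P (nat_lit 0)) (T.h (T.h (P (nat_lit 14294575167020482953216)) (T.h (P (nat_lit 0)) (M (nat_lit 4952338308300799)))) (T.h (P (nat_lit 0)) (M (nat_lit 4070874150305791)))))) (T.h (T.h (P (nat_lit 0)) (T.h (T.h (P (nat_lit 0)) (T.h (M (nat_lit 39250634255368191)) (T.h (P (nat_lit 0)) (P (nat_lit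 25102801519776))))) (T.h (P (nat_lit 0)) (T.h (T.h (P (nat_lit 0)) (P (nat_lit 31647341982192))) (P (nat_lit 0)))))) (T.h (T.h (T.h (M (nat_lit 451937267142675660799)) (T.h (P (nat_lit 0)) (M (nat_lit 16800158102618111)))) (T.h (P (nat_lit 0)) (M (nat_lit 17089846118907903)))) (T.h (T.h (P (nat_lit 0)) (T.h (T.h (P (nat_lit 0)) (M (nat_lit 1128251633855))) (P (nat_lit 0)))) (P (nat_lit 9716097229586432))))))), (T.h (T.h (P (nat_lit 0)) (T.h (T.h (M (nat_lit 9444388680319584730748026879)) (T.h (P (nat_lit 0)) (T.h (P (nat_lit 4498893292917248491520)) (T.h (P (nat_lit 0)) (P (nat_lit 17641106541363200)))))) (T.h (P (nat_lit 0)) (T.h (T.h (M (nat_lit 11887339130370524184575)) (T.h (P (nat_lit 0)) (M (nat_lit 1483925649195007)))) (T.h (P (nat_lit 0)) (P (nat_lit 2323722480533504))))))) (T.h (T.h (T.h (P (nat_lit 0)) (T.h (P (nat_lit 10198635777548292081057792)) (T.h (P (nat_lit 0)) (M (nat_lit 44064355139457122303))))) (T.h (P (nat_lit 0)) (T.h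 (T.h (P (nat_lit 0)) (M (nat_lit 9004690242220851199))) (P (nat_lit 0))))) (T.h (T.h (P (nat_lit 0)) (T.h (T.h (P (nat_lit 30742105541402773422080)) (T.h (P (nat_lit 0)) (M (nat_lit 44089042524880895)))) (T.h (P (nat_lit 0)) (M (nat_lit 22101788836069375))))) (T.h (T.h (T.h (P (nat_lit 0)) (M (nat_lit 10587787297082572799))) (P (nat_lit 0))) (T.h (T.h (P (nat_lit 0)) (P (nat_lit 24581947639840768))) (P (nat_lit 0))))))), (T.h (T.h (T.h (P (nat_lit 1007221268978411166551664230400)) (T.h (P (nat_lit 0)) (T.h (M (nat_lit 1646295968881660760424447)) (T.h (P (nat_lit 0)) (T.h (M (nat_lit 3969144862913069055)) (T.h (P (nat_lit 0)) (P (nat_lit 601849142920)))))))) (T.h (P (nat_lit 0)) (T.h (T.h (M (nat_lit 9829785734883881454141439)) (T.h (P (nat_lit 0)) (T.h (M (nat_lit 50559450639528624127)) (T.h (P (nat_lit 0)) (M (nat_lit 5478923227967)))))) (T.h (P (nat_lit 0)) (T.h (T.h (P (nat_lit 1574127376307060736)) (T.h (P (nat_lit 0)) (M (nat_lit 1162592684791))))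 (T.h (P (nat_lit 0)) (P (nat_lit 2321410375720)))))))) (T.h (T.h (P (nat_lit 0)) (T.h (T.h (P (nat_lit 0)) (T.h (P (nat_lit 9488147317601956003840)) (T.h (P (nat_lit 0)) (P (nat_lit 2883204816699392))))) (T.h (P (nat_lit 0)) (T.h (T.h (P (nat_lit 0)) (M (nat_lit 22284079390687231))) (P (nat_lit 0)))))) (T.h (T.h (T.h (M (nat_lit 7593625745013188629364735)) (T.h (P (nat_lit 0)) (T.h (M (nat_lit 20004478993695768575)) (T.h (P (nat_lit 0)) (M (nat_lit 387852908807)))))) (T.h (P (nat_lit 0)) (T.h (T.h (P (nat_lit 40064023006776655872)) (T.h (P (nat_lit 0)) (M (nat_lit 2293195138103)))) (T.h (P (nat_lit 0)) (M (nat_lit 8428242068191)))))) (T.h (T.h (P (nat_lit 0)) (T.h (T.h (P (nat_lit 0)) (M (nat_lit 13474633507799039))) (P (nat_lit 0)))) (T.h (T.h (T.h (P (nat_lit 6741914360572018688)) (T.h (P (nat_lit 0)) (M (nat_lit 10572604232751)))) (T.h (P (nat_lit 0)) (P (nat_lit 276664645384)))) (T.h (P (nat_lit 0)) (M (nat_lit 1997682262887)))))))), (T.h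 (T.h (T.h (P (nat_lit 0)) (T.h (M (nat_lit 2183137425904434638667907071)) (T.h (P (nat_lit 0)) (T.h (P (nat_lit 1146563286424017174528)) (T.h (P (nat_lit 0)) (P (nat_lit 2008321073004544))))))) (T.h (P (nat_lit 0)) (T.h (T.h (P (nat_lit 0)) (T.h (P (nat_lit 1595751522983967981568)) (T.h (P (nat_lit 0)) (M (nat_lit 30936074729717759))))) (T.h (P (nat_lit 0)) (T.h (T.h (P (nat_lit 0)) (M (nat_lit 10387681152090111))) (P (nat_lit 0))))))) (T.h (T.h (P (nat_lit 0)) (T.h (T.h (P (nat_lit 11006440254763849941516288)) (T.h (P (nat_lit 0)) (T.h (P (nat_lit 17390635901448617984)) (T.h (P (nat_lit 0)) (M (nat_lit 170731117199)))))) (T.h (P (nat_lit 0)) (T.h (T.h (P (nat_lit 16119823565909393408)) (T.h (P (nat_lit 0)) (P (nat_lit 3403801104368)))) (T.h (P (nat_lit 0)) (M (nat_lit 476646617775))))))) (T.h (T.h (T.h (P (nat_lit 0)) (T.h (M (nat_lit 27481446203344965074943)) (T.h (P (nat_lit 0)) (P (nat_lit 24685718477160448))))) (T.h (P (nat_lit 0)) (T.h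 (T.h (P (nat_lit 0)) (M (nat_lit 1654209649672191))) (P (nat_lit 0))))) (T.h (T.h (P (nat_lit 0)) (T.h (T.h (M (nat_lit 10212482558193565695)) (T.h (P (nat_lit 0)) (P (nat_lit 8038665908672)))) (T.h (P (nat_lit 0)) (M (nat_lit 267617463791))))) (T.h (T.h (T.h (P (nat_lit 0)) (M (nat_lit 4103378252595199))) (P (nat_lit 0))) (T.h (T.h (P (nat_lit 0)) (P (nat_lit 11875290719936))) (P (nat_lit 0)))))))), (T.h (T.h (T.h (M (nat_lit 810696587689923214839151329279)) (T.h (P (nat_lit 0)) (T.h (M (nat_lit 3407005411166908284141567)) (T.h (P (nat_lit 0)) (T.h (P (nat_lit 558531456423428096)) (T.h (P (nat_lit 0)) (M (nat_lit 4261242224735)))))))) (T.h (P (nat_lit 0)) (T.h (T.h (M (nat_lit 3407005411166908284141567)) (T.h (P (nat_lit 0)) (T.h (P (nat_lit 96046158667346608128)) (T.h (P (nat_lit 0)) (M (nat_lit 6016117140431)))))) (T.h (P (nat_lit 0)) (T.h (T.h (P (nat_lit 558531456423428096)) (T.h (P (nat_lit 0)) (M (nat_lit 6016117140431)))) (T.h (P (nat_lit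 0)) (M (nat_lit 4261242224735)))))))) (T.h (T.h (P (nat_lit 0)) (T.h (T.h (P (nat_lit 0)) (T.h (P (nat_lit 81885751788132947197952)) (T.h (P (nat_lit 0)) (P (nat_lit 62483176773517312))))) (T.h (P (nat_lit 0)) (T.h (T.h (P (nat_lit 0)) (P (nat_lit 62483176773517312))) (P (nat_lit 0)))))) (T.h (T.h (T.h (P (nat_lit 37753905792173428090863616)) (T.h (P (nat_lit 0)) (T.h (M (nat_lit 69781802947230826495)) (T.h (P (nat_lit 0)) (P (nat_lit 9878987290848)))))) (T.h (P (nat_lit 0)) (T.h (T.h (M (nat_lit 69781802947230826495)) (T.h (P (nat_lit 0)) (P (nat_lit 30474460727712)))) (T.h (P (nat_lit 0)) (P (nat_lit 9878987290848)))))) (T.h (T.h (P (nat_lit 0)) (T.h (T.h (P (nat_lit 0)) (M (nat_lit 59976003680468991))) (P (nat_lit 0)))) (T.h (T.h (T.h (M (nat_lit 3032841192715845631)) (T.h (P (nat_lit 0)) (P (nat_lit 13392062460096)))) (T.h (P (nat_lit 0)) (P (nat_lit 13392062460096)))) (T.h (P (nat_lit 0)) (P (nat_lit 6720453248160)))))))), (T.h (T.h (T.h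 (P (nat_lit 0)) (T.h (P (nat_lit 3057717378853825663268290560)) (T.h (P (nat_lit 0)) (T.h (P (nat_lit 1780258074724053024768)) (T.h (P (nat_lit 0)) (P (nat_lit 4763365724028928))))))) (T.h (P (nat_lit 0)) (T.h (T.h (P (nat_lit 0)) (T.h (P (nat_lit 8447562600720023683072)) (T.h (P (nat_lit 0)) (P (nat_lit 4163999934857216))))) (T.h (P (nat_lit 0)) (T.h (T.h (P (nat_lit 0)) (P (nat_lit 19241456788209664))) (P (nat_lit 0))))))) (T.h (T.h (P (nat_lit 0)) (T.h (T.h (M (nat_lit 12660772485101187447652351)) (T.h (P (nat_lit 0)) (M (nat_lit 45047154406338854911)))) (T.h (P (nat_lit 0)) (M (nat_lit 35855661794571845631))))) (T.h (T.h (T.h (P (nat_lit 0)) (T.h (M (nat_lit 34371714572181032665087)) (T.h (P (nat_lit 0)) (M (nat_lit 6497396134756351))))) (T.h (P (nat_lit 0)) (T.h (T.h (P (nat_lit 0)) (M (nat_lit 79412148893564927))) (P (nat_lit 0))))) (T.h (T.h (P (nat_lit 0)) (P (nat_lit 112093646349093830656))) (T.h (T.h (T.h (P (nat_lit 0)) (M (nat_lit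 72177182128979967))) (P (nat_lit 0))) (P (nat_lit 0))))))), (P (nat_lit 0)), (T.h (T.h (P (nat_lit 0)) (T.h (T.h (P (nat_lit 0)) (T.h (M (nat_lit 6596670900851402304651263)) (T.h (P (nat_lit 0)) (T.h (M (nat_lit 4921241330123800575)) (T.h (P (nat_lit 0)) (M (nat_lit 9164603746943))))))) (T.h (P (nat_lit 0)) (T.h (T.h (P (nat_lit 0)) (T.h (P (nat_lit 19514475805688201216)) (T.h (P (nat_lit 0)) (P (nat_lit 7971373389648))))) (T.h (P (nat_lit 0)) (T.h (T.h (P (nat_lit 0)) (M (nat_lit 5108631799679))) (P (nat_lit 0)))))))) (T.h (T.h (T.h (P (nat_lit 4603839004082732782111948800)) (T.h (P (nat_lit 0)) (T.h (P (nat_lit 14294575167020482953216)) (T.h (P (nat_lit 0)) (M (nat_lit 4070874150305791)))))) (T.h (P (nat_lit 0)) (T.h (T.h (P (nat_lit 28647703300755549061120)) (T.h (P (nat_lit 0)) (M (nat_lit 4952338308300799)))) (T.h (P (nat_lit 0)) (P (nat_lit 27870905071534080)))))) (T.h (T.h (P (nat_lit 0)) (T.h (T.h (P (nat_lit 0)) (T.h (M (nat_lit 39250634255368191))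 (T.h (P (nat_lit 0)) (P (nat_lit 31647341982192))))) (T.h (P (nat_lit 0)) (T.h (T.h (P (nat_lit 0)) (P (nat_lit 25102801519776))) (P (nat_lit 0)))))) (T.h (T.h (T.h (M (nat_lit 451937267142675660799)) (T.h (P (nat_lit 0)) (M (nat_lit 17089846118907903)))) (T.h (P (nat_lit 0)) (M (nat_lit 16800158102618111)))) (T.h (T.h (P (nat_lit 0)) (T.h (T.h (P (nat_lit 0)) (M (nat_lit 1128251633855))) (P (nat_lit 0)))) (P (nat_lit 9716097229586432)))))))]
def lP12_29 : List (T ℤ) := [(T.h (T.h (P (nat_lit 0)) (T.h (T.h (P (nat_lit 3057717378853825663268290560)) (T.h (P (nat_lit 0)) (T.h (P (nat_lit 8447562600720023683072)) (T.h (P (nat_lit 0)) (P (nat_lit 19241456788209664)))))) (T.h (P (nat_lit 0)) (T.h (T.h (P (nat_lit 1780258074724053024768)) (T.h (P (nat_lit 0)) (P (nat_lit 4163999934857216)))) (T.h (P (nat_lit 0)) (P (nat_lit 4763365724028928))))))) (T.h (T.h (T.h (P (nat_lit 0)) (T.h (M (nat_lit 12660772485101187447652351)) (T.h (P (nat_lit 0)) (M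 (nat_lit 35855661794571845631))))) (T.h (P (nat_lit 0)) (T.h (T.h (P (nat_lit 0)) (M (nat_lit 45047154406338854911))) (P (nat_lit 0))))) (T.h (T.h (P (nat_lit 0)) (T.h (T.h (M (nat_lit 34371714572181032665087)) (T.h (P (nat_lit 0)) (M (nat_lit 79412148893564927)))) (T.h (P (nat_lit 0)) (M (nat_lit 6497396134756351))))) (T.h (T.h (T.h (P (nat_lit 0)) (P (nat_lit 112093646349093830656))) (P (nat_lit 0))) (T.h (T.h (P (nat_lit 0)) (M (nat_lit 72177182128979967))) (P (nat_lit 0))))))), (P (nat_lit 0)), (T.h (T.h (T.h (P (nat_lit 0)) (T.h (M (nat_lit 9444388680319584730748026879)) (T.h (P (nat_lit 0)) (T.h (M (nat_lit 11887339130370524184575)) (T.h (P (nat_lit 0)) (P (nat_lit 2323722480533504))))))) (T.h (P (nat_lit 0)) (T.h (T.h (P (nat_lit 0)) (T.h (P (nat_lit 4498893292917248491520)) (T.h (P (nat_lit 0)) (M (nat_lit 1483925649195007))))) (T.h (P (nat_lit 0)) (T.h (T.h (P (nat_lit 0)) (P (nat_lit 17641106541363200))) (P (nat_lit 0))))))) (T.h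 (T.h (P (nat_lit 0)) (T.h (T.h (P (nat_lit 10198635777548292081057792)) (T.h (P (nat_lit 0)) (M (nat_lit 9004690242220851199)))) (T.h (P (nat_lit 0)) (M (nat_lit 44064355139457122303))))) (T.h (T.h (T.h (P (nat_lit 0)) (T.h (P (nat_lit 30742105541402773422080)) (T.h (P (nat_lit 0)) (M (nat_lit 22101788836069375))))) (T.h (P (nat_lit 0)) (T.h (T.h (P (nat_lit 0)) (M (nat_lit 44089042524880895))) (P (nat_lit 0))))) (T.h (T.h (P (nat_lit 0)) (M (nat_lit 10587787297082572799))) (T.h (T.h (T.h (P (nat_lit 0)) (P (nat_lit 24581947639840768))) (P (nat_lit 0))) (P (nat_lit 0))))))), (P (nat_lit 0)), (P (nat_lit 0)), (T.h (T.h (P (nat_lit 0)) (T.h (T.h (M (nat_lit 1778255715518571166740512767)) (T.h (P (nat_lit 0)) (T.h (P (nat_lit 17499995407311075016704)) (T.h (P (nat_lit 0)) (M (nat_lit 3285043163660287)))))) (T.h (P (nat_lit 0)) (T.h (T.h (P (nat_lit 2675285868908208193536)) (T.h (P (nat_lit 0)) (P (nat_lit 17958459313225728)))) (T.h (P (nat_lit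 0)) (P (nat_lit 718546660458496))))))) (T.h (T.h (T.h (P (nat_lit 0)) (T.h (M (nat_lit 3338570172647465308651519)) (T.h (P (nat_lit 0)) (T.h (M (nat_lit 10764987692249776127)) (T.h (P (nat_lit 0)) (P (nat_lit 2939598358152))))))) (T.h (P (nat_lit 0)) (T.h (T.h (P (nat_lit 0)) (T.h (M (nat_lit 18554454786258763775)) (T.h (P (nat_lit 0)) (P (nat_lit 4207983872432))))) (T.h (P (nat_lit 0)) (T.h (T.h (P (nat_lit 0)) (P (nat_lit 2698550200208))) (P (nat_lit 0))))))) (T.h (T.h (P (nat_lit 0)) (T.h (T.h (P (nat_lit 14394901155530508599296)) (T.h (P (nat_lit 0)) (M (nat_lit 26745412347199487)))) (T.h (P (nat_lit 0)) (M (nat_lit 1914496518979583))))) (T.h (T.h (T.h (P (nat_lit 0)) (T.h (P (nat_lit 7064002092364464128)) (T.h (P (nat_lit 0)) (M (nat_lit 11217075281215))))) (T.h (P (nat_lit 0)) (T.h (T.h (P (nat_lit 0)) (M (nat_lit 3184203260175))) (P (nat_lit 0))))) (T.h (T.h (P (nat_lit 0)) (P (nat_lit 1554501961842688))) (T.h (T.h (T.h (P (nat_lit 0))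 (P (nat_lit 5798274923560))) (P (nat_lit 0))) (P (nat_lit 0)))))))), (P (nat_lit 0)), (P (nat_lit 0))]
def lP12_30 : List (T ℤ) := [(P (nat_lit 0)), (T.h (T.h (T.h (P (nat_lit 0)) (T.h (M (nat_lit 1778255715518571166740512767)) (T.h (P (nat_lit 0)) (T.h (P (nat_lit 2675285868908208193536)) (T.h (P (nat_lit 0)) (P (nat_lit 718546660458496))))))) (T.h (P (nat_lit 0)) (T.h (T.h (P (nat_lit 0)) (T.h (P (nat_lit 17499995407311075016704)) (T.h (P (nat_lit 0)) (P (nat_lit 17958459313225728))))) (T.h (P (nat_lit 0)) (T.h (T.h (P (nat_lit 0)) (M (nat_lit 3285043163660287))) (P (nat_lit 0))))))) (T.h (T.h (P (nat_lit 0)) (T.h (T.h (M (nat_lit 3338570172647465308651519)) (T.h (P (nat_lit 0)) (T.h (M (nat_lit 18554454786258763775)) (T.h (P (nat_lit 0)) (P (nat_lit 2698550200208)))))) (T.h (P (nat_lit 0)) (T.h (T.h (M (nat_lit 10764987692249776127)) (T.h (P (nat_lit 0)) (P (nat_lit 4207983872432)))) (T.h (P (nat_lit 0)) (P (nat_lit 2939598358152)))))))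 (T.h (T.h (T.h (P (nat_lit 0)) (T.h (P (nat_lit 14394901155530508599296)) (T.h (P (nat_lit 0)) (M (nat_lit 1914496518979583))))) (T.h (P (nat_lit 0)) (T.h (T.h (P (nat_lit 0)) (M (nat_lit 26745412347199487))) (P (nat_lit 0))))) (T.h (T.h (P (nat_lit 0)) (T.h (T.h (P (nat_lit 7064002092364464128)) (T.h (P (nat_lit 0)) (M (nat_lit 3184203260175)))) (T.h (P (nat_lit 0)) (M (nat_lit 11217075281215))))) (T.h (T.h (T.h (P (nat_lit 0)) (P (nat_lit 1554501961842688))) (P (nat_lit 0))) (T.h (T.h (P (nat_lit 0)) (P (nat_lit 5798274923560))) (P (nat_lit 0)))))))), (T.h (T.h (T.h (P (nat_lit 7955821324122392065238856892416)) (T.h (P (nat_lit 0)) (T.h (P (nat_lit 706434760272425848406016)) (T.h (P (nat_lit 0)) (T.h (P (nat_lit 4427669298030313472)) (T.h (P (nat_lit 0)) (M (nat_lit 2838909460015)))))))) (T.h (P (nat_lit 0)) (T.h (T.h (P (nat_lit 706434760272425848406016)) (T.h (P (nat_lit 0)) (T.h (P (nat_lit 4485432474456817664)) (T.h (P (nat_lit 0)) (P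 (nat_lit 1714226929744)))))) (T.h (P (nat_lit 0)) (T.h (T.h (P (nat_lit 4427669298030313472)) (T.h (P (nat_lit 0)) (P (nat_lit 1714226929744)))) (T.h (P (nat_lit 0)) (M (nat_lit 2838909460015)))))))) (T.h (T.h (P (nat_lit 0)) (T.h (T.h (P (nat_lit 0)) (T.h (P (nat_lit 10114515785597969235968)) (T.h (P (nat_lit 0)) (M (nat_lit 7725811003260927))))) (T.h (P (nat_lit 0)) (T.h (T.h (P (nat_lit 0)) (M (nat_lit 7725811003260927))) (P (nat_lit 0)))))) (T.h (T.h (T.h (P (nat_lit 7393668704782508321931264)) (T.h (P (nat_lit 0)) (T.h (P (nat_lit 14592576984723750912)) (T.h (P (nat_lit 0)) (M (nat_lit 4410506974159)))))) (T.h (P (nat_lit 0)) (T.h (T.h (P (nat_lit 14592576984723750912)) (T.h (P (nat_lit 0)) (M (nat_lit 4950411610591)))) (T.h (P (nat_lit 0)) (M (nat_lit 4410506974159)))))) (T.h (T.h (P (nat_lit 0)) (T.h (T.h (P (nat_lit 0)) (P (nat_lit 123914970333184))) (P (nat_lit 0)))) (T.h (T.h (T.h (M (nat_lit 4062598691368730623)) (T.h (P (nat_lit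 0)) (M (nat_lit 3133739275967)))) (T.h (P (nat_lit 0)) (M (nat_lit 3133739275967)))) (T.h (P (nat_lit 0)) (P (nat_lit 3652989002656)))))))), (T.h (T.h (T.h (P (nat_lit 0)) (T.h (P (nat_lit 6851398732185546236270477312)) (T.h (P (nat_lit 0)) (T.h (M (nat_lit 4732893267667112165375)) (T.h (P (nat_lit 0)) (P (nat_lit 10744085451014144))))))) (T.h (P (nat_lit 0)) (T.h (T.h (P (nat_lit 0)) (T.h (M (nat_lit 21425206370652458582015)) (T.h (P (nat_lit 0)) (M (nat_lit 6016024335384575))))) (T.h (P (nat_lit 0)) (T.h (T.h (P (nat_lit 0)) (M (nat_lit 12728265808248831))) (P (nat_lit 0))))))) (T.h (T.h (P (nat_lit 0)) (T.h (T.h (M (nat_lit 11660322374750600744140799)) (T.h (P (nat_lit 0)) (T.h (P (nat_lit 39841637126717308928)) (T.h (P (nat_lit 0)) (M (nat_lit 129643420655)))))) (T.h (P (nat_lit 0)) (T.h (T.h (M (nat_lit 24783823898534739967)) (T.h (P (nat_lit 0)) (M (nat_lit 2136752720495)))) (T.h (P (nat_lit 0)) (P (nat_lit 2531236715616))))))) (T.h (T.h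 (T.h (P (nat_lit 0)) (T.h (P (nat_lit 18348311073687137681408)) (T.h (P (nat_lit 0)) (P (nat_lit 12497095545683968))))) (T.h (P (nat_lit 0)) (T.h (T.h (P (nat_lit 0)) (P (nat_lit 10815406722252800))) (P (nat_lit 0))))) (T.h (T.h (P (nat_lit 0)) (T.h (T.h (M (nat_lit 18520378691960176639)) (T.h (P (nat_lit 0)) (P (nat_lit 14600707220976)))) (T.h (P (nat_lit 0)) (P (nat_lit 6938019607344))))) (T.h (T.h (T.h (P (nat_lit 0)) (M (nat_lit 17793055875203071))) (P (nat_lit 0))) (T.h (T.h (P (nat_lit 0)) (M (nat_lit 170296125263))) (P (nat_lit 0)))))))), (T.h (T.h (T.h (M (nat_lit 1410570906212094888288156909567)) (T.h (P (nat_lit 0)) (T.h (M (nat_lit 2713202957367080711618559)) (T.h (P (nat_lit 0)) (M (nat_lit 20438749490257592319)))))) (T.h (P (nat_lit 0)) (T.h (T.h (P (nat_lit 9092474658105973488484352)) (T.h (P (nat_lit 0)) (P (nat_lit 2049630866191155200)))) (T.h (P (nat_lit 0)) (P (nat_lit 6450639816894709760)))))) (T.h (T.h (P (nat_lit 0)) (T.h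 (T.h (P (nat_lit 0)) (T.h (P (nat_lit 25522296248950983753728)) (T.h (P (nat_lit 0)) (M (nat_lit 16959839353831423))))) (T.h (P (nat_lit 0)) (T.h (T.h (P (nat_lit 0)) (M (nat_lit 20145895602651135))) (P (nat_lit 0)))))) (T.h (T.h (T.h (P (nat_lit 736332230657898056777728)) (T.h (P (nat_lit 0)) (M (nat_lit 12443088561886986239)))) (T.h (P (nat_lit 0)) (P (nat_lit 9901124243519700992)))) (T.h (T.h (P (nat_lit 0)) (T.h (T.h (P (nat_lit 0)) (M (nat_lit 8426976565428223))) (P (nat_lit 0)))) (M (nat_lit 8275653059435036671)))))), (P (nat_lit 0)), (T.h (T.h (P (nat_lit 0)) (T.h (T.h (P (nat_lit 6851398732185546236270477312)) (T.h (P (nat_lit 0)) (T.h (M (nat_lit 21425206370652458582015)) (T.h (P (nat_lit 0)) (M (nat_lit 12728265808248831)))))) (T.h (P (nat_lit 0)) (T.h (T.h (M (nat_lit 4732893267667112165375)) (T.h (P (nat_lit 0)) (M (nat_lit 6016024335384575)))) (T.h (P (nat_lit 0)) (P (nat_lit 10744085451014144))))))) (T.h (T.h (T.h (P (nat_lit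 0)) (T.h (M (nat_lit 11660322374750600744140799)) (T.h (P (nat_lit 0)) (T.h (M (nat_lit 24783823898534739967)) (T.h (P (nat_lit 0)) (P (nat_lit 2531236715616))))))) (T.h (P (nat_lit 0)) (T.h (T.h (P (nat_lit 0)) (T.h (P (nat_lit 39841637126717308928)) (T.h (P (nat_lit 0)) (M (nat_lit 2136752720495))))) (T.h (P (nat_lit 0)) (T.h (T.h (P (nat_lit 0)) (M (nat_lit 129643420655))) (P (nat_lit 0))))))) (T.h (T.h (P (nat_lit 0)) (T.h (T.h (P (nat_lit 18348311073687137681408)) (T.h (P (nat_lit 0)) (P (nat_lit 10815406722252800)))) (T.h (P (nat_lit 0)) (P (nat_lit 12497095545683968))))) (T.h (T.h (T.h (P (nat_lit 0)) (T.h (M (nat_lit 18520378691960176639)) (T.h (P (nat_lit 0)) (P (nat_lit 6938019607344))))) (T.h (P (nat_lit 0)) (T.h (T.h (P (nat_lit 0)) (P (nat_lit 14600707220976))) (P (nat_lit 0))))) (T.h (T.h (P (nat_lit 0)) (M (nat_lit 17793055875203071))) (T.h (T.h (T.h (P (nat_lit 0)) (M (nat_lit 170296125263))) (P (nat_lit 0))) (P (nat_lit 0)))))))),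 (T.h (T.h (P (nat_lit 0)) (T.h (T.h (P (nat_lit 0)) (T.h (P (nat_lit 4552137591189246866096128)) (T.h (P (nat_lit 0)) (M (nat_lit 3540785065044738047))))) (T.h (P (nat_lit 0)) (T.h (T.h (P (nat_lit 0)) (M (nat_lit 3540785065044738047))) (P (nat_lit 0)))))) (T.h (T.h (T.h (M (nat_lit 10791888917891311952700899327)) (T.h (P (nat_lit 0)) (T.h (P (nat_lit 39314200272193718321152)) (T.h (P (nat_lit 0)) (M (nat_lit 11019781030952959)))))) (T.h (P (nat_lit 0)) (T.h (T.h (P (nat_lit 39314200272193718321152)) (T.h (P (nat_lit 0)) (M (nat_lit 16427828951875583)))) (T.h (P (nat_lit 0)) (M (nat_lit 11019781030952959)))))) (T.h (T.h (P (nat_lit 0)) (T.h (T.h (P (nat_lit 0)) (P (nat_lit 60886120603446149120))) (P (nat_lit 0)))) (T.h (T.h (T.h (M (nat_lit 1626752472681682042879)) (T.h (P (nat_lit 0)) (M (nat_lit 30372869421531135)))) (T.h (P (nat_lit 0)) (M (nat_lit 30372869421531135)))) (T.h (P (nat_lit 0)) (M (nat_lit 13647232764051455)))))))]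
def lP12_31 : List (T ℤ) := [(P (nat_lit 0)), (T.h (T.h (T.h (M (nat_lit 1410570906212094888288156909567)) (T.h (P (nat_lit 0)) (T.h (P (nat_lit 9092474658105973488484352)) (T.h (P (nat_lit 0)) (P (nat_lit 6450639816894709760)))))) (T.h (P (nat_lit 0)) (T.h (T.h (M (nat_lit 2713202957367080711618559)) (T.h (P (nat_lit 0)) (P (nat_lit 2049630866191155200)))) (T.h (P (nat_lit 0)) (M (nat_lit 20438749490257592319)))))) (T.h (T.h (P (nat_lit 0)) (T.h (T.h (P (nat_lit 0)) (T.h (P (nat_lit 25522296248950983753728)) (T.h (P (nat_lit 0)) (M (nat_lit 20145895602651135))))) (T.h (P (nat_lit 0)) (T.h (T.h (P (nat_lit 0)) (M (nat_lit 16959839353831423))) (P (nat_lit 0)))))) (T.h (T.h (T.h (P (nat_lit 736332230657898056777728)) (T.h (P (nat_lit 0)) (P (nat_lit 9901124243519700992)))) (T.h (P (nat_lit 0)) (M (nat_lit 12443088561886986239)))) (T.h (T.h (P (nat_lit 0)) (T.h (T.h (P (nat_lit 0)) (M (nat_lit 8426976565428223))) (P (nat_lit 0)))) (M (nat_lit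 8275653059435036671)))))), (P (nat_lit 0)), (T.h (T.h (T.h (M (nat_lit 1044295661541056040152510496767)) (T.h (P (nat_lit 0)) (T.h (P (nat_lit 803693429346107486371840)) (T.h (P (nat_lit 0)) (T.h (P (nat_lit 12448279673438208)) (T.h (P (nat_lit 0)) (M (nat_lit 299772141639)))))))) (T.h (P (nat_lit 0)) (T.h (T.h (P (nat_lit 803693429346107486371840)) (T.h (P (nat_lit 0)) (T.h (M (nat_lit 3977279956173455359)) (T.h (P (nat_lit 0)) (M (nat_lit 653464833135)))))) (T.h (P (nat_lit 0)) (T.h (T.h (P (nat_lit 12448279673438208)) (T.h (P (nat_lit 0)) (M (nat_lit 653464833135)))) (T.h (P (nat_lit 0)) (M (nat_lit 299772141639)))))))) (T.h (T.h (P (nat_lit 0)) (T.h (T.h (P (nat_lit 0)) (T.h (M (nat_lit 521456027259417657343)) (T.h (P (nat_lit 0)) (P (nat_lit 2878621347512320))))) (T.h (P (nat_lit 0)) (T.h (T.h (P (nat_lit 0)) (P (nat_lit 2878621347512320))) (P (nat_lit 0)))))) (T.h (T.h (T.h (P (nat_lit 210793898891634601361408)) (T.h (P (nat_lit 0)) (T.h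 (M (nat_lit 5347940031472336895)) (T.h (P (nat_lit 0)) (P (nat_lit 4555144252096)))))) (T.h (P (nat_lit 0)) (T.h (T.h (M (nat_lit 5347940031472336895)) (T.h (P (nat_lit 0)) (P (nat_lit 7639513951520)))) (T.h (P (nat_lit 0)) (P (nat_lit 4555144252096)))))) (T.h (T.h (P (nat_lit 0)) (T.h (T.h (P (nat_lit 0)) (P (nat_lit 212236946046976))) (P (nat_lit 0)))) (T.h (T.h (T.h (M (nat_lit 1666622243523788799)) (T.h (P (nat_lit 0)) (P (nat_lit 973575943104)))) (T.h (P (nat_lit 0)) (P (nat_lit 973575943104)))) (T.h (P (nat_lit 0)) (P (nat_lit 1373919194976)))))))), (P (nat_lit 0)), (P (nat_lit 0)), (P (nat_lit 0)), (P (nat_lit 0))]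
def lP12_32 : List (T ℤ) := [(T.h (T.h (P (nat_lit 0)) (T.h (T.h (P (nat_lit 0)) (T.h (M (nat_lit 3147941618468942604402687)) (T.h (P (nat_lit 0)) (T.h (P (nat_lit 14588432640924188672)) (T.h (P (nat_lit 0)) (M (nat_lit 1368350825903))))))) (T.h (P (nat_lit 0)) (T.h (T.h (P (nat_lit 0)) (T.h (P (nat_lit 14588432640924188672)) (T.h (P (nat_lit 0)) (M (nat_lit 3114189266207))))) (T.h (P (nat_lit 0)) (T.h (T.h (P (nat_lit 0)) (M (nat_lit 1368350825903))) (P (nat_lit 0)))))))) (T.h (T.h (T.h (P (nat_lit 6710137670469634890370383872)) (T.h (P (nat_lit 0)) (T.h (P (nat_lit 5070382572884235124736)) (T.h (P (nat_lit 0)) (P (nat_lit 8134172210757632)))))) (T.h (P (nat_lit 0)) (T.h (T.h (P (nat_lit 5070382572884235124736)) (T.h (P (nat_lit 0)) (P (nat_lit 5119387493728256)))) (T.h (P (nat_lit 0)) (P (nat_lit 8134172210757632)))))) (T.h (T.h (P (nat_lit 0)) (T.h (T.h (P (nat_lit 0)) (T.h (P (nat_lit 15443931641180848128)) (T.h (P (nat_lit 0)) (M (nat_lit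 2196435085007))))) (T.h (P (nat_lit 0)) (T.h (T.h (P (nat_lit 0)) (M (nat_lit 2196435085007))) (P (nat_lit 0)))))) (T.h (T.h (T.h (P (nat_lit 8784275359082477518848)) (T.h (P (nat_lit 0)) (P (nat_lit 12419465812770816)))) (T.h (P (nat_lit 0)) (P (nat_lit 12419465812770816)))) (T.h (T.h (P (nat_lit 0)) (T.h (T.h (P (nat_lit 0)) (P (nat_lit 2972229967968))) (P (nat_lit 0)))) (M (nat_lit 7334363874459647))))))), (T.h (T.h (P (nat_lit 0)) (T.h (T.h (P (nat_lit 3402341988066177641621749760)) (T.h (P (nat_lit 0)) (T.h (M (nat_lit 19467932748244439793663)) (T.h (P (nat_lit 0)) (P (nat_lit 2379570363793408)))))) (T.h (P (nat_lit 0)) (T.h (T.h (P (nat_lit 311281724839209992192)) (T.h (P (nat_lit 0)) (P (nat_lit 3918274737192960)))) (T.h (P (nat_lit 0)) (M (nat_lit 396931717021695))))))) (T.h (T.h (T.h (P (nat_lit 0)) (T.h (M (nat_lit 17043484856467139858530303)) (T.h (P (nat_lit 0)) (M (nat_lit 12429613524915847167))))) (T.h (P (nat_lit 0)) (T.h (T.h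 (P (nat_lit 0)) (M (nat_lit 11739852891748302847))) (P (nat_lit 0))))) (T.h (T.h (P (nat_lit 0)) (T.h (T.h (P (nat_lit 22557465762590185488384)) (T.h (P (nat_lit 0)) (M (nat_lit 12701974667231231)))) (T.h (P (nat_lit 0)) (M (nat_lit 6354815568904191))))) (T.h (T.h (T.h (P (nat_lit 0)) (M (nat_lit 2896091241655566335))) (P (nat_lit 0))) (T.h (T.h (P (nat_lit 0)) (M (nat_lit 723882441949183))) (P (nat_lit 0))))))), (P (nat_lit 0)), (T.h (T.h (T.h (P (nat_lit 0)) (T.h (P (nat_lit 3402341988066177641621749760)) (T.h (P (nat_lit 0)) (T.h (P (nat_lit 311281724839209992192)) (T.h (P (nat_lit 0)) (M (nat_lit 396931717021695))))))) (T.h (P (nat_lit 0)) (T.h (T.h (P (nat_lit 0)) (T.h (M (nat_lit 19467932748244439793663)) (T.h (P (nat_lit 0)) (P (nat_lit 3918274737192960))))) (T.h (P (nat_lit 0)) (T.h (T.h (P (nat_lit 0)) (P (nat_lit 2379570363793408))) (P (nat_lit 0))))))) (T.h (T.h (P (nat_lit 0)) (T.h (T.h (M (nat_lit 17043484856467139858530303)) (T.h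 (P (nat_lit 0)) (M (nat_lit 11739852891748302847)))) (T.h (P (nat_lit 0)) (M (nat_lit 12429613524915847167))))) (T.h (T.h (T.h (P (nat_lit 0)) (T.h (P (nat_lit 22557465762590185488384)) (T.h (P (nat_lit 0)) (M (nat_lit 6354815568904191))))) (T.h (P (nat_lit 0)) (T.h (T.h (P (nat_lit 0)) (M (nat_lit 12701974667231231))) (P (nat_lit 0))))) (T.h (T.h (P (nat_lit 0)) (M (nat_lit 2896091241655566335))) (T.h (T.h (T.h (P (nat_lit 0)) (M (nat_lit 723882441949183))) (P (nat_lit 0))) (P (nat_lit 0))))))), (P (nat_lit 0)), (P (nat_lit 0)), (P (nat_lit 0)), (P (nat_lit 0))]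
def lP12_33 : List (T ℤ) := [(P (nat_lit 0)), (T.h (T.h (T.h (M (nat_lit 2330416154883494020266051239935)) (T.h (P (nat_lit 0)) (T.h (M (nat_lit 2720637866675313557110783)) (T.h (P (nat_lit 0)) (M (nat_lit 1895559017283977215)))))) (T.h (P (nat_lit 0)) (T.h (T.h (M (nat_lit 2720637866675313557110783)) (T.h (P (nat_lit 0)) (M (nat_lit 758678015956746239)))) (T.h (P (nat_lit 0)) (M (nat_lit 1895559017283977215)))))) (T.h (T.h (P (nat_lit 0)) (T.h (T.h (P (nat_lit 0)) (T.h (M (nat_lit 7531325478474476421119)) (T.h (P (nat_lit 0)) (P (nat_lit 1499433018032128))))) (T.h (P (nat_lit 0)) (T.h (T.h (P (nat_lit 0)) (P (nat_lit 1499433018032128))) (P (nat_lit 0)))))) (T.h (T.h (T.h (M (nat_lit 7464748788017715864403967)) (T.h (P (nat_lit 0)) (M (nat_lit 8962145797948833791)))) (T.h (P (nat_lit 0)) (M (nat_lit 8962145797948833791)))) (T.h (T.h (P (nat_lit 0)) (T.h (T.h (P (nat_lit 0)) (M (nat_lit 4058084649598975))) (P (nat_lit 0)))) (P (nat_lit 1573209784461557760)))))),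 (P (nat_lit 0)), (P (nat_lit 0)), (P (nat_lit 0)), (P (nat_lit 0)), (P (nat_lit 0))]

def CP12 : List (T ℤ) := lP12_0 ++ (lP12_1 ++ (lP12_2 ++ (lP12_3 ++ (lP12_4 ++ (lP12_5 ++ (lP12_6 ++ (lP12_7 ++ (lP12_8 ++ (lP12_9 ++ (lP12_10 ++ (lP12_11 ++ (lP12_12 ++ (lP12_13 ++ (lP12_14 ++ (lP12_15 ++ (lP12_16 ++ (lP12_17 ++ (lP12_18 ++ (lP12_19 ++ (lP12_20 ++ (lP12_21 ++ (lP12_22 ++ (lP12_23 ++ (lP12_24 ++ (lP12_25 ++ (lP12_26 ++ (lP12_27 ++ (lP12_28 ++ (lP12_29 ++ (lP12_30 ++ (lP12_31 ++ (lP12_32 ++ (lP12_33)))))))))))))))))))))))))))))))))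

/-- norms at radius 1536 -/
def NP12 : List ℕ := [(nat_lit 0), (nat_lit 0), (nat_lit 0), (nat_lit 0), (nat_lit 0), (nat_lit 0), (nat_lit 0), (nat_lit 0), (nat_lit 0), (nat_lit 4410501400340933843783516160000), (nat_lit 0), (nat_lit 0), (nat_lit 411411046674264767696847352365056), (nat_lit 969082308023408760553985399586816), (nat_lit 888601049330881506005857484144640), (nat_lit 966182649131066802350770473664512), (nat_lit 254261625275541648269989904384000), (nat_lit 0), (nat_lit 0), (nat_lit 0), (nat_lit 953227998367009259849341112156160), (nat_lit 2142046662201826503673660582133760), (nat_lit 1331223519653302334975689598435328), (nat_lit 1613795309023943884322386080694272), (nat_lit 575873884669591678851402210213888), (nat_lit 0), (nat_lit 0), (nat_lit 2226587653407480050283849562718208), (nat_lit 2284299159478268647550544676651008), (nat_lit 2728708445901069178453412347379712), (nat_lit 2056600871900106544620448178503680), (nat_lit 844307570411493033698848254459904),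 (nat_lit 0), (nat_lit 0), (nat_lit 953227998367009259849341112156160), (nat_lit 2284299159478268647550544676651008), (nat_lit 2455994549847383082120368093134848), (nat_lit 2285625970940388257796122581401600), (nat_lit 1523159102365283540589368190173184), (nat_lit 0), (nat_lit 411411046674264767696847352365056), (nat_lit 2142046662201826503673660582133760), (nat_lit 2728708445901069178453412347379712), (nat_lit 2285625970940388257796122581401600), (nat_lit 1030659033753610179230285934100480), (nat_lit 0), (nat_lit 969082308023408760553985399586816), (nat_lit 1331223519653302334975689598435328), (nat_lit 2056600871900106544620448178503680), (nat_lit 1523159102365283540589368190173184), (nat_lit 0), (nat_lit 888601049330881506005857484144640), (nat_lit 1613795309023943884322386080694272), (nat_lit 844307570411493033698848254459904), (nat_lit 0), (nat_lit 966182649131066802350770473664512), (nat_lit 575873884669591678851402210213888), (nat_lit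 0), (nat_lit 254261625275541648269989904384000), (nat_lit 0), (nat_lit 0), (nat_lit 0), (nat_lit 0), (nat_lit 437969271737790951512950400090112), (nat_lit 0), (nat_lit 0), (nat_lit 0), (nat_lit 0), (nat_lit 0), (nat_lit 953227998367009259849341112156160), (nat_lit 2098207104590359229842459050639360), (nat_lit 1331223519653302334975689598435328), (nat_lit 1613795309023943884322386080694272), (nat_lit 575873884669591678851402210213888), (nat_lit 0), (nat_lit 0), (nat_lit 776813729102413189154646075113472), (nat_lit 4925445913466677585938316450070528), (nat_lit 2185217542587216098846771874103296), (nat_lit 4688103931489208572784723686850560), (nat_lit 1661411954141767186527260705292288), (nat_lit 0), (nat_lit 0), (nat_lit 776813729102413189154646075113472), (nat_lit 7336327891404161616446875055947776), (nat_lit 4080867584233213937665393507172352), (nat_lit 5355020153855416248976047354150912), (nat_lit 2862910505307994813264819101106176), (nat_lit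 0), (nat_lit 953227998367009259849341112156160), (nat_lit 4925445913466677585938316450070528), (nat_lit 4080867584233213937665393507172352), (nat_lit 5688717577105362174555035755610112), (nat_lit 2029241539833486410631108007821312), (nat_lit 0), (nat_lit 2098207104590359229842459050639360), (nat_lit 2185217542587216098846771874103296), (nat_lit 5355020153855416248976047354150912), (nat_lit 2029241539833486410631108007821312), (nat_lit 437969271737790951512950400090112), (nat_lit 1331223519653302334975689598435328), (nat_lit 4688103931489208572784723686850560), (nat_lit 2862910505307994813264819101106176), (nat_lit 0), (nat_lit 1613795309023943884322386080694272), (nat_lit 1661411954141767186527260705292288), (nat_lit 0), (nat_lit 575873884669591678851402210213888), (nat_lit 0), (nat_lit 0), (nat_lit 0), (nat_lit 0), (nat_lit 0), (nat_lit 1179079864197301200281403761098752), (nat_lit 0), (nat_lit 0), (nat_lit 0), (nat_lit 0), (nat_lit 0), (nat_lit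 2226587653407480050283849562718208), (nat_lit 3700304383978513593497224111718400), (nat_lit 2728708445901069178453412347379712), (nat_lit 2056600871900106544620448178503680), (nat_lit 844307570411493033698848254459904), (nat_lit 0), (nat_lit 0), (nat_lit 776813729102413189154646075113472), (nat_lit 6176360297365588451432669795844096), (nat_lit 4080867584233213937665393507172352), (nat_lit 5355020153855416248976047354150912), (nat_lit 2862910505307994813264819101106176), (nat_lit 0), (nat_lit 2226587653407480050283849562718208), (nat_lit 6176360297365588451432669795844096), (nat_lit 7203467912024684763757886677450752), (nat_lit 2656187426029719392692498851692544), (nat_lit 1836542183987345052498578460639232), (nat_lit 0), (nat_lit 3700304383978513593497224111718400), (nat_lit 4080867584233213937665393507172352), (nat_lit 2656187426029719392692498851692544), (nat_lit 2573018518255440831752638600052736), (nat_lit 1179079864197301200281403761098752),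 (nat_lit 2728708445901069178453412347379712), (nat_lit 5355020153855416248976047354150912), (nat_lit 1836542183987345052498578460639232), (nat_lit 0), (nat_lit 2056600871900106544620448178503680), (nat_lit 2862910505307994813264819101106176), (nat_lit 0), (nat_lit 844307570411493033698848254459904), (nat_lit 0), (nat_lit 0), (nat_lit 0), (nat_lit 0), (nat_lit 1535146252215306822821551288614912), (nat_lit 0), (nat_lit 0), (nat_lit 0), (nat_lit 0), (nat_lit 0), (nat_lit 953227998367009259849341112156160), (nat_lit 3106109495134021697108149517942784), (nat_lit 2455994549847383082120368093134848), (nat_lit 2285625970940388257796122581401600), (nat_lit 1523159102365283540589368190173184), (nat_lit 0), (nat_lit 953227998367009259849341112156160), (nat_lit 5576101443115303176031788987318272), (nat_lit 4080867584233213937665393507172352), (nat_lit 5688717577105362174555035755610112), (nat_lit 2029241539833486410631108007821312), (nat_lit 0), (nat_lit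 3106109495134021697108149517942784), (nat_lit 4080867584233213937665393507172352), (nat_lit 2656187426029719392692498851692544), (nat_lit 2573018518255440831752638600052736), (nat_lit 1535146252215306822821551288614912), (nat_lit 2455994549847383082120368093134848), (nat_lit 5688717577105362174555035755610112), (nat_lit 2573018518255440831752638600052736), (nat_lit 0), (nat_lit 2285625970940388257796122581401600), (nat_lit 2029241539833486410631108007821312), (nat_lit 0), (nat_lit 1523159102365283540589368190173184), (nat_lit 0), (nat_lit 0), (nat_lit 0), (nat_lit 0), (nat_lit 713648551169673905693050716291072), (nat_lit 0), (nat_lit 0), (nat_lit 0), (nat_lit 0), (nat_lit 411411046674264767696847352365056), (nat_lit 2458984965427556135837789545562112), (nat_lit 2728708445901069178453412347379712), (nat_lit 2285625970940388257796122581401600), (nat_lit 1030659033753610179230285934100480), (nat_lit 0), (nat_lit 2458984965427556135837789545562112),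 (nat_lit 2185217542587216098846771874103296), (nat_lit 5355020153855416248976047354150912), (nat_lit 2029241539833486410631108007821312), (nat_lit 713648551169673905693050716291072), (nat_lit 2728708445901069178453412347379712), (nat_lit 5355020153855416248976047354150912), (nat_lit 1836542183987345052498578460639232), (nat_lit 0), (nat_lit 2285625970940388257796122581401600), (nat_lit 2029241539833486410631108007821312), (nat_lit 0), (nat_lit 1030659033753610179230285934100480), (nat_lit 0), (nat_lit 0), (nat_lit 0), (nat_lit 1535146252215306822821551288614912), (nat_lit 0), (nat_lit 0), (nat_lit 0), (nat_lit 0), (nat_lit 3206416876657132484610660136648704), (nat_lit 1331223519653302334975689598435328), (nat_lit 2056600871900106544620448178503680), (nat_lit 1523159102365283540589368190173184), (nat_lit 1535146252215306822821551288614912), (nat_lit 1331223519653302334975689598435328), (nat_lit 4688103931489208572784723686850560), (nat_lit 2862910505307994813264819101106176),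 (nat_lit 0), (nat_lit 2056600871900106544620448178503680), (nat_lit 2862910505307994813264819101106176), (nat_lit 0), (nat_lit 1523159102365283540589368190173184), (nat_lit 0), (nat_lit 0), (nat_lit 1179079864197301200281403761098752), (nat_lit 0), (nat_lit 0), (nat_lit 0), (nat_lit 1179079864197301200281403761098752), (nat_lit 888601049330881506005857484144640), (nat_lit 1613795309023943884322386080694272), (nat_lit 844307570411493033698848254459904), (nat_lit 0), (nat_lit 1613795309023943884322386080694272), (nat_lit 1661411954141767186527260705292288), (nat_lit 0), (nat_lit 844307570411493033698848254459904), (nat_lit 0), (nat_lit 437969271737790951512950400090112), (nat_lit 0), (nat_lit 0), (nat_lit 0), (nat_lit 0), (nat_lit 966182649131066802350770473664512), (nat_lit 575873884669591678851402210213888), (nat_lit 0), (nat_lit 575873884669591678851402210213888), (nat_lit 0), (nat_lit 0), (nat_lit 0), (nat_lit 0), (nat_lit 0), (nat_lit 254261625275541648269989904384000),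 (nat_lit 0), (nat_lit 0), (nat_lit 0), (nat_lit 0), (nat_lit 0)]


def lP22_0 : List (T ℤ) := [(P (nat_lit 0)), (M (nat_lit 4410501400340933843783516159999)), (P (nat_lit 0)), (P (nat_lit 0)), (T.h (T.h (T.h (M (nat_lit 169053768763270514532562239487)) (T.h (P (nat_lit 0)) (T.h (M (nat_lit 86023058324020239794175)) (T.h (P (nat_lit 0)) (T.h (P (nat_lit 544121181330997248)) (T.h (P (nat_lit 0)) (M (nat_lit 1570308029599)))))))) (T.h (P (nat_lit 0)) (T.h (T.h (P (nat_lit 1217783071519776866041856)) (T.h (P (nat_lit 0)) (T.h (M (nat_lit 2804189857717420031)) (T.h (P (nat_lit 0)) (P (nat_lit 1796611202864)))))) (T.h (P (nat_lit 0)) (T.h (T.h (M (nat_lit 2581556048120774655)) (T.h (P (nat_lit 0)) (P (nat_lit 2363898821680)))) (T.h (P (nat_lit 0)) (P (nat_lit 2889973006256)))))))) (T.h (T.h (P (nat_lit 0)) (T.h (T.h (P (nat_lit 0)) (T.h (M (nat_lit 1587471070678617161727)) (T.h (P (nat_lit 0)) (P (nat_lit 2147752284127232))))) (T.h (P (nat_lit 0))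 (T.h (T.h (P (nat_lit 0)) (P (nat_lit 3737556218937344))) (P (nat_lit 0)))))) (T.h (T.h (T.h (P (nat_lit 1217783071519776866041856)) (T.h (P (nat_lit 0)) (T.h (M (nat_lit 2804189857717420031)) (T.h (P (nat_lit 0)) (P (nat_lit 1796611202864)))))) (T.h (P (nat_lit 0)) (T.h (T.h (M (nat_lit 580103659812028415)) (T.h (P (nat_lit 0)) (P (nat_lit 2120391294816)))) (T.h (P (nat_lit 0)) (M (nat_lit 662576913727)))))) (T.h (T.h (P (nat_lit 0)) (T.h (T.h (P (nat_lit 0)) (P (nat_lit 3737556218937344))) (P (nat_lit 0)))) (T.h (T.h (T.h (M (nat_lit 2581556048120774655)) (T.h (P (nat_lit 0)) (P (nat_lit 2363898821680)))) (T.h (P (nat_lit 0)) (M (nat_lit 662576913727)))) (T.h (P (nat_lit 0)) (P (nat_lit 2889973006256)))))))), (T.h (T.h (T.h (P (nat_lit 0)) (T.h (M (nat_lit 6710137670469634890370383871)) (T.h (P (nat_lit 0)) (T.h (M (nat_lit 8784275359082477518847)) (T.h (P (nat_lit 0)) (P (nat_lit 7334363874459648))))))) (T.h (P (nat_lit 0)) (T.h (T.h (P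 (nat_lit 0)) (T.h (M (nat_lit 7145578919625811296255)) (T.h (P (nat_lit 0)) (M (nat_lit 6980069744508927))))) (T.h (P (nat_lit 0)) (T.h (T.h (P (nat_lit 0)) (M (nat_lit 7390483838959615))) (P (nat_lit 0))))))) (T.h (T.h (P (nat_lit 0)) (T.h (T.h (P (nat_lit 3147941618468942604402688)) (T.h (P (nat_lit 0)) (T.h (M (nat_lit 15443931641180848127)) (T.h (P (nat_lit 0)) (M (nat_lit 2972229967967)))))) (T.h (P (nat_lit 0)) (T.h (T.h (M (nat_lit 14654403036332425215)) (T.h (P (nat_lit 0)) (P (nat_lit 4503270309448)))) (T.h (P (nat_lit 0)) (P (nat_lit 1333360900360))))))) (T.h (T.h (T.h (P (nat_lit 0)) (T.h (M (nat_lit 2995186226142658953215)) (T.h (P (nat_lit 0)) (M (nat_lit 17858861881032703))))) (T.h (P (nat_lit 0)) (T.h (T.h (P (nat_lit 0)) (M (nat_lit 5119387493728255))) (P (nat_lit 0))))) (T.h (T.h (P (nat_lit 0)) (T.h (T.h (M (nat_lit 14522462245515952127)) (T.h (P (nat_lit 0)) (M (nat_lit 110400139431)))) (T.h (P (nat_lit 0)) (P (nat_lit 3114189266208)))))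 (T.h (T.h (T.h (P (nat_lit 0)) (M (nat_lit 8877860582555647))) (P (nat_lit 0))) (T.h (T.h (P (nat_lit 0)) (P (nat_lit 1403340751448))) (P (nat_lit 0)))))))), (T.h (T.h (T.h (P (nat_lit 7955821324122392065238856892416)) (T.h (P (nat_lit 0)) (T.h (P (nat_lit 7393668704782508321931264)) (T.h (P (nat_lit 0)) (T.h (M (nat_lit 4062598691368730623)) (T.h (P (nat_lit 0)) (P (nat_lit 3652989002656)))))))) (T.h (P (nat_lit 0)) (T.h (T.h (P (nat_lit 706434760272425848406016)) (T.h (P (nat_lit 0)) (T.h (P (nat_lit 14592576984723750912)) (T.h (P (nat_lit 0)) (M (nat_lit 3133739275967)))))) (T.h (P (nat_lit 0)) (T.h (T.h (P (nat_lit 4427669298030313472)) (T.h (P (nat_lit 0)) (M (nat_lit 4410506974159)))) (T.h (P (nat_lit 0)) (M (nat_lit 2838909460015)))))))) (T.h (T.h (P (nat_lit 0)) (T.h (T.h (P (nat_lit 0)) (T.h (P (nat_lit 10114515785597969235968)) (T.h (P (nat_lit 0)) (P (nat_lit 123914970333184))))) (T.h (P (nat_lit 0)) (T.h (T.h (P (nat_lit 0)) (M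 (nat_lit 7725811003260927))) (P (nat_lit 0)))))) (T.h (T.h (T.h (P (nat_lit 706434760272425848406016)) (T.h (P (nat_lit 0)) (T.h (P (nat_lit 14592576984723750912)) (T.h (P (nat_lit 0)) (M (nat_lit 3133739275967)))))) (T.h (P (nat_lit 0)) (T.h (T.h (P (nat_lit 4485432474456817664)) (T.h (P (nat_lit 0)) (M (nat_lit 4950411610591)))) (T.h (P (nat_lit 0)) (P (nat_lit 1714226929744)))))) (T.h (T.h (P (nat_lit 0)) (T.h (T.h (P (nat_lit 0)) (M (nat_lit 7725811003260927))) (P (nat_lit 0)))) (T.h (T.h (T.h (P (nat_lit 4427669298030313472)) (T.h (P (nat_lit 0)) (M (nat_lit 4410506974159)))) (T.h (P (nat_lit 0)) (P (nat_lit 1714226929744)))) (T.h (P (nat_lit 0)) (M (nat_lit 2838909460015)))))))), (T.h (T.h (T.h (P (nat_lit 0)) (T.h (P (nat_lit 6710137670469634890370383872)) (T.h (P (nat_lit 0)) (T.h (P (nat_lit 8784275359082477518848)) (T.h (P (nat_lit 0)) (M (nat_lit 7334363874459647))))))) (T.h (P (nat_lit 0)) (T.h (T.h (P (nat_lit 0)) (T.h (P (nat_lit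 5070382572884235124736)) (T.h (P (nat_lit 0)) (P (nat_lit 12419465812770816))))) (T.h (P (nat_lit 0)) (T.h (T.h (P (nat_lit 0)) (P (nat_lit 8134172210757632))) (P (nat_lit 0))))))) (T.h (T.h (P (nat_lit 0)) (T.h (T.h (M (nat_lit 3147941618468942604402687)) (T.h (P (nat_lit 0)) (T.h (P (nat_lit 15443931641180848128)) (T.h (P (nat_lit 0)) (P (nat_lit 2972229967968)))))) (T.h (P (nat_lit 0)) (T.h (T.h (P (nat_lit 14588432640924188672)) (T.h (P (nat_lit 0)) (M (nat_lit 2196435085007)))) (T.h (P (nat_lit 0)) (M (nat_lit 1368350825903))))))) (T.h (T.h (T.h (P (nat_lit 0)) (T.h (P (nat_lit 5070382572884235124736)) (T.h (P (nat_lit 0)) (P (nat_lit 12419465812770816))))) (T.h (P (nat_lit 0)) (T.h (T.h (P (nat_lit 0)) (P (nat_lit 5119387493728256))) (P (nat_lit 0))))) (T.h (T.h (P (nat_lit 0)) (T.h (T.h (P (nat_lit 14588432640924188672)) (T.h (P (nat_lit 0)) (M (nat_lit 2196435085007)))) (T.h (P (nat_lit 0)) (M (nat_lit 3114189266207))))) (T.h (T.h (T.h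 (P (nat_lit 0)) (P (nat_lit 8134172210757632))) (P (nat_lit 0))) (T.h (T.h (P (nat_lit 0)) (M (nat_lit 1368350825903))) (P (nat_lit 0))))))))]
def lP22_1 : List (T ℤ) := [(T.h (T.h (T.h (M (nat_lit 2330416154883494020266051239935)) (T.h (P (nat_lit 0)) (T.h (M (nat_lit 7464748788017715864403967)) (T.h (P (nat_lit 0)) (P (nat_lit 1573209784461557760)))))) (T.h (P (nat_lit 0)) (T.h (T.h (M (nat_lit 2720637866675313557110783)) (T.h (P (nat_lit 0)) (M (nat_lit 8962145797948833791)))) (T.h (P (nat_lit 0)) (M (nat_lit 1895559017283977215)))))) (T.h (T.h (P (nat_lit 0)) (T.h (T.h (P (nat_lit 0)) (T.h (M (nat_lit 7531325478474476421119)) (T.h (P (nat_lit 0)) (M (nat_lit 4058084649598975))))) (T.h (P (nat_lit 0)) (T.h (T.h (P (nat_lit 0)) (P (nat_lit 1499433018032128))) (P (nat_lit 0)))))) (T.h (T.h (T.h (M (nat_lit 2720637866675313557110783)) (T.h (P (nat_lit 0)) (M (nat_lit 8962145797948833791)))) (T.h (P (nat_lit 0)) (M (nat_lit 758678015956746239))))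 (T.h (T.h (P (nat_lit 0)) (T.h (T.h (P (nat_lit 0)) (P (nat_lit 1499433018032128))) (P (nat_lit 0)))) (M (nat_lit 1895559017283977215)))))), (P (nat_lit 0)), (P (nat_lit 0)), (P (nat_lit 0)), (T.h (T.h (P (nat_lit 0)) (T.h (T.h (P (nat_lit 0)) (T.h (P (nat_lit 8717922922079423085674496)) (T.h (P (nat_lit 0)) (T.h (P (nat_lit 6521691154386255872)) (T.h (P (nat_lit 0)) (M (nat_lit 5165935566879))))))) (T.h (P (nat_lit 0)) (T.h (T.h (P (nat_lit 0)) (T.h (M (nat_lit 193192647643365375)) (T.h (P (nat_lit 0)) (P (nat_lit 3373397582576))))) (T.h (P (nat_lit 0)) (T.h (T.h (P (nat_lit 0)) (M (nat_lit 424261102751))) (P (nat_lit 0)))))))) (T.h (T.h (T.h (P (nat_lit 532858792078950653260464128)) (T.h (P (nat_lit 0)) (T.h (M (nat_lit 4144768062586427015167)) (T.h (P (nat_lit 0)) (P (nat_lit 10195113124757504)))))) (T.h (P (nat_lit 0)) (T.h (T.h (P (nat_lit 3321691345876869447680)) (T.h (P (nat_lit 0)) (P (nat_lit 15787150469627904)))) (T.h (P (nat_lit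 0)) (P (nat_lit 2725830294568960)))))) (T.h (T.h (P (nat_lit 0)) (T.h (T.h (P (nat_lit 0)) (T.h (P (nat_lit 10942545611232116736)) (T.h (P (nat_lit 0)) (M (nat_lit 9748205673263))))) (T.h (P (nat_lit 0)) (T.h (T.h (P (nat_lit 0)) (M (nat_lit 172863613551))) (P (nat_lit 0)))))) (T.h (T.h (T.h (M (nat_lit 3075121913902334476287)) (T.h (P (nat_lit 0)) (M (nat_lit 14061861106614271)))) (T.h (P (nat_lit 0)) (P (nat_lit 15163554349252608)))) (T.h (T.h (P (nat_lit 0)) (T.h (T.h (P (nat_lit 0)) (P (nat_lit 3166704741056))) (P (nat_lit 0)))) (M (nat_lit 1221575086440447))))))), (T.h (T.h (P (nat_lit 0)) (T.h (T.h (M (nat_lit 8105240833316528014414053375)) (T.h (P (nat_lit 0)) (T.h (M (nat_lit 18612874587945052405759)) (T.h (P (nat_lit 0)) (P (nat_lit 23898006275555328)))))) (T.h (P (nat_lit 0)) (T.h (T.h (P (nat_lit 6157605607908443160576)) (T.h (P (nat_lit 0)) (M (nat_lit 5484856430657535)))) (T.h (P (nat_lit 0)) (M (nat_lit 14652418540830719)))))))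 (T.h (T.h (T.h (P (nat_lit 0)) (T.h (P (nat_lit 4215725895776875352948736)) (T.h (P (nat_lit 0)) (T.h (P (nat_lit 33868761651432390656)) (T.h (P (nat_lit 0)) (P (nat_lit 966839890088))))))) (T.h (P (nat_lit 0)) (T.h (T.h (P (nat_lit 0)) (T.h (M (nat_lit 23926501528834146303)) (T.h (P (nat_lit 0)) (M (nat_lit 19419484670495))))) (T.h (P (nat_lit 0)) (T.h (T.h (P (nat_lit 0)) (P (nat_lit 2892398064512))) (P (nat_lit 0))))))) (T.h (T.h (P (nat_lit 0)) (T.h (T.h (P (nat_lit 20407429106314850074624)) (T.h (P (nat_lit 0)) (M (nat_lit 21479489433075711)))) (T.h (P (nat_lit 0)) (P (nat_lit 13934158588248064))))) (T.h (T.h (T.h (P (nat_lit 0)) (T.h (P (nat_lit 29294307247426371584)) (T.h (P (nat_lit 0)) (P (nat_lit 4797394601552))))) (T.h (P (nat_lit 0)) (T.h (T.h (P (nat_lit 0)) (P (nat_lit 17916783817936))) (P (nat_lit 0))))) (T.h (T.h (P (nat_lit 0)) (P (nat_lit 18185428906213376))) (T.h (T.h (T.h (P (nat_lit 0)) (P (nat_lit 2467984298904))) (P (nat_lit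 0))) (P (nat_lit 0)))))))), (T.h (T.h (P (nat_lit 0)) (T.h (T.h (P (nat_lit 0)) (T.h (P (nat_lit 11006440254763849941516288)) (T.h (P (nat_lit 0)) (T.h (M (nat_lit 10212482558193565695)) (T.h (P (nat_lit 0)) (P (nat_lit 11875290719936))))))) (T.h (P (nat_lit 0)) (T.h (T.h (P (nat_lit 0)) (T.h (P (nat_lit 16119823565909393408)) (T.h (P (nat_lit 0)) (M (nat_lit 267617463791))))) (T.h (P (nat_lit 0)) (T.h (T.h (P (nat_lit 0)) (M (nat_lit 476646617775))) (P (nat_lit 0)))))))) (T.h (T.h (T.h (M (nat_lit 2183137425904434638667907071)) (T.h (P (nat_lit 0)) (T.h (M (nat_lit 27481446203344965074943)) (T.h (P (nat_lit 0)) (M (nat_lit 4103378252595199)))))) (T.h (P (nat_lit 0)) (T.h (T.h (P (nat_lit 1595751522983967981568)) (T.h (P (nat_lit 0)) (M (nat_lit 1654209649672191)))) (T.h (P (nat_lit 0)) (M (nat_lit 10387681152090111)))))) (T.h (T.h (P (nat_lit 0)) (T.h (T.h (P (nat_lit 0)) (T.h (P (nat_lit 17390635901448617984)) (T.h (P (nat_lit 0)) (P (nat_lit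 8038665908672))))) (T.h (P (nat_lit 0)) (T.h (T.h (P (nat_lit 0)) (P (nat_lit 3403801104368))) (P (nat_lit 0)))))) (T.h (T.h (T.h (P (nat_lit 1146563286424017174528)) (T.h (P (nat_lit 0)) (P (nat_lit 24685718477160448)))) (T.h (P (nat_lit 0)) (M (nat_lit 30936074729717759)))) (T.h (T.h (P (nat_lit 0)) (T.h (T.h (P (nat_lit 0)) (M (nat_lit 170731117199))) (P (nat_lit 0)))) (P (nat_lit 2008321073004544))))))), (T.h (T.h (P (nat_lit 0)) (T.h (T.h (P (nat_lit 6851398732185546236270477312)) (T.h (P (nat_lit 0)) (T.h (P (nat_lit 18348311073687137681408)) (T.h (P (nat_lit 0)) (M (nat_lit 17793055875203071)))))) (T.h (P (nat_lit 0)) (T.h (T.h (M (nat_lit 4732893267667112165375)) (T.h (P (nat_lit 0)) (P (nat_lit 12497095545683968)))) (T.h (P (nat_lit 0)) (P (nat_lit 10744085451014144))))))) (T.h (T.h (T.h (P (nat_lit 0)) (T.h (M (nat_lit 11660322374750600744140799)) (T.h (P (nat_lit 0)) (T.h (M (nat_lit 18520378691960176639)) (T.h (P (nat_lit 0)) (M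 (nat_lit 170296125263))))))) (T.h (P (nat_lit 0)) (T.h (T.h (P (nat_lit 0)) (T.h (P (nat_lit 39841637126717308928)) (T.h (P (nat_lit 0)) (P (nat_lit 14600707220976))))) (T.h (P (nat_lit 0)) (T.h (T.h (P (nat_lit 0)) (M (nat_lit 129643420655))) (P (nat_lit 0))))))) (T.h (T.h (P (nat_lit 0)) (T.h (T.h (M (nat_lit 21425206370652458582015)) (T.h (P (nat_lit 0)) (P (nat_lit 10815406722252800)))) (T.h (P (nat_lit 0)) (M (nat_lit 6016024335384575))))) (T.h (T.h (T.h (P (nat_lit 0)) (T.h (M (nat_lit 24783823898534739967)) (T.h (P (nat_lit 0)) (P (nat_lit 6938019607344))))) (T.h (P (nat_lit 0)) (T.h (T.h (P (nat_lit 0)) (M (nat_lit 2136752720495))) (P (nat_lit 0))))) (T.h (T.h (P (nat_lit 0)) (M (nat_lit 12728265808248831))) (T.h (T.h (T.h (P (nat_lit 0)) (P (nat_lit 2531236715616))) (P (nat_lit 0))) (P (nat_lit 0))))))))]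
def lP22_2 : List (T ℤ) := [(T.h (T.h (P (nat_lit 0)) (T.h (T.h (P (nat_lit 0)) (T.h (M (nat_lit 17043484856467139858530303)) (T.h (P (nat_lit 0)) (M (nat_lit 2896091241655566335))))) (T.h (P (nat_lit 0)) (T.h (T.h (P (nat_lit 0)) (M (nat_lit 12429613524915847167))) (P (nat_lit 0)))))) (T.h (T.h (T.h (P (nat_lit 3402341988066177641621749760)) (T.h (P (nat_lit 0)) (T.h (P (nat_lit 22557465762590185488384)) (T.h (P (nat_lit 0)) (M (nat_lit 723882441949183)))))) (T.h (P (nat_lit 0)) (T.h (T.h (M (nat_lit 19467932748244439793663)) (T.h (P (nat_lit 0)) (M (nat_lit 12701974667231231)))) (T.h (P (nat_lit 0)) (P (nat_lit 2379570363793408)))))) (T.h (T.h (P (nat_lit 0)) (T.h (T.h (P (nat_lit 0)) (M (nat_lit 11739852891748302847))) (P (nat_lit 0)))) (T.h (T.h (T.h (P (nat_lit 311281724839209992192)) (T.h (P (nat_lit 0)) (M (nat_lit 6354815568904191)))) (T.h (P (nat_lit 0)) (P (nat_lit 3918274737192960)))) (T.h (P (nat_lit 0)) (M (nat_lit 396931717021695))))))),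 (P (nat_lit 0)), (P (nat_lit 0)), (P (nat_lit 0)), (T.h (T.h (T.h (P (nat_lit 1974437142523453654025568780288)) (T.h (P (nat_lit 0)) (T.h (P (nat_lit 3776107581101057807220736)) (T.h (P (nat_lit 0)) (T.h (M (nat_lit 455214168597856255)) (T.h (P (nat_lit 0)) (P (nat_lit 1320627043552)))))))) (T.h (P (nat_lit 0)) (T.h (T.h (P (nat_lit 3776107581101057807220736)) (T.h (P (nat_lit 0)) (T.h (P (nat_lit 47664521656557109248)) (T.h (P (nat_lit 0)) (M (nat_lit 6116429705375)))))) (T.h (P (nat_lit 0)) (T.h (T.h (M (nat_lit 455214168597856255)) (T.h (P (nat_lit 0)) (M (nat_lit 6116429705375)))) (T.h (P (nat_lit 0)) (P (nat_lit 1320627043552)))))))) (T.h (T.h (P (nat_lit 0)) (T.h (T.h (P (nat_lit 0)) (T.h (M (nat_lit 35916735902168758878207)) (T.h (P (nat_lit 0)) (P (nat_lit 31562004246757376))))) (T.h (P (nat_lit 0)) (T.h (T.h (P (nat_lit 0)) (P (nat_lit 31562004246757376))) (P (nat_lit 0)))))) (T.h (T.h (T.h (M (nat_lit 9758004229517509839028223)) (T.h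 (P (nat_lit 0)) (T.h (M (nat_lit 9060807759313764351)) (T.h (P (nat_lit 0)) (M (nat_lit 4691781859471)))))) (T.h (P (nat_lit 0)) (T.h (T.h (M (nat_lit 9060807759313764351)) (T.h (P (nat_lit 0)) (M (nat_lit 2560356751999)))) (T.h (P (nat_lit 0)) (M (nat_lit 4691781859471)))))) (T.h (T.h (P (nat_lit 0)) (T.h (T.h (P (nat_lit 0)) (M (nat_lit 83825974921003007))) (P (nat_lit 0)))) (T.h (T.h (T.h (P (nat_lit 1083103659241242624)) (T.h (P (nat_lit 0)) (P (nat_lit 2064152749056)))) (T.h (P (nat_lit 0)) (P (nat_lit 2064152749056)))) (T.h (P (nat_lit 0)) (M (nat_lit 1030947796895)))))))), (T.h (T.h (T.h (P (nat_lit 0)) (T.h (P (nat_lit 7410480982141196655933784064)) (T.h (P (nat_lit 0)) (T.h (M (nat_lit 11758016684598470115327)) (T.h (P (nat_lit 0)) (M (nat_lit 7868204061982719))))))) (T.h (P (nat_lit 0)) (T.h (T.h (P (nat_lit 0)) (T.h (M (nat_lit 34692595357611779424255)) (T.h (P (nat_lit 0)) (P (nat_lit 28860658306154496))))) (T.h (P (nat_lit 0))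 (T.h (T.h (P (nat_lit 0)) (P (nat_lit 4797928639463424))) (P (nat_lit 0))))))) (T.h (T.h (P (nat_lit 0)) (T.h (T.h (P (nat_lit 3641499163075808254230528)) (T.h (P (nat_lit 0)) (T.h (P (nat_lit 55498869461626126336)) (T.h (P (nat_lit 0)) (P (nat_lit 295401305272)))))) (T.h (P (nat_lit 0)) (T.h (T.h (M (nat_lit 16133808216185241599)) (T.h (P (nat_lit 0)) (M (nat_lit 30116912663583)))) (T.h (P (nat_lit 0)) (P (nat_lit 9053255530256))))))) (T.h (T.h (T.h (P (nat_lit 0)) (T.h (M (nat_lit 11651508633687157637119)) (T.h (P (nat_lit 0)) (M (nat_lit 741143611080703))))) (T.h (P (nat_lit 0)) (T.h (T.h (P (nat_lit 0)) (M (nat_lit 39638468407689215))) (P (nat_lit 0))))) (T.h (T.h (P (nat_lit 0)) (T.h (T.h (P (nat_lit 4857255339529076736)) (T.h (P (nat_lit 0)) (M (nat_lit 3302925781727)))) (T.h (P (nat_lit 0)) (M (nat_lit 11117983546151))))) (T.h (T.h (T.h (P (nat_lit 0)) (M (nat_lit 20178261076901887))) (P (nat_lit 0))) (T.h (T.h (P (nat_lit 0)) (P (nat_lit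 3619901669680))) (P (nat_lit 0)))))))), (T.h (T.h (T.h (P (nat_lit 9532113103949875524296396242944)) (T.h (P (nat_lit 0)) (T.h (M (nat_lit 3988164356882201506217983)) (T.h (P (nat_lit 0)) (T.h (P (nat_lit 3867644409403146240)) (T.h (P (nat_lit 0)) (M (nat_lit 4494899552751)))))))) (T.h (P (nat_lit 0)) (T.h (T.h (P (nat_lit 3032100729163460762402816)) (T.h (P (nat_lit 0)) (T.h (M (nat_lit 57813725855048794111)) (T.h (P (nat_lit 0)) (P (nat_lit 18872188738032)))))) (T.h (P (nat_lit 0)) (T.h (T.h (P (nat_lit 28767898205744529408)) (T.h (P (nat_lit 0)) (P (nat_lit 7861092761200)))) (T.h (P (nat_lit 0)) (M (nat_lit 6454986133007)))))))) (T.h (T.h (P (nat_lit 0)) (T.h (T.h (P (nat_lit 0)) (T.h (M (nat_lit 11273622562630300336127)) (T.h (P (nat_lit 0)) (M (nat_lit 28669640327397375))))) (T.h (P (nat_lit 0)) (T.h (T.h (P (nat_lit 0)) (P (nat_lit 4062213188222976))) (P (nat_lit 0)))))) (T.h (T.h (T.h (M (nat_lit 5822015326319091937968127)) (T.h (P (nat_lit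 0)) (T.h (P (nat_lit 2322674579165675520)) (T.h (P (nat_lit 0)) (P (nat_lit 66173550912)))))) (T.h (P (nat_lit 0)) (T.h (T.h (P (nat_lit 37294152127986270208)) (T.h (P (nat_lit 0)) (P (nat_lit 8548507008608)))) (T.h (P (nat_lit 0)) (P (nat_lit 15481464103056)))))) (T.h (T.h (P (nat_lit 0)) (T.h (T.h (P (nat_lit 0)) (P (nat_lit 76325036144197632))) (P (nat_lit 0)))) (T.h (T.h (T.h (M (nat_lit 8903747042262646783)) (T.h (P (nat_lit 0)) (M (nat_lit 5131028078175)))) (T.h (P (nat_lit 0)) (M (nat_lit 2689076313615)))) (T.h (P (nat_lit 0)) (M (nat_lit 2135898518655)))))))), (T.h (T.h (T.h (P (nat_lit 0)) (T.h (P (nat_lit 4603839004082732782111948800)) (T.h (P (nat_lit 0)) (T.h (M (nat_lit 451937267142675660799)) (T.h (P (nat_lit 0)) (P (nat_lit 9716097229586432))))))) (T.h (P (nat_lit 0)) (T.h (T.h (P (nat_lit 0)) (T.h (P (nat_lit 28647703300755549061120)) (T.h (P (nat_lit 0)) (M (nat_lit 16800158102618111))))) (T.h (P (nat_lit 0)) (T.h (T.h (P (nat_lit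 0)) (P (nat_lit 27870905071534080))) (P (nat_lit 0))))))) (T.h (T.h (P (nat_lit 0)) (T.h (T.h (M (nat_lit 6596670900851402304651263)) (T.h (P (nat_lit 0)) (T.h (M (nat_lit 39250634255368191)) (T.h (P (nat_lit 0)) (M (nat_lit 1128251633855)))))) (T.h (P (nat_lit 0)) (T.h (T.h (P (nat_lit 19514475805688201216)) (T.h (P (nat_lit 0)) (P (nat_lit 25102801519776)))) (T.h (P (nat_lit 0)) (M (nat_lit 5108631799679))))))) (T.h (T.h (T.h (P (nat_lit 0)) (T.h (P (nat_lit 14294575167020482953216)) (T.h (P (nat_lit 0)) (M (nat_lit 17089846118907903))))) (T.h (P (nat_lit 0)) (T.h (T.h (P (nat_lit 0)) (M (nat_lit 4952338308300799))) (P (nat_lit 0))))) (T.h (T.h (P (nat_lit 0)) (T.h (T.h (M (nat_lit 4921241330123800575)) (T.h (P (nat_lit 0)) (P (nat_lit 31647341982192)))) (T.h (P (nat_lit 0)) (P (nat_lit 7971373389648))))) (T.h (T.h (T.h (P (nat_lit 0)) (M (nat_lit 4070874150305791))) (P (nat_lit 0))) (T.h (T.h (P (nat_lit 0)) (M (nat_lit 9164603746943)))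 (P (nat_lit 0))))))))]
def lP22_3 : List (T ℤ) := [(T.h (T.h (T.h (M (nat_lit 1410570906212094888288156909567)) (T.h (P (nat_lit 0)) (T.h (P (nat_lit 736332230657898056777728)) (T.h (P (nat_lit 0)) (M (nat_lit 8275653059435036671)))))) (T.h (P (nat_lit 0)) (T.h (T.h (M (nat_lit 2713202957367080711618559)) (T.h (P (nat_lit 0)) (M (nat_lit 12443088561886986239)))) (T.h (P (nat_lit 0)) (M (nat_lit 20438749490257592319)))))) (T.h (T.h (P (nat_lit 0)) (T.h (T.h (P (nat_lit 0)) (T.h (P (nat_lit 25522296248950983753728)) (T.h (P (nat_lit 0)) (M (nat_lit 8426976565428223))))) (T.h (P (nat_lit 0)) (T.h (T.h (P (nat_lit 0)) (M (nat_lit 16959839353831423))) (P (nat_lit 0)))))) (T.h (T.h (T.h (P (nat_lit 9092474658105973488484352)) (T.h (P (nat_lit 0)) (P (nat_lit 9901124243519700992)))) (T.h (P (nat_lit 0)) (P (nat_lit 2049630866191155200)))) (T.h (T.h (P (nat_lit 0)) (T.h (T.h (P (nat_lit 0)) (M (nat_lit 20145895602651135))) (P (nat_lit 0)))) (P (nat_lit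 6450639816894709760)))))), (P (nat_lit 0)), (P (nat_lit 0)), (T.h (T.h (P (nat_lit 0)) (T.h (T.h (P (nat_lit 0)) (T.h (P (nat_lit 8717922922079423085674496)) (T.h (P (nat_lit 0)) (T.h (M (nat_lit 193192647643365375)) (T.h (P (nat_lit 0)) (M (nat_lit 424261102751))))))) (T.h (P (nat_lit 0)) (T.h (T.h (P (nat_lit 0)) (T.h (P (nat_lit 6521691154386255872)) (T.h (P (nat_lit 0)) (P (nat_lit 3373397582576))))) (T.h (P (nat_lit 0)) (T.h (T.h (P (nat_lit 0)) (M (nat_lit 5165935566879))) (P (nat_lit 0)))))))) (T.h (T.h (T.h (P (nat_lit 532858792078950653260464128)) (T.h (P (nat_lit 0)) (T.h (P (nat_lit 3321691345876869447680)) (T.h (P (nat_lit 0)) (P (nat_lit 2725830294568960)))))) (T.h (P (nat_lit 0)) (T.h (T.h (M (nat_lit 4144768062586427015167)) (T.h (P (nat_lit 0)) (P (nat_lit 15787150469627904)))) (T.h (P (nat_lit 0)) (P (nat_lit 10195113124757504)))))) (T.h (T.h (P (nat_lit 0)) (T.h (T.h (P (nat_lit 0)) (T.h (P (nat_lit 10942545611232116736))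 (T.h (P (nat_lit 0)) (M (nat_lit 172863613551))))) (T.h (P (nat_lit 0)) (T.h (T.h (P (nat_lit 0)) (M (nat_lit 9748205673263))) (P (nat_lit 0)))))) (T.h (T.h (T.h (M (nat_lit 3075121913902334476287)) (T.h (P (nat_lit 0)) (P (nat_lit 15163554349252608)))) (T.h (P (nat_lit 0)) (M (nat_lit 14061861106614271)))) (T.h (T.h (P (nat_lit 0)) (T.h (T.h (P (nat_lit 0)) (P (nat_lit 3166704741056))) (P (nat_lit 0)))) (M (nat_lit 1221575086440447))))))), (T.h (T.h (P (nat_lit 0)) (T.h (T.h (P (nat_lit 7410480982141196655933784064)) (T.h (P (nat_lit 0)) (T.h (M (nat_lit 34692595357611779424255)) (T.h (P (nat_lit 0)) (P (nat_lit 4797928639463424)))))) (T.h (P (nat_lit 0)) (T.h (T.h (M (nat_lit 11758016684598470115327)) (T.h (P (nat_lit 0)) (P (nat_lit 28860658306154496)))) (T.h (P (nat_lit 0)) (M (nat_lit 7868204061982719))))))) (T.h (T.h (T.h (P (nat_lit 0)) (T.h (P (nat_lit 3641499163075808254230528)) (T.h (P (nat_lit 0)) (T.h (M (nat_lit 16133808216185241599))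 (T.h (P (nat_lit 0)) (P (nat_lit 9053255530256))))))) (T.h (P (nat_lit 0)) (T.h (T.h (P (nat_lit 0)) (T.h (P (nat_lit 55498869461626126336)) (T.h (P (nat_lit 0)) (M (nat_lit 30116912663583))))) (T.h (P (nat_lit 0)) (T.h (T.h (P (nat_lit 0)) (P (nat_lit 295401305272))) (P (nat_lit 0))))))) (T.h (T.h (P (nat_lit 0)) (T.h (T.h (M (nat_lit 11651508633687157637119)) (T.h (P (nat_lit 0)) (M (nat_lit 39638468407689215)))) (T.h (P (nat_lit 0)) (M (nat_lit 741143611080703))))) (T.h (T.h (T.h (P (nat_lit 0)) (T.h (P (nat_lit 4857255339529076736)) (T.h (P (nat_lit 0)) (M (nat_lit 11117983546151))))) (T.h (P (nat_lit 0)) (T.h (T.h (P (nat_lit 0)) (M (nat_lit 3302925781727))) (P (nat_lit 0))))) (T.h (T.h (P (nat_lit 0)) (M (nat_lit 20178261076901887))) (T.h (T.h (T.h (P (nat_lit 0)) (P (nat_lit 3619901669680))) (P (nat_lit 0))) (P (nat_lit 0)))))))), (T.h (T.h (P (nat_lit 0)) (T.h (T.h (P (nat_lit 0)) (T.h (M (nat_lit 26202266726833330004688895)) (T.h (P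 (nat_lit 0)) (T.h (M (nat_lit 32857965433267945471)) (T.h (P (nat_lit 0)) (P (nat_lit 8063023529120))))))) (T.h (P (nat_lit 0)) (T.h (T.h (P (nat_lit 0)) (T.h (M (nat_lit 32857965433267945471)) (T.h (P (nat_lit 0)) (P (nat_lit 2263527959616))))) (T.h (P (nat_lit 0)) (T.h (T.h (P (nat_lit 0)) (P (nat_lit 8063023529120))) (P (nat_lit 0)))))))) (T.h (T.h (T.h (P (nat_lit 17277169826230395563407310848)) (T.h (P (nat_lit 0)) (T.h (M (nat_lit 14429612615023850422271)) (T.h (P (nat_lit 0)) (M (nat_lit 46231065526583295)))))) (T.h (P (nat_lit 0)) (T.h (T.h (M (nat_lit 14429612615023850422271)) (T.h (P (nat_lit 0)) (M (nat_lit 33472934269550591)))) (T.h (P (nat_lit 0)) (M (nat_lit 46231065526583295)))))) (T.h (T.h (P (nat_lit 0)) (T.h (T.h (P (nat_lit 0)) (T.h (P (nat_lit 4720523903133286400)) (T.h (P (nat_lit 0)) (M (nat_lit 2419356147151))))) (T.h (P (nat_lit 0)) (T.h (T.h (P (nat_lit 0)) (M (nat_lit 2419356147151))) (P (nat_lit 0)))))) (T.h (T.h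 (T.h (P (nat_lit 37722972093317176623104)) (T.h (P (nat_lit 0)) (P (nat_lit 8313373331783680)))) (T.h (P (nat_lit 0)) (P (nat_lit 8313373331783680)))) (T.h (T.h (P (nat_lit 0)) (T.h (T.h (P (nat_lit 0)) (M (nat_lit 14170135667743))) (P (nat_lit 0)))) (P (nat_lit 2839043910631424))))))), (T.h (T.h (P (nat_lit 0)) (T.h (T.h (P (nat_lit 5843117400767520869254692864)) (T.h (P (nat_lit 0)) (T.h (P (nat_lit 6132280081596855353344)) (T.h (P (nat_lit 0)) (M (nat_lit 17608652528943103)))))) (T.h (P (nat_lit 0)) (T.h (T.h (P (nat_lit 6400777624819452608512)) (T.h (P (nat_lit 0)) (M (nat_lit 10186063040872447)))) (T.h (P (nat_lit 0)) (P (nat_lit 17475433437396992))))))) (T.h (T.h (T.h (P (nat_lit 0)) (T.h (M (nat_lit 1272398404344883965853695)) (T.h (P (nat_lit 0)) (T.h (P (nat_lit 23443956208744005632)) (T.h (P (nat_lit 0)) (M (nat_lit 14177834618447))))))) (T.h (P (nat_lit 0)) (T.h (T.h (P (nat_lit 0)) (T.h (P (nat_lit 34232820611900506112)) (T.h (P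 (nat_lit 0)) (P (nat_lit 17952904070928))))) (T.h (P (nat_lit 0)) (T.h (T.h (P (nat_lit 0)) (M (nat_lit 26139770321999))) (P (nat_lit 0))))))) (T.h (T.h (P (nat_lit 0)) (T.h (T.h (M (nat_lit 8661948646476979634175)) (T.h (P (nat_lit 0)) (P (nat_lit 7274545497210880)))) (T.h (P (nat_lit 0)) (M (nat_lit 24023268860002303))))) (T.h (T.h (T.h (P (nat_lit 0)) (T.h (M (nat_lit 3420608005706612735)) (T.h (P (nat_lit 0)) (P (nat_lit 11034664166160))))) (T.h (P (nat_lit 0)) (T.h (T.h (P (nat_lit 0)) (M (nat_lit 19566681743567))) (P (nat_lit 0))))) (T.h (T.h (P (nat_lit 0)) (P (nat_lit 474231768350720))) (T.h (T.h (T.h (P (nat_lit 0)) (P (nat_lit 2356823042256))) (P (nat_lit 0))) (P (nat_lit 0)))))))), (T.h (T.h (P (nat_lit 0)) (T.h (T.h (P (nat_lit 0)) (T.h (P (nat_lit 10198635777548292081057792)) (T.h (P (nat_lit 0)) (M (nat_lit 10587787297082572799))))) (T.h (P (nat_lit 0)) (T.h (T.h (P (nat_lit 0)) (M (nat_lit 44064355139457122303))) (P (nat_lit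 0)))))) (T.h (T.h (T.h (M (nat_lit 9444388680319584730748026879)) (T.h (P (nat_lit 0)) (T.h (P (nat_lit 30742105541402773422080)) (T.h (P (nat_lit 0)) (P (nat_lit 24581947639840768)))))) (T.h (P (nat_lit 0)) (T.h (T.h (P (nat_lit 4498893292917248491520)) (T.h (P (nat_lit 0)) (M (nat_lit 44089042524880895)))) (T.h (P (nat_lit 0)) (P (nat_lit 17641106541363200)))))) (T.h (T.h (P (nat_lit 0)) (T.h (T.h (P (nat_lit 0)) (M (nat_lit 9004690242220851199))) (P (nat_lit 0)))) (T.h (T.h (T.h (M (nat_lit 11887339130370524184575)) (T.h (P (nat_lit 0)) (M (nat_lit 22101788836069375)))) (T.h (P (nat_lit 0)) (M (nat_lit 1483925649195007)))) (T.h (P (nat_lit 0)) (P (nat_lit 2323722480533504)))))))]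
def lP22_4 : List (T ℤ) := [(P (nat_lit 0)), (P (nat_lit 0)), (T.h (T.h (T.h (M (nat_lit 169053768763270514532562239487)) (T.h (P (nat_lit 0)) (T.h (P (nat_lit 1217783071519776866041856)) (T.h (P (nat_lit 0)) (T.h (M (nat_lit 2581556048120774655)) (T.h (P (nat_lit 0)) (P (nat_lit 2889973006256)))))))) (T.h (P (nat_lit 0)) (T.h (T.h (M (nat_lit 86023058324020239794175)) (T.h (P (nat_lit 0)) (T.h (M (nat_lit 2804189857717420031)) (T.h (P (nat_lit 0)) (P (nat_lit 2363898821680)))))) (T.h (P (nat_lit 0)) (T.h (T.h (P (nat_lit 544121181330997248)) (T.h (P (nat_lit 0)) (P (nat_lit 1796611202864)))) (T.h (P (nat_lit 0)) (M (nat_lit 1570308029599)))))))) (T.h (T.h (P (nat_lit 0)) (T.h (T.h (P (nat_lit 0)) (T.h (M (nat_lit 1587471070678617161727)) (T.h (P (nat_lit 0)) (P (nat_lit 3737556218937344))))) (T.h (P (nat_lit 0)) (T.h (T.h (P (nat_lit 0)) (P (nat_lit 2147752284127232))) (P (nat_lit 0)))))) (T.h (T.h (T.h (P (nat_lit 1217783071519776866041856))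 (T.h (P (nat_lit 0)) (T.h (M (nat_lit 580103659812028415)) (T.h (P (nat_lit 0)) (M (nat_lit 662576913727)))))) (T.h (P (nat_lit 0)) (T.h (T.h (M (nat_lit 2804189857717420031)) (T.h (P (nat_lit 0)) (P (nat_lit 2120391294816)))) (T.h (P (nat_lit 0)) (P (nat_lit 1796611202864)))))) (T.h (T.h (P (nat_lit 0)) (T.h (T.h (P (nat_lit 0)) (P (nat_lit 3737556218937344))) (P (nat_lit 0)))) (T.h (T.h (T.h (M (nat_lit 2581556048120774655)) (T.h (P (nat_lit 0)) (M (nat_lit 662576913727)))) (T.h (P (nat_lit 0)) (P (nat_lit 2363898821680)))) (T.h (P (nat_lit 0)) (P (nat_lit 2889973006256)))))))), (T.h (T.h (T.h (P (nat_lit 0)) (T.h (M (nat_lit 8105240833316528014414053375)) (T.h (P (nat_lit 0)) (T.h (P (nat_lit 6157605607908443160576)) (T.h (P (nat_lit 0)) (M (nat_lit 14652418540830719))))))) (T.h (P (nat_lit 0)) (T.h (T.h (P (nat_lit 0)) (T.h (M (nat_lit 18612874587945052405759)) (T.h (P (nat_lit 0)) (M (nat_lit 5484856430657535))))) (T.h (P (nat_lit 0))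 (T.h (T.h (P (nat_lit 0)) (P (nat_lit 23898006275555328))) (P (nat_lit 0))))))) (T.h (T.h (P (nat_lit 0)) (T.h (T.h (P (nat_lit 4215725895776875352948736)) (T.h (P (nat_lit 0)) (T.h (M (nat_lit 23926501528834146303)) (T.h (P (nat_lit 0)) (P (nat_lit 2892398064512)))))) (T.h (P (nat_lit 0)) (T.h (T.h (P (nat_lit 33868761651432390656)) (T.h (P (nat_lit 0)) (M (nat_lit 19419484670495)))) (T.h (P (nat_lit 0)) (P (nat_lit 966839890088))))))) (T.h (T.h (T.h (P (nat_lit 0)) (T.h (P (nat_lit 20407429106314850074624)) (T.h (P (nat_lit 0)) (P (nat_lit 13934158588248064))))) (T.h (P (nat_lit 0)) (T.h (T.h (P (nat_lit 0)) (M (nat_lit 21479489433075711))) (P (nat_lit 0))))) (T.h (T.h (P (nat_lit 0)) (T.h (T.h (P (nat_lit 29294307247426371584)) (T.h (P (nat_lit 0)) (P (nat_lit 17916783817936)))) (T.h (P (nat_lit 0)) (P (nat_lit 4797394601552))))) (T.h (T.h (T.h (P (nat_lit 0)) (P (nat_lit 18185428906213376))) (P (nat_lit 0))) (T.h (T.h (P (nat_lit 0)) (P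 (nat_lit 2467984298904))) (P (nat_lit 0)))))))), (T.h (T.h (T.h (P (nat_lit 9532113103949875524296396242944)) (T.h (P (nat_lit 0)) (T.h (P (nat_lit 3032100729163460762402816)) (T.h (P (nat_lit 0)) (T.h (P (nat_lit 28767898205744529408)) (T.h (P (nat_lit 0)) (M (nat_lit 6454986133007)))))))) (T.h (P (nat_lit 0)) (T.h (T.h (M (nat_lit 3988164356882201506217983)) (T.h (P (nat_lit 0)) (T.h (M (nat_lit 57813725855048794111)) (T.h (P (nat_lit 0)) (P (nat_lit 7861092761200)))))) (T.h (P (nat_lit 0)) (T.h (T.h (P (nat_lit 3867644409403146240)) (T.h (P (nat_lit 0)) (P (nat_lit 18872188738032)))) (T.h (P (nat_lit 0)) (M (nat_lit 4494899552751)))))))) (T.h (T.h (P (nat_lit 0)) (T.h (T.h (P (nat_lit 0)) (T.h (M (nat_lit 11273622562630300336127)) (T.h (P (nat_lit 0)) (P (nat_lit 4062213188222976))))) (T.h (P (nat_lit 0)) (T.h (T.h (P (nat_lit 0)) (M (nat_lit 28669640327397375))) (P (nat_lit 0)))))) (T.h (T.h (T.h (M (nat_lit 5822015326319091937968127))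 (T.h (P (nat_lit 0)) (T.h (P (nat_lit 37294152127986270208)) (T.h (P (nat_lit 0)) (P (nat_lit 15481464103056)))))) (T.h (P (nat_lit 0)) (T.h (T.h (P (nat_lit 2322674579165675520)) (T.h (P (nat_lit 0)) (P (nat_lit 8548507008608)))) (T.h (P (nat_lit 0)) (P (nat_lit 66173550912)))))) (T.h (T.h (P (nat_lit 0)) (T.h (T.h (P (nat_lit 0)) (P (nat_lit 76325036144197632))) (P (nat_lit 0)))) (T.h (T.h (T.h (M (nat_lit 8903747042262646783)) (T.h (P (nat_lit 0)) (M (nat_lit 2689076313615)))) (T.h (P (nat_lit 0)) (M (nat_lit 5131028078175)))) (T.h (P (nat_lit 0)) (M (nat_lit 2135898518655)))))))), (T.h (T.h (T.h (P (nat_lit 0)) (T.h (P (nat_lit 5843117400767520869254692864)) (T.h (P (nat_lit 0)) (T.h (P (nat_lit 6400777624819452608512)) (T.h (P (nat_lit 0)) (P (nat_lit 17475433437396992))))))) (T.h (P (nat_lit 0)) (T.h (T.h (P (nat_lit 0)) (T.h (P (nat_lit 6132280081596855353344)) (T.h (P (nat_lit 0)) (M (nat_lit 10186063040872447))))) (T.h (P (nat_lit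 0)) (T.h (T.h (P (nat_lit 0)) (M (nat_lit 17608652528943103))) (P (nat_lit 0))))))) (T.h (T.h (P (nat_lit 0)) (T.h (T.h (M (nat_lit 1272398404344883965853695)) (T.h (P (nat_lit 0)) (T.h (P (nat_lit 34232820611900506112)) (T.h (P (nat_lit 0)) (M (nat_lit 26139770321999)))))) (T.h (P (nat_lit 0)) (T.h (T.h (P (nat_lit 23443956208744005632)) (T.h (P (nat_lit 0)) (P (nat_lit 17952904070928)))) (T.h (P (nat_lit 0)) (M (nat_lit 14177834618447))))))) (T.h (T.h (T.h (P (nat_lit 0)) (T.h (M (nat_lit 8661948646476979634175)) (T.h (P (nat_lit 0)) (M (nat_lit 24023268860002303))))) (T.h (P (nat_lit 0)) (T.h (T.h (P (nat_lit 0)) (P (nat_lit 7274545497210880))) (P (nat_lit 0))))) (T.h (T.h (P (nat_lit 0)) (T.h (T.h (M (nat_lit 3420608005706612735)) (T.h (P (nat_lit 0)) (M (nat_lit 19566681743567)))) (T.h (P (nat_lit 0)) (P (nat_lit 11034664166160))))) (T.h (T.h (T.h (P (nat_lit 0)) (P (nat_lit 474231768350720))) (P (nat_lit 0))) (T.h (T.h (P (nat_lit 0))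 (P (nat_lit 2356823042256))) (P (nat_lit 0)))))))), (T.h (T.h (T.h (P (nat_lit 1566566538292661711704453808128)) (T.h (P (nat_lit 0)) (T.h (M (nat_lit 9732647539352031790628863)) (T.h (P (nat_lit 0)) (M (nat_lit 16297031267554164735)))))) (T.h (P (nat_lit 0)) (T.h (T.h (M (nat_lit 9732647539352031790628863)) (T.h (P (nat_lit 0)) (M (nat_lit 2048803517447012351)))) (T.h (P (nat_lit 0)) (M (nat_lit 16297031267554164735)))))) (T.h (T.h (P (nat_lit 0)) (T.h (T.h (P (nat_lit 0)) (T.h (P (nat_lit 26663661396517474795520)) (T.h (P (nat_lit 0)) (P (nat_lit 23433650567217152))))) (T.h (P (nat_lit 0)) (T.h (T.h (P (nat_lit 0)) (P (nat_lit 23433650567217152))) (P (nat_lit 0)))))) (T.h (T.h (T.h (P (nat_lit 3329637082376392511848448)) (T.h (P (nat_lit 0)) (P (nat_lit 3306482805604614144)))) (T.h (P (nat_lit 0)) (P (nat_lit 3306482805604614144)))) (T.h (T.h (P (nat_lit 0)) (T.h (T.h (P (nat_lit 0)) (P (nat_lit 26715042807218176))) (P (nat_lit 0)))) (P (nat_lit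 3580613197985480704)))))), (P (nat_lit 0))]
def lP22_5 : List (T ℤ) := [(P (nat_lit 0)), (T.h (T.h (P (nat_lit 0)) (T.h (T.h (M (nat_lit 6710137670469634890370383871)) (T.h (P (nat_lit 0)) (T.h (M (nat_lit 7145578919625811296255)) (T.h (P (nat_lit 0)) (M (nat_lit 7390483838959615)))))) (T.h (P (nat_lit 0)) (T.h (T.h (M (nat_lit 8784275359082477518847)) (T.h (P (nat_lit 0)) (M (nat_lit 6980069744508927)))) (T.h (P (nat_lit 0)) (P (nat_lit 7334363874459648))))))) (T.h (T.h (T.h (P (nat_lit 0)) (T.h (P (nat_lit 3147941618468942604402688)) (T.h (P (nat_lit 0)) (T.h (M (nat_lit 14654403036332425215)) (T.h (P (nat_lit 0)) (P (nat_lit 1333360900360))))))) (T.h (P (nat_lit 0)) (T.h (T.h (P (nat_lit 0)) (T.h (M (nat_lit 15443931641180848127)) (T.h (P (nat_lit 0)) (P (nat_lit 4503270309448))))) (T.h (P (nat_lit 0)) (T.h (T.h (P (nat_lit 0)) (M (nat_lit 2972229967967))) (P (nat_lit 0))))))) (T.h (T.h (P (nat_lit 0)) (T.h (T.h (M (nat_lit 2995186226142658953215))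 (T.h (P (nat_lit 0)) (M (nat_lit 5119387493728255)))) (T.h (P (nat_lit 0)) (M (nat_lit 17858861881032703))))) (T.h (T.h (T.h (P (nat_lit 0)) (T.h (M (nat_lit 14522462245515952127)) (T.h (P (nat_lit 0)) (P (nat_lit 3114189266208))))) (T.h (P (nat_lit 0)) (T.h (T.h (P (nat_lit 0)) (M (nat_lit 110400139431))) (P (nat_lit 0))))) (T.h (T.h (P (nat_lit 0)) (M (nat_lit 8877860582555647))) (T.h (T.h (T.h (P (nat_lit 0)) (P (nat_lit 1403340751448))) (P (nat_lit 0))) (P (nat_lit 0)))))))), (T.h (T.h (P (nat_lit 0)) (T.h (T.h (P (nat_lit 0)) (T.h (P (nat_lit 11006440254763849941516288)) (T.h (P (nat_lit 0)) (T.h (P (nat_lit 16119823565909393408)) (T.h (P (nat_lit 0)) (M (nat_lit 476646617775))))))) (T.h (P (nat_lit 0)) (T.h (T.h (P (nat_lit 0)) (T.h (M (nat_lit 10212482558193565695)) (T.h (P (nat_lit 0)) (M (nat_lit 267617463791))))) (T.h (P (nat_lit 0)) (T.h (T.h (P (nat_lit 0)) (P (nat_lit 11875290719936))) (P (nat_lit 0)))))))) (T.h (T.h (T.h (M (nat_lit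 2183137425904434638667907071)) (T.h (P (nat_lit 0)) (T.h (P (nat_lit 1595751522983967981568)) (T.h (P (nat_lit 0)) (M (nat_lit 10387681152090111)))))) (T.h (P (nat_lit 0)) (T.h (T.h (M (nat_lit 27481446203344965074943)) (T.h (P (nat_lit 0)) (M (nat_lit 1654209649672191)))) (T.h (P (nat_lit 0)) (M (nat_lit 4103378252595199)))))) (T.h (T.h (P (nat_lit 0)) (T.h (T.h (P (nat_lit 0)) (T.h (P (nat_lit 17390635901448617984)) (T.h (P (nat_lit 0)) (P (nat_lit 3403801104368))))) (T.h (P (nat_lit 0)) (T.h (T.h (P (nat_lit 0)) (P (nat_lit 8038665908672))) (P (nat_lit 0)))))) (T.h (T.h (T.h (P (nat_lit 1146563286424017174528)) (T.h (P (nat_lit 0)) (M (nat_lit 30936074729717759)))) (T.h (P (nat_lit 0)) (P (nat_lit 24685718477160448)))) (T.h (T.h (P (nat_lit 0)) (T.h (T.h (P (nat_lit 0)) (M (nat_lit 170731117199))) (P (nat_lit 0)))) (P (nat_lit 2008321073004544))))))), (T.h (T.h (P (nat_lit 0)) (T.h (T.h (P (nat_lit 4603839004082732782111948800)) (T.h (P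 (nat_lit 0)) (T.h (P (nat_lit 28647703300755549061120)) (T.h (P (nat_lit 0)) (P (nat_lit 27870905071534080)))))) (T.h (P (nat_lit 0)) (T.h (T.h (M (nat_lit 451937267142675660799)) (T.h (P (nat_lit 0)) (M (nat_lit 16800158102618111)))) (T.h (P (nat_lit 0)) (P (nat_lit 9716097229586432))))))) (T.h (T.h (T.h (P (nat_lit 0)) (T.h (M (nat_lit 6596670900851402304651263)) (T.h (P (nat_lit 0)) (T.h (P (nat_lit 19514475805688201216)) (T.h (P (nat_lit 0)) (M (nat_lit 5108631799679))))))) (T.h (P (nat_lit 0)) (T.h (T.h (P (nat_lit 0)) (T.h (M (nat_lit 39250634255368191)) (T.h (P (nat_lit 0)) (P (nat_lit 25102801519776))))) (T.h (P (nat_lit 0)) (T.h (T.h (P (nat_lit 0)) (M (nat_lit 1128251633855))) (P (nat_lit 0))))))) (T.h (T.h (P (nat_lit 0)) (T.h (T.h (P (nat_lit 14294575167020482953216)) (T.h (P (nat_lit 0)) (M (nat_lit 4952338308300799)))) (T.h (P (nat_lit 0)) (M (nat_lit 17089846118907903))))) (T.h (T.h (T.h (P (nat_lit 0)) (T.h (M (nat_lit 4921241330123800575))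 (T.h (P (nat_lit 0)) (P (nat_lit 7971373389648))))) (T.h (P (nat_lit 0)) (T.h (T.h (P (nat_lit 0)) (P (nat_lit 31647341982192))) (P (nat_lit 0))))) (T.h (T.h (P (nat_lit 0)) (M (nat_lit 4070874150305791))) (T.h (T.h (T.h (P (nat_lit 0)) (M (nat_lit 9164603746943))) (P (nat_lit 0))) (P (nat_lit 0)))))))), (T.h (T.h (P (nat_lit 0)) (T.h (T.h (P (nat_lit 0)) (T.h (P (nat_lit 10198635777548292081057792)) (T.h (P (nat_lit 0)) (M (nat_lit 44064355139457122303))))) (T.h (P (nat_lit 0)) (T.h (T.h (P (nat_lit 0)) (M (nat_lit 10587787297082572799))) (P (nat_lit 0)))))) (T.h (T.h (T.h (M (nat_lit 9444388680319584730748026879)) (T.h (P (nat_lit 0)) (T.h (P (nat_lit 4498893292917248491520)) (T.h (P (nat_lit 0)) (P (nat_lit 17641106541363200)))))) (T.h (P (nat_lit 0)) (T.h (T.h (P (nat_lit 30742105541402773422080)) (T.h (P (nat_lit 0)) (M (nat_lit 44089042524880895)))) (T.h (P (nat_lit 0)) (P (nat_lit 24581947639840768)))))) (T.h (T.h (P (nat_lit 0)) (T.h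 (T.h (P (nat_lit 0)) (M (nat_lit 9004690242220851199))) (P (nat_lit 0)))) (T.h (T.h (T.h (M (nat_lit 11887339130370524184575)) (T.h (P (nat_lit 0)) (M (nat_lit 1483925649195007)))) (T.h (P (nat_lit 0)) (M (nat_lit 22101788836069375)))) (T.h (P (nat_lit 0)) (P (nat_lit 2323722480533504))))))), (P (nat_lit 0)), (P (nat_lit 0)), (T.h (T.h (T.h (P (nat_lit 7955821324122392065238856892416)) (T.h (P (nat_lit 0)) (T.h (P (nat_lit 706434760272425848406016)) (T.h (P (nat_lit 0)) (T.h (P (nat_lit 4427669298030313472)) (T.h (P (nat_lit 0)) (M (nat_lit 2838909460015)))))))) (T.h (P (nat_lit 0)) (T.h (T.h (P (nat_lit 7393668704782508321931264)) (T.h (P (nat_lit 0)) (T.h (P (nat_lit 14592576984723750912)) (T.h (P (nat_lit 0)) (M (nat_lit 4410506974159)))))) (T.h (P (nat_lit 0)) (T.h (T.h (M (nat_lit 4062598691368730623)) (T.h (P (nat_lit 0)) (M (nat_lit 3133739275967)))) (T.h (P (nat_lit 0)) (P (nat_lit 3652989002656)))))))) (T.h (T.h (P (nat_lit 0)) (T.h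 (T.h (P (nat_lit 0)) (T.h (P (nat_lit 10114515785597969235968)) (T.h (P (nat_lit 0)) (M (nat_lit 7725811003260927))))) (T.h (P (nat_lit 0)) (T.h (T.h (P (nat_lit 0)) (P (nat_lit 123914970333184))) (P (nat_lit 0)))))) (T.h (T.h (T.h (P (nat_lit 706434760272425848406016)) (T.h (P (nat_lit 0)) (T.h (P (nat_lit 4485432474456817664)) (T.h (P (nat_lit 0)) (P (nat_lit 1714226929744)))))) (T.h (P (nat_lit 0)) (T.h (T.h (P (nat_lit 14592576984723750912)) (T.h (P (nat_lit 0)) (M (nat_lit 4950411610591)))) (T.h (P (nat_lit 0)) (M (nat_lit 3133739275967)))))) (T.h (T.h (P (nat_lit 0)) (T.h (T.h (P (nat_lit 0)) (M (nat_lit 7725811003260927))) (P (nat_lit 0)))) (T.h (T.h (T.h (P (nat_lit 4427669298030313472)) (T.h (P (nat_lit 0)) (P (nat_lit 1714226929744)))) (T.h (P (nat_lit 0)) (M (nat_lit 4410506974159)))) (T.h (P (nat_lit 0)) (M (nat_lit 2838909460015))))))))]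
def lP22_6 : List (T ℤ) := [(T.h (T.h (T.h (P (nat_lit 0)) (T.h (P (nat_lit 6851398732185546236270477312)) (T.h (P (nat_lit 0)) (T.h (M (nat_lit 4732893267667112165375)) (T.h (P (nat_lit 0)) (P (nat_lit 10744085451014144))))))) (T.h (P (nat_lit 0)) (T.h (T.h (P (nat_lit 0)) (T.h (P (nat_lit 18348311073687137681408)) (T.h (P (nat_lit 0)) (P (nat_lit 12497095545683968))))) (T.h (P (nat_lit 0)) (T.h (T.h (P (nat_lit 0)) (M (nat_lit 17793055875203071))) (P (nat_lit 0))))))) (T.h (T.h (P (nat_lit 0)) (T.h (T.h (M (nat_lit 11660322374750600744140799)) (T.h (P (nat_lit 0)) (T.h (P (nat_lit 39841637126717308928)) (T.h (P (nat_lit 0)) (M (nat_lit 129643420655)))))) (T.h (P (nat_lit 0)) (T.h (T.h (M (nat_lit 18520378691960176639)) (T.h (P (nat_lit 0)) (P (nat_lit 14600707220976)))) (T.h (P (nat_lit 0)) (M (nat_lit 170296125263))))))) (T.h (T.h (T.h (P (nat_lit 0)) (T.h (M (nat_lit 21425206370652458582015)) (T.h (P (nat_lit 0)) (M (nat_lit 6016024335384575)))))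 (T.h (P (nat_lit 0)) (T.h (T.h (P (nat_lit 0)) (P (nat_lit 10815406722252800))) (P (nat_lit 0))))) (T.h (T.h (P (nat_lit 0)) (T.h (T.h (M (nat_lit 24783823898534739967)) (T.h (P (nat_lit 0)) (M (nat_lit 2136752720495)))) (T.h (P (nat_lit 0)) (P (nat_lit 6938019607344))))) (T.h (T.h (T.h (P (nat_lit 0)) (M (nat_lit 12728265808248831))) (P (nat_lit 0))) (T.h (T.h (P (nat_lit 0)) (P (nat_lit 2531236715616))) (P (nat_lit 0)))))))), (T.h (T.h (T.h (M (nat_lit 1410570906212094888288156909567)) (T.h (P (nat_lit 0)) (T.h (M (nat_lit 2713202957367080711618559)) (T.h (P (nat_lit 0)) (M (nat_lit 20438749490257592319)))))) (T.h (P (nat_lit 0)) (T.h (T.h (P (nat_lit 736332230657898056777728)) (T.h (P (nat_lit 0)) (M (nat_lit 12443088561886986239)))) (T.h (P (nat_lit 0)) (M (nat_lit 8275653059435036671)))))) (T.h (T.h (P (nat_lit 0)) (T.h (T.h (P (nat_lit 0)) (T.h (P (nat_lit 25522296248950983753728)) (T.h (P (nat_lit 0)) (M (nat_lit 16959839353831423)))))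 (T.h (P (nat_lit 0)) (T.h (T.h (P (nat_lit 0)) (M (nat_lit 8426976565428223))) (P (nat_lit 0)))))) (T.h (T.h (T.h (P (nat_lit 9092474658105973488484352)) (T.h (P (nat_lit 0)) (P (nat_lit 2049630866191155200)))) (T.h (P (nat_lit 0)) (P (nat_lit 9901124243519700992)))) (T.h (T.h (P (nat_lit 0)) (T.h (T.h (P (nat_lit 0)) (M (nat_lit 20145895602651135))) (P (nat_lit 0)))) (P (nat_lit 6450639816894709760)))))), (P (nat_lit 0)), (P (nat_lit 0)), (T.h (T.h (P (nat_lit 0)) (T.h (T.h (P (nat_lit 6710137670469634890370383872)) (T.h (P (nat_lit 0)) (T.h (P (nat_lit 5070382572884235124736)) (T.h (P (nat_lit 0)) (P (nat_lit 8134172210757632)))))) (T.h (P (nat_lit 0)) (T.h (T.h (P (nat_lit 8784275359082477518848)) (T.h (P (nat_lit 0)) (P (nat_lit 12419465812770816)))) (T.h (P (nat_lit 0)) (M (nat_lit 7334363874459647))))))) (T.h (T.h (T.h (P (nat_lit 0)) (T.h (M (nat_lit 3147941618468942604402687)) (T.h (P (nat_lit 0)) (T.h (P (nat_lit 14588432640924188672))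 (T.h (P (nat_lit 0)) (M (nat_lit 1368350825903))))))) (T.h (P (nat_lit 0)) (T.h (T.h (P (nat_lit 0)) (T.h (P (nat_lit 15443931641180848128)) (T.h (P (nat_lit 0)) (M (nat_lit 2196435085007))))) (T.h (P (nat_lit 0)) (T.h (T.h (P (nat_lit 0)) (P (nat_lit 2972229967968))) (P (nat_lit 0))))))) (T.h (T.h (P (nat_lit 0)) (T.h (T.h (P (nat_lit 5070382572884235124736)) (T.h (P (nat_lit 0)) (P (nat_lit 5119387493728256)))) (T.h (P (nat_lit 0)) (P (nat_lit 12419465812770816))))) (T.h (T.h (T.h (P (nat_lit 0)) (T.h (P (nat_lit 14588432640924188672)) (T.h (P (nat_lit 0)) (M (nat_lit 3114189266207))))) (T.h (P (nat_lit 0)) (T.h (T.h (P (nat_lit 0)) (M (nat_lit 2196435085007))) (P (nat_lit 0))))) (T.h (T.h (P (nat_lit 0)) (P (nat_lit 8134172210757632))) (T.h (T.h (T.h (P (nat_lit 0)) (M (nat_lit 1368350825903))) (P (nat_lit 0))) (P (nat_lit 0)))))))), (T.h (T.h (P (nat_lit 0)) (T.h (T.h (P (nat_lit 0)) (T.h (M (nat_lit 17043484856467139858530303)) (T.h (P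 (nat_lit 0)) (M (nat_lit 12429613524915847167))))) (T.h (P (nat_lit 0)) (T.h (T.h (P (nat_lit 0)) (M (nat_lit 2896091241655566335))) (P (nat_lit 0)))))) (T.h (T.h (T.h (P (nat_lit 3402341988066177641621749760)) (T.h (P (nat_lit 0)) (T.h (M (nat_lit 19467932748244439793663)) (T.h (P (nat_lit 0)) (P (nat_lit 2379570363793408)))))) (T.h (P (nat_lit 0)) (T.h (T.h (P (nat_lit 22557465762590185488384)) (T.h (P (nat_lit 0)) (M (nat_lit 12701974667231231)))) (T.h (P (nat_lit 0)) (M (nat_lit 723882441949183)))))) (T.h (T.h (P (nat_lit 0)) (T.h (T.h (P (nat_lit 0)) (M (nat_lit 11739852891748302847))) (P (nat_lit 0)))) (T.h (T.h (T.h (P (nat_lit 311281724839209992192)) (T.h (P (nat_lit 0)) (P (nat_lit 3918274737192960)))) (T.h (P (nat_lit 0)) (M (nat_lit 6354815568904191)))) (T.h (P (nat_lit 0)) (M (nat_lit 396931717021695))))))), (P (nat_lit 0)), (P (nat_lit 0))]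
def lP22_7 : List (T ℤ) := [(T.h (T.h (T.h (M (nat_lit 2330416154883494020266051239935)) (T.h (P (nat_lit 0)) (T.h (M (nat_lit 2720637866675313557110783)) (T.h (P (nat_lit 0)) (M (nat_lit 1895559017283977215)))))) (T.h (P (nat_lit 0)) (T.h (T.h (M (nat_lit 7464748788017715864403967)) (T.h (P (nat_lit 0)) (M (nat_lit 8962145797948833791)))) (T.h (P (nat_lit 0)) (P (nat_lit 1573209784461557760)))))) (T.h (T.h (P (nat_lit 0)) (T.h (T.h (P (nat_lit 0)) (T.h (M (nat_lit 7531325478474476421119)) (T.h (P (nat_lit 0)) (P (nat_lit 1499433018032128))))) (T.h (P (nat_lit 0)) (T.h (T.h (P (nat_lit 0)) (M (nat_lit 4058084649598975))) (P (nat_lit 0)))))) (T.h (T.h (T.h (M (nat_lit 2720637866675313557110783)) (T.h (P (nat_lit 0)) (M (nat_lit 758678015956746239)))) (T.h (P (nat_lit 0)) (M (nat_lit 8962145797948833791)))) (T.h (T.h (P (nat_lit 0)) (T.h (T.h (P (nat_lit 0)) (P (nat_lit 1499433018032128))) (P (nat_lit 0)))) (M (nat_lit 1895559017283977215)))))),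 (P (nat_lit 0)), (P (nat_lit 0)), (P (nat_lit 0)), (P (nat_lit 0)), (P (nat_lit 0)), (T.h (T.h (P (nat_lit 0)) (T.h (T.h (P (nat_lit 532858792078950653260464128)) (T.h (P (nat_lit 0)) (T.h (M (nat_lit 4144768062586427015167)) (T.h (P (nat_lit 0)) (P (nat_lit 10195113124757504)))))) (T.h (P (nat_lit 0)) (T.h (T.h (M (nat_lit 3075121913902334476287)) (T.h (P (nat_lit 0)) (M (nat_lit 14061861106614271)))) (T.h (P (nat_lit 0)) (M (nat_lit 1221575086440447))))))) (T.h (T.h (T.h (P (nat_lit 0)) (T.h (P (nat_lit 8717922922079423085674496)) (T.h (P (nat_lit 0)) (T.h (P (nat_lit 6521691154386255872)) (T.h (P (nat_lit 0)) (M (nat_lit 5165935566879))))))) (T.h (P (nat_lit 0)) (T.h (T.h (P (nat_lit 0)) (T.h (P (nat_lit 10942545611232116736)) (T.h (P (nat_lit 0)) (M (nat_lit 9748205673263))))) (T.h (P (nat_lit 0)) (T.h (T.h (P (nat_lit 0)) (P (nat_lit 3166704741056))) (P (nat_lit 0))))))) (T.h (T.h (P (nat_lit 0)) (T.h (T.h (P (nat_lit 3321691345876869447680))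 (T.h (P (nat_lit 0)) (P (nat_lit 15787150469627904)))) (T.h (P (nat_lit 0)) (P (nat_lit 15163554349252608))))) (T.h (T.h (T.h (P (nat_lit 0)) (T.h (M (nat_lit 193192647643365375)) (T.h (P (nat_lit 0)) (P (nat_lit 3373397582576))))) (T.h (P (nat_lit 0)) (T.h (T.h (P (nat_lit 0)) (M (nat_lit 172863613551))) (P (nat_lit 0))))) (T.h (T.h (P (nat_lit 0)) (P (nat_lit 2725830294568960))) (T.h (T.h (T.h (P (nat_lit 0)) (M (nat_lit 424261102751))) (P (nat_lit 0))) (P (nat_lit 0)))))))), (T.h (T.h (P (nat_lit 0)) (T.h (T.h (P (nat_lit 0)) (T.h (P (nat_lit 19104918853724326135332864)) (T.h (P (nat_lit 0)) (T.h (P (nat_lit 3171995732487962624)) (T.h (P (nat_lit 0)) (M (nat_lit 626247639559))))))) (T.h (P (nat_lit 0)) (T.h (T.h (P (nat_lit 0)) (T.h (P (nat_lit 20273340549643108352)) (T.h (P (nat_lit 0)) (M (nat_lit 18673433816239))))) (T.h (P (nat_lit 0)) (T.h (T.h (P (nat_lit 0)) (M (nat_lit 7530457730135))) (P (nat_lit 0)))))))) (T.h (T.h (T.h (M (nat_lit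 5597556631054564458126901247)) (T.h (P (nat_lit 0)) (T.h (M (nat_lit 18083747559429222957055)) (T.h (P (nat_lit 0)) (P (nat_lit 11688105474850816)))))) (T.h (P (nat_lit 0)) (T.h (T.h (P (nat_lit 22442983634990067089408)) (T.h (P (nat_lit 0)) (M (nat_lit 151324011429887)))) (T.h (P (nat_lit 0)) (P (nat_lit 7271102710284288)))))) (T.h (T.h (P (nat_lit 0)) (T.h (T.h (P (nat_lit 0)) (T.h (M (nat_lit 55756772724600471551)) (T.h (P (nat_lit 0)) (M (nat_lit 9781929771455))))) (T.h (P (nat_lit 0)) (T.h (T.h (P (nat_lit 0)) (M (nat_lit 13643278376943))) (P (nat_lit 0)))))) (T.h (T.h (T.h (P (nat_lit 3308180927425781170176)) (T.h (P (nat_lit 0)) (M (nat_lit 19509334660710399)))) (T.h (P (nat_lit 0)) (M (nat_lit 1902109917478911)))) (T.h (T.h (P (nat_lit 0)) (T.h (T.h (P (nat_lit 0)) (M (nat_lit 2633111223199))) (P (nat_lit 0)))) (M (nat_lit 6835752361197567)))))))]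
def lP22_8 : List (T ℤ) := [(T.h (T.h (P (nat_lit 0)) (T.h (T.h (M (nat_lit 2183137425904434638667907071)) (T.h (P (nat_lit 0)) (T.h (M (nat_lit 27481446203344965074943)) (T.h (P (nat_lit 0)) (M (nat_lit 4103378252595199)))))) (T.h (P (nat_lit 0)) (T.h (T.h (P (nat_lit 1146563286424017174528)) (T.h (P (nat_lit 0)) (P (nat_lit 24685718477160448)))) (T.h (P (nat_lit 0)) (P (nat_lit 2008321073004544))))))) (T.h (T.h (T.h (P (nat_lit 0)) (T.h (P (nat_lit 11006440254763849941516288)) (T.h (P (nat_lit 0)) (T.h (M (nat_lit 10212482558193565695)) (T.h (P (nat_lit 0)) (P (nat_lit 11875290719936))))))) (T.h (P (nat_lit 0)) (T.h (T.h (P (nat_lit 0)) (T.h (P (nat_lit 17390635901448617984)) (T.h (P (nat_lit 0)) (P (nat_lit 8038665908672))))) (T.h (P (nat_lit 0)) (T.h (T.h (P (nat_lit 0)) (M (nat_lit 170731117199))) (P (nat_lit 0))))))) (T.h (T.h (P (nat_lit 0)) (T.h (T.h (P (nat_lit 1595751522983967981568)) (T.h (P (nat_lit 0)) (M (nat_lit 1654209649672191))))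 (T.h (P (nat_lit 0)) (M (nat_lit 30936074729717759))))) (T.h (T.h (T.h (P (nat_lit 0)) (T.h (P (nat_lit 16119823565909393408)) (T.h (P (nat_lit 0)) (M (nat_lit 267617463791))))) (T.h (P (nat_lit 0)) (T.h (T.h (P (nat_lit 0)) (P (nat_lit 3403801104368))) (P (nat_lit 0))))) (T.h (T.h (P (nat_lit 0)) (M (nat_lit 10387681152090111))) (T.h (T.h (T.h (P (nat_lit 0)) (M (nat_lit 476646617775))) (P (nat_lit 0))) (P (nat_lit 0)))))))), (T.h (T.h (P (nat_lit 0)) (T.h (T.h (P (nat_lit 0)) (T.h (M (nat_lit 11660322374750600744140799)) (T.h (P (nat_lit 0)) (T.h (M (nat_lit 18520378691960176639)) (T.h (P (nat_lit 0)) (M (nat_lit 170296125263))))))) (T.h (P (nat_lit 0)) (T.h (T.h (P (nat_lit 0)) (T.h (M (nat_lit 24783823898534739967)) (T.h (P (nat_lit 0)) (P (nat_lit 6938019607344))))) (T.h (P (nat_lit 0)) (T.h (T.h (P (nat_lit 0)) (P (nat_lit 2531236715616))) (P (nat_lit 0)))))))) (T.h (T.h (T.h (P (nat_lit 6851398732185546236270477312)) (T.h (P (nat_lit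 0)) (T.h (P (nat_lit 18348311073687137681408)) (T.h (P (nat_lit 0)) (M (nat_lit 17793055875203071)))))) (T.h (P (nat_lit 0)) (T.h (T.h (M (nat_lit 21425206370652458582015)) (T.h (P (nat_lit 0)) (P (nat_lit 10815406722252800)))) (T.h (P (nat_lit 0)) (M (nat_lit 12728265808248831)))))) (T.h (T.h (P (nat_lit 0)) (T.h (T.h (P (nat_lit 0)) (T.h (P (nat_lit 39841637126717308928)) (T.h (P (nat_lit 0)) (P (nat_lit 14600707220976))))) (T.h (P (nat_lit 0)) (T.h (T.h (P (nat_lit 0)) (M (nat_lit 2136752720495))) (P (nat_lit 0)))))) (T.h (T.h (T.h (M (nat_lit 4732893267667112165375)) (T.h (P (nat_lit 0)) (P (nat_lit 12497095545683968)))) (T.h (P (nat_lit 0)) (M (nat_lit 6016024335384575)))) (T.h (T.h (P (nat_lit 0)) (T.h (T.h (P (nat_lit 0)) (M (nat_lit 129643420655))) (P (nat_lit 0)))) (P (nat_lit 10744085451014144))))))), (T.h (T.h (P (nat_lit 0)) (T.h (T.h (P (nat_lit 3402341988066177641621749760)) (T.h (P (nat_lit 0)) (T.h (P (nat_lit 22557465762590185488384))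 (T.h (P (nat_lit 0)) (M (nat_lit 723882441949183)))))) (T.h (P (nat_lit 0)) (T.h (T.h (P (nat_lit 311281724839209992192)) (T.h (P (nat_lit 0)) (M (nat_lit 6354815568904191)))) (T.h (P (nat_lit 0)) (M (nat_lit 396931717021695))))))) (T.h (T.h (T.h (P (nat_lit 0)) (T.h (M (nat_lit 17043484856467139858530303)) (T.h (P (nat_lit 0)) (M (nat_lit 2896091241655566335))))) (T.h (P (nat_lit 0)) (T.h (T.h (P (nat_lit 0)) (M (nat_lit 11739852891748302847))) (P (nat_lit 0))))) (T.h (T.h (P (nat_lit 0)) (T.h (T.h (M (nat_lit 19467932748244439793663)) (T.h (P (nat_lit 0)) (M (nat_lit 12701974667231231)))) (T.h (P (nat_lit 0)) (P (nat_lit 3918274737192960))))) (T.h (T.h (T.h (P (nat_lit 0)) (M (nat_lit 12429613524915847167))) (P (nat_lit 0))) (T.h (T.h (P (nat_lit 0)) (P (nat_lit 2379570363793408))) (P (nat_lit 0))))))), (P (nat_lit 0)), (P (nat_lit 0)), (T.h (T.h (T.h (P (nat_lit 0)) (T.h (M (nat_lit 12852879613821572345757695)) (T.h (P (nat_lit 0)) (T.h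 (P (nat_lit 637446587506065670144)) (T.h (P (nat_lit 0)) (M (nat_lit 659354132676607))))))) (T.h (P (nat_lit 0)) (T.h (T.h (P (nat_lit 0)) (T.h (M (nat_lit 285728088897521451007)) (T.h (P (nat_lit 0)) (M (nat_lit 2387430420054015))))) (T.h (P (nat_lit 0)) (T.h (T.h (P (nat_lit 0)) (M (nat_lit 9820380577136639))) (P (nat_lit 0))))))) (T.h (T.h (P (nat_lit 0)) (T.h (T.h (M (nat_lit 1351268652085930406969343)) (T.h (P (nat_lit 0)) (T.h (M (nat_lit 9106968498537496575)) (T.h (P (nat_lit 0)) (P (nat_lit 13499878995904)))))) (T.h (P (nat_lit 0)) (T.h (T.h (M (nat_lit 1456239894979411967)) (T.h (P (nat_lit 0)) (P (nat_lit 5706106126624)))) (T.h (P (nat_lit 0)) (M (nat_lit 792617250143))))))) (T.h (T.h (T.h (P (nat_lit 0)) (T.h (M (nat_lit 285728088897521451007)) (T.h (P (nat_lit 0)) (M (nat_lit 2387430420054015))))) (T.h (P (nat_lit 0)) (T.h (T.h (P (nat_lit 0)) (M (nat_lit 11595435753078783))) (P (nat_lit 0))))) (T.h (T.h (P (nat_lit 0)) (T.h (T.h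 (M (nat_lit 1456239894979411967)) (T.h (P (nat_lit 0)) (P (nat_lit 5706106126624)))) (T.h (P (nat_lit 0)) (P (nat_lit 3108367647936))))) (T.h (T.h (T.h (P (nat_lit 0)) (M (nat_lit 9820380577136639))) (P (nat_lit 0))) (T.h (T.h (P (nat_lit 0)) (M (nat_lit 792617250143))) (P (nat_lit 0)))))))), (T.h (T.h (T.h (M (nat_lit 233599073851132825313359167487)) (T.h (P (nat_lit 0)) (T.h (M (nat_lit 37543111893281793489502207)) (T.h (P (nat_lit 0)) (T.h (P (nat_lit 1366218949192056832)) (T.h (P (nat_lit 0)) (M (nat_lit 5346534053183)))))))) (T.h (P (nat_lit 0)) (T.h (T.h (P (nat_lit 3339284828606134409494528)) (T.h (P (nat_lit 0)) (T.h (P (nat_lit 31825137202179866624)) (T.h (P (nat_lit 0)) (M (nat_lit 23757383925135)))))) (T.h (P (nat_lit 0)) (T.h (T.h (P (nat_lit 1338478820444864512)) (T.h (P (nat_lit 0)) (M (nat_lit 23020402898271)))) (T.h (P (nat_lit 0)) (P (nat_lit 9617498653952)))))))) (T.h (T.h (P (nat_lit 0)) (T.h (T.h (P (nat_lit 0)) (T.h (M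 (nat_lit 82407207815392364855295)) (T.h (P (nat_lit 0)) (P (nat_lit 60188240626515968))))) (T.h (P (nat_lit 0)) (T.h (T.h (P (nat_lit 0)) (M (nat_lit 32143829745663999))) (P (nat_lit 0)))))) (T.h (T.h (T.h (P (nat_lit 5082112852419897131532288)) (T.h (P (nat_lit 0)) (T.h (P (nat_lit 97042588629337112576)) (T.h (P (nat_lit 0)) (M (nat_lit 1079589108847)))))) (T.h (P (nat_lit 0)) (T.h (T.h (M (nat_lit 100023438623520063487)) (T.h (P (nat_lit 0)) (M (nat_lit 22834946776191)))) (T.h (P (nat_lit 0)) (M (nat_lit 20604639669311)))))) (T.h (T.h (P (nat_lit 0)) (T.h (T.h (P (nat_lit 0)) (M (nat_lit 87065281106345983))) (P (nat_lit 0)))) (T.h (T.h (T.h (M (nat_lit 2430645173944844287)) (T.h (P (nat_lit 0)) (P (nat_lit 12372716820768)))) (T.h (P (nat_lit 0)) (P (nat_lit 31329944283904)))) (T.h (P (nat_lit 0)) (M (nat_lit 1694558487759)))))))), (T.h (T.h (T.h (P (nat_lit 0)) (T.h (P (nat_lit 3912186387042781318489309184)) (T.h (P (nat_lit 0)) (T.h (M (nat_lit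 10032247509758490181631)) (T.h (P (nat_lit 0)) (P (nat_lit 12964061643177984))))))) (T.h (P (nat_lit 0)) (T.h (T.h (P (nat_lit 0)) (T.h (M (nat_lit 16069614633279035539455)) (T.h (P (nat_lit 0)) (P (nat_lit 19042531012182016))))) (T.h (P (nat_lit 0)) (T.h (T.h (P (nat_lit 0)) (P (nat_lit 32299067457896448))) (P (nat_lit 0))))))) (T.h (T.h (P (nat_lit 0)) (T.h (T.h (P (nat_lit 32151543346033375355863040)) (T.h (P (nat_lit 0)) (T.h (M (nat_lit 13649441188648845311)) (T.h (P (nat_lit 0)) (M (nat_lit 24657609824063)))))) (T.h (P (nat_lit 0)) (T.h (T.h (P (nat_lit 29559669016657657856)) (T.h (P (nat_lit 0)) (M (nat_lit 1321085431679)))) (T.h (P (nat_lit 0)) (P (nat_lit 4818155716864))))))) (T.h (T.h (T.h (P (nat_lit 0)) (T.h (M (nat_lit 16069614633279035539455)) (T.h (P (nat_lit 0)) (P (nat_lit 19042531012182016))))) (T.h (P (nat_lit 0)) (T.h (T.h (P (nat_lit 0)) (M (nat_lit 3866233468190719))) (P (nat_lit 0))))) (T.h (T.h (P (nat_lit 0)) (T.h (T.h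 (P (nat_lit 29559669016657657856)) (T.h (P (nat_lit 0)) (M (nat_lit 1321085431679)))) (T.h (P (nat_lit 0)) (P (nat_lit 2939123638080))))) (T.h (T.h (T.h (P (nat_lit 0)) (P (nat_lit 32299067457896448))) (P (nat_lit 0))) (T.h (T.h (P (nat_lit 0)) (P (nat_lit 4818155716864))) (P (nat_lit 0))))))))]
def lP22_9 : List (T ℤ) := [(T.h (T.h (T.h (M (nat_lit 810696587689923214839151329279)) (T.h (P (nat_lit 0)) (T.h (P (nat_lit 37753905792173428090863616)) (T.h (P (nat_lit 0)) (T.h (M (nat_lit 3032841192715845631)) (T.h (P (nat_lit 0)) (P (nat_lit 6720453248160)))))))) (T.h (P (nat_lit 0)) (T.h (T.h (M (nat_lit 3407005411166908284141567)) (T.h (P (nat_lit 0)) (T.h (M (nat_lit 69781802947230826495)) (T.h (P (nat_lit 0)) (P (nat_lit 13392062460096)))))) (T.h (P (nat_lit 0)) (T.h (T.h (P (nat_lit 558531456423428096)) (T.h (P (nat_lit 0)) (P (nat_lit 9878987290848)))) (T.h (P (nat_lit 0)) (M (nat_lit 4261242224735)))))))) (T.h (T.h (P (nat_lit 0)) (T.h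 (T.h (P (nat_lit 0)) (T.h (P (nat_lit 81885751788132947197952)) (T.h (P (nat_lit 0)) (M (nat_lit 59976003680468991))))) (T.h (P (nat_lit 0)) (T.h (T.h (P (nat_lit 0)) (P (nat_lit 62483176773517312))) (P (nat_lit 0)))))) (T.h (T.h (T.h (M (nat_lit 3407005411166908284141567)) (T.h (P (nat_lit 0)) (T.h (M (nat_lit 69781802947230826495)) (T.h (P (nat_lit 0)) (P (nat_lit 13392062460096)))))) (T.h (P (nat_lit 0)) (T.h (T.h (P (nat_lit 96046158667346608128)) (T.h (P (nat_lit 0)) (P (nat_lit 30474460727712)))) (T.h (P (nat_lit 0)) (M (nat_lit 6016117140431)))))) (T.h (T.h (P (nat_lit 0)) (T.h (T.h (P (nat_lit 0)) (P (nat_lit 62483176773517312))) (P (nat_lit 0)))) (T.h (T.h (T.h (P (nat_lit 558531456423428096)) (T.h (P (nat_lit 0)) (P (nat_lit 9878987290848)))) (T.h (P (nat_lit 0)) (M (nat_lit 6016117140431)))) (T.h (P (nat_lit 0)) (M (nat_lit 4261242224735)))))))), (T.h (T.h (T.h (P (nat_lit 0)) (T.h (M (nat_lit 10791888917891311952700899327)) (T.h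 (P (nat_lit 0)) (T.h (M (nat_lit 1626752472681682042879)) (T.h (P (nat_lit 0)) (M (nat_lit 13647232764051455))))))) (T.h (P (nat_lit 0)) (T.h (T.h (P (nat_lit 0)) (T.h (P (nat_lit 39314200272193718321152)) (T.h (P (nat_lit 0)) (M (nat_lit 30372869421531135))))) (T.h (P (nat_lit 0)) (T.h (T.h (P (nat_lit 0)) (M (nat_lit 11019781030952959))) (P (nat_lit 0))))))) (T.h (T.h (P (nat_lit 0)) (T.h (T.h (P (nat_lit 4552137591189246866096128)) (T.h (P (nat_lit 0)) (P (nat_lit 60886120603446149120)))) (T.h (P (nat_lit 0)) (M (nat_lit 3540785065044738047))))) (T.h (T.h (T.h (P (nat_lit 0)) (T.h (P (nat_lit 39314200272193718321152)) (T.h (P (nat_lit 0)) (M (nat_lit 30372869421531135))))) (T.h (P (nat_lit 0)) (T.h (T.h (P (nat_lit 0)) (M (nat_lit 16427828951875583))) (P (nat_lit 0))))) (T.h (T.h (P (nat_lit 0)) (M (nat_lit 3540785065044738047))) (T.h (T.h (T.h (P (nat_lit 0)) (M (nat_lit 11019781030952959))) (P (nat_lit 0))) (P (nat_lit 0))))))), (P (nat_lit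 0)), (P (nat_lit 0)), (T.h (T.h (P (nat_lit 0)) (T.h (T.h (M (nat_lit 12852879613821572345757695)) (T.h (P (nat_lit 0)) (T.h (M (nat_lit 285728088897521451007)) (T.h (P (nat_lit 0)) (M (nat_lit 9820380577136639)))))) (T.h (P (nat_lit 0)) (T.h (T.h (P (nat_lit 637446587506065670144)) (T.h (P (nat_lit 0)) (M (nat_lit 2387430420054015)))) (T.h (P (nat_lit 0)) (M (nat_lit 659354132676607))))))) (T.h (T.h (T.h (P (nat_lit 0)) (T.h (M (nat_lit 1351268652085930406969343)) (T.h (P (nat_lit 0)) (T.h (M (nat_lit 1456239894979411967)) (T.h (P (nat_lit 0)) (M (nat_lit 792617250143))))))) (T.h (P (nat_lit 0)) (T.h (T.h (P (nat_lit 0)) (T.h (M (nat_lit 9106968498537496575)) (T.h (P (nat_lit 0)) (P (nat_lit 5706106126624))))) (T.h (P (nat_lit 0)) (T.h (T.h (P (nat_lit 0)) (P (nat_lit 13499878995904))) (P (nat_lit 0))))))) (T.h (T.h (P (nat_lit 0)) (T.h (T.h (M (nat_lit 285728088897521451007)) (T.h (P (nat_lit 0)) (M (nat_lit 11595435753078783)))) (T.h (P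 (nat_lit 0)) (M (nat_lit 2387430420054015))))) (T.h (T.h (T.h (P (nat_lit 0)) (T.h (M (nat_lit 1456239894979411967)) (T.h (P (nat_lit 0)) (P (nat_lit 3108367647936))))) (T.h (P (nat_lit 0)) (T.h (T.h (P (nat_lit 0)) (P (nat_lit 5706106126624))) (P (nat_lit 0))))) (T.h (T.h (P (nat_lit 0)) (M (nat_lit 9820380577136639))) (T.h (T.h (T.h (P (nat_lit 0)) (M (nat_lit 792617250143))) (P (nat_lit 0))) (P (nat_lit 0)))))))), (T.h (T.h (P (nat_lit 0)) (T.h (T.h (P (nat_lit 0)) (T.h (M (nat_lit 37449501152291180928565247)) (T.h (P (nat_lit 0)) (T.h (M (nat_lit 62851128381101047807)) (T.h (P (nat_lit 0)) (M (nat_lit 37100201364519))))))) (T.h (P (nat_lit 0)) (T.h (T.h (P (nat_lit 0)) (T.h (M (nat_lit 11177727589361909759)) (T.h (P (nat_lit 0)) (P (nat_lit 32365155061376))))) (T.h (P (nat_lit 0)) (T.h (T.h (P (nat_lit 0)) (M (nat_lit 30834591738231))) (P (nat_lit 0)))))))) (T.h (T.h (T.h (P (nat_lit 26918048165403572223124439040)) (T.h (P (nat_lit 0))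 (T.h (P (nat_lit 16323087304478341201920)) (T.h (P (nat_lit 0)) (P (nat_lit 12906101759934464)))))) (T.h (P (nat_lit 0)) (T.h (T.h (P (nat_lit 28496200696362805755904)) (T.h (P (nat_lit 0)) (P (nat_lit 78068288233275392)))) (T.h (P (nat_lit 0)) (P (nat_lit 12009480081899520)))))) (T.h (T.h (P (nat_lit 0)) (T.h (T.h (P (nat_lit 0)) (T.h (P (nat_lit 445175461490267783168)) (T.h (P (nat_lit 0)) (P (nat_lit 3442513213160))))) (T.h (P (nat_lit 0)) (T.h (T.h (P (nat_lit 0)) (M (nat_lit 8262703056647))) (P (nat_lit 0)))))) (T.h (T.h (T.h (P (nat_lit 4895464466500676485120)) (T.h (P (nat_lit 0)) (M (nat_lit 97546026279731199)))) (T.h (P (nat_lit 0)) (M (nat_lit 81377415842201599)))) (T.h (T.h (P (nat_lit 0)) (T.h (T.h (P (nat_lit 0)) (P (nat_lit 14708186627616))) (P (nat_lit 0)))) (P (nat_lit 17840743948943360))))))), (T.h (T.h (P (nat_lit 0)) (T.h (T.h (M (nat_lit 10269116897705586050811822079)) (T.h (P (nat_lit 0)) (T.h (M (nat_lit 11752904389286648872959))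 (T.h (P (nat_lit 0)) (P (nat_lit 64019304747630592)))))) (T.h (P (nat_lit 0)) (T.h (T.h (M (nat_lit 19423582445904722919423)) (T.h (P (nat_lit 0)) (P (nat_lit 48900044698517504)))) (T.h (P (nat_lit 0)) (M (nat_lit 11424268652298239))))))) (T.h (T.h (T.h (P (nat_lit 0)) (T.h (M (nat_lit 3140540335287327520718847)) (T.h (P (nat_lit 0)) (T.h (M (nat_lit 1023186957825474559)) (T.h (P (nat_lit 0)) (M (nat_lit 5632617450207))))))) (T.h (P (nat_lit 0)) (T.h (T.h (P (nat_lit 0)) (T.h (P (nat_lit 2740331464292827136)) (T.h (P (nat_lit 0)) (M (nat_lit 13000870878351))))) (T.h (P (nat_lit 0)) (T.h (T.h (P (nat_lit 0)) (M (nat_lit 71336986172927))) (P (nat_lit 0))))))) (T.h (T.h (P (nat_lit 0)) (T.h (T.h (M (nat_lit 40814377494051408576511)) (T.h (P (nat_lit 0)) (P (nat_lit 84186931744751616)))) (T.h (P (nat_lit 0)) (M (nat_lit 23241107784351743))))) (T.h (T.h (T.h (P (nat_lit 0)) (T.h (M (nat_lit 19618220207543156735)) (T.h (P (nat_lit 0)) (M (nat_lit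 8063003288703))))) (T.h (P (nat_lit 0)) (T.h (T.h (P (nat_lit 0)) (M (nat_lit 13156209311727))) (P (nat_lit 0))))) (T.h (T.h (P (nat_lit 0)) (P (nat_lit 7631175466680320))) (T.h (T.h (T.h (P (nat_lit 0)) (M (nat_lit 12153382404239))) (P (nat_lit 0))) (P (nat_lit 0)))))))), (T.h (T.h (P (nat_lit 0)) (T.h (T.h (P (nat_lit 0)) (T.h (P (nat_lit 34219577505904261729353728)) (T.h (P (nat_lit 0)) (T.h (P (nat_lit 62491710756640260096)) (T.h (P (nat_lit 0)) (P (nat_lit 37160142996432))))))) (T.h (P (nat_lit 0)) (T.h (T.h (P (nat_lit 0)) (T.h (M (nat_lit 101785428458033119231)) (T.h (P (nat_lit 0)) (M (nat_lit 15194470148207))))) (T.h (P (nat_lit 0)) (T.h (T.h (P (nat_lit 0)) (P (nat_lit 16720912128480))) (P (nat_lit 0)))))))) (T.h (T.h (T.h (M (nat_lit 24556072986798921191516012543)) (T.h (P (nat_lit 0)) (T.h (M (nat_lit 4980996676142313242623)) (T.h (P (nat_lit 0)) (M (nat_lit 39498243636592639)))))) (T.h (P (nat_lit 0)) (T.h (T.h (M (nat_lit 18238095826908243558399))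 (T.h (P (nat_lit 0)) (M (nat_lit 24734882115387391)))) (T.h (P (nat_lit 0)) (P (nat_lit 10739564299747328)))))) (T.h (T.h (P (nat_lit 0)) (T.h (T.h (P (nat_lit 0)) (T.h (M (nat_lit 220930338352237903871)) (T.h (P (nat_lit 0)) (P (nat_lit 25587277519872))))) (T.h (P (nat_lit 0)) (T.h (T.h (P (nat_lit 0)) (M (nat_lit 12048870166367))) (P (nat_lit 0)))))) (T.h (T.h (T.h (M (nat_lit 13721056066817709047807)) (T.h (P (nat_lit 0)) (P (nat_lit 48486625826766848)))) (T.h (P (nat_lit 0)) (P (nat_lit 43601158870171648)))) (T.h (T.h (P (nat_lit 0)) (T.h (T.h (P (nat_lit 0)) (P (nat_lit 1483797581376))) (P (nat_lit 0)))) (M (nat_lit 12786125555204095)))))))]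
def lP22_10 : List (T ℤ) := [(T.h (T.h (P (nat_lit 0)) (T.h (T.h (P (nat_lit 3057717378853825663268290560)) (T.h (P (nat_lit 0)) (T.h (M (nat_lit 34371714572181032665087)) (T.h (P (nat_lit 0)) (M (nat_lit 72177182128979967)))))) (T.h (P (nat_lit 0)) (T.h (T.h (P (nat_lit 1780258074724053024768)) (T.h (P (nat_lit 0)) (M (nat_lit 6497396134756351)))) (T.h (P (nat_lit 0)) (P (nat_lit 4763365724028928))))))) (T.h (T.h (T.h (P (nat_lit 0)) (T.h (M (nat_lit 12660772485101187447652351)) (T.h (P (nat_lit 0)) (P (nat_lit 112093646349093830656))))) (T.h (P (nat_lit 0)) (T.h (T.h (P (nat_lit 0)) (M (nat_lit 45047154406338854911))) (P (nat_lit 0))))) (T.h (T.h (P (nat_lit 0)) (T.h (T.h (P (nat_lit 8447562600720023683072)) (T.h (P (nat_lit 0)) (M (nat_lit 79412148893564927)))) (T.h (P (nat_lit 0)) (P (nat_lit 4163999934857216))))) (T.h (T.h (T.h (P (nat_lit 0)) (M (nat_lit 35855661794571845631))) (P (nat_lit 0))) (T.h (T.h (P (nat_lit 0)) (P (nat_lit 19241456788209664)))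 (P (nat_lit 0))))))), (P (nat_lit 0)), (P (nat_lit 0)), (T.h (T.h (T.h (P (nat_lit 0)) (T.h (P (nat_lit 532858792078950653260464128)) (T.h (P (nat_lit 0)) (T.h (M (nat_lit 3075121913902334476287)) (T.h (P (nat_lit 0)) (M (nat_lit 1221575086440447))))))) (T.h (P (nat_lit 0)) (T.h (T.h (P (nat_lit 0)) (T.h (M (nat_lit 4144768062586427015167)) (T.h (P (nat_lit 0)) (M (nat_lit 14061861106614271))))) (T.h (P (nat_lit 0)) (T.h (T.h (P (nat_lit 0)) (P (nat_lit 10195113124757504))) (P (nat_lit 0))))))) (T.h (T.h (P (nat_lit 0)) (T.h (T.h (P (nat_lit 8717922922079423085674496)) (T.h (P (nat_lit 0)) (T.h (P (nat_lit 10942545611232116736)) (T.h (P (nat_lit 0)) (P (nat_lit 3166704741056)))))) (T.h (P (nat_lit 0)) (T.h (T.h (P (nat_lit 6521691154386255872)) (T.h (P (nat_lit 0)) (M (nat_lit 9748205673263)))) (T.h (P (nat_lit 0)) (M (nat_lit 5165935566879))))))) (T.h (T.h (T.h (P (nat_lit 0)) (T.h (P (nat_lit 3321691345876869447680)) (T.h (P (nat_lit 0))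 (P (nat_lit 15163554349252608))))) (T.h (P (nat_lit 0)) (T.h (T.h (P (nat_lit 0)) (P (nat_lit 15787150469627904))) (P (nat_lit 0))))) (T.h (T.h (P (nat_lit 0)) (T.h (T.h (M (nat_lit 193192647643365375)) (T.h (P (nat_lit 0)) (M (nat_lit 172863613551)))) (T.h (P (nat_lit 0)) (P (nat_lit 3373397582576))))) (T.h (T.h (T.h (P (nat_lit 0)) (P (nat_lit 2725830294568960))) (P (nat_lit 0))) (T.h (T.h (P (nat_lit 0)) (M (nat_lit 424261102751))) (P (nat_lit 0)))))))), (T.h (T.h (T.h (M (nat_lit 2248041611807955158416687628287)) (T.h (P (nat_lit 0)) (T.h (P (nat_lit 22998856298373897317777408)) (T.h (P (nat_lit 0)) (T.h (M (nat_lit 1809775932169256959)) (T.h (P (nat_lit 0)) (P (nat_lit 4974677902512)))))))) (T.h (P (nat_lit 0)) (T.h (T.h (M (nat_lit 22355860403255416230772735)) (T.h (P (nat_lit 0)) (T.h (M (nat_lit 48302908811373445119)) (T.h (P (nat_lit 0)) (M (nat_lit 6163918761887)))))) (T.h (P (nat_lit 0)) (T.h (T.h (M (nat_lit 12117609771951980543))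 (T.h (P (nat_lit 0)) (M (nat_lit 24310713215903)))) (T.h (P (nat_lit 0)) (M (nat_lit 1351169527407)))))))) (T.h (T.h (P (nat_lit 0)) (T.h (T.h (P (nat_lit 0)) (T.h (M (nat_lit 101383502450596276862975)) (T.h (P (nat_lit 0)) (P (nat_lit 12424329035710464))))) (T.h (P (nat_lit 0)) (T.h (T.h (P (nat_lit 0)) (P (nat_lit 87137507642114048))) (P (nat_lit 0)))))) (T.h (T.h (T.h (P (nat_lit 8374704790183218652381184)) (T.h (P (nat_lit 0)) (T.h (P (nat_lit 1095462655537184768)) (T.h (P (nat_lit 0)) (M (nat_lit 18279454299727)))))) (T.h (P (nat_lit 0)) (T.h (T.h (P (nat_lit 137051546616728649728)) (T.h (P (nat_lit 0)) (M (nat_lit 18248556499983)))) (T.h (P (nat_lit 0)) (P (nat_lit 20065619356656)))))) (T.h (T.h (P (nat_lit 0)) (T.h (T.h (P (nat_lit 0)) (M (nat_lit 92831690739744767))) (P (nat_lit 0)))) (T.h (T.h (T.h (P (nat_lit 5507644551881293824)) (T.h (P (nat_lit 0)) (P (nat_lit 42287790739840)))) (T.h (P (nat_lit 0)) (P (nat_lit 13148422638384))))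 (T.h (P (nat_lit 0)) (M (nat_lit 2898256773599)))))))), (T.h (T.h (T.h (P (nat_lit 0)) (T.h (M (nat_lit 10269116897705586050811822079)) (T.h (P (nat_lit 0)) (T.h (M (nat_lit 19423582445904722919423)) (T.h (P (nat_lit 0)) (M (nat_lit 11424268652298239))))))) (T.h (P (nat_lit 0)) (T.h (T.h (P (nat_lit 0)) (T.h (M (nat_lit 11752904389286648872959)) (T.h (P (nat_lit 0)) (P (nat_lit 48900044698517504))))) (T.h (P (nat_lit 0)) (T.h (T.h (P (nat_lit 0)) (P (nat_lit 64019304747630592))) (P (nat_lit 0))))))) (T.h (T.h (P (nat_lit 0)) (T.h (T.h (M (nat_lit 3140540335287327520718847)) (T.h (P (nat_lit 0)) (T.h (P (nat_lit 2740331464292827136)) (T.h (P (nat_lit 0)) (M (nat_lit 71336986172927)))))) (T.h (P (nat_lit 0)) (T.h (T.h (M (nat_lit 1023186957825474559)) (T.h (P (nat_lit 0)) (M (nat_lit 13000870878351)))) (T.h (P (nat_lit 0)) (M (nat_lit 5632617450207))))))) (T.h (T.h (T.h (P (nat_lit 0)) (T.h (M (nat_lit 40814377494051408576511)) (T.h (P (nat_lit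 0)) (M (nat_lit 23241107784351743))))) (T.h (P (nat_lit 0)) (T.h (T.h (P (nat_lit 0)) (P (nat_lit 84186931744751616))) (P (nat_lit 0))))) (T.h (T.h (P (nat_lit 0)) (T.h (T.h (M (nat_lit 19618220207543156735)) (T.h (P (nat_lit 0)) (M (nat_lit 13156209311727)))) (T.h (P (nat_lit 0)) (M (nat_lit 8063003288703))))) (T.h (T.h (T.h (P (nat_lit 0)) (P (nat_lit 7631175466680320))) (P (nat_lit 0))) (T.h (T.h (P (nat_lit 0)) (M (nat_lit 12153382404239))) (P (nat_lit 0)))))))), (T.h (T.h (T.h (P (nat_lit 1926289178347798091970222489600)) (T.h (P (nat_lit 0)) (T.h (M (nat_lit 2967819953213876012580863)) (T.h (P (nat_lit 0)) (T.h (P (nat_lit 6691717599643828224)) (T.h (P (nat_lit 0)) (M (nat_lit 905405486159)))))))) (T.h (P (nat_lit 0)) (T.h (T.h (M (nat_lit 2967819953213876012580863)) (T.h (P (nat_lit 0)) (T.h (P (nat_lit 1044491642330939392)) (T.h (P (nat_lit 0)) (P (nat_lit 25824793852896)))))) (T.h (P (nat_lit 0)) (T.h (T.h (P (nat_lit 6691717599643828224))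 (T.h (P (nat_lit 0)) (P (nat_lit 25824793852896)))) (T.h (P (nat_lit 0)) (M (nat_lit 905405486159)))))))) (T.h (T.h (P (nat_lit 0)) (T.h (T.h (P (nat_lit 0)) (T.h (M (nat_lit 101836983772912954638335)) (T.h (P (nat_lit 0)) (P (nat_lit 60655451073478656))))) (T.h (P (nat_lit 0)) (T.h (T.h (P (nat_lit 0)) (P (nat_lit 60655451073478656))) (P (nat_lit 0)))))) (T.h (T.h (T.h (P (nat_lit 2899700707510487674257408)) (T.h (P (nat_lit 0)) (T.h (M (nat_lit 60783134145811316735)) (T.h (P (nat_lit 0)) (P (nat_lit 10599934930752)))))) (T.h (P (nat_lit 0)) (T.h (T.h (M (nat_lit 60783134145811316735)) (T.h (P (nat_lit 0)) (P (nat_lit 54100397103456)))) (T.h (P (nat_lit 0)) (P (nat_lit 10599934930752)))))) (T.h (T.h (P (nat_lit 0)) (T.h (T.h (P (nat_lit 0)) (P (nat_lit 90898632649211904))) (P (nat_lit 0)))) (T.h (T.h (T.h (P (nat_lit 6322290353244209152)) (T.h (P (nat_lit 0)) (M (nat_lit 31837786800239)))) (T.h (P (nat_lit 0)) (M (nat_lit 31837786800239))))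 (T.h (P (nat_lit 0)) (P (nat_lit 12427974380448)))))))), (T.h (T.h (T.h (P (nat_lit 0)) (T.h (P (nat_lit 7898869424295032560457613312)) (T.h (P (nat_lit 0)) (T.h (M (nat_lit 25619508905965531430911)) (T.h (P (nat_lit 0)) (M (nat_lit 5990357490696191))))))) (T.h (P (nat_lit 0)) (T.h (T.h (P (nat_lit 0)) (T.h (M (nat_lit 20518604022785385693183)) (T.h (P (nat_lit 0)) (M (nat_lit 25828239031599103))))) (T.h (P (nat_lit 0)) (T.h (T.h (P (nat_lit 0)) (M (nat_lit 37244374366273535))) (P (nat_lit 0))))))) (T.h (T.h (P (nat_lit 0)) (T.h (T.h (M (nat_lit 3808010078810433310949375)) (T.h (P (nat_lit 0)) (P (nat_lit 47737917958413877248)))) (T.h (P (nat_lit 0)) (P (nat_lit 7228349994594467840))))) (T.h (T.h (T.h (P (nat_lit 0)) (T.h (P (nat_lit 66894456594855284965376)) (T.h (P (nat_lit 0)) (M (nat_lit 34505731325050879))))) (T.h (P (nat_lit 0)) (T.h (T.h (P (nat_lit 0)) (M (nat_lit 4558212600184831))) (P (nat_lit 0))))) (T.h (T.h (P (nat_lit 0)) (M (nat_lit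 39699916217686949887))) (T.h (T.h (T.h (P (nat_lit 0)) (P (nat_lit 17205814889070592))) (P (nat_lit 0))) (P (nat_lit 0)))))))]
def lP22_11 : List (T ℤ) := [(P (nat_lit 0)), (P (nat_lit 0)), (T.h (T.h (P (nat_lit 0)) (T.h (T.h (P (nat_lit 0)) (T.h (P (nat_lit 25782059199019256752635904)) (T.h (P (nat_lit 0)) (T.h (P (nat_lit 41803315934142660608)) (T.h (P (nat_lit 0)) (M (nat_lit 13409654446439))))))) (T.h (P (nat_lit 0)) (T.h (T.h (P (nat_lit 0)) (T.h (M (nat_lit 10956008452240965631)) (T.h (P (nat_lit 0)) (P (nat_lit 3760716746192))))) (T.h (P (nat_lit 0)) (T.h (T.h (P (nat_lit 0)) (M (nat_lit 12222797486679))) (P (nat_lit 0)))))))) (T.h (T.h (T.h (M (nat_lit 2041045200017422124645875711)) (T.h (P (nat_lit 0)) (T.h (M (nat_lit 12557007179632082943999)) (T.h (P (nat_lit 0)) (P (nat_lit 13841189037604864)))))) (T.h (P (nat_lit 0)) (T.h (T.h (M (nat_lit 46873549870490240155647)) (T.h (P (nat_lit 0)) (P (nat_lit 53339500682969088)))) (T.h (P (nat_lit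 0)) (P (nat_lit 8579101551165440)))))) (T.h (T.h (P (nat_lit 0)) (T.h (T.h (P (nat_lit 0)) (T.h (M (nat_lit 18647863152082943999)) (T.h (P (nat_lit 0)) (M (nat_lit 22059246121807))))) (T.h (P (nat_lit 0)) (T.h (T.h (P (nat_lit 0)) (M (nat_lit 3413523251103))) (P (nat_lit 0)))))) (T.h (T.h (T.h (M (nat_lit 2042390810390635216895)) (T.h (P (nat_lit 0)) (M (nat_lit 37819028543930367)))) (T.h (P (nat_lit 0)) (M (nat_lit 15680341622751231)))) (T.h (T.h (P (nat_lit 0)) (T.h (T.h (P (nat_lit 0)) (M (nat_lit 8030211623615))) (P (nat_lit 0)))) (M (nat_lit 8272845682114559))))))), (T.h (T.h (P (nat_lit 0)) (T.h (T.h (P (nat_lit 3912186387042781318489309184)) (T.h (P (nat_lit 0)) (T.h (M (nat_lit 16069614633279035539455)) (T.h (P (nat_lit 0)) (P (nat_lit 32299067457896448)))))) (T.h (P (nat_lit 0)) (T.h (T.h (M (nat_lit 10032247509758490181631)) (T.h (P (nat_lit 0)) (P (nat_lit 19042531012182016)))) (T.h (P (nat_lit 0)) (P (nat_lit 12964061643177984)))))))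 (T.h (T.h (T.h (P (nat_lit 0)) (T.h (P (nat_lit 32151543346033375355863040)) (T.h (P (nat_lit 0)) (T.h (P (nat_lit 29559669016657657856)) (T.h (P (nat_lit 0)) (P (nat_lit 4818155716864))))))) (T.h (P (nat_lit 0)) (T.h (T.h (P (nat_lit 0)) (T.h (M (nat_lit 13649441188648845311)) (T.h (P (nat_lit 0)) (M (nat_lit 1321085431679))))) (T.h (P (nat_lit 0)) (T.h (T.h (P (nat_lit 0)) (M (nat_lit 24657609824063))) (P (nat_lit 0))))))) (T.h (T.h (P (nat_lit 0)) (T.h (T.h (M (nat_lit 16069614633279035539455)) (T.h (P (nat_lit 0)) (M (nat_lit 3866233468190719)))) (T.h (P (nat_lit 0)) (P (nat_lit 19042531012182016))))) (T.h (T.h (T.h (P (nat_lit 0)) (T.h (P (nat_lit 29559669016657657856)) (T.h (P (nat_lit 0)) (P (nat_lit 2939123638080))))) (T.h (P (nat_lit 0)) (T.h (T.h (P (nat_lit 0)) (M (nat_lit 1321085431679))) (P (nat_lit 0))))) (T.h (T.h (P (nat_lit 0)) (P (nat_lit 32299067457896448))) (T.h (T.h (T.h (P (nat_lit 0)) (P (nat_lit 4818155716864))) (P (nat_lit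 0))) (P (nat_lit 0)))))))), (T.h (T.h (P (nat_lit 0)) (T.h (T.h (P (nat_lit 0)) (T.h (P (nat_lit 34219577505904261729353728)) (T.h (P (nat_lit 0)) (T.h (M (nat_lit 101785428458033119231)) (T.h (P (nat_lit 0)) (P (nat_lit 16720912128480))))))) (T.h (P (nat_lit 0)) (T.h (T.h (P (nat_lit 0)) (T.h (P (nat_lit 62491710756640260096)) (T.h (P (nat_lit 0)) (M (nat_lit 15194470148207))))) (T.h (P (nat_lit 0)) (T.h (T.h (P (nat_lit 0)) (P (nat_lit 37160142996432))) (P (nat_lit 0)))))))) (T.h (T.h (T.h (M (nat_lit 24556072986798921191516012543)) (T.h (P (nat_lit 0)) (T.h (M (nat_lit 18238095826908243558399)) (T.h (P (nat_lit 0)) (P (nat_lit 10739564299747328)))))) (T.h (P (nat_lit 0)) (T.h (T.h (M (nat_lit 4980996676142313242623)) (T.h (P (nat_lit 0)) (M (nat_lit 24734882115387391)))) (T.h (P (nat_lit 0)) (M (nat_lit 39498243636592639)))))) (T.h (T.h (P (nat_lit 0)) (T.h (T.h (P (nat_lit 0)) (T.h (M (nat_lit 220930338352237903871)) (T.h (P (nat_lit 0))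 (M (nat_lit 12048870166367))))) (T.h (P (nat_lit 0)) (T.h (T.h (P (nat_lit 0)) (P (nat_lit 25587277519872))) (P (nat_lit 0)))))) (T.h (T.h (T.h (M (nat_lit 13721056066817709047807)) (T.h (P (nat_lit 0)) (P (nat_lit 43601158870171648)))) (T.h (P (nat_lit 0)) (P (nat_lit 48486625826766848)))) (T.h (T.h (P (nat_lit 0)) (T.h (T.h (P (nat_lit 0)) (P (nat_lit 1483797581376))) (P (nat_lit 0)))) (M (nat_lit 12786125555204095))))))), (T.h (T.h (P (nat_lit 0)) (T.h (T.h (P (nat_lit 7898869424295032560457613312)) (T.h (P (nat_lit 0)) (T.h (M (nat_lit 20518604022785385693183)) (T.h (P (nat_lit 0)) (M (nat_lit 37244374366273535)))))) (T.h (P (nat_lit 0)) (T.h (T.h (M (nat_lit 25619508905965531430911)) (T.h (P (nat_lit 0)) (M (nat_lit 25828239031599103)))) (T.h (P (nat_lit 0)) (M (nat_lit 5990357490696191))))))) (T.h (T.h (T.h (P (nat_lit 0)) (T.h (M (nat_lit 3808010078810433310949375)) (T.h (P (nat_lit 0)) (P (nat_lit 7228349994594467840))))) (T.h (P (nat_lit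 0)) (T.h (T.h (P (nat_lit 0)) (P (nat_lit 47737917958413877248))) (P (nat_lit 0))))) (T.h (T.h (P (nat_lit 0)) (T.h (T.h (P (nat_lit 66894456594855284965376)) (T.h (P (nat_lit 0)) (M (nat_lit 4558212600184831)))) (T.h (P (nat_lit 0)) (M (nat_lit 34505731325050879))))) (T.h (T.h (T.h (P (nat_lit 0)) (M (nat_lit 39699916217686949887))) (P (nat_lit 0))) (T.h (T.h (P (nat_lit 0)) (P (nat_lit 17205814889070592))) (P (nat_lit 0))))))), (P (nat_lit 0)), (T.h (T.h (T.h (P (nat_lit 2088591323082112080305020993536)) (T.h (P (nat_lit 0)) (T.h (M (nat_lit 1607386858692214972743679)) (T.h (P (nat_lit 0)) (T.h (M (nat_lit 24896559346876415)) (T.h (P (nat_lit 0)) (P (nat_lit 599544283280)))))))) (T.h (P (nat_lit 0)) (T.h (T.h (M (nat_lit 421587797783269202722815)) (T.h (P (nat_lit 0)) (T.h (P (nat_lit 10695880062944673792)) (T.h (P (nat_lit 0)) (M (nat_lit 9110288504191)))))) (T.h (P (nat_lit 0)) (T.h (T.h (P (nat_lit 3333244487047577600)) (T.h (P (nat_lit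 0)) (M (nat_lit 1947151886207)))) (T.h (P (nat_lit 0)) (M (nat_lit 2747838389951)))))))) (T.h (T.h (P (nat_lit 0)) (T.h (T.h (P (nat_lit 0)) (T.h (P (nat_lit 1042912054518835314688)) (T.h (P (nat_lit 0)) (M (nat_lit 5757242695024639))))) (T.h (P (nat_lit 0)) (T.h (T.h (P (nat_lit 0)) (M (nat_lit 424473892093951))) (P (nat_lit 0)))))) (T.h (T.h (T.h (M (nat_lit 1607386858692214972743679)) (T.h (P (nat_lit 0)) (T.h (P (nat_lit 7954559912346910720)) (T.h (P (nat_lit 0)) (P (nat_lit 1306929666272)))))) (T.h (P (nat_lit 0)) (T.h (T.h (P (nat_lit 10695880062944673792)) (T.h (P (nat_lit 0)) (M (nat_lit 15279027903039)))) (T.h (P (nat_lit 0)) (M (nat_lit 1947151886207)))))) (T.h (T.h (P (nat_lit 0)) (T.h (T.h (P (nat_lit 0)) (M (nat_lit 5757242695024639))) (P (nat_lit 0)))) (T.h (T.h (T.h (M (nat_lit 24896559346876415)) (T.h (P (nat_lit 0)) (P (nat_lit 1306929666272)))) (T.h (P (nat_lit 0)) (M (nat_lit 9110288504191)))) (T.h (P (nat_lit 0)) (P (nat_lit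 599544283280))))))))]
def lP22_12 : List (T ℤ) := [(T.h (T.h (T.h (P (nat_lit 0)) (T.h (M (nat_lit 2183137425904434638667907071)) (T.h (P (nat_lit 0)) (T.h (P (nat_lit 1146563286424017174528)) (T.h (P (nat_lit 0)) (P (nat_lit 2008321073004544))))))) (T.h (P (nat_lit 0)) (T.h (T.h (P (nat_lit 0)) (T.h (M (nat_lit 27481446203344965074943)) (T.h (P (nat_lit 0)) (P (nat_lit 24685718477160448))))) (T.h (P (nat_lit 0)) (T.h (T.h (P (nat_lit 0)) (M (nat_lit 4103378252595199))) (P (nat_lit 0))))))) (T.h (T.h (P (nat_lit 0)) (T.h (T.h (P (nat_lit 11006440254763849941516288)) (T.h (P (nat_lit 0)) (T.h (P (nat_lit 17390635901448617984)) (T.h (P (nat_lit 0)) (M (nat_lit 170731117199)))))) (T.h (P (nat_lit 0)) (T.h (T.h (M (nat_lit 10212482558193565695)) (T.h (P (nat_lit 0)) (P (nat_lit 8038665908672)))) (T.h (P (nat_lit 0)) (P (nat_lit 11875290719936))))))) (T.h (T.h (T.h (P (nat_lit 0)) (T.h (P (nat_lit 1595751522983967981568)) (T.h (P (nat_lit 0)) (M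 (nat_lit 30936074729717759))))) (T.h (P (nat_lit 0)) (T.h (T.h (P (nat_lit 0)) (M (nat_lit 1654209649672191))) (P (nat_lit 0))))) (T.h (T.h (P (nat_lit 0)) (T.h (T.h (P (nat_lit 16119823565909393408)) (T.h (P (nat_lit 0)) (P (nat_lit 3403801104368)))) (T.h (P (nat_lit 0)) (M (nat_lit 267617463791))))) (T.h (T.h (T.h (P (nat_lit 0)) (M (nat_lit 10387681152090111))) (P (nat_lit 0))) (T.h (T.h (P (nat_lit 0)) (M (nat_lit 476646617775))) (P (nat_lit 0)))))))), (T.h (T.h (T.h (M (nat_lit 810696587689923214839151329279)) (T.h (P (nat_lit 0)) (T.h (M (nat_lit 3407005411166908284141567)) (T.h (P (nat_lit 0)) (T.h (P (nat_lit 558531456423428096)) (T.h (P (nat_lit 0)) (M (nat_lit 4261242224735)))))))) (T.h (P (nat_lit 0)) (T.h (T.h (P (nat_lit 37753905792173428090863616)) (T.h (P (nat_lit 0)) (T.h (M (nat_lit 69781802947230826495)) (T.h (P (nat_lit 0)) (P (nat_lit 9878987290848)))))) (T.h (P (nat_lit 0)) (T.h (T.h (M (nat_lit 3032841192715845631)) (T.h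 (P (nat_lit 0)) (P (nat_lit 13392062460096)))) (T.h (P (nat_lit 0)) (P (nat_lit 6720453248160)))))))) (T.h (T.h (P (nat_lit 0)) (T.h (T.h (P (nat_lit 0)) (T.h (P (nat_lit 81885751788132947197952)) (T.h (P (nat_lit 0)) (P (nat_lit 62483176773517312))))) (T.h (P (nat_lit 0)) (T.h (T.h (P (nat_lit 0)) (M (nat_lit 59976003680468991))) (P (nat_lit 0)))))) (T.h (T.h (T.h (M (nat_lit 3407005411166908284141567)) (T.h (P (nat_lit 0)) (T.h (P (nat_lit 96046158667346608128)) (T.h (P (nat_lit 0)) (M (nat_lit 6016117140431)))))) (T.h (P (nat_lit 0)) (T.h (T.h (M (nat_lit 69781802947230826495)) (T.h (P (nat_lit 0)) (P (nat_lit 30474460727712)))) (T.h (P (nat_lit 0)) (P (nat_lit 13392062460096)))))) (T.h (T.h (P (nat_lit 0)) (T.h (T.h (P (nat_lit 0)) (P (nat_lit 62483176773517312))) (P (nat_lit 0)))) (T.h (T.h (T.h (P (nat_lit 558531456423428096)) (T.h (P (nat_lit 0)) (M (nat_lit 6016117140431)))) (T.h (P (nat_lit 0)) (P (nat_lit 9878987290848)))) (T.h (P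 (nat_lit 0)) (M (nat_lit 4261242224735)))))))), (T.h (T.h (T.h (P (nat_lit 0)) (T.h (P (nat_lit 3057717378853825663268290560)) (T.h (P (nat_lit 0)) (T.h (P (nat_lit 1780258074724053024768)) (T.h (P (nat_lit 0)) (P (nat_lit 4763365724028928))))))) (T.h (P (nat_lit 0)) (T.h (T.h (P (nat_lit 0)) (T.h (M (nat_lit 34371714572181032665087)) (T.h (P (nat_lit 0)) (M (nat_lit 6497396134756351))))) (T.h (P (nat_lit 0)) (T.h (T.h (P (nat_lit 0)) (M (nat_lit 72177182128979967))) (P (nat_lit 0))))))) (T.h (T.h (P (nat_lit 0)) (T.h (T.h (M (nat_lit 12660772485101187447652351)) (T.h (P (nat_lit 0)) (M (nat_lit 45047154406338854911)))) (T.h (P (nat_lit 0)) (P (nat_lit 112093646349093830656))))) (T.h (T.h (T.h (P (nat_lit 0)) (T.h (P (nat_lit 8447562600720023683072)) (T.h (P (nat_lit 0)) (P (nat_lit 4163999934857216))))) (T.h (P (nat_lit 0)) (T.h (T.h (P (nat_lit 0)) (M (nat_lit 79412148893564927))) (P (nat_lit 0))))) (T.h (T.h (P (nat_lit 0)) (M (nat_lit 35855661794571845631)))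 (T.h (T.h (T.h (P (nat_lit 0)) (P (nat_lit 19241456788209664))) (P (nat_lit 0))) (P (nat_lit 0))))))), (P (nat_lit 0)), (P (nat_lit 0)), (T.h (T.h (P (nat_lit 0)) (T.h (T.h (P (nat_lit 0)) (T.h (M (nat_lit 11660322374750600744140799)) (T.h (P (nat_lit 0)) (T.h (M (nat_lit 24783823898534739967)) (T.h (P (nat_lit 0)) (P (nat_lit 2531236715616))))))) (T.h (P (nat_lit 0)) (T.h (T.h (P (nat_lit 0)) (T.h (M (nat_lit 18520378691960176639)) (T.h (P (nat_lit 0)) (P (nat_lit 6938019607344))))) (T.h (P (nat_lit 0)) (T.h (T.h (P (nat_lit 0)) (M (nat_lit 170296125263))) (P (nat_lit 0)))))))) (T.h (T.h (T.h (P (nat_lit 6851398732185546236270477312)) (T.h (P (nat_lit 0)) (T.h (M (nat_lit 21425206370652458582015)) (T.h (P (nat_lit 0)) (M (nat_lit 12728265808248831)))))) (T.h (P (nat_lit 0)) (T.h (T.h (P (nat_lit 18348311073687137681408)) (T.h (P (nat_lit 0)) (P (nat_lit 10815406722252800)))) (T.h (P (nat_lit 0)) (M (nat_lit 17793055875203071)))))) (T.h (T.h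 (P (nat_lit 0)) (T.h (T.h (P (nat_lit 0)) (T.h (P (nat_lit 39841637126717308928)) (T.h (P (nat_lit 0)) (M (nat_lit 2136752720495))))) (T.h (P (nat_lit 0)) (T.h (T.h (P (nat_lit 0)) (P (nat_lit 14600707220976))) (P (nat_lit 0)))))) (T.h (T.h (T.h (M (nat_lit 4732893267667112165375)) (T.h (P (nat_lit 0)) (M (nat_lit 6016024335384575)))) (T.h (P (nat_lit 0)) (P (nat_lit 12497095545683968)))) (T.h (T.h (P (nat_lit 0)) (T.h (T.h (P (nat_lit 0)) (M (nat_lit 129643420655))) (P (nat_lit 0)))) (P (nat_lit 10744085451014144))))))), (T.h (T.h (P (nat_lit 0)) (T.h (T.h (M (nat_lit 10791888917891311952700899327)) (T.h (P (nat_lit 0)) (T.h (P (nat_lit 39314200272193718321152)) (T.h (P (nat_lit 0)) (M (nat_lit 11019781030952959)))))) (T.h (P (nat_lit 0)) (T.h (T.h (M (nat_lit 1626752472681682042879)) (T.h (P (nat_lit 0)) (M (nat_lit 30372869421531135)))) (T.h (P (nat_lit 0)) (M (nat_lit 13647232764051455))))))) (T.h (T.h (T.h (P (nat_lit 0)) (T.h (P (nat_lit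 4552137591189246866096128)) (T.h (P (nat_lit 0)) (M (nat_lit 3540785065044738047))))) (T.h (P (nat_lit 0)) (T.h (T.h (P (nat_lit 0)) (P (nat_lit 60886120603446149120))) (P (nat_lit 0))))) (T.h (T.h (P (nat_lit 0)) (T.h (T.h (P (nat_lit 39314200272193718321152)) (T.h (P (nat_lit 0)) (M (nat_lit 16427828951875583)))) (T.h (P (nat_lit 0)) (M (nat_lit 30372869421531135))))) (T.h (T.h (T.h (P (nat_lit 0)) (M (nat_lit 3540785065044738047))) (P (nat_lit 0))) (T.h (T.h (P (nat_lit 0)) (M (nat_lit 11019781030952959))) (P (nat_lit 0))))))), (P (nat_lit 0))]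
def lP22_13 : List (T ℤ) := [(P (nat_lit 0)), (T.h (T.h (T.h (P (nat_lit 0)) (T.h (P (nat_lit 3402341988066177641621749760)) (T.h (P (nat_lit 0)) (T.h (P (nat_lit 311281724839209992192)) (T.h (P (nat_lit 0)) (M (nat_lit 396931717021695))))))) (T.h (P (nat_lit 0)) (T.h (T.h (P (nat_lit 0)) (T.h (P (nat_lit 22557465762590185488384)) (T.h (P (nat_lit 0)) (M (nat_lit 6354815568904191))))) (T.h (P (nat_lit 0)) (T.h (T.h (P (nat_lit 0)) (M (nat_lit 723882441949183))) (P (nat_lit 0))))))) (T.h (T.h (P (nat_lit 0)) (T.h (T.h (M (nat_lit 17043484856467139858530303)) (T.h (P (nat_lit 0)) (M (nat_lit 11739852891748302847)))) (T.h (P (nat_lit 0)) (M (nat_lit 2896091241655566335))))) (T.h (T.h (T.h (P (nat_lit 0)) (T.h (M (nat_lit 19467932748244439793663)) (T.h (P (nat_lit 0)) (P (nat_lit 3918274737192960))))) (T.h (P (nat_lit 0)) (T.h (T.h (P (nat_lit 0)) (M (nat_lit 12701974667231231))) (P (nat_lit 0))))) (T.h (T.h (P (nat_lit 0)) (M (nat_lit 12429613524915847167)))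 (T.h (T.h (T.h (P (nat_lit 0)) (P (nat_lit 2379570363793408))) (P (nat_lit 0))) (P (nat_lit 0))))))), (P (nat_lit 0)), (P (nat_lit 0)), (P (nat_lit 0)), (M (nat_lit 4410501400340933843783516159999)), (P (nat_lit 0)), (P (nat_lit 0))]
def lP22_14 : List (T ℤ) := [(T.h (T.h (T.h (P (nat_lit 1805383373760183139493006540800)) (T.h (P (nat_lit 0)) (T.h (P (nat_lit 3690084522777037567426560)) (T.h (P (nat_lit 0)) (T.h (P (nat_lit 88907012733140992)) (T.h (P (nat_lit 0)) (M (nat_lit 249680986047)))))))) (T.h (P (nat_lit 0)) (T.h (T.h (M (nat_lit 8540221157997732972986367)) (T.h (P (nat_lit 0)) (T.h (M (nat_lit 11864997617031184383)) (T.h (P (nat_lit 0)) (M (nat_lit 2895170656607)))))) (T.h (P (nat_lit 0)) (T.h (T.h (M (nat_lit 1498452388879532031)) (T.h (P (nat_lit 0)) (P (nat_lit 4428051570736)))) (T.h (P (nat_lit 0)) (P (nat_lit 1859025209360)))))))) (T.h (T.h (P (nat_lit 0)) (T.h (T.h (P (nat_lit 0)) (T.h (M (nat_lit 37504206972847376039935)) (T.h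 (P (nat_lit 0)) (P (nat_lit 33709756530884608))))) (T.h (P (nat_lit 0)) (T.h (T.h (P (nat_lit 0)) (M (nat_lit 80088418702065663))) (P (nat_lit 0)))))) (T.h (T.h (T.h (P (nat_lit 4993890652620834673262592)) (T.h (P (nat_lit 0)) (T.h (P (nat_lit 44860331798839689216)) (T.h (P (nat_lit 0)) (M (nat_lit 4319818502511)))))) (T.h (P (nat_lit 0)) (T.h (T.h (M (nat_lit 9640911419125792767)) (T.h (P (nat_lit 0)) (M (nat_lit 439965457183)))) (T.h (P (nat_lit 0)) (P (nat_lit 1401575835328)))))) (T.h (T.h (P (nat_lit 0)) (T.h (T.h (P (nat_lit 0)) (P (nat_lit 35299560465694720))) (P (nat_lit 0)))) (T.h (T.h (T.h (M (nat_lit 3036770216718630911)) (T.h (P (nat_lit 0)) (M (nat_lit 3752530883695)))) (T.h (P (nat_lit 0)) (M (nat_lit 5354358773199)))) (T.h (P (nat_lit 0)) (P (nat_lit 4210600049808)))))))), (T.h (T.h (T.h (P (nat_lit 0)) (T.h (M (nat_lit 9908021319837027329787297791)) (T.h (P (nat_lit 0)) (T.h (P (nat_lit 21446166577966298955776)) (T.h (P (nat_lit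 0)) (M (nat_lit 18898354271649791))))))) (T.h (P (nat_lit 0)) (T.h (T.h (P (nat_lit 0)) (T.h (M (nat_lit 13942455474211149316095)) (T.h (P (nat_lit 0)) (P (nat_lit 52779697729929216))))) (T.h (P (nat_lit 0)) (T.h (T.h (P (nat_lit 0)) (P (nat_lit 37197869960069120))) (P (nat_lit 0))))))) (T.h (T.h (P (nat_lit 0)) (T.h (T.h (P (nat_lit 6403901020158053750669312)) (T.h (P (nat_lit 0)) (T.h (M (nat_lit 39976436551934541823)) (T.h (P (nat_lit 0)) (P (nat_lit 4933331930408)))))) (T.h (P (nat_lit 0)) (T.h (T.h (P (nat_lit 19507689566234476544)) (T.h (P (nat_lit 0)) (M (nat_lit 59881358043223)))) (T.h (P (nat_lit 0)) (P (nat_lit 13305965072760))))))) (T.h (T.h (T.h (P (nat_lit 0)) (T.h (M (nat_lit 15457232324273507401727)) (T.h (P (nat_lit 0)) (P (nat_lit 11719727643590656))))) (T.h (P (nat_lit 0)) (T.h (T.h (P (nat_lit 0)) (P (nat_lit 54662532518019072))) (P (nat_lit 0))))) (T.h (T.h (P (nat_lit 0)) (T.h (T.h (M (nat_lit 8240740358858735615)) (T.h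 (P (nat_lit 0)) (M (nat_lit 24591960685415)))) (T.h (P (nat_lit 0)) (M (nat_lit 7938952499351))))) (T.h (T.h (T.h (P (nat_lit 0)) (M (nat_lit 53149254943571967))) (P (nat_lit 0))) (T.h (T.h (P (nat_lit 0)) (M (nat_lit 169352831255))) (P (nat_lit 0)))))))), (T.h (T.h (T.h (P (nat_lit 17487934428072267589535253135360)) (T.h (P (nat_lit 0)) (T.h (P (nat_lit 3405504347900306815713280)) (T.h (P (nat_lit 0)) (T.h (M (nat_lit 194954281965584383)) (T.h (P (nat_lit 0)) (M (nat_lit 841910550095)))))))) (T.h (P (nat_lit 0)) (T.h (T.h (M (nat_lit 5115580566046666089562111)) (T.h (P (nat_lit 0)) (T.h (P (nat_lit 16915251563889426432)) (T.h (P (nat_lit 0)) (M (nat_lit 3067565725055)))))) (T.h (P (nat_lit 0)) (T.h (T.h (M (nat_lit 4476077744232333311)) (T.h (P (nat_lit 0)) (M (nat_lit 9541535052335)))) (T.h (P (nat_lit 0)) (M (nat_lit 4974807978671)))))))) (T.h (T.h (P (nat_lit 0)) (T.h (T.h (P (nat_lit 0)) (T.h (M (nat_lit 1159106777032331100159)) (T.h (P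 (nat_lit 0)) (M (nat_lit 28545725357064191))))) (T.h (P (nat_lit 0)) (T.h (T.h (P (nat_lit 0)) (P (nat_lit 68599225140936704))) (P (nat_lit 0)))))) (T.h (T.h (T.h (P (nat_lit 3738535489435886610808832)) (T.h (P (nat_lit 0)) (T.h (M (nat_lit 43221148870325043199)) (T.h (P (nat_lit 0)) (P (nat_lit 15738449462064)))))) (T.h (P (nat_lit 0)) (T.h (T.h (P (nat_lit 41779584602443087872)) (T.h (P (nat_lit 0)) (P (nat_lit 3598095398016)))) (T.h (P (nat_lit 0)) (M (nat_lit 974849383871)))))) (T.h (T.h (P (nat_lit 0)) (T.h (T.h (P (nat_lit 0)) (M (nat_lit 3663597815037951))) (P (nat_lit 0)))) (T.h (T.h (T.h (P (nat_lit 33195567503774842880)) (T.h (P (nat_lit 0)) (P (nat_lit 3450585787040)))) (T.h (P (nat_lit 0)) (P (nat_lit 17195691032800)))) (T.h (P (nat_lit 0)) (M (nat_lit 9293895593023)))))))), (T.h (T.h (T.h (P (nat_lit 0)) (T.h (P (nat_lit 11313976674552367672482332672)) (T.h (P (nat_lit 0)) (T.h (P (nat_lit 8332338091939801858048)) (T.h (P (nat_lit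 0)) (P (nat_lit 2381733355126784))))))) (T.h (P (nat_lit 0)) (T.h (T.h (P (nat_lit 0)) (T.h (P (nat_lit 19364957739904718077952)) (T.h (P (nat_lit 0)) (M (nat_lit 4670380306137087))))) (T.h (P (nat_lit 0)) (T.h (T.h (P (nat_lit 0)) (P (nat_lit 4063298060451840))) (P (nat_lit 0))))))) (T.h (T.h (P (nat_lit 0)) (T.h (T.h (M (nat_lit 9744612519320344909053951)) (T.h (P (nat_lit 0)) (T.h (P (nat_lit 15404681006925479936)) (T.h (P (nat_lit 0)) (P (nat_lit 1843978334112)))))) (T.h (P (nat_lit 0)) (T.h (T.h (P (nat_lit 9667191310800388096)) (T.h (P (nat_lit 0)) (P (nat_lit 29450906897184)))) (T.h (P (nat_lit 0)) (M (nat_lit 10532954572847))))))) (T.h (T.h (T.h (P (nat_lit 0)) (T.h (P (nat_lit 33718085873639784185856)) (T.h (P (nat_lit 0)) (M (nat_lit 4380692289847295))))) (T.h (P (nat_lit 0)) (T.h (T.h (P (nat_lit 0)) (P (nat_lit 167049185427456))) (P (nat_lit 0))))) (T.h (T.h (P (nat_lit 0)) (T.h (T.h (P (nat_lit 34102908446612389888)) (T.h (P (nat_lit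 0)) (P (nat_lit 22906366434768)))) (T.h (P (nat_lit 0)) (P (nat_lit 4857184123440))))) (T.h (T.h (T.h (P (nat_lit 0)) (P (nat_lit 36005077282291712))) (P (nat_lit 0))) (T.h (T.h (P (nat_lit 0)) (M (nat_lit 6476982625583))) (P (nat_lit 0)))))))), (T.h (T.h (T.h (M (nat_lit 3740987061095588908554208149503)) (T.h (P (nat_lit 0)) (T.h (M (nat_lit 6728416557359817807626239)) (T.h (P (nat_lit 0)) (M (nat_lit 6702443274973478911)))))) (T.h (P (nat_lit 0)) (T.h (T.h (P (nat_lit 6371836791430659931373568)) (T.h (P (nat_lit 0)) (P (nat_lit 938978445570867200)))) (T.h (P (nat_lit 0)) (P (nat_lit 4555080799610732544)))))) (T.h (T.h (P (nat_lit 0)) (T.h (T.h (P (nat_lit 0)) (T.h (P (nat_lit 17990970770476507332608)) (T.h (P (nat_lit 0)) (M (nat_lit 12485061215027199))))) (T.h (P (nat_lit 0)) (T.h (T.h (P (nat_lit 0)) (M (nat_lit 18646462584619007))) (P (nat_lit 0)))))) (T.h (T.h (T.h (M (nat_lit 5433840824042394268729343)) (T.h (P (nat_lit 0)) (M (nat_lit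 21405234359835820031)))) (T.h (P (nat_lit 0)) (P (nat_lit 1290952850234408960)))) (T.h (T.h (P (nat_lit 0)) (T.h (T.h (P (nat_lit 0)) (M (nat_lit 15460406335799295))) (P (nat_lit 0)))) (M (nat_lit 22334308507541569535)))))), (P (nat_lit 0)), (P (nat_lit 0)), (T.h (T.h (P (nat_lit 0)) (T.h (T.h (P (nat_lit 0)) (T.h (P (nat_lit 7366654269993492678705152)) (T.h (P (nat_lit 0)) (T.h (P (nat_lit 5065451259406843904)) (T.h (P (nat_lit 0)) (M (nat_lit 5958552817023))))))) (T.h (P (nat_lit 0)) (T.h (T.h (P (nat_lit 0)) (T.h (M (nat_lit 1649432542622777343)) (T.h (P (nat_lit 0)) (P (nat_lit 6481765230512))))) (T.h (P (nat_lit 0)) (T.h (T.h (P (nat_lit 0)) (M (nat_lit 1216878352895))) (P (nat_lit 0)))))))) (T.h (T.h (T.h (P (nat_lit 520005912465129080914706432)) (T.h (P (nat_lit 0)) (T.h (M (nat_lit 4430496151483948466175)) (T.h (P (nat_lit 0)) (P (nat_lit 374732547620864)))))) (T.h (P (nat_lit 0)) (T.h (T.h (P (nat_lit 3035963256979347996672)) (T.h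 (P (nat_lit 0)) (P (nat_lit 4191714716549120)))) (T.h (P (nat_lit 0)) (M (nat_lit 7094550282567679)))))) (T.h (T.h (P (nat_lit 0)) (T.h (T.h (P (nat_lit 0)) (T.h (P (nat_lit 1835577112694620160)) (T.h (P (nat_lit 0)) (M (nat_lit 4042099546639))))) (T.h (P (nat_lit 0)) (T.h (T.h (P (nat_lit 0)) (P (nat_lit 5533242513072))) (P (nat_lit 0)))))) (T.h (T.h (T.h (M (nat_lit 2437675326396268806143)) (T.h (P (nat_lit 0)) (M (nat_lit 16449291526668287)))) (T.h (P (nat_lit 0)) (P (nat_lit 12776123929198592)))) (T.h (T.h (P (nat_lit 0)) (T.h (T.h (P (nat_lit 0)) (P (nat_lit 16666583736960))) (P (nat_lit 0)))) (M (nat_lit 1880929219117055)))))))]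
def lP22_15 : List (T ℤ) := [(T.h (T.h (P (nat_lit 0)) (T.h (T.h (P (nat_lit 24235143008211692284553461760)) (T.h (P (nat_lit 0)) (T.h (P (nat_lit 40512455918296525438976)) (T.h (P (nat_lit 0)) (P (nat_lit 57511283962085376)))))) (T.h (P (nat_lit 0)) (T.h (T.h (P (nat_lit 24589038477525376827392)) (T.h (P (nat_lit 0)) (P (nat_lit 16253116248948736)))) (T.h (P (nat_lit 0)) (P (nat_lit 16004352843579392))))))) (T.h (T.h (T.h (P (nat_lit 0)) (T.h (M (nat_lit 56771713058536599282778111)) (T.h (P (nat_lit 0)) (T.h (M (nat_lit 51176284679938506751)) (T.h (P (nat_lit 0)) (M (nat_lit 24997287141663))))))) (T.h (P (nat_lit 0)) (T.h (T.h (P (nat_lit 0)) (T.h (P (nat_lit 15333078366290968576)) (T.h (P (nat_lit 0)) (M (nat_lit 51203545001799))))) (T.h (P (nat_lit 0)) (T.h (T.h (P (nat_lit 0)) (M (nat_lit 9645570166751))) (P (nat_lit 0))))))) (T.h (T.h (P (nat_lit 0)) (T.h (T.h (P (nat_lit 20536998137085764304896)) (T.h (P (nat_lit 0)) (M (nat_lit 81938024685469695))))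 (T.h (P (nat_lit 0)) (P (nat_lit 31994126645788672))))) (T.h (T.h (T.h (P (nat_lit 0)) (T.h (P (nat_lit 172945268571285487616)) (T.h (P (nat_lit 0)) (M (nat_lit 5736931511151))))) (T.h (P (nat_lit 0)) (T.h (T.h (P (nat_lit 0)) (P (nat_lit 54419689511192))) (P (nat_lit 0))))) (T.h (T.h (P (nat_lit 0)) (M (nat_lit 47329797718999039))) (T.h (T.h (T.h (P (nat_lit 0)) (P (nat_lit 10802421927712))) (P (nat_lit 0))) (P (nat_lit 0)))))))), (T.h (T.h (P (nat_lit 0)) (T.h (T.h (P (nat_lit 0)) (T.h (P (nat_lit 7865899919476522420797440)) (T.h (P (nat_lit 0)) (T.h (M (nat_lit 11235669516019040255)) (T.h (P (nat_lit 0)) (P (nat_lit 6242673269728))))))) (T.h (P (nat_lit 0)) (T.h (T.h (P (nat_lit 0)) (T.h (M (nat_lit 3498396641633763327)) (T.h (P (nat_lit 0)) (M (nat_lit 8330620752495))))) (T.h (P (nat_lit 0)) (T.h (T.h (P (nat_lit 0)) (M (nat_lit 12630029022015))) (P (nat_lit 0)))))))) (T.h (T.h (T.h (M (nat_lit 12452254323610020689479729151)) (T.h (P (nat_lit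 0)) (T.h (M (nat_lit 39234350592631613947903)) (T.h (P (nat_lit 0)) (P (nat_lit 59915926495035392)))))) (T.h (P (nat_lit 0)) (T.h (T.h (M (nat_lit 39218625971067440594943)) (T.h (P (nat_lit 0)) (P (nat_lit 82532722095079424)))) (T.h (P (nat_lit 0)) (M (nat_lit 2756505685409791)))))) (T.h (T.h (P (nat_lit 0)) (T.h (T.h (P (nat_lit 0)) (T.h (P (nat_lit 20130967365741445120)) (T.h (P (nat_lit 0)) (M (nat_lit 4962204969679))))) (T.h (P (nat_lit 0)) (T.h (T.h (P (nat_lit 0)) (M (nat_lit 9752408207359))) (P (nat_lit 0)))))) (T.h (T.h (T.h (M (nat_lit 18277019159480705744895)) (T.h (P (nat_lit 0)) (P (nat_lit 73585763175677952)))) (T.h (P (nat_lit 0)) (M (nat_lit 54177182514069503)))) (T.h (T.h (P (nat_lit 0)) (T.h (T.h (P (nat_lit 0)) (M (nat_lit 71507717290127))) (P (nat_lit 0)))) (M (nat_lit 9415947579293695))))))), (T.h (T.h (P (nat_lit 0)) (T.h (T.h (M (nat_lit 17704674254613374955245535231)) (T.h (P (nat_lit 0)) (T.h (P (nat_lit 13367314397544824438784))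 (T.h (P (nat_lit 0)) (M (nat_lit 57291299511795711)))))) (T.h (P (nat_lit 0)) (T.h (T.h (M (nat_lit 18453949334484821213183)) (T.h (P (nat_lit 0)) (P (nat_lit 60983721372450816)))) (T.h (P (nat_lit 0)) (M (nat_lit 2042040104189951))))))) (T.h (T.h (T.h (P (nat_lit 0)) (T.h (P (nat_lit 22559255131153660985212928)) (T.h (P (nat_lit 0)) (T.h (P (nat_lit 43971332064680083456)) (T.h (P (nat_lit 0)) (P (nat_lit 36989846871168))))))) (T.h (P (nat_lit 0)) (T.h (T.h (P (nat_lit 0)) (T.h (M (nat_lit 181088701225520594943)) (T.h (P (nat_lit 0)) (P (nat_lit 40187984740848))))) (T.h (P (nat_lit 0)) (T.h (T.h (P (nat_lit 0)) (P (nat_lit 1354154160720))) (P (nat_lit 0))))))) (T.h (T.h (P (nat_lit 0)) (T.h (T.h (M (nat_lit 39663302197560702140415)) (T.h (P (nat_lit 0)) (M (nat_lit 13919475393134591)))) (T.h (P (nat_lit 0)) (P (nat_lit 37585134534787072))))) (T.h (T.h (T.h (P (nat_lit 0)) (T.h (M (nat_lit 126569252356567859199)) (T.h (P (nat_lit 0)) (M (nat_lit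 8256450540863))))) (T.h (P (nat_lit 0)) (T.h (T.h (P (nat_lit 0)) (M (nat_lit 14185622886863))) (P (nat_lit 0))))) (T.h (T.h (P (nat_lit 0)) (M (nat_lit 1988701508501503))) (T.h (T.h (T.h (P (nat_lit 0)) (P (nat_lit 19252148844096))) (P (nat_lit 0))) (P (nat_lit 0)))))))), (T.h (T.h (P (nat_lit 0)) (T.h (T.h (P (nat_lit 0)) (T.h (M (nat_lit 29704257341568327306182655)) (T.h (P (nat_lit 0)) (P (nat_lit 109197555107438264320))))) (T.h (P (nat_lit 0)) (T.h (T.h (P (nat_lit 0)) (M (nat_lit 48285275319487692799))) (P (nat_lit 0)))))) (T.h (T.h (T.h (P (nat_lit 6460059366920003304890040320)) (T.h (P (nat_lit 0)) (T.h (M (nat_lit 11814248809590847176703)) (T.h (P (nat_lit 0)) (M (nat_lit 72901064570929151)))))) (T.h (P (nat_lit 0)) (T.h (T.h (M (nat_lit 11020370147524416110591)) (T.h (P (nat_lit 0)) (M (nat_lit 92114123560796159)))) (T.h (P (nat_lit 0)) (P (nat_lit 21621027152003072)))))) (T.h (T.h (P (nat_lit 0)) (T.h (T.h (P (nat_lit 0)) (M (nat_lit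 56787007298087157759))) (P (nat_lit 0)))) (T.h (T.h (T.h (P (nat_lit 2091539799563263016960)) (T.h (P (nat_lit 0)) (M (nat_lit 12852211703660543)))) (T.h (P (nat_lit 0)) (P (nat_lit 8082274672050176)))) (T.h (P (nat_lit 0)) (P (nat_lit 4366434007007232))))))), (P (nat_lit 0)), (P (nat_lit 0)), (T.h (T.h (T.h (P (nat_lit 3948874285046907308051137560576)) (T.h (P (nat_lit 0)) (T.h (M (nat_lit 5981896648416452031807487)) (T.h (P (nat_lit 0)) (T.h (P (nat_lit 627889490643386368)) (T.h (P (nat_lit 0)) (P (nat_lit 289679246656)))))))) (T.h (P (nat_lit 0)) (T.h (T.h (P (nat_lit 7552215162202115614441472)) (T.h (P (nat_lit 0)) (T.h (P (nat_lit 38603713897243344896)) (T.h (P (nat_lit 0)) (M (nat_lit 4052276956319)))))) (T.h (P (nat_lit 0)) (T.h (T.h (M (nat_lit 910428337195712511)) (T.h (P (nat_lit 0)) (M (nat_lit 10808211564847)))) (T.h (P (nat_lit 0)) (P (nat_lit 2641254087104)))))))) (T.h (T.h (P (nat_lit 0)) (T.h (T.h (P (nat_lit 0)) (T.h (M (nat_lit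 71833471804337517756415)) (T.h (P (nat_lit 0)) (M (nat_lit 52263970674245631))))) (T.h (P (nat_lit 0)) (T.h (T.h (P (nat_lit 0)) (P (nat_lit 63124008493514752))) (P (nat_lit 0)))))) (T.h (T.h (T.h (M (nat_lit 5981896648416452031807487)) (T.h (P (nat_lit 0)) (T.h (M (nat_lit 18121615518627528703)) (T.h (P (nat_lit 0)) (M (nat_lit 2627629110415)))))) (T.h (P (nat_lit 0)) (T.h (T.h (P (nat_lit 38603713897243344896)) (T.h (P (nat_lit 0)) (M (nat_lit 5120713503999)))) (T.h (P (nat_lit 0)) (M (nat_lit 10808211564847)))))) (T.h (T.h (P (nat_lit 0)) (T.h (T.h (P (nat_lit 0)) (M (nat_lit 52263970674245631))) (P (nat_lit 0)))) (T.h (T.h (T.h (P (nat_lit 627889490643386368)) (T.h (P (nat_lit 0)) (M (nat_lit 2627629110415)))) (T.h (P (nat_lit 0)) (M (nat_lit 4052276956319)))) (T.h (P (nat_lit 0)) (P (nat_lit 289679246656)))))))), (T.h (T.h (T.h (P (nat_lit 0)) (T.h (M (nat_lit 4325997788076474073308200959)) (T.h (P (nat_lit 0)) (T.h (P (nat_lit 54139420388062396416))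 (T.h (P (nat_lit 0)) (P (nat_lit 27928463828025344))))))) (T.h (P (nat_lit 0)) (T.h (T.h (P (nat_lit 0)) (T.h (P (nat_lit 120274131486706405212160)) (T.h (P (nat_lit 0)) (M (nat_lit 6631448654446591))))) (T.h (P (nat_lit 0)) (T.h (T.h (P (nat_lit 0)) (P (nat_lit 17165271669702656))) (P (nat_lit 0))))))) (T.h (T.h (P (nat_lit 0)) (T.h (T.h (M (nat_lit 66334760099093739265327103)) (T.h (P (nat_lit 0)) (T.h (M (nat_lit 16142157250356576255)) (T.h (P (nat_lit 0)) (P (nat_lit 10127642086808)))))) (T.h (P (nat_lit 0)) (T.h (T.h (M (nat_lit 85422015907830431743)) (T.h (P (nat_lit 0)) (M (nat_lit 36203353571047)))) (T.h (P (nat_lit 0)) (M (nat_lit 8221132923559))))))) (T.h (T.h (T.h (P (nat_lit 0)) (T.h (M (nat_lit 104629967578149246992383)) (T.h (P (nat_lit 0)) (M (nat_lit 29153428600389631))))) (T.h (P (nat_lit 0)) (T.h (T.h (P (nat_lit 0)) (M (nat_lit 84057130539122687))) (P (nat_lit 0))))) (T.h (T.h (P (nat_lit 0)) (T.h (T.h (P (nat_lit 110484256596844085248))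 (T.h (P (nat_lit 0)) (P (nat_lit 47514728483784)))) (T.h (P (nat_lit 0)) (M (nat_lit 2136301955687))))) (T.h (T.h (T.h (P (nat_lit 0)) (M (nat_lit 56908870388252671))) (P (nat_lit 0))) (T.h (T.h (P (nat_lit 0)) (P (nat_lit 19016045810312))) (P (nat_lit 0))))))))]
def lP22_16 : List (T ℤ) := [(T.h (T.h (T.h (P (nat_lit 32842151014520371261632185106432)) (T.h (P (nat_lit 0)) (T.h (P (nat_lit 15737027707472489060761600)) (T.h (P (nat_lit 0)) (T.h (P (nat_lit 6569821419650154496)) (T.h (P (nat_lit 0)) (P (nat_lit 4717712761776)))))))) (T.h (P (nat_lit 0)) (T.h (T.h (P (nat_lit 22757292793518151329382400)) (T.h (P (nat_lit 0)) (T.h (M (nat_lit 92305668578157264895)) (T.h (P (nat_lit 0)) (M (nat_lit 9308149357023)))))) (T.h (P (nat_lit 0)) (T.h (T.h (P (nat_lit 31470075215991537664)) (T.h (P (nat_lit 0)) (M (nat_lit 20319245333855)))) (T.h (P (nat_lit 0)) (P (nat_lit 2757626181520)))))))) (T.h (T.h (P (nat_lit 0)) (T.h (T.h (P (nat_lit 0)) (T.h (M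 (nat_lit 41955429074095797436415)) (T.h (P (nat_lit 0)) (P (nat_lit 110959577534005248))))) (T.h (P (nat_lit 0)) (T.h (T.h (P (nat_lit 0)) (P (nat_lit 143691431049625600))) (P (nat_lit 0)))))) (T.h (T.h (T.h (P (nat_lit 13903176738035598629011456)) (T.h (P (nat_lit 0)) (T.h (M (nat_lit 32169268143942795263)) (T.h (P (nat_lit 0)) (M (nat_lit 28114164544143)))))) (T.h (P (nat_lit 0)) (T.h (T.h (P (nat_lit 2802209404877799424)) (T.h (P (nat_lit 0)) (M (nat_lit 2373256451103)))) (T.h (P (nat_lit 0)) (M (nat_lit 12698873991999)))))) (T.h (T.h (P (nat_lit 0)) (T.h (T.h (P (nat_lit 0)) (P (nat_lit 215954254005600256))) (P (nat_lit 0)))) (T.h (T.h (T.h (M (nat_lit 6201570032015638527)) (T.h (P (nat_lit 0)) (M (nat_lit 33311366173231)))) (T.h (P (nat_lit 0)) (M (nat_lit 30869414408671)))) (T.h (P (nat_lit 0)) (P (nat_lit 7076713795872)))))))), (T.h (T.h (T.h (P (nat_lit 0)) (T.h (P (nat_lit 19470708716258580401542397952)) (T.h (P (nat_lit 0)) (T.h (M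 (nat_lit 19079442946917136334847)) (T.h (P (nat_lit 0)) (M (nat_lit 17356590775074815))))))) (T.h (P (nat_lit 0)) (T.h (T.h (P (nat_lit 0)) (T.h (P (nat_lit 30081290909301648392192)) (T.h (P (nat_lit 0)) (M (nat_lit 2810869064204287))))) (T.h (P (nat_lit 0)) (T.h (T.h (P (nat_lit 0)) (P (nat_lit 62056682338779136))) (P (nat_lit 0))))))) (T.h (T.h (P (nat_lit 0)) (T.h (T.h (P (nat_lit 11014789779854207137873920)) (T.h (P (nat_lit 0)) (T.h (P (nat_lit 84183061920430948352)) (T.h (P (nat_lit 0)) (M (nat_lit 7967120059199)))))) (T.h (P (nat_lit 0)) (T.h (T.h (M (nat_lit 32849534989266583551)) (T.h (P (nat_lit 0)) (P (nat_lit 26314315662576)))) (T.h (P (nat_lit 0)) (M (nat_lit 5675464891727))))))) (T.h (T.h (T.h (P (nat_lit 0)) (T.h (P (nat_lit 15728162775566582284288)) (T.h (P (nat_lit 0)) (M (nat_lit 3100557080494079))))) (T.h (P (nat_lit 0)) (T.h (T.h (P (nat_lit 0)) (P (nat_lit 7864429919764480))) (P (nat_lit 0))))) (T.h (T.h (P (nat_lit 0))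 (T.h (T.h (M (nat_lit 57285252125078585343)) (T.h (P (nat_lit 0)) (P (nat_lit 32858856124992)))) (T.h (P (nat_lit 0)) (M (nat_lit 4274270458319))))) (T.h (T.h (T.h (P (nat_lit 0)) (P (nat_lit 30114903116939264))) (P (nat_lit 0))) (T.h (T.h (P (nat_lit 0)) (M (nat_lit 9731436838991))) (P (nat_lit 0)))))))), (T.h (T.h (T.h (M (nat_lit 4376565908111054628920471060479)) (T.h (P (nat_lit 0)) (T.h (P (nat_lit 41657778960101413843107840)) (T.h (P (nat_lit 0)) (P (nat_lit 53440538140462809088)))))) (T.h (P (nat_lit 0)) (T.h (T.h (P (nat_lit 2426189989763040132726784)) (T.h (P (nat_lit 0)) (M (nat_lit 6688298021576245247)))) (T.h (P (nat_lit 0)) (P (nat_lit 16557050731849318400)))))) (T.h (T.h (P (nat_lit 0)) (T.h (T.h (P (nat_lit 0)) (T.h (P (nat_lit 71765123986171206041600)) (T.h (P (nat_lit 0)) (M (nat_lit 34024804449157119))))) (T.h (P (nat_lit 0)) (T.h (T.h (P (nat_lit 0)) (M (nat_lit 11587415939514367))) (P (nat_lit 0)))))) (T.h (T.h (T.h (P (nat_lit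 14231867605236094332829696)) (T.h (P (nat_lit 0)) (P (nat_lit 15655914783830441984)))) (T.h (P (nat_lit 0)) (M (nat_lit 72511119179431018495)))) (T.h (T.h (P (nat_lit 0)) (T.h (T.h (P (nat_lit 0)) (M (nat_lit 14773472188334079))) (P (nat_lit 0)))) (P (nat_lit 43446440039001620480)))))), (P (nat_lit 0)), (T.h (T.h (P (nat_lit 0)) (T.h (T.h (P (nat_lit 0)) (T.h (P (nat_lit 8717922922079423085674496)) (T.h (P (nat_lit 0)) (T.h (M (nat_lit 193192647643365375)) (T.h (P (nat_lit 0)) (M (nat_lit 424261102751))))))) (T.h (P (nat_lit 0)) (T.h (T.h (P (nat_lit 0)) (T.h (P (nat_lit 6521691154386255872)) (T.h (P (nat_lit 0)) (P (nat_lit 3373397582576))))) (T.h (P (nat_lit 0)) (T.h (T.h (P (nat_lit 0)) (M (nat_lit 5165935566879))) (P (nat_lit 0)))))))) (T.h (T.h (T.h (P (nat_lit 532858792078950653260464128)) (T.h (P (nat_lit 0)) (T.h (P (nat_lit 3321691345876869447680)) (T.h (P (nat_lit 0)) (P (nat_lit 2725830294568960)))))) (T.h (P (nat_lit 0)) (T.h (T.h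 (M (nat_lit 4144768062586427015167)) (T.h (P (nat_lit 0)) (P (nat_lit 15787150469627904)))) (T.h (P (nat_lit 0)) (P (nat_lit 10195113124757504)))))) (T.h (T.h (P (nat_lit 0)) (T.h (T.h (P (nat_lit 0)) (T.h (P (nat_lit 10942545611232116736)) (T.h (P (nat_lit 0)) (M (nat_lit 172863613551))))) (T.h (P (nat_lit 0)) (T.h (T.h (P (nat_lit 0)) (M (nat_lit 9748205673263))) (P (nat_lit 0)))))) (T.h (T.h (T.h (M (nat_lit 3075121913902334476287)) (T.h (P (nat_lit 0)) (P (nat_lit 15163554349252608)))) (T.h (P (nat_lit 0)) (M (nat_lit 14061861106614271)))) (T.h (T.h (P (nat_lit 0)) (T.h (T.h (P (nat_lit 0)) (P (nat_lit 3166704741056))) (P (nat_lit 0)))) (M (nat_lit 1221575086440447))))))), (T.h (T.h (P (nat_lit 0)) (T.h (T.h (M (nat_lit 21081743848198747092244496383)) (T.h (P (nat_lit 0)) (T.h (M (nat_lit 18511339125649356881919)) (T.h (P (nat_lit 0)) (M (nat_lit 28627955815940095)))))) (T.h (P (nat_lit 0)) (T.h (T.h (P (nat_lit 37146732518772796555264))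 (T.h (P (nat_lit 0)) (P (nat_lit 7806299178008576)))) (T.h (P (nat_lit 0)) (M (nat_lit 1711551646728191))))))) (T.h (T.h (T.h (P (nat_lit 0)) (T.h (P (nat_lit 97446598836776259645603840)) (T.h (P (nat_lit 0)) (T.h (P (nat_lit 79665780900895916032)) (T.h (P (nat_lit 0)) (M (nat_lit 9661246702655))))))) (T.h (P (nat_lit 0)) (T.h (T.h (P (nat_lit 0)) (T.h (M (nat_lit 136160310608659480575)) (T.h (P (nat_lit 0)) (M (nat_lit 13734403198335))))) (T.h (P (nat_lit 0)) (T.h (T.h (P (nat_lit 0)) (M (nat_lit 6577547322927))) (P (nat_lit 0))))))) (T.h (T.h (P (nat_lit 0)) (T.h (T.h (M (nat_lit 18511339125649356881919)) (T.h (P (nat_lit 0)) (P (nat_lit 142480724622114816)))) (T.h (P (nat_lit 0)) (P (nat_lit 7806299178008576))))) (T.h (T.h (T.h (P (nat_lit 0)) (T.h (P (nat_lit 79665780900895916032)) (T.h (P (nat_lit 0)) (P (nat_lit 28763891607312))))) (T.h (P (nat_lit 0)) (T.h (T.h (P (nat_lit 0)) (M (nat_lit 13734403198335))) (P (nat_lit 0))))) (T.h (T.h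 (P (nat_lit 0)) (M (nat_lit 28627955815940095))) (T.h (T.h (T.h (P (nat_lit 0)) (M (nat_lit 9661246702655))) (P (nat_lit 0))) (P (nat_lit 0)))))))), (T.h (T.h (P (nat_lit 0)) (T.h (T.h (P (nat_lit 0)) (T.h (M (nat_lit 29342807062120657525407743)) (T.h (P (nat_lit 0)) (T.h (M (nat_lit 52476185640811102207)) (T.h (P (nat_lit 0)) (M (nat_lit 4090358875119))))))) (T.h (P (nat_lit 0)) (T.h (T.h (P (nat_lit 0)) (T.h (M (nat_lit 33881152391093420031)) (T.h (P (nat_lit 0)) (M (nat_lit 5799475329087))))) (T.h (P (nat_lit 0)) (T.h (T.h (P (nat_lit 0)) (P (nat_lit 2430406078912))) (P (nat_lit 0)))))))) (T.h (T.h (T.h (P (nat_lit 7008052928524809512595488768)) (T.h (P (nat_lit 0)) (T.h (M (nat_lit 55243990109075258998783)) (T.h (P (nat_lit 0)) (M (nat_lit 38599890059902975)))))) (T.h (P (nat_lit 0)) (T.h (T.h (M (nat_lit 26182517004310499295231)) (T.h (P (nat_lit 0)) (P (nat_lit 50713997475201024)))) (T.h (P (nat_lit 0)) (P (nat_lit 17788239221047296))))))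 (T.h (T.h (P (nat_lit 0)) (T.h (T.h (P (nat_lit 0)) (T.h (P (nat_lit 7460855367426113536)) (T.h (P (nat_lit 0)) (M (nat_lit 15575565458879))))) (T.h (P (nat_lit 0)) (T.h (T.h (P (nat_lit 0)) (M (nat_lit 15420227025503))) (P (nat_lit 0)))))) (T.h (T.h (T.h (P (nat_lit 18299389647412453703680)) (T.h (P (nat_lit 0)) (M (nat_lit 14927734452568063)))) (T.h (P (nat_lit 0)) (P (nat_lit 57213418030301184)))) (T.h (T.h (P (nat_lit 0)) (T.h (T.h (P (nat_lit 0)) (M (nat_lit 85507121840671))) (P (nat_lit 0)))) (M (nat_lit 8585224741666815))))))), (T.h (T.h (P (nat_lit 0)) (T.h (T.h (P (nat_lit 20709987112943368488685142016)) (T.h (P (nat_lit 0)) (T.h (P (nat_lit 7565867690142954684416)) (T.h (P (nat_lit 0)) (P (nat_lit 16577124738301952)))))) (T.h (P (nat_lit 0)) (T.h (T.h (M (nat_lit 12226728054955008065535)) (T.h (P (nat_lit 0)) (P (nat_lit 3803225997541376)))) (T.h (P (nat_lit 0)) (M (nat_lit 9597254567264255))))))) (T.h (T.h (T.h (P (nat_lit 0)) (T.h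 (P (nat_lit 16339062276360725476671488)) (T.h (P (nat_lit 0)) (T.h (M (nat_lit 28920054586210779135)) (T.h (P (nat_lit 0)) (M (nat_lit 14744667710495))))))) (T.h (P (nat_lit 0)) (T.h (T.h (P (nat_lit 0)) (T.h (P (nat_lit 118455133166586822656)) (T.h (P (nat_lit 0)) (P (nat_lit 19164418213728))))) (T.h (P (nat_lit 0)) (T.h (T.h (P (nat_lit 0)) (M (nat_lit 32978638747343))) (P (nat_lit 0))))))) (T.h (T.h (P (nat_lit 0)) (T.h (T.h (M (nat_lit 7228361037930880303103)) (T.h (P (nat_lit 0)) (P (nat_lit 20091313725276160)))) (T.h (P (nat_lit 0)) (M (nat_lit 10033979821588479))))) (T.h (T.h (T.h (P (nat_lit 0)) (T.h (M (nat_lit 55784618800661397503)) (T.h (P (nat_lit 0)) (M (nat_lit 1210979681807))))) (T.h (P (nat_lit 0)) (T.h (T.h (P (nat_lit 0)) (M (nat_lit 18355167600767))) (P (nat_lit 0))))) (T.h (T.h (P (nat_lit 0)) (P (nat_lit 34660009035595776))) (T.h (T.h (T.h (P (nat_lit 0)) (P (nat_lit 1789989950208))) (P (nat_lit 0))) (P (nat_lit 0))))))))]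
def lP22_17 : List (T ℤ) := [(T.h (T.h (P (nat_lit 0)) (T.h (T.h (P (nat_lit 0)) (T.h (P (nat_lit 18056985184817746683101184)) (T.h (P (nat_lit 0)) (P (nat_lit 49284618759121666048))))) (T.h (P (nat_lit 0)) (T.h (T.h (P (nat_lit 0)) (P (nat_lit 15808050916747116544))) (P (nat_lit 0)))))) (T.h (T.h (T.h (P (nat_lit 1941720731082695133592813568)) (T.h (P (nat_lit 0)) (T.h (P (nat_lit 26945039925992287633408)) (T.h (P (nat_lit 0)) (P (nat_lit 20647454293393408)))))) (T.h (P (nat_lit 0)) (T.h (T.h (P (nat_lit 701827677506762702848)) (T.h (P (nat_lit 0)) (M (nat_lit 83502761245294591)))) (T.h (P (nat_lit 0)) (P (nat_lit 13706613194915840)))))) (T.h (T.h (P (nat_lit 0)) (T.h (T.h (P (nat_lit 0)) (M (nat_lit 46579266720809091071))) (P (nat_lit 0)))) (T.h (T.h (T.h (M (nat_lit 29704318109370374160383)) (T.h (P (nat_lit 0)) (P (nat_lit 33493411881435136)))) (T.h (P (nat_lit 0)) (P (nat_lit 54111275068309504)))) (T.h (P (nat_lit 0)) (M (nat_lit 22741810993119231))))))),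 (T.h (T.h (T.h (M (nat_lit 169053768763270514532562239487)) (T.h (P (nat_lit 0)) (T.h (P (nat_lit 1217783071519776866041856)) (T.h (P (nat_lit 0)) (T.h (M (nat_lit 2581556048120774655)) (T.h (P (nat_lit 0)) (P (nat_lit 2889973006256)))))))) (T.h (P (nat_lit 0)) (T.h (T.h (M (nat_lit 86023058324020239794175)) (T.h (P (nat_lit 0)) (T.h (M (nat_lit 2804189857717420031)) (T.h (P (nat_lit 0)) (P (nat_lit 2363898821680)))))) (T.h (P (nat_lit 0)) (T.h (T.h (P (nat_lit 544121181330997248)) (T.h (P (nat_lit 0)) (P (nat_lit 1796611202864)))) (T.h (P (nat_lit 0)) (M (nat_lit 1570308029599)))))))) (T.h (T.h (P (nat_lit 0)) (T.h (T.h (P (nat_lit 0)) (T.h (M (nat_lit 1587471070678617161727)) (T.h (P (nat_lit 0)) (P (nat_lit 3737556218937344))))) (T.h (P (nat_lit 0)) (T.h (T.h (P (nat_lit 0)) (P (nat_lit 2147752284127232))) (P (nat_lit 0)))))) (T.h (T.h (T.h (P (nat_lit 1217783071519776866041856)) (T.h (P (nat_lit 0)) (T.h (M (nat_lit 580103659812028415))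 (T.h (P (nat_lit 0)) (M (nat_lit 662576913727)))))) (T.h (P (nat_lit 0)) (T.h (T.h (M (nat_lit 2804189857717420031)) (T.h (P (nat_lit 0)) (P (nat_lit 2120391294816)))) (T.h (P (nat_lit 0)) (P (nat_lit 1796611202864)))))) (T.h (T.h (P (nat_lit 0)) (T.h (T.h (P (nat_lit 0)) (P (nat_lit 3737556218937344))) (P (nat_lit 0)))) (T.h (T.h (T.h (M (nat_lit 2581556048120774655)) (T.h (P (nat_lit 0)) (M (nat_lit 662576913727)))) (T.h (P (nat_lit 0)) (P (nat_lit 2363898821680)))) (T.h (P (nat_lit 0)) (P (nat_lit 2889973006256)))))))), (T.h (T.h (T.h (P (nat_lit 0)) (T.h (M (nat_lit 2041045200017422124645875711)) (T.h (P (nat_lit 0)) (T.h (M (nat_lit 2042390810390635216895)) (T.h (P (nat_lit 0)) (M (nat_lit 8272845682114559))))))) (T.h (P (nat_lit 0)) (T.h (T.h (P (nat_lit 0)) (T.h (M (nat_lit 46873549870490240155647)) (T.h (P (nat_lit 0)) (M (nat_lit 15680341622751231))))) (T.h (P (nat_lit 0)) (T.h (T.h (P (nat_lit 0)) (P (nat_lit 8579101551165440))) (P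 (nat_lit 0))))))) (T.h (T.h (P (nat_lit 0)) (T.h (T.h (P (nat_lit 25782059199019256752635904)) (T.h (P (nat_lit 0)) (T.h (M (nat_lit 18647863152082943999)) (T.h (P (nat_lit 0)) (M (nat_lit 8030211623615)))))) (T.h (P (nat_lit 0)) (T.h (T.h (M (nat_lit 10956008452240965631)) (T.h (P (nat_lit 0)) (M (nat_lit 3413523251103)))) (T.h (P (nat_lit 0)) (M (nat_lit 12222797486679))))))) (T.h (T.h (T.h (P (nat_lit 0)) (T.h (M (nat_lit 12557007179632082943999)) (T.h (P (nat_lit 0)) (M (nat_lit 37819028543930367))))) (T.h (P (nat_lit 0)) (T.h (T.h (P (nat_lit 0)) (P (nat_lit 53339500682969088))) (P (nat_lit 0))))) (T.h (T.h (P (nat_lit 0)) (T.h (T.h (P (nat_lit 41803315934142660608)) (T.h (P (nat_lit 0)) (M (nat_lit 22059246121807)))) (T.h (P (nat_lit 0)) (P (nat_lit 3760716746192))))) (T.h (T.h (T.h (P (nat_lit 0)) (P (nat_lit 13841189037604864))) (P (nat_lit 0))) (T.h (T.h (P (nat_lit 0)) (M (nat_lit 13409654446439))) (P (nat_lit 0)))))))), (T.h (T.h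 (T.h (P (nat_lit 19064226207899751048592792485888)) (T.h (P (nat_lit 0)) (T.h (M (nat_lit 2789914597155631175565311)) (T.h (P (nat_lit 0)) (T.h (P (nat_lit 19864151163481882624)) (T.h (P (nat_lit 0)) (M (nat_lit 8590884651663)))))))) (T.h (P (nat_lit 0)) (T.h (T.h (M (nat_lit 7976328713764403012435967)) (T.h (P (nat_lit 0)) (T.h (M (nat_lit 55491051275883118591)) (T.h (P (nat_lit 0)) (P (nat_lit 2730064683024)))))) (T.h (P (nat_lit 0)) (T.h (T.h (P (nat_lit 7735288818806292480)) (T.h (P (nat_lit 0)) (P (nat_lit 18938362288944)))) (T.h (P (nat_lit 0)) (M (nat_lit 8989799105503)))))))) (T.h (T.h (P (nat_lit 0)) (T.h (T.h (P (nat_lit 0)) (T.h (M (nat_lit 22547245125260600672255)) (T.h (P (nat_lit 0)) (P (nat_lit 80387249332420608))))) (T.h (P (nat_lit 0)) (T.h (T.h (P (nat_lit 0)) (M (nat_lit 57339280654794751))) (P (nat_lit 0)))))) (T.h (T.h (T.h (M (nat_lit 2789914597155631175565311)) (T.h (P (nat_lit 0)) (T.h (P (nat_lit 74588304255972540416))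 (T.h (P (nat_lit 0)) (P (nat_lit 12792387789440)))))) (T.h (P (nat_lit 0)) (T.h (T.h (M (nat_lit 55491051275883118591)) (T.h (P (nat_lit 0)) (P (nat_lit 17097014017216)))) (T.h (P (nat_lit 0)) (P (nat_lit 18938362288944)))))) (T.h (T.h (P (nat_lit 0)) (T.h (T.h (P (nat_lit 0)) (P (nat_lit 80387249332420608))) (P (nat_lit 0)))) (T.h (T.h (T.h (P (nat_lit 19864151163481882624)) (T.h (P (nat_lit 0)) (P (nat_lit 12792387789440)))) (T.h (P (nat_lit 0)) (P (nat_lit 2730064683024)))) (T.h (P (nat_lit 0)) (M (nat_lit 8590884651663)))))))), (T.h (T.h (T.h (P (nat_lit 0)) (T.h (M (nat_lit 18712955586031400322261319679)) (T.h (P (nat_lit 0)) (T.h (M (nat_lit 7320278441998256439295)) (T.h (P (nat_lit 0)) (P (nat_lit 4689307882192896))))))) (T.h (P (nat_lit 0)) (T.h (T.h (P (nat_lit 0)) (T.h (P (nat_lit 1151283405454542110720)) (T.h (P (nat_lit 0)) (P (nat_lit 38300562785894400))))) (T.h (P (nat_lit 0)) (T.h (T.h (P (nat_lit 0)) (M (nat_lit 57106896165535743)))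 (P (nat_lit 0))))))) (T.h (T.h (P (nat_lit 0)) (T.h (T.h (P (nat_lit 32947179101559377763500032)) (T.h (P (nat_lit 0)) (T.h (M (nat_lit 186697517740337397759)) (T.h (P (nat_lit 0)) (M (nat_lit 24655972740623)))))) (T.h (P (nat_lit 0)) (T.h (T.h (P (nat_lit 85935666965384265728)) (T.h (P (nat_lit 0)) (P (nat_lit 43540181590800)))) (T.h (P (nat_lit 0)) (P (nat_lit 22982308377984))))))) (T.h (T.h (T.h (P (nat_lit 0)) (T.h (M (nat_lit 26900044473385223192575)) (T.h (P (nat_lit 0)) (P (nat_lit 19577890010169344))))) (T.h (P (nat_lit 0)) (T.h (T.h (P (nat_lit 0)) (M (nat_lit 17460336618176511))) (P (nat_lit 0))))) (T.h (T.h (P (nat_lit 0)) (T.h (T.h (M (nat_lit 105206036463739731967)) (T.h (P (nat_lit 0)) (M (nat_lit 31615551909935)))) (T.h (P (nat_lit 0)) (M (nat_lit 4159805982047))))) (T.h (T.h (T.h (P (nat_lit 0)) (P (nat_lit 11213796068098048))) (P (nat_lit 0))) (T.h (T.h (P (nat_lit 0)) (P (nat_lit 19077735170736))) (P (nat_lit 0)))))))), (T.h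 (T.h (T.h (M (nat_lit 1399428463606298028927860342783)) (T.h (P (nat_lit 0)) (T.h (M (nat_lit 4593254592221910946283519)) (T.h (P (nat_lit 0)) (P (nat_lit 20698768954552745984)))))) (T.h (P (nat_lit 0)) (T.h (T.h (P (nat_lit 31188799190091483995701248)) (T.h (P (nat_lit 0)) (P (nat_lit 3705987022863728640)))) (T.h (P (nat_lit 0)) (P (nat_lit 45419159932343681024)))))) (T.h (T.h (P (nat_lit 0)) (T.h (T.h (P (nat_lit 0)) (T.h (P (nat_lit 72906489133737697083392)) (T.h (P (nat_lit 0)) (P (nat_lit 28806073981534208))))) (T.h (P (nat_lit 0)) (T.h (T.h (P (nat_lit 0)) (M (nat_lit 2164177316511743))) (P (nat_lit 0)))))) (T.h (T.h (T.h (P (nat_lit 8469030029506513356193792)) (T.h (P (nat_lit 0)) (M (nat_lit 71254267240017559551)))) (T.h (P (nat_lit 0)) (P (nat_lit 9061273345915355136)))) (T.h (T.h (P (nat_lit 0)) (T.h (T.h (P (nat_lit 0)) (P (nat_lit 32087466221535232))) (P (nat_lit 0)))) (P (nat_lit 40576413420092391424)))))), (T.h (T.h (P (nat_lit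 0)) (T.h (T.h (M (nat_lit 6710137670469634890370383871)) (T.h (P (nat_lit 0)) (T.h (M (nat_lit 2995186226142658953215)) (T.h (P (nat_lit 0)) (M (nat_lit 8877860582555647)))))) (T.h (P (nat_lit 0)) (T.h (T.h (M (nat_lit 8784275359082477518847)) (T.h (P (nat_lit 0)) (M (nat_lit 17858861881032703)))) (T.h (P (nat_lit 0)) (P (nat_lit 7334363874459648))))))) (T.h (T.h (T.h (P (nat_lit 0)) (T.h (P (nat_lit 3147941618468942604402688)) (T.h (P (nat_lit 0)) (T.h (M (nat_lit 14522462245515952127)) (T.h (P (nat_lit 0)) (P (nat_lit 1403340751448))))))) (T.h (P (nat_lit 0)) (T.h (T.h (P (nat_lit 0)) (T.h (M (nat_lit 15443931641180848127)) (T.h (P (nat_lit 0)) (M (nat_lit 110400139431))))) (T.h (P (nat_lit 0)) (T.h (T.h (P (nat_lit 0)) (M (nat_lit 2972229967967))) (P (nat_lit 0))))))) (T.h (T.h (P (nat_lit 0)) (T.h (T.h (M (nat_lit 7145578919625811296255)) (T.h (P (nat_lit 0)) (M (nat_lit 5119387493728255)))) (T.h (P (nat_lit 0)) (M (nat_lit 6980069744508927)))))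 (T.h (T.h (T.h (P (nat_lit 0)) (T.h (M (nat_lit 14654403036332425215)) (T.h (P (nat_lit 0)) (P (nat_lit 3114189266208))))) (T.h (P (nat_lit 0)) (T.h (T.h (P (nat_lit 0)) (P (nat_lit 4503270309448))) (P (nat_lit 0))))) (T.h (T.h (P (nat_lit 0)) (M (nat_lit 7390483838959615))) (T.h (T.h (T.h (P (nat_lit 0)) (P (nat_lit 1333360900360))) (P (nat_lit 0))) (P (nat_lit 0)))))))), (T.h (T.h (P (nat_lit 0)) (T.h (T.h (P (nat_lit 0)) (T.h (P (nat_lit 11006440254763849941516288)) (T.h (P (nat_lit 0)) (T.h (P (nat_lit 16119823565909393408)) (T.h (P (nat_lit 0)) (M (nat_lit 476646617775))))))) (T.h (P (nat_lit 0)) (T.h (T.h (P (nat_lit 0)) (T.h (M (nat_lit 10212482558193565695)) (T.h (P (nat_lit 0)) (M (nat_lit 267617463791))))) (T.h (P (nat_lit 0)) (T.h (T.h (P (nat_lit 0)) (P (nat_lit 11875290719936))) (P (nat_lit 0)))))))) (T.h (T.h (T.h (M (nat_lit 2183137425904434638667907071)) (T.h (P (nat_lit 0)) (T.h (P (nat_lit 1595751522983967981568)) (T.h (P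 (nat_lit 0)) (M (nat_lit 10387681152090111)))))) (T.h (P (nat_lit 0)) (T.h (T.h (M (nat_lit 27481446203344965074943)) (T.h (P (nat_lit 0)) (M (nat_lit 1654209649672191)))) (T.h (P (nat_lit 0)) (M (nat_lit 4103378252595199)))))) (T.h (T.h (P (nat_lit 0)) (T.h (T.h (P (nat_lit 0)) (T.h (P (nat_lit 17390635901448617984)) (T.h (P (nat_lit 0)) (P (nat_lit 3403801104368))))) (T.h (P (nat_lit 0)) (T.h (T.h (P (nat_lit 0)) (P (nat_lit 8038665908672))) (P (nat_lit 0)))))) (T.h (T.h (T.h (P (nat_lit 1146563286424017174528)) (T.h (P (nat_lit 0)) (M (nat_lit 30936074729717759)))) (T.h (P (nat_lit 0)) (P (nat_lit 24685718477160448)))) (T.h (T.h (P (nat_lit 0)) (T.h (T.h (P (nat_lit 0)) (M (nat_lit 170731117199))) (P (nat_lit 0)))) (P (nat_lit 2008321073004544)))))))]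
def lP22_18 : List (T ℤ) := [(T.h (T.h (P (nat_lit 0)) (T.h (T.h (P (nat_lit 9207678008165465564223897600)) (T.h (P (nat_lit 0)) (T.h (P (nat_lit 42942278467776032014336)) (T.h (P (nat_lit 0)) (P (nat_lit 23800030921228288)))))) (T.h (P (nat_lit 0)) (T.h (T.h (M (nat_lit 903874534285351321599)) (T.h (P (nat_lit 0)) (M (nat_lit 33890004221526015)))) (T.h (P (nat_lit 0)) (P (nat_lit 19432194459172864))))))) (T.h (T.h (T.h (P (nat_lit 0)) (T.h (M (nat_lit 13193341801702804609302527)) (T.h (P (nat_lit 0)) (T.h (P (nat_lit 14593234475564400640)) (T.h (P (nat_lit 0)) (M (nat_lit 14273235546623))))))) (T.h (P (nat_lit 0)) (T.h (T.h (P (nat_lit 0)) (T.h (M (nat_lit 78501268510736383)) (T.h (P (nat_lit 0)) (P (nat_lit 56750143501968))))) (T.h (P (nat_lit 0)) (T.h (T.h (P (nat_lit 0)) (M (nat_lit 2256503267711))) (P (nat_lit 0))))))) (T.h (T.h (P (nat_lit 0)) (T.h (T.h (P (nat_lit 42942278467776032014336)) (T.h (P (nat_lit 0)) (M (nat_lit 9904676616601599))))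 (T.h (P (nat_lit 0)) (M (nat_lit 33890004221526015))))) (T.h (T.h (T.h (P (nat_lit 0)) (T.h (P (nat_lit 14593234475564400640)) (T.h (P (nat_lit 0)) (P (nat_lit 15942746779296))))) (T.h (P (nat_lit 0)) (T.h (T.h (P (nat_lit 0)) (P (nat_lit 56750143501968))) (P (nat_lit 0))))) (T.h (T.h (P (nat_lit 0)) (P (nat_lit 23800030921228288))) (T.h (T.h (T.h (P (nat_lit 0)) (M (nat_lit 14273235546623))) (P (nat_lit 0))) (P (nat_lit 0)))))))), (T.h (T.h (P (nat_lit 0)) (T.h (T.h (P (nat_lit 0)) (T.h (M (nat_lit 2462136707552895366594559)) (T.h (P (nat_lit 0)) (M (nat_lit 79920016934028967935))))) (T.h (P (nat_lit 0)) (T.h (T.h (P (nat_lit 0)) (P (nat_lit 101505859052011257856))) (P (nat_lit 0)))))) (T.h (T.h (T.h (M (nat_lit 6386671301465759067479736319)) (T.h (P (nat_lit 0)) (T.h (P (nat_lit 12946455893637272174592)) (T.h (P (nat_lit 0)) (P (nat_lit 36882563329572864)))))) (T.h (P (nat_lit 0)) (T.h (T.h (M (nat_lit 3629609030778259243007)) (T.h (P (nat_lit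 0)) (M (nat_lit 123501191418445823)))) (T.h (P (nat_lit 0)) (M (nat_lit 47595234489139199)))))) (T.h (T.h (P (nat_lit 0)) (T.h (T.h (P (nat_lit 0)) (M (nat_lit 54051844648559706111))) (P (nat_lit 0)))) (T.h (T.h (T.h (M (nat_lit 10107081055646471159807)) (T.h (P (nat_lit 0)) (P (nat_lit 2680074285662208)))) (T.h (P (nat_lit 0)) (M (nat_lit 28599184970825727)))) (T.h (P (nat_lit 0)) (P (nat_lit 7087088204562432))))))), (T.h (T.h (T.h (P (nat_lit 7955821324122392065238856892416)) (T.h (P (nat_lit 0)) (T.h (P (nat_lit 706434760272425848406016)) (T.h (P (nat_lit 0)) (T.h (P (nat_lit 4427669298030313472)) (T.h (P (nat_lit 0)) (M (nat_lit 2838909460015)))))))) (T.h (P (nat_lit 0)) (T.h (T.h (P (nat_lit 7393668704782508321931264)) (T.h (P (nat_lit 0)) (T.h (P (nat_lit 14592576984723750912)) (T.h (P (nat_lit 0)) (M (nat_lit 4410506974159)))))) (T.h (P (nat_lit 0)) (T.h (T.h (M (nat_lit 4062598691368730623)) (T.h (P (nat_lit 0)) (M (nat_lit 3133739275967))))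 (T.h (P (nat_lit 0)) (P (nat_lit 3652989002656)))))))) (T.h (T.h (P (nat_lit 0)) (T.h (T.h (P (nat_lit 0)) (T.h (P (nat_lit 10114515785597969235968)) (T.h (P (nat_lit 0)) (M (nat_lit 7725811003260927))))) (T.h (P (nat_lit 0)) (T.h (T.h (P (nat_lit 0)) (P (nat_lit 123914970333184))) (P (nat_lit 0)))))) (T.h (T.h (T.h (P (nat_lit 706434760272425848406016)) (T.h (P (nat_lit 0)) (T.h (P (nat_lit 4485432474456817664)) (T.h (P (nat_lit 0)) (P (nat_lit 1714226929744)))))) (T.h (P (nat_lit 0)) (T.h (T.h (P (nat_lit 14592576984723750912)) (T.h (P (nat_lit 0)) (M (nat_lit 4950411610591)))) (T.h (P (nat_lit 0)) (M (nat_lit 3133739275967)))))) (T.h (T.h (P (nat_lit 0)) (T.h (T.h (P (nat_lit 0)) (M (nat_lit 7725811003260927))) (P (nat_lit 0)))) (T.h (T.h (T.h (P (nat_lit 4427669298030313472)) (T.h (P (nat_lit 0)) (P (nat_lit 1714226929744)))) (T.h (P (nat_lit 0)) (M (nat_lit 4410506974159)))) (T.h (P (nat_lit 0)) (M (nat_lit 2838909460015)))))))), (T.h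 (T.h (T.h (P (nat_lit 0)) (T.h (P (nat_lit 6851398732185546236270477312)) (T.h (P (nat_lit 0)) (T.h (M (nat_lit 4732893267667112165375)) (T.h (P (nat_lit 0)) (P (nat_lit 10744085451014144))))))) (T.h (P (nat_lit 0)) (T.h (T.h (P (nat_lit 0)) (T.h (P (nat_lit 18348311073687137681408)) (T.h (P (nat_lit 0)) (P (nat_lit 12497095545683968))))) (T.h (P (nat_lit 0)) (T.h (T.h (P (nat_lit 0)) (M (nat_lit 17793055875203071))) (P (nat_lit 0))))))) (T.h (T.h (P (nat_lit 0)) (T.h (T.h (M (nat_lit 11660322374750600744140799)) (T.h (P (nat_lit 0)) (T.h (P (nat_lit 39841637126717308928)) (T.h (P (nat_lit 0)) (M (nat_lit 129643420655)))))) (T.h (P (nat_lit 0)) (T.h (T.h (M (nat_lit 18520378691960176639)) (T.h (P (nat_lit 0)) (P (nat_lit 14600707220976)))) (T.h (P (nat_lit 0)) (M (nat_lit 170296125263))))))) (T.h (T.h (T.h (P (nat_lit 0)) (T.h (M (nat_lit 21425206370652458582015)) (T.h (P (nat_lit 0)) (M (nat_lit 6016024335384575))))) (T.h (P (nat_lit 0)) (T.h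 (T.h (P (nat_lit 0)) (P (nat_lit 10815406722252800))) (P (nat_lit 0))))) (T.h (T.h (P (nat_lit 0)) (T.h (T.h (M (nat_lit 24783823898534739967)) (T.h (P (nat_lit 0)) (M (nat_lit 2136752720495)))) (T.h (P (nat_lit 0)) (P (nat_lit 6938019607344))))) (T.h (T.h (T.h (P (nat_lit 0)) (M (nat_lit 12728265808248831))) (P (nat_lit 0))) (T.h (T.h (P (nat_lit 0)) (P (nat_lit 2531236715616))) (P (nat_lit 0)))))))), (T.h (T.h (T.h (M (nat_lit 2821141812424189776576313819135)) (T.h (P (nat_lit 0)) (T.h (P (nat_lit 6379271700738892776865792)) (T.h (P (nat_lit 0)) (M (nat_lit 13988109673362882559)))))) (T.h (P (nat_lit 0)) (T.h (T.h (P (nat_lit 1472664461315796113555456)) (T.h (P (nat_lit 0)) (M (nat_lit 2541964318367285247)))) (T.h (P (nat_lit 0)) (M (nat_lit 16551306118870073343)))))) (T.h (T.h (P (nat_lit 0)) (T.h (T.h (P (nat_lit 0)) (T.h (P (nat_lit 51044592497901967507456)) (T.h (P (nat_lit 0)) (M (nat_lit 37105734956482559))))) (T.h (P (nat_lit 0)) (T.h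 (T.h (P (nat_lit 0)) (M (nat_lit 16853953130856447))) (P (nat_lit 0)))))) (T.h (T.h (T.h (P (nat_lit 6379271700738892776865792)) (T.h (P (nat_lit 0)) (P (nat_lit 4099261732382310400)))) (T.h (P (nat_lit 0)) (M (nat_lit 2541964318367285247)))) (T.h (T.h (P (nat_lit 0)) (T.h (T.h (P (nat_lit 0)) (M (nat_lit 37105734956482559))) (P (nat_lit 0)))) (M (nat_lit 13988109673362882559)))))), (T.h (T.h (P (nat_lit 0)) (T.h (T.h (P (nat_lit 6710137670469634890370383872)) (T.h (P (nat_lit 0)) (T.h (P (nat_lit 5070382572884235124736)) (T.h (P (nat_lit 0)) (P (nat_lit 8134172210757632)))))) (T.h (P (nat_lit 0)) (T.h (T.h (P (nat_lit 8784275359082477518848)) (T.h (P (nat_lit 0)) (P (nat_lit 12419465812770816)))) (T.h (P (nat_lit 0)) (M (nat_lit 7334363874459647))))))) (T.h (T.h (T.h (P (nat_lit 0)) (T.h (M (nat_lit 3147941618468942604402687)) (T.h (P (nat_lit 0)) (T.h (P (nat_lit 14588432640924188672)) (T.h (P (nat_lit 0)) (M (nat_lit 1368350825903)))))))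 (T.h (P (nat_lit 0)) (T.h (T.h (P (nat_lit 0)) (T.h (P (nat_lit 15443931641180848128)) (T.h (P (nat_lit 0)) (M (nat_lit 2196435085007))))) (T.h (P (nat_lit 0)) (T.h (T.h (P (nat_lit 0)) (P (nat_lit 2972229967968))) (P (nat_lit 0))))))) (T.h (T.h (P (nat_lit 0)) (T.h (T.h (P (nat_lit 5070382572884235124736)) (T.h (P (nat_lit 0)) (P (nat_lit 5119387493728256)))) (T.h (P (nat_lit 0)) (P (nat_lit 12419465812770816))))) (T.h (T.h (T.h (P (nat_lit 0)) (T.h (P (nat_lit 14588432640924188672)) (T.h (P (nat_lit 0)) (M (nat_lit 3114189266207))))) (T.h (P (nat_lit 0)) (T.h (T.h (P (nat_lit 0)) (M (nat_lit 2196435085007))) (P (nat_lit 0))))) (T.h (T.h (P (nat_lit 0)) (P (nat_lit 8134172210757632))) (T.h (T.h (T.h (P (nat_lit 0)) (M (nat_lit 1368350825903))) (P (nat_lit 0))) (P (nat_lit 0)))))))), (T.h (T.h (P (nat_lit 0)) (T.h (T.h (P (nat_lit 0)) (T.h (M (nat_lit 17043484856467139858530303)) (T.h (P (nat_lit 0)) (M (nat_lit 12429613524915847167))))) (T.h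 (P (nat_lit 0)) (T.h (T.h (P (nat_lit 0)) (M (nat_lit 2896091241655566335))) (P (nat_lit 0)))))) (T.h (T.h (T.h (P (nat_lit 3402341988066177641621749760)) (T.h (P (nat_lit 0)) (T.h (M (nat_lit 19467932748244439793663)) (T.h (P (nat_lit 0)) (P (nat_lit 2379570363793408)))))) (T.h (P (nat_lit 0)) (T.h (T.h (P (nat_lit 22557465762590185488384)) (T.h (P (nat_lit 0)) (M (nat_lit 12701974667231231)))) (T.h (P (nat_lit 0)) (M (nat_lit 723882441949183)))))) (T.h (T.h (P (nat_lit 0)) (T.h (T.h (P (nat_lit 0)) (M (nat_lit 11739852891748302847))) (P (nat_lit 0)))) (T.h (T.h (T.h (P (nat_lit 311281724839209992192)) (T.h (P (nat_lit 0)) (P (nat_lit 3918274737192960)))) (T.h (P (nat_lit 0)) (M (nat_lit 6354815568904191)))) (T.h (P (nat_lit 0)) (M (nat_lit 396931717021695))))))), (T.h (T.h (T.h (M (nat_lit 2330416154883494020266051239935)) (T.h (P (nat_lit 0)) (T.h (M (nat_lit 2720637866675313557110783)) (T.h (P (nat_lit 0)) (M (nat_lit 1895559017283977215))))))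 (T.h (P (nat_lit 0)) (T.h (T.h (M (nat_lit 7464748788017715864403967)) (T.h (P (nat_lit 0)) (M (nat_lit 8962145797948833791)))) (T.h (P (nat_lit 0)) (P (nat_lit 1573209784461557760)))))) (T.h (T.h (P (nat_lit 0)) (T.h (T.h (P (nat_lit 0)) (T.h (M (nat_lit 7531325478474476421119)) (T.h (P (nat_lit 0)) (P (nat_lit 1499433018032128))))) (T.h (P (nat_lit 0)) (T.h (T.h (P (nat_lit 0)) (M (nat_lit 4058084649598975))) (P (nat_lit 0)))))) (T.h (T.h (T.h (M (nat_lit 2720637866675313557110783)) (T.h (P (nat_lit 0)) (M (nat_lit 758678015956746239)))) (T.h (P (nat_lit 0)) (M (nat_lit 8962145797948833791)))) (T.h (T.h (P (nat_lit 0)) (T.h (T.h (P (nat_lit 0)) (P (nat_lit 1499433018032128))) (P (nat_lit 0)))) (M (nat_lit 1895559017283977215))))))]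
def lP22_19 : List (T ℤ) := [(P (nat_lit 0)), (P (nat_lit 0)), (T.h (T.h (P (nat_lit 0)) (T.h (T.h (P (nat_lit 1065717584157901306520928256)) (T.h (P (nat_lit 0)) (T.h (M (nat_lit 823076716709557567487)) (T.h (P (nat_lit 0)) (P (nat_lit 12920943419326464)))))) (T.h (P (nat_lit 0)) (T.h (T.h (M (nat_lit 6150243827804668952575)) (T.h (P (nat_lit 0)) (P (nat_lit 1101693242638336)))) (T.h (P (nat_lit 0)) (M (nat_lit 2443150172880895))))))) (T.h (T.h (T.h (P (nat_lit 0)) (T.h (P (nat_lit 17435845844158846171348992)) (T.h (P (nat_lit 0)) (T.h (P (nat_lit 6328498506742890496)) (T.h (P (nat_lit 0)) (M (nat_lit 5590196669631))))))) (T.h (P (nat_lit 0)) (T.h (T.h (P (nat_lit 0)) (T.h (P (nat_lit 21885091222464233472)) (T.h (P (nat_lit 0)) (M (nat_lit 9921069286815))))) (T.h (P (nat_lit 0)) (T.h (T.h (P (nat_lit 0)) (P (nat_lit 6333409482112))) (P (nat_lit 0))))))) (T.h (T.h (P (nat_lit 0)) (T.h (T.h (M (nat_lit 823076716709557567487)) (T.h (P (nat_lit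 0)) (P (nat_lit 31574300939255808)))) (T.h (P (nat_lit 0)) (P (nat_lit 1101693242638336))))) (T.h (T.h (T.h (P (nat_lit 0)) (T.h (P (nat_lit 6328498506742890496)) (T.h (P (nat_lit 0)) (P (nat_lit 6746795165152))))) (T.h (P (nat_lit 0)) (T.h (T.h (P (nat_lit 0)) (M (nat_lit 9921069286815))) (P (nat_lit 0))))) (T.h (T.h (P (nat_lit 0)) (P (nat_lit 12920943419326464))) (T.h (T.h (T.h (P (nat_lit 0)) (M (nat_lit 5590196669631))) (P (nat_lit 0))) (P (nat_lit 0)))))))), (T.h (T.h (P (nat_lit 0)) (T.h (T.h (P (nat_lit 0)) (T.h (M (nat_lit 5312428250162915675471871)) (T.h (P (nat_lit 0)) (T.h (M (nat_lit 64622865852735160319)) (T.h (P (nat_lit 0)) (P (nat_lit 18335573816552))))))) (T.h (P (nat_lit 0)) (T.h (T.h (P (nat_lit 0)) (T.h (M (nat_lit 27310346575542222847)) (T.h (P (nat_lit 0)) (M (nat_lit 15748739387719))))) (T.h (P (nat_lit 0)) (T.h (T.h (P (nat_lit 0)) (M (nat_lit 10801532053095))) (P (nat_lit 0)))))))) (T.h (T.h (T.h (M (nat_lit 10991474950359710380029116415))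 (T.h (P (nat_lit 0)) (T.h (P (nat_lit 41040909782363121123328)) (T.h (P (nat_lit 0)) (P (nat_lit 6521370142867456)))))) (T.h (P (nat_lit 0)) (T.h (T.h (P (nat_lit 8567976820326266830848)) (T.h (P (nat_lit 0)) (P (nat_lit 46568866846343168)))) (T.h (P (nat_lit 0)) (P (nat_lit 1044368633987072)))))) (T.h (T.h (P (nat_lit 0)) (T.h (T.h (P (nat_lit 0)) (T.h (M (nat_lit 100038009156592992255)) (T.h (P (nat_lit 0)) (P (nat_lit 13630589192224))))) (T.h (P (nat_lit 0)) (T.h (T.h (P (nat_lit 0)) (P (nat_lit 24519505450928))) (P (nat_lit 0)))))) (T.h (T.h (T.h (M (nat_lit 7201144172948878262271)) (T.h (P (nat_lit 0)) (M (nat_lit 3003675793752063)))) (T.h (P (nat_lit 0)) (P (nat_lit 34853522742837248)))) (T.h (T.h (P (nat_lit 0)) (T.h (T.h (P (nat_lit 0)) (P (nat_lit 49091741274216))) (P (nat_lit 0)))) (M (nat_lit 12430244271980543))))))), (T.h (T.h (P (nat_lit 0)) (T.h (T.h (P (nat_lit 15094032400325960924739403776)) (T.h (P (nat_lit 0)) (T.h (M (nat_lit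 41911058818368815497215)) (T.h (P (nat_lit 0)) (M (nat_lit 50334443779178495)))))) (T.h (P (nat_lit 0)) (T.h (T.h (P (nat_lit 38869535379741193797632)) (T.h (P (nat_lit 0)) (P (nat_lit 32999091808944128)))) (T.h (P (nat_lit 0)) (P (nat_lit 4847364983635968))))))) (T.h (T.h (T.h (P (nat_lit 0)) (T.h (M (nat_lit 15195826472069480063172607)) (T.h (P (nat_lit 0)) (T.h (M (nat_lit 43070447991461511167)) (T.h (P (nat_lit 0)) (P (nat_lit 19938314249056))))))) (T.h (P (nat_lit 0)) (T.h (T.h (P (nat_lit 0)) (T.h (P (nat_lit 22111159804581904384)) (T.h (P (nat_lit 0)) (P (nat_lit 5619309761520))))) (T.h (P (nat_lit 0)) (T.h (T.h (P (nat_lit 0)) (M (nat_lit 14340866784943))) (P (nat_lit 0))))))) (T.h (T.h (P (nat_lit 0)) (T.h (T.h (M (nat_lit 12833861092039882440703)) (T.h (P (nat_lit 0)) (M (nat_lit 35127143919222783)))) (T.h (P (nat_lit 0)) (M (nat_lit 22622701397934079))))) (T.h (T.h (T.h (P (nat_lit 0)) (T.h (M (nat_lit 16738141867358552063)) (T.h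 (P (nat_lit 0)) (P (nat_lit 1995910495824))))) (T.h (P (nat_lit 0)) (T.h (T.h (P (nat_lit 0)) (P (nat_lit 984444957216))) (P (nat_lit 0))))) (T.h (T.h (P (nat_lit 0)) (M (nat_lit 56618746678673407))) (T.h (T.h (T.h (P (nat_lit 0)) (P (nat_lit 7586376911344))) (P (nat_lit 0))) (P (nat_lit 0)))))))), (T.h (T.h (P (nat_lit 0)) (T.h (T.h (P (nat_lit 0)) (T.h (M (nat_lit 12932720779095484709994495)) (T.h (P (nat_lit 0)) (T.h (P (nat_lit 4923577516783828992)) (T.h (P (nat_lit 0)) (M (nat_lit 14348130743711))))))) (T.h (P (nat_lit 0)) (T.h (T.h (P (nat_lit 0)) (T.h (M (nat_lit 28204431904241352703)) (T.h (P (nat_lit 0)) (P (nat_lit 17972683773504))))) (T.h (P (nat_lit 0)) (T.h (T.h (P (nat_lit 0)) (P (nat_lit 4888059757872))) (P (nat_lit 0)))))))) (T.h (T.h (T.h (P (nat_lit 12694516132953067105525170176)) (T.h (P (nat_lit 0)) (T.h (P (nat_lit 24480591155283993034752)) (T.h (P (nat_lit 0)) (M (nat_lit 35401708404146175)))))) (T.h (P (nat_lit 0)) (T.h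 (T.h (M (nat_lit 30087155017129438216191)) (T.h (P (nat_lit 0)) (P (nat_lit 18089952219463680)))) (T.h (P (nat_lit 0)) (M (nat_lit 12254034039898111)))))) (T.h (T.h (P (nat_lit 0)) (T.h (T.h (P (nat_lit 0)) (T.h (P (nat_lit 74074457738617815040)) (T.h (P (nat_lit 0)) (P (nat_lit 32553611291904))))) (T.h (P (nat_lit 0)) (T.h (T.h (P (nat_lit 0)) (M (nat_lit 21703434464063))) (P (nat_lit 0)))))) (T.h (T.h (T.h (P (nat_lit 1667884357152340443136)) (T.h (P (nat_lit 0)) (P (nat_lit 2311032504811520)))) (T.h (P (nat_lit 0)) (M (nat_lit 30039293195386879)))) (T.h (T.h (P (nat_lit 0)) (T.h (T.h (P (nat_lit 0)) (M (nat_lit 26269413742655))) (P (nat_lit 0)))) (P (nat_lit 28219518888411136))))))), (T.h (T.h (P (nat_lit 0)) (T.h (T.h (M (nat_lit 6042046692253407089126277119)) (T.h (P (nat_lit 0)) (T.h (P (nat_lit 53299571303992958910464)) (T.h (P (nat_lit 0)) (P (nat_lit 23858065197891584)))))) (T.h (P (nat_lit 0)) (T.h (T.h (M (nat_lit 11576057405531314192383))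 (T.h (P (nat_lit 0)) (M (nat_lit 28456604404973567)))) (T.h (P (nat_lit 0)) (P (nat_lit 1926790763511808))))))) (T.h (T.h (T.h (P (nat_lit 0)) (T.h (M (nat_lit 6844849078918847777472511)) (T.h (P (nat_lit 0)) (M (nat_lit 13483878538738139135))))) (T.h (P (nat_lit 0)) (T.h (T.h (P (nat_lit 0)) (M (nat_lit 20744543133969154047))) (P (nat_lit 0))))) (T.h (T.h (P (nat_lit 0)) (T.h (T.h (M (nat_lit 14969039455327191302143)) (T.h (P (nat_lit 0)) (M (nat_lit 56791017192112127)))) (T.h (P (nat_lit 0)) (P (nat_lit 2434349087997952))))) (T.h (T.h (T.h (P (nat_lit 0)) (M (nat_lit 56493968664372969471))) (P (nat_lit 0))) (T.h (T.h (P (nat_lit 0)) (P (nat_lit 20020676905156608))) (P (nat_lit 0))))))), (P (nat_lit 0))]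
def lP22_20 : List (T ℤ) := [(P (nat_lit 0)), (T.h (T.h (T.h (P (nat_lit 0)) (T.h (P (nat_lit 520005912465129080914706432)) (T.h (P (nat_lit 0)) (T.h (M (nat_lit 2437675326396268806143)) (T.h (P (nat_lit 0)) (M (nat_lit 1880929219117055))))))) (T.h (P (nat_lit 0)) (T.h (T.h (P (nat_lit 0)) (T.h (P (nat_lit 3035963256979347996672)) (T.h (P (nat_lit 0)) (P (nat_lit 12776123929198592))))) (T.h (P (nat_lit 0)) (T.h (T.h (P (nat_lit 0)) (M (nat_lit 7094550282567679))) (P (nat_lit 0))))))) (T.h (T.h (P (nat_lit 0)) (T.h (T.h (P (nat_lit 7366654269993492678705152)) (T.h (P (nat_lit 0)) (T.h (P (nat_lit 1835577112694620160)) (T.h (P (nat_lit 0)) (P (nat_lit 16666583736960)))))) (T.h (P (nat_lit 0)) (T.h (T.h (M (nat_lit 1649432542622777343)) (T.h (P (nat_lit 0)) (P (nat_lit 5533242513072)))) (T.h (P (nat_lit 0)) (M (nat_lit 1216878352895))))))) (T.h (T.h (T.h (P (nat_lit 0)) (T.h (M (nat_lit 4430496151483948466175)) (T.h (P (nat_lit 0)) (M (nat_lit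 16449291526668287))))) (T.h (P (nat_lit 0)) (T.h (T.h (P (nat_lit 0)) (P (nat_lit 4191714716549120))) (P (nat_lit 0))))) (T.h (T.h (P (nat_lit 0)) (T.h (T.h (P (nat_lit 5065451259406843904)) (T.h (P (nat_lit 0)) (M (nat_lit 4042099546639)))) (T.h (P (nat_lit 0)) (P (nat_lit 6481765230512))))) (T.h (T.h (T.h (P (nat_lit 0)) (P (nat_lit 374732547620864))) (P (nat_lit 0))) (T.h (T.h (P (nat_lit 0)) (M (nat_lit 5958552817023))) (P (nat_lit 0)))))))), (T.h (T.h (T.h (P (nat_lit 643504866920314132892930277376)) (T.h (P (nat_lit 0)) (T.h (P (nat_lit 5292644011309270938157056)) (T.h (P (nat_lit 0)) (T.h (P (nat_lit 543950504833581056)) (T.h (P (nat_lit 0)) (M (nat_lit 1812697402783)))))))) (T.h (P (nat_lit 0)) (T.h (T.h (M (nat_lit 22548810995387412653277183)) (T.h (P (nat_lit 0)) (T.h (M (nat_lit 16580740980643201023)) (T.h (P (nat_lit 0)) (M (nat_lit 22986034918431)))))) (T.h (P (nat_lit 0)) (T.h (T.h (M (nat_lit 23659869810251005951)) (T.h (P (nat_lit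 0)) (P (nat_lit 8239360222256)))) (T.h (P (nat_lit 0)) (M (nat_lit 19059435213695)))))))) (T.h (T.h (P (nat_lit 0)) (T.h (T.h (P (nat_lit 0)) (T.h (P (nat_lit 406440972447018463002624)) (T.h (P (nat_lit 0)) (M (nat_lit 220872738824781823))))) (T.h (P (nat_lit 0)) (T.h (T.h (P (nat_lit 0)) (P (nat_lit 3866116181065728))) (P (nat_lit 0)))))) (T.h (T.h (T.h (P (nat_lit 5292644011309270938157056)) (T.h (P (nat_lit 0)) (T.h (P (nat_lit 94516834338085011456)) (T.h (P (nat_lit 0)) (M (nat_lit 21174955727999)))))) (T.h (P (nat_lit 0)) (T.h (T.h (M (nat_lit 16580740980643201023)) (T.h (P (nat_lit 0)) (M (nat_lit 71703681206943)))) (T.h (P (nat_lit 0)) (P (nat_lit 8239360222256)))))) (T.h (T.h (P (nat_lit 0)) (T.h (T.h (P (nat_lit 0)) (M (nat_lit 220872738824781823))) (P (nat_lit 0)))) (T.h (T.h (T.h (P (nat_lit 543950504833581056)) (T.h (P (nat_lit 0)) (M (nat_lit 21174955727999)))) (T.h (P (nat_lit 0)) (M (nat_lit 22986034918431)))) (T.h (P (nat_lit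 0)) (M (nat_lit 1812697402783)))))))), (T.h (T.h (T.h (P (nat_lit 0)) (T.h (M (nat_lit 6356930510662804732322512895)) (T.h (P (nat_lit 0)) (T.h (M (nat_lit 29455829955663213101055)) (T.h (P (nat_lit 0)) (P (nat_lit 1539792990879744))))))) (T.h (P (nat_lit 0)) (T.h (T.h (P (nat_lit 0)) (T.h (M (nat_lit 56883992127330444115967)) (T.h (P (nat_lit 0)) (M (nat_lit 4198576772169727))))) (T.h (P (nat_lit 0)) (T.h (T.h (P (nat_lit 0)) (P (nat_lit 39930242924576768))) (P (nat_lit 0))))))) (T.h (T.h (P (nat_lit 0)) (T.h (T.h (P (nat_lit 29011003010746047835144192)) (T.h (P (nat_lit 0)) (T.h (M (nat_lit 10909109724356018175)) (T.h (P (nat_lit 0)) (M (nat_lit 95994595996991)))))) (T.h (P (nat_lit 0)) (T.h (T.h (P (nat_lit 9941448809114501120)) (T.h (P (nat_lit 0)) (M (nat_lit 14477294743407)))) (T.h (P (nat_lit 0)) (M (nat_lit 7335226687375))))))) (T.h (T.h (T.h (P (nat_lit 0)) (T.h (M (nat_lit 27822519022565684412415)) (T.h (P (nat_lit 0)) (P (nat_lit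 67942575710699520))))) (T.h (P (nat_lit 0)) (T.h (T.h (P (nat_lit 0)) (P (nat_lit 80320698276560896))) (P (nat_lit 0))))) (T.h (T.h (P (nat_lit 0)) (T.h (T.h (P (nat_lit 28536482058832183296)) (T.h (P (nat_lit 0)) (M (nat_lit 14321956310031)))) (T.h (P (nat_lit 0)) (M (nat_lit 5123879650623))))) (T.h (T.h (T.h (P (nat_lit 0)) (P (nat_lit 96318372205527040))) (P (nat_lit 0))) (T.h (T.h (P (nat_lit 0)) (M (nat_lit 814461733343))) (P (nat_lit 0)))))))), (T.h (T.h (T.h (P (nat_lit 1115592590657874877131071160320)) (T.h (P (nat_lit 0)) (T.h (P (nat_lit 34786085838959552078282752)) (T.h (P (nat_lit 0)) (T.h (P (nat_lit 3658876406927982592)) (T.h (P (nat_lit 0)) (P (nat_lit 5815047762000)))))))) (T.h (P (nat_lit 0)) (T.h (T.h (M (nat_lit 507304703656420609884159)) (T.h (P (nat_lit 0)) (T.h (M (nat_lit 130564937093042143231)) (T.h (P (nat_lit 0)) (P (nat_lit 23991997390848)))))) (T.h (P (nat_lit 0)) (T.h (T.h (P (nat_lit 6880821809667637248)) (T.h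 (P (nat_lit 0)) (M (nat_lit 21958799509391)))) (T.h (P (nat_lit 0)) (P (nat_lit 8166732155712)))))))) (T.h (T.h (P (nat_lit 0)) (T.h (T.h (P (nat_lit 0)) (T.h (M (nat_lit 19951231984780007440383)) (T.h (P (nat_lit 0)) (P (nat_lit 679447393009664))))) (T.h (P (nat_lit 0)) (T.h (T.h (P (nat_lit 0)) (P (nat_lit 153381809422729216))) (P (nat_lit 0)))))) (T.h (T.h (T.h (M (nat_lit 6374825364380784296722431)) (T.h (P (nat_lit 0)) (T.h (M (nat_lit 68737311304899887103)) (T.h (P (nat_lit 0)) (P (nat_lit 39216856312992)))))) (T.h (P (nat_lit 0)) (T.h (T.h (P (nat_lit 35263024521535291392)) (T.h (P (nat_lit 0)) (P (nat_lit 84574857831168)))) (T.h (P (nat_lit 0)) (M (nat_lit 37853903940671)))))) (T.h (T.h (P (nat_lit 0)) (T.h (T.h (P (nat_lit 0)) (P (nat_lit 123138627846995968))) (P (nat_lit 0)))) (T.h (T.h (T.h (P (nat_lit 7250249056067256320)) (T.h (P (nat_lit 0)) (P (nat_lit 35703781143744)))) (T.h (P (nat_lit 0)) (P (nat_lit 4583817790320)))) (T.h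 (P (nat_lit 0)) (M (nat_lit 5166647710895)))))))), (T.h (T.h (T.h (P (nat_lit 0)) (T.h (M (nat_lit 2893019493596279392243286015)) (T.h (P (nat_lit 0)) (T.h (M (nat_lit 27246261378647213473791)) (T.h (P (nat_lit 0)) (M (nat_lit 19637590254747647))))))) (T.h (P (nat_lit 0)) (T.h (T.h (P (nat_lit 0)) (T.h (P (nat_lit 106208656867049003286528)) (T.h (P (nat_lit 0)) (M (nat_lit 64878600746582015))))) (T.h (P (nat_lit 0)) (T.h (T.h (P (nat_lit 0)) (P (nat_lit 6186033858117632))) (P (nat_lit 0))))))) (T.h (T.h (P (nat_lit 0)) (T.h (T.h (P (nat_lit 744127512378813555146752)) (T.h (P (nat_lit 0)) (P (nat_lit 108624038561860026368)))) (T.h (P (nat_lit 0)) (M (nat_lit 43240701282731687935))))) (T.h (T.h (T.h (P (nat_lit 0)) (T.h (P (nat_lit 18795596249408332627968)) (T.h (P (nat_lit 0)) (M (nat_lit 56201108453130239))))) (T.h (P (nat_lit 0)) (T.h (T.h (P (nat_lit 0)) (M (nat_lit 20986041552060415))) (P (nat_lit 0))))) (T.h (T.h (P (nat_lit 0)) (P (nat_lit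 3687564929549729792))) (T.h (T.h (T.h (P (nat_lit 0)) (M (nat_lit 48264155397226495))) (P (nat_lit 0))) (P (nat_lit 0))))))), (P (nat_lit 0)), (T.h (T.h (P (nat_lit 0)) (T.h (T.h (M (nat_lit 12852879613821572345757695)) (T.h (P (nat_lit 0)) (T.h (M (nat_lit 285728088897521451007)) (T.h (P (nat_lit 0)) (M (nat_lit 9820380577136639)))))) (T.h (P (nat_lit 0)) (T.h (T.h (P (nat_lit 637446587506065670144)) (T.h (P (nat_lit 0)) (M (nat_lit 2387430420054015)))) (T.h (P (nat_lit 0)) (M (nat_lit 659354132676607))))))) (T.h (T.h (T.h (P (nat_lit 0)) (T.h (M (nat_lit 1351268652085930406969343)) (T.h (P (nat_lit 0)) (T.h (M (nat_lit 1456239894979411967)) (T.h (P (nat_lit 0)) (M (nat_lit 792617250143))))))) (T.h (P (nat_lit 0)) (T.h (T.h (P (nat_lit 0)) (T.h (M (nat_lit 9106968498537496575)) (T.h (P (nat_lit 0)) (P (nat_lit 5706106126624))))) (T.h (P (nat_lit 0)) (T.h (T.h (P (nat_lit 0)) (P (nat_lit 13499878995904))) (P (nat_lit 0))))))) (T.h (T.h (P (nat_lit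 0)) (T.h (T.h (M (nat_lit 285728088897521451007)) (T.h (P (nat_lit 0)) (M (nat_lit 11595435753078783)))) (T.h (P (nat_lit 0)) (M (nat_lit 2387430420054015))))) (T.h (T.h (T.h (P (nat_lit 0)) (T.h (M (nat_lit 1456239894979411967)) (T.h (P (nat_lit 0)) (P (nat_lit 3108367647936))))) (T.h (P (nat_lit 0)) (T.h (T.h (P (nat_lit 0)) (P (nat_lit 5706106126624))) (P (nat_lit 0))))) (T.h (T.h (P (nat_lit 0)) (M (nat_lit 9820380577136639))) (T.h (T.h (T.h (P (nat_lit 0)) (M (nat_lit 792617250143))) (P (nat_lit 0))) (P (nat_lit 0))))))))]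
def lP22_21 : List (T ℤ) := [(T.h (T.h (P (nat_lit 0)) (T.h (T.h (P (nat_lit 0)) (T.h (M (nat_lit 66334760099093739265327103)) (T.h (P (nat_lit 0)) (T.h (P (nat_lit 110484256596844085248)) (T.h (P (nat_lit 0)) (P (nat_lit 19016045810312))))))) (T.h (P (nat_lit 0)) (T.h (T.h (P (nat_lit 0)) (T.h (M (nat_lit 85422015907830431743)) (T.h (P (nat_lit 0)) (M (nat_lit 2136301955687))))) (T.h (P (nat_lit 0)) (T.h (T.h (P (nat_lit 0)) (M (nat_lit 8221132923559))) (P (nat_lit 0)))))))) (T.h (T.h (T.h (M (nat_lit 4325997788076474073308200959)) (T.h (P (nat_lit 0)) (T.h (M (nat_lit 104629967578149246992383)) (T.h (P (nat_lit 0)) (M (nat_lit 56908870388252671)))))) (T.h (P (nat_lit 0)) (T.h (T.h (P (nat_lit 120274131486706405212160)) (T.h (P (nat_lit 0)) (M (nat_lit 84057130539122687)))) (T.h (P (nat_lit 0)) (P (nat_lit 17165271669702656)))))) (T.h (T.h (P (nat_lit 0)) (T.h (T.h (P (nat_lit 0)) (T.h (M (nat_lit 16142157250356576255)) (T.h (P (nat_lit 0))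 (P (nat_lit 47514728483784))))) (T.h (P (nat_lit 0)) (T.h (T.h (P (nat_lit 0)) (M (nat_lit 36203353571047))) (P (nat_lit 0)))))) (T.h (T.h (T.h (P (nat_lit 54139420388062396416)) (T.h (P (nat_lit 0)) (M (nat_lit 29153428600389631)))) (T.h (P (nat_lit 0)) (M (nat_lit 6631448654446591)))) (T.h (T.h (P (nat_lit 0)) (T.h (T.h (P (nat_lit 0)) (P (nat_lit 10127642086808))) (P (nat_lit 0)))) (P (nat_lit 27928463828025344))))))), (T.h (T.h (P (nat_lit 0)) (T.h (T.h (M (nat_lit 20538233795411172101623644159)) (T.h (P (nat_lit 0)) (T.h (M (nat_lit 52567281883338057449471)) (T.h (P (nat_lit 0)) (P (nat_lit 71650480214310912)))))) (T.h (P (nat_lit 0)) (T.h (T.h (M (nat_lit 38847164891809445838847)) (T.h (P (nat_lit 0)) (P (nat_lit 25658936914165760)))) (T.h (P (nat_lit 0)) (M (nat_lit 22848537304596479))))))) (T.h (T.h (T.h (P (nat_lit 0)) (T.h (M (nat_lit 6281080670574655041437695)) (T.h (P (nat_lit 0)) (T.h (M (nat_lit 20641407165368631295)) (T.h (P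 (nat_lit 0)) (M (nat_lit 17785999854447))))))) (T.h (P (nat_lit 0)) (T.h (T.h (P (nat_lit 0)) (T.h (P (nat_lit 5480662928585654272)) (T.h (P (nat_lit 0)) (M (nat_lit 26157080190079))))) (T.h (P (nat_lit 0)) (T.h (T.h (P (nat_lit 0)) (M (nat_lit 142673972345855))) (P (nat_lit 0))))))) (T.h (T.h (P (nat_lit 0)) (T.h (T.h (M (nat_lit 52567281883338057449471)) (T.h (P (nat_lit 0)) (P (nat_lit 168373863489503232)))) (T.h (P (nat_lit 0)) (P (nat_lit 25658936914165760))))) (T.h (T.h (T.h (P (nat_lit 0)) (T.h (M (nat_lit 20641407165368631295)) (T.h (P (nat_lit 0)) (M (nat_lit 16126006577407))))) (T.h (P (nat_lit 0)) (T.h (T.h (P (nat_lit 0)) (M (nat_lit 26157080190079))) (P (nat_lit 0))))) (T.h (T.h (P (nat_lit 0)) (P (nat_lit 71650480214310912))) (T.h (T.h (T.h (P (nat_lit 0)) (M (nat_lit 17785999854447))) (P (nat_lit 0))) (P (nat_lit 0)))))))), (T.h (T.h (P (nat_lit 0)) (T.h (T.h (P (nat_lit 0)) (T.h (P (nat_lit 51831038186609871171878912)) (T.h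 (P (nat_lit 0)) (T.h (P (nat_lit 10127699961685475328)) (T.h (P (nat_lit 0)) (P (nat_lit 36593309904384))))))) (T.h (P (nat_lit 0)) (T.h (T.h (P (nat_lit 0)) (T.h (M (nat_lit 154149439252987903999)) (T.h (P (nat_lit 0)) (M (nat_lit 27440113996175))))) (T.h (P (nat_lit 0)) (T.h (T.h (P (nat_lit 0)) (P (nat_lit 16154079036432))) (P (nat_lit 0)))))))) (T.h (T.h (T.h (M (nat_lit 9689203274623073572085563391)) (T.h (P (nat_lit 0)) (T.h (M (nat_lit 3547409067596213911551)) (T.h (P (nat_lit 0)) (M (nat_lit 5312466369347583)))))) (T.h (P (nat_lit 0)) (T.h (T.h (M (nat_lit 16804508218362144227327)) (T.h (P (nat_lit 0)) (M (nat_lit 11918113887322111)))) (T.h (P (nat_lit 0)) (P (nat_lit 44925341566992384)))))) (T.h (T.h (P (nat_lit 0)) (T.h (T.h (P (nat_lit 0)) (T.h (M (nat_lit 136708025797551587327)) (T.h (P (nat_lit 0)) (P (nat_lit 26798791662672))))) (T.h (P (nat_lit 0)) (T.h (T.h (P (nat_lit 0)) (M (nat_lit 10837356023567))) (P (nat_lit 0)))))) (T.h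 (T.h (T.h (M (nat_lit 32348561746592169721855)) (T.h (P (nat_lit 0)) (P (nat_lit 62475914865180672)))) (T.h (P (nat_lit 0)) (P (nat_lit 57590447908585472)))) (T.h (T.h (P (nat_lit 0)) (T.h (T.h (P (nat_lit 0)) (M (nat_lit 5355070843967))) (P (nat_lit 0)))) (M (nat_lit 39858813559865343))))))), (T.h (T.h (P (nat_lit 0)) (T.h (T.h (P (nat_lit 14443826790256105527609131008)) (T.h (P (nat_lit 0)) (T.h (M (nat_lit 38168780187591518453759)) (T.h (P (nat_lit 0)) (M (nat_lit 76111675475427327)))))) (T.h (P (nat_lit 0)) (T.h (T.h (M (nat_lit 16036720904275796951039)) (T.h (P (nat_lit 0)) (P (nat_lit 49097804582748160)))) (T.h (P (nat_lit 0)) (M (nat_lit 20302167749623807))))))) (T.h (T.h (T.h (P (nat_lit 0)) (T.h (M (nat_lit 4802423077831732845608959)) (T.h (P (nat_lit 0)) (P (nat_lit 171966052405298069504))))) (T.h (P (nat_lit 0)) (T.h (T.h (P (nat_lit 0)) (M (nat_lit 82621730884927094783))) (P (nat_lit 0))))) (T.h (T.h (P (nat_lit 0)) (T.h (T.h (P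 (nat_lit 4650496985309537894400)) (T.h (P (nat_lit 0)) (M (nat_lit 118825867613978623)))) (T.h (P (nat_lit 0)) (P (nat_lit 59759200652361728))))) (T.h (T.h (T.h (P (nat_lit 0)) (P (nat_lit 24016744261632393216))) (P (nat_lit 0))) (T.h (T.h (P (nat_lit 0)) (P (nat_lit 15306963441762304))) (P (nat_lit 0))))))), (T.h (T.h (T.h (P (nat_lit 0)) (T.h (P (nat_lit 532858792078950653260464128)) (T.h (P (nat_lit 0)) (T.h (M (nat_lit 3075121913902334476287)) (T.h (P (nat_lit 0)) (M (nat_lit 1221575086440447))))))) (T.h (P (nat_lit 0)) (T.h (T.h (P (nat_lit 0)) (T.h (M (nat_lit 4144768062586427015167)) (T.h (P (nat_lit 0)) (M (nat_lit 14061861106614271))))) (T.h (P (nat_lit 0)) (T.h (T.h (P (nat_lit 0)) (P (nat_lit 10195113124757504))) (P (nat_lit 0))))))) (T.h (T.h (P (nat_lit 0)) (T.h (T.h (P (nat_lit 8717922922079423085674496)) (T.h (P (nat_lit 0)) (T.h (P (nat_lit 10942545611232116736)) (T.h (P (nat_lit 0)) (P (nat_lit 3166704741056)))))) (T.h (P (nat_lit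 0)) (T.h (T.h (P (nat_lit 6521691154386255872)) (T.h (P (nat_lit 0)) (M (nat_lit 9748205673263)))) (T.h (P (nat_lit 0)) (M (nat_lit 5165935566879))))))) (T.h (T.h (T.h (P (nat_lit 0)) (T.h (P (nat_lit 3321691345876869447680)) (T.h (P (nat_lit 0)) (P (nat_lit 15163554349252608))))) (T.h (P (nat_lit 0)) (T.h (T.h (P (nat_lit 0)) (P (nat_lit 15787150469627904))) (P (nat_lit 0))))) (T.h (T.h (P (nat_lit 0)) (T.h (T.h (M (nat_lit 193192647643365375)) (T.h (P (nat_lit 0)) (M (nat_lit 172863613551)))) (T.h (P (nat_lit 0)) (P (nat_lit 3373397582576))))) (T.h (T.h (T.h (P (nat_lit 0)) (P (nat_lit 2725830294568960))) (P (nat_lit 0))) (T.h (T.h (P (nat_lit 0)) (M (nat_lit 424261102751))) (P (nat_lit 0)))))))), (T.h (T.h (T.h (M (nat_lit 2248041611807955158416687628287)) (T.h (P (nat_lit 0)) (T.h (P (nat_lit 8374704790183218652381184)) (T.h (P (nat_lit 0)) (T.h (P (nat_lit 5507644551881293824)) (T.h (P (nat_lit 0)) (M (nat_lit 2898256773599)))))))) (T.h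 (P (nat_lit 0)) (T.h (T.h (M (nat_lit 22355860403255416230772735)) (T.h (P (nat_lit 0)) (T.h (P (nat_lit 137051546616728649728)) (T.h (P (nat_lit 0)) (P (nat_lit 13148422638384)))))) (T.h (P (nat_lit 0)) (T.h (T.h (M (nat_lit 12117609771951980543)) (T.h (P (nat_lit 0)) (P (nat_lit 20065619356656)))) (T.h (P (nat_lit 0)) (M (nat_lit 1351169527407)))))))) (T.h (T.h (P (nat_lit 0)) (T.h (T.h (P (nat_lit 0)) (T.h (M (nat_lit 101383502450596276862975)) (T.h (P (nat_lit 0)) (M (nat_lit 92831690739744767))))) (T.h (P (nat_lit 0)) (T.h (T.h (P (nat_lit 0)) (P (nat_lit 87137507642114048))) (P (nat_lit 0)))))) (T.h (T.h (T.h (P (nat_lit 22998856298373897317777408)) (T.h (P (nat_lit 0)) (T.h (P (nat_lit 1095462655537184768)) (T.h (P (nat_lit 0)) (P (nat_lit 42287790739840)))))) (T.h (P (nat_lit 0)) (T.h (T.h (M (nat_lit 48302908811373445119)) (T.h (P (nat_lit 0)) (M (nat_lit 18248556499983)))) (T.h (P (nat_lit 0)) (M (nat_lit 24310713215903)))))) (T.h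 (T.h (P (nat_lit 0)) (T.h (T.h (P (nat_lit 0)) (P (nat_lit 12424329035710464))) (P (nat_lit 0)))) (T.h (T.h (T.h (M (nat_lit 1809775932169256959)) (T.h (P (nat_lit 0)) (M (nat_lit 18279454299727)))) (T.h (P (nat_lit 0)) (M (nat_lit 6163918761887)))) (T.h (P (nat_lit 0)) (P (nat_lit 4974677902512)))))))), (T.h (T.h (T.h (P (nat_lit 0)) (T.h (P (nat_lit 7008052928524809512595488768)) (T.h (P (nat_lit 0)) (T.h (P (nat_lit 18299389647412453703680)) (T.h (P (nat_lit 0)) (M (nat_lit 8585224741666815))))))) (T.h (P (nat_lit 0)) (T.h (T.h (P (nat_lit 0)) (T.h (M (nat_lit 26182517004310499295231)) (T.h (P (nat_lit 0)) (P (nat_lit 57213418030301184))))) (T.h (P (nat_lit 0)) (T.h (T.h (P (nat_lit 0)) (P (nat_lit 17788239221047296))) (P (nat_lit 0))))))) (T.h (T.h (P (nat_lit 0)) (T.h (T.h (M (nat_lit 29342807062120657525407743)) (T.h (P (nat_lit 0)) (T.h (P (nat_lit 7460855367426113536)) (T.h (P (nat_lit 0)) (M (nat_lit 85507121840671)))))) (T.h (P (nat_lit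 0)) (T.h (T.h (M (nat_lit 33881152391093420031)) (T.h (P (nat_lit 0)) (M (nat_lit 15420227025503)))) (T.h (P (nat_lit 0)) (P (nat_lit 2430406078912))))))) (T.h (T.h (T.h (P (nat_lit 0)) (T.h (M (nat_lit 55243990109075258998783)) (T.h (P (nat_lit 0)) (M (nat_lit 14927734452568063))))) (T.h (P (nat_lit 0)) (T.h (T.h (P (nat_lit 0)) (P (nat_lit 50713997475201024))) (P (nat_lit 0))))) (T.h (T.h (P (nat_lit 0)) (T.h (T.h (M (nat_lit 52476185640811102207)) (T.h (P (nat_lit 0)) (M (nat_lit 15575565458879)))) (T.h (P (nat_lit 0)) (M (nat_lit 5799475329087))))) (T.h (T.h (T.h (P (nat_lit 0)) (M (nat_lit 38599890059902975))) (P (nat_lit 0))) (T.h (T.h (P (nat_lit 0)) (M (nat_lit 4090358875119))) (P (nat_lit 0)))))))), (T.h (T.h (T.h (P (nat_lit 3852578356695596183940444979200)) (T.h (P (nat_lit 0)) (T.h (M (nat_lit 68119245703388338323455)) (T.h (P (nat_lit 0)) (T.h (P (nat_lit 13014007952888037376)) (T.h (P (nat_lit 0)) (P (nat_lit 11522568894288))))))))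 (T.h (P (nat_lit 0)) (T.h (T.h (M (nat_lit 5935639906427752025161727)) (T.h (P (nat_lit 0)) (T.h (M (nat_lit 59738642503480377343)) (T.h (P (nat_lit 0)) (M (nat_lit 6012992947343)))))) (T.h (P (nat_lit 0)) (T.h (T.h (P (nat_lit 13383435199287656448)) (T.h (P (nat_lit 0)) (P (nat_lit 36424728783648)))) (T.h (P (nat_lit 0)) (M (nat_lit 1810810972319)))))))) (T.h (T.h (P (nat_lit 0)) (T.h (T.h (P (nat_lit 0)) (T.h (M (nat_lit 203673967545825909276671)) (T.h (P (nat_lit 0)) (P (nat_lit 151554083722690560))))) (T.h (P (nat_lit 0)) (T.h (T.h (P (nat_lit 0)) (P (nat_lit 121310902146957312))) (P (nat_lit 0)))))) (T.h (T.h (T.h (M (nat_lit 68119245703388338323455)) (T.h (P (nat_lit 0)) (T.h (M (nat_lit 121566268291622633471)) (T.h (P (nat_lit 0)) (M (nat_lit 21237851869487)))))) (T.h (P (nat_lit 0)) (T.h (T.h (M (nat_lit 59738642503480377343)) (T.h (P (nat_lit 0)) (P (nat_lit 108200794206912)))) (T.h (P (nat_lit 0)) (P (nat_lit 36424728783648))))))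 (T.h (T.h (P (nat_lit 0)) (T.h (T.h (P (nat_lit 0)) (P (nat_lit 151554083722690560))) (P (nat_lit 0)))) (T.h (T.h (T.h (P (nat_lit 13014007952888037376)) (T.h (P (nat_lit 0)) (M (nat_lit 21237851869487)))) (T.h (P (nat_lit 0)) (M (nat_lit 6012992947343)))) (T.h (P (nat_lit 0)) (P (nat_lit 11522568894288))))))))]
def lP22_22 : List (T ℤ) := [(T.h (T.h (T.h (P (nat_lit 0)) (T.h (P (nat_lit 19284978835697312424798453760)) (T.h (P (nat_lit 0)) (T.h (M (nat_lit 43436487884965381406719)) (T.h (P (nat_lit 0)) (M (nat_lit 31055890964348927))))))) (T.h (P (nat_lit 0)) (T.h (T.h (P (nat_lit 0)) (T.h (M (nat_lit 24315669638195871481855)) (T.h (P (nat_lit 0)) (P (nat_lit 29766961685905408))))) (T.h (P (nat_lit 0)) (T.h (T.h (P (nat_lit 0)) (M (nat_lit 41178867712720895))) (P (nat_lit 0))))))) (T.h (T.h (P (nat_lit 0)) (T.h (T.h (P (nat_lit 4050339328459021291094016)) (T.h (P (nat_lit 0)) (P (nat_lit 10163341479825637376)))) (T.h (P (nat_lit 0)) (P (nat_lit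 67100756050798706688))))) (T.h (T.h (T.h (P (nat_lit 0)) (T.h (P (nat_lit 63097390979444799176704)) (T.h (P (nat_lit 0)) (P (nat_lit 21089469392453632))))) (T.h (P (nat_lit 0)) (T.h (T.h (P (nat_lit 0)) (M (nat_lit 43971931320598527))) (P (nat_lit 0))))) (T.h (T.h (P (nat_lit 0)) (P (nat_lit 20172489838517288960))) (T.h (T.h (T.h (P (nat_lit 0)) (P (nat_lit 13271321542623232))) (P (nat_lit 0))) (P (nat_lit 0))))))), (T.h (T.h (P (nat_lit 0)) (T.h (T.h (P (nat_lit 0)) (T.h (P (nat_lit 4215725895776875352948736)) (T.h (P (nat_lit 0)) (T.h (P (nat_lit 29294307247426371584)) (T.h (P (nat_lit 0)) (P (nat_lit 2467984298904))))))) (T.h (P (nat_lit 0)) (T.h (T.h (P (nat_lit 0)) (T.h (P (nat_lit 33868761651432390656)) (T.h (P (nat_lit 0)) (P (nat_lit 4797394601552))))) (T.h (P (nat_lit 0)) (T.h (T.h (P (nat_lit 0)) (P (nat_lit 966839890088))) (P (nat_lit 0)))))))) (T.h (T.h (T.h (M (nat_lit 8105240833316528014414053375)) (T.h (P (nat_lit 0)) (T.h (P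 (nat_lit 20407429106314850074624)) (T.h (P (nat_lit 0)) (P (nat_lit 18185428906213376)))))) (T.h (P (nat_lit 0)) (T.h (T.h (M (nat_lit 18612874587945052405759)) (T.h (P (nat_lit 0)) (M (nat_lit 21479489433075711)))) (T.h (P (nat_lit 0)) (P (nat_lit 23898006275555328)))))) (T.h (T.h (P (nat_lit 0)) (T.h (T.h (P (nat_lit 0)) (T.h (M (nat_lit 23926501528834146303)) (T.h (P (nat_lit 0)) (P (nat_lit 17916783817936))))) (T.h (P (nat_lit 0)) (T.h (T.h (P (nat_lit 0)) (M (nat_lit 19419484670495))) (P (nat_lit 0)))))) (T.h (T.h (T.h (P (nat_lit 6157605607908443160576)) (T.h (P (nat_lit 0)) (P (nat_lit 13934158588248064)))) (T.h (P (nat_lit 0)) (M (nat_lit 5484856430657535)))) (T.h (T.h (P (nat_lit 0)) (T.h (T.h (P (nat_lit 0)) (P (nat_lit 2892398064512))) (P (nat_lit 0)))) (M (nat_lit 14652418540830719))))))), (T.h (T.h (P (nat_lit 0)) (T.h (T.h (P (nat_lit 3912186387042781318489309184)) (T.h (P (nat_lit 0)) (T.h (M (nat_lit 16069614633279035539455))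 (T.h (P (nat_lit 0)) (P (nat_lit 32299067457896448)))))) (T.h (P (nat_lit 0)) (T.h (T.h (M (nat_lit 10032247509758490181631)) (T.h (P (nat_lit 0)) (P (nat_lit 19042531012182016)))) (T.h (P (nat_lit 0)) (P (nat_lit 12964061643177984))))))) (T.h (T.h (T.h (P (nat_lit 0)) (T.h (P (nat_lit 32151543346033375355863040)) (T.h (P (nat_lit 0)) (T.h (P (nat_lit 29559669016657657856)) (T.h (P (nat_lit 0)) (P (nat_lit 4818155716864))))))) (T.h (P (nat_lit 0)) (T.h (T.h (P (nat_lit 0)) (T.h (M (nat_lit 13649441188648845311)) (T.h (P (nat_lit 0)) (M (nat_lit 1321085431679))))) (T.h (P (nat_lit 0)) (T.h (T.h (P (nat_lit 0)) (M (nat_lit 24657609824063))) (P (nat_lit 0))))))) (T.h (T.h (P (nat_lit 0)) (T.h (T.h (M (nat_lit 16069614633279035539455)) (T.h (P (nat_lit 0)) (M (nat_lit 3866233468190719)))) (T.h (P (nat_lit 0)) (P (nat_lit 19042531012182016))))) (T.h (T.h (T.h (P (nat_lit 0)) (T.h (P (nat_lit 29559669016657657856)) (T.h (P (nat_lit 0)) (P (nat_lit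 2939123638080))))) (T.h (P (nat_lit 0)) (T.h (T.h (P (nat_lit 0)) (M (nat_lit 1321085431679))) (P (nat_lit 0))))) (T.h (T.h (P (nat_lit 0)) (P (nat_lit 32299067457896448))) (T.h (T.h (T.h (P (nat_lit 0)) (P (nat_lit 4818155716864))) (P (nat_lit 0))) (P (nat_lit 0)))))))), (T.h (T.h (P (nat_lit 0)) (T.h (T.h (P (nat_lit 0)) (T.h (P (nat_lit 32947179101559377763500032)) (T.h (P (nat_lit 0)) (T.h (M (nat_lit 105206036463739731967)) (T.h (P (nat_lit 0)) (P (nat_lit 19077735170736))))))) (T.h (P (nat_lit 0)) (T.h (T.h (P (nat_lit 0)) (T.h (P (nat_lit 85935666965384265728)) (T.h (P (nat_lit 0)) (M (nat_lit 4159805982047))))) (T.h (P (nat_lit 0)) (T.h (T.h (P (nat_lit 0)) (P (nat_lit 22982308377984))) (P (nat_lit 0)))))))) (T.h (T.h (T.h (M (nat_lit 18712955586031400322261319679)) (T.h (P (nat_lit 0)) (T.h (M (nat_lit 26900044473385223192575)) (T.h (P (nat_lit 0)) (P (nat_lit 11213796068098048)))))) (T.h (P (nat_lit 0)) (T.h (T.h (P (nat_lit 1151283405454542110720))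 (T.h (P (nat_lit 0)) (M (nat_lit 17460336618176511)))) (T.h (P (nat_lit 0)) (M (nat_lit 57106896165535743)))))) (T.h (T.h (P (nat_lit 0)) (T.h (T.h (P (nat_lit 0)) (T.h (M (nat_lit 186697517740337397759)) (T.h (P (nat_lit 0)) (M (nat_lit 31615551909935))))) (T.h (P (nat_lit 0)) (T.h (T.h (P (nat_lit 0)) (P (nat_lit 43540181590800))) (P (nat_lit 0)))))) (T.h (T.h (T.h (M (nat_lit 7320278441998256439295)) (T.h (P (nat_lit 0)) (P (nat_lit 19577890010169344)))) (T.h (P (nat_lit 0)) (P (nat_lit 38300562785894400)))) (T.h (T.h (P (nat_lit 0)) (T.h (T.h (P (nat_lit 0)) (M (nat_lit 24655972740623))) (P (nat_lit 0)))) (P (nat_lit 4689307882192896))))))), (T.h (T.h (P (nat_lit 0)) (T.h (T.h (P (nat_lit 15797738848590065120915226624)) (T.h (P (nat_lit 0)) (T.h (P (nat_lit 46375852572069899272192)) (T.h (P (nat_lit 0)) (M (nat_lit 20038559477202943)))))) (T.h (P (nat_lit 0)) (T.h (T.h (M (nat_lit 51239017811931062861823)) (T.h (P (nat_lit 0)) (M (nat_lit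 60333970356649983)))) (T.h (P (nat_lit 0)) (M (nat_lit 11980714981392383))))))) (T.h (T.h (T.h (P (nat_lit 0)) (T.h (M (nat_lit 7616020157620866621898751)) (T.h (P (nat_lit 0)) (M (nat_lit 32471566223092482047))))) (T.h (P (nat_lit 0)) (T.h (T.h (P (nat_lit 0)) (P (nat_lit 95475835916827754496))) (P (nat_lit 0))))) (T.h (T.h (P (nat_lit 0)) (T.h (T.h (P (nat_lit 46375852572069899272192)) (T.h (P (nat_lit 0)) (M (nat_lit 9116425200369663)))) (T.h (P (nat_lit 0)) (M (nat_lit 60333970356649983))))) (T.h (T.h (T.h (P (nat_lit 0)) (M (nat_lit 32471566223092482047))) (P (nat_lit 0))) (T.h (T.h (P (nat_lit 0)) (M (nat_lit 20038559477202943))) (P (nat_lit 0))))))), (T.h (T.h (T.h (P (nat_lit 0)) (T.h (M (nat_lit 2183137425904434638667907071)) (T.h (P (nat_lit 0)) (T.h (P (nat_lit 1146563286424017174528)) (T.h (P (nat_lit 0)) (P (nat_lit 2008321073004544))))))) (T.h (P (nat_lit 0)) (T.h (T.h (P (nat_lit 0)) (T.h (M (nat_lit 27481446203344965074943))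 (T.h (P (nat_lit 0)) (P (nat_lit 24685718477160448))))) (T.h (P (nat_lit 0)) (T.h (T.h (P (nat_lit 0)) (M (nat_lit 4103378252595199))) (P (nat_lit 0))))))) (T.h (T.h (P (nat_lit 0)) (T.h (T.h (P (nat_lit 11006440254763849941516288)) (T.h (P (nat_lit 0)) (T.h (P (nat_lit 17390635901448617984)) (T.h (P (nat_lit 0)) (M (nat_lit 170731117199)))))) (T.h (P (nat_lit 0)) (T.h (T.h (M (nat_lit 10212482558193565695)) (T.h (P (nat_lit 0)) (P (nat_lit 8038665908672)))) (T.h (P (nat_lit 0)) (P (nat_lit 11875290719936))))))) (T.h (T.h (T.h (P (nat_lit 0)) (T.h (P (nat_lit 1595751522983967981568)) (T.h (P (nat_lit 0)) (M (nat_lit 30936074729717759))))) (T.h (P (nat_lit 0)) (T.h (T.h (P (nat_lit 0)) (M (nat_lit 1654209649672191))) (P (nat_lit 0))))) (T.h (T.h (P (nat_lit 0)) (T.h (T.h (P (nat_lit 16119823565909393408)) (T.h (P (nat_lit 0)) (P (nat_lit 3403801104368)))) (T.h (P (nat_lit 0)) (M (nat_lit 267617463791))))) (T.h (T.h (T.h (P (nat_lit 0)) (M (nat_lit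 10387681152090111))) (P (nat_lit 0))) (T.h (T.h (P (nat_lit 0)) (M (nat_lit 476646617775))) (P (nat_lit 0)))))))), (T.h (T.h (T.h (M (nat_lit 810696587689923214839151329279)) (T.h (P (nat_lit 0)) (T.h (M (nat_lit 3407005411166908284141567)) (T.h (P (nat_lit 0)) (T.h (P (nat_lit 558531456423428096)) (T.h (P (nat_lit 0)) (M (nat_lit 4261242224735)))))))) (T.h (P (nat_lit 0)) (T.h (T.h (P (nat_lit 37753905792173428090863616)) (T.h (P (nat_lit 0)) (T.h (M (nat_lit 69781802947230826495)) (T.h (P (nat_lit 0)) (P (nat_lit 9878987290848)))))) (T.h (P (nat_lit 0)) (T.h (T.h (M (nat_lit 3032841192715845631)) (T.h (P (nat_lit 0)) (P (nat_lit 13392062460096)))) (T.h (P (nat_lit 0)) (P (nat_lit 6720453248160)))))))) (T.h (T.h (P (nat_lit 0)) (T.h (T.h (P (nat_lit 0)) (T.h (P (nat_lit 81885751788132947197952)) (T.h (P (nat_lit 0)) (P (nat_lit 62483176773517312))))) (T.h (P (nat_lit 0)) (T.h (T.h (P (nat_lit 0)) (M (nat_lit 59976003680468991))) (P (nat_lit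 0)))))) (T.h (T.h (T.h (M (nat_lit 3407005411166908284141567)) (T.h (P (nat_lit 0)) (T.h (P (nat_lit 96046158667346608128)) (T.h (P (nat_lit 0)) (M (nat_lit 6016117140431)))))) (T.h (P (nat_lit 0)) (T.h (T.h (M (nat_lit 69781802947230826495)) (T.h (P (nat_lit 0)) (P (nat_lit 30474460727712)))) (T.h (P (nat_lit 0)) (P (nat_lit 13392062460096)))))) (T.h (T.h (P (nat_lit 0)) (T.h (T.h (P (nat_lit 0)) (P (nat_lit 62483176773517312))) (P (nat_lit 0)))) (T.h (T.h (T.h (P (nat_lit 558531456423428096)) (T.h (P (nat_lit 0)) (M (nat_lit 6016117140431)))) (T.h (P (nat_lit 0)) (P (nat_lit 9878987290848)))) (T.h (P (nat_lit 0)) (M (nat_lit 4261242224735)))))))), (T.h (T.h (T.h (P (nat_lit 0)) (T.h (M (nat_lit 6386671301465759067479736319)) (T.h (P (nat_lit 0)) (T.h (M (nat_lit 10107081055646471159807)) (T.h (P (nat_lit 0)) (P (nat_lit 7087088204562432))))))) (T.h (P (nat_lit 0)) (T.h (T.h (P (nat_lit 0)) (T.h (M (nat_lit 3629609030778259243007)) (T.h (P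 (nat_lit 0)) (M (nat_lit 28599184970825727))))) (T.h (P (nat_lit 0)) (T.h (T.h (P (nat_lit 0)) (M (nat_lit 47595234489139199))) (P (nat_lit 0))))))) (T.h (T.h (P (nat_lit 0)) (T.h (T.h (M (nat_lit 2462136707552895366594559)) (T.h (P (nat_lit 0)) (M (nat_lit 54051844648559706111)))) (T.h (P (nat_lit 0)) (P (nat_lit 101505859052011257856))))) (T.h (T.h (T.h (P (nat_lit 0)) (T.h (P (nat_lit 12946455893637272174592)) (T.h (P (nat_lit 0)) (P (nat_lit 2680074285662208))))) (T.h (P (nat_lit 0)) (T.h (T.h (P (nat_lit 0)) (M (nat_lit 123501191418445823))) (P (nat_lit 0))))) (T.h (T.h (P (nat_lit 0)) (M (nat_lit 79920016934028967935))) (T.h (T.h (T.h (P (nat_lit 0)) (P (nat_lit 36882563329572864))) (P (nat_lit 0))) (P (nat_lit 0)))))))]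
def lP22_23 : List (T ℤ) := [(T.h (T.h (P (nat_lit 0)) (T.h (T.h (P (nat_lit 0)) (T.h (M (nat_lit 11660322374750600744140799)) (T.h (P (nat_lit 0)) (T.h (M (nat_lit 24783823898534739967)) (T.h (P (nat_lit 0)) (P (nat_lit 2531236715616))))))) (T.h (P (nat_lit 0)) (T.h (T.h (P (nat_lit 0)) (T.h (M (nat_lit 18520378691960176639)) (T.h (P (nat_lit 0)) (P (nat_lit 6938019607344))))) (T.h (P (nat_lit 0)) (T.h (T.h (P (nat_lit 0)) (M (nat_lit 170296125263))) (P (nat_lit 0)))))))) (T.h (T.h (T.h (P (nat_lit 6851398732185546236270477312)) (T.h (P (nat_lit 0)) (T.h (M (nat_lit 21425206370652458582015)) (T.h (P (nat_lit 0)) (M (nat_lit 12728265808248831)))))) (T.h (P (nat_lit 0)) (T.h (T.h (P (nat_lit 18348311073687137681408)) (T.h (P (nat_lit 0)) (P (nat_lit 10815406722252800)))) (T.h (P (nat_lit 0)) (M (nat_lit 17793055875203071)))))) (T.h (T.h (P (nat_lit 0)) (T.h (T.h (P (nat_lit 0)) (T.h (P (nat_lit 39841637126717308928)) (T.h (P (nat_lit 0)) (M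 (nat_lit 2136752720495))))) (T.h (P (nat_lit 0)) (T.h (T.h (P (nat_lit 0)) (P (nat_lit 14600707220976))) (P (nat_lit 0)))))) (T.h (T.h (T.h (M (nat_lit 4732893267667112165375)) (T.h (P (nat_lit 0)) (M (nat_lit 6016024335384575)))) (T.h (P (nat_lit 0)) (P (nat_lit 12497095545683968)))) (T.h (T.h (P (nat_lit 0)) (T.h (T.h (P (nat_lit 0)) (M (nat_lit 129643420655))) (P (nat_lit 0)))) (P (nat_lit 10744085451014144))))))), (T.h (T.h (P (nat_lit 0)) (T.h (T.h (M (nat_lit 10791888917891311952700899327)) (T.h (P (nat_lit 0)) (T.h (P (nat_lit 39314200272193718321152)) (T.h (P (nat_lit 0)) (M (nat_lit 11019781030952959)))))) (T.h (P (nat_lit 0)) (T.h (T.h (M (nat_lit 1626752472681682042879)) (T.h (P (nat_lit 0)) (M (nat_lit 30372869421531135)))) (T.h (P (nat_lit 0)) (M (nat_lit 13647232764051455))))))) (T.h (T.h (T.h (P (nat_lit 0)) (T.h (P (nat_lit 4552137591189246866096128)) (T.h (P (nat_lit 0)) (M (nat_lit 3540785065044738047))))) (T.h (P (nat_lit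 0)) (T.h (T.h (P (nat_lit 0)) (P (nat_lit 60886120603446149120))) (P (nat_lit 0))))) (T.h (T.h (P (nat_lit 0)) (T.h (T.h (P (nat_lit 39314200272193718321152)) (T.h (P (nat_lit 0)) (M (nat_lit 16427828951875583)))) (T.h (P (nat_lit 0)) (M (nat_lit 30372869421531135))))) (T.h (T.h (T.h (P (nat_lit 0)) (M (nat_lit 3540785065044738047))) (P (nat_lit 0))) (T.h (T.h (P (nat_lit 0)) (M (nat_lit 11019781030952959))) (P (nat_lit 0))))))), (T.h (T.h (T.h (P (nat_lit 0)) (T.h (P (nat_lit 3402341988066177641621749760)) (T.h (P (nat_lit 0)) (T.h (P (nat_lit 311281724839209992192)) (T.h (P (nat_lit 0)) (M (nat_lit 396931717021695))))))) (T.h (P (nat_lit 0)) (T.h (T.h (P (nat_lit 0)) (T.h (P (nat_lit 22557465762590185488384)) (T.h (P (nat_lit 0)) (M (nat_lit 6354815568904191))))) (T.h (P (nat_lit 0)) (T.h (T.h (P (nat_lit 0)) (M (nat_lit 723882441949183))) (P (nat_lit 0))))))) (T.h (T.h (P (nat_lit 0)) (T.h (T.h (M (nat_lit 17043484856467139858530303)) (T.h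 (P (nat_lit 0)) (M (nat_lit 11739852891748302847)))) (T.h (P (nat_lit 0)) (M (nat_lit 2896091241655566335))))) (T.h (T.h (T.h (P (nat_lit 0)) (T.h (M (nat_lit 19467932748244439793663)) (T.h (P (nat_lit 0)) (P (nat_lit 3918274737192960))))) (T.h (P (nat_lit 0)) (T.h (T.h (P (nat_lit 0)) (M (nat_lit 12701974667231231))) (P (nat_lit 0))))) (T.h (T.h (P (nat_lit 0)) (M (nat_lit 12429613524915847167))) (T.h (T.h (T.h (P (nat_lit 0)) (P (nat_lit 2379570363793408))) (P (nat_lit 0))) (P (nat_lit 0))))))), (P (nat_lit 0)), (P (nat_lit 0)), (T.h (T.h (T.h (P (nat_lit 1805383373760183139493006540800)) (T.h (P (nat_lit 0)) (T.h (P (nat_lit 4993890652620834673262592)) (T.h (P (nat_lit 0)) (T.h (M (nat_lit 3036770216718630911)) (T.h (P (nat_lit 0)) (P (nat_lit 4210600049808)))))))) (T.h (P (nat_lit 0)) (T.h (T.h (M (nat_lit 8540221157997732972986367)) (T.h (P (nat_lit 0)) (T.h (M (nat_lit 9640911419125792767)) (T.h (P (nat_lit 0)) (M (nat_lit 5354358773199))))))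 (T.h (P (nat_lit 0)) (T.h (T.h (M (nat_lit 1498452388879532031)) (T.h (P (nat_lit 0)) (P (nat_lit 1401575835328)))) (T.h (P (nat_lit 0)) (P (nat_lit 1859025209360)))))))) (T.h (T.h (P (nat_lit 0)) (T.h (T.h (P (nat_lit 0)) (T.h (M (nat_lit 37504206972847376039935)) (T.h (P (nat_lit 0)) (P (nat_lit 35299560465694720))))) (T.h (P (nat_lit 0)) (T.h (T.h (P (nat_lit 0)) (M (nat_lit 80088418702065663))) (P (nat_lit 0)))))) (T.h (T.h (T.h (P (nat_lit 3690084522777037567426560)) (T.h (P (nat_lit 0)) (T.h (P (nat_lit 44860331798839689216)) (T.h (P (nat_lit 0)) (M (nat_lit 3752530883695)))))) (T.h (P (nat_lit 0)) (T.h (T.h (M (nat_lit 11864997617031184383)) (T.h (P (nat_lit 0)) (M (nat_lit 439965457183)))) (T.h (P (nat_lit 0)) (P (nat_lit 4428051570736)))))) (T.h (T.h (P (nat_lit 0)) (T.h (T.h (P (nat_lit 0)) (P (nat_lit 33709756530884608))) (P (nat_lit 0)))) (T.h (T.h (T.h (P (nat_lit 88907012733140992)) (T.h (P (nat_lit 0)) (M (nat_lit 4319818502511))))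 (T.h (P (nat_lit 0)) (M (nat_lit 2895170656607)))) (T.h (P (nat_lit 0)) (M (nat_lit 249680986047)))))))), (T.h (T.h (T.h (P (nat_lit 0)) (T.h (M (nat_lit 10991474950359710380029116415)) (T.h (P (nat_lit 0)) (T.h (M (nat_lit 7201144172948878262271)) (T.h (P (nat_lit 0)) (M (nat_lit 12430244271980543))))))) (T.h (P (nat_lit 0)) (T.h (T.h (P (nat_lit 0)) (T.h (P (nat_lit 8567976820326266830848)) (T.h (P (nat_lit 0)) (P (nat_lit 34853522742837248))))) (T.h (P (nat_lit 0)) (T.h (T.h (P (nat_lit 0)) (P (nat_lit 1044368633987072))) (P (nat_lit 0))))))) (T.h (T.h (P (nat_lit 0)) (T.h (T.h (M (nat_lit 5312428250162915675471871)) (T.h (P (nat_lit 0)) (T.h (M (nat_lit 100038009156592992255)) (T.h (P (nat_lit 0)) (P (nat_lit 49091741274216)))))) (T.h (P (nat_lit 0)) (T.h (T.h (M (nat_lit 27310346575542222847)) (T.h (P (nat_lit 0)) (P (nat_lit 24519505450928)))) (T.h (P (nat_lit 0)) (M (nat_lit 10801532053095))))))) (T.h (T.h (T.h (P (nat_lit 0)) (T.h (P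 (nat_lit 41040909782363121123328)) (T.h (P (nat_lit 0)) (M (nat_lit 3003675793752063))))) (T.h (P (nat_lit 0)) (T.h (T.h (P (nat_lit 0)) (P (nat_lit 46568866846343168))) (P (nat_lit 0))))) (T.h (T.h (P (nat_lit 0)) (T.h (T.h (M (nat_lit 64622865852735160319)) (T.h (P (nat_lit 0)) (P (nat_lit 13630589192224)))) (T.h (P (nat_lit 0)) (M (nat_lit 15748739387719))))) (T.h (T.h (T.h (P (nat_lit 0)) (P (nat_lit 6521370142867456))) (P (nat_lit 0))) (T.h (T.h (P (nat_lit 0)) (P (nat_lit 18335573816552))) (P (nat_lit 0)))))))), (T.h (T.h (T.h (P (nat_lit 19064226207899751048592792485888)) (T.h (P (nat_lit 0)) (T.h (M (nat_lit 956063627718740743815167)) (T.h (P (nat_lit 0)) (T.h (P (nat_lit 32635542615147675648)) (T.h (P (nat_lit 0)) (M (nat_lit 10949885685759)))))))) (T.h (P (nat_lit 0)) (T.h (T.h (M (nat_lit 11644030652638183875936255)) (T.h (P (nat_lit 0)) (T.h (P (nat_lit 39616826707151945728)) (T.h (P (nat_lit 0)) (P (nat_lit 15547637653968))))))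 (T.h (P (nat_lit 0)) (T.h (T.h (M (nat_lit 17807494084525293567)) (T.h (P (nat_lit 0)) (M (nat_lit 7820104391791)))) (T.h (P (nat_lit 0)) (M (nat_lit 4271797037311)))))))) (T.h (T.h (P (nat_lit 0)) (T.h (T.h (P (nat_lit 0)) (T.h (M (nat_lit 22547245125260600672255)) (T.h (P (nat_lit 0)) (M (nat_lit 24607427139174399))))) (T.h (P (nat_lit 0)) (T.h (T.h (P (nat_lit 0)) (P (nat_lit 152650072288395264))) (P (nat_lit 0)))))) (T.h (T.h (T.h (M (nat_lit 956063627718740743815167)) (T.h (P (nat_lit 0)) (T.h (M (nat_lit 115627451710097588223)) (T.h (P (nat_lit 0)) (P (nat_lit 26733281499232)))))) (T.h (P (nat_lit 0)) (T.h (T.h (P (nat_lit 39616826707151945728)) (T.h (P (nat_lit 0)) (P (nat_lit 17097014017216)))) (T.h (P (nat_lit 0)) (M (nat_lit 7820104391791)))))) (T.h (T.h (P (nat_lit 0)) (T.h (T.h (P (nat_lit 0)) (M (nat_lit 24607427139174399))) (P (nat_lit 0)))) (T.h (T.h (T.h (P (nat_lit 32635542615147675648)) (T.h (P (nat_lit 0)) (P (nat_lit 26733281499232))))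 (T.h (P (nat_lit 0)) (P (nat_lit 15547637653968)))) (T.h (P (nat_lit 0)) (M (nat_lit 10949885685759))))))))]
def lP22_24 : List (T ℤ) := [(T.h (T.h (T.h (P (nat_lit 0)) (T.h (P (nat_lit 10446956404850253651366641664)) (T.h (P (nat_lit 0)) (T.h (P (nat_lit 5948840357676776947712)) (T.h (P (nat_lit 0)) (P (nat_lit 27191530666983424))))))) (T.h (P (nat_lit 0)) (T.h (T.h (P (nat_lit 0)) (T.h (P (nat_lit 5632626520543503319040)) (T.h (P (nat_lit 0)) (M (nat_lit 41113114978910207))))) (T.h (P (nat_lit 0)) (T.h (T.h (P (nat_lit 0)) (M (nat_lit 3596642381955071))) (P (nat_lit 0))))))) (T.h (T.h (P (nat_lit 0)) (T.h (T.h (M (nat_lit 7869069305196286270504959)) (T.h (P (nat_lit 0)) (T.h (P (nat_lit 34193569977645137920)) (T.h (P (nat_lit 0)) (M (nat_lit 27268021955855)))))) (T.h (P (nat_lit 0)) (T.h (T.h (M (nat_lit 8341849335830413311)) (T.h (P (nat_lit 0)) (P (nat_lit 12080660238624)))) (T.h (P (nat_lit 0)) (M (nat_lit 6807780704687))))))) (T.h (T.h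 (T.h (P (nat_lit 0)) (T.h (P (nat_lit 34779983382352404414464)) (T.h (P (nat_lit 0)) (M (nat_lit 26986221143490559))))) (T.h (P (nat_lit 0)) (T.h (T.h (P (nat_lit 0)) (P (nat_lit 2322207188910080))) (P (nat_lit 0))))) (T.h (T.h (P (nat_lit 0)) (T.h (T.h (P (nat_lit 42958432014432206848)) (T.h (P (nat_lit 0)) (P (nat_lit 43055705590704)))) (T.h (P (nat_lit 0)) (P (nat_lit 19006037555808))))) (T.h (T.h (T.h (P (nat_lit 0)) (P (nat_lit 10262252542590976))) (P (nat_lit 0))) (T.h (T.h (P (nat_lit 0)) (M (nat_lit 19286466418127))) (P (nat_lit 0)))))))), (T.h (T.h (T.h (P (nat_lit 155995632080566823416296898560)) (T.h (P (nat_lit 0)) (T.h (M (nat_lit 8996315308694133733851135)) (T.h (P (nat_lit 0)) (M (nat_lit 24572684326989201407)))))) (T.h (P (nat_lit 0)) (T.h (T.h (P (nat_lit 12422111740482366000332800)) (T.h (P (nat_lit 0)) (P (nat_lit 13207607049124315136)))) (T.h (P (nat_lit 0)) (P (nat_lit 10031253014880190464)))))) (T.h (T.h (P (nat_lit 0))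 (T.h (T.h (P (nat_lit 0)) (T.h (P (nat_lit 52185957645468458549248)) (T.h (P (nat_lit 0)) (P (nat_lit 15006674001788928))))) (T.h (P (nat_lit 0)) (T.h (T.h (P (nat_lit 0)) (P (nat_lit 6569147204567040))) (P (nat_lit 0)))))) (T.h (T.h (T.h (M (nat_lit 12445850496719112502247423)) (T.h (P (nat_lit 0)) (M (nat_lit 14491892079333998591)))) (T.h (P (nat_lit 0)) (P (nat_lit 5356113671795769344)))) (T.h (T.h (P (nat_lit 0)) (T.h (T.h (P (nat_lit 0)) (P (nat_lit 6473811213385728))) (P (nat_lit 0)))) (M (nat_lit 36735780757811757055)))))), (P (nat_lit 0)), (T.h (T.h (P (nat_lit 0)) (T.h (T.h (P (nat_lit 0)) (T.h (M (nat_lit 1351268652085930406969343)) (T.h (P (nat_lit 0)) (T.h (M (nat_lit 1456239894979411967)) (T.h (P (nat_lit 0)) (M (nat_lit 792617250143))))))) (T.h (P (nat_lit 0)) (T.h (T.h (P (nat_lit 0)) (T.h (M (nat_lit 1456239894979411967)) (T.h (P (nat_lit 0)) (P (nat_lit 3108367647936))))) (T.h (P (nat_lit 0)) (T.h (T.h (P (nat_lit 0)) (M (nat_lit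 792617250143))) (P (nat_lit 0)))))))) (T.h (T.h (T.h (M (nat_lit 12852879613821572345757695)) (T.h (P (nat_lit 0)) (T.h (M (nat_lit 285728088897521451007)) (T.h (P (nat_lit 0)) (M (nat_lit 9820380577136639)))))) (T.h (P (nat_lit 0)) (T.h (T.h (M (nat_lit 285728088897521451007)) (T.h (P (nat_lit 0)) (M (nat_lit 11595435753078783)))) (T.h (P (nat_lit 0)) (M (nat_lit 9820380577136639)))))) (T.h (T.h (P (nat_lit 0)) (T.h (T.h (P (nat_lit 0)) (T.h (M (nat_lit 9106968498537496575)) (T.h (P (nat_lit 0)) (P (nat_lit 5706106126624))))) (T.h (P (nat_lit 0)) (T.h (T.h (P (nat_lit 0)) (P (nat_lit 5706106126624))) (P (nat_lit 0)))))) (T.h (T.h (T.h (P (nat_lit 637446587506065670144)) (T.h (P (nat_lit 0)) (M (nat_lit 2387430420054015)))) (T.h (P (nat_lit 0)) (M (nat_lit 2387430420054015)))) (T.h (T.h (P (nat_lit 0)) (T.h (T.h (P (nat_lit 0)) (P (nat_lit 13499878995904))) (P (nat_lit 0)))) (M (nat_lit 659354132676607))))))), (T.h (T.h (P (nat_lit 0)) (T.h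 (T.h (P (nat_lit 24235143008211692284553461760)) (T.h (P (nat_lit 0)) (T.h (P (nat_lit 20536998137085764304896)) (T.h (P (nat_lit 0)) (M (nat_lit 47329797718999039)))))) (T.h (P (nat_lit 0)) (T.h (T.h (P (nat_lit 24589038477525376827392)) (T.h (P (nat_lit 0)) (P (nat_lit 31994126645788672)))) (T.h (P (nat_lit 0)) (P (nat_lit 16004352843579392))))))) (T.h (T.h (T.h (P (nat_lit 0)) (T.h (M (nat_lit 56771713058536599282778111)) (T.h (P (nat_lit 0)) (T.h (P (nat_lit 172945268571285487616)) (T.h (P (nat_lit 0)) (P (nat_lit 10802421927712))))))) (T.h (P (nat_lit 0)) (T.h (T.h (P (nat_lit 0)) (T.h (P (nat_lit 15333078366290968576)) (T.h (P (nat_lit 0)) (P (nat_lit 54419689511192))))) (T.h (P (nat_lit 0)) (T.h (T.h (P (nat_lit 0)) (M (nat_lit 9645570166751))) (P (nat_lit 0))))))) (T.h (T.h (P (nat_lit 0)) (T.h (T.h (P (nat_lit 40512455918296525438976)) (T.h (P (nat_lit 0)) (M (nat_lit 81938024685469695)))) (T.h (P (nat_lit 0)) (P (nat_lit 16253116248948736)))))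 (T.h (T.h (T.h (P (nat_lit 0)) (T.h (M (nat_lit 51176284679938506751)) (T.h (P (nat_lit 0)) (M (nat_lit 5736931511151))))) (T.h (P (nat_lit 0)) (T.h (T.h (P (nat_lit 0)) (M (nat_lit 51203545001799))) (P (nat_lit 0))))) (T.h (T.h (P (nat_lit 0)) (P (nat_lit 57511283962085376))) (T.h (T.h (T.h (P (nat_lit 0)) (M (nat_lit 24997287141663))) (P (nat_lit 0))) (P (nat_lit 0)))))))), (T.h (T.h (P (nat_lit 0)) (T.h (T.h (P (nat_lit 0)) (T.h (P (nat_lit 29011003010746047835144192)) (T.h (P (nat_lit 0)) (T.h (P (nat_lit 28536482058832183296)) (T.h (P (nat_lit 0)) (M (nat_lit 814461733343))))))) (T.h (P (nat_lit 0)) (T.h (T.h (P (nat_lit 0)) (T.h (P (nat_lit 9941448809114501120)) (T.h (P (nat_lit 0)) (M (nat_lit 5123879650623))))) (T.h (P (nat_lit 0)) (T.h (T.h (P (nat_lit 0)) (M (nat_lit 7335226687375))) (P (nat_lit 0)))))))) (T.h (T.h (T.h (M (nat_lit 6356930510662804732322512895)) (T.h (P (nat_lit 0)) (T.h (M (nat_lit 27822519022565684412415)) (T.h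 (P (nat_lit 0)) (P (nat_lit 96318372205527040)))))) (T.h (P (nat_lit 0)) (T.h (T.h (M (nat_lit 56883992127330444115967)) (T.h (P (nat_lit 0)) (P (nat_lit 80320698276560896)))) (T.h (P (nat_lit 0)) (P (nat_lit 39930242924576768)))))) (T.h (T.h (P (nat_lit 0)) (T.h (T.h (P (nat_lit 0)) (T.h (M (nat_lit 10909109724356018175)) (T.h (P (nat_lit 0)) (M (nat_lit 14321956310031))))) (T.h (P (nat_lit 0)) (T.h (T.h (P (nat_lit 0)) (M (nat_lit 14477294743407))) (P (nat_lit 0)))))) (T.h (T.h (T.h (M (nat_lit 29455829955663213101055)) (T.h (P (nat_lit 0)) (P (nat_lit 67942575710699520)))) (T.h (P (nat_lit 0)) (M (nat_lit 4198576772169727)))) (T.h (T.h (P (nat_lit 0)) (T.h (T.h (P (nat_lit 0)) (M (nat_lit 95994595996991))) (P (nat_lit 0)))) (P (nat_lit 1539792990879744))))))), (T.h (T.h (P (nat_lit 0)) (T.h (T.h (M (nat_lit 49112145973597842383032025087)) (T.h (P (nat_lit 0)) (T.h (M (nat_lit 23219092503050556801023)) (T.h (P (nat_lit 0)) (M (nat_lit 28758679336845311))))))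 (T.h (P (nat_lit 0)) (T.h (T.h (M (nat_lit 27442112133635418095615)) (T.h (P (nat_lit 0)) (P (nat_lit 92087784696938496)))) (T.h (P (nat_lit 0)) (M (nat_lit 25572251110408191))))))) (T.h (T.h (T.h (P (nat_lit 0)) (T.h (P (nat_lit 68439155011808523458707456)) (T.h (P (nat_lit 0)) (T.h (M (nat_lit 39293717701392859135)) (T.h (P (nat_lit 0)) (P (nat_lit 53881055124912))))))) (T.h (P (nat_lit 0)) (T.h (T.h (P (nat_lit 0)) (T.h (M (nat_lit 441860676704475807743)) (T.h (P (nat_lit 0)) (P (nat_lit 13538407353504))))) (T.h (P (nat_lit 0)) (T.h (T.h (P (nat_lit 0)) (P (nat_lit 2967595162752))) (P (nat_lit 0))))))) (T.h (T.h (P (nat_lit 0)) (T.h (T.h (M (nat_lit 23219092503050556801023)) (T.h (P (nat_lit 0)) (M (nat_lit 49469764230774783)))) (T.h (P (nat_lit 0)) (P (nat_lit 92087784696938496))))) (T.h (T.h (T.h (P (nat_lit 0)) (T.h (M (nat_lit 39293717701392859135)) (T.h (P (nat_lit 0)) (M (nat_lit 30388940296415))))) (T.h (P (nat_lit 0)) (T.h (T.h (P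 (nat_lit 0)) (P (nat_lit 13538407353504))) (P (nat_lit 0))))) (T.h (T.h (P (nat_lit 0)) (M (nat_lit 28758679336845311))) (T.h (T.h (T.h (P (nat_lit 0)) (P (nat_lit 53881055124912))) (P (nat_lit 0))) (P (nat_lit 0)))))))), (T.h (T.h (P (nat_lit 0)) (T.h (T.h (P (nat_lit 0)) (T.h (M (nat_lit 16468782563911620758601727)) (T.h (P (nat_lit 0)) (P (nat_lit 119321996343688298496))))) (T.h (P (nat_lit 0)) (T.h (T.h (P (nat_lit 0)) (M (nat_lit 75555578012258795519))) (P (nat_lit 0)))))) (T.h (T.h (T.h (P (nat_lit 10956586803148858223725903872)) (T.h (P (nat_lit 0)) (T.h (M (nat_lit 54890318594966418358271)) (T.h (P (nat_lit 0)) (M (nat_lit 109421556495253503)))))) (T.h (P (nat_lit 0)) (T.h (T.h (P (nat_lit 75342019195575308648448)) (T.h (P (nat_lit 0)) (M (nat_lit 83970361493749759)))) (T.h (P (nat_lit 0)) (P (nat_lit 36447271677280256)))))) (T.h (T.h (P (nat_lit 0)) (T.h (T.h (P (nat_lit 0)) (P (nat_lit 2690763552075022336))) (P (nat_lit 0)))) (T.h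 (T.h (T.h (M (nat_lit 23839250831241478406143)) (T.h (P (nat_lit 0)) (M (nat_lit 32325635166355455)))) (T.h (P (nat_lit 0)) (M (nat_lit 30341731390193663)))) (T.h (P (nat_lit 0)) (M (nat_lit 1226991766667263)))))))]
def lP22_25 : List (T ℤ) := [(T.h (T.h (T.h (P (nat_lit 1974437142523453654025568780288)) (T.h (P (nat_lit 0)) (T.h (M (nat_lit 9758004229517509839028223)) (T.h (P (nat_lit 0)) (T.h (P (nat_lit 1083103659241242624)) (T.h (P (nat_lit 0)) (M (nat_lit 1030947796895)))))))) (T.h (P (nat_lit 0)) (T.h (T.h (P (nat_lit 3776107581101057807220736)) (T.h (P (nat_lit 0)) (T.h (M (nat_lit 9060807759313764351)) (T.h (P (nat_lit 0)) (P (nat_lit 2064152749056)))))) (T.h (P (nat_lit 0)) (T.h (T.h (M (nat_lit 455214168597856255)) (T.h (P (nat_lit 0)) (M (nat_lit 4691781859471)))) (T.h (P (nat_lit 0)) (P (nat_lit 1320627043552)))))))) (T.h (T.h (P (nat_lit 0)) (T.h (T.h (P (nat_lit 0)) (T.h (M (nat_lit 35916735902168758878207)) (T.h (P (nat_lit 0))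 (M (nat_lit 83825974921003007))))) (T.h (P (nat_lit 0)) (T.h (T.h (P (nat_lit 0)) (P (nat_lit 31562004246757376))) (P (nat_lit 0)))))) (T.h (T.h (T.h (P (nat_lit 3776107581101057807220736)) (T.h (P (nat_lit 0)) (T.h (M (nat_lit 9060807759313764351)) (T.h (P (nat_lit 0)) (P (nat_lit 2064152749056)))))) (T.h (P (nat_lit 0)) (T.h (T.h (P (nat_lit 47664521656557109248)) (T.h (P (nat_lit 0)) (M (nat_lit 2560356751999)))) (T.h (P (nat_lit 0)) (M (nat_lit 6116429705375)))))) (T.h (T.h (P (nat_lit 0)) (T.h (T.h (P (nat_lit 0)) (P (nat_lit 31562004246757376))) (P (nat_lit 0)))) (T.h (T.h (T.h (M (nat_lit 455214168597856255)) (T.h (P (nat_lit 0)) (M (nat_lit 4691781859471)))) (T.h (P (nat_lit 0)) (M (nat_lit 6116429705375)))) (T.h (P (nat_lit 0)) (P (nat_lit 1320627043552)))))))), (T.h (T.h (T.h (P (nat_lit 0)) (T.h (P (nat_lit 26918048165403572223124439040)) (T.h (P (nat_lit 0)) (T.h (P (nat_lit 4895464466500676485120)) (T.h (P (nat_lit 0)) (P (nat_lit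 17840743948943360))))))) (T.h (P (nat_lit 0)) (T.h (T.h (P (nat_lit 0)) (T.h (P (nat_lit 28496200696362805755904)) (T.h (P (nat_lit 0)) (M (nat_lit 81377415842201599))))) (T.h (P (nat_lit 0)) (T.h (T.h (P (nat_lit 0)) (P (nat_lit 12009480081899520))) (P (nat_lit 0))))))) (T.h (T.h (P (nat_lit 0)) (T.h (T.h (M (nat_lit 37449501152291180928565247)) (T.h (P (nat_lit 0)) (T.h (P (nat_lit 445175461490267783168)) (T.h (P (nat_lit 0)) (P (nat_lit 14708186627616)))))) (T.h (P (nat_lit 0)) (T.h (T.h (M (nat_lit 11177727589361909759)) (T.h (P (nat_lit 0)) (M (nat_lit 8262703056647)))) (T.h (P (nat_lit 0)) (M (nat_lit 30834591738231))))))) (T.h (T.h (T.h (P (nat_lit 0)) (T.h (P (nat_lit 16323087304478341201920)) (T.h (P (nat_lit 0)) (M (nat_lit 97546026279731199))))) (T.h (P (nat_lit 0)) (T.h (T.h (P (nat_lit 0)) (P (nat_lit 78068288233275392))) (P (nat_lit 0))))) (T.h (T.h (P (nat_lit 0)) (T.h (T.h (M (nat_lit 62851128381101047807)) (T.h (P (nat_lit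 0)) (P (nat_lit 3442513213160)))) (T.h (P (nat_lit 0)) (P (nat_lit 32365155061376))))) (T.h (T.h (T.h (P (nat_lit 0)) (P (nat_lit 12906101759934464))) (P (nat_lit 0))) (T.h (T.h (P (nat_lit 0)) (M (nat_lit 37100201364519))) (P (nat_lit 0)))))))), (T.h (T.h (T.h (P (nat_lit 32842151014520371261632185106432)) (T.h (P (nat_lit 0)) (T.h (P (nat_lit 13903176738035598629011456)) (T.h (P (nat_lit 0)) (T.h (M (nat_lit 6201570032015638527)) (T.h (P (nat_lit 0)) (P (nat_lit 7076713795872)))))))) (T.h (P (nat_lit 0)) (T.h (T.h (P (nat_lit 22757292793518151329382400)) (T.h (P (nat_lit 0)) (T.h (P (nat_lit 2802209404877799424)) (T.h (P (nat_lit 0)) (M (nat_lit 30869414408671)))))) (T.h (P (nat_lit 0)) (T.h (T.h (P (nat_lit 31470075215991537664)) (T.h (P (nat_lit 0)) (M (nat_lit 12698873991999)))) (T.h (P (nat_lit 0)) (P (nat_lit 2757626181520)))))))) (T.h (T.h (P (nat_lit 0)) (T.h (T.h (P (nat_lit 0)) (T.h (M (nat_lit 41955429074095797436415)) (T.h (P (nat_lit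 0)) (P (nat_lit 215954254005600256))))) (T.h (P (nat_lit 0)) (T.h (T.h (P (nat_lit 0)) (P (nat_lit 143691431049625600))) (P (nat_lit 0)))))) (T.h (T.h (T.h (P (nat_lit 15737027707472489060761600)) (T.h (P (nat_lit 0)) (T.h (M (nat_lit 32169268143942795263)) (T.h (P (nat_lit 0)) (M (nat_lit 33311366173231)))))) (T.h (P (nat_lit 0)) (T.h (T.h (M (nat_lit 92305668578157264895)) (T.h (P (nat_lit 0)) (M (nat_lit 2373256451103)))) (T.h (P (nat_lit 0)) (M (nat_lit 20319245333855)))))) (T.h (T.h (P (nat_lit 0)) (T.h (T.h (P (nat_lit 0)) (P (nat_lit 110959577534005248))) (P (nat_lit 0)))) (T.h (T.h (T.h (P (nat_lit 6569821419650154496)) (T.h (P (nat_lit 0)) (M (nat_lit 28114164544143)))) (T.h (P (nat_lit 0)) (M (nat_lit 9308149357023)))) (T.h (P (nat_lit 0)) (P (nat_lit 4717712761776)))))))), (T.h (T.h (T.h (P (nat_lit 0)) (T.h (M (nat_lit 9689203274623073572085563391)) (T.h (P (nat_lit 0)) (T.h (M (nat_lit 32348561746592169721855)) (T.h (P (nat_lit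 0)) (M (nat_lit 39858813559865343))))))) (T.h (P (nat_lit 0)) (T.h (T.h (P (nat_lit 0)) (T.h (M (nat_lit 16804508218362144227327)) (T.h (P (nat_lit 0)) (P (nat_lit 57590447908585472))))) (T.h (P (nat_lit 0)) (T.h (T.h (P (nat_lit 0)) (P (nat_lit 44925341566992384))) (P (nat_lit 0))))))) (T.h (T.h (P (nat_lit 0)) (T.h (T.h (P (nat_lit 51831038186609871171878912)) (T.h (P (nat_lit 0)) (T.h (M (nat_lit 136708025797551587327)) (T.h (P (nat_lit 0)) (M (nat_lit 5355070843967)))))) (T.h (P (nat_lit 0)) (T.h (T.h (M (nat_lit 154149439252987903999)) (T.h (P (nat_lit 0)) (M (nat_lit 10837356023567)))) (T.h (P (nat_lit 0)) (P (nat_lit 16154079036432))))))) (T.h (T.h (T.h (P (nat_lit 0)) (T.h (M (nat_lit 3547409067596213911551)) (T.h (P (nat_lit 0)) (P (nat_lit 62475914865180672))))) (T.h (P (nat_lit 0)) (T.h (T.h (P (nat_lit 0)) (M (nat_lit 11918113887322111))) (P (nat_lit 0))))) (T.h (T.h (P (nat_lit 0)) (T.h (T.h (P (nat_lit 10127699961685475328)) (T.h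 (P (nat_lit 0)) (P (nat_lit 26798791662672)))) (T.h (P (nat_lit 0)) (M (nat_lit 27440113996175))))) (T.h (T.h (T.h (P (nat_lit 0)) (M (nat_lit 5312466369347583))) (P (nat_lit 0))) (T.h (T.h (P (nat_lit 0)) (P (nat_lit 36593309904384))) (P (nat_lit 0)))))))), (T.h (T.h (T.h (M (nat_lit 5931990003797919481264628301823)) (T.h (P (nat_lit 0)) (T.h (P (nat_lit 46060839676573636630675456)) (T.h (P (nat_lit 0)) (P (nat_lit 98711991422004756480)))))) (T.h (P (nat_lit 0)) (T.h (T.h (P (nat_lit 10278785894260241688690688)) (T.h (P (nat_lit 0)) (M (nat_lit 68805959505311432703)))) (T.h (P (nat_lit 0)) (P (nat_lit 73991600444213821440)))))) (T.h (T.h (P (nat_lit 0)) (T.h (T.h (P (nat_lit 0)) (T.h (P (nat_lit 92485655474440444575744)) (T.h (P (nat_lit 0)) (M (nat_lit 20225404469411839))))) (T.h (P (nat_lit 0)) (T.h (T.h (P (nat_lit 0)) (P (nat_lit 10744846828634112))) (P (nat_lit 0)))))) (T.h (T.h (T.h (P (nat_lit 46060839676573636630675456)) (T.h (P (nat_lit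 0)) (P (nat_lit 11509581080621481984)))) (T.h (P (nat_lit 0)) (M (nat_lit 68805959505311432703)))) (T.h (T.h (P (nat_lit 0)) (T.h (T.h (P (nat_lit 0)) (M (nat_lit 20225404469411839))) (P (nat_lit 0)))) (P (nat_lit 98711991422004756480)))))), (T.h (T.h (P (nat_lit 0)) (T.h (T.h (P (nat_lit 7410480982141196655933784064)) (T.h (P (nat_lit 0)) (T.h (M (nat_lit 11651508633687157637119)) (T.h (P (nat_lit 0)) (M (nat_lit 20178261076901887)))))) (T.h (P (nat_lit 0)) (T.h (T.h (M (nat_lit 11758016684598470115327)) (T.h (P (nat_lit 0)) (M (nat_lit 741143611080703)))) (T.h (P (nat_lit 0)) (M (nat_lit 7868204061982719))))))) (T.h (T.h (T.h (P (nat_lit 0)) (T.h (P (nat_lit 3641499163075808254230528)) (T.h (P (nat_lit 0)) (T.h (P (nat_lit 4857255339529076736)) (T.h (P (nat_lit 0)) (P (nat_lit 3619901669680))))))) (T.h (P (nat_lit 0)) (T.h (T.h (P (nat_lit 0)) (T.h (P (nat_lit 55498869461626126336)) (T.h (P (nat_lit 0)) (M (nat_lit 3302925781727))))) (T.h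 (P (nat_lit 0)) (T.h (T.h (P (nat_lit 0)) (P (nat_lit 295401305272))) (P (nat_lit 0))))))) (T.h (T.h (P (nat_lit 0)) (T.h (T.h (M (nat_lit 34692595357611779424255)) (T.h (P (nat_lit 0)) (M (nat_lit 39638468407689215)))) (T.h (P (nat_lit 0)) (P (nat_lit 28860658306154496))))) (T.h (T.h (T.h (P (nat_lit 0)) (T.h (M (nat_lit 16133808216185241599)) (T.h (P (nat_lit 0)) (M (nat_lit 11117983546151))))) (T.h (P (nat_lit 0)) (T.h (T.h (P (nat_lit 0)) (M (nat_lit 30116912663583))) (P (nat_lit 0))))) (T.h (T.h (P (nat_lit 0)) (P (nat_lit 4797928639463424))) (T.h (T.h (T.h (P (nat_lit 0)) (P (nat_lit 9053255530256))) (P (nat_lit 0))) (P (nat_lit 0)))))))), (T.h (T.h (P (nat_lit 0)) (T.h (T.h (P (nat_lit 0)) (T.h (M (nat_lit 3140540335287327520718847)) (T.h (P (nat_lit 0)) (T.h (M (nat_lit 19618220207543156735)) (T.h (P (nat_lit 0)) (M (nat_lit 12153382404239))))))) (T.h (P (nat_lit 0)) (T.h (T.h (P (nat_lit 0)) (T.h (M (nat_lit 1023186957825474559)) (T.h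 (P (nat_lit 0)) (M (nat_lit 8063003288703))))) (T.h (P (nat_lit 0)) (T.h (T.h (P (nat_lit 0)) (M (nat_lit 5632617450207))) (P (nat_lit 0)))))))) (T.h (T.h (T.h (M (nat_lit 10269116897705586050811822079)) (T.h (P (nat_lit 0)) (T.h (M (nat_lit 40814377494051408576511)) (T.h (P (nat_lit 0)) (P (nat_lit 7631175466680320)))))) (T.h (P (nat_lit 0)) (T.h (T.h (M (nat_lit 11752904389286648872959)) (T.h (P (nat_lit 0)) (P (nat_lit 84186931744751616)))) (T.h (P (nat_lit 0)) (P (nat_lit 64019304747630592)))))) (T.h (T.h (P (nat_lit 0)) (T.h (T.h (P (nat_lit 0)) (T.h (P (nat_lit 2740331464292827136)) (T.h (P (nat_lit 0)) (M (nat_lit 13156209311727))))) (T.h (P (nat_lit 0)) (T.h (T.h (P (nat_lit 0)) (M (nat_lit 13000870878351))) (P (nat_lit 0)))))) (T.h (T.h (T.h (M (nat_lit 19423582445904722919423)) (T.h (P (nat_lit 0)) (M (nat_lit 23241107784351743)))) (T.h (P (nat_lit 0)) (P (nat_lit 48900044698517504)))) (T.h (T.h (P (nat_lit 0)) (T.h (T.h (P (nat_lit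 0)) (M (nat_lit 71336986172927))) (P (nat_lit 0)))) (M (nat_lit 11424268652298239))))))), (T.h (T.h (P (nat_lit 0)) (T.h (T.h (P (nat_lit 20709987112943368488685142016)) (T.h (P (nat_lit 0)) (T.h (M (nat_lit 7228361037930880303103)) (T.h (P (nat_lit 0)) (P (nat_lit 34660009035595776)))))) (T.h (P (nat_lit 0)) (T.h (T.h (M (nat_lit 12226728054955008065535)) (T.h (P (nat_lit 0)) (M (nat_lit 10033979821588479)))) (T.h (P (nat_lit 0)) (M (nat_lit 9597254567264255))))))) (T.h (T.h (T.h (P (nat_lit 0)) (T.h (P (nat_lit 16339062276360725476671488)) (T.h (P (nat_lit 0)) (T.h (M (nat_lit 55784618800661397503)) (T.h (P (nat_lit 0)) (P (nat_lit 1789989950208))))))) (T.h (P (nat_lit 0)) (T.h (T.h (P (nat_lit 0)) (T.h (P (nat_lit 118455133166586822656)) (T.h (P (nat_lit 0)) (M (nat_lit 18355167600767))))) (T.h (P (nat_lit 0)) (T.h (T.h (P (nat_lit 0)) (M (nat_lit 32978638747343))) (P (nat_lit 0))))))) (T.h (T.h (P (nat_lit 0)) (T.h (T.h (P (nat_lit 7565867690142954684416))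 (T.h (P (nat_lit 0)) (P (nat_lit 20091313725276160)))) (T.h (P (nat_lit 0)) (P (nat_lit 3803225997541376))))) (T.h (T.h (T.h (P (nat_lit 0)) (T.h (M (nat_lit 28920054586210779135)) (T.h (P (nat_lit 0)) (M (nat_lit 1210979681807))))) (T.h (P (nat_lit 0)) (T.h (T.h (P (nat_lit 0)) (P (nat_lit 19164418213728))) (P (nat_lit 0))))) (T.h (T.h (P (nat_lit 0)) (P (nat_lit 16577124738301952))) (T.h (T.h (T.h (P (nat_lit 0)) (M (nat_lit 14744667710495))) (P (nat_lit 0))) (P (nat_lit 0))))))))]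
def lP22_26 : List (T ℤ) := [(T.h (T.h (P (nat_lit 0)) (T.h (T.h (P (nat_lit 0)) (T.h (P (nat_lit 4050339328459021291094016)) (T.h (P (nat_lit 0)) (P (nat_lit 20172489838517288960))))) (T.h (P (nat_lit 0)) (T.h (T.h (P (nat_lit 0)) (P (nat_lit 67100756050798706688))) (P (nat_lit 0)))))) (T.h (T.h (T.h (P (nat_lit 19284978835697312424798453760)) (T.h (P (nat_lit 0)) (T.h (P (nat_lit 63097390979444799176704)) (T.h (P (nat_lit 0)) (P (nat_lit 13271321542623232)))))) (T.h (P (nat_lit 0)) (T.h (T.h (M (nat_lit 24315669638195871481855)) (T.h (P (nat_lit 0)) (M (nat_lit 43971931320598527)))) (T.h (P (nat_lit 0)) (M (nat_lit 41178867712720895)))))) (T.h (T.h (P (nat_lit 0)) (T.h (T.h (P (nat_lit 0)) (P (nat_lit 10163341479825637376))) (P (nat_lit 0)))) (T.h (T.h (T.h (M (nat_lit 43436487884965381406719)) (T.h (P (nat_lit 0)) (P (nat_lit 21089469392453632)))) (T.h (P (nat_lit 0)) (P (nat_lit 29766961685905408)))) (T.h (P (nat_lit 0)) (M (nat_lit 31055890964348927))))))),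 (T.h (T.h (T.h (P (nat_lit 9532113103949875524296396242944)) (T.h (P (nat_lit 0)) (T.h (M (nat_lit 5822015326319091937968127)) (T.h (P (nat_lit 0)) (T.h (M (nat_lit 8903747042262646783)) (T.h (P (nat_lit 0)) (M (nat_lit 2135898518655)))))))) (T.h (P (nat_lit 0)) (T.h (T.h (M (nat_lit 3988164356882201506217983)) (T.h (P (nat_lit 0)) (T.h (P (nat_lit 2322674579165675520)) (T.h (P (nat_lit 0)) (M (nat_lit 5131028078175)))))) (T.h (P (nat_lit 0)) (T.h (T.h (P (nat_lit 3867644409403146240)) (T.h (P (nat_lit 0)) (P (nat_lit 66173550912)))) (T.h (P (nat_lit 0)) (M (nat_lit 4494899552751)))))))) (T.h (T.h (P (nat_lit 0)) (T.h (T.h (P (nat_lit 0)) (T.h (M (nat_lit 11273622562630300336127)) (T.h (P (nat_lit 0)) (P (nat_lit 76325036144197632))))) (T.h (P (nat_lit 0)) (T.h (T.h (P (nat_lit 0)) (M (nat_lit 28669640327397375))) (P (nat_lit 0)))))) (T.h (T.h (T.h (P (nat_lit 3032100729163460762402816)) (T.h (P (nat_lit 0)) (T.h (P (nat_lit 37294152127986270208))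 (T.h (P (nat_lit 0)) (M (nat_lit 2689076313615)))))) (T.h (P (nat_lit 0)) (T.h (T.h (M (nat_lit 57813725855048794111)) (T.h (P (nat_lit 0)) (P (nat_lit 8548507008608)))) (T.h (P (nat_lit 0)) (P (nat_lit 18872188738032)))))) (T.h (T.h (P (nat_lit 0)) (T.h (T.h (P (nat_lit 0)) (P (nat_lit 4062213188222976))) (P (nat_lit 0)))) (T.h (T.h (T.h (P (nat_lit 28767898205744529408)) (T.h (P (nat_lit 0)) (P (nat_lit 15481464103056)))) (T.h (P (nat_lit 0)) (P (nat_lit 7861092761200)))) (T.h (P (nat_lit 0)) (M (nat_lit 6454986133007)))))))), (T.h (T.h (T.h (P (nat_lit 0)) (T.h (M (nat_lit 24556072986798921191516012543)) (T.h (P (nat_lit 0)) (T.h (M (nat_lit 13721056066817709047807)) (T.h (P (nat_lit 0)) (M (nat_lit 12786125555204095))))))) (T.h (P (nat_lit 0)) (T.h (T.h (P (nat_lit 0)) (T.h (M (nat_lit 4980996676142313242623)) (T.h (P (nat_lit 0)) (P (nat_lit 48486625826766848))))) (T.h (P (nat_lit 0)) (T.h (T.h (P (nat_lit 0)) (M (nat_lit 39498243636592639)))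 (P (nat_lit 0))))))) (T.h (T.h (P (nat_lit 0)) (T.h (T.h (P (nat_lit 34219577505904261729353728)) (T.h (P (nat_lit 0)) (T.h (M (nat_lit 220930338352237903871)) (T.h (P (nat_lit 0)) (P (nat_lit 1483797581376)))))) (T.h (P (nat_lit 0)) (T.h (T.h (P (nat_lit 62491710756640260096)) (T.h (P (nat_lit 0)) (P (nat_lit 25587277519872)))) (T.h (P (nat_lit 0)) (P (nat_lit 37160142996432))))))) (T.h (T.h (T.h (P (nat_lit 0)) (T.h (M (nat_lit 18238095826908243558399)) (T.h (P (nat_lit 0)) (P (nat_lit 43601158870171648))))) (T.h (P (nat_lit 0)) (T.h (T.h (P (nat_lit 0)) (M (nat_lit 24734882115387391))) (P (nat_lit 0))))) (T.h (T.h (P (nat_lit 0)) (T.h (T.h (M (nat_lit 101785428458033119231)) (T.h (P (nat_lit 0)) (M (nat_lit 12048870166367)))) (T.h (P (nat_lit 0)) (M (nat_lit 15194470148207))))) (T.h (T.h (T.h (P (nat_lit 0)) (P (nat_lit 10739564299747328))) (P (nat_lit 0))) (T.h (T.h (P (nat_lit 0)) (P (nat_lit 16720912128480))) (P (nat_lit 0)))))))), (T.h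 (T.h (T.h (M (nat_lit 1399428463606298028927860342783)) (T.h (P (nat_lit 0)) (T.h (P (nat_lit 8469030029506513356193792)) (T.h (P (nat_lit 0)) (P (nat_lit 40576413420092391424)))))) (T.h (P (nat_lit 0)) (T.h (T.h (P (nat_lit 31188799190091483995701248)) (T.h (P (nat_lit 0)) (P (nat_lit 9061273345915355136)))) (T.h (P (nat_lit 0)) (P (nat_lit 45419159932343681024)))))) (T.h (T.h (P (nat_lit 0)) (T.h (T.h (P (nat_lit 0)) (T.h (P (nat_lit 72906489133737697083392)) (T.h (P (nat_lit 0)) (P (nat_lit 32087466221535232))))) (T.h (P (nat_lit 0)) (T.h (T.h (P (nat_lit 0)) (M (nat_lit 2164177316511743))) (P (nat_lit 0)))))) (T.h (T.h (T.h (M (nat_lit 4593254592221910946283519)) (T.h (P (nat_lit 0)) (M (nat_lit 71254267240017559551)))) (T.h (P (nat_lit 0)) (P (nat_lit 3705987022863728640)))) (T.h (T.h (P (nat_lit 0)) (T.h (T.h (P (nat_lit 0)) (P (nat_lit 28806073981534208))) (P (nat_lit 0)))) (P (nat_lit 20698768954552745984)))))), (T.h (T.h (P (nat_lit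 0)) (T.h (T.h (P (nat_lit 4603839004082732782111948800)) (T.h (P (nat_lit 0)) (T.h (P (nat_lit 14294575167020482953216)) (T.h (P (nat_lit 0)) (M (nat_lit 4070874150305791)))))) (T.h (P (nat_lit 0)) (T.h (T.h (M (nat_lit 451937267142675660799)) (T.h (P (nat_lit 0)) (M (nat_lit 17089846118907903)))) (T.h (P (nat_lit 0)) (P (nat_lit 9716097229586432))))))) (T.h (T.h (T.h (P (nat_lit 0)) (T.h (M (nat_lit 6596670900851402304651263)) (T.h (P (nat_lit 0)) (T.h (M (nat_lit 4921241330123800575)) (T.h (P (nat_lit 0)) (M (nat_lit 9164603746943))))))) (T.h (P (nat_lit 0)) (T.h (T.h (P (nat_lit 0)) (T.h (M (nat_lit 39250634255368191)) (T.h (P (nat_lit 0)) (P (nat_lit 31647341982192))))) (T.h (P (nat_lit 0)) (T.h (T.h (P (nat_lit 0)) (M (nat_lit 1128251633855))) (P (nat_lit 0))))))) (T.h (T.h (P (nat_lit 0)) (T.h (T.h (P (nat_lit 28647703300755549061120)) (T.h (P (nat_lit 0)) (M (nat_lit 4952338308300799)))) (T.h (P (nat_lit 0)) (M (nat_lit 16800158102618111)))))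 (T.h (T.h (T.h (P (nat_lit 0)) (T.h (P (nat_lit 19514475805688201216)) (T.h (P (nat_lit 0)) (P (nat_lit 7971373389648))))) (T.h (P (nat_lit 0)) (T.h (T.h (P (nat_lit 0)) (P (nat_lit 25102801519776))) (P (nat_lit 0))))) (T.h (T.h (P (nat_lit 0)) (P (nat_lit 27870905071534080))) (T.h (T.h (T.h (P (nat_lit 0)) (M (nat_lit 5108631799679))) (P (nat_lit 0))) (P (nat_lit 0)))))))), (T.h (T.h (P (nat_lit 0)) (T.h (T.h (P (nat_lit 0)) (T.h (M (nat_lit 12660772485101187447652351)) (T.h (P (nat_lit 0)) (M (nat_lit 35855661794571845631))))) (T.h (P (nat_lit 0)) (T.h (T.h (P (nat_lit 0)) (P (nat_lit 112093646349093830656))) (P (nat_lit 0)))))) (T.h (T.h (T.h (P (nat_lit 3057717378853825663268290560)) (T.h (P (nat_lit 0)) (T.h (P (nat_lit 8447562600720023683072)) (T.h (P (nat_lit 0)) (P (nat_lit 19241456788209664)))))) (T.h (P (nat_lit 0)) (T.h (T.h (M (nat_lit 34371714572181032665087)) (T.h (P (nat_lit 0)) (M (nat_lit 79412148893564927)))) (T.h (P (nat_lit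 0)) (M (nat_lit 72177182128979967)))))) (T.h (T.h (P (nat_lit 0)) (T.h (T.h (P (nat_lit 0)) (M (nat_lit 45047154406338854911))) (P (nat_lit 0)))) (T.h (T.h (T.h (P (nat_lit 1780258074724053024768)) (T.h (P (nat_lit 0)) (P (nat_lit 4163999934857216)))) (T.h (P (nat_lit 0)) (M (nat_lit 6497396134756351)))) (T.h (P (nat_lit 0)) (P (nat_lit 4763365724028928))))))), (T.h (T.h (T.h (M (nat_lit 1410570906212094888288156909567)) (T.h (P (nat_lit 0)) (T.h (P (nat_lit 9092474658105973488484352)) (T.h (P (nat_lit 0)) (P (nat_lit 6450639816894709760)))))) (T.h (P (nat_lit 0)) (T.h (T.h (P (nat_lit 736332230657898056777728)) (T.h (P (nat_lit 0)) (P (nat_lit 9901124243519700992)))) (T.h (P (nat_lit 0)) (M (nat_lit 8275653059435036671)))))) (T.h (T.h (P (nat_lit 0)) (T.h (T.h (P (nat_lit 0)) (T.h (P (nat_lit 25522296248950983753728)) (T.h (P (nat_lit 0)) (M (nat_lit 20145895602651135))))) (T.h (P (nat_lit 0)) (T.h (T.h (P (nat_lit 0)) (M (nat_lit 8426976565428223)))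 (P (nat_lit 0)))))) (T.h (T.h (T.h (M (nat_lit 2713202957367080711618559)) (T.h (P (nat_lit 0)) (P (nat_lit 2049630866191155200)))) (T.h (P (nat_lit 0)) (M (nat_lit 12443088561886986239)))) (T.h (T.h (P (nat_lit 0)) (T.h (T.h (P (nat_lit 0)) (M (nat_lit 16959839353831423))) (P (nat_lit 0)))) (M (nat_lit 20438749490257592319)))))), (P (nat_lit 0))]
def lP22_27 : List (T ℤ) := [(T.h (T.h (P (nat_lit 0)) (T.h (T.h (P (nat_lit 532858792078950653260464128)) (T.h (P (nat_lit 0)) (T.h (P (nat_lit 3321691345876869447680)) (T.h (P (nat_lit 0)) (P (nat_lit 2725830294568960)))))) (T.h (P (nat_lit 0)) (T.h (T.h (M (nat_lit 3075121913902334476287)) (T.h (P (nat_lit 0)) (P (nat_lit 15163554349252608)))) (T.h (P (nat_lit 0)) (M (nat_lit 1221575086440447))))))) (T.h (T.h (T.h (P (nat_lit 0)) (T.h (P (nat_lit 8717922922079423085674496)) (T.h (P (nat_lit 0)) (T.h (M (nat_lit 193192647643365375)) (T.h (P (nat_lit 0)) (M (nat_lit 424261102751))))))) (T.h (P (nat_lit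 0)) (T.h (T.h (P (nat_lit 0)) (T.h (P (nat_lit 10942545611232116736)) (T.h (P (nat_lit 0)) (M (nat_lit 172863613551))))) (T.h (P (nat_lit 0)) (T.h (T.h (P (nat_lit 0)) (P (nat_lit 3166704741056))) (P (nat_lit 0))))))) (T.h (T.h (P (nat_lit 0)) (T.h (T.h (M (nat_lit 4144768062586427015167)) (T.h (P (nat_lit 0)) (P (nat_lit 15787150469627904)))) (T.h (P (nat_lit 0)) (M (nat_lit 14061861106614271))))) (T.h (T.h (T.h (P (nat_lit 0)) (T.h (P (nat_lit 6521691154386255872)) (T.h (P (nat_lit 0)) (P (nat_lit 3373397582576))))) (T.h (P (nat_lit 0)) (T.h (T.h (P (nat_lit 0)) (M (nat_lit 9748205673263))) (P (nat_lit 0))))) (T.h (T.h (P (nat_lit 0)) (P (nat_lit 10195113124757504))) (T.h (T.h (T.h (P (nat_lit 0)) (M (nat_lit 5165935566879))) (P (nat_lit 0))) (P (nat_lit 0)))))))), (T.h (T.h (P (nat_lit 0)) (T.h (T.h (P (nat_lit 0)) (T.h (P (nat_lit 6403901020158053750669312)) (T.h (P (nat_lit 0)) (T.h (M (nat_lit 8240740358858735615)) (T.h (P (nat_lit 0))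 (M (nat_lit 169352831255))))))) (T.h (P (nat_lit 0)) (T.h (T.h (P (nat_lit 0)) (T.h (P (nat_lit 19507689566234476544)) (T.h (P (nat_lit 0)) (M (nat_lit 7938952499351))))) (T.h (P (nat_lit 0)) (T.h (T.h (P (nat_lit 0)) (P (nat_lit 13305965072760))) (P (nat_lit 0)))))))) (T.h (T.h (T.h (M (nat_lit 9908021319837027329787297791)) (T.h (P (nat_lit 0)) (T.h (M (nat_lit 15457232324273507401727)) (T.h (P (nat_lit 0)) (M (nat_lit 53149254943571967)))))) (T.h (P (nat_lit 0)) (T.h (T.h (M (nat_lit 13942455474211149316095)) (T.h (P (nat_lit 0)) (P (nat_lit 54662532518019072)))) (T.h (P (nat_lit 0)) (P (nat_lit 37197869960069120)))))) (T.h (T.h (P (nat_lit 0)) (T.h (T.h (P (nat_lit 0)) (T.h (M (nat_lit 39976436551934541823)) (T.h (P (nat_lit 0)) (M (nat_lit 24591960685415))))) (T.h (P (nat_lit 0)) (T.h (T.h (P (nat_lit 0)) (M (nat_lit 59881358043223))) (P (nat_lit 0)))))) (T.h (T.h (T.h (P (nat_lit 21446166577966298955776)) (T.h (P (nat_lit 0)) (P (nat_lit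 11719727643590656)))) (T.h (P (nat_lit 0)) (P (nat_lit 52779697729929216)))) (T.h (T.h (P (nat_lit 0)) (T.h (T.h (P (nat_lit 0)) (P (nat_lit 4933331930408))) (P (nat_lit 0)))) (M (nat_lit 18898354271649791))))))), (T.h (T.h (P (nat_lit 0)) (T.h (T.h (P (nat_lit 15094032400325960924739403776)) (T.h (P (nat_lit 0)) (T.h (M (nat_lit 12833861092039882440703)) (T.h (P (nat_lit 0)) (M (nat_lit 56618746678673407)))))) (T.h (P (nat_lit 0)) (T.h (T.h (P (nat_lit 38869535379741193797632)) (T.h (P (nat_lit 0)) (M (nat_lit 22622701397934079)))) (T.h (P (nat_lit 0)) (P (nat_lit 4847364983635968))))))) (T.h (T.h (T.h (P (nat_lit 0)) (T.h (M (nat_lit 15195826472069480063172607)) (T.h (P (nat_lit 0)) (T.h (M (nat_lit 16738141867358552063)) (T.h (P (nat_lit 0)) (P (nat_lit 7586376911344))))))) (T.h (P (nat_lit 0)) (T.h (T.h (P (nat_lit 0)) (T.h (P (nat_lit 22111159804581904384)) (T.h (P (nat_lit 0)) (P (nat_lit 984444957216))))) (T.h (P (nat_lit 0)) (T.h (T.h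 (P (nat_lit 0)) (M (nat_lit 14340866784943))) (P (nat_lit 0))))))) (T.h (T.h (P (nat_lit 0)) (T.h (T.h (M (nat_lit 41911058818368815497215)) (T.h (P (nat_lit 0)) (M (nat_lit 35127143919222783)))) (T.h (P (nat_lit 0)) (P (nat_lit 32999091808944128))))) (T.h (T.h (T.h (P (nat_lit 0)) (T.h (M (nat_lit 43070447991461511167)) (T.h (P (nat_lit 0)) (P (nat_lit 1995910495824))))) (T.h (P (nat_lit 0)) (T.h (T.h (P (nat_lit 0)) (P (nat_lit 5619309761520))) (P (nat_lit 0))))) (T.h (T.h (P (nat_lit 0)) (M (nat_lit 50334443779178495))) (T.h (T.h (T.h (P (nat_lit 0)) (P (nat_lit 19938314249056))) (P (nat_lit 0))) (P (nat_lit 0)))))))), (T.h (T.h (P (nat_lit 0)) (T.h (T.h (P (nat_lit 0)) (T.h (M (nat_lit 7869069305196286270504959)) (T.h (P (nat_lit 0)) (T.h (P (nat_lit 42958432014432206848)) (T.h (P (nat_lit 0)) (M (nat_lit 19286466418127))))))) (T.h (P (nat_lit 0)) (T.h (T.h (P (nat_lit 0)) (T.h (M (nat_lit 8341849335830413311)) (T.h (P (nat_lit 0)) (P (nat_lit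 19006037555808))))) (T.h (P (nat_lit 0)) (T.h (T.h (P (nat_lit 0)) (M (nat_lit 6807780704687))) (P (nat_lit 0)))))))) (T.h (T.h (T.h (P (nat_lit 10446956404850253651366641664)) (T.h (P (nat_lit 0)) (T.h (P (nat_lit 34779983382352404414464)) (T.h (P (nat_lit 0)) (P (nat_lit 10262252542590976)))))) (T.h (P (nat_lit 0)) (T.h (T.h (P (nat_lit 5632626520543503319040)) (T.h (P (nat_lit 0)) (P (nat_lit 2322207188910080)))) (T.h (P (nat_lit 0)) (M (nat_lit 3596642381955071)))))) (T.h (T.h (P (nat_lit 0)) (T.h (T.h (P (nat_lit 0)) (T.h (P (nat_lit 34193569977645137920)) (T.h (P (nat_lit 0)) (P (nat_lit 43055705590704))))) (T.h (P (nat_lit 0)) (T.h (T.h (P (nat_lit 0)) (P (nat_lit 12080660238624))) (P (nat_lit 0)))))) (T.h (T.h (T.h (P (nat_lit 5948840357676776947712)) (T.h (P (nat_lit 0)) (M (nat_lit 26986221143490559)))) (T.h (P (nat_lit 0)) (M (nat_lit 41113114978910207)))) (T.h (T.h (P (nat_lit 0)) (T.h (T.h (P (nat_lit 0)) (M (nat_lit 27268021955855)))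 (P (nat_lit 0)))) (P (nat_lit 27191530666983424))))))), (T.h (T.h (P (nat_lit 0)) (T.h (T.h (M (nat_lit 18888777360639169461496053759)) (T.h (P (nat_lit 0)) (T.h (P (nat_lit 35240998834320021913600)) (T.h (P (nat_lit 0)) (P (nat_lit 42223054181203968)))))) (T.h (P (nat_lit 0)) (T.h (T.h (M (nat_lit 23774678260741048369151)) (T.h (P (nat_lit 0)) (M (nat_lit 23585714485264383)))) (T.h (P (nat_lit 0)) (P (nat_lit 4647444961067008))))))) (T.h (T.h (T.h (P (nat_lit 0)) (T.h (P (nat_lit 20397271555096584162115584)) (T.h (P (nat_lit 0)) (M (nat_lit 54652142436539695103))))) (T.h (P (nat_lit 0)) (T.h (T.h (P (nat_lit 0)) (M (nat_lit 18009380484441702399))) (P (nat_lit 0))))) (T.h (T.h (P (nat_lit 0)) (T.h (T.h (P (nat_lit 35240998834320021913600)) (T.h (P (nat_lit 0)) (M (nat_lit 88178085049761791)))) (T.h (P (nat_lit 0)) (M (nat_lit 23585714485264383))))) (T.h (T.h (T.h (P (nat_lit 0)) (M (nat_lit 54652142436539695103))) (P (nat_lit 0))) (T.h (T.h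 (P (nat_lit 0)) (P (nat_lit 42223054181203968))) (P (nat_lit 0))))))), (T.h (T.h (T.h (P (nat_lit 0)) (T.h (P (nat_lit 532858792078950653260464128)) (T.h (P (nat_lit 0)) (T.h (M (nat_lit 3075121913902334476287)) (T.h (P (nat_lit 0)) (M (nat_lit 1221575086440447))))))) (T.h (P (nat_lit 0)) (T.h (T.h (P (nat_lit 0)) (T.h (P (nat_lit 3321691345876869447680)) (T.h (P (nat_lit 0)) (P (nat_lit 15163554349252608))))) (T.h (P (nat_lit 0)) (T.h (T.h (P (nat_lit 0)) (P (nat_lit 2725830294568960))) (P (nat_lit 0))))))) (T.h (T.h (P (nat_lit 0)) (T.h (T.h (P (nat_lit 8717922922079423085674496)) (T.h (P (nat_lit 0)) (T.h (P (nat_lit 10942545611232116736)) (T.h (P (nat_lit 0)) (P (nat_lit 3166704741056)))))) (T.h (P (nat_lit 0)) (T.h (T.h (M (nat_lit 193192647643365375)) (T.h (P (nat_lit 0)) (M (nat_lit 172863613551)))) (T.h (P (nat_lit 0)) (M (nat_lit 424261102751))))))) (T.h (T.h (T.h (P (nat_lit 0)) (T.h (M (nat_lit 4144768062586427015167)) (T.h (P (nat_lit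 0)) (M (nat_lit 14061861106614271))))) (T.h (P (nat_lit 0)) (T.h (T.h (P (nat_lit 0)) (P (nat_lit 15787150469627904))) (P (nat_lit 0))))) (T.h (T.h (P (nat_lit 0)) (T.h (T.h (P (nat_lit 6521691154386255872)) (T.h (P (nat_lit 0)) (M (nat_lit 9748205673263)))) (T.h (P (nat_lit 0)) (P (nat_lit 3373397582576))))) (T.h (T.h (T.h (P (nat_lit 0)) (P (nat_lit 10195113124757504))) (P (nat_lit 0))) (T.h (T.h (P (nat_lit 0)) (M (nat_lit 5165935566879))) (P (nat_lit 0)))))))), (T.h (T.h (T.h (M (nat_lit 233599073851132825313359167487)) (T.h (P (nat_lit 0)) (T.h (P (nat_lit 5082112852419897131532288)) (T.h (P (nat_lit 0)) (T.h (M (nat_lit 2430645173944844287)) (T.h (P (nat_lit 0)) (M (nat_lit 1694558487759)))))))) (T.h (P (nat_lit 0)) (T.h (T.h (P (nat_lit 3339284828606134409494528)) (T.h (P (nat_lit 0)) (T.h (M (nat_lit 100023438623520063487)) (T.h (P (nat_lit 0)) (P (nat_lit 31329944283904)))))) (T.h (P (nat_lit 0)) (T.h (T.h (P (nat_lit 1338478820444864512))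 (T.h (P (nat_lit 0)) (M (nat_lit 20604639669311)))) (T.h (P (nat_lit 0)) (P (nat_lit 9617498653952)))))))) (T.h (T.h (P (nat_lit 0)) (T.h (T.h (P (nat_lit 0)) (T.h (M (nat_lit 82407207815392364855295)) (T.h (P (nat_lit 0)) (M (nat_lit 87065281106345983))))) (T.h (P (nat_lit 0)) (T.h (T.h (P (nat_lit 0)) (M (nat_lit 32143829745663999))) (P (nat_lit 0)))))) (T.h (T.h (T.h (M (nat_lit 37543111893281793489502207)) (T.h (P (nat_lit 0)) (T.h (P (nat_lit 97042588629337112576)) (T.h (P (nat_lit 0)) (P (nat_lit 12372716820768)))))) (T.h (P (nat_lit 0)) (T.h (T.h (P (nat_lit 31825137202179866624)) (T.h (P (nat_lit 0)) (M (nat_lit 22834946776191)))) (T.h (P (nat_lit 0)) (M (nat_lit 23020402898271)))))) (T.h (T.h (P (nat_lit 0)) (T.h (T.h (P (nat_lit 0)) (P (nat_lit 60188240626515968))) (P (nat_lit 0)))) (T.h (T.h (T.h (P (nat_lit 1366218949192056832)) (T.h (P (nat_lit 0)) (M (nat_lit 1079589108847)))) (T.h (P (nat_lit 0)) (M (nat_lit 23757383925135))))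 (T.h (P (nat_lit 0)) (M (nat_lit 5346534053183)))))))), (T.h (T.h (T.h (P (nat_lit 0)) (T.h (M (nat_lit 12452254323610020689479729151)) (T.h (P (nat_lit 0)) (T.h (M (nat_lit 18277019159480705744895)) (T.h (P (nat_lit 0)) (M (nat_lit 9415947579293695))))))) (T.h (P (nat_lit 0)) (T.h (T.h (P (nat_lit 0)) (T.h (M (nat_lit 39218625971067440594943)) (T.h (P (nat_lit 0)) (M (nat_lit 54177182514069503))))) (T.h (P (nat_lit 0)) (T.h (T.h (P (nat_lit 0)) (M (nat_lit 2756505685409791))) (P (nat_lit 0))))))) (T.h (T.h (P (nat_lit 0)) (T.h (T.h (P (nat_lit 7865899919476522420797440)) (T.h (P (nat_lit 0)) (T.h (P (nat_lit 20130967365741445120)) (T.h (P (nat_lit 0)) (M (nat_lit 71507717290127)))))) (T.h (P (nat_lit 0)) (T.h (T.h (M (nat_lit 3498396641633763327)) (T.h (P (nat_lit 0)) (M (nat_lit 9752408207359)))) (T.h (P (nat_lit 0)) (M (nat_lit 12630029022015))))))) (T.h (T.h (T.h (P (nat_lit 0)) (T.h (M (nat_lit 39234350592631613947903)) (T.h (P (nat_lit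 0)) (P (nat_lit 73585763175677952))))) (T.h (P (nat_lit 0)) (T.h (T.h (P (nat_lit 0)) (P (nat_lit 82532722095079424))) (P (nat_lit 0))))) (T.h (T.h (P (nat_lit 0)) (T.h (T.h (M (nat_lit 11235669516019040255)) (T.h (P (nat_lit 0)) (M (nat_lit 4962204969679)))) (T.h (P (nat_lit 0)) (M (nat_lit 8330620752495))))) (T.h (T.h (T.h (P (nat_lit 0)) (P (nat_lit 59915926495035392))) (P (nat_lit 0))) (T.h (T.h (P (nat_lit 0)) (P (nat_lit 6242673269728))) (P (nat_lit 0))))))))]
def lP22_28 : List (T ℤ) := [(T.h (T.h (T.h (P (nat_lit 1115592590657874877131071160320)) (T.h (P (nat_lit 0)) (T.h (M (nat_lit 6374825364380784296722431)) (T.h (P (nat_lit 0)) (T.h (P (nat_lit 7250249056067256320)) (T.h (P (nat_lit 0)) (M (nat_lit 5166647710895)))))))) (T.h (P (nat_lit 0)) (T.h (T.h (M (nat_lit 507304703656420609884159)) (T.h (P (nat_lit 0)) (T.h (P (nat_lit 35263024521535291392)) (T.h (P (nat_lit 0)) (P (nat_lit 4583817790320)))))) (T.h (P (nat_lit 0)) (T.h (T.h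 (P (nat_lit 6880821809667637248)) (T.h (P (nat_lit 0)) (M (nat_lit 37853903940671)))) (T.h (P (nat_lit 0)) (P (nat_lit 8166732155712)))))))) (T.h (T.h (P (nat_lit 0)) (T.h (T.h (P (nat_lit 0)) (T.h (M (nat_lit 19951231984780007440383)) (T.h (P (nat_lit 0)) (P (nat_lit 123138627846995968))))) (T.h (P (nat_lit 0)) (T.h (T.h (P (nat_lit 0)) (P (nat_lit 153381809422729216))) (P (nat_lit 0)))))) (T.h (T.h (T.h (P (nat_lit 34786085838959552078282752)) (T.h (P (nat_lit 0)) (T.h (M (nat_lit 68737311304899887103)) (T.h (P (nat_lit 0)) (P (nat_lit 35703781143744)))))) (T.h (P (nat_lit 0)) (T.h (T.h (M (nat_lit 130564937093042143231)) (T.h (P (nat_lit 0)) (P (nat_lit 84574857831168)))) (T.h (P (nat_lit 0)) (M (nat_lit 21958799509391)))))) (T.h (T.h (P (nat_lit 0)) (T.h (T.h (P (nat_lit 0)) (P (nat_lit 679447393009664))) (P (nat_lit 0)))) (T.h (T.h (T.h (P (nat_lit 3658876406927982592)) (T.h (P (nat_lit 0)) (P (nat_lit 39216856312992)))) (T.h (P (nat_lit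 0)) (P (nat_lit 23991997390848)))) (T.h (P (nat_lit 0)) (P (nat_lit 5815047762000)))))))), (T.h (T.h (T.h (P (nat_lit 0)) (T.h (P (nat_lit 10956586803148858223725903872)) (T.h (P (nat_lit 0)) (T.h (M (nat_lit 23839250831241478406143)) (T.h (P (nat_lit 0)) (M (nat_lit 1226991766667263))))))) (T.h (P (nat_lit 0)) (T.h (T.h (P (nat_lit 0)) (T.h (P (nat_lit 75342019195575308648448)) (T.h (P (nat_lit 0)) (M (nat_lit 30341731390193663))))) (T.h (P (nat_lit 0)) (T.h (T.h (P (nat_lit 0)) (P (nat_lit 36447271677280256))) (P (nat_lit 0))))))) (T.h (T.h (P (nat_lit 0)) (T.h (T.h (M (nat_lit 16468782563911620758601727)) (T.h (P (nat_lit 0)) (P (nat_lit 2690763552075022336)))) (T.h (P (nat_lit 0)) (M (nat_lit 75555578012258795519))))) (T.h (T.h (T.h (P (nat_lit 0)) (T.h (M (nat_lit 54890318594966418358271)) (T.h (P (nat_lit 0)) (M (nat_lit 32325635166355455))))) (T.h (P (nat_lit 0)) (T.h (T.h (P (nat_lit 0)) (M (nat_lit 83970361493749759))) (P (nat_lit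 0))))) (T.h (T.h (P (nat_lit 0)) (P (nat_lit 119321996343688298496))) (T.h (T.h (T.h (P (nat_lit 0)) (M (nat_lit 109421556495253503))) (P (nat_lit 0))) (P (nat_lit 0))))))), (T.h (T.h (P (nat_lit 0)) (T.h (T.h (P (nat_lit 0)) (T.h (P (nat_lit 3641499163075808254230528)) (T.h (P (nat_lit 0)) (T.h (P (nat_lit 4857255339529076736)) (T.h (P (nat_lit 0)) (P (nat_lit 3619901669680))))))) (T.h (P (nat_lit 0)) (T.h (T.h (P (nat_lit 0)) (T.h (M (nat_lit 16133808216185241599)) (T.h (P (nat_lit 0)) (M (nat_lit 11117983546151))))) (T.h (P (nat_lit 0)) (T.h (T.h (P (nat_lit 0)) (P (nat_lit 9053255530256))) (P (nat_lit 0)))))))) (T.h (T.h (T.h (P (nat_lit 7410480982141196655933784064)) (T.h (P (nat_lit 0)) (T.h (M (nat_lit 11651508633687157637119)) (T.h (P (nat_lit 0)) (M (nat_lit 20178261076901887)))))) (T.h (P (nat_lit 0)) (T.h (T.h (M (nat_lit 34692595357611779424255)) (T.h (P (nat_lit 0)) (M (nat_lit 39638468407689215)))) (T.h (P (nat_lit 0)) (P (nat_lit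 4797928639463424)))))) (T.h (T.h (P (nat_lit 0)) (T.h (T.h (P (nat_lit 0)) (T.h (P (nat_lit 55498869461626126336)) (T.h (P (nat_lit 0)) (M (nat_lit 3302925781727))))) (T.h (P (nat_lit 0)) (T.h (T.h (P (nat_lit 0)) (M (nat_lit 30116912663583))) (P (nat_lit 0)))))) (T.h (T.h (T.h (M (nat_lit 11758016684598470115327)) (T.h (P (nat_lit 0)) (M (nat_lit 741143611080703)))) (T.h (P (nat_lit 0)) (P (nat_lit 28860658306154496)))) (T.h (T.h (P (nat_lit 0)) (T.h (T.h (P (nat_lit 0)) (P (nat_lit 295401305272))) (P (nat_lit 0)))) (M (nat_lit 7868204061982719))))))), (T.h (T.h (P (nat_lit 0)) (T.h (T.h (M (nat_lit 10269116897705586050811822079)) (T.h (P (nat_lit 0)) (T.h (M (nat_lit 40814377494051408576511)) (T.h (P (nat_lit 0)) (P (nat_lit 7631175466680320)))))) (T.h (P (nat_lit 0)) (T.h (T.h (M (nat_lit 19423582445904722919423)) (T.h (P (nat_lit 0)) (M (nat_lit 23241107784351743)))) (T.h (P (nat_lit 0)) (M (nat_lit 11424268652298239))))))) (T.h (T.h (T.h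 (P (nat_lit 0)) (T.h (M (nat_lit 3140540335287327520718847)) (T.h (P (nat_lit 0)) (T.h (M (nat_lit 19618220207543156735)) (T.h (P (nat_lit 0)) (M (nat_lit 12153382404239))))))) (T.h (P (nat_lit 0)) (T.h (T.h (P (nat_lit 0)) (T.h (P (nat_lit 2740331464292827136)) (T.h (P (nat_lit 0)) (M (nat_lit 13156209311727))))) (T.h (P (nat_lit 0)) (T.h (T.h (P (nat_lit 0)) (M (nat_lit 71336986172927))) (P (nat_lit 0))))))) (T.h (T.h (P (nat_lit 0)) (T.h (T.h (M (nat_lit 11752904389286648872959)) (T.h (P (nat_lit 0)) (P (nat_lit 84186931744751616)))) (T.h (P (nat_lit 0)) (P (nat_lit 48900044698517504))))) (T.h (T.h (T.h (P (nat_lit 0)) (T.h (M (nat_lit 1023186957825474559)) (T.h (P (nat_lit 0)) (M (nat_lit 8063003288703))))) (T.h (P (nat_lit 0)) (T.h (T.h (P (nat_lit 0)) (M (nat_lit 13000870878351))) (P (nat_lit 0))))) (T.h (T.h (P (nat_lit 0)) (P (nat_lit 64019304747630592))) (T.h (T.h (T.h (P (nat_lit 0)) (M (nat_lit 5632617450207))) (P (nat_lit 0))) (P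 (nat_lit 0)))))))), (T.h (T.h (P (nat_lit 0)) (T.h (T.h (P (nat_lit 0)) (T.h (P (nat_lit 11014789779854207137873920)) (T.h (P (nat_lit 0)) (T.h (M (nat_lit 57285252125078585343)) (T.h (P (nat_lit 0)) (M (nat_lit 9731436838991))))))) (T.h (P (nat_lit 0)) (T.h (T.h (P (nat_lit 0)) (T.h (M (nat_lit 32849534989266583551)) (T.h (P (nat_lit 0)) (M (nat_lit 4274270458319))))) (T.h (P (nat_lit 0)) (T.h (T.h (P (nat_lit 0)) (M (nat_lit 5675464891727))) (P (nat_lit 0)))))))) (T.h (T.h (T.h (P (nat_lit 19470708716258580401542397952)) (T.h (P (nat_lit 0)) (T.h (P (nat_lit 15728162775566582284288)) (T.h (P (nat_lit 0)) (P (nat_lit 30114903116939264)))))) (T.h (P (nat_lit 0)) (T.h (T.h (P (nat_lit 30081290909301648392192)) (T.h (P (nat_lit 0)) (P (nat_lit 7864429919764480)))) (T.h (P (nat_lit 0)) (P (nat_lit 62056682338779136)))))) (T.h (T.h (P (nat_lit 0)) (T.h (T.h (P (nat_lit 0)) (T.h (P (nat_lit 84183061920430948352)) (T.h (P (nat_lit 0)) (P (nat_lit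 32858856124992))))) (T.h (P (nat_lit 0)) (T.h (T.h (P (nat_lit 0)) (P (nat_lit 26314315662576))) (P (nat_lit 0)))))) (T.h (T.h (T.h (M (nat_lit 19079442946917136334847)) (T.h (P (nat_lit 0)) (M (nat_lit 3100557080494079)))) (T.h (P (nat_lit 0)) (M (nat_lit 2810869064204287)))) (T.h (T.h (P (nat_lit 0)) (T.h (T.h (P (nat_lit 0)) (M (nat_lit 7967120059199))) (P (nat_lit 0)))) (M (nat_lit 17356590775074815))))))), (T.h (T.h (P (nat_lit 0)) (T.h (T.h (P (nat_lit 14443826790256105527609131008)) (T.h (P (nat_lit 0)) (T.h (P (nat_lit 4650496985309537894400)) (T.h (P (nat_lit 0)) (P (nat_lit 15306963441762304)))))) (T.h (P (nat_lit 0)) (T.h (T.h (M (nat_lit 16036720904275796951039)) (T.h (P (nat_lit 0)) (P (nat_lit 59759200652361728)))) (T.h (P (nat_lit 0)) (M (nat_lit 20302167749623807))))))) (T.h (T.h (T.h (P (nat_lit 0)) (T.h (M (nat_lit 4802423077831732845608959)) (T.h (P (nat_lit 0)) (P (nat_lit 24016744261632393216))))) (T.h (P (nat_lit 0)) (T.h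 (T.h (P (nat_lit 0)) (M (nat_lit 82621730884927094783))) (P (nat_lit 0))))) (T.h (T.h (P (nat_lit 0)) (T.h (T.h (M (nat_lit 38168780187591518453759)) (T.h (P (nat_lit 0)) (M (nat_lit 118825867613978623)))) (T.h (P (nat_lit 0)) (P (nat_lit 49097804582748160))))) (T.h (T.h (T.h (P (nat_lit 0)) (P (nat_lit 171966052405298069504))) (P (nat_lit 0))) (T.h (T.h (P (nat_lit 0)) (M (nat_lit 76111675475427327))) (P (nat_lit 0))))))), (T.h (T.h (T.h (P (nat_lit 0)) (T.h (P (nat_lit 17277169826230395563407310848)) (T.h (P (nat_lit 0)) (T.h (P (nat_lit 37722972093317176623104)) (T.h (P (nat_lit 0)) (P (nat_lit 2839043910631424))))))) (T.h (P (nat_lit 0)) (T.h (T.h (P (nat_lit 0)) (T.h (M (nat_lit 14429612615023850422271)) (T.h (P (nat_lit 0)) (P (nat_lit 8313373331783680))))) (T.h (P (nat_lit 0)) (T.h (T.h (P (nat_lit 0)) (M (nat_lit 46231065526583295))) (P (nat_lit 0))))))) (T.h (T.h (P (nat_lit 0)) (T.h (T.h (M (nat_lit 26202266726833330004688895)) (T.h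 (P (nat_lit 0)) (T.h (P (nat_lit 4720523903133286400)) (T.h (P (nat_lit 0)) (M (nat_lit 14170135667743)))))) (T.h (P (nat_lit 0)) (T.h (T.h (M (nat_lit 32857965433267945471)) (T.h (P (nat_lit 0)) (M (nat_lit 2419356147151)))) (T.h (P (nat_lit 0)) (P (nat_lit 8063023529120))))))) (T.h (T.h (T.h (P (nat_lit 0)) (T.h (M (nat_lit 14429612615023850422271)) (T.h (P (nat_lit 0)) (P (nat_lit 8313373331783680))))) (T.h (P (nat_lit 0)) (T.h (T.h (P (nat_lit 0)) (M (nat_lit 33472934269550591))) (P (nat_lit 0))))) (T.h (T.h (P (nat_lit 0)) (T.h (T.h (M (nat_lit 32857965433267945471)) (T.h (P (nat_lit 0)) (M (nat_lit 2419356147151)))) (T.h (P (nat_lit 0)) (P (nat_lit 2263527959616))))) (T.h (T.h (T.h (P (nat_lit 0)) (M (nat_lit 46231065526583295))) (P (nat_lit 0))) (T.h (T.h (P (nat_lit 0)) (P (nat_lit 8063023529120))) (P (nat_lit 0)))))))), (T.h (T.h (T.h (P (nat_lit 1926289178347798091970222489600)) (T.h (P (nat_lit 0)) (T.h (P (nat_lit 2899700707510487674257408))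 (T.h (P (nat_lit 0)) (T.h (P (nat_lit 6322290353244209152)) (T.h (P (nat_lit 0)) (P (nat_lit 12427974380448)))))))) (T.h (P (nat_lit 0)) (T.h (T.h (M (nat_lit 2967819953213876012580863)) (T.h (P (nat_lit 0)) (T.h (M (nat_lit 60783134145811316735)) (T.h (P (nat_lit 0)) (M (nat_lit 31837786800239)))))) (T.h (P (nat_lit 0)) (T.h (T.h (P (nat_lit 6691717599643828224)) (T.h (P (nat_lit 0)) (P (nat_lit 10599934930752)))) (T.h (P (nat_lit 0)) (M (nat_lit 905405486159)))))))) (T.h (T.h (P (nat_lit 0)) (T.h (T.h (P (nat_lit 0)) (T.h (M (nat_lit 101836983772912954638335)) (T.h (P (nat_lit 0)) (P (nat_lit 90898632649211904))))) (T.h (P (nat_lit 0)) (T.h (T.h (P (nat_lit 0)) (P (nat_lit 60655451073478656))) (P (nat_lit 0)))))) (T.h (T.h (T.h (M (nat_lit 2967819953213876012580863)) (T.h (P (nat_lit 0)) (T.h (M (nat_lit 60783134145811316735)) (T.h (P (nat_lit 0)) (M (nat_lit 31837786800239)))))) (T.h (P (nat_lit 0)) (T.h (T.h (P (nat_lit 1044491642330939392))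 (T.h (P (nat_lit 0)) (P (nat_lit 54100397103456)))) (T.h (P (nat_lit 0)) (P (nat_lit 25824793852896)))))) (T.h (T.h (P (nat_lit 0)) (T.h (T.h (P (nat_lit 0)) (P (nat_lit 60655451073478656))) (P (nat_lit 0)))) (T.h (T.h (T.h (P (nat_lit 6691717599643828224)) (T.h (P (nat_lit 0)) (P (nat_lit 10599934930752)))) (T.h (P (nat_lit 0)) (P (nat_lit 25824793852896)))) (T.h (P (nat_lit 0)) (M (nat_lit 905405486159))))))))]
def lP22_29 : List (T ℤ) := [(T.h (T.h (T.h (P (nat_lit 0)) (T.h (P (nat_lit 1941720731082695133592813568)) (T.h (P (nat_lit 0)) (T.h (M (nat_lit 29704318109370374160383)) (T.h (P (nat_lit 0)) (M (nat_lit 22741810993119231))))))) (T.h (P (nat_lit 0)) (T.h (T.h (P (nat_lit 0)) (T.h (P (nat_lit 701827677506762702848)) (T.h (P (nat_lit 0)) (P (nat_lit 54111275068309504))))) (T.h (P (nat_lit 0)) (T.h (T.h (P (nat_lit 0)) (P (nat_lit 13706613194915840))) (P (nat_lit 0))))))) (T.h (T.h (P (nat_lit 0)) (T.h (T.h (P (nat_lit 18056985184817746683101184))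 (T.h (P (nat_lit 0)) (M (nat_lit 46579266720809091071)))) (T.h (P (nat_lit 0)) (P (nat_lit 15808050916747116544))))) (T.h (T.h (T.h (P (nat_lit 0)) (T.h (P (nat_lit 26945039925992287633408)) (T.h (P (nat_lit 0)) (P (nat_lit 33493411881435136))))) (T.h (P (nat_lit 0)) (T.h (T.h (P (nat_lit 0)) (M (nat_lit 83502761245294591))) (P (nat_lit 0))))) (T.h (T.h (P (nat_lit 0)) (P (nat_lit 49284618759121666048))) (T.h (T.h (T.h (P (nat_lit 0)) (P (nat_lit 20647454293393408))) (P (nat_lit 0))) (P (nat_lit 0))))))), (T.h (T.h (P (nat_lit 0)) (T.h (T.h (P (nat_lit 0)) (T.h (M (nat_lit 1272398404344883965853695)) (T.h (P (nat_lit 0)) (T.h (M (nat_lit 3420608005706612735)) (T.h (P (nat_lit 0)) (P (nat_lit 2356823042256))))))) (T.h (P (nat_lit 0)) (T.h (T.h (P (nat_lit 0)) (T.h (P (nat_lit 23443956208744005632)) (T.h (P (nat_lit 0)) (P (nat_lit 11034664166160))))) (T.h (P (nat_lit 0)) (T.h (T.h (P (nat_lit 0)) (M (nat_lit 14177834618447))) (P (nat_lit 0))))))))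 (T.h (T.h (T.h (P (nat_lit 5843117400767520869254692864)) (T.h (P (nat_lit 0)) (T.h (M (nat_lit 8661948646476979634175)) (T.h (P (nat_lit 0)) (P (nat_lit 474231768350720)))))) (T.h (P (nat_lit 0)) (T.h (T.h (P (nat_lit 6132280081596855353344)) (T.h (P (nat_lit 0)) (P (nat_lit 7274545497210880)))) (T.h (P (nat_lit 0)) (M (nat_lit 17608652528943103)))))) (T.h (T.h (P (nat_lit 0)) (T.h (T.h (P (nat_lit 0)) (T.h (P (nat_lit 34232820611900506112)) (T.h (P (nat_lit 0)) (M (nat_lit 19566681743567))))) (T.h (P (nat_lit 0)) (T.h (T.h (P (nat_lit 0)) (P (nat_lit 17952904070928))) (P (nat_lit 0)))))) (T.h (T.h (T.h (P (nat_lit 6400777624819452608512)) (T.h (P (nat_lit 0)) (M (nat_lit 24023268860002303)))) (T.h (P (nat_lit 0)) (M (nat_lit 10186063040872447)))) (T.h (T.h (P (nat_lit 0)) (T.h (T.h (P (nat_lit 0)) (M (nat_lit 26139770321999))) (P (nat_lit 0)))) (P (nat_lit 17475433437396992))))))), (T.h (T.h (P (nat_lit 0)) (T.h (T.h (P (nat_lit 7898869424295032560457613312))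 (T.h (P (nat_lit 0)) (T.h (P (nat_lit 66894456594855284965376)) (T.h (P (nat_lit 0)) (P (nat_lit 17205814889070592)))))) (T.h (P (nat_lit 0)) (T.h (T.h (M (nat_lit 25619508905965531430911)) (T.h (P (nat_lit 0)) (M (nat_lit 34505731325050879)))) (T.h (P (nat_lit 0)) (M (nat_lit 5990357490696191))))))) (T.h (T.h (T.h (P (nat_lit 0)) (T.h (M (nat_lit 3808010078810433310949375)) (T.h (P (nat_lit 0)) (M (nat_lit 39699916217686949887))))) (T.h (P (nat_lit 0)) (T.h (T.h (P (nat_lit 0)) (P (nat_lit 47737917958413877248))) (P (nat_lit 0))))) (T.h (T.h (P (nat_lit 0)) (T.h (T.h (M (nat_lit 20518604022785385693183)) (T.h (P (nat_lit 0)) (M (nat_lit 4558212600184831)))) (T.h (P (nat_lit 0)) (M (nat_lit 25828239031599103))))) (T.h (T.h (T.h (P (nat_lit 0)) (P (nat_lit 7228349994594467840))) (P (nat_lit 0))) (T.h (T.h (P (nat_lit 0)) (M (nat_lit 37244374366273535))) (P (nat_lit 0))))))), (T.h (T.h (T.h (P (nat_lit 0)) (T.h (M (nat_lit 9444388680319584730748026879))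 (T.h (P (nat_lit 0)) (T.h (M (nat_lit 11887339130370524184575)) (T.h (P (nat_lit 0)) (P (nat_lit 2323722480533504))))))) (T.h (P (nat_lit 0)) (T.h (T.h (P (nat_lit 0)) (T.h (P (nat_lit 30742105541402773422080)) (T.h (P (nat_lit 0)) (M (nat_lit 22101788836069375))))) (T.h (P (nat_lit 0)) (T.h (T.h (P (nat_lit 0)) (P (nat_lit 24581947639840768))) (P (nat_lit 0))))))) (T.h (T.h (P (nat_lit 0)) (T.h (T.h (P (nat_lit 10198635777548292081057792)) (T.h (P (nat_lit 0)) (M (nat_lit 9004690242220851199)))) (T.h (P (nat_lit 0)) (M (nat_lit 10587787297082572799))))) (T.h (T.h (T.h (P (nat_lit 0)) (T.h (P (nat_lit 4498893292917248491520)) (T.h (P (nat_lit 0)) (M (nat_lit 1483925649195007))))) (T.h (P (nat_lit 0)) (T.h (T.h (P (nat_lit 0)) (M (nat_lit 44089042524880895))) (P (nat_lit 0))))) (T.h (T.h (P (nat_lit 0)) (M (nat_lit 44064355139457122303))) (T.h (T.h (T.h (P (nat_lit 0)) (P (nat_lit 17641106541363200))) (P (nat_lit 0))) (P (nat_lit 0))))))), (T.h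 (T.h (T.h (M (nat_lit 169053768763270514532562239487)) (T.h (P (nat_lit 0)) (T.h (P (nat_lit 1217783071519776866041856)) (T.h (P (nat_lit 0)) (T.h (M (nat_lit 2581556048120774655)) (T.h (P (nat_lit 0)) (P (nat_lit 2889973006256)))))))) (T.h (P (nat_lit 0)) (T.h (T.h (P (nat_lit 1217783071519776866041856)) (T.h (P (nat_lit 0)) (T.h (M (nat_lit 580103659812028415)) (T.h (P (nat_lit 0)) (M (nat_lit 662576913727)))))) (T.h (P (nat_lit 0)) (T.h (T.h (M (nat_lit 2581556048120774655)) (T.h (P (nat_lit 0)) (M (nat_lit 662576913727)))) (T.h (P (nat_lit 0)) (P (nat_lit 2889973006256)))))))) (T.h (T.h (P (nat_lit 0)) (T.h (T.h (P (nat_lit 0)) (T.h (M (nat_lit 1587471070678617161727)) (T.h (P (nat_lit 0)) (P (nat_lit 3737556218937344))))) (T.h (P (nat_lit 0)) (T.h (T.h (P (nat_lit 0)) (P (nat_lit 3737556218937344))) (P (nat_lit 0)))))) (T.h (T.h (T.h (M (nat_lit 86023058324020239794175)) (T.h (P (nat_lit 0)) (T.h (M (nat_lit 2804189857717420031)) (T.h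 (P (nat_lit 0)) (P (nat_lit 2363898821680)))))) (T.h (P (nat_lit 0)) (T.h (T.h (M (nat_lit 2804189857717420031)) (T.h (P (nat_lit 0)) (P (nat_lit 2120391294816)))) (T.h (P (nat_lit 0)) (P (nat_lit 2363898821680)))))) (T.h (T.h (P (nat_lit 0)) (T.h (T.h (P (nat_lit 0)) (P (nat_lit 2147752284127232))) (P (nat_lit 0)))) (T.h (T.h (T.h (P (nat_lit 544121181330997248)) (T.h (P (nat_lit 0)) (P (nat_lit 1796611202864)))) (T.h (P (nat_lit 0)) (P (nat_lit 1796611202864)))) (T.h (P (nat_lit 0)) (M (nat_lit 1570308029599)))))))), (T.h (T.h (T.h (P (nat_lit 0)) (T.h (M (nat_lit 5597556631054564458126901247)) (T.h (P (nat_lit 0)) (T.h (P (nat_lit 3308180927425781170176)) (T.h (P (nat_lit 0)) (M (nat_lit 6835752361197567))))))) (T.h (P (nat_lit 0)) (T.h (T.h (P (nat_lit 0)) (T.h (P (nat_lit 22442983634990067089408)) (T.h (P (nat_lit 0)) (M (nat_lit 1902109917478911))))) (T.h (P (nat_lit 0)) (T.h (T.h (P (nat_lit 0)) (P (nat_lit 7271102710284288))) (P (nat_lit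 0))))))) (T.h (T.h (P (nat_lit 0)) (T.h (T.h (P (nat_lit 19104918853724326135332864)) (T.h (P (nat_lit 0)) (T.h (M (nat_lit 55756772724600471551)) (T.h (P (nat_lit 0)) (M (nat_lit 2633111223199)))))) (T.h (P (nat_lit 0)) (T.h (T.h (P (nat_lit 20273340549643108352)) (T.h (P (nat_lit 0)) (M (nat_lit 13643278376943)))) (T.h (P (nat_lit 0)) (M (nat_lit 7530457730135))))))) (T.h (T.h (T.h (P (nat_lit 0)) (T.h (M (nat_lit 18083747559429222957055)) (T.h (P (nat_lit 0)) (M (nat_lit 19509334660710399))))) (T.h (P (nat_lit 0)) (T.h (T.h (P (nat_lit 0)) (M (nat_lit 151324011429887))) (P (nat_lit 0))))) (T.h (T.h (P (nat_lit 0)) (T.h (T.h (P (nat_lit 3171995732487962624)) (T.h (P (nat_lit 0)) (M (nat_lit 9781929771455)))) (T.h (P (nat_lit 0)) (M (nat_lit 18673433816239))))) (T.h (T.h (T.h (P (nat_lit 0)) (P (nat_lit 11688105474850816))) (P (nat_lit 0))) (T.h (T.h (P (nat_lit 0)) (M (nat_lit 626247639559))) (P (nat_lit 0)))))))), (T.h (T.h (T.h (P (nat_lit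 17487934428072267589535253135360)) (T.h (P (nat_lit 0)) (T.h (P (nat_lit 3738535489435886610808832)) (T.h (P (nat_lit 0)) (T.h (P (nat_lit 33195567503774842880)) (T.h (P (nat_lit 0)) (M (nat_lit 9293895593023)))))))) (T.h (P (nat_lit 0)) (T.h (T.h (M (nat_lit 5115580566046666089562111)) (T.h (P (nat_lit 0)) (T.h (P (nat_lit 41779584602443087872)) (T.h (P (nat_lit 0)) (P (nat_lit 17195691032800)))))) (T.h (P (nat_lit 0)) (T.h (T.h (M (nat_lit 4476077744232333311)) (T.h (P (nat_lit 0)) (M (nat_lit 974849383871)))) (T.h (P (nat_lit 0)) (M (nat_lit 4974807978671)))))))) (T.h (T.h (P (nat_lit 0)) (T.h (T.h (P (nat_lit 0)) (T.h (M (nat_lit 1159106777032331100159)) (T.h (P (nat_lit 0)) (M (nat_lit 3663597815037951))))) (T.h (P (nat_lit 0)) (T.h (T.h (P (nat_lit 0)) (P (nat_lit 68599225140936704))) (P (nat_lit 0)))))) (T.h (T.h (T.h (P (nat_lit 3405504347900306815713280)) (T.h (P (nat_lit 0)) (T.h (M (nat_lit 43221148870325043199)) (T.h (P (nat_lit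 0)) (P (nat_lit 3450585787040)))))) (T.h (P (nat_lit 0)) (T.h (T.h (P (nat_lit 16915251563889426432)) (T.h (P (nat_lit 0)) (P (nat_lit 3598095398016)))) (T.h (P (nat_lit 0)) (M (nat_lit 9541535052335)))))) (T.h (T.h (P (nat_lit 0)) (T.h (T.h (P (nat_lit 0)) (M (nat_lit 28545725357064191))) (P (nat_lit 0)))) (T.h (T.h (T.h (M (nat_lit 194954281965584383)) (T.h (P (nat_lit 0)) (P (nat_lit 15738449462064)))) (T.h (P (nat_lit 0)) (M (nat_lit 3067565725055)))) (T.h (P (nat_lit 0)) (M (nat_lit 841910550095)))))))), (T.h (T.h (T.h (P (nat_lit 0)) (T.h (P (nat_lit 12694516132953067105525170176)) (T.h (P (nat_lit 0)) (T.h (P (nat_lit 1667884357152340443136)) (T.h (P (nat_lit 0)) (P (nat_lit 28219518888411136))))))) (T.h (P (nat_lit 0)) (T.h (T.h (P (nat_lit 0)) (T.h (M (nat_lit 30087155017129438216191)) (T.h (P (nat_lit 0)) (M (nat_lit 30039293195386879))))) (T.h (P (nat_lit 0)) (T.h (T.h (P (nat_lit 0)) (M (nat_lit 12254034039898111))) (P (nat_lit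 0))))))) (T.h (T.h (P (nat_lit 0)) (T.h (T.h (M (nat_lit 12932720779095484709994495)) (T.h (P (nat_lit 0)) (T.h (P (nat_lit 74074457738617815040)) (T.h (P (nat_lit 0)) (M (nat_lit 26269413742655)))))) (T.h (P (nat_lit 0)) (T.h (T.h (M (nat_lit 28204431904241352703)) (T.h (P (nat_lit 0)) (M (nat_lit 21703434464063)))) (T.h (P (nat_lit 0)) (P (nat_lit 4888059757872))))))) (T.h (T.h (T.h (P (nat_lit 0)) (T.h (P (nat_lit 24480591155283993034752)) (T.h (P (nat_lit 0)) (P (nat_lit 2311032504811520))))) (T.h (P (nat_lit 0)) (T.h (T.h (P (nat_lit 0)) (P (nat_lit 18089952219463680))) (P (nat_lit 0))))) (T.h (T.h (P (nat_lit 0)) (T.h (T.h (P (nat_lit 4923577516783828992)) (T.h (P (nat_lit 0)) (P (nat_lit 32553611291904)))) (T.h (P (nat_lit 0)) (P (nat_lit 17972683773504))))) (T.h (T.h (T.h (P (nat_lit 0)) (M (nat_lit 35401708404146175))) (P (nat_lit 0))) (T.h (T.h (P (nat_lit 0)) (M (nat_lit 14348130743711))) (P (nat_lit 0))))))))]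
def lP22_30 : List (T ℤ) := [(T.h (T.h (T.h (P (nat_lit 155995632080566823416296898560)) (T.h (P (nat_lit 0)) (T.h (M (nat_lit 12445850496719112502247423)) (T.h (P (nat_lit 0)) (M (nat_lit 36735780757811757055)))))) (T.h (P (nat_lit 0)) (T.h (T.h (P (nat_lit 12422111740482366000332800)) (T.h (P (nat_lit 0)) (P (nat_lit 5356113671795769344)))) (T.h (P (nat_lit 0)) (P (nat_lit 10031253014880190464)))))) (T.h (T.h (P (nat_lit 0)) (T.h (T.h (P (nat_lit 0)) (T.h (P (nat_lit 52185957645468458549248)) (T.h (P (nat_lit 0)) (P (nat_lit 6473811213385728))))) (T.h (P (nat_lit 0)) (T.h (T.h (P (nat_lit 0)) (P (nat_lit 6569147204567040))) (P (nat_lit 0)))))) (T.h (T.h (T.h (M (nat_lit 8996315308694133733851135)) (T.h (P (nat_lit 0)) (M (nat_lit 14491892079333998591)))) (T.h (P (nat_lit 0)) (P (nat_lit 13207607049124315136)))) (T.h (T.h (P (nat_lit 0)) (T.h (T.h (P (nat_lit 0)) (P (nat_lit 15006674001788928))) (P (nat_lit 0)))) (M (nat_lit 24572684326989201407)))))),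 (T.h (T.h (P (nat_lit 0)) (T.h (T.h (M (nat_lit 8105240833316528014414053375)) (T.h (P (nat_lit 0)) (T.h (P (nat_lit 20407429106314850074624)) (T.h (P (nat_lit 0)) (P (nat_lit 18185428906213376)))))) (T.h (P (nat_lit 0)) (T.h (T.h (P (nat_lit 6157605607908443160576)) (T.h (P (nat_lit 0)) (P (nat_lit 13934158588248064)))) (T.h (P (nat_lit 0)) (M (nat_lit 14652418540830719))))))) (T.h (T.h (T.h (P (nat_lit 0)) (T.h (P (nat_lit 4215725895776875352948736)) (T.h (P (nat_lit 0)) (T.h (P (nat_lit 29294307247426371584)) (T.h (P (nat_lit 0)) (P (nat_lit 2467984298904))))))) (T.h (P (nat_lit 0)) (T.h (T.h (P (nat_lit 0)) (T.h (M (nat_lit 23926501528834146303)) (T.h (P (nat_lit 0)) (P (nat_lit 17916783817936))))) (T.h (P (nat_lit 0)) (T.h (T.h (P (nat_lit 0)) (P (nat_lit 2892398064512))) (P (nat_lit 0))))))) (T.h (T.h (P (nat_lit 0)) (T.h (T.h (M (nat_lit 18612874587945052405759)) (T.h (P (nat_lit 0)) (M (nat_lit 21479489433075711)))) (T.h (P (nat_lit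 0)) (M (nat_lit 5484856430657535))))) (T.h (T.h (T.h (P (nat_lit 0)) (T.h (P (nat_lit 33868761651432390656)) (T.h (P (nat_lit 0)) (P (nat_lit 4797394601552))))) (T.h (P (nat_lit 0)) (T.h (T.h (P (nat_lit 0)) (M (nat_lit 19419484670495))) (P (nat_lit 0))))) (T.h (T.h (P (nat_lit 0)) (P (nat_lit 23898006275555328))) (T.h (T.h (T.h (P (nat_lit 0)) (P (nat_lit 966839890088))) (P (nat_lit 0))) (P (nat_lit 0)))))))), (T.h (T.h (P (nat_lit 0)) (T.h (T.h (P (nat_lit 0)) (T.h (P (nat_lit 32151543346033375355863040)) (T.h (P (nat_lit 0)) (T.h (P (nat_lit 29559669016657657856)) (T.h (P (nat_lit 0)) (P (nat_lit 4818155716864))))))) (T.h (P (nat_lit 0)) (T.h (T.h (P (nat_lit 0)) (T.h (P (nat_lit 29559669016657657856)) (T.h (P (nat_lit 0)) (P (nat_lit 2939123638080))))) (T.h (P (nat_lit 0)) (T.h (T.h (P (nat_lit 0)) (P (nat_lit 4818155716864))) (P (nat_lit 0)))))))) (T.h (T.h (T.h (P (nat_lit 3912186387042781318489309184)) (T.h (P (nat_lit 0)) (T.h (M (nat_lit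 16069614633279035539455)) (T.h (P (nat_lit 0)) (P (nat_lit 32299067457896448)))))) (T.h (P (nat_lit 0)) (T.h (T.h (M (nat_lit 16069614633279035539455)) (T.h (P (nat_lit 0)) (M (nat_lit 3866233468190719)))) (T.h (P (nat_lit 0)) (P (nat_lit 32299067457896448)))))) (T.h (T.h (P (nat_lit 0)) (T.h (T.h (P (nat_lit 0)) (T.h (M (nat_lit 13649441188648845311)) (T.h (P (nat_lit 0)) (M (nat_lit 1321085431679))))) (T.h (P (nat_lit 0)) (T.h (T.h (P (nat_lit 0)) (M (nat_lit 1321085431679))) (P (nat_lit 0)))))) (T.h (T.h (T.h (M (nat_lit 10032247509758490181631)) (T.h (P (nat_lit 0)) (P (nat_lit 19042531012182016)))) (T.h (P (nat_lit 0)) (P (nat_lit 19042531012182016)))) (T.h (T.h (P (nat_lit 0)) (T.h (T.h (P (nat_lit 0)) (M (nat_lit 24657609824063))) (P (nat_lit 0)))) (P (nat_lit 12964061643177984))))))), (T.h (T.h (P (nat_lit 0)) (T.h (T.h (M (nat_lit 17704674254613374955245535231)) (T.h (P (nat_lit 0)) (T.h (M (nat_lit 39663302197560702140415)) (T.h (P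 (nat_lit 0)) (M (nat_lit 1988701508501503)))))) (T.h (P (nat_lit 0)) (T.h (T.h (M (nat_lit 18453949334484821213183)) (T.h (P (nat_lit 0)) (P (nat_lit 37585134534787072)))) (T.h (P (nat_lit 0)) (M (nat_lit 2042040104189951))))))) (T.h (T.h (T.h (P (nat_lit 0)) (T.h (P (nat_lit 22559255131153660985212928)) (T.h (P (nat_lit 0)) (T.h (M (nat_lit 126569252356567859199)) (T.h (P (nat_lit 0)) (P (nat_lit 19252148844096))))))) (T.h (P (nat_lit 0)) (T.h (T.h (P (nat_lit 0)) (T.h (M (nat_lit 181088701225520594943)) (T.h (P (nat_lit 0)) (M (nat_lit 14185622886863))))) (T.h (P (nat_lit 0)) (T.h (T.h (P (nat_lit 0)) (P (nat_lit 1354154160720))) (P (nat_lit 0))))))) (T.h (T.h (P (nat_lit 0)) (T.h (T.h (P (nat_lit 13367314397544824438784)) (T.h (P (nat_lit 0)) (M (nat_lit 13919475393134591)))) (T.h (P (nat_lit 0)) (P (nat_lit 60983721372450816))))) (T.h (T.h (T.h (P (nat_lit 0)) (T.h (P (nat_lit 43971332064680083456)) (T.h (P (nat_lit 0)) (M (nat_lit 8256450540863)))))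 (T.h (P (nat_lit 0)) (T.h (T.h (P (nat_lit 0)) (P (nat_lit 40187984740848))) (P (nat_lit 0))))) (T.h (T.h (P (nat_lit 0)) (M (nat_lit 57291299511795711))) (T.h (T.h (T.h (P (nat_lit 0)) (P (nat_lit 36989846871168))) (P (nat_lit 0))) (P (nat_lit 0)))))))), (T.h (T.h (P (nat_lit 0)) (T.h (T.h (P (nat_lit 0)) (T.h (P (nat_lit 744127512378813555146752)) (T.h (P (nat_lit 0)) (P (nat_lit 3687564929549729792))))) (T.h (P (nat_lit 0)) (T.h (T.h (P (nat_lit 0)) (M (nat_lit 43240701282731687935))) (P (nat_lit 0)))))) (T.h (T.h (T.h (M (nat_lit 2893019493596279392243286015)) (T.h (P (nat_lit 0)) (T.h (P (nat_lit 18795596249408332627968)) (T.h (P (nat_lit 0)) (M (nat_lit 48264155397226495)))))) (T.h (P (nat_lit 0)) (T.h (T.h (P (nat_lit 106208656867049003286528)) (T.h (P (nat_lit 0)) (M (nat_lit 20986041552060415)))) (T.h (P (nat_lit 0)) (P (nat_lit 6186033858117632)))))) (T.h (T.h (P (nat_lit 0)) (T.h (T.h (P (nat_lit 0)) (P (nat_lit 108624038561860026368)))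 (P (nat_lit 0)))) (T.h (T.h (T.h (M (nat_lit 27246261378647213473791)) (T.h (P (nat_lit 0)) (M (nat_lit 56201108453130239)))) (T.h (P (nat_lit 0)) (M (nat_lit 64878600746582015)))) (T.h (P (nat_lit 0)) (M (nat_lit 19637590254747647))))))), (T.h (T.h (T.h (P (nat_lit 9532113103949875524296396242944)) (T.h (P (nat_lit 0)) (T.h (M (nat_lit 5822015326319091937968127)) (T.h (P (nat_lit 0)) (T.h (M (nat_lit 8903747042262646783)) (T.h (P (nat_lit 0)) (M (nat_lit 2135898518655)))))))) (T.h (P (nat_lit 0)) (T.h (T.h (P (nat_lit 3032100729163460762402816)) (T.h (P (nat_lit 0)) (T.h (P (nat_lit 37294152127986270208)) (T.h (P (nat_lit 0)) (M (nat_lit 2689076313615)))))) (T.h (P (nat_lit 0)) (T.h (T.h (P (nat_lit 28767898205744529408)) (T.h (P (nat_lit 0)) (P (nat_lit 15481464103056)))) (T.h (P (nat_lit 0)) (M (nat_lit 6454986133007)))))))) (T.h (T.h (P (nat_lit 0)) (T.h (T.h (P (nat_lit 0)) (T.h (M (nat_lit 11273622562630300336127)) (T.h (P (nat_lit 0))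 (P (nat_lit 76325036144197632))))) (T.h (P (nat_lit 0)) (T.h (T.h (P (nat_lit 0)) (P (nat_lit 4062213188222976))) (P (nat_lit 0)))))) (T.h (T.h (T.h (M (nat_lit 3988164356882201506217983)) (T.h (P (nat_lit 0)) (T.h (P (nat_lit 2322674579165675520)) (T.h (P (nat_lit 0)) (M (nat_lit 5131028078175)))))) (T.h (P (nat_lit 0)) (T.h (T.h (M (nat_lit 57813725855048794111)) (T.h (P (nat_lit 0)) (P (nat_lit 8548507008608)))) (T.h (P (nat_lit 0)) (P (nat_lit 7861092761200)))))) (T.h (T.h (P (nat_lit 0)) (T.h (T.h (P (nat_lit 0)) (M (nat_lit 28669640327397375))) (P (nat_lit 0)))) (T.h (T.h (T.h (P (nat_lit 3867644409403146240)) (T.h (P (nat_lit 0)) (P (nat_lit 66173550912)))) (T.h (P (nat_lit 0)) (P (nat_lit 18872188738032)))) (T.h (P (nat_lit 0)) (M (nat_lit 4494899552751)))))))), (T.h (T.h (T.h (P (nat_lit 0)) (T.h (M (nat_lit 24556072986798921191516012543)) (T.h (P (nat_lit 0)) (T.h (M (nat_lit 13721056066817709047807)) (T.h (P (nat_lit 0)) (M (nat_lit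 12786125555204095))))))) (T.h (P (nat_lit 0)) (T.h (T.h (P (nat_lit 0)) (T.h (M (nat_lit 18238095826908243558399)) (T.h (P (nat_lit 0)) (P (nat_lit 43601158870171648))))) (T.h (P (nat_lit 0)) (T.h (T.h (P (nat_lit 0)) (P (nat_lit 10739564299747328))) (P (nat_lit 0))))))) (T.h (T.h (P (nat_lit 0)) (T.h (T.h (P (nat_lit 34219577505904261729353728)) (T.h (P (nat_lit 0)) (T.h (M (nat_lit 220930338352237903871)) (T.h (P (nat_lit 0)) (P (nat_lit 1483797581376)))))) (T.h (P (nat_lit 0)) (T.h (T.h (M (nat_lit 101785428458033119231)) (T.h (P (nat_lit 0)) (M (nat_lit 12048870166367)))) (T.h (P (nat_lit 0)) (P (nat_lit 16720912128480))))))) (T.h (T.h (T.h (P (nat_lit 0)) (T.h (M (nat_lit 4980996676142313242623)) (T.h (P (nat_lit 0)) (P (nat_lit 48486625826766848))))) (T.h (P (nat_lit 0)) (T.h (T.h (P (nat_lit 0)) (M (nat_lit 24734882115387391))) (P (nat_lit 0))))) (T.h (T.h (P (nat_lit 0)) (T.h (T.h (P (nat_lit 62491710756640260096)) (T.h (P (nat_lit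 0)) (P (nat_lit 25587277519872)))) (T.h (P (nat_lit 0)) (M (nat_lit 15194470148207))))) (T.h (T.h (T.h (P (nat_lit 0)) (M (nat_lit 39498243636592639))) (P (nat_lit 0))) (T.h (T.h (P (nat_lit 0)) (P (nat_lit 37160142996432))) (P (nat_lit 0)))))))), (T.h (T.h (T.h (M (nat_lit 4376565908111054628920471060479)) (T.h (P (nat_lit 0)) (T.h (P (nat_lit 14231867605236094332829696)) (T.h (P (nat_lit 0)) (P (nat_lit 43446440039001620480)))))) (T.h (P (nat_lit 0)) (T.h (T.h (P (nat_lit 2426189989763040132726784)) (T.h (P (nat_lit 0)) (M (nat_lit 72511119179431018495)))) (T.h (P (nat_lit 0)) (P (nat_lit 16557050731849318400)))))) (T.h (T.h (P (nat_lit 0)) (T.h (T.h (P (nat_lit 0)) (T.h (P (nat_lit 71765123986171206041600)) (T.h (P (nat_lit 0)) (M (nat_lit 14773472188334079))))) (T.h (P (nat_lit 0)) (T.h (T.h (P (nat_lit 0)) (M (nat_lit 11587415939514367))) (P (nat_lit 0)))))) (T.h (T.h (T.h (P (nat_lit 41657778960101413843107840)) (T.h (P (nat_lit 0)) (P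 (nat_lit 15655914783830441984)))) (T.h (P (nat_lit 0)) (M (nat_lit 6688298021576245247)))) (T.h (T.h (P (nat_lit 0)) (T.h (T.h (P (nat_lit 0)) (M (nat_lit 34024804449157119))) (P (nat_lit 0)))) (P (nat_lit 53440538140462809088))))))]
def lP22_31 : List (T ℤ) := [(T.h (T.h (P (nat_lit 0)) (T.h (T.h (P (nat_lit 5843117400767520869254692864)) (T.h (P (nat_lit 0)) (T.h (M (nat_lit 8661948646476979634175)) (T.h (P (nat_lit 0)) (P (nat_lit 474231768350720)))))) (T.h (P (nat_lit 0)) (T.h (T.h (P (nat_lit 6400777624819452608512)) (T.h (P (nat_lit 0)) (M (nat_lit 24023268860002303)))) (T.h (P (nat_lit 0)) (P (nat_lit 17475433437396992))))))) (T.h (T.h (T.h (P (nat_lit 0)) (T.h (M (nat_lit 1272398404344883965853695)) (T.h (P (nat_lit 0)) (T.h (M (nat_lit 3420608005706612735)) (T.h (P (nat_lit 0)) (P (nat_lit 2356823042256))))))) (T.h (P (nat_lit 0)) (T.h (T.h (P (nat_lit 0)) (T.h (P (nat_lit 34232820611900506112)) (T.h (P (nat_lit 0)) (M (nat_lit 19566681743567)))))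 (T.h (P (nat_lit 0)) (T.h (T.h (P (nat_lit 0)) (M (nat_lit 26139770321999))) (P (nat_lit 0))))))) (T.h (T.h (P (nat_lit 0)) (T.h (T.h (P (nat_lit 6132280081596855353344)) (T.h (P (nat_lit 0)) (P (nat_lit 7274545497210880)))) (T.h (P (nat_lit 0)) (M (nat_lit 10186063040872447))))) (T.h (T.h (T.h (P (nat_lit 0)) (T.h (P (nat_lit 23443956208744005632)) (T.h (P (nat_lit 0)) (P (nat_lit 11034664166160))))) (T.h (P (nat_lit 0)) (T.h (T.h (P (nat_lit 0)) (P (nat_lit 17952904070928))) (P (nat_lit 0))))) (T.h (T.h (P (nat_lit 0)) (M (nat_lit 17608652528943103))) (T.h (T.h (T.h (P (nat_lit 0)) (M (nat_lit 14177834618447))) (P (nat_lit 0))) (P (nat_lit 0)))))))), (T.h (T.h (P (nat_lit 0)) (T.h (T.h (P (nat_lit 0)) (T.h (M (nat_lit 3808010078810433310949375)) (T.h (P (nat_lit 0)) (M (nat_lit 39699916217686949887))))) (T.h (P (nat_lit 0)) (T.h (T.h (P (nat_lit 0)) (P (nat_lit 7228349994594467840))) (P (nat_lit 0)))))) (T.h (T.h (T.h (P (nat_lit 7898869424295032560457613312))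 (T.h (P (nat_lit 0)) (T.h (P (nat_lit 66894456594855284965376)) (T.h (P (nat_lit 0)) (P (nat_lit 17205814889070592)))))) (T.h (P (nat_lit 0)) (T.h (T.h (M (nat_lit 20518604022785385693183)) (T.h (P (nat_lit 0)) (M (nat_lit 4558212600184831)))) (T.h (P (nat_lit 0)) (M (nat_lit 37244374366273535)))))) (T.h (T.h (P (nat_lit 0)) (T.h (T.h (P (nat_lit 0)) (P (nat_lit 47737917958413877248))) (P (nat_lit 0)))) (T.h (T.h (T.h (M (nat_lit 25619508905965531430911)) (T.h (P (nat_lit 0)) (M (nat_lit 34505731325050879)))) (T.h (P (nat_lit 0)) (M (nat_lit 25828239031599103)))) (T.h (P (nat_lit 0)) (M (nat_lit 5990357490696191))))))), (T.h (T.h (T.h (P (nat_lit 1566566538292661711704453808128)) (T.h (P (nat_lit 0)) (T.h (P (nat_lit 3329637082376392511848448)) (T.h (P (nat_lit 0)) (P (nat_lit 3580613197985480704)))))) (T.h (P (nat_lit 0)) (T.h (T.h (M (nat_lit 9732647539352031790628863)) (T.h (P (nat_lit 0)) (P (nat_lit 3306482805604614144)))) (T.h (P (nat_lit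 0)) (M (nat_lit 16297031267554164735)))))) (T.h (T.h (P (nat_lit 0)) (T.h (T.h (P (nat_lit 0)) (T.h (P (nat_lit 26663661396517474795520)) (T.h (P (nat_lit 0)) (P (nat_lit 26715042807218176))))) (T.h (P (nat_lit 0)) (T.h (T.h (P (nat_lit 0)) (P (nat_lit 23433650567217152))) (P (nat_lit 0)))))) (T.h (T.h (T.h (M (nat_lit 9732647539352031790628863)) (T.h (P (nat_lit 0)) (P (nat_lit 3306482805604614144)))) (T.h (P (nat_lit 0)) (M (nat_lit 2048803517447012351)))) (T.h (T.h (P (nat_lit 0)) (T.h (T.h (P (nat_lit 0)) (P (nat_lit 23433650567217152))) (P (nat_lit 0)))) (M (nat_lit 16297031267554164735)))))), (T.h (T.h (P (nat_lit 0)) (T.h (T.h (P (nat_lit 0)) (T.h (P (nat_lit 3147941618468942604402688)) (T.h (P (nat_lit 0)) (T.h (M (nat_lit 14522462245515952127)) (T.h (P (nat_lit 0)) (P (nat_lit 1403340751448))))))) (T.h (P (nat_lit 0)) (T.h (T.h (P (nat_lit 0)) (T.h (M (nat_lit 14654403036332425215)) (T.h (P (nat_lit 0)) (P (nat_lit 3114189266208)))))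 (T.h (P (nat_lit 0)) (T.h (T.h (P (nat_lit 0)) (P (nat_lit 1333360900360))) (P (nat_lit 0)))))))) (T.h (T.h (T.h (M (nat_lit 6710137670469634890370383871)) (T.h (P (nat_lit 0)) (T.h (M (nat_lit 2995186226142658953215)) (T.h (P (nat_lit 0)) (M (nat_lit 8877860582555647)))))) (T.h (P (nat_lit 0)) (T.h (T.h (M (nat_lit 7145578919625811296255)) (T.h (P (nat_lit 0)) (M (nat_lit 5119387493728255)))) (T.h (P (nat_lit 0)) (M (nat_lit 7390483838959615)))))) (T.h (T.h (P (nat_lit 0)) (T.h (T.h (P (nat_lit 0)) (T.h (M (nat_lit 15443931641180848127)) (T.h (P (nat_lit 0)) (M (nat_lit 110400139431))))) (T.h (P (nat_lit 0)) (T.h (T.h (P (nat_lit 0)) (P (nat_lit 4503270309448))) (P (nat_lit 0)))))) (T.h (T.h (T.h (M (nat_lit 8784275359082477518847)) (T.h (P (nat_lit 0)) (M (nat_lit 17858861881032703)))) (T.h (P (nat_lit 0)) (M (nat_lit 6980069744508927)))) (T.h (T.h (P (nat_lit 0)) (T.h (T.h (P (nat_lit 0)) (M (nat_lit 2972229967967))) (P (nat_lit 0)))) (P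 (nat_lit 7334363874459648))))))), (T.h (T.h (P (nat_lit 0)) (T.h (T.h (M (nat_lit 2183137425904434638667907071)) (T.h (P (nat_lit 0)) (T.h (P (nat_lit 1595751522983967981568)) (T.h (P (nat_lit 0)) (M (nat_lit 10387681152090111)))))) (T.h (P (nat_lit 0)) (T.h (T.h (P (nat_lit 1146563286424017174528)) (T.h (P (nat_lit 0)) (M (nat_lit 30936074729717759)))) (T.h (P (nat_lit 0)) (P (nat_lit 2008321073004544))))))) (T.h (T.h (T.h (P (nat_lit 0)) (T.h (P (nat_lit 11006440254763849941516288)) (T.h (P (nat_lit 0)) (T.h (P (nat_lit 16119823565909393408)) (T.h (P (nat_lit 0)) (M (nat_lit 476646617775))))))) (T.h (P (nat_lit 0)) (T.h (T.h (P (nat_lit 0)) (T.h (P (nat_lit 17390635901448617984)) (T.h (P (nat_lit 0)) (P (nat_lit 3403801104368))))) (T.h (P (nat_lit 0)) (T.h (T.h (P (nat_lit 0)) (M (nat_lit 170731117199))) (P (nat_lit 0))))))) (T.h (T.h (P (nat_lit 0)) (T.h (T.h (M (nat_lit 27481446203344965074943)) (T.h (P (nat_lit 0)) (M (nat_lit 1654209649672191))))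 (T.h (P (nat_lit 0)) (P (nat_lit 24685718477160448))))) (T.h (T.h (T.h (P (nat_lit 0)) (T.h (M (nat_lit 10212482558193565695)) (T.h (P (nat_lit 0)) (M (nat_lit 267617463791))))) (T.h (P (nat_lit 0)) (T.h (T.h (P (nat_lit 0)) (P (nat_lit 8038665908672))) (P (nat_lit 0))))) (T.h (T.h (P (nat_lit 0)) (M (nat_lit 4103378252595199))) (T.h (T.h (T.h (P (nat_lit 0)) (P (nat_lit 11875290719936))) (P (nat_lit 0))) (P (nat_lit 0)))))))), (T.h (T.h (P (nat_lit 0)) (T.h (T.h (P (nat_lit 0)) (T.h (M (nat_lit 9744612519320344909053951)) (T.h (P (nat_lit 0)) (T.h (P (nat_lit 34102908446612389888)) (T.h (P (nat_lit 0)) (M (nat_lit 6476982625583))))))) (T.h (P (nat_lit 0)) (T.h (T.h (P (nat_lit 0)) (T.h (P (nat_lit 9667191310800388096)) (T.h (P (nat_lit 0)) (P (nat_lit 4857184123440))))) (T.h (P (nat_lit 0)) (T.h (T.h (P (nat_lit 0)) (M (nat_lit 10532954572847))) (P (nat_lit 0)))))))) (T.h (T.h (T.h (P (nat_lit 11313976674552367672482332672)) (T.h (P (nat_lit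 0)) (T.h (P (nat_lit 33718085873639784185856)) (T.h (P (nat_lit 0)) (P (nat_lit 36005077282291712)))))) (T.h (P (nat_lit 0)) (T.h (T.h (P (nat_lit 19364957739904718077952)) (T.h (P (nat_lit 0)) (P (nat_lit 167049185427456)))) (T.h (P (nat_lit 0)) (P (nat_lit 4063298060451840)))))) (T.h (T.h (P (nat_lit 0)) (T.h (T.h (P (nat_lit 0)) (T.h (P (nat_lit 15404681006925479936)) (T.h (P (nat_lit 0)) (P (nat_lit 22906366434768))))) (T.h (P (nat_lit 0)) (T.h (T.h (P (nat_lit 0)) (P (nat_lit 29450906897184))) (P (nat_lit 0)))))) (T.h (T.h (T.h (P (nat_lit 8332338091939801858048)) (T.h (P (nat_lit 0)) (M (nat_lit 4380692289847295)))) (T.h (P (nat_lit 0)) (M (nat_lit 4670380306137087)))) (T.h (T.h (P (nat_lit 0)) (T.h (T.h (P (nat_lit 0)) (P (nat_lit 1843978334112))) (P (nat_lit 0)))) (P (nat_lit 2381733355126784))))))), (T.h (T.h (P (nat_lit 0)) (T.h (T.h (M (nat_lit 6042046692253407089126277119)) (T.h (P (nat_lit 0)) (T.h (M (nat_lit 14969039455327191302143))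 (T.h (P (nat_lit 0)) (P (nat_lit 20020676905156608)))))) (T.h (P (nat_lit 0)) (T.h (T.h (M (nat_lit 11576057405531314192383)) (T.h (P (nat_lit 0)) (P (nat_lit 2434349087997952)))) (T.h (P (nat_lit 0)) (P (nat_lit 1926790763511808))))))) (T.h (T.h (T.h (P (nat_lit 0)) (T.h (M (nat_lit 6844849078918847777472511)) (T.h (P (nat_lit 0)) (M (nat_lit 56493968664372969471))))) (T.h (P (nat_lit 0)) (T.h (T.h (P (nat_lit 0)) (M (nat_lit 20744543133969154047))) (P (nat_lit 0))))) (T.h (T.h (P (nat_lit 0)) (T.h (T.h (P (nat_lit 53299571303992958910464)) (T.h (P (nat_lit 0)) (M (nat_lit 56791017192112127)))) (T.h (P (nat_lit 0)) (M (nat_lit 28456604404973567))))) (T.h (T.h (T.h (P (nat_lit 0)) (M (nat_lit 13483878538738139135))) (P (nat_lit 0))) (T.h (T.h (P (nat_lit 0)) (P (nat_lit 23858065197891584))) (P (nat_lit 0))))))), (T.h (T.h (T.h (P (nat_lit 0)) (T.h (M (nat_lit 2183137425904434638667907071)) (T.h (P (nat_lit 0)) (T.h (P (nat_lit 1146563286424017174528))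 (T.h (P (nat_lit 0)) (P (nat_lit 2008321073004544))))))) (T.h (P (nat_lit 0)) (T.h (T.h (P (nat_lit 0)) (T.h (P (nat_lit 1595751522983967981568)) (T.h (P (nat_lit 0)) (M (nat_lit 30936074729717759))))) (T.h (P (nat_lit 0)) (T.h (T.h (P (nat_lit 0)) (M (nat_lit 10387681152090111))) (P (nat_lit 0))))))) (T.h (T.h (P (nat_lit 0)) (T.h (T.h (P (nat_lit 11006440254763849941516288)) (T.h (P (nat_lit 0)) (T.h (P (nat_lit 17390635901448617984)) (T.h (P (nat_lit 0)) (M (nat_lit 170731117199)))))) (T.h (P (nat_lit 0)) (T.h (T.h (P (nat_lit 16119823565909393408)) (T.h (P (nat_lit 0)) (P (nat_lit 3403801104368)))) (T.h (P (nat_lit 0)) (M (nat_lit 476646617775))))))) (T.h (T.h (T.h (P (nat_lit 0)) (T.h (M (nat_lit 27481446203344965074943)) (T.h (P (nat_lit 0)) (P (nat_lit 24685718477160448))))) (T.h (P (nat_lit 0)) (T.h (T.h (P (nat_lit 0)) (M (nat_lit 1654209649672191))) (P (nat_lit 0))))) (T.h (T.h (P (nat_lit 0)) (T.h (T.h (M (nat_lit 10212482558193565695))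 (T.h (P (nat_lit 0)) (P (nat_lit 8038665908672)))) (T.h (P (nat_lit 0)) (M (nat_lit 267617463791))))) (T.h (T.h (T.h (P (nat_lit 0)) (M (nat_lit 4103378252595199))) (P (nat_lit 0))) (T.h (T.h (P (nat_lit 0)) (P (nat_lit 11875290719936))) (P (nat_lit 0))))))))]
def lP22_32 : List (T ℤ) := [(T.h (T.h (T.h (M (nat_lit 810696587689923214839151329279)) (T.h (P (nat_lit 0)) (T.h (M (nat_lit 3407005411166908284141567)) (T.h (P (nat_lit 0)) (T.h (P (nat_lit 558531456423428096)) (T.h (P (nat_lit 0)) (M (nat_lit 4261242224735)))))))) (T.h (P (nat_lit 0)) (T.h (T.h (M (nat_lit 3407005411166908284141567)) (T.h (P (nat_lit 0)) (T.h (P (nat_lit 96046158667346608128)) (T.h (P (nat_lit 0)) (M (nat_lit 6016117140431)))))) (T.h (P (nat_lit 0)) (T.h (T.h (P (nat_lit 558531456423428096)) (T.h (P (nat_lit 0)) (M (nat_lit 6016117140431)))) (T.h (P (nat_lit 0)) (M (nat_lit 4261242224735)))))))) (T.h (T.h (P (nat_lit 0)) (T.h (T.h (P (nat_lit 0)) (T.h (P (nat_lit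 81885751788132947197952)) (T.h (P (nat_lit 0)) (P (nat_lit 62483176773517312))))) (T.h (P (nat_lit 0)) (T.h (T.h (P (nat_lit 0)) (P (nat_lit 62483176773517312))) (P (nat_lit 0)))))) (T.h (T.h (T.h (P (nat_lit 37753905792173428090863616)) (T.h (P (nat_lit 0)) (T.h (M (nat_lit 69781802947230826495)) (T.h (P (nat_lit 0)) (P (nat_lit 9878987290848)))))) (T.h (P (nat_lit 0)) (T.h (T.h (M (nat_lit 69781802947230826495)) (T.h (P (nat_lit 0)) (P (nat_lit 30474460727712)))) (T.h (P (nat_lit 0)) (P (nat_lit 9878987290848)))))) (T.h (T.h (P (nat_lit 0)) (T.h (T.h (P (nat_lit 0)) (M (nat_lit 59976003680468991))) (P (nat_lit 0)))) (T.h (T.h (T.h (M (nat_lit 3032841192715845631)) (T.h (P (nat_lit 0)) (P (nat_lit 13392062460096)))) (T.h (P (nat_lit 0)) (P (nat_lit 13392062460096)))) (T.h (P (nat_lit 0)) (P (nat_lit 6720453248160)))))))), (T.h (T.h (T.h (P (nat_lit 0)) (T.h (P (nat_lit 6460059366920003304890040320)) (T.h (P (nat_lit 0)) (T.h (P (nat_lit 2091539799563263016960))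 (T.h (P (nat_lit 0)) (P (nat_lit 4366434007007232))))))) (T.h (P (nat_lit 0)) (T.h (T.h (P (nat_lit 0)) (T.h (M (nat_lit 11020370147524416110591)) (T.h (P (nat_lit 0)) (P (nat_lit 8082274672050176))))) (T.h (P (nat_lit 0)) (T.h (T.h (P (nat_lit 0)) (P (nat_lit 21621027152003072))) (P (nat_lit 0))))))) (T.h (T.h (P (nat_lit 0)) (T.h (T.h (M (nat_lit 29704257341568327306182655)) (T.h (P (nat_lit 0)) (M (nat_lit 56787007298087157759)))) (T.h (P (nat_lit 0)) (M (nat_lit 48285275319487692799))))) (T.h (T.h (T.h (P (nat_lit 0)) (T.h (M (nat_lit 11814248809590847176703)) (T.h (P (nat_lit 0)) (M (nat_lit 12852211703660543))))) (T.h (P (nat_lit 0)) (T.h (T.h (P (nat_lit 0)) (M (nat_lit 92114123560796159))) (P (nat_lit 0))))) (T.h (T.h (P (nat_lit 0)) (P (nat_lit 109197555107438264320))) (T.h (T.h (T.h (P (nat_lit 0)) (M (nat_lit 72901064570929151))) (P (nat_lit 0))) (P (nat_lit 0))))))), (T.h (T.h (P (nat_lit 0)) (T.h (T.h (P (nat_lit 0)) (T.h (M (nat_lit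 6596670900851402304651263)) (T.h (P (nat_lit 0)) (T.h (M (nat_lit 4921241330123800575)) (T.h (P (nat_lit 0)) (M (nat_lit 9164603746943))))))) (T.h (P (nat_lit 0)) (T.h (T.h (P (nat_lit 0)) (T.h (P (nat_lit 19514475805688201216)) (T.h (P (nat_lit 0)) (P (nat_lit 7971373389648))))) (T.h (P (nat_lit 0)) (T.h (T.h (P (nat_lit 0)) (M (nat_lit 5108631799679))) (P (nat_lit 0)))))))) (T.h (T.h (T.h (P (nat_lit 4603839004082732782111948800)) (T.h (P (nat_lit 0)) (T.h (P (nat_lit 14294575167020482953216)) (T.h (P (nat_lit 0)) (M (nat_lit 4070874150305791)))))) (T.h (P (nat_lit 0)) (T.h (T.h (P (nat_lit 28647703300755549061120)) (T.h (P (nat_lit 0)) (M (nat_lit 4952338308300799)))) (T.h (P (nat_lit 0)) (P (nat_lit 27870905071534080)))))) (T.h (T.h (P (nat_lit 0)) (T.h (T.h (P (nat_lit 0)) (T.h (M (nat_lit 39250634255368191)) (T.h (P (nat_lit 0)) (P (nat_lit 31647341982192))))) (T.h (P (nat_lit 0)) (T.h (T.h (P (nat_lit 0)) (P (nat_lit 25102801519776)))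 (P (nat_lit 0)))))) (T.h (T.h (T.h (M (nat_lit 451937267142675660799)) (T.h (P (nat_lit 0)) (M (nat_lit 17089846118907903)))) (T.h (P (nat_lit 0)) (M (nat_lit 16800158102618111)))) (T.h (T.h (P (nat_lit 0)) (T.h (T.h (P (nat_lit 0)) (M (nat_lit 1128251633855))) (P (nat_lit 0)))) (P (nat_lit 9716097229586432))))))), (T.h (T.h (P (nat_lit 0)) (T.h (T.h (P (nat_lit 3057717378853825663268290560)) (T.h (P (nat_lit 0)) (T.h (P (nat_lit 8447562600720023683072)) (T.h (P (nat_lit 0)) (P (nat_lit 19241456788209664)))))) (T.h (P (nat_lit 0)) (T.h (T.h (P (nat_lit 1780258074724053024768)) (T.h (P (nat_lit 0)) (P (nat_lit 4163999934857216)))) (T.h (P (nat_lit 0)) (P (nat_lit 4763365724028928))))))) (T.h (T.h (T.h (P (nat_lit 0)) (T.h (M (nat_lit 12660772485101187447652351)) (T.h (P (nat_lit 0)) (M (nat_lit 35855661794571845631))))) (T.h (P (nat_lit 0)) (T.h (T.h (P (nat_lit 0)) (M (nat_lit 45047154406338854911))) (P (nat_lit 0))))) (T.h (T.h (P (nat_lit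 0)) (T.h (T.h (M (nat_lit 34371714572181032665087)) (T.h (P (nat_lit 0)) (M (nat_lit 79412148893564927)))) (T.h (P (nat_lit 0)) (M (nat_lit 6497396134756351))))) (T.h (T.h (T.h (P (nat_lit 0)) (P (nat_lit 112093646349093830656))) (P (nat_lit 0))) (T.h (T.h (P (nat_lit 0)) (M (nat_lit 72177182128979967))) (P (nat_lit 0))))))), (T.h (T.h (T.h (P (nat_lit 0)) (T.h (M (nat_lit 9444388680319584730748026879)) (T.h (P (nat_lit 0)) (T.h (M (nat_lit 11887339130370524184575)) (T.h (P (nat_lit 0)) (P (nat_lit 2323722480533504))))))) (T.h (P (nat_lit 0)) (T.h (T.h (P (nat_lit 0)) (T.h (P (nat_lit 4498893292917248491520)) (T.h (P (nat_lit 0)) (M (nat_lit 1483925649195007))))) (T.h (P (nat_lit 0)) (T.h (T.h (P (nat_lit 0)) (P (nat_lit 17641106541363200))) (P (nat_lit 0))))))) (T.h (T.h (P (nat_lit 0)) (T.h (T.h (P (nat_lit 10198635777548292081057792)) (T.h (P (nat_lit 0)) (M (nat_lit 9004690242220851199)))) (T.h (P (nat_lit 0)) (M (nat_lit 44064355139457122303)))))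 (T.h (T.h (T.h (P (nat_lit 0)) (T.h (P (nat_lit 30742105541402773422080)) (T.h (P (nat_lit 0)) (M (nat_lit 22101788836069375))))) (T.h (P (nat_lit 0)) (T.h (T.h (P (nat_lit 0)) (M (nat_lit 44089042524880895))) (P (nat_lit 0))))) (T.h (T.h (P (nat_lit 0)) (M (nat_lit 10587787297082572799))) (T.h (T.h (T.h (P (nat_lit 0)) (P (nat_lit 24581947639840768))) (P (nat_lit 0))) (P (nat_lit 0))))))), (T.h (T.h (T.h (P (nat_lit 7955821324122392065238856892416)) (T.h (P (nat_lit 0)) (T.h (P (nat_lit 706434760272425848406016)) (T.h (P (nat_lit 0)) (T.h (P (nat_lit 4427669298030313472)) (T.h (P (nat_lit 0)) (M (nat_lit 2838909460015)))))))) (T.h (P (nat_lit 0)) (T.h (T.h (P (nat_lit 706434760272425848406016)) (T.h (P (nat_lit 0)) (T.h (P (nat_lit 4485432474456817664)) (T.h (P (nat_lit 0)) (P (nat_lit 1714226929744)))))) (T.h (P (nat_lit 0)) (T.h (T.h (P (nat_lit 4427669298030313472)) (T.h (P (nat_lit 0)) (P (nat_lit 1714226929744)))) (T.h (P (nat_lit 0))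 (M (nat_lit 2838909460015)))))))) (T.h (T.h (P (nat_lit 0)) (T.h (T.h (P (nat_lit 0)) (T.h (P (nat_lit 10114515785597969235968)) (T.h (P (nat_lit 0)) (M (nat_lit 7725811003260927))))) (T.h (P (nat_lit 0)) (T.h (T.h (P (nat_lit 0)) (M (nat_lit 7725811003260927))) (P (nat_lit 0)))))) (T.h (T.h (T.h (P (nat_lit 7393668704782508321931264)) (T.h (P (nat_lit 0)) (T.h (P (nat_lit 14592576984723750912)) (T.h (P (nat_lit 0)) (M (nat_lit 4410506974159)))))) (T.h (P (nat_lit 0)) (T.h (T.h (P (nat_lit 14592576984723750912)) (T.h (P (nat_lit 0)) (M (nat_lit 4950411610591)))) (T.h (P (nat_lit 0)) (M (nat_lit 4410506974159)))))) (T.h (T.h (P (nat_lit 0)) (T.h (T.h (P (nat_lit 0)) (P (nat_lit 123914970333184))) (P (nat_lit 0)))) (T.h (T.h (T.h (M (nat_lit 4062598691368730623)) (T.h (P (nat_lit 0)) (M (nat_lit 3133739275967)))) (T.h (P (nat_lit 0)) (M (nat_lit 3133739275967)))) (T.h (P (nat_lit 0)) (P (nat_lit 3652989002656)))))))), (T.h (T.h (T.h (P (nat_lit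 0)) (T.h (P (nat_lit 6851398732185546236270477312)) (T.h (P (nat_lit 0)) (T.h (M (nat_lit 4732893267667112165375)) (T.h (P (nat_lit 0)) (P (nat_lit 10744085451014144))))))) (T.h (P (nat_lit 0)) (T.h (T.h (P (nat_lit 0)) (T.h (M (nat_lit 21425206370652458582015)) (T.h (P (nat_lit 0)) (M (nat_lit 6016024335384575))))) (T.h (P (nat_lit 0)) (T.h (T.h (P (nat_lit 0)) (M (nat_lit 12728265808248831))) (P (nat_lit 0))))))) (T.h (T.h (P (nat_lit 0)) (T.h (T.h (M (nat_lit 11660322374750600744140799)) (T.h (P (nat_lit 0)) (T.h (P (nat_lit 39841637126717308928)) (T.h (P (nat_lit 0)) (M (nat_lit 129643420655)))))) (T.h (P (nat_lit 0)) (T.h (T.h (M (nat_lit 24783823898534739967)) (T.h (P (nat_lit 0)) (M (nat_lit 2136752720495)))) (T.h (P (nat_lit 0)) (P (nat_lit 2531236715616))))))) (T.h (T.h (T.h (P (nat_lit 0)) (T.h (P (nat_lit 18348311073687137681408)) (T.h (P (nat_lit 0)) (P (nat_lit 12497095545683968))))) (T.h (P (nat_lit 0)) (T.h (T.h (P (nat_lit 0))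 (P (nat_lit 10815406722252800))) (P (nat_lit 0))))) (T.h (T.h (P (nat_lit 0)) (T.h (T.h (M (nat_lit 18520378691960176639)) (T.h (P (nat_lit 0)) (P (nat_lit 14600707220976)))) (T.h (P (nat_lit 0)) (P (nat_lit 6938019607344))))) (T.h (T.h (T.h (P (nat_lit 0)) (M (nat_lit 17793055875203071))) (P (nat_lit 0))) (T.h (T.h (P (nat_lit 0)) (M (nat_lit 170296125263))) (P (nat_lit 0)))))))), (T.h (T.h (T.h (M (nat_lit 3740987061095588908554208149503)) (T.h (P (nat_lit 0)) (T.h (M (nat_lit 5433840824042394268729343)) (T.h (P (nat_lit 0)) (M (nat_lit 22334308507541569535)))))) (T.h (P (nat_lit 0)) (T.h (T.h (P (nat_lit 6371836791430659931373568)) (T.h (P (nat_lit 0)) (P (nat_lit 1290952850234408960)))) (T.h (P (nat_lit 0)) (P (nat_lit 4555080799610732544)))))) (T.h (T.h (P (nat_lit 0)) (T.h (T.h (P (nat_lit 0)) (T.h (P (nat_lit 17990970770476507332608)) (T.h (P (nat_lit 0)) (M (nat_lit 15460406335799295))))) (T.h (P (nat_lit 0)) (T.h (T.h (P (nat_lit 0))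 (M (nat_lit 18646462584619007))) (P (nat_lit 0)))))) (T.h (T.h (T.h (M (nat_lit 6728416557359817807626239)) (T.h (P (nat_lit 0)) (M (nat_lit 21405234359835820031)))) (T.h (P (nat_lit 0)) (P (nat_lit 938978445570867200)))) (T.h (T.h (P (nat_lit 0)) (T.h (T.h (P (nat_lit 0)) (M (nat_lit 12485061215027199))) (P (nat_lit 0)))) (M (nat_lit 6702443274973478911))))))]
def lP22_33 : List (T ℤ) := [(T.h (T.h (P (nat_lit 0)) (T.h (T.h (P (nat_lit 6851398732185546236270477312)) (T.h (P (nat_lit 0)) (T.h (M (nat_lit 21425206370652458582015)) (T.h (P (nat_lit 0)) (M (nat_lit 12728265808248831)))))) (T.h (P (nat_lit 0)) (T.h (T.h (M (nat_lit 4732893267667112165375)) (T.h (P (nat_lit 0)) (M (nat_lit 6016024335384575)))) (T.h (P (nat_lit 0)) (P (nat_lit 10744085451014144))))))) (T.h (T.h (T.h (P (nat_lit 0)) (T.h (M (nat_lit 11660322374750600744140799)) (T.h (P (nat_lit 0)) (T.h (M (nat_lit 24783823898534739967)) (T.h (P (nat_lit 0)) (P (nat_lit 2531236715616)))))))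 (T.h (P (nat_lit 0)) (T.h (T.h (P (nat_lit 0)) (T.h (P (nat_lit 39841637126717308928)) (T.h (P (nat_lit 0)) (M (nat_lit 2136752720495))))) (T.h (P (nat_lit 0)) (T.h (T.h (P (nat_lit 0)) (M (nat_lit 129643420655))) (P (nat_lit 0))))))) (T.h (T.h (P (nat_lit 0)) (T.h (T.h (P (nat_lit 18348311073687137681408)) (T.h (P (nat_lit 0)) (P (nat_lit 10815406722252800)))) (T.h (P (nat_lit 0)) (P (nat_lit 12497095545683968))))) (T.h (T.h (T.h (P (nat_lit 0)) (T.h (M (nat_lit 18520378691960176639)) (T.h (P (nat_lit 0)) (P (nat_lit 6938019607344))))) (T.h (P (nat_lit 0)) (T.h (T.h (P (nat_lit 0)) (P (nat_lit 14600707220976))) (P (nat_lit 0))))) (T.h (T.h (P (nat_lit 0)) (M (nat_lit 17793055875203071))) (T.h (T.h (T.h (P (nat_lit 0)) (M (nat_lit 170296125263))) (P (nat_lit 0))) (P (nat_lit 0)))))))), (T.h (T.h (P (nat_lit 0)) (T.h (T.h (P (nat_lit 0)) (T.h (P (nat_lit 4552137591189246866096128)) (T.h (P (nat_lit 0)) (M (nat_lit 3540785065044738047))))) (T.h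 (P (nat_lit 0)) (T.h (T.h (P (nat_lit 0)) (M (nat_lit 3540785065044738047))) (P (nat_lit 0)))))) (T.h (T.h (T.h (M (nat_lit 10791888917891311952700899327)) (T.h (P (nat_lit 0)) (T.h (P (nat_lit 39314200272193718321152)) (T.h (P (nat_lit 0)) (M (nat_lit 11019781030952959)))))) (T.h (P (nat_lit 0)) (T.h (T.h (P (nat_lit 39314200272193718321152)) (T.h (P (nat_lit 0)) (M (nat_lit 16427828951875583)))) (T.h (P (nat_lit 0)) (M (nat_lit 11019781030952959)))))) (T.h (T.h (P (nat_lit 0)) (T.h (T.h (P (nat_lit 0)) (P (nat_lit 60886120603446149120))) (P (nat_lit 0)))) (T.h (T.h (T.h (M (nat_lit 1626752472681682042879)) (T.h (P (nat_lit 0)) (M (nat_lit 30372869421531135)))) (T.h (P (nat_lit 0)) (M (nat_lit 30372869421531135)))) (T.h (P (nat_lit 0)) (M (nat_lit 13647232764051455))))))), (T.h (T.h (T.h (M (nat_lit 1410570906212094888288156909567)) (T.h (P (nat_lit 0)) (T.h (P (nat_lit 9092474658105973488484352)) (T.h (P (nat_lit 0)) (P (nat_lit 6450639816894709760))))))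 (T.h (P (nat_lit 0)) (T.h (T.h (M (nat_lit 2713202957367080711618559)) (T.h (P (nat_lit 0)) (P (nat_lit 2049630866191155200)))) (T.h (P (nat_lit 0)) (M (nat_lit 20438749490257592319)))))) (T.h (T.h (P (nat_lit 0)) (T.h (T.h (P (nat_lit 0)) (T.h (P (nat_lit 25522296248950983753728)) (T.h (P (nat_lit 0)) (M (nat_lit 20145895602651135))))) (T.h (P (nat_lit 0)) (T.h (T.h (P (nat_lit 0)) (M (nat_lit 16959839353831423))) (P (nat_lit 0)))))) (T.h (T.h (T.h (P (nat_lit 736332230657898056777728)) (T.h (P (nat_lit 0)) (P (nat_lit 9901124243519700992)))) (T.h (P (nat_lit 0)) (M (nat_lit 12443088561886986239)))) (T.h (T.h (P (nat_lit 0)) (T.h (T.h (P (nat_lit 0)) (M (nat_lit 8426976565428223))) (P (nat_lit 0)))) (M (nat_lit 8275653059435036671)))))), (T.h (T.h (P (nat_lit 0)) (T.h (T.h (P (nat_lit 0)) (T.h (M (nat_lit 3147941618468942604402687)) (T.h (P (nat_lit 0)) (T.h (P (nat_lit 14588432640924188672)) (T.h (P (nat_lit 0)) (M (nat_lit 1368350825903)))))))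 (T.h (P (nat_lit 0)) (T.h (T.h (P (nat_lit 0)) (T.h (P (nat_lit 14588432640924188672)) (T.h (P (nat_lit 0)) (M (nat_lit 3114189266207))))) (T.h (P (nat_lit 0)) (T.h (T.h (P (nat_lit 0)) (M (nat_lit 1368350825903))) (P (nat_lit 0)))))))) (T.h (T.h (T.h (P (nat_lit 6710137670469634890370383872)) (T.h (P (nat_lit 0)) (T.h (P (nat_lit 5070382572884235124736)) (T.h (P (nat_lit 0)) (P (nat_lit 8134172210757632)))))) (T.h (P (nat_lit 0)) (T.h (T.h (P (nat_lit 5070382572884235124736)) (T.h (P (nat_lit 0)) (P (nat_lit 5119387493728256)))) (T.h (P (nat_lit 0)) (P (nat_lit 8134172210757632)))))) (T.h (T.h (P (nat_lit 0)) (T.h (T.h (P (nat_lit 0)) (T.h (P (nat_lit 15443931641180848128)) (T.h (P (nat_lit 0)) (M (nat_lit 2196435085007))))) (T.h (P (nat_lit 0)) (T.h (T.h (P (nat_lit 0)) (M (nat_lit 2196435085007))) (P (nat_lit 0)))))) (T.h (T.h (T.h (P (nat_lit 8784275359082477518848)) (T.h (P (nat_lit 0)) (P (nat_lit 12419465812770816)))) (T.h (P (nat_lit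 0)) (P (nat_lit 12419465812770816)))) (T.h (T.h (P (nat_lit 0)) (T.h (T.h (P (nat_lit 0)) (P (nat_lit 2972229967968))) (P (nat_lit 0)))) (M (nat_lit 7334363874459647))))))), (T.h (T.h (P (nat_lit 0)) (T.h (T.h (P (nat_lit 3402341988066177641621749760)) (T.h (P (nat_lit 0)) (T.h (M (nat_lit 19467932748244439793663)) (T.h (P (nat_lit 0)) (P (nat_lit 2379570363793408)))))) (T.h (P (nat_lit 0)) (T.h (T.h (P (nat_lit 311281724839209992192)) (T.h (P (nat_lit 0)) (P (nat_lit 3918274737192960)))) (T.h (P (nat_lit 0)) (M (nat_lit 396931717021695))))))) (T.h (T.h (T.h (P (nat_lit 0)) (T.h (M (nat_lit 17043484856467139858530303)) (T.h (P (nat_lit 0)) (M (nat_lit 12429613524915847167))))) (T.h (P (nat_lit 0)) (T.h (T.h (P (nat_lit 0)) (M (nat_lit 11739852891748302847))) (P (nat_lit 0))))) (T.h (T.h (P (nat_lit 0)) (T.h (T.h (P (nat_lit 22557465762590185488384)) (T.h (P (nat_lit 0)) (M (nat_lit 12701974667231231)))) (T.h (P (nat_lit 0)) (M (nat_lit 6354815568904191)))))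 (T.h (T.h (T.h (P (nat_lit 0)) (M (nat_lit 2896091241655566335))) (P (nat_lit 0))) (T.h (T.h (P (nat_lit 0)) (M (nat_lit 723882441949183))) (P (nat_lit 0))))))), (T.h (T.h (T.h (P (nat_lit 0)) (T.h (P (nat_lit 3402341988066177641621749760)) (T.h (P (nat_lit 0)) (T.h (P (nat_lit 311281724839209992192)) (T.h (P (nat_lit 0)) (M (nat_lit 396931717021695))))))) (T.h (P (nat_lit 0)) (T.h (T.h (P (nat_lit 0)) (T.h (M (nat_lit 19467932748244439793663)) (T.h (P (nat_lit 0)) (P (nat_lit 3918274737192960))))) (T.h (P (nat_lit 0)) (T.h (T.h (P (nat_lit 0)) (P (nat_lit 2379570363793408))) (P (nat_lit 0))))))) (T.h (T.h (P (nat_lit 0)) (T.h (T.h (M (nat_lit 17043484856467139858530303)) (T.h (P (nat_lit 0)) (M (nat_lit 11739852891748302847)))) (T.h (P (nat_lit 0)) (M (nat_lit 12429613524915847167))))) (T.h (T.h (T.h (P (nat_lit 0)) (T.h (P (nat_lit 22557465762590185488384)) (T.h (P (nat_lit 0)) (M (nat_lit 6354815568904191))))) (T.h (P (nat_lit 0)) (T.h (T.h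 (P (nat_lit 0)) (M (nat_lit 12701974667231231))) (P (nat_lit 0))))) (T.h (T.h (P (nat_lit 0)) (M (nat_lit 2896091241655566335))) (T.h (T.h (T.h (P (nat_lit 0)) (M (nat_lit 723882441949183))) (P (nat_lit 0))) (P (nat_lit 0))))))), (T.h (T.h (T.h (M (nat_lit 2330416154883494020266051239935)) (T.h (P (nat_lit 0)) (T.h (M (nat_lit 2720637866675313557110783)) (T.h (P (nat_lit 0)) (M (nat_lit 1895559017283977215)))))) (T.h (P (nat_lit 0)) (T.h (T.h (M (nat_lit 2720637866675313557110783)) (T.h (P (nat_lit 0)) (M (nat_lit 758678015956746239)))) (T.h (P (nat_lit 0)) (M (nat_lit 1895559017283977215)))))) (T.h (T.h (P (nat_lit 0)) (T.h (T.h (P (nat_lit 0)) (T.h (M (nat_lit 7531325478474476421119)) (T.h (P (nat_lit 0)) (P (nat_lit 1499433018032128))))) (T.h (P (nat_lit 0)) (T.h (T.h (P (nat_lit 0)) (P (nat_lit 1499433018032128))) (P (nat_lit 0)))))) (T.h (T.h (T.h (M (nat_lit 7464748788017715864403967)) (T.h (P (nat_lit 0)) (M (nat_lit 8962145797948833791))))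 (T.h (P (nat_lit 0)) (M (nat_lit 8962145797948833791)))) (T.h (T.h (P (nat_lit 0)) (T.h (T.h (P (nat_lit 0)) (M (nat_lit 4058084649598975))) (P (nat_lit 0)))) (P (nat_lit 1573209784461557760))))))]

def CP22 : List (T ℤ) := lP22_0 ++ (lP22_1 ++ (lP22_2 ++ (lP22_3 ++ (lP22_4 ++ (lP22_5 ++ (lP22_6 ++ (lP22_7 ++ (lP22_8 ++ (lP22_9 ++ (lP22_10 ++ (lP22_11 ++ (lP22_12 ++ (lP22_13 ++ (lP22_14 ++ (lP22_15 ++ (lP22_16 ++ (lP22_17 ++ (lP22_18 ++ (lP22_19 ++ (lP22_20 ++ (lP22_21 ++ (lP22_22 ++ (lP22_23 ++ (lP22_24 ++ (lP22_25 ++ (lP22_26 ++ (lP22_27 ++ (lP22_28 ++ (lP22_29 ++ (lP22_30 ++ (lP22_31 ++ (lP22_32 ++ (lP22_33)))))))))))))))))))))))))))))))))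

/-- norms at radius 1536 -/
def NP22 : List ℕ := [(nat_lit 0), (nat_lit 4410501400340933843783516160000), (nat_lit 0), (nat_lit 0), (nat_lit 411411046674264767696847352365056), (nat_lit 969082308023408760553985399586816), (nat_lit 888601049330881506005857484144640), (nat_lit 966182649131066802350770473664512), (nat_lit 254261625275541648269989904384000), (nat_lit 0), (nat_lit 0), (nat_lit 0), (nat_lit 953227998367009259849341112156160), (nat_lit 2142046662201826503673660582133760), (nat_lit 1331223519653302334975689598435328), (nat_lit 1613795309023943884322386080694272), (nat_lit 575873884669591678851402210213888), (nat_lit 0), (nat_lit 0), (nat_lit 0), (nat_lit 2226587653407480050283849562718208), (nat_lit 2284299159478268647550544676651008), (nat_lit 2728708445901069178453412347379712), (nat_lit 2056600871900106544620448178503680), (nat_lit 844307570411493033698848254459904), (nat_lit 0), (nat_lit 0), (nat_lit 953227998367009259849341112156160),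 (nat_lit 2284299159478268647550544676651008), (nat_lit 2455994549847383082120368093134848), (nat_lit 2285625970940388257796122581401600), (nat_lit 1523159102365283540589368190173184), (nat_lit 0), (nat_lit 0), (nat_lit 411411046674264767696847352365056), (nat_lit 2142046662201826503673660582133760), (nat_lit 2728708445901069178453412347379712), (nat_lit 2285625970940388257796122581401600), (nat_lit 1030659033753610179230285934100480), (nat_lit 0), (nat_lit 0), (nat_lit 969082308023408760553985399586816), (nat_lit 1331223519653302334975689598435328), (nat_lit 2056600871900106544620448178503680), (nat_lit 1523159102365283540589368190173184), (nat_lit 0), (nat_lit 0), (nat_lit 888601049330881506005857484144640), (nat_lit 1613795309023943884322386080694272), (nat_lit 844307570411493033698848254459904), (nat_lit 0), (nat_lit 0), (nat_lit 966182649131066802350770473664512), (nat_lit 575873884669591678851402210213888), (nat_lit 0), (nat_lit 0), (nat_lit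 254261625275541648269989904384000), (nat_lit 0), (nat_lit 0), (nat_lit 0), (nat_lit 0), (nat_lit 0), (nat_lit 953227998367009259849341112156160), (nat_lit 1752842059181502943117721708003328), (nat_lit 1331223519653302334975689598435328), (nat_lit 1613795309023943884322386080694272), (nat_lit 575873884669591678851402210213888), (nat_lit 0), (nat_lit 0), (nat_lit 776813729102413189154646075113472), (nat_lit 5235430598610970402055310591131648), (nat_lit 2185217542587216098846771874103296), (nat_lit 4688103931489208572784723686850560), (nat_lit 1661411954141767186527260705292288), (nat_lit 0), (nat_lit 0), (nat_lit 776813729102413189154646075113472), (nat_lit 7426745476942561020989719808311296), (nat_lit 4080867584233213937665393507172352), (nat_lit 5355020153855416248976047354150912), (nat_lit 2862910505307994813264819101106176), (nat_lit 0), (nat_lit 0), (nat_lit 953227998367009259849341112156160), (nat_lit 5279927630702985230742773206876160),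 (nat_lit 4080867584233213937665393507172352), (nat_lit 5688717577105362174555035755610112), (nat_lit 2029241539833486410631108007821312), (nat_lit 0), (nat_lit 0), (nat_lit 2686060241129475290260266981261312), (nat_lit 2185217542587216098846771874103296), (nat_lit 5355020153855416248976047354150912), (nat_lit 2029241539833486410631108007821312), (nat_lit 0), (nat_lit 875938543475581903025900800180224), (nat_lit 1331223519653302334975689598435328), (nat_lit 4688103931489208572784723686850560), (nat_lit 2862910505307994813264819101106176), (nat_lit 0), (nat_lit 0), (nat_lit 1613795309023943884322386080694272), (nat_lit 1661411954141767186527260705292288), (nat_lit 0), (nat_lit 0), (nat_lit 575873884669591678851402210213888), (nat_lit 0), (nat_lit 0), (nat_lit 0), (nat_lit 4410501400340933843783516160000), (nat_lit 0), (nat_lit 0), (nat_lit 2227932037450282489519518747983872), (nat_lit 3999755850615060483460401261969408), (nat_lit 2592479843432019213791805296345088),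 (nat_lit 2033034646909800038137643466227712), (nat_lit 829558652494349408059243093819392), (nat_lit 0), (nat_lit 0), (nat_lit 991291877761452764781254088327168), (nat_lit 6019890783252110815722016660783104), (nat_lit 4486180683077042225393653449228288), (nat_lit 5361650554770908487499511079370752), (nat_lit 3175039197738602221090590947278848), (nat_lit 0), (nat_lit 0), (nat_lit 2855253100894951868166864239591424), (nat_lit 5673593245875617649447626505977856), (nat_lit 7276991152366735808654095008399360), (nat_lit 3455752873812254760849301076705280), (nat_lit 2077766797173757420897951237013504), (nat_lit 0), (nat_lit 953227998367009259849341112156160), (nat_lit 5110292409151532419437269713158144), (nat_lit 4261271621371119191794234907688960), (nat_lit 3268190124366432350626879654330368), (nat_lit 2826108347739695697812069535449088), (nat_lit 411411046674264767696847352365056), (nat_lit 2686060241129475290260266981261312), (nat_lit 4768054907176276115203100849995776),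 (nat_lit 5523927392313416139233311013732352), (nat_lit 1970713606703496629581215160074240), (nat_lit 969082308023408760553985399586816), (nat_lit 1331223519653302334975689598435328), (nat_lit 3864409083364669283477304039702528), (nat_lit 3529253640204785956602596554702848), (nat_lit 888601049330881506005857484144640), (nat_lit 1613795309023943884322386080694272), (nat_lit 1298936312223693055765348446371840), (nat_lit 966182649131066802350770473664512), (nat_lit 575873884669591678851402210213888), (nat_lit 254261625275541648269989904384000), (nat_lit 0), (nat_lit 0), (nat_lit 1373100379272763809336620690178048), (nat_lit 3931808462253218830858455097540608), (nat_lit 3248763890057690251826658835169280), (nat_lit 3476652450820948117528353328594944), (nat_lit 1961054788681659346245532168224768), (nat_lit 0), (nat_lit 0), (nat_lit 991291877761452764781254088327168), (nat_lit 8825898060877540242878405357338624), (nat_lit 5061574451208856020793196525125632),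 (nat_lit 7453210156434876424930724610572288), (nat_lit 3271853972573893846516363249582080), (nat_lit 0), (nat_lit 776813729102413189154646075113472), (nat_lit 5673593245875617649447626505977856), (nat_lit 7366907650378302134426925350780928), (nat_lit 5519908145186426651244649349382144), (nat_lit 4699427595701005766837901578993664), (nat_lit 953227998367009259849341112156160), (nat_lit 5279927630702985230742773206876160), (nat_lit 4261271621371119191794234907688960), (nat_lit 9365862990721522682670292572045312), (nat_lit 2597543511523598347511891843088384), (nat_lit 2142046662201826503673660582133760), (nat_lit 2185217542587216098846771874103296), (nat_lit 5523927392313416139233311013732352), (nat_lit 3011690072959161269529441762017280), (nat_lit 1331223519653302334975689598435328), (nat_lit 4688103931489208572784723686850560), (nat_lit 3529253640204785956602596554702848), (nat_lit 1613795309023943884322386080694272), (nat_lit 1661411954141767186527260705292288),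 (nat_lit 575873884669591678851402210213888), (nat_lit 0), (nat_lit 0), (nat_lit 2227932037450282489519518747983872), (nat_lit 3931808462253218830858455097540608), (nat_lit 5289877918764811619545037905330176), (nat_lit 3306020745546492060630693181390848), (nat_lit 1090079636881181006223765934178304), (nat_lit 0), (nat_lit 776813729102413189154646075113472), (nat_lit 6019890783252110815722016660783104), (nat_lit 5061574451208856020793196525125632), (nat_lit 8318443871669135630787605509963776), (nat_lit 4225104807238708549589036276121600), (nat_lit 2226587653407480050283849562718208), (nat_lit 7426745476942561020989719808311296), (nat_lit 7276991152366735808654095008399360), (nat_lit 5519908145186426651244649349382144), (nat_lit 3361220686122230396352761012682752), (nat_lit 2284299159478268647550544676651008), (nat_lit 4080867584233213937665393507172352), (nat_lit 3268190124366432350626879654330368), (nat_lit 2597543511523598347511891843088384),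 (nat_lit 2728708445901069178453412347379712), (nat_lit 5355020153855416248976047354150912), (nat_lit 1970713606703496629581215160074240), (nat_lit 2056600871900106544620448178503680), (nat_lit 2862910505307994813264819101106176), (nat_lit 844307570411493033698848254459904), (nat_lit 0), (nat_lit 953227998367009259849341112156160), (nat_lit 3999755850615060483460401261969408), (nat_lit 3248763890057690251826658835169280), (nat_lit 3306020745546492060630693181390848), (nat_lit 3046318204730567081178736380346368), (nat_lit 953227998367009259849341112156160), (nat_lit 5235430598610970402055310591131648), (nat_lit 4486180683077042225393653449228288), (nat_lit 7453210156434876424930724610572288), (nat_lit 4225104807238708549589036276121600), (nat_lit 2284299159478268647550544676651008), (nat_lit 4080867584233213937665393507172352), (nat_lit 3455752873812254760849301076705280), (nat_lit 4699427595701005766837901578993664), (nat_lit 2455994549847383082120368093134848),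 (nat_lit 5688717577105362174555035755610112), (nat_lit 2826108347739695697812069535449088), (nat_lit 2285625970940388257796122581401600), (nat_lit 2029241539833486410631108007821312), (nat_lit 1523159102365283540589368190173184), (nat_lit 411411046674264767696847352365056), (nat_lit 1752842059181502943117721708003328), (nat_lit 2592479843432019213791805296345088), (nat_lit 3476652450820948117528353328594944), (nat_lit 1090079636881181006223765934178304), (nat_lit 2142046662201826503673660582133760), (nat_lit 2185217542587216098846771874103296), (nat_lit 5361650554770908487499511079370752), (nat_lit 3271853972573893846516363249582080), (nat_lit 2728708445901069178453412347379712), (nat_lit 5355020153855416248976047354150912), (nat_lit 2077766797173757420897951237013504), (nat_lit 2285625970940388257796122581401600), (nat_lit 2029241539833486410631108007821312), (nat_lit 1030659033753610179230285934100480), (nat_lit 969082308023408760553985399586816),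 (nat_lit 1331223519653302334975689598435328), (nat_lit 2033034646909800038137643466227712), (nat_lit 1961054788681659346245532168224768), (nat_lit 1331223519653302334975689598435328), (nat_lit 4688103931489208572784723686850560), (nat_lit 3175039197738602221090590947278848), (nat_lit 2056600871900106544620448178503680), (nat_lit 2862910505307994813264819101106176), (nat_lit 1523159102365283540589368190173184), (nat_lit 888601049330881506005857484144640), (nat_lit 1613795309023943884322386080694272), (nat_lit 829558652494349408059243093819392), (nat_lit 1613795309023943884322386080694272), (nat_lit 1661411954141767186527260705292288), (nat_lit 844307570411493033698848254459904), (nat_lit 966182649131066802350770473664512), (nat_lit 575873884669591678851402210213888), (nat_lit 575873884669591678851402210213888), (nat_lit 254261625275541648269989904384000)]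


end Pool.Agent.TOPR.R6094
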