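import Pool.Agent.TOPR.R6094.Cert

set_option autoImplicit false
set_option linter.all false
set_option maxRecDepth 100000

namespace Pool.Agent.TOPR.R6094

open Helper10.PC hiding V3
open Helper80.CW.DL Pool.Agent.Helper6.TOP

def et0_0 : T ℤ := (T.h (T.h (T.h (T.h (T.h (P (nat_lit 8949632)) (T.h (P (nat_lit 0)) (T.h (M (nat_lit 1081608643)) (T.h (P (nat_lit 0)) (T.h (P (nat_lit 38468182804)) (T.h (P (nat_lit 0)) (M (nat_lit 722493251563)))))))) (T.h (P (nat_lit 0)) (T.h (T.h (P (nat_lit 76403824)) (T.h (P (nat_lit 0)) (T.h (P (nat_lit 41785685088)) (T.h (P (nat_lit 0)) (M (nat_lit 590974705419)))))) (T.h (P (nat_lit 0)) (T.h (T.h (M (nat_lit 8108037431)) (T.h (P (nat_lit 0)) (M (nat_lit 449152800715)))) (T.h (P (nat_lit 0)) (P (nat_lit 392577007400)))))))) (T.h (T.h (P (nat_lit 0)) (T.h (T.h (P (nat_lit 0)) (T.h (P (nat_lit 5775186112)) (T.h (P (nat_lit 0)) (M (nat_lit 228122327815)))))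 (T.h (P (nat_lit 0)) (T.h (T.h (P (nat_lit 0)) (M (nat_lit 131088396247))) (P (nat_lit 0)))))) (T.h (T.h (T.h (M (nat_lit 1081608643)) (T.h (P (nat_lit 0)) (T.h (P (nat_lit 8644218144)) (T.h (P (nat_lit 0)) (P (nat_lit 165644228432)))))) (T.h (P (nat_lit 0)) (T.h (T.h (P (nat_lit 41785685088)) (T.h (P (nat_lit 0)) (M (nat_lit 530097823703)))) (T.h (P (nat_lit 0)) (M (nat_lit 449152800715)))))) (T.h (T.h (P (nat_lit 0)) (T.h (T.h (P (nat_lit 0)) (M (nat_lit 228122327815))) (P (nat_lit 0)))) (T.h (T.h (T.h (P (nat_lit 38468182804)) (T.h (P (nat_lit 0)) (P (nat_lit 165644228432)))) (T.h (P (nat_lit 0)) (M (nat_lit 590974705419)))) (T.h (P (nat_lit 0)) (M (nat_lit 722493251563)))))))) (T.h (P (nat_lit 0)) (T.h (T.h (T.h (T.h (P (nat_lit 165417812)) (T.h (P (nat_lit 0)) (T.h (P (nat_lit 6210215620)) (T.h (P (nat_lit 0)) (T.h (M (nat_lit 171352642803)) (T.h (P (nat_lit 0)) (P (nat_lit 1613746533252))))))))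 (T.h (P (nat_lit 0)) (T.h (T.h (P (nat_lit 770064204)) (T.h (P (nat_lit 0)) (T.h (P (nat_lit 581247334528)) (T.h (P (nat_lit 0)) (M (nat_lit 1965273190299)))))) (T.h (P (nat_lit 0)) (T.h (T.h (P (nat_lit 57483690544)) (T.h (P (nat_lit 0)) (M (nat_lit 4718047184507)))) (T.h (P (nat_lit 0)) (P (nat_lit 1123724888188)))))))) (T.h (T.h (P (nat_lit 0)) (T.h (T.h (P (nat_lit 0)) (T.h (M (nat_lit 169448581623)) (T.h (P (nat_lit 0)) (P (nat_lit 1169100217124))))) (T.h (P (nat_lit 0)) (T.h (T.h (P (nat_lit 0)) (P (nat_lit 2881933885824))) (P (nat_lit 0)))))) (T.h (T.h (T.h (M (nat_lit 6079101951)) (T.h (P (nat_lit 0)) (T.h (M (nat_lit 311086960071)) (T.h (P (nat_lit 0)) (M (nat_lit 3870366025763)))))) (T.h (P (nat_lit 0)) (T.h (T.h (P (nat_lit 346471202560)) (T.h (P (nat_lit 0)) (M (nat_lit 2137126752151)))) (T.h (P (nat_lit 0)) (M (nat_lit 16543387727)))))) (T.h (T.h (P (nat_lit 0)) (T.h (T.h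 (P (nat_lit 0)) (M (nat_lit 5258123715963))) (P (nat_lit 0)))) (T.h (T.h (T.h (P (nat_lit 37905499268)) (T.h (P (nat_lit 0)) (P (nat_lit 672269078404)))) (T.h (P (nat_lit 0)) (P (nat_lit 1282757019544)))) (T.h (P (nat_lit 0)) (P (nat_lit 533974629664)))))))) (P (nat_lit 0))))) (T.h (T.h (P (nat_lit 0)) (T.h (T.h (T.h (P (nat_lit 0)) (T.h (T.h (P (nat_lit 0)) (T.h (P (nat_lit 9059117340)) (T.h (P (nat_lit 0)) (T.h (M (nat_lit 52869520255)) (T.h (P (nat_lit 0)) (P (nat_lit 119161654444))))))) (T.h (P (nat_lit 0)) (T.h (T.h (P (nat_lit 0)) (T.h (P (nat_lit 72206278648)) (T.h (P (nat_lit 0)) (P (nat_lit 66904365948))))) (T.h (P (nat_lit 0)) (T.h (T.h (P (nat_lit 0)) (M (nat_lit 2968822679983))) (P (nat_lit 0)))))))) (T.h (T.h (T.h (M (nat_lit 19236419)) (T.h (P (nat_lit 0)) (T.h (P (nat_lit 26964057680)) (T.h (P (nat_lit 0)) (P (nat_lit 615114044888)))))) (T.h (P (nat_lit 0)) (T.h (T.h (M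 (nat_lit 16617945931)) (T.h (P (nat_lit 0)) (P (nat_lit 1561771425368)))) (T.h (P (nat_lit 0)) (P (nat_lit 298072435220)))))) (T.h (T.h (P (nat_lit 0)) (T.h (T.h (P (nat_lit 0)) (T.h (P (nat_lit 170373914956)) (T.h (P (nat_lit 0)) (M (nat_lit 850950276091))))) (T.h (P (nat_lit 0)) (T.h (T.h (P (nat_lit 0)) (M (nat_lit 2009666477167))) (P (nat_lit 0)))))) (T.h (T.h (T.h (M (nat_lit 3384480903)) (T.h (P (nat_lit 0)) (P (nat_lit 1434500677036)))) (T.h (P (nat_lit 0)) (M (nat_lit 1371638075835)))) (T.h (T.h (P (nat_lit 0)) (T.h (T.h (P (nat_lit 0)) (P (nat_lit 42682779300))) (P (nat_lit 0)))) (M (nat_lit 135755122019))))))) (P (nat_lit 0)))) (T.h (T.h (T.h (T.h (T.h (M (nat_lit 20188783)) (T.h (P (nat_lit 0)) (T.h (P (nat_lit 1285829384)) (T.h (P (nat_lit 0)) (T.h (M (nat_lit 42850997223)) (T.h (P (nat_lit 0)) (P (nat_lit 709727365004)))))))) (T.h (P (nat_lit 0)) (T.h (T.h (M (nat_lit 177976959))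 (T.h (P (nat_lit 0)) (T.h (M (nat_lit 73856984235)) (T.h (P (nat_lit 0)) (P (nat_lit 1102626743540)))))) (T.h (P (nat_lit 0)) (T.h (T.h (P (nat_lit 19029123624)) (T.h (P (nat_lit 0)) (P (nat_lit 783434818992)))) (T.h (P (nat_lit 0)) (M (nat_lit 913247250663)))))))) (T.h (T.h (P (nat_lit 0)) (T.h (T.h (P (nat_lit 0)) (T.h (M (nat_lit 13476431191)) (T.h (P (nat_lit 0)) (P (nat_lit 403300546600))))) (T.h (P (nat_lit 0)) (T.h (T.h (P (nat_lit 0)) (P (nat_lit 306785266536))) (P (nat_lit 0)))))) (T.h (T.h (T.h (P (nat_lit 1285829384)) (T.h (P (nat_lit 0)) (T.h (M (nat_lit 20070572983)) (T.h (P (nat_lit 0)) (M (nat_lit 428556732435)))))) (T.h (P (nat_lit 0)) (T.h (T.h (M (nat_lit 73856984235)) (T.h (P (nat_lit 0)) (P (nat_lit 1237602902648)))) (T.h (P (nat_lit 0)) (P (nat_lit 783434818992)))))) (T.h (T.h (P (nat_lit 0)) (T.h (T.h (P (nat_lit 0)) (P (nat_lit 403300546600))) (P (nat_lit 0)))) (T.h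 (T.h (T.h (M (nat_lit 42850997223)) (T.h (P (nat_lit 0)) (M (nat_lit 428556732435)))) (T.h (P (nat_lit 0)) (P (nat_lit 1102626743540)))) (T.h (P (nat_lit 0)) (P (nat_lit 709727365004)))))))) (P (nat_lit 0))) (P (nat_lit 0)))))
def et0_1 : T ℤ := (T.h (T.h (P (nat_lit 0)) (T.h (P (nat_lit 0)) (T.h (T.h (T.h (T.h (M (nat_lit 104525831)) (T.h (P (nat_lit 0)) (T.h (M (nat_lit 3353857263)) (T.h (P (nat_lit 0)) (T.h (P (nat_lit 6783219704)) (T.h (P (nat_lit 0)) (M (nat_lit 330156760887)))))))) (T.h (P (nat_lit 0)) (T.h (T.h (M (nat_lit 3353857263)) (T.h (P (nat_lit 0)) (T.h (M (nat_lit 710256720431)) (T.h (P (nat_lit 0)) (P (nat_lit 1529107426344)))))) (T.h (P (nat_lit 0)) (T.h (T.h (P (nat_lit 6783219704)) (T.h (P (nat_lit 0)) (P (nat_lit 1529107426344)))) (T.h (P (nat_lit 0)) (M (nat_lit 330156760887)))))))) (T.h (T.h (P (nat_lit 0)) (T.h (T.h (P (nat_lit 0)) (T.h (P (nat_lit 130664324032))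 (T.h (P (nat_lit 0)) (M (nat_lit 1926391860763))))) (T.h (P (nat_lit 0)) (T.h (T.h (P (nat_lit 0)) (M (nat_lit 1926391860763))) (P (nat_lit 0)))))) (T.h (T.h (T.h (P (nat_lit 8666848776)) (T.h (P (nat_lit 0)) (T.h (P (nat_lit 135016556968)) (T.h (P (nat_lit 0)) (P (nat_lit 1172945464868)))))) (T.h (P (nat_lit 0)) (T.h (T.h (P (nat_lit 135016556968)) (T.h (P (nat_lit 0)) (P (nat_lit 640089188000)))) (T.h (P (nat_lit 0)) (P (nat_lit 1172945464868)))))) (T.h (T.h (P (nat_lit 0)) (T.h (T.h (P (nat_lit 0)) (P (nat_lit 5116331477112))) (P (nat_lit 0)))) (T.h (T.h (T.h (M (nat_lit 16139502215)) (T.h (P (nat_lit 0)) (M (nat_lit 516038187263)))) (T.h (P (nat_lit 0)) (M (nat_lit 516038187263)))) (T.h (P (nat_lit 0)) (P (nat_lit 257736949224)))))))) (T.h (P (nat_lit 0)) (T.h (T.h (T.h (T.h (P (nat_lit 165417812)) (T.h (P (nat_lit 0)) (T.h (P (nat_lit 770064204)) (T.h (P (nat_lit 0)) (T.h (P (nat_lit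 57483690544)) (T.h (P (nat_lit 0)) (P (nat_lit 1123724888188)))))))) (T.h (P (nat_lit 0)) (T.h (T.h (P (nat_lit 6210215620)) (T.h (P (nat_lit 0)) (T.h (P (nat_lit 581247334528)) (T.h (P (nat_lit 0)) (M (nat_lit 4718047184507)))))) (T.h (P (nat_lit 0)) (T.h (T.h (M (nat_lit 171352642803)) (T.h (P (nat_lit 0)) (M (nat_lit 1965273190299)))) (T.h (P (nat_lit 0)) (P (nat_lit 1613746533252)))))))) (T.h (T.h (P (nat_lit 0)) (T.h (T.h (P (nat_lit 0)) (T.h (M (nat_lit 169448581623)) (T.h (P (nat_lit 0)) (P (nat_lit 2881933885824))))) (T.h (P (nat_lit 0)) (T.h (T.h (P (nat_lit 0)) (P (nat_lit 1169100217124))) (P (nat_lit 0)))))) (T.h (T.h (T.h (M (nat_lit 6079101951)) (T.h (P (nat_lit 0)) (T.h (P (nat_lit 346471202560)) (T.h (P (nat_lit 0)) (M (nat_lit 16543387727)))))) (T.h (P (nat_lit 0)) (T.h (T.h (M (nat_lit 311086960071)) (T.h (P (nat_lit 0)) (M (nat_lit 2137126752151)))) (T.h (P (nat_lit 0))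 (M (nat_lit 3870366025763)))))) (T.h (T.h (P (nat_lit 0)) (T.h (T.h (P (nat_lit 0)) (M (nat_lit 5258123715963))) (P (nat_lit 0)))) (T.h (T.h (T.h (P (nat_lit 37905499268)) (T.h (P (nat_lit 0)) (P (nat_lit 1282757019544)))) (T.h (P (nat_lit 0)) (P (nat_lit 672269078404)))) (T.h (P (nat_lit 0)) (P (nat_lit 533974629664)))))))) (P (nat_lit 0))))))) (T.h (T.h (P (nat_lit 0)) (T.h (T.h (T.h (P (nat_lit 0)) (T.h (T.h (P (nat_lit 0)) (T.h (M (nat_lit 7743071003)) (T.h (P (nat_lit 0)) (T.h (P (nat_lit 2878794784)) (T.h (P (nat_lit 0)) (P (nat_lit 106065275688))))))) (T.h (P (nat_lit 0)) (T.h (T.h (P (nat_lit 0)) (T.h (M (nat_lit 97180771147)) (T.h (P (nat_lit 0)) (M (nat_lit 843349395643))))) (T.h (P (nat_lit 0)) (T.h (T.h (P (nat_lit 0)) (P (nat_lit 1291483891720))) (P (nat_lit 0)))))))) (T.h (T.h (T.h (M (nat_lit 115545331)) (T.h (P (nat_lit 0)) (T.h (M (nat_lit 12084242719)) (T.h (P (nat_lit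 0)) (M (nat_lit 166371477939)))))) (T.h (P (nat_lit 0)) (T.h (T.h (P (nat_lit 15078578372)) (T.h (P (nat_lit 0)) (M (nat_lit 963571195655)))) (T.h (P (nat_lit 0)) (M (nat_lit 622260322555)))))) (T.h (T.h (P (nat_lit 0)) (T.h (T.h (P (nat_lit 0)) (T.h (M (nat_lit 163056636023)) (T.h (P (nat_lit 0)) (P (nat_lit 43215903388))))) (T.h (P (nat_lit 0)) (T.h (T.h (P (nat_lit 0)) (P (nat_lit 2437051418316))) (P (nat_lit 0)))))) (T.h (T.h (T.h (P (nat_lit 11187228352)) (T.h (P (nat_lit 0)) (M (nat_lit 925509909011)))) (T.h (P (nat_lit 0)) (P (nat_lit 858267889808)))) (T.h (T.h (P (nat_lit 0)) (T.h (T.h (P (nat_lit 0)) (M (nat_lit 791676185263))) (P (nat_lit 0)))) (P (nat_lit 74559026272))))))) (T.h (P (nat_lit 0)) (T.h (T.h (T.h (P (nat_lit 0)) (T.h (T.h (P (nat_lit 0)) (T.h (P (nat_lit 12284307112)) (T.h (P (nat_lit 0)) (T.h (P (nat_lit 121970835504)) (T.h (P (nat_lit 0)) (M (nat_lit 2015755882279)))))))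 (T.h (P (nat_lit 0)) (T.h (T.h (P (nat_lit 0)) (T.h (P (nat_lit 121970835504)) (T.h (P (nat_lit 0)) (M (nat_lit 565881989903))))) (T.h (P (nat_lit 0)) (T.h (T.h (P (nat_lit 0)) (M (nat_lit 2015755882279))) (P (nat_lit 0)))))))) (T.h (T.h (T.h (M (nat_lit 540952439)) (T.h (P (nat_lit 0)) (T.h (M (nat_lit 78465167815)) (T.h (P (nat_lit 0)) (P (nat_lit 1086500854432)))))) (T.h (P (nat_lit 0)) (T.h (T.h (M (nat_lit 78465167815)) (T.h (P (nat_lit 0)) (P (nat_lit 3854149657400)))) (T.h (P (nat_lit 0)) (P (nat_lit 1086500854432)))))) (T.h (T.h (P (nat_lit 0)) (T.h (T.h (P (nat_lit 0)) (T.h (P (nat_lit 429420313056)) (T.h (P (nat_lit 0)) (P (nat_lit 604839036788))))) (T.h (P (nat_lit 0)) (T.h (T.h (P (nat_lit 0)) (P (nat_lit 604839036788))) (P (nat_lit 0)))))) (T.h (T.h (T.h (M (nat_lit 64154482951)) (T.h (P (nat_lit 0)) (M (nat_lit 679154229963)))) (T.h (P (nat_lit 0)) (M (nat_lit 679154229963))))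 (T.h (T.h (P (nat_lit 0)) (T.h (T.h (P (nat_lit 0)) (P (nat_lit 3542533916936))) (P (nat_lit 0)))) (M (nat_lit 180730975095))))))) (P (nat_lit 0)))))) et0_0))
def et0_2 : T ℤ := (T.h (T.h (P (nat_lit 0)) (T.h (P (nat_lit 0)) (T.h (P (nat_lit 0)) (T.h (P (nat_lit 0)) (T.h (T.h (T.h (T.h (P (nat_lit 8949632)) (T.h (P (nat_lit 0)) (T.h (P (nat_lit 76403824)) (T.h (P (nat_lit 0)) (T.h (M (nat_lit 8108037431)) (T.h (P (nat_lit 0)) (P (nat_lit 392577007400)))))))) (T.h (P (nat_lit 0)) (T.h (T.h (M (nat_lit 1081608643)) (T.h (P (nat_lit 0)) (T.h (P (nat_lit 41785685088)) (T.h (P (nat_lit 0)) (M (nat_lit 449152800715)))))) (T.h (P (nat_lit 0)) (T.h (T.h (P (nat_lit 38468182804)) (T.h (P (nat_lit 0)) (M (nat_lit 590974705419)))) (T.h (P (nat_lit 0)) (M (nat_lit 722493251563)))))))) (T.h (T.h (P (nat_lit 0)) (T.h (T.h (P (nat_lit 0)) (T.h (P (nat_lit 5775186112)) (T.h (P (nat_lit 0)) (M (nat_lit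 131088396247))))) (T.h (P (nat_lit 0)) (T.h (T.h (P (nat_lit 0)) (M (nat_lit 228122327815))) (P (nat_lit 0)))))) (T.h (T.h (T.h (M (nat_lit 1081608643)) (T.h (P (nat_lit 0)) (T.h (P (nat_lit 41785685088)) (T.h (P (nat_lit 0)) (M (nat_lit 449152800715)))))) (T.h (P (nat_lit 0)) (T.h (T.h (P (nat_lit 8644218144)) (T.h (P (nat_lit 0)) (M (nat_lit 530097823703)))) (T.h (P (nat_lit 0)) (P (nat_lit 165644228432)))))) (T.h (T.h (P (nat_lit 0)) (T.h (T.h (P (nat_lit 0)) (M (nat_lit 228122327815))) (P (nat_lit 0)))) (T.h (T.h (T.h (P (nat_lit 38468182804)) (T.h (P (nat_lit 0)) (M (nat_lit 590974705419)))) (T.h (P (nat_lit 0)) (P (nat_lit 165644228432)))) (T.h (P (nat_lit 0)) (M (nat_lit 722493251563)))))))) (T.h (P (nat_lit 0)) (T.h (T.h (T.h (T.h (M (nat_lit 20188783)) (T.h (P (nat_lit 0)) (T.h (M (nat_lit 177976959)) (T.h (P (nat_lit 0)) (T.h (P (nat_lit 19029123624)) (T.h (P (nat_lit 0)) (M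 (nat_lit 913247250663)))))))) (T.h (P (nat_lit 0)) (T.h (T.h (P (nat_lit 1285829384)) (T.h (P (nat_lit 0)) (T.h (M (nat_lit 73856984235)) (T.h (P (nat_lit 0)) (P (nat_lit 783434818992)))))) (T.h (P (nat_lit 0)) (T.h (T.h (M (nat_lit 42850997223)) (T.h (P (nat_lit 0)) (P (nat_lit 1102626743540)))) (T.h (P (nat_lit 0)) (P (nat_lit 709727365004)))))))) (T.h (T.h (P (nat_lit 0)) (T.h (T.h (P (nat_lit 0)) (T.h (M (nat_lit 13476431191)) (T.h (P (nat_lit 0)) (P (nat_lit 306785266536))))) (T.h (P (nat_lit 0)) (T.h (T.h (P (nat_lit 0)) (P (nat_lit 403300546600))) (P (nat_lit 0)))))) (T.h (T.h (T.h (P (nat_lit 1285829384)) (T.h (P (nat_lit 0)) (T.h (M (nat_lit 73856984235)) (T.h (P (nat_lit 0)) (P (nat_lit 783434818992)))))) (T.h (P (nat_lit 0)) (T.h (T.h (M (nat_lit 20070572983)) (T.h (P (nat_lit 0)) (P (nat_lit 1237602902648)))) (T.h (P (nat_lit 0)) (M (nat_lit 428556732435)))))) (T.h (T.h (P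 (nat_lit 0)) (T.h (T.h (P (nat_lit 0)) (P (nat_lit 403300546600))) (P (nat_lit 0)))) (T.h (T.h (T.h (M (nat_lit 42850997223)) (T.h (P (nat_lit 0)) (P (nat_lit 1102626743540)))) (T.h (P (nat_lit 0)) (M (nat_lit 428556732435)))) (T.h (P (nat_lit 0)) (P (nat_lit 709727365004)))))))) (P (nat_lit 0))))))))) (T.h (T.h (P (nat_lit 0)) (T.h (P (nat_lit 0)) (T.h (P (nat_lit 0)) (T.h (T.h (T.h (P (nat_lit 0)) (T.h (T.h (P (nat_lit 0)) (T.h (M (nat_lit 7743071003)) (T.h (P (nat_lit 0)) (T.h (M (nat_lit 97180771147)) (T.h (P (nat_lit 0)) (P (nat_lit 1291483891720))))))) (T.h (P (nat_lit 0)) (T.h (T.h (P (nat_lit 0)) (T.h (P (nat_lit 2878794784)) (T.h (P (nat_lit 0)) (M (nat_lit 843349395643))))) (T.h (P (nat_lit 0)) (T.h (T.h (P (nat_lit 0)) (P (nat_lit 106065275688))) (P (nat_lit 0)))))))) (T.h (T.h (T.h (M (nat_lit 115545331)) (T.h (P (nat_lit 0)) (T.h (P (nat_lit 15078578372)) (T.h (P (nat_lit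 0)) (M (nat_lit 622260322555)))))) (T.h (P (nat_lit 0)) (T.h (T.h (M (nat_lit 12084242719)) (T.h (P (nat_lit 0)) (M (nat_lit 963571195655)))) (T.h (P (nat_lit 0)) (M (nat_lit 166371477939)))))) (T.h (T.h (P (nat_lit 0)) (T.h (T.h (P (nat_lit 0)) (T.h (M (nat_lit 163056636023)) (T.h (P (nat_lit 0)) (P (nat_lit 2437051418316))))) (T.h (P (nat_lit 0)) (T.h (T.h (P (nat_lit 0)) (P (nat_lit 43215903388))) (P (nat_lit 0)))))) (T.h (T.h (T.h (P (nat_lit 11187228352)) (T.h (P (nat_lit 0)) (P (nat_lit 858267889808)))) (T.h (P (nat_lit 0)) (M (nat_lit 925509909011)))) (T.h (T.h (P (nat_lit 0)) (T.h (T.h (P (nat_lit 0)) (M (nat_lit 791676185263))) (P (nat_lit 0)))) (P (nat_lit 74559026272))))))) (T.h (P (nat_lit 0)) (T.h (T.h (T.h (P (nat_lit 0)) (T.h (T.h (P (nat_lit 0)) (T.h (P (nat_lit 9059117340)) (T.h (P (nat_lit 0)) (T.h (P (nat_lit 72206278648)) (T.h (P (nat_lit 0)) (M (nat_lit 2968822679983)))))))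 (T.h (P (nat_lit 0)) (T.h (T.h (P (nat_lit 0)) (T.h (M (nat_lit 52869520255)) (T.h (P (nat_lit 0)) (P (nat_lit 66904365948))))) (T.h (P (nat_lit 0)) (T.h (T.h (P (nat_lit 0)) (P (nat_lit 119161654444))) (P (nat_lit 0)))))))) (T.h (T.h (T.h (M (nat_lit 19236419)) (T.h (P (nat_lit 0)) (T.h (M (nat_lit 16617945931)) (T.h (P (nat_lit 0)) (P (nat_lit 298072435220)))))) (T.h (P (nat_lit 0)) (T.h (T.h (P (nat_lit 26964057680)) (T.h (P (nat_lit 0)) (P (nat_lit 1561771425368)))) (T.h (P (nat_lit 0)) (P (nat_lit 615114044888)))))) (T.h (T.h (P (nat_lit 0)) (T.h (T.h (P (nat_lit 0)) (T.h (P (nat_lit 170373914956)) (T.h (P (nat_lit 0)) (M (nat_lit 2009666477167))))) (T.h (P (nat_lit 0)) (T.h (T.h (P (nat_lit 0)) (M (nat_lit 850950276091))) (P (nat_lit 0)))))) (T.h (T.h (T.h (M (nat_lit 3384480903)) (T.h (P (nat_lit 0)) (M (nat_lit 1371638075835)))) (T.h (P (nat_lit 0)) (P (nat_lit 1434500677036))))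 (T.h (T.h (P (nat_lit 0)) (T.h (T.h (P (nat_lit 0)) (P (nat_lit 42682779300))) (P (nat_lit 0)))) (M (nat_lit 135755122019))))))) (P (nat_lit 0)))))))) et0_1))
def et0_3 : T ℤ := (T.h (T.h (T.h (T.h (T.h (P (nat_lit 0)) (T.h (M (nat_lit 115545331)) (T.h (P (nat_lit 0)) (T.h (P (nat_lit 11187228352)) (T.h (P (nat_lit 0)) (P (nat_lit 74559026272))))))) (T.h (P (nat_lit 0)) (T.h (T.h (P (nat_lit 0)) (T.h (P (nat_lit 15078578372)) (T.h (P (nat_lit 0)) (P (nat_lit 858267889808))))) (T.h (P (nat_lit 0)) (T.h (T.h (P (nat_lit 0)) (M (nat_lit 622260322555))) (P (nat_lit 0))))))) (T.h (T.h (P (nat_lit 0)) (T.h (T.h (M (nat_lit 7743071003)) (T.h (P (nat_lit 0)) (T.h (M (nat_lit 163056636023)) (T.h (P (nat_lit 0)) (M (nat_lit 791676185263)))))) (T.h (P (nat_lit 0)) (T.h (T.h (M (nat_lit 97180771147)) (T.h (P (nat_lit 0)) (P (nat_lit 2437051418316)))) (T.h (P (nat_lit 0)) (P (nat_lit 1291483891720)))))))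 (T.h (T.h (T.h (P (nat_lit 0)) (T.h (M (nat_lit 12084242719)) (T.h (P (nat_lit 0)) (M (nat_lit 925509909011))))) (T.h (P (nat_lit 0)) (T.h (T.h (P (nat_lit 0)) (M (nat_lit 963571195655))) (P (nat_lit 0))))) (T.h (T.h (P (nat_lit 0)) (T.h (T.h (P (nat_lit 2878794784)) (T.h (P (nat_lit 0)) (P (nat_lit 43215903388)))) (T.h (P (nat_lit 0)) (M (nat_lit 843349395643))))) (T.h (T.h (T.h (P (nat_lit 0)) (M (nat_lit 166371477939))) (P (nat_lit 0))) (T.h (T.h (P (nat_lit 0)) (P (nat_lit 106065275688))) (P (nat_lit 0)))))))) (T.h (P (nat_lit 0)) (T.h (T.h (T.h (T.h (P (nat_lit 0)) (T.h (P (nat_lit 984314520)) (T.h (P (nat_lit 0)) (T.h (M (nat_lit 12275333391)) (T.h (P (nat_lit 0)) (P (nat_lit 322834144024))))))) (T.h (P (nat_lit 0)) (T.h (T.h (P (nat_lit 0)) (T.h (P (nat_lit 346430372624)) (T.h (P (nat_lit 0)) (M (nat_lit 4057822255563))))) (T.h (P (nat_lit 0)) (T.h (T.h (P (nat_lit 0)) (M (nat_lit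 1445151866591))) (P (nat_lit 0))))))) (T.h (T.h (P (nat_lit 0)) (T.h (T.h (M (nat_lit 16185660847)) (T.h (P (nat_lit 0)) (T.h (M (nat_lit 990042603143)) (T.h (P (nat_lit 0)) (P (nat_lit 17834246543232)))))) (T.h (P (nat_lit 0)) (T.h (T.h (P (nat_lit 145183523940)) (T.h (P (nat_lit 0)) (P (nat_lit 3250217719588)))) (T.h (P (nat_lit 0)) (P (nat_lit 1408154362552))))))) (T.h (T.h (T.h (P (nat_lit 0)) (T.h (P (nat_lit 17696081172)) (T.h (P (nat_lit 0)) (P (nat_lit 2083820922876))))) (T.h (P (nat_lit 0)) (T.h (T.h (P (nat_lit 0)) (M (nat_lit 2136077858123))) (P (nat_lit 0))))) (T.h (T.h (P (nat_lit 0)) (T.h (T.h (P (nat_lit 303606044644)) (T.h (P (nat_lit 0)) (P (nat_lit 3289052327932)))) (T.h (P (nat_lit 0)) (P (nat_lit 2015750822176))))) (T.h (T.h (T.h (P (nat_lit 0)) (M (nat_lit 1265255940423))) (P (nat_lit 0))) (T.h (T.h (P (nat_lit 0)) (P (nat_lit 3038345601060))) (P (nat_lit 0))))))))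 (P (nat_lit 0))))) (T.h (T.h (P (nat_lit 0)) (T.h (T.h (T.h (P (nat_lit 0)) (T.h (T.h (M (nat_lit 562378039)) (T.h (P (nat_lit 0)) (T.h (M (nat_lit 17843645091)) (T.h (P (nat_lit 0)) (M (nat_lit 1504661267619)))))) (T.h (P (nat_lit 0)) (T.h (T.h (P (nat_lit 69279640136)) (T.h (P (nat_lit 0)) (M (nat_lit 748951901543)))) (T.h (P (nat_lit 0)) (M (nat_lit 831753642327))))))) (T.h (T.h (T.h (P (nat_lit 0)) (T.h (M (nat_lit 9437198455)) (T.h (P (nat_lit 0)) (T.h (M (nat_lit 297299913623)) (T.h (P (nat_lit 0)) (M (nat_lit 1204538929215))))))) (T.h (P (nat_lit 0)) (T.h (T.h (P (nat_lit 0)) (T.h (M (nat_lit 358746197375)) (T.h (P (nat_lit 0)) (P (nat_lit 330271357920))))) (T.h (P (nat_lit 0)) (T.h (T.h (P (nat_lit 0)) (P (nat_lit 6164402456016))) (P (nat_lit 0))))))) (T.h (T.h (P (nat_lit 0)) (T.h (T.h (M (nat_lit 17843645091)) (T.h (P (nat_lit 0)) (P (nat_lit 1516709504856)))) (T.h (P (nat_lit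 0)) (M (nat_lit 748951901543))))) (T.h (T.h (T.h (P (nat_lit 0)) (T.h (M (nat_lit 297299913623)) (T.h (P (nat_lit 0)) (M (nat_lit 734780909519))))) (T.h (P (nat_lit 0)) (T.h (T.h (P (nat_lit 0)) (P (nat_lit 330271357920))) (P (nat_lit 0))))) (T.h (T.h (P (nat_lit 0)) (M (nat_lit 1504661267619))) (T.h (T.h (T.h (P (nat_lit 0)) (M (nat_lit 1204538929215))) (P (nat_lit 0))) (P (nat_lit 0)))))))) (P (nat_lit 0)))) (T.h (T.h (T.h (T.h (T.h (P (nat_lit 0)) (T.h (M (nat_lit 19236419)) (T.h (P (nat_lit 0)) (T.h (M (nat_lit 3384480903)) (T.h (P (nat_lit 0)) (M (nat_lit 135755122019))))))) (T.h (P (nat_lit 0)) (T.h (T.h (P (nat_lit 0)) (T.h (M (nat_lit 16617945931)) (T.h (P (nat_lit 0)) (M (nat_lit 1371638075835))))) (T.h (P (nat_lit 0)) (T.h (T.h (P (nat_lit 0)) (P (nat_lit 298072435220))) (P (nat_lit 0))))))) (T.h (T.h (P (nat_lit 0)) (T.h (T.h (P (nat_lit 9059117340)) (T.h (P (nat_lit 0)) (T.h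 (P (nat_lit 170373914956)) (T.h (P (nat_lit 0)) (P (nat_lit 42682779300)))))) (T.h (P (nat_lit 0)) (T.h (T.h (P (nat_lit 72206278648)) (T.h (P (nat_lit 0)) (M (nat_lit 2009666477167)))) (T.h (P (nat_lit 0)) (M (nat_lit 2968822679983))))))) (T.h (T.h (T.h (P (nat_lit 0)) (T.h (P (nat_lit 26964057680)) (T.h (P (nat_lit 0)) (P (nat_lit 1434500677036))))) (T.h (P (nat_lit 0)) (T.h (T.h (P (nat_lit 0)) (P (nat_lit 1561771425368))) (P (nat_lit 0))))) (T.h (T.h (P (nat_lit 0)) (T.h (T.h (M (nat_lit 52869520255)) (T.h (P (nat_lit 0)) (M (nat_lit 850950276091)))) (T.h (P (nat_lit 0)) (P (nat_lit 66904365948))))) (T.h (T.h (T.h (P (nat_lit 0)) (P (nat_lit 615114044888))) (P (nat_lit 0))) (T.h (T.h (P (nat_lit 0)) (P (nat_lit 119161654444))) (P (nat_lit 0)))))))) (P (nat_lit 0))) (P (nat_lit 0)))))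
def et0_4 : T ℤ := (T.h (T.h (P (nat_lit 0)) (T.h (P (nat_lit 0)) (T.h (T.h (T.h (T.h (P (nat_lit 0)) (T.h (P (nat_lit 2787024)) (T.h (P (nat_lit 0)) (T.h (M (nat_lit 2319017175)) (T.h (P (nat_lit 0)) (P (nat_lit 40243782512))))))) (T.h (P (nat_lit 0)) (T.h (T.h (P (nat_lit 0)) (T.h (P (nat_lit 1039472732)) (T.h (P (nat_lit 0)) (P (nat_lit 145717188724))))) (T.h (P (nat_lit 0)) (T.h (T.h (P (nat_lit 0)) (P (nat_lit 599388462960))) (P (nat_lit 0))))))) (T.h (T.h (P (nat_lit 0)) (T.h (T.h (P (nat_lit 1200167656)) (T.h (P (nat_lit 0)) (T.h (P (nat_lit 135704405584)) (T.h (P (nat_lit 0)) (M (nat_lit 3374969748975)))))) (T.h (P (nat_lit 0)) (T.h (T.h (P (nat_lit 21699665412)) (T.h (P (nat_lit 0)) (M (nat_lit 1426526531655)))) (T.h (P (nat_lit 0)) (P (nat_lit 198154312536))))))) (T.h (T.h (T.h (P (nat_lit 0)) (T.h (P (nat_lit 1039472732)) (T.h (P (nat_lit 0)) (P (nat_lit 145717188724))))) (T.h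 (P (nat_lit 0)) (T.h (T.h (P (nat_lit 0)) (P (nat_lit 707729232976))) (P (nat_lit 0))))) (T.h (T.h (P (nat_lit 0)) (T.h (T.h (P (nat_lit 21699665412)) (T.h (P (nat_lit 0)) (M (nat_lit 1426526531655)))) (T.h (P (nat_lit 0)) (M (nat_lit 777091911983))))) (T.h (T.h (T.h (P (nat_lit 0)) (P (nat_lit 599388462960))) (P (nat_lit 0))) (T.h (T.h (P (nat_lit 0)) (P (nat_lit 198154312536))) (P (nat_lit 0)))))))) (T.h (P (nat_lit 0)) (T.h (T.h (T.h (T.h (P (nat_lit 0)) (T.h (M (nat_lit 562378039)) (T.h (P (nat_lit 0)) (T.h (P (nat_lit 69279640136)) (T.h (P (nat_lit 0)) (M (nat_lit 831753642327))))))) (T.h (P (nat_lit 0)) (T.h (T.h (P (nat_lit 0)) (T.h (M (nat_lit 17843645091)) (T.h (P (nat_lit 0)) (M (nat_lit 748951901543))))) (T.h (P (nat_lit 0)) (T.h (T.h (P (nat_lit 0)) (M (nat_lit 1504661267619))) (P (nat_lit 0))))))) (T.h (T.h (P (nat_lit 0)) (T.h (T.h (M (nat_lit 9437198455)) (T.h (P (nat_lit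 0)) (T.h (M (nat_lit 358746197375)) (T.h (P (nat_lit 0)) (P (nat_lit 6164402456016)))))) (T.h (P (nat_lit 0)) (T.h (T.h (M (nat_lit 297299913623)) (T.h (P (nat_lit 0)) (P (nat_lit 330271357920)))) (T.h (P (nat_lit 0)) (M (nat_lit 1204538929215))))))) (T.h (T.h (T.h (P (nat_lit 0)) (T.h (M (nat_lit 17843645091)) (T.h (P (nat_lit 0)) (M (nat_lit 748951901543))))) (T.h (P (nat_lit 0)) (T.h (T.h (P (nat_lit 0)) (P (nat_lit 1516709504856))) (P (nat_lit 0))))) (T.h (T.h (P (nat_lit 0)) (T.h (T.h (M (nat_lit 297299913623)) (T.h (P (nat_lit 0)) (P (nat_lit 330271357920)))) (T.h (P (nat_lit 0)) (M (nat_lit 734780909519))))) (T.h (T.h (T.h (P (nat_lit 0)) (M (nat_lit 1504661267619))) (P (nat_lit 0))) (T.h (T.h (P (nat_lit 0)) (M (nat_lit 1204538929215))) (P (nat_lit 0)))))))) (P (nat_lit 0))))))) (T.h (T.h (P (nat_lit 0)) (T.h (T.h (T.h (P (nat_lit 0)) (T.h (T.h (P (nat_lit 2787024)) (T.h (P (nat_lit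 0)) (T.h (P (nat_lit 1039472732)) (T.h (P (nat_lit 0)) (P (nat_lit 599388462960)))))) (T.h (P (nat_lit 0)) (T.h (T.h (M (nat_lit 2319017175)) (T.h (P (nat_lit 0)) (P (nat_lit 145717188724)))) (T.h (P (nat_lit 0)) (P (nat_lit 40243782512))))))) (T.h (T.h (T.h (P (nat_lit 0)) (T.h (P (nat_lit 1200167656)) (T.h (P (nat_lit 0)) (T.h (P (nat_lit 21699665412)) (T.h (P (nat_lit 0)) (P (nat_lit 198154312536))))))) (T.h (P (nat_lit 0)) (T.h (T.h (P (nat_lit 0)) (T.h (P (nat_lit 135704405584)) (T.h (P (nat_lit 0)) (M (nat_lit 1426526531655))))) (T.h (P (nat_lit 0)) (T.h (T.h (P (nat_lit 0)) (M (nat_lit 3374969748975))) (P (nat_lit 0))))))) (T.h (T.h (P (nat_lit 0)) (T.h (T.h (P (nat_lit 1039472732)) (T.h (P (nat_lit 0)) (P (nat_lit 707729232976)))) (T.h (P (nat_lit 0)) (P (nat_lit 145717188724))))) (T.h (T.h (T.h (P (nat_lit 0)) (T.h (P (nat_lit 21699665412)) (T.h (P (nat_lit 0)) (M (nat_lit 777091911983)))))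 (T.h (P (nat_lit 0)) (T.h (T.h (P (nat_lit 0)) (M (nat_lit 1426526531655))) (P (nat_lit 0))))) (T.h (T.h (P (nat_lit 0)) (P (nat_lit 599388462960))) (T.h (T.h (T.h (P (nat_lit 0)) (P (nat_lit 198154312536))) (P (nat_lit 0))) (P (nat_lit 0)))))))) (T.h (P (nat_lit 0)) (T.h (T.h (T.h (P (nat_lit 0)) (T.h (T.h (P (nat_lit 984314520)) (T.h (P (nat_lit 0)) (T.h (P (nat_lit 346430372624)) (T.h (P (nat_lit 0)) (M (nat_lit 1445151866591)))))) (T.h (P (nat_lit 0)) (T.h (T.h (M (nat_lit 12275333391)) (T.h (P (nat_lit 0)) (M (nat_lit 4057822255563)))) (T.h (P (nat_lit 0)) (P (nat_lit 322834144024))))))) (T.h (T.h (T.h (P (nat_lit 0)) (T.h (M (nat_lit 16185660847)) (T.h (P (nat_lit 0)) (T.h (P (nat_lit 145183523940)) (T.h (P (nat_lit 0)) (P (nat_lit 1408154362552))))))) (T.h (P (nat_lit 0)) (T.h (T.h (P (nat_lit 0)) (T.h (M (nat_lit 990042603143)) (T.h (P (nat_lit 0)) (P (nat_lit 3250217719588)))))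 (T.h (P (nat_lit 0)) (T.h (T.h (P (nat_lit 0)) (P (nat_lit 17834246543232))) (P (nat_lit 0))))))) (T.h (T.h (P (nat_lit 0)) (T.h (T.h (P (nat_lit 17696081172)) (T.h (P (nat_lit 0)) (M (nat_lit 2136077858123)))) (T.h (P (nat_lit 0)) (P (nat_lit 2083820922876))))) (T.h (T.h (T.h (P (nat_lit 0)) (T.h (P (nat_lit 303606044644)) (T.h (P (nat_lit 0)) (P (nat_lit 2015750822176))))) (T.h (P (nat_lit 0)) (T.h (T.h (P (nat_lit 0)) (P (nat_lit 3289052327932))) (P (nat_lit 0))))) (T.h (T.h (P (nat_lit 0)) (M (nat_lit 1265255940423))) (T.h (T.h (T.h (P (nat_lit 0)) (P (nat_lit 3038345601060))) (P (nat_lit 0))) (P (nat_lit 0)))))))) (P (nat_lit 0)))))) et0_3))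
def et0_5 : T ℤ := (T.h (T.h (T.h (T.h (T.h (M (nat_lit 104525831)) (T.h (P (nat_lit 0)) (T.h (P (nat_lit 8666848776)) (T.h (P (nat_lit 0)) (T.h (M (nat_lit 16139502215)) (T.h (P (nat_lit 0)) (P (nat_lit 257736949224)))))))) (T.h (P (nat_lit 0)) (T.h (T.h (M (nat_lit 3353857263)) (T.h (P (nat_lit 0)) (T.h (P (nat_lit 135016556968)) (T.h (P (nat_lit 0)) (M (nat_lit 516038187263)))))) (T.h (P (nat_lit 0)) (T.h (T.h (P (nat_lit 6783219704)) (T.h (P (nat_lit 0)) (P (nat_lit 1172945464868)))) (T.h (P (nat_lit 0)) (M (nat_lit 330156760887)))))))) (T.h (T.h (P (nat_lit 0)) (T.h (T.h (P (nat_lit 0)) (T.h (P (nat_lit 130664324032)) (T.h (P (nat_lit 0)) (P (nat_lit 5116331477112))))) (T.h (P (nat_lit 0)) (T.h (T.h (P (nat_lit 0)) (M (nat_lit 1926391860763))) (P (nat_lit 0)))))) (T.h (T.h (T.h (M (nat_lit 3353857263)) (T.h (P (nat_lit 0)) (T.h (P (nat_lit 135016556968)) (T.h (P (nat_lit 0)) (M (nat_lit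 516038187263)))))) (T.h (P (nat_lit 0)) (T.h (T.h (M (nat_lit 710256720431)) (T.h (P (nat_lit 0)) (P (nat_lit 640089188000)))) (T.h (P (nat_lit 0)) (P (nat_lit 1529107426344)))))) (T.h (T.h (P (nat_lit 0)) (T.h (T.h (P (nat_lit 0)) (M (nat_lit 1926391860763))) (P (nat_lit 0)))) (T.h (T.h (T.h (P (nat_lit 6783219704)) (T.h (P (nat_lit 0)) (P (nat_lit 1172945464868)))) (T.h (P (nat_lit 0)) (P (nat_lit 1529107426344)))) (T.h (P (nat_lit 0)) (M (nat_lit 330156760887)))))))) (T.h (P (nat_lit 0)) (T.h (T.h (T.h (T.h (M (nat_lit 437809679)) (T.h (P (nat_lit 0)) (T.h (M (nat_lit 11203151343)) (T.h (P (nat_lit 0)) (T.h (P (nat_lit 28490328272)) (T.h (P (nat_lit 0)) (M (nat_lit 2303153078631)))))))) (T.h (P (nat_lit 0)) (T.h (T.h (M (nat_lit 11203151343)) (T.h (P (nat_lit 0)) (T.h (M (nat_lit 37983449503)) (T.h (P (nat_lit 0)) (P (nat_lit 7045084523764)))))) (T.h (P (nat_lit 0)) (T.h (T.h (P (nat_lit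 28490328272)) (T.h (P (nat_lit 0)) (P (nat_lit 7045084523764)))) (T.h (P (nat_lit 0)) (M (nat_lit 2303153078631)))))))) (T.h (T.h (P (nat_lit 0)) (T.h (T.h (P (nat_lit 0)) (T.h (P (nat_lit 548726343144)) (T.h (P (nat_lit 0)) (M (nat_lit 5969097917551))))) (T.h (P (nat_lit 0)) (T.h (T.h (P (nat_lit 0)) (M (nat_lit 5969097917551))) (P (nat_lit 0)))))) (T.h (T.h (T.h (M (nat_lit 11203151343)) (T.h (P (nat_lit 0)) (T.h (M (nat_lit 37983449503)) (T.h (P (nat_lit 0)) (P (nat_lit 7045084523764)))))) (T.h (P (nat_lit 0)) (T.h (T.h (M (nat_lit 37983449503)) (T.h (P (nat_lit 0)) (P (nat_lit 2730440864928)))) (T.h (P (nat_lit 0)) (P (nat_lit 7045084523764)))))) (T.h (T.h (P (nat_lit 0)) (T.h (T.h (P (nat_lit 0)) (M (nat_lit 5969097917551))) (P (nat_lit 0)))) (T.h (T.h (T.h (P (nat_lit 28490328272)) (T.h (P (nat_lit 0)) (P (nat_lit 7045084523764)))) (T.h (P (nat_lit 0)) (P (nat_lit 7045084523764))))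 (T.h (P (nat_lit 0)) (M (nat_lit 2303153078631)))))))) (P (nat_lit 0))))) (T.h (T.h (P (nat_lit 0)) (T.h (T.h (T.h (P (nat_lit 0)) (T.h (T.h (P (nat_lit 0)) (T.h (M (nat_lit 16185660847)) (T.h (P (nat_lit 0)) (T.h (P (nat_lit 303606044644)) (T.h (P (nat_lit 0)) (P (nat_lit 3038345601060))))))) (T.h (P (nat_lit 0)) (T.h (T.h (P (nat_lit 0)) (T.h (P (nat_lit 145183523940)) (T.h (P (nat_lit 0)) (P (nat_lit 2015750822176))))) (T.h (P (nat_lit 0)) (T.h (T.h (P (nat_lit 0)) (P (nat_lit 1408154362552))) (P (nat_lit 0)))))))) (T.h (T.h (T.h (P (nat_lit 984314520)) (T.h (P (nat_lit 0)) (T.h (P (nat_lit 17696081172)) (T.h (P (nat_lit 0)) (M (nat_lit 1265255940423)))))) (T.h (P (nat_lit 0)) (T.h (T.h (P (nat_lit 346430372624)) (T.h (P (nat_lit 0)) (M (nat_lit 2136077858123)))) (T.h (P (nat_lit 0)) (M (nat_lit 1445151866591)))))) (T.h (T.h (P (nat_lit 0)) (T.h (T.h (P (nat_lit 0)) (T.h (M (nat_lit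 990042603143)) (T.h (P (nat_lit 0)) (P (nat_lit 3289052327932))))) (T.h (P (nat_lit 0)) (T.h (T.h (P (nat_lit 0)) (P (nat_lit 3250217719588))) (P (nat_lit 0)))))) (T.h (T.h (T.h (M (nat_lit 12275333391)) (T.h (P (nat_lit 0)) (P (nat_lit 2083820922876)))) (T.h (P (nat_lit 0)) (M (nat_lit 4057822255563)))) (T.h (T.h (P (nat_lit 0)) (T.h (T.h (P (nat_lit 0)) (P (nat_lit 17834246543232))) (P (nat_lit 0)))) (P (nat_lit 322834144024))))))) (P (nat_lit 0)))) (T.h (T.h (T.h (T.h (T.h (P (nat_lit 165417812)) (T.h (P (nat_lit 0)) (T.h (M (nat_lit 6079101951)) (T.h (P (nat_lit 0)) (T.h (P (nat_lit 37905499268)) (T.h (P (nat_lit 0)) (P (nat_lit 533974629664)))))))) (T.h (P (nat_lit 0)) (T.h (T.h (P (nat_lit 770064204)) (T.h (P (nat_lit 0)) (T.h (P (nat_lit 346471202560)) (T.h (P (nat_lit 0)) (P (nat_lit 1282757019544)))))) (T.h (P (nat_lit 0)) (T.h (T.h (P (nat_lit 57483690544)) (T.h (P (nat_lit 0))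 (M (nat_lit 16543387727)))) (T.h (P (nat_lit 0)) (P (nat_lit 1123724888188)))))))) (T.h (T.h (P (nat_lit 0)) (T.h (T.h (P (nat_lit 0)) (T.h (M (nat_lit 169448581623)) (T.h (P (nat_lit 0)) (M (nat_lit 5258123715963))))) (T.h (P (nat_lit 0)) (T.h (T.h (P (nat_lit 0)) (P (nat_lit 2881933885824))) (P (nat_lit 0)))))) (T.h (T.h (T.h (P (nat_lit 6210215620)) (T.h (P (nat_lit 0)) (T.h (M (nat_lit 311086960071)) (T.h (P (nat_lit 0)) (P (nat_lit 672269078404)))))) (T.h (P (nat_lit 0)) (T.h (T.h (P (nat_lit 581247334528)) (T.h (P (nat_lit 0)) (M (nat_lit 2137126752151)))) (T.h (P (nat_lit 0)) (M (nat_lit 4718047184507)))))) (T.h (T.h (P (nat_lit 0)) (T.h (T.h (P (nat_lit 0)) (P (nat_lit 1169100217124))) (P (nat_lit 0)))) (T.h (T.h (T.h (M (nat_lit 171352642803)) (T.h (P (nat_lit 0)) (M (nat_lit 3870366025763)))) (T.h (P (nat_lit 0)) (M (nat_lit 1965273190299)))) (T.h (P (nat_lit 0)) (P (nat_lit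 1613746533252)))))))) (P (nat_lit 0))) (P (nat_lit 0)))))
def et0_6 : T ℤ := (T.h (T.h (P (nat_lit 0)) (T.h (P (nat_lit 0)) (T.h (T.h (T.h (T.h (M (nat_lit 104525831)) (T.h (P (nat_lit 0)) (T.h (M (nat_lit 3353857263)) (T.h (P (nat_lit 0)) (T.h (P (nat_lit 6783219704)) (T.h (P (nat_lit 0)) (M (nat_lit 330156760887)))))))) (T.h (P (nat_lit 0)) (T.h (T.h (P (nat_lit 8666848776)) (T.h (P (nat_lit 0)) (T.h (P (nat_lit 135016556968)) (T.h (P (nat_lit 0)) (P (nat_lit 1172945464868)))))) (T.h (P (nat_lit 0)) (T.h (T.h (M (nat_lit 16139502215)) (T.h (P (nat_lit 0)) (M (nat_lit 516038187263)))) (T.h (P (nat_lit 0)) (P (nat_lit 257736949224)))))))) (T.h (T.h (P (nat_lit 0)) (T.h (T.h (P (nat_lit 0)) (T.h (P (nat_lit 130664324032)) (T.h (P (nat_lit 0)) (M (nat_lit 1926391860763))))) (T.h (P (nat_lit 0)) (T.h (T.h (P (nat_lit 0)) (P (nat_lit 5116331477112))) (P (nat_lit 0)))))) (T.h (T.h (T.h (M (nat_lit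 3353857263)) (T.h (P (nat_lit 0)) (T.h (M (nat_lit 710256720431)) (T.h (P (nat_lit 0)) (P (nat_lit 1529107426344)))))) (T.h (P (nat_lit 0)) (T.h (T.h (P (nat_lit 135016556968)) (T.h (P (nat_lit 0)) (P (nat_lit 640089188000)))) (T.h (P (nat_lit 0)) (M (nat_lit 516038187263)))))) (T.h (T.h (P (nat_lit 0)) (T.h (T.h (P (nat_lit 0)) (M (nat_lit 1926391860763))) (P (nat_lit 0)))) (T.h (T.h (T.h (P (nat_lit 6783219704)) (T.h (P (nat_lit 0)) (P (nat_lit 1529107426344)))) (T.h (P (nat_lit 0)) (P (nat_lit 1172945464868)))) (T.h (P (nat_lit 0)) (M (nat_lit 330156760887)))))))) (T.h (P (nat_lit 0)) (T.h (T.h (T.h (T.h (P (nat_lit 165417812)) (T.h (P (nat_lit 0)) (T.h (P (nat_lit 770064204)) (T.h (P (nat_lit 0)) (T.h (P (nat_lit 57483690544)) (T.h (P (nat_lit 0)) (P (nat_lit 1123724888188)))))))) (T.h (P (nat_lit 0)) (T.h (T.h (M (nat_lit 6079101951)) (T.h (P (nat_lit 0)) (T.h (P (nat_lit 346471202560))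 (T.h (P (nat_lit 0)) (M (nat_lit 16543387727)))))) (T.h (P (nat_lit 0)) (T.h (T.h (P (nat_lit 37905499268)) (T.h (P (nat_lit 0)) (P (nat_lit 1282757019544)))) (T.h (P (nat_lit 0)) (P (nat_lit 533974629664)))))))) (T.h (T.h (P (nat_lit 0)) (T.h (T.h (P (nat_lit 0)) (T.h (M (nat_lit 169448581623)) (T.h (P (nat_lit 0)) (P (nat_lit 2881933885824))))) (T.h (P (nat_lit 0)) (T.h (T.h (P (nat_lit 0)) (M (nat_lit 5258123715963))) (P (nat_lit 0)))))) (T.h (T.h (T.h (P (nat_lit 6210215620)) (T.h (P (nat_lit 0)) (T.h (P (nat_lit 581247334528)) (T.h (P (nat_lit 0)) (M (nat_lit 4718047184507)))))) (T.h (P (nat_lit 0)) (T.h (T.h (M (nat_lit 311086960071)) (T.h (P (nat_lit 0)) (M (nat_lit 2137126752151)))) (T.h (P (nat_lit 0)) (P (nat_lit 672269078404)))))) (T.h (T.h (P (nat_lit 0)) (T.h (T.h (P (nat_lit 0)) (P (nat_lit 1169100217124))) (P (nat_lit 0)))) (T.h (T.h (T.h (M (nat_lit 171352642803)) (T.h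 (P (nat_lit 0)) (M (nat_lit 1965273190299)))) (T.h (P (nat_lit 0)) (M (nat_lit 3870366025763)))) (T.h (P (nat_lit 0)) (P (nat_lit 1613746533252)))))))) (P (nat_lit 0))))))) (T.h (T.h (P (nat_lit 0)) (T.h (T.h (T.h (P (nat_lit 0)) (T.h (T.h (P (nat_lit 0)) (T.h (P (nat_lit 1200167656)) (T.h (P (nat_lit 0)) (T.h (P (nat_lit 21699665412)) (T.h (P (nat_lit 0)) (P (nat_lit 198154312536))))))) (T.h (P (nat_lit 0)) (T.h (T.h (P (nat_lit 0)) (T.h (P (nat_lit 21699665412)) (T.h (P (nat_lit 0)) (M (nat_lit 777091911983))))) (T.h (P (nat_lit 0)) (T.h (T.h (P (nat_lit 0)) (P (nat_lit 198154312536))) (P (nat_lit 0)))))))) (T.h (T.h (T.h (P (nat_lit 2787024)) (T.h (P (nat_lit 0)) (T.h (P (nat_lit 1039472732)) (T.h (P (nat_lit 0)) (P (nat_lit 599388462960)))))) (T.h (P (nat_lit 0)) (T.h (T.h (P (nat_lit 1039472732)) (T.h (P (nat_lit 0)) (P (nat_lit 707729232976)))) (T.h (P (nat_lit 0)) (P (nat_lit 599388462960))))))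 (T.h (T.h (P (nat_lit 0)) (T.h (T.h (P (nat_lit 0)) (T.h (P (nat_lit 135704405584)) (T.h (P (nat_lit 0)) (M (nat_lit 1426526531655))))) (T.h (P (nat_lit 0)) (T.h (T.h (P (nat_lit 0)) (M (nat_lit 1426526531655))) (P (nat_lit 0)))))) (T.h (T.h (T.h (M (nat_lit 2319017175)) (T.h (P (nat_lit 0)) (P (nat_lit 145717188724)))) (T.h (P (nat_lit 0)) (P (nat_lit 145717188724)))) (T.h (T.h (P (nat_lit 0)) (T.h (T.h (P (nat_lit 0)) (M (nat_lit 3374969748975))) (P (nat_lit 0)))) (P (nat_lit 40243782512))))))) (T.h (P (nat_lit 0)) (T.h (T.h (T.h (P (nat_lit 0)) (T.h (T.h (P (nat_lit 0)) (T.h (M (nat_lit 16185660847)) (T.h (P (nat_lit 0)) (T.h (P (nat_lit 145183523940)) (T.h (P (nat_lit 0)) (P (nat_lit 1408154362552))))))) (T.h (P (nat_lit 0)) (T.h (T.h (P (nat_lit 0)) (T.h (P (nat_lit 303606044644)) (T.h (P (nat_lit 0)) (P (nat_lit 2015750822176))))) (T.h (P (nat_lit 0)) (T.h (T.h (P (nat_lit 0)) (P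 (nat_lit 3038345601060))) (P (nat_lit 0)))))))) (T.h (T.h (T.h (P (nat_lit 984314520)) (T.h (P (nat_lit 0)) (T.h (P (nat_lit 346430372624)) (T.h (P (nat_lit 0)) (M (nat_lit 1445151866591)))))) (T.h (P (nat_lit 0)) (T.h (T.h (P (nat_lit 17696081172)) (T.h (P (nat_lit 0)) (M (nat_lit 2136077858123)))) (T.h (P (nat_lit 0)) (M (nat_lit 1265255940423)))))) (T.h (T.h (P (nat_lit 0)) (T.h (T.h (P (nat_lit 0)) (T.h (M (nat_lit 990042603143)) (T.h (P (nat_lit 0)) (P (nat_lit 3250217719588))))) (T.h (P (nat_lit 0)) (T.h (T.h (P (nat_lit 0)) (P (nat_lit 3289052327932))) (P (nat_lit 0)))))) (T.h (T.h (T.h (M (nat_lit 12275333391)) (T.h (P (nat_lit 0)) (M (nat_lit 4057822255563)))) (T.h (P (nat_lit 0)) (P (nat_lit 2083820922876)))) (T.h (T.h (P (nat_lit 0)) (T.h (T.h (P (nat_lit 0)) (P (nat_lit 17834246543232))) (P (nat_lit 0)))) (P (nat_lit 322834144024))))))) (P (nat_lit 0)))))) et0_5))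
def et0_7 : T ℤ := (T.h (T.h (T.h (T.h (T.h (P (nat_lit 0)) (T.h (M (nat_lit 115545331)) (T.h (P (nat_lit 0)) (T.h (P (nat_lit 11187228352)) (T.h (P (nat_lit 0)) (P (nat_lit 74559026272))))))) (T.h (P (nat_lit 0)) (T.h (T.h (P (nat_lit 0)) (T.h (M (nat_lit 12084242719)) (T.h (P (nat_lit 0)) (M (nat_lit 925509909011))))) (T.h (P (nat_lit 0)) (T.h (T.h (P (nat_lit 0)) (M (nat_lit 166371477939))) (P (nat_lit 0))))))) (T.h (T.h (P (nat_lit 0)) (T.h (T.h (M (nat_lit 7743071003)) (T.h (P (nat_lit 0)) (T.h (M (nat_lit 163056636023)) (T.h (P (nat_lit 0)) (M (nat_lit 791676185263)))))) (T.h (P (nat_lit 0)) (T.h (T.h (P (nat_lit 2878794784)) (T.h (P (nat_lit 0)) (P (nat_lit 43215903388)))) (T.h (P (nat_lit 0)) (P (nat_lit 106065275688))))))) (T.h (T.h (T.h (P (nat_lit 0)) (T.h (P (nat_lit 15078578372)) (T.h (P (nat_lit 0)) (P (nat_lit 858267889808))))) (T.h (P (nat_lit 0)) (T.h (T.h (P (nat_lit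 0)) (M (nat_lit 963571195655))) (P (nat_lit 0))))) (T.h (T.h (P (nat_lit 0)) (T.h (T.h (M (nat_lit 97180771147)) (T.h (P (nat_lit 0)) (P (nat_lit 2437051418316)))) (T.h (P (nat_lit 0)) (M (nat_lit 843349395643))))) (T.h (T.h (T.h (P (nat_lit 0)) (M (nat_lit 622260322555))) (P (nat_lit 0))) (T.h (T.h (P (nat_lit 0)) (P (nat_lit 1291483891720))) (P (nat_lit 0)))))))) (T.h (P (nat_lit 0)) (T.h (T.h (T.h (T.h (P (nat_lit 0)) (T.h (P (nat_lit 984314520)) (T.h (P (nat_lit 0)) (T.h (M (nat_lit 12275333391)) (T.h (P (nat_lit 0)) (P (nat_lit 322834144024))))))) (T.h (P (nat_lit 0)) (T.h (T.h (P (nat_lit 0)) (T.h (P (nat_lit 17696081172)) (T.h (P (nat_lit 0)) (P (nat_lit 2083820922876))))) (T.h (P (nat_lit 0)) (T.h (T.h (P (nat_lit 0)) (M (nat_lit 1265255940423))) (P (nat_lit 0))))))) (T.h (T.h (P (nat_lit 0)) (T.h (T.h (M (nat_lit 16185660847)) (T.h (P (nat_lit 0)) (T.h (M (nat_lit 990042603143))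 (T.h (P (nat_lit 0)) (P (nat_lit 17834246543232)))))) (T.h (P (nat_lit 0)) (T.h (T.h (P (nat_lit 303606044644)) (T.h (P (nat_lit 0)) (P (nat_lit 3289052327932)))) (T.h (P (nat_lit 0)) (P (nat_lit 3038345601060))))))) (T.h (T.h (T.h (P (nat_lit 0)) (T.h (P (nat_lit 346430372624)) (T.h (P (nat_lit 0)) (M (nat_lit 4057822255563))))) (T.h (P (nat_lit 0)) (T.h (T.h (P (nat_lit 0)) (M (nat_lit 2136077858123))) (P (nat_lit 0))))) (T.h (T.h (P (nat_lit 0)) (T.h (T.h (P (nat_lit 145183523940)) (T.h (P (nat_lit 0)) (P (nat_lit 3250217719588)))) (T.h (P (nat_lit 0)) (P (nat_lit 2015750822176))))) (T.h (T.h (T.h (P (nat_lit 0)) (M (nat_lit 1445151866591))) (P (nat_lit 0))) (T.h (T.h (P (nat_lit 0)) (P (nat_lit 1408154362552))) (P (nat_lit 0)))))))) (P (nat_lit 0))))) (T.h (T.h (P (nat_lit 0)) (T.h (T.h (T.h (P (nat_lit 0)) (T.h (T.h (P (nat_lit 984314520)) (T.h (P (nat_lit 0)) (T.h (P (nat_lit 17696081172))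 (T.h (P (nat_lit 0)) (M (nat_lit 1265255940423)))))) (T.h (P (nat_lit 0)) (T.h (T.h (M (nat_lit 12275333391)) (T.h (P (nat_lit 0)) (P (nat_lit 2083820922876)))) (T.h (P (nat_lit 0)) (P (nat_lit 322834144024))))))) (T.h (T.h (T.h (P (nat_lit 0)) (T.h (M (nat_lit 16185660847)) (T.h (P (nat_lit 0)) (T.h (P (nat_lit 303606044644)) (T.h (P (nat_lit 0)) (P (nat_lit 3038345601060))))))) (T.h (P (nat_lit 0)) (T.h (T.h (P (nat_lit 0)) (T.h (M (nat_lit 990042603143)) (T.h (P (nat_lit 0)) (P (nat_lit 3289052327932))))) (T.h (P (nat_lit 0)) (T.h (T.h (P (nat_lit 0)) (P (nat_lit 17834246543232))) (P (nat_lit 0))))))) (T.h (T.h (P (nat_lit 0)) (T.h (T.h (P (nat_lit 346430372624)) (T.h (P (nat_lit 0)) (M (nat_lit 2136077858123)))) (T.h (P (nat_lit 0)) (M (nat_lit 4057822255563))))) (T.h (T.h (T.h (P (nat_lit 0)) (T.h (P (nat_lit 145183523940)) (T.h (P (nat_lit 0)) (P (nat_lit 2015750822176))))) (T.h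 (P (nat_lit 0)) (T.h (T.h (P (nat_lit 0)) (P (nat_lit 3250217719588))) (P (nat_lit 0))))) (T.h (T.h (P (nat_lit 0)) (M (nat_lit 1445151866591))) (T.h (T.h (T.h (P (nat_lit 0)) (P (nat_lit 1408154362552))) (P (nat_lit 0))) (P (nat_lit 0)))))))) (P (nat_lit 0)))) (T.h (T.h (T.h (T.h (T.h (P (nat_lit 0)) (T.h (M (nat_lit 540952439)) (T.h (P (nat_lit 0)) (T.h (M (nat_lit 64154482951)) (T.h (P (nat_lit 0)) (M (nat_lit 180730975095))))))) (T.h (P (nat_lit 0)) (T.h (T.h (P (nat_lit 0)) (T.h (M (nat_lit 78465167815)) (T.h (P (nat_lit 0)) (M (nat_lit 679154229963))))) (T.h (P (nat_lit 0)) (T.h (T.h (P (nat_lit 0)) (P (nat_lit 1086500854432))) (P (nat_lit 0))))))) (T.h (T.h (P (nat_lit 0)) (T.h (T.h (P (nat_lit 12284307112)) (T.h (P (nat_lit 0)) (T.h (P (nat_lit 429420313056)) (T.h (P (nat_lit 0)) (P (nat_lit 3542533916936)))))) (T.h (P (nat_lit 0)) (T.h (T.h (P (nat_lit 121970835504)) (T.h (P (nat_lit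 0)) (P (nat_lit 604839036788)))) (T.h (P (nat_lit 0)) (M (nat_lit 2015755882279))))))) (T.h (T.h (T.h (P (nat_lit 0)) (T.h (M (nat_lit 78465167815)) (T.h (P (nat_lit 0)) (M (nat_lit 679154229963))))) (T.h (P (nat_lit 0)) (T.h (T.h (P (nat_lit 0)) (P (nat_lit 3854149657400))) (P (nat_lit 0))))) (T.h (T.h (P (nat_lit 0)) (T.h (T.h (P (nat_lit 121970835504)) (T.h (P (nat_lit 0)) (P (nat_lit 604839036788)))) (T.h (P (nat_lit 0)) (M (nat_lit 565881989903))))) (T.h (T.h (T.h (P (nat_lit 0)) (P (nat_lit 1086500854432))) (P (nat_lit 0))) (T.h (T.h (P (nat_lit 0)) (M (nat_lit 2015755882279))) (P (nat_lit 0)))))))) (P (nat_lit 0))) (P (nat_lit 0)))))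
def et0_8 : T ℤ := (T.h (T.h (T.h (T.h (T.h (P (nat_lit 8949632)) (T.h (P (nat_lit 0)) (T.h (M (nat_lit 1081608643)) (T.h (P (nat_lit 0)) (T.h (P (nat_lit 38468182804)) (T.h (P (nat_lit 0)) (M (nat_lit 722493251563)))))))) (T.h (P (nat_lit 0)) (T.h (T.h (M (nat_lit 1081608643)) (T.h (P (nat_lit 0)) (T.h (P (nat_lit 8644218144)) (T.h (P (nat_lit 0)) (P (nat_lit 165644228432)))))) (T.h (P (nat_lit 0)) (T.h (T.h (P (nat_lit 38468182804)) (T.h (P (nat_lit 0)) (P (nat_lit 165644228432)))) (T.h (P (nat_lit 0)) (M (nat_lit 722493251563)))))))) (T.h (T.h (P (nat_lit 0)) (T.h (T.h (P (nat_lit 0)) (T.h (P (nat_lit 5775186112)) (T.h (P (nat_lit 0)) (M (nat_lit 228122327815))))) (T.h (P (nat_lit 0)) (T.h (T.h (P (nat_lit 0)) (M (nat_lit 228122327815))) (P (nat_lit 0)))))) (T.h (T.h (T.h (P (nat_lit 76403824)) (T.h (P (nat_lit 0)) (T.h (P (nat_lit 41785685088)) (T.h (P (nat_lit 0)) (M (nat_lit 590974705419))))))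 (T.h (P (nat_lit 0)) (T.h (T.h (P (nat_lit 41785685088)) (T.h (P (nat_lit 0)) (M (nat_lit 530097823703)))) (T.h (P (nat_lit 0)) (M (nat_lit 590974705419)))))) (T.h (T.h (P (nat_lit 0)) (T.h (T.h (P (nat_lit 0)) (M (nat_lit 131088396247))) (P (nat_lit 0)))) (T.h (T.h (T.h (M (nat_lit 8108037431)) (T.h (P (nat_lit 0)) (M (nat_lit 449152800715)))) (T.h (P (nat_lit 0)) (M (nat_lit 449152800715)))) (T.h (P (nat_lit 0)) (P (nat_lit 392577007400)))))))) (T.h (P (nat_lit 0)) (T.h (T.h (T.h (T.h (P (nat_lit 165417812)) (T.h (P (nat_lit 0)) (T.h (P (nat_lit 6210215620)) (T.h (P (nat_lit 0)) (T.h (M (nat_lit 171352642803)) (T.h (P (nat_lit 0)) (P (nat_lit 1613746533252)))))))) (T.h (P (nat_lit 0)) (T.h (T.h (M (nat_lit 6079101951)) (T.h (P (nat_lit 0)) (T.h (M (nat_lit 311086960071)) (T.h (P (nat_lit 0)) (M (nat_lit 3870366025763)))))) (T.h (P (nat_lit 0)) (T.h (T.h (P (nat_lit 37905499268)) (T.h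 (P (nat_lit 0)) (P (nat_lit 672269078404)))) (T.h (P (nat_lit 0)) (P (nat_lit 533974629664)))))))) (T.h (T.h (P (nat_lit 0)) (T.h (T.h (P (nat_lit 0)) (T.h (M (nat_lit 169448581623)) (T.h (P (nat_lit 0)) (P (nat_lit 1169100217124))))) (T.h (P (nat_lit 0)) (T.h (T.h (P (nat_lit 0)) (M (nat_lit 5258123715963))) (P (nat_lit 0)))))) (T.h (T.h (T.h (P (nat_lit 770064204)) (T.h (P (nat_lit 0)) (T.h (P (nat_lit 581247334528)) (T.h (P (nat_lit 0)) (M (nat_lit 1965273190299)))))) (T.h (P (nat_lit 0)) (T.h (T.h (P (nat_lit 346471202560)) (T.h (P (nat_lit 0)) (M (nat_lit 2137126752151)))) (T.h (P (nat_lit 0)) (P (nat_lit 1282757019544)))))) (T.h (T.h (P (nat_lit 0)) (T.h (T.h (P (nat_lit 0)) (P (nat_lit 2881933885824))) (P (nat_lit 0)))) (T.h (T.h (T.h (P (nat_lit 57483690544)) (T.h (P (nat_lit 0)) (M (nat_lit 4718047184507)))) (T.h (P (nat_lit 0)) (M (nat_lit 16543387727)))) (T.h (P (nat_lit 0))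 (P (nat_lit 1123724888188)))))))) (P (nat_lit 0))))) (T.h (T.h (P (nat_lit 0)) (T.h (T.h (T.h (P (nat_lit 0)) (T.h (T.h (P (nat_lit 0)) (T.h (M (nat_lit 9437198455)) (T.h (P (nat_lit 0)) (T.h (M (nat_lit 297299913623)) (T.h (P (nat_lit 0)) (M (nat_lit 1204538929215))))))) (T.h (P (nat_lit 0)) (T.h (T.h (P (nat_lit 0)) (T.h (M (nat_lit 297299913623)) (T.h (P (nat_lit 0)) (M (nat_lit 734780909519))))) (T.h (P (nat_lit 0)) (T.h (T.h (P (nat_lit 0)) (M (nat_lit 1204538929215))) (P (nat_lit 0)))))))) (T.h (T.h (T.h (M (nat_lit 562378039)) (T.h (P (nat_lit 0)) (T.h (M (nat_lit 17843645091)) (T.h (P (nat_lit 0)) (M (nat_lit 1504661267619)))))) (T.h (P (nat_lit 0)) (T.h (T.h (M (nat_lit 17843645091)) (T.h (P (nat_lit 0)) (P (nat_lit 1516709504856)))) (T.h (P (nat_lit 0)) (M (nat_lit 1504661267619)))))) (T.h (T.h (P (nat_lit 0)) (T.h (T.h (P (nat_lit 0)) (T.h (M (nat_lit 358746197375)) (T.h (P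 (nat_lit 0)) (P (nat_lit 330271357920))))) (T.h (P (nat_lit 0)) (T.h (T.h (P (nat_lit 0)) (P (nat_lit 330271357920))) (P (nat_lit 0)))))) (T.h (T.h (T.h (P (nat_lit 69279640136)) (T.h (P (nat_lit 0)) (M (nat_lit 748951901543)))) (T.h (P (nat_lit 0)) (M (nat_lit 748951901543)))) (T.h (T.h (P (nat_lit 0)) (T.h (T.h (P (nat_lit 0)) (P (nat_lit 6164402456016))) (P (nat_lit 0)))) (M (nat_lit 831753642327))))))) (P (nat_lit 0)))) (T.h (T.h (T.h (T.h (T.h (P (nat_lit 165417812)) (T.h (P (nat_lit 0)) (T.h (M (nat_lit 6079101951)) (T.h (P (nat_lit 0)) (T.h (P (nat_lit 37905499268)) (T.h (P (nat_lit 0)) (P (nat_lit 533974629664)))))))) (T.h (P (nat_lit 0)) (T.h (T.h (P (nat_lit 6210215620)) (T.h (P (nat_lit 0)) (T.h (M (nat_lit 311086960071)) (T.h (P (nat_lit 0)) (P (nat_lit 672269078404)))))) (T.h (P (nat_lit 0)) (T.h (T.h (M (nat_lit 171352642803)) (T.h (P (nat_lit 0)) (M (nat_lit 3870366025763))))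 (T.h (P (nat_lit 0)) (P (nat_lit 1613746533252)))))))) (T.h (T.h (P (nat_lit 0)) (T.h (T.h (P (nat_lit 0)) (T.h (M (nat_lit 169448581623)) (T.h (P (nat_lit 0)) (M (nat_lit 5258123715963))))) (T.h (P (nat_lit 0)) (T.h (T.h (P (nat_lit 0)) (P (nat_lit 1169100217124))) (P (nat_lit 0)))))) (T.h (T.h (T.h (P (nat_lit 770064204)) (T.h (P (nat_lit 0)) (T.h (P (nat_lit 346471202560)) (T.h (P (nat_lit 0)) (P (nat_lit 1282757019544)))))) (T.h (P (nat_lit 0)) (T.h (T.h (P (nat_lit 581247334528)) (T.h (P (nat_lit 0)) (M (nat_lit 2137126752151)))) (T.h (P (nat_lit 0)) (M (nat_lit 1965273190299)))))) (T.h (T.h (P (nat_lit 0)) (T.h (T.h (P (nat_lit 0)) (P (nat_lit 2881933885824))) (P (nat_lit 0)))) (T.h (T.h (T.h (P (nat_lit 57483690544)) (T.h (P (nat_lit 0)) (M (nat_lit 16543387727)))) (T.h (P (nat_lit 0)) (M (nat_lit 4718047184507)))) (T.h (P (nat_lit 0)) (P (nat_lit 1123724888188)))))))) (P (nat_lit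 0))) (P (nat_lit 0)))))
def et0_9 : T ℤ := (T.h (T.h (T.h (P (nat_lit 0)) (T.h (T.h (T.h (P (nat_lit 0)) (T.h (T.h (M (nat_lit 19236419)) (T.h (P (nat_lit 0)) (T.h (P (nat_lit 26964057680)) (T.h (P (nat_lit 0)) (P (nat_lit 615114044888)))))) (T.h (P (nat_lit 0)) (T.h (T.h (M (nat_lit 3384480903)) (T.h (P (nat_lit 0)) (P (nat_lit 1434500677036)))) (T.h (P (nat_lit 0)) (M (nat_lit 135755122019))))))) (T.h (T.h (T.h (P (nat_lit 0)) (T.h (P (nat_lit 9059117340)) (T.h (P (nat_lit 0)) (T.h (M (nat_lit 52869520255)) (T.h (P (nat_lit 0)) (P (nat_lit 119161654444))))))) (T.h (P (nat_lit 0)) (T.h (T.h (P (nat_lit 0)) (T.h (P (nat_lit 170373914956)) (T.h (P (nat_lit 0)) (M (nat_lit 850950276091))))) (T.h (P (nat_lit 0)) (T.h (T.h (P (nat_lit 0)) (P (nat_lit 42682779300))) (P (nat_lit 0))))))) (T.h (T.h (P (nat_lit 0)) (T.h (T.h (M (nat_lit 16617945931)) (T.h (P (nat_lit 0)) (P (nat_lit 1561771425368))))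 (T.h (P (nat_lit 0)) (M (nat_lit 1371638075835))))) (T.h (T.h (T.h (P (nat_lit 0)) (T.h (P (nat_lit 72206278648)) (T.h (P (nat_lit 0)) (P (nat_lit 66904365948))))) (T.h (P (nat_lit 0)) (T.h (T.h (P (nat_lit 0)) (M (nat_lit 2009666477167))) (P (nat_lit 0))))) (T.h (T.h (P (nat_lit 0)) (P (nat_lit 298072435220))) (T.h (T.h (T.h (P (nat_lit 0)) (M (nat_lit 2968822679983))) (P (nat_lit 0))) (P (nat_lit 0)))))))) (P (nat_lit 0)))) (T.h (T.h (T.h (T.h (T.h (P (nat_lit 0)) (T.h (M (nat_lit 19236419)) (T.h (P (nat_lit 0)) (T.h (M (nat_lit 3384480903)) (T.h (P (nat_lit 0)) (M (nat_lit 135755122019))))))) (T.h (P (nat_lit 0)) (T.h (T.h (P (nat_lit 0)) (T.h (P (nat_lit 26964057680)) (T.h (P (nat_lit 0)) (P (nat_lit 1434500677036))))) (T.h (P (nat_lit 0)) (T.h (T.h (P (nat_lit 0)) (P (nat_lit 615114044888))) (P (nat_lit 0))))))) (T.h (T.h (P (nat_lit 0)) (T.h (T.h (P (nat_lit 9059117340)) (T.h (P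 (nat_lit 0)) (T.h (P (nat_lit 170373914956)) (T.h (P (nat_lit 0)) (P (nat_lit 42682779300)))))) (T.h (P (nat_lit 0)) (T.h (T.h (M (nat_lit 52869520255)) (T.h (P (nat_lit 0)) (M (nat_lit 850950276091)))) (T.h (P (nat_lit 0)) (P (nat_lit 119161654444))))))) (T.h (T.h (T.h (P (nat_lit 0)) (T.h (M (nat_lit 16617945931)) (T.h (P (nat_lit 0)) (M (nat_lit 1371638075835))))) (T.h (P (nat_lit 0)) (T.h (T.h (P (nat_lit 0)) (P (nat_lit 1561771425368))) (P (nat_lit 0))))) (T.h (T.h (P (nat_lit 0)) (T.h (T.h (P (nat_lit 72206278648)) (T.h (P (nat_lit 0)) (M (nat_lit 2009666477167)))) (T.h (P (nat_lit 0)) (P (nat_lit 66904365948))))) (T.h (T.h (T.h (P (nat_lit 0)) (P (nat_lit 298072435220))) (P (nat_lit 0))) (T.h (T.h (P (nat_lit 0)) (M (nat_lit 2968822679983))) (P (nat_lit 0)))))))) (P (nat_lit 0))) (P (nat_lit 0)))) (T.h (T.h (T.h (T.h (T.h (T.h (M (nat_lit 20188783)) (T.h (P (nat_lit 0)) (T.h (P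 (nat_lit 1285829384)) (T.h (P (nat_lit 0)) (T.h (M (nat_lit 42850997223)) (T.h (P (nat_lit 0)) (P (nat_lit 709727365004)))))))) (T.h (P (nat_lit 0)) (T.h (T.h (P (nat_lit 1285829384)) (T.h (P (nat_lit 0)) (T.h (M (nat_lit 20070572983)) (T.h (P (nat_lit 0)) (M (nat_lit 428556732435)))))) (T.h (P (nat_lit 0)) (T.h (T.h (M (nat_lit 42850997223)) (T.h (P (nat_lit 0)) (M (nat_lit 428556732435)))) (T.h (P (nat_lit 0)) (P (nat_lit 709727365004)))))))) (T.h (T.h (P (nat_lit 0)) (T.h (T.h (P (nat_lit 0)) (T.h (M (nat_lit 13476431191)) (T.h (P (nat_lit 0)) (P (nat_lit 403300546600))))) (T.h (P (nat_lit 0)) (T.h (T.h (P (nat_lit 0)) (P (nat_lit 403300546600))) (P (nat_lit 0)))))) (T.h (T.h (T.h (M (nat_lit 177976959)) (T.h (P (nat_lit 0)) (T.h (M (nat_lit 73856984235)) (T.h (P (nat_lit 0)) (P (nat_lit 1102626743540)))))) (T.h (P (nat_lit 0)) (T.h (T.h (M (nat_lit 73856984235)) (T.h (P (nat_lit 0))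 (P (nat_lit 1237602902648)))) (T.h (P (nat_lit 0)) (P (nat_lit 1102626743540)))))) (T.h (T.h (P (nat_lit 0)) (T.h (T.h (P (nat_lit 0)) (P (nat_lit 306785266536))) (P (nat_lit 0)))) (T.h (T.h (T.h (P (nat_lit 19029123624)) (T.h (P (nat_lit 0)) (P (nat_lit 783434818992)))) (T.h (P (nat_lit 0)) (P (nat_lit 783434818992)))) (T.h (P (nat_lit 0)) (M (nat_lit 913247250663)))))))) (P (nat_lit 0))) (P (nat_lit 0))) (P (nat_lit 0))))
def et0_10 : T ℤ := (T.h (T.h (T.h (P (nat_lit 0)) (T.h (P (nat_lit 0)) (T.h (P (nat_lit 0)) (T.h (T.h (T.h (P (nat_lit 0)) (T.h (T.h (M (nat_lit 115545331)) (T.h (P (nat_lit 0)) (T.h (P (nat_lit 15078578372)) (T.h (P (nat_lit 0)) (M (nat_lit 622260322555)))))) (T.h (P (nat_lit 0)) (T.h (T.h (P (nat_lit 11187228352)) (T.h (P (nat_lit 0)) (P (nat_lit 858267889808)))) (T.h (P (nat_lit 0)) (P (nat_lit 74559026272))))))) (T.h (T.h (T.h (P (nat_lit 0)) (T.h (M (nat_lit 7743071003))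 (T.h (P (nat_lit 0)) (T.h (M (nat_lit 97180771147)) (T.h (P (nat_lit 0)) (P (nat_lit 1291483891720))))))) (T.h (P (nat_lit 0)) (T.h (T.h (P (nat_lit 0)) (T.h (M (nat_lit 163056636023)) (T.h (P (nat_lit 0)) (P (nat_lit 2437051418316))))) (T.h (P (nat_lit 0)) (T.h (T.h (P (nat_lit 0)) (M (nat_lit 791676185263))) (P (nat_lit 0))))))) (T.h (T.h (P (nat_lit 0)) (T.h (T.h (M (nat_lit 12084242719)) (T.h (P (nat_lit 0)) (M (nat_lit 963571195655)))) (T.h (P (nat_lit 0)) (M (nat_lit 925509909011))))) (T.h (T.h (T.h (P (nat_lit 0)) (T.h (P (nat_lit 2878794784)) (T.h (P (nat_lit 0)) (M (nat_lit 843349395643))))) (T.h (P (nat_lit 0)) (T.h (T.h (P (nat_lit 0)) (P (nat_lit 43215903388))) (P (nat_lit 0))))) (T.h (T.h (P (nat_lit 0)) (M (nat_lit 166371477939))) (T.h (T.h (T.h (P (nat_lit 0)) (P (nat_lit 106065275688))) (P (nat_lit 0))) (P (nat_lit 0)))))))) (T.h (P (nat_lit 0)) (T.h (T.h (T.h (P (nat_lit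 0)) (T.h (T.h (M (nat_lit 19236419)) (T.h (P (nat_lit 0)) (T.h (M (nat_lit 16617945931)) (T.h (P (nat_lit 0)) (P (nat_lit 298072435220)))))) (T.h (P (nat_lit 0)) (T.h (T.h (M (nat_lit 3384480903)) (T.h (P (nat_lit 0)) (M (nat_lit 1371638075835)))) (T.h (P (nat_lit 0)) (M (nat_lit 135755122019))))))) (T.h (T.h (T.h (P (nat_lit 0)) (T.h (P (nat_lit 9059117340)) (T.h (P (nat_lit 0)) (T.h (P (nat_lit 72206278648)) (T.h (P (nat_lit 0)) (M (nat_lit 2968822679983))))))) (T.h (P (nat_lit 0)) (T.h (T.h (P (nat_lit 0)) (T.h (P (nat_lit 170373914956)) (T.h (P (nat_lit 0)) (M (nat_lit 2009666477167))))) (T.h (P (nat_lit 0)) (T.h (T.h (P (nat_lit 0)) (P (nat_lit 42682779300))) (P (nat_lit 0))))))) (T.h (T.h (P (nat_lit 0)) (T.h (T.h (P (nat_lit 26964057680)) (T.h (P (nat_lit 0)) (P (nat_lit 1561771425368)))) (T.h (P (nat_lit 0)) (P (nat_lit 1434500677036))))) (T.h (T.h (T.h (P (nat_lit 0)) (T.h (M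 (nat_lit 52869520255)) (T.h (P (nat_lit 0)) (P (nat_lit 66904365948))))) (T.h (P (nat_lit 0)) (T.h (T.h (P (nat_lit 0)) (M (nat_lit 850950276091))) (P (nat_lit 0))))) (T.h (T.h (P (nat_lit 0)) (P (nat_lit 615114044888))) (T.h (T.h (T.h (P (nat_lit 0)) (P (nat_lit 119161654444))) (P (nat_lit 0))) (P (nat_lit 0)))))))) (P (nat_lit 0)))))))) et0_4) (T.h et0_6 (T.h (T.h (T.h (P (nat_lit 0)) (T.h (T.h (T.h (P (nat_lit 0)) (T.h (T.h (M (nat_lit 115545331)) (T.h (P (nat_lit 0)) (T.h (M (nat_lit 12084242719)) (T.h (P (nat_lit 0)) (M (nat_lit 166371477939)))))) (T.h (P (nat_lit 0)) (T.h (T.h (P (nat_lit 11187228352)) (T.h (P (nat_lit 0)) (M (nat_lit 925509909011)))) (T.h (P (nat_lit 0)) (P (nat_lit 74559026272))))))) (T.h (T.h (T.h (P (nat_lit 0)) (T.h (M (nat_lit 7743071003)) (T.h (P (nat_lit 0)) (T.h (P (nat_lit 2878794784)) (T.h (P (nat_lit 0)) (P (nat_lit 106065275688))))))) (T.h (P (nat_lit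 0)) (T.h (T.h (P (nat_lit 0)) (T.h (M (nat_lit 163056636023)) (T.h (P (nat_lit 0)) (P (nat_lit 43215903388))))) (T.h (P (nat_lit 0)) (T.h (T.h (P (nat_lit 0)) (M (nat_lit 791676185263))) (P (nat_lit 0))))))) (T.h (T.h (P (nat_lit 0)) (T.h (T.h (P (nat_lit 15078578372)) (T.h (P (nat_lit 0)) (M (nat_lit 963571195655)))) (T.h (P (nat_lit 0)) (P (nat_lit 858267889808))))) (T.h (T.h (T.h (P (nat_lit 0)) (T.h (M (nat_lit 97180771147)) (T.h (P (nat_lit 0)) (M (nat_lit 843349395643))))) (T.h (P (nat_lit 0)) (T.h (T.h (P (nat_lit 0)) (P (nat_lit 2437051418316))) (P (nat_lit 0))))) (T.h (T.h (P (nat_lit 0)) (M (nat_lit 622260322555))) (T.h (T.h (T.h (P (nat_lit 0)) (P (nat_lit 1291483891720))) (P (nat_lit 0))) (P (nat_lit 0)))))))) (T.h (P (nat_lit 0)) (T.h (T.h (T.h (P (nat_lit 0)) (T.h (T.h (M (nat_lit 540952439)) (T.h (P (nat_lit 0)) (T.h (M (nat_lit 78465167815)) (T.h (P (nat_lit 0)) (P (nat_lit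 1086500854432)))))) (T.h (P (nat_lit 0)) (T.h (T.h (M (nat_lit 64154482951)) (T.h (P (nat_lit 0)) (M (nat_lit 679154229963)))) (T.h (P (nat_lit 0)) (M (nat_lit 180730975095))))))) (T.h (T.h (T.h (P (nat_lit 0)) (T.h (P (nat_lit 12284307112)) (T.h (P (nat_lit 0)) (T.h (P (nat_lit 121970835504)) (T.h (P (nat_lit 0)) (M (nat_lit 2015755882279))))))) (T.h (P (nat_lit 0)) (T.h (T.h (P (nat_lit 0)) (T.h (P (nat_lit 429420313056)) (T.h (P (nat_lit 0)) (P (nat_lit 604839036788))))) (T.h (P (nat_lit 0)) (T.h (T.h (P (nat_lit 0)) (P (nat_lit 3542533916936))) (P (nat_lit 0))))))) (T.h (T.h (P (nat_lit 0)) (T.h (T.h (M (nat_lit 78465167815)) (T.h (P (nat_lit 0)) (P (nat_lit 3854149657400)))) (T.h (P (nat_lit 0)) (M (nat_lit 679154229963))))) (T.h (T.h (T.h (P (nat_lit 0)) (T.h (P (nat_lit 121970835504)) (T.h (P (nat_lit 0)) (M (nat_lit 565881989903))))) (T.h (P (nat_lit 0)) (T.h (T.h (P (nat_lit 0))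 (P (nat_lit 604839036788))) (P (nat_lit 0))))) (T.h (T.h (P (nat_lit 0)) (P (nat_lit 1086500854432))) (T.h (T.h (T.h (P (nat_lit 0)) (M (nat_lit 2015755882279))) (P (nat_lit 0))) (P (nat_lit 0)))))))) (P (nat_lit 0)))))) et0_7) (T.h et0_8 et0_9))))

def t0 : T ℤ := (T.h et0_2 et0_10)

theorem h_t0 : chkT (c.G g0) t0 = true := by decide +kernel


end Pool.Agent.TOPR.R6094
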