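import Pool.Agent.TOPR.R6094.Cert

set_option autoImplicit false
set_option linter.all false
set_option maxRecDepth 100000

namespace Pool.Agent.TOPR.R6094

open Helper10.PC hiding V3
open Helper80.CW.DL Pool.Agent.Helper6.TOP

def et1_0 : T ℤ := (T.h (T.h (T.h (T.h (P (nat_lit 0)) (T.h (T.h (P (nat_lit 1975464760)) (T.h (P (nat_lit 0)) (T.h (P (nat_lit 50275367184)) (T.h (P (nat_lit 0)) (P (nat_lit 490672153888)))))) (T.h (P (nat_lit 0)) (T.h (T.h (P (nat_lit 35362370128)) (T.h (P (nat_lit 0)) (P (nat_lit 898415928136)))) (T.h (P (nat_lit 0)) (M (nat_lit 75059908071))))))) (T.h (T.h (T.h (P (nat_lit 0)) (T.h (M (nat_lit 2435762327)) (T.h (P (nat_lit 0)) (T.h (P (nat_lit 330475840560)) (T.h (P (nat_lit 0)) (M (nat_lit 942207659043))))))) (T.h (P (nat_lit 0)) (T.h (T.h (P (nat_lit 0)) (T.h (P (nat_lit 219192315376)) (T.h (P (nat_lit 0)) (M (nat_lit 895946624243))))) (T.h (P (nat_lit 0))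 (T.h (T.h (P (nat_lit 0)) (P (nat_lit 992599403712))) (P (nat_lit 0))))))) (T.h (T.h (P (nat_lit 0)) (T.h (T.h (P (nat_lit 50275367184)) (T.h (P (nat_lit 0)) (P (nat_lit 180525830744)))) (T.h (P (nat_lit 0)) (P (nat_lit 898415928136))))) (T.h (T.h (T.h (P (nat_lit 0)) (T.h (P (nat_lit 330475840560)) (T.h (P (nat_lit 0)) (M (nat_lit 1030505470903))))) (T.h (P (nat_lit 0)) (T.h (T.h (P (nat_lit 0)) (M (nat_lit 895946624243))) (P (nat_lit 0))))) (T.h (T.h (P (nat_lit 0)) (P (nat_lit 490672153888))) (T.h (T.h (T.h (P (nat_lit 0)) (M (nat_lit 942207659043))) (P (nat_lit 0))) (P (nat_lit 0)))))))) (T.h (P (nat_lit 0)) (T.h (T.h (T.h (P (nat_lit 0)) (T.h (T.h (M (nat_lit 562822091)) (T.h (P (nat_lit 0)) (T.h (M (nat_lit 75865036071)) (T.h (P (nat_lit 0)) (M (nat_lit 4525034791759)))))) (T.h (P (nat_lit 0)) (T.h (T.h (P (nat_lit 54193162604)) (T.h (P (nat_lit 0)) (M (nat_lit 719311965455)))) (T.h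 (P (nat_lit 0)) (M (nat_lit 754800421087))))))) (T.h (T.h (T.h (P (nat_lit 0)) (T.h (M (nat_lit 5582362659)) (T.h (P (nat_lit 0)) (T.h (M (nat_lit 73580082939)) (T.h (P (nat_lit 0)) (P (nat_lit 2980035216480))))))) (T.h (P (nat_lit 0)) (T.h (T.h (P (nat_lit 0)) (T.h (P (nat_lit 1962922138100)) (T.h (P (nat_lit 0)) (M (nat_lit 14643300886535))))) (T.h (P (nat_lit 0)) (T.h (T.h (P (nat_lit 0)) (P (nat_lit 658146786416))) (P (nat_lit 0))))))) (T.h (T.h (P (nat_lit 0)) (T.h (T.h (P (nat_lit 22544876480)) (T.h (P (nat_lit 0)) (M (nat_lit 432561656379)))) (T.h (P (nat_lit 0)) (P (nat_lit 2087883327684))))) (T.h (T.h (T.h (P (nat_lit 0)) (T.h (M (nat_lit 227078569535)) (T.h (P (nat_lit 0)) (M (nat_lit 4649967810627))))) (T.h (P (nat_lit 0)) (T.h (T.h (P (nat_lit 0)) (M (nat_lit 18460949489611))) (P (nat_lit 0))))) (T.h (T.h (P (nat_lit 0)) (P (nat_lit 1014454496020))) (T.h (T.h (T.h (P (nat_lit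 0)) (P (nat_lit 5346018852384))) (P (nat_lit 0))) (P (nat_lit 0)))))))) (P (nat_lit 0))))) (T.h (T.h (P (nat_lit 0)) (T.h (T.h (T.h (T.h (P (nat_lit 0)) (T.h (M (nat_lit 1528077963)) (T.h (P (nat_lit 0)) (T.h (P (nat_lit 2796801084)) (T.h (P (nat_lit 0)) (M (nat_lit 800535205875))))))) (T.h (P (nat_lit 0)) (T.h (T.h (P (nat_lit 0)) (T.h (M (nat_lit 144267644695)) (T.h (P (nat_lit 0)) (M (nat_lit 1011241739703))))) (T.h (P (nat_lit 0)) (T.h (T.h (P (nat_lit 0)) (P (nat_lit 321130579196))) (P (nat_lit 0))))))) (T.h (T.h (P (nat_lit 0)) (T.h (T.h (P (nat_lit 16379655124)) (T.h (P (nat_lit 0)) (T.h (M (nat_lit 663028118031)) (T.h (P (nat_lit 0)) (P (nat_lit 75625328716)))))) (T.h (P (nat_lit 0)) (T.h (T.h (P (nat_lit 893787847176)) (T.h (P (nat_lit 0)) (M (nat_lit 8517079212235)))) (T.h (P (nat_lit 0)) (P (nat_lit 99339406404))))))) (T.h (T.h (T.h (P (nat_lit 0)) (T.h (P (nat_lit 203575837164))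 (T.h (P (nat_lit 0)) (P (nat_lit 429244764760))))) (T.h (P (nat_lit 0)) (T.h (T.h (P (nat_lit 0)) (M (nat_lit 2132579029167))) (P (nat_lit 0))))) (T.h (T.h (P (nat_lit 0)) (T.h (T.h (P (nat_lit 471722160616)) (T.h (P (nat_lit 0)) (P (nat_lit 1246439086956)))) (T.h (P (nat_lit 0)) (M (nat_lit 4047178104283))))) (T.h (T.h (T.h (P (nat_lit 0)) (P (nat_lit 1676962168000))) (P (nat_lit 0))) (T.h (T.h (P (nat_lit 0)) (M (nat_lit 1476554750775))) (P (nat_lit 0)))))))) (P (nat_lit 0)))) (T.h (T.h (T.h (T.h (P (nat_lit 0)) (T.h (T.h (M (nat_lit 3454393711)) (T.h (P (nat_lit 0)) (T.h (M (nat_lit 67659531547)) (T.h (P (nat_lit 0)) (M (nat_lit 790888853131)))))) (T.h (P (nat_lit 0)) (T.h (T.h (M (nat_lit 61880268631)) (T.h (P (nat_lit 0)) (M (nat_lit 1246432872327)))) (T.h (P (nat_lit 0)) (P (nat_lit 131278854504))))))) (T.h (T.h (T.h (P (nat_lit 0)) (T.h (P (nat_lit 4277773696)) (T.h (P (nat_lit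 0)) (T.h (M (nat_lit 440013943711)) (T.h (P (nat_lit 0)) (P (nat_lit 798204648444))))))) (T.h (P (nat_lit 0)) (T.h (T.h (P (nat_lit 0)) (T.h (M (nat_lit 383583234719)) (T.h (P (nat_lit 0)) (P (nat_lit 1281253799588))))) (T.h (P (nat_lit 0)) (T.h (T.h (P (nat_lit 0)) (M (nat_lit 1733800814647))) (P (nat_lit 0))))))) (T.h (T.h (P (nat_lit 0)) (T.h (T.h (M (nat_lit 67659531547)) (T.h (P (nat_lit 0)) (M (nat_lit 316545135479)))) (T.h (P (nat_lit 0)) (M (nat_lit 1246432872327))))) (T.h (T.h (T.h (P (nat_lit 0)) (T.h (M (nat_lit 440013943711)) (T.h (P (nat_lit 0)) (P (nat_lit 1816610405288))))) (T.h (P (nat_lit 0)) (T.h (T.h (P (nat_lit 0)) (P (nat_lit 1281253799588))) (P (nat_lit 0))))) (T.h (T.h (P (nat_lit 0)) (M (nat_lit 790888853131))) (T.h (T.h (T.h (P (nat_lit 0)) (P (nat_lit 798204648444))) (P (nat_lit 0))) (P (nat_lit 0)))))))) (P (nat_lit 0))) (P (nat_lit 0)))))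
def et1_1 : T ℤ := (T.h (T.h (P (nat_lit 0)) (T.h (P (nat_lit 0)) (T.h (T.h (T.h (P (nat_lit 0)) (T.h (T.h (M (nat_lit 954521043)) (T.h (P (nat_lit 0)) (T.h (P (nat_lit 14096788744)) (T.h (P (nat_lit 0)) (P (nat_lit 929639001080)))))) (T.h (P (nat_lit 0)) (T.h (T.h (P (nat_lit 37055179536)) (T.h (P (nat_lit 0)) (P (nat_lit 415919209748)))) (T.h (P (nat_lit 0)) (P (nat_lit 479893289560))))))) (T.h (T.h (T.h (P (nat_lit 0)) (T.h (P (nat_lit 9263121076)) (T.h (P (nat_lit 0)) (T.h (P (nat_lit 124085444584)) (T.h (P (nat_lit 0)) (M (nat_lit 2400936672463))))))) (T.h (P (nat_lit 0)) (T.h (T.h (P (nat_lit 0)) (T.h (M (nat_lit 975029697959)) (T.h (P (nat_lit 0)) (P (nat_lit 8831112532944))))) (T.h (P (nat_lit 0)) (T.h (T.h (P (nat_lit 0)) (M (nat_lit 10304846179))) (P (nat_lit 0))))))) (T.h (T.h (P (nat_lit 0)) (T.h (T.h (M (nat_lit 3734583903)) (T.h (P (nat_lit 0)) (P (nat_lit 694005836244))))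 (T.h (P (nat_lit 0)) (M (nat_lit 36993231807))))) (T.h (T.h (T.h (P (nat_lit 0)) (T.h (P (nat_lit 245465472524)) (T.h (P (nat_lit 0)) (P (nat_lit 3139055069884))))) (T.h (P (nat_lit 0)) (T.h (T.h (P (nat_lit 0)) (P (nat_lit 1559736273008))) (P (nat_lit 0))))) (T.h (T.h (P (nat_lit 0)) (M (nat_lit 377335296111))) (T.h (T.h (T.h (P (nat_lit 0)) (M (nat_lit 963003353983))) (P (nat_lit 0))) (P (nat_lit 0)))))))) (T.h (P (nat_lit 0)) (T.h (T.h (T.h (P (nat_lit 0)) (T.h (T.h (P (nat_lit 1161066788)) (T.h (P (nat_lit 0)) (T.h (P (nat_lit 202679950984)) (T.h (P (nat_lit 0)) (M (nat_lit 744736293671)))))) (T.h (P (nat_lit 0)) (T.h (T.h (M (nat_lit 148240373763)) (T.h (P (nat_lit 0)) (M (nat_lit 142471240183)))) (T.h (P (nat_lit 0)) (M (nat_lit 1210983004699))))))) (T.h (T.h (T.h (P (nat_lit 0)) (T.h (M (nat_lit 51759546999)) (T.h (P (nat_lit 0)) (T.h (P (nat_lit 389524486120)) (T.h (P (nat_lit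 0)) (P (nat_lit 8270403527428))))))) (T.h (P (nat_lit 0)) (T.h (T.h (P (nat_lit 0)) (T.h (P (nat_lit 679012845560)) (T.h (P (nat_lit 0)) (M (nat_lit 10472527374707))))) (T.h (P (nat_lit 0)) (T.h (T.h (P (nat_lit 0)) (P (nat_lit 15248199354500))) (P (nat_lit 0))))))) (T.h (T.h (P (nat_lit 0)) (T.h (T.h (P (nat_lit 41402365228)) (T.h (P (nat_lit 0)) (M (nat_lit 1445963114819)))) (T.h (P (nat_lit 0)) (P (nat_lit 941845082136))))) (T.h (T.h (T.h (P (nat_lit 0)) (T.h (M (nat_lit 983806289675)) (T.h (P (nat_lit 0)) (M (nat_lit 6436887430259))))) (T.h (P (nat_lit 0)) (T.h (T.h (P (nat_lit 0)) (P (nat_lit 11413897683748))) (P (nat_lit 0))))) (T.h (T.h (P (nat_lit 0)) (P (nat_lit 746974122104))) (T.h (T.h (T.h (P (nat_lit 0)) (M (nat_lit 1374813441315))) (P (nat_lit 0))) (P (nat_lit 0)))))))) (P (nat_lit 0))))))) (T.h (T.h (P (nat_lit 0)) (T.h (T.h (T.h (T.h (P (nat_lit 0)) (T.h (M (nat_lit 197402419))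 (T.h (P (nat_lit 0)) (T.h (M (nat_lit 12346351127)) (T.h (P (nat_lit 0)) (P (nat_lit 438232071080))))))) (T.h (P (nat_lit 0)) (T.h (T.h (P (nat_lit 0)) (T.h (P (nat_lit 67391406212)) (T.h (P (nat_lit 0)) (P (nat_lit 348868334392))))) (T.h (P (nat_lit 0)) (T.h (T.h (P (nat_lit 0)) (P (nat_lit 534316824916))) (P (nat_lit 0))))))) (T.h (T.h (P (nat_lit 0)) (T.h (T.h (M (nat_lit 3000985219)) (T.h (P (nat_lit 0)) (T.h (P (nat_lit 448376176448)) (T.h (P (nat_lit 0)) (P (nat_lit 993274647376)))))) (T.h (P (nat_lit 0)) (T.h (T.h (M (nat_lit 370697450791)) (T.h (P (nat_lit 0)) (P (nat_lit 5542001600920)))) (T.h (P (nat_lit 0)) (P (nat_lit 116150558596))))))) (T.h (T.h (T.h (P (nat_lit 0)) (T.h (M (nat_lit 74117462995)) (T.h (P (nat_lit 0)) (M (nat_lit 410919575903))))) (T.h (P (nat_lit 0)) (T.h (T.h (P (nat_lit 0)) (P (nat_lit 958565014284))) (P (nat_lit 0))))) (T.h (T.h (P (nat_lit 0)) (T.h (T.h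 (M (nat_lit 83248238043)) (T.h (P (nat_lit 0)) (M (nat_lit 6397268399743)))) (T.h (P (nat_lit 0)) (M (nat_lit 1585197800735))))) (T.h (T.h (T.h (P (nat_lit 0)) (M (nat_lit 605554172283))) (P (nat_lit 0))) (T.h (T.h (P (nat_lit 0)) (P (nat_lit 188319440980))) (P (nat_lit 0)))))))) (T.h (P (nat_lit 0)) (T.h (T.h (T.h (T.h (P (nat_lit 0)) (T.h (P (nat_lit 1161066788)) (T.h (P (nat_lit 0)) (T.h (M (nat_lit 148240373763)) (T.h (P (nat_lit 0)) (M (nat_lit 1210983004699))))))) (T.h (P (nat_lit 0)) (T.h (T.h (P (nat_lit 0)) (T.h (P (nat_lit 202679950984)) (T.h (P (nat_lit 0)) (M (nat_lit 142471240183))))) (T.h (P (nat_lit 0)) (T.h (T.h (P (nat_lit 0)) (M (nat_lit 744736293671))) (P (nat_lit 0))))))) (T.h (T.h (P (nat_lit 0)) (T.h (T.h (M (nat_lit 51759546999)) (T.h (P (nat_lit 0)) (T.h (P (nat_lit 679012845560)) (T.h (P (nat_lit 0)) (P (nat_lit 15248199354500)))))) (T.h (P (nat_lit 0)) (T.h (T.h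 (P (nat_lit 389524486120)) (T.h (P (nat_lit 0)) (M (nat_lit 10472527374707)))) (T.h (P (nat_lit 0)) (P (nat_lit 8270403527428))))))) (T.h (T.h (T.h (P (nat_lit 0)) (T.h (P (nat_lit 41402365228)) (T.h (P (nat_lit 0)) (P (nat_lit 941845082136))))) (T.h (P (nat_lit 0)) (T.h (T.h (P (nat_lit 0)) (M (nat_lit 1445963114819))) (P (nat_lit 0))))) (T.h (T.h (P (nat_lit 0)) (T.h (T.h (M (nat_lit 983806289675)) (T.h (P (nat_lit 0)) (P (nat_lit 11413897683748)))) (T.h (P (nat_lit 0)) (M (nat_lit 6436887430259))))) (T.h (T.h (T.h (P (nat_lit 0)) (P (nat_lit 746974122104))) (P (nat_lit 0))) (T.h (T.h (P (nat_lit 0)) (M (nat_lit 1374813441315))) (P (nat_lit 0)))))))) (P (nat_lit 0)))))) et1_0))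
def et1_2 : T ℤ := (T.h (T.h (P (nat_lit 0)) (T.h (P (nat_lit 0)) (T.h (P (nat_lit 0)) (T.h (P (nat_lit 0)) (T.h (T.h (T.h (P (nat_lit 0)) (T.h (T.h (M (nat_lit 197402419)) (T.h (P (nat_lit 0)) (T.h (P (nat_lit 67391406212)) (T.h (P (nat_lit 0)) (P (nat_lit 534316824916)))))) (T.h (P (nat_lit 0)) (T.h (T.h (M (nat_lit 12346351127)) (T.h (P (nat_lit 0)) (P (nat_lit 348868334392)))) (T.h (P (nat_lit 0)) (P (nat_lit 438232071080))))))) (T.h (T.h (T.h (P (nat_lit 0)) (T.h (M (nat_lit 3000985219)) (T.h (P (nat_lit 0)) (T.h (M (nat_lit 370697450791)) (T.h (P (nat_lit 0)) (P (nat_lit 116150558596))))))) (T.h (P (nat_lit 0)) (T.h (T.h (P (nat_lit 0)) (T.h (P (nat_lit 448376176448)) (T.h (P (nat_lit 0)) (P (nat_lit 5542001600920))))) (T.h (P (nat_lit 0)) (T.h (T.h (P (nat_lit 0)) (P (nat_lit 993274647376))) (P (nat_lit 0))))))) (T.h (T.h (P (nat_lit 0)) (T.h (T.h (M (nat_lit 74117462995)) (T.h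 (P (nat_lit 0)) (P (nat_lit 958565014284)))) (T.h (P (nat_lit 0)) (M (nat_lit 410919575903))))) (T.h (T.h (T.h (P (nat_lit 0)) (T.h (M (nat_lit 83248238043)) (T.h (P (nat_lit 0)) (M (nat_lit 1585197800735))))) (T.h (P (nat_lit 0)) (T.h (T.h (P (nat_lit 0)) (M (nat_lit 6397268399743))) (P (nat_lit 0))))) (T.h (T.h (P (nat_lit 0)) (M (nat_lit 605554172283))) (T.h (T.h (T.h (P (nat_lit 0)) (P (nat_lit 188319440980))) (P (nat_lit 0))) (P (nat_lit 0)))))))) (T.h (P (nat_lit 0)) (T.h (T.h (T.h (P (nat_lit 0)) (T.h (T.h (M (nat_lit 1528077963)) (T.h (P (nat_lit 0)) (T.h (M (nat_lit 144267644695)) (T.h (P (nat_lit 0)) (P (nat_lit 321130579196)))))) (T.h (P (nat_lit 0)) (T.h (T.h (P (nat_lit 2796801084)) (T.h (P (nat_lit 0)) (M (nat_lit 1011241739703)))) (T.h (P (nat_lit 0)) (M (nat_lit 800535205875))))))) (T.h (T.h (T.h (P (nat_lit 0)) (T.h (P (nat_lit 16379655124)) (T.h (P (nat_lit 0)) (T.h (P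 (nat_lit 893787847176)) (T.h (P (nat_lit 0)) (P (nat_lit 99339406404))))))) (T.h (P (nat_lit 0)) (T.h (T.h (P (nat_lit 0)) (T.h (M (nat_lit 663028118031)) (T.h (P (nat_lit 0)) (M (nat_lit 8517079212235))))) (T.h (P (nat_lit 0)) (T.h (T.h (P (nat_lit 0)) (P (nat_lit 75625328716))) (P (nat_lit 0))))))) (T.h (T.h (P (nat_lit 0)) (T.h (T.h (P (nat_lit 203575837164)) (T.h (P (nat_lit 0)) (M (nat_lit 2132579029167)))) (T.h (P (nat_lit 0)) (P (nat_lit 429244764760))))) (T.h (T.h (T.h (P (nat_lit 0)) (T.h (P (nat_lit 471722160616)) (T.h (P (nat_lit 0)) (M (nat_lit 4047178104283))))) (T.h (P (nat_lit 0)) (T.h (T.h (P (nat_lit 0)) (P (nat_lit 1246439086956))) (P (nat_lit 0))))) (T.h (T.h (P (nat_lit 0)) (P (nat_lit 1676962168000))) (T.h (T.h (T.h (P (nat_lit 0)) (M (nat_lit 1476554750775))) (P (nat_lit 0))) (P (nat_lit 0)))))))) (P (nat_lit 0))))))))) (T.h (T.h (P (nat_lit 0)) (T.h (P (nat_lit 0))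 (T.h (P (nat_lit 0)) (T.h (T.h (T.h (T.h (P (nat_lit 0)) (T.h (M (nat_lit 954521043)) (T.h (P (nat_lit 0)) (T.h (P (nat_lit 37055179536)) (T.h (P (nat_lit 0)) (P (nat_lit 479893289560))))))) (T.h (P (nat_lit 0)) (T.h (T.h (P (nat_lit 0)) (T.h (P (nat_lit 14096788744)) (T.h (P (nat_lit 0)) (P (nat_lit 415919209748))))) (T.h (P (nat_lit 0)) (T.h (T.h (P (nat_lit 0)) (P (nat_lit 929639001080))) (P (nat_lit 0))))))) (T.h (T.h (P (nat_lit 0)) (T.h (T.h (P (nat_lit 9263121076)) (T.h (P (nat_lit 0)) (T.h (M (nat_lit 975029697959)) (T.h (P (nat_lit 0)) (M (nat_lit 10304846179)))))) (T.h (P (nat_lit 0)) (T.h (T.h (P (nat_lit 124085444584)) (T.h (P (nat_lit 0)) (P (nat_lit 8831112532944)))) (T.h (P (nat_lit 0)) (M (nat_lit 2400936672463))))))) (T.h (T.h (T.h (P (nat_lit 0)) (T.h (M (nat_lit 3734583903)) (T.h (P (nat_lit 0)) (M (nat_lit 36993231807))))) (T.h (P (nat_lit 0)) (T.h (T.h (P (nat_lit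 0)) (P (nat_lit 694005836244))) (P (nat_lit 0))))) (T.h (T.h (P (nat_lit 0)) (T.h (T.h (P (nat_lit 245465472524)) (T.h (P (nat_lit 0)) (P (nat_lit 1559736273008)))) (T.h (P (nat_lit 0)) (P (nat_lit 3139055069884))))) (T.h (T.h (T.h (P (nat_lit 0)) (M (nat_lit 377335296111))) (P (nat_lit 0))) (T.h (T.h (P (nat_lit 0)) (M (nat_lit 963003353983))) (P (nat_lit 0)))))))) (T.h (P (nat_lit 0)) (T.h (T.h (T.h (T.h (P (nat_lit 0)) (T.h (M (nat_lit 562822091)) (T.h (P (nat_lit 0)) (T.h (P (nat_lit 54193162604)) (T.h (P (nat_lit 0)) (M (nat_lit 754800421087))))))) (T.h (P (nat_lit 0)) (T.h (T.h (P (nat_lit 0)) (T.h (M (nat_lit 75865036071)) (T.h (P (nat_lit 0)) (M (nat_lit 719311965455))))) (T.h (P (nat_lit 0)) (T.h (T.h (P (nat_lit 0)) (M (nat_lit 4525034791759))) (P (nat_lit 0))))))) (T.h (T.h (P (nat_lit 0)) (T.h (T.h (M (nat_lit 5582362659)) (T.h (P (nat_lit 0)) (T.h (P (nat_lit 1962922138100))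 (T.h (P (nat_lit 0)) (P (nat_lit 658146786416)))))) (T.h (P (nat_lit 0)) (T.h (T.h (M (nat_lit 73580082939)) (T.h (P (nat_lit 0)) (M (nat_lit 14643300886535)))) (T.h (P (nat_lit 0)) (P (nat_lit 2980035216480))))))) (T.h (T.h (T.h (P (nat_lit 0)) (T.h (P (nat_lit 22544876480)) (T.h (P (nat_lit 0)) (P (nat_lit 2087883327684))))) (T.h (P (nat_lit 0)) (T.h (T.h (P (nat_lit 0)) (M (nat_lit 432561656379))) (P (nat_lit 0))))) (T.h (T.h (P (nat_lit 0)) (T.h (T.h (M (nat_lit 227078569535)) (T.h (P (nat_lit 0)) (M (nat_lit 18460949489611)))) (T.h (P (nat_lit 0)) (M (nat_lit 4649967810627))))) (T.h (T.h (T.h (P (nat_lit 0)) (P (nat_lit 1014454496020))) (P (nat_lit 0))) (T.h (T.h (P (nat_lit 0)) (P (nat_lit 5346018852384))) (P (nat_lit 0)))))))) (P (nat_lit 0)))))))) et1_1))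
def et1_3 : T ℤ := (T.h (T.h (T.h (T.h (P (nat_lit 0)) (T.h (T.h (P (nat_lit 0)) (T.h (M (nat_lit 3000985219)) (T.h (P (nat_lit 0)) (T.h (M (nat_lit 83248238043)) (T.h (P (nat_lit 0)) (P (nat_lit 188319440980))))))) (T.h (P (nat_lit 0)) (T.h (T.h (P (nat_lit 0)) (T.h (M (nat_lit 370697450791)) (T.h (P (nat_lit 0)) (M (nat_lit 1585197800735))))) (T.h (P (nat_lit 0)) (T.h (T.h (P (nat_lit 0)) (P (nat_lit 116150558596))) (P (nat_lit 0)))))))) (T.h (T.h (T.h (M (nat_lit 197402419)) (T.h (P (nat_lit 0)) (T.h (M (nat_lit 74117462995)) (T.h (P (nat_lit 0)) (M (nat_lit 605554172283)))))) (T.h (P (nat_lit 0)) (T.h (T.h (P (nat_lit 67391406212)) (T.h (P (nat_lit 0)) (P (nat_lit 958565014284)))) (T.h (P (nat_lit 0)) (P (nat_lit 534316824916)))))) (T.h (T.h (P (nat_lit 0)) (T.h (T.h (P (nat_lit 0)) (T.h (P (nat_lit 448376176448)) (T.h (P (nat_lit 0)) (M (nat_lit 6397268399743))))) (T.h (P (nat_lit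 0)) (T.h (T.h (P (nat_lit 0)) (P (nat_lit 5542001600920))) (P (nat_lit 0)))))) (T.h (T.h (T.h (M (nat_lit 12346351127)) (T.h (P (nat_lit 0)) (M (nat_lit 410919575903)))) (T.h (P (nat_lit 0)) (P (nat_lit 348868334392)))) (T.h (T.h (P (nat_lit 0)) (T.h (T.h (P (nat_lit 0)) (P (nat_lit 993274647376))) (P (nat_lit 0)))) (P (nat_lit 438232071080))))))) (T.h (P (nat_lit 0)) (T.h (T.h (T.h (P (nat_lit 0)) (T.h (T.h (P (nat_lit 0)) (T.h (P (nat_lit 10370268272)) (T.h (P (nat_lit 0)) (T.h (P (nat_lit 1378150951408)) (T.h (P (nat_lit 0)) (M (nat_lit 9753865408279))))))) (T.h (P (nat_lit 0)) (T.h (T.h (P (nat_lit 0)) (T.h (M (nat_lit 2905560692887)) (T.h (P (nat_lit 0)) (P (nat_lit 8863440919788))))) (T.h (P (nat_lit 0)) (T.h (T.h (P (nat_lit 0)) (M (nat_lit 21676750081251))) (P (nat_lit 0)))))))) (T.h (T.h (T.h (P (nat_lit 6127571716)) (T.h (P (nat_lit 0)) (T.h (M (nat_lit 262536496459)) (T.h (P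 (nat_lit 0)) (M (nat_lit 851008990943)))))) (T.h (P (nat_lit 0)) (T.h (T.h (P (nat_lit 170572904068)) (T.h (P (nat_lit 0)) (P (nat_lit 4600496209092)))) (T.h (P (nat_lit 0)) (P (nat_lit 7820504683460)))))) (T.h (T.h (P (nat_lit 0)) (T.h (T.h (P (nat_lit 0)) (T.h (P (nat_lit 4846092054524)) (T.h (P (nat_lit 0)) (P (nat_lit 7028507597048))))) (T.h (P (nat_lit 0)) (T.h (T.h (P (nat_lit 0)) (M (nat_lit 14925911886591))) (P (nat_lit 0)))))) (T.h (T.h (T.h (P (nat_lit 142794147440)) (T.h (P (nat_lit 0)) (M (nat_lit 5580510617919)))) (T.h (P (nat_lit 0)) (M (nat_lit 4987148510763)))) (T.h (T.h (P (nat_lit 0)) (T.h (T.h (P (nat_lit 0)) (M (nat_lit 865548589135))) (P (nat_lit 0)))) (P (nat_lit 2660549807524))))))) (P (nat_lit 0))))) (T.h (T.h (P (nat_lit 0)) (T.h (T.h (T.h (T.h (P (nat_lit 0)) (T.h (P (nat_lit 0)) (T.h (P (nat_lit 6888561904)) (T.h (P (nat_lit 0)) (T.h (M (nat_lit 280806929087))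 (T.h (P (nat_lit 0)) (P (nat_lit 2485724631096)))))))) (T.h (P (nat_lit 0)) (T.h (T.h (M (nat_lit 49141305471)) (T.h (P (nat_lit 0)) (T.h (P (nat_lit 1626270001804)) (T.h (P (nat_lit 0)) (M (nat_lit 5762742586327)))))) (T.h (P (nat_lit 0)) (T.h (T.h (M (nat_lit 488320560727)) (T.h (P (nat_lit 0)) (M (nat_lit 7812036435055)))) (T.h (P (nat_lit 0)) (M (nat_lit 3920264394759)))))))) (T.h (T.h (P (nat_lit 0)) (T.h (T.h (P (nat_lit 0)) (T.h (M (nat_lit 701096258239)) (T.h (P (nat_lit 0)) (M (nat_lit 9043668853715))))) (T.h (P (nat_lit 0)) (T.h (T.h (P (nat_lit 0)) (P (nat_lit 11311328416304))) (P (nat_lit 0)))))) (T.h (T.h (T.h (P (nat_lit 6888561904)) (T.h (P (nat_lit 0)) (T.h (M (nat_lit 1652179420975)) (T.h (P (nat_lit 0)) (P (nat_lit 3509401665252)))))) (T.h (P (nat_lit 0)) (T.h (T.h (P (nat_lit 1626270001804)) (T.h (P (nat_lit 0)) (M (nat_lit 17776768757831)))) (T.h (P (nat_lit 0)) (M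 (nat_lit 7812036435055)))))) (T.h (T.h (P (nat_lit 0)) (T.h (T.h (P (nat_lit 0)) (M (nat_lit 9043668853715))) (P (nat_lit 0)))) (T.h (T.h (T.h (M (nat_lit 280806929087)) (T.h (P (nat_lit 0)) (P (nat_lit 3509401665252)))) (T.h (P (nat_lit 0)) (M (nat_lit 5762742586327)))) (T.h (P (nat_lit 0)) (P (nat_lit 2485724631096)))))))) (P (nat_lit 0)))) (T.h (T.h (T.h (T.h (P (nat_lit 0)) (T.h (T.h (P (nat_lit 0)) (T.h (P (nat_lit 16379655124)) (T.h (P (nat_lit 0)) (T.h (P (nat_lit 471722160616)) (T.h (P (nat_lit 0)) (M (nat_lit 1476554750775))))))) (T.h (P (nat_lit 0)) (T.h (T.h (P (nat_lit 0)) (T.h (P (nat_lit 893787847176)) (T.h (P (nat_lit 0)) (M (nat_lit 4047178104283))))) (T.h (P (nat_lit 0)) (T.h (T.h (P (nat_lit 0)) (P (nat_lit 99339406404))) (P (nat_lit 0)))))))) (T.h (T.h (T.h (M (nat_lit 1528077963)) (T.h (P (nat_lit 0)) (T.h (P (nat_lit 203575837164)) (T.h (P (nat_lit 0)) (P (nat_lit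 1676962168000)))))) (T.h (P (nat_lit 0)) (T.h (T.h (M (nat_lit 144267644695)) (T.h (P (nat_lit 0)) (M (nat_lit 2132579029167)))) (T.h (P (nat_lit 0)) (P (nat_lit 321130579196)))))) (T.h (T.h (P (nat_lit 0)) (T.h (T.h (P (nat_lit 0)) (T.h (M (nat_lit 663028118031)) (T.h (P (nat_lit 0)) (P (nat_lit 1246439086956))))) (T.h (P (nat_lit 0)) (T.h (T.h (P (nat_lit 0)) (M (nat_lit 8517079212235))) (P (nat_lit 0)))))) (T.h (T.h (T.h (P (nat_lit 2796801084)) (T.h (P (nat_lit 0)) (P (nat_lit 429244764760)))) (T.h (P (nat_lit 0)) (M (nat_lit 1011241739703)))) (T.h (T.h (P (nat_lit 0)) (T.h (T.h (P (nat_lit 0)) (P (nat_lit 75625328716))) (P (nat_lit 0)))) (M (nat_lit 800535205875))))))) (P (nat_lit 0))) (P (nat_lit 0)))))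
def et1_4 : T ℤ := (T.h (T.h (P (nat_lit 0)) (T.h (P (nat_lit 0)) (T.h (T.h (T.h (P (nat_lit 0)) (T.h (T.h (P (nat_lit 0)) (T.h (P (nat_lit 6527936408)) (T.h (P (nat_lit 0)) (T.h (P (nat_lit 38717787552)) (T.h (P (nat_lit 0)) (P (nat_lit 1333534258588))))))) (T.h (P (nat_lit 0)) (T.h (T.h (P (nat_lit 0)) (T.h (P (nat_lit 38717787552)) (T.h (P (nat_lit 0)) (M (nat_lit 5602988218319))))) (T.h (P (nat_lit 0)) (T.h (T.h (P (nat_lit 0)) (P (nat_lit 1333534258588))) (P (nat_lit 0)))))))) (T.h (T.h (T.h (M (nat_lit 4246902999)) (T.h (P (nat_lit 0)) (T.h (M (nat_lit 8222319195)) (T.h (P (nat_lit 0)) (P (nat_lit 111692399096)))))) (T.h (P (nat_lit 0)) (T.h (T.h (M (nat_lit 8222319195)) (T.h (P (nat_lit 0)) (M (nat_lit 1072305279279)))) (T.h (P (nat_lit 0)) (P (nat_lit 111692399096)))))) (T.h (T.h (P (nat_lit 0)) (T.h (T.h (P (nat_lit 0)) (T.h (M (nat_lit 1166066942551)) (T.h (P (nat_lit 0)) (M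 (nat_lit 3236986811403))))) (T.h (P (nat_lit 0)) (T.h (T.h (P (nat_lit 0)) (M (nat_lit 3236986811403))) (P (nat_lit 0)))))) (T.h (T.h (T.h (M (nat_lit 12933521935)) (T.h (P (nat_lit 0)) (P (nat_lit 400154508640)))) (T.h (P (nat_lit 0)) (P (nat_lit 400154508640)))) (T.h (T.h (P (nat_lit 0)) (T.h (T.h (P (nat_lit 0)) (P (nat_lit 2825323604456))) (P (nat_lit 0)))) (M (nat_lit 395778824311))))))) (T.h (P (nat_lit 0)) (T.h (T.h (T.h (P (nat_lit 0)) (T.h (T.h (P (nat_lit 0)) (T.h (P (nat_lit 10370268272)) (T.h (P (nat_lit 0)) (T.h (M (nat_lit 2905560692887)) (T.h (P (nat_lit 0)) (M (nat_lit 21676750081251))))))) (T.h (P (nat_lit 0)) (T.h (T.h (P (nat_lit 0)) (T.h (P (nat_lit 1378150951408)) (T.h (P (nat_lit 0)) (P (nat_lit 8863440919788))))) (T.h (P (nat_lit 0)) (T.h (T.h (P (nat_lit 0)) (M (nat_lit 9753865408279))) (P (nat_lit 0)))))))) (T.h (T.h (T.h (P (nat_lit 6127571716)) (T.h (P (nat_lit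 0)) (T.h (P (nat_lit 170572904068)) (T.h (P (nat_lit 0)) (P (nat_lit 7820504683460)))))) (T.h (P (nat_lit 0)) (T.h (T.h (M (nat_lit 262536496459)) (T.h (P (nat_lit 0)) (P (nat_lit 4600496209092)))) (T.h (P (nat_lit 0)) (M (nat_lit 851008990943)))))) (T.h (T.h (P (nat_lit 0)) (T.h (T.h (P (nat_lit 0)) (T.h (P (nat_lit 4846092054524)) (T.h (P (nat_lit 0)) (M (nat_lit 14925911886591))))) (T.h (P (nat_lit 0)) (T.h (T.h (P (nat_lit 0)) (P (nat_lit 7028507597048))) (P (nat_lit 0)))))) (T.h (T.h (T.h (P (nat_lit 142794147440)) (T.h (P (nat_lit 0)) (M (nat_lit 4987148510763)))) (T.h (P (nat_lit 0)) (M (nat_lit 5580510617919)))) (T.h (T.h (P (nat_lit 0)) (T.h (T.h (P (nat_lit 0)) (M (nat_lit 865548589135))) (P (nat_lit 0)))) (P (nat_lit 2660549807524))))))) (P (nat_lit 0))))))) (T.h (T.h (P (nat_lit 0)) (T.h (T.h (T.h (T.h (P (nat_lit 0)) (T.h (P (nat_lit 0)) (T.h (P (nat_lit 584784736)) (T.h (P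 (nat_lit 0)) (T.h (P (nat_lit 39114434528)) (T.h (P (nat_lit 0)) (M (nat_lit 371218815607)))))))) (T.h (P (nat_lit 0)) (T.h (T.h (P (nat_lit 13950288)) (T.h (P (nat_lit 0)) (T.h (M (nat_lit 131799390335)) (T.h (P (nat_lit 0)) (M (nat_lit 2913366703535)))))) (T.h (P (nat_lit 0)) (T.h (T.h (M (nat_lit 252393983)) (T.h (P (nat_lit 0)) (P (nat_lit 1258031920024)))) (T.h (P (nat_lit 0)) (P (nat_lit 1722986448)))))))) (T.h (T.h (P (nat_lit 0)) (T.h (T.h (P (nat_lit 0)) (T.h (P (nat_lit 8632832)) (T.h (P (nat_lit 0)) (P (nat_lit 996246118968))))) (T.h (P (nat_lit 0)) (T.h (T.h (P (nat_lit 0)) (P (nat_lit 188412448))) (P (nat_lit 0)))))) (T.h (T.h (T.h (P (nat_lit 584784736)) (T.h (P (nat_lit 0)) (T.h (P (nat_lit 146317072)) (T.h (P (nat_lit 0)) (M (nat_lit 350915302943)))))) (T.h (P (nat_lit 0)) (T.h (T.h (M (nat_lit 131799390335)) (T.h (P (nat_lit 0)) (P (nat_lit 1144062704)))) (T.h (P (nat_lit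 0)) (P (nat_lit 1258031920024)))))) (T.h (T.h (P (nat_lit 0)) (T.h (T.h (P (nat_lit 0)) (P (nat_lit 996246118968))) (P (nat_lit 0)))) (T.h (T.h (T.h (P (nat_lit 39114434528)) (T.h (P (nat_lit 0)) (M (nat_lit 350915302943)))) (T.h (P (nat_lit 0)) (M (nat_lit 2913366703535)))) (T.h (P (nat_lit 0)) (M (nat_lit 371218815607)))))))) (T.h (P (nat_lit 0)) (T.h (T.h (T.h (T.h (P (nat_lit 0)) (T.h (P (nat_lit 0)) (T.h (P (nat_lit 44673759256)) (T.h (P (nat_lit 0)) (T.h (M (nat_lit 23413561443)) (T.h (P (nat_lit 0)) (P (nat_lit 528153200260)))))))) (T.h (P (nat_lit 0)) (T.h (T.h (P (nat_lit 44673759256)) (T.h (P (nat_lit 0)) (T.h (M (nat_lit 3451780302095)) (T.h (P (nat_lit 0)) (M (nat_lit 15064463080855)))))) (T.h (P (nat_lit 0)) (T.h (T.h (M (nat_lit 23413561443)) (T.h (P (nat_lit 0)) (M (nat_lit 15064463080855)))) (T.h (P (nat_lit 0)) (P (nat_lit 528153200260)))))))) (T.h (T.h (P (nat_lit 0))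 (T.h (T.h (P (nat_lit 0)) (T.h (P (nat_lit 347566875992)) (T.h (P (nat_lit 0)) (P (nat_lit 4536248435684))))) (T.h (P (nat_lit 0)) (T.h (T.h (P (nat_lit 0)) (P (nat_lit 4536248435684))) (P (nat_lit 0)))))) (T.h (T.h (T.h (M (nat_lit 32187934799)) (T.h (P (nat_lit 0)) (T.h (P (nat_lit 2459712022908)) (T.h (P (nat_lit 0)) (M (nat_lit 6183295376271)))))) (T.h (P (nat_lit 0)) (T.h (T.h (P (nat_lit 2459712022908)) (T.h (P (nat_lit 0)) (M (nat_lit 31558564977015)))) (T.h (P (nat_lit 0)) (M (nat_lit 6183295376271)))))) (T.h (T.h (P (nat_lit 0)) (T.h (T.h (P (nat_lit 0)) (M (nat_lit 8390971078951))) (P (nat_lit 0)))) (T.h (T.h (T.h (M (nat_lit 792183217279)) (T.h (P (nat_lit 0)) (P (nat_lit 18572042300140)))) (T.h (P (nat_lit 0)) (P (nat_lit 18572042300140)))) (T.h (P (nat_lit 0)) (M (nat_lit 7249651721927)))))))) (P (nat_lit 0)))))) et1_3))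
def et1_5 : T ℤ := (T.h (T.h (P (nat_lit 0)) (T.h (P (nat_lit 0)) (T.h (P (nat_lit 0)) (T.h (P (nat_lit 0)) (T.h (T.h (T.h (P (nat_lit 0)) (T.h (T.h (P (nat_lit 0)) (T.h (M (nat_lit 3000985219)) (T.h (P (nat_lit 0)) (T.h (M (nat_lit 370697450791)) (T.h (P (nat_lit 0)) (P (nat_lit 116150558596))))))) (T.h (P (nat_lit 0)) (T.h (T.h (P (nat_lit 0)) (T.h (M (nat_lit 83248238043)) (T.h (P (nat_lit 0)) (M (nat_lit 1585197800735))))) (T.h (P (nat_lit 0)) (T.h (T.h (P (nat_lit 0)) (P (nat_lit 188319440980))) (P (nat_lit 0)))))))) (T.h (T.h (T.h (M (nat_lit 197402419)) (T.h (P (nat_lit 0)) (T.h (P (nat_lit 67391406212)) (T.h (P (nat_lit 0)) (P (nat_lit 534316824916)))))) (T.h (P (nat_lit 0)) (T.h (T.h (M (nat_lit 74117462995)) (T.h (P (nat_lit 0)) (P (nat_lit 958565014284)))) (T.h (P (nat_lit 0)) (M (nat_lit 605554172283)))))) (T.h (T.h (P (nat_lit 0)) (T.h (T.h (P (nat_lit 0)) (T.h (P (nat_lit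 448376176448)) (T.h (P (nat_lit 0)) (P (nat_lit 5542001600920))))) (T.h (P (nat_lit 0)) (T.h (T.h (P (nat_lit 0)) (M (nat_lit 6397268399743))) (P (nat_lit 0)))))) (T.h (T.h (T.h (M (nat_lit 12346351127)) (T.h (P (nat_lit 0)) (P (nat_lit 348868334392)))) (T.h (P (nat_lit 0)) (M (nat_lit 410919575903)))) (T.h (T.h (P (nat_lit 0)) (T.h (T.h (P (nat_lit 0)) (P (nat_lit 993274647376))) (P (nat_lit 0)))) (P (nat_lit 438232071080))))))) (T.h (P (nat_lit 0)) (T.h (T.h (T.h (P (nat_lit 0)) (T.h (T.h (P (nat_lit 0)) (T.h (P (nat_lit 16379655124)) (T.h (P (nat_lit 0)) (T.h (P (nat_lit 893787847176)) (T.h (P (nat_lit 0)) (P (nat_lit 99339406404))))))) (T.h (P (nat_lit 0)) (T.h (T.h (P (nat_lit 0)) (T.h (P (nat_lit 471722160616)) (T.h (P (nat_lit 0)) (M (nat_lit 4047178104283))))) (T.h (P (nat_lit 0)) (T.h (T.h (P (nat_lit 0)) (M (nat_lit 1476554750775))) (P (nat_lit 0)))))))) (T.h (T.h (T.h (M (nat_lit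 1528077963)) (T.h (P (nat_lit 0)) (T.h (M (nat_lit 144267644695)) (T.h (P (nat_lit 0)) (P (nat_lit 321130579196)))))) (T.h (P (nat_lit 0)) (T.h (T.h (P (nat_lit 203575837164)) (T.h (P (nat_lit 0)) (M (nat_lit 2132579029167)))) (T.h (P (nat_lit 0)) (P (nat_lit 1676962168000)))))) (T.h (T.h (P (nat_lit 0)) (T.h (T.h (P (nat_lit 0)) (T.h (M (nat_lit 663028118031)) (T.h (P (nat_lit 0)) (M (nat_lit 8517079212235))))) (T.h (P (nat_lit 0)) (T.h (T.h (P (nat_lit 0)) (P (nat_lit 1246439086956))) (P (nat_lit 0)))))) (T.h (T.h (T.h (P (nat_lit 2796801084)) (T.h (P (nat_lit 0)) (M (nat_lit 1011241739703)))) (T.h (P (nat_lit 0)) (P (nat_lit 429244764760)))) (T.h (T.h (P (nat_lit 0)) (T.h (T.h (P (nat_lit 0)) (P (nat_lit 75625328716))) (P (nat_lit 0)))) (M (nat_lit 800535205875))))))) (P (nat_lit 0))))))))) (T.h (T.h (P (nat_lit 0)) (T.h (P (nat_lit 0)) (T.h (P (nat_lit 0)) (T.h (T.h (T.h (T.h (P (nat_lit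 0)) (T.h (P (nat_lit 0)) (T.h (P (nat_lit 13950288)) (T.h (P (nat_lit 0)) (T.h (M (nat_lit 252393983)) (T.h (P (nat_lit 0)) (P (nat_lit 1722986448)))))))) (T.h (P (nat_lit 0)) (T.h (T.h (P (nat_lit 584784736)) (T.h (P (nat_lit 0)) (T.h (M (nat_lit 131799390335)) (T.h (P (nat_lit 0)) (P (nat_lit 1258031920024)))))) (T.h (P (nat_lit 0)) (T.h (T.h (P (nat_lit 39114434528)) (T.h (P (nat_lit 0)) (M (nat_lit 2913366703535)))) (T.h (P (nat_lit 0)) (M (nat_lit 371218815607)))))))) (T.h (T.h (P (nat_lit 0)) (T.h (T.h (P (nat_lit 0)) (T.h (P (nat_lit 8632832)) (T.h (P (nat_lit 0)) (P (nat_lit 188412448))))) (T.h (P (nat_lit 0)) (T.h (T.h (P (nat_lit 0)) (P (nat_lit 996246118968))) (P (nat_lit 0)))))) (T.h (T.h (T.h (P (nat_lit 584784736)) (T.h (P (nat_lit 0)) (T.h (M (nat_lit 131799390335)) (T.h (P (nat_lit 0)) (P (nat_lit 1258031920024)))))) (T.h (P (nat_lit 0)) (T.h (T.h (P (nat_lit 146317072))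 (T.h (P (nat_lit 0)) (P (nat_lit 1144062704)))) (T.h (P (nat_lit 0)) (M (nat_lit 350915302943)))))) (T.h (T.h (P (nat_lit 0)) (T.h (T.h (P (nat_lit 0)) (P (nat_lit 996246118968))) (P (nat_lit 0)))) (T.h (T.h (T.h (P (nat_lit 39114434528)) (T.h (P (nat_lit 0)) (M (nat_lit 2913366703535)))) (T.h (P (nat_lit 0)) (M (nat_lit 350915302943)))) (T.h (P (nat_lit 0)) (M (nat_lit 371218815607)))))))) (T.h (P (nat_lit 0)) (T.h (T.h (T.h (T.h (P (nat_lit 0)) (T.h (P (nat_lit 0)) (T.h (M (nat_lit 49141305471)) (T.h (P (nat_lit 0)) (T.h (M (nat_lit 488320560727)) (T.h (P (nat_lit 0)) (M (nat_lit 3920264394759)))))))) (T.h (P (nat_lit 0)) (T.h (T.h (P (nat_lit 6888561904)) (T.h (P (nat_lit 0)) (T.h (P (nat_lit 1626270001804)) (T.h (P (nat_lit 0)) (M (nat_lit 7812036435055)))))) (T.h (P (nat_lit 0)) (T.h (T.h (M (nat_lit 280806929087)) (T.h (P (nat_lit 0)) (M (nat_lit 5762742586327)))) (T.h (P (nat_lit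 0)) (P (nat_lit 2485724631096)))))))) (T.h (T.h (P (nat_lit 0)) (T.h (T.h (P (nat_lit 0)) (T.h (M (nat_lit 701096258239)) (T.h (P (nat_lit 0)) (P (nat_lit 11311328416304))))) (T.h (P (nat_lit 0)) (T.h (T.h (P (nat_lit 0)) (M (nat_lit 9043668853715))) (P (nat_lit 0)))))) (T.h (T.h (T.h (P (nat_lit 6888561904)) (T.h (P (nat_lit 0)) (T.h (P (nat_lit 1626270001804)) (T.h (P (nat_lit 0)) (M (nat_lit 7812036435055)))))) (T.h (P (nat_lit 0)) (T.h (T.h (M (nat_lit 1652179420975)) (T.h (P (nat_lit 0)) (M (nat_lit 17776768757831)))) (T.h (P (nat_lit 0)) (P (nat_lit 3509401665252)))))) (T.h (T.h (P (nat_lit 0)) (T.h (T.h (P (nat_lit 0)) (M (nat_lit 9043668853715))) (P (nat_lit 0)))) (T.h (T.h (T.h (M (nat_lit 280806929087)) (T.h (P (nat_lit 0)) (M (nat_lit 5762742586327)))) (T.h (P (nat_lit 0)) (P (nat_lit 3509401665252)))) (T.h (P (nat_lit 0)) (P (nat_lit 2485724631096)))))))) (P (nat_lit 0))))))))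 et1_4))
def et1_6 : T ℤ := (T.h (T.h (T.h (T.h (P (nat_lit 0)) (T.h (T.h (M (nat_lit 954521043)) (T.h (P (nat_lit 0)) (T.h (M (nat_lit 3734583903)) (T.h (P (nat_lit 0)) (M (nat_lit 377335296111)))))) (T.h (P (nat_lit 0)) (T.h (T.h (P (nat_lit 37055179536)) (T.h (P (nat_lit 0)) (M (nat_lit 36993231807)))) (T.h (P (nat_lit 0)) (P (nat_lit 479893289560))))))) (T.h (T.h (T.h (P (nat_lit 0)) (T.h (P (nat_lit 9263121076)) (T.h (P (nat_lit 0)) (T.h (P (nat_lit 245465472524)) (T.h (P (nat_lit 0)) (M (nat_lit 963003353983))))))) (T.h (P (nat_lit 0)) (T.h (T.h (P (nat_lit 0)) (T.h (M (nat_lit 975029697959)) (T.h (P (nat_lit 0)) (P (nat_lit 1559736273008))))) (T.h (P (nat_lit 0)) (T.h (T.h (P (nat_lit 0)) (M (nat_lit 10304846179))) (P (nat_lit 0))))))) (T.h (T.h (P (nat_lit 0)) (T.h (T.h (P (nat_lit 14096788744)) (T.h (P (nat_lit 0)) (P (nat_lit 694005836244)))) (T.h (P (nat_lit 0)) (P (nat_lit 415919209748)))))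 (T.h (T.h (T.h (P (nat_lit 0)) (T.h (P (nat_lit 124085444584)) (T.h (P (nat_lit 0)) (P (nat_lit 3139055069884))))) (T.h (P (nat_lit 0)) (T.h (T.h (P (nat_lit 0)) (P (nat_lit 8831112532944))) (P (nat_lit 0))))) (T.h (T.h (P (nat_lit 0)) (P (nat_lit 929639001080))) (T.h (T.h (T.h (P (nat_lit 0)) (M (nat_lit 2400936672463))) (P (nat_lit 0))) (P (nat_lit 0)))))))) (T.h (P (nat_lit 0)) (T.h (T.h (T.h (P (nat_lit 0)) (T.h (T.h (M (nat_lit 16651660535)) (T.h (P (nat_lit 0)) (T.h (M (nat_lit 38034404491)) (T.h (P (nat_lit 0)) (P (nat_lit 2984110666264)))))) (T.h (P (nat_lit 0)) (T.h (T.h (P (nat_lit 225509825576)) (T.h (P (nat_lit 0)) (P (nat_lit 4254011681528)))) (T.h (P (nat_lit 0)) (P (nat_lit 2021798441320))))))) (T.h (T.h (T.h (P (nat_lit 0)) (T.h (P (nat_lit 66753499568)) (T.h (P (nat_lit 0)) (T.h (P (nat_lit 676917347512)) (T.h (P (nat_lit 0)) (P (nat_lit 330652637028))))))) (T.h (P (nat_lit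 0)) (T.h (T.h (P (nat_lit 0)) (T.h (M (nat_lit 7336958127015)) (T.h (P (nat_lit 0)) (M (nat_lit 706716583299))))) (T.h (P (nat_lit 0)) (T.h (T.h (P (nat_lit 0)) (P (nat_lit 3989339914784))) (P (nat_lit 0))))))) (T.h (T.h (P (nat_lit 0)) (T.h (T.h (M (nat_lit 38034404491)) (T.h (P (nat_lit 0)) (P (nat_lit 2373894562928)))) (T.h (P (nat_lit 0)) (P (nat_lit 4254011681528))))) (T.h (T.h (T.h (P (nat_lit 0)) (T.h (P (nat_lit 676917347512)) (T.h (P (nat_lit 0)) (P (nat_lit 7143292244648))))) (T.h (P (nat_lit 0)) (T.h (T.h (P (nat_lit 0)) (M (nat_lit 706716583299))) (P (nat_lit 0))))) (T.h (T.h (P (nat_lit 0)) (P (nat_lit 2984110666264))) (T.h (T.h (T.h (P (nat_lit 0)) (P (nat_lit 330652637028))) (P (nat_lit 0))) (P (nat_lit 0)))))))) (P (nat_lit 0))))) (T.h (T.h (P (nat_lit 0)) (T.h (T.h (T.h (T.h (P (nat_lit 0)) (T.h (P (nat_lit 6127571716)) (T.h (P (nat_lit 0)) (T.h (P (nat_lit 142794147440))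 (T.h (P (nat_lit 0)) (P (nat_lit 2660549807524))))))) (T.h (P (nat_lit 0)) (T.h (T.h (P (nat_lit 0)) (T.h (P (nat_lit 170572904068)) (T.h (P (nat_lit 0)) (M (nat_lit 4987148510763))))) (T.h (P (nat_lit 0)) (T.h (T.h (P (nat_lit 0)) (P (nat_lit 7820504683460))) (P (nat_lit 0))))))) (T.h (T.h (P (nat_lit 0)) (T.h (T.h (P (nat_lit 10370268272)) (T.h (P (nat_lit 0)) (T.h (P (nat_lit 4846092054524)) (T.h (P (nat_lit 0)) (M (nat_lit 865548589135)))))) (T.h (P (nat_lit 0)) (T.h (T.h (M (nat_lit 2905560692887)) (T.h (P (nat_lit 0)) (M (nat_lit 14925911886591)))) (T.h (P (nat_lit 0)) (M (nat_lit 21676750081251))))))) (T.h (T.h (T.h (P (nat_lit 0)) (T.h (M (nat_lit 262536496459)) (T.h (P (nat_lit 0)) (M (nat_lit 5580510617919))))) (T.h (P (nat_lit 0)) (T.h (T.h (P (nat_lit 0)) (P (nat_lit 4600496209092))) (P (nat_lit 0))))) (T.h (T.h (P (nat_lit 0)) (T.h (T.h (P (nat_lit 1378150951408)) (T.h (P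 (nat_lit 0)) (P (nat_lit 7028507597048)))) (T.h (P (nat_lit 0)) (P (nat_lit 8863440919788))))) (T.h (T.h (T.h (P (nat_lit 0)) (M (nat_lit 851008990943))) (P (nat_lit 0))) (T.h (T.h (P (nat_lit 0)) (M (nat_lit 9753865408279))) (P (nat_lit 0)))))))) (P (nat_lit 0)))) (T.h (T.h (T.h (T.h (P (nat_lit 0)) (T.h (T.h (M (nat_lit 562822091)) (T.h (P (nat_lit 0)) (T.h (P (nat_lit 22544876480)) (T.h (P (nat_lit 0)) (P (nat_lit 1014454496020)))))) (T.h (P (nat_lit 0)) (T.h (T.h (P (nat_lit 54193162604)) (T.h (P (nat_lit 0)) (P (nat_lit 2087883327684)))) (T.h (P (nat_lit 0)) (M (nat_lit 754800421087))))))) (T.h (T.h (T.h (P (nat_lit 0)) (T.h (M (nat_lit 5582362659)) (T.h (P (nat_lit 0)) (T.h (M (nat_lit 227078569535)) (T.h (P (nat_lit 0)) (P (nat_lit 5346018852384))))))) (T.h (P (nat_lit 0)) (T.h (T.h (P (nat_lit 0)) (T.h (P (nat_lit 1962922138100)) (T.h (P (nat_lit 0)) (M (nat_lit 18460949489611)))))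 (T.h (P (nat_lit 0)) (T.h (T.h (P (nat_lit 0)) (P (nat_lit 658146786416))) (P (nat_lit 0))))))) (T.h (T.h (P (nat_lit 0)) (T.h (T.h (M (nat_lit 75865036071)) (T.h (P (nat_lit 0)) (M (nat_lit 432561656379)))) (T.h (P (nat_lit 0)) (M (nat_lit 719311965455))))) (T.h (T.h (T.h (P (nat_lit 0)) (T.h (M (nat_lit 73580082939)) (T.h (P (nat_lit 0)) (M (nat_lit 4649967810627))))) (T.h (P (nat_lit 0)) (T.h (T.h (P (nat_lit 0)) (M (nat_lit 14643300886535))) (P (nat_lit 0))))) (T.h (T.h (P (nat_lit 0)) (M (nat_lit 4525034791759))) (T.h (T.h (T.h (P (nat_lit 0)) (P (nat_lit 2980035216480))) (P (nat_lit 0))) (P (nat_lit 0)))))))) (P (nat_lit 0))) (P (nat_lit 0)))))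
def et1_7 : T ℤ := (T.h (T.h (P (nat_lit 0)) (T.h (P (nat_lit 0)) (T.h (T.h (T.h (P (nat_lit 0)) (T.h (T.h (M (nat_lit 4246902999)) (T.h (P (nat_lit 0)) (T.h (M (nat_lit 8222319195)) (T.h (P (nat_lit 0)) (P (nat_lit 111692399096)))))) (T.h (P (nat_lit 0)) (T.h (T.h (M (nat_lit 12933521935)) (T.h (P (nat_lit 0)) (P (nat_lit 400154508640)))) (T.h (P (nat_lit 0)) (M (nat_lit 395778824311))))))) (T.h (T.h (T.h (P (nat_lit 0)) (T.h (P (nat_lit 6527936408)) (T.h (P (nat_lit 0)) (T.h (P (nat_lit 38717787552)) (T.h (P (nat_lit 0)) (P (nat_lit 1333534258588))))))) (T.h (P (nat_lit 0)) (T.h (T.h (P (nat_lit 0)) (T.h (M (nat_lit 1166066942551)) (T.h (P (nat_lit 0)) (M (nat_lit 3236986811403))))) (T.h (P (nat_lit 0)) (T.h (T.h (P (nat_lit 0)) (P (nat_lit 2825323604456))) (P (nat_lit 0))))))) (T.h (T.h (P (nat_lit 0)) (T.h (T.h (M (nat_lit 8222319195)) (T.h (P (nat_lit 0)) (M (nat_lit 1072305279279))))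 (T.h (P (nat_lit 0)) (P (nat_lit 400154508640))))) (T.h (T.h (T.h (P (nat_lit 0)) (T.h (P (nat_lit 38717787552)) (T.h (P (nat_lit 0)) (M (nat_lit 5602988218319))))) (T.h (P (nat_lit 0)) (T.h (T.h (P (nat_lit 0)) (M (nat_lit 3236986811403))) (P (nat_lit 0))))) (T.h (T.h (P (nat_lit 0)) (P (nat_lit 111692399096))) (T.h (T.h (T.h (P (nat_lit 0)) (P (nat_lit 1333534258588))) (P (nat_lit 0))) (P (nat_lit 0)))))))) (T.h (P (nat_lit 0)) (T.h (T.h (T.h (P (nat_lit 0)) (T.h (T.h (P (nat_lit 6127571716)) (T.h (P (nat_lit 0)) (T.h (P (nat_lit 170572904068)) (T.h (P (nat_lit 0)) (P (nat_lit 7820504683460)))))) (T.h (P (nat_lit 0)) (T.h (T.h (P (nat_lit 142794147440)) (T.h (P (nat_lit 0)) (M (nat_lit 4987148510763)))) (T.h (P (nat_lit 0)) (P (nat_lit 2660549807524))))))) (T.h (T.h (T.h (P (nat_lit 0)) (T.h (P (nat_lit 10370268272)) (T.h (P (nat_lit 0)) (T.h (M (nat_lit 2905560692887)) (T.h (P (nat_lit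 0)) (M (nat_lit 21676750081251))))))) (T.h (P (nat_lit 0)) (T.h (T.h (P (nat_lit 0)) (T.h (P (nat_lit 4846092054524)) (T.h (P (nat_lit 0)) (M (nat_lit 14925911886591))))) (T.h (P (nat_lit 0)) (T.h (T.h (P (nat_lit 0)) (M (nat_lit 865548589135))) (P (nat_lit 0))))))) (T.h (T.h (P (nat_lit 0)) (T.h (T.h (M (nat_lit 262536496459)) (T.h (P (nat_lit 0)) (P (nat_lit 4600496209092)))) (T.h (P (nat_lit 0)) (M (nat_lit 5580510617919))))) (T.h (T.h (T.h (P (nat_lit 0)) (T.h (P (nat_lit 1378150951408)) (T.h (P (nat_lit 0)) (P (nat_lit 8863440919788))))) (T.h (P (nat_lit 0)) (T.h (T.h (P (nat_lit 0)) (P (nat_lit 7028507597048))) (P (nat_lit 0))))) (T.h (T.h (P (nat_lit 0)) (M (nat_lit 851008990943))) (T.h (T.h (T.h (P (nat_lit 0)) (M (nat_lit 9753865408279))) (P (nat_lit 0))) (P (nat_lit 0)))))))) (P (nat_lit 0))))))) (T.h (T.h (P (nat_lit 0)) (T.h (T.h (T.h (T.h (P (nat_lit 0)) (T.h (M (nat_lit 4246902999))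 (T.h (P (nat_lit 0)) (T.h (M (nat_lit 12933521935)) (T.h (P (nat_lit 0)) (M (nat_lit 395778824311))))))) (T.h (P (nat_lit 0)) (T.h (T.h (P (nat_lit 0)) (T.h (M (nat_lit 8222319195)) (T.h (P (nat_lit 0)) (P (nat_lit 400154508640))))) (T.h (P (nat_lit 0)) (T.h (T.h (P (nat_lit 0)) (P (nat_lit 111692399096))) (P (nat_lit 0))))))) (T.h (T.h (P (nat_lit 0)) (T.h (T.h (P (nat_lit 6527936408)) (T.h (P (nat_lit 0)) (T.h (M (nat_lit 1166066942551)) (T.h (P (nat_lit 0)) (P (nat_lit 2825323604456)))))) (T.h (P (nat_lit 0)) (T.h (T.h (P (nat_lit 38717787552)) (T.h (P (nat_lit 0)) (M (nat_lit 3236986811403)))) (T.h (P (nat_lit 0)) (P (nat_lit 1333534258588))))))) (T.h (T.h (T.h (P (nat_lit 0)) (T.h (M (nat_lit 8222319195)) (T.h (P (nat_lit 0)) (P (nat_lit 400154508640))))) (T.h (P (nat_lit 0)) (T.h (T.h (P (nat_lit 0)) (M (nat_lit 1072305279279))) (P (nat_lit 0))))) (T.h (T.h (P (nat_lit 0)) (T.h (T.h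 (P (nat_lit 38717787552)) (T.h (P (nat_lit 0)) (M (nat_lit 3236986811403)))) (T.h (P (nat_lit 0)) (M (nat_lit 5602988218319))))) (T.h (T.h (T.h (P (nat_lit 0)) (P (nat_lit 111692399096))) (P (nat_lit 0))) (T.h (T.h (P (nat_lit 0)) (P (nat_lit 1333534258588))) (P (nat_lit 0)))))))) (T.h (P (nat_lit 0)) (T.h (T.h (T.h (T.h (P (nat_lit 0)) (T.h (M (nat_lit 16651660535)) (T.h (P (nat_lit 0)) (T.h (P (nat_lit 225509825576)) (T.h (P (nat_lit 0)) (P (nat_lit 2021798441320))))))) (T.h (P (nat_lit 0)) (T.h (T.h (P (nat_lit 0)) (T.h (M (nat_lit 38034404491)) (T.h (P (nat_lit 0)) (P (nat_lit 4254011681528))))) (T.h (P (nat_lit 0)) (T.h (T.h (P (nat_lit 0)) (P (nat_lit 2984110666264))) (P (nat_lit 0))))))) (T.h (T.h (P (nat_lit 0)) (T.h (T.h (P (nat_lit 66753499568)) (T.h (P (nat_lit 0)) (T.h (M (nat_lit 7336958127015)) (T.h (P (nat_lit 0)) (P (nat_lit 3989339914784)))))) (T.h (P (nat_lit 0)) (T.h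 (T.h (P (nat_lit 676917347512)) (T.h (P (nat_lit 0)) (M (nat_lit 706716583299)))) (T.h (P (nat_lit 0)) (P (nat_lit 330652637028))))))) (T.h (T.h (T.h (P (nat_lit 0)) (T.h (M (nat_lit 38034404491)) (T.h (P (nat_lit 0)) (P (nat_lit 4254011681528))))) (T.h (P (nat_lit 0)) (T.h (T.h (P (nat_lit 0)) (P (nat_lit 2373894562928))) (P (nat_lit 0))))) (T.h (T.h (P (nat_lit 0)) (T.h (T.h (P (nat_lit 676917347512)) (T.h (P (nat_lit 0)) (M (nat_lit 706716583299)))) (T.h (P (nat_lit 0)) (P (nat_lit 7143292244648))))) (T.h (T.h (T.h (P (nat_lit 0)) (P (nat_lit 2984110666264))) (P (nat_lit 0))) (T.h (T.h (P (nat_lit 0)) (P (nat_lit 330652637028))) (P (nat_lit 0)))))))) (P (nat_lit 0)))))) et1_6))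
def et1_8 : T ℤ := (T.h (T.h (T.h (T.h (P (nat_lit 0)) (T.h (T.h (P (nat_lit 0)) (T.h (P (nat_lit 9263121076)) (T.h (P (nat_lit 0)) (T.h (P (nat_lit 245465472524)) (T.h (P (nat_lit 0)) (M (nat_lit 963003353983))))))) (T.h (P (nat_lit 0)) (T.h (T.h (P (nat_lit 0)) (T.h (P (nat_lit 124085444584)) (T.h (P (nat_lit 0)) (P (nat_lit 3139055069884))))) (T.h (P (nat_lit 0)) (T.h (T.h (P (nat_lit 0)) (M (nat_lit 2400936672463))) (P (nat_lit 0)))))))) (T.h (T.h (T.h (M (nat_lit 954521043)) (T.h (P (nat_lit 0)) (T.h (M (nat_lit 3734583903)) (T.h (P (nat_lit 0)) (M (nat_lit 377335296111)))))) (T.h (P (nat_lit 0)) (T.h (T.h (P (nat_lit 14096788744)) (T.h (P (nat_lit 0)) (P (nat_lit 694005836244)))) (T.h (P (nat_lit 0)) (P (nat_lit 929639001080)))))) (T.h (T.h (P (nat_lit 0)) (T.h (T.h (P (nat_lit 0)) (T.h (M (nat_lit 975029697959)) (T.h (P (nat_lit 0)) (P (nat_lit 1559736273008))))) (T.h (P (nat_lit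 0)) (T.h (T.h (P (nat_lit 0)) (P (nat_lit 8831112532944))) (P (nat_lit 0)))))) (T.h (T.h (T.h (P (nat_lit 37055179536)) (T.h (P (nat_lit 0)) (M (nat_lit 36993231807)))) (T.h (P (nat_lit 0)) (P (nat_lit 415919209748)))) (T.h (T.h (P (nat_lit 0)) (T.h (T.h (P (nat_lit 0)) (M (nat_lit 10304846179))) (P (nat_lit 0)))) (P (nat_lit 479893289560))))))) (T.h (P (nat_lit 0)) (T.h (T.h (T.h (P (nat_lit 0)) (T.h (T.h (P (nat_lit 0)) (T.h (P (nat_lit 66753499568)) (T.h (P (nat_lit 0)) (T.h (P (nat_lit 676917347512)) (T.h (P (nat_lit 0)) (P (nat_lit 330652637028))))))) (T.h (P (nat_lit 0)) (T.h (T.h (P (nat_lit 0)) (T.h (P (nat_lit 676917347512)) (T.h (P (nat_lit 0)) (P (nat_lit 7143292244648))))) (T.h (P (nat_lit 0)) (T.h (T.h (P (nat_lit 0)) (P (nat_lit 330652637028))) (P (nat_lit 0)))))))) (T.h (T.h (T.h (M (nat_lit 16651660535)) (T.h (P (nat_lit 0)) (T.h (M (nat_lit 38034404491)) (T.h (P (nat_lit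 0)) (P (nat_lit 2984110666264)))))) (T.h (P (nat_lit 0)) (T.h (T.h (M (nat_lit 38034404491)) (T.h (P (nat_lit 0)) (P (nat_lit 2373894562928)))) (T.h (P (nat_lit 0)) (P (nat_lit 2984110666264)))))) (T.h (T.h (P (nat_lit 0)) (T.h (T.h (P (nat_lit 0)) (T.h (M (nat_lit 7336958127015)) (T.h (P (nat_lit 0)) (M (nat_lit 706716583299))))) (T.h (P (nat_lit 0)) (T.h (T.h (P (nat_lit 0)) (M (nat_lit 706716583299))) (P (nat_lit 0)))))) (T.h (T.h (T.h (P (nat_lit 225509825576)) (T.h (P (nat_lit 0)) (P (nat_lit 4254011681528)))) (T.h (P (nat_lit 0)) (P (nat_lit 4254011681528)))) (T.h (T.h (P (nat_lit 0)) (T.h (T.h (P (nat_lit 0)) (P (nat_lit 3989339914784))) (P (nat_lit 0)))) (P (nat_lit 2021798441320))))))) (P (nat_lit 0))))) (T.h (T.h (P (nat_lit 0)) (T.h (T.h (T.h (T.h (P (nat_lit 0)) (T.h (P (nat_lit 0)) (T.h (M (nat_lit 32187934799)) (T.h (P (nat_lit 0)) (T.h (M (nat_lit 792183217279)) (T.h (P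 (nat_lit 0)) (M (nat_lit 7249651721927)))))))) (T.h (P (nat_lit 0)) (T.h (T.h (P (nat_lit 44673759256)) (T.h (P (nat_lit 0)) (T.h (P (nat_lit 2459712022908)) (T.h (P (nat_lit 0)) (P (nat_lit 18572042300140)))))) (T.h (P (nat_lit 0)) (T.h (T.h (M (nat_lit 23413561443)) (T.h (P (nat_lit 0)) (M (nat_lit 6183295376271)))) (T.h (P (nat_lit 0)) (P (nat_lit 528153200260)))))))) (T.h (T.h (P (nat_lit 0)) (T.h (T.h (P (nat_lit 0)) (T.h (P (nat_lit 347566875992)) (T.h (P (nat_lit 0)) (M (nat_lit 8390971078951))))) (T.h (P (nat_lit 0)) (T.h (T.h (P (nat_lit 0)) (P (nat_lit 4536248435684))) (P (nat_lit 0)))))) (T.h (T.h (T.h (P (nat_lit 44673759256)) (T.h (P (nat_lit 0)) (T.h (P (nat_lit 2459712022908)) (T.h (P (nat_lit 0)) (P (nat_lit 18572042300140)))))) (T.h (P (nat_lit 0)) (T.h (T.h (M (nat_lit 3451780302095)) (T.h (P (nat_lit 0)) (M (nat_lit 31558564977015)))) (T.h (P (nat_lit 0)) (M (nat_lit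 15064463080855)))))) (T.h (T.h (P (nat_lit 0)) (T.h (T.h (P (nat_lit 0)) (P (nat_lit 4536248435684))) (P (nat_lit 0)))) (T.h (T.h (T.h (M (nat_lit 23413561443)) (T.h (P (nat_lit 0)) (M (nat_lit 6183295376271)))) (T.h (P (nat_lit 0)) (M (nat_lit 15064463080855)))) (T.h (P (nat_lit 0)) (P (nat_lit 528153200260)))))))) (P (nat_lit 0)))) (T.h (T.h (T.h (T.h (P (nat_lit 0)) (T.h (T.h (P (nat_lit 0)) (T.h (M (nat_lit 51759546999)) (T.h (P (nat_lit 0)) (T.h (M (nat_lit 983806289675)) (T.h (P (nat_lit 0)) (M (nat_lit 1374813441315))))))) (T.h (P (nat_lit 0)) (T.h (T.h (P (nat_lit 0)) (T.h (P (nat_lit 389524486120)) (T.h (P (nat_lit 0)) (M (nat_lit 6436887430259))))) (T.h (P (nat_lit 0)) (T.h (T.h (P (nat_lit 0)) (P (nat_lit 8270403527428))) (P (nat_lit 0)))))))) (T.h (T.h (T.h (P (nat_lit 1161066788)) (T.h (P (nat_lit 0)) (T.h (P (nat_lit 41402365228)) (T.h (P (nat_lit 0)) (P (nat_lit 746974122104))))))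 (T.h (P (nat_lit 0)) (T.h (T.h (P (nat_lit 202679950984)) (T.h (P (nat_lit 0)) (M (nat_lit 1445963114819)))) (T.h (P (nat_lit 0)) (M (nat_lit 744736293671)))))) (T.h (T.h (P (nat_lit 0)) (T.h (T.h (P (nat_lit 0)) (T.h (P (nat_lit 679012845560)) (T.h (P (nat_lit 0)) (P (nat_lit 11413897683748))))) (T.h (P (nat_lit 0)) (T.h (T.h (P (nat_lit 0)) (M (nat_lit 10472527374707))) (P (nat_lit 0)))))) (T.h (T.h (T.h (M (nat_lit 148240373763)) (T.h (P (nat_lit 0)) (P (nat_lit 941845082136)))) (T.h (P (nat_lit 0)) (M (nat_lit 142471240183)))) (T.h (T.h (P (nat_lit 0)) (T.h (T.h (P (nat_lit 0)) (P (nat_lit 15248199354500))) (P (nat_lit 0)))) (M (nat_lit 1210983004699))))))) (P (nat_lit 0))) (P (nat_lit 0)))))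
def et1_9 : T ℤ := (T.h (T.h (P (nat_lit 0)) (T.h (P (nat_lit 0)) (T.h (T.h (T.h (P (nat_lit 0)) (T.h (T.h (P (nat_lit 0)) (T.h (P (nat_lit 9263121076)) (T.h (P (nat_lit 0)) (T.h (P (nat_lit 124085444584)) (T.h (P (nat_lit 0)) (M (nat_lit 2400936672463))))))) (T.h (P (nat_lit 0)) (T.h (T.h (P (nat_lit 0)) (T.h (P (nat_lit 245465472524)) (T.h (P (nat_lit 0)) (P (nat_lit 3139055069884))))) (T.h (P (nat_lit 0)) (T.h (T.h (P (nat_lit 0)) (M (nat_lit 963003353983))) (P (nat_lit 0)))))))) (T.h (T.h (T.h (M (nat_lit 954521043)) (T.h (P (nat_lit 0)) (T.h (P (nat_lit 14096788744)) (T.h (P (nat_lit 0)) (P (nat_lit 929639001080)))))) (T.h (P (nat_lit 0)) (T.h (T.h (M (nat_lit 3734583903)) (T.h (P (nat_lit 0)) (P (nat_lit 694005836244)))) (T.h (P (nat_lit 0)) (M (nat_lit 377335296111)))))) (T.h (T.h (P (nat_lit 0)) (T.h (T.h (P (nat_lit 0)) (T.h (M (nat_lit 975029697959)) (T.h (P (nat_lit 0)) (P (nat_lit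 8831112532944))))) (T.h (P (nat_lit 0)) (T.h (T.h (P (nat_lit 0)) (P (nat_lit 1559736273008))) (P (nat_lit 0)))))) (T.h (T.h (T.h (P (nat_lit 37055179536)) (T.h (P (nat_lit 0)) (P (nat_lit 415919209748)))) (T.h (P (nat_lit 0)) (M (nat_lit 36993231807)))) (T.h (T.h (P (nat_lit 0)) (T.h (T.h (P (nat_lit 0)) (M (nat_lit 10304846179))) (P (nat_lit 0)))) (P (nat_lit 479893289560))))))) (T.h (P (nat_lit 0)) (T.h (T.h (T.h (P (nat_lit 0)) (T.h (T.h (P (nat_lit 0)) (T.h (M (nat_lit 51759546999)) (T.h (P (nat_lit 0)) (T.h (P (nat_lit 389524486120)) (T.h (P (nat_lit 0)) (P (nat_lit 8270403527428))))))) (T.h (P (nat_lit 0)) (T.h (T.h (P (nat_lit 0)) (T.h (M (nat_lit 983806289675)) (T.h (P (nat_lit 0)) (M (nat_lit 6436887430259))))) (T.h (P (nat_lit 0)) (T.h (T.h (P (nat_lit 0)) (M (nat_lit 1374813441315))) (P (nat_lit 0)))))))) (T.h (T.h (T.h (P (nat_lit 1161066788)) (T.h (P (nat_lit 0)) (T.h (P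 (nat_lit 202679950984)) (T.h (P (nat_lit 0)) (M (nat_lit 744736293671)))))) (T.h (P (nat_lit 0)) (T.h (T.h (P (nat_lit 41402365228)) (T.h (P (nat_lit 0)) (M (nat_lit 1445963114819)))) (T.h (P (nat_lit 0)) (P (nat_lit 746974122104)))))) (T.h (T.h (P (nat_lit 0)) (T.h (T.h (P (nat_lit 0)) (T.h (P (nat_lit 679012845560)) (T.h (P (nat_lit 0)) (M (nat_lit 10472527374707))))) (T.h (P (nat_lit 0)) (T.h (T.h (P (nat_lit 0)) (P (nat_lit 11413897683748))) (P (nat_lit 0)))))) (T.h (T.h (T.h (M (nat_lit 148240373763)) (T.h (P (nat_lit 0)) (M (nat_lit 142471240183)))) (T.h (P (nat_lit 0)) (P (nat_lit 941845082136)))) (T.h (T.h (P (nat_lit 0)) (T.h (T.h (P (nat_lit 0)) (P (nat_lit 15248199354500))) (P (nat_lit 0)))) (M (nat_lit 1210983004699))))))) (P (nat_lit 0))))))) (T.h (T.h (P (nat_lit 0)) (T.h (T.h (T.h (T.h (P (nat_lit 0)) (T.h (P (nat_lit 0)) (T.h (P (nat_lit 584784736)) (T.h (P (nat_lit 0))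 (T.h (P (nat_lit 39114434528)) (T.h (P (nat_lit 0)) (M (nat_lit 371218815607)))))))) (T.h (P (nat_lit 0)) (T.h (T.h (P (nat_lit 584784736)) (T.h (P (nat_lit 0)) (T.h (P (nat_lit 146317072)) (T.h (P (nat_lit 0)) (M (nat_lit 350915302943)))))) (T.h (P (nat_lit 0)) (T.h (T.h (P (nat_lit 39114434528)) (T.h (P (nat_lit 0)) (M (nat_lit 350915302943)))) (T.h (P (nat_lit 0)) (M (nat_lit 371218815607)))))))) (T.h (T.h (P (nat_lit 0)) (T.h (T.h (P (nat_lit 0)) (T.h (P (nat_lit 8632832)) (T.h (P (nat_lit 0)) (P (nat_lit 996246118968))))) (T.h (P (nat_lit 0)) (T.h (T.h (P (nat_lit 0)) (P (nat_lit 996246118968))) (P (nat_lit 0)))))) (T.h (T.h (T.h (P (nat_lit 13950288)) (T.h (P (nat_lit 0)) (T.h (M (nat_lit 131799390335)) (T.h (P (nat_lit 0)) (M (nat_lit 2913366703535)))))) (T.h (P (nat_lit 0)) (T.h (T.h (M (nat_lit 131799390335)) (T.h (P (nat_lit 0)) (P (nat_lit 1144062704)))) (T.h (P (nat_lit 0))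 (M (nat_lit 2913366703535)))))) (T.h (T.h (P (nat_lit 0)) (T.h (T.h (P (nat_lit 0)) (P (nat_lit 188412448))) (P (nat_lit 0)))) (T.h (T.h (T.h (M (nat_lit 252393983)) (T.h (P (nat_lit 0)) (P (nat_lit 1258031920024)))) (T.h (P (nat_lit 0)) (P (nat_lit 1258031920024)))) (T.h (P (nat_lit 0)) (P (nat_lit 1722986448)))))))) (T.h (P (nat_lit 0)) (T.h (T.h (T.h (T.h (P (nat_lit 0)) (T.h (P (nat_lit 0)) (T.h (P (nat_lit 44673759256)) (T.h (P (nat_lit 0)) (T.h (M (nat_lit 23413561443)) (T.h (P (nat_lit 0)) (P (nat_lit 528153200260)))))))) (T.h (P (nat_lit 0)) (T.h (T.h (M (nat_lit 32187934799)) (T.h (P (nat_lit 0)) (T.h (P (nat_lit 2459712022908)) (T.h (P (nat_lit 0)) (M (nat_lit 6183295376271)))))) (T.h (P (nat_lit 0)) (T.h (T.h (M (nat_lit 792183217279)) (T.h (P (nat_lit 0)) (P (nat_lit 18572042300140)))) (T.h (P (nat_lit 0)) (M (nat_lit 7249651721927)))))))) (T.h (T.h (P (nat_lit 0)) (T.h (T.h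 (P (nat_lit 0)) (T.h (P (nat_lit 347566875992)) (T.h (P (nat_lit 0)) (P (nat_lit 4536248435684))))) (T.h (P (nat_lit 0)) (T.h (T.h (P (nat_lit 0)) (M (nat_lit 8390971078951))) (P (nat_lit 0)))))) (T.h (T.h (T.h (P (nat_lit 44673759256)) (T.h (P (nat_lit 0)) (T.h (M (nat_lit 3451780302095)) (T.h (P (nat_lit 0)) (M (nat_lit 15064463080855)))))) (T.h (P (nat_lit 0)) (T.h (T.h (P (nat_lit 2459712022908)) (T.h (P (nat_lit 0)) (M (nat_lit 31558564977015)))) (T.h (P (nat_lit 0)) (P (nat_lit 18572042300140)))))) (T.h (T.h (P (nat_lit 0)) (T.h (T.h (P (nat_lit 0)) (P (nat_lit 4536248435684))) (P (nat_lit 0)))) (T.h (T.h (T.h (M (nat_lit 23413561443)) (T.h (P (nat_lit 0)) (M (nat_lit 15064463080855)))) (T.h (P (nat_lit 0)) (M (nat_lit 6183295376271)))) (T.h (P (nat_lit 0)) (P (nat_lit 528153200260)))))))) (P (nat_lit 0)))))) et1_8))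
def et1_10 : T ℤ := (T.h (T.h (T.h (T.h (P (nat_lit 0)) (T.h (T.h (M (nat_lit 197402419)) (T.h (P (nat_lit 0)) (T.h (M (nat_lit 74117462995)) (T.h (P (nat_lit 0)) (M (nat_lit 605554172283)))))) (T.h (P (nat_lit 0)) (T.h (T.h (M (nat_lit 12346351127)) (T.h (P (nat_lit 0)) (M (nat_lit 410919575903)))) (T.h (P (nat_lit 0)) (P (nat_lit 438232071080))))))) (T.h (T.h (T.h (P (nat_lit 0)) (T.h (M (nat_lit 3000985219)) (T.h (P (nat_lit 0)) (T.h (M (nat_lit 83248238043)) (T.h (P (nat_lit 0)) (P (nat_lit 188319440980))))))) (T.h (P (nat_lit 0)) (T.h (T.h (P (nat_lit 0)) (T.h (P (nat_lit 448376176448)) (T.h (P (nat_lit 0)) (M (nat_lit 6397268399743))))) (T.h (P (nat_lit 0)) (T.h (T.h (P (nat_lit 0)) (P (nat_lit 993274647376))) (P (nat_lit 0))))))) (T.h (T.h (P (nat_lit 0)) (T.h (T.h (P (nat_lit 67391406212)) (T.h (P (nat_lit 0)) (P (nat_lit 958565014284)))) (T.h (P (nat_lit 0)) (P (nat_lit 348868334392)))))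 (T.h (T.h (T.h (P (nat_lit 0)) (T.h (M (nat_lit 370697450791)) (T.h (P (nat_lit 0)) (M (nat_lit 1585197800735))))) (T.h (P (nat_lit 0)) (T.h (T.h (P (nat_lit 0)) (P (nat_lit 5542001600920))) (P (nat_lit 0))))) (T.h (T.h (P (nat_lit 0)) (P (nat_lit 534316824916))) (T.h (T.h (T.h (P (nat_lit 0)) (P (nat_lit 116150558596))) (P (nat_lit 0))) (P (nat_lit 0)))))))) (T.h (P (nat_lit 0)) (T.h (T.h (T.h (P (nat_lit 0)) (T.h (T.h (P (nat_lit 6127571716)) (T.h (P (nat_lit 0)) (T.h (M (nat_lit 262536496459)) (T.h (P (nat_lit 0)) (M (nat_lit 851008990943)))))) (T.h (P (nat_lit 0)) (T.h (T.h (P (nat_lit 142794147440)) (T.h (P (nat_lit 0)) (M (nat_lit 5580510617919)))) (T.h (P (nat_lit 0)) (P (nat_lit 2660549807524))))))) (T.h (T.h (T.h (P (nat_lit 0)) (T.h (P (nat_lit 10370268272)) (T.h (P (nat_lit 0)) (T.h (P (nat_lit 1378150951408)) (T.h (P (nat_lit 0)) (M (nat_lit 9753865408279))))))) (T.h (P (nat_lit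 0)) (T.h (T.h (P (nat_lit 0)) (T.h (P (nat_lit 4846092054524)) (T.h (P (nat_lit 0)) (P (nat_lit 7028507597048))))) (T.h (P (nat_lit 0)) (T.h (T.h (P (nat_lit 0)) (M (nat_lit 865548589135))) (P (nat_lit 0))))))) (T.h (T.h (P (nat_lit 0)) (T.h (T.h (P (nat_lit 170572904068)) (T.h (P (nat_lit 0)) (P (nat_lit 4600496209092)))) (T.h (P (nat_lit 0)) (M (nat_lit 4987148510763))))) (T.h (T.h (T.h (P (nat_lit 0)) (T.h (M (nat_lit 2905560692887)) (T.h (P (nat_lit 0)) (P (nat_lit 8863440919788))))) (T.h (P (nat_lit 0)) (T.h (T.h (P (nat_lit 0)) (M (nat_lit 14925911886591))) (P (nat_lit 0))))) (T.h (T.h (P (nat_lit 0)) (P (nat_lit 7820504683460))) (T.h (T.h (T.h (P (nat_lit 0)) (M (nat_lit 21676750081251))) (P (nat_lit 0))) (P (nat_lit 0)))))))) (P (nat_lit 0))))) (T.h (T.h (P (nat_lit 0)) (T.h (T.h (T.h (T.h (P (nat_lit 0)) (T.h (P (nat_lit 6127571716)) (T.h (P (nat_lit 0)) (T.h (P (nat_lit 142794147440))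 (T.h (P (nat_lit 0)) (P (nat_lit 2660549807524))))))) (T.h (P (nat_lit 0)) (T.h (T.h (P (nat_lit 0)) (T.h (M (nat_lit 262536496459)) (T.h (P (nat_lit 0)) (M (nat_lit 5580510617919))))) (T.h (P (nat_lit 0)) (T.h (T.h (P (nat_lit 0)) (M (nat_lit 851008990943))) (P (nat_lit 0))))))) (T.h (T.h (P (nat_lit 0)) (T.h (T.h (P (nat_lit 10370268272)) (T.h (P (nat_lit 0)) (T.h (P (nat_lit 4846092054524)) (T.h (P (nat_lit 0)) (M (nat_lit 865548589135)))))) (T.h (P (nat_lit 0)) (T.h (T.h (P (nat_lit 1378150951408)) (T.h (P (nat_lit 0)) (P (nat_lit 7028507597048)))) (T.h (P (nat_lit 0)) (M (nat_lit 9753865408279))))))) (T.h (T.h (T.h (P (nat_lit 0)) (T.h (P (nat_lit 170572904068)) (T.h (P (nat_lit 0)) (M (nat_lit 4987148510763))))) (T.h (P (nat_lit 0)) (T.h (T.h (P (nat_lit 0)) (P (nat_lit 4600496209092))) (P (nat_lit 0))))) (T.h (T.h (P (nat_lit 0)) (T.h (T.h (M (nat_lit 2905560692887)) (T.h (P (nat_lit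 0)) (M (nat_lit 14925911886591)))) (T.h (P (nat_lit 0)) (P (nat_lit 8863440919788))))) (T.h (T.h (T.h (P (nat_lit 0)) (P (nat_lit 7820504683460))) (P (nat_lit 0))) (T.h (T.h (P (nat_lit 0)) (M (nat_lit 21676750081251))) (P (nat_lit 0)))))))) (P (nat_lit 0)))) (T.h (T.h (T.h (T.h (P (nat_lit 0)) (T.h (T.h (P (nat_lit 1161066788)) (T.h (P (nat_lit 0)) (T.h (P (nat_lit 41402365228)) (T.h (P (nat_lit 0)) (P (nat_lit 746974122104)))))) (T.h (P (nat_lit 0)) (T.h (T.h (M (nat_lit 148240373763)) (T.h (P (nat_lit 0)) (P (nat_lit 941845082136)))) (T.h (P (nat_lit 0)) (M (nat_lit 1210983004699))))))) (T.h (T.h (T.h (P (nat_lit 0)) (T.h (M (nat_lit 51759546999)) (T.h (P (nat_lit 0)) (T.h (M (nat_lit 983806289675)) (T.h (P (nat_lit 0)) (M (nat_lit 1374813441315))))))) (T.h (P (nat_lit 0)) (T.h (T.h (P (nat_lit 0)) (T.h (P (nat_lit 679012845560)) (T.h (P (nat_lit 0)) (P (nat_lit 11413897683748)))))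 (T.h (P (nat_lit 0)) (T.h (T.h (P (nat_lit 0)) (P (nat_lit 15248199354500))) (P (nat_lit 0))))))) (T.h (T.h (P (nat_lit 0)) (T.h (T.h (P (nat_lit 202679950984)) (T.h (P (nat_lit 0)) (M (nat_lit 1445963114819)))) (T.h (P (nat_lit 0)) (M (nat_lit 142471240183))))) (T.h (T.h (T.h (P (nat_lit 0)) (T.h (P (nat_lit 389524486120)) (T.h (P (nat_lit 0)) (M (nat_lit 6436887430259))))) (T.h (P (nat_lit 0)) (T.h (T.h (P (nat_lit 0)) (M (nat_lit 10472527374707))) (P (nat_lit 0))))) (T.h (T.h (P (nat_lit 0)) (M (nat_lit 744736293671))) (T.h (T.h (T.h (P (nat_lit 0)) (P (nat_lit 8270403527428))) (P (nat_lit 0))) (P (nat_lit 0)))))))) (P (nat_lit 0))) (P (nat_lit 0)))))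
def et1_11 : T ℤ := (T.h (T.h (T.h (T.h (P (nat_lit 0)) (T.h (T.h (P (nat_lit 0)) (T.h (M (nat_lit 2435762327)) (T.h (P (nat_lit 0)) (T.h (P (nat_lit 330475840560)) (T.h (P (nat_lit 0)) (M (nat_lit 942207659043))))))) (T.h (P (nat_lit 0)) (T.h (T.h (P (nat_lit 0)) (T.h (P (nat_lit 330475840560)) (T.h (P (nat_lit 0)) (M (nat_lit 1030505470903))))) (T.h (P (nat_lit 0)) (T.h (T.h (P (nat_lit 0)) (M (nat_lit 942207659043))) (P (nat_lit 0)))))))) (T.h (T.h (T.h (P (nat_lit 1975464760)) (T.h (P (nat_lit 0)) (T.h (P (nat_lit 50275367184)) (T.h (P (nat_lit 0)) (P (nat_lit 490672153888)))))) (T.h (P (nat_lit 0)) (T.h (T.h (P (nat_lit 50275367184)) (T.h (P (nat_lit 0)) (P (nat_lit 180525830744)))) (T.h (P (nat_lit 0)) (P (nat_lit 490672153888)))))) (T.h (T.h (P (nat_lit 0)) (T.h (T.h (P (nat_lit 0)) (T.h (P (nat_lit 219192315376)) (T.h (P (nat_lit 0)) (M (nat_lit 895946624243))))) (T.h (P (nat_lit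 0)) (T.h (T.h (P (nat_lit 0)) (M (nat_lit 895946624243))) (P (nat_lit 0)))))) (T.h (T.h (T.h (P (nat_lit 35362370128)) (T.h (P (nat_lit 0)) (P (nat_lit 898415928136)))) (T.h (P (nat_lit 0)) (P (nat_lit 898415928136)))) (T.h (T.h (P (nat_lit 0)) (T.h (T.h (P (nat_lit 0)) (P (nat_lit 992599403712))) (P (nat_lit 0)))) (M (nat_lit 75059908071))))))) (T.h (P (nat_lit 0)) (T.h (T.h (T.h (P (nat_lit 0)) (T.h (T.h (P (nat_lit 0)) (T.h (M (nat_lit 5582362659)) (T.h (P (nat_lit 0)) (T.h (M (nat_lit 73580082939)) (T.h (P (nat_lit 0)) (P (nat_lit 2980035216480))))))) (T.h (P (nat_lit 0)) (T.h (T.h (P (nat_lit 0)) (T.h (M (nat_lit 227078569535)) (T.h (P (nat_lit 0)) (M (nat_lit 4649967810627))))) (T.h (P (nat_lit 0)) (T.h (T.h (P (nat_lit 0)) (P (nat_lit 5346018852384))) (P (nat_lit 0)))))))) (T.h (T.h (T.h (M (nat_lit 562822091)) (T.h (P (nat_lit 0)) (T.h (M (nat_lit 75865036071)) (T.h (P (nat_lit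 0)) (M (nat_lit 4525034791759)))))) (T.h (P (nat_lit 0)) (T.h (T.h (P (nat_lit 22544876480)) (T.h (P (nat_lit 0)) (M (nat_lit 432561656379)))) (T.h (P (nat_lit 0)) (P (nat_lit 1014454496020)))))) (T.h (T.h (P (nat_lit 0)) (T.h (T.h (P (nat_lit 0)) (T.h (P (nat_lit 1962922138100)) (T.h (P (nat_lit 0)) (M (nat_lit 14643300886535))))) (T.h (P (nat_lit 0)) (T.h (T.h (P (nat_lit 0)) (M (nat_lit 18460949489611))) (P (nat_lit 0)))))) (T.h (T.h (T.h (P (nat_lit 54193162604)) (T.h (P (nat_lit 0)) (M (nat_lit 719311965455)))) (T.h (P (nat_lit 0)) (P (nat_lit 2087883327684)))) (T.h (T.h (P (nat_lit 0)) (T.h (T.h (P (nat_lit 0)) (P (nat_lit 658146786416))) (P (nat_lit 0)))) (M (nat_lit 754800421087))))))) (P (nat_lit 0))))) (T.h (T.h (P (nat_lit 0)) (T.h (T.h (T.h (T.h (P (nat_lit 0)) (T.h (P (nat_lit 0)) (T.h (P (nat_lit 6888561904)) (T.h (P (nat_lit 0)) (T.h (M (nat_lit 280806929087)) (T.h (P (nat_lit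 0)) (P (nat_lit 2485724631096)))))))) (T.h (P (nat_lit 0)) (T.h (T.h (P (nat_lit 6888561904)) (T.h (P (nat_lit 0)) (T.h (M (nat_lit 1652179420975)) (T.h (P (nat_lit 0)) (P (nat_lit 3509401665252)))))) (T.h (P (nat_lit 0)) (T.h (T.h (M (nat_lit 280806929087)) (T.h (P (nat_lit 0)) (P (nat_lit 3509401665252)))) (T.h (P (nat_lit 0)) (P (nat_lit 2485724631096)))))))) (T.h (T.h (P (nat_lit 0)) (T.h (T.h (P (nat_lit 0)) (T.h (M (nat_lit 701096258239)) (T.h (P (nat_lit 0)) (M (nat_lit 9043668853715))))) (T.h (P (nat_lit 0)) (T.h (T.h (P (nat_lit 0)) (M (nat_lit 9043668853715))) (P (nat_lit 0)))))) (T.h (T.h (T.h (M (nat_lit 49141305471)) (T.h (P (nat_lit 0)) (T.h (P (nat_lit 1626270001804)) (T.h (P (nat_lit 0)) (M (nat_lit 5762742586327)))))) (T.h (P (nat_lit 0)) (T.h (T.h (P (nat_lit 1626270001804)) (T.h (P (nat_lit 0)) (M (nat_lit 17776768757831)))) (T.h (P (nat_lit 0)) (M (nat_lit 5762742586327))))))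 (T.h (T.h (P (nat_lit 0)) (T.h (T.h (P (nat_lit 0)) (P (nat_lit 11311328416304))) (P (nat_lit 0)))) (T.h (T.h (T.h (M (nat_lit 488320560727)) (T.h (P (nat_lit 0)) (M (nat_lit 7812036435055)))) (T.h (P (nat_lit 0)) (M (nat_lit 7812036435055)))) (T.h (P (nat_lit 0)) (M (nat_lit 3920264394759)))))))) (P (nat_lit 0)))) (T.h (T.h (T.h (T.h (P (nat_lit 0)) (T.h (T.h (P (nat_lit 0)) (T.h (M (nat_lit 5582362659)) (T.h (P (nat_lit 0)) (T.h (M (nat_lit 227078569535)) (T.h (P (nat_lit 0)) (P (nat_lit 5346018852384))))))) (T.h (P (nat_lit 0)) (T.h (T.h (P (nat_lit 0)) (T.h (M (nat_lit 73580082939)) (T.h (P (nat_lit 0)) (M (nat_lit 4649967810627))))) (T.h (P (nat_lit 0)) (T.h (T.h (P (nat_lit 0)) (P (nat_lit 2980035216480))) (P (nat_lit 0)))))))) (T.h (T.h (T.h (M (nat_lit 562822091)) (T.h (P (nat_lit 0)) (T.h (P (nat_lit 22544876480)) (T.h (P (nat_lit 0)) (P (nat_lit 1014454496020)))))) (T.h (P (nat_lit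 0)) (T.h (T.h (M (nat_lit 75865036071)) (T.h (P (nat_lit 0)) (M (nat_lit 432561656379)))) (T.h (P (nat_lit 0)) (M (nat_lit 4525034791759)))))) (T.h (T.h (P (nat_lit 0)) (T.h (T.h (P (nat_lit 0)) (T.h (P (nat_lit 1962922138100)) (T.h (P (nat_lit 0)) (M (nat_lit 18460949489611))))) (T.h (P (nat_lit 0)) (T.h (T.h (P (nat_lit 0)) (M (nat_lit 14643300886535))) (P (nat_lit 0)))))) (T.h (T.h (T.h (P (nat_lit 54193162604)) (T.h (P (nat_lit 0)) (P (nat_lit 2087883327684)))) (T.h (P (nat_lit 0)) (M (nat_lit 719311965455)))) (T.h (T.h (P (nat_lit 0)) (T.h (T.h (P (nat_lit 0)) (P (nat_lit 658146786416))) (P (nat_lit 0)))) (M (nat_lit 754800421087))))))) (P (nat_lit 0))) (P (nat_lit 0)))))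
def et1_12 : T ℤ := (T.h (T.h (T.h (P (nat_lit 0)) (T.h (T.h (T.h (T.h (P (nat_lit 0)) (T.h (M (nat_lit 1528077963)) (T.h (P (nat_lit 0)) (T.h (P (nat_lit 2796801084)) (T.h (P (nat_lit 0)) (M (nat_lit 800535205875))))))) (T.h (P (nat_lit 0)) (T.h (T.h (P (nat_lit 0)) (T.h (P (nat_lit 203575837164)) (T.h (P (nat_lit 0)) (P (nat_lit 429244764760))))) (T.h (P (nat_lit 0)) (T.h (T.h (P (nat_lit 0)) (P (nat_lit 1676962168000))) (P (nat_lit 0))))))) (T.h (T.h (P (nat_lit 0)) (T.h (T.h (P (nat_lit 16379655124)) (T.h (P (nat_lit 0)) (T.h (M (nat_lit 663028118031)) (T.h (P (nat_lit 0)) (P (nat_lit 75625328716)))))) (T.h (P (nat_lit 0)) (T.h (T.h (P (nat_lit 471722160616)) (T.h (P (nat_lit 0)) (P (nat_lit 1246439086956)))) (T.h (P (nat_lit 0)) (M (nat_lit 1476554750775))))))) (T.h (T.h (T.h (P (nat_lit 0)) (T.h (M (nat_lit 144267644695)) (T.h (P (nat_lit 0)) (M (nat_lit 1011241739703))))) (T.h (P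 (nat_lit 0)) (T.h (T.h (P (nat_lit 0)) (M (nat_lit 2132579029167))) (P (nat_lit 0))))) (T.h (T.h (P (nat_lit 0)) (T.h (T.h (P (nat_lit 893787847176)) (T.h (P (nat_lit 0)) (M (nat_lit 8517079212235)))) (T.h (P (nat_lit 0)) (M (nat_lit 4047178104283))))) (T.h (T.h (T.h (P (nat_lit 0)) (P (nat_lit 321130579196))) (P (nat_lit 0))) (T.h (T.h (P (nat_lit 0)) (P (nat_lit 99339406404))) (P (nat_lit 0)))))))) (P (nat_lit 0)))) (T.h (T.h (T.h (T.h (P (nat_lit 0)) (T.h (T.h (M (nat_lit 1528077963)) (T.h (P (nat_lit 0)) (T.h (P (nat_lit 203575837164)) (T.h (P (nat_lit 0)) (P (nat_lit 1676962168000)))))) (T.h (P (nat_lit 0)) (T.h (T.h (P (nat_lit 2796801084)) (T.h (P (nat_lit 0)) (P (nat_lit 429244764760)))) (T.h (P (nat_lit 0)) (M (nat_lit 800535205875))))))) (T.h (T.h (T.h (P (nat_lit 0)) (T.h (P (nat_lit 16379655124)) (T.h (P (nat_lit 0)) (T.h (P (nat_lit 471722160616)) (T.h (P (nat_lit 0)) (M (nat_lit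 1476554750775))))))) (T.h (P (nat_lit 0)) (T.h (T.h (P (nat_lit 0)) (T.h (M (nat_lit 663028118031)) (T.h (P (nat_lit 0)) (P (nat_lit 1246439086956))))) (T.h (P (nat_lit 0)) (T.h (T.h (P (nat_lit 0)) (P (nat_lit 75625328716))) (P (nat_lit 0))))))) (T.h (T.h (P (nat_lit 0)) (T.h (T.h (M (nat_lit 144267644695)) (T.h (P (nat_lit 0)) (M (nat_lit 2132579029167)))) (T.h (P (nat_lit 0)) (M (nat_lit 1011241739703))))) (T.h (T.h (T.h (P (nat_lit 0)) (T.h (P (nat_lit 893787847176)) (T.h (P (nat_lit 0)) (M (nat_lit 4047178104283))))) (T.h (P (nat_lit 0)) (T.h (T.h (P (nat_lit 0)) (M (nat_lit 8517079212235))) (P (nat_lit 0))))) (T.h (T.h (P (nat_lit 0)) (P (nat_lit 321130579196))) (T.h (T.h (T.h (P (nat_lit 0)) (P (nat_lit 99339406404))) (P (nat_lit 0))) (P (nat_lit 0)))))))) (P (nat_lit 0))) (P (nat_lit 0)))) (T.h (T.h (T.h (T.h (T.h (P (nat_lit 0)) (T.h (T.h (P (nat_lit 0)) (T.h (P (nat_lit 4277773696))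 (T.h (P (nat_lit 0)) (T.h (M (nat_lit 440013943711)) (T.h (P (nat_lit 0)) (P (nat_lit 798204648444))))))) (T.h (P (nat_lit 0)) (T.h (T.h (P (nat_lit 0)) (T.h (M (nat_lit 440013943711)) (T.h (P (nat_lit 0)) (P (nat_lit 1816610405288))))) (T.h (P (nat_lit 0)) (T.h (T.h (P (nat_lit 0)) (P (nat_lit 798204648444))) (P (nat_lit 0)))))))) (T.h (T.h (T.h (M (nat_lit 3454393711)) (T.h (P (nat_lit 0)) (T.h (M (nat_lit 67659531547)) (T.h (P (nat_lit 0)) (M (nat_lit 790888853131)))))) (T.h (P (nat_lit 0)) (T.h (T.h (M (nat_lit 67659531547)) (T.h (P (nat_lit 0)) (M (nat_lit 316545135479)))) (T.h (P (nat_lit 0)) (M (nat_lit 790888853131)))))) (T.h (T.h (P (nat_lit 0)) (T.h (T.h (P (nat_lit 0)) (T.h (M (nat_lit 383583234719)) (T.h (P (nat_lit 0)) (P (nat_lit 1281253799588))))) (T.h (P (nat_lit 0)) (T.h (T.h (P (nat_lit 0)) (P (nat_lit 1281253799588))) (P (nat_lit 0)))))) (T.h (T.h (T.h (M (nat_lit 61880268631))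 (T.h (P (nat_lit 0)) (M (nat_lit 1246432872327)))) (T.h (P (nat_lit 0)) (M (nat_lit 1246432872327)))) (T.h (T.h (P (nat_lit 0)) (T.h (T.h (P (nat_lit 0)) (M (nat_lit 1733800814647))) (P (nat_lit 0)))) (P (nat_lit 131278854504))))))) (P (nat_lit 0))) (P (nat_lit 0))) (P (nat_lit 0))))
def et1_13 : T ℤ := (T.h (T.h (T.h (P (nat_lit 0)) (T.h (P (nat_lit 0)) (T.h (P (nat_lit 0)) (T.h (T.h (T.h (T.h (P (nat_lit 0)) (T.h (M (nat_lit 954521043)) (T.h (P (nat_lit 0)) (T.h (P (nat_lit 37055179536)) (T.h (P (nat_lit 0)) (P (nat_lit 479893289560))))))) (T.h (P (nat_lit 0)) (T.h (T.h (P (nat_lit 0)) (T.h (M (nat_lit 3734583903)) (T.h (P (nat_lit 0)) (M (nat_lit 36993231807))))) (T.h (P (nat_lit 0)) (T.h (T.h (P (nat_lit 0)) (M (nat_lit 377335296111))) (P (nat_lit 0))))))) (T.h (T.h (P (nat_lit 0)) (T.h (T.h (P (nat_lit 9263121076)) (T.h (P (nat_lit 0)) (T.h (M (nat_lit 975029697959)) (T.h (P (nat_lit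 0)) (M (nat_lit 10304846179)))))) (T.h (P (nat_lit 0)) (T.h (T.h (P (nat_lit 245465472524)) (T.h (P (nat_lit 0)) (P (nat_lit 1559736273008)))) (T.h (P (nat_lit 0)) (M (nat_lit 963003353983))))))) (T.h (T.h (T.h (P (nat_lit 0)) (T.h (P (nat_lit 14096788744)) (T.h (P (nat_lit 0)) (P (nat_lit 415919209748))))) (T.h (P (nat_lit 0)) (T.h (T.h (P (nat_lit 0)) (P (nat_lit 694005836244))) (P (nat_lit 0))))) (T.h (T.h (P (nat_lit 0)) (T.h (T.h (P (nat_lit 124085444584)) (T.h (P (nat_lit 0)) (P (nat_lit 8831112532944)))) (T.h (P (nat_lit 0)) (P (nat_lit 3139055069884))))) (T.h (T.h (T.h (P (nat_lit 0)) (P (nat_lit 929639001080))) (P (nat_lit 0))) (T.h (T.h (P (nat_lit 0)) (M (nat_lit 2400936672463))) (P (nat_lit 0)))))))) (T.h (P (nat_lit 0)) (T.h (T.h (T.h (T.h (P (nat_lit 0)) (T.h (M (nat_lit 562822091)) (T.h (P (nat_lit 0)) (T.h (P (nat_lit 54193162604)) (T.h (P (nat_lit 0)) (M (nat_lit 754800421087)))))))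 (T.h (P (nat_lit 0)) (T.h (T.h (P (nat_lit 0)) (T.h (P (nat_lit 22544876480)) (T.h (P (nat_lit 0)) (P (nat_lit 2087883327684))))) (T.h (P (nat_lit 0)) (T.h (T.h (P (nat_lit 0)) (P (nat_lit 1014454496020))) (P (nat_lit 0))))))) (T.h (T.h (P (nat_lit 0)) (T.h (T.h (M (nat_lit 5582362659)) (T.h (P (nat_lit 0)) (T.h (P (nat_lit 1962922138100)) (T.h (P (nat_lit 0)) (P (nat_lit 658146786416)))))) (T.h (P (nat_lit 0)) (T.h (T.h (M (nat_lit 227078569535)) (T.h (P (nat_lit 0)) (M (nat_lit 18460949489611)))) (T.h (P (nat_lit 0)) (P (nat_lit 5346018852384))))))) (T.h (T.h (T.h (P (nat_lit 0)) (T.h (M (nat_lit 75865036071)) (T.h (P (nat_lit 0)) (M (nat_lit 719311965455))))) (T.h (P (nat_lit 0)) (T.h (T.h (P (nat_lit 0)) (M (nat_lit 432561656379))) (P (nat_lit 0))))) (T.h (T.h (P (nat_lit 0)) (T.h (T.h (M (nat_lit 73580082939)) (T.h (P (nat_lit 0)) (M (nat_lit 14643300886535)))) (T.h (P (nat_lit 0))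 (M (nat_lit 4649967810627))))) (T.h (T.h (T.h (P (nat_lit 0)) (M (nat_lit 4525034791759))) (P (nat_lit 0))) (T.h (T.h (P (nat_lit 0)) (P (nat_lit 2980035216480))) (P (nat_lit 0)))))))) (P (nat_lit 0)))))))) et1_7) (T.h et1_9 (T.h (T.h (T.h (P (nat_lit 0)) (T.h (T.h (T.h (T.h (P (nat_lit 0)) (T.h (M (nat_lit 197402419)) (T.h (P (nat_lit 0)) (T.h (M (nat_lit 12346351127)) (T.h (P (nat_lit 0)) (P (nat_lit 438232071080))))))) (T.h (P (nat_lit 0)) (T.h (T.h (P (nat_lit 0)) (T.h (M (nat_lit 74117462995)) (T.h (P (nat_lit 0)) (M (nat_lit 410919575903))))) (T.h (P (nat_lit 0)) (T.h (T.h (P (nat_lit 0)) (M (nat_lit 605554172283))) (P (nat_lit 0))))))) (T.h (T.h (P (nat_lit 0)) (T.h (T.h (M (nat_lit 3000985219)) (T.h (P (nat_lit 0)) (T.h (P (nat_lit 448376176448)) (T.h (P (nat_lit 0)) (P (nat_lit 993274647376)))))) (T.h (P (nat_lit 0)) (T.h (T.h (M (nat_lit 83248238043)) (T.h (P (nat_lit 0)) (M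 (nat_lit 6397268399743)))) (T.h (P (nat_lit 0)) (P (nat_lit 188319440980))))))) (T.h (T.h (T.h (P (nat_lit 0)) (T.h (P (nat_lit 67391406212)) (T.h (P (nat_lit 0)) (P (nat_lit 348868334392))))) (T.h (P (nat_lit 0)) (T.h (T.h (P (nat_lit 0)) (P (nat_lit 958565014284))) (P (nat_lit 0))))) (T.h (T.h (P (nat_lit 0)) (T.h (T.h (M (nat_lit 370697450791)) (T.h (P (nat_lit 0)) (P (nat_lit 5542001600920)))) (T.h (P (nat_lit 0)) (M (nat_lit 1585197800735))))) (T.h (T.h (T.h (P (nat_lit 0)) (P (nat_lit 534316824916))) (P (nat_lit 0))) (T.h (T.h (P (nat_lit 0)) (P (nat_lit 116150558596))) (P (nat_lit 0)))))))) (T.h (P (nat_lit 0)) (T.h (T.h (T.h (T.h (P (nat_lit 0)) (T.h (P (nat_lit 1161066788)) (T.h (P (nat_lit 0)) (T.h (M (nat_lit 148240373763)) (T.h (P (nat_lit 0)) (M (nat_lit 1210983004699))))))) (T.h (P (nat_lit 0)) (T.h (T.h (P (nat_lit 0)) (T.h (P (nat_lit 41402365228)) (T.h (P (nat_lit 0))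 (P (nat_lit 941845082136))))) (T.h (P (nat_lit 0)) (T.h (T.h (P (nat_lit 0)) (P (nat_lit 746974122104))) (P (nat_lit 0))))))) (T.h (T.h (P (nat_lit 0)) (T.h (T.h (M (nat_lit 51759546999)) (T.h (P (nat_lit 0)) (T.h (P (nat_lit 679012845560)) (T.h (P (nat_lit 0)) (P (nat_lit 15248199354500)))))) (T.h (P (nat_lit 0)) (T.h (T.h (M (nat_lit 983806289675)) (T.h (P (nat_lit 0)) (P (nat_lit 11413897683748)))) (T.h (P (nat_lit 0)) (M (nat_lit 1374813441315))))))) (T.h (T.h (T.h (P (nat_lit 0)) (T.h (P (nat_lit 202679950984)) (T.h (P (nat_lit 0)) (M (nat_lit 142471240183))))) (T.h (P (nat_lit 0)) (T.h (T.h (P (nat_lit 0)) (M (nat_lit 1445963114819))) (P (nat_lit 0))))) (T.h (T.h (P (nat_lit 0)) (T.h (T.h (P (nat_lit 389524486120)) (T.h (P (nat_lit 0)) (M (nat_lit 10472527374707)))) (T.h (P (nat_lit 0)) (M (nat_lit 6436887430259))))) (T.h (T.h (T.h (P (nat_lit 0)) (M (nat_lit 744736293671))) (P (nat_lit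 0))) (T.h (T.h (P (nat_lit 0)) (P (nat_lit 8270403527428))) (P (nat_lit 0)))))))) (P (nat_lit 0)))))) et1_10) (T.h et1_11 et1_12))))

def t1 : T ℤ := (T.h (T.h (T.h (P (nat_lit 0)) (T.h (P (nat_lit 0)) (T.h (P (nat_lit 0)) (T.h (P (nat_lit 0)) (T.h (P (nat_lit 0)) (T.h (T.h (T.h (T.h (P (nat_lit 0)) (T.h (P (nat_lit 1975464760)) (T.h (P (nat_lit 0)) (T.h (P (nat_lit 35362370128)) (T.h (P (nat_lit 0)) (M (nat_lit 75059908071))))))) (T.h (P (nat_lit 0)) (T.h (T.h (P (nat_lit 0)) (T.h (P (nat_lit 50275367184)) (T.h (P (nat_lit 0)) (P (nat_lit 898415928136))))) (T.h (P (nat_lit 0)) (T.h (T.h (P (nat_lit 0)) (P (nat_lit 490672153888))) (P (nat_lit 0))))))) (T.h (T.h (P (nat_lit 0)) (T.h (T.h (M (nat_lit 2435762327)) (T.h (P (nat_lit 0)) (T.h (P (nat_lit 219192315376)) (T.h (P (nat_lit 0)) (P (nat_lit 992599403712)))))) (T.h (P (nat_lit 0)) (T.h (T.h (P (nat_lit 330475840560)) (T.h (P (nat_lit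 0)) (M (nat_lit 895946624243)))) (T.h (P (nat_lit 0)) (M (nat_lit 942207659043))))))) (T.h (T.h (T.h (P (nat_lit 0)) (T.h (P (nat_lit 50275367184)) (T.h (P (nat_lit 0)) (P (nat_lit 898415928136))))) (T.h (P (nat_lit 0)) (T.h (T.h (P (nat_lit 0)) (P (nat_lit 180525830744))) (P (nat_lit 0))))) (T.h (T.h (P (nat_lit 0)) (T.h (T.h (P (nat_lit 330475840560)) (T.h (P (nat_lit 0)) (M (nat_lit 895946624243)))) (T.h (P (nat_lit 0)) (M (nat_lit 1030505470903))))) (T.h (T.h (T.h (P (nat_lit 0)) (P (nat_lit 490672153888))) (P (nat_lit 0))) (T.h (T.h (P (nat_lit 0)) (M (nat_lit 942207659043))) (P (nat_lit 0)))))))) (T.h (P (nat_lit 0)) (T.h (T.h (T.h (T.h (P (nat_lit 0)) (T.h (M (nat_lit 3454393711)) (T.h (P (nat_lit 0)) (T.h (M (nat_lit 61880268631)) (T.h (P (nat_lit 0)) (P (nat_lit 131278854504))))))) (T.h (P (nat_lit 0)) (T.h (T.h (P (nat_lit 0)) (T.h (M (nat_lit 67659531547)) (T.h (P (nat_lit 0))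 (M (nat_lit 1246432872327))))) (T.h (P (nat_lit 0)) (T.h (T.h (P (nat_lit 0)) (M (nat_lit 790888853131))) (P (nat_lit 0))))))) (T.h (T.h (P (nat_lit 0)) (T.h (T.h (P (nat_lit 4277773696)) (T.h (P (nat_lit 0)) (T.h (M (nat_lit 383583234719)) (T.h (P (nat_lit 0)) (M (nat_lit 1733800814647)))))) (T.h (P (nat_lit 0)) (T.h (T.h (M (nat_lit 440013943711)) (T.h (P (nat_lit 0)) (P (nat_lit 1281253799588)))) (T.h (P (nat_lit 0)) (P (nat_lit 798204648444))))))) (T.h (T.h (T.h (P (nat_lit 0)) (T.h (M (nat_lit 67659531547)) (T.h (P (nat_lit 0)) (M (nat_lit 1246432872327))))) (T.h (P (nat_lit 0)) (T.h (T.h (P (nat_lit 0)) (M (nat_lit 316545135479))) (P (nat_lit 0))))) (T.h (T.h (P (nat_lit 0)) (T.h (T.h (M (nat_lit 440013943711)) (T.h (P (nat_lit 0)) (P (nat_lit 1281253799588)))) (T.h (P (nat_lit 0)) (P (nat_lit 1816610405288))))) (T.h (T.h (T.h (P (nat_lit 0)) (M (nat_lit 790888853131))) (P (nat_lit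 0))) (T.h (T.h (P (nat_lit 0)) (P (nat_lit 798204648444))) (P (nat_lit 0)))))))) (P (nat_lit 0)))))))))) et1_2) (T.h et1_5 et1_13))

theorem h_t1 : chkT (c.G g1) t1 = true := by decide +kernel


end Pool.Agent.TOPR.R6094
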