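import Pool.Agent.TOPR.R6094.Cert

set_option autoImplicit false
set_option linter.all false
set_option maxRecDepth 100000

namespace Pool.Agent.TOPR.R6094

open Helper10.PC hiding V3
open Helper80.CW.DL Pool.Agent.Helper6.TOP

def et2_0 : T ℤ := (T.h (T.h (P (nat_lit 0)) (T.h (T.h (T.h (P (nat_lit 0)) (T.h (T.h (P (nat_lit 0)) (T.h (P (nat_lit 75339200208)) (T.h (P (nat_lit 0)) (P (nat_lit 749338276464))))) (T.h (P (nat_lit 0)) (T.h (T.h (P (nat_lit 0)) (M (nat_lit 319886280563))) (P (nat_lit 0)))))) (T.h (T.h (T.h (M (nat_lit 1970515551)) (T.h (P (nat_lit 0)) (T.h (P (nat_lit 131077471608)) (T.h (P (nat_lit 0)) (M (nat_lit 75598789219)))))) (T.h (P (nat_lit 0)) (T.h (T.h (M (nat_lit 466379459231)) (T.h (P (nat_lit 0)) (P (nat_lit 5843225923720)))) (T.h (P (nat_lit 0)) (P (nat_lit 190488409680)))))) (T.h (T.h (P (nat_lit 0)) (T.h (T.h (P (nat_lit 0)) (P (nat_lit 1718058335148))) (P (nat_lit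 0)))) (T.h (T.h (T.h (P (nat_lit 3146768132)) (T.h (P (nat_lit 0)) (M (nat_lit 1814749911415)))) (T.h (P (nat_lit 0)) (P (nat_lit 540234434244)))) (T.h (P (nat_lit 0)) (M (nat_lit 52707726115))))))) (T.h (P (nat_lit 0)) (T.h (T.h (T.h (P (nat_lit 0)) (T.h (T.h (P (nat_lit 0)) (T.h (P (nat_lit 36232832832)) (T.h (P (nat_lit 0)) (M (nat_lit 2626440235343))))) (T.h (P (nat_lit 0)) (T.h (T.h (P (nat_lit 0)) (M (nat_lit 631081300799))) (P (nat_lit 0)))))) (T.h (T.h (T.h (M (nat_lit 8191701379)) (T.h (P (nat_lit 0)) (T.h (P (nat_lit 65467513820)) (T.h (P (nat_lit 0)) (P (nat_lit 4306910776700)))))) (T.h (P (nat_lit 0)) (T.h (T.h (P (nat_lit 447356513780)) (T.h (P (nat_lit 0)) (M (nat_lit 10763926397675)))) (T.h (P (nat_lit 0)) (P (nat_lit 6001452060508)))))) (T.h (T.h (P (nat_lit 0)) (T.h (T.h (P (nat_lit 0)) (M (nat_lit 536721363199))) (P (nat_lit 0)))) (T.h (T.h (T.h (M (nat_lit 172983551315))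 (T.h (P (nat_lit 0)) (M (nat_lit 362286535447)))) (T.h (P (nat_lit 0)) (M (nat_lit 5395944540055)))) (T.h (P (nat_lit 0)) (P (nat_lit 567315058724))))))) (P (nat_lit 0)))))) (T.h (T.h (T.h (T.h (T.h (P (nat_lit 1603955560)) (T.h (P (nat_lit 0)) (T.h (P (nat_lit 7653077972)) (T.h (P (nat_lit 0)) (P (nat_lit 92505666796)))))) (T.h (P (nat_lit 0)) (T.h (T.h (P (nat_lit 25555680104)) (T.h (P (nat_lit 0)) (P (nat_lit 574357430588)))) (T.h (P (nat_lit 0)) (M (nat_lit 166033257367)))))) (T.h (T.h (P (nat_lit 0)) (T.h (T.h (P (nat_lit 0)) (T.h (P (nat_lit 93279851520)) (T.h (P (nat_lit 0)) (M (nat_lit 272982140567))))) (T.h (P (nat_lit 0)) (T.h (T.h (P (nat_lit 0)) (P (nat_lit 1257393744448))) (P (nat_lit 0)))))) (T.h (T.h (T.h (P (nat_lit 7653077972)) (T.h (P (nat_lit 0)) (P (nat_lit 187070317368)))) (T.h (P (nat_lit 0)) (P (nat_lit 574357430588)))) (T.h (T.h (P (nat_lit 0)) (T.h (T.h (P (nat_lit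 0)) (M (nat_lit 272982140567))) (P (nat_lit 0)))) (P (nat_lit 92505666796)))))) (T.h (P (nat_lit 0)) (T.h (T.h (T.h (T.h (M (nat_lit 298700007)) (T.h (P (nat_lit 0)) (T.h (M (nat_lit 9639233259)) (T.h (P (nat_lit 0)) (M (nat_lit 1218244403019)))))) (T.h (P (nat_lit 0)) (T.h (T.h (P (nat_lit 2615977588)) (T.h (P (nat_lit 0)) (M (nat_lit 741665873639)))) (T.h (P (nat_lit 0)) (M (nat_lit 493267360891)))))) (T.h (T.h (P (nat_lit 0)) (T.h (T.h (P (nat_lit 0)) (T.h (P (nat_lit 371398291448)) (T.h (P (nat_lit 0)) (M (nat_lit 4140585779743))))) (T.h (P (nat_lit 0)) (T.h (T.h (P (nat_lit 0)) (M (nat_lit 2057367325543))) (P (nat_lit 0)))))) (T.h (T.h (T.h (P (nat_lit 32302959092)) (T.h (P (nat_lit 0)) (P (nat_lit 122167519700)))) (T.h (P (nat_lit 0)) (P (nat_lit 590152993412)))) (T.h (T.h (P (nat_lit 0)) (T.h (T.h (P (nat_lit 0)) (M (nat_lit 4918431543615))) (P (nat_lit 0)))) (P (nat_lit 384488094860))))))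 (P (nat_lit 0))))) (T.h (T.h (P (nat_lit 0)) (T.h (T.h (T.h (P (nat_lit 0)) (T.h (T.h (P (nat_lit 0)) (T.h (M (nat_lit 60550621783)) (T.h (P (nat_lit 0)) (M (nat_lit 740862698847))))) (T.h (P (nat_lit 0)) (T.h (T.h (P (nat_lit 0)) (M (nat_lit 172620489695))) (P (nat_lit 0)))))) (T.h (T.h (T.h (P (nat_lit 2951061260)) (T.h (P (nat_lit 0)) (T.h (M (nat_lit 283295707023)) (T.h (P (nat_lit 0)) (P (nat_lit 580949795848)))))) (T.h (P (nat_lit 0)) (T.h (T.h (P (nat_lit 328254329544)) (T.h (P (nat_lit 0)) (M (nat_lit 3101068033991)))) (T.h (P (nat_lit 0)) (M (nat_lit 176729111803)))))) (T.h (T.h (P (nat_lit 0)) (T.h (T.h (P (nat_lit 0)) (M (nat_lit 699749761327))) (P (nat_lit 0)))) (T.h (T.h (T.h (P (nat_lit 4529745272)) (T.h (P (nat_lit 0)) (P (nat_lit 956610043260)))) (T.h (P (nat_lit 0)) (M (nat_lit 1551468644751)))) (T.h (P (nat_lit 0)) (M (nat_lit 96907157475))))))) (P (nat_lit 0)))) (T.h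 (T.h (T.h (T.h (T.h (M (nat_lit 493484815)) (T.h (P (nat_lit 0)) (T.h (M (nat_lit 9665647363)) (T.h (P (nat_lit 0)) (M (nat_lit 112984121875)))))) (T.h (P (nat_lit 0)) (T.h (T.h (M (nat_lit 26520115127)) (T.h (P (nat_lit 0)) (M (nat_lit 534185516711)))) (T.h (P (nat_lit 0)) (P (nat_lit 93770610360)))))) (T.h (T.h (P (nat_lit 0)) (T.h (T.h (P (nat_lit 0)) (T.h (M (nat_lit 109595209919)) (T.h (P (nat_lit 0)) (P (nat_lit 366072514168))))) (T.h (P (nat_lit 0)) (T.h (T.h (P (nat_lit 0)) (M (nat_lit 990743322655))) (P (nat_lit 0)))))) (T.h (T.h (T.h (M (nat_lit 9665647363)) (T.h (P (nat_lit 0)) (M (nat_lit 45220733639)))) (T.h (P (nat_lit 0)) (M (nat_lit 534185516711)))) (T.h (T.h (P (nat_lit 0)) (T.h (T.h (P (nat_lit 0)) (P (nat_lit 366072514168))) (P (nat_lit 0)))) (M (nat_lit 112984121875)))))) (P (nat_lit 0))) (P (nat_lit 0))))))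
def et2_1 : T ℤ := (T.h (T.h (P (nat_lit 0)) (T.h (P (nat_lit 0)) (T.h (P (nat_lit 0)) (T.h (P (nat_lit 0)) (T.h (T.h (T.h (T.h (P (nat_lit 2680174712)) (T.h (P (nat_lit 0)) (T.h (M (nat_lit 11088549247)) (T.h (P (nat_lit 0)) (P (nat_lit 460464333316)))))) (T.h (P (nat_lit 0)) (T.h (T.h (P (nat_lit 35613048216)) (T.h (P (nat_lit 0)) (M (nat_lit 1120977254619)))) (T.h (P (nat_lit 0)) (P (nat_lit 1029289782272)))))) (T.h (T.h (P (nat_lit 0)) (T.h (T.h (P (nat_lit 0)) (T.h (M (nat_lit 841847126343)) (T.h (P (nat_lit 0)) (P (nat_lit 4528311635240))))) (T.h (P (nat_lit 0)) (T.h (T.h (P (nat_lit 0)) (P (nat_lit 5668152135152))) (P (nat_lit 0)))))) (T.h (T.h (T.h (M (nat_lit 45000361295)) (T.h (P (nat_lit 0)) (P (nat_lit 1524327003460)))) (T.h (P (nat_lit 0)) (P (nat_lit 978556849500)))) (T.h (T.h (P (nat_lit 0)) (T.h (T.h (P (nat_lit 0)) (M (nat_lit 2398452836463))) (P (nat_lit 0)))) (M (nat_lit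 379082682551)))))) (T.h (P (nat_lit 0)) (T.h (T.h (T.h (T.h (M (nat_lit 298700007)) (T.h (P (nat_lit 0)) (T.h (P (nat_lit 2615977588)) (T.h (P (nat_lit 0)) (M (nat_lit 493267360891)))))) (T.h (P (nat_lit 0)) (T.h (T.h (M (nat_lit 9639233259)) (T.h (P (nat_lit 0)) (M (nat_lit 741665873639)))) (T.h (P (nat_lit 0)) (M (nat_lit 1218244403019)))))) (T.h (T.h (P (nat_lit 0)) (T.h (T.h (P (nat_lit 0)) (T.h (P (nat_lit 371398291448)) (T.h (P (nat_lit 0)) (M (nat_lit 2057367325543))))) (T.h (P (nat_lit 0)) (T.h (T.h (P (nat_lit 0)) (M (nat_lit 4140585779743))) (P (nat_lit 0)))))) (T.h (T.h (T.h (P (nat_lit 32302959092)) (T.h (P (nat_lit 0)) (P (nat_lit 590152993412)))) (T.h (P (nat_lit 0)) (P (nat_lit 122167519700)))) (T.h (T.h (P (nat_lit 0)) (T.h (T.h (P (nat_lit 0)) (M (nat_lit 4918431543615))) (P (nat_lit 0)))) (P (nat_lit 384488094860)))))) (P (nat_lit 0))))))))) (T.h (T.h (P (nat_lit 0))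 (T.h (P (nat_lit 0)) (T.h (P (nat_lit 0)) (T.h (T.h (T.h (P (nat_lit 0)) (T.h (T.h (P (nat_lit 0)) (T.h (M (nat_lit 43951922967)) (T.h (P (nat_lit 0)) (M (nat_lit 1470604015675))))) (T.h (P (nat_lit 0)) (T.h (T.h (P (nat_lit 0)) (M (nat_lit 1470604015675))) (P (nat_lit 0)))))) (T.h (T.h (T.h (P (nat_lit 12821746288)) (T.h (P (nat_lit 0)) (T.h (M (nat_lit 523839170815)) (T.h (P (nat_lit 0)) (M (nat_lit 6940877814347)))))) (T.h (P (nat_lit 0)) (T.h (T.h (M (nat_lit 523839170815)) (T.h (P (nat_lit 0)) (P (nat_lit 7244495536448)))) (T.h (P (nat_lit 0)) (M (nat_lit 6940877814347)))))) (T.h (T.h (P (nat_lit 0)) (T.h (T.h (P (nat_lit 0)) (P (nat_lit 1999046402624))) (P (nat_lit 0)))) (T.h (T.h (T.h (P (nat_lit 292323560256)) (T.h (P (nat_lit 0)) (M (nat_lit 686984758775)))) (T.h (P (nat_lit 0)) (M (nat_lit 686984758775)))) (T.h (P (nat_lit 0)) (M (nat_lit 29797945639))))))) (T.h (P (nat_lit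 0)) (T.h (T.h (T.h (P (nat_lit 0)) (T.h (T.h (P (nat_lit 0)) (T.h (P (nat_lit 36232832832)) (T.h (P (nat_lit 0)) (M (nat_lit 631081300799))))) (T.h (P (nat_lit 0)) (T.h (T.h (P (nat_lit 0)) (M (nat_lit 2626440235343))) (P (nat_lit 0)))))) (T.h (T.h (T.h (M (nat_lit 8191701379)) (T.h (P (nat_lit 0)) (T.h (P (nat_lit 447356513780)) (T.h (P (nat_lit 0)) (P (nat_lit 6001452060508)))))) (T.h (P (nat_lit 0)) (T.h (T.h (P (nat_lit 65467513820)) (T.h (P (nat_lit 0)) (M (nat_lit 10763926397675)))) (T.h (P (nat_lit 0)) (P (nat_lit 4306910776700)))))) (T.h (T.h (P (nat_lit 0)) (T.h (T.h (P (nat_lit 0)) (M (nat_lit 536721363199))) (P (nat_lit 0)))) (T.h (T.h (T.h (M (nat_lit 172983551315)) (T.h (P (nat_lit 0)) (M (nat_lit 5395944540055)))) (T.h (P (nat_lit 0)) (M (nat_lit 362286535447)))) (T.h (P (nat_lit 0)) (P (nat_lit 567315058724))))))) (P (nat_lit 0)))))))) (T.h (T.h (P (nat_lit 0)) (T.h (P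 (nat_lit 0)) (T.h (T.h (T.h (T.h (P (nat_lit 2680174712)) (T.h (P (nat_lit 0)) (T.h (P (nat_lit 35613048216)) (T.h (P (nat_lit 0)) (P (nat_lit 1029289782272)))))) (T.h (P (nat_lit 0)) (T.h (T.h (M (nat_lit 11088549247)) (T.h (P (nat_lit 0)) (M (nat_lit 1120977254619)))) (T.h (P (nat_lit 0)) (P (nat_lit 460464333316)))))) (T.h (T.h (P (nat_lit 0)) (T.h (T.h (P (nat_lit 0)) (T.h (M (nat_lit 841847126343)) (T.h (P (nat_lit 0)) (P (nat_lit 5668152135152))))) (T.h (P (nat_lit 0)) (T.h (T.h (P (nat_lit 0)) (P (nat_lit 4528311635240))) (P (nat_lit 0)))))) (T.h (T.h (T.h (M (nat_lit 45000361295)) (T.h (P (nat_lit 0)) (P (nat_lit 978556849500)))) (T.h (P (nat_lit 0)) (P (nat_lit 1524327003460)))) (T.h (T.h (P (nat_lit 0)) (T.h (T.h (P (nat_lit 0)) (M (nat_lit 2398452836463))) (P (nat_lit 0)))) (M (nat_lit 379082682551)))))) (T.h (P (nat_lit 0)) (T.h (T.h (T.h (T.h (P (nat_lit 331733368)) (T.h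 (P (nat_lit 0)) (T.h (M (nat_lit 34577310043)) (T.h (P (nat_lit 0)) (M (nat_lit 971378759595)))))) (T.h (P (nat_lit 0)) (T.h (T.h (M (nat_lit 34577310043)) (T.h (P (nat_lit 0)) (M (nat_lit 122118205871)))) (T.h (P (nat_lit 0)) (M (nat_lit 971378759595)))))) (T.h (T.h (P (nat_lit 0)) (T.h (T.h (P (nat_lit 0)) (T.h (P (nat_lit 388007340320)) (T.h (P (nat_lit 0)) (P (nat_lit 5721106095512))))) (T.h (P (nat_lit 0)) (T.h (T.h (P (nat_lit 0)) (P (nat_lit 5721106095512))) (P (nat_lit 0)))))) (T.h (T.h (T.h (P (nat_lit 11829247208)) (T.h (P (nat_lit 0)) (P (nat_lit 197081733084)))) (T.h (P (nat_lit 0)) (P (nat_lit 197081733084)))) (T.h (T.h (P (nat_lit 0)) (T.h (T.h (P (nat_lit 0)) (P (nat_lit 6522227247856))) (P (nat_lit 0)))) (P (nat_lit 213421177744)))))) (P (nat_lit 0))))))) et2_0)))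
def et2_2 : T ℤ := (T.h (T.h (P (nat_lit 0)) (T.h (P (nat_lit 0)) (T.h (P (nat_lit 0)) (T.h (P (nat_lit 0)) (T.h (P (nat_lit 0)) (T.h (P (nat_lit 0)) (T.h (T.h (T.h (T.h (P (nat_lit 1603955560)) (T.h (P (nat_lit 0)) (T.h (P (nat_lit 25555680104)) (T.h (P (nat_lit 0)) (M (nat_lit 166033257367)))))) (T.h (P (nat_lit 0)) (T.h (T.h (P (nat_lit 7653077972)) (T.h (P (nat_lit 0)) (P (nat_lit 574357430588)))) (T.h (P (nat_lit 0)) (P (nat_lit 92505666796)))))) (T.h (T.h (P (nat_lit 0)) (T.h (T.h (P (nat_lit 0)) (T.h (P (nat_lit 93279851520)) (T.h (P (nat_lit 0)) (P (nat_lit 1257393744448))))) (T.h (P (nat_lit 0)) (T.h (T.h (P (nat_lit 0)) (M (nat_lit 272982140567))) (P (nat_lit 0)))))) (T.h (T.h (T.h (P (nat_lit 7653077972)) (T.h (P (nat_lit 0)) (P (nat_lit 574357430588)))) (T.h (P (nat_lit 0)) (P (nat_lit 187070317368)))) (T.h (T.h (P (nat_lit 0)) (T.h (T.h (P (nat_lit 0)) (M (nat_lit 272982140567)))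 (P (nat_lit 0)))) (P (nat_lit 92505666796)))))) (T.h (P (nat_lit 0)) (T.h (T.h (T.h (T.h (M (nat_lit 493484815)) (T.h (P (nat_lit 0)) (T.h (M (nat_lit 26520115127)) (T.h (P (nat_lit 0)) (P (nat_lit 93770610360)))))) (T.h (P (nat_lit 0)) (T.h (T.h (M (nat_lit 9665647363)) (T.h (P (nat_lit 0)) (M (nat_lit 534185516711)))) (T.h (P (nat_lit 0)) (M (nat_lit 112984121875)))))) (T.h (T.h (P (nat_lit 0)) (T.h (T.h (P (nat_lit 0)) (T.h (M (nat_lit 109595209919)) (T.h (P (nat_lit 0)) (M (nat_lit 990743322655))))) (T.h (P (nat_lit 0)) (T.h (T.h (P (nat_lit 0)) (P (nat_lit 366072514168))) (P (nat_lit 0)))))) (T.h (T.h (T.h (M (nat_lit 9665647363)) (T.h (P (nat_lit 0)) (M (nat_lit 534185516711)))) (T.h (P (nat_lit 0)) (M (nat_lit 45220733639)))) (T.h (T.h (P (nat_lit 0)) (T.h (T.h (P (nat_lit 0)) (P (nat_lit 366072514168))) (P (nat_lit 0)))) (M (nat_lit 112984121875)))))) (P (nat_lit 0)))))))))))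 (T.h (T.h (P (nat_lit 0)) (T.h (P (nat_lit 0)) (T.h (P (nat_lit 0)) (T.h (P (nat_lit 0)) (T.h (P (nat_lit 0)) (T.h (T.h (T.h (P (nat_lit 0)) (T.h (T.h (P (nat_lit 0)) (T.h (P (nat_lit 75339200208)) (T.h (P (nat_lit 0)) (M (nat_lit 319886280563))))) (T.h (P (nat_lit 0)) (T.h (T.h (P (nat_lit 0)) (P (nat_lit 749338276464))) (P (nat_lit 0)))))) (T.h (T.h (T.h (M (nat_lit 1970515551)) (T.h (P (nat_lit 0)) (T.h (M (nat_lit 466379459231)) (T.h (P (nat_lit 0)) (P (nat_lit 190488409680)))))) (T.h (P (nat_lit 0)) (T.h (T.h (P (nat_lit 131077471608)) (T.h (P (nat_lit 0)) (P (nat_lit 5843225923720)))) (T.h (P (nat_lit 0)) (M (nat_lit 75598789219)))))) (T.h (T.h (P (nat_lit 0)) (T.h (T.h (P (nat_lit 0)) (P (nat_lit 1718058335148))) (P (nat_lit 0)))) (T.h (T.h (T.h (P (nat_lit 3146768132)) (T.h (P (nat_lit 0)) (P (nat_lit 540234434244)))) (T.h (P (nat_lit 0)) (M (nat_lit 1814749911415)))) (T.h (P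 (nat_lit 0)) (M (nat_lit 52707726115))))))) (T.h (P (nat_lit 0)) (T.h (T.h (T.h (P (nat_lit 0)) (T.h (T.h (P (nat_lit 0)) (T.h (M (nat_lit 60550621783)) (T.h (P (nat_lit 0)) (M (nat_lit 172620489695))))) (T.h (P (nat_lit 0)) (T.h (T.h (P (nat_lit 0)) (M (nat_lit 740862698847))) (P (nat_lit 0)))))) (T.h (T.h (T.h (P (nat_lit 2951061260)) (T.h (P (nat_lit 0)) (T.h (P (nat_lit 328254329544)) (T.h (P (nat_lit 0)) (M (nat_lit 176729111803)))))) (T.h (P (nat_lit 0)) (T.h (T.h (M (nat_lit 283295707023)) (T.h (P (nat_lit 0)) (M (nat_lit 3101068033991)))) (T.h (P (nat_lit 0)) (P (nat_lit 580949795848)))))) (T.h (T.h (P (nat_lit 0)) (T.h (T.h (P (nat_lit 0)) (M (nat_lit 699749761327))) (P (nat_lit 0)))) (T.h (T.h (T.h (P (nat_lit 4529745272)) (T.h (P (nat_lit 0)) (M (nat_lit 1551468644751)))) (T.h (P (nat_lit 0)) (P (nat_lit 956610043260)))) (T.h (P (nat_lit 0)) (M (nat_lit 96907157475))))))) (P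 (nat_lit 0)))))))))) et2_1))
def et2_3 : T ℤ := (T.h (T.h (T.h (T.h (T.h (P (nat_lit 0)) (T.h (M (nat_lit 1970515551)) (T.h (P (nat_lit 0)) (T.h (P (nat_lit 3146768132)) (T.h (P (nat_lit 0)) (M (nat_lit 52707726115))))))) (T.h (P (nat_lit 0)) (T.h (T.h (P (nat_lit 0)) (T.h (M (nat_lit 466379459231)) (T.h (P (nat_lit 0)) (P (nat_lit 540234434244))))) (T.h (P (nat_lit 0)) (T.h (T.h (P (nat_lit 0)) (P (nat_lit 190488409680))) (P (nat_lit 0))))))) (T.h (T.h (P (nat_lit 0)) (T.h (T.h (P (nat_lit 75339200208)) (T.h (P (nat_lit 0)) (P (nat_lit 1718058335148)))) (T.h (P (nat_lit 0)) (M (nat_lit 319886280563))))) (T.h (T.h (T.h (P (nat_lit 0)) (T.h (P (nat_lit 131077471608)) (T.h (P (nat_lit 0)) (M (nat_lit 1814749911415))))) (T.h (P (nat_lit 0)) (T.h (T.h (P (nat_lit 0)) (P (nat_lit 5843225923720))) (P (nat_lit 0))))) (T.h (T.h (P (nat_lit 0)) (P (nat_lit 749338276464))) (T.h (T.h (T.h (P (nat_lit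 0)) (M (nat_lit 75598789219))) (P (nat_lit 0))) (P (nat_lit 0))))))) (T.h (P (nat_lit 0)) (T.h (T.h (T.h (T.h (P (nat_lit 0)) (T.h (P (nat_lit 2652147060)) (T.h (P (nat_lit 0)) (T.h (P (nat_lit 25906164588)) (T.h (P (nat_lit 0)) (P (nat_lit 1162931084968))))))) (T.h (P (nat_lit 0)) (T.h (T.h (P (nat_lit 0)) (T.h (M (nat_lit 500174276707)) (T.h (P (nat_lit 0)) (M (nat_lit 1586278353211))))) (T.h (P (nat_lit 0)) (T.h (T.h (P (nat_lit 0)) (M (nat_lit 17621382355707))) (P (nat_lit 0))))))) (T.h (T.h (P (nat_lit 0)) (T.h (T.h (M (nat_lit 44980099591)) (T.h (P (nat_lit 0)) (M (nat_lit 2685019636531)))) (T.h (P (nat_lit 0)) (P (nat_lit 6681301972216))))) (T.h (T.h (T.h (P (nat_lit 0)) (T.h (P (nat_lit 122928214852)) (T.h (P (nat_lit 0)) (P (nat_lit 1016601546596))))) (T.h (P (nat_lit 0)) (T.h (T.h (P (nat_lit 0)) (M (nat_lit 19387731663467))) (P (nat_lit 0))))) (T.h (T.h (P (nat_lit 0)) (M (nat_lit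 2137163984451))) (T.h (T.h (T.h (P (nat_lit 0)) (P (nat_lit 4697621286184))) (P (nat_lit 0))) (P (nat_lit 0))))))) (P (nat_lit 0))))) (T.h (T.h (P (nat_lit 0)) (T.h (T.h (T.h (P (nat_lit 0)) (T.h (T.h (M (nat_lit 9360471527)) (T.h (P (nat_lit 0)) (T.h (P (nat_lit 572096909632)) (T.h (P (nat_lit 0)) (M (nat_lit 2690376228259)))))) (T.h (P (nat_lit 0)) (T.h (T.h (M (nat_lit 23672364079)) (T.h (P (nat_lit 0)) (M (nat_lit 7415251323615)))) (T.h (P (nat_lit 0)) (M (nat_lit 3331843936535))))))) (T.h (T.h (T.h (P (nat_lit 0)) (T.h (P (nat_lit 16172441488)) (T.h (P (nat_lit 0)) (M (nat_lit 211047236027))))) (T.h (P (nat_lit 0)) (T.h (T.h (P (nat_lit 0)) (P (nat_lit 3629095590320))) (P (nat_lit 0))))) (T.h (T.h (P (nat_lit 0)) (T.h (T.h (P (nat_lit 572096909632)) (T.h (P (nat_lit 0)) (M (nat_lit 4010700427703)))) (T.h (P (nat_lit 0)) (M (nat_lit 7415251323615))))) (T.h (T.h (T.h (P (nat_lit 0))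 (M (nat_lit 211047236027))) (P (nat_lit 0))) (T.h (T.h (P (nat_lit 0)) (M (nat_lit 2690376228259))) (P (nat_lit 0))))))) (P (nat_lit 0)))) (T.h (T.h (T.h (T.h (T.h (P (nat_lit 0)) (T.h (P (nat_lit 2951061260)) (T.h (P (nat_lit 0)) (T.h (P (nat_lit 4529745272)) (T.h (P (nat_lit 0)) (M (nat_lit 96907157475))))))) (T.h (P (nat_lit 0)) (T.h (T.h (P (nat_lit 0)) (T.h (P (nat_lit 328254329544)) (T.h (P (nat_lit 0)) (M (nat_lit 1551468644751))))) (T.h (P (nat_lit 0)) (T.h (T.h (P (nat_lit 0)) (M (nat_lit 176729111803))) (P (nat_lit 0))))))) (T.h (T.h (P (nat_lit 0)) (T.h (T.h (M (nat_lit 60550621783)) (T.h (P (nat_lit 0)) (M (nat_lit 699749761327)))) (T.h (P (nat_lit 0)) (M (nat_lit 172620489695))))) (T.h (T.h (T.h (P (nat_lit 0)) (T.h (M (nat_lit 283295707023)) (T.h (P (nat_lit 0)) (P (nat_lit 956610043260))))) (T.h (P (nat_lit 0)) (T.h (T.h (P (nat_lit 0)) (M (nat_lit 3101068033991))) (P (nat_lit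 0))))) (T.h (T.h (P (nat_lit 0)) (M (nat_lit 740862698847))) (T.h (T.h (T.h (P (nat_lit 0)) (P (nat_lit 580949795848))) (P (nat_lit 0))) (P (nat_lit 0))))))) (P (nat_lit 0))) (P (nat_lit 0)))))
def et2_4 : T ℤ := (T.h (T.h (P (nat_lit 0)) (T.h (P (nat_lit 0)) (T.h (T.h (T.h (T.h (P (nat_lit 0)) (T.h (M (nat_lit 4969780999)) (T.h (P (nat_lit 0)) (T.h (M (nat_lit 331751658751)) (T.h (P (nat_lit 0)) (M (nat_lit 1497791512843))))))) (T.h (P (nat_lit 0)) (T.h (T.h (P (nat_lit 0)) (T.h (P (nat_lit 1214694222136)) (T.h (P (nat_lit 0)) (M (nat_lit 4292801547031))))) (T.h (P (nat_lit 0)) (T.h (T.h (P (nat_lit 0)) (P (nat_lit 9849105606784))) (P (nat_lit 0))))))) (T.h (T.h (P (nat_lit 0)) (T.h (T.h (M (nat_lit 75900083999)) (T.h (P (nat_lit 0)) (M (nat_lit 3796833929079)))) (T.h (P (nat_lit 0)) (P (nat_lit 519747400600))))) (T.h (T.h (T.h (P (nat_lit 0)) (T.h (M (nat_lit 523143036703)) (T.h (P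 (nat_lit 0)) (P (nat_lit 2661185111340))))) (T.h (P (nat_lit 0)) (T.h (T.h (P (nat_lit 0)) (P (nat_lit 12009138700500))) (P (nat_lit 0))))) (T.h (T.h (P (nat_lit 0)) (P (nat_lit 45087131980))) (T.h (T.h (T.h (P (nat_lit 0)) (M (nat_lit 3197943813775))) (P (nat_lit 0))) (P (nat_lit 0))))))) (T.h (P (nat_lit 0)) (T.h (T.h (T.h (T.h (P (nat_lit 0)) (T.h (P (nat_lit 6851177112)) (T.h (P (nat_lit 0)) (T.h (M (nat_lit 372812921791)) (T.h (P (nat_lit 0)) (M (nat_lit 1462489621751))))))) (T.h (P (nat_lit 0)) (T.h (T.h (P (nat_lit 0)) (T.h (M (nat_lit 298584986343)) (T.h (P (nat_lit 0)) (M (nat_lit 6305722419823))))) (T.h (P (nat_lit 0)) (T.h (T.h (P (nat_lit 0)) (M (nat_lit 9092864835515))) (P (nat_lit 0))))))) (T.h (T.h (P (nat_lit 0)) (T.h (T.h (M (nat_lit 13528769495)) (T.h (P (nat_lit 0)) (P (nat_lit 2845401642228)))) (T.h (P (nat_lit 0)) (P (nat_lit 430843233740))))) (T.h (T.h (T.h (P (nat_lit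 0)) (T.h (P (nat_lit 973442461616)) (T.h (P (nat_lit 0)) (M (nat_lit 8424250811779))))) (T.h (P (nat_lit 0)) (T.h (T.h (P (nat_lit 0)) (M (nat_lit 1112844873091))) (P (nat_lit 0))))) (T.h (T.h (P (nat_lit 0)) (M (nat_lit 2366299403767))) (T.h (T.h (T.h (P (nat_lit 0)) (P (nat_lit 4200638400652))) (P (nat_lit 0))) (P (nat_lit 0))))))) (P (nat_lit 0))))))) (T.h (T.h (P (nat_lit 0)) (T.h (T.h (T.h (P (nat_lit 0)) (T.h (T.h (P (nat_lit 1143768624)) (T.h (P (nat_lit 0)) (T.h (M (nat_lit 305218250263)) (T.h (P (nat_lit 0)) (P (nat_lit 1866869445608)))))) (T.h (P (nat_lit 0)) (T.h (T.h (P (nat_lit 131130145232)) (T.h (P (nat_lit 0)) (P (nat_lit 1653247816720)))) (T.h (P (nat_lit 0)) (M (nat_lit 161960457207))))))) (T.h (T.h (T.h (P (nat_lit 0)) (T.h (P (nat_lit 76476434016)) (T.h (P (nat_lit 0)) (P (nat_lit 572693916920))))) (T.h (P (nat_lit 0)) (T.h (T.h (P (nat_lit 0)) (M (nat_lit 2248554882935)))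 (P (nat_lit 0))))) (T.h (T.h (P (nat_lit 0)) (T.h (T.h (M (nat_lit 305218250263)) (T.h (P (nat_lit 0)) (P (nat_lit 5122933364104)))) (T.h (P (nat_lit 0)) (P (nat_lit 1653247816720))))) (T.h (T.h (T.h (P (nat_lit 0)) (P (nat_lit 572693916920))) (P (nat_lit 0))) (T.h (T.h (P (nat_lit 0)) (P (nat_lit 1866869445608))) (P (nat_lit 0))))))) (T.h (P (nat_lit 0)) (T.h (T.h (T.h (P (nat_lit 0)) (T.h (T.h (P (nat_lit 6851177112)) (T.h (P (nat_lit 0)) (T.h (M (nat_lit 298584986343)) (T.h (P (nat_lit 0)) (M (nat_lit 9092864835515)))))) (T.h (P (nat_lit 0)) (T.h (T.h (M (nat_lit 372812921791)) (T.h (P (nat_lit 0)) (M (nat_lit 6305722419823)))) (T.h (P (nat_lit 0)) (M (nat_lit 1462489621751))))))) (T.h (T.h (T.h (P (nat_lit 0)) (T.h (M (nat_lit 13528769495)) (T.h (P (nat_lit 0)) (P (nat_lit 430843233740))))) (T.h (P (nat_lit 0)) (T.h (T.h (P (nat_lit 0)) (P (nat_lit 2845401642228))) (P (nat_lit 0)))))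 (T.h (T.h (P (nat_lit 0)) (T.h (T.h (P (nat_lit 973442461616)) (T.h (P (nat_lit 0)) (M (nat_lit 1112844873091)))) (T.h (P (nat_lit 0)) (M (nat_lit 8424250811779))))) (T.h (T.h (T.h (P (nat_lit 0)) (M (nat_lit 2366299403767))) (P (nat_lit 0))) (T.h (T.h (P (nat_lit 0)) (P (nat_lit 4200638400652))) (P (nat_lit 0))))))) (P (nat_lit 0)))))) et2_3))
def et2_5 : T ℤ := (T.h (T.h (P (nat_lit 0)) (T.h (P (nat_lit 0)) (T.h (P (nat_lit 0)) (T.h (P (nat_lit 0)) (T.h (T.h (T.h (T.h (P (nat_lit 0)) (T.h (P (nat_lit 1143768624)) (T.h (P (nat_lit 0)) (T.h (P (nat_lit 131130145232)) (T.h (P (nat_lit 0)) (M (nat_lit 161960457207))))))) (T.h (P (nat_lit 0)) (T.h (T.h (P (nat_lit 0)) (T.h (M (nat_lit 305218250263)) (T.h (P (nat_lit 0)) (P (nat_lit 1653247816720))))) (T.h (P (nat_lit 0)) (T.h (T.h (P (nat_lit 0)) (P (nat_lit 1866869445608))) (P (nat_lit 0))))))) (T.h (T.h (P (nat_lit 0)) (T.h (T.h (P (nat_lit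 76476434016)) (T.h (P (nat_lit 0)) (M (nat_lit 2248554882935)))) (T.h (P (nat_lit 0)) (P (nat_lit 572693916920))))) (T.h (T.h (T.h (P (nat_lit 0)) (T.h (M (nat_lit 305218250263)) (T.h (P (nat_lit 0)) (P (nat_lit 1653247816720))))) (T.h (P (nat_lit 0)) (T.h (T.h (P (nat_lit 0)) (P (nat_lit 5122933364104))) (P (nat_lit 0))))) (T.h (T.h (P (nat_lit 0)) (P (nat_lit 572693916920))) (T.h (T.h (T.h (P (nat_lit 0)) (P (nat_lit 1866869445608))) (P (nat_lit 0))) (P (nat_lit 0))))))) (T.h (P (nat_lit 0)) (T.h (T.h (T.h (T.h (P (nat_lit 0)) (T.h (M (nat_lit 9360471527)) (T.h (P (nat_lit 0)) (T.h (M (nat_lit 23672364079)) (T.h (P (nat_lit 0)) (M (nat_lit 3331843936535))))))) (T.h (P (nat_lit 0)) (T.h (T.h (P (nat_lit 0)) (T.h (P (nat_lit 572096909632)) (T.h (P (nat_lit 0)) (M (nat_lit 7415251323615))))) (T.h (P (nat_lit 0)) (T.h (T.h (P (nat_lit 0)) (M (nat_lit 2690376228259))) (P (nat_lit 0)))))))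 (T.h (T.h (P (nat_lit 0)) (T.h (T.h (P (nat_lit 16172441488)) (T.h (P (nat_lit 0)) (P (nat_lit 3629095590320)))) (T.h (P (nat_lit 0)) (M (nat_lit 211047236027))))) (T.h (T.h (T.h (P (nat_lit 0)) (T.h (P (nat_lit 572096909632)) (T.h (P (nat_lit 0)) (M (nat_lit 7415251323615))))) (T.h (P (nat_lit 0)) (T.h (T.h (P (nat_lit 0)) (M (nat_lit 4010700427703))) (P (nat_lit 0))))) (T.h (T.h (P (nat_lit 0)) (M (nat_lit 211047236027))) (T.h (T.h (T.h (P (nat_lit 0)) (M (nat_lit 2690376228259))) (P (nat_lit 0))) (P (nat_lit 0))))))) (P (nat_lit 0))))))))) (T.h (T.h (P (nat_lit 0)) (T.h (P (nat_lit 0)) (T.h (P (nat_lit 0)) (T.h (T.h (T.h (P (nat_lit 0)) (T.h (T.h (M (nat_lit 4969780999)) (T.h (P (nat_lit 0)) (T.h (P (nat_lit 1214694222136)) (T.h (P (nat_lit 0)) (P (nat_lit 9849105606784)))))) (T.h (P (nat_lit 0)) (T.h (T.h (M (nat_lit 331751658751)) (T.h (P (nat_lit 0)) (M (nat_lit 4292801547031))))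 (T.h (P (nat_lit 0)) (M (nat_lit 1497791512843))))))) (T.h (T.h (T.h (P (nat_lit 0)) (T.h (M (nat_lit 75900083999)) (T.h (P (nat_lit 0)) (P (nat_lit 519747400600))))) (T.h (P (nat_lit 0)) (T.h (T.h (P (nat_lit 0)) (M (nat_lit 3796833929079))) (P (nat_lit 0))))) (T.h (T.h (P (nat_lit 0)) (T.h (T.h (M (nat_lit 523143036703)) (T.h (P (nat_lit 0)) (P (nat_lit 12009138700500)))) (T.h (P (nat_lit 0)) (P (nat_lit 2661185111340))))) (T.h (T.h (T.h (P (nat_lit 0)) (P (nat_lit 45087131980))) (P (nat_lit 0))) (T.h (T.h (P (nat_lit 0)) (M (nat_lit 3197943813775))) (P (nat_lit 0))))))) (T.h (P (nat_lit 0)) (T.h (T.h (T.h (P (nat_lit 0)) (T.h (T.h (P (nat_lit 2652147060)) (T.h (P (nat_lit 0)) (T.h (M (nat_lit 500174276707)) (T.h (P (nat_lit 0)) (M (nat_lit 17621382355707)))))) (T.h (P (nat_lit 0)) (T.h (T.h (P (nat_lit 25906164588)) (T.h (P (nat_lit 0)) (M (nat_lit 1586278353211)))) (T.h (P (nat_lit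 0)) (P (nat_lit 1162931084968))))))) (T.h (T.h (T.h (P (nat_lit 0)) (T.h (M (nat_lit 44980099591)) (T.h (P (nat_lit 0)) (P (nat_lit 6681301972216))))) (T.h (P (nat_lit 0)) (T.h (T.h (P (nat_lit 0)) (M (nat_lit 2685019636531))) (P (nat_lit 0))))) (T.h (T.h (P (nat_lit 0)) (T.h (T.h (P (nat_lit 122928214852)) (T.h (P (nat_lit 0)) (M (nat_lit 19387731663467)))) (T.h (P (nat_lit 0)) (P (nat_lit 1016601546596))))) (T.h (T.h (T.h (P (nat_lit 0)) (M (nat_lit 2137163984451))) (P (nat_lit 0))) (T.h (T.h (P (nat_lit 0)) (P (nat_lit 4697621286184))) (P (nat_lit 0))))))) (P (nat_lit 0)))))))) et2_4))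
def et2_6 : T ℤ := (T.h (T.h (P (nat_lit 0)) (T.h (T.h (T.h (P (nat_lit 0)) (T.h (T.h (P (nat_lit 0)) (T.h (M (nat_lit 75900083999)) (T.h (P (nat_lit 0)) (P (nat_lit 45087131980))))) (T.h (P (nat_lit 0)) (T.h (T.h (P (nat_lit 0)) (P (nat_lit 519747400600))) (P (nat_lit 0)))))) (T.h (T.h (T.h (M (nat_lit 4969780999)) (T.h (P (nat_lit 0)) (T.h (M (nat_lit 523143036703)) (T.h (P (nat_lit 0)) (M (nat_lit 3197943813775)))))) (T.h (P (nat_lit 0)) (T.h (T.h (P (nat_lit 1214694222136)) (T.h (P (nat_lit 0)) (P (nat_lit 12009138700500)))) (T.h (P (nat_lit 0)) (P (nat_lit 9849105606784)))))) (T.h (T.h (P (nat_lit 0)) (T.h (T.h (P (nat_lit 0)) (M (nat_lit 3796833929079))) (P (nat_lit 0)))) (T.h (T.h (T.h (M (nat_lit 331751658751)) (T.h (P (nat_lit 0)) (P (nat_lit 2661185111340)))) (T.h (P (nat_lit 0)) (M (nat_lit 4292801547031)))) (T.h (P (nat_lit 0)) (M (nat_lit 1497791512843))))))) (T.h (P (nat_lit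 0)) (T.h (T.h (T.h (P (nat_lit 0)) (T.h (T.h (P (nat_lit 0)) (T.h (P (nat_lit 27918465432)) (T.h (P (nat_lit 0)) (P (nat_lit 3568673494828))))) (T.h (P (nat_lit 0)) (T.h (T.h (P (nat_lit 0)) (P (nat_lit 3568673494828))) (P (nat_lit 0)))))) (T.h (T.h (T.h (P (nat_lit 9875875648)) (T.h (P (nat_lit 0)) (T.h (M (nat_lit 55254576951)) (T.h (P (nat_lit 0)) (M (nat_lit 960569664659)))))) (T.h (P (nat_lit 0)) (T.h (T.h (M (nat_lit 55254576951)) (T.h (P (nat_lit 0)) (M (nat_lit 9622489921975)))) (T.h (P (nat_lit 0)) (M (nat_lit 960569664659)))))) (T.h (T.h (P (nat_lit 0)) (T.h (T.h (P (nat_lit 0)) (M (nat_lit 2239619283591))) (P (nat_lit 0)))) (T.h (T.h (T.h (M (nat_lit 259271167727)) (T.h (P (nat_lit 0)) (P (nat_lit 13573047050172)))) (T.h (P (nat_lit 0)) (P (nat_lit 13573047050172)))) (T.h (P (nat_lit 0)) (M (nat_lit 6119515008215))))))) (P (nat_lit 0)))))) (T.h (T.h (T.h (T.h (T.h (P (nat_lit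 2680174712)) (T.h (P (nat_lit 0)) (T.h (M (nat_lit 45000361295)) (T.h (P (nat_lit 0)) (M (nat_lit 379082682551)))))) (T.h (P (nat_lit 0)) (T.h (T.h (M (nat_lit 11088549247)) (T.h (P (nat_lit 0)) (P (nat_lit 1524327003460)))) (T.h (P (nat_lit 0)) (P (nat_lit 460464333316)))))) (T.h (T.h (P (nat_lit 0)) (T.h (T.h (P (nat_lit 0)) (T.h (M (nat_lit 841847126343)) (T.h (P (nat_lit 0)) (M (nat_lit 2398452836463))))) (T.h (P (nat_lit 0)) (T.h (T.h (P (nat_lit 0)) (P (nat_lit 4528311635240))) (P (nat_lit 0)))))) (T.h (T.h (T.h (P (nat_lit 35613048216)) (T.h (P (nat_lit 0)) (P (nat_lit 978556849500)))) (T.h (P (nat_lit 0)) (M (nat_lit 1120977254619)))) (T.h (T.h (P (nat_lit 0)) (T.h (T.h (P (nat_lit 0)) (P (nat_lit 5668152135152))) (P (nat_lit 0)))) (P (nat_lit 1029289782272)))))) (T.h (P (nat_lit 0)) (T.h (T.h (T.h (T.h (M (nat_lit 628073871)) (T.h (P (nat_lit 0)) (T.h (P (nat_lit 18258791624))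 (T.h (P (nat_lit 0)) (P (nat_lit 2205121530420)))))) (T.h (P (nat_lit 0)) (T.h (T.h (P (nat_lit 145382183552)) (T.h (P (nat_lit 0)) (P (nat_lit 343012245912)))) (T.h (P (nat_lit 0)) (P (nat_lit 3678571653360)))))) (T.h (T.h (P (nat_lit 0)) (T.h (T.h (P (nat_lit 0)) (T.h (P (nat_lit 672921709152)) (T.h (P (nat_lit 0)) (P (nat_lit 1311626810136))))) (T.h (P (nat_lit 0)) (T.h (T.h (P (nat_lit 0)) (M (nat_lit 6249469698175))) (P (nat_lit 0)))))) (T.h (T.h (T.h (P (nat_lit 18258791624)) (T.h (P (nat_lit 0)) (M (nat_lit 4444167020655)))) (T.h (P (nat_lit 0)) (P (nat_lit 343012245912)))) (T.h (T.h (P (nat_lit 0)) (T.h (T.h (P (nat_lit 0)) (P (nat_lit 1311626810136))) (P (nat_lit 0)))) (P (nat_lit 2205121530420)))))) (P (nat_lit 0))))) (T.h (T.h (P (nat_lit 0)) (T.h (T.h (T.h (P (nat_lit 0)) (T.h (T.h (P (nat_lit 0)) (T.h (M (nat_lit 44980099591)) (T.h (P (nat_lit 0)) (M (nat_lit 2137163984451)))))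 (T.h (P (nat_lit 0)) (T.h (T.h (P (nat_lit 0)) (P (nat_lit 6681301972216))) (P (nat_lit 0)))))) (T.h (T.h (T.h (P (nat_lit 2652147060)) (T.h (P (nat_lit 0)) (T.h (P (nat_lit 122928214852)) (T.h (P (nat_lit 0)) (P (nat_lit 4697621286184)))))) (T.h (P (nat_lit 0)) (T.h (T.h (M (nat_lit 500174276707)) (T.h (P (nat_lit 0)) (M (nat_lit 19387731663467)))) (T.h (P (nat_lit 0)) (M (nat_lit 17621382355707)))))) (T.h (T.h (P (nat_lit 0)) (T.h (T.h (P (nat_lit 0)) (M (nat_lit 2685019636531))) (P (nat_lit 0)))) (T.h (T.h (T.h (P (nat_lit 25906164588)) (T.h (P (nat_lit 0)) (P (nat_lit 1016601546596)))) (T.h (P (nat_lit 0)) (M (nat_lit 1586278353211)))) (T.h (P (nat_lit 0)) (P (nat_lit 1162931084968))))))) (P (nat_lit 0)))) (T.h (T.h (T.h (T.h (T.h (M (nat_lit 298700007)) (T.h (P (nat_lit 0)) (T.h (P (nat_lit 32302959092)) (T.h (P (nat_lit 0)) (P (nat_lit 384488094860)))))) (T.h (P (nat_lit 0)) (T.h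 (T.h (P (nat_lit 2615977588)) (T.h (P (nat_lit 0)) (P (nat_lit 590152993412)))) (T.h (P (nat_lit 0)) (M (nat_lit 493267360891)))))) (T.h (T.h (P (nat_lit 0)) (T.h (T.h (P (nat_lit 0)) (T.h (P (nat_lit 371398291448)) (T.h (P (nat_lit 0)) (M (nat_lit 4918431543615))))) (T.h (P (nat_lit 0)) (T.h (T.h (P (nat_lit 0)) (M (nat_lit 2057367325543))) (P (nat_lit 0)))))) (T.h (T.h (T.h (M (nat_lit 9639233259)) (T.h (P (nat_lit 0)) (P (nat_lit 122167519700)))) (T.h (P (nat_lit 0)) (M (nat_lit 741665873639)))) (T.h (T.h (P (nat_lit 0)) (T.h (T.h (P (nat_lit 0)) (M (nat_lit 4140585779743))) (P (nat_lit 0)))) (M (nat_lit 1218244403019)))))) (P (nat_lit 0))) (P (nat_lit 0))))))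
def et2_7 : T ℤ := (T.h (T.h (P (nat_lit 0)) (T.h (P (nat_lit 0)) (T.h (P (nat_lit 0)) (T.h (P (nat_lit 0)) (T.h (T.h (T.h (T.h (P (nat_lit 2680174712)) (T.h (P (nat_lit 0)) (T.h (M (nat_lit 11088549247)) (T.h (P (nat_lit 0)) (P (nat_lit 460464333316)))))) (T.h (P (nat_lit 0)) (T.h (T.h (M (nat_lit 45000361295)) (T.h (P (nat_lit 0)) (P (nat_lit 1524327003460)))) (T.h (P (nat_lit 0)) (M (nat_lit 379082682551)))))) (T.h (T.h (P (nat_lit 0)) (T.h (T.h (P (nat_lit 0)) (T.h (M (nat_lit 841847126343)) (T.h (P (nat_lit 0)) (P (nat_lit 4528311635240))))) (T.h (P (nat_lit 0)) (T.h (T.h (P (nat_lit 0)) (M (nat_lit 2398452836463))) (P (nat_lit 0)))))) (T.h (T.h (T.h (P (nat_lit 35613048216)) (T.h (P (nat_lit 0)) (M (nat_lit 1120977254619)))) (T.h (P (nat_lit 0)) (P (nat_lit 978556849500)))) (T.h (T.h (P (nat_lit 0)) (T.h (T.h (P (nat_lit 0)) (P (nat_lit 5668152135152))) (P (nat_lit 0)))) (P (nat_lit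 1029289782272)))))) (T.h (P (nat_lit 0)) (T.h (T.h (T.h (T.h (M (nat_lit 298700007)) (T.h (P (nat_lit 0)) (T.h (P (nat_lit 2615977588)) (T.h (P (nat_lit 0)) (M (nat_lit 493267360891)))))) (T.h (P (nat_lit 0)) (T.h (T.h (P (nat_lit 32302959092)) (T.h (P (nat_lit 0)) (P (nat_lit 590152993412)))) (T.h (P (nat_lit 0)) (P (nat_lit 384488094860)))))) (T.h (T.h (P (nat_lit 0)) (T.h (T.h (P (nat_lit 0)) (T.h (P (nat_lit 371398291448)) (T.h (P (nat_lit 0)) (M (nat_lit 2057367325543))))) (T.h (P (nat_lit 0)) (T.h (T.h (P (nat_lit 0)) (M (nat_lit 4918431543615))) (P (nat_lit 0)))))) (T.h (T.h (T.h (M (nat_lit 9639233259)) (T.h (P (nat_lit 0)) (M (nat_lit 741665873639)))) (T.h (P (nat_lit 0)) (P (nat_lit 122167519700)))) (T.h (T.h (P (nat_lit 0)) (T.h (T.h (P (nat_lit 0)) (M (nat_lit 4140585779743))) (P (nat_lit 0)))) (M (nat_lit 1218244403019)))))) (P (nat_lit 0))))))))) (T.h (T.h (P (nat_lit 0))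 (T.h (P (nat_lit 0)) (T.h (P (nat_lit 0)) (T.h (T.h (T.h (P (nat_lit 0)) (T.h (T.h (P (nat_lit 0)) (T.h (M (nat_lit 75900083999)) (T.h (P (nat_lit 0)) (P (nat_lit 519747400600))))) (T.h (P (nat_lit 0)) (T.h (T.h (P (nat_lit 0)) (P (nat_lit 45087131980))) (P (nat_lit 0)))))) (T.h (T.h (T.h (M (nat_lit 4969780999)) (T.h (P (nat_lit 0)) (T.h (P (nat_lit 1214694222136)) (T.h (P (nat_lit 0)) (P (nat_lit 9849105606784)))))) (T.h (P (nat_lit 0)) (T.h (T.h (M (nat_lit 523143036703)) (T.h (P (nat_lit 0)) (P (nat_lit 12009138700500)))) (T.h (P (nat_lit 0)) (M (nat_lit 3197943813775)))))) (T.h (T.h (P (nat_lit 0)) (T.h (T.h (P (nat_lit 0)) (M (nat_lit 3796833929079))) (P (nat_lit 0)))) (T.h (T.h (T.h (M (nat_lit 331751658751)) (T.h (P (nat_lit 0)) (M (nat_lit 4292801547031)))) (T.h (P (nat_lit 0)) (P (nat_lit 2661185111340)))) (T.h (P (nat_lit 0)) (M (nat_lit 1497791512843))))))) (T.h (P (nat_lit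 0)) (T.h (T.h (T.h (P (nat_lit 0)) (T.h (T.h (P (nat_lit 0)) (T.h (M (nat_lit 44980099591)) (T.h (P (nat_lit 0)) (P (nat_lit 6681301972216))))) (T.h (P (nat_lit 0)) (T.h (T.h (P (nat_lit 0)) (M (nat_lit 2137163984451))) (P (nat_lit 0)))))) (T.h (T.h (T.h (P (nat_lit 2652147060)) (T.h (P (nat_lit 0)) (T.h (M (nat_lit 500174276707)) (T.h (P (nat_lit 0)) (M (nat_lit 17621382355707)))))) (T.h (P (nat_lit 0)) (T.h (T.h (P (nat_lit 122928214852)) (T.h (P (nat_lit 0)) (M (nat_lit 19387731663467)))) (T.h (P (nat_lit 0)) (P (nat_lit 4697621286184)))))) (T.h (T.h (P (nat_lit 0)) (T.h (T.h (P (nat_lit 0)) (M (nat_lit 2685019636531))) (P (nat_lit 0)))) (T.h (T.h (T.h (P (nat_lit 25906164588)) (T.h (P (nat_lit 0)) (M (nat_lit 1586278353211)))) (T.h (P (nat_lit 0)) (P (nat_lit 1016601546596)))) (T.h (P (nat_lit 0)) (P (nat_lit 1162931084968))))))) (P (nat_lit 0)))))))) (T.h (T.h (P (nat_lit 0)) (T.h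 (P (nat_lit 0)) (T.h (T.h (T.h (T.h (P (nat_lit 3184853808)) (T.h (P (nat_lit 0)) (T.h (P (nat_lit 25265354288)) (T.h (P (nat_lit 0)) (P (nat_lit 275023613904)))))) (T.h (P (nat_lit 0)) (T.h (T.h (P (nat_lit 25265354288)) (T.h (P (nat_lit 0)) (M (nat_lit 2207813791639)))) (T.h (P (nat_lit 0)) (P (nat_lit 275023613904)))))) (T.h (T.h (P (nat_lit 0)) (T.h (T.h (P (nat_lit 0)) (T.h (P (nat_lit 1748426325168)) (T.h (P (nat_lit 0)) (P (nat_lit 10212772846736))))) (T.h (P (nat_lit 0)) (T.h (T.h (P (nat_lit 0)) (P (nat_lit 10212772846736))) (P (nat_lit 0)))))) (T.h (T.h (T.h (P (nat_lit 25265354288)) (T.h (P (nat_lit 0)) (M (nat_lit 2207813791639)))) (T.h (P (nat_lit 0)) (M (nat_lit 2207813791639)))) (T.h (T.h (P (nat_lit 0)) (T.h (T.h (P (nat_lit 0)) (P (nat_lit 10212772846736))) (P (nat_lit 0)))) (P (nat_lit 275023613904)))))) (T.h (P (nat_lit 0)) (T.h (T.h (T.h (T.h (M (nat_lit 628073871))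 (T.h (P (nat_lit 0)) (T.h (P (nat_lit 145382183552)) (T.h (P (nat_lit 0)) (P (nat_lit 3678571653360)))))) (T.h (P (nat_lit 0)) (T.h (T.h (P (nat_lit 18258791624)) (T.h (P (nat_lit 0)) (P (nat_lit 343012245912)))) (T.h (P (nat_lit 0)) (P (nat_lit 2205121530420)))))) (T.h (T.h (P (nat_lit 0)) (T.h (T.h (P (nat_lit 0)) (T.h (P (nat_lit 672921709152)) (T.h (P (nat_lit 0)) (M (nat_lit 6249469698175))))) (T.h (P (nat_lit 0)) (T.h (T.h (P (nat_lit 0)) (P (nat_lit 1311626810136))) (P (nat_lit 0)))))) (T.h (T.h (T.h (P (nat_lit 18258791624)) (T.h (P (nat_lit 0)) (P (nat_lit 343012245912)))) (T.h (P (nat_lit 0)) (M (nat_lit 4444167020655)))) (T.h (T.h (P (nat_lit 0)) (T.h (T.h (P (nat_lit 0)) (P (nat_lit 1311626810136))) (P (nat_lit 0)))) (P (nat_lit 2205121530420)))))) (P (nat_lit 0))))))) et2_6)))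
def et2_8 : T ℤ := (T.h (T.h (T.h (T.h (T.h (P (nat_lit 0)) (T.h (P (nat_lit 12821746288)) (T.h (P (nat_lit 0)) (T.h (P (nat_lit 292323560256)) (T.h (P (nat_lit 0)) (M (nat_lit 29797945639))))))) (T.h (P (nat_lit 0)) (T.h (T.h (P (nat_lit 0)) (T.h (M (nat_lit 523839170815)) (T.h (P (nat_lit 0)) (M (nat_lit 686984758775))))) (T.h (P (nat_lit 0)) (T.h (T.h (P (nat_lit 0)) (M (nat_lit 6940877814347))) (P (nat_lit 0))))))) (T.h (T.h (P (nat_lit 0)) (T.h (T.h (M (nat_lit 43951922967)) (T.h (P (nat_lit 0)) (P (nat_lit 1999046402624)))) (T.h (P (nat_lit 0)) (M (nat_lit 1470604015675))))) (T.h (T.h (T.h (P (nat_lit 0)) (T.h (M (nat_lit 523839170815)) (T.h (P (nat_lit 0)) (M (nat_lit 686984758775))))) (T.h (P (nat_lit 0)) (T.h (T.h (P (nat_lit 0)) (P (nat_lit 7244495536448))) (P (nat_lit 0))))) (T.h (T.h (P (nat_lit 0)) (M (nat_lit 1470604015675))) (T.h (T.h (T.h (P (nat_lit 0)) (M (nat_lit 6940877814347)))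 (P (nat_lit 0))) (P (nat_lit 0))))))) (T.h (P (nat_lit 0)) (T.h (T.h (T.h (T.h (P (nat_lit 0)) (T.h (P (nat_lit 9875875648)) (T.h (P (nat_lit 0)) (T.h (M (nat_lit 259271167727)) (T.h (P (nat_lit 0)) (M (nat_lit 6119515008215))))))) (T.h (P (nat_lit 0)) (T.h (T.h (P (nat_lit 0)) (T.h (M (nat_lit 55254576951)) (T.h (P (nat_lit 0)) (P (nat_lit 13573047050172))))) (T.h (P (nat_lit 0)) (T.h (T.h (P (nat_lit 0)) (M (nat_lit 960569664659))) (P (nat_lit 0))))))) (T.h (T.h (P (nat_lit 0)) (T.h (T.h (P (nat_lit 27918465432)) (T.h (P (nat_lit 0)) (M (nat_lit 2239619283591)))) (T.h (P (nat_lit 0)) (P (nat_lit 3568673494828))))) (T.h (T.h (T.h (P (nat_lit 0)) (T.h (M (nat_lit 55254576951)) (T.h (P (nat_lit 0)) (P (nat_lit 13573047050172))))) (T.h (P (nat_lit 0)) (T.h (T.h (P (nat_lit 0)) (M (nat_lit 9622489921975))) (P (nat_lit 0))))) (T.h (T.h (P (nat_lit 0)) (P (nat_lit 3568673494828))) (T.h (T.h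 (T.h (P (nat_lit 0)) (M (nat_lit 960569664659))) (P (nat_lit 0))) (P (nat_lit 0))))))) (P (nat_lit 0))))) (T.h (T.h (P (nat_lit 0)) (T.h (T.h (T.h (P (nat_lit 0)) (T.h (T.h (P (nat_lit 6851177112)) (T.h (P (nat_lit 0)) (T.h (P (nat_lit 973442461616)) (T.h (P (nat_lit 0)) (P (nat_lit 4200638400652)))))) (T.h (P (nat_lit 0)) (T.h (T.h (M (nat_lit 372812921791)) (T.h (P (nat_lit 0)) (M (nat_lit 8424250811779)))) (T.h (P (nat_lit 0)) (M (nat_lit 1462489621751))))))) (T.h (T.h (T.h (P (nat_lit 0)) (T.h (M (nat_lit 13528769495)) (T.h (P (nat_lit 0)) (M (nat_lit 2366299403767))))) (T.h (P (nat_lit 0)) (T.h (T.h (P (nat_lit 0)) (P (nat_lit 2845401642228))) (P (nat_lit 0))))) (T.h (T.h (P (nat_lit 0)) (T.h (T.h (M (nat_lit 298584986343)) (T.h (P (nat_lit 0)) (M (nat_lit 1112844873091)))) (T.h (P (nat_lit 0)) (M (nat_lit 6305722419823))))) (T.h (T.h (T.h (P (nat_lit 0)) (P (nat_lit 430843233740)))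 (P (nat_lit 0))) (T.h (T.h (P (nat_lit 0)) (M (nat_lit 9092864835515))) (P (nat_lit 0))))))) (P (nat_lit 0)))) (T.h (T.h (T.h (T.h (T.h (P (nat_lit 0)) (T.h (M (nat_lit 8191701379)) (T.h (P (nat_lit 0)) (T.h (M (nat_lit 172983551315)) (T.h (P (nat_lit 0)) (P (nat_lit 567315058724))))))) (T.h (P (nat_lit 0)) (T.h (T.h (P (nat_lit 0)) (T.h (P (nat_lit 447356513780)) (T.h (P (nat_lit 0)) (M (nat_lit 5395944540055))))) (T.h (P (nat_lit 0)) (T.h (T.h (P (nat_lit 0)) (P (nat_lit 6001452060508))) (P (nat_lit 0))))))) (T.h (T.h (P (nat_lit 0)) (T.h (T.h (P (nat_lit 36232832832)) (T.h (P (nat_lit 0)) (M (nat_lit 536721363199)))) (T.h (P (nat_lit 0)) (M (nat_lit 631081300799))))) (T.h (T.h (T.h (P (nat_lit 0)) (T.h (P (nat_lit 65467513820)) (T.h (P (nat_lit 0)) (M (nat_lit 362286535447))))) (T.h (P (nat_lit 0)) (T.h (T.h (P (nat_lit 0)) (M (nat_lit 10763926397675))) (P (nat_lit 0))))) (T.h (T.h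 (P (nat_lit 0)) (M (nat_lit 2626440235343))) (T.h (T.h (T.h (P (nat_lit 0)) (P (nat_lit 4306910776700))) (P (nat_lit 0))) (P (nat_lit 0))))))) (P (nat_lit 0))) (P (nat_lit 0)))))
def et2_9 : T ℤ := (T.h (T.h (P (nat_lit 0)) (T.h (P (nat_lit 0)) (T.h (T.h (T.h (T.h (P (nat_lit 0)) (T.h (M (nat_lit 4969780999)) (T.h (P (nat_lit 0)) (T.h (M (nat_lit 331751658751)) (T.h (P (nat_lit 0)) (M (nat_lit 1497791512843))))))) (T.h (P (nat_lit 0)) (T.h (T.h (P (nat_lit 0)) (T.h (M (nat_lit 523143036703)) (T.h (P (nat_lit 0)) (P (nat_lit 2661185111340))))) (T.h (P (nat_lit 0)) (T.h (T.h (P (nat_lit 0)) (M (nat_lit 3197943813775))) (P (nat_lit 0))))))) (T.h (T.h (P (nat_lit 0)) (T.h (T.h (M (nat_lit 75900083999)) (T.h (P (nat_lit 0)) (M (nat_lit 3796833929079)))) (T.h (P (nat_lit 0)) (P (nat_lit 45087131980))))) (T.h (T.h (T.h (P (nat_lit 0)) (T.h (P (nat_lit 1214694222136)) (T.h (P (nat_lit 0)) (M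 (nat_lit 4292801547031))))) (T.h (P (nat_lit 0)) (T.h (T.h (P (nat_lit 0)) (P (nat_lit 12009138700500))) (P (nat_lit 0))))) (T.h (T.h (P (nat_lit 0)) (P (nat_lit 519747400600))) (T.h (T.h (T.h (P (nat_lit 0)) (P (nat_lit 9849105606784))) (P (nat_lit 0))) (P (nat_lit 0))))))) (T.h (P (nat_lit 0)) (T.h (T.h (T.h (T.h (P (nat_lit 0)) (T.h (P (nat_lit 6851177112)) (T.h (P (nat_lit 0)) (T.h (M (nat_lit 372812921791)) (T.h (P (nat_lit 0)) (M (nat_lit 1462489621751))))))) (T.h (P (nat_lit 0)) (T.h (T.h (P (nat_lit 0)) (T.h (P (nat_lit 973442461616)) (T.h (P (nat_lit 0)) (M (nat_lit 8424250811779))))) (T.h (P (nat_lit 0)) (T.h (T.h (P (nat_lit 0)) (P (nat_lit 4200638400652))) (P (nat_lit 0))))))) (T.h (T.h (P (nat_lit 0)) (T.h (T.h (M (nat_lit 13528769495)) (T.h (P (nat_lit 0)) (P (nat_lit 2845401642228)))) (T.h (P (nat_lit 0)) (M (nat_lit 2366299403767))))) (T.h (T.h (T.h (P (nat_lit 0)) (T.h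 (M (nat_lit 298584986343)) (T.h (P (nat_lit 0)) (M (nat_lit 6305722419823))))) (T.h (P (nat_lit 0)) (T.h (T.h (P (nat_lit 0)) (M (nat_lit 1112844873091))) (P (nat_lit 0))))) (T.h (T.h (P (nat_lit 0)) (P (nat_lit 430843233740))) (T.h (T.h (T.h (P (nat_lit 0)) (M (nat_lit 9092864835515))) (P (nat_lit 0))) (P (nat_lit 0))))))) (P (nat_lit 0))))))) (T.h (T.h (P (nat_lit 0)) (T.h (T.h (T.h (P (nat_lit 0)) (T.h (T.h (M (nat_lit 4969780999)) (T.h (P (nat_lit 0)) (T.h (M (nat_lit 523143036703)) (T.h (P (nat_lit 0)) (M (nat_lit 3197943813775)))))) (T.h (P (nat_lit 0)) (T.h (T.h (M (nat_lit 331751658751)) (T.h (P (nat_lit 0)) (P (nat_lit 2661185111340)))) (T.h (P (nat_lit 0)) (M (nat_lit 1497791512843))))))) (T.h (T.h (T.h (P (nat_lit 0)) (T.h (M (nat_lit 75900083999)) (T.h (P (nat_lit 0)) (P (nat_lit 45087131980))))) (T.h (P (nat_lit 0)) (T.h (T.h (P (nat_lit 0)) (M (nat_lit 3796833929079))) (P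 (nat_lit 0))))) (T.h (T.h (P (nat_lit 0)) (T.h (T.h (P (nat_lit 1214694222136)) (T.h (P (nat_lit 0)) (P (nat_lit 12009138700500)))) (T.h (P (nat_lit 0)) (M (nat_lit 4292801547031))))) (T.h (T.h (T.h (P (nat_lit 0)) (P (nat_lit 519747400600))) (P (nat_lit 0))) (T.h (T.h (P (nat_lit 0)) (P (nat_lit 9849105606784))) (P (nat_lit 0))))))) (T.h (P (nat_lit 0)) (T.h (T.h (T.h (P (nat_lit 0)) (T.h (T.h (P (nat_lit 9875875648)) (T.h (P (nat_lit 0)) (T.h (M (nat_lit 55254576951)) (T.h (P (nat_lit 0)) (M (nat_lit 960569664659)))))) (T.h (P (nat_lit 0)) (T.h (T.h (M (nat_lit 259271167727)) (T.h (P (nat_lit 0)) (P (nat_lit 13573047050172)))) (T.h (P (nat_lit 0)) (M (nat_lit 6119515008215))))))) (T.h (T.h (T.h (P (nat_lit 0)) (T.h (P (nat_lit 27918465432)) (T.h (P (nat_lit 0)) (P (nat_lit 3568673494828))))) (T.h (P (nat_lit 0)) (T.h (T.h (P (nat_lit 0)) (M (nat_lit 2239619283591))) (P (nat_lit 0)))))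 (T.h (T.h (P (nat_lit 0)) (T.h (T.h (M (nat_lit 55254576951)) (T.h (P (nat_lit 0)) (M (nat_lit 9622489921975)))) (T.h (P (nat_lit 0)) (P (nat_lit 13573047050172))))) (T.h (T.h (T.h (P (nat_lit 0)) (P (nat_lit 3568673494828))) (P (nat_lit 0))) (T.h (T.h (P (nat_lit 0)) (M (nat_lit 960569664659))) (P (nat_lit 0))))))) (P (nat_lit 0)))))) et2_8))
def et2_10 : T ℤ := (T.h (T.h (P (nat_lit 0)) (T.h (T.h (T.h (P (nat_lit 0)) (T.h (T.h (P (nat_lit 0)) (T.h (P (nat_lit 76476434016)) (T.h (P (nat_lit 0)) (P (nat_lit 572693916920))))) (T.h (P (nat_lit 0)) (T.h (T.h (P (nat_lit 0)) (P (nat_lit 572693916920))) (P (nat_lit 0)))))) (T.h (T.h (T.h (P (nat_lit 1143768624)) (T.h (P (nat_lit 0)) (T.h (M (nat_lit 305218250263)) (T.h (P (nat_lit 0)) (P (nat_lit 1866869445608)))))) (T.h (P (nat_lit 0)) (T.h (T.h (M (nat_lit 305218250263)) (T.h (P (nat_lit 0)) (P (nat_lit 5122933364104)))) (T.h (P (nat_lit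 0)) (P (nat_lit 1866869445608)))))) (T.h (T.h (P (nat_lit 0)) (T.h (T.h (P (nat_lit 0)) (M (nat_lit 2248554882935))) (P (nat_lit 0)))) (T.h (T.h (T.h (P (nat_lit 131130145232)) (T.h (P (nat_lit 0)) (P (nat_lit 1653247816720)))) (T.h (P (nat_lit 0)) (P (nat_lit 1653247816720)))) (T.h (P (nat_lit 0)) (M (nat_lit 161960457207))))))) (T.h (P (nat_lit 0)) (T.h (T.h (T.h (P (nat_lit 0)) (T.h (T.h (P (nat_lit 0)) (T.h (M (nat_lit 13528769495)) (T.h (P (nat_lit 0)) (P (nat_lit 430843233740))))) (T.h (P (nat_lit 0)) (T.h (T.h (P (nat_lit 0)) (M (nat_lit 2366299403767))) (P (nat_lit 0)))))) (T.h (T.h (T.h (P (nat_lit 6851177112)) (T.h (P (nat_lit 0)) (T.h (M (nat_lit 298584986343)) (T.h (P (nat_lit 0)) (M (nat_lit 9092864835515)))))) (T.h (P (nat_lit 0)) (T.h (T.h (P (nat_lit 973442461616)) (T.h (P (nat_lit 0)) (M (nat_lit 1112844873091)))) (T.h (P (nat_lit 0)) (P (nat_lit 4200638400652)))))) (T.h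 (T.h (P (nat_lit 0)) (T.h (T.h (P (nat_lit 0)) (P (nat_lit 2845401642228))) (P (nat_lit 0)))) (T.h (T.h (T.h (M (nat_lit 372812921791)) (T.h (P (nat_lit 0)) (M (nat_lit 6305722419823)))) (T.h (P (nat_lit 0)) (M (nat_lit 8424250811779)))) (T.h (P (nat_lit 0)) (M (nat_lit 1462489621751))))))) (P (nat_lit 0)))))) (T.h (T.h (T.h (T.h (T.h (P (nat_lit 2680174712)) (T.h (P (nat_lit 0)) (T.h (M (nat_lit 45000361295)) (T.h (P (nat_lit 0)) (M (nat_lit 379082682551)))))) (T.h (P (nat_lit 0)) (T.h (T.h (P (nat_lit 35613048216)) (T.h (P (nat_lit 0)) (P (nat_lit 978556849500)))) (T.h (P (nat_lit 0)) (P (nat_lit 1029289782272)))))) (T.h (T.h (P (nat_lit 0)) (T.h (T.h (P (nat_lit 0)) (T.h (M (nat_lit 841847126343)) (T.h (P (nat_lit 0)) (M (nat_lit 2398452836463))))) (T.h (P (nat_lit 0)) (T.h (T.h (P (nat_lit 0)) (P (nat_lit 5668152135152))) (P (nat_lit 0)))))) (T.h (T.h (T.h (M (nat_lit 11088549247))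 (T.h (P (nat_lit 0)) (P (nat_lit 1524327003460)))) (T.h (P (nat_lit 0)) (M (nat_lit 1120977254619)))) (T.h (T.h (P (nat_lit 0)) (T.h (T.h (P (nat_lit 0)) (P (nat_lit 4528311635240))) (P (nat_lit 0)))) (P (nat_lit 460464333316)))))) (T.h (P (nat_lit 0)) (T.h (T.h (T.h (T.h (M (nat_lit 628073871)) (T.h (P (nat_lit 0)) (T.h (P (nat_lit 18258791624)) (T.h (P (nat_lit 0)) (P (nat_lit 2205121530420)))))) (T.h (P (nat_lit 0)) (T.h (T.h (P (nat_lit 18258791624)) (T.h (P (nat_lit 0)) (M (nat_lit 4444167020655)))) (T.h (P (nat_lit 0)) (P (nat_lit 2205121530420)))))) (T.h (T.h (P (nat_lit 0)) (T.h (T.h (P (nat_lit 0)) (T.h (P (nat_lit 672921709152)) (T.h (P (nat_lit 0)) (P (nat_lit 1311626810136))))) (T.h (P (nat_lit 0)) (T.h (T.h (P (nat_lit 0)) (P (nat_lit 1311626810136))) (P (nat_lit 0)))))) (T.h (T.h (T.h (P (nat_lit 145382183552)) (T.h (P (nat_lit 0)) (P (nat_lit 343012245912)))) (T.h (P (nat_lit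 0)) (P (nat_lit 343012245912)))) (T.h (T.h (P (nat_lit 0)) (T.h (T.h (P (nat_lit 0)) (M (nat_lit 6249469698175))) (P (nat_lit 0)))) (P (nat_lit 3678571653360)))))) (P (nat_lit 0))))) (T.h (T.h (P (nat_lit 0)) (T.h (T.h (T.h (P (nat_lit 0)) (T.h (T.h (P (nat_lit 0)) (T.h (M (nat_lit 13528769495)) (T.h (P (nat_lit 0)) (M (nat_lit 2366299403767))))) (T.h (P (nat_lit 0)) (T.h (T.h (P (nat_lit 0)) (P (nat_lit 430843233740))) (P (nat_lit 0)))))) (T.h (T.h (T.h (P (nat_lit 6851177112)) (T.h (P (nat_lit 0)) (T.h (P (nat_lit 973442461616)) (T.h (P (nat_lit 0)) (P (nat_lit 4200638400652)))))) (T.h (P (nat_lit 0)) (T.h (T.h (M (nat_lit 298584986343)) (T.h (P (nat_lit 0)) (M (nat_lit 1112844873091)))) (T.h (P (nat_lit 0)) (M (nat_lit 9092864835515)))))) (T.h (T.h (P (nat_lit 0)) (T.h (T.h (P (nat_lit 0)) (P (nat_lit 2845401642228))) (P (nat_lit 0)))) (T.h (T.h (T.h (M (nat_lit 372812921791)) (T.h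 (P (nat_lit 0)) (M (nat_lit 8424250811779)))) (T.h (P (nat_lit 0)) (M (nat_lit 6305722419823)))) (T.h (P (nat_lit 0)) (M (nat_lit 1462489621751))))))) (P (nat_lit 0)))) (T.h (T.h (T.h (T.h (T.h (P (nat_lit 331733368)) (T.h (P (nat_lit 0)) (T.h (P (nat_lit 11829247208)) (T.h (P (nat_lit 0)) (P (nat_lit 213421177744)))))) (T.h (P (nat_lit 0)) (T.h (T.h (M (nat_lit 34577310043)) (T.h (P (nat_lit 0)) (P (nat_lit 197081733084)))) (T.h (P (nat_lit 0)) (M (nat_lit 971378759595)))))) (T.h (T.h (P (nat_lit 0)) (T.h (T.h (P (nat_lit 0)) (T.h (P (nat_lit 388007340320)) (T.h (P (nat_lit 0)) (P (nat_lit 6522227247856))))) (T.h (P (nat_lit 0)) (T.h (T.h (P (nat_lit 0)) (P (nat_lit 5721106095512))) (P (nat_lit 0)))))) (T.h (T.h (T.h (M (nat_lit 34577310043)) (T.h (P (nat_lit 0)) (P (nat_lit 197081733084)))) (T.h (P (nat_lit 0)) (M (nat_lit 122118205871)))) (T.h (T.h (P (nat_lit 0)) (T.h (T.h (P (nat_lit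 0)) (P (nat_lit 5721106095512))) (P (nat_lit 0)))) (M (nat_lit 971378759595)))))) (P (nat_lit 0))) (P (nat_lit 0))))))
def et2_11 : T ℤ := (T.h (T.h (T.h (T.h (T.h (P (nat_lit 0)) (T.h (M (nat_lit 1970515551)) (T.h (P (nat_lit 0)) (T.h (P (nat_lit 3146768132)) (T.h (P (nat_lit 0)) (M (nat_lit 52707726115))))))) (T.h (P (nat_lit 0)) (T.h (T.h (P (nat_lit 0)) (T.h (P (nat_lit 131077471608)) (T.h (P (nat_lit 0)) (M (nat_lit 1814749911415))))) (T.h (P (nat_lit 0)) (T.h (T.h (P (nat_lit 0)) (M (nat_lit 75598789219))) (P (nat_lit 0))))))) (T.h (T.h (P (nat_lit 0)) (T.h (T.h (P (nat_lit 75339200208)) (T.h (P (nat_lit 0)) (P (nat_lit 1718058335148)))) (T.h (P (nat_lit 0)) (P (nat_lit 749338276464))))) (T.h (T.h (T.h (P (nat_lit 0)) (T.h (M (nat_lit 466379459231)) (T.h (P (nat_lit 0)) (P (nat_lit 540234434244))))) (T.h (P (nat_lit 0)) (T.h (T.h (P (nat_lit 0)) (P (nat_lit 5843225923720))) (P (nat_lit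 0))))) (T.h (T.h (P (nat_lit 0)) (M (nat_lit 319886280563))) (T.h (T.h (T.h (P (nat_lit 0)) (P (nat_lit 190488409680))) (P (nat_lit 0))) (P (nat_lit 0))))))) (T.h (P (nat_lit 0)) (T.h (T.h (T.h (T.h (P (nat_lit 0)) (T.h (P (nat_lit 2652147060)) (T.h (P (nat_lit 0)) (T.h (P (nat_lit 25906164588)) (T.h (P (nat_lit 0)) (P (nat_lit 1162931084968))))))) (T.h (P (nat_lit 0)) (T.h (T.h (P (nat_lit 0)) (T.h (P (nat_lit 122928214852)) (T.h (P (nat_lit 0)) (P (nat_lit 1016601546596))))) (T.h (P (nat_lit 0)) (T.h (T.h (P (nat_lit 0)) (P (nat_lit 4697621286184))) (P (nat_lit 0))))))) (T.h (T.h (P (nat_lit 0)) (T.h (T.h (M (nat_lit 44980099591)) (T.h (P (nat_lit 0)) (M (nat_lit 2685019636531)))) (T.h (P (nat_lit 0)) (M (nat_lit 2137163984451))))) (T.h (T.h (T.h (P (nat_lit 0)) (T.h (M (nat_lit 500174276707)) (T.h (P (nat_lit 0)) (M (nat_lit 1586278353211))))) (T.h (P (nat_lit 0)) (T.h (T.h (P (nat_lit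 0)) (M (nat_lit 19387731663467))) (P (nat_lit 0))))) (T.h (T.h (P (nat_lit 0)) (P (nat_lit 6681301972216))) (T.h (T.h (T.h (P (nat_lit 0)) (M (nat_lit 17621382355707))) (P (nat_lit 0))) (P (nat_lit 0))))))) (P (nat_lit 0))))) (T.h (T.h (P (nat_lit 0)) (T.h (T.h (T.h (P (nat_lit 0)) (T.h (T.h (P (nat_lit 2652147060)) (T.h (P (nat_lit 0)) (T.h (P (nat_lit 122928214852)) (T.h (P (nat_lit 0)) (P (nat_lit 4697621286184)))))) (T.h (P (nat_lit 0)) (T.h (T.h (P (nat_lit 25906164588)) (T.h (P (nat_lit 0)) (P (nat_lit 1016601546596)))) (T.h (P (nat_lit 0)) (P (nat_lit 1162931084968))))))) (T.h (T.h (T.h (P (nat_lit 0)) (T.h (M (nat_lit 44980099591)) (T.h (P (nat_lit 0)) (M (nat_lit 2137163984451))))) (T.h (P (nat_lit 0)) (T.h (T.h (P (nat_lit 0)) (M (nat_lit 2685019636531))) (P (nat_lit 0))))) (T.h (T.h (P (nat_lit 0)) (T.h (T.h (M (nat_lit 500174276707)) (T.h (P (nat_lit 0)) (M (nat_lit 19387731663467))))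 (T.h (P (nat_lit 0)) (M (nat_lit 1586278353211))))) (T.h (T.h (T.h (P (nat_lit 0)) (P (nat_lit 6681301972216))) (P (nat_lit 0))) (T.h (T.h (P (nat_lit 0)) (M (nat_lit 17621382355707))) (P (nat_lit 0))))))) (P (nat_lit 0)))) (T.h (T.h (T.h (T.h (T.h (P (nat_lit 0)) (T.h (M (nat_lit 8191701379)) (T.h (P (nat_lit 0)) (T.h (M (nat_lit 172983551315)) (T.h (P (nat_lit 0)) (P (nat_lit 567315058724))))))) (T.h (P (nat_lit 0)) (T.h (T.h (P (nat_lit 0)) (T.h (P (nat_lit 65467513820)) (T.h (P (nat_lit 0)) (M (nat_lit 362286535447))))) (T.h (P (nat_lit 0)) (T.h (T.h (P (nat_lit 0)) (P (nat_lit 4306910776700))) (P (nat_lit 0))))))) (T.h (T.h (P (nat_lit 0)) (T.h (T.h (P (nat_lit 36232832832)) (T.h (P (nat_lit 0)) (M (nat_lit 536721363199)))) (T.h (P (nat_lit 0)) (M (nat_lit 2626440235343))))) (T.h (T.h (T.h (P (nat_lit 0)) (T.h (P (nat_lit 447356513780)) (T.h (P (nat_lit 0)) (M (nat_lit 5395944540055)))))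 (T.h (P (nat_lit 0)) (T.h (T.h (P (nat_lit 0)) (M (nat_lit 10763926397675))) (P (nat_lit 0))))) (T.h (T.h (P (nat_lit 0)) (M (nat_lit 631081300799))) (T.h (T.h (T.h (P (nat_lit 0)) (P (nat_lit 6001452060508))) (P (nat_lit 0))) (P (nat_lit 0))))))) (P (nat_lit 0))) (P (nat_lit 0)))))
def et2_12 : T ℤ := (T.h (T.h (T.h (T.h (T.h (T.h (P (nat_lit 1603955560)) (T.h (P (nat_lit 0)) (T.h (P (nat_lit 7653077972)) (T.h (P (nat_lit 0)) (P (nat_lit 92505666796)))))) (T.h (P (nat_lit 0)) (T.h (T.h (P (nat_lit 7653077972)) (T.h (P (nat_lit 0)) (P (nat_lit 187070317368)))) (T.h (P (nat_lit 0)) (P (nat_lit 92505666796)))))) (T.h (T.h (P (nat_lit 0)) (T.h (T.h (P (nat_lit 0)) (T.h (P (nat_lit 93279851520)) (T.h (P (nat_lit 0)) (M (nat_lit 272982140567))))) (T.h (P (nat_lit 0)) (T.h (T.h (P (nat_lit 0)) (M (nat_lit 272982140567))) (P (nat_lit 0)))))) (T.h (T.h (T.h (P (nat_lit 25555680104)) (T.h (P (nat_lit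 0)) (P (nat_lit 574357430588)))) (T.h (P (nat_lit 0)) (P (nat_lit 574357430588)))) (T.h (T.h (P (nat_lit 0)) (T.h (T.h (P (nat_lit 0)) (P (nat_lit 1257393744448))) (P (nat_lit 0)))) (M (nat_lit 166033257367)))))) (T.h (P (nat_lit 0)) (T.h (T.h (T.h (T.h (M (nat_lit 298700007)) (T.h (P (nat_lit 0)) (T.h (M (nat_lit 9639233259)) (T.h (P (nat_lit 0)) (M (nat_lit 1218244403019)))))) (T.h (P (nat_lit 0)) (T.h (T.h (P (nat_lit 32302959092)) (T.h (P (nat_lit 0)) (P (nat_lit 122167519700)))) (T.h (P (nat_lit 0)) (P (nat_lit 384488094860)))))) (T.h (T.h (P (nat_lit 0)) (T.h (T.h (P (nat_lit 0)) (T.h (P (nat_lit 371398291448)) (T.h (P (nat_lit 0)) (M (nat_lit 4140585779743))))) (T.h (P (nat_lit 0)) (T.h (T.h (P (nat_lit 0)) (M (nat_lit 4918431543615))) (P (nat_lit 0)))))) (T.h (T.h (T.h (P (nat_lit 2615977588)) (T.h (P (nat_lit 0)) (M (nat_lit 741665873639)))) (T.h (P (nat_lit 0)) (P (nat_lit 590152993412))))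 (T.h (T.h (P (nat_lit 0)) (T.h (T.h (P (nat_lit 0)) (M (nat_lit 2057367325543))) (P (nat_lit 0)))) (M (nat_lit 493267360891)))))) (P (nat_lit 0))))) (T.h (T.h (P (nat_lit 0)) (T.h (T.h (T.h (P (nat_lit 0)) (T.h (T.h (P (nat_lit 0)) (T.h (P (nat_lit 16172441488)) (T.h (P (nat_lit 0)) (M (nat_lit 211047236027))))) (T.h (P (nat_lit 0)) (T.h (T.h (P (nat_lit 0)) (M (nat_lit 211047236027))) (P (nat_lit 0)))))) (T.h (T.h (T.h (M (nat_lit 9360471527)) (T.h (P (nat_lit 0)) (T.h (P (nat_lit 572096909632)) (T.h (P (nat_lit 0)) (M (nat_lit 2690376228259)))))) (T.h (P (nat_lit 0)) (T.h (T.h (P (nat_lit 572096909632)) (T.h (P (nat_lit 0)) (M (nat_lit 4010700427703)))) (T.h (P (nat_lit 0)) (M (nat_lit 2690376228259)))))) (T.h (T.h (P (nat_lit 0)) (T.h (T.h (P (nat_lit 0)) (P (nat_lit 3629095590320))) (P (nat_lit 0)))) (T.h (T.h (T.h (M (nat_lit 23672364079)) (T.h (P (nat_lit 0)) (M (nat_lit 7415251323615))))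 (T.h (P (nat_lit 0)) (M (nat_lit 7415251323615)))) (T.h (P (nat_lit 0)) (M (nat_lit 3331843936535))))))) (P (nat_lit 0)))) (T.h (T.h (T.h (T.h (T.h (M (nat_lit 298700007)) (T.h (P (nat_lit 0)) (T.h (P (nat_lit 32302959092)) (T.h (P (nat_lit 0)) (P (nat_lit 384488094860)))))) (T.h (P (nat_lit 0)) (T.h (T.h (M (nat_lit 9639233259)) (T.h (P (nat_lit 0)) (P (nat_lit 122167519700)))) (T.h (P (nat_lit 0)) (M (nat_lit 1218244403019)))))) (T.h (T.h (P (nat_lit 0)) (T.h (T.h (P (nat_lit 0)) (T.h (P (nat_lit 371398291448)) (T.h (P (nat_lit 0)) (M (nat_lit 4918431543615))))) (T.h (P (nat_lit 0)) (T.h (T.h (P (nat_lit 0)) (M (nat_lit 4140585779743))) (P (nat_lit 0)))))) (T.h (T.h (T.h (P (nat_lit 2615977588)) (T.h (P (nat_lit 0)) (P (nat_lit 590152993412)))) (T.h (P (nat_lit 0)) (M (nat_lit 741665873639)))) (T.h (T.h (P (nat_lit 0)) (T.h (T.h (P (nat_lit 0)) (M (nat_lit 2057367325543))) (P (nat_lit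 0)))) (M (nat_lit 493267360891)))))) (P (nat_lit 0))) (P (nat_lit 0))))) (T.h (T.h (T.h (P (nat_lit 0)) (T.h (T.h (T.h (P (nat_lit 0)) (T.h (T.h (P (nat_lit 2951061260)) (T.h (P (nat_lit 0)) (T.h (M (nat_lit 283295707023)) (T.h (P (nat_lit 0)) (P (nat_lit 580949795848)))))) (T.h (P (nat_lit 0)) (T.h (T.h (P (nat_lit 4529745272)) (T.h (P (nat_lit 0)) (P (nat_lit 956610043260)))) (T.h (P (nat_lit 0)) (M (nat_lit 96907157475))))))) (T.h (T.h (T.h (P (nat_lit 0)) (T.h (M (nat_lit 60550621783)) (T.h (P (nat_lit 0)) (M (nat_lit 740862698847))))) (T.h (P (nat_lit 0)) (T.h (T.h (P (nat_lit 0)) (M (nat_lit 699749761327))) (P (nat_lit 0))))) (T.h (T.h (P (nat_lit 0)) (T.h (T.h (P (nat_lit 328254329544)) (T.h (P (nat_lit 0)) (M (nat_lit 3101068033991)))) (T.h (P (nat_lit 0)) (M (nat_lit 1551468644751))))) (T.h (T.h (T.h (P (nat_lit 0)) (M (nat_lit 172620489695))) (P (nat_lit 0))) (T.h (T.h (P (nat_lit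 0)) (M (nat_lit 176729111803))) (P (nat_lit 0))))))) (P (nat_lit 0)))) (T.h (T.h (T.h (T.h (T.h (P (nat_lit 0)) (T.h (P (nat_lit 2951061260)) (T.h (P (nat_lit 0)) (T.h (P (nat_lit 4529745272)) (T.h (P (nat_lit 0)) (M (nat_lit 96907157475))))))) (T.h (P (nat_lit 0)) (T.h (T.h (P (nat_lit 0)) (T.h (M (nat_lit 283295707023)) (T.h (P (nat_lit 0)) (P (nat_lit 956610043260))))) (T.h (P (nat_lit 0)) (T.h (T.h (P (nat_lit 0)) (P (nat_lit 580949795848))) (P (nat_lit 0))))))) (T.h (T.h (P (nat_lit 0)) (T.h (T.h (M (nat_lit 60550621783)) (T.h (P (nat_lit 0)) (M (nat_lit 699749761327)))) (T.h (P (nat_lit 0)) (M (nat_lit 740862698847))))) (T.h (T.h (T.h (P (nat_lit 0)) (T.h (P (nat_lit 328254329544)) (T.h (P (nat_lit 0)) (M (nat_lit 1551468644751))))) (T.h (P (nat_lit 0)) (T.h (T.h (P (nat_lit 0)) (M (nat_lit 3101068033991))) (P (nat_lit 0))))) (T.h (T.h (P (nat_lit 0)) (M (nat_lit 172620489695)))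 (T.h (T.h (T.h (P (nat_lit 0)) (M (nat_lit 176729111803))) (P (nat_lit 0))) (P (nat_lit 0))))))) (P (nat_lit 0))) (P (nat_lit 0)))) (T.h (T.h (T.h (T.h (T.h (T.h (M (nat_lit 493484815)) (T.h (P (nat_lit 0)) (T.h (M (nat_lit 9665647363)) (T.h (P (nat_lit 0)) (M (nat_lit 112984121875)))))) (T.h (P (nat_lit 0)) (T.h (T.h (M (nat_lit 9665647363)) (T.h (P (nat_lit 0)) (M (nat_lit 45220733639)))) (T.h (P (nat_lit 0)) (M (nat_lit 112984121875)))))) (T.h (T.h (P (nat_lit 0)) (T.h (T.h (P (nat_lit 0)) (T.h (M (nat_lit 109595209919)) (T.h (P (nat_lit 0)) (P (nat_lit 366072514168))))) (T.h (P (nat_lit 0)) (T.h (T.h (P (nat_lit 0)) (P (nat_lit 366072514168))) (P (nat_lit 0)))))) (T.h (T.h (T.h (M (nat_lit 26520115127)) (T.h (P (nat_lit 0)) (M (nat_lit 534185516711)))) (T.h (P (nat_lit 0)) (M (nat_lit 534185516711)))) (T.h (T.h (P (nat_lit 0)) (T.h (T.h (P (nat_lit 0)) (M (nat_lit 990743322655)))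 (P (nat_lit 0)))) (P (nat_lit 93770610360)))))) (P (nat_lit 0))) (P (nat_lit 0))) (P (nat_lit 0)))))
def et2_13 : T ℤ := (T.h (T.h (T.h (P (nat_lit 0)) (T.h (P (nat_lit 0)) (T.h (P (nat_lit 0)) (T.h (T.h (T.h (P (nat_lit 0)) (T.h (T.h (P (nat_lit 12821746288)) (T.h (P (nat_lit 0)) (T.h (M (nat_lit 523839170815)) (T.h (P (nat_lit 0)) (M (nat_lit 6940877814347)))))) (T.h (P (nat_lit 0)) (T.h (T.h (P (nat_lit 292323560256)) (T.h (P (nat_lit 0)) (M (nat_lit 686984758775)))) (T.h (P (nat_lit 0)) (M (nat_lit 29797945639))))))) (T.h (T.h (T.h (P (nat_lit 0)) (T.h (M (nat_lit 43951922967)) (T.h (P (nat_lit 0)) (M (nat_lit 1470604015675))))) (T.h (P (nat_lit 0)) (T.h (T.h (P (nat_lit 0)) (P (nat_lit 1999046402624))) (P (nat_lit 0))))) (T.h (T.h (P (nat_lit 0)) (T.h (T.h (M (nat_lit 523839170815)) (T.h (P (nat_lit 0)) (P (nat_lit 7244495536448)))) (T.h (P (nat_lit 0)) (M (nat_lit 686984758775)))))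 (T.h (T.h (T.h (P (nat_lit 0)) (M (nat_lit 1470604015675))) (P (nat_lit 0))) (T.h (T.h (P (nat_lit 0)) (M (nat_lit 6940877814347))) (P (nat_lit 0))))))) (T.h (P (nat_lit 0)) (T.h (T.h (T.h (P (nat_lit 0)) (T.h (T.h (M (nat_lit 8191701379)) (T.h (P (nat_lit 0)) (T.h (P (nat_lit 447356513780)) (T.h (P (nat_lit 0)) (P (nat_lit 6001452060508)))))) (T.h (P (nat_lit 0)) (T.h (T.h (M (nat_lit 172983551315)) (T.h (P (nat_lit 0)) (M (nat_lit 5395944540055)))) (T.h (P (nat_lit 0)) (P (nat_lit 567315058724))))))) (T.h (T.h (T.h (P (nat_lit 0)) (T.h (P (nat_lit 36232832832)) (T.h (P (nat_lit 0)) (M (nat_lit 631081300799))))) (T.h (P (nat_lit 0)) (T.h (T.h (P (nat_lit 0)) (M (nat_lit 536721363199))) (P (nat_lit 0))))) (T.h (T.h (P (nat_lit 0)) (T.h (T.h (P (nat_lit 65467513820)) (T.h (P (nat_lit 0)) (M (nat_lit 10763926397675)))) (T.h (P (nat_lit 0)) (M (nat_lit 362286535447))))) (T.h (T.h (T.h (P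 (nat_lit 0)) (M (nat_lit 2626440235343))) (P (nat_lit 0))) (T.h (T.h (P (nat_lit 0)) (P (nat_lit 4306910776700))) (P (nat_lit 0))))))) (P (nat_lit 0)))))))) et2_9) (T.h (T.h (T.h (P (nat_lit 0)) (T.h (P (nat_lit 0)) (T.h (T.h (T.h (T.h (P (nat_lit 2680174712)) (T.h (P (nat_lit 0)) (T.h (P (nat_lit 35613048216)) (T.h (P (nat_lit 0)) (P (nat_lit 1029289782272)))))) (T.h (P (nat_lit 0)) (T.h (T.h (M (nat_lit 45000361295)) (T.h (P (nat_lit 0)) (P (nat_lit 978556849500)))) (T.h (P (nat_lit 0)) (M (nat_lit 379082682551)))))) (T.h (T.h (P (nat_lit 0)) (T.h (T.h (P (nat_lit 0)) (T.h (M (nat_lit 841847126343)) (T.h (P (nat_lit 0)) (P (nat_lit 5668152135152))))) (T.h (P (nat_lit 0)) (T.h (T.h (P (nat_lit 0)) (M (nat_lit 2398452836463))) (P (nat_lit 0)))))) (T.h (T.h (T.h (M (nat_lit 11088549247)) (T.h (P (nat_lit 0)) (M (nat_lit 1120977254619)))) (T.h (P (nat_lit 0)) (P (nat_lit 1524327003460))))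 (T.h (T.h (P (nat_lit 0)) (T.h (T.h (P (nat_lit 0)) (P (nat_lit 4528311635240))) (P (nat_lit 0)))) (P (nat_lit 460464333316)))))) (T.h (P (nat_lit 0)) (T.h (T.h (T.h (T.h (P (nat_lit 331733368)) (T.h (P (nat_lit 0)) (T.h (M (nat_lit 34577310043)) (T.h (P (nat_lit 0)) (M (nat_lit 971378759595)))))) (T.h (P (nat_lit 0)) (T.h (T.h (P (nat_lit 11829247208)) (T.h (P (nat_lit 0)) (P (nat_lit 197081733084)))) (T.h (P (nat_lit 0)) (P (nat_lit 213421177744)))))) (T.h (T.h (P (nat_lit 0)) (T.h (T.h (P (nat_lit 0)) (T.h (P (nat_lit 388007340320)) (T.h (P (nat_lit 0)) (P (nat_lit 5721106095512))))) (T.h (P (nat_lit 0)) (T.h (T.h (P (nat_lit 0)) (P (nat_lit 6522227247856))) (P (nat_lit 0)))))) (T.h (T.h (T.h (M (nat_lit 34577310043)) (T.h (P (nat_lit 0)) (M (nat_lit 122118205871)))) (T.h (P (nat_lit 0)) (P (nat_lit 197081733084)))) (T.h (T.h (P (nat_lit 0)) (T.h (T.h (P (nat_lit 0)) (P (nat_lit 5721106095512)))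 (P (nat_lit 0)))) (M (nat_lit 971378759595)))))) (P (nat_lit 0))))))) et2_10) (T.h (T.h (T.h (P (nat_lit 0)) (T.h (T.h (T.h (P (nat_lit 0)) (T.h (T.h (M (nat_lit 1970515551)) (T.h (P (nat_lit 0)) (T.h (P (nat_lit 131077471608)) (T.h (P (nat_lit 0)) (M (nat_lit 75598789219)))))) (T.h (P (nat_lit 0)) (T.h (T.h (P (nat_lit 3146768132)) (T.h (P (nat_lit 0)) (M (nat_lit 1814749911415)))) (T.h (P (nat_lit 0)) (M (nat_lit 52707726115))))))) (T.h (T.h (T.h (P (nat_lit 0)) (T.h (P (nat_lit 75339200208)) (T.h (P (nat_lit 0)) (P (nat_lit 749338276464))))) (T.h (P (nat_lit 0)) (T.h (T.h (P (nat_lit 0)) (P (nat_lit 1718058335148))) (P (nat_lit 0))))) (T.h (T.h (P (nat_lit 0)) (T.h (T.h (M (nat_lit 466379459231)) (T.h (P (nat_lit 0)) (P (nat_lit 5843225923720)))) (T.h (P (nat_lit 0)) (P (nat_lit 540234434244))))) (T.h (T.h (T.h (P (nat_lit 0)) (M (nat_lit 319886280563))) (P (nat_lit 0))) (T.h (T.h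 (P (nat_lit 0)) (P (nat_lit 190488409680))) (P (nat_lit 0))))))) (T.h (P (nat_lit 0)) (T.h (T.h (T.h (P (nat_lit 0)) (T.h (T.h (M (nat_lit 8191701379)) (T.h (P (nat_lit 0)) (T.h (P (nat_lit 65467513820)) (T.h (P (nat_lit 0)) (P (nat_lit 4306910776700)))))) (T.h (P (nat_lit 0)) (T.h (T.h (M (nat_lit 172983551315)) (T.h (P (nat_lit 0)) (M (nat_lit 362286535447)))) (T.h (P (nat_lit 0)) (P (nat_lit 567315058724))))))) (T.h (T.h (T.h (P (nat_lit 0)) (T.h (P (nat_lit 36232832832)) (T.h (P (nat_lit 0)) (M (nat_lit 2626440235343))))) (T.h (P (nat_lit 0)) (T.h (T.h (P (nat_lit 0)) (M (nat_lit 536721363199))) (P (nat_lit 0))))) (T.h (T.h (P (nat_lit 0)) (T.h (T.h (P (nat_lit 447356513780)) (T.h (P (nat_lit 0)) (M (nat_lit 10763926397675)))) (T.h (P (nat_lit 0)) (M (nat_lit 5395944540055))))) (T.h (T.h (T.h (P (nat_lit 0)) (M (nat_lit 631081300799))) (P (nat_lit 0))) (T.h (T.h (P (nat_lit 0)) (P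 (nat_lit 6001452060508))) (P (nat_lit 0))))))) (P (nat_lit 0)))))) et2_11) et2_12)))

def t2 : T ℤ := (T.h et2_2 (T.h (T.h (T.h (P (nat_lit 0)) (T.h (P (nat_lit 0)) (T.h (P (nat_lit 0)) (T.h (P (nat_lit 0)) (T.h (P (nat_lit 0)) (T.h (T.h (T.h (P (nat_lit 0)) (T.h (T.h (M (nat_lit 1970515551)) (T.h (P (nat_lit 0)) (T.h (M (nat_lit 466379459231)) (T.h (P (nat_lit 0)) (P (nat_lit 190488409680)))))) (T.h (P (nat_lit 0)) (T.h (T.h (P (nat_lit 3146768132)) (T.h (P (nat_lit 0)) (P (nat_lit 540234434244)))) (T.h (P (nat_lit 0)) (M (nat_lit 52707726115))))))) (T.h (T.h (T.h (P (nat_lit 0)) (T.h (P (nat_lit 75339200208)) (T.h (P (nat_lit 0)) (M (nat_lit 319886280563))))) (T.h (P (nat_lit 0)) (T.h (T.h (P (nat_lit 0)) (P (nat_lit 1718058335148))) (P (nat_lit 0))))) (T.h (T.h (P (nat_lit 0)) (T.h (T.h (P (nat_lit 131077471608)) (T.h (P (nat_lit 0)) (P (nat_lit 5843225923720)))) (T.h (P (nat_lit 0))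 (M (nat_lit 1814749911415))))) (T.h (T.h (T.h (P (nat_lit 0)) (P (nat_lit 749338276464))) (P (nat_lit 0))) (T.h (T.h (P (nat_lit 0)) (M (nat_lit 75598789219))) (P (nat_lit 0))))))) (T.h (P (nat_lit 0)) (T.h (T.h (T.h (P (nat_lit 0)) (T.h (T.h (P (nat_lit 2951061260)) (T.h (P (nat_lit 0)) (T.h (P (nat_lit 328254329544)) (T.h (P (nat_lit 0)) (M (nat_lit 176729111803)))))) (T.h (P (nat_lit 0)) (T.h (T.h (P (nat_lit 4529745272)) (T.h (P (nat_lit 0)) (M (nat_lit 1551468644751)))) (T.h (P (nat_lit 0)) (M (nat_lit 96907157475))))))) (T.h (T.h (T.h (P (nat_lit 0)) (T.h (M (nat_lit 60550621783)) (T.h (P (nat_lit 0)) (M (nat_lit 172620489695))))) (T.h (P (nat_lit 0)) (T.h (T.h (P (nat_lit 0)) (M (nat_lit 699749761327))) (P (nat_lit 0))))) (T.h (T.h (P (nat_lit 0)) (T.h (T.h (M (nat_lit 283295707023)) (T.h (P (nat_lit 0)) (M (nat_lit 3101068033991)))) (T.h (P (nat_lit 0)) (P (nat_lit 956610043260)))))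 (T.h (T.h (T.h (P (nat_lit 0)) (M (nat_lit 740862698847))) (P (nat_lit 0))) (T.h (T.h (P (nat_lit 0)) (P (nat_lit 580949795848))) (P (nat_lit 0))))))) (P (nat_lit 0)))))))))) et2_5) (T.h et2_7 et2_13)))

theorem h_t2 : chkT (c.G g2) t2 = true := by decide +kernel


end Pool.Agent.TOPR.R6094
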