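import Pool.Agent.TOPR.R6094.Cert

set_option autoImplicit false
set_option linter.all false
set_option maxRecDepth 100000

namespace Pool.Agent.TOPR.R6094

open Helper10.PC hiding V3
open Helper80.CW.DL Pool.Agent.Helper6.TOP

def en11_0 : T ℤ := (T.h (T.h (P (nat_lit 0)) (T.h (P (nat_lit 0)) (T.h (T.h (T.h (P (nat_lit 0)) (T.h (T.h (M (nat_lit 2461796663)) (T.h (P (nat_lit 0)) (T.h (M (nat_lit 334710463647)) (T.h (P (nat_lit 0)) (M (nat_lit 2169012295447)))))) (T.h (P (nat_lit 0)) (T.h (T.h (M (nat_lit 48204409391)) (T.h (P (nat_lit 0)) (P (nat_lit 2627951616544)))) (T.h (P (nat_lit 0)) (M (nat_lit 540350266839))))))) (T.h (T.h (T.h (P (nat_lit 0)) (T.h (P (nat_lit 25404238476)) (T.h (P (nat_lit 0)) (T.h (M (nat_lit 719672995655)) (T.h (P (nat_lit 0)) (P (nat_lit 1221802699920))))))) (T.h (P (nat_lit 0)) (T.h (T.h (P (nat_lit 0)) (T.h (M (nat_lit 464697263551)) (T.h (P (nat_lit 0)) (M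 (nat_lit 10269893894511))))) (T.h (P (nat_lit 0)) (T.h (T.h (P (nat_lit 0)) (M (nat_lit 610947282591))) (P (nat_lit 0))))))) (T.h (T.h (P (nat_lit 0)) (T.h (T.h (P (nat_lit 30243901160)) (T.h (P (nat_lit 0)) (M (nat_lit 172071837695)))) (T.h (P (nat_lit 0)) (M (nat_lit 262024926543))))) (T.h (T.h (T.h (P (nat_lit 0)) (T.h (P (nat_lit 885348900976)) (T.h (P (nat_lit 0)) (M (nat_lit 1603946138815))))) (T.h (P (nat_lit 0)) (T.h (T.h (P (nat_lit 0)) (M (nat_lit 7837736933103))) (P (nat_lit 0))))) (T.h (T.h (P (nat_lit 0)) (M (nat_lit 784190928447))) (T.h (T.h (T.h (P (nat_lit 0)) (P (nat_lit 2503813497920))) (P (nat_lit 0))) (P (nat_lit 0)))))))) (P (nat_lit 0))))) (T.h (T.h (P (nat_lit 0)) (T.h (T.h (T.h (T.h (P (nat_lit 0)) (T.h (M (nat_lit 587397907)) (T.h (P (nat_lit 0)) (T.h (P (nat_lit 24082719556)) (T.h (P (nat_lit 0)) (M (nat_lit 603532998807))))))) (T.h (P (nat_lit 0)) (T.h (T.h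 (P (nat_lit 0)) (T.h (M (nat_lit 190242750127)) (T.h (P (nat_lit 0)) (M (nat_lit 1646743988259))))) (T.h (P (nat_lit 0)) (T.h (T.h (P (nat_lit 0)) (P (nat_lit 2354280960200))) (P (nat_lit 0))))))) (T.h (T.h (P (nat_lit 0)) (T.h (T.h (P (nat_lit 8138728228)) (T.h (P (nat_lit 0)) (T.h (M (nat_lit 958963400343)) (T.h (P (nat_lit 0)) (M (nat_lit 3670199506559)))))) (T.h (P (nat_lit 0)) (T.h (T.h (M (nat_lit 39716469343)) (T.h (P (nat_lit 0)) (M (nat_lit 5750314981499)))) (T.h (P (nat_lit 0)) (M (nat_lit 684684730599))))))) (T.h (T.h (T.h (P (nat_lit 0)) (T.h (P (nat_lit 39740726484)) (T.h (P (nat_lit 0)) (P (nat_lit 692954955588))))) (T.h (P (nat_lit 0)) (T.h (T.h (P (nat_lit 0)) (P (nat_lit 605895203396))) (P (nat_lit 0))))) (T.h (T.h (P (nat_lit 0)) (T.h (T.h (P (nat_lit 668020477540)) (T.h (P (nat_lit 0)) (P (nat_lit 8571474764540)))) (T.h (P (nat_lit 0)) (P (nat_lit 2001006723340)))))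 (T.h (T.h (T.h (P (nat_lit 0)) (P (nat_lit 470417099184))) (P (nat_lit 0))) (T.h (T.h (P (nat_lit 0)) (P (nat_lit 170749258940))) (P (nat_lit 0)))))))) (P (nat_lit 0)))) (T.h (T.h (T.h (T.h (P (nat_lit 0)) (T.h (T.h (M (nat_lit 2910058335)) (T.h (P (nat_lit 0)) (T.h (M (nat_lit 36891888687)) (T.h (P (nat_lit 0)) (M (nat_lit 992940943695)))))) (T.h (P (nat_lit 0)) (T.h (T.h (M (nat_lit 63914015183)) (T.h (P (nat_lit 0)) (M (nat_lit 1516048072847)))) (T.h (P (nat_lit 0)) (P (nat_lit 895308090144))))))) (T.h (T.h (T.h (P (nat_lit 0)) (T.h (P (nat_lit 5591867624)) (T.h (P (nat_lit 0)) (T.h (M (nat_lit 434769172695)) (T.h (P (nat_lit 0)) (P (nat_lit 684175412952))))))) (T.h (P (nat_lit 0)) (T.h (T.h (P (nat_lit 0)) (T.h (M (nat_lit 460265029703)) (T.h (P (nat_lit 0)) (P (nat_lit 1098217542504))))) (T.h (P (nat_lit 0)) (T.h (T.h (P (nat_lit 0)) (M (nat_lit 1486114983983))) (P (nat_lit 0)))))))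 (T.h (T.h (P (nat_lit 0)) (T.h (T.h (M (nat_lit 36891888687)) (T.h (P (nat_lit 0)) (M (nat_lit 624925231167)))) (T.h (P (nat_lit 0)) (M (nat_lit 1516048072847))))) (T.h (T.h (T.h (P (nat_lit 0)) (T.h (M (nat_lit 434769172695)) (T.h (P (nat_lit 0)) (P (nat_lit 1557094633104))))) (T.h (P (nat_lit 0)) (T.h (T.h (P (nat_lit 0)) (P (nat_lit 1098217542504))) (P (nat_lit 0))))) (T.h (T.h (P (nat_lit 0)) (M (nat_lit 992940943695))) (T.h (T.h (T.h (P (nat_lit 0)) (P (nat_lit 684175412952))) (P (nat_lit 0))) (P (nat_lit 0)))))))) (P (nat_lit 0))) (P (nat_lit 0)))))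
def en11_1 : T ℤ := (T.h (T.h (P (nat_lit 0)) (T.h (P (nat_lit 0)) (T.h (P (nat_lit 0)) (T.h (P (nat_lit 0)) (T.h (P (nat_lit 0)) (T.h (T.h (T.h (T.h (P (nat_lit 0)) (T.h (P (nat_lit 1470652956)) (T.h (P (nat_lit 0)) (T.h (P (nat_lit 26784862376)) (T.h (P (nat_lit 0)) (M (nat_lit 55726604983))))))) (T.h (P (nat_lit 0)) (T.h (T.h (P (nat_lit 0)) (T.h (P (nat_lit 10145718392)) (T.h (P (nat_lit 0)) (P (nat_lit 687012732336))))) (T.h (P (nat_lit 0)) (T.h (T.h (P (nat_lit 0)) (P (nat_lit 485216637356))) (P (nat_lit 0))))))) (T.h (T.h (P (nat_lit 0)) (T.h (T.h (M (nat_lit 2189771867)) (T.h (P (nat_lit 0)) (T.h (P (nat_lit 73553939408)) (T.h (P (nat_lit 0)) (P (nat_lit 246757790136)))))) (T.h (P (nat_lit 0)) (T.h (T.h (P (nat_lit 94983733648)) (T.h (P (nat_lit 0)) (P (nat_lit 475573346980)))) (T.h (P (nat_lit 0)) (P (nat_lit 120268641660))))))) (T.h (T.h (T.h (P (nat_lit 0)) (T.h (P (nat_lit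 25244759052)) (T.h (P (nat_lit 0)) (P (nat_lit 23023954472))))) (T.h (P (nat_lit 0)) (T.h (T.h (P (nat_lit 0)) (M (nat_lit 394338436227))) (P (nat_lit 0))))) (T.h (T.h (P (nat_lit 0)) (T.h (T.h (P (nat_lit 96949804640)) (T.h (P (nat_lit 0)) (M (nat_lit 677844265239)))) (T.h (P (nat_lit 0)) (M (nat_lit 263294581099))))) (T.h (T.h (T.h (P (nat_lit 0)) (P (nat_lit 394434365408))) (P (nat_lit 0))) (T.h (T.h (P (nat_lit 0)) (P (nat_lit 137763604432))) (P (nat_lit 0)))))))) (P (nat_lit 0)))))))) (T.h (T.h (P (nat_lit 0)) (T.h (P (nat_lit 0)) (T.h (P (nat_lit 0)) (T.h (P (nat_lit 0)) (T.h (T.h (T.h (P (nat_lit 0)) (T.h (T.h (M (nat_lit 868335287)) (T.h (P (nat_lit 0)) (T.h (P (nat_lit 152203574968)) (T.h (P (nat_lit 0)) (M (nat_lit 1001663263631)))))) (T.h (P (nat_lit 0)) (T.h (T.h (P (nat_lit 31393903520)) (T.h (P (nat_lit 0)) (P (nat_lit 1010962282736)))) (T.h (P (nat_lit 0)) (M (nat_lit 661782775615)))))))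 (T.h (T.h (T.h (P (nat_lit 0)) (T.h (M (nat_lit 8389033539)) (T.h (P (nat_lit 0)) (T.h (P (nat_lit 110815268400)) (T.h (P (nat_lit 0)) (P (nat_lit 868319423824))))))) (T.h (P (nat_lit 0)) (T.h (T.h (P (nat_lit 0)) (T.h (P (nat_lit 889770091204)) (T.h (P (nat_lit 0)) (M (nat_lit 1875556986583))))) (T.h (P (nat_lit 0)) (T.h (T.h (P (nat_lit 0)) (P (nat_lit 3896661699000))) (P (nat_lit 0))))))) (T.h (T.h (P (nat_lit 0)) (T.h (T.h (M (nat_lit 2522866175)) (T.h (P (nat_lit 0)) (P (nat_lit 319949861624)))) (T.h (P (nat_lit 0)) (M (nat_lit 150660027943))))) (T.h (T.h (T.h (P (nat_lit 0)) (T.h (M (nat_lit 461171161459)) (T.h (P (nat_lit 0)) (M (nat_lit 9059172583))))) (T.h (P (nat_lit 0)) (T.h (T.h (P (nat_lit 0)) (M (nat_lit 893644610183))) (P (nat_lit 0))))) (T.h (T.h (P (nat_lit 0)) (M (nat_lit 248767568959))) (T.h (T.h (T.h (P (nat_lit 0)) (P (nat_lit 352087095296))) (P (nat_lit 0))) (P (nat_lit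 0)))))))) (P (nat_lit 0))))))) (T.h (T.h (P (nat_lit 0)) (T.h (P (nat_lit 0)) (T.h (P (nat_lit 0)) (T.h (T.h (T.h (T.h (P (nat_lit 0)) (T.h (P (nat_lit 3028166788)) (T.h (P (nat_lit 0)) (T.h (M (nat_lit 61234389743)) (T.h (P (nat_lit 0)) (M (nat_lit 403930298823))))))) (T.h (P (nat_lit 0)) (T.h (T.h (P (nat_lit 0)) (T.h (P (nat_lit 15896500704)) (T.h (P (nat_lit 0)) (M (nat_lit 751444475159))))) (T.h (P (nat_lit 0)) (T.h (T.h (P (nat_lit 0)) (P (nat_lit 3270258953376))) (P (nat_lit 0))))))) (T.h (T.h (P (nat_lit 0)) (T.h (T.h (M (nat_lit 18912376679)) (T.h (P (nat_lit 0)) (T.h (M (nat_lit 99680030791)) (T.h (P (nat_lit 0)) (P (nat_lit 689950032000)))))) (T.h (P (nat_lit 0)) (T.h (T.h (P (nat_lit 570465003896)) (T.h (P (nat_lit 0)) (M (nat_lit 1674890537855)))) (T.h (P (nat_lit 0)) (P (nat_lit 2241979518876))))))) (T.h (T.h (T.h (P (nat_lit 0)) (T.h (M (nat_lit 17682567551)) (T.h (P (nat_lit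 0)) (P (nat_lit 873713609448))))) (T.h (P (nat_lit 0)) (T.h (T.h (P (nat_lit 0)) (M (nat_lit 2859717329039))) (P (nat_lit 0))))) (T.h (T.h (P (nat_lit 0)) (T.h (T.h (M (nat_lit 453238178607)) (T.h (P (nat_lit 0)) (P (nat_lit 6232137351168)))) (T.h (P (nat_lit 0)) (M (nat_lit 2745077282663))))) (T.h (T.h (T.h (P (nat_lit 0)) (P (nat_lit 235426259480))) (P (nat_lit 0))) (T.h (T.h (P (nat_lit 0)) (M (nat_lit 1117336403507))) (P (nat_lit 0)))))))) (P (nat_lit 0)))))) en11_0)))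
def en11_2 : T ℤ := (T.h (T.h (P (nat_lit 0)) (T.h (P (nat_lit 0)) (T.h (T.h (T.h (P (nat_lit 0)) (T.h (T.h (P (nat_lit 0)) (T.h (P (nat_lit 12520702484)) (T.h (P (nat_lit 0)) (T.h (P (nat_lit 1752327584448)) (T.h (P (nat_lit 0)) (P (nat_lit 1245755854440))))))) (T.h (P (nat_lit 0)) (T.h (T.h (P (nat_lit 0)) (T.h (M (nat_lit 2235125889303)) (T.h (P (nat_lit 0)) (P (nat_lit 4200960491688))))) (T.h (P (nat_lit 0)) (T.h (T.h (P (nat_lit 0)) (M (nat_lit 5646400868555))) (P (nat_lit 0)))))))) (T.h (T.h (T.h (P (nat_lit 4385933008)) (T.h (P (nat_lit 0)) (T.h (P (nat_lit 90052443532)) (T.h (P (nat_lit 0)) (M (nat_lit 3698887073247)))))) (T.h (P (nat_lit 0)) (T.h (T.h (P (nat_lit 19392496620)) (T.h (P (nat_lit 0)) (P (nat_lit 8914807082376)))) (T.h (P (nat_lit 0)) (P (nat_lit 1777026075904)))))) (T.h (T.h (P (nat_lit 0)) (T.h (T.h (P (nat_lit 0)) (T.h (P (nat_lit 2290798085636)) (T.h (P (nat_lit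 0)) (P (nat_lit 19343695684272))))) (T.h (P (nat_lit 0)) (T.h (T.h (P (nat_lit 0)) (M (nat_lit 9585719432363))) (P (nat_lit 0)))))) (T.h (T.h (T.h (M (nat_lit 62564365283)) (T.h (P (nat_lit 0)) (M (nat_lit 2325997175783)))) (T.h (P (nat_lit 0)) (M (nat_lit 2697295184963)))) (T.h (T.h (P (nat_lit 0)) (T.h (T.h (P (nat_lit 0)) (M (nat_lit 2119963310795))) (P (nat_lit 0)))) (M (nat_lit 321803050015))))))) (P (nat_lit 0))))) (T.h (T.h (P (nat_lit 0)) (T.h (T.h (T.h (T.h (P (nat_lit 788032)) (T.h (P (nat_lit 0)) (T.h (M (nat_lit 1567519763)) (T.h (P (nat_lit 0)) (T.h (P (nat_lit 338085716096)) (T.h (P (nat_lit 0)) (P (nat_lit 820869791632)))))))) (T.h (P (nat_lit 0)) (T.h (T.h (M (nat_lit 2455967655)) (T.h (P (nat_lit 0)) (T.h (P (nat_lit 689284667244)) (T.h (P (nat_lit 0)) (P (nat_lit 5817292740576)))))) (T.h (P (nat_lit 0)) (T.h (T.h (M (nat_lit 101782601247)) (T.h (P (nat_lit 0)) (M (nat_lit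 2516868933823)))) (T.h (P (nat_lit 0)) (P (nat_lit 507687307232)))))))) (T.h (T.h (P (nat_lit 0)) (T.h (T.h (P (nat_lit 0)) (T.h (M (nat_lit 377822174495)) (T.h (P (nat_lit 0)) (M (nat_lit 4577441538991))))) (T.h (P (nat_lit 0)) (T.h (T.h (P (nat_lit 0)) (P (nat_lit 15187940955488))) (P (nat_lit 0)))))) (T.h (T.h (T.h (M (nat_lit 1567519763)) (T.h (P (nat_lit 0)) (T.h (M (nat_lit 987847803023)) (T.h (P (nat_lit 0)) (P (nat_lit 698442713872)))))) (T.h (P (nat_lit 0)) (T.h (T.h (P (nat_lit 689284667244)) (T.h (P (nat_lit 0)) (P (nat_lit 5120874327136)))) (T.h (P (nat_lit 0)) (M (nat_lit 2516868933823)))))) (T.h (T.h (P (nat_lit 0)) (T.h (T.h (P (nat_lit 0)) (M (nat_lit 4577441538991))) (P (nat_lit 0)))) (T.h (T.h (T.h (P (nat_lit 338085716096)) (T.h (P (nat_lit 0)) (P (nat_lit 698442713872)))) (T.h (P (nat_lit 0)) (P (nat_lit 5817292740576)))) (T.h (P (nat_lit 0)) (P (nat_lit 820869791632))))))))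 (P (nat_lit 0)))) (T.h (T.h (T.h (T.h (P (nat_lit 0)) (T.h (T.h (P (nat_lit 0)) (T.h (P (nat_lit 8138728228)) (T.h (P (nat_lit 0)) (T.h (P (nat_lit 668020477540)) (T.h (P (nat_lit 0)) (P (nat_lit 170749258940))))))) (T.h (P (nat_lit 0)) (T.h (T.h (P (nat_lit 0)) (T.h (M (nat_lit 39716469343)) (T.h (P (nat_lit 0)) (P (nat_lit 2001006723340))))) (T.h (P (nat_lit 0)) (T.h (T.h (P (nat_lit 0)) (M (nat_lit 684684730599))) (P (nat_lit 0)))))))) (T.h (T.h (T.h (M (nat_lit 587397907)) (T.h (P (nat_lit 0)) (T.h (P (nat_lit 39740726484)) (T.h (P (nat_lit 0)) (P (nat_lit 470417099184)))))) (T.h (P (nat_lit 0)) (T.h (T.h (M (nat_lit 190242750127)) (T.h (P (nat_lit 0)) (P (nat_lit 605895203396)))) (T.h (P (nat_lit 0)) (P (nat_lit 2354280960200)))))) (T.h (T.h (P (nat_lit 0)) (T.h (T.h (P (nat_lit 0)) (T.h (M (nat_lit 958963400343)) (T.h (P (nat_lit 0)) (P (nat_lit 8571474764540))))) (T.h (P (nat_lit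 0)) (T.h (T.h (P (nat_lit 0)) (M (nat_lit 5750314981499))) (P (nat_lit 0)))))) (T.h (T.h (T.h (P (nat_lit 24082719556)) (T.h (P (nat_lit 0)) (P (nat_lit 692954955588)))) (T.h (P (nat_lit 0)) (M (nat_lit 1646743988259)))) (T.h (T.h (P (nat_lit 0)) (T.h (T.h (P (nat_lit 0)) (M (nat_lit 3670199506559))) (P (nat_lit 0)))) (M (nat_lit 603532998807))))))) (P (nat_lit 0))) (P (nat_lit 0)))))
def en11_3 : T ℤ := (T.h (T.h (P (nat_lit 0)) (T.h (P (nat_lit 0)) (T.h (T.h (T.h (P (nat_lit 0)) (T.h (T.h (M (nat_lit 5590822207)) (T.h (P (nat_lit 0)) (T.h (M (nat_lit 152261526527)) (T.h (P (nat_lit 0)) (M (nat_lit 965422350495)))))) (T.h (P (nat_lit 0)) (T.h (T.h (P (nat_lit 6661092032)) (T.h (P (nat_lit 0)) (P (nat_lit 2243093184032)))) (T.h (P (nat_lit 0)) (M (nat_lit 500631745935))))))) (T.h (T.h (T.h (P (nat_lit 0)) (T.h (M (nat_lit 22866351735)) (T.h (P (nat_lit 0)) (T.h (P (nat_lit 1010894328004))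 (T.h (P (nat_lit 0)) (P (nat_lit 3067110755528))))))) (T.h (P (nat_lit 0)) (T.h (T.h (P (nat_lit 0)) (T.h (M (nat_lit 3653862693639)) (T.h (P (nat_lit 0)) (M (nat_lit 6520989440503))))) (T.h (P (nat_lit 0)) (T.h (T.h (P (nat_lit 0)) (P (nat_lit 1414603017136))) (P (nat_lit 0))))))) (T.h (T.h (P (nat_lit 0)) (T.h (T.h (M (nat_lit 152261526527)) (T.h (P (nat_lit 0)) (M (nat_lit 795931562127)))) (T.h (P (nat_lit 0)) (P (nat_lit 2243093184032))))) (T.h (T.h (T.h (P (nat_lit 0)) (T.h (P (nat_lit 1010894328004)) (T.h (P (nat_lit 0)) (M (nat_lit 2798932765055))))) (T.h (P (nat_lit 0)) (T.h (T.h (P (nat_lit 0)) (M (nat_lit 6520989440503))) (P (nat_lit 0))))) (T.h (T.h (P (nat_lit 0)) (M (nat_lit 965422350495))) (T.h (T.h (T.h (P (nat_lit 0)) (P (nat_lit 3067110755528))) (P (nat_lit 0))) (P (nat_lit 0)))))))) (P (nat_lit 0))))) (T.h (T.h (P (nat_lit 0)) (T.h (T.h (T.h (T.h (P (nat_lit 0)) (T.h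 (P (nat_lit 4385933008)) (T.h (P (nat_lit 0)) (T.h (M (nat_lit 62564365283)) (T.h (P (nat_lit 0)) (M (nat_lit 321803050015))))))) (T.h (P (nat_lit 0)) (T.h (T.h (P (nat_lit 0)) (T.h (P (nat_lit 19392496620)) (T.h (P (nat_lit 0)) (M (nat_lit 2697295184963))))) (T.h (P (nat_lit 0)) (T.h (T.h (P (nat_lit 0)) (P (nat_lit 1777026075904))) (P (nat_lit 0))))))) (T.h (T.h (P (nat_lit 0)) (T.h (T.h (P (nat_lit 12520702484)) (T.h (P (nat_lit 0)) (T.h (P (nat_lit 2290798085636)) (T.h (P (nat_lit 0)) (M (nat_lit 2119963310795)))))) (T.h (P (nat_lit 0)) (T.h (T.h (M (nat_lit 2235125889303)) (T.h (P (nat_lit 0)) (M (nat_lit 9585719432363)))) (T.h (P (nat_lit 0)) (M (nat_lit 5646400868555))))))) (T.h (T.h (T.h (P (nat_lit 0)) (T.h (P (nat_lit 90052443532)) (T.h (P (nat_lit 0)) (M (nat_lit 2325997175783))))) (T.h (P (nat_lit 0)) (T.h (T.h (P (nat_lit 0)) (P (nat_lit 8914807082376))) (P (nat_lit 0)))))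 (T.h (T.h (P (nat_lit 0)) (T.h (T.h (P (nat_lit 1752327584448)) (T.h (P (nat_lit 0)) (P (nat_lit 19343695684272)))) (T.h (P (nat_lit 0)) (P (nat_lit 4200960491688))))) (T.h (T.h (T.h (P (nat_lit 0)) (M (nat_lit 3698887073247))) (P (nat_lit 0))) (T.h (T.h (P (nat_lit 0)) (P (nat_lit 1245755854440))) (P (nat_lit 0)))))))) (P (nat_lit 0)))) (T.h (T.h (T.h (T.h (P (nat_lit 0)) (T.h (T.h (M (nat_lit 2461796663)) (T.h (P (nat_lit 0)) (T.h (P (nat_lit 30243901160)) (T.h (P (nat_lit 0)) (M (nat_lit 784190928447)))))) (T.h (P (nat_lit 0)) (T.h (T.h (M (nat_lit 48204409391)) (T.h (P (nat_lit 0)) (M (nat_lit 262024926543)))) (T.h (P (nat_lit 0)) (M (nat_lit 540350266839))))))) (T.h (T.h (T.h (P (nat_lit 0)) (T.h (P (nat_lit 25404238476)) (T.h (P (nat_lit 0)) (T.h (P (nat_lit 885348900976)) (T.h (P (nat_lit 0)) (P (nat_lit 2503813497920))))))) (T.h (P (nat_lit 0)) (T.h (T.h (P (nat_lit 0)) (T.h (M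 (nat_lit 464697263551)) (T.h (P (nat_lit 0)) (M (nat_lit 7837736933103))))) (T.h (P (nat_lit 0)) (T.h (T.h (P (nat_lit 0)) (M (nat_lit 610947282591))) (P (nat_lit 0))))))) (T.h (T.h (P (nat_lit 0)) (T.h (T.h (M (nat_lit 334710463647)) (T.h (P (nat_lit 0)) (M (nat_lit 172071837695)))) (T.h (P (nat_lit 0)) (P (nat_lit 2627951616544))))) (T.h (T.h (T.h (P (nat_lit 0)) (T.h (M (nat_lit 719672995655)) (T.h (P (nat_lit 0)) (M (nat_lit 1603946138815))))) (T.h (P (nat_lit 0)) (T.h (T.h (P (nat_lit 0)) (M (nat_lit 10269893894511))) (P (nat_lit 0))))) (T.h (T.h (P (nat_lit 0)) (M (nat_lit 2169012295447))) (T.h (T.h (T.h (P (nat_lit 0)) (P (nat_lit 1221802699920))) (P (nat_lit 0))) (P (nat_lit 0)))))))) (P (nat_lit 0))) (P (nat_lit 0)))))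
def en11_4 : T ℤ := (T.h (T.h (P (nat_lit 0)) (T.h (P (nat_lit 0)) (T.h (T.h (T.h (P (nat_lit 0)) (T.h (T.h (P (nat_lit 0)) (T.h (P (nat_lit 23259852)) (T.h (P (nat_lit 0)) (T.h (P (nat_lit 331616962040)) (T.h (P (nat_lit 0)) (M (nat_lit 1062845546331))))))) (T.h (P (nat_lit 0)) (T.h (T.h (P (nat_lit 0)) (T.h (P (nat_lit 287353232820)) (T.h (P (nat_lit 0)) (P (nat_lit 1209968351596))))) (T.h (P (nat_lit 0)) (T.h (T.h (P (nat_lit 0)) (M (nat_lit 423473740427))) (P (nat_lit 0)))))))) (T.h (T.h (T.h (M (nat_lit 2647413707)) (T.h (P (nat_lit 0)) (T.h (M (nat_lit 66392109595)) (T.h (P (nat_lit 0)) (P (nat_lit 515562009556)))))) (T.h (P (nat_lit 0)) (T.h (T.h (P (nat_lit 97337216568)) (T.h (P (nat_lit 0)) (P (nat_lit 1806891058812)))) (T.h (P (nat_lit 0)) (P (nat_lit 1914401966396)))))) (T.h (T.h (P (nat_lit 0)) (T.h (T.h (P (nat_lit 0)) (T.h (M (nat_lit 2218372494191)) (T.h (P (nat_lit 0))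 (P (nat_lit 3113671899424))))) (T.h (P (nat_lit 0)) (T.h (T.h (P (nat_lit 0)) (P (nat_lit 45863308928))) (P (nat_lit 0)))))) (T.h (T.h (T.h (M (nat_lit 23887968111)) (T.h (P (nat_lit 0)) (M (nat_lit 1646522437003)))) (T.h (P (nat_lit 0)) (P (nat_lit 702160315116)))) (T.h (T.h (P (nat_lit 0)) (T.h (T.h (P (nat_lit 0)) (M (nat_lit 68697903227))) (P (nat_lit 0)))) (P (nat_lit 16193562996))))))) (P (nat_lit 0))))) (T.h (T.h (P (nat_lit 0)) (T.h (T.h (T.h (T.h (P (nat_lit 17321716)) (T.h (P (nat_lit 0)) (T.h (P (nat_lit 4250467680)) (T.h (P (nat_lit 0)) (T.h (M (nat_lit 79485033451)) (T.h (P (nat_lit 0)) (M (nat_lit 1164779345255)))))))) (T.h (P (nat_lit 0)) (T.h (T.h (M (nat_lit 4468292295)) (T.h (P (nat_lit 0)) (T.h (P (nat_lit 1336958017036)) (T.h (P (nat_lit 0)) (P (nat_lit 6021966952848)))))) (T.h (P (nat_lit 0)) (T.h (T.h (M (nat_lit 11558130935)) (T.h (P (nat_lit 0)) (M (nat_lit 6369494363775))))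 (T.h (P (nat_lit 0)) (P (nat_lit 715128369232)))))))) (T.h (T.h (P (nat_lit 0)) (T.h (T.h (P (nat_lit 0)) (T.h (P (nat_lit 199188375760)) (T.h (P (nat_lit 0)) (P (nat_lit 210737218176))))) (T.h (P (nat_lit 0)) (T.h (T.h (P (nat_lit 0)) (P (nat_lit 3678929382496))) (P (nat_lit 0)))))) (T.h (T.h (T.h (M (nat_lit 9976639491)) (T.h (P (nat_lit 0)) (T.h (P (nat_lit 773280519576)) (T.h (P (nat_lit 0)) (M (nat_lit 1393010614999)))))) (T.h (P (nat_lit 0)) (T.h (T.h (M (nat_lit 1757801063375)) (T.h (P (nat_lit 0)) (M (nat_lit 2561009194919)))) (T.h (P (nat_lit 0)) (M (nat_lit 1510915422039)))))) (T.h (T.h (P (nat_lit 0)) (T.h (T.h (P (nat_lit 0)) (M (nat_lit 3415355108311))) (P (nat_lit 0)))) (T.h (T.h (T.h (P (nat_lit 349338326972)) (T.h (P (nat_lit 0)) (P (nat_lit 1628576603096)))) (T.h (P (nat_lit 0)) (M (nat_lit 369739589295)))) (T.h (P (nat_lit 0)) (M (nat_lit 254705146839)))))))) (P (nat_lit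 0)))) (T.h (T.h (T.h (T.h (P (nat_lit 0)) (T.h (T.h (P (nat_lit 0)) (T.h (M (nat_lit 18912376679)) (T.h (P (nat_lit 0)) (T.h (M (nat_lit 453238178607)) (T.h (P (nat_lit 0)) (M (nat_lit 1117336403507))))))) (T.h (P (nat_lit 0)) (T.h (T.h (P (nat_lit 0)) (T.h (P (nat_lit 570465003896)) (T.h (P (nat_lit 0)) (M (nat_lit 2745077282663))))) (T.h (P (nat_lit 0)) (T.h (T.h (P (nat_lit 0)) (P (nat_lit 2241979518876))) (P (nat_lit 0)))))))) (T.h (T.h (T.h (P (nat_lit 3028166788)) (T.h (P (nat_lit 0)) (T.h (M (nat_lit 17682567551)) (T.h (P (nat_lit 0)) (P (nat_lit 235426259480)))))) (T.h (P (nat_lit 0)) (T.h (T.h (P (nat_lit 15896500704)) (T.h (P (nat_lit 0)) (M (nat_lit 2859717329039)))) (T.h (P (nat_lit 0)) (P (nat_lit 3270258953376)))))) (T.h (T.h (P (nat_lit 0)) (T.h (T.h (P (nat_lit 0)) (T.h (M (nat_lit 99680030791)) (T.h (P (nat_lit 0)) (P (nat_lit 6232137351168))))) (T.h (P (nat_lit 0)) (T.h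 (T.h (P (nat_lit 0)) (M (nat_lit 1674890537855))) (P (nat_lit 0)))))) (T.h (T.h (T.h (M (nat_lit 61234389743)) (T.h (P (nat_lit 0)) (P (nat_lit 873713609448)))) (T.h (P (nat_lit 0)) (M (nat_lit 751444475159)))) (T.h (T.h (P (nat_lit 0)) (T.h (T.h (P (nat_lit 0)) (P (nat_lit 689950032000))) (P (nat_lit 0)))) (M (nat_lit 403930298823))))))) (P (nat_lit 0))) (P (nat_lit 0)))))
def en11_5 : T ℤ := (T.h (T.h (T.h (P (nat_lit 0)) (T.h (T.h (T.h (T.h (P (nat_lit 0)) (T.h (P (nat_lit 2059354692)) (T.h (P (nat_lit 0)) (T.h (P (nat_lit 10674145668)) (T.h (P (nat_lit 0)) (P (nat_lit 523309535736))))))) (T.h (P (nat_lit 0)) (T.h (T.h (P (nat_lit 0)) (T.h (M (nat_lit 111265728883)) (T.h (P (nat_lit 0)) (M (nat_lit 1158652165647))))) (T.h (P (nat_lit 0)) (T.h (T.h (P (nat_lit 0)) (M (nat_lit 1998251459303))) (P (nat_lit 0))))))) (T.h (T.h (P (nat_lit 0)) (T.h (T.h (M (nat_lit 7738938839)) (T.h (P (nat_lit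 0)) (T.h (P (nat_lit 643872003032)) (T.h (P (nat_lit 0)) (M (nat_lit 1219736839815)))))) (T.h (P (nat_lit 0)) (T.h (T.h (M (nat_lit 666189072631)) (T.h (P (nat_lit 0)) (M (nat_lit 1280561754611)))) (T.h (P (nat_lit 0)) (M (nat_lit 711155795215))))))) (T.h (T.h (T.h (P (nat_lit 0)) (T.h (P (nat_lit 97387311420)) (T.h (P (nat_lit 0)) (P (nat_lit 33756432984))))) (T.h (P (nat_lit 0)) (T.h (T.h (P (nat_lit 0)) (P (nat_lit 3547853052456))) (P (nat_lit 0))))) (T.h (T.h (P (nat_lit 0)) (T.h (T.h (M (nat_lit 938268954551)) (T.h (P (nat_lit 0)) (P (nat_lit 2083870367164)))) (T.h (P (nat_lit 0)) (M (nat_lit 406749750019))))) (T.h (T.h (T.h (P (nat_lit 0)) (M (nat_lit 1564619397615))) (P (nat_lit 0))) (T.h (T.h (P (nat_lit 0)) (M (nat_lit 299785251819))) (P (nat_lit 0)))))))) (P (nat_lit 0)))) (T.h (T.h (T.h (T.h (P (nat_lit 0)) (T.h (T.h (M (nat_lit 868335287)) (T.h (P (nat_lit 0)) (T.h (M (nat_lit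 2522866175)) (T.h (P (nat_lit 0)) (M (nat_lit 248767568959)))))) (T.h (P (nat_lit 0)) (T.h (T.h (P (nat_lit 31393903520)) (T.h (P (nat_lit 0)) (M (nat_lit 150660027943)))) (T.h (P (nat_lit 0)) (M (nat_lit 661782775615))))))) (T.h (T.h (T.h (P (nat_lit 0)) (T.h (M (nat_lit 8389033539)) (T.h (P (nat_lit 0)) (T.h (M (nat_lit 461171161459)) (T.h (P (nat_lit 0)) (P (nat_lit 352087095296))))))) (T.h (P (nat_lit 0)) (T.h (T.h (P (nat_lit 0)) (T.h (P (nat_lit 889770091204)) (T.h (P (nat_lit 0)) (M (nat_lit 893644610183))))) (T.h (P (nat_lit 0)) (T.h (T.h (P (nat_lit 0)) (P (nat_lit 3896661699000))) (P (nat_lit 0))))))) (T.h (T.h (P (nat_lit 0)) (T.h (T.h (P (nat_lit 152203574968)) (T.h (P (nat_lit 0)) (P (nat_lit 319949861624)))) (T.h (P (nat_lit 0)) (P (nat_lit 1010962282736))))) (T.h (T.h (T.h (P (nat_lit 0)) (T.h (P (nat_lit 110815268400)) (T.h (P (nat_lit 0)) (M (nat_lit 9059172583))))) (T.h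 (P (nat_lit 0)) (T.h (T.h (P (nat_lit 0)) (M (nat_lit 1875556986583))) (P (nat_lit 0))))) (T.h (T.h (P (nat_lit 0)) (M (nat_lit 1001663263631))) (T.h (T.h (T.h (P (nat_lit 0)) (P (nat_lit 868319423824))) (P (nat_lit 0))) (P (nat_lit 0)))))))) (P (nat_lit 0))) (P (nat_lit 0)))) (T.h (T.h (T.h (T.h (T.h (P (nat_lit 0)) (T.h (T.h (P (nat_lit 0)) (T.h (M (nat_lit 2189771867)) (T.h (P (nat_lit 0)) (T.h (P (nat_lit 96949804640)) (T.h (P (nat_lit 0)) (P (nat_lit 137763604432))))))) (T.h (P (nat_lit 0)) (T.h (T.h (P (nat_lit 0)) (T.h (P (nat_lit 94983733648)) (T.h (P (nat_lit 0)) (M (nat_lit 263294581099))))) (T.h (P (nat_lit 0)) (T.h (T.h (P (nat_lit 0)) (P (nat_lit 120268641660))) (P (nat_lit 0)))))))) (T.h (T.h (T.h (P (nat_lit 1470652956)) (T.h (P (nat_lit 0)) (T.h (P (nat_lit 25244759052)) (T.h (P (nat_lit 0)) (P (nat_lit 394434365408)))))) (T.h (P (nat_lit 0)) (T.h (T.h (P (nat_lit 10145718392))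 (T.h (P (nat_lit 0)) (M (nat_lit 394338436227)))) (T.h (P (nat_lit 0)) (P (nat_lit 485216637356)))))) (T.h (T.h (P (nat_lit 0)) (T.h (T.h (P (nat_lit 0)) (T.h (P (nat_lit 73553939408)) (T.h (P (nat_lit 0)) (M (nat_lit 677844265239))))) (T.h (P (nat_lit 0)) (T.h (T.h (P (nat_lit 0)) (P (nat_lit 475573346980))) (P (nat_lit 0)))))) (T.h (T.h (T.h (P (nat_lit 26784862376)) (T.h (P (nat_lit 0)) (P (nat_lit 23023954472)))) (T.h (P (nat_lit 0)) (P (nat_lit 687012732336)))) (T.h (T.h (P (nat_lit 0)) (T.h (T.h (P (nat_lit 0)) (P (nat_lit 246757790136))) (P (nat_lit 0)))) (M (nat_lit 55726604983))))))) (P (nat_lit 0))) (P (nat_lit 0))) (P (nat_lit 0))))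
def en11_6 : T ℤ := (T.h (T.h (T.h (P (nat_lit 0)) (T.h (P (nat_lit 0)) (T.h (P (nat_lit 0)) (T.h (P (nat_lit 0)) (T.h (T.h (T.h (P (nat_lit 0)) (T.h (T.h (P (nat_lit 0)) (T.h (M (nat_lit 7738938839)) (T.h (P (nat_lit 0)) (T.h (M (nat_lit 938268954551)) (T.h (P (nat_lit 0)) (M (nat_lit 299785251819))))))) (T.h (P (nat_lit 0)) (T.h (T.h (P (nat_lit 0)) (T.h (M (nat_lit 666189072631)) (T.h (P (nat_lit 0)) (M (nat_lit 406749750019))))) (T.h (P (nat_lit 0)) (T.h (T.h (P (nat_lit 0)) (M (nat_lit 711155795215))) (P (nat_lit 0)))))))) (T.h (T.h (T.h (P (nat_lit 2059354692)) (T.h (P (nat_lit 0)) (T.h (P (nat_lit 97387311420)) (T.h (P (nat_lit 0)) (M (nat_lit 1564619397615)))))) (T.h (P (nat_lit 0)) (T.h (T.h (M (nat_lit 111265728883)) (T.h (P (nat_lit 0)) (P (nat_lit 3547853052456)))) (T.h (P (nat_lit 0)) (M (nat_lit 1998251459303)))))) (T.h (T.h (P (nat_lit 0)) (T.h (T.h (P (nat_lit 0)) (T.h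 (P (nat_lit 643872003032)) (T.h (P (nat_lit 0)) (P (nat_lit 2083870367164))))) (T.h (P (nat_lit 0)) (T.h (T.h (P (nat_lit 0)) (M (nat_lit 1280561754611))) (P (nat_lit 0)))))) (T.h (T.h (T.h (P (nat_lit 10674145668)) (T.h (P (nat_lit 0)) (P (nat_lit 33756432984)))) (T.h (P (nat_lit 0)) (M (nat_lit 1158652165647)))) (T.h (T.h (P (nat_lit 0)) (T.h (T.h (P (nat_lit 0)) (M (nat_lit 1219736839815))) (P (nat_lit 0)))) (P (nat_lit 523309535736))))))) (P (nat_lit 0))))))) (T.h (T.h (P (nat_lit 0)) (T.h (P (nat_lit 0)) (T.h (P (nat_lit 0)) (T.h (T.h (T.h (T.h (P (nat_lit 17321716)) (T.h (P (nat_lit 0)) (T.h (M (nat_lit 9976639491)) (T.h (P (nat_lit 0)) (T.h (P (nat_lit 349338326972)) (T.h (P (nat_lit 0)) (M (nat_lit 254705146839)))))))) (T.h (P (nat_lit 0)) (T.h (T.h (M (nat_lit 4468292295)) (T.h (P (nat_lit 0)) (T.h (M (nat_lit 1757801063375)) (T.h (P (nat_lit 0)) (M (nat_lit 369739589295))))))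 (T.h (P (nat_lit 0)) (T.h (T.h (M (nat_lit 11558130935)) (T.h (P (nat_lit 0)) (M (nat_lit 1510915422039)))) (T.h (P (nat_lit 0)) (P (nat_lit 715128369232)))))))) (T.h (T.h (P (nat_lit 0)) (T.h (T.h (P (nat_lit 0)) (T.h (P (nat_lit 199188375760)) (T.h (P (nat_lit 0)) (M (nat_lit 3415355108311))))) (T.h (P (nat_lit 0)) (T.h (T.h (P (nat_lit 0)) (P (nat_lit 3678929382496))) (P (nat_lit 0)))))) (T.h (T.h (T.h (P (nat_lit 4250467680)) (T.h (P (nat_lit 0)) (T.h (P (nat_lit 773280519576)) (T.h (P (nat_lit 0)) (P (nat_lit 1628576603096)))))) (T.h (P (nat_lit 0)) (T.h (T.h (P (nat_lit 1336958017036)) (T.h (P (nat_lit 0)) (M (nat_lit 2561009194919)))) (T.h (P (nat_lit 0)) (M (nat_lit 6369494363775)))))) (T.h (T.h (P (nat_lit 0)) (T.h (T.h (P (nat_lit 0)) (P (nat_lit 210737218176))) (P (nat_lit 0)))) (T.h (T.h (T.h (M (nat_lit 79485033451)) (T.h (P (nat_lit 0)) (M (nat_lit 1393010614999)))) (T.h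 (P (nat_lit 0)) (P (nat_lit 6021966952848)))) (T.h (P (nat_lit 0)) (M (nat_lit 1164779345255)))))))) (P (nat_lit 0)))))) en11_2)) (T.h (T.h (T.h (P (nat_lit 0)) (T.h (P (nat_lit 0)) (T.h (P (nat_lit 0)) (T.h (T.h (T.h (T.h (P (nat_lit 0)) (T.h (M (nat_lit 2647413707)) (T.h (P (nat_lit 0)) (T.h (M (nat_lit 23887968111)) (T.h (P (nat_lit 0)) (P (nat_lit 16193562996))))))) (T.h (P (nat_lit 0)) (T.h (T.h (P (nat_lit 0)) (T.h (P (nat_lit 97337216568)) (T.h (P (nat_lit 0)) (P (nat_lit 702160315116))))) (T.h (P (nat_lit 0)) (T.h (T.h (P (nat_lit 0)) (P (nat_lit 1914401966396))) (P (nat_lit 0))))))) (T.h (T.h (P (nat_lit 0)) (T.h (T.h (P (nat_lit 23259852)) (T.h (P (nat_lit 0)) (T.h (M (nat_lit 2218372494191)) (T.h (P (nat_lit 0)) (M (nat_lit 68697903227)))))) (T.h (P (nat_lit 0)) (T.h (T.h (P (nat_lit 287353232820)) (T.h (P (nat_lit 0)) (P (nat_lit 45863308928)))) (T.h (P (nat_lit 0)) (M (nat_lit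 423473740427))))))) (T.h (T.h (T.h (P (nat_lit 0)) (T.h (M (nat_lit 66392109595)) (T.h (P (nat_lit 0)) (M (nat_lit 1646522437003))))) (T.h (P (nat_lit 0)) (T.h (T.h (P (nat_lit 0)) (P (nat_lit 1806891058812))) (P (nat_lit 0))))) (T.h (T.h (P (nat_lit 0)) (T.h (T.h (P (nat_lit 331616962040)) (T.h (P (nat_lit 0)) (P (nat_lit 3113671899424)))) (T.h (P (nat_lit 0)) (P (nat_lit 1209968351596))))) (T.h (T.h (T.h (P (nat_lit 0)) (P (nat_lit 515562009556))) (P (nat_lit 0))) (T.h (T.h (P (nat_lit 0)) (M (nat_lit 1062845546331))) (P (nat_lit 0)))))))) (P (nat_lit 0)))))) en11_3) (T.h en11_4 en11_5)))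

def n11 : T ℤ := (T.h en11_1 en11_6)

theorem h_n11 : chkT (c.Nn 1 1) n11 = true := by decide +kernel


end Pool.Agent.TOPR.R6094
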