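import Pool.Agent.TOPR.R6094.Cert

set_option autoImplicit false
set_option linter.all false
set_option maxRecDepth 100000

namespace Pool.Agent.TOPR.R6094

open Helper10.PC hiding V3
open Helper80.CW.DL Pool.Agent.Helper6.TOP

def en12_0 : T ℤ := (T.h (T.h (P (nat_lit 0)) (T.h (P (nat_lit 0)) (T.h (T.h (T.h (T.h (P (nat_lit 0)) (T.h (M (nat_lit 4693879731)) (T.h (P (nat_lit 0)) (T.h (M (nat_lit 16731300471)) (T.h (P (nat_lit 0)) (M (nat_lit 1067518546335))))))) (T.h (P (nat_lit 0)) (T.h (T.h (P (nat_lit 0)) (T.h (M (nat_lit 212718285623)) (T.h (P (nat_lit 0)) (P (nat_lit 983898090968))))) (T.h (P (nat_lit 0)) (T.h (T.h (P (nat_lit 0)) (M (nat_lit 119101972831))) (P (nat_lit 0))))))) (T.h (T.h (P (nat_lit 0)) (T.h (T.h (P (nat_lit 29561643828)) (T.h (P (nat_lit 0)) (T.h (M (nat_lit 1810307616527)) (T.h (P (nat_lit 0)) (P (nat_lit 8483273430000)))))) (T.h (P (nat_lit 0)) (T.h (T.h (M (nat_lit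 1379964613271)) (T.h (P (nat_lit 0)) (M (nat_lit 5426004511023)))) (T.h (P (nat_lit 0)) (P (nat_lit 3978618366524))))))) (T.h (T.h (T.h (P (nat_lit 0)) (T.h (P (nat_lit 83229404936)) (T.h (P (nat_lit 0)) (P (nat_lit 2209474355508))))) (T.h (P (nat_lit 0)) (T.h (T.h (P (nat_lit 0)) (P (nat_lit 1651761425276))) (P (nat_lit 0))))) (T.h (T.h (P (nat_lit 0)) (T.h (T.h (P (nat_lit 1016351402616)) (T.h (P (nat_lit 0)) (P (nat_lit 4444848130800)))) (T.h (P (nat_lit 0)) (M (nat_lit 2763195627831))))) (T.h (T.h (T.h (P (nat_lit 0)) (M (nat_lit 44548310679))) (P (nat_lit 0))) (T.h (T.h (P (nat_lit 0)) (M (nat_lit 413162212915))) (P (nat_lit 0)))))))) (P (nat_lit 0))))) (T.h (T.h (P (nat_lit 0)) (T.h (T.h (T.h (P (nat_lit 0)) (T.h (T.h (M (nat_lit 1005453191)) (T.h (P (nat_lit 0)) (T.h (P (nat_lit 116125270296)) (T.h (P (nat_lit 0)) (M (nat_lit 1718414433647)))))) (T.h (P (nat_lit 0)) (T.h (T.h (P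 (nat_lit 24707823416)) (T.h (P (nat_lit 0)) (M (nat_lit 1264163799243)))) (T.h (P (nat_lit 0)) (M (nat_lit 589970153271))))))) (T.h (T.h (T.h (P (nat_lit 0)) (T.h (M (nat_lit 11496425135)) (T.h (P (nat_lit 0)) (T.h (P (nat_lit 43112562820)) (T.h (P (nat_lit 0)) (P (nat_lit 1212244558260))))))) (T.h (P (nat_lit 0)) (T.h (T.h (P (nat_lit 0)) (T.h (P (nat_lit 392313084200)) (T.h (P (nat_lit 0)) (M (nat_lit 2757080212355))))) (T.h (P (nat_lit 0)) (T.h (T.h (P (nat_lit 0)) (P (nat_lit 928315309384))) (P (nat_lit 0))))))) (T.h (T.h (P (nat_lit 0)) (T.h (T.h (M (nat_lit 159495383239)) (T.h (P (nat_lit 0)) (P (nat_lit 1170943758824)))) (T.h (P (nat_lit 0)) (P (nat_lit 2325163828384))))) (T.h (T.h (T.h (P (nat_lit 0)) (T.h (M (nat_lit 835634284947)) (T.h (P (nat_lit 0)) (M (nat_lit 2118445974907))))) (T.h (P (nat_lit 0)) (T.h (T.h (P (nat_lit 0)) (M (nat_lit 7308089792751))) (P (nat_lit 0)))))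 (T.h (T.h (P (nat_lit 0)) (P (nat_lit 886689442716))) (T.h (T.h (T.h (P (nat_lit 0)) (P (nat_lit 1940724771120))) (P (nat_lit 0))) (P (nat_lit 0)))))))) (P (nat_lit 0)))) (T.h (T.h (T.h (T.h (T.h (P (nat_lit 0)) (T.h (M (nat_lit 2383922647)) (T.h (P (nat_lit 0)) (T.h (P (nat_lit 10353611252)) (T.h (P (nat_lit 0)) (M (nat_lit 708000869723))))))) (T.h (P (nat_lit 0)) (T.h (T.h (P (nat_lit 0)) (T.h (P (nat_lit 56741216464)) (T.h (P (nat_lit 0)) (P (nat_lit 121219629656))))) (T.h (P (nat_lit 0)) (T.h (T.h (P (nat_lit 0)) (M (nat_lit 182277069183))) (P (nat_lit 0))))))) (T.h (T.h (P (nat_lit 0)) (T.h (T.h (P (nat_lit 12574165172)) (T.h (P (nat_lit 0)) (T.h (M (nat_lit 228409913759)) (T.h (P (nat_lit 0)) (P (nat_lit 3735021216888)))))) (T.h (P (nat_lit 0)) (T.h (T.h (P (nat_lit 591666765864)) (T.h (P (nat_lit 0)) (M (nat_lit 1550038628987)))) (T.h (P (nat_lit 0)) (P (nat_lit 769832793232)))))))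 (T.h (T.h (T.h (P (nat_lit 0)) (T.h (P (nat_lit 116148166944)) (T.h (P (nat_lit 0)) (P (nat_lit 41423015040))))) (T.h (P (nat_lit 0)) (T.h (T.h (P (nat_lit 0)) (M (nat_lit 1926135281795))) (P (nat_lit 0))))) (T.h (T.h (P (nat_lit 0)) (T.h (T.h (P (nat_lit 70595032284)) (T.h (P (nat_lit 0)) (M (nat_lit 7503098404291)))) (T.h (P (nat_lit 0)) (M (nat_lit 5470016527011))))) (T.h (T.h (T.h (P (nat_lit 0)) (P (nat_lit 1083326285612))) (P (nat_lit 0))) (T.h (T.h (P (nat_lit 0)) (M (nat_lit 1436367616747))) (P (nat_lit 0)))))))) (P (nat_lit 0))) (P (nat_lit 0)))))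
def en12_1 : T ℤ := (T.h (T.h (P (nat_lit 0)) (T.h (P (nat_lit 0)) (T.h (P (nat_lit 0)) (T.h (P (nat_lit 0)) (T.h (P (nat_lit 0)) (T.h (T.h (T.h (P (nat_lit 0)) (T.h (T.h (M (nat_lit 2383922647)) (T.h (P (nat_lit 0)) (T.h (P (nat_lit 56741216464)) (T.h (P (nat_lit 0)) (M (nat_lit 182277069183)))))) (T.h (P (nat_lit 0)) (T.h (T.h (P (nat_lit 10353611252)) (T.h (P (nat_lit 0)) (P (nat_lit 121219629656)))) (T.h (P (nat_lit 0)) (M (nat_lit 708000869723))))))) (T.h (T.h (T.h (P (nat_lit 0)) (T.h (P (nat_lit 12574165172)) (T.h (P (nat_lit 0)) (T.h (P (nat_lit 591666765864)) (T.h (P (nat_lit 0)) (P (nat_lit 769832793232))))))) (T.h (P (nat_lit 0)) (T.h (T.h (P (nat_lit 0)) (T.h (M (nat_lit 228409913759)) (T.h (P (nat_lit 0)) (M (nat_lit 1550038628987))))) (T.h (P (nat_lit 0)) (T.h (T.h (P (nat_lit 0)) (P (nat_lit 3735021216888))) (P (nat_lit 0))))))) (T.h (T.h (P (nat_lit 0)) (T.h (T.h (P (nat_lit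 116148166944)) (T.h (P (nat_lit 0)) (M (nat_lit 1926135281795)))) (T.h (P (nat_lit 0)) (P (nat_lit 41423015040))))) (T.h (T.h (T.h (P (nat_lit 0)) (T.h (P (nat_lit 70595032284)) (T.h (P (nat_lit 0)) (M (nat_lit 5470016527011))))) (T.h (P (nat_lit 0)) (T.h (T.h (P (nat_lit 0)) (M (nat_lit 7503098404291))) (P (nat_lit 0))))) (T.h (T.h (P (nat_lit 0)) (P (nat_lit 1083326285612))) (T.h (T.h (T.h (P (nat_lit 0)) (M (nat_lit 1436367616747))) (P (nat_lit 0))) (P (nat_lit 0)))))))) (P (nat_lit 0)))))))) (T.h (T.h (P (nat_lit 0)) (T.h (P (nat_lit 0)) (T.h (P (nat_lit 0)) (T.h (P (nat_lit 0)) (T.h (T.h (T.h (T.h (P (nat_lit 0)) (T.h (M (nat_lit 1005453191)) (T.h (P (nat_lit 0)) (T.h (P (nat_lit 24707823416)) (T.h (P (nat_lit 0)) (M (nat_lit 589970153271))))))) (T.h (P (nat_lit 0)) (T.h (T.h (P (nat_lit 0)) (T.h (P (nat_lit 116125270296)) (T.h (P (nat_lit 0)) (M (nat_lit 1264163799243))))) (T.h (P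 (nat_lit 0)) (T.h (T.h (P (nat_lit 0)) (M (nat_lit 1718414433647))) (P (nat_lit 0))))))) (T.h (T.h (P (nat_lit 0)) (T.h (T.h (M (nat_lit 11496425135)) (T.h (P (nat_lit 0)) (T.h (P (nat_lit 392313084200)) (T.h (P (nat_lit 0)) (P (nat_lit 928315309384)))))) (T.h (P (nat_lit 0)) (T.h (T.h (P (nat_lit 43112562820)) (T.h (P (nat_lit 0)) (M (nat_lit 2757080212355)))) (T.h (P (nat_lit 0)) (P (nat_lit 1212244558260))))))) (T.h (T.h (T.h (P (nat_lit 0)) (T.h (M (nat_lit 159495383239)) (T.h (P (nat_lit 0)) (P (nat_lit 2325163828384))))) (T.h (P (nat_lit 0)) (T.h (T.h (P (nat_lit 0)) (P (nat_lit 1170943758824))) (P (nat_lit 0))))) (T.h (T.h (P (nat_lit 0)) (T.h (T.h (M (nat_lit 835634284947)) (T.h (P (nat_lit 0)) (M (nat_lit 7308089792751)))) (T.h (P (nat_lit 0)) (M (nat_lit 2118445974907))))) (T.h (T.h (T.h (P (nat_lit 0)) (P (nat_lit 886689442716))) (P (nat_lit 0))) (T.h (T.h (P (nat_lit 0)) (P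 (nat_lit 1940724771120))) (P (nat_lit 0)))))))) (P (nat_lit 0))))))) (T.h (T.h (P (nat_lit 0)) (T.h (P (nat_lit 0)) (T.h (P (nat_lit 0)) (T.h (T.h (T.h (P (nat_lit 0)) (T.h (T.h (M (nat_lit 4693879731)) (T.h (P (nat_lit 0)) (T.h (M (nat_lit 212718285623)) (T.h (P (nat_lit 0)) (M (nat_lit 119101972831)))))) (T.h (P (nat_lit 0)) (T.h (T.h (M (nat_lit 16731300471)) (T.h (P (nat_lit 0)) (P (nat_lit 983898090968)))) (T.h (P (nat_lit 0)) (M (nat_lit 1067518546335))))))) (T.h (T.h (T.h (P (nat_lit 0)) (T.h (P (nat_lit 29561643828)) (T.h (P (nat_lit 0)) (T.h (M (nat_lit 1379964613271)) (T.h (P (nat_lit 0)) (P (nat_lit 3978618366524))))))) (T.h (P (nat_lit 0)) (T.h (T.h (P (nat_lit 0)) (T.h (M (nat_lit 1810307616527)) (T.h (P (nat_lit 0)) (M (nat_lit 5426004511023))))) (T.h (P (nat_lit 0)) (T.h (T.h (P (nat_lit 0)) (P (nat_lit 8483273430000))) (P (nat_lit 0))))))) (T.h (T.h (P (nat_lit 0)) (T.h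 (T.h (P (nat_lit 83229404936)) (T.h (P (nat_lit 0)) (P (nat_lit 1651761425276)))) (T.h (P (nat_lit 0)) (P (nat_lit 2209474355508))))) (T.h (T.h (T.h (P (nat_lit 0)) (T.h (P (nat_lit 1016351402616)) (T.h (P (nat_lit 0)) (M (nat_lit 2763195627831))))) (T.h (P (nat_lit 0)) (T.h (T.h (P (nat_lit 0)) (P (nat_lit 4444848130800))) (P (nat_lit 0))))) (T.h (T.h (P (nat_lit 0)) (M (nat_lit 44548310679))) (T.h (T.h (T.h (P (nat_lit 0)) (M (nat_lit 413162212915))) (P (nat_lit 0))) (P (nat_lit 0)))))))) (P (nat_lit 0)))))) en12_0)))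
def en12_2 : T ℤ := (T.h (T.h (P (nat_lit 0)) (T.h (P (nat_lit 0)) (T.h (T.h (T.h (T.h (P (nat_lit 211464)) (T.h (P (nat_lit 0)) (T.h (P (nat_lit 12774620284)) (T.h (P (nat_lit 0)) (T.h (M (nat_lit 177559693199)) (T.h (P (nat_lit 0)) (P (nat_lit 690634833588)))))))) (T.h (P (nat_lit 0)) (T.h (T.h (P (nat_lit 12774620284)) (T.h (P (nat_lit 0)) (T.h (P (nat_lit 3082215795048)) (T.h (P (nat_lit 0)) (M (nat_lit 2820982517003)))))) (T.h (P (nat_lit 0)) (T.h (T.h (M (nat_lit 177559693199)) (T.h (P (nat_lit 0)) (M (nat_lit 2820982517003)))) (T.h (P (nat_lit 0)) (P (nat_lit 690634833588)))))))) (T.h (T.h (P (nat_lit 0)) (T.h (T.h (P (nat_lit 0)) (T.h (P (nat_lit 702424718080)) (T.h (P (nat_lit 0)) (M (nat_lit 6705230609311))))) (T.h (P (nat_lit 0)) (T.h (T.h (P (nat_lit 0)) (M (nat_lit 6705230609311))) (P (nat_lit 0)))))) (T.h (T.h (T.h (M (nat_lit 21377062463)) (T.h (P (nat_lit 0)) (T.h (M (nat_lit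 1241051607091)) (T.h (P (nat_lit 0)) (M (nat_lit 7111376641019)))))) (T.h (P (nat_lit 0)) (T.h (T.h (M (nat_lit 1241051607091)) (T.h (P (nat_lit 0)) (M (nat_lit 7683027584759)))) (T.h (P (nat_lit 0)) (M (nat_lit 7111376641019)))))) (T.h (T.h (P (nat_lit 0)) (T.h (T.h (P (nat_lit 0)) (M (nat_lit 8231139134471))) (P (nat_lit 0)))) (T.h (T.h (T.h (P (nat_lit 76569346616)) (T.h (P (nat_lit 0)) (P (nat_lit 6943434506772)))) (T.h (P (nat_lit 0)) (P (nat_lit 6943434506772)))) (T.h (P (nat_lit 0)) (M (nat_lit 3494338035767)))))))) (P (nat_lit 0))))) (T.h (T.h (P (nat_lit 0)) (T.h (T.h (T.h (P (nat_lit 0)) (T.h (T.h (P (nat_lit 0)) (T.h (M (nat_lit 26856884215)) (T.h (P (nat_lit 0)) (T.h (P (nat_lit 975601779632)) (T.h (P (nat_lit 0)) (M (nat_lit 2014119277903))))))) (T.h (P (nat_lit 0)) (T.h (T.h (P (nat_lit 0)) (T.h (P (nat_lit 1119562113960)) (T.h (P (nat_lit 0)) (P (nat_lit 1173641327712)))))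 (T.h (P (nat_lit 0)) (T.h (T.h (P (nat_lit 0)) (M (nat_lit 4963408252983))) (P (nat_lit 0)))))))) (T.h (T.h (T.h (P (nat_lit 7161361388)) (T.h (P (nat_lit 0)) (T.h (P (nat_lit 192278614564)) (T.h (P (nat_lit 0)) (P (nat_lit 1690604214488)))))) (T.h (P (nat_lit 0)) (T.h (T.h (P (nat_lit 38927374516)) (T.h (P (nat_lit 0)) (M (nat_lit 6234088213771)))) (T.h (P (nat_lit 0)) (P (nat_lit 3715246614160)))))) (T.h (T.h (P (nat_lit 0)) (T.h (T.h (P (nat_lit 0)) (T.h (P (nat_lit 809109271864)) (T.h (P (nat_lit 0)) (P (nat_lit 7773550104400))))) (T.h (P (nat_lit 0)) (T.h (T.h (P (nat_lit 0)) (P (nat_lit 1945001847080))) (P (nat_lit 0)))))) (T.h (T.h (T.h (P (nat_lit 77131190036)) (T.h (P (nat_lit 0)) (P (nat_lit 1646704496892)))) (T.h (P (nat_lit 0)) (M (nat_lit 1289617449611)))) (T.h (T.h (P (nat_lit 0)) (T.h (T.h (P (nat_lit 0)) (M (nat_lit 6292256233127))) (P (nat_lit 0)))) (P (nat_lit 994614169992)))))))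 (P (nat_lit 0)))) (T.h (T.h (T.h (T.h (T.h (M (nat_lit 12760647)) (T.h (P (nat_lit 0)) (T.h (P (nat_lit 938202856)) (T.h (P (nat_lit 0)) (T.h (M (nat_lit 171298842331)) (T.h (P (nat_lit 0)) (P (nat_lit 105879339488)))))))) (T.h (P (nat_lit 0)) (T.h (T.h (M (nat_lit 32116997963)) (T.h (P (nat_lit 0)) (T.h (M (nat_lit 164135869263)) (T.h (P (nat_lit 0)) (P (nat_lit 125580431384)))))) (T.h (P (nat_lit 0)) (T.h (T.h (P (nat_lit 71249549412)) (T.h (P (nat_lit 0)) (M (nat_lit 10620906495)))) (T.h (P (nat_lit 0)) (M (nat_lit 1590477166911)))))))) (T.h (T.h (P (nat_lit 0)) (T.h (T.h (P (nat_lit 0)) (T.h (M (nat_lit 110884588335)) (T.h (P (nat_lit 0)) (M (nat_lit 1291226184619))))) (T.h (P (nat_lit 0)) (T.h (T.h (P (nat_lit 0)) (M (nat_lit 3920371806691))) (P (nat_lit 0)))))) (T.h (T.h (T.h (P (nat_lit 8109020592)) (T.h (P (nat_lit 0)) (T.h (M (nat_lit 996541480579)) (T.h (P (nat_lit 0)) (P (nat_lit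 1287534055728)))))) (T.h (P (nat_lit 0)) (T.h (T.h (P (nat_lit 1395129957320)) (T.h (P (nat_lit 0)) (M (nat_lit 8269173857615)))) (T.h (P (nat_lit 0)) (M (nat_lit 3681753418175)))))) (T.h (T.h (P (nat_lit 0)) (T.h (T.h (P (nat_lit 0)) (M (nat_lit 1407278983663))) (P (nat_lit 0)))) (T.h (T.h (T.h (M (nat_lit 183061420647)) (T.h (P (nat_lit 0)) (P (nat_lit 695349384048)))) (T.h (P (nat_lit 0)) (M (nat_lit 8604794691335)))) (T.h (P (nat_lit 0)) (P (nat_lit 1053985910428)))))))) (P (nat_lit 0))) (P (nat_lit 0)))))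
def en12_3 : T ℤ := (T.h (T.h (P (nat_lit 0)) (T.h (P (nat_lit 0)) (T.h (T.h (T.h (T.h (P (nat_lit 0)) (T.h (P (nat_lit 436084992)) (T.h (P (nat_lit 0)) (T.h (P (nat_lit 15325386280)) (T.h (P (nat_lit 0)) (P (nat_lit 1878627261028))))))) (T.h (P (nat_lit 0)) (T.h (T.h (P (nat_lit 0)) (T.h (M (nat_lit 364546188755)) (T.h (P (nat_lit 0)) (M (nat_lit 4005529092007))))) (T.h (P (nat_lit 0)) (T.h (T.h (P (nat_lit 0)) (M (nat_lit 1719783623495))) (P (nat_lit 0))))))) (T.h (T.h (P (nat_lit 0)) (T.h (T.h (M (nat_lit 25337248875)) (T.h (P (nat_lit 0)) (T.h (P (nat_lit 2513072090332)) (T.h (P (nat_lit 0)) (P (nat_lit 1208509307452)))))) (T.h (P (nat_lit 0)) (T.h (T.h (M (nat_lit 327213260563)) (T.h (P (nat_lit 0)) (M (nat_lit 6383399513719)))) (T.h (P (nat_lit 0)) (P (nat_lit 1796689534244))))))) (T.h (T.h (T.h (P (nat_lit 0)) (T.h (P (nat_lit 406908050732)) (T.h (P (nat_lit 0)) (P (nat_lit 1172310172140)))))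 (T.h (P (nat_lit 0)) (T.h (T.h (P (nat_lit 0)) (M (nat_lit 4292097099051))) (P (nat_lit 0))))) (T.h (T.h (P (nat_lit 0)) (T.h (T.h (M (nat_lit 595485136467)) (T.h (P (nat_lit 0)) (P (nat_lit 2820026257768)))) (T.h (P (nat_lit 0)) (P (nat_lit 830972289732))))) (T.h (T.h (T.h (P (nat_lit 0)) (M (nat_lit 4184976990083))) (P (nat_lit 0))) (T.h (T.h (P (nat_lit 0)) (M (nat_lit 121425883467))) (P (nat_lit 0)))))))) (P (nat_lit 0))))) (T.h (T.h (P (nat_lit 0)) (T.h (T.h (T.h (P (nat_lit 0)) (T.h (T.h (P (nat_lit 436084992)) (T.h (P (nat_lit 0)) (T.h (M (nat_lit 364546188755)) (T.h (P (nat_lit 0)) (M (nat_lit 1719783623495)))))) (T.h (P (nat_lit 0)) (T.h (T.h (P (nat_lit 15325386280)) (T.h (P (nat_lit 0)) (M (nat_lit 4005529092007)))) (T.h (P (nat_lit 0)) (P (nat_lit 1878627261028))))))) (T.h (T.h (T.h (P (nat_lit 0)) (T.h (M (nat_lit 25337248875)) (T.h (P (nat_lit 0)) (T.h (M (nat_lit 327213260563))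 (T.h (P (nat_lit 0)) (P (nat_lit 1796689534244))))))) (T.h (P (nat_lit 0)) (T.h (T.h (P (nat_lit 0)) (T.h (P (nat_lit 2513072090332)) (T.h (P (nat_lit 0)) (M (nat_lit 6383399513719))))) (T.h (P (nat_lit 0)) (T.h (T.h (P (nat_lit 0)) (P (nat_lit 1208509307452))) (P (nat_lit 0))))))) (T.h (T.h (P (nat_lit 0)) (T.h (T.h (P (nat_lit 406908050732)) (T.h (P (nat_lit 0)) (M (nat_lit 4292097099051)))) (T.h (P (nat_lit 0)) (P (nat_lit 1172310172140))))) (T.h (T.h (T.h (P (nat_lit 0)) (T.h (M (nat_lit 595485136467)) (T.h (P (nat_lit 0)) (P (nat_lit 830972289732))))) (T.h (P (nat_lit 0)) (T.h (T.h (P (nat_lit 0)) (P (nat_lit 2820026257768))) (P (nat_lit 0))))) (T.h (T.h (P (nat_lit 0)) (M (nat_lit 4184976990083))) (T.h (T.h (T.h (P (nat_lit 0)) (M (nat_lit 121425883467))) (P (nat_lit 0))) (P (nat_lit 0)))))))) (P (nat_lit 0)))) (T.h (T.h (T.h (T.h (T.h (P (nat_lit 0)) (T.h (M (nat_lit 1344422851))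 (T.h (P (nat_lit 0)) (T.h (P (nat_lit 83704507280)) (T.h (P (nat_lit 0)) (P (nat_lit 1160399771588))))))) (T.h (P (nat_lit 0)) (T.h (T.h (P (nat_lit 0)) (T.h (M (nat_lit 71470187659)) (T.h (P (nat_lit 0)) (M (nat_lit 2320544183159))))) (T.h (P (nat_lit 0)) (T.h (T.h (P (nat_lit 0)) (P (nat_lit 1265945260920))) (P (nat_lit 0))))))) (T.h (T.h (P (nat_lit 0)) (T.h (T.h (M (nat_lit 57215717103)) (T.h (P (nat_lit 0)) (T.h (P (nat_lit 2515901878756)) (T.h (P (nat_lit 0)) (P (nat_lit 6504311476268)))))) (T.h (P (nat_lit 0)) (T.h (T.h (M (nat_lit 189708478791)) (T.h (P (nat_lit 0)) (M (nat_lit 7278854542915)))) (T.h (P (nat_lit 0)) (M (nat_lit 5541172456307))))))) (T.h (T.h (T.h (P (nat_lit 0)) (T.h (M (nat_lit 27184659123)) (T.h (P (nat_lit 0)) (M (nat_lit 1333690518759))))) (T.h (P (nat_lit 0)) (T.h (T.h (P (nat_lit 0)) (M (nat_lit 4547862692951))) (P (nat_lit 0))))) (T.h (T.h (P (nat_lit 0))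 (T.h (T.h (P (nat_lit 580285195840)) (T.h (P (nat_lit 0)) (M (nat_lit 10205158610367)))) (T.h (P (nat_lit 0)) (P (nat_lit 2490861891128))))) (T.h (T.h (T.h (P (nat_lit 0)) (P (nat_lit 1211219816704))) (P (nat_lit 0))) (T.h (T.h (P (nat_lit 0)) (M (nat_lit 3974770049735))) (P (nat_lit 0)))))))) (P (nat_lit 0))) (P (nat_lit 0)))))
def en12_4 : T ℤ := (T.h (T.h (P (nat_lit 0)) (T.h (P (nat_lit 0)) (T.h (T.h (T.h (T.h (M (nat_lit 119404347)) (T.h (P (nat_lit 0)) (T.h (P (nat_lit 25570227712)) (T.h (P (nat_lit 0)) (T.h (M (nat_lit 229974072195)) (T.h (P (nat_lit 0)) (M (nat_lit 106719277431)))))))) (T.h (P (nat_lit 0)) (T.h (T.h (P (nat_lit 3862611960)) (T.h (P (nat_lit 0)) (T.h (P (nat_lit 510247567124)) (T.h (P (nat_lit 0)) (P (nat_lit 1276645726444)))))) (T.h (P (nat_lit 0)) (T.h (T.h (M (nat_lit 53009107523)) (T.h (P (nat_lit 0)) (P (nat_lit 4026995669712)))) (T.h (P (nat_lit 0)) (M (nat_lit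 195045231971)))))))) (T.h (T.h (P (nat_lit 0)) (T.h (T.h (P (nat_lit 0)) (T.h (M (nat_lit 179919946055)) (T.h (P (nat_lit 0)) (P (nat_lit 1312945551332))))) (T.h (P (nat_lit 0)) (T.h (T.h (P (nat_lit 0)) (M (nat_lit 1643179897595))) (P (nat_lit 0)))))) (T.h (T.h (T.h (M (nat_lit 18628008935)) (T.h (P (nat_lit 0)) (T.h (P (nat_lit 201129027524)) (T.h (P (nat_lit 0)) (M (nat_lit 4390673657239)))))) (T.h (P (nat_lit 0)) (T.h (T.h (P (nat_lit 432044062904)) (T.h (P (nat_lit 0)) (M (nat_lit 7122576288563)))) (T.h (P (nat_lit 0)) (P (nat_lit 319506885788)))))) (T.h (T.h (P (nat_lit 0)) (T.h (T.h (P (nat_lit 0)) (M (nat_lit 2275519083571))) (P (nat_lit 0)))) (T.h (T.h (T.h (M (nat_lit 129675155871)) (T.h (P (nat_lit 0)) (M (nat_lit 3820085740867)))) (T.h (P (nat_lit 0)) (P (nat_lit 5275681209880)))) (T.h (P (nat_lit 0)) (M (nat_lit 591636035467)))))))) (P (nat_lit 0))))) (T.h (T.h (P (nat_lit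 0)) (T.h (T.h (T.h (P (nat_lit 0)) (T.h (T.h (P (nat_lit 0)) (T.h (P (nat_lit 42210091152)) (T.h (P (nat_lit 0)) (T.h (P (nat_lit 853403005392)) (T.h (P (nat_lit 0)) (M (nat_lit 2972638573519))))))) (T.h (P (nat_lit 0)) (T.h (T.h (P (nat_lit 0)) (T.h (P (nat_lit 853403005392)) (T.h (P (nat_lit 0)) (P (nat_lit 4839873406384))))) (T.h (P (nat_lit 0)) (T.h (T.h (P (nat_lit 0)) (M (nat_lit 2972638573519))) (P (nat_lit 0)))))))) (T.h (T.h (T.h (P (nat_lit 3566002664)) (T.h (P (nat_lit 0)) (T.h (P (nat_lit 68523834904)) (T.h (P (nat_lit 0)) (P (nat_lit 267150474056)))))) (T.h (P (nat_lit 0)) (T.h (T.h (P (nat_lit 68523834904)) (T.h (P (nat_lit 0)) (P (nat_lit 4201796739768)))) (T.h (P (nat_lit 0)) (P (nat_lit 267150474056)))))) (T.h (T.h (P (nat_lit 0)) (T.h (T.h (P (nat_lit 0)) (T.h (P (nat_lit 554442990368)) (T.h (P (nat_lit 0)) (P (nat_lit 6319070416704))))) (T.h (P (nat_lit 0)) (T.h (T.h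 (P (nat_lit 0)) (P (nat_lit 6319070416704))) (P (nat_lit 0)))))) (T.h (T.h (T.h (P (nat_lit 145997013416)) (T.h (P (nat_lit 0)) (M (nat_lit 173189026847)))) (T.h (P (nat_lit 0)) (M (nat_lit 173189026847)))) (T.h (T.h (P (nat_lit 0)) (T.h (T.h (P (nat_lit 0)) (M (nat_lit 274791612911))) (P (nat_lit 0)))) (P (nat_lit 15761582832))))))) (P (nat_lit 0)))) (T.h (T.h (T.h (T.h (T.h (M (nat_lit 119404347)) (T.h (P (nat_lit 0)) (T.h (P (nat_lit 3862611960)) (T.h (P (nat_lit 0)) (T.h (M (nat_lit 53009107523)) (T.h (P (nat_lit 0)) (M (nat_lit 195045231971)))))))) (T.h (P (nat_lit 0)) (T.h (T.h (P (nat_lit 25570227712)) (T.h (P (nat_lit 0)) (T.h (P (nat_lit 510247567124)) (T.h (P (nat_lit 0)) (P (nat_lit 4026995669712)))))) (T.h (P (nat_lit 0)) (T.h (T.h (M (nat_lit 229974072195)) (T.h (P (nat_lit 0)) (P (nat_lit 1276645726444)))) (T.h (P (nat_lit 0)) (M (nat_lit 106719277431)))))))) (T.h (T.h (P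 (nat_lit 0)) (T.h (T.h (P (nat_lit 0)) (T.h (M (nat_lit 179919946055)) (T.h (P (nat_lit 0)) (M (nat_lit 1643179897595))))) (T.h (P (nat_lit 0)) (T.h (T.h (P (nat_lit 0)) (P (nat_lit 1312945551332))) (P (nat_lit 0)))))) (T.h (T.h (T.h (M (nat_lit 18628008935)) (T.h (P (nat_lit 0)) (T.h (P (nat_lit 432044062904)) (T.h (P (nat_lit 0)) (P (nat_lit 319506885788)))))) (T.h (P (nat_lit 0)) (T.h (T.h (P (nat_lit 201129027524)) (T.h (P (nat_lit 0)) (M (nat_lit 7122576288563)))) (T.h (P (nat_lit 0)) (M (nat_lit 4390673657239)))))) (T.h (T.h (P (nat_lit 0)) (T.h (T.h (P (nat_lit 0)) (M (nat_lit 2275519083571))) (P (nat_lit 0)))) (T.h (T.h (T.h (M (nat_lit 129675155871)) (T.h (P (nat_lit 0)) (P (nat_lit 5275681209880)))) (T.h (P (nat_lit 0)) (M (nat_lit 3820085740867)))) (T.h (P (nat_lit 0)) (M (nat_lit 591636035467)))))))) (P (nat_lit 0))) (P (nat_lit 0)))))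
def en12_5 : T ℤ := (T.h (T.h (T.h (P (nat_lit 0)) (T.h (T.h (T.h (P (nat_lit 0)) (T.h (T.h (M (nat_lit 1612727163)) (T.h (P (nat_lit 0)) (T.h (M (nat_lit 11181057887)) (T.h (P (nat_lit 0)) (P (nat_lit 1484332531176)))))) (T.h (P (nat_lit 0)) (T.h (T.h (M (nat_lit 9111655335)) (T.h (P (nat_lit 0)) (M (nat_lit 2150771725343)))) (T.h (P (nat_lit 0)) (M (nat_lit 795714085111))))))) (T.h (T.h (T.h (P (nat_lit 0)) (T.h (P (nat_lit 18504657132)) (T.h (P (nat_lit 0)) (T.h (P (nat_lit 391416665988)) (T.h (P (nat_lit 0)) (M (nat_lit 2906166795823))))))) (T.h (P (nat_lit 0)) (T.h (T.h (P (nat_lit 0)) (T.h (P (nat_lit 324555929508)) (T.h (P (nat_lit 0)) (M (nat_lit 9607090340507))))) (T.h (P (nat_lit 0)) (T.h (T.h (P (nat_lit 0)) (P (nat_lit 2385746116784))) (P (nat_lit 0))))))) (T.h (T.h (P (nat_lit 0)) (T.h (T.h (M (nat_lit 47995474203)) (T.h (P (nat_lit 0)) (P (nat_lit 1338685561368)))) (T.h (P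 (nat_lit 0)) (P (nat_lit 354922818008))))) (T.h (T.h (T.h (P (nat_lit 0)) (T.h (P (nat_lit 381143098160)) (T.h (P (nat_lit 0)) (P (nat_lit 138521113596))))) (T.h (P (nat_lit 0)) (T.h (T.h (P (nat_lit 0)) (P (nat_lit 42063001100))) (P (nat_lit 0))))) (T.h (T.h (P (nat_lit 0)) (M (nat_lit 372035609447))) (T.h (T.h (T.h (P (nat_lit 0)) (M (nat_lit 2129304668547))) (P (nat_lit 0))) (P (nat_lit 0)))))))) (P (nat_lit 0)))) (T.h (T.h (T.h (T.h (T.h (P (nat_lit 0)) (T.h (M (nat_lit 1612727163)) (T.h (P (nat_lit 0)) (T.h (M (nat_lit 9111655335)) (T.h (P (nat_lit 0)) (M (nat_lit 795714085111))))))) (T.h (P (nat_lit 0)) (T.h (T.h (P (nat_lit 0)) (T.h (M (nat_lit 11181057887)) (T.h (P (nat_lit 0)) (M (nat_lit 2150771725343))))) (T.h (P (nat_lit 0)) (T.h (T.h (P (nat_lit 0)) (P (nat_lit 1484332531176))) (P (nat_lit 0))))))) (T.h (T.h (P (nat_lit 0)) (T.h (T.h (P (nat_lit 18504657132)) (T.h (P (nat_lit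 0)) (T.h (P (nat_lit 324555929508)) (T.h (P (nat_lit 0)) (P (nat_lit 2385746116784)))))) (T.h (P (nat_lit 0)) (T.h (T.h (P (nat_lit 391416665988)) (T.h (P (nat_lit 0)) (M (nat_lit 9607090340507)))) (T.h (P (nat_lit 0)) (M (nat_lit 2906166795823))))))) (T.h (T.h (T.h (P (nat_lit 0)) (T.h (M (nat_lit 47995474203)) (T.h (P (nat_lit 0)) (P (nat_lit 354922818008))))) (T.h (P (nat_lit 0)) (T.h (T.h (P (nat_lit 0)) (P (nat_lit 1338685561368))) (P (nat_lit 0))))) (T.h (T.h (P (nat_lit 0)) (T.h (T.h (P (nat_lit 381143098160)) (T.h (P (nat_lit 0)) (P (nat_lit 42063001100)))) (T.h (P (nat_lit 0)) (P (nat_lit 138521113596))))) (T.h (T.h (T.h (P (nat_lit 0)) (M (nat_lit 372035609447))) (P (nat_lit 0))) (T.h (T.h (P (nat_lit 0)) (M (nat_lit 2129304668547))) (P (nat_lit 0)))))))) (P (nat_lit 0))) (P (nat_lit 0)))) (T.h (T.h (T.h (T.h (T.h (T.h (P (nat_lit 110569104)) (T.h (P (nat_lit 0)) (T.h (M (nat_lit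 1427646319)) (T.h (P (nat_lit 0)) (T.h (M (nat_lit 370987643)) (T.h (P (nat_lit 0)) (P (nat_lit 149886070820)))))))) (T.h (P (nat_lit 0)) (T.h (T.h (M (nat_lit 1427646319)) (T.h (P (nat_lit 0)) (T.h (P (nat_lit 118532179480)) (T.h (P (nat_lit 0)) (P (nat_lit 326732416568)))))) (T.h (P (nat_lit 0)) (T.h (T.h (M (nat_lit 370987643)) (T.h (P (nat_lit 0)) (P (nat_lit 326732416568)))) (T.h (P (nat_lit 0)) (P (nat_lit 149886070820)))))))) (T.h (T.h (P (nat_lit 0)) (T.h (T.h (P (nat_lit 0)) (T.h (P (nat_lit 3794091952)) (T.h (P (nat_lit 0)) (M (nat_lit 351394207459))))) (T.h (P (nat_lit 0)) (T.h (T.h (P (nat_lit 0)) (M (nat_lit 351394207459))) (P (nat_lit 0)))))) (T.h (T.h (T.h (M (nat_lit 374445183)) (T.h (P (nat_lit 0)) (T.h (P (nat_lit 159381032928)) (T.h (P (nat_lit 0)) (M (nat_lit 2277572126047)))))) (T.h (P (nat_lit 0)) (T.h (T.h (P (nat_lit 159381032928)) (T.h (P (nat_lit 0)) (M (nat_lit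 3819756975759)))) (T.h (P (nat_lit 0)) (M (nat_lit 2277572126047)))))) (T.h (T.h (P (nat_lit 0)) (T.h (T.h (P (nat_lit 0)) (M (nat_lit 25907830327))) (P (nat_lit 0)))) (T.h (T.h (T.h (P (nat_lit 49669213400)) (T.h (P (nat_lit 0)) (M (nat_lit 486787971551)))) (T.h (P (nat_lit 0)) (M (nat_lit 486787971551)))) (T.h (P (nat_lit 0)) (M (nat_lit 686959597487)))))))) (P (nat_lit 0))) (P (nat_lit 0))) (P (nat_lit 0))))
def en12_6 : T ℤ := (T.h (T.h (T.h (P (nat_lit 0)) (T.h (P (nat_lit 0)) (T.h (P (nat_lit 0)) (T.h (P (nat_lit 0)) (T.h (T.h (T.h (T.h (M (nat_lit 12760647)) (T.h (P (nat_lit 0)) (T.h (M (nat_lit 32116997963)) (T.h (P (nat_lit 0)) (T.h (P (nat_lit 71249549412)) (T.h (P (nat_lit 0)) (M (nat_lit 1590477166911)))))))) (T.h (P (nat_lit 0)) (T.h (T.h (P (nat_lit 938202856)) (T.h (P (nat_lit 0)) (T.h (M (nat_lit 164135869263)) (T.h (P (nat_lit 0)) (M (nat_lit 10620906495)))))) (T.h (P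 (nat_lit 0)) (T.h (T.h (M (nat_lit 171298842331)) (T.h (P (nat_lit 0)) (P (nat_lit 125580431384)))) (T.h (P (nat_lit 0)) (P (nat_lit 105879339488)))))))) (T.h (T.h (P (nat_lit 0)) (T.h (T.h (P (nat_lit 0)) (T.h (M (nat_lit 110884588335)) (T.h (P (nat_lit 0)) (M (nat_lit 3920371806691))))) (T.h (P (nat_lit 0)) (T.h (T.h (P (nat_lit 0)) (M (nat_lit 1291226184619))) (P (nat_lit 0)))))) (T.h (T.h (T.h (P (nat_lit 8109020592)) (T.h (P (nat_lit 0)) (T.h (P (nat_lit 1395129957320)) (T.h (P (nat_lit 0)) (M (nat_lit 3681753418175)))))) (T.h (P (nat_lit 0)) (T.h (T.h (M (nat_lit 996541480579)) (T.h (P (nat_lit 0)) (M (nat_lit 8269173857615)))) (T.h (P (nat_lit 0)) (P (nat_lit 1287534055728)))))) (T.h (T.h (P (nat_lit 0)) (T.h (T.h (P (nat_lit 0)) (M (nat_lit 1407278983663))) (P (nat_lit 0)))) (T.h (T.h (T.h (M (nat_lit 183061420647)) (T.h (P (nat_lit 0)) (M (nat_lit 8604794691335)))) (T.h (P (nat_lit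 0)) (P (nat_lit 695349384048)))) (T.h (P (nat_lit 0)) (P (nat_lit 1053985910428)))))))) (P (nat_lit 0))))))) (T.h (T.h (P (nat_lit 0)) (T.h (P (nat_lit 0)) (T.h (P (nat_lit 0)) (T.h (T.h (T.h (P (nat_lit 0)) (T.h (T.h (P (nat_lit 0)) (T.h (M (nat_lit 26856884215)) (T.h (P (nat_lit 0)) (T.h (P (nat_lit 1119562113960)) (T.h (P (nat_lit 0)) (M (nat_lit 4963408252983))))))) (T.h (P (nat_lit 0)) (T.h (T.h (P (nat_lit 0)) (T.h (P (nat_lit 975601779632)) (T.h (P (nat_lit 0)) (P (nat_lit 1173641327712))))) (T.h (P (nat_lit 0)) (T.h (T.h (P (nat_lit 0)) (M (nat_lit 2014119277903))) (P (nat_lit 0)))))))) (T.h (T.h (T.h (P (nat_lit 7161361388)) (T.h (P (nat_lit 0)) (T.h (P (nat_lit 38927374516)) (T.h (P (nat_lit 0)) (P (nat_lit 3715246614160)))))) (T.h (P (nat_lit 0)) (T.h (T.h (P (nat_lit 192278614564)) (T.h (P (nat_lit 0)) (M (nat_lit 6234088213771)))) (T.h (P (nat_lit 0)) (P (nat_lit 1690604214488))))))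 (T.h (T.h (P (nat_lit 0)) (T.h (T.h (P (nat_lit 0)) (T.h (P (nat_lit 809109271864)) (T.h (P (nat_lit 0)) (P (nat_lit 1945001847080))))) (T.h (P (nat_lit 0)) (T.h (T.h (P (nat_lit 0)) (P (nat_lit 7773550104400))) (P (nat_lit 0)))))) (T.h (T.h (T.h (P (nat_lit 77131190036)) (T.h (P (nat_lit 0)) (M (nat_lit 1289617449611)))) (T.h (P (nat_lit 0)) (P (nat_lit 1646704496892)))) (T.h (T.h (P (nat_lit 0)) (T.h (T.h (P (nat_lit 0)) (M (nat_lit 6292256233127))) (P (nat_lit 0)))) (P (nat_lit 994614169992))))))) (P (nat_lit 0)))))) en12_2)) (T.h (T.h (T.h (P (nat_lit 0)) (T.h (P (nat_lit 0)) (T.h (P (nat_lit 0)) (T.h (T.h (T.h (P (nat_lit 0)) (T.h (T.h (M (nat_lit 1344422851)) (T.h (P (nat_lit 0)) (T.h (M (nat_lit 71470187659)) (T.h (P (nat_lit 0)) (P (nat_lit 1265945260920)))))) (T.h (P (nat_lit 0)) (T.h (T.h (P (nat_lit 83704507280)) (T.h (P (nat_lit 0)) (M (nat_lit 2320544183159)))) (T.h (P (nat_lit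 0)) (P (nat_lit 1160399771588))))))) (T.h (T.h (T.h (P (nat_lit 0)) (T.h (M (nat_lit 57215717103)) (T.h (P (nat_lit 0)) (T.h (M (nat_lit 189708478791)) (T.h (P (nat_lit 0)) (M (nat_lit 5541172456307))))))) (T.h (P (nat_lit 0)) (T.h (T.h (P (nat_lit 0)) (T.h (P (nat_lit 2515901878756)) (T.h (P (nat_lit 0)) (M (nat_lit 7278854542915))))) (T.h (P (nat_lit 0)) (T.h (T.h (P (nat_lit 0)) (P (nat_lit 6504311476268))) (P (nat_lit 0))))))) (T.h (T.h (P (nat_lit 0)) (T.h (T.h (M (nat_lit 27184659123)) (T.h (P (nat_lit 0)) (M (nat_lit 4547862692951)))) (T.h (P (nat_lit 0)) (M (nat_lit 1333690518759))))) (T.h (T.h (T.h (P (nat_lit 0)) (T.h (P (nat_lit 580285195840)) (T.h (P (nat_lit 0)) (P (nat_lit 2490861891128))))) (T.h (P (nat_lit 0)) (T.h (T.h (P (nat_lit 0)) (M (nat_lit 10205158610367))) (P (nat_lit 0))))) (T.h (T.h (P (nat_lit 0)) (P (nat_lit 1211219816704))) (T.h (T.h (T.h (P (nat_lit 0)) (M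 (nat_lit 3974770049735))) (P (nat_lit 0))) (P (nat_lit 0)))))))) (P (nat_lit 0)))))) en12_3) (T.h en12_4 en12_5)))

def n12 : T ℤ := (T.h en12_1 en12_6)

theorem h_n12 : chkT (c.Nn 1 2 ++ c.Nn 2 1) n12 = true := by decide +kernel


end Pool.Agent.TOPR.R6094
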