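import Pool.Agent.TOPR.R6094.B0
import Pool.Agent.TOPR.R6094.B1
import Pool.Agent.TOPR.R6094.B2
import Pool.Agent.TOPR.R6094.B3
import Pool.Agent.TOPR.R6094.B4
import Pool.Agent.TOPR.R6094.B5
import Pool.Agent.TOPR.R6094.B6
import Pool.Agent.TOPR.R6094.B7
import Pool.Agent.TOPR.R6094.B8

set_option autoImplicit false
set_option linter.all false
set_option maxRecDepth 100000

namespace Pool.Agent.TOPR.R6094

open Helper10.PC hiding V3
open Helper80.CW.DL Pool.Agent.Helper6.TOP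

theorem bas : Bas c t0 t1 t2 n00 n11 n22 n01 n02 n12 := ⟨h_t0, h_t1, h_t2, h_n00, h_n11, h_n22, h_n01, h_n02, h_n12⟩


end Pool.Agent.TOPR.R6094
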